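import Pool.Agent.HexObs.Lower
import Pool.Agent.PHW.Num1

/-!
# The bridge weights `bT` as a sequence: `bT 0 = 1`, monotone (input of the end of the proof)
-/

namespace Pool.Agent.EXL

open HexObs

theorem bT_zero : bT 0 = 1 := by
  have h : uu 0 = 1 := uu_zero
  exact h

theorem bT_one_le : bT 1 ≤ bT 0 := by
  rw [bT_zero]
  have h := bT_add_aT (T := 1) le_rfl
  have h1 : 0 ≤ aT 1 := ENNReal.toReal_nonneg
  have h2 : 0 ≤ Real.cos (3 * Real.pi / 8) :=
    Real.cos_nonneg_of_mem_Icc ⟨by linarith [Real.pi_pos], by linarith [Real.pi_pos]⟩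
  nlinarith [mul_nonneg h2 h1]

theorem bT_anti {m n : ℕ} (h : m ≤ n) : bT n ≤ bT m := by
  induction n, h using Nat.le_induction with
  | base => exact le_rfl
  | succ n _ ih =>
    refine le_trans ?_ ih
    rcases Nat.eq_zero_or_pos n with rfl | hn
    · exact bT_one_le
    · exact bT_antitone hn

theorem bT_nonneg' (n : ℕ) : 0 ≤ bT n := bT_nonneg n

end Pool.Agent.EXL
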