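import Pool.Agent.EXL.H1b

/-!
# The Green function of the columns at the honeycomb point (board EXI, I3b and I4)
-/

set_option autoImplicit false

namespace Pool.Agent.EXL.HS

open Filter Topology

variable {α : Type*} [DecidableEq α]

/-- positive operators. -/
def PosOp (X : (Pat α → ℝ) → (Pat α → ℝ)) : Prop := ∀ F : Pat α → ℝ, (∀ p, 0 ≤ F p) → ∀ p, 0 ≤ X F p

section

variable {b t : α} {A : Pat α → Prop} {X : (Pat α → ℝ) → (Pat α → ℝ)}

omit [DecidableEq α] in
theorem PosOp.mono (hP : PosOp X) (hL : Lin X) {F G : Pat α → ℝ} (h : ∀ p, F p ≤ G p) (p : Pat α) :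
    X F p ≤ X G p := by
  have h1 := hP (fun p => G p - F p) (fun p => sub_nonneg.2 (h p)) p
  rw [hL.sub] at h1
  exact sub_nonneg.1 h1

omit [DecidableEq α] in
theorem PosOp.smul (hL : Lin X) (c : ℝ) (F : Pat α → ℝ) : X (fun p => c * F p) = fun p => c * X F p := by
  have h := hL c 0 F F
  simpa using h

/-- the iterates. -/
noncomputable def FF (b t : α) (X : (Pat α → ℝ) → (Pat α → ℝ)) (m : ℕ) : Pat α → ℝ := X^[m] (ind (full b t))

theorem FF_succ (m : ℕ) : FF b t X (m + 1) = X (FF b t X m) := by
  unfold FF
  rw [Function.iterate_succ_apply']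

theorem FF_add (m k : ℕ) : FF b t X (m + k) = X^[k] (FF b t X m) := by
  unfold FF
  rw [add_comm, Function.iterate_add_apply]

theorem FF_nonneg (hP : PosOp X) (m : ℕ) (p : Pat α) : 0 ≤ FF b t X m p := by
  induction m generalizing p with
  | zero =>
    show 0 ≤ (ind (full b t) : Pat α → ℝ) p
    by_cases h : p = full b t
    · rw [h, ind_self]
      exact zero_le_one
    · rw [ind_ne h]
  | succ m ih =>
    rw [FF_succ]
    exact hP _ ih p

theorem FF_dead (hX : Good b t X) (m : ℕ) (p : Pat α) (hp : Dead b t p) : FF b t X m p = 0 := by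
  induction m generalizing p with
  | zero =>
    show (ind (full b t) : Pat α → ℝ) p = 0
    apply ind_ne
    rintro rfl
    exact not_dead_full hp
  | succ m ih =>
    rw [FF_succ]
    exact hX.dead _ (fun q hq => ih q hq) p hp

theorem FF_full (hX : Good b t X) (m : ℕ) : FF b t X m (full b t) = 1 := by
  induction m with
  | zero => exact ind_self _
  | succ m ih => rw [FF_succ, hX.fullv _ (fun q hq => FF_dead hX m q hq), ih]

theorem FF_step (hX : Good b t X) (hP : PosOp X) (m : ℕ) (p : Pat α) : FF b t X m p ≤ FF b t X (m + 1) p := by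
  induction m generalizing p with
  | zero =>
    by_cases h : p = full b t
    · rw [h, FF_full hX, FF_full hX]
    · have h1 : FF b t X 0 p = 0 := ind_ne h
      rw [h1]
      exact FF_nonneg hP _ p
  | succ m ih =>
    rw [FF_succ (m := m), FF_succ (m := m + 1)]
    exact hP.mono hX.lin ih p

theorem FF_mono (hX : Good b t X) (hP : PosOp X) (p : Pat α) : Monotone (fun m => FF b t X m p) :=
  monotone_nat_of_le_succ (fun m => FF_step hX hP m p)

theorem FF_emp (m : ℕ) {β : ℝ} (hβ : ∀ m, FF b t X (m + 1) Pat.empty - FF b t X m Pat.empty ≤ β) (k : ℕ) :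
    FF b t X (m + k) Pat.empty ≤ FF b t X m Pat.empty + k * β := by
  induction k with
  | zero => simp
  | succ k ih =>
    have h := hβ (m + k)
    rw [← add_assoc]
    push_cast
    linarith

/-- the states from which the empty state is left. -/
def Reach (A : Pat α → Prop) (b t : α) (X : (Pat α → ℝ) → (Pat α → ℝ)) : Prop :=
  ∀ p, Live b t p → A p → ∃ (a : ℕ) (w : ℝ), 0 < w ∧ ∀ F : Pat α → ℝ, (∀ q, 0 ≤ F q) →
    F Pat.empty + w * F p ≤ X^[a] F Pat.empty

/-- the states that lead to the full state. -/
def CoReach (A : Pat α → Prop) (b t : α) (X : (Pat α → ℝ) → (Pat α → ℝ)) : Prop :=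
  ∀ p, Live b t p → A p → ∃ c : ℕ, 0 < X^[c] (ind (full b t)) p

theorem FF_bdd (hP : PosOp X) (hX : Good b t X) {β : ℝ}
    (hβ : ∀ m, FF b t X (m + 1) Pat.empty - FF b t X m Pat.empty ≤ β) (hR : Reach A b t X)
    {p : Pat α} (hA : A p) (hne : p ≠ Pat.empty) : ∃ K : ℝ, ∀ m, FF b t X m p ≤ K := by
  by_cases hb : p b = t
  · rcases full_or_dead hb with rfl | hd
    · exact ⟨1, fun m => (FF_full hX m).le⟩
    · exact ⟨0, fun m => (FF_dead hX m p hd).le⟩
  · obtain ⟨a, w, hw, h⟩ := hR p ⟨hb, hne⟩ hA
    refine ⟨a * β / w, fun m => ?_⟩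
    have h1 := h (FF b t X m) (FF_nonneg hP m)
    rw [← FF_add] at h1
    have h2 := FF_emp m hβ a
    rw [le_div_iff₀ hw]
    linarith

/-- the limit. -/
noncomputable def Flim (b t : α) (A : Pat α → Prop) (X : (Pat α → ℝ) → (Pat α → ℝ)) (p : Pat α) : ℝ :=
  open scoped Classical in if A p ∧ p ≠ Pat.empty then ⨆ m, FF b t X m p else 0

theorem Flim_tendsto (hP : PosOp X) (hX : Good b t X) {β : ℝ}
    (hβ : ∀ m, FF b t X (m + 1) Pat.empty - FF b t X m Pat.empty ≤ β) (hR : Reach A b t X)
    {p : Pat α} (hA : A p) (hne : p ≠ Pat.empty) :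
    Tendsto (fun m => FF b t X m p) atTop (𝓝 (Flim b t A X p)) := by
  obtain ⟨K, hK⟩ := FF_bdd hP hX hβ hR hA hne
  unfold Flim
  rw [if_pos ⟨hA, hne⟩]
  apply tendsto_atTop_ciSup (FF_mono hX hP p)
  exact ⟨K, by rintro _ ⟨m, rfl⟩; exact hK m⟩

omit [DecidableEq α] in
/-- continuity of a linear operator on a finite dimensional space. -/
theorem lin_tendsto [Finite α] (hL : Lin X) {H : ℕ → Pat α → ℝ} {F : Pat α → ℝ}
    (h : ∀ q, Tendsto (fun m => H m q) atTop (𝓝 (F q))) (p : Pat α) :
    Tendsto (fun m => X (H m) p) atTop (𝓝 (X F p)) := by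
  classical
  have : Fintype (Pat α) := Fintype.ofFinite _
  have e : (fun m => X (H m) p) = fun m => ∑ q, H m q * X (ind q) p := by
    funext m
    exact hL.apply_eq_sum _ _
  rw [e, hL.apply_eq_sum F p]
  exact tendsto_finsetSum _ (fun q _ => (h q).mul_const _)

/-- the iterates restricted to the admissible states different from the empty one. -/
noncomputable def HH (b t : α) (A : Pat α → Prop) (X : (Pat α → ℝ) → (Pat α → ℝ)) (m : ℕ) (p : Pat α) : ℝ :=
  open scoped Classical in if A p ∧ p ≠ Pat.empty then FF b t X m p else 0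

theorem HH_tendsto (hP : PosOp X) (hX : Good b t X) {β : ℝ}
    (hβ : ∀ m, FF b t X (m + 1) Pat.empty - FF b t X m Pat.empty ≤ β) (hR : Reach A b t X)
    (p : Pat α) : Tendsto (fun m => HH b t A X m p) atTop (𝓝 (Flim b t A X p)) := by
  by_cases h : A p ∧ p ≠ Pat.empty
  · have e : (fun m => HH b t A X m p) = fun m => FF b t X m p := by
      funext m
      unfold HH
      rw [if_pos h]
    rw [e]
    exact Flim_tendsto hP hX hβ hR h.1 h.2
  · have e : (fun m => HH b t A X m p) = fun _ => 0 := by
      funext m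
      unfold HH
      rw [if_neg h]
    have e2 : Flim b t A X p = 0 := by
      unfold Flim
      rw [if_neg h]
    rw [e, e2]
    exact tendsto_const_nhds

theorem X_FF (hX : Good b t X) (PX : Pres A A X) (m : ℕ) {p : Pat α} (hp : A p) :
    X (FF b t X m) p = X (HH b t A X m) p + FF b t X m Pat.empty * (dE : Pat α → ℝ) p := by
  have e1 : ∀ r, A r → FF b t X m r =
      (fun r => HH b t A X m r + FF b t X m Pat.empty * (dE : Pat α → ℝ) r) r := by
    intro r hr
    by_cases hr0 : r = Pat.empty
    · subst hr0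
      simp only
      rw [dE_empty]
      unfold HH
      rw [if_neg (fun h => h.2 rfl)]
      ring
    · simp only
      rw [dE_ne hr0]
      unfold HH
      rw [if_pos ⟨hr, hr0⟩]
      ring
  rw [PX _ _ e1 p hp, hX.lin.addSmul, hX.dE]

/-- The half strip function as the limit of the iterates. -/
theorem half_lim [Finite α] (hbt : b ≠ t) (hf : A (full b t)) (he : A Pat.empty) (hP : PosOp X) (hX : Good b t X)
    (PX : Pres A A X) {β : ℝ}
    (hβ : ∀ m, FF b t X (m + 1) Pat.empty - FF b t X m Pat.empty ≤ β)
    (hβ2 : Tendsto (fun m => FF b t X (m + 1) Pat.empty - FF b t X m Pat.empty) atTop (𝓝 β))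
    (hR : Reach A b t X) : Half b t A X β (Flim b t A X) where
  dead := by
    intro p hp hd
    have h1 := Flim_tendsto hP hX hβ hR hp (dead_ne_empty hd)
    have e : (fun m => FF b t X m p) = fun _ => 0 := by
      funext m
      exact FF_dead hX m p hd
    rw [e] at h1
    exact (tendsto_nhds_unique h1 tendsto_const_nhds)
  fullv := by
    have h1 := Flim_tendsto hP hX hβ hR hf (full_ne_empty hbt)
    have e : (fun m => FF b t X m (full b t)) = fun _ => 1 := by
      funext m
      exact FF_full hX m
    rw [e] at h1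
    exact (tendsto_nhds_unique h1 tendsto_const_nhds)
  eq := by
    intro p hp hne
    have h1 := Flim_tendsto hP hX hβ hR hp hne
    have h2 := (tendsto_add_atTop_iff_nat 1).2 h1
    have h3 := lin_tendsto hX.lin (HH_tendsto hP hX hβ hR) p
    have e : (fun m => FF b t X (m + 1) p) = fun m => X (HH b t A X m) p := by
      funext m
      rw [FF_succ, X_FF hX PX m hp, dE_ne hne, mul_zero, add_zero]
    rw [e] at h2
    exact tendsto_nhds_unique h3 h2
  emp := by
    have h3 := lin_tendsto hX.lin (HH_tendsto hP hX hβ hR) Pat.empty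
    have e : (fun m => FF b t X (m + 1) Pat.empty - FF b t X m Pat.empty) =
        fun m => X (HH b t A X m) Pat.empty := by
      funext m
      rw [FF_succ, X_FF hX PX m he, dE_empty]
      ring
    rw [e] at hβ2
    have h0 : Flim b t A X Pat.empty = 0 := by
      unfold Flim
      rw [if_neg (fun h => h.2 rfl)]
    rw [h0, zero_add]
    exact tendsto_nhds_unique h3 hβ2

/-- Injectivity. -/
theorem inj_lim [Finite α] (hbt : b ≠ t) (hf : A (full b t)) (he : A Pat.empty) (hP : PosOp X) (hX : Good b t X)
    (PX : Pres A A X) {β : ℝ}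
    (hβ : ∀ m, FF b t X (m + 1) Pat.empty - FF b t X m Pat.empty ≤ β)
    (hβ2 : Tendsto (fun m => FF b t X (m + 1) Pat.empty - FF b t X m Pat.empty) atTop (𝓝 β))
    (hR : Reach A b t X) (hC : CoReach A b t X) : Inj b t A X := by
  classical
  have : Fintype (Pat α) := Fintype.ofFinite _
  have half := half_lim hbt hf he hP hX PX hβ hβ2 hR
  set F := Flim b t A X with hF
  intro G hG0 hG1
  have hge : ∀ m p, A p → p ≠ Pat.empty → FF b t X m p ≤ F p := by
    intro m p hp hne
    obtain ⟨K, hK⟩ := FF_bdd hP hX hβ hR hp hne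
    rw [hF]
    unfold Flim
    rw [if_pos ⟨hp, hne⟩]
    exact le_ciSup (f := fun m => FF b t X m p) ⟨K, by rintro _ ⟨m, rfl⟩; exact hK m⟩ m
  have hpos : ∀ p, Live b t p → A p → 0 < F p := by
    intro p hl hp
    obtain ⟨c, hc⟩ := hC p hl hp
    exact lt_of_lt_of_le hc (hge c p hp hl.2)
  have hnn : ∀ p, 0 ≤ F p := by
    intro p
    by_cases h : A p ∧ p ≠ Pat.empty
    · exact (FF_nonneg hP 0 p).trans (hge 0 p h.1 h.2)
    · rw [hF]
      unfold Flim
      rw [if_neg h]
  set C : ℝ := ∑ q, |G q| / F q with hCdef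
  have hC0 : 0 ≤ C := Finset.sum_nonneg fun q _ => div_nonneg (abs_nonneg _) (hnn q)
  have key : ∀ m p, Live b t p → A p → |G p| ≤ C * (F p - FF b t X m p) := by
    intro m
    induction m with
    | zero =>
      intro p hl hp
      have h0 : FF b t X 0 p = 0 := by
        apply ind_ne
        rintro rfl
        apply hl.1
        rw [full_apply, if_pos rfl]
      rw [h0, sub_zero]
      have h1 : |G p| / F p ≤ C :=
        Finset.single_le_sum (f := fun q => |G q| / F q)
          (fun q _ => div_nonneg (abs_nonneg _) (hnn q)) (Finset.mem_univ p)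
      exact (div_le_iff₀ (hpos p hl hp)).1 h1
    | succ m ih =>
      intro p hl hp
      -- the difference
      let D : Pat α → ℝ := fun q => if Live b t q ∧ A q then F q - FF b t X m q else 0
      have hD : ∀ q, |G q| ≤ C * D q := by
        intro q
        by_cases hq : Live b t q ∧ A q
        · have e : D q = F q - FF b t X m q := if_pos hq
          rw [e]
          exact ih q hq.1 hq.2
        · have e : D q = 0 := if_neg hq
          rw [hG0 q hq, e, mul_zero, abs_zero]
      have h1 : |X G p| ≤ X (fun q => C * D q) p := by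
        rw [abs_le]
        constructor
        · have h2 := hP.mono hX.lin (F := fun q => (-1 : ℝ) * (C * D q)) (G := G)
            (fun q => by
              have := neg_le_of_abs_le (hD q)
              linarith) p
          rw [PosOp.smul hX.lin (-1) (fun q => C * D q)] at h2
          linarith
        · exact hP.mono hX.lin (fun q => (le_abs_self _).trans (hD q)) p
      rw [hG1 p hl hp, PosOp.smul hX.lin C D] at h1
      refine h1.trans (le_of_eq ?_)
      -- X D = F - FF (m + 1)
      have e1 : ∀ r, A r → (fun r => F r - FF b t X m r) r =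
          (fun r => D r + (F Pat.empty - FF b t X m Pat.empty) * (dE : Pat α → ℝ) r) r := by
        intro r hr
        by_cases hr0 : r = Pat.empty
        · subst hr0
          simp only
          rw [dE_empty]
          have e : D Pat.empty = 0 := if_neg (fun h => h.1.2 rfl)
          rw [e]
          ring
        · simp only
          rw [dE_ne hr0, mul_zero, add_zero]
          by_cases hrb : r b = t
          · have e : D r = 0 := if_neg (fun h => h.1.1 hrb)
            rw [e]
            rcases full_or_dead hrb with rfl | hd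
            · rw [half.fullv, FF_full hX, sub_self]
            · rw [half.dead r hr hd, FF_dead hX m r hd, sub_self]
          · have e : D r = F r - FF b t X m r := if_pos ⟨⟨hrb, hr0⟩, hr⟩
            rw [e]
      have h3 := PX _ _ e1 p hp
      rw [hX.lin.addSmul, hX.dE, hX.lin.sub] at h3
      simp only at h3
      rw [dE_ne hl.2, mul_zero, add_zero, half.eq p hp hl.2] at h3
      show C * X D p = _
      rw [← h3, FF_succ]
  intro p
  by_cases h : Live b t p ∧ A p
  · have h1 := Flim_tendsto hP hX hβ hR h.2 h.1.2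
    have h2 : Tendsto (fun m => C * (F p - FF b t X m p)) atTop (𝓝 (C * (F p - F p))) :=
      (tendsto_const_nhds.sub h1).const_mul C
    rw [sub_self, mul_zero] at h2
    have h3 : |G p| ≤ 0 := ge_of_tendsto' h2 (fun m => key m p h.1 h.2)
    exact abs_eq_zero.1 (le_antisymm h3 (abs_nonneg _))
  · exact hG0 p h

end

end Pool.Agent.EXL.HS
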