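import Pool.Agent.EXL.Moves
import Pool.Agent.EXL.GreenHS

/-!
# Every live state leads to the full state (board EXI, I3a)
-/

set_option autoImplicit false

namespace Pool.Agent.EXL

open Pat Site

variable {N : ℕ} {p q : Pat (Site N)} {i j m : Fin N}

theorem cut_fix {α : Type*} [DecidableEq α] {p : Pat α} {i j : α} (h0 : i ≠ j) (hi : p i ≠ i)
    (hj : p j ≠ j) (hij : p i ≠ j) (x : α) : cut i j p x = x ↔ x = i ∨ x = j ∨ p x = x := by
  have h5 : p i ≠ p j := fun h => h0 (p.inj h)
  rw [pcut_apply h0 hi hj hij]
  have hx := p.inv x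
  have hI := p.inv i
  have hJ := p.inv j
  grind

theorem swap_fix {α : Type*} [DecidableEq α] {p : Pat α} {i f : α} (h0 : i ≠ f) (_hi : p i ≠ i)
    (hf : p f = f) {x : α} (hx : x ≠ f) : swap i f p x = x ↔ x = i ∨ p x = x := by
  have h1 := p.inv x
  have h2 := p.inv i
  simp only [pswap_apply, Equiv.swap_apply_def]
  grind

/-- The occupied rows. -/
noncomputable def occ (p : Pat (Site N)) : Finset (Fin N) :=
  open scoped Classical in Finset.univ.filter (fun k => p (row k) ≠ row k)

theorem mem_occ {k : Fin N} : k ∈ occ p ↔ p (row k) ≠ row k := by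
  classical
  unfold occ
  simp

theorem axE_cut (h : AxE p) (h0 : row i ≠ row j) (hi : p (row i) ≠ row i)
    (hj : p (row j) ≠ row j) (hij : p (row i) ≠ row j) : AxE (cut (row i) (row j) p) :=
  fun k => (cut_fix h0 hi hj hij _).2 (Or.inr (Or.inr (h k)))

theorem axE_swap {f : Site N} (h : AxE p) (h0 : row i ≠ f) (hi : p (row i) ≠ row i)
    (hf : p f = f) (hax : ∀ k, ax k ≠ f) : AxE (swap (row i) f p) :=
  fun k => (swap_fix h0 hi hf (hax k)).2 (Or.inr (h k))

/-- The partner of an occupied site other than an auxiliary one is not auxiliary. -/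
theorem not_ax (h : AxE p) {x : Site N} (hx : ∀ k, x ≠ ax k) (k : Fin 6) : p x ≠ ax k := by
  intro e
  have h1 := p.inv x
  rw [e, h k] at h1
  exact hx k h1.symm

theorem next_occ (S : Finset (Fin N)) {j : Fin N} (h : ∃ m ∈ S, j < m) :
    ∃ m ∈ S, j < m ∧ ∀ k ∈ S, j < k → m ≤ k := by
  classical
  have hne : (S.filter (fun m => j < m)).Nonempty := by
    obtain ⟨m, h1, h2⟩ := h
    exact ⟨m, Finset.mem_filter.2 ⟨h1, h2⟩⟩
  refine ⟨(S.filter (fun m => j < m)).min' hne, ?_, ?_, ?_⟩
  · exact (Finset.mem_filter.1 (Finset.min'_mem _ hne)).1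
  · exact (Finset.mem_filter.1 (Finset.min'_mem _ hne)).2
  · intro k hk hjk
    exact Finset.min'_le _ _ (Finset.mem_filter.2 ⟨hk, hjk⟩)

/-- The result of a step: full, or live with fewer occupied rows. -/
def Step (p q : Pat (Site N)) : Prop :=
  Leads (colH N) p q ∧ AxE q ∧
    (q = HS.full fl tp ∨ (q fl ≠ tp ∧ q ≠ Pat.empty ∧ (occ q).card < (occ p).card))

/-- A good pair is joined. -/
theorem step_good (hA : AxE p) (hl : p fl ≠ tp) (hij : i < j) (hi : p (row i) ≠ row i)
    (hj : p (row j) ≠ row j) (h : p (row i) ≠ row j)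
    (hb : ∀ k, i < k → k < j → p (row k) = row k)
    (h1 : ¬ (p (row i) = fl ∧ p (row j) = tp)) (h2 : ¬ (p (row i) = tp ∧ p (row j) = fl)) :
    Step p (cut (row i) (row j) p) := by
  have n0 := row_ne_row (N := N) hij.ne
  refine ⟨move_join hij (hA 0) hi hj h hb, axE_cut hA n0 hi hj h, Or.inr ⟨?_, ?_, ?_⟩⟩
  · rw [pcut_apply n0 hi hj h]
    have m1 := row_ne_fl i
    have m2 := row_ne_fl j
    by_cases e1 : fl = p (row i)
    · rw [if_neg m1.symm, if_neg m2.symm, if_pos e1]
      exact fun e => h1 ⟨e1.symm, e⟩
    · by_cases e2 : fl = p (row j)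
      · rw [if_neg m1.symm, if_neg m2.symm, if_neg e1, if_pos e2]
        exact fun e => h2 ⟨e, e2.symm⟩
      · rw [if_neg m1.symm, if_neg m2.symm, if_neg e1, if_neg e2]
        exact hl
  · rw [HS.Pat.ne_empty_iff]
    refine ⟨p (row i), fun e => ?_⟩
    rw [cut_fix n0 hi hj h] at e
    rcases e with e | e | e
    · exact hi e
    · exact h e
    · rw [p.inv] at e; exact hi e.symm
  · apply Finset.card_lt_card
    rw [Finset.ssubset_iff_of_subset]
    · exact ⟨i, mem_occ.2 hi, fun e => mem_occ.1 e ((cut_fix n0 hi hj h _).2 (Or.inl rfl))⟩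
    · intro k hk
      rw [mem_occ] at hk ⊢
      exact fun e => hk ((cut_fix n0 hi hj h _).2 (Or.inr (Or.inr e)))

theorem full_site (x : Site N) : HS.full fl tp x = if x = fl then tp else if x = tp then fl else x :=
  HS.full_apply _ _ _

theorem exists_step (hA : AxE p) (hl : p fl ≠ tp) (hne : p ≠ Pat.empty) : ∃ q, Step p q := by
  have hlt : p tp ≠ fl := fun e => hl (by rw [← e, p.inv])
  -- an occupied row
  have hS : (occ p).Nonempty := by
    rw [HS.Pat.ne_empty_iff] at hne
    obtain ⟨x, hx⟩ := hne
    cases x with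
    | fl =>
      rcases hy : p fl with _ | _ | k | k
      · exact absurd hy hx
      · exact absurd hy hl
      · refine ⟨k, mem_occ.2 ?_⟩
        rw [← hy, p.inv, hy]
        exact (row_ne_fl k).symm
      · exact absurd hy (not_ax hA (fun k => (ax_ne_fl k).symm) k)
    | tp =>
      rcases hy : p tp with _ | _ | k | k
      · exact absurd hy hlt
      · exact absurd hy hx
      · refine ⟨k, mem_occ.2 ?_⟩
        rw [← hy, p.inv, hy]
        exact (row_ne_tp k).symm
      · exact absurd hy (not_ax hA (fun k => (ax_ne_tp k).symm) k)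
    | row k => exact ⟨k, mem_occ.2 hx⟩
    | ax k => exact absurd (hA k) hx
  obtain ⟨i, hiS, himin⟩ : ∃ i ∈ occ p, ∀ k ∈ occ p, i ≤ k :=
    ⟨(occ p).min' hS, Finset.min'_mem _ _, fun k hk => Finset.min'_le _ _ hk⟩
  have hi := mem_occ.1 hiS
  have hbelow : ∀ k, k < i → p (row k) = row k := by
    intro k hk
    by_contra h
    exact absurd (himin k (mem_occ.2 h)) (not_le.2 hk)
  by_cases hex : ∃ m ∈ occ p, i < m
  swap
  · -- only one occupied row
    push Not at hex
    have hrow : ∀ k, k ≠ i → p (row k) = row k := by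
      intro k hk
      by_contra h
      exact hk (le_antisymm (hex k (mem_occ.2 h)) (himin k (mem_occ.2 h)))
    have hends : p (row i) = fl ∨ p (row i) = tp := by
      rcases hy : p (row i) with _ | _ | k | k
      · exact Or.inl rfl
      · exact Or.inr rfl
      · exfalso
        have hk : k ≠ i := fun e => hi (by rw [hy, e])
        have h1 := hrow k hk
        rw [← hy, p.inv] at h1
        exact hi h1.symm
      · exact absurd hy (not_ax hA (fun k => (ax_ne_row k i).symm) k)
    rcases hends with he | he
    · -- the strand comes from the floor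
      have ht : p tp = tp := by
        rcases hy : p tp with _ | _ | k | k
        · exact absurd hy hlt
        · rfl
        · exfalso
          by_cases hk : k = i
          · rw [hk] at hy
            have h1 := p.inv tp
            rw [hy, he] at h1
            exact fl_ne_tp h1
          · have h1 := hrow k hk
            rw [← hy, p.inv] at h1
            exact (row_ne_tp k) (by rw [← hy]; exact h1.symm)
        · exact absurd hy (not_ax hA (fun k => (ax_ne_tp k).symm) k)
      refine ⟨swap (row i) tp p, move_top (hA 0) ht hi (fun k hk => hrow k hk.ne'),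
        axE_swap hA (row_ne_tp i) hi ht (fun k => ax_ne_tp k), Or.inl ?_⟩
      have hf : p fl = row i := by rw [← he, p.inv]
      ext x
      rw [full_site, pswap_apply]
      cases x with
      | fl =>
        rw [Equiv.swap_apply_of_ne_of_ne (row_ne_fl i).symm fl_ne_tp, hf, Equiv.swap_apply_left,
          if_pos rfl]
      | tp =>
        rw [Equiv.swap_apply_right, he, Equiv.swap_apply_of_ne_of_ne (row_ne_fl i).symm fl_ne_tp,
          if_neg fl_ne_tp.symm, if_pos rfl]
      | row k =>
        rw [if_neg (row_ne_fl k), if_neg (row_ne_tp k)]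
        by_cases hk : k = i
        · rw [hk, Equiv.swap_apply_left, ht, Equiv.swap_apply_right]
        · rw [Equiv.swap_apply_of_ne_of_ne (row_ne_row hk) (row_ne_tp k), hrow k hk,
            Equiv.swap_apply_of_ne_of_ne (row_ne_row hk) (row_ne_tp k)]
      | ax k =>
        rw [if_neg (ax_ne_fl k), if_neg (ax_ne_tp k),
          Equiv.swap_apply_of_ne_of_ne (ax_ne_row k i) (ax_ne_tp k), hA k,
          Equiv.swap_apply_of_ne_of_ne (ax_ne_row k i) (ax_ne_tp k)]
    · have hf : p fl = fl := by
        rcases hy : p fl with _ | _ | k | k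
        · rfl
        · exact absurd hy hl
        · exfalso
          by_cases hk : k = i
          · rw [hk] at hy
            have h1 := p.inv fl
            rw [hy, he] at h1
            exact fl_ne_tp h1.symm
          · have h1 := hrow k hk
            rw [← hy, p.inv] at h1
            exact (row_ne_fl k) (by rw [← hy]; exact h1.symm)
        · exact absurd hy (not_ax hA (fun k => (ax_ne_fl k).symm) k)
      refine ⟨swap (row i) fl p, move_floor (hA 0) hf hi hbelow,
        axE_swap hA (row_ne_fl i) hi hf (fun k => ax_ne_fl k), Or.inl ?_⟩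
      have ht : p tp = row i := by rw [← he, p.inv]
      ext x
      rw [full_site, pswap_apply]
      cases x with
      | fl =>
        rw [Equiv.swap_apply_right, he, Equiv.swap_apply_of_ne_of_ne (row_ne_tp i).symm fl_ne_tp.symm,
          if_pos rfl]
      | tp =>
        rw [Equiv.swap_apply_of_ne_of_ne (row_ne_tp i).symm fl_ne_tp.symm, ht, Equiv.swap_apply_left,
          if_neg fl_ne_tp.symm, if_pos rfl]
      | row k =>
        rw [if_neg (row_ne_fl k), if_neg (row_ne_tp k)]
        by_cases hk : k = i
        · rw [hk, Equiv.swap_apply_left, hf, Equiv.swap_apply_right]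
        · rw [Equiv.swap_apply_of_ne_of_ne (row_ne_row hk) (row_ne_fl k), hrow k hk,
            Equiv.swap_apply_of_ne_of_ne (row_ne_row hk) (row_ne_fl k)]
      | ax k =>
        rw [if_neg (ax_ne_fl k), if_neg (ax_ne_tp k),
          Equiv.swap_apply_of_ne_of_ne (ax_ne_row k i) (ax_ne_fl k), hA k,
          Equiv.swap_apply_of_ne_of_ne (ax_ne_row k i) (ax_ne_fl k)]
  -- at least two occupied rows
  obtain ⟨j, hjS, hij, hjmin⟩ := next_occ (occ p) hex
  have hj := mem_occ.1 hjS
  have hbet : ∀ k, i < k → k < j → p (row k) = row k := by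
    intro k h1 h2
    by_contra h
    exact absurd (hjmin k (mem_occ.2 h) h1) (not_le.2 h2)
  by_cases hex2 : ∃ m ∈ occ p, j < m
  · obtain ⟨m, hmS, hjm, hmmin⟩ := next_occ (occ p) hex2
    have hm := mem_occ.1 hmS
    have hbet2 : ∀ k, j < k → k < m → p (row k) = row k := by
      intro k h1 h2
      by_contra h
      exact absurd (hmmin k (mem_occ.2 h) h1) (not_le.2 h2)
    have him : i < m := hij.trans hjm
    by_cases hg : p (row i) ≠ row j ∧ ¬ (p (row i) = fl ∧ p (row j) = tp) ∧
        ¬ (p (row i) = tp ∧ p (row j) = fl)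
    · exact ⟨_, step_good hA hl hij hi hj hg.1 hbet hg.2.1 hg.2.2⟩
    · -- the pair (j, m) is good
      have hjm' : p (row j) ≠ row m ∧ ¬ (p (row j) = fl ∧ p (row m) = tp) ∧
          ¬ (p (row j) = tp ∧ p (row m) = fl) := by
        by_cases e1 : p (row i) = row j
        · have e2 : p (row j) = row i := by rw [← e1, p.inv]
          rw [e2]
          exact ⟨row_ne_row him.ne, fun h => row_ne_fl i h.1, fun h => row_ne_tp i h.1⟩
        · by_cases e3 : p (row i) = fl ∧ p (row j) = tp
          · rw [e3.2]
            refine ⟨(row_ne_tp m).symm, fun h => fl_ne_tp h.1.symm, fun h => ?_⟩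
            exact row_ne_row him.ne (p.inj (by rw [e3.1, h.2]))
          · have e4 : p (row i) = tp ∧ p (row j) = fl := by
              by_contra e4
              exact hg ⟨e1, e3, e4⟩
            rw [e4.2]
            refine ⟨(row_ne_fl m).symm, fun h => ?_, fun h => fl_ne_tp h.1⟩
            exact row_ne_row him.ne (p.inj (by rw [e4.1, h.2]))
      exact ⟨_, step_good hA hl hjm hj hm hjm'.1 hbet2 hjm'.2.1 hjm'.2.2⟩
  · -- exactly two occupied rows
    push Not at hex2
    have hrow : ∀ k, k ≠ i → k ≠ j → p (row k) = row k := by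
      intro k h1 h2
      by_contra h
      have h3 := himin k (mem_occ.2 h)
      have h4 := hjmin k (mem_occ.2 h) (lt_of_le_of_ne h3 h1.symm)
      exact h2 (le_antisymm (hex2 k (mem_occ.2 h)) h4)
    by_cases e1 : p (row i) = row j
    · -- one arc
      have e2 : p (row j) = row i := by rw [← e1, p.inv]
      have hf : p fl = fl := by
        rcases hy : p fl with _ | _ | k | k
        · rfl
        · exact absurd hy hl
        · exfalso
          have h1 := p.inv fl
          rw [hy] at h1
          by_cases hk : k = i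
          · rw [hk, e1] at h1; exact row_ne_fl j h1
          · by_cases hk' : k = j
            · rw [hk', e2] at h1; exact row_ne_fl i h1
            · rw [hrow k hk hk'] at h1; exact row_ne_fl k h1
        · exact absurd hy (not_ax hA (fun k => (ax_ne_fl k).symm) k)
      refine ⟨swap (row i) fl p, move_floor (hA 0) hf hi hbelow,
        axE_swap hA (row_ne_fl i) hi hf (fun k => ax_ne_fl k), Or.inr ⟨?_, ?_, ?_⟩⟩
      · rw [pswap_apply, Equiv.swap_apply_right, e1,
          Equiv.swap_apply_of_ne_of_ne (row_ne_row hij.ne') (row_ne_fl j)]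
        exact row_ne_tp j
      · rw [HS.Pat.ne_empty_iff]
        refine ⟨fl, ?_⟩
        rw [pswap_apply, Equiv.swap_apply_right, e1,
          Equiv.swap_apply_of_ne_of_ne (row_ne_row hij.ne') (row_ne_fl j)]
        exact row_ne_fl j
      · apply Finset.card_lt_card
        rw [Finset.ssubset_iff_of_subset]
        · exact ⟨i, hiS, fun e => mem_occ.1 e
            ((swap_fix (row_ne_fl i) hi hf (row_ne_fl i)).2 (Or.inl rfl))⟩
        · intro k hk
          rw [mem_occ] at hk ⊢
          exact fun e => hk ((swap_fix (row_ne_fl i) hi hf (row_ne_fl k)).2 (Or.inr e))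
    · by_cases hg : ¬ (p (row i) = fl ∧ p (row j) = tp) ∧ ¬ (p (row i) = tp ∧ p (row j) = fl)
      · exact ⟨_, step_good hA hl hij hi hj e1 hbet hg.1 hg.2⟩
      · have n0 := row_ne_row (N := N) hij.ne
        refine ⟨cut (row i) (row j) p, move_join hij (hA 0) hi hj e1 hbet,
          axE_cut hA n0 hi hj e1, Or.inl ?_⟩
        have hc : (p (row i) = fl ∧ p (row j) = tp) ∨ (p (row i) = tp ∧ p (row j) = fl) := by
          by_contra hc
          push Not at hc
          exact hg ⟨fun h => hc.1 h.1 h.2, fun h => hc.2 h.1 h.2⟩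
        ext x
        rw [full_site, pcut_apply n0 hi hj e1]
        have m1 := row_ne_fl i
        have m2 := row_ne_fl j
        have m3 := row_ne_tp i
        have m4 := row_ne_tp j
        have m5 := fl_ne_tp (N := N)
        cases x with
        | fl =>
          rw [if_neg m1.symm, if_neg m2.symm, if_pos rfl]
          rcases hc with hc | hc
          · rw [hc.1, hc.2, if_pos rfl]
          · rw [hc.1, hc.2, if_neg m5, if_pos rfl]
        | tp =>
          rw [if_neg m3.symm, if_neg m4.symm, if_neg m5.symm, if_pos rfl]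
          rcases hc with hc | hc
          · rw [hc.1, hc.2, if_neg m5.symm, if_pos rfl]
          · rw [hc.1, hc.2, if_pos rfl]
        | row k =>
          rw [if_neg (row_ne_fl k), if_neg (row_ne_tp k)]
          by_cases hk : k = i
          · rw [hk, if_pos rfl]
          · by_cases hk' : k = j
            · rw [hk', if_neg n0.symm, if_pos rfl]
            · have h1 := hrow k hk hk'
              have h2 : row k ≠ p (row i) := by
                intro e
                rcases hc with hc | hc
                · exact row_ne_fl k (by rw [e, hc.1])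
                · exact row_ne_tp k (by rw [e, hc.1])
              have h3 : row k ≠ p (row j) := by
                intro e
                rcases hc with hc | hc
                · exact row_ne_tp k (by rw [e, hc.2])
                · exact row_ne_fl k (by rw [e, hc.2])
              rw [if_neg (row_ne_row hk), if_neg (row_ne_row hk'), if_neg h2, if_neg h3, h1]
        | ax k =>
          rw [if_neg (ax_ne_fl k), if_neg (ax_ne_tp k), ← pcut_apply n0 hi hj e1]
          exact (cut_fix n0 hi hj e1 _).2 (Or.inr (Or.inr (hA k)))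

/-- Every live state leads to the full state. -/
theorem leads_full : ∀ (n : ℕ) (p : Pat (Site N)), (occ p).card ≤ n → AxE p → p fl ≠ tp →
    p ≠ Pat.empty → ∃ c : ℕ, Leads ((colH N)^[c]) p (HS.full fl tp)
  | n, p, hn, hA, hl, hne => by
    obtain ⟨q, h1, h2, h3⟩ := exists_step hA hl hne
    rcases h3 with h3 | ⟨h3, h4, h5⟩
    · subst h3
      exact ⟨1, h1⟩
    · match n, hn with
      | 0, hn => omega
      | n + 1, hn =>
        obtain ⟨c, hc⟩ := leads_full n q (by omega) h2 h3 h4
        exact ⟨c + 1, Leads.iterate_succ pos_colH h1 hc⟩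

theorem coReach {A : Pat (Site N) → Prop} (hA : ∀ p, A p → AxE p) :
    HS.CoReach A fl tp (colH N) := by
  intro p hp hAp
  obtain ⟨c, w, hw, h⟩ := leads_full _ p le_rfl (hA p hAp) hp.1 hp.2
  refine ⟨c, ?_⟩
  have h1 := h (HS.ind (HS.full fl tp)) (fun s => ?_)
  · rw [HS.ind_self, mul_one] at h1
    exact lt_of_lt_of_le hw h1
  · by_cases hs : s = HS.full fl tp
    · rw [hs, HS.ind_self]; exact zero_le_one
    · rw [HS.ind_ne hs]

end Pool.Agent.EXL
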