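import Mathlib

/-!
# Closing (block (C) of board/EXL): definitions

The variable is `z = e^{2iv}`.  `l = π/8`, `p = l/2`, `t = 3l/2`; `th = e^{il}` is the value of `z`
at `v = p`, `th^3` the value at `v = t`; the shift `v ↦ v + l` is `z ↦ ze * z`, `ze = th^2`.
`HR f s r` : the function `f` has at `s` (at most) a simple pole with normalised residue `r`
(`r = 2i * (residue in the variable v)`).
-/

open Filter Topology

namespace Pool.Agent.EXL.Cl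

noncomputable section

/-- `e^{iπ/8}` -/
def th : ℂ := Complex.exp (Complex.I * (Real.pi / 8 : ℝ))

/-- `e^{iπ/4}` -/
def ze : ℂ := th ^ 2

/-- normalised residue (scale invariant) -/
def HR (f : ℂ → ℂ) (s r : ℂ) : Prop :=
  Tendsto (fun z => (z / s - 1) * f z) (𝓝[≠] s) (𝓝 r)

/-- the kernel `D(v) = sin 6l / (sin (v-3l) sin (v+3l))` -/
def Dh (z : ℂ) : ℂ := -(2 * (Real.sqrt 2 : ℂ)) * z / (z ^ 2 + (Real.sqrt 2 : ℂ) * z + 1)

/-- `DD(x,y) = D(x-y) - D(x+y)` -/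
def KK (z w : ℂ) : ℂ := Dh (z / w) - Dh (z * w)

/-- `sin 2v` -/
def S1 (z : ℂ) : ℂ := (z - z⁻¹) / (2 * Complex.I)

/-- `sin 4v` -/
def S2 (z : ℂ) : ℂ := (z ^ 2 - (z⁻¹) ^ 2) / (2 * Complex.I)

variable {N : ℕ}

/-- the nodes `x_k`: distinct, in `(0, π/16)` -/
structure Nd (x : Fin N → ℝ) : Prop where
  inj : Function.Injective x
  pos : ∀ k, 0 < x k
  lt : ∀ k, x k < Real.pi / 16

/-- `e^{2ix}` -/
def ep (x : ℝ) : ℂ := Complex.exp (2 * Complex.I * (x : ℂ))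

/-- the points `e^{±2ix_k}` -/
def yy (x : Fin N → ℝ) (u : Fin N × Bool) : ℂ := if u.2 then ep (x u.1) else (ep (x u.1))⁻¹

/-- base points of the node set: `e^{±2ix_k}`, `1`, `th` -/
def bs (x : Fin N → ℝ) : ((Fin N × Bool) ⊕ Bool) → ℂ
  | .inl u => yy x u
  | .inr false => 1
  | .inr true => th

/-- all candidate poles: base point times a power of `ze` -/
def nd (x : Fin N → ℝ) (u : ((Fin N × Bool) ⊕ Bool) × Fin 8) : ℂ := bs x u.1 * ze ^ (u.2 : ℕ)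

/-- The class of functions `EE` (in the variable `z`): odd, zero at the nodes, at most simple poles
at `y ze^3, y ze^5` with opposite residues, four-term functional equation.  `W` is a set of
exceptional values of `z^8` (`∅` for the residuals of `sin 2v`, `sin 4v`; `{-1}` for the residual
of `DD(., t)`). -/
structure FF (x : Fin N → ℝ) (W : Set ℂ) (F : ℂ → ℂ) (r : Fin N × Bool → ℂ) : Prop where
  odd : ∀ z, z ≠ 0 → F z⁻¹ = - F z
  zero : ∀ u, F (yy x u) = 0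
  diff : ∀ z, z ≠ 0 → (∀ u, z ≠ yy x u * ze ^ 3) → (∀ u, z ≠ yy x u * ze ^ 5) → z ^ 8 ∉ W →
    DifferentiableAt ℂ F z
  fe : ∀ z, z ≠ 0 → (∀ u, (z / yy x u) ^ 4 ≠ -1) → z ^ 8 ∉ W →
    F z + F (ze ^ 2 * z) + F (ze ^ 4 * z) + F (ze ^ 6 * z) = 0
  r3 : ∀ u, HR F (yy x u * ze ^ 3) (r u)
  r5 : ∀ u, HR F (yy x u * ze ^ 5) (- r u)

/-- growth `z^m` at infinity with the coefficients of `sin 2mv` -/
structure As (m : ℕ) (F : ℂ → ℂ) : Prop where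
  inf : Tendsto (fun z => F z / z ^ m) (cocompact ℂ) (𝓝 (1 / (2 * Complex.I)))
  zero : Tendsto (fun z => F z * z ^ m) (𝓝[≠] 0) (𝓝 (-(1 / (2 * Complex.I))))

/-- `F = O(1/z)` at infinity, `O(z)` at `0` -/
structure An (F : ℂ → ℂ) : Prop where
  inf : ∃ c, Tendsto (fun z => z * F z) (cocompact ℂ) (𝓝 c)
  zero : ∃ c, Tendsto (fun z => F z / z) (𝓝[≠] 0) (𝓝 c)

/-- extra poles of the residual of `DD(., t)`; it is regular at the other points with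
`z^8 = -1` -/
structure Ex (F : ℂ → ℂ) : Prop where
  reg : ∀ k, k = 1 ∨ k = 5 ∨ k = 11 ∨ k = 15 → DifferentiableAt ℂ F (th ^ k)
  r3 : HR F (th ^ 3) (-(2 * Complex.I))
  r7 : HR F (th ^ 7) (2 * Complex.I)
  r9 : HR F (th ^ 9) (2 * Complex.I)
  r13 : HR F (th ^ 13) (-(2 * Complex.I))

/-- The facts (b1)-(b6) about `b`, in the variable `z`.  `ρ` is the normalised residue at
`v = 9l/2`. -/
structure BF (x : Fin N → ℝ) (b : ℂ → ℂ) (B ρ : ℂ) : Prop where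
  diff : ∀ z, z ≠ 0 → (∀ u, z ≠ yy x u * ze ^ 5) → (∀ u, z ≠ yy x u * ze ^ 6) →
    z ≠ th ^ 9 → z ≠ th ^ 13 → DifferentiableAt ℂ b z
  p5 : ∀ u, ∃ r, HR b (yy x u * ze ^ 5) r
  p6 : ∀ u, ∃ r, HR b (yy x u * ze ^ 6) r
  r9 : HR b (th ^ 9) ρ
  r13 : HR b (th ^ 13) (-ρ)
  z0 : b 1 = 0
  z3 : b (ze ^ 3) = 0
  z4 : b (ze ^ 4) = 0
  z7 : b (ze ^ 7) = 0
  inf : Tendsto (fun z => b z / z) (cocompact ℂ) (𝓝 (2 * (th ^ 3)⁻¹))
  zero : Tendsto (fun z => z * b z) (𝓝[≠] 0) (𝓝 (2 * th ^ 3))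
  fus : ∀ u, b (yy x u) - b (yy x u * ze) + b (yy x u * ze ^ 2) = 0
  opp : ∀ u, b (yy x u * ze ^ 3) = - b (yy x u)
  bt : b (th ^ 3) = 2 * B

/-- residual of `sin 2v` -/
def res1 (x : Fin N → ℝ) (a : Fin N → ℂ) (z : ℂ) : ℂ := S1 z - ∑ k, a k * KK z (ep (x k))

/-- residual of `sin 4v - α sin 2v` -/
def resE (x : Fin N → ℝ) (α : ℂ) (a : Fin N → ℂ) (z : ℂ) : ℂ :=
  S2 z - α * S1 z - ∑ k, a k * KK z (ep (x k))

/-- residual of `DD(., t)` -/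
def resD (x : Fin N → ℝ) (a : Fin N → ℂ) (z : ℂ) : ℂ :=
  KK z (th ^ 3) - ∑ k, a k * KK z (ep (x k))

end

end Pool.Agent.EXL.Cl
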