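import Pool.Agent.EXL.Ops

/-!
# Local operators with disjoint supports commute

Elementary operators on functions of connectivity states: `opE i` (the site `i` is empty), `opSw i j`,
`opCu i j` (`0` unless both sites are empty), `opCt i j` (`0` unless both sites are occupied and not
partners).  `Loc K S` is the algebra generated by the elementary operators with sites in `S`;
operators in `Loc K S` and `Loc K T` commute if `S` and `T` are disjoint.
-/

set_option autoImplicit false

namespace Pool.Agent.EXL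

open Pat

variable {α : Type*} [DecidableEq α]

/-! ### States -/

/-- both sites are empty -/
abbrev Pat.CuOK (i j : α) (p : Pat α) : Prop := p i = i ∧ p j = j

/-- both sites are occupied, not by the same arc -/
abbrev Pat.CtOK (i j : α) (p : Pat α) : Prop := i ≠ j ∧ p i ≠ i ∧ p j ≠ j ∧ p i ≠ j

theorem cup_apply {i j : α} {p : Pat α} (h : CuOK i j p) (x : α) :
    cup i j p x = if x = i then j else if x = j then i else p x := by
  simp only [cup, h, and_self, if_true]

theorem cut_apply {i j : α} {p : Pat α} (h : CtOK i j p) (x : α) :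
    cut i j p x = if x = i then i else if x = j then j else if x = p i then p j
      else if x = p j then p i else p x := by
  simp only [cut, h, ne_eq, not_false_eq_true, and_self, if_true]

theorem swap_apply (i j : α) (p : Pat α) (x : α) :
    swap i j p x = Equiv.swap i j (p (Equiv.swap i j x)) := rfl

section
variable {i j k l : α} (p : Pat α)

theorem swap_apply_out (h1 : k ≠ i) (h2 : k ≠ j) : swap i j p k = Equiv.swap i j (p k) := by
  rw [swap_apply, Equiv.swap_apply_of_ne_of_ne h1 h2]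

theorem swap_eq_out (h1 : k ≠ i) (h2 : k ≠ j) (h3 : l ≠ i) (h4 : l ≠ j) :
    swap i j p k = l ↔ p k = l := by
  rw [swap_apply_out p h1 h2]
  constructor
  · intro h
    rw [← Equiv.swap_apply_of_ne_of_ne h3 h4] at h
    exact (Equiv.swap i j).injective h
  · intro h
    rw [h, Equiv.swap_apply_of_ne_of_ne h3 h4]

theorem cup_out (h1 : k ≠ i) (h2 : k ≠ j) : cup i j p k = p k := by
  simp [cup, h1, h2]

theorem cut_fix_out (h1 : k ≠ i) (h2 : k ≠ j) : cut i j p k = k ↔ p k = k := by
  have inv : ∀ x, p (p x) = x := p.inv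
  simp only [cut]
  grind

theorem swap_swap_comm (h1 : k ≠ i) (h2 : k ≠ j) (h3 : l ≠ i) (h4 : l ≠ j) :
    swap i j (swap k l p) = swap k l (swap i j p) := by
  have hc : ∀ x, Equiv.swap i j (Equiv.swap k l x) = Equiv.swap k l (Equiv.swap i j x) := by
    intro x
    simp only [Equiv.swap_apply_def]
    grind
  ext x
  simp only [swap, hc]

theorem swap_cup_comm (h1 : k ≠ i) (h2 : k ≠ j) (h3 : l ≠ i) (h4 : l ≠ j) (h : CuOK k l p) :
    swap i j (cup k l p) = cup k l (swap i j p) := by
  have h' : CuOK k l (swap i j p) := ⟨(swap_eq_out p h1 h2 h1 h2).2 h.1,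
    (swap_eq_out p h3 h4 h3 h4).2 h.2⟩
  have inv : ∀ x, p (p x) = x := p.inv
  ext x
  rw [cup_apply h', swap_apply, cup_apply h, swap_apply]
  simp only [Equiv.swap_apply_def]
  grind

theorem swap_cut_comm (h1 : k ≠ i) (h2 : k ≠ j) (h3 : l ≠ i) (h4 : l ≠ j) (h : CtOK k l p) :
    swap i j (cut k l p) = cut k l (swap i j p) := by
  have h' : CtOK k l (swap i j p) := ⟨h.1, fun hh => h.2.1 ((swap_eq_out p h1 h2 h1 h2).1 hh),
    fun hh => h.2.2.1 ((swap_eq_out p h3 h4 h3 h4).1 hh),
    fun hh => h.2.2.2 ((swap_eq_out p h1 h2 h3 h4).1 hh)⟩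
  have inv : ∀ x, p (p x) = x := p.inv
  ext x
  rw [cut_apply h', swap_apply, cut_apply h, swap_apply, swap_apply, swap_apply]
  simp only [Equiv.swap_apply_def]
  grind (splits := 30)

theorem cup_cup_comm (h1 : k ≠ i) (h2 : k ≠ j) (h3 : l ≠ i) (h4 : l ≠ j) (h : CuOK i j p)
    (h' : CuOK k l p) : cup i j (cup k l p) = cup k l (cup i j p) := by
  have hA : CuOK i j (cup k l p) := by
    refine ⟨?_, ?_⟩
    · rw [cup_out p h1.symm h3.symm]; exact h.1
    · rw [cup_out p h2.symm h4.symm]; exact h.2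
  have hB : CuOK k l (cup i j p) := by
    refine ⟨?_, ?_⟩
    · rw [cup_out p h1 h2]; exact h'.1
    · rw [cup_out p h3 h4]; exact h'.2
  ext x
  rw [cup_apply hA, cup_apply hB, cup_apply h, cup_apply h']
  grind

/-- the condition of `cut k l` is not changed by `cup i j` -/
theorem ctOK_cup (h1 : k ≠ i) (h2 : k ≠ j) (h3 : l ≠ i) (h4 : l ≠ j) :
    CtOK k l (cup i j p) ↔ CtOK k l p := by
  simp only [CtOK, cup_out p h1 h2, cup_out p h3 h4]

theorem cuOK_cup (h1 : k ≠ i) (h2 : k ≠ j) (h3 : l ≠ i) (h4 : l ≠ j) :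
    CuOK k l (cup i j p) ↔ CuOK k l p := by
  simp only [CuOK, cup_out p h1 h2, cup_out p h3 h4]

theorem cuOK_cut (h1 : k ≠ i) (h2 : k ≠ j) (h3 : l ≠ i) (h4 : l ≠ j) :
    CuOK k l (cut i j p) ↔ CuOK k l p := by
  simp only [CuOK, cut_fix_out p h1 h2, cut_fix_out p h3 h4]

theorem cuOK_swap (h1 : k ≠ i) (h2 : k ≠ j) (h3 : l ≠ i) (h4 : l ≠ j) :
    CuOK k l (swap i j p) ↔ CuOK k l p := by
  simp only [CuOK, swap_eq_out p h1 h2 h1 h2, swap_eq_out p h3 h4 h3 h4]

theorem ctOK_swap (h1 : k ≠ i) (h2 : k ≠ j) (h3 : l ≠ i) (h4 : l ≠ j) :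
    CtOK k l (swap i j p) ↔ CtOK k l p := by
  simp only [CtOK, ne_eq, swap_eq_out p h1 h2 h1 h2, swap_eq_out p h3 h4 h3 h4,
    swap_eq_out p h1 h2 h3 h4]

theorem cup_cut_comm (h1 : k ≠ i) (h2 : k ≠ j) (h3 : l ≠ i) (h4 : l ≠ j) (h : CuOK i j p)
    (h' : CtOK k l p) : cup i j (cut k l p) = cut k l (cup i j p) := by
  have inv : ∀ x, p (p x) = x := p.inv
  have hA : CuOK i j (cut k l p) := (cuOK_cut p h1.symm h3.symm h2.symm h4.symm).2 h
  have hB : CtOK k l (cup i j p) := (ctOK_cup p h1 h2 h3 h4).2 h'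
  ext x
  rw [cup_apply hA, cut_apply hB, cut_apply h']
  simp only [cup_apply h]
  grind (splits := 30)

theorem cut_cut_aux (h1 : k ≠ i) (h2 : k ≠ j) (h3 : l ≠ i) (h4 : l ≠ j)
    (ha : CtOK i j p) (hb : CtOK k l (cut i j p)) :
    CtOK k l p ∧ CtOK i j (cut k l p) ∧ cut k l (cut i j p) = cut i j (cut k l p) := by
  have inv : ∀ x, p (p x) = x := p.inv
  have hc : CtOK k l p := by
    simp only [CtOK, cut] at ha hb ⊢
    grind
  have hd : CtOK i j (cut k l p) := by
    simp only [CtOK, cut] at ha hb ⊢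
    grind
  refine ⟨hc, hd, ?_⟩
  ext x
  rw [cut_apply hb, cut_apply hd]
  simp only [CtOK, cut_apply ha, cut_apply hc] at hb hd ⊢
  clear ha hc
  grind (splits := 30)

end

/-! ### Elementary operators -/

section ops

variable (K : Type*) [CommRing K]

/-- the site `i` is empty -/
def opE (i : α) : Module.End K (Pat α → K) where
  toFun F p := if p i = i then F p else 0
  map_add' F G := by
    funext p; simp only [Pi.add_apply]; split_ifs <;> simp
  map_smul' c F := by
    funext p; simp only [Pi.smul_apply, RingHom.id_apply, smul_eq_mul]; split_ifs <;> simp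

/-- exchange of two sites -/
def opSw (i j : α) : Module.End K (Pat α → K) where
  toFun F p := F (swap i j p)
  map_add' _ _ := rfl
  map_smul' _ _ := rfl

/-- creation of an arc (`0` unless both sites are empty) -/
def opCu (i j : α) : Module.End K (Pat α → K) where
  toFun F p := if CuOK i j p then F (cup i j p) else 0
  map_add' F G := by
    funext p; simp only [Pi.add_apply]; split_ifs <;> simp
  map_smul' c F := by
    funext p; simp only [Pi.smul_apply, RingHom.id_apply, smul_eq_mul]; split_ifs <;> simp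

/-- joining of two strands (`0` unless both sites are occupied and not partners) -/
def opCt (i j : α) : Module.End K (Pat α → K) where
  toFun F p := if CtOK i j p then F (cut i j p) else 0
  map_add' F G := by
    funext p; simp only [Pi.add_apply]; split_ifs <;> simp
  map_smul' c F := by
    funext p; simp only [Pi.smul_apply, RingHom.id_apply, smul_eq_mul]; split_ifs <;> simp

variable {K}

theorem opE_apply (i : α) (F : Pat α → K) (p : Pat α) :
    opE K i F p = if p i = i then F p else 0 := rfl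

theorem opSw_apply (i j : α) (F : Pat α → K) (p : Pat α) :
    opSw K i j F p = F (swap i j p) := rfl

theorem opCu_apply (i j : α) (F : Pat α → K) (p : Pat α) :
    opCu K i j F p = if CuOK i j p then F (cup i j p) else 0 := rfl

theorem opCt_apply (i j : α) (F : Pat α → K) (p : Pat α) :
    opCt K i j F p = if CtOK i j p then F (cut i j p) else 0 := rfl

/-- The elementary operators with sites in `S`. -/
inductive IsGen (S : Set α) : Module.End K (Pat α → K) → Prop
  | e {i : α} (hi : i ∈ S) : IsGen S (opE K i)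
  | sw {i j : α} (hi : i ∈ S) (hj : j ∈ S) : IsGen S (opSw K i j)
  | cu {i j : α} (hi : i ∈ S) (hj : j ∈ S) : IsGen S (opCu K i j)
  | ct {i j : α} (hi : i ∈ S) (hj : j ∈ S) : IsGen S (opCt K i j)

variable (K) in
/-- The algebra of local operators supported on `S`. -/
def Loc (S : Set α) : Subalgebra K (Module.End K (Pat α → K)) :=
  Algebra.adjoin K {X | IsGen S X}

theorem comm_E_E (i k : α) : Commute (opE K i) (opE K k) := by
  refine LinearMap.ext fun F => ?_
  funext p
  simp only [Module.End.mul_apply, opE_apply]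
  split_ifs <;> rfl

section
variable {i j k l : α}

theorem comm_E_Sw (h1 : k ≠ i) (h2 : k ≠ j) : Commute (opE K k) (opSw K i j) := by
  refine LinearMap.ext fun F => ?_
  funext p
  simp only [Module.End.mul_apply, opE_apply, opSw_apply, swap_eq_out p h1 h2 h1 h2]

theorem comm_E_Cu (h1 : k ≠ i) (h2 : k ≠ j) : Commute (opE K k) (opCu K i j) := by
  refine LinearMap.ext fun F => ?_
  funext p
  simp only [Module.End.mul_apply, opE_apply, opCu_apply, cup_out p h1 h2]
  split_ifs <;> rfl

theorem comm_E_Ct (h1 : k ≠ i) (h2 : k ≠ j) : Commute (opE K k) (opCt K i j) := by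
  refine LinearMap.ext fun F => ?_
  funext p
  simp only [Module.End.mul_apply, opE_apply, opCt_apply, cut_fix_out p h1 h2]
  split_ifs <;> rfl

theorem comm_Sw_Sw (h1 : k ≠ i) (h2 : k ≠ j) (h3 : l ≠ i) (h4 : l ≠ j) :
    Commute (opSw K i j) (opSw K k l) := by
  refine LinearMap.ext fun F => ?_
  funext p
  simp only [Module.End.mul_apply, opSw_apply, swap_swap_comm p h1 h2 h3 h4]

theorem comm_Sw_Cu (h1 : k ≠ i) (h2 : k ≠ j) (h3 : l ≠ i) (h4 : l ≠ j) :
    Commute (opSw K i j) (opCu K k l) := by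
  refine LinearMap.ext fun F => ?_
  funext p
  simp only [Module.End.mul_apply, opSw_apply, opCu_apply, cuOK_swap p h1 h2 h3 h4]
  split_ifs with h
  · rw [swap_cup_comm p h1 h2 h3 h4 h]
  · rfl

theorem comm_Sw_Ct (h1 : k ≠ i) (h2 : k ≠ j) (h3 : l ≠ i) (h4 : l ≠ j) :
    Commute (opSw K i j) (opCt K k l) := by
  refine LinearMap.ext fun F => ?_
  funext p
  simp only [Module.End.mul_apply, opSw_apply, opCt_apply, ctOK_swap p h1 h2 h3 h4]
  split_ifs with h
  · rw [swap_cut_comm p h1 h2 h3 h4 h]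
  · rfl

theorem comm_Cu_Cu (h1 : k ≠ i) (h2 : k ≠ j) (h3 : l ≠ i) (h4 : l ≠ j) :
    Commute (opCu K i j) (opCu K k l) := by
  refine LinearMap.ext fun F => ?_
  funext p
  simp only [Module.End.mul_apply, opCu_apply, cuOK_cup p h1 h2 h3 h4,
    cuOK_cup p h1.symm h3.symm h2.symm h4.symm]
  by_cases h : CuOK i j p
  · by_cases h' : CuOK k l p
    · rw [if_pos h, if_pos h', if_pos h', if_pos h, cup_cup_comm p h1 h2 h3 h4 h h']
    · rw [if_pos h, if_neg h', if_neg h']
  · by_cases h' : CuOK k l p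
    · rw [if_neg h, if_pos h', if_neg h]
    · rw [if_neg h, if_neg h']

theorem comm_Cu_Ct (h1 : k ≠ i) (h2 : k ≠ j) (h3 : l ≠ i) (h4 : l ≠ j) :
    Commute (opCu K i j) (opCt K k l) := by
  refine LinearMap.ext fun F => ?_
  funext p
  simp only [Module.End.mul_apply, opCu_apply, opCt_apply, ctOK_cup p h1 h2 h3 h4,
    cuOK_cut p h1.symm h3.symm h2.symm h4.symm]
  by_cases h : CuOK i j p
  · by_cases h' : CtOK k l p
    · rw [if_pos h, if_pos h', if_pos h', if_pos h, cup_cut_comm p h1 h2 h3 h4 h h']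
    · rw [if_pos h, if_neg h', if_neg h']
  · by_cases h' : CtOK k l p
    · rw [if_neg h, if_pos h', if_neg h]
    · rw [if_neg h, if_neg h']

theorem comm_Ct_Ct (h1 : k ≠ i) (h2 : k ≠ j) (h3 : l ≠ i) (h4 : l ≠ j) :
    Commute (opCt K i j) (opCt K k l) := by
  refine LinearMap.ext fun F => ?_
  funext p
  simp only [Module.End.mul_apply, opCt_apply]
  by_cases h : CtOK i j p ∧ CtOK k l (cut i j p)
  · obtain ⟨hA, hB, hC⟩ := cut_cut_aux p h1 h2 h3 h4 h.1 h.2
    rw [if_pos h.1, if_pos h.2, if_pos hA, if_pos hB, hC]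
  · have h' : ¬ (CtOK k l p ∧ CtOK i j (cut k l p)) := by
      intro hh
      obtain ⟨hA, hB, -⟩ := cut_cut_aux p h1.symm h3.symm h2.symm h4.symm hh.1 hh.2
      exact h ⟨hA, hB⟩
    rw [not_and] at h h'
    trans (0 : K)
    · split_ifs with a b
      · exact absurd b (h a)
      · rfl
      · rfl
    · split_ifs with a b
      · exact absurd b (h' a)
      · rfl
      · rfl

end

/-- Elementary operators with disjoint supports commute. -/
theorem IsGen.commute {S T : Set α} (hST : Disjoint S T) {X Y : Module.End K (Pat α → K)}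
    (hX : IsGen S X) (hY : IsGen T Y) : Commute X Y := by
  have hne : ∀ {a b : α}, a ∈ S → b ∈ T → b ≠ a := by
    intro a b ha hb h
    exact Set.disjoint_left.1 hST ha (h ▸ hb)
  cases hX with
  | e hi =>
    cases hY with
    | e hk => exact comm_E_E _ _
    | sw hk hl => exact comm_E_Sw (hne hi hk).symm (hne hi hl).symm
    | cu hk hl => exact comm_E_Cu (hne hi hk).symm (hne hi hl).symm
    | ct hk hl => exact comm_E_Ct (hne hi hk).symm (hne hi hl).symm
  | sw hi hj =>
    cases hY with
    | e hk => exact (comm_E_Sw (hne hi hk) (hne hj hk)).symm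
    | sw hk hl => exact comm_Sw_Sw (hne hi hk) (hne hj hk) (hne hi hl) (hne hj hl)
    | cu hk hl => exact comm_Sw_Cu (hne hi hk) (hne hj hk) (hne hi hl) (hne hj hl)
    | ct hk hl => exact comm_Sw_Ct (hne hi hk) (hne hj hk) (hne hi hl) (hne hj hl)
  | cu hi hj =>
    cases hY with
    | e hk => exact (comm_E_Cu (hne hi hk) (hne hj hk)).symm
    | sw hk hl =>
      exact (comm_Sw_Cu (hne hi hk).symm (hne hi hl).symm (hne hj hk).symm (hne hj hl).symm).symm
    | cu hk hl => exact comm_Cu_Cu (hne hi hk) (hne hj hk) (hne hi hl) (hne hj hl)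
    | ct hk hl => exact comm_Cu_Ct (hne hi hk) (hne hj hk) (hne hi hl) (hne hj hl)
  | ct hi hj =>
    cases hY with
    | e hk => exact (comm_E_Ct (hne hi hk) (hne hj hk)).symm
    | sw hk hl =>
      exact (comm_Sw_Ct (hne hi hk).symm (hne hi hl).symm (hne hj hk).symm (hne hj hl).symm).symm
    | cu hk hl =>
      exact (comm_Cu_Ct (hne hi hk).symm (hne hi hl).symm (hne hj hk).symm (hne hj hl).symm).symm
    | ct hk hl => exact comm_Ct_Ct (hne hi hk) (hne hj hk) (hne hi hl) (hne hj hl)

/-- **Local operators with disjoint supports commute.** -/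
theorem Loc.commute {S T : Set α} (hST : Disjoint S T) {X Y : Module.End K (Pat α → K)}
    (hX : X ∈ Loc K S) (hY : Y ∈ Loc K T) : Commute X Y := by
  have h1 : ∀ Y, IsGen T Y → Commute X Y := by
    intro Y hY
    induction hX using Algebra.adjoin_induction with
    | mem X hX => exact hX.commute hST hY
    | algebraMap r => exact Algebra.commutes r Y
    | add X X' _ _ h h' => exact h.add_left h'
    | mul X X' _ _ h h' => exact h.mul_left h'
  induction hY using Algebra.adjoin_induction with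
  | mem Y hY => exact h1 Y hY
  | algebraMap r => exact (Algebra.commutes r X).symm
  | add Y Y' _ _ h h' => exact h.add_right h'
  | mul Y Y' _ _ h h' => exact h.mul_right h'

theorem Loc.mono {S T : Set α} (h : S ⊆ T) : Loc K S ≤ Loc K T := by
  apply Algebra.adjoin_mono
  rintro X (⟨hi⟩ | ⟨hi, hj⟩ | ⟨hi, hj⟩ | ⟨hi, hj⟩)
  · exact .e (h hi)
  · exact .sw (h hi) (h hj)
  · exact .cu (h hi) (h hj)
  · exact .ct (h hi) (h hj)

theorem Loc.e {S : Set α} {i : α} (hi : i ∈ S) : opE K i ∈ Loc K S :=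
  Algebra.subset_adjoin (.e hi)

theorem Loc.sw {S : Set α} {i j : α} (hi : i ∈ S) (hj : j ∈ S) : opSw K i j ∈ Loc K S :=
  Algebra.subset_adjoin (.sw hi hj)

theorem Loc.cu {S : Set α} {i j : α} (hi : i ∈ S) (hj : j ∈ S) : opCu K i j ∈ Loc K S :=
  Algebra.subset_adjoin (.cu hi hj)

theorem Loc.ct {S : Set α} {i j : α} (hi : i ∈ S) (hj : j ∈ S) : opCt K i j ∈ Loc K S :=
  Algebra.subset_adjoin (.ct hi hj)

/-- the site `i` is occupied -/
def opO (i : α) : Module.End K (Pat α → K) := 1 - opE K i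

theorem opO_apply (i : α) (F : Pat α → K) (p : Pat α) :
    opO i F p = if p i = i then 0 else F p := by
  simp only [opO, LinearMap.sub_apply, Module.End.one_apply, Pi.sub_apply, opE_apply]
  split_ifs <;> simp

theorem Loc.o {S : Set α} {i : α} (hi : i ∈ S) : (opO i : Module.End K (Pat α → K)) ∈ Loc K S :=
  Subalgebra.sub_mem _ (Subalgebra.one_mem _) (Loc.e hi)

/-! ### Operators given as functions -/

/-- `X` is (the function underlying) a local operator supported on `S`. -/
def IsLoc (S : Set α) (X : (Pat α → K) → Pat α → K) : Prop :=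
  ∃ L ∈ Loc K S, ∀ F, X F = L F

theorem IsLoc.comm {S T : Set α} {X Y : (Pat α → K) → Pat α → K} (hX : IsLoc S X)
    (hY : IsLoc T Y) (hST : Disjoint S T) (F : Pat α → K) : X (Y F) = Y (X F) := by
  obtain ⟨L, hL, hXL⟩ := hX
  obtain ⟨M, hM, hYM⟩ := hY
  rw [hXL, hYM, hYM, hXL]
  exact LinearMap.congr_fun (Loc.commute hST hL hM) F

theorem IsLoc.mono {S T : Set α} {X : (Pat α → K) → Pat α → K} (hX : IsLoc S X) (h : S ⊆ T) :
    IsLoc T X := by
  obtain ⟨L, hL, hXL⟩ := hX
  exact ⟨L, Loc.mono h hL, hXL⟩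

theorem IsLoc.comp {S : Set α} {X Y : (Pat α → K) → Pat α → K} (hX : IsLoc S X)
    (hY : IsLoc S Y) : IsLoc S (fun F => X (Y F)) := by
  obtain ⟨L, hL, hXL⟩ := hX
  obtain ⟨M, hM, hYM⟩ := hY
  exact ⟨L * M, mul_mem hL hM, fun F => by beta_reduce; rw [hYM, hXL]; rfl⟩

theorem IsLoc.id (S : Set α) : IsLoc S (fun F : Pat α → K => F) :=
  ⟨1, Subalgebra.one_mem _, fun _ => rfl⟩

theorem IsLoc.of {S : Set α} {L : Module.End K (Pat α → K)} (h : L ∈ Loc K S) :
    IsLoc S (fun F => L F) := ⟨L, h, fun _ => rfl⟩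

theorem IsLoc.add {S : Set α} {X Y : (Pat α → K) → Pat α → K} (hX : IsLoc S X)
    (hY : IsLoc S Y) : IsLoc S (fun F => X F + Y F) := by
  obtain ⟨L, hL, hXL⟩ := hX
  obtain ⟨M, hM, hYM⟩ := hY
  exact ⟨L + M, add_mem hL hM, fun F => by beta_reduce; rw [hYM, hXL]; rfl⟩

theorem IsLoc.smul {S : Set α} {X : (Pat α → K) → Pat α → K} (c : K) (hX : IsLoc S X) :
    IsLoc S (fun F => c • X F) := by
  obtain ⟨L, hL, hXL⟩ := hX
  exact ⟨c • L, Subalgebra.smul_mem _ hL c, fun F => by beta_reduce; rw [hXL]; rfl⟩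

/-- The rhombus operator is local. -/
theorem R_isLoc (w : Wt K) {i j : α} (hij : i ≠ j) : IsLoc {i, j} (R w i j : (Pat α → K) → _) := by
  have hi : i ∈ ({i, j} : Set α) := by simp
  have hj : j ∈ ({i, j} : Set α) := by simp
  refine ⟨opE K i * opE K j + w.u2 • opCu K i j
    + (opE K i * opO j + opO i * opE K j) * (w.v • 1 + w.u1 • opSw K i j)
    + opO i * opO j * (w.w1 • opSw K i j + w.u2 • opCt K i j
      + w.w2 • (opCt K i j * opCu K i j)), ?_, ?_⟩
  · have e1 := Loc.e (K := K) hi
    have e2 := Loc.e (K := K) hj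
    have o1 := Loc.o (K := K) hi
    have o2 := Loc.o (K := K) hj
    have sw := Loc.sw (K := K) hi hj
    have cu := Loc.cu (K := K) hi hj
    have ct := Loc.ct (K := K) hi hj
    refine add_mem (add_mem (add_mem (mul_mem e1 e2) (Subalgebra.smul_mem _ cu _)) (mul_mem
      (add_mem (mul_mem e1 o2) (mul_mem o1 e2)) (add_mem (Subalgebra.smul_mem _
        (Subalgebra.one_mem _) _) (Subalgebra.smul_mem _ sw _)))) (mul_mem (mul_mem o1 o2)
        (add_mem (add_mem (Subalgebra.smul_mem _ sw _) (Subalgebra.smul_mem _ ct _))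
          (Subalgebra.smul_mem _ (mul_mem ct cu) _)))
  · intro F
    funext p
    simp only [LinearMap.add_apply, Module.End.mul_apply, LinearMap.smul_apply, Pi.add_apply,
      Pi.smul_apply, smul_eq_mul, Module.End.one_apply, opE_apply, opO_apply, opCu_apply,
      opCt_apply, opSw_apply, R, CuOK, CtOK]
    by_cases h1 : p i = i
    · by_cases h2 : p j = j
      · simp [h1, h2]
      · simp [h1, h2]
    · by_cases h2 : p j = j
      · simp [h1, h2]
      · by_cases h3 : p i = j
        · have h4 : p j = i := by rw [← h3, p.inv]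
          have h5 : swap i j p = p := by
            have inv : ∀ x, p (p x) = x := p.inv
            ext x
            rw [swap_apply]
            simp only [Equiv.swap_apply_def]
            grind
          simp [h3, h4, hij, hij.symm, h5]
        · have hc : CtOK i j p := ⟨hij, h1, h2, h3⟩
          have h6 : cut i j p i = i := by rw [cut_apply hc]; simp
          have h7 : cut i j p j = j := by rw [cut_apply hc]; simp [hij.symm]
          simp [h1, h2, h3, hij, h6, h7]

theorem R_comm (w w' : Wt K) {i j k l : α} (hij : i ≠ j) (hkl : k ≠ l) (h1 : k ≠ i) (h2 : k ≠ j)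
    (h3 : l ≠ i) (h4 : l ≠ j) (F : Pat α → K) :
    R w i j (R w' k l F) = R w' k l (R w i j F) := by
  refine (R_isLoc w hij).comm (R_isLoc w' hkl) ?_ F
  rw [Set.disjoint_left]
  rintro a (rfl | rfl) (hb | hb)
  · exact h1 hb.symm
  · exact h3 hb.symm
  · exact h2 hb.symm
  · exact h4 hb.symm

/-! ### The other operators are local -/

theorem bot_isLoc (κ k : K) (i j b : α) :
    IsLoc {i, j, b} (bot κ k i j b : (Pat α → K) → _) := by
  have hi : i ∈ ({i, j, b} : Set α) := by simp
  have hj : j ∈ ({i, j, b} : Set α) := by simp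
  have hb : b ∈ ({i, j, b} : Set α) := by simp
  refine ⟨opE K i * opE K j + κ • opCu K i j + k • (opE K j * opCu K i b + opE K i * opCu K j b),
    add_mem (add_mem (mul_mem (Loc.e hi) (Loc.e hj)) (Subalgebra.smul_mem _ (Loc.cu hi hj) _))
      (Subalgebra.smul_mem _ (add_mem (mul_mem (Loc.e hj) (Loc.cu hi hb))
        (mul_mem (Loc.e hi) (Loc.cu hj hb))) _), ?_⟩
  intro F
  funext p
  simp only [LinearMap.add_apply, Module.End.mul_apply, LinearMap.smul_apply, Pi.add_apply,
    Pi.smul_apply, smul_eq_mul, opE_apply, opCu_apply, bot, CuOK]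
  by_cases h1 : p i = i <;> by_cases h2 : p j = j <;> by_cases h3 : p b = b <;>
    simp [h1, h2, h3]

theorem top_isLoc (κ k : K) {i j : α} (t : α) (hij : i ≠ j) :
    IsLoc {i, j, t} (top κ k i j t : (Pat α → K) → _) := by
  have hi : i ∈ ({i, j, t} : Set α) := by simp
  have hj : j ∈ ({i, j, t} : Set α) := by simp
  have ht : t ∈ ({i, j, t} : Set α) := by simp
  refine ⟨opE K i * opE K j + k • (opE K i * opO j * opE K t * opSw K j t)
      + k • (opO i * opE K j * opE K t * opSw K i t) + κ • opCt K i j,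
    add_mem (add_mem (add_mem (mul_mem (Loc.e hi) (Loc.e hj)) (Subalgebra.smul_mem _ (mul_mem
      (mul_mem (mul_mem (Loc.e hi) (Loc.o hj)) (Loc.e ht)) (Loc.sw hj ht)) _))
      (Subalgebra.smul_mem _ (mul_mem (mul_mem (mul_mem (Loc.o hi) (Loc.e hj)) (Loc.e ht))
      (Loc.sw hi ht)) _)) (Subalgebra.smul_mem _ (Loc.ct hi hj) _), ?_⟩
  intro F
  funext p
  simp only [LinearMap.add_apply, Module.End.mul_apply, LinearMap.smul_apply, Pi.add_apply,
    Pi.smul_apply, smul_eq_mul, opE_apply, opO_apply, opSw_apply, opCt_apply, top, CtOK]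
  by_cases h1 : p i = i <;> by_cases h2 : p j = j <;> by_cases h3 : p t = t <;>
    by_cases h4 : p i = j <;> simp_all

theorem bc_isLoc (c b : α) : IsLoc {c, b} (bc c b : (Pat α → K) → _) := by
  have hc : c ∈ ({c, b} : Set α) := by simp
  have hb : b ∈ ({c, b} : Set α) := by simp
  refine ⟨opE K c + opCu K c b, add_mem (Loc.e hc) (Loc.cu hc hb), ?_⟩
  intro F
  funext p
  simp only [LinearMap.add_apply, Pi.add_apply, opE_apply, opCu_apply, bc, CuOK]
  by_cases h1 : p c = c <;> by_cases h2 : p b = b <;> simp [h1, h2]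

theorem tc_isLoc (c t : α) : IsLoc {c, t} (tc c t : (Pat α → K) → _) := by
  have hc : c ∈ ({c, t} : Set α) := by simp
  have ht : t ∈ ({c, t} : Set α) := by simp
  refine ⟨opE K c + opO c * opE K t * opSw K c t, add_mem (Loc.e hc) (mul_mem (mul_mem
    (Loc.o hc) (Loc.e ht)) (Loc.sw hc ht)), ?_⟩
  intro F
  funext p
  simp only [LinearMap.add_apply, Module.End.mul_apply, Pi.add_apply, opE_apply, opO_apply,
    opSw_apply, tc]
  by_cases h1 : p c = c <;> by_cases h2 : p t = t <;> simp [h1, h2]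

theorem glue_isLoc {i j : α} (hij : i ≠ j) : IsLoc {i, j} (glue i j : (Pat α → K) → _) := by
  have hi : i ∈ ({i, j} : Set α) := by simp
  have hj : j ∈ ({i, j} : Set α) := by simp
  refine ⟨opE K i * opE K j + opCt K i j, add_mem (mul_mem (Loc.e hi) (Loc.e hj))
    (Loc.ct hi hj), ?_⟩
  intro F
  funext p
  simp only [LinearMap.add_apply, Module.End.mul_apply, Pi.add_apply, opE_apply, opCt_apply,
    glue, CtOK]
  by_cases h1 : p i = i <;> by_cases h2 : p j = j <;> by_cases h4 : p i = j <;> simp_all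

theorem U_isLoc (i j : α) : IsLoc {i, j} (U i j : (Pat α → K) → _) := by
  have hi : i ∈ ({i, j} : Set α) := by simp
  have hj : j ∈ ({i, j} : Set α) := by simp
  refine ⟨opE K i * opE K j + opCu K i j, add_mem (mul_mem (Loc.e hi) (Loc.e hj))
    (Loc.cu hi hj), ?_⟩
  intro F
  funext p
  simp only [LinearMap.add_apply, Module.End.mul_apply, Pi.add_apply, opE_apply, opCu_apply,
    U, CuOK]
  by_cases h1 : p i = i <;> by_cases h2 : p j = j <;> simp [h1, h2]

theorem Y_isLoc (x : K) (a b : α) : IsLoc {a, b} (Y x a b : (Pat α → K) → _) := by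
  have ha : a ∈ ({a, b} : Set α) := by simp
  have hb : b ∈ ({a, b} : Set α) := by simp
  refine ⟨opE K b * opE K a + x • opCu K a b + x • (opE K b * opO a * (1 + opSw K a b)),
    add_mem (add_mem (mul_mem (Loc.e hb) (Loc.e ha)) (Subalgebra.smul_mem _ (Loc.cu ha hb) _))
      (Subalgebra.smul_mem _ (mul_mem (mul_mem (Loc.e hb) (Loc.o ha)) (add_mem
        (Subalgebra.one_mem _) (Loc.sw ha hb))) _), ?_⟩
  intro F
  funext p
  simp only [LinearMap.add_apply, Module.End.mul_apply, LinearMap.smul_apply, Pi.add_apply,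
    Pi.smul_apply, smul_eq_mul, Module.End.one_apply, opE_apply, opO_apply, opSw_apply,
    opCu_apply, Y, CuOK]
  by_cases h1 : p a = a <;> by_cases h2 : p b = b <;> simp [h1, h2, mul_add]

theorem Yt_isLoc (x : K) {a b : α} (hab : a ≠ b) :
    IsLoc {a, b} (Yt x a b : (Pat α → K) → _) := by
  have ha : a ∈ ({a, b} : Set α) := by simp
  have hb : b ∈ ({a, b} : Set α) := by simp
  refine ⟨opE K b * opE K a + x • (opE K b * opO a) + x • (opO b * opE K a * opSw K a b)
      + x • opCt K a b,
    add_mem (add_mem (add_mem (mul_mem (Loc.e hb) (Loc.e ha)) (Subalgebra.smul_mem _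
      (mul_mem (Loc.e hb) (Loc.o ha)) _)) (Subalgebra.smul_mem _ (mul_mem (mul_mem (Loc.o hb)
      (Loc.e ha)) (Loc.sw ha hb)) _)) (Subalgebra.smul_mem _ (Loc.ct ha hb) _), ?_⟩
  intro F
  funext p
  simp only [LinearMap.add_apply, Module.End.mul_apply, LinearMap.smul_apply, Pi.add_apply,
    Pi.smul_apply, smul_eq_mul, opE_apply, opO_apply, opSw_apply, opCt_apply, Yt, CtOK]
  by_cases h1 : p a = a <;> by_cases h2 : p b = b <;> by_cases h4 : p a = b <;> simp_all

theorem ren_isLoc (r n : α) : IsLoc {r, n} (ren r n : (Pat α → K) → _) := by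
  have hr : r ∈ ({r, n} : Set α) := by simp
  have hn : n ∈ ({r, n} : Set α) := by simp
  refine ⟨opE K n * opSw K r n, mul_mem (Loc.e hn) (Loc.sw hr hn), ?_⟩
  intro F
  funext p
  simp only [Module.End.mul_apply, opE_apply, opSw_apply, ren]

theorem emp_isLoc (i : α) : IsLoc {i} (emp i : (Pat α → K) → _) :=
  ⟨opE K i, Loc.e rfl, fun _ => rfl⟩

theorem sw_isLoc (i j : α) : IsLoc {i, j} (sw i j : (Pat α → K) → _) :=
  ⟨opSw K i j, Loc.sw (by simp) (by simp), fun _ => rfl⟩

theorem sg_isLoc (i : α) : IsLoc {i} (sg i : (Pat α → K) → _) := by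
  refine ⟨opE K i - opO i, sub_mem (Loc.e rfl) (Loc.o rfl), ?_⟩
  intro F
  funext p
  simp only [LinearMap.sub_apply, Pi.sub_apply, opE_apply, opO_apply, sg]
  by_cases h1 : p i = i <;> simp [h1]

end ops

end Pool.Agent.EXL
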