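import Pool.Agent.EXL.Global
import Pool.Agent.EXL.Comm

/-!
# The concrete operators of the exact solution

`LabMap ι α` = the labels (rows, auxiliary lines), the floor end and the top end as sites of `α`.
`ops L` = the concrete system of operators (on functions of states, dual order: a word is read
from the floor to the top).  In `ops L` the operators with two equal labels are put equal to 0.
-/

namespace Pool.Agent.EXL

open Pat

/-- The labels (rows, auxiliary lines), the floor end and the top end as sites. -/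
structure LabMap (ι α : Type*) where
  /-- the site of a label -/
  lab : ι → α
  /-- the floor end -/
  flo : α
  /-- the top end -/
  cei : α
  inj : Function.Injective lab
  ne_flo : ∀ i, lab i ≠ flo
  ne_cei : ∀ i, lab i ≠ cei
  flo_ne : flo ≠ cei

namespace LabMap

variable {ι α : Type*} (L : LabMap ι α)

@[simp] theorem lab_inj {i j : ι} : (L.lab i = L.lab j) ↔ i = j := L.inj.eq_iff

@[simp] theorem lab_flo {i : ι} : ¬ L.lab i = L.flo := L.ne_flo i
@[simp] theorem flo_lab {i : ι} : ¬ L.flo = L.lab i := (L.ne_flo i).symm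
@[simp] theorem lab_cei {i : ι} : ¬ L.lab i = L.cei := L.ne_cei i
@[simp] theorem cei_lab {i : ι} : ¬ L.cei = L.lab i := (L.ne_cei i).symm
@[simp] theorem flo_cei : ¬ L.flo = L.cei := L.flo_ne
@[simp] theorem cei_flo : ¬ L.cei = L.flo := L.flo_ne.symm

theorem lab_ne {i j : ι} (h : i ≠ j) : L.lab i ≠ L.lab j := by simpa using h

end LabMap

section weights

/-- The denominator of the rhombus weights. -/
noncomputable def Dn (u : ℂ) : ℂ :=
  PP (Complex.exp (Real.pi / 4 * Complex.I)) (Complex.exp (u * Complex.I))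

/-- The weights of the rhombus with angle `u`. -/
noncomputable def rwt (u : ℂ) : Wt ℂ :=
  wt (Complex.exp (Real.pi / 4 * Complex.I)) (Complex.exp (3 * Real.pi / 8 * Complex.I))
    (Complex.exp (u * Complex.I)) (Dn u)⁻¹

/-- The denominator of the cap weights. -/
noncomputable def Sn (z : ℂ) : ℂ := Complex.sin (3 * Real.pi / 16 + z)

/-- The weight of an arc at a cap. -/
noncomputable def kK (z : ℂ) : ℂ := Sn (-z) / Sn z

/-- The weight of an end at a cap. -/
noncomputable def kk (z : ℂ) : ℂ := Complex.sin (2 * z) / Sn z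

/-- The weight of the honeycomb vertex. -/
noncomputable def xh : ℂ := (2 * Complex.cos (Real.pi / 8))⁻¹

/-- The regular angles. -/
def okR (u : ℂ) : Prop := Dn u ≠ 0

/-- The regular cap parameters. -/
def okC (v : ℂ) : Prop := Sn v ≠ 0

end weights

section mk

variable {α K : Type*} [CommRing K]

/-- A linear operator given by a function. -/
def mk (X : (Pat α → K) → Pat α → K) (h : Lin X) : Module.End K (Pat α → K) where
  toFun := X
  map_add' F G := by
    have := h 1 1 F G
    simp only [one_mul] at this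
    exact this
  map_smul' a F := by
    have := h a 0 F 0
    simp only [Pi.zero_apply, mul_zero, add_zero, zero_mul] at this
    exact this

@[simp] theorem mk_apply (X : (Pat α → K) → Pat α → K) (h : Lin X) (F : Pat α → K) :
    mk X h F = X F := rfl

variable {X Y Z W V : (Pat α → K) → Pat α → K} {hX : Lin X} {hY : Lin Y} {hZ : Lin Z} {hW : Lin W}
  {hV : Lin V}

theorem mk_congr (h : ∀ F, X F = Y F) : mk X hX = mk Y hY := by
  apply LinearMap.ext
  exact h

theorem mk_commute [DecidableEq α] {S T : Set α} (h1 : IsLoc S X) (h2 : IsLoc T Y)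
    (h : Disjoint S T) : Commute (mk X hX) (mk Y hY) := by
  apply LinearMap.ext
  exact h1.comm h2 h

theorem mk_commute' (h : ∀ F, X (Y F) = Y (X F)) : Commute (mk X hX) (mk Y hY) := by
  apply LinearMap.ext
  exact h

end mk

variable {ι α : Type*} [DecidableEq ι] [DecidableEq α]

/-- Operators on functions of states. -/
abbrev Opr (α : Type*) := Module.End ℂ (Pat α → ℂ)

/-- The concrete operators. -/
noncomputable def ops (L : LabMap ι α) : Glob.Ops (Opr α) ι ℂ where
  l := Real.pi / 8
  h := 3 * Real.pi / 16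
  R i j u := if i = j then 0 else mk (R (rwt u) (L.lab i) (L.lab j)) (lin_R _ _ _)
  P i j := mk (sw (L.lab i) (L.lab j)) (lin_sw _ _)
  E i := mk (emp (L.lab i)) (lin_emp _)
  b i j v := if i = j then 0 else
    mk (bot (kK (3 * Real.pi / 8 - v)) (kk (3 * Real.pi / 8 - v)) (L.lab i) (L.lab j) L.flo)
      (lin_bot _ _ _ _ _)
  t i j v := if i = j then 0 else
    mk (top (kK v) (kk v) (L.lab i) (L.lab j) L.cei) (lin_top _ _ _ _ _)
  bc i := mk (bc (L.lab i) L.flo) (lin_bc _ _)
  tc i := mk (tc (L.lab i) L.cei) (lin_tc _ _)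
  glue i j := if i = j then 0 else mk (glue (L.lab i) (L.lab j)) (lin_glue _ _)
  U i j := if i = j then 0 else mk (U (L.lab i) (L.lab j)) (lin_U _ _)
  Y i j := if i = j then 0 else mk (Y xh (L.lab i) (L.lab j)) (lin_Y _ _ _)
  Yt i j := if i = j then 0 else mk (Yt xh (L.lab i) (L.lab j)) (lin_Yt _ _ _)
  Z i := mk (sg (L.lab i)) (lin_sg _)
  p := Real.pi
  q := Real.pi / 2

variable {L : LabMap ι α} {i j k m : ι} {u v : ℂ}

theorem ops_l : (ops L).l = Real.pi / 8 := rfl
theorem ops_h : (ops L).h = 3 * Real.pi / 16 := rfl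
theorem ops_p : (ops L).p = Real.pi := rfl
theorem ops_q : (ops L).q = Real.pi / 2 := rfl

theorem ops_R (h : i ≠ j) : (ops L).R i j u = mk (R (rwt u) (L.lab i) (L.lab j)) (lin_R _ _ _) :=
  if_neg h

theorem ops_R0 : (ops L).R i i u = 0 := if_pos rfl

theorem ops_P : (ops L).P i j = mk (sw (L.lab i) (L.lab j)) (lin_sw _ _) := rfl

theorem ops_E : (ops L).E i = mk (emp (L.lab i)) (lin_emp _) := rfl

theorem ops_b (h : i ≠ j) : (ops L).b i j v =
    mk (bot (kK (3 * Real.pi / 8 - v)) (kk (3 * Real.pi / 8 - v)) (L.lab i) (L.lab j) L.flo)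
      (lin_bot _ _ _ _ _) := if_neg h

theorem ops_b0 : (ops L).b i i v = 0 := if_pos rfl

theorem ops_t (h : i ≠ j) : (ops L).t i j v =
    mk (top (kK v) (kk v) (L.lab i) (L.lab j) L.cei) (lin_top _ _ _ _ _) := if_neg h

theorem ops_t0 : (ops L).t i i v = 0 := if_pos rfl

theorem ops_bc : (ops L).bc i = mk (bc (L.lab i) L.flo) (lin_bc _ _) := rfl

theorem ops_tc : (ops L).tc i = mk (tc (L.lab i) L.cei) (lin_tc _ _) := rfl

theorem ops_glue (h : i ≠ j) : (ops L).glue i j = mk (glue (L.lab i) (L.lab j)) (lin_glue _ _) :=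
  if_neg h

theorem ops_glue0 : (ops L).glue i i = 0 := if_pos rfl

theorem ops_U (h : i ≠ j) : (ops L).U i j = mk (U (L.lab i) (L.lab j)) (lin_U _ _) := if_neg h

theorem ops_U0 : (ops L).U i i = 0 := if_pos rfl

theorem ops_Y (h : i ≠ j) : (ops L).Y i j = mk (Y xh (L.lab i) (L.lab j)) (lin_Y _ _ _) := if_neg h

theorem ops_Y0 : (ops L).Y i i = 0 := if_pos rfl

theorem ops_Yt (h : i ≠ j) : (ops L).Yt i j = mk (Yt xh (L.lab i) (L.lab j)) (lin_Yt _ _ _) :=
  if_neg h

theorem ops_Yt0 : (ops L).Yt i i = 0 := if_pos rfl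

theorem ops_Z : (ops L).Z i = mk (sg (L.lab i)) (lin_sg _) := rfl

end Pool.Agent.EXL
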