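import Pool.Agent.EXL.GlRel

/-!
# Glue (G1 of board/EXL): the node relation of (P) along the nodes `xx (k ε)` (helper43)
-/

open Finset Real Filter Topology

namespace Pool.Agent.EXL.Glue

noncomputable section

/-- the filter of the sets of distinct nodes in `(0, π/16)` near `π/16` -/
def nf (n : ℕ) : Filter (Fin n → ℝ) := 𝓝[{x | Cl.Nd x}] fun _ => π / 16

/-- the node relation; definitionally `Ex.P2.NodeRelE B` (squares form) -/
def RelE (B : ℕ → ℝ) : Prop :=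
  ∀ n : ℕ, ∃ b : ℝ → ℝ, Tendsto (fun ε => b ε ^ 2) (𝓝[>] 0) (𝓝 (B n ^ 2)) ∧
    ∀ᶠ ε in 𝓝[>] (0 : ℝ), ∃ g : ℕ → ℝ,
    ∀ k ≤ n, P2F.mst (cos (2 * P2F.xx (k * ε))) - b ε =
      ∑ j ∈ range n, g j / P2F.H (cos (2 * P2F.xx (k * ε))) (cos (2 * P2F.xx ((j + 1) * ε)))

theorem xx_lt_p {t : ℝ} (h0 : 0 < t) (h1 : t < 1 / 20) : P2F.xx t < π / 16 := by
  have ht : |t| < 1 / 20 := by rw [abs_of_pos h0]; exact h1
  rw [← P2F.xx_zero]
  unfold P2F.xx
  have e1 : P2F.hh 0 < P2F.hh t := by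
    rw [P2F.hh_zero]
    unfold P2F.hh
    have := P2F.h0_pos
    rw [lt_div_iff₀ (by linarith)]
    nlinarith
  have e2 : arccos (P2F.hh t) < arccos (P2F.hh 0) :=
    arccos_lt_arccos (by linarith [P2F.hh_pos (t := 0) (by norm_num)]) e1 (P2F.hh_lt ht).le
  linarith

theorem xx_inj {s t : ℝ} (hs : |s| < 1 / 20) (ht : |t| < 1 / 20) (h : P2F.xx s = P2F.xx t) :
    s = t := by
  have h1 := P2F.cos_xx hs
  have h2 := P2F.cos_xx ht
  rw [h, h2] at h1
  unfold P2F.hh at h1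
  rw [abs_lt] at hs ht
  have h3 := P2F.h0_pos
  have e1 : 1 - t ≠ 0 := by linarith
  have e2 : 1 - s ≠ 0 := by linarith
  rw [div_eq_div_iff e1 e2] at h1
  have h4 : P2F.h0 * (t - s) = 0 := by linear_combination h1 / 2
  rcases mul_eq_zero.1 h4 with h5 | h5
  · exact absurd h5 h3.ne'
  · linarith

theorem xx_cont : ContinuousAt P2F.xx 0 := by
  unfold P2F.xx P2F.hh
  have h : ContinuousAt (fun t : ℝ => P2F.h0 * (1 + t) / (1 - t)) 0 := by
    apply ContinuousAt.div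
    · fun_prop
    · fun_prop
    · norm_num
  exact continuousAt_const.mul (Real.continuous_arccos.continuousAt.comp h)

/-- the nodes -/
def zs (n : ℕ) (ε : ℝ) : Fin n → ℝ := fun i => ((i : ℕ) + 1) * ε

theorem zs_small {n : ℕ} {ε : ℝ} (h0 : 0 < ε) (h1 : (n : ℝ) * ε < 1 / 20) (i : Fin n) :
    0 < zs n ε i ∧ zs n ε i < 1 / 20 := by
  unfold zs
  constructor
  · positivity
  · have : ((i : ℕ) : ℝ) + 1 ≤ n := by exact_mod_cast i.2
    exact lt_of_le_of_lt (mul_le_mul_of_nonneg_right this h0.le) h1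

theorem zs_inj {n : ℕ} {ε : ℝ} (h0 : 0 < ε) : Function.Injective (zs n ε) := by
  intro i j hij
  unfold zs at hij
  have h3 := mul_right_cancel₀ h0.ne' hij
  have h4 : ((i : ℕ) : ℝ) = (j : ℕ) := by linarith
  exact Fin.ext (by exact_mod_cast h4)

theorem nd_zs {n : ℕ} {ε : ℝ} (h0 : 0 < ε) (h1 : (n : ℝ) * ε < 1 / 20) :
    Cl.Nd fun i => P2F.xx (zs n ε i) := by
  have hs := fun i => zs_small h0 h1 i
  have hs' : ∀ i, |zs n ε i| < 1 / 20 := fun i => by rw [abs_of_pos (hs i).1]; exact (hs i).2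
  exact ⟨fun i j hij => zs_inj h0 (xx_inj (hs' i) (hs' j) hij), fun k => P2F.xx_pos (hs' k),
    fun k => xx_lt_p (hs k).1 (hs k).2⟩

theorem small_ev (n : ℕ) : ∀ᶠ ε in 𝓝[>] (0 : ℝ), (n : ℝ) * ε < 1 / 20 := by
  have : Tendsto (fun ε : ℝ => (n : ℝ) * ε) (𝓝[>] 0) (𝓝 0) := by
    have : Tendsto (fun ε : ℝ => (n : ℝ) * ε) (𝓝 0) (𝓝 ((n : ℝ) * 0)) :=
      (continuous_const.mul continuous_id).tendsto 0
    rw [mul_zero] at this
    exact this.mono_left nhdsWithin_le_nhds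
  exact this.eventually (gt_mem_nhds (by norm_num))

theorem tendsto_zs (n : ℕ) :
    Tendsto (fun ε : ℝ => fun i : Fin n => P2F.xx (zs n ε i)) (𝓝[>] 0) (nf n) := by
  unfold nf
  refine tendsto_nhdsWithin_iff.2 ⟨?_, ?_⟩
  · rw [tendsto_pi_nhds]
    intro i
    have h1 : Tendsto (fun ε : ℝ => zs n ε i) (𝓝[>] 0) (𝓝 0) := by
      unfold zs
      have : Tendsto (fun ε : ℝ => (((i : ℕ) : ℝ) + 1) * ε) (𝓝 0) (𝓝 ((((i : ℕ) : ℝ) + 1) * 0)) :=
        (continuous_const.mul continuous_id).tendsto 0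
      rw [mul_zero] at this
      exact this.mono_left nhdsWithin_le_nhds
    have h2 : Tendsto P2F.xx (𝓝 0) (𝓝 (π / 16)) := by
      rw [← P2F.xx_zero]
      exact xx_cont
    exact h2.comp h1
  · filter_upwards [small_ev n, self_mem_nhdsWithin] with ε h1 h2
    exact nd_zs h2 h1

/-- **Glue.** -/
theorem relE_of {B : ℕ → ℝ} (hB0 : B 0 ^ 2 = 1)
    (h : ∀ n, 1 ≤ n → ∃ Bx : (Fin n → ℝ) → ℂ, Tendsto Bx (nf n) (𝓝 (B n : ℂ)) ∧
      ∀ᶠ x in nf n, ClOut x (Bx x)) : RelE B := by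
  intro n
  rcases Nat.eq_zero_or_pos n with rfl | hn
  · -- no nodes: `m_* (cos (π/8)) = 1`
    refine ⟨fun _ => 1, ?_, ?_⟩
    · rw [hB0]
      simp
    · refine Filter.Eventually.of_forall fun ε => ⟨fun _ => 0, ?_⟩
      intro k hk
      obtain rfl : k = 0 := Nat.le_zero.1 hk
      simp only [Nat.cast_zero, zero_mul, Finset.range_zero, Finset.sum_empty]
      rw [P2F.xx_zero]
      unfold P2F.mst
      have h2 := P2F.r1_sq
      have h3 := P2F.r1_mul_r2
      have e1 : cos (π / 8) = P2F.r1 / 2 := by unfold P2F.r1; ring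
      have e2 : cos (3 * π / 8) = P2F.r2 / 2 := by unfold P2F.r2; ring
      rw [show 2 * (π / 16) = π / 8 by ring, e1, e2]
      have e4 : (P2F.r1 / 2 + P2F.r1 / 2) * (P2F.r1 / 2 - P2F.r2 / 2) = 1 := by
        linear_combination (1 / 2) * h2 - (1 / 2) * h3
      rw [e4]
      norm_num
  · obtain ⟨Bx, hlim, hout⟩ := h n hn
    -- the property defining `b ε`
    let P : ℝ → ℝ → Prop := fun ε β => (β : ℂ) ^ 2 = Bx (fun i => P2F.xx (zs n ε i)) ^ 2 ∧
      ∃ g : ℕ → ℝ, ∀ k ≤ n, P2F.mst (cos (2 * P2F.xx (k * ε))) - β =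
        ∑ j ∈ range n, g j / P2F.H (cos (2 * P2F.xx (k * ε))) (cos (2 * P2F.xx ((j + 1) * ε)))
    have hP : ∀ᶠ ε in 𝓝[>] (0 : ℝ), ∃ β, P ε β := by
      filter_upwards [(tendsto_zs n).eventually hout, small_ev n, self_mem_nhdsWithin]
        with ε h1 h2 h3
      have h3' : (0 : ℝ) < ε := h3
      have hs := fun i => zs_small h3' h2 i
      have hs' : ∀ i, |zs n ε i| < 1 / 20 := fun i => by
        rw [abs_of_pos (hs i).1]; exact (hs i).2
      obtain ⟨β, hβ, g, hg⟩ := rel hs' (zs_inj h3') (nd_zs h3' h2) h1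
      refine ⟨β, hβ, fun j => if hj : j < n then g ⟨j, hj⟩ else 0, ?_⟩
      intro k hk
      have hy : P2F.xx (k * ε) = π / 16 ∨ ∃ i : Fin n, P2F.xx (k * ε) = P2F.xx (zs n ε i) := by
        rcases Nat.eq_zero_or_pos k with rfl | hk0
        · left
          rw [Nat.cast_zero, zero_mul, P2F.xx_zero]
        · right
          refine ⟨⟨k - 1, by omega⟩, ?_⟩
          unfold zs
          rw [Nat.cast_sub (by omega)]
          push_cast
          rw [sub_add_cancel]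
      rw [hg _ hy, Finset.sum_range]
      refine Finset.sum_congr rfl fun j _ => ?_
      beta_reduce
      rw [dif_pos j.2]
      rfl
    classical
    refine ⟨fun ε => if hh : ∃ β, P ε β then hh.choose else 0, ?_, ?_⟩
    · have hsq : Tendsto (fun ε : ℝ => (Bx (fun i => P2F.xx (zs n ε i)) ^ 2).re) (𝓝[>] 0)
          (𝓝 (B n ^ 2)) := by
        have h1 : Tendsto (fun ε : ℝ => Bx (fun i => P2F.xx (zs n ε i)) ^ 2) (𝓝[>] 0)
            (𝓝 ((B n : ℂ) ^ 2)) := (hlim.comp (tendsto_zs n)).pow 2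
        have h2 := (Complex.continuous_re.tendsto _).comp h1
        have h3 : ((B n : ℂ) ^ 2).re = B n ^ 2 := by
          rw [← Complex.ofReal_pow, Complex.ofReal_re]
        rw [h3] at h2
        exact h2
      refine hsq.congr' ?_
      filter_upwards [hP] with ε hε
      rw [dif_pos hε]
      have h1 := hε.choose_spec.1
      rw [← h1, ← Complex.ofReal_pow, Complex.ofReal_re]
    · filter_upwards [hP] with ε hε
      rw [dif_pos hε]
      exact hε.choose_spec.2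

end

end Pool.Agent.EXL.Glue
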