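import Pool.Agent.EXL.Closing
import Pool.Agent.EXL.GlLim

/-!
# Glue (G1 of board/EXL): from the facts about `b(v)` at distinct nodes to the node relation (P)
-/

open Real Filter Topology

namespace Pool.Agent.EXL.Glue

noncomputable section

/-- what the lattice side delivers: for all sets of `n` distinct nodes in `(0, π/16)` near `π/16`
there are `b` and `ρ` with the facts `BF` and `B = Bx x`, and `Bx x → B n`. -/
def LatRel (B : ℕ → ℝ) : Prop :=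
  ∀ n, 1 ≤ n → ∃ Bx : (Fin n → ℝ) → ℂ,
    Tendsto Bx (𝓝[{x | Cl.Nd x}] fun _ => π / 16) (𝓝 (B n : ℂ)) ∧
    ∀ᶠ x in 𝓝[{x | Cl.Nd x}] (fun _ : Fin n => π / 16), ∃ (b : ℂ → ℂ) (ρ : ℂ), Cl.BF x b (Bx x) ρ

theorem clOut_of_bf {n : ℕ} {x : Fin n → ℝ} (hx : Cl.Nd x) {b : ℂ → ℂ} {B ρ : ℂ}
    (hb : Cl.BF x b B ρ) : ClOut x B :=
  fun _ _ _ h1 h2 h3 => Cl.closing hx hb h1 h2 h3

/-- **G1.** -/
theorem nodeRelE {B : ℕ → ℝ} (hB0 : B 0 = 1) (h : LatRel B) : RelE B := by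
  refine relE_of (by rw [hB0]; norm_num) fun n hn => ?_
  obtain ⟨Bx, h1, h2⟩ := h n hn
  refine ⟨Bx, h1, ?_⟩
  filter_upwards [h2, self_mem_nhdsWithin] with x hx hnd
  obtain ⟨b, ρ, hb⟩ := hx
  exact clOut_of_bf hnd hb

end

end Pool.Agent.EXL.Glue
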