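import Pool.Agent.EXL.H1e
import Pool.Agent.EXL.BFAll
import Pool.Agent.EXL.Glue

/-!
# Glue: the lattice side `LatRel` from H1, the laws, the facts about `b`, and the identification
of the column at `π/16` (helper43)
-/

open Real Filter Topology

namespace Pool.Agent.EXL.Glue

variable {ι α : Type*} [DecidableEq ι] [DecidableEq α]

/-- the parameters of the rows -/
noncomputable def zrow {n : ℕ} (row : Fin n → ι) (x : Fin n → ℝ) : ι → ℂ :=
  Function.extend row (fun k => (x k : ℂ)) (fun _ => ((π / 16 : ℝ) : ℂ))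

omit [DecidableEq ι] in
theorem zrow_row {n : ℕ} {row : Fin n → ι} (hrow : Function.Injective row) (x : Fin n → ℝ)
    (k : Fin n) : zrow row x (row k) = (x k : ℂ) := hrow.extend_apply _ _ _

omit [DecidableEq ι] in
theorem zrow_const {n : ℕ} {row : Fin n → ι} (hrow : Function.Injective row) :
    zrow row (fun _ => π / 16) = fun _ => ((π / 16 : ℝ) : ℂ) := by
  funext i
  by_cases h : ∃ k, row k = i
  · obtain ⟨k, rfl⟩ := h
    exact zrow_row hrow _ k
  · exact Function.extend_apply' _ _ _ h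

/-- the lattice side at `n` rows -/
theorem lat_at {n : ℕ} [Finite α] {L : LabMap ι α} {rows : List ι} {a : Set ι}
    {A : Pat α → Prop} (S : HS.Setup L rows a A) (W : Glob.Laws (ops L) okR okC)
    {row : Fin n → ι} (hrow : Function.Injective row) (hrows : rows = (List.finRange n).map row)
    {i j i' j' c : ι} (ha : Aux4 a rows i j i' j') (hc : c ∈ a)
    (inj : HS.Inj L.flo L.cei A (fun F => (ops L).C (fun _ => ((π / 16 : ℝ) : ℂ)) c rows F))
    {F₀ : Pat α → ℂ} {β : ℂ}
    (h₀ : HS.Half L.flo L.cei A (fun F => (ops L).C (fun _ => ((π / 16 : ℝ) : ℂ)) c rows F) β F₀) :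
    ∃ Bx : (Fin n → ℝ) → ℂ,
      Tendsto Bx (𝓝[{x | Cl.Nd x}] fun _ => π / 16) (𝓝 β) ∧
      ∀ᶠ x in 𝓝[{x | Cl.Nd x}] (fun _ : Fin n => π / 16),
        ∃ (b : ℂ → ℂ) (ρ : ℂ), Cl.BF x b (Bx x) ρ := by
  have hpi := pi_pos
  have hz0 := zrow_const hrow
  have hcont : ∀ r ∈ rows, ContinuousAt (fun x : Fin n → ℝ => zrow row x r) fun _ => π / 16 := by
    intro r hr
    rw [hrows, List.mem_map] at hr
    obtain ⟨k, -, rfl⟩ := hr
    have e : (fun x : Fin n → ℝ => zrow row x (row k)) = fun x => ((x k : ℝ) : ℂ) :=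
      funext fun x => zrow_row hrow x k
    rw [e]
    exact (Complex.continuous_ofReal.comp (continuous_apply k)).continuousAt
  have hok : ∀ r ∈ rows, okR ((ops L).h - zrow row (fun _ => π / 16) r) := by
    intro r _
    rw [hz0]
    have := okR_main (u := 3 * π / 16 - π / 16) (by linarith) (by linarith)
    rw [ops_h]
    push_cast at this ⊢
    exact this
  obtain ⟨F, B, hBc, -, -, -, hev⟩ := HS.H1 S W (zrow row) hcont hok hc ha.mi ha.mj ha.ij
    (by rw [hz0]; exact inj)
  have hβ : B (fun _ => π / 16) = β := by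
    obtain ⟨-, -, h1, h2, -⟩ := hev.self_of_nhds
    rw [hz0] at h1 h2
    exact (HS.Half.unique L.flo_ne S.empty (HS.good_opsC _ (S.nmem c hc)) (S.presC _ c hc) inj
      h1 h₀).1
  refine ⟨B, ?_, ?_⟩
  · rw [← hβ]
    exact hBc.tendsto.mono_left nhdsWithin_le_nhds
  · filter_upwards [mem_nhdsWithin_of_mem_nhds hev, self_mem_nhdsWithin] with x hx hnd
    obtain ⟨-, hfull, -, -, hg⟩ := hx
    exact Fm.bf_all hnd W hrow hrows (zrow_row hrow x) ha hg hfull (fun v _ => rfl)

end Pool.Agent.EXL.Glue
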