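import Pool.Agent.EXL.Pat
import Pool.Agent.HexLoop.Defs

/-!
EXI, module N0: networks of half edges.

A half edge is a pair (v, d): the half of the edge from v to v + d that touches v. Operators act on
functions of connectivity states, `(A * B) F = A (B F)`, the operator A acts first.
-/

set_option autoImplicit false

namespace Pool.Agent.EXL.Net

open Pool.Agent.EXL Pat HexObs HexObs.LP

variable {α : Type*} [DecidableEq α] {K : Type*} [CommRing K]

/-- operators on functions of states. -/
abbrev Op (α K : Type*) [CommRing K] := Module.End K (Pat α → K)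

/-- create the arc ij (0 if one of the sites is occupied). -/
def cupO (i j : α) : Op α K where
  toFun F p := if p i = i ∧ p j = j then F (cup i j p) else 0
  map_add' F G := by
    ext p
    simp only [Pi.add_apply]
    split_ifs <;> simp
  map_smul' r F := by
    ext p
    simp only [Pi.smul_apply, RingHom.id_apply]
    split_ifs <;> simp

theorem cupO_apply (i j : α) (F : Pat α → K) (p : Pat α) :
    cupO i j F p = if p i = i ∧ p j = j then F (cup i j p) else 0 := rfl

/-- contraction of the half edges a, b of an edge. -/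
def Co (a b : α) : Op α K where
  toFun F p := if p a = a ∧ p b = b then F p else
    if p a = a ∨ p b = b ∨ p a = b then 0 else F (cut a b p)
  map_add' F G := by
    ext p
    simp only [Pi.add_apply]
    split_ifs <;> simp
  map_smul' r F := by
    ext p
    simp only [Pi.smul_apply, RingHom.id_apply]
    split_ifs <;> simp

theorem Co_apply (a b : α) (F : Pat α → K) (p : Pat α) :
    Co a b F p = if p a = a ∧ p b = b then F p else
      if p a = a ∨ p b = b ∨ p a = b then 0 else F (cut a b p) := rfl

/-- the vertex with the half edges a, b, c. -/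
def Cr (x : K) (a b c : α) : Op α K := 1 + x • (cupO a b + cupO a c + cupO b c)

/-- optional end: c (the floor end or the top end) may be joined to the half edge h. -/
def En (c h : α) : Op α K := 1 + cupO c h

/-! ### symmetry -/

theorem cup_symm (i j : α) (p : Pat α) : cup i j p = cup j i p := by
  ext x
  simp only [cup]
  grind

theorem cut_symm (i j : α) (p : Pat α) : cut i j p = cut j i p := by
  ext x
  have h1 := p.inv i
  have h2 := p.inv j
  simp only [cut]
  grind

theorem cupO_symm (i j : α) : (cupO i j : Op α K) = cupO j i := by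
  ext F p
  rw [cupO_apply, cupO_apply, cup_symm i j]
  simp only [and_comm]

theorem Co_symm (a b : α) : (Co a b : Op α K) = Co b a := by
  ext F p
  rw [Co_apply, Co_apply, cut_symm a b]
  have h1 := p.inv a
  have h2 := p.inv b
  grind

theorem Cr_swap12 (x : K) (a b c : α) : (Cr x a b c : Op α K) = Cr x b a c := by
  unfold Cr
  rw [cupO_symm a b, add_right_comm]

theorem Cr_swap23 (x : K) (a b c : α) : (Cr x a b c : Op α K) = Cr x a c b := by
  unfold Cr
  rw [cupO_symm b c, add_comm (cupO a b) (cupO a c)]

theorem Cr_rot (x : K) (a b c : α) : (Cr x a b c : Op α K) = Cr x b c a := by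
  rw [Cr_swap12, Cr_swap23]

/-! ### commutation -/

theorem cupO_comm {i j k l : α} (h1 : i ≠ k) (h2 : i ≠ l) (h3 : j ≠ k) (h4 : j ≠ l) :
    Commute (cupO i j : Op α K) (cupO k l) := by
  ext F p
  have e : p i = i → p j = j → p k = k → p l = l →
      cup k l (cup i j p) = cup i j (cup k l p) := by
    intro a b c d
    ext x
    simp only [cup]
    grind
  have a1 : (cup i j p) k = k ↔ p k = k := by
    simp only [cup]
    grind
  have a2 : (cup i j p) l = l ↔ p l = l := by
    simp only [cup]
    grind
  have a3 : (cup k l p) i = i ↔ p i = i := by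
    simp only [cup]
    grind
  have a4 : (cup k l p) j = j ↔ p j = j := by
    simp only [cup]
    grind
  simp only [Module.End.mul_apply, cupO_apply, a1, a2, a3, a4]
  by_cases c1 : p i = i ∧ p j = j
  · by_cases c2 : p k = k ∧ p l = l
    · rw [if_pos c1, if_pos c2, if_pos c2, if_pos c1, e c1.1 c1.2 c2.1 c2.2]
    · rw [if_pos c1, if_neg c2, if_neg c2]
  · by_cases c2 : p k = k ∧ p l = l
    · rw [if_neg c1, if_pos c2, if_neg c1]
    · rw [if_neg c1, if_neg c2]

/-- two creations at the same site annihilate each other. -/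
theorem cupO_cupO {c h k : α} (h1 : c ≠ h) : (cupO c h * cupO c k : Op α K) = 0 := by
  ext F p
  simp only [Module.End.mul_apply, cupO_apply, LinearMap.zero_apply, Pi.zero_apply]
  split_ifs with c1 c2
  · exfalso
    have := c2.1
    simp only [cup] at this
    grind
  · rfl
  · rfl

theorem cupO_Co_comm {i j a b : α} (h1 : i ≠ a) (h2 : i ≠ b) (h3 : j ≠ a) (h4 : j ≠ b) :
    Commute (cupO i j : Op α K) (Co a b) := by
  ext F p
  have a1 : (cup i j p) a = a ↔ p a = a := by
    simp only [cup]
    grind
  have a2 : (cup i j p) b = b ↔ p b = b := by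
    simp only [cup]
    grind
  have a5 : (cup i j p) a = b ↔ p a = b := by
    simp only [cup]
    grind
  simp only [Module.End.mul_apply, cupO_apply, Co_apply, a1, a2, a5]
  by_cases c2 : p a = a ∧ p b = b
  · simp only [if_pos c2]
  · simp only [if_neg c2]
    by_cases c3 : p a = a ∨ p b = b ∨ p a = b
    · simp only [if_pos c3, ite_self]
    · simp only [if_neg c3]
      have hi := p.inv a
      have hj := p.inv b
      have a3 : (cut a b p) i = i ↔ p i = i := by
        simp only [cut]
        grind
      have a4 : (cut a b p) j = j ↔ p j = j := by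
        simp only [cut]
        grind
      simp only [a3, a4]
      by_cases c1 : p i = i ∧ p j = j
      · rw [if_pos c1, if_pos c1]
        have e : cut a b (cup i j p) = cup i j (cut a b p) := by
          ext x
          simp only [cup, cut]
          grind (splits := 30)
        rw [e]
      · rw [if_neg c1, if_neg c1]

theorem Co_comm {a b c d : α} (h1 : a ≠ c) (h2 : a ≠ d) (h3 : b ≠ c) (h4 : b ≠ d) :
    Commute (Co a b : Op α K) (Co c d) := by
  ext F p
  simp only [Module.End.mul_apply, Co_apply]
  have ia := p.inv a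
  have ib := p.inv b
  have ic := p.inv c
  have id' := p.inv d
  by_cases c1 : p a = a ∧ p b = b
  · rw [if_pos c1]
    by_cases c2 : p c = c ∧ p d = d
    · rw [if_pos c2, if_pos c2, if_pos c1]
    · rw [if_neg c2, if_neg c2]
      by_cases c3 : p c = c ∨ p d = d ∨ p c = d
      · rw [if_pos c3, if_pos c3]
      · rw [if_neg c3, if_neg c3]
        have c4 : (cut c d p) a = a ∧ (cut c d p) b = b := by
          simp only [cut]
          grind
        rw [if_pos c4]
  · rw [if_neg c1]
    by_cases c2 : p c = c ∧ p d = d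
    · rw [if_pos c2, if_neg c1]
      by_cases c3 : p a = a ∨ p b = b ∨ p a = b
      · rw [if_pos c3, if_pos c3]
      · rw [if_neg c3, if_neg c3]
        have c4 : (cut a b p) c = c ∧ (cut a b p) d = d := by
          simp only [cut]
          grind
        rw [if_pos c4]
    · rw [if_neg c2]
      by_cases c3 : p a = a ∨ p b = b ∨ p a = b
      · rw [if_pos c3]
        by_cases c4 : p c = c ∨ p d = d ∨ p c = d
        · rw [if_pos c4]
        · rw [if_neg c4]
          have c5 : ¬ ((cut c d p) a = a ∧ (cut c d p) b = b) := by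
            simp only [cut]
            grind
          have c6 : (cut c d p) a = a ∨ (cut c d p) b = b ∨ (cut c d p) a = b := by
            simp only [cut]
            grind
          rw [if_neg c5, if_pos c6]
      · rw [if_neg c3]
        by_cases c4 : p c = c ∨ p d = d ∨ p c = d
        · rw [if_pos c4]
          have c5 : ¬ ((cut a b p) c = c ∧ (cut a b p) d = d) := by
            simp only [cut]
            grind
          have c6 : (cut a b p) c = c ∨ (cut a b p) d = d ∨ (cut a b p) c = d := by
            simp only [cut]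
            grind
          rw [if_neg c5, if_pos c6]
        · rw [if_neg c4]
          have c5 : ¬ ((cut a b p) c = c ∧ (cut a b p) d = d) := by
            simp only [cut]
            grind
          have c6 : ¬ ((cut c d p) a = a ∧ (cut c d p) b = b) := by
            simp only [cut]
            grind
          rw [if_neg c5, if_neg c6]
          by_cases c7 : (cut a b p) c = d
          · have c8 : (cut c d p) a = b := by
              simp only [cut] at c7 ⊢
              grind
            rw [if_pos (Or.inr (Or.inr c7)), if_pos (Or.inr (Or.inr c8))]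
          · have c8 : ¬ (cut c d p) a = b := by
              simp only [cut] at c7 ⊢
              grind
            have c9 : ¬ ((cut a b p) c = c ∨ (cut a b p) d = d ∨ (cut a b p) c = d) := by
              simp only [cut] at c7 ⊢
              grind
            have c10 : ¬ ((cut c d p) a = a ∨ (cut c d p) b = b ∨ (cut c d p) a = b) := by
              simp only [cut] at c8 ⊢
              grind
            rw [if_neg c9, if_neg c10]
            have e : cut c d (cut a b p) = cut a b (cut c d p) := by
              ext x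
              simp only [cut] at c7 c8 c9 c10 ⊢
              grind (splits := 30)
            rw [e]

theorem Cr_cupO_comm {x : K} {a b c i j : α} (h1 : a ≠ i) (h2 : a ≠ j) (h3 : b ≠ i) (h4 : b ≠ j)
    (h5 : c ≠ i) (h6 : c ≠ j) : Commute (Cr x a b c : Op α K) (cupO i j) := by
  unfold Cr
  exact (Commute.one_left _).add_left ((((cupO_comm h1 h2 h3 h4).add_left
    (cupO_comm h1 h2 h5 h6)).add_left (cupO_comm h3 h4 h5 h6)).smul_left x)

theorem Cr_comm {x : K} {a b c i j k : α} (h1 : a ≠ i) (h2 : a ≠ j) (h3 : b ≠ i) (h4 : b ≠ j)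
    (h5 : c ≠ i) (h6 : c ≠ j) (h7 : a ≠ k) (h8 : b ≠ k) (h9 : c ≠ k) :
    Commute (Cr x a b c : Op α K) (Cr x i j k) := by
  have e : (Cr x i j k : Op α K) = 1 + x • (cupO i j + cupO i k + cupO j k) := rfl
  rw [e]
  exact (Commute.one_right _).add_right ((((Cr_cupO_comm h1 h2 h3 h4 h5 h6).add_right
    (Cr_cupO_comm h1 h7 h3 h8 h5 h9)).add_right (Cr_cupO_comm h2 h7 h4 h8 h6 h9)).smul_right x)

theorem Cr_Co_comm {x : K} {a b c i j : α} (h1 : a ≠ i) (h2 : a ≠ j) (h3 : b ≠ i) (h4 : b ≠ j)
    (h5 : c ≠ i) (h6 : c ≠ j) : Commute (Cr x a b c : Op α K) (Co i j) := by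
  unfold Cr
  exact (Commute.one_left _).add_left ((((cupO_Co_comm h1 h2 h3 h4).add_left
    (cupO_Co_comm h1 h2 h5 h6)).add_left (cupO_Co_comm h3 h4 h5 h6)).smul_left x)

theorem En_Co_comm {c h i j : α} (h1 : c ≠ i) (h2 : c ≠ j) (h3 : h ≠ i) (h4 : h ≠ j) :
    Commute (En c h : Op α K) (Co i j) := by
  unfold En
  exact (Commute.one_left _).add_left (cupO_Co_comm h1 h2 h3 h4)

theorem Cr_En_comm {x : K} {a b c i j : α} (h1 : a ≠ i) (h2 : a ≠ j) (h3 : b ≠ i) (h4 : b ≠ j)
    (h5 : c ≠ i) (h6 : c ≠ j) : Commute (Cr x a b c : Op α K) (En i j) := by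
  unfold En
  exact (Commute.one_right _).add_right (Cr_cupO_comm h1 h2 h3 h4 h5 h6)

/-- different ends at different half edges. -/
theorem En_comm {c h i j : α} (h1 : c ≠ i) (h2 : c ≠ j) (h3 : h ≠ i) (h4 : h ≠ j) :
    Commute (En c h : Op α K) (En i j) := by
  unfold En
  exact (Commute.one_right _).add_right ((Commute.one_left _).add_left (cupO_comm h1 h2 h3 h4))

/-- the same end at different half edges. -/
theorem En_comm' {c h k : α} (h1 : c ≠ h) (h2 : c ≠ k) : Commute (En c h : Op α K) (En c k) := by
  have h : Commute (cupO c h : Op α K) (cupO c k) := by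
    unfold Commute SemiconjBy
    rw [cupO_cupO h1, cupO_cupO h2]
  unfold En
  exact (Commute.one_right _).add_right ((Commute.one_left _).add_left h)

/-! ### half edges -/

/-- the labels: half edges (v, d), the floor end `be` and the top end `ta`. -/
abbrev Lab := (Pt × Pt) ⊕ Bool

/-- the half edge (v, d). -/
abbrev hf (h : Pt × Pt) : Lab := Sum.inl h

/-- the floor end. -/
abbrev be : Lab := Sum.inr false

/-- the top end. -/
abbrev ta : Lab := Sum.inr true

/-- the vertical direction at the vertex v. -/
def dv (v : Pt) : Pt := if cl v = 0 then (0, 1) else (0, -1)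

/-- the vertex operator at v. -/
def Crv (x : K) (v : Pt) : Op Lab K :=
  Cr x (hf (v, dv v)) (hf (v, rotL (rotL (dv v)))) (hf (v, rotR (rotR (dv v))))

/-- contraction of an edge (unordered pair of half edges). -/
def CoS : Sym2 Lab → Op Lab K := Sym2.lift ⟨fun a b => Co a b, fun a b => Co_symm a b⟩

/-- the edge of the half edge h. -/
def ed (h : Pt × Pt) : Sym2 Lab := s(hf h, hf (rv h))

/-- the edges with an end in Ω. -/
noncomputable def edg (Ω : Finset Pt) : Finset (Sym2 Lab) := by
  classical
  exact ((Ω ×ˢ dirs).filter (fun h => De h)).image ed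

theorem CoS_ed (h : Pt × Pt) : (CoS (ed h) : Op Lab K) = Co (hf h) (hf (rv h)) := rfl

theorem rv_rv (h : Pt × Pt) : rv (rv h) = h := by
  unfold rv
  ext <;> simp

theorem ed_rv (h : Pt × Pt) : ed (rv h) = ed h := by
  unfold ed
  rw [rv_rv, Sym2.eq_swap]

theorem ed_eq {h k : Pt × Pt} : ed h = ed k ↔ h = k ∨ h = rv k := by
  unfold ed
  rw [Sym2.eq_iff]
  simp only [Sum.inl.injEq]
  constructor
  · rintro (⟨h1, -⟩ | ⟨h1, -⟩)
    · exact Or.inl h1
    · exact Or.inr h1
  · rintro (rfl | rfl)
    · exact Or.inl ⟨rfl, rfl⟩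
    · exact Or.inr ⟨rfl, rv_rv k⟩

theorem mem_edg {Ω : Finset Pt} {e : Sym2 Lab} :
    e ∈ edg Ω ↔ ∃ h : Pt × Pt, h.1 ∈ Ω ∧ De h ∧ ed h = e := by
  classical
  unfold edg
  simp only [Finset.mem_image, Finset.mem_filter, Finset.mem_product]
  constructor
  · rintro ⟨h, ⟨⟨h1, -⟩, h2⟩, h3⟩
    exact ⟨h, h1, h2, h3⟩
  · rintro ⟨h, h1, h2, h3⟩
    exact ⟨h, ⟨⟨h1, h2.1⟩, h2⟩, h3⟩

theorem dv_ne (v : Pt) : rotL (rotL (dv v)) ≠ dv v ∧ rotR (rotR (dv v)) ≠ dv v ∧
    rotL (rotL (dv v)) ≠ rotR (rotR (dv v)) := by
  unfold dv
  split_ifs <;> decide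

theorem Crv_comm (x : K) {v w : Pt} (h : v ≠ w) : Commute (Crv x v : Op Lab K) (Crv x w) := by
  unfold Crv
  apply Cr_comm <;> simp [h]

theorem Crv_Co_comm (x : K) {v : Pt} {h k : Pt × Pt} (h1 : h.1 ≠ v) (h2 : k.1 ≠ v) :
    Commute (Crv x v : Op Lab K) (Co (hf h) (hf k)) := by
  unfold Crv
  have e : ∀ (l : Pt × Pt) (d : Pt), l.1 ≠ v → (hf (v, d) : Lab) ≠ hf l := by
    intro l d hl he
    apply hl
    rw [Sum.inl.injEq] at he
    rw [← he]
  apply Cr_Co_comm <;> first | exact e _ _ h1 | exact e _ _ h2

theorem Crv_En_comm (x : K) {v : Pt} {h : Pt × Pt} {b : Bool} (h1 : h.1 ≠ v) :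
    Commute (Crv x v : Op Lab K) (En (Sum.inr b) (hf h)) := by
  unfold Crv
  have e : ∀ (d : Pt), (hf (v, d) : Lab) ≠ hf h := by
    intro d he
    apply h1
    rw [Sum.inl.injEq] at he
    rw [← he]
  apply Cr_En_comm <;> first | exact e _ | simp

theorem CoS_comm {h k : Pt × Pt} (h1 : ed h ≠ ed k) :
    Commute (CoS (ed h) : Op Lab K) (CoS (ed k)) := by
  rw [CoS_ed, CoS_ed]
  rw [Ne, ed_eq, not_or] at h1
  have h2 : rv h ≠ rv k := fun e => h1.1 (by rw [← rv_rv h, e, rv_rv])
  have h3 : rv h ≠ k := fun e => h1.2 (by rw [← e, rv_rv])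
  apply Co_comm
  · simp [h1.1]
  · simp [h1.2]
  · simp [h3]
  · simp [h2]

/-- all vertices of Ω. -/
noncomputable def CR (x : K) (Ω : Finset Pt) : Op Lab K :=
  Ω.noncommProd (Crv x) (fun _ _ _ _ h => Crv_comm x h)

/-- the end c at the half edges of s. -/
noncomputable def EN (K : Type*) [CommRing K] (b : Bool) (s : Finset (Pt × Pt)) : Op Lab K :=
  s.noncommProd (fun h => En (Sum.inr b) (hf h)) (fun _ _ _ _ _ => En_comm' (by simp) (by simp))

/-- all contractions of the edges in E. The edges are the ones of half edges. -/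
noncomputable def CO (K : Type*) [CommRing K] (E : Finset (Sym2 Lab))
    (hE : ∀ e ∈ E, ∃ h, e = ed h) : Op Lab K :=
  E.noncommProd CoS (fun e he f hf' h => by
    obtain ⟨a, rfl⟩ := hE e he
    obtain ⟨b, rfl⟩ := hE f hf'
    exact CoS_comm h)

theorem edg_ed {Ω : Finset Pt} : ∀ e ∈ edg Ω, ∃ h, e = ed h := by
  intro e he
  obtain ⟨h, -, -, h1⟩ := mem_edg.1 he
  exact ⟨h, h1.symm⟩

/-- the network: vertices in Ω, floor end at the outside half edges Bt, top end at the outside half
edges Tp, all edges with an end in Ω contracted. -/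
noncomputable def Net (x : K) (Ω : Finset Pt) (Bt Tp : Finset (Pt × Pt)) : Op Lab K :=
  CR x Ω * EN K false Bt * EN K true Tp * CO K (edg Ω) edg_ed

/-- the state with the single arc between the two ends. -/
def full : Pat Lab := cup be ta Pat.empty

/-- the indicator function of `full`. -/
noncomputable def dlt (K : Type*) [CommRing K] : Pat Lab → K := by
  classical
  exact fun p => if p = full then 1 else 0

end Pool.Agent.EXL.Net
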