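import Pool.Agent.EXL.Feet
import Pool.Agent.EXL.Net0

/-!
# Increments of the strip partition functions Z_m (board EXI, module I2, helper39)

`Zw N m`: total weight of the walks from the floor to the top of the parallelogram with N rows and m columns.
`Zw N (m + 1) = Zw N m + wS N m`, where `wS N m` is the critical weight of the bridges of height N that need at
most m + 1 columns; hence 0 ≤ Zw N (m + 1) - Zw N m ≤ bT N and the increments converge to bT N.
-/

set_option autoImplicit false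

namespace Pool.Agent.EXL

open Finset HexObs HexObs.LP Filter Topology ENNReal

/-- total weight of the walks from the floor to the top. -/
noncomputable def Zw (N m : ℕ) : ℝ :=
  ∑ h ∈ feetS m, ∑ t ∈ (ex0 (_root_.EXL.par N m) h).filter (fun t => rv (le h t) ∈ topsS N m), xc ^ t.length

/-- column of the vertex number i of the walk that starts below the column 0. -/
def cc (t : List Bool) (i : ℕ) : ℤ := ((vx oo up t i).1 - (vx oo up t i).2 + 1) / 3

/-- the bridges that fit when they start below the column j of m columns. -/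
def FitS (N : ℕ) (j m : ℤ) : Set (List Bool) :=
  {t | t ∈ Brd N ∧ ∀ i, 1 ≤ i → i ≤ t.length → 0 ≤ j + cc t i ∧ j + cc t i < m}

/-- the bridges that need at most m + 1 columns. -/
def WS (N : ℕ) (m : ℤ) : Set (List Bool) :=
  {t | t ∈ Brd N ∧ ∀ i k, 1 ≤ i → i ≤ t.length → 1 ≤ k → k ≤ t.length → cc t i - cc t k ≤ m}

/-- the weight of the bridges that need at most m + 1 columns. -/
noncomputable def wS (N m : ℕ) : ℝ := (gf (WS N m)).toReal

lemma B_foot (j : ℤ) : _root_.EXL.B j (-1) = oo + (2 * j, -j) := by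
  ext
  · show 2 * j + -1 + 1 = 0 + 2 * j
    ring
  · show -j + 1 + -1 = 0 + -j
    ring

lemma vx_foot (j : ℤ) (t : List Bool) (i : ℕ) :
    vx (_root_.EXL.B j (-1)) (0, 1) t i = vx oo up t i + (2 * j, -j) := by
  have h1 := vx_mulE (1, 0) oo (oo + (2 * j, -j)) up t i
  rw [mulE_one, mulE_one] at h1
  rw [B_foot]
  show vx (oo + (2 * j, -j)) up t i = vx oo up t i + (2 * j, -j)
  rw [h1]
  abel

lemma lev_eq (t : List Bool) (i : ℕ) : lev t i = (vx oo up t i).1 + 2 * (vx oo up t i).2 := by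
  unfold lev
  simp only [ip, up]
  ring

lemma vx_cl (t : List Bool) (i : ℕ) : ((vx oo up t i).1 - (vx oo up t i).2) % 3 = 0 ∨
    ((vx oo up t i).1 - (vx oo up t i).2) % 3 = 2 := by
  have h := vx_hex oo up t i
  exact (_root_.EXL.hex_iff (v0 := oo) (d0 := up) (Or.inl ⟨by decide, by decide⟩) _).1 h

lemma mem_par_foot {N m : ℕ} {j : ℤ} {t : List Bool} {i : ℕ} :
    vx (_root_.EXL.B j (-1)) (0, 1) t i ∈ _root_.EXL.par N m ↔
      (0 < lev t i ∧ lev t i < 3 * N + 2) ∧ (0 ≤ j + cc t i ∧ j + cc t i < m) := by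
  rw [vx_foot, _root_.EXL.mem_par', lev_eq]
  unfold cc
  have h := vx_cl t i
  simp only [Prod.fst_add, Prod.snd_add]
  constructor
  · rintro ⟨h1, ⟨h2, h3⟩, h4, h5⟩
    refine ⟨⟨by omega, by omega⟩, by omega, by omega⟩
  · rintro ⟨⟨h2, h3⟩, h4, h5⟩
    refine ⟨by omega, ⟨by omega, by omega⟩, by omega, by omega⟩

lemma lev_lt_iff {N : ℕ} {t : List Bool} {i : ℕ} : lev t i < 3 * N + 2 ↔ lev t i ≤ 3 * N := by
  have h := lev_mod t i
  constructor
  · intro h1
    split_ifs at h <;> omega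
  · intro h1
    omega

/-- the words of the parallelogram. -/
lemma mem_fit {N m : ℕ} (hN : 1 ≤ N) {j : ℤ} {t : List Bool} :
    t ∈ (ex0 (_root_.EXL.par N m) (_root_.EXL.B j (-1), ((0, 1) : Pt))).filter
      (fun t => rv (le (_root_.EXL.B j (-1), ((0, 1) : Pt)) t) ∈ topsS N m) ↔ t ∈ FitS N j m := by
  have hh : ex0 (_root_.EXL.par N m) (_root_.EXL.B j (-1), ((0, 1) : Pt)) =
      (arr0 (_root_.EXL.par N m) (_root_.EXL.B j (-1), ((0, 1) : Pt))).filter
        (fun t => tp (_root_.EXL.B j (-1), ((0, 1) : Pt)) t ∉ _root_.EXL.par N m) := rfl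
  rw [hh, Finset.mem_filter, Finset.mem_filter, mem_arr0]
  unfold FitS
  rw [Set.mem_ofPred_eq, mem_Brd]
  have htop : rv (le (_root_.EXL.B j (-1), ((0, 1) : Pt)) t) ∈ topsS N m ↔
      dx up t t.length = up ∧ lev t t.length = 3 * N ∧ 0 ≤ j + cc t t.length ∧ j + cc t t.length < m := by
    have e1 : rv (le (_root_.EXL.B j (-1), ((0, 1) : Pt)) t) =
        (vx oo up t t.length + (2 * j, -j) + dx up t t.length, -dx up t t.length) := by
      show (vx (_root_.EXL.B j (-1)) (0, 1) t t.length + dx (0, 1) t t.length, -dx (0, 1) t t.length) = _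
      rw [vx_foot]
      rfl
    rw [e1]
    unfold topsS
    rw [Finset.mem_image, lev_eq]
    unfold cc
    have h := vx_cl t t.length
    generalize vx oo up t t.length = q at h ⊢
    constructor
    · rintro ⟨k, hk, hk'⟩
      rw [Finset.mem_range] at hk
      have h1 := congrArg Prod.snd hk'
      simp only [] at h1
      have h2 : dx up t t.length = up := by
        rw [← neg_neg (dx up t t.length), ← h1]
        rfl
      rw [h2] at hk'
      have h3 := congrArg (fun p : Pt × Pt => p.1.1) hk'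
      have h4 := congrArg (fun p : Pt × Pt => p.1.2) hk'
      simp only [_root_.EXL.A, up, Prod.fst_add, Prod.snd_add] at h3 h4
      refine ⟨h2, by omega, by omega, by omega⟩
    · rintro ⟨h1, h2, h3, h4⟩
      refine ⟨(j + (q.1 - q.2 + 1) / 3).toNat, ?_, ?_⟩
      · rw [Finset.mem_range]
        omega
      · rw [Int.toNat_of_nonneg h3, h1]
        ext
        · simp only [_root_.EXL.A, up, Prod.fst_add]
          omega
        · simp only [_root_.EXL.A, up, Prod.snd_add]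
          omega
        · rfl
        · rfl
  rw [htop]
  constructor
  · rintro ⟨⟨⟨h1, h2⟩, h3⟩, h4, h5, h6, h7⟩
    have h8 : ∀ i, 1 ≤ i → i ≤ t.length → (0 < lev t i ∧ lev t i < 3 * N + 2) ∧
        (0 ≤ j + cc t i ∧ j + cc t i < m) := fun i hi hl => mem_par_foot.1 (h1 i hi hl)
    refine ⟨⟨fun i hi hl => ⟨(h8 i hi hl).1.1, lev_lt_iff.1 (h8 i hi hl).1.2⟩, ?_, h4, h5⟩,
      fun i hi hl => (h8 i hi hl).2⟩
    intro i k hik hk
    rcases Nat.eq_zero_or_pos i with h9 | h9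
    · rw [h9]
      intro h10
      have h11 := (h8 k (by omega) hk).1.1
      have h12 : lev t k = lev t 0 := by
        unfold lev
        rw [h10]
      rw [lev_zero] at h12
      omega
    · intro h10
      apply h2 i k h9 hik hk
      show vx (_root_.EXL.B j (-1)) (0, 1) t i = vx (_root_.EXL.B j (-1)) (0, 1) t k
      rw [vx_foot, vx_foot, h10]
  · rintro ⟨⟨h1, h2, h3, h4⟩, h5⟩
    have hpos : 1 ≤ t.length := by
      rcases Nat.eq_zero_or_pos t.length with h9 | h9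
      · rw [h9, lev_zero] at h4
        omega
      · exact h9
    refine ⟨⟨⟨?_, ?_⟩, ?_⟩, h3, h4, (h5 t.length hpos le_rfl).1, (h5 t.length hpos le_rfl).2⟩
    · intro i hi hl
      show vx (_root_.EXL.B j (-1)) (0, 1) t i ∈ _root_.EXL.par N m
      rw [mem_par_foot]
      exact ⟨⟨(h1 i hi hl).1, lev_lt_iff.2 (h1 i hi hl).2⟩, h5 i hi hl⟩
    · intro i k hi hik hk h10
      apply h2 i k hik hk
      have h11 : vx (_root_.EXL.B j (-1)) (0, 1) t i = vx (_root_.EXL.B j (-1)) (0, 1) t k := h10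
      rw [vx_foot, vx_foot] at h11
      exact add_right_cancel h11
    · intro h10
      have h11 : vx (_root_.EXL.B j (-1)) (0, 1) t (t.length + 1) ∈ _root_.EXL.par N m := h10
      rw [mem_par_foot] at h11
      have h12 := lev_succ t t.length
      rw [h3, h4] at h12
      have h13 : ip up up = 2 := by decide
      omega

lemma feet_inj : Function.Injective (fun j : ℕ => (_root_.EXL.B j (-1), ((0, 1) : Pt))) := by
  intro a b hab
  have h := congrArg (fun p : Pt × Pt => p.1.1) hab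
  simp only [_root_.EXL.B] at h
  omega

/-- the weights of the parallelogram as generating functions. -/
theorem ofReal_Zw {N : ℕ} (hN : 1 ≤ N) (m : ℕ) : ENNReal.ofReal (Zw N m) = ∑ j ∈ range m, gf (FitS N j m) := by
  unfold Zw feetS
  rw [Finset.sum_image (fun a _ b _ h => feet_inj h), ENNReal.ofReal_sum_of_nonneg
    (fun j _ => Finset.sum_nonneg (fun t _ => pow_nonneg xc_pos.le _))]
  apply Finset.sum_congr rfl
  intro j _
  rw [← gf_finset]
  congr 1
  ext t
  rw [Finset.mem_coe, mem_fit hN]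

theorem Zw_nonneg (N m : ℕ) : 0 ≤ Zw N m :=
  Finset.sum_nonneg (fun _ _ => Finset.sum_nonneg (fun _ _ => pow_nonneg xc_pos.le _))

/-- finite disjoint unions. -/
lemma gf_biUnion (s : Finset ℕ) (f : ℕ → Set (List Bool))
    (h : ∀ i ∈ s, ∀ k ∈ s, i ≠ k → Disjoint (f i) (f k)) : gf (⋃ i ∈ s, f i) = ∑ i ∈ s, gf (f i) := by
  classical
  induction s using Finset.induction_on with
  | empty => simp [gf]
  | insert a s ha ih =>
    rw [Finset.sum_insert ha, ← ih (fun i hi k hk => h i (mem_insert_of_mem hi) k (mem_insert_of_mem hk)),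
      Finset.set_biUnion_insert, gf_union]
    rw [Set.disjoint_iUnion₂_right]
    intro k hk
    exact h a (mem_insert_self a s) k (mem_insert_of_mem hk) (fun e => ha (e ▸ hk))

lemma Brd_len {N : ℕ} (hN : 1 ≤ N) {t : List Bool} (ht : t ∈ Brd N) : 1 ≤ t.length := by
  rcases Nat.eq_zero_or_pos t.length with h9 | h9
  · have h4 := (mem_Brd.1 ht).2.2.2
    rw [h9, lev_zero] at h4
    omega
  · exact h9

lemma cc_one (t : List Bool) : cc t 1 = 0 := by
  have h : vx oo up t 1 = (0, 1) := by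
    show vx oo up t 0 + dx up t 0 = (0, 1)
    show oo + up = (0, 1)
    decide
  unfold cc
  rw [h]
  decide

/-- the bridges that reach the last of the m + 1 columns. -/
def Tch (N : ℕ) (j m : ℤ) : Set (List Bool) :=
  {t | t ∈ FitS N j (m + 1) ∧ ∃ i, 1 ≤ i ∧ i ≤ t.length ∧ j + cc t i = m}

lemma FitS_succ (N : ℕ) (j m : ℤ) : FitS N j (m + 1) = FitS N j m ∪ Tch N j m := by
  ext t
  constructor
  · intro h
    by_cases h1 : ∃ i, 1 ≤ i ∧ i ≤ t.length ∧ j + cc t i = m
    · exact Or.inr ⟨h, h1⟩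
    · left
      refine ⟨h.1, fun i hi hl => ⟨(h.2 i hi hl).1, ?_⟩⟩
      have h2 := (h.2 i hi hl).2
      have h3 : j + cc t i ≠ m := fun h4 => h1 ⟨i, hi, hl, h4⟩
      omega
  · rintro (h | h)
    · exact ⟨h.1, fun i hi hl => ⟨(h.2 i hi hl).1, (h.2 i hi hl).2.trans (by omega)⟩⟩
    · exact h.1

lemma FitS_disj (N : ℕ) (j m : ℤ) : Disjoint (FitS N j m) (Tch N j m) := by
  rw [Set.disjoint_left]
  rintro t h1 ⟨_, i, h2, h3, h4⟩
  have := (h1.2 i h2 h3).2
  omega

lemma FitS_empty {N : ℕ} (hN : 1 ≤ N) (m : ℤ) : FitS N m m = ∅ := by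
  rw [Set.eq_empty_iff_forall_notMem]
  intro t h
  have h1 := (h.2 1 le_rfl (Brd_len hN h.1)).2
  rw [cc_one] at h1
  omega

lemma exists_max (t : List Bool) (h : 1 ≤ t.length) : ∃ i, 1 ≤ i ∧ i ≤ t.length ∧
    ∀ k, 1 ≤ k → k ≤ t.length → cc t k ≤ cc t i := by
  obtain ⟨i, hi, hi'⟩ := Finset.exists_max_image (Finset.Icc 1 t.length) (cc t) ⟨1, Finset.mem_Icc.2 ⟨le_rfl, h⟩⟩
  rw [Finset.mem_Icc] at hi
  exact ⟨i, hi.1, hi.2, fun k h1 h2 => hi' k (Finset.mem_Icc.2 ⟨h1, h2⟩)⟩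

lemma WS_eq {N : ℕ} (hN : 1 ≤ N) (m : ℕ) : WS N m = ⋃ j ∈ range (m + 1), Tch N (j : ℕ) m := by
  ext t
  rw [Set.mem_iUnion₂]
  constructor
  · rintro ⟨h1, h2⟩
    have hl := Brd_len hN h1
    obtain ⟨i, hi, hi', hi''⟩ := exists_max t hl
    have h3 := h2 i 1 hi hi' le_rfl hl
    have h4 := hi'' 1 le_rfl hl
    rw [cc_one] at h3 h4
    refine ⟨(m - cc t i).toNat, ?_, ⟨h1, ?_⟩, i, hi, hi', ?_⟩
    · rw [Finset.mem_range]
      omega
    · intro k hk hk'
      rw [Int.toNat_of_nonneg (by omega)]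
      have h5 := h2 i k hi hi' hk hk'
      have h6 := hi'' k hk hk'
      constructor <;> omega
    · rw [Int.toNat_of_nonneg (by omega)]
      ring
  · rintro ⟨j, hj, ⟨h1, h2⟩, i, hi, hi', h3⟩
    refine ⟨h1, ?_⟩
    intro a b ha ha' hb hb'
    have h4 := (h2 a ha ha').2
    have h5 := (h2 b hb hb').1
    omega

lemma Tch_disj {N m : ℕ} {a b : ℕ} (h : a ≠ b) : Disjoint (Tch N a m) (Tch N b m) := by
  rw [Set.disjoint_left]
  rintro t ⟨h1, i, h2, h3, h4⟩ ⟨h5, k, h6, h7, h8⟩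
  have h9 := (h1.2 k h6 h7).2
  have h10 := (h5.2 i h2 h3).2
  omega

theorem gf_step {N : ℕ} (hN : 1 ≤ N) (m : ℕ) :
    ∑ j ∈ range (m + 1), gf (FitS N (j : ℕ) (m + 1 : ℕ)) = ∑ j ∈ range m, gf (FitS N (j : ℕ) m) + gf (WS N m) := by
  have h1 : ∀ j ∈ range (m + 1), gf (FitS N (j : ℕ) (m + 1 : ℕ)) = gf (FitS N (j : ℕ) m) + gf (Tch N (j : ℕ) m) := by
    intro j _
    rw [← gf_union (FitS_disj N j m), ← FitS_succ]
    push_cast
    rfl
  rw [Finset.sum_congr rfl h1, Finset.sum_add_distrib, WS_eq hN, gf_biUnion _ _ (fun a _ b _ h => Tch_disj h),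
    Finset.sum_range_succ (fun j => gf (FitS N (j : ℕ) m)), FitS_empty hN]
  congr 1
  unfold gf
  rw [tsum_empty, add_zero]

lemma WS_sub (N : ℕ) (m : ℤ) : WS N m ⊆ Brd N := fun _ h => h.1

lemma gf_WS_le (N : ℕ) (m : ℤ) : gf (WS N m) ≤ BT N := by
  rw [← gf_Brd]
  exact gf_mono (WS_sub N m)

lemma gf_WS_ne_top {N : ℕ} (hN : 1 ≤ N) (m : ℤ) : gf (WS N m) ≠ ∞ := ne_top_of_le_ne_top (BT_ne_top hN) (gf_WS_le N m)

lemma ofReal_wS {N : ℕ} (hN : 1 ≤ N) (m : ℕ) : ENNReal.ofReal (wS N m) = gf (WS N m) :=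
  ENNReal.ofReal_toReal (gf_WS_ne_top hN m)

lemma wS_nonneg (N m : ℕ) : 0 ≤ wS N m := ENNReal.toReal_nonneg

lemma wS_le {N : ℕ} (hN : 1 ≤ N) (m : ℕ) : wS N m ≤ bT N := ENNReal.toReal_mono (BT_ne_top hN) (gf_WS_le N m)

lemma WS_mono (N : ℕ) {m m' : ℤ} (h : m ≤ m') : WS N m ⊆ WS N m' :=
  fun _ h1 => ⟨h1.1, fun i k h2 h3 h4 h5 => (h1.2 i k h2 h3 h4 h5).trans h⟩

lemma wS_mono {N : ℕ} (hN : 1 ≤ N) : Monotone (wS N) := by
  intro m m' h
  exact ENNReal.toReal_mono (gf_WS_ne_top hN m') (gf_mono (WS_mono N (by exact_mod_cast h)))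

/-- Exact increment. -/
theorem Zw_succ {N : ℕ} (hN : 1 ≤ N) (m : ℕ) : Zw N (m + 1) = Zw N m + wS N m := by
  have h := gf_step hN m
  rw [← ofReal_Zw hN, ← ofReal_Zw hN, ← ofReal_wS hN, ← ENNReal.ofReal_add (Zw_nonneg N m) (wS_nonneg N m)] at h
  exact (ENNReal.ofReal_eq_ofReal_iff (Zw_nonneg N _) (add_nonneg (Zw_nonneg N m) (wS_nonneg N m))).1 h

lemma wS_tendsto {N : ℕ} (hN : 1 ≤ N) : Tendsto (wS N) atTop (𝓝 (bT N)) := by
  have h1 : Tendsto (fun m : ℕ => gf (WS N m)) atTop (𝓝 (⨆ m : ℕ, gf (WS N m))) :=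
    tendsto_atTop_iSup (fun m m' h => gf_mono (WS_mono N (by exact_mod_cast h)))
  have h2 : (⨆ m : ℕ, gf (WS N m)) = BT N := by
    apply le_antisymm
    · exact iSup_le (fun m => gf_WS_le N m)
    · rw [← gf_Brd]
      apply gf_le_of_mono_union (fun m : ℕ => WS N m) (fun m m' h => WS_mono N (by exact_mod_cast h)) _
        (fun n => le_iSup (fun m : ℕ => gf (WS N m)) n)
      intro t ht
      rw [Set.mem_iUnion]
      have hl := Brd_len hN ht
      obtain ⟨i, hi, hi', hi''⟩ := exists_max t hl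
      obtain ⟨i2, hi2, hi2'⟩ := Finset.exists_min_image (Finset.Icc 1 t.length) (cc t)
        ⟨1, Finset.mem_Icc.2 ⟨le_rfl, hl⟩⟩
      refine ⟨(cc t i - cc t i2).toNat, ht, ?_⟩
      intro a b ha ha' hb hb'
      have h3 := hi'' a ha ha'
      have h4 := hi2' b (Finset.mem_Icc.2 ⟨hb, hb'⟩)
      omega
  rw [h2] at h1
  exact (ENNReal.tendsto_toReal (BT_ne_top hN)).comp h1

/-- I2 for the walks: the increments lie between 0 and bT N. -/
theorem Zw_step_le {N : ℕ} (hN : 1 ≤ N) (m : ℕ) : 0 ≤ Zw N (m + 1) - Zw N m ∧ Zw N (m + 1) - Zw N m ≤ bT N := by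
  rw [Zw_succ hN, add_sub_cancel_left]
  exact ⟨wS_nonneg N m, wS_le hN m⟩

/-- I2 for the walks: the increments converge to bT N. -/
theorem Zw_step_tendsto {N : ℕ} (hN : 1 ≤ N) : Tendsto (fun m => Zw N (m + 1) - Zw N m) atTop (𝓝 (bT N)) := by
  have h : (fun m => Zw N (m + 1) - Zw N m) = wS N := by
    ext m
    rw [Zw_succ hN, add_sub_cancel_left]
  rw [h]
  exact wS_tendsto hN

end Pool.Agent.EXL
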