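import Pool.Agent.HexObs.Strip3
import Pool.Agent.HexObs.Rot
import Pool.Agent.HexDecay.Decay

/-!
# The parallelogram of the honeycomb strip (T rows, M columns): good domain, total weight of the exits (helper69)

Sites: `A j k` (level `3 k + 2`) and `B j k` (level `3 k + 3`); `A j k` is joined to `B j k` (direction `(1, 0)`),
`B (j - 1) k` (direction `(-1, 1)`), `B j (k - 1)` (direction `(0, -1)`).
-/

set_option autoImplicit false

namespace EXL

open HexObs Finset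

/-- the lower site of the cell in column `j` and row `k` -/
def A (j k : ℤ) : Pt := (2 * j + k, -j + 1 + k)

/-- the upper site of the cell in column `j` and row `k` -/
def B (j k : ℤ) : Pt := (2 * j + k + 1, -j + 1 + k)

lemma A_down (j k : ℤ) : A j k + (0, -1) = B j (k - 1) := by
  ext <;> simp only [A, B, Prod.fst_add, Prod.snd_add] <;> ring

lemma A_right (j k : ℤ) : A j k + (1, 0) = B j k := by
  ext <;> simp only [A, B, Prod.fst_add, Prod.snd_add] <;> ring

lemma A_left (j k : ℤ) : A j k + (-1, 1) = B (j - 1) k := by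
  ext <;> simp only [A, B, Prod.fst_add, Prod.snd_add] <;> ring

lemma B_up (j k : ℤ) : B j k + (0, 1) = A j (k + 1) := by
  ext <;> simp only [A, B, Prod.fst_add, Prod.snd_add] <;> ring

lemma B_left (j k : ℤ) : B j k + (-1, 0) = A j k := by
  ext <;> simp only [A, B, Prod.fst_add, Prod.snd_add] <;> ring

lemma B_right (j k : ℤ) : B j k + (1, -1) = A (j + 1) k := by
  ext <;> simp only [A, B, Prod.fst_add, Prod.snd_add] <;> ring

/-- the parallelogram with `M` columns and `T` rows -/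
def par (T M : ℕ) : Finset Pt :=
  ((range M ×ˢ range T).image fun p => A p.1 p.2) ∪ ((range M ×ˢ range T).image fun p => B p.1 p.2)

lemma mem_par {T M : ℕ} {v : Pt} : v ∈ par T M ↔
    ∃ j k : ℤ, (0 ≤ j ∧ j < M) ∧ (0 ≤ k ∧ k < T) ∧ (v = A j k ∨ v = B j k) := by
  unfold par
  rw [mem_union, mem_image, mem_image]
  constructor
  · rintro (⟨p, hp, rfl⟩ | ⟨p, hp, rfl⟩)
    · rw [mem_product, mem_range, mem_range] at hp
      exact ⟨p.1, p.2, ⟨by positivity, by exact_mod_cast hp.1⟩, ⟨by positivity, by exact_mod_cast hp.2⟩, Or.inl rfl⟩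
    · rw [mem_product, mem_range, mem_range] at hp
      exact ⟨p.1, p.2, ⟨by positivity, by exact_mod_cast hp.1⟩, ⟨by positivity, by exact_mod_cast hp.2⟩, Or.inr rfl⟩
  · rintro ⟨j, k, ⟨h1, h2⟩, ⟨h3, h4⟩, h | h⟩
    · left
      refine ⟨(j.toNat, k.toNat), ?_, ?_⟩
      · rw [mem_product, mem_range, mem_range]
        constructor
        · show j.toNat < M
          omega
        · show k.toNat < T
          omega
      · rw [h, Int.toNat_of_nonneg h1, Int.toNat_of_nonneg h3]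
    · right
      refine ⟨(j.toNat, k.toNat), ?_, ?_⟩
      · rw [mem_product, mem_range, mem_range]
        constructor
        · show j.toNat < M
          omega
        · show k.toNat < T
          omega
      · rw [h, Int.toNat_of_nonneg h1, Int.toNat_of_nonneg h3]

/-- coordinates: `v.1 + 2 * v.2` is the level, `v.1 - v.2` the column coordinate. -/
lemma mem_par' {T M : ℕ} {v : Pt} : v ∈ par T M ↔
    ((v.1 - v.2) % 3 = 0 ∨ (v.1 - v.2) % 3 = 2) ∧ (0 < v.1 + 2 * v.2 ∧ v.1 + 2 * v.2 < 3 * T + 2) ∧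
      (-3 < v.1 - v.2 ∧ v.1 - v.2 < 3 * M - 1) := by
  rw [mem_par]
  constructor
  · rintro ⟨j, k, ⟨h1, h2⟩, ⟨h3, h4⟩, h | h⟩
    · rw [h]
      simp only [A]
      refine ⟨Or.inr (by omega), ⟨by omega, by omega⟩, by omega, by omega⟩
    · rw [h]
      simp only [B]
      refine ⟨Or.inl (by omega), ⟨by omega, by omega⟩, by omega, by omega⟩
  · rintro ⟨h0 | h0, ⟨h1, h2⟩, h3, h4⟩
    · refine ⟨(v.1 - v.2) / 3, (v.1 + 2 * v.2 - 3) / 3, ⟨by omega, by omega⟩, ⟨by omega, by omega⟩, Or.inr ?_⟩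
      ext
      · simp only [B]
        omega
      · simp only [B]
        omega
    · refine ⟨(v.1 - v.2 + 1) / 3, (v.1 + 2 * v.2 - 2) / 3, ⟨by omega, by omega⟩, ⟨by omega, by omega⟩, Or.inl ?_⟩
      ext
      · simp only [A]
        omega
      · simp only [A]
        omega

lemma A_mem {T M : ℕ} {j k : ℤ} : A j k ∈ par T M ↔ (0 ≤ j ∧ j < M) ∧ (0 ≤ k ∧ k < T) := by
  rw [mem_par']
  simp only [A]
  constructor
  · rintro ⟨_, ⟨h1, h2⟩, h3, h4⟩
    refine ⟨⟨by omega, by omega⟩, by omega, by omega⟩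
  · rintro ⟨⟨h1, h2⟩, h3, h4⟩
    refine ⟨Or.inr (by omega), ⟨by omega, by omega⟩, by omega, by omega⟩

lemma B_mem {T M : ℕ} {j k : ℤ} : B j k ∈ par T M ↔ (0 ≤ j ∧ j < M) ∧ (0 ≤ k ∧ k < T) := by
  rw [mem_par']
  simp only [B]
  constructor
  · rintro ⟨_, ⟨h1, h2⟩, h3, h4⟩
    refine ⟨⟨by omega, by omega⟩, by omega, by omega⟩
  · rintro ⟨⟨h1, h2⟩, h3, h4⟩
    refine ⟨Or.inl (by omega), ⟨by omega, by omega⟩, by omega, by omega⟩

/-- the sides of the parallelogram -/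
def parS (T M : ℕ) : Set (Pt × Pt) :=
  {(B 0 (-1), (0, -1)), (A 0 T, (0, 1)), (B (-1) 0, (-1, 1)), (A M 0, (1, -1))}

lemma parS_pos {T M : ℕ} {v : Pt} : (∀ s ∈ parS T M, 0 < ip (s.1 - v) s.2) ↔
    (0 < v.1 + 2 * v.2 ∧ v.1 + 2 * v.2 < 3 * T + 2) ∧ (-3 < v.1 - v.2 ∧ v.1 - v.2 < 3 * M - 1) := by
  have e1 : ip (B 0 (-1) - v) (0, -1) = v.1 + 2 * v.2 := by
    simp only [ip, B, Prod.fst_sub, Prod.snd_sub]
    ring
  have e2 : ip (A 0 T - v) (0, 1) = 3 * T + 2 - (v.1 + 2 * v.2) := by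
    simp only [ip, A, Prod.fst_sub, Prod.snd_sub]
    ring
  have e3 : ip (B (-1) 0 - v) (-1, 1) = v.1 - v.2 + 3 := by
    simp only [ip, B, Prod.fst_sub, Prod.snd_sub]
    ring
  have e4 : ip (A M 0 - v) (1, -1) = 3 * M - 1 - (v.1 - v.2) := by
    simp only [ip, A, Prod.fst_sub, Prod.snd_sub]
    ring
  constructor
  · intro h
    have h1 := h (B 0 (-1), (0, -1)) (by simp [parS])
    have h2 := h (A 0 T, (0, 1)) (by simp [parS])
    have h3 := h (B (-1) 0, (-1, 1)) (by simp [parS])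
    have h4 := h (A M 0, (1, -1)) (by simp [parS])
    simp only [] at h1 h2 h3 h4
    rw [e1] at h1
    rw [e2] at h2
    rw [e3] at h3
    rw [e4] at h4
    refine ⟨⟨h1, by omega⟩, by omega, by omega⟩
  · rintro ⟨⟨h1, h2⟩, h3, h4⟩ s hs
    rcases hs with rfl | rfl | rfl | rfl
    · show 0 < ip (B 0 (-1) - v) (0, -1)
      rw [e1]
      exact h1
    · show 0 < ip (A 0 T - v) (0, 1)
      rw [e2]
      omega
    · show 0 < ip (B (-1) 0 - v) (-1, 1)
      rw [e3]
      omega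
    · show 0 < ip (A M 0 - v) (1, -1)
      rw [e4]
      omega

lemma cl_eq_iff (v : Pt) (r : ℤ) : cl v = (r : ZMod 3) ↔ (v.1 - v.2) % 3 = r % 3 := by
  unfold cl
  rw [ZMod.intCast_eq_intCast_iff]
  exact Iff.rfl

lemma cl_A (j k : ℤ) : cl (A j k) = 2 := by
  have h := (cl_eq_iff (A j k) 2).2 (by simp only [A]; omega)
  exact_mod_cast h

lemma cl_B (j k : ℤ) : cl (B j k) = 0 := by
  have h := (cl_eq_iff (B j k) 0).2 (by simp only [B]; omega)
  exact_mod_cast h

lemma hex_iff {v0 d0 : Pt} (hc : (cl v0 = 0 ∧ cl d0 = 2) ∨ (cl v0 = 2 ∧ cl d0 = 1)) (v : Pt) :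
    IsHex v0 d0 v ↔ ((v.1 - v.2) % 3 = 0 ∨ (v.1 - v.2) % 3 = 2) := by
  have h0 : cl v = 0 ↔ (v.1 - v.2) % 3 = 0 := by
    have h := cl_eq_iff v 0
    rw [Int.cast_zero] at h
    exact h
  have h2 : cl v = 2 ↔ (v.1 - v.2) % 3 = 2 := by
    have h := cl_eq_iff v 2
    rw [show ((2 : ℤ) : ZMod 3) = 2 by norm_cast] at h
    exact h
  unfold IsHex
  rcases hc with ⟨h3, h4⟩ | ⟨h3, h4⟩
  · rw [h3, h4, zero_add, h0, h2]
  · rw [h3, h4, show (2 : ZMod 3) + 1 = 0 by decide, h0, h2, or_comm]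

lemma par_good {T M : ℕ} {v0 d0 : Pt} (h0 : d0 ∈ dirs)
    (hc : (cl v0 = 0 ∧ cl d0 = 2) ∨ (cl v0 = 2 ∧ cl d0 = 1))
    (hs : ∀ v ∈ par T M, 0 < ip (v - v0) d0) (h1 : v0 + d0 ∈ par T M) : GoodDom (par T M) v0 d0 := by
  have hA : cl ((0, -1) : Pt) = 1 := by decide
  have hB : cl ((0, 1) : Pt) = 2 := by decide
  have hC : cl ((-1, 1) : Pt) = 1 := by decide
  have hD : cl ((1, -1) : Pt) = 2 := by decide
  refine polygon_good h0 (insert (v0, -d0) (parS T M)) ?_ (Set.mem_insert _ _) ?_ h1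
  · intro s hs'
    rcases hs' with rfl | hs'
    · exact ⟨neg_mem_dirs h0, Or.inl ⟨rfl, cl_neg d0⟩⟩
    · rcases hs' with rfl | rfl | rfl | rfl
      · refine ⟨show ((0, -1) : Pt) ∈ dirs by decide, ?_⟩
        rcases hc with ⟨h3, h4⟩ | ⟨h3, h4⟩
        · left
          simp only []
          rw [h3, h4, cl_B, hA]
          exact ⟨rfl, by decide⟩
        · right
          simp only []
          rw [h3, h4, cl_B, hA]
          exact ⟨by decide, rfl⟩
      · refine ⟨show ((0, 1) : Pt) ∈ dirs by decide, ?_⟩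
        rcases hc with ⟨h3, h4⟩ | ⟨h3, h4⟩
        · right
          simp only []
          rw [h3, h4, cl_A, hB]
          exact ⟨by decide, rfl⟩
        · left
          simp only []
          rw [h3, h4, cl_A, hB]
          exact ⟨rfl, by decide⟩
      · refine ⟨show ((-1, 1) : Pt) ∈ dirs by decide, ?_⟩
        rcases hc with ⟨h3, h4⟩ | ⟨h3, h4⟩
        · left
          simp only []
          rw [h3, h4, cl_B, hC]
          exact ⟨rfl, by decide⟩
        · right
          simp only []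
          rw [h3, h4, cl_B, hC]
          exact ⟨by decide, rfl⟩
      · refine ⟨show ((1, -1) : Pt) ∈ dirs by decide, ?_⟩
        rcases hc with ⟨h3, h4⟩ | ⟨h3, h4⟩
        · right
          simp only []
          rw [h3, h4, cl_A, hD]
          exact ⟨by decide, rfl⟩
        · left
          simp only []
          rw [h3, h4, cl_A, hD]
          exact ⟨rfl, by decide⟩
  · intro v
    rw [mem_par', ← parS_pos, hex_iff hc]
    constructor
    · rintro ⟨a1, a2⟩
      refine ⟨a1, ?_⟩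
      intro s hs'
      rcases hs' with rfl | hs'
      · have hv : v ∈ par T M := by
          rw [mem_par', ← parS_pos]
          exact ⟨a1, a2⟩
        have e : ip (v0 - v) (-d0) = ip (v - v0) d0 := by
          simp only [ip, Prod.fst_sub, Prod.snd_sub, Prod.fst_neg, Prod.snd_neg]
          ring
        show 0 < ip (v0 - v) (-d0)
        rw [e]
        exact hs v hv
      · exact a2 s hs'
    · rintro ⟨a1, a2⟩
      exact ⟨a1, fun s hs' => a2 s (Set.mem_insert_of_mem _ hs')⟩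

/-- start from the right side -/
lemma good_right {T M : ℕ} (hM : 1 ≤ M) {k : ℤ} (h1 : 0 ≤ k) (h2 : k < T) :
    GoodDom (par T M) (A M k) (-1, 1) := by
  refine par_good (by decide) (Or.inr ⟨cl_A _ _, by decide⟩) ?_ ?_
  · intro v hv
    have h3 := (mem_par'.1 hv).2.2.2
    have e : ip (v - A M k) (-1, 1) = 3 * M - 1 - (v.1 - v.2) := by
      simp only [ip, A, Prod.fst_sub, Prod.snd_sub]
      ring
    rw [e]
    omega
  · rw [A_left, B_mem]
    exact ⟨⟨by omega, by omega⟩, h1, h2⟩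

/-- start from the left side -/
lemma good_left {T M : ℕ} (hM : 1 ≤ M) {k : ℤ} (h1 : 0 ≤ k) (h2 : k < T) :
    GoodDom (par T M) (B (-1) k) (1, -1) := by
  refine par_good (by decide) (Or.inl ⟨cl_B _ _, by decide⟩) ?_ ?_
  · intro v hv
    have h3 := (mem_par'.1 hv).2.2.1
    have e : ip (v - B (-1) k) (1, -1) = v.1 - v.2 + 3 := by
      simp only [ip, B, Prod.fst_sub, Prod.snd_sub]
      ring
    rw [e]
    omega
  · rw [B_right, A_mem]
    exact ⟨⟨by omega, by omega⟩, h1, h2⟩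

/-- start from the floor -/
lemma good_floor {T M : ℕ} (hT : 1 ≤ T) {j : ℤ} (h1 : 0 ≤ j) (h2 : j < M) :
    GoodDom (par T M) (B j (-1)) (0, 1) := by
  refine par_good (by decide) (Or.inl ⟨cl_B _ _, by decide⟩) ?_ ?_
  · intro v hv
    have h3 := (mem_par'.1 hv).2.1.1
    have e : ip (v - B j (-1)) (0, 1) = v.1 + 2 * v.2 := by
      simp only [ip, B, Prod.fst_sub, Prod.snd_sub]
      ring
    rw [e]
    exact h3
  · rw [B_up, A_mem]
    exact ⟨⟨h1, h2⟩, by omega, by omega⟩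

/-- start from the top -/
lemma good_top {T M : ℕ} (hT : 1 ≤ T) {j : ℤ} (h1 : 0 ≤ j) (h2 : j < M) :
    GoodDom (par T M) (A j T) (0, -1) := by
  refine par_good (by decide) (Or.inr ⟨cl_A _ _, by decide⟩) ?_ ?_
  · intro v hv
    have h3 := (mem_par'.1 hv).2.1.2
    have e : ip (v - A j T) (0, -1) = 3 * T + 2 - (v.1 + 2 * v.2) := by
      simp only [ip, A, Prod.fst_sub, Prod.snd_sub]
      ring
    rw [e]
    omega
  · rw [A_down, B_mem]
    exact ⟨⟨h1, h2⟩, by omega, by omega⟩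

lemma cos_wind_ge {n : ℤ} (h : n = 0 ∨ n = 1 ∨ n = -1 ∨ n = 2 ∨ n = -2 ∨ n = 3 ∨ n = -3) :
    1 / 3 ≤ Real.cos ((n : ℝ) * (Real.pi / 8)) := by
  have h38 : (1 : ℝ) / 3 ≤ Real.cos (3 * Real.pi / 8) := le_trans (by norm_num) cos38_bounds.1
  refine h38.trans ?_
  have hpi := Real.pi_pos
  have habs : |(n : ℝ)| ≤ 3 := by
    rcases h with h | h | h | h | h | h | h <;> rw [h] <;> norm_num
  rw [← Real.cos_abs ((n : ℝ) * (Real.pi / 8)), abs_mul, abs_of_pos (show 0 < Real.pi / 8 by positivity)]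
  apply Real.cos_le_cos_of_nonneg_of_le_pi
  · positivity
  · linarith
  · nlinarith

/-- the total weight of the exits of a good domain is at most 3 -/
theorem good_sum_le {Ω : Finset Pt} {v0 d0 : Pt} (h : GoodDom Ω v0 d0) :
    ∑ t ∈ exits Ω v0 d0, xc ^ t.length ≤ 3 := by
  have h1 := identity_re Ω h.dir h.half
  have h2 : ∑ t ∈ exits Ω v0 d0, 1 / 3 * xc ^ t.length ≤
      ∑ t ∈ exits Ω v0 d0, Real.cos (wind t * (Real.pi / 8)) * xc ^ t.length := by
    refine Finset.sum_le_sum fun t ht => ?_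
    refine mul_le_mul_of_nonneg_right (cos_wind_ge ?_) (pow_nonneg xc_pos.le _)
    rcases h.wind ht with ⟨_, hw⟩ | ⟨_, hw⟩ | ⟨_, hw⟩ | ⟨_, hw⟩ | ⟨_, hw⟩ | ⟨_, hw⟩
    · exact Or.inl hw
    · exact Or.inr (Or.inl hw)
    · exact Or.inr (Or.inr (Or.inl hw))
    · exact Or.inr (Or.inr (Or.inr (Or.inl hw)))
    · exact Or.inr (Or.inr (Or.inr (Or.inr (Or.inl hw))))
    · rcases hw with hw | hw
      · exact Or.inr (Or.inr (Or.inr (Or.inr (Or.inr (Or.inl hw)))))
      · exact Or.inr (Or.inr (Or.inr (Or.inr (Or.inr (Or.inr hw)))))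
  rw [← Finset.mul_sum, h1] at h2
  linarith

theorem sum_right {T M : ℕ} (hM : 1 ≤ M) {k : ℤ} (h1 : 0 ≤ k) (h2 : k < T) :
    ∑ t ∈ exits (par T M) (A M k) (-1, 1), xc ^ t.length ≤ 3 := good_sum_le (good_right hM h1 h2)

theorem sum_left {T M : ℕ} (hM : 1 ≤ M) {k : ℤ} (h1 : 0 ≤ k) (h2 : k < T) :
    ∑ t ∈ exits (par T M) (B (-1) k) (1, -1), xc ^ t.length ≤ 3 := good_sum_le (good_left hM h1 h2)

theorem sum_floor {T M : ℕ} (hT : 1 ≤ T) {j : ℤ} (h1 : 0 ≤ j) (h2 : j < M) :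
    ∑ t ∈ exits (par T M) (B j (-1)) (0, 1), xc ^ t.length ≤ 3 := good_sum_le (good_floor hT h1 h2)

theorem sum_top {T M : ℕ} (hT : 1 ≤ T) {j : ℤ} (h1 : 0 ≤ j) (h2 : j < M) :
    ∑ t ∈ exits (par T M) (A j T) (0, -1), xc ^ t.length ≤ 3 := good_sum_le (good_top hT h1 h2)

lemma floor_start (j : ℤ) : A j 0 - (0, 1) = B j (-1) := by
  ext <;> simp only [A, B, Prod.fst_sub, Prod.snd_sub] <;> ring

lemma top_start (j : ℤ) (T : ℕ) : B j (T - 1) + (0, 1) = A j T := by
  rw [B_up, sub_add_cancel]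

end EXL
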