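import Pool.Agent.EXL.Site
import Pool.Agent.EXL.Par

/-!
# The outside half edges at the floor and at the top of the parallelogram (board EXI)
-/

set_option autoImplicit false

namespace Pool.Agent.EXL

open Finset HexObs

/-- the outside half edges at the floor of the parallelogram par N m. -/
def feetS (m : ℕ) : Finset (Pt × Pt) := (range m).image (fun j : ℕ => (_root_.EXL.B j (-1), ((0, 1) : Pt)))

/-- the outside half edges at the top. -/
def topsS (N m : ℕ) : Finset (Pt × Pt) := (range m).image (fun j : ℕ => (_root_.EXL.A j N, ((0, -1) : Pt)))

end Pool.Agent.EXL
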