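import Pool.Agent.EXL.Net0

/-!
EXI, module N1: the network of a domain, evaluated in the order of the exploration, is the sum over the
self-avoiding words from the floor half edges to the top half edges.
-/

set_option autoImplicit false

namespace Pool.Agent.EXL.Net

open Pool.Agent.EXL Pat HexObs HexObs.LP

variable {α : Type*} [DecidableEq α] {K : Type*} [CommRing K]

/-! ### words -/

theorem dx_cons (d0 : Pt) (b : Bool) (s : List Bool) (i : ℕ) :
    dx d0 (b :: s) (i + 1) = dx (turn b d0) s i := by
  induction i with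
  | zero => rfl
  | succ i ih =>
    change turn (tf (b :: s) (i + 1)) (dx d0 (b :: s) (i + 1)) = turn (tf s i) (dx (turn b d0) s i)
    rw [ih]
    rfl

theorem vx_cons (v0 d0 : Pt) (b : Bool) (s : List Bool) (i : ℕ) :
    vx v0 d0 (b :: s) (i + 1) = vx (v0 + d0) (turn b d0) s i := by
  induction i with
  | zero => rfl
  | succ i ih =>
    change vx v0 d0 (b :: s) (i + 1) + dx d0 (b :: s) (i + 1) =
      vx (v0 + d0) (turn b d0) s i + dx (turn b d0) s i
    rw [ih, dx_cons]

theorem le_cons (p : Pt × Pt) (b : Bool) (s : List Bool) :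
    le p (b :: s) = le (p.1 + p.2, turn b p.2) s := by
  unfold le
  simp only [List.length_cons]
  rw [vx_cons, dx_cons]

theorem arr0_cons {A : Finset Pt} {p : Pt × Pt} {b : Bool} {s : List Bool} :
    Arr0 A p (b :: s) ↔ p.1 + p.2 ∈ A ∧ Arr0 (A.erase (p.1 + p.2)) (p.1 + p.2, turn b p.2) s := by
  have e1 : vx p.1 p.2 (b :: s) 1 = p.1 + p.2 := rfl
  constructor
  · intro h
    have h1 := h.mem 1 le_rfl (by simp)
    rw [e1] at h1
    refine ⟨h1, ?_, ?_⟩
    · intro i hi1 hi2
      rw [Finset.mem_erase]
      have h2 := h.mem (i + 1) (by omega) (by simpa using hi2)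
      have h3 := h.inj 1 (i + 1) le_rfl (by omega) (by simpa using hi2)
      rw [vx_cons] at h2
      rw [e1, vx_cons] at h3
      exact ⟨fun e => h3 e.symm, h2⟩
    · intro i k h2 h3 h4
      have h5 := h.inj (i + 1) (k + 1) (by omega) (by omega) (by simpa using h4)
      rwa [vx_cons, vx_cons] at h5
  · rintro ⟨h1, h2⟩
    constructor
    · intro i hi1 hi2
      rcases i with _ | i
      · omega
      · rcases Nat.eq_zero_or_pos i with h3 | h3
        · subst h3
          rw [e1]
          exact h1
        · rw [vx_cons]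
          simp only [List.length_cons] at hi2
          exact Finset.mem_of_mem_erase (h2.mem i h3 (by omega))
    · intro i k hi hk hl
      rcases i with _ | i
      · omega
      rcases k with _ | k
      · omega
      simp only [List.length_cons] at hl
      rw [vx_cons, vx_cons]
      rcases Nat.eq_zero_or_pos i with h3 | h3
      · subst h3
        have h4 := h2.mem k (by omega) (by omega)
        rw [Finset.mem_erase] at h4
        exact fun e => h4.1 e.symm
      · exact h2.inj i k h3 (by omega) (by omega)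

/-- the sum over the words from the half edge p in A that end at a half edge of T. -/
noncomputable def Ws (x : K) (A : Finset Pt) (T : Finset (Pt × Pt)) (p : Pt × Pt) : K :=
  ∑ t ∈ (arr0 A p).filter (fun t => rv (le p t) ∈ T), x ^ t.length

theorem le_nil (p : Pt × Pt) : le p [] = p := rfl

theorem Ws_out (x : K) {A : Finset Pt} {T : Finset (Pt × Pt)} {p : Pt × Pt} (h : p.1 + p.2 ∉ A) :
    Ws x A T p = if rv p ∈ T then 1 else 0 := by
  unfold Ws
  have e : arr0 A p = {[]} := by
    ext t
    rw [mem_arr0, Finset.mem_singleton]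
    constructor
    · intro ht
      rcases t with _ | ⟨b, s⟩
      · rfl
      · exact absurd (arr0_cons.1 ht).1 h
    · rintro rfl
      exact ⟨fun i h1 h2 => by simp at h2; omega, fun i k h1 h2 h3 => by simp at h3; omega⟩
  rw [e, Finset.filter_singleton, le_nil]
  split_ifs
  · simp
  · simp

theorem Ws_in (x : K) {A : Finset Pt} {T : Finset (Pt × Pt)} {p : Pt × Pt} (h : p.1 + p.2 ∈ A)
    (h' : rv p ∉ T) :
    Ws x A T p = x * (Ws x (A.erase (p.1 + p.2)) T (p.1 + p.2, rotL p.2) +
      Ws x (A.erase (p.1 + p.2)) T (p.1 + p.2, rotR p.2)) := by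
  classical
  unfold Ws
  set A' := A.erase (p.1 + p.2) with hA'
  have e : (arr0 A p).filter (fun t => rv (le p t) ∈ T) =
      ((arr0 A' (p.1 + p.2, rotL p.2)).filter
        (fun t => rv (le (p.1 + p.2, rotL p.2) t) ∈ T)).image (List.cons true) ∪
      ((arr0 A' (p.1 + p.2, rotR p.2)).filter
        (fun t => rv (le (p.1 + p.2, rotR p.2) t) ∈ T)).image (List.cons false) := by
    ext t
    simp only [Finset.mem_union, Finset.mem_image, Finset.mem_filter, mem_arr0]
    constructor
    · rintro ⟨h1, h2⟩
      rcases t with _ | ⟨b, s⟩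
      · exact absurd h2 h'
      · rw [arr0_cons] at h1
        rw [le_cons] at h2
        cases b
        · exact Or.inr ⟨s, ⟨h1.2, h2⟩, rfl⟩
        · exact Or.inl ⟨s, ⟨h1.2, h2⟩, rfl⟩
    · rintro (⟨s, ⟨h1, h2⟩, rfl⟩ | ⟨s, ⟨h1, h2⟩, rfl⟩)
      · rw [arr0_cons, le_cons]
        exact ⟨⟨h, h1⟩, h2⟩
      · rw [arr0_cons, le_cons]
        exact ⟨⟨h, h1⟩, h2⟩
  have hd : Disjoint (((arr0 A' (p.1 + p.2, rotL p.2)).filter
        (fun t => rv (le (p.1 + p.2, rotL p.2) t) ∈ T)).image (List.cons true))
      (((arr0 A' (p.1 + p.2, rotR p.2)).filter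
        (fun t => rv (le (p.1 + p.2, rotR p.2) t) ∈ T)).image (List.cons false)) := by
    rw [Finset.disjoint_left]
    intro t h1 h2
    obtain ⟨s, -, rfl⟩ := Finset.mem_image.1 h1
    obtain ⟨r, -, hr⟩ := Finset.mem_image.1 h2
    simp at hr
  rw [e, Finset.sum_union hd, Finset.sum_image (fun a _ b _ hab => List.cons_injective hab),
    Finset.sum_image (fun a _ b _ hab => List.cons_injective hab), mul_add, Finset.mul_sum,
    Finset.mul_sum]
  simp only [List.length_cons, pow_succ']

/-! ### vertices -/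

theorem De_dirs {p : Pt × Pt} (h : De p) : p.2 ∈ dirs := h.1

theorem De_rv {p : Pt × Pt} (h : De p) : De (rv p) := by
  obtain ⟨h1, h2, h3⟩ := h
  refine ⟨?_, h3, ?_⟩
  · have key : ∀ d ∈ dirs, -d ∈ dirs := by decide
    exact key p.2 h1
  · unfold rv
    simpa using h2

theorem De_turn {v d : Pt} (h : De (v, d)) (b : Bool) : De (v + d, turn b d) := by
  obtain ⟨h1, h2, h3⟩ := h
  refine ⟨?_, h3, ?_⟩
  · rw [mem_dirs, nrm_turn]
    exact mem_dirs.1 h1
  · unfold Vt at *
    rw [cl_add, cl_add, cl_turn] at *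
    simpa using h2

theorem Crv_eq (x : K) {v e : Pt} (h : De (v, e)) :
    (Crv x v : Op Lab K) = Cr x (hf (v, e)) (hf (v, rotL (rotL e))) (hf (v, rotR (rotR e))) := by
  obtain ⟨h1, h2, h3⟩ := h
  unfold Crv dv
  have key : ∀ c : ZMod 3, ∀ e ∈ dirs, c ≠ 1 → c + cl e ≠ 1 →
      e = (if c = 0 then ((0, 1) : Pt) else (0, -1)) ∨
      e = rotL (rotL (if c = 0 then ((0, 1) : Pt) else (0, -1))) ∨
      e = rotR (rotR (if c = 0 then ((0, 1) : Pt) else (0, -1))) := by decide
  have k1 := key (cl v) e h1 h2 (by unfold Vt at h3; rw [cl_add] at h3; exact h3)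
  have r1 : ∀ d : Pt, rotL (rotL (rotL (rotL d))) = rotR (rotR d) := by
    intro d
    refine Prod.ext ?_ ?_ <;> simp only [rotL, rotR] <;> ring
  have r2 : ∀ d : Pt, rotR (rotR (rotL (rotL d))) = d := by
    intro d
    refine Prod.ext ?_ ?_ <;> simp only [rotL, rotR] <;> ring
  have r3 : ∀ d : Pt, rotL (rotL (rotR (rotR d))) = d := by
    intro d
    refine Prod.ext ?_ ?_ <;> simp only [rotL, rotR] <;> ring
  have r4 : ∀ d : Pt, rotR (rotR (rotR (rotR d))) = rotL (rotL d) := by
    intro d
    refine Prod.ext ?_ ?_ <;> simp only [rotL, rotR] <;> ring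
  generalize (if cl v = 0 then ((0, 1) : Pt) else (0, -1)) = d at k1 ⊢
  rcases k1 with rfl | rfl | rfl
  · rfl
  · rw [r1, r2, Cr_rot]
  · rw [r3, r4, ← Cr_rot]

/-! ### the two invariant classes of functions -/

/-- F is 1 at the full state and 0 at the other states in which the two ends are joined. -/
def Good (F : Pat Lab → K) : Prop := F full = 1 ∧ ∀ q : Pat Lab, q be = ta → q ≠ full → F q = 0

/-- F vanishes if the floor end is free. -/
def Unu (F : Pat Lab → K) : Prop := ∀ q : Pat Lab, q be = be → F q = 0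

theorem full_be : full be = ta := by
  simp [full, cup, Pat.empty]

theorem full_ta : full ta = be := by
  simp [full, cup, Pat.empty]

theorem full_hf (h : Pt × Pt) : full (hf h) = hf h := by
  simp [full, cup, Pat.empty]

theorem good_dlt : Good (dlt K) := by
  constructor
  · simp [dlt]
  · intro q _ h
    simp [dlt, h]

theorem unu_dlt : Unu (dlt K) := by
  intro q h
  have : q ≠ full := by
    rintro rfl
    rw [full_be] at h
    exact absurd h (by decide)
  simp [dlt, this]

theorem good_cupO {F : Pat Lab → K} (hF : Good F) (h k : Pt × Pt) (hk : h ≠ k) {q : Pat Lab}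
    (hq : q be = ta) : cupO (hf h) (hf k) F q = 0 := by
  rw [cupO_apply]
  split_ifs with c
  · apply hF.2
    · simp only [cup]
      grind
    · intro e
      have e1 : (cup (hf h) (hf k) q) (hf h) = hf k := by
        simp only [cup]
        grind
      rw [e, full_hf] at e1
      exact hk (Sum.inl_injective e1)
  · rfl

theorem good_end {F : Pat Lab → K} (b : Bool) (h : Pt × Pt) {q : Pat Lab} (hq : q be = ta) :
    cupO (Sum.inr b) (hf h) F q = 0 := by
  rw [cupO_apply, if_neg]
  rintro ⟨h1, -⟩
  have h2 : q ta = be := by rw [← hq, q.inv]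
  cases b
  · rw [hq] at h1
    exact absurd h1 (by decide)
  · rw [h2] at h1
    exact absurd h1 (by decide)

theorem good_Crv (x : K) (v : Pt) {F : Pat Lab → K} (hF : Good F) : Good (Crv x v F) := by
  have h0 := dv_ne v
  have key : ∀ q : Pat Lab, q be = ta → Crv x v F q = F q := by
    intro q hq
    unfold Crv Cr
    simp only [LinearMap.add_apply, Module.End.one_apply, LinearMap.smul_apply, Pi.add_apply,
      Pi.smul_apply]
    rw [good_cupO hF _ _ (by simpa using h0.1.symm) hq, good_cupO hF _ _ (by simpa using h0.2.1.symm) hq,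
      good_cupO hF _ _ (by simpa using h0.2.2) hq]
    simp
  refine ⟨by rw [key _ full_be]; exact hF.1, fun q h1 h2 => by rw [key _ h1]; exact hF.2 q h1 h2⟩

theorem good_En (b : Bool) (h : Pt × Pt) {F : Pat Lab → K} (hF : Good F) :
    Good (En (Sum.inr b) (hf h) F) := by
  have key : ∀ q : Pat Lab, q be = ta → En (Sum.inr b) (hf h) F q = F q := by
    intro q hq
    unfold En
    simp only [LinearMap.add_apply, Module.End.one_apply, Pi.add_apply]
    rw [good_end b h hq, add_zero]
  refine ⟨by rw [key _ full_be]; exact hF.1, fun q h1 h2 => by rw [key _ h1]; exact hF.2 q h1 h2⟩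

theorem good_Co {h k : Pt × Pt} (hk : h ≠ k) {F : Pat Lab → K} (hF : Good F) :
    Good (Co (hf h) (hf k) F) := by
  refine ⟨?_, fun q h1 h2 => ?_⟩
  · rw [Co_apply, if_pos ⟨full_hf h, full_hf k⟩]
    exact hF.1
  · rw [Co_apply]
    split_ifs with c1 c2
    · exact hF.2 q h1 h2
    · rfl
    · rw [not_or, not_or] at c2
      obtain ⟨c3, c4, c5⟩ := c2
      have e0 := q.inv (hf h)
      have e1 := q.inv (hf k)
      have e2 : q ta = be := by rw [← h1, q.inv]
      apply hF.2
      · simp only [cut]
        grind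
      · intro e
        have e3 : (cut (hf h) (hf k) q) (q (hf h)) = q (hf k) := by
          simp only [cut]
          grind
        have e4 : ∃ l, q (hf h) = hf l := by
          rcases hq : q (hf h) with l | b
          · exact ⟨l, rfl⟩
          · exfalso
            rw [hq] at e0
            cases b
            · rw [h1] at e0
              exact absurd e0 (by simp)
            · rw [e2] at e0
              exact absurd e0 (by simp)
        obtain ⟨l, hl⟩ := e4
        rw [e, hl, full_hf, ← hl] at e3
        have := q.inj e3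
        rw [Sum.inl.injEq] at this
        exact hk this

theorem unu_cupO {F : Pat Lab → K} (hF : Unu F) {a b : Lab} (ha : a ≠ be) (hb : b ≠ be)
    {q : Pat Lab} (hq : q be = be) : cupO a b F q = 0 := by
  rw [cupO_apply]
  split_ifs with c
  · apply hF
    simp only [cup]
    grind
  · rfl

theorem unu_Crv (x : K) (v : Pt) {F : Pat Lab → K} (hF : Unu F) : Unu (Crv x v F) := by
  intro q hq
  unfold Crv Cr
  simp only [LinearMap.add_apply, Module.End.one_apply, LinearMap.smul_apply, Pi.add_apply,
    Pi.smul_apply]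
  rw [unu_cupO hF (by simp) (by simp) hq, unu_cupO hF (by simp) (by simp) hq,
    unu_cupO hF (by simp) (by simp) hq, hF q hq]
  simp

theorem unu_En (h : Pt × Pt) {F : Pat Lab → K} (hF : Unu F) : Unu (En ta (hf h) F) := by
  intro q hq
  unfold En
  simp only [LinearMap.add_apply, Module.End.one_apply, Pi.add_apply]
  rw [unu_cupO hF (by simp) (by simp) hq, hF q hq, add_zero]

theorem unu_Co (h k : Pt × Pt) {F : Pat Lab → K} (hF : Unu F) : Unu (Co (hf h) (hf k) F) := by
  intro q hq
  rw [Co_apply]
  split_ifs with c1 c2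
  · exact hF q hq
  · rfl
  · have e0 := q.inv (hf h)
    have e1 := q.inv (hf k)
    apply hF
    simp only [cut]
    grind

/-! ### products -/

theorem good_CR (x : K) (A : Finset Pt) {F : Pat Lab → K} (hF : Good F) : Good (CR x A F) := by
  exact Finset.noncommProd_induction A (Crv x) _ (fun B : Op Lab K => ∀ F, Good F → Good (B F))
    (fun a b ha hb F hF => ha _ (hb F hF)) (fun F hF => hF) (fun v _ F hF => good_Crv x v hF) F hF

theorem good_EN (b : Bool) (s : Finset (Pt × Pt)) {F : Pat Lab → K} (hF : Good F) :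
    Good (EN K b s F) := by
  exact Finset.noncommProd_induction s _ _ (fun B : Op Lab K => ∀ F, Good F → Good (B F))
    (fun a b ha hb F hF => ha _ (hb F hF)) (fun F hF => hF) (fun v _ F hF => good_En b v hF) F hF

theorem rv_ne {h : Pt × Pt} (hh : De h) : h ≠ rv h := by
  intro e
  have h1 : h.2 = -h.2 := congrArg Prod.snd e
  have key : ∀ d ∈ dirs, d ≠ -d := by decide
  exact key h.2 hh.1 h1

/-- the edges of E are edges of half edges. -/
def Edg (E : Finset (Sym2 Lab)) : Prop := ∀ e ∈ E, ∃ h, De h ∧ e = ed h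

theorem Edg.ex {E : Finset (Sym2 Lab)} (hE : Edg E) : ∀ e ∈ E, ∃ h, e = ed h :=
  fun e he => ⟨(hE e he).choose, (hE e he).choose_spec.2⟩

theorem good_CO {E : Finset (Sym2 Lab)} (hE : Edg E) {F : Pat Lab → K} (hF : Good F) :
    Good (CO K E hE.ex F) := by
  refine Finset.noncommProd_induction E _ _ (fun B : Op Lab K => ∀ F, Good F → Good (B F))
    (fun a b ha hb F hF => ha _ (hb F hF)) (fun F hF => hF) (fun e he F hF => ?_) F hF
  obtain ⟨h, h1, rfl⟩ := hE e he
  rw [CoS_ed]
  exact good_Co (rv_ne h1) hF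

theorem unu_CR (x : K) (A : Finset Pt) {F : Pat Lab → K} (hF : Unu F) : Unu (CR x A F) := by
  exact Finset.noncommProd_induction A (Crv x) _ (fun B : Op Lab K => ∀ F, Unu F → Unu (B F))
    (fun a b ha hb F hF => ha _ (hb F hF)) (fun F hF => hF) (fun v _ F hF => unu_Crv x v hF) F hF

theorem unu_EN (s : Finset (Pt × Pt)) {F : Pat Lab → K} (hF : Unu F) : Unu (EN K true s F) := by
  exact Finset.noncommProd_induction s _ _ (fun B : Op Lab K => ∀ F, Unu F → Unu (B F))
    (fun a b ha hb F hF => ha _ (hb F hF)) (fun F hF => hF) (fun v _ F hF => unu_En v hF) F hF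

theorem unu_CO {E : Finset (Sym2 Lab)} (hE : Edg E) {F : Pat Lab → K} (hF : Unu F) :
    Unu (CO K E hE.ex F) := by
  refine Finset.noncommProd_induction E _ _ (fun B : Op Lab K => ∀ F, Unu F → Unu (B F))
    (fun a b ha hb F hF => ha _ (hb F hF)) (fun F hF => hF) (fun e he F hF => ?_) F hF
  obtain ⟨h, h1, rfl⟩ := hE e he
  rw [CoS_ed]
  exact unu_Co _ _ hF

/-- the state with the single arc from the floor end to the half edge p. -/
def st (p : Pt × Pt) : Pat Lab := cup be (hf p) Pat.empty

/-- the floor ends, evaluated at the empty state. -/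
theorem EN_empty (s : Finset (Pt × Pt)) (G : Pat Lab → K) :
    EN K false s G Pat.empty = G Pat.empty + ∑ h ∈ s, G (st h) := by
  classical
  have key : ∀ (s : Finset (Pt × Pt)) (q : Pat Lab), q be ≠ be → EN K false s G q = G q := by
    intro s
    induction s using Finset.induction_on with
    | empty => intro q _; unfold EN; rw [Finset.noncommProd_empty]; rfl
    | insert a s ha ih =>
      intro q hq
      unfold EN
      rw [Finset.noncommProd_insert_of_notMem _ _ _ _ ha]
      have e : (En (Sum.inr false) (hf a) : Op Lab K) (EN K false s G) q = EN K false s G q := by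
        unfold En
        simp only [LinearMap.add_apply, Module.End.one_apply, Pi.add_apply]
        rw [cupO_apply, if_neg (fun h => hq h.1), add_zero]
      exact e.trans (ih q hq)
  induction s using Finset.induction_on with
  | empty => unfold EN; rw [Finset.noncommProd_empty]; simp
  | insert a s ha ih =>
    unfold EN
    rw [Finset.noncommProd_insert_of_notMem _ _ _ _ ha]
    have e : (En (Sum.inr false) (hf a) : Op Lab K) (EN K false s G) Pat.empty =
        EN K false s G Pat.empty + EN K false s G (st a) := by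
      unfold En
      simp only [LinearMap.add_apply, Module.End.one_apply, Pi.add_apply]
      rw [cupO_apply, if_pos ⟨rfl, rfl⟩]
      rfl
    refine e.trans ?_
    rw [ih, key s (st a) (by simp [st, cup, Pat.empty]), Finset.sum_insert ha]
    ring

/-! ### single steps -/

section step
variable {h a b c : Pt × Pt}

theorem st_h (h : Pt × Pt) : st h (hf h) = be := by
  simp [st, cup, Pat.empty]

theorem st_be (h : Pt × Pt) : st h be = hf h := by
  simp [st, cup, Pat.empty]

theorem st_o (h1 : a ≠ h) : st h (hf a) = hf a := by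
  simp [st, cup, Pat.empty, h1]

theorem Co_st (h1 : a ≠ h) (G : Pat Lab → K) : Co (hf h) (hf a) G (st h) = 0 := by
  rw [Co_apply, if_neg, if_pos]
  · exact Or.inr (Or.inl (st_o h1))
  · rintro ⟨h2, -⟩
    rw [st_h] at h2
    exact absurd h2 (by simp)

theorem Co_cup (h1 : a ≠ h) (h2 : b ≠ h) (h3 : a ≠ b) (G : Pat Lab → K) :
    cupO (hf a) (hf b) (Co (hf h) (hf a) G) (st h) = G (st b) := by
  rw [cupO_apply, if_pos ⟨st_o h1, st_o h2⟩, Co_apply]
  have e1 : (cup (hf a) (hf b) (st h)) (hf h) = be := by
    simp only [cup, st, Pat.empty]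
    grind
  have e2 : (cup (hf a) (hf b) (st h)) (hf a) = hf b := by
    simp only [cup, st, Pat.empty]
    grind
  rw [e1, e2]
  rw [if_neg (by simp), if_neg]
  · congr 1
    ext y
    simp only [cup, cut, st, Pat.empty]
    grind (splits := 30)
  · simp only [not_or]
    refine ⟨by simp, ?_, by simp⟩
    intro e
    rw [Sum.inl.injEq] at e
    exact h3 e.symm

theorem Co_cup' (h1 : a ≠ h) (h2 : b ≠ h) (h3 : c ≠ h) (h4 : a ≠ b) (h5 : a ≠ c)
    (G : Pat Lab → K) : cupO (hf b) (hf c) (Co (hf h) (hf a) G) (st h) = 0 := by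
  rw [cupO_apply, if_pos ⟨st_o h2, st_o h3⟩, Co_apply]
  have e1 : (cup (hf b) (hf c) (st h)) (hf h) = be := by
    simp only [cup, st, Pat.empty]
    grind
  have e2 : (cup (hf b) (hf c) (st h)) (hf a) = hf a := by
    simp only [cup, st, Pat.empty]
    grind
  rw [e1, e2, if_neg (by simp), if_pos (Or.inr (Or.inl rfl))]

/-- one step of the exploration. -/
theorem step_in (x : K) (h1 : a ≠ h) (h2 : b ≠ h) (h3 : c ≠ h) (h4 : a ≠ b) (h5 : a ≠ c)
    (G : Pat Lab → K) :
    (Cr x (hf a) (hf b) (hf c) (Co (hf h) (hf a) G)) (st h) = x * (G (st b) + G (st c)) := by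
  unfold Cr
  simp only [LinearMap.add_apply, Module.End.one_apply, LinearMap.smul_apply, Pi.add_apply,
    Pi.smul_apply]
  rw [Co_st h1, Co_cup h1 h2 h4, Co_cup h1 h3 h5, Co_cup' h1 h2 h3 h4 h5]
  simp only [smul_eq_mul]
  ring

/-- the last step at the top. -/
theorem step_top (h1 : a ≠ h) (G : Pat Lab → K) :
    (En ta (hf a) (Co (hf h) (hf a) G)) (st h) = G full := by
  unfold En
  simp only [LinearMap.add_apply, Module.End.one_apply, Pi.add_apply]
  rw [Co_st h1, zero_add, cupO_apply, if_pos, Co_apply]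
  · have e1 : (cup ta (hf a) (st h)) (hf h) = be := by
      simp only [cup, st, Pat.empty]
      grind
    have e2 : (cup ta (hf a) (st h)) (hf a) = ta := by
      simp only [cup, st, Pat.empty]
      grind
    rw [e1, e2, if_neg (by simp), if_neg (by simp)]
    congr 1
    ext y
    simp only [cup, cut, st, full, Pat.empty]
    grind (splits := 30)
  · refine ⟨?_, st_o h1⟩
    simp only [cup, st, Pat.empty]
    grind

end step

/-! ### the exploration -/

theorem CoS_EN_comm {T : Finset (Pt × Pt)} {p : Pt × Pt} (b : Bool) (h1 : p ∉ T) (h2 : rv p ∉ T) :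
    Commute (CoS (ed p) : Op Lab K) (EN K b T) := by
  refine Finset.noncommProd_commute T _ _ _ (fun h hh => ?_)
  rw [CoS_ed]
  refine (En_Co_comm (by simp) (by simp) ?_ ?_).symm
  · rw [Ne, Sum.inl.injEq]
    rintro rfl
    exact h1 hh
  · rw [Ne, Sum.inl.injEq]
    rintro rfl
    exact h2 hh

theorem CoS_CR_comm (x : K) {A : Finset Pt} {p : Pt × Pt} (h1 : p.1 ∉ A) (h2 : p.1 + p.2 ∉ A) :
    Commute (CoS (ed p) : Op Lab K) (CR x A) := by
  refine Finset.noncommProd_commute A _ _ _ (fun u hu => ?_)
  rw [CoS_ed]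
  refine (Crv_Co_comm x ?_ ?_).symm
  · rintro rfl
    exact h1 hu
  · rintro rfl
    exact h2 hu

theorem En_CR_comm (x : K) {A : Finset Pt} {p : Pt × Pt} (b : Bool) (h1 : p.1 ∉ A) :
    Commute (En (Sum.inr b) (hf p) : Op Lab K) (CR x A) := by
  refine Finset.noncommProd_commute A _ _ _ (fun u hu => ?_)
  refine (Crv_En_comm x ?_).symm
  rintro rfl
  exact h1 hu

theorem CR_erase (x : K) {A : Finset Pt} {w : Pt} (hw : w ∈ A) :
    (CR x A : Op Lab K) = Crv x w * CR x (A.erase w) :=
  (Finset.mul_noncommProd_erase A hw (Crv x) _).symm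

theorem EN_erase {T : Finset (Pt × Pt)} {p : Pt × Pt} (b : Bool) (hp : p ∈ T) :
    EN K b T = En (Sum.inr b) (hf p) * EN K b (T.erase p) :=
  (Finset.mul_noncommProd_erase T hp _ _).symm

theorem Edg.erase {E : Finset (Sym2 Lab)} (hE : Edg E) (e : Sym2 Lab) : Edg (E.erase e) :=
  fun f hf => hE f (Finset.mem_of_mem_erase hf)

theorem CO_erase {E : Finset (Sym2 Lab)} (hE : Edg E) {e : Sym2 Lab} (he : e ∈ E) :
    CO K E hE.ex = CoS e * CO K (E.erase e) (hE.erase e).ex :=
  (Finset.mul_noncommProd_erase E he _ _).symm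

theorem main_out (x : K) (T : Finset (Pt × Pt)) (A : Finset Pt) (E : Finset (Sym2 Lab)) (hE : Edg E)
    (p : Pt × Pt) (hp : De p) (h1 : p.1 ∉ A) (h2 : ed p ∈ E) (hw : p.1 + p.2 ∉ A)
    (hT : ∀ h ∈ T, h.1 ∉ A) (h4 : p ∉ T) :
    (CR x A * EN K true T * CO K E hE.ex : Op Lab K) (dlt K) (st p) = Ws x A T p := by
  rw [Ws_out x hw, CO_erase hE h2]
  by_cases h5 : rv p ∈ T
  · rw [if_pos h5, EN_erase true h5]
    have c1 := En_CR_comm (K := K) (p := rv p) x (A := A) true hw
    have c2 := CoS_CR_comm (K := K) x h1 hw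
    have c3 : Commute (CoS (ed p) : Op Lab K) (EN K true (T.erase (rv p))) :=
      CoS_EN_comm true (fun h => h4 (Finset.mem_of_mem_erase h)) (Finset.notMem_erase _ _)
    have e : (CR x A * (En (Sum.inr true) (hf (rv p)) * EN K true (T.erase (rv p))) *
        (CoS (ed p) * CO K (E.erase (ed p)) (hE.erase (ed p)).ex) : Op Lab K) =
        En (Sum.inr true) (hf (rv p)) * (CoS (ed p) *
          (CR x A * EN K true (T.erase (rv p)) * CO K (E.erase (ed p)) (hE.erase (ed p)).ex)) := by
      calc _ = (CR x A * En (Sum.inr true) (hf (rv p))) * (EN K true (T.erase (rv p)) *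
          CoS (ed p)) * CO K (E.erase (ed p)) (hE.erase (ed p)).ex := by simp only [mul_assoc]
        _ = (En (Sum.inr true) (hf (rv p)) * CR x A) * (CoS (ed p) *
          EN K true (T.erase (rv p))) * CO K (E.erase (ed p)) (hE.erase (ed p)).ex := by
            rw [c1.eq, c3.eq]
        _ = En (Sum.inr true) (hf (rv p)) * ((CR x A * CoS (ed p)) *
          (EN K true (T.erase (rv p)) * CO K (E.erase (ed p)) (hE.erase (ed p)).ex)) := by
            simp only [mul_assoc]
        _ = _ := by
            rw [← c2.eq]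
            simp only [mul_assoc]
    rw [e]
    simp only [Module.End.mul_apply]
    rw [CoS_ed]
    refine (step_top (rv_ne hp).symm _).trans ?_
    exact (good_CR x A (good_EN true _ (good_CO (hE.erase _) good_dlt))).1
  · rw [if_neg h5]
    have c2 := CoS_CR_comm (K := K) x h1 hw
    have c3 : Commute (CoS (ed p) : Op Lab K) (EN K true T) := CoS_EN_comm true h4 h5
    have e : (CR x A * EN K true T *
        (CoS (ed p) * CO K (E.erase (ed p)) (hE.erase (ed p)).ex) : Op Lab K) =
        CoS (ed p) * (CR x A * EN K true T * CO K (E.erase (ed p)) (hE.erase (ed p)).ex) := by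
      calc _ = CR x A * (EN K true T * CoS (ed p)) *
            CO K (E.erase (ed p)) (hE.erase (ed p)).ex := by simp only [mul_assoc]
        _ = (CR x A * CoS (ed p)) * (EN K true T *
            CO K (E.erase (ed p)) (hE.erase (ed p)).ex) := by
            rw [← c3.eq]
            simp only [mul_assoc]
        _ = _ := by
            rw [← c2.eq]
            simp only [mul_assoc]
    rw [e]
    simp only [Module.End.mul_apply]
    rw [CoS_ed]
    exact Co_st (rv_ne hp).symm _

theorem main (x : K) (T : Finset (Pt × Pt)) (n : ℕ) : ∀ (A : Finset Pt), A.card = n →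
    ∀ (E : Finset (Sym2 Lab)) (hE : Edg E) (p : Pt × Pt), De p → p.1 ∉ A → ed p ∈ E →
    (∀ w ∈ A, ∀ d, De (w, d) → ed (w, d) ∈ E) → (∀ h ∈ T, h.1 ∉ A) → p ∉ T →
    (CR x A * EN K true T * CO K E hE.ex : Op Lab K) (dlt K) (st p) = Ws x A T p := by
  induction n with
  | zero =>
    intro A hA E hE p hp h1 h2 h3 hT h4
    have hw : p.1 + p.2 ∉ A := by
      rw [Finset.card_eq_zero.1 hA]
      exact Finset.notMem_empty _
    exact main_out x T A E hE p hp h1 h2 hw hT h4
  | succ n ih =>
    intro A hA E hE p hp h1 h2 h3 hT h4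
    by_cases hw : p.1 + p.2 ∈ A
    · have hr : rv p ∉ T := fun h => hT _ h hw
      set w := p.1 + p.2 with hwd
      have hA' : (A.erase w).card = n := by
        rw [Finset.card_erase_of_mem hw]
        omega
      have hwp : w ≠ p.1 := fun h => h1 (h ▸ hw)
      have hDw : De (w, -p.2) := De_rv hp
      have hrv : rv p = (w, -p.2) := rfl
      have r1 : rotL (rotL (-p.2)) = rotR p.2 := by
        refine Prod.ext ?_ ?_ <;> simp only [rotL, rotR, Prod.fst_neg, Prod.snd_neg] <;> ring
      have r2 : rotR (rotR (-p.2)) = rotL p.2 := by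
        refine Prod.ext ?_ ?_ <;> simp only [rotL, rotR, Prod.fst_neg, Prod.snd_neg] <;> ring
      have hne : ∀ b : Bool, turn b p.2 ≠ -p.2 := by
        have key : ∀ d ∈ dirs, ∀ b : Bool, turn b d ≠ -d := by decide
        exact key p.2 hp.1
      have hrec : ∀ b : Bool, (CR x (A.erase w) * EN K true T *
          CO K (E.erase (ed p)) (hE.erase (ed p)).ex : Op Lab K) (dlt K) (st (w, turn b p.2)) =
          Ws x (A.erase w) T (w, turn b p.2) := by
        intro b
        refine ih (A.erase w) hA' (E.erase (ed p)) (hE.erase _) (w, turn b p.2) (De_turn hp b)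
          (Finset.notMem_erase _ _) ?_ ?_ (fun h hh => fun h' => hT h hh (Finset.mem_of_mem_erase h'))
          (fun h => hT _ h hw)
        · rw [Finset.mem_erase]
          refine ⟨?_, h3 w hw _ (De_turn hp b)⟩
          rw [Ne, ed_eq, not_or]
          refine ⟨fun h => hwp (congrArg Prod.fst h), fun h => hne b ?_⟩
          exact congrArg Prod.snd h
        · intro u hu d hd
          rw [Finset.mem_erase] at hu ⊢
          refine ⟨?_, h3 u hu.2 d hd⟩
          rw [Ne, ed_eq, not_or]
          refine ⟨fun h => h1 ?_, fun h => hu.1 (congrArg Prod.fst h)⟩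
          have := congrArg Prod.fst h
          simp only at this
          rw [← this]
          exact hu.2
      have c2 := CoS_CR_comm (K := K) (A := A.erase w) x
        (fun h => h1 (Finset.mem_of_mem_erase h)) (Finset.notMem_erase w A)
      have c3 : Commute (CoS (ed p) : Op Lab K) (EN K true T) := CoS_EN_comm true h4 hr
      have e : (CR x A * EN K true T * CO K E hE.ex : Op Lab K) =
          Crv x w * (CoS (ed p) * (CR x (A.erase w) * EN K true T *
            CO K (E.erase (ed p)) (hE.erase (ed p)).ex)) := by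
        rw [CR_erase x hw, CO_erase hE h2]
        calc _ = Crv x w * CR x (A.erase w) * (EN K true T * CoS (ed p)) *
            CO K (E.erase (ed p)) (hE.erase (ed p)).ex := by simp only [mul_assoc]
          _ = Crv x w * (CR x (A.erase w) * CoS (ed p)) * (EN K true T *
            CO K (E.erase (ed p)) (hE.erase (ed p)).ex) := by
            rw [← c3.eq]
            simp only [mul_assoc]
          _ = _ := by
            rw [← c2.eq]
            simp only [mul_assoc]
      rw [e, Ws_in x hw hr]
      simp only [Module.End.mul_apply]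
      rw [Crv_eq x hDw, CoS_ed, r1, r2, hrv]
      have q1 : (w, -p.2) ≠ p := fun h => hwp (congrArg Prod.fst h)
      have q2 : (w, rotR p.2) ≠ p := fun h => hwp (congrArg Prod.fst h)
      have q3 : (w, rotL p.2) ≠ p := fun h => hwp (congrArg Prod.fst h)
      have q4 : (w, -p.2) ≠ (w, rotR p.2) := fun h => hne false (congrArg Prod.snd h).symm
      have q5 : (w, -p.2) ≠ (w, rotL p.2) := fun h => hne true (congrArg Prod.snd h).symm
      refine (step_in x q1 q2 q3 q4 q5 _).trans ?_
      have m1 := hrec true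
      have m2 := hrec false
      simp only [Module.End.mul_apply] at m1 m2
      change x * ((CR x (A.erase w)) _ (st (w, turn false p.2)) +
        (CR x (A.erase w)) _ (st (w, turn true p.2))) = _
      rw [m1, m2, add_comm]
      rfl
    · exact main_out x T A E hE p hp h1 h2 hw hT h4

theorem edg_Edg (Ω : Finset Pt) : Edg (edg Ω) := by
  intro e he
  obtain ⟨h, -, h1, h2⟩ := mem_edg.1 he
  exact ⟨h, h1, h2.symm⟩

/-- The network of the domain is the sum over the self-avoiding words from the floor half edges to the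
top half edges. -/
theorem net_eq (x : K) {Ω : Finset Pt} {Bt Tp : Finset (Pt × Pt)}
    (hB : ∀ h ∈ Bt, De h ∧ h.1 ∉ Ω ∧ h.1 + h.2 ∈ Ω) (hT : ∀ h ∈ Tp, h.1 ∉ Ω)
    (hd : Disjoint Bt Tp) :
    Net x Ω Bt Tp (dlt K) Pat.empty =
      ∑ h ∈ Bt, ∑ t ∈ (ex0 Ω h).filter (fun t => rv (le h t) ∈ Tp), x ^ t.length := by
  have c1 : Commute (CR x Ω : Op Lab K) (EN K false Bt) := by
    refine Finset.noncommProd_commute Bt _ _ _ (fun h hh => ?_)
    exact (En_CR_comm x false (hB h hh).2.1).symm
  have e : Net x Ω Bt Tp = EN K false Bt *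
      (CR x Ω * EN K true Tp * CO K (edg Ω) (edg_Edg Ω).ex) := by
    unfold Net
    rw [c1.eq]
    simp only [mul_assoc]
  rw [e, Module.End.mul_apply, EN_empty]
  have z : (CR x Ω * EN K true Tp * CO K (edg Ω) (edg_Edg Ω).ex : Op Lab K) (dlt K) Pat.empty = 0 :=
    unu_CR x Ω (unu_EN Tp (unu_CO (edg_Edg Ω) unu_dlt)) Pat.empty rfl
  rw [z, zero_add]
  refine Finset.sum_congr rfl (fun h hh => ?_)
  obtain ⟨h1, h2, h3⟩ := hB h hh
  rw [main x Tp Ω.card Ω rfl (edg Ω) (edg_Edg Ω) h h1 h2 ?_ ?_ hT (Finset.disjoint_left.1 hd hh)]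
  · unfold Ws
    refine Finset.sum_congr ?_ (fun _ _ => rfl)
    ext t
    simp only [Finset.mem_filter, ex0]
    constructor
    · rintro ⟨m1, m2⟩
      exact ⟨⟨m1, hT _ m2⟩, m2⟩
    · rintro ⟨⟨m1, -⟩, m2⟩
      exact ⟨m1, m2⟩
  · rw [← ed_rv, mem_edg]
    exact ⟨rv h, h3, De_rv h1, rfl⟩
  · intro w hw d hd
    exact mem_edg.2 ⟨(w, d), hw, hd, rfl⟩

end Pool.Agent.EXL.Net
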