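import Pool.Agent.EXL.NetDefs

/-!
# N2: the network of the parallelogram in column order

The network is a product of vertex operators, ends and contractions. The product in column order is sorted:
first all vertices, then the floor ends, the top ends and the contractions.
-/

set_option autoImplicit false

namespace Pool.Agent.EXL.Net

open Pool.Agent.EXL Pat HexObs HexObs.LP

variable {K : Type*} [CommRing K]

namespace Tot

/-- the factors of the network: vertex, end, contraction. -/
inductive At
  | v (p : Pt)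
  | e (b : Bool) (h : Pt × Pt)
  | c (h : Pt × Pt)

/-- the operator of a factor. -/
noncomputable def op (x : K) : At → Op Lab K
  | At.v p => Crv x p
  | At.e b h => En (Sum.inr b) (hf h)
  | At.c h => CoS (ed h)

/-- the factor a may stand in front of the factor b (b can be moved to its place). -/
def Ok : At → At → Prop
  | At.v p, At.v q => p ≠ q
  | At.v _, _ => True
  | At.e _ h, At.v p => h.1 ≠ p
  | At.e _ h, At.e _ h' => h ≠ h'
  | At.e _ _, At.c _ => True
  | At.c h, At.v p => h.1 ≠ p ∧ h.1 + h.2 ≠ p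
  | At.c h, At.e _ h' => h ≠ h' ∧ rv h ≠ h'
  | At.c h, At.c h' => ed h ≠ ed h'

/-- the vertices. -/
def gv : At → Option Pt
  | At.v p => some p
  | _ => none

/-- the ends. -/
def ge (b : Bool) : At → Option (Pt × Pt)
  | At.e b' h => if b' = b then some h else none
  | _ => none

/-- the contractions. -/
def gc : At → Option (Pt × Pt)
  | At.c h => some h
  | _ => none

theorem com_cv (x : K) {h : Pt × Pt} {p : Pt} (h1 : h.1 ≠ p) (h2 : h.1 + h.2 ≠ p) :
    Commute (CoS (ed h) : Op Lab K) (Crv x p) := by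
  rw [CoS_ed]
  exact (Crv_Co_comm x h1 h2).symm

theorem com_ev (x : K) {b : Bool} {h : Pt × Pt} {p : Pt} (h1 : h.1 ≠ p) :
    Commute (En (Sum.inr b) (hf h) : Op Lab K) (Crv x p) :=
  (Crv_En_comm x h1).symm

theorem com_ce {b : Bool} {h h' : Pt × Pt} (h1 : h ≠ h') (h2 : rv h ≠ h') :
    Commute (CoS (ed h) : Op Lab K) (En (Sum.inr b) (hf h')) := by
  rw [CoS_ed]
  refine (En_Co_comm (by simp) (by simp) ?_ ?_).symm
  · rw [Ne, Sum.inl.injEq]
    exact fun e => h1 e.symm
  · rw [Ne, Sum.inl.injEq]
    exact fun e => h2 e.symm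

theorem com_ee {b b' : Bool} {h h' : Pt × Pt} (h1 : h ≠ h') :
    Commute (En (Sum.inr b) (hf h) : Op Lab K) (En (Sum.inr b') (hf h')) := by
  by_cases hb : b = b'
  · subst hb
    exact En_comm' (by simp) (by simp)
  · refine En_comm ?_ (by simp) (by simp) ?_
    · rw [Ne, Sum.inr.injEq]
      exact hb
    · rw [Ne, Sum.inl.injEq]
      exact h1

/-- sorting of the factors. -/
theorem sort (x : K) (L : List At) (hL : L.Pairwise Ok) :
    (L.map (op x)).prod = ((L.filterMap gv).map (Crv x)).prod *
      ((L.filterMap (ge false)).map (fun h => (En (Sum.inr false) (hf h) : Op Lab K))).prod *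
      ((L.filterMap (ge true)).map (fun h => (En (Sum.inr true) (hf h) : Op Lab K))).prod *
      ((L.filterMap gc).map (fun h => (CoS (ed h) : Op Lab K))).prod := by
  induction L with
  | nil => simp
  | cons a L ih =>
    rw [List.pairwise_cons] at hL
    obtain ⟨ha, hL'⟩ := hL
    have ih' := ih hL'
    rw [List.map_cons, List.prod_cons, ih']
    -- the members of the lists
    have mv : ∀ p ∈ L.filterMap gv, At.v p ∈ L := by
      intro p hp
      rw [List.mem_filterMap] at hp
      obtain ⟨b, hb, hb'⟩ := hp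
      cases b with
      | v q => simp only [gv, Option.some.injEq] at hb'; exact hb' ▸ hb
      | e b h => simp [gv] at hb'
      | c h => simp [gv] at hb'
    have me : ∀ b, ∀ h ∈ L.filterMap (ge b), At.e b h ∈ L := by
      intro b h hp
      rw [List.mem_filterMap] at hp
      obtain ⟨b', hb, hb'⟩ := hp
      cases b' with
      | v q => simp [ge] at hb'
      | e b'' h' =>
        simp only [ge] at hb'
        split_ifs at hb' with hbb
        rw [Option.some.injEq] at hb'
        rw [← hbb, ← hb']
        exact hb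
      | c h => simp [ge] at hb'
    set V := ((L.filterMap gv).map (Crv x)).prod with hV
    set E0 := ((L.filterMap (ge false)).map (fun h => (En (Sum.inr false) (hf h) : Op Lab K))).prod with hE0
    set E1 := ((L.filterMap (ge true)).map (fun h => (En (Sum.inr true) (hf h) : Op Lab K))).prod with hE1
    set C := ((L.filterMap gc).map (fun h => (CoS (ed h) : Op Lab K))).prod with hC
    have comV : ∀ X : Op Lab K, (∀ p, At.v p ∈ L → Commute X (Crv x p)) → Commute X V := by
      intro X hX
      apply Commute.list_prod_right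
      intro y hy
      rw [List.mem_map] at hy
      obtain ⟨p, hp, rfl⟩ := hy
      exact hX p (mv p hp)
    have comE : ∀ b, ∀ X : Op Lab K, (∀ h, At.e b h ∈ L → Commute X (En (Sum.inr b) (hf h))) →
        Commute X ((L.filterMap (ge b)).map (fun h => (En (Sum.inr b) (hf h) : Op Lab K))).prod := by
      intro b X hX
      apply Commute.list_prod_right
      intro y hy
      rw [List.mem_map] at hy
      obtain ⟨p, hp, rfl⟩ := hy
      exact hX p (me b p hp)
    cases a with
    | v p =>
      have f1 : (At.v p :: L).filterMap gv = p :: L.filterMap gv := rfl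
      have f2 : (At.v p :: L).filterMap (ge false) = L.filterMap (ge false) := rfl
      have f3 : (At.v p :: L).filterMap (ge true) = L.filterMap (ge true) := rfl
      have f4 : (At.v p :: L).filterMap gc = L.filterMap gc := rfl
      rw [f1, f2, f3, f4, List.map_cons, List.prod_cons, ← hV, ← hE0, ← hE1, ← hC]
      simp only [op, mul_assoc]
    | e b h =>
      have c1 : Commute (En (Sum.inr b) (hf h) : Op Lab K) V := comV _ fun p hp => com_ev x (ha _ hp)
      cases b with
      | false =>
        have f1 : (At.e false h :: L).filterMap gv = L.filterMap gv := rfl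
        have f2 : (At.e false h :: L).filterMap (ge false) = h :: L.filterMap (ge false) := rfl
        have f3 : (At.e false h :: L).filterMap (ge true) = L.filterMap (ge true) := rfl
        have f4 : (At.e false h :: L).filterMap gc = L.filterMap gc := rfl
        rw [f1, f2, f3, f4, List.map_cons, List.prod_cons, ← hV, ← hE0, ← hE1, ← hC]
        calc _ = (En (Sum.inr false) (hf h) * V) * E0 * E1 * C := by simp only [op, mul_assoc]
          _ = _ := by
            rw [c1.eq]
            simp only [mul_assoc]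
      | true =>
        have c2 : Commute (En (Sum.inr true) (hf h) : Op Lab K) E0 := comE false _ fun h' hh => com_ee (ha _ hh)
        have f1 : (At.e true h :: L).filterMap gv = L.filterMap gv := rfl
        have f2 : (At.e true h :: L).filterMap (ge false) = L.filterMap (ge false) := rfl
        have f3 : (At.e true h :: L).filterMap (ge true) = h :: L.filterMap (ge true) := rfl
        have f4 : (At.e true h :: L).filterMap gc = L.filterMap gc := rfl
        rw [f1, f2, f3, f4, List.map_cons, List.prod_cons, ← hV, ← hE0, ← hE1, ← hC]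
        calc _ = (En (Sum.inr true) (hf h) * V) * E0 * E1 * C := by simp only [op, mul_assoc]
          _ = V * (En (Sum.inr true) (hf h) * E0) * E1 * C := by
            rw [c1.eq]
            simp only [mul_assoc]
          _ = _ := by
            rw [c2.eq]
            simp only [mul_assoc]
    | c h =>
      have c1 : Commute (CoS (ed h) : Op Lab K) V := comV _ fun p hp => com_cv x (ha _ hp).1 (ha _ hp).2
      have c2 : Commute (CoS (ed h) : Op Lab K) E0 := comE false _ fun h' hh => com_ce (ha _ hh).1 (ha _ hh).2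
      have c3 : Commute (CoS (ed h) : Op Lab K) E1 := comE true _ fun h' hh => com_ce (ha _ hh).1 (ha _ hh).2
      have f1 : (At.c h :: L).filterMap gv = L.filterMap gv := rfl
      have f2 : (At.c h :: L).filterMap (ge false) = L.filterMap (ge false) := rfl
      have f3 : (At.c h :: L).filterMap (ge true) = L.filterMap (ge true) := rfl
      have f4 : (At.c h :: L).filterMap gc = h :: L.filterMap gc := rfl
      rw [f1, f2, f3, f4, List.map_cons, List.prod_cons, ← hV, ← hE0, ← hE1, ← hC]
      calc _ = (CoS (ed h) * V) * E0 * E1 * C := by simp only [op, mul_assoc]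
        _ = V * (CoS (ed h) * E0) * E1 * C := by
          rw [c1.eq]
          simp only [mul_assoc]
        _ = V * E0 * (CoS (ed h) * E1) * C := by
          rw [c2.eq]
          simp only [mul_assoc]
        _ = _ := by
          rw [c3.eq]
          simp only [mul_assoc]

/-! ### the lists -/

/-- one cell. -/
def cell (k i : ℤ) : List At :=
  [At.v (_root_.EXL.A k i), At.v (_root_.EXL.B k i), At.c (_root_.EXL.A k i, (0, -1)),
    At.c (_root_.EXL.A (k + 1) i, (-1, 1)), At.c (_root_.EXL.A k i, (1, 0))]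

/-- one column. -/
def colL (N : ℕ) (k : ℤ) : List At :=
  At.e false (_root_.EXL.B k (-1), (0, 1)) :: (((List.range N).flatMap fun i : ℕ => cell k i) ++
    [At.e true (_root_.EXL.A k N, (0, -1)), At.c (_root_.EXL.A k N, (0, -1))])

/-- the left edges. -/
def leftL (N : ℕ) : List At := (List.range N).map fun i : ℕ => At.c (_root_.EXL.A 0 i, (-1, 1))

/-- all factors. -/
def totL (N : ℕ) : ℕ → List At
  | 0 => leftL N
  | m + 1 => colL N m ++ totL N m

theorem ed_S (k i : ℤ) : ed (_root_.EXL.A k i, (0, -1)) = s(lN k (i - 1), lS k i) := by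
  unfold ed lN lS rv
  rw [Sym2.eq_swap]
  simp only [_root_.EXL.A_down]
  rfl

theorem ed_W (k i : ℤ) : ed (_root_.EXL.A (k + 1) i, (-1, 1)) = s(lW (k + 1) i, lE k i) := by
  unfold ed lW lE rv
  simp only [_root_.EXL.A_left]
  rw [add_sub_cancel_right]
  rfl

theorem ed_W0 (i : ℤ) : ed (_root_.EXL.A 0 i, (-1, 1)) = s(lW 0 i, lE (-1) i) := by
  unfold ed lW lE rv
  simp only [_root_.EXL.A_left]
  rfl

theorem ed_M (k i : ℤ) : ed (_root_.EXL.A k i, (1, 0)) = s(lM k i, rM k i) := by
  unfold ed lM rM rv
  simp only [_root_.EXL.A_right]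
  rfl

theorem CoS_mk (a b : Lab) : (CoS s(a, b) : Op Lab K) = Co a b := rfl

theorem prod_cell (x : K) (k i : ℤ) : ((cell k i).map (op x)).prod = Rho x k i := by
  unfold cell Rho
  simp only [List.map_cons, List.map_nil, List.prod_cons, List.prod_nil, op, ed_S, ed_W, ed_M, CoS_mk, mul_one]
  simp only [mul_assoc]

theorem prod_flat {α M : Type*} [Monoid M] (f : α → M) {ι : Type*} (l : List ι) (g : ι → List α) :
    ((l.flatMap g).map f).prod = (l.map fun i => ((g i).map f).prod).prod := by
  induction l with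
  | nil => simp
  | cons a l ih =>
    rw [List.flatMap_cons, List.map_append, List.prod_append, ih, List.map_cons, List.prod_cons]

theorem fin_range {M : Type*} (N : ℕ) (f : ℕ → M) :
    (List.finRange N).map (fun i : Fin N => f (i : ℕ)) = (List.range N).map f := by
  have h : (List.finRange N).map (fun i : Fin N => f (i : ℕ)) =
      ((List.finRange N).map (fun i : Fin N => (i : ℕ))).map f := by
    rw [List.map_map]
    rfl
  rw [h, List.map_coe_finRange_eq_range]

theorem prod_col (x : K) (N : ℕ) (k : ℤ) : ((colL N k).map (op x)).prod = colOp x N k := by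
  unfold colL colOp
  rw [fin_range N (fun i : ℕ => Rho x k (i : ℤ)), List.map_cons, List.prod_cons, List.map_append, List.prod_append,
    prod_flat]
  simp only [prod_cell, List.map_cons, List.map_nil, List.prod_cons, List.prod_nil, op, ed_S, CoS_mk, mul_one]
  rw [mul_assoc]
  rfl

theorem prod_left (x : K) (N : ℕ) : ((leftL N).map (op x)).prod = leftOp K N := by
  unfold leftL leftOp
  rw [fin_range N (fun i : ℕ => (Co (lW 0 (i : ℤ)) (lE (-1) (i : ℤ)) : Op Lab K)), List.map_map]
  congr 1
  refine List.map_congr_left fun i _ => ?_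
  show op x (At.c (_root_.EXL.A 0 i, (-1, 1))) = _
  simp only [op, ed_W0, CoS_mk]

theorem prod_tot (x : K) (N m : ℕ) : ((totL N m).map (op x)).prod = tot x N m := by
  induction m with
  | zero => exact prod_left x N
  | succ m ih =>
    show ((colL N m ++ totL N m).map (op x)).prod = colOp x N m * tot x N m
    rw [List.map_append, List.prod_append, ih, prod_col]

theorem mem_cell {k i : ℤ} {a : At} (h : a ∈ cell k i) : a = At.v (_root_.EXL.A k i) ∨ a = At.v (_root_.EXL.B k i) ∨
    a = At.c (_root_.EXL.A k i, (0, -1)) ∨ a = At.c (_root_.EXL.A (k + 1) i, (-1, 1)) ∨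
    a = At.c (_root_.EXL.A k i, (1, 0)) := by
  simpa [cell] using h

theorem mem_col {N : ℕ} {k : ℤ} {a : At} : a ∈ colL N k ↔ a = At.e false (_root_.EXL.B k (-1), (0, 1)) ∨
    (∃ i : ℕ, i < N ∧ (a = At.v (_root_.EXL.A k i) ∨ a = At.v (_root_.EXL.B k i) ∨
      a = At.c (_root_.EXL.A k i, (0, -1)) ∨ a = At.c (_root_.EXL.A (k + 1) i, (-1, 1)) ∨
      a = At.c (_root_.EXL.A k i, (1, 0)))) ∨
    a = At.e true (_root_.EXL.A k N, (0, -1)) ∨ a = At.c (_root_.EXL.A k N, (0, -1)) := by
  unfold colL cell
  simp [List.mem_flatMap, or_assoc]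

theorem mem_tot {N m : ℕ} {a : At} : a ∈ totL N m ↔ (∃ i : ℕ, i < N ∧ a = At.c (_root_.EXL.A 0 i, (-1, 1))) ∨
    ∃ k : ℕ, k < m ∧ a ∈ colL N k := by
  induction m with
  | zero =>
    show a ∈ leftL N ↔ _
    unfold leftL
    simp [eq_comm]
  | succ m ih =>
    show a ∈ colL N m ++ totL N m ↔ _
    rw [List.mem_append, ih]
    constructor
    · rintro (h | h | ⟨k, hk, h⟩)
      · exact Or.inr ⟨m, by omega, h⟩
      · exact Or.inl h
      · exact Or.inr ⟨k, by omega, h⟩
    · rintro (h | ⟨k, hk, h⟩)
      · exact Or.inr (Or.inl h)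
      · by_cases hkm : k = m
        · exact Or.inl (hkm ▸ h)
        · exact Or.inr (Or.inr ⟨k, by omega, h⟩)

/-- the order of the factors. -/
theorem ok_cell (k i : ℤ) : (cell k i).Pairwise Ok := by
  unfold cell
  simp only [List.pairwise_cons, List.mem_cons, List.not_mem_nil, or_false, forall_eq_or_imp, forall_eq,
    List.Pairwise.nil, Ok, and_true, ne_eq, ed_eq, rv, Prod.ext_iff, _root_.EXL.A, _root_.EXL.B, Prod.fst_add,
    Prod.snd_add, Prod.fst_neg, Prod.snd_neg, false_imp_iff, implies_true, true_and]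
  omega

theorem ok_cells {k i i' : ℤ} (h : i < i') {a b : At} (ha : a ∈ cell k i) (hb : b ∈ cell k i') : Ok a b := by
  rcases mem_cell ha with rfl | rfl | rfl | rfl | rfl <;> rcases mem_cell hb with rfl | rfl | rfl | rfl | rfl <;>
    (simp only [Ok, ne_eq, ed_eq, rv, Prod.ext_iff, _root_.EXL.A, _root_.EXL.B, Prod.fst_add, Prod.snd_add,
      Prod.fst_neg, Prod.snd_neg] <;> omega)

theorem ok_col (N : ℕ) (k : ℤ) : (colL N k).Pairwise Ok := by
  unfold colL
  rw [List.pairwise_cons]
  refine ⟨?_, ?_⟩
  · intro a ha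
    rw [List.mem_append, List.mem_flatMap] at ha
    rcases ha with ⟨i, hi, ha⟩ | ha
    · rcases mem_cell ha with rfl | rfl | rfl | rfl | rfl <;>
    (simp only [Ok, ne_eq, ed_eq, rv, Prod.ext_iff, _root_.EXL.A, _root_.EXL.B, Prod.fst_add, Prod.snd_add,
      Prod.fst_neg, Prod.snd_neg] <;> omega)
    · simp only [List.mem_cons, List.not_mem_nil, or_false] at ha
      rcases ha with rfl | rfl <;>
    (simp only [Ok, ne_eq, ed_eq, rv, Prod.ext_iff, _root_.EXL.A, _root_.EXL.B, Prod.fst_add, Prod.snd_add,
      Prod.fst_neg, Prod.snd_neg] <;> omega)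
  · rw [List.pairwise_append]
    refine ⟨?_, ?_, ?_⟩
    · rw [List.pairwise_flatMap]
      refine ⟨fun i _ => ok_cell k i, ?_⟩
      exact List.pairwise_lt_range.imp fun {a b} hab x hx y hy => ok_cells (by exact_mod_cast hab) hx hy
    · simp [Ok]
    · intro a ha b hb
      rw [List.mem_flatMap] at ha
      obtain ⟨i, hi, ha⟩ := ha
      rw [List.mem_range] at hi
      simp only [List.mem_cons, List.not_mem_nil, or_false] at hb
      rcases hb with rfl | rfl <;> rcases mem_cell ha with rfl | rfl | rfl | rfl | rfl <;>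
    (simp only [Ok, ne_eq, ed_eq, rv, Prod.ext_iff, _root_.EXL.A, _root_.EXL.B, Prod.fst_add, Prod.snd_add,
      Prod.fst_neg, Prod.snd_neg] <;> omega)

theorem ok_left (N : ℕ) : (leftL N).Pairwise Ok := by
  unfold leftL
  rw [List.pairwise_map]
  refine List.pairwise_lt_range.imp fun {a b} hab => ?_
  simp only [Ok, ne_eq, ed_eq, rv, Prod.ext_iff, _root_.EXL.A, _root_.EXL.B, Prod.fst_add, Prod.snd_add,
    Prod.fst_neg, Prod.snd_neg] <;> omega

theorem ok_col_col {N : ℕ} {k k' : ℤ} (h : k' < k) {a b : At} (ha : a ∈ colL N k) (hb : b ∈ colL N k') : Ok a b := by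
  rw [mem_col] at ha hb
  rcases ha with rfl | ⟨i, hi, rfl | rfl | rfl | rfl | rfl⟩ | rfl | rfl <;>
    rcases hb with rfl | ⟨i', hi', rfl | rfl | rfl | rfl | rfl⟩ | rfl | rfl <;>
    (simp only [Ok, ne_eq, ed_eq, rv, Prod.ext_iff, _root_.EXL.A, _root_.EXL.B, Prod.fst_add, Prod.snd_add,
      Prod.fst_neg, Prod.snd_neg] <;> omega)

theorem ok_tot (N m : ℕ) : (totL N m).Pairwise Ok := by
  induction m with
  | zero => exact ok_left N
  | succ m ih =>
    show (colL N m ++ totL N m).Pairwise Ok
    rw [List.pairwise_append]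
    refine ⟨ok_col N m, ih, fun a ha b hb => ?_⟩
    rw [mem_tot] at hb
    rcases hb with ⟨i', hi', rfl⟩ | ⟨k, hk, hb⟩
    · rw [mem_col] at ha
      rcases ha with rfl | ⟨i, hi, rfl | rfl | rfl | rfl | rfl⟩ | rfl | rfl <;>
    (simp only [Ok, ne_eq, ed_eq, rv, Prod.ext_iff, _root_.EXL.A, _root_.EXL.B, Prod.fst_add, Prod.snd_add,
      Prod.fst_neg, Prod.snd_neg] <;> omega)
    · exact ok_col_col (by exact_mod_cast hk) ha hb

theorem mem_gv {L : List At} {p : Pt} : p ∈ L.filterMap gv ↔ At.v p ∈ L := by
  rw [List.mem_filterMap]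
  constructor
  · rintro ⟨b, hb, hb'⟩
    cases b with
    | v q => simp only [gv, Option.some.injEq] at hb'; exact hb' ▸ hb
    | e b h => simp [gv] at hb'
    | c h => simp [gv] at hb'
  · exact fun h => ⟨_, h, rfl⟩

theorem mem_ge {L : List At} {b : Bool} {h : Pt × Pt} : h ∈ L.filterMap (ge b) ↔ At.e b h ∈ L := by
  rw [List.mem_filterMap]
  constructor
  · rintro ⟨b', hb, hb'⟩
    cases b' with
    | v q => simp [ge] at hb'
    | e b'' h' =>
      simp only [ge] at hb'
      split_ifs at hb' with hbb
      rw [Option.some.injEq] at hb'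
      rw [← hbb, ← hb']
      exact hb
    | c h => simp [ge] at hb'
  · exact fun h' => ⟨_, h', by simp [ge]⟩

theorem mem_gc {L : List At} {h : Pt × Pt} : h ∈ L.filterMap gc ↔ At.c h ∈ L := by
  rw [List.mem_filterMap]
  constructor
  · rintro ⟨b', hb, hb'⟩
    cases b' with
    | v q => simp [gc] at hb'
    | e b'' h' => simp [gc] at hb'
    | c h => simp only [gc, Option.some.injEq] at hb'; exact hb' ▸ hb
  · exact fun h' => ⟨_, h', rfl⟩

theorem nodup_gv {L : List At} (hL : L.Pairwise Ok) : (L.filterMap gv).Nodup := by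
  refine List.Pairwise.filterMap (S := fun a b => a ≠ b) gv ?_ hL
  intro a a' hab p hp p' hp'
  cases a <;> cases a' <;> simp [gv] at hp hp'
  subst hp hp'
  exact hab

theorem nodup_ge {L : List At} (hL : L.Pairwise Ok) (b : Bool) : (L.filterMap (ge b)).Nodup := by
  refine List.Pairwise.filterMap (S := fun a b => a ≠ b) (ge b) ?_ hL
  intro a a' hab p hp p' hp'
  cases a <;> cases a' <;> simp [ge] at hp hp'
  rw [← hp.2, ← hp'.2]
  exact hab

theorem nodup_gc {L : List At} (hL : L.Pairwise Ok) : ((L.filterMap gc).map ed).Nodup := by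
  unfold List.Nodup
  rw [List.pairwise_map]
  refine List.Pairwise.filterMap (S := fun a b => ed a ≠ ed b) gc ?_ hL
  intro a a' hab p hp p' hp'
  cases a <;> cases a' <;> simp [gc] at hp hp'
  subst hp hp'
  exact hab

theorem CR_list (x : K) {l : List Pt} (hl : l.Nodup) {Ω : Finset Pt} (h : l.toFinset = Ω) :
    CR x Ω = (l.map (Crv x)).prod := by
  subst h
  exact Finset.noncommProd_toFinset l _ _ hl

theorem EN_list (b : Bool) {l : List (Pt × Pt)} (hl : l.Nodup) {s : Finset (Pt × Pt)} (h : l.toFinset = s) :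
    EN K b s = (l.map (fun h => (En (Sum.inr b) (hf h) : Op Lab K))).prod := by
  subst h
  exact Finset.noncommProd_toFinset l _ _ hl

theorem CO_list {l : List (Pt × Pt)} (hl : (l.map ed).Nodup) {E : Finset (Sym2 Lab)} (hE : ∀ e ∈ E, ∃ h, e = ed h)
    (h : (l.map ed).toFinset = E) : CO K E hE = (l.map (fun h => (CoS (ed h) : Op Lab K))).prod := by
  subst h
  unfold CO
  rw [Finset.noncommProd_toFinset _ _ _ hl, List.map_map]
  rfl

/-- the directions of the edges. -/
theorem De_A {k i : ℤ} {d : Pt} (h : De (_root_.EXL.A k i, d)) : d = (0, -1) ∨ d = (-1, 1) ∨ d = (1, 0) := by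
  obtain ⟨h1, -, h2⟩ := h
  simp only [dirs, Finset.mem_insert, Finset.mem_singleton] at h1
  unfold Vt at h2
  have e : ∀ d : Pt, cl (_root_.EXL.A k i + d) = 2 + ((d.1 - d.2 : ℤ) : ZMod 3) := by
    intro d
    rw [← cl_A k i]
    unfold cl
    rw [← Int.cast_add]
    congr 1
    simp only [Prod.fst_add, Prod.snd_add]
    ring
  rw [e] at h2
  rcases h1 with rfl | rfl | rfl | rfl | rfl | rfl
  · exact Or.inr (Or.inr rfl)
  · exact absurd (by simp only; decide) h2
  · exact Or.inr (Or.inl rfl)
  · exact absurd (by simp only; decide) h2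
  · exact Or.inl rfl
  · exact absurd (by simp only; decide) h2

theorem De_B {k i : ℤ} {d : Pt} (h : De (_root_.EXL.B k i, d)) : d = (0, 1) ∨ d = (1, -1) ∨ d = (-1, 0) := by
  obtain ⟨h1, -, h2⟩ := h
  simp only [dirs, Finset.mem_insert, Finset.mem_singleton] at h1
  unfold Vt at h2
  have e : ∀ d : Pt, cl (_root_.EXL.B k i + d) = 0 + ((d.1 - d.2 : ℤ) : ZMod 3) := by
    intro d
    rw [← cl_B k i]
    unfold cl
    rw [← Int.cast_add]
    congr 1
    simp only [Prod.fst_add, Prod.snd_add]
    ring
  rw [e] at h2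
  rcases h1 with rfl | rfl | rfl | rfl | rfl | rfl
  · exact absurd (by simp only; decide) h2
  · exact Or.inl rfl
  · exact absurd (by simp only; decide) h2
  · exact Or.inr (Or.inr rfl)
  · exact absurd (by simp only; decide) h2
  · exact Or.inr (Or.inl rfl)

theorem De_A' (k i : ℤ) : De (_root_.EXL.A k i, (0, -1)) ∧ De (_root_.EXL.A k i, (-1, 1)) ∧
    De (_root_.EXL.A k i, (1, 0)) := by
  refine ⟨⟨by simp only; decide, ?_, ?_⟩, ⟨by simp only; decide, ?_, ?_⟩, ⟨by simp only; decide, ?_, ?_⟩⟩
  · show cl _ ≠ 1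
    rw [cl_A]
    decide
  · show cl (_root_.EXL.A k i + (0, -1)) ≠ 1
    rw [_root_.EXL.A_down, cl_B]
    decide
  · show cl _ ≠ 1
    rw [cl_A]
    decide
  · show cl (_root_.EXL.A k i + (-1, 1)) ≠ 1
    rw [_root_.EXL.A_left, cl_B]
    decide
  · show cl _ ≠ 1
    rw [cl_A]
    decide
  · show cl (_root_.EXL.A k i + (1, 0)) ≠ 1
    rw [_root_.EXL.A_right, cl_B]
    decide

theorem De_rv' {p : Pt × Pt} (h : De p) : De (rv p) := by
  obtain ⟨h1, h2, h3⟩ := h
  refine ⟨?_, h3, ?_⟩
  · have : ∀ d ∈ dirs, -d ∈ dirs := by decide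
    exact this _ h1
  · show Vt (p.1 + p.2 + -p.2)
    rw [add_neg_cancel_right]
    exact h2

end Tot

open Tot in
/-- THE NETWORK IN COLUMN ORDER -/
theorem Net_eq_tot (x : K) {N m : ℕ} (hN : 1 ≤ N) (hm : 1 ≤ m) :
    Net x (_root_.EXL.par N m) (feet m) (tops N m) = tot x N m := by
  have hok := ok_tot N m
  rw [← prod_tot, sort x _ hok]
  unfold Net
  congr 1
  · congr 1
    · congr 1
      · refine CR_list x (nodup_gv hok) ?_
        ext p
        rw [List.mem_toFinset, mem_gv, mem_tot, _root_.EXL.mem_par]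
        constructor
        · rintro (⟨i, hi, h⟩ | ⟨k, hk, h⟩)
          · simp at h
          · rw [mem_col] at h
            simp only [reduceCtorEq, At.v.injEq, or_false, false_or] at h
            obtain ⟨i, hi, h | h⟩ := h
            · exact ⟨k, i, ⟨by positivity, by exact_mod_cast hk⟩, ⟨by positivity, by exact_mod_cast hi⟩, Or.inl h⟩
            · exact ⟨k, i, ⟨by positivity, by exact_mod_cast hk⟩, ⟨by positivity, by exact_mod_cast hi⟩, Or.inr h⟩
        · rintro ⟨k, i, ⟨h1, h2⟩, ⟨h3, h4⟩, h⟩
          obtain ⟨k, rfl⟩ := Int.eq_ofNat_of_zero_le h1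
          obtain ⟨i, rfl⟩ := Int.eq_ofNat_of_zero_le h3
          refine Or.inr ⟨k, by exact_mod_cast h2, mem_col.2 (Or.inr (Or.inl ⟨i, by exact_mod_cast h4, ?_⟩))⟩
          rcases h with rfl | rfl
          · exact Or.inl rfl
          · exact Or.inr (Or.inl rfl)
      · refine EN_list false (nodup_ge hok false) ?_
        ext p
        rw [List.mem_toFinset, mem_ge, mem_tot]
        unfold feet
        rw [Finset.mem_image]
        constructor
        · rintro (⟨i, hi, h⟩ | ⟨k, hk, h⟩)
          · simp at h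
          · rw [mem_col] at h
            simp at h
            exact ⟨k, Finset.mem_range.2 hk, h.symm⟩
        · rintro ⟨k, hk, rfl⟩
          exact Or.inr ⟨k, Finset.mem_range.1 hk, mem_col.2 (Or.inl rfl)⟩
    · refine EN_list true (nodup_ge hok true) ?_
      ext p
      rw [List.mem_toFinset, mem_ge, mem_tot]
      unfold tops
      rw [Finset.mem_image]
      constructor
      · rintro (⟨i, hi, h⟩ | ⟨k, hk, h⟩)
        · simp at h
        · rw [mem_col] at h
          simp at h
          exact ⟨k, Finset.mem_range.2 hk, h.symm⟩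
      · rintro ⟨k, hk, rfl⟩
        exact Or.inr ⟨k, Finset.mem_range.1 hk, mem_col.2 (Or.inr (Or.inr (Or.inl rfl)))⟩
  · refine CO_list (nodup_gc hok) _ ?_
    ext e
    rw [List.mem_toFinset, List.mem_map, mem_edg]
    constructor
    · rintro ⟨h, hh, rfl⟩
      rw [mem_gc, mem_tot] at hh
      rcases hh with ⟨i, hi, hh⟩ | ⟨k, hk, hh⟩
      · rw [At.c.injEq] at hh
        subst hh
        exact ⟨_, _root_.EXL.A_mem.2 ⟨⟨by positivity, by exact_mod_cast hm⟩, by positivity, by exact_mod_cast hi⟩,
          (De_A' 0 i).2.1, rfl⟩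
      · rw [mem_col] at hh
        simp only [reduceCtorEq, At.c.injEq, false_or] at hh
        rcases hh with ⟨i, hi, rfl | rfl | rfl⟩ | rfl
        · exact ⟨_, _root_.EXL.A_mem.2 ⟨⟨by positivity, by exact_mod_cast hk⟩, by positivity, by exact_mod_cast hi⟩,
            (De_A' k i).1, rfl⟩
        · refine ⟨rv (_root_.EXL.A (k + 1) i, (-1, 1)), ?_, De_rv' (De_A' (k + 1) i).2.1, ed_rv _⟩
          show _root_.EXL.A (k + 1) i + (-1, 1) ∈ _
          rw [_root_.EXL.A_left, add_sub_cancel_right]
          exact _root_.EXL.B_mem.2 ⟨⟨by positivity, by exact_mod_cast hk⟩, by positivity, by exact_mod_cast hi⟩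
        · exact ⟨_, _root_.EXL.A_mem.2 ⟨⟨by positivity, by exact_mod_cast hk⟩, by positivity, by exact_mod_cast hi⟩,
            (De_A' k i).2.2, rfl⟩
        · refine ⟨rv (_root_.EXL.A k N, (0, -1)), ?_, De_rv' (De_A' k N).1, ed_rv _⟩
          show _root_.EXL.A k N + (0, -1) ∈ _
          rw [_root_.EXL.A_down]
          exact _root_.EXL.B_mem.2 ⟨⟨by positivity, by exact_mod_cast hk⟩, by omega, by omega⟩
    · rintro ⟨⟨p, d⟩, hp, hd, rfl⟩
      obtain ⟨k, i, ⟨h1, h2⟩, ⟨h3, h4⟩, h⟩ := _root_.EXL.mem_par.1 hp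
      obtain ⟨k, rfl⟩ := Int.eq_ofNat_of_zero_le h1
      obtain ⟨i, rfl⟩ := Int.eq_ofNat_of_zero_le h3
      have hk : k < m := by exact_mod_cast h2
      have hi : i < N := by exact_mod_cast h4
      have key : ∀ h : Pt × Pt, At.c h ∈ colL N k → ∃ a ∈ List.filterMap gc (totL N m), ed a = ed h :=
        fun h hh => ⟨h, mem_gc.2 (mem_tot.2 (Or.inr ⟨k, hk, hh⟩)), rfl⟩
      rcases h with h | h
      · simp only at h
        subst h
        rcases De_A hd with rfl | rfl | rfl
        · exact key _ (mem_col.2 (Or.inr (Or.inl ⟨i, hi, by simp⟩)))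
        · by_cases hk0 : k = 0
          · subst hk0
            exact ⟨(_root_.EXL.A 0 i, (-1, 1)), mem_gc.2 (mem_tot.2 (Or.inl ⟨i, hi, rfl⟩)), rfl⟩
          · obtain ⟨k', rfl⟩ : ∃ k', k = k' + 1 := ⟨k - 1, by omega⟩
            refine ⟨(_root_.EXL.A ((k' : ℤ) + 1) i, (-1, 1)), mem_gc.2 (mem_tot.2 (Or.inr ⟨k', by omega,
              mem_col.2 (Or.inr (Or.inl ⟨i, hi, by simp⟩))⟩)), ?_⟩
            push_cast
            rfl
        · exact key _ (mem_col.2 (Or.inr (Or.inl ⟨i, hi, by simp⟩)))
      · simp only at h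
        subst h
        rcases De_B hd with rfl | rfl | rfl
        · have e1 : ed (_root_.EXL.B (k : ℤ) i, (0, 1)) = ed (_root_.EXL.A (k : ℤ) ((i : ℤ) + 1), (0, -1)) := by
            rw [← ed_rv]
            unfold rv
            simp only [_root_.EXL.B_up]
            rfl
          rw [e1]
          by_cases hiN : i + 1 = N
          · refine key _ (mem_col.2 (Or.inr (Or.inr (Or.inr ?_))))
            rw [← hiN]
            push_cast
            rfl
          · refine key _ (mem_col.2 (Or.inr (Or.inl ⟨i + 1, by omega, ?_⟩)))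
            push_cast
            simp
        · have e1 : ed (_root_.EXL.B (k : ℤ) i, (1, -1)) = ed (_root_.EXL.A ((k : ℤ) + 1) i, (-1, 1)) := by
            rw [← ed_rv]
            unfold rv
            simp only [_root_.EXL.B_right]
            rfl
          rw [e1]
          exact key _ (mem_col.2 (Or.inr (Or.inl ⟨i, hi, by simp⟩)))
        · have e1 : ed (_root_.EXL.B (k : ℤ) i, (-1, 0)) = ed (_root_.EXL.A (k : ℤ) i, (1, 0)) := by
            rw [← ed_rv]
            unfold rv
            simp only [_root_.EXL.B_left]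
            rfl
          rw [e1]
          exact key _ (mem_col.2 (Or.inr (Or.inl ⟨i, hi, by simp⟩)))

end Pool.Agent.EXL.Net
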