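import Pool.Agent.EXL.NetTot0
import Pool.Agent.EXL.NetTot
import Pool.Agent.EXL.Net1
import Pool.Agent.EXL.Feet

/-!
# N2: the column operator of the honeycomb strip and the network of the parallelogram
-/

set_option autoImplicit false

namespace Pool.Agent.EXL

open Pat HexObs HexObs.LP

/-- N2: the m-th power of the column operator is the network of the parallelogram with m columns. -/
theorem colW_net {K : Type*} [CommRing K] (x : K) {N : ℕ} (hN : 1 ≤ N) (m : ℕ) :
    ((colW (fun _ => hexW x))^[m] (ind (fullS N))) Pat.empty =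
      Net.Net x (_root_.EXL.par N m) (Net.feet m) (Net.tops N m) (Net.dlt K) Pat.empty := by
  rcases Nat.eq_zero_or_pos m with hm | hm
  · subst hm
    have h1 : _root_.EXL.par N 0 = ∅ := by
      simp [_root_.EXL.par]
    have h2 : Net.feet 0 = ∅ := by simp [Net.feet]
    have h3 : Net.tops N 0 = ∅ := by simp [Net.tops]
    have h4 : Net.edg ∅ = ∅ := by
      rw [Finset.eq_empty_iff_forall_notMem]
      intro e he
      obtain ⟨h, h1, -⟩ := Net.mem_edg.1 he
      simp at h1
    have h5 : (Net.CO K (Net.edg ∅) Net.edg_ed : Net.Op Net.Lab K) = 1 := by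
      unfold Net.CO
      rw [Finset.noncommProd_congr h4 (fun _ _ => rfl)]
      exact Finset.noncommProd_empty _ _
    have h6 : (Net.Net x (_root_.EXL.par N 0) (Net.feet 0) (Net.tops N 0) : Net.Op Net.Lab K) = 1 := by
      unfold Net.Net
      rw [h2, h3]
      have e1 : Net.CR x (_root_.EXL.par N 0) = 1 := by
        rw [h1]
        exact Finset.noncommProd_empty _ _
      have e2 : ∀ b, Net.EN K b ∅ = 1 := fun b => Finset.noncommProd_empty _ _
      have e3 : (Net.CO K (Net.edg (_root_.EXL.par N 0)) Net.edg_ed : Net.Op Net.Lab K) = 1 := by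
        unfold Net.CO
        rw [Finset.noncommProd_congr (by rw [h1, h4]) (fun _ _ => rfl)]
        exact Finset.noncommProd_empty _ _
      rw [e1, e2, e2, e3]
      simp
    rw [h6]
    show ind (fullS N) Pat.empty = Net.dlt K Pat.empty
    unfold ind Net.dlt
    rw [if_neg, if_neg]
    · intro h
      have := congrArg (fun p => p.f Net.be) h
      simp [Net.full, cup, Pat.empty] at this
    · intro h
      have := congrArg (fun p => p.f Site.fl) h
      simp [fullS, cup, Pat.empty] at this
  · rw [Net.Net_eq_tot x hN hm, Net.tot_empty]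

/-- N2 for the critical honeycomb strip. -/
theorem Zm_net {N : ℕ} (hN : 1 ≤ N) (m : ℕ) :
    Zm N m = Net.Net xc (_root_.EXL.par N m) (feetS m) (topsS N m) (Net.dlt ℝ) Pat.empty :=
  colW_net xc hN m

/-- N1 + N2: the coefficient of the m-th power of the column operator is the total weight of the walks from the
floor to the top in the parallelogram with m columns. -/
theorem Zm_walks {N : ℕ} (hN : 1 ≤ N) (m : ℕ) :
    Zm N m = ∑ h ∈ feetS m, ∑ t ∈ (ex0 (_root_.EXL.par N m) h).filter (fun t => rv (le h t) ∈ topsS N m),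
      xc ^ t.length := by
  rw [Zm_net hN m]
  have dB : ∀ k i : ℤ, De (_root_.EXL.B k i, ((0, 1) : Pt)) := by
    intro k i
    refine ⟨upd, ?_, ?_⟩
    · show cl (_root_.EXL.B k i) ≠ 1
      rw [Net.cl_B]
      decide
    · show cl (_root_.EXL.B k i + (0, 1)) ≠ 1
      rw [_root_.EXL.B_up, Net.cl_A]
      decide
  apply Net.net_eq
  · intro h hh
    unfold feetS at hh
    rw [Finset.mem_image] at hh
    obtain ⟨j, hj, rfl⟩ := hh
    rw [Finset.mem_range] at hj
    refine ⟨dB _ _, ?_, ?_⟩
    · show _root_.EXL.B j (-1) ∉ _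
      rw [_root_.EXL.B_mem]
      omega
    · show _root_.EXL.B j (-1) + (0, 1) ∈ _
      rw [_root_.EXL.B_up, _root_.EXL.A_mem]
      omega
  · intro h hh
    unfold topsS at hh
    rw [Finset.mem_image] at hh
    obtain ⟨j, hj, rfl⟩ := hh
    show _root_.EXL.A j N ∉ _
    rw [_root_.EXL.A_mem]
    omega
  · rw [Finset.disjoint_left]
    intro h h1 h2
    unfold feetS at h1
    unfold topsS at h2
    rw [Finset.mem_image] at h1 h2
    obtain ⟨j, -, rfl⟩ := h1
    obtain ⟨j', -, h3⟩ := h2
    have h4 : ((0, -1) : Pt) = (0, 1) := congrArg (fun h => h.2) h3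
    exact absurd h4 (by decide)

end Pool.Agent.EXL
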