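import Pool.Agent.EXL.HexCol
import Pool.Agent.EXL.GreenHS
import Pool.Agent.EXL.ZLim
import Pool.Agent.EXL.ZNet

/-!
# Identification at the honeycomb point (board EXI)
-/

set_option autoImplicit false

namespace Pool.Agent.EXL

open Filter Topology HexObs

theorem ind_eq {α K : Type*} [CommRing K] (q : Pat α) : (ind q : Pat α → K) = HS.ind q := by
  classical
  funext p
  by_cases h : p = q
  · rw [h, HS.ind_self]
    unfold ind
    rw [if_pos rfl]
  · rw [HS.ind_ne h]
    unfold ind
    rw [if_neg h]

theorem FF_eq (N m : ℕ) : HS.FF Site.fl Site.tp (colH N) m Pat.empty = Zm N m := by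
  unfold HS.FF Zm
  rw [ind_eq]
  rfl

theorem Zm_eq_Zw {N : ℕ} (hN : 1 ≤ N) (m : ℕ) : Zm N m = Zw N m := Zm_walks hN m

theorem posOp_colH (N : ℕ) : HS.PosOp (colH N) := by
  intro F hF p
  rw [colH_eq]
  exact CC_nn (fun _ => hexW_nn xc_pos.le) _ _ _ _ hF p

section

variable {N : ℕ} (hN : 1 ≤ N) {A : Pat (Site N) → Prop} (hf : A (HS.full Site.fl Site.tp)) (he : A Pat.empty)
  (PX : HS.Pres A A (colH N)) (hR : HS.Reach A Site.fl Site.tp (colH N))

include hN hf he PX hR

/-- The half strip function at the honeycomb point, over the real numbers. -/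
theorem half_real : HS.Half Site.fl Site.tp A (colH N) (bT N) (HS.Flim Site.fl Site.tp A (colH N)) := by
  apply HS.half_lim (by simp) hf he (posOp_colH N) (good_colH N) PX _ _ hR
  · intro m
    rw [FF_eq, FF_eq, Zm_eq_Zw hN, Zm_eq_Zw hN]
    exact (Zw_step_le hN m).2
  · have h := Zw_step_tendsto hN
    simp only [← Zm_eq_Zw hN, ← FF_eq] at h
    exact h

theorem inj_real (hC : HS.CoReach A Site.fl Site.tp (colH N)) : HS.Inj Site.fl Site.tp A (colH N) := by
  apply HS.inj_lim (β := bT N) (by simp) hf he (posOp_colH N) (good_colH N) PX _ _ hR hC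
  · intro m
    rw [FF_eq, FF_eq, Zm_eq_Zw hN, Zm_eq_Zw hN]
    exact (Zw_step_le hN m).2
  · have h := Zw_step_tendsto hN
    simp only [← Zm_eq_Zw hN, ← FF_eq] at h
    exact h

/-- Injectivity over the complex numbers. -/
theorem inj_colC (hC : HS.CoReach A Site.fl Site.tp (colH N)) : HS.Inj Site.fl Site.tp A (colC N) :=
  HS.inj_cx (good_colC N).lin (colC_ofReal N) (inj_real hN hf he PX hR hC)

/-- **Identification**: the number of the half strip function at the honeycomb point is the critical weight of the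
bridges of height N. -/
theorem half_colC : HS.Half Site.fl Site.tp A (colC N) (bT N : ℂ)
    (fun p => (HS.Flim Site.fl Site.tp A (colH N) p : ℂ)) :=
  HS.half_cx (colC_ofReal N) (half_real hN hf he PX hR)

end

end Pool.Agent.EXL
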