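import Pool.Agent.EXL.Ops

/-!
# Bottom cap, crossing

Generated file (local identity C2).
-/

set_option maxRecDepth 4000
set_option linter.all false

namespace Pool.Agent.EXL.C2

open Pool.Agent.EXL Pool.Agent.EXL.Pat

variable {α K : Type*} [DecidableEq α] [CommRing K]

/-- The scalar equations. -/
structure Eqs (w : Wt K) (κ : K) (k : K) (κ1 : K) (k1 : K) : Prop where
  e1 : k * w.u1 + k * w.v - k1 = 0
  e2 : w.u2 + w.w1 * κ - κ1 = 0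

def P3_0 : Pat (Fin 3) := ⟨![0, 1, 2], by decide⟩
def P3_1 : Pat (Fin 3) := ⟨![1, 0, 2], by decide⟩
def P3_2 : Pat (Fin 3) := ⟨![2, 1, 0], by decide⟩
def P3_3 : Pat (Fin 3) := ⟨![0, 2, 1], by decide⟩
def P4_0 : Pat (Fin 4) := ⟨![0, 1, 3, 2], by decide⟩
def P4_1 : Pat (Fin 4) := ⟨![1, 0, 3, 2], by decide⟩
def P4_2 : Pat (Fin 4) := ⟨![0, 3, 2, 1], by decide⟩
def P5_0 : Pat (Fin 5) := ⟨![0, 3, 4, 1, 2], by decide⟩
def P4_3 : Pat (Fin 4) := ⟨![2, 3, 0, 1], by decide⟩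
def P4_4 : Pat (Fin 4) := ⟨![3, 1, 2, 0], by decide⟩
def P5_1 : Pat (Fin 5) := ⟨![3, 1, 4, 0, 2], by decide⟩
def P4_5 : Pat (Fin 4) := ⟨![3, 2, 1, 0], by decide⟩
def P5_2 : Pat (Fin 5) := ⟨![3, 4, 2, 0, 1], by decide⟩
def P6_0 : Pat (Fin 6) := ⟨![3, 4, 5, 0, 1, 2], by decide⟩

theorem ev0 (κ : K) (k : K) (F : Pat (Fin 3) → K) :
    bot κ k 0 1 2 F P3_0 = F P3_0 + κ * F P3_1 + k * (F P3_2 + F P3_3) :=
  bot_0 (by decide) (by decide) (by decide) (by decide) (by decide) (by decide)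

theorem ev1 (w : Wt K) (F : Pat (Fin 3) → K) :
    R w 0 1 F P3_0 = F P3_0 + w.u2 * F P3_1 :=
  R_e (by decide) (by decide) (by decide)

theorem ev2 (w : Wt K) (F : Pat (Fin 3) → K) :
    R w 0 1 F P3_3 = w.v * F P3_3 + w.u1 * F P3_2 :=
  R_r (by decide) (by decide) (by decide)

theorem ev3 (w : Wt K) (F : Pat (Fin 3) → K) :
    R w 0 1 F P3_1 = w.w1 * F P3_1 :=
  R_p (by decide) (by decide)

theorem ev4 (w : Wt K) (F : Pat (Fin 3) → K) :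
    R w 0 1 F P3_2 = w.v * F P3_2 + w.u1 * F P3_3 :=
  R_l (by decide) (by decide) (by decide)

theorem ev5 (κ1 : K) (k1 : K) (F : Pat (Fin 3) → K) :
    bot κ1 k1 0 1 2 F P3_0 = F P3_0 + κ1 * F P3_1 + k1 * (F P3_2 + F P3_3) :=
  bot_0 (by decide) (by decide) (by decide) (by decide) (by decide) (by decide)

theorem ev6 (κ : K) (k : K) (F : Pat (Fin 4) → K) :
    bot κ k 0 1 2 F P4_0 = F P4_0 + κ * F P4_1 :=
  bot_1 (by decide) (by decide) (by decide) (by decide)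

theorem ev7 (w : Wt K) (F : Pat (Fin 4) → K) :
    R w 0 1 F P4_0 = F P4_0 + w.u2 * F P4_1 :=
  R_e (by decide) (by decide) (by decide)

theorem ev8 (w : Wt K) (F : Pat (Fin 4) → K) :
    R w 0 1 F P4_1 = w.w1 * F P4_1 :=
  R_p (by decide) (by decide)

theorem ev9 (κ1 : K) (k1 : K) (F : Pat (Fin 4) → K) :
    bot κ1 k1 0 1 2 F P4_0 = F P4_0 + κ1 * F P4_1 :=
  bot_1 (by decide) (by decide) (by decide) (by decide)

theorem ev10 (κ : K) (k : K) (F : Pat (Fin 3) → K) :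
    bot κ k 0 1 2 F P3_3 = 0 :=
  bot_z (by decide)

theorem ev11 (κ1 : K) (k1 : K) (F : Pat (Fin 3) → K) :
    bot κ1 k1 0 1 2 F P3_3 = 0 :=
  bot_z (by decide)

theorem ev12 (κ : K) (k : K) (F : Pat (Fin 4) → K) :
    bot κ k 0 1 2 F P4_2 = 0 :=
  bot_z (by decide)

theorem ev13 (κ1 : K) (k1 : K) (F : Pat (Fin 4) → K) :
    bot κ1 k1 0 1 2 F P4_2 = 0 :=
  bot_z (by decide)

theorem ev14 (κ : K) (k : K) (F : Pat (Fin 5) → K) :
    bot κ k 0 1 2 F P5_0 = 0 :=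
  bot_z (by decide)

theorem ev15 (κ1 : K) (k1 : K) (F : Pat (Fin 5) → K) :
    bot κ1 k1 0 1 2 F P5_0 = 0 :=
  bot_z (by decide)

theorem ev16 (κ : K) (k : K) (F : Pat (Fin 3) → K) :
    bot κ k 0 1 2 F P3_1 = 0 :=
  bot_z (by decide)

theorem ev17 (κ1 : K) (k1 : K) (F : Pat (Fin 3) → K) :
    bot κ1 k1 0 1 2 F P3_1 = 0 :=
  bot_z (by decide)

theorem ev18 (κ : K) (k : K) (F : Pat (Fin 4) → K) :
    bot κ k 0 1 2 F P4_1 = 0 :=
  bot_z (by decide)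

theorem ev19 (κ1 : K) (k1 : K) (F : Pat (Fin 4) → K) :
    bot κ1 k1 0 1 2 F P4_1 = 0 :=
  bot_z (by decide)

theorem ev20 (κ : K) (k : K) (F : Pat (Fin 3) → K) :
    bot κ k 0 1 2 F P3_2 = 0 :=
  bot_z (by decide)

theorem ev21 (κ1 : K) (k1 : K) (F : Pat (Fin 3) → K) :
    bot κ1 k1 0 1 2 F P3_2 = 0 :=
  bot_z (by decide)

theorem ev22 (κ : K) (k : K) (F : Pat (Fin 4) → K) :
    bot κ k 0 1 2 F P4_3 = 0 :=
  bot_z (by decide)

theorem ev23 (κ1 : K) (k1 : K) (F : Pat (Fin 4) → K) :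
    bot κ1 k1 0 1 2 F P4_3 = 0 :=
  bot_z (by decide)

theorem ev24 (κ : K) (k : K) (F : Pat (Fin 4) → K) :
    bot κ k 0 1 2 F P4_4 = 0 :=
  bot_z (by decide)

theorem ev25 (κ1 : K) (k1 : K) (F : Pat (Fin 4) → K) :
    bot κ1 k1 0 1 2 F P4_4 = 0 :=
  bot_z (by decide)

theorem ev26 (κ : K) (k : K) (F : Pat (Fin 5) → K) :
    bot κ k 0 1 2 F P5_1 = 0 :=
  bot_z (by decide)

theorem ev27 (κ1 : K) (k1 : K) (F : Pat (Fin 5) → K) :
    bot κ1 k1 0 1 2 F P5_1 = 0 :=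
  bot_z (by decide)

theorem ev28 (κ : K) (k : K) (F : Pat (Fin 4) → K) :
    bot κ k 0 1 2 F P4_5 = 0 :=
  bot_z (by decide)

theorem ev29 (κ1 : K) (k1 : K) (F : Pat (Fin 4) → K) :
    bot κ1 k1 0 1 2 F P4_5 = 0 :=
  bot_z (by decide)

theorem ev30 (κ : K) (k : K) (F : Pat (Fin 5) → K) :
    bot κ k 0 1 2 F P5_2 = 0 :=
  bot_z (by decide)

theorem ev31 (κ1 : K) (k1 : K) (F : Pat (Fin 5) → K) :
    bot κ1 k1 0 1 2 F P5_2 = 0 :=
  bot_z (by decide)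

theorem ev32 (κ : K) (k : K) (F : Pat (Fin 6) → K) :
    bot κ k 0 1 2 F P6_0 = 0 :=
  bot_z (by decide)

theorem ev33 (κ1 : K) (k1 : K) (F : Pat (Fin 6) → K) :
    bot κ1 k1 0 1 2 F P6_0 = 0 :=
  bot_z (by decide)

theorem t0 {w : Wt K} {κ : K} {k : K} {κ1 : K} {k1 : K} (h : Eqs w κ k κ1 k1) (F : Pat (Fin 3) → K) :
    bot κ k 0 1 2 (R w 0 1 F) P3_0 = bot κ1 k1 0 1 2 F P3_0 := by
  simp only [ev0, ev1, ev2, ev3, ev4, ev5] <;>
  linear_combination F P3_3 * h.e1 + F P3_1 * h.e2 + F P3_2 * h.e1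

theorem t1 {w : Wt K} {κ : K} {k : K} {κ1 : K} {k1 : K} (h : Eqs w κ k κ1 k1) (F : Pat (Fin 4) → K) :
    bot κ k 0 1 2 (R w 0 1 F) P4_0 = bot κ1 k1 0 1 2 F P4_0 := by
  simp only [ev6, ev7, ev8, ev9] <;>
  linear_combination F P4_1 * h.e2

theorem t2 {w : Wt K} {κ : K} {k : K} {κ1 : K} {k1 : K} (h : Eqs w κ k κ1 k1) (F : Pat (Fin 3) → K) :
    bot κ k 0 1 2 (R w 0 1 F) P3_3 = bot κ1 k1 0 1 2 F P3_3 := by
  simp only [ev10, ev11] <;>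
  ring

theorem t3 {w : Wt K} {κ : K} {k : K} {κ1 : K} {k1 : K} (h : Eqs w κ k κ1 k1) (F : Pat (Fin 4) → K) :
    bot κ k 0 1 2 (R w 0 1 F) P4_2 = bot κ1 k1 0 1 2 F P4_2 := by
  simp only [ev12, ev13] <;>
  ring

theorem t4 {w : Wt K} {κ : K} {k : K} {κ1 : K} {k1 : K} (h : Eqs w κ k κ1 k1) (F : Pat (Fin 5) → K) :
    bot κ k 0 1 2 (R w 0 1 F) P5_0 = bot κ1 k1 0 1 2 F P5_0 := by
  simp only [ev14, ev15] <;>
  ring

theorem t5 {w : Wt K} {κ : K} {k : K} {κ1 : K} {k1 : K} (h : Eqs w κ k κ1 k1) (F : Pat (Fin 3) → K) :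
    bot κ k 0 1 2 (R w 0 1 F) P3_1 = bot κ1 k1 0 1 2 F P3_1 := by
  simp only [ev16, ev17] <;>
  ring

theorem t6 {w : Wt K} {κ : K} {k : K} {κ1 : K} {k1 : K} (h : Eqs w κ k κ1 k1) (F : Pat (Fin 4) → K) :
    bot κ k 0 1 2 (R w 0 1 F) P4_1 = bot κ1 k1 0 1 2 F P4_1 := by
  simp only [ev18, ev19] <;>
  ring

theorem t7 {w : Wt K} {κ : K} {k : K} {κ1 : K} {k1 : K} (h : Eqs w κ k κ1 k1) (F : Pat (Fin 3) → K) :
    bot κ k 0 1 2 (R w 0 1 F) P3_2 = bot κ1 k1 0 1 2 F P3_2 := by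
  simp only [ev20, ev21] <;>
  ring

theorem t8 {w : Wt K} {κ : K} {k : K} {κ1 : K} {k1 : K} (h : Eqs w κ k κ1 k1) (F : Pat (Fin 4) → K) :
    bot κ k 0 1 2 (R w 0 1 F) P4_3 = bot κ1 k1 0 1 2 F P4_3 := by
  simp only [ev22, ev23] <;>
  ring

theorem t9 {w : Wt K} {κ : K} {k : K} {κ1 : K} {k1 : K} (h : Eqs w κ k κ1 k1) (F : Pat (Fin 4) → K) :
    bot κ k 0 1 2 (R w 0 1 F) P4_4 = bot κ1 k1 0 1 2 F P4_4 := by
  simp only [ev24, ev25] <;>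
  ring

theorem t10 {w : Wt K} {κ : K} {k : K} {κ1 : K} {k1 : K} (h : Eqs w κ k κ1 k1) (F : Pat (Fin 5) → K) :
    bot κ k 0 1 2 (R w 0 1 F) P5_1 = bot κ1 k1 0 1 2 F P5_1 := by
  simp only [ev26, ev27] <;>
  ring

theorem t11 {w : Wt K} {κ : K} {k : K} {κ1 : K} {k1 : K} (h : Eqs w κ k κ1 k1) (F : Pat (Fin 4) → K) :
    bot κ k 0 1 2 (R w 0 1 F) P4_5 = bot κ1 k1 0 1 2 F P4_5 := by
  simp only [ev28, ev29] <;>
  ring

theorem t12 {w : Wt K} {κ : K} {k : K} {κ1 : K} {k1 : K} (h : Eqs w κ k κ1 k1) (F : Pat (Fin 5) → K) :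
    bot κ k 0 1 2 (R w 0 1 F) P5_2 = bot κ1 k1 0 1 2 F P5_2 := by
  simp only [ev30, ev31] <;>
  ring

theorem t13 {w : Wt K} {κ : K} {k : K} {κ1 : K} {k1 : K} (h : Eqs w κ k κ1 k1) (F : Pat (Fin 6) → K) :
    bot κ k 0 1 2 (R w 0 1 F) P6_0 = bot κ1 k1 0 1 2 F P6_0 := by
  simp only [ev32, ev33] <;>
  ring

theorem case {w : Wt K} {κ : K} {k : K} {κ1 : K} {k1 : K} {p : Pat α} {m : ℕ} (φ : Fin m → α) (inj : Function.Injective φ)
    (q : Pat (Fin m)) (hq : ∀ x, p (φ x) = φ (q x)) (l r b : Fin m)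
    (H : ∀ F : Pat (Fin m) → K, (bot κ k l r b (R w l r F)) q = (bot κ1 k1 l r b F) q)
    (F : Pat α → K) :
    (bot κ k (φ l) (φ r) (φ b) (R w (φ l) (φ r) F)) p = (bot κ1 k1 (φ l) (φ r) (φ b) F) p := by
  let E : Pat.Emb (Fin m) α := ⟨φ, inj, p, fun x => ⟨q x, hq x⟩⟩
  have hst : E.st q = p := E.st_eq hq
  have key := H (fun r => F (E.st r))
  have e1 : (bot κ k (E.φ l) (E.φ r) (E.φ b) (R w (E.φ l) (E.φ r) F)) (E.st q) = (bot κ k l r b (R w l r (fun r => F (E.st r)))) q := by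
    simp only [R_st, bot_st]
  have e2 : (bot κ1 k1 (E.φ l) (E.φ r) (E.φ b) F) (E.st q) = (bot κ1 k1 l r b (fun r => F (E.st r))) q := by
    simp only [R_st, bot_st]
  rw [hst] at e1 e2
  exact e1.trans (key.trans e2.symm)

omit [DecidableEq α] in
theorem inj3 {a0 a1 a2 : α} (h0_1 : a0 ≠ a1) (h0_2 : a0 ≠ a2) (h1_2 : a1 ≠ a2) :
    Function.Injective ![a0, a1, a2] := by
  intro x y hxy
  fin_cases x <;> fin_cases y <;> simp_all

omit [DecidableEq α] in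
theorem inj4 {a0 a1 a2 a3 : α} (h0_1 : a0 ≠ a1) (h0_2 : a0 ≠ a2) (h0_3 : a0 ≠ a3) (h1_2 : a1 ≠ a2) (h1_3 : a1 ≠ a3) (h2_3 : a2 ≠ a3) :
    Function.Injective ![a0, a1, a2, a3] := by
  intro x y hxy
  fin_cases x <;> fin_cases y <;> simp_all

omit [DecidableEq α] in
theorem inj5 {a0 a1 a2 a3 a4 : α} (h0_1 : a0 ≠ a1) (h0_2 : a0 ≠ a2) (h0_3 : a0 ≠ a3) (h0_4 : a0 ≠ a4) (h1_2 : a1 ≠ a2) (h1_3 : a1 ≠ a3) (h1_4 : a1 ≠ a4) (h2_3 : a2 ≠ a3) (h2_4 : a2 ≠ a4) (h3_4 : a3 ≠ a4) :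
    Function.Injective ![a0, a1, a2, a3, a4] := by
  intro x y hxy
  fin_cases x <;> fin_cases y <;> simp_all

omit [DecidableEq α] in
theorem inj6 {a0 a1 a2 a3 a4 a5 : α} (h0_1 : a0 ≠ a1) (h0_2 : a0 ≠ a2) (h0_3 : a0 ≠ a3) (h0_4 : a0 ≠ a4) (h0_5 : a0 ≠ a5) (h1_2 : a1 ≠ a2) (h1_3 : a1 ≠ a3) (h1_4 : a1 ≠ a4) (h1_5 : a1 ≠ a5) (h2_3 : a2 ≠ a3) (h2_4 : a2 ≠ a4) (h2_5 : a2 ≠ a5) (h3_4 : a3 ≠ a4) (h3_5 : a3 ≠ a5) (h4_5 : a4 ≠ a5) :
    Function.Injective ![a0, a1, a2, a3, a4, a5] := by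
  intro x y hxy
  fin_cases x <;> fin_cases y <;> simp_all

/-- **C2** -/
theorem main {w : Wt K} {κ : K} {k : K} {κ1 : K} {k1 : K} (h : Eqs w κ k κ1 k1) {l r b : α} (hlr : l ≠ r) (hlb : l ≠ b) (hrb : r ≠ b) (F : Pat α → K) :
    bot κ k l r b (R w l r F) = bot κ1 k1 l r b F := by
  funext p
  by_cases Xq0 : p l = l
  · by_cases Xq1 : p r = r
    · by_cases Xq2 : p b = b
      · exact case ![l, r, b] (inj3 hlr hlb hrb) P3_0 (by
          intro x; fin_cases x <;> simp [P3_0, Xq0, Xq1, Xq2]) 0 1 2 (fun F => t0 h F) F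
      · have Xn2_0 : p b ≠ l := (fun e => hlb ((Xq0).symm.trans (p.eq_comm'.1 e)))
        have Xn2_1 : p b ≠ r := (fun e => hrb ((Xq1).symm.trans (p.eq_comm'.1 e)))
        exact case ![l, r, b, p b] (inj4 hlr hlb (Ne.symm Xn2_0) hrb (Ne.symm Xn2_1) (Ne.symm Xq2)) P4_0 (by
          intro x; fin_cases x <;> simp [P4_0, Xq0, Xq1]) 0 1 2 (fun F => t1 h F) F
    · by_cases Xq1_2 : p r = b
      · have Xr2 : p b = r := p.eq_comm'.1 Xq1_2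
        exact case ![l, r, b] (inj3 hlr hlb hrb) P3_3 (by
          intro x; fin_cases x <;> simp [P3_3, Xq0, Xq1_2, Xr2]) 0 1 2 (fun F => t2 h F) F
      · by_cases Xq2 : p b = b
        · have Xn1_0 : p r ≠ l := (fun e => hlr ((Xq0).symm.trans (p.eq_comm'.1 e)))
          exact case ![l, r, b, p r] (inj4 hlr hlb (Ne.symm Xn1_0) hrb (Ne.symm Xq1) (Ne.symm Xq1_2)) P4_2 (by
            intro x; fin_cases x <;> simp [P4_2, Xq0, Xq2]) 0 1 2 (fun F => t3 h F) F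
        · have Xn1_0 : p r ≠ l := (fun e => hlr ((Xq0).symm.trans (p.eq_comm'.1 e)))
          have Xn2_0 : p b ≠ l := (fun e => hlb ((Xq0).symm.trans (p.eq_comm'.1 e)))
          have Xn2_1 : p b ≠ r := (fun e => Xq1_2 (p.eq_comm'.1 e))
          exact case ![l, r, b, p r, p b] (inj5 hlr hlb (Ne.symm Xn1_0) (Ne.symm Xn2_0) hrb (Ne.symm Xq1) (Ne.symm Xn2_1) (Ne.symm Xq1_2) (Ne.symm Xq2) (fun e => hrb (p.inj e))) P5_0 (by
            intro x; fin_cases x <;> simp [P5_0, Xq0]) 0 1 2 (fun F => t4 h F) F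
  · by_cases Xq0_1 : p l = r
    · have Xr1 : p r = l := p.eq_comm'.1 Xq0_1
      by_cases Xq2 : p b = b
      · exact case ![l, r, b] (inj3 hlr hlb hrb) P3_1 (by
          intro x; fin_cases x <;> simp [P3_1, Xq0_1, Xr1, Xq2]) 0 1 2 (fun F => t5 h F) F
      · have Xn2_0 : p b ≠ l := (fun e => hrb ((Xq0_1).symm.trans (p.eq_comm'.1 e)))
        have Xn2_1 : p b ≠ r := (fun e => hlb ((Xr1).symm.trans (p.eq_comm'.1 e)))
        exact case ![l, r, b, p b] (inj4 hlr hlb (Ne.symm Xn2_0) hrb (Ne.symm Xn2_1) (Ne.symm Xq2)) P4_1 (by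
          intro x; fin_cases x <;> simp [P4_1, Xq0_1, Xr1]) 0 1 2 (fun F => t6 h F) F
    · by_cases Xq0_2 : p l = b
      · have Xr2 : p b = l := p.eq_comm'.1 Xq0_2
        by_cases Xq1 : p r = r
        · exact case ![l, r, b] (inj3 hlr hlb hrb) P3_2 (by
            intro x; fin_cases x <;> simp [P3_2, Xq0_2, Xq1, Xr2]) 0 1 2 (fun F => t7 h F) F
        · have Xn1_0 : p r ≠ l := (fun e => (Ne.symm hrb) ((Xq0_2).symm.trans (p.eq_comm'.1 e)))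
          have Xn1_2 : p r ≠ b := (fun e => hlr ((Xr2).symm.trans (p.eq_comm'.1 e)))
          exact case ![l, r, b, p r] (inj4 hlr hlb (Ne.symm Xn1_0) hrb (Ne.symm Xq1) (Ne.symm Xn1_2)) P4_3 (by
            intro x; fin_cases x <;> simp [P4_3, Xq0_2, Xr2]) 0 1 2 (fun F => t8 h F) F
      · by_cases Xq1 : p r = r
        · by_cases Xq2 : p b = b
          · exact case ![l, r, b, p l] (inj4 hlr hlb (Ne.symm Xq0) hrb (Ne.symm Xq0_1) (Ne.symm Xq0_2)) P4_4 (by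
              intro x; fin_cases x <;> simp [P4_4, Xq1, Xq2]) 0 1 2 (fun F => t9 h F) F
          · have Xn2_0 : p b ≠ l := (fun e => Xq0_2 (p.eq_comm'.1 e))
            have Xn2_1 : p b ≠ r := (fun e => hrb ((Xq1).symm.trans (p.eq_comm'.1 e)))
            exact case ![l, r, b, p l, p b] (inj5 hlr hlb (Ne.symm Xq0) (Ne.symm Xn2_0) hrb (Ne.symm Xq0_1) (Ne.symm Xn2_1) (Ne.symm Xq0_2) (Ne.symm Xq2) (fun e => hlb (p.inj e))) P5_1 (by
              intro x; fin_cases x <;> simp [P5_1, Xq1]) 0 1 2 (fun F => t10 h F) F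
        · by_cases Xq1_2 : p r = b
          · have Xr2 : p b = r := p.eq_comm'.1 Xq1_2
            exact case ![l, r, b, p l] (inj4 hlr hlb (Ne.symm Xq0) hrb (Ne.symm Xq0_1) (Ne.symm Xq0_2)) P4_5 (by
              intro x; fin_cases x <;> simp [P4_5, Xq1_2, Xr2]) 0 1 2 (fun F => t11 h F) F
          · by_cases Xq2 : p b = b
            · have Xn1_0 : p r ≠ l := (fun e => Xq0_1 (p.eq_comm'.1 e))
              exact case ![l, r, b, p l, p r] (inj5 hlr hlb (Ne.symm Xq0) (Ne.symm Xn1_0) hrb (Ne.symm Xq0_1) (Ne.symm Xq1) (Ne.symm Xq0_2) (Ne.symm Xq1_2) (fun e => hlr (p.inj e))) P5_2 (by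
                intro x; fin_cases x <;> simp [P5_2, Xq2]) 0 1 2 (fun F => t12 h F) F
            · have Xn1_0 : p r ≠ l := (fun e => Xq0_1 (p.eq_comm'.1 e))
              have Xn2_0 : p b ≠ l := (fun e => Xq0_2 (p.eq_comm'.1 e))
              have Xn2_1 : p b ≠ r := (fun e => Xq1_2 (p.eq_comm'.1 e))
              exact case ![l, r, b, p l, p r, p b] (inj6 hlr hlb (Ne.symm Xq0) (Ne.symm Xn1_0) (Ne.symm Xn2_0) hrb (Ne.symm Xq0_1) (Ne.symm Xq1) (Ne.symm Xn2_1) (Ne.symm Xq0_2) (Ne.symm Xq1_2) (Ne.symm Xq2) (fun e => hlr (p.inj e)) (fun e => hlb (p.inj e)) (fun e => hrb (p.inj e))) P6_0 (by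
                intro x; fin_cases x <;> simp [P6_0]) 0 1 2 (fun F => t13 h F) F

end Pool.Agent.EXL.C2
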