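import Pool.Agent.EXL.Ops

/-!
# Floor relation (F)

Generated file (local identity CF).
-/

set_option maxRecDepth 4000
set_option linter.all false

namespace Pool.Agent.EXL.CF

open Pool.Agent.EXL Pool.Agent.EXL.Pat

variable {α K : Type*} [DecidableEq α] [CommRing K]

/-- The scalar equations. -/
structure Eqs (w1 : Wt K) (w2 : Wt K) (κ : K) (k : K) : Prop where
  e1 : 1 - k * w1.u1 * w2.v - k * w2.u1 - w1.u2 * w2.u1 * κ - w1.v * w2.v = 0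
  e2 : w1.u2 * w2.v + w1.v * w2.u1 * κ = 0
  e3 : k - k * w1.u2 * w2.u2 - k * w1.v - w1.u1 - w1.w2 * w2.u2 * κ = 0
  e4 : w1.u2 * w2.u1 + w1.v * w2.v * κ - κ = 0
  e5 : k * w1.u2 * w2.w1 + w1.w2 * w2.w1 * κ - κ = 0
  e6 : w1.u1 * w2.w1 * κ + w2.u2 = 0
  e7 : k * w1.u2 * w2.w2 + k * w1.v * w2.u2 + w1.u1 * w2.u2 + w1.w1 * w2.w1 * κ + w1.w2 * w2.w2 * κ = 0
  e8 : k - k * w1.u1 * w2.u1 - k * w2.v - w1.u2 * w2.v * κ - w1.v * w2.u1 = 0

def P4_0 : Pat (Fin 4) := ⟨![0, 1, 2, 3], by decide⟩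
def P4_1 : Pat (Fin 4) := ⟨![0, 1, 3, 2], by decide⟩
def P4_2 : Pat (Fin 4) := ⟨![1, 0, 2, 3], by decide⟩
def P4_3 : Pat (Fin 4) := ⟨![3, 1, 2, 0], by decide⟩
def P4_4 : Pat (Fin 4) := ⟨![0, 3, 2, 1], by decide⟩
def P4_5 : Pat (Fin 4) := ⟨![1, 0, 3, 2], by decide⟩
def P4_6 : Pat (Fin 4) := ⟨![0, 2, 1, 3], by decide⟩
def P4_7 : Pat (Fin 4) := ⟨![2, 1, 0, 3], by decide⟩
def P4_8 : Pat (Fin 4) := ⟨![2, 3, 0, 1], by decide⟩
def P4_9 : Pat (Fin 4) := ⟨![3, 2, 1, 0], by decide⟩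
def P5_0 : Pat (Fin 5) := ⟨![0, 1, 2, 4, 3], by decide⟩
def P5_1 : Pat (Fin 5) := ⟨![1, 0, 2, 4, 3], by decide⟩
def P5_2 : Pat (Fin 5) := ⟨![0, 2, 1, 4, 3], by decide⟩
def P5_3 : Pat (Fin 5) := ⟨![2, 1, 0, 4, 3], by decide⟩
def P5_4 : Pat (Fin 5) := ⟨![0, 1, 4, 3, 2], by decide⟩
def P6_0 : Pat (Fin 6) := ⟨![0, 1, 4, 5, 2, 3], by decide⟩
def P5_5 : Pat (Fin 5) := ⟨![0, 3, 4, 1, 2], by decide⟩
def P5_6 : Pat (Fin 5) := ⟨![0, 4, 2, 3, 1], by decide⟩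
def P5_7 : Pat (Fin 5) := ⟨![0, 4, 3, 2, 1], by decide⟩
def P6_1 : Pat (Fin 6) := ⟨![0, 4, 2, 5, 1, 3], by decide⟩
def P6_2 : Pat (Fin 6) := ⟨![0, 4, 5, 3, 1, 2], by decide⟩
def P7_0 : Pat (Fin 7) := ⟨![0, 4, 5, 6, 1, 2, 3], by decide⟩
def P5_8 : Pat (Fin 5) := ⟨![1, 0, 4, 3, 2], by decide⟩
def P6_3 : Pat (Fin 6) := ⟨![1, 0, 4, 5, 2, 3], by decide⟩
def P5_9 : Pat (Fin 5) := ⟨![2, 4, 0, 3, 1], by decide⟩
def P6_4 : Pat (Fin 6) := ⟨![2, 4, 0, 5, 1, 3], by decide⟩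
def P5_10 : Pat (Fin 5) := ⟨![3, 1, 4, 0, 2], by decide⟩
def P5_11 : Pat (Fin 5) := ⟨![3, 4, 2, 0, 1], by decide⟩
def P6_5 : Pat (Fin 6) := ⟨![3, 4, 5, 0, 1, 2], by decide⟩
def P5_12 : Pat (Fin 5) := ⟨![4, 1, 2, 3, 0], by decide⟩
def P5_13 : Pat (Fin 5) := ⟨![4, 1, 3, 2, 0], by decide⟩
def P6_6 : Pat (Fin 6) := ⟨![4, 1, 2, 5, 0, 3], by decide⟩
def P6_7 : Pat (Fin 6) := ⟨![4, 1, 5, 3, 0, 2], by decide⟩
def P7_1 : Pat (Fin 7) := ⟨![4, 1, 5, 6, 0, 2, 3], by decide⟩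
def P5_14 : Pat (Fin 5) := ⟨![4, 2, 1, 3, 0], by decide⟩
def P6_8 : Pat (Fin 6) := ⟨![4, 2, 1, 5, 0, 3], by decide⟩
def P5_15 : Pat (Fin 5) := ⟨![4, 3, 2, 1, 0], by decide⟩
def P6_9 : Pat (Fin 6) := ⟨![4, 3, 5, 1, 0, 2], by decide⟩
def P6_10 : Pat (Fin 6) := ⟨![4, 5, 2, 3, 0, 1], by decide⟩
def P6_11 : Pat (Fin 6) := ⟨![4, 5, 3, 2, 0, 1], by decide⟩
def P7_2 : Pat (Fin 7) := ⟨![4, 5, 2, 6, 0, 1, 3], by decide⟩
def P7_3 : Pat (Fin 7) := ⟨![4, 5, 6, 3, 0, 1, 2], by decide⟩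
def P8_0 : Pat (Fin 8) := ⟨![4, 5, 6, 7, 0, 1, 2, 3], by decide⟩

theorem ev0 (F : Pat (Fin 4) → K) :
    bc 2 3 F P4_0 = F P4_0 + F P4_1 :=
  bc_0 (by decide) (by decide) (by decide)

theorem ev1 (κ : K) (k : K) (F : Pat (Fin 4) → K) :
    bot κ k 0 1 3 F P4_0 = F P4_0 + κ * F P4_2 + k * (F P4_3 + F P4_4) :=
  bot_0 (by decide) (by decide) (by decide) (by decide) (by decide) (by decide)

theorem ev2 (κ : K) (k : K) (F : Pat (Fin 4) → K) :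
    bot κ k 0 1 3 F P4_1 = F P4_1 + κ * F P4_5 :=
  bot_1 (by decide) (by decide) (by decide) (by decide)

theorem ev3 (w1 : Wt K) (F : Pat (Fin 4) → K) :
    R w1 1 2 F P4_0 = F P4_0 + w1.u2 * F P4_6 :=
  R_e (by decide) (by decide) (by decide)

theorem ev4 (w1 : Wt K) (F : Pat (Fin 4) → K) :
    R w1 1 2 F P4_1 = w1.v * F P4_1 + w1.u1 * F P4_4 :=
  R_r (by decide) (by decide) (by decide)

theorem ev5 (w1 : Wt K) (F : Pat (Fin 4) → K) :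
    R w1 1 2 F P4_4 = w1.v * F P4_4 + w1.u1 * F P4_1 :=
  R_l (by decide) (by decide) (by decide)

theorem ev6 (w1 : Wt K) (F : Pat (Fin 4) → K) :
    R w1 1 2 F P4_2 = w1.v * F P4_2 + w1.u1 * F P4_7 :=
  R_l (by decide) (by decide) (by decide)

theorem ev7 (w1 : Wt K) (F : Pat (Fin 4) → K) :
    R w1 1 2 F P4_5 = w1.w1 * F P4_8 + w1.u2 * F P4_3 + w1.w2 * F P4_9 :=
  R_d (by decide) (by decide) (by decide) (by decide) (by decide) (by decide)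

theorem ev8 (w1 : Wt K) (F : Pat (Fin 4) → K) :
    R w1 1 2 F P4_3 = F P4_3 + w1.u2 * F P4_9 :=
  R_e (by decide) (by decide) (by decide)

theorem ev9 (w2 : Wt K) (F : Pat (Fin 4) → K) :
    R w2 0 2 F P4_0 = F P4_0 + w2.u2 * F P4_7 :=
  R_e (by decide) (by decide) (by decide)

theorem ev10 (w2 : Wt K) (F : Pat (Fin 4) → K) :
    R w2 0 2 F P4_1 = w2.v * F P4_1 + w2.u1 * F P4_3 :=
  R_r (by decide) (by decide) (by decide)

theorem ev11 (w2 : Wt K) (F : Pat (Fin 4) → K) :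
    R w2 0 2 F P4_6 = w2.v * F P4_6 + w2.u1 * F P4_2 :=
  R_r (by decide) (by decide) (by decide)

theorem ev12 (w2 : Wt K) (F : Pat (Fin 4) → K) :
    R w2 0 2 F P4_4 = F P4_4 + w2.u2 * F P4_8 :=
  R_e (by decide) (by decide) (by decide)

theorem ev13 (w2 : Wt K) (F : Pat (Fin 4) → K) :
    R w2 0 2 F P4_2 = w2.v * F P4_2 + w2.u1 * F P4_6 :=
  R_l (by decide) (by decide) (by decide)

theorem ev14 (w2 : Wt K) (F : Pat (Fin 4) → K) :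
    R w2 0 2 F P4_7 = w2.w1 * F P4_7 :=
  R_p (by decide) (by decide)

theorem ev15 (w2 : Wt K) (F : Pat (Fin 4) → K) :
    R w2 0 2 F P4_8 = w2.w1 * F P4_8 :=
  R_p (by decide) (by decide)

theorem ev16 (w2 : Wt K) (F : Pat (Fin 4) → K) :
    R w2 0 2 F P4_3 = w2.v * F P4_3 + w2.u1 * F P4_1 :=
  R_l (by decide) (by decide) (by decide)

theorem ev17 (w2 : Wt K) (F : Pat (Fin 4) → K) :
    R w2 0 2 F P4_9 = w2.w1 * F P4_5 + w2.u2 * F P4_4 + w2.w2 * F P4_8 :=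
  R_d (by decide) (by decide) (by decide) (by decide) (by decide) (by decide)

theorem ev18 (F : Pat (Fin 5) → K) :
    bc 2 3 F P5_0 = F P5_0 :=
  bc_1 (by decide) (by decide)

theorem ev19 (κ : K) (k : K) (F : Pat (Fin 5) → K) :
    bot κ k 0 1 3 F P5_0 = F P5_0 + κ * F P5_1 :=
  bot_1 (by decide) (by decide) (by decide) (by decide)

theorem ev20 (w1 : Wt K) (F : Pat (Fin 5) → K) :
    R w1 1 2 F P5_0 = F P5_0 + w1.u2 * F P5_2 :=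
  R_e (by decide) (by decide) (by decide)

theorem ev21 (w1 : Wt K) (F : Pat (Fin 5) → K) :
    R w1 1 2 F P5_1 = w1.v * F P5_1 + w1.u1 * F P5_3 :=
  R_l (by decide) (by decide) (by decide)

theorem ev22 (w2 : Wt K) (F : Pat (Fin 5) → K) :
    R w2 0 2 F P5_0 = F P5_0 + w2.u2 * F P5_3 :=
  R_e (by decide) (by decide) (by decide)

theorem ev23 (w2 : Wt K) (F : Pat (Fin 5) → K) :
    R w2 0 2 F P5_2 = w2.v * F P5_2 + w2.u1 * F P5_1 :=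
  R_r (by decide) (by decide) (by decide)

theorem ev24 (w2 : Wt K) (F : Pat (Fin 5) → K) :
    R w2 0 2 F P5_1 = w2.v * F P5_1 + w2.u1 * F P5_2 :=
  R_l (by decide) (by decide) (by decide)

theorem ev25 (w2 : Wt K) (F : Pat (Fin 5) → K) :
    R w2 0 2 F P5_3 = w2.w1 * F P5_3 :=
  R_p (by decide) (by decide)

theorem ev26 (F : Pat (Fin 4) → K) :
    bc 2 3 F P4_1 = 0 :=
  bc_z (by decide)

theorem ev27 (F : Pat (Fin 5) → K) :
    bc 2 3 F P5_4 = 0 :=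
  bc_z (by decide)

theorem ev28 (F : Pat (Fin 6) → K) :
    bc 2 3 F P6_0 = 0 :=
  bc_z (by decide)

theorem ev29 (F : Pat (Fin 4) → K) :
    bc 2 3 F P4_6 = 0 :=
  bc_z (by decide)

theorem ev30 (F : Pat (Fin 5) → K) :
    bc 2 3 F P5_2 = 0 :=
  bc_z (by decide)

theorem ev31 (F : Pat (Fin 4) → K) :
    bc 2 3 F P4_4 = F P4_4 :=
  bc_1 (by decide) (by decide)

theorem ev32 (κ : K) (k : K) (F : Pat (Fin 4) → K) :
    bot κ k 0 1 3 F P4_4 = 0 :=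
  bot_z (by decide)

theorem ev33 (F : Pat (Fin 5) → K) :
    bc 2 3 F P5_5 = 0 :=
  bc_z (by decide)

theorem ev34 (F : Pat (Fin 5) → K) :
    bc 2 3 F P5_6 = F P5_6 + F P5_7 :=
  bc_0 (by decide) (by decide) (by decide)

theorem ev35 (κ : K) (k : K) (F : Pat (Fin 5) → K) :
    bot κ k 0 1 3 F P5_6 = 0 :=
  bot_z (by decide)

theorem ev36 (κ : K) (k : K) (F : Pat (Fin 5) → K) :
    bot κ k 0 1 3 F P5_7 = 0 :=
  bot_z (by decide)

theorem ev37 (F : Pat (Fin 6) → K) :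
    bc 2 3 F P6_1 = F P6_1 :=
  bc_1 (by decide) (by decide)

theorem ev38 (κ : K) (k : K) (F : Pat (Fin 6) → K) :
    bot κ k 0 1 3 F P6_1 = 0 :=
  bot_z (by decide)

theorem ev39 (F : Pat (Fin 5) → K) :
    bc 2 3 F P5_7 = 0 :=
  bc_z (by decide)

theorem ev40 (F : Pat (Fin 6) → K) :
    bc 2 3 F P6_2 = 0 :=
  bc_z (by decide)

theorem ev41 (F : Pat (Fin 7) → K) :
    bc 2 3 F P7_0 = 0 :=
  bc_z (by decide)

theorem ev42 (F : Pat (Fin 4) → K) :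
    bc 2 3 F P4_2 = F P4_2 + F P4_5 :=
  bc_0 (by decide) (by decide) (by decide)

theorem ev43 (κ : K) (k : K) (F : Pat (Fin 4) → K) :
    bot κ k 0 1 3 F P4_2 = 0 :=
  bot_z (by decide)

theorem ev44 (κ : K) (k : K) (F : Pat (Fin 4) → K) :
    bot κ k 0 1 3 F P4_5 = 0 :=
  bot_z (by decide)

theorem ev45 (F : Pat (Fin 5) → K) :
    bc 2 3 F P5_1 = F P5_1 :=
  bc_1 (by decide) (by decide)

theorem ev46 (κ : K) (k : K) (F : Pat (Fin 5) → K) :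
    bot κ k 0 1 3 F P5_1 = 0 :=
  bot_z (by decide)

theorem ev47 (F : Pat (Fin 4) → K) :
    bc 2 3 F P4_5 = 0 :=
  bc_z (by decide)

theorem ev48 (F : Pat (Fin 5) → K) :
    bc 2 3 F P5_8 = 0 :=
  bc_z (by decide)

theorem ev49 (F : Pat (Fin 6) → K) :
    bc 2 3 F P6_3 = 0 :=
  bc_z (by decide)

theorem ev50 (F : Pat (Fin 4) → K) :
    bc 2 3 F P4_7 = 0 :=
  bc_z (by decide)

theorem ev51 (F : Pat (Fin 5) → K) :
    bc 2 3 F P5_3 = 0 :=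
  bc_z (by decide)

theorem ev52 (F : Pat (Fin 4) → K) :
    bc 2 3 F P4_8 = 0 :=
  bc_z (by decide)

theorem ev53 (F : Pat (Fin 5) → K) :
    bc 2 3 F P5_9 = 0 :=
  bc_z (by decide)

theorem ev54 (F : Pat (Fin 6) → K) :
    bc 2 3 F P6_4 = 0 :=
  bc_z (by decide)

theorem ev55 (F : Pat (Fin 4) → K) :
    bc 2 3 F P4_3 = F P4_3 :=
  bc_1 (by decide) (by decide)

theorem ev56 (κ : K) (k : K) (F : Pat (Fin 4) → K) :
    bot κ k 0 1 3 F P4_3 = 0 :=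
  bot_z (by decide)

theorem ev57 (F : Pat (Fin 5) → K) :
    bc 2 3 F P5_10 = 0 :=
  bc_z (by decide)

theorem ev58 (F : Pat (Fin 4) → K) :
    bc 2 3 F P4_9 = 0 :=
  bc_z (by decide)

theorem ev59 (F : Pat (Fin 5) → K) :
    bc 2 3 F P5_11 = F P5_11 :=
  bc_1 (by decide) (by decide)

theorem ev60 (κ : K) (k : K) (F : Pat (Fin 5) → K) :
    bot κ k 0 1 3 F P5_11 = 0 :=
  bot_z (by decide)

theorem ev61 (F : Pat (Fin 6) → K) :
    bc 2 3 F P6_5 = 0 :=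
  bc_z (by decide)

theorem ev62 (F : Pat (Fin 5) → K) :
    bc 2 3 F P5_12 = F P5_12 + F P5_13 :=
  bc_0 (by decide) (by decide) (by decide)

theorem ev63 (κ : K) (k : K) (F : Pat (Fin 5) → K) :
    bot κ k 0 1 3 F P5_12 = 0 :=
  bot_z (by decide)

theorem ev64 (κ : K) (k : K) (F : Pat (Fin 5) → K) :
    bot κ k 0 1 3 F P5_13 = 0 :=
  bot_z (by decide)

theorem ev65 (F : Pat (Fin 6) → K) :
    bc 2 3 F P6_6 = F P6_6 :=
  bc_1 (by decide) (by decide)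

theorem ev66 (κ : K) (k : K) (F : Pat (Fin 6) → K) :
    bot κ k 0 1 3 F P6_6 = 0 :=
  bot_z (by decide)

theorem ev67 (F : Pat (Fin 5) → K) :
    bc 2 3 F P5_13 = 0 :=
  bc_z (by decide)

theorem ev68 (F : Pat (Fin 6) → K) :
    bc 2 3 F P6_7 = 0 :=
  bc_z (by decide)

theorem ev69 (F : Pat (Fin 7) → K) :
    bc 2 3 F P7_1 = 0 :=
  bc_z (by decide)

theorem ev70 (F : Pat (Fin 5) → K) :
    bc 2 3 F P5_14 = 0 :=
  bc_z (by decide)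

theorem ev71 (F : Pat (Fin 6) → K) :
    bc 2 3 F P6_8 = 0 :=
  bc_z (by decide)

theorem ev72 (F : Pat (Fin 5) → K) :
    bc 2 3 F P5_15 = F P5_15 :=
  bc_1 (by decide) (by decide)

theorem ev73 (κ : K) (k : K) (F : Pat (Fin 5) → K) :
    bot κ k 0 1 3 F P5_15 = 0 :=
  bot_z (by decide)

theorem ev74 (F : Pat (Fin 6) → K) :
    bc 2 3 F P6_9 = 0 :=
  bc_z (by decide)

theorem ev75 (F : Pat (Fin 6) → K) :
    bc 2 3 F P6_10 = F P6_10 + F P6_11 :=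
  bc_0 (by decide) (by decide) (by decide)

theorem ev76 (κ : K) (k : K) (F : Pat (Fin 6) → K) :
    bot κ k 0 1 3 F P6_10 = 0 :=
  bot_z (by decide)

theorem ev77 (κ : K) (k : K) (F : Pat (Fin 6) → K) :
    bot κ k 0 1 3 F P6_11 = 0 :=
  bot_z (by decide)

theorem ev78 (F : Pat (Fin 7) → K) :
    bc 2 3 F P7_2 = F P7_2 :=
  bc_1 (by decide) (by decide)

theorem ev79 (κ : K) (k : K) (F : Pat (Fin 7) → K) :
    bot κ k 0 1 3 F P7_2 = 0 :=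
  bot_z (by decide)

theorem ev80 (F : Pat (Fin 6) → K) :
    bc 2 3 F P6_11 = 0 :=
  bc_z (by decide)

theorem ev81 (F : Pat (Fin 7) → K) :
    bc 2 3 F P7_3 = 0 :=
  bc_z (by decide)

theorem ev82 (F : Pat (Fin 8) → K) :
    bc 2 3 F P8_0 = 0 :=
  bc_z (by decide)

theorem t0 {w1 : Wt K} {w2 : Wt K} {κ : K} {k : K} (h : Eqs w1 w2 κ k) (F : Pat (Fin 4) → K) :
    bc 2 3 (bot κ k 0 1 3 (R w1 1 2 (R w2 0 2 F))) P4_0 = bc 2 3 (bot κ k 0 1 3 F) P4_0 := by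
  simp only [ev0, ev1, ev2, ev3, ev4, ev5, ev6, ev7, ev8, ev9, ev10, ev11, ev12, ev13, ev14, ev15, ev16, ev17] <;>
  linear_combination (-1) * F P4_1 * h.e1 + F P4_6 * h.e2 + (-1) * F P4_4 * h.e3 + F P4_2 * h.e4 + F P4_5 * h.e5 + F P4_7 * h.e6 + F P4_8 * h.e7 + (-1) * F P4_3 * h.e8

theorem t1 {w1 : Wt K} {w2 : Wt K} {κ : K} {k : K} (h : Eqs w1 w2 κ k) (F : Pat (Fin 5) → K) :
    bc 2 3 (bot κ k 0 1 3 (R w1 1 2 (R w2 0 2 F))) P5_0 = bc 2 3 (bot κ k 0 1 3 F) P5_0 := by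
  simp only [ev18, ev19, ev20, ev21, ev22, ev23, ev24, ev25] <;>
  linear_combination F P5_2 * h.e2 + F P5_1 * h.e4 + F P5_3 * h.e6

theorem t2 {w1 : Wt K} {w2 : Wt K} {κ : K} {k : K} (h : Eqs w1 w2 κ k) (F : Pat (Fin 4) → K) :
    bc 2 3 (bot κ k 0 1 3 (R w1 1 2 (R w2 0 2 F))) P4_1 = bc 2 3 (bot κ k 0 1 3 F) P4_1 := by
  simp only [ev26] <;>
  ring

theorem t3 {w1 : Wt K} {w2 : Wt K} {κ : K} {k : K} (h : Eqs w1 w2 κ k) (F : Pat (Fin 5) → K) :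
    bc 2 3 (bot κ k 0 1 3 (R w1 1 2 (R w2 0 2 F))) P5_4 = bc 2 3 (bot κ k 0 1 3 F) P5_4 := by
  simp only [ev27] <;>
  ring

theorem t4 {w1 : Wt K} {w2 : Wt K} {κ : K} {k : K} (h : Eqs w1 w2 κ k) (F : Pat (Fin 6) → K) :
    bc 2 3 (bot κ k 0 1 3 (R w1 1 2 (R w2 0 2 F))) P6_0 = bc 2 3 (bot κ k 0 1 3 F) P6_0 := by
  simp only [ev28] <;>
  ring

theorem t5 {w1 : Wt K} {w2 : Wt K} {κ : K} {k : K} (h : Eqs w1 w2 κ k) (F : Pat (Fin 4) → K) :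
    bc 2 3 (bot κ k 0 1 3 (R w1 1 2 (R w2 0 2 F))) P4_6 = bc 2 3 (bot κ k 0 1 3 F) P4_6 := by
  simp only [ev29] <;>
  ring

theorem t6 {w1 : Wt K} {w2 : Wt K} {κ : K} {k : K} (h : Eqs w1 w2 κ k) (F : Pat (Fin 5) → K) :
    bc 2 3 (bot κ k 0 1 3 (R w1 1 2 (R w2 0 2 F))) P5_2 = bc 2 3 (bot κ k 0 1 3 F) P5_2 := by
  simp only [ev30] <;>
  ring

theorem t7 {w1 : Wt K} {w2 : Wt K} {κ : K} {k : K} (h : Eqs w1 w2 κ k) (F : Pat (Fin 4) → K) :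
    bc 2 3 (bot κ k 0 1 3 (R w1 1 2 (R w2 0 2 F))) P4_4 = bc 2 3 (bot κ k 0 1 3 F) P4_4 := by
  simp only [ev31, ev32] <;>
  ring

theorem t8 {w1 : Wt K} {w2 : Wt K} {κ : K} {k : K} (h : Eqs w1 w2 κ k) (F : Pat (Fin 5) → K) :
    bc 2 3 (bot κ k 0 1 3 (R w1 1 2 (R w2 0 2 F))) P5_5 = bc 2 3 (bot κ k 0 1 3 F) P5_5 := by
  simp only [ev33] <;>
  ring

theorem t9 {w1 : Wt K} {w2 : Wt K} {κ : K} {k : K} (h : Eqs w1 w2 κ k) (F : Pat (Fin 5) → K) :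
    bc 2 3 (bot κ k 0 1 3 (R w1 1 2 (R w2 0 2 F))) P5_6 = bc 2 3 (bot κ k 0 1 3 F) P5_6 := by
  simp only [ev34, ev35, ev36] <;>
  ring

theorem t10 {w1 : Wt K} {w2 : Wt K} {κ : K} {k : K} (h : Eqs w1 w2 κ k) (F : Pat (Fin 6) → K) :
    bc 2 3 (bot κ k 0 1 3 (R w1 1 2 (R w2 0 2 F))) P6_1 = bc 2 3 (bot κ k 0 1 3 F) P6_1 := by
  simp only [ev37, ev38] <;>
  ring

theorem t11 {w1 : Wt K} {w2 : Wt K} {κ : K} {k : K} (h : Eqs w1 w2 κ k) (F : Pat (Fin 5) → K) :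
    bc 2 3 (bot κ k 0 1 3 (R w1 1 2 (R w2 0 2 F))) P5_7 = bc 2 3 (bot κ k 0 1 3 F) P5_7 := by
  simp only [ev39] <;>
  ring

theorem t12 {w1 : Wt K} {w2 : Wt K} {κ : K} {k : K} (h : Eqs w1 w2 κ k) (F : Pat (Fin 6) → K) :
    bc 2 3 (bot κ k 0 1 3 (R w1 1 2 (R w2 0 2 F))) P6_2 = bc 2 3 (bot κ k 0 1 3 F) P6_2 := by
  simp only [ev40] <;>
  ring

theorem t13 {w1 : Wt K} {w2 : Wt K} {κ : K} {k : K} (h : Eqs w1 w2 κ k) (F : Pat (Fin 7) → K) :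
    bc 2 3 (bot κ k 0 1 3 (R w1 1 2 (R w2 0 2 F))) P7_0 = bc 2 3 (bot κ k 0 1 3 F) P7_0 := by
  simp only [ev41] <;>
  ring

theorem t14 {w1 : Wt K} {w2 : Wt K} {κ : K} {k : K} (h : Eqs w1 w2 κ k) (F : Pat (Fin 4) → K) :
    bc 2 3 (bot κ k 0 1 3 (R w1 1 2 (R w2 0 2 F))) P4_2 = bc 2 3 (bot κ k 0 1 3 F) P4_2 := by
  simp only [ev42, ev43, ev44] <;>
  ring

theorem t15 {w1 : Wt K} {w2 : Wt K} {κ : K} {k : K} (h : Eqs w1 w2 κ k) (F : Pat (Fin 5) → K) :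
    bc 2 3 (bot κ k 0 1 3 (R w1 1 2 (R w2 0 2 F))) P5_1 = bc 2 3 (bot κ k 0 1 3 F) P5_1 := by
  simp only [ev45, ev46] <;>
  ring

theorem t16 {w1 : Wt K} {w2 : Wt K} {κ : K} {k : K} (h : Eqs w1 w2 κ k) (F : Pat (Fin 4) → K) :
    bc 2 3 (bot κ k 0 1 3 (R w1 1 2 (R w2 0 2 F))) P4_5 = bc 2 3 (bot κ k 0 1 3 F) P4_5 := by
  simp only [ev47] <;>
  ring

theorem t17 {w1 : Wt K} {w2 : Wt K} {κ : K} {k : K} (h : Eqs w1 w2 κ k) (F : Pat (Fin 5) → K) :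
    bc 2 3 (bot κ k 0 1 3 (R w1 1 2 (R w2 0 2 F))) P5_8 = bc 2 3 (bot κ k 0 1 3 F) P5_8 := by
  simp only [ev48] <;>
  ring

theorem t18 {w1 : Wt K} {w2 : Wt K} {κ : K} {k : K} (h : Eqs w1 w2 κ k) (F : Pat (Fin 6) → K) :
    bc 2 3 (bot κ k 0 1 3 (R w1 1 2 (R w2 0 2 F))) P6_3 = bc 2 3 (bot κ k 0 1 3 F) P6_3 := by
  simp only [ev49] <;>
  ring

theorem t19 {w1 : Wt K} {w2 : Wt K} {κ : K} {k : K} (h : Eqs w1 w2 κ k) (F : Pat (Fin 4) → K) :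
    bc 2 3 (bot κ k 0 1 3 (R w1 1 2 (R w2 0 2 F))) P4_7 = bc 2 3 (bot κ k 0 1 3 F) P4_7 := by
  simp only [ev50] <;>
  ring

theorem t20 {w1 : Wt K} {w2 : Wt K} {κ : K} {k : K} (h : Eqs w1 w2 κ k) (F : Pat (Fin 5) → K) :
    bc 2 3 (bot κ k 0 1 3 (R w1 1 2 (R w2 0 2 F))) P5_3 = bc 2 3 (bot κ k 0 1 3 F) P5_3 := by
  simp only [ev51] <;>
  ring

theorem t21 {w1 : Wt K} {w2 : Wt K} {κ : K} {k : K} (h : Eqs w1 w2 κ k) (F : Pat (Fin 4) → K) :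
    bc 2 3 (bot κ k 0 1 3 (R w1 1 2 (R w2 0 2 F))) P4_8 = bc 2 3 (bot κ k 0 1 3 F) P4_8 := by
  simp only [ev52] <;>
  ring

theorem t22 {w1 : Wt K} {w2 : Wt K} {κ : K} {k : K} (h : Eqs w1 w2 κ k) (F : Pat (Fin 5) → K) :
    bc 2 3 (bot κ k 0 1 3 (R w1 1 2 (R w2 0 2 F))) P5_9 = bc 2 3 (bot κ k 0 1 3 F) P5_9 := by
  simp only [ev53] <;>
  ring

theorem t23 {w1 : Wt K} {w2 : Wt K} {κ : K} {k : K} (h : Eqs w1 w2 κ k) (F : Pat (Fin 6) → K) :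
    bc 2 3 (bot κ k 0 1 3 (R w1 1 2 (R w2 0 2 F))) P6_4 = bc 2 3 (bot κ k 0 1 3 F) P6_4 := by
  simp only [ev54] <;>
  ring

theorem t24 {w1 : Wt K} {w2 : Wt K} {κ : K} {k : K} (h : Eqs w1 w2 κ k) (F : Pat (Fin 4) → K) :
    bc 2 3 (bot κ k 0 1 3 (R w1 1 2 (R w2 0 2 F))) P4_3 = bc 2 3 (bot κ k 0 1 3 F) P4_3 := by
  simp only [ev55, ev56] <;>
  ring

theorem t25 {w1 : Wt K} {w2 : Wt K} {κ : K} {k : K} (h : Eqs w1 w2 κ k) (F : Pat (Fin 5) → K) :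
    bc 2 3 (bot κ k 0 1 3 (R w1 1 2 (R w2 0 2 F))) P5_10 = bc 2 3 (bot κ k 0 1 3 F) P5_10 := by
  simp only [ev57] <;>
  ring

theorem t26 {w1 : Wt K} {w2 : Wt K} {κ : K} {k : K} (h : Eqs w1 w2 κ k) (F : Pat (Fin 4) → K) :
    bc 2 3 (bot κ k 0 1 3 (R w1 1 2 (R w2 0 2 F))) P4_9 = bc 2 3 (bot κ k 0 1 3 F) P4_9 := by
  simp only [ev58] <;>
  ring

theorem t27 {w1 : Wt K} {w2 : Wt K} {κ : K} {k : K} (h : Eqs w1 w2 κ k) (F : Pat (Fin 5) → K) :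
    bc 2 3 (bot κ k 0 1 3 (R w1 1 2 (R w2 0 2 F))) P5_11 = bc 2 3 (bot κ k 0 1 3 F) P5_11 := by
  simp only [ev59, ev60] <;>
  ring

theorem t28 {w1 : Wt K} {w2 : Wt K} {κ : K} {k : K} (h : Eqs w1 w2 κ k) (F : Pat (Fin 6) → K) :
    bc 2 3 (bot κ k 0 1 3 (R w1 1 2 (R w2 0 2 F))) P6_5 = bc 2 3 (bot κ k 0 1 3 F) P6_5 := by
  simp only [ev61] <;>
  ring

theorem t29 {w1 : Wt K} {w2 : Wt K} {κ : K} {k : K} (h : Eqs w1 w2 κ k) (F : Pat (Fin 5) → K) :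
    bc 2 3 (bot κ k 0 1 3 (R w1 1 2 (R w2 0 2 F))) P5_12 = bc 2 3 (bot κ k 0 1 3 F) P5_12 := by
  simp only [ev62, ev63, ev64] <;>
  ring

theorem t30 {w1 : Wt K} {w2 : Wt K} {κ : K} {k : K} (h : Eqs w1 w2 κ k) (F : Pat (Fin 6) → K) :
    bc 2 3 (bot κ k 0 1 3 (R w1 1 2 (R w2 0 2 F))) P6_6 = bc 2 3 (bot κ k 0 1 3 F) P6_6 := by
  simp only [ev65, ev66] <;>
  ring

theorem t31 {w1 : Wt K} {w2 : Wt K} {κ : K} {k : K} (h : Eqs w1 w2 κ k) (F : Pat (Fin 5) → K) :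
    bc 2 3 (bot κ k 0 1 3 (R w1 1 2 (R w2 0 2 F))) P5_13 = bc 2 3 (bot κ k 0 1 3 F) P5_13 := by
  simp only [ev67] <;>
  ring

theorem t32 {w1 : Wt K} {w2 : Wt K} {κ : K} {k : K} (h : Eqs w1 w2 κ k) (F : Pat (Fin 6) → K) :
    bc 2 3 (bot κ k 0 1 3 (R w1 1 2 (R w2 0 2 F))) P6_7 = bc 2 3 (bot κ k 0 1 3 F) P6_7 := by
  simp only [ev68] <;>
  ring

theorem t33 {w1 : Wt K} {w2 : Wt K} {κ : K} {k : K} (h : Eqs w1 w2 κ k) (F : Pat (Fin 7) → K) :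
    bc 2 3 (bot κ k 0 1 3 (R w1 1 2 (R w2 0 2 F))) P7_1 = bc 2 3 (bot κ k 0 1 3 F) P7_1 := by
  simp only [ev69] <;>
  ring

theorem t34 {w1 : Wt K} {w2 : Wt K} {κ : K} {k : K} (h : Eqs w1 w2 κ k) (F : Pat (Fin 5) → K) :
    bc 2 3 (bot κ k 0 1 3 (R w1 1 2 (R w2 0 2 F))) P5_14 = bc 2 3 (bot κ k 0 1 3 F) P5_14 := by
  simp only [ev70] <;>
  ring

theorem t35 {w1 : Wt K} {w2 : Wt K} {κ : K} {k : K} (h : Eqs w1 w2 κ k) (F : Pat (Fin 6) → K) :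
    bc 2 3 (bot κ k 0 1 3 (R w1 1 2 (R w2 0 2 F))) P6_8 = bc 2 3 (bot κ k 0 1 3 F) P6_8 := by
  simp only [ev71] <;>
  ring

theorem t36 {w1 : Wt K} {w2 : Wt K} {κ : K} {k : K} (h : Eqs w1 w2 κ k) (F : Pat (Fin 5) → K) :
    bc 2 3 (bot κ k 0 1 3 (R w1 1 2 (R w2 0 2 F))) P5_15 = bc 2 3 (bot κ k 0 1 3 F) P5_15 := by
  simp only [ev72, ev73] <;>
  ring

theorem t37 {w1 : Wt K} {w2 : Wt K} {κ : K} {k : K} (h : Eqs w1 w2 κ k) (F : Pat (Fin 6) → K) :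
    bc 2 3 (bot κ k 0 1 3 (R w1 1 2 (R w2 0 2 F))) P6_9 = bc 2 3 (bot κ k 0 1 3 F) P6_9 := by
  simp only [ev74] <;>
  ring

theorem t38 {w1 : Wt K} {w2 : Wt K} {κ : K} {k : K} (h : Eqs w1 w2 κ k) (F : Pat (Fin 6) → K) :
    bc 2 3 (bot κ k 0 1 3 (R w1 1 2 (R w2 0 2 F))) P6_10 = bc 2 3 (bot κ k 0 1 3 F) P6_10 := by
  simp only [ev75, ev76, ev77] <;>
  ring

theorem t39 {w1 : Wt K} {w2 : Wt K} {κ : K} {k : K} (h : Eqs w1 w2 κ k) (F : Pat (Fin 7) → K) :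
    bc 2 3 (bot κ k 0 1 3 (R w1 1 2 (R w2 0 2 F))) P7_2 = bc 2 3 (bot κ k 0 1 3 F) P7_2 := by
  simp only [ev78, ev79] <;>
  ring

theorem t40 {w1 : Wt K} {w2 : Wt K} {κ : K} {k : K} (h : Eqs w1 w2 κ k) (F : Pat (Fin 6) → K) :
    bc 2 3 (bot κ k 0 1 3 (R w1 1 2 (R w2 0 2 F))) P6_11 = bc 2 3 (bot κ k 0 1 3 F) P6_11 := by
  simp only [ev80] <;>
  ring

theorem t41 {w1 : Wt K} {w2 : Wt K} {κ : K} {k : K} (h : Eqs w1 w2 κ k) (F : Pat (Fin 7) → K) :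
    bc 2 3 (bot κ k 0 1 3 (R w1 1 2 (R w2 0 2 F))) P7_3 = bc 2 3 (bot κ k 0 1 3 F) P7_3 := by
  simp only [ev81] <;>
  ring

theorem t42 {w1 : Wt K} {w2 : Wt K} {κ : K} {k : K} (h : Eqs w1 w2 κ k) (F : Pat (Fin 8) → K) :
    bc 2 3 (bot κ k 0 1 3 (R w1 1 2 (R w2 0 2 F))) P8_0 = bc 2 3 (bot κ k 0 1 3 F) P8_0 := by
  simp only [ev82] <;>
  ring

theorem case {w1 : Wt K} {w2 : Wt K} {κ : K} {k : K} {p : Pat α} {m : ℕ} (φ : Fin m → α) (inj : Function.Injective φ)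
    (q : Pat (Fin m)) (hq : ∀ x, p (φ x) = φ (q x)) (l r c b : Fin m)
    (H : ∀ F : Pat (Fin m) → K, (bc c b (bot κ k l r b (R w1 r c (R w2 l c F)))) q = (bc c b (bot κ k l r b F)) q)
    (F : Pat α → K) :
    (bc (φ c) (φ b) (bot κ k (φ l) (φ r) (φ b) (R w1 (φ r) (φ c) (R w2 (φ l) (φ c) F)))) p = (bc (φ c) (φ b) (bot κ k (φ l) (φ r) (φ b) F)) p := by
  let E : Pat.Emb (Fin m) α := ⟨φ, inj, p, fun x => ⟨q x, hq x⟩⟩
  have hst : E.st q = p := E.st_eq hq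
  have key := H (fun r => F (E.st r))
  have e1 : (bc (E.φ c) (E.φ b) (bot κ k (E.φ l) (E.φ r) (E.φ b) (R w1 (E.φ r) (E.φ c) (R w2 (E.φ l) (E.φ c) F)))) (E.st q) = (bc c b (bot κ k l r b (R w1 r c (R w2 l c (fun r => F (E.st r)))))) q := by
    simp only [R_st, bc_st, bot_st]
  have e2 : (bc (E.φ c) (E.φ b) (bot κ k (E.φ l) (E.φ r) (E.φ b) F)) (E.st q) = (bc c b (bot κ k l r b (fun r => F (E.st r)))) q := by
    simp only [R_st, bc_st, bot_st]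
  rw [hst] at e1 e2
  exact e1.trans (key.trans e2.symm)

omit [DecidableEq α] in
theorem inj4 {a0 a1 a2 a3 : α} (h0_1 : a0 ≠ a1) (h0_2 : a0 ≠ a2) (h0_3 : a0 ≠ a3) (h1_2 : a1 ≠ a2) (h1_3 : a1 ≠ a3) (h2_3 : a2 ≠ a3) :
    Function.Injective ![a0, a1, a2, a3] := by
  intro x y hxy
  fin_cases x <;> fin_cases y <;> simp_all

omit [DecidableEq α] in
theorem inj5 {a0 a1 a2 a3 a4 : α} (h0_1 : a0 ≠ a1) (h0_2 : a0 ≠ a2) (h0_3 : a0 ≠ a3) (h0_4 : a0 ≠ a4) (h1_2 : a1 ≠ a2) (h1_3 : a1 ≠ a3) (h1_4 : a1 ≠ a4) (h2_3 : a2 ≠ a3) (h2_4 : a2 ≠ a4) (h3_4 : a3 ≠ a4) :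
    Function.Injective ![a0, a1, a2, a3, a4] := by
  intro x y hxy
  fin_cases x <;> fin_cases y <;> simp_all

omit [DecidableEq α] in
theorem inj6 {a0 a1 a2 a3 a4 a5 : α} (h0_1 : a0 ≠ a1) (h0_2 : a0 ≠ a2) (h0_3 : a0 ≠ a3) (h0_4 : a0 ≠ a4) (h0_5 : a0 ≠ a5) (h1_2 : a1 ≠ a2) (h1_3 : a1 ≠ a3) (h1_4 : a1 ≠ a4) (h1_5 : a1 ≠ a5) (h2_3 : a2 ≠ a3) (h2_4 : a2 ≠ a4) (h2_5 : a2 ≠ a5) (h3_4 : a3 ≠ a4) (h3_5 : a3 ≠ a5) (h4_5 : a4 ≠ a5) :
    Function.Injective ![a0, a1, a2, a3, a4, a5] := by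
  intro x y hxy
  fin_cases x <;> fin_cases y <;> simp_all

omit [DecidableEq α] in
theorem inj7 {a0 a1 a2 a3 a4 a5 a6 : α} (h0_1 : a0 ≠ a1) (h0_2 : a0 ≠ a2) (h0_3 : a0 ≠ a3) (h0_4 : a0 ≠ a4) (h0_5 : a0 ≠ a5) (h0_6 : a0 ≠ a6) (h1_2 : a1 ≠ a2) (h1_3 : a1 ≠ a3) (h1_4 : a1 ≠ a4) (h1_5 : a1 ≠ a5) (h1_6 : a1 ≠ a6) (h2_3 : a2 ≠ a3) (h2_4 : a2 ≠ a4) (h2_5 : a2 ≠ a5) (h2_6 : a2 ≠ a6) (h3_4 : a3 ≠ a4) (h3_5 : a3 ≠ a5) (h3_6 : a3 ≠ a6) (h4_5 : a4 ≠ a5) (h4_6 : a4 ≠ a6) (h5_6 : a5 ≠ a6) :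
    Function.Injective ![a0, a1, a2, a3, a4, a5, a6] := by
  intro x y hxy
  fin_cases x <;> fin_cases y <;> simp_all

omit [DecidableEq α] in
theorem inj8 {a0 a1 a2 a3 a4 a5 a6 a7 : α} (h0_1 : a0 ≠ a1) (h0_2 : a0 ≠ a2) (h0_3 : a0 ≠ a3) (h0_4 : a0 ≠ a4) (h0_5 : a0 ≠ a5) (h0_6 : a0 ≠ a6) (h0_7 : a0 ≠ a7) (h1_2 : a1 ≠ a2) (h1_3 : a1 ≠ a3) (h1_4 : a1 ≠ a4) (h1_5 : a1 ≠ a5) (h1_6 : a1 ≠ a6) (h1_7 : a1 ≠ a7) (h2_3 : a2 ≠ a3) (h2_4 : a2 ≠ a4) (h2_5 : a2 ≠ a5) (h2_6 : a2 ≠ a6) (h2_7 : a2 ≠ a7) (h3_4 : a3 ≠ a4) (h3_5 : a3 ≠ a5) (h3_6 : a3 ≠ a6) (h3_7 : a3 ≠ a7) (h4_5 : a4 ≠ a5) (h4_6 : a4 ≠ a6) (h4_7 : a4 ≠ a7) (h5_6 : a5 ≠ a6) (h5_7 : a5 ≠ a7) (h6_7 : a6 ≠ a7) :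
    Function.Injective ![a0, a1, a2, a3, a4, a5, a6, a7] := by
  intro x y hxy
  fin_cases x <;> fin_cases y <;> simp_all

/-- **CF** -/
theorem main {w1 : Wt K} {w2 : Wt K} {κ : K} {k : K} (h : Eqs w1 w2 κ k) {l r c b : α} (hlr : l ≠ r) (hlc : l ≠ c) (hlb : l ≠ b) (hrc : r ≠ c) (hrb : r ≠ b) (hcb : c ≠ b) (F : Pat α → K) :
    bc c b (bot κ k l r b (R w1 r c (R w2 l c F))) = bc c b (bot κ k l r b F) := by
  funext p
  by_cases Xq0 : p l = l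
  · by_cases Xq1 : p r = r
    · by_cases Xq2 : p c = c
      · by_cases Xq3 : p b = b
        · exact case ![l, r, c, b] (inj4 hlr hlc hlb hrc hrb hcb) P4_0 (by
            intro x; fin_cases x <;> simp [P4_0, Xq0, Xq1, Xq2, Xq3]) 0 1 2 3 (fun F => t0 h F) F
        · have Xn3_0 : p b ≠ l := (fun e => hlb ((Xq0).symm.trans (p.eq_comm'.1 e)))
          have Xn3_1 : p b ≠ r := (fun e => hrb ((Xq1).symm.trans (p.eq_comm'.1 e)))
          have Xn3_2 : p b ≠ c := (fun e => hcb ((Xq2).symm.trans (p.eq_comm'.1 e)))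
          exact case ![l, r, c, b, p b] (inj5 hlr hlc hlb (Ne.symm Xn3_0) hrc hrb (Ne.symm Xn3_1) hcb (Ne.symm Xn3_2) (Ne.symm Xq3)) P5_0 (by
            intro x; fin_cases x <;> simp [P5_0, Xq0, Xq1, Xq2]) 0 1 2 3 (fun F => t1 h F) F
      · by_cases Xq2_3 : p c = b
        · have Xr3 : p b = c := p.eq_comm'.1 Xq2_3
          exact case ![l, r, c, b] (inj4 hlr hlc hlb hrc hrb hcb) P4_1 (by
            intro x; fin_cases x <;> simp [P4_1, Xq0, Xq1, Xq2_3, Xr3]) 0 1 2 3 (fun F => t2 h F) F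
        · by_cases Xq3 : p b = b
          · have Xn2_0 : p c ≠ l := (fun e => hlc ((Xq0).symm.trans (p.eq_comm'.1 e)))
            have Xn2_1 : p c ≠ r := (fun e => hrc ((Xq1).symm.trans (p.eq_comm'.1 e)))
            exact case ![l, r, c, b, p c] (inj5 hlr hlc hlb (Ne.symm Xn2_0) hrc hrb (Ne.symm Xn2_1) hcb (Ne.symm Xq2) (Ne.symm Xq2_3)) P5_4 (by
              intro x; fin_cases x <;> simp [P5_4, Xq0, Xq1, Xq3]) 0 1 2 3 (fun F => t3 h F) F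
          · have Xn2_0 : p c ≠ l := (fun e => hlc ((Xq0).symm.trans (p.eq_comm'.1 e)))
            have Xn2_1 : p c ≠ r := (fun e => hrc ((Xq1).symm.trans (p.eq_comm'.1 e)))
            have Xn3_0 : p b ≠ l := (fun e => hlb ((Xq0).symm.trans (p.eq_comm'.1 e)))
            have Xn3_1 : p b ≠ r := (fun e => hrb ((Xq1).symm.trans (p.eq_comm'.1 e)))
            have Xn3_2 : p b ≠ c := (fun e => Xq2_3 (p.eq_comm'.1 e))
            exact case ![l, r, c, b, p c, p b] (inj6 hlr hlc hlb (Ne.symm Xn2_0) (Ne.symm Xn3_0) hrc hrb (Ne.symm Xn2_1) (Ne.symm Xn3_1) hcb (Ne.symm Xq2) (Ne.symm Xn3_2) (Ne.symm Xq2_3) (Ne.symm Xq3) (fun e => hcb (p.inj e))) P6_0 (by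
              intro x; fin_cases x <;> simp [P6_0, Xq0, Xq1]) 0 1 2 3 (fun F => t4 h F) F
    · by_cases Xq1_2 : p r = c
      · have Xr2 : p c = r := p.eq_comm'.1 Xq1_2
        by_cases Xq3 : p b = b
        · exact case ![l, r, c, b] (inj4 hlr hlc hlb hrc hrb hcb) P4_6 (by
            intro x; fin_cases x <;> simp [P4_6, Xq0, Xq1_2, Xr2, Xq3]) 0 1 2 3 (fun F => t5 h F) F
        · have Xn3_0 : p b ≠ l := (fun e => hlb ((Xq0).symm.trans (p.eq_comm'.1 e)))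
          have Xn3_1 : p b ≠ r := (fun e => hcb ((Xq1_2).symm.trans (p.eq_comm'.1 e)))
          have Xn3_2 : p b ≠ c := (fun e => hrb ((Xr2).symm.trans (p.eq_comm'.1 e)))
          exact case ![l, r, c, b, p b] (inj5 hlr hlc hlb (Ne.symm Xn3_0) hrc hrb (Ne.symm Xn3_1) hcb (Ne.symm Xn3_2) (Ne.symm Xq3)) P5_2 (by
            intro x; fin_cases x <;> simp [P5_2, Xq0, Xq1_2, Xr2]) 0 1 2 3 (fun F => t6 h F) F
      · by_cases Xq1_3 : p r = b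
        · have Xr3 : p b = r := p.eq_comm'.1 Xq1_3
          by_cases Xq2 : p c = c
          · exact case ![l, r, c, b] (inj4 hlr hlc hlb hrc hrb hcb) P4_4 (by
              intro x; fin_cases x <;> simp [P4_4, Xq0, Xq1_3, Xq2, Xr3]) 0 1 2 3 (fun F => t7 h F) F
          · have Xn2_0 : p c ≠ l := (fun e => hlc ((Xq0).symm.trans (p.eq_comm'.1 e)))
            have Xn2_1 : p c ≠ r := (fun e => (Ne.symm hcb) ((Xq1_3).symm.trans (p.eq_comm'.1 e)))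
            have Xn2_3 : p c ≠ b := (fun e => hrc ((Xr3).symm.trans (p.eq_comm'.1 e)))
            exact case ![l, r, c, b, p c] (inj5 hlr hlc hlb (Ne.symm Xn2_0) hrc hrb (Ne.symm Xn2_1) hcb (Ne.symm Xq2) (Ne.symm Xn2_3)) P5_5 (by
              intro x; fin_cases x <;> simp [P5_5, Xq0, Xq1_3, Xr3]) 0 1 2 3 (fun F => t8 h F) F
        · by_cases Xq2 : p c = c
          · by_cases Xq3 : p b = b
            · have Xn1_0 : p r ≠ l := (fun e => hlr ((Xq0).symm.trans (p.eq_comm'.1 e)))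
              exact case ![l, r, c, b, p r] (inj5 hlr hlc hlb (Ne.symm Xn1_0) hrc hrb (Ne.symm Xq1) hcb (Ne.symm Xq1_2) (Ne.symm Xq1_3)) P5_6 (by
                intro x; fin_cases x <;> simp [P5_6, Xq0, Xq2, Xq3]) 0 1 2 3 (fun F => t9 h F) F
            · have Xn1_0 : p r ≠ l := (fun e => hlr ((Xq0).symm.trans (p.eq_comm'.1 e)))
              have Xn3_0 : p b ≠ l := (fun e => hlb ((Xq0).symm.trans (p.eq_comm'.1 e)))
              have Xn3_1 : p b ≠ r := (fun e => Xq1_3 (p.eq_comm'.1 e))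
              have Xn3_2 : p b ≠ c := (fun e => hcb ((Xq2).symm.trans (p.eq_comm'.1 e)))
              exact case ![l, r, c, b, p r, p b] (inj6 hlr hlc hlb (Ne.symm Xn1_0) (Ne.symm Xn3_0) hrc hrb (Ne.symm Xq1) (Ne.symm Xn3_1) hcb (Ne.symm Xq1_2) (Ne.symm Xn3_2) (Ne.symm Xq1_3) (Ne.symm Xq3) (fun e => hrb (p.inj e))) P6_1 (by
                intro x; fin_cases x <;> simp [P6_1, Xq0, Xq2]) 0 1 2 3 (fun F => t10 h F) F
          · by_cases Xq2_3 : p c = b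
            · have Xr3 : p b = c := p.eq_comm'.1 Xq2_3
              have Xn1_0 : p r ≠ l := (fun e => hlr ((Xq0).symm.trans (p.eq_comm'.1 e)))
              exact case ![l, r, c, b, p r] (inj5 hlr hlc hlb (Ne.symm Xn1_0) hrc hrb (Ne.symm Xq1) hcb (Ne.symm Xq1_2) (Ne.symm Xq1_3)) P5_7 (by
                intro x; fin_cases x <;> simp [P5_7, Xq0, Xq2_3, Xr3]) 0 1 2 3 (fun F => t11 h F) F
            · by_cases Xq3 : p b = b
              · have Xn1_0 : p r ≠ l := (fun e => hlr ((Xq0).symm.trans (p.eq_comm'.1 e)))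
                have Xn2_0 : p c ≠ l := (fun e => hlc ((Xq0).symm.trans (p.eq_comm'.1 e)))
                have Xn2_1 : p c ≠ r := (fun e => Xq1_2 (p.eq_comm'.1 e))
                exact case ![l, r, c, b, p r, p c] (inj6 hlr hlc hlb (Ne.symm Xn1_0) (Ne.symm Xn2_0) hrc hrb (Ne.symm Xq1) (Ne.symm Xn2_1) hcb (Ne.symm Xq1_2) (Ne.symm Xq2) (Ne.symm Xq1_3) (Ne.symm Xq2_3) (fun e => hrc (p.inj e))) P6_2 (by
                  intro x; fin_cases x <;> simp [P6_2, Xq0, Xq3]) 0 1 2 3 (fun F => t12 h F) F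
              · have Xn1_0 : p r ≠ l := (fun e => hlr ((Xq0).symm.trans (p.eq_comm'.1 e)))
                have Xn2_0 : p c ≠ l := (fun e => hlc ((Xq0).symm.trans (p.eq_comm'.1 e)))
                have Xn2_1 : p c ≠ r := (fun e => Xq1_2 (p.eq_comm'.1 e))
                have Xn3_0 : p b ≠ l := (fun e => hlb ((Xq0).symm.trans (p.eq_comm'.1 e)))
                have Xn3_1 : p b ≠ r := (fun e => Xq1_3 (p.eq_comm'.1 e))
                have Xn3_2 : p b ≠ c := (fun e => Xq2_3 (p.eq_comm'.1 e))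
                exact case ![l, r, c, b, p r, p c, p b] (inj7 hlr hlc hlb (Ne.symm Xn1_0) (Ne.symm Xn2_0) (Ne.symm Xn3_0) hrc hrb (Ne.symm Xq1) (Ne.symm Xn2_1) (Ne.symm Xn3_1) hcb (Ne.symm Xq1_2) (Ne.symm Xq2) (Ne.symm Xn3_2) (Ne.symm Xq1_3) (Ne.symm Xq2_3) (Ne.symm Xq3) (fun e => hrc (p.inj e)) (fun e => hrb (p.inj e)) (fun e => hcb (p.inj e))) P7_0 (by
                  intro x; fin_cases x <;> simp [P7_0, Xq0]) 0 1 2 3 (fun F => t13 h F) F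
  · by_cases Xq0_1 : p l = r
    · have Xr1 : p r = l := p.eq_comm'.1 Xq0_1
      by_cases Xq2 : p c = c
      · by_cases Xq3 : p b = b
        · exact case ![l, r, c, b] (inj4 hlr hlc hlb hrc hrb hcb) P4_2 (by
            intro x; fin_cases x <;> simp [P4_2, Xq0_1, Xr1, Xq2, Xq3]) 0 1 2 3 (fun F => t14 h F) F
        · have Xn3_0 : p b ≠ l := (fun e => hrb ((Xq0_1).symm.trans (p.eq_comm'.1 e)))
          have Xn3_1 : p b ≠ r := (fun e => hlb ((Xr1).symm.trans (p.eq_comm'.1 e)))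
          have Xn3_2 : p b ≠ c := (fun e => hcb ((Xq2).symm.trans (p.eq_comm'.1 e)))
          exact case ![l, r, c, b, p b] (inj5 hlr hlc hlb (Ne.symm Xn3_0) hrc hrb (Ne.symm Xn3_1) hcb (Ne.symm Xn3_2) (Ne.symm Xq3)) P5_1 (by
            intro x; fin_cases x <;> simp [P5_1, Xq0_1, Xr1, Xq2]) 0 1 2 3 (fun F => t15 h F) F
      · by_cases Xq2_3 : p c = b
        · have Xr3 : p b = c := p.eq_comm'.1 Xq2_3
          exact case ![l, r, c, b] (inj4 hlr hlc hlb hrc hrb hcb) P4_5 (by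
            intro x; fin_cases x <;> simp [P4_5, Xq0_1, Xr1, Xq2_3, Xr3]) 0 1 2 3 (fun F => t16 h F) F
        · by_cases Xq3 : p b = b
          · have Xn2_0 : p c ≠ l := (fun e => hrc ((Xq0_1).symm.trans (p.eq_comm'.1 e)))
            have Xn2_1 : p c ≠ r := (fun e => hlc ((Xr1).symm.trans (p.eq_comm'.1 e)))
            exact case ![l, r, c, b, p c] (inj5 hlr hlc hlb (Ne.symm Xn2_0) hrc hrb (Ne.symm Xn2_1) hcb (Ne.symm Xq2) (Ne.symm Xq2_3)) P5_8 (by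
              intro x; fin_cases x <;> simp [P5_8, Xq0_1, Xr1, Xq3]) 0 1 2 3 (fun F => t17 h F) F
          · have Xn2_0 : p c ≠ l := (fun e => hrc ((Xq0_1).symm.trans (p.eq_comm'.1 e)))
            have Xn2_1 : p c ≠ r := (fun e => hlc ((Xr1).symm.trans (p.eq_comm'.1 e)))
            have Xn3_0 : p b ≠ l := (fun e => hrb ((Xq0_1).symm.trans (p.eq_comm'.1 e)))
            have Xn3_1 : p b ≠ r := (fun e => hlb ((Xr1).symm.trans (p.eq_comm'.1 e)))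
            have Xn3_2 : p b ≠ c := (fun e => Xq2_3 (p.eq_comm'.1 e))
            exact case ![l, r, c, b, p c, p b] (inj6 hlr hlc hlb (Ne.symm Xn2_0) (Ne.symm Xn3_0) hrc hrb (Ne.symm Xn2_1) (Ne.symm Xn3_1) hcb (Ne.symm Xq2) (Ne.symm Xn3_2) (Ne.symm Xq2_3) (Ne.symm Xq3) (fun e => hcb (p.inj e))) P6_3 (by
              intro x; fin_cases x <;> simp [P6_3, Xq0_1, Xr1]) 0 1 2 3 (fun F => t18 h F) F
    · by_cases Xq0_2 : p l = c
      · have Xr2 : p c = l := p.eq_comm'.1 Xq0_2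
        by_cases Xq1 : p r = r
        · by_cases Xq3 : p b = b
          · exact case ![l, r, c, b] (inj4 hlr hlc hlb hrc hrb hcb) P4_7 (by
              intro x; fin_cases x <;> simp [P4_7, Xq0_2, Xq1, Xr2, Xq3]) 0 1 2 3 (fun F => t19 h F) F
          · have Xn3_0 : p b ≠ l := (fun e => hcb ((Xq0_2).symm.trans (p.eq_comm'.1 e)))
            have Xn3_1 : p b ≠ r := (fun e => hrb ((Xq1).symm.trans (p.eq_comm'.1 e)))
            have Xn3_2 : p b ≠ c := (fun e => hlb ((Xr2).symm.trans (p.eq_comm'.1 e)))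
            exact case ![l, r, c, b, p b] (inj5 hlr hlc hlb (Ne.symm Xn3_0) hrc hrb (Ne.symm Xn3_1) hcb (Ne.symm Xn3_2) (Ne.symm Xq3)) P5_3 (by
              intro x; fin_cases x <;> simp [P5_3, Xq0_2, Xq1, Xr2]) 0 1 2 3 (fun F => t20 h F) F
        · by_cases Xq1_3 : p r = b
          · have Xr3 : p b = r := p.eq_comm'.1 Xq1_3
            exact case ![l, r, c, b] (inj4 hlr hlc hlb hrc hrb hcb) P4_8 (by
              intro x; fin_cases x <;> simp [P4_8, Xq0_2, Xq1_3, Xr2, Xr3]) 0 1 2 3 (fun F => t21 h F) F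
          · by_cases Xq3 : p b = b
            · have Xn1_0 : p r ≠ l := (fun e => (Ne.symm hrc) ((Xq0_2).symm.trans (p.eq_comm'.1 e)))
              have Xn1_2 : p r ≠ c := (fun e => hlr ((Xr2).symm.trans (p.eq_comm'.1 e)))
              exact case ![l, r, c, b, p r] (inj5 hlr hlc hlb (Ne.symm Xn1_0) hrc hrb (Ne.symm Xq1) hcb (Ne.symm Xn1_2) (Ne.symm Xq1_3)) P5_9 (by
                intro x; fin_cases x <;> simp [P5_9, Xq0_2, Xr2, Xq3]) 0 1 2 3 (fun F => t22 h F) F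
            · have Xn1_0 : p r ≠ l := (fun e => (Ne.symm hrc) ((Xq0_2).symm.trans (p.eq_comm'.1 e)))
              have Xn1_2 : p r ≠ c := (fun e => hlr ((Xr2).symm.trans (p.eq_comm'.1 e)))
              have Xn3_0 : p b ≠ l := (fun e => hcb ((Xq0_2).symm.trans (p.eq_comm'.1 e)))
              have Xn3_1 : p b ≠ r := (fun e => Xq1_3 (p.eq_comm'.1 e))
              have Xn3_2 : p b ≠ c := (fun e => hlb ((Xr2).symm.trans (p.eq_comm'.1 e)))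
              exact case ![l, r, c, b, p r, p b] (inj6 hlr hlc hlb (Ne.symm Xn1_0) (Ne.symm Xn3_0) hrc hrb (Ne.symm Xq1) (Ne.symm Xn3_1) hcb (Ne.symm Xn1_2) (Ne.symm Xn3_2) (Ne.symm Xq1_3) (Ne.symm Xq3) (fun e => hrb (p.inj e))) P6_4 (by
                intro x; fin_cases x <;> simp [P6_4, Xq0_2, Xr2]) 0 1 2 3 (fun F => t23 h F) F
      · by_cases Xq0_3 : p l = b
        · have Xr3 : p b = l := p.eq_comm'.1 Xq0_3
          by_cases Xq1 : p r = r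
          · by_cases Xq2 : p c = c
            · exact case ![l, r, c, b] (inj4 hlr hlc hlb hrc hrb hcb) P4_3 (by
                intro x; fin_cases x <;> simp [P4_3, Xq0_3, Xq1, Xq2, Xr3]) 0 1 2 3 (fun F => t24 h F) F
            · have Xn2_0 : p c ≠ l := (fun e => (Ne.symm hcb) ((Xq0_3).symm.trans (p.eq_comm'.1 e)))
              have Xn2_1 : p c ≠ r := (fun e => hrc ((Xq1).symm.trans (p.eq_comm'.1 e)))
              have Xn2_3 : p c ≠ b := (fun e => hlc ((Xr3).symm.trans (p.eq_comm'.1 e)))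
              exact case ![l, r, c, b, p c] (inj5 hlr hlc hlb (Ne.symm Xn2_0) hrc hrb (Ne.symm Xn2_1) hcb (Ne.symm Xq2) (Ne.symm Xn2_3)) P5_10 (by
                intro x; fin_cases x <;> simp [P5_10, Xq0_3, Xq1, Xr3]) 0 1 2 3 (fun F => t25 h F) F
          · by_cases Xq1_2 : p r = c
            · have Xr2 : p c = r := p.eq_comm'.1 Xq1_2
              exact case ![l, r, c, b] (inj4 hlr hlc hlb hrc hrb hcb) P4_9 (by
                intro x; fin_cases x <;> simp [P4_9, Xq0_3, Xq1_2, Xr2, Xr3]) 0 1 2 3 (fun F => t26 h F) F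
            · by_cases Xq2 : p c = c
              · have Xn1_0 : p r ≠ l := (fun e => (Ne.symm hrb) ((Xq0_3).symm.trans (p.eq_comm'.1 e)))
                have Xn1_3 : p r ≠ b := (fun e => hlr ((Xr3).symm.trans (p.eq_comm'.1 e)))
                exact case ![l, r, c, b, p r] (inj5 hlr hlc hlb (Ne.symm Xn1_0) hrc hrb (Ne.symm Xq1) hcb (Ne.symm Xq1_2) (Ne.symm Xn1_3)) P5_11 (by
                  intro x; fin_cases x <;> simp [P5_11, Xq0_3, Xq2, Xr3]) 0 1 2 3 (fun F => t27 h F) F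
              · have Xn1_0 : p r ≠ l := (fun e => (Ne.symm hrb) ((Xq0_3).symm.trans (p.eq_comm'.1 e)))
                have Xn1_3 : p r ≠ b := (fun e => hlr ((Xr3).symm.trans (p.eq_comm'.1 e)))
                have Xn2_0 : p c ≠ l := (fun e => (Ne.symm hcb) ((Xq0_3).symm.trans (p.eq_comm'.1 e)))
                have Xn2_1 : p c ≠ r := (fun e => Xq1_2 (p.eq_comm'.1 e))
                have Xn2_3 : p c ≠ b := (fun e => hlc ((Xr3).symm.trans (p.eq_comm'.1 e)))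
                exact case ![l, r, c, b, p r, p c] (inj6 hlr hlc hlb (Ne.symm Xn1_0) (Ne.symm Xn2_0) hrc hrb (Ne.symm Xq1) (Ne.symm Xn2_1) hcb (Ne.symm Xq1_2) (Ne.symm Xq2) (Ne.symm Xn1_3) (Ne.symm Xn2_3) (fun e => hrc (p.inj e))) P6_5 (by
                  intro x; fin_cases x <;> simp [P6_5, Xq0_3, Xr3]) 0 1 2 3 (fun F => t28 h F) F
        · by_cases Xq1 : p r = r
          · by_cases Xq2 : p c = c
            · by_cases Xq3 : p b = b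
              · exact case ![l, r, c, b, p l] (inj5 hlr hlc hlb (Ne.symm Xq0) hrc hrb (Ne.symm Xq0_1) hcb (Ne.symm Xq0_2) (Ne.symm Xq0_3)) P5_12 (by
                  intro x; fin_cases x <;> simp [P5_12, Xq1, Xq2, Xq3]) 0 1 2 3 (fun F => t29 h F) F
              · have Xn3_0 : p b ≠ l := (fun e => Xq0_3 (p.eq_comm'.1 e))
                have Xn3_1 : p b ≠ r := (fun e => hrb ((Xq1).symm.trans (p.eq_comm'.1 e)))
                have Xn3_2 : p b ≠ c := (fun e => hcb ((Xq2).symm.trans (p.eq_comm'.1 e)))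
                exact case ![l, r, c, b, p l, p b] (inj6 hlr hlc hlb (Ne.symm Xq0) (Ne.symm Xn3_0) hrc hrb (Ne.symm Xq0_1) (Ne.symm Xn3_1) hcb (Ne.symm Xq0_2) (Ne.symm Xn3_2) (Ne.symm Xq0_3) (Ne.symm Xq3) (fun e => hlb (p.inj e))) P6_6 (by
                  intro x; fin_cases x <;> simp [P6_6, Xq1, Xq2]) 0 1 2 3 (fun F => t30 h F) F
            · by_cases Xq2_3 : p c = b
              · have Xr3 : p b = c := p.eq_comm'.1 Xq2_3
                exact case ![l, r, c, b, p l] (inj5 hlr hlc hlb (Ne.symm Xq0) hrc hrb (Ne.symm Xq0_1) hcb (Ne.symm Xq0_2) (Ne.symm Xq0_3)) P5_13 (by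
                  intro x; fin_cases x <;> simp [P5_13, Xq1, Xq2_3, Xr3]) 0 1 2 3 (fun F => t31 h F) F
              · by_cases Xq3 : p b = b
                · have Xn2_0 : p c ≠ l := (fun e => Xq0_2 (p.eq_comm'.1 e))
                  have Xn2_1 : p c ≠ r := (fun e => hrc ((Xq1).symm.trans (p.eq_comm'.1 e)))
                  exact case ![l, r, c, b, p l, p c] (inj6 hlr hlc hlb (Ne.symm Xq0) (Ne.symm Xn2_0) hrc hrb (Ne.symm Xq0_1) (Ne.symm Xn2_1) hcb (Ne.symm Xq0_2) (Ne.symm Xq2) (Ne.symm Xq0_3) (Ne.symm Xq2_3) (fun e => hlc (p.inj e))) P6_7 (by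
                    intro x; fin_cases x <;> simp [P6_7, Xq1, Xq3]) 0 1 2 3 (fun F => t32 h F) F
                · have Xn2_0 : p c ≠ l := (fun e => Xq0_2 (p.eq_comm'.1 e))
                  have Xn2_1 : p c ≠ r := (fun e => hrc ((Xq1).symm.trans (p.eq_comm'.1 e)))
                  have Xn3_0 : p b ≠ l := (fun e => Xq0_3 (p.eq_comm'.1 e))
                  have Xn3_1 : p b ≠ r := (fun e => hrb ((Xq1).symm.trans (p.eq_comm'.1 e)))
                  have Xn3_2 : p b ≠ c := (fun e => Xq2_3 (p.eq_comm'.1 e))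
                  exact case ![l, r, c, b, p l, p c, p b] (inj7 hlr hlc hlb (Ne.symm Xq0) (Ne.symm Xn2_0) (Ne.symm Xn3_0) hrc hrb (Ne.symm Xq0_1) (Ne.symm Xn2_1) (Ne.symm Xn3_1) hcb (Ne.symm Xq0_2) (Ne.symm Xq2) (Ne.symm Xn3_2) (Ne.symm Xq0_3) (Ne.symm Xq2_3) (Ne.symm Xq3) (fun e => hlc (p.inj e)) (fun e => hlb (p.inj e)) (fun e => hcb (p.inj e))) P7_1 (by
                    intro x; fin_cases x <;> simp [P7_1, Xq1]) 0 1 2 3 (fun F => t33 h F) F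
          · by_cases Xq1_2 : p r = c
            · have Xr2 : p c = r := p.eq_comm'.1 Xq1_2
              by_cases Xq3 : p b = b
              · exact case ![l, r, c, b, p l] (inj5 hlr hlc hlb (Ne.symm Xq0) hrc hrb (Ne.symm Xq0_1) hcb (Ne.symm Xq0_2) (Ne.symm Xq0_3)) P5_14 (by
                  intro x; fin_cases x <;> simp [P5_14, Xq1_2, Xr2, Xq3]) 0 1 2 3 (fun F => t34 h F) F
              · have Xn3_0 : p b ≠ l := (fun e => Xq0_3 (p.eq_comm'.1 e))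
                have Xn3_1 : p b ≠ r := (fun e => hcb ((Xq1_2).symm.trans (p.eq_comm'.1 e)))
                have Xn3_2 : p b ≠ c := (fun e => hrb ((Xr2).symm.trans (p.eq_comm'.1 e)))
                exact case ![l, r, c, b, p l, p b] (inj6 hlr hlc hlb (Ne.symm Xq0) (Ne.symm Xn3_0) hrc hrb (Ne.symm Xq0_1) (Ne.symm Xn3_1) hcb (Ne.symm Xq0_2) (Ne.symm Xn3_2) (Ne.symm Xq0_3) (Ne.symm Xq3) (fun e => hlb (p.inj e))) P6_8 (by
                  intro x; fin_cases x <;> simp [P6_8, Xq1_2, Xr2]) 0 1 2 3 (fun F => t35 h F) F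
            · by_cases Xq1_3 : p r = b
              · have Xr3 : p b = r := p.eq_comm'.1 Xq1_3
                by_cases Xq2 : p c = c
                · exact case ![l, r, c, b, p l] (inj5 hlr hlc hlb (Ne.symm Xq0) hrc hrb (Ne.symm Xq0_1) hcb (Ne.symm Xq0_2) (Ne.symm Xq0_3)) P5_15 (by
                    intro x; fin_cases x <;> simp [P5_15, Xq1_3, Xq2, Xr3]) 0 1 2 3 (fun F => t36 h F) F
                · have Xn2_0 : p c ≠ l := (fun e => Xq0_2 (p.eq_comm'.1 e))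
                  have Xn2_1 : p c ≠ r := (fun e => (Ne.symm hcb) ((Xq1_3).symm.trans (p.eq_comm'.1 e)))
                  have Xn2_3 : p c ≠ b := (fun e => hrc ((Xr3).symm.trans (p.eq_comm'.1 e)))
                  exact case ![l, r, c, b, p l, p c] (inj6 hlr hlc hlb (Ne.symm Xq0) (Ne.symm Xn2_0) hrc hrb (Ne.symm Xq0_1) (Ne.symm Xn2_1) hcb (Ne.symm Xq0_2) (Ne.symm Xq2) (Ne.symm Xq0_3) (Ne.symm Xn2_3) (fun e => hlc (p.inj e))) P6_9 (by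
                    intro x; fin_cases x <;> simp [P6_9, Xq1_3, Xr3]) 0 1 2 3 (fun F => t37 h F) F
              · by_cases Xq2 : p c = c
                · by_cases Xq3 : p b = b
                  · have Xn1_0 : p r ≠ l := (fun e => Xq0_1 (p.eq_comm'.1 e))
                    exact case ![l, r, c, b, p l, p r] (inj6 hlr hlc hlb (Ne.symm Xq0) (Ne.symm Xn1_0) hrc hrb (Ne.symm Xq0_1) (Ne.symm Xq1) hcb (Ne.symm Xq0_2) (Ne.symm Xq1_2) (Ne.symm Xq0_3) (Ne.symm Xq1_3) (fun e => hlr (p.inj e))) P6_10 (by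
                      intro x; fin_cases x <;> simp [P6_10, Xq2, Xq3]) 0 1 2 3 (fun F => t38 h F) F
                  · have Xn1_0 : p r ≠ l := (fun e => Xq0_1 (p.eq_comm'.1 e))
                    have Xn3_0 : p b ≠ l := (fun e => Xq0_3 (p.eq_comm'.1 e))
                    have Xn3_1 : p b ≠ r := (fun e => Xq1_3 (p.eq_comm'.1 e))
                    have Xn3_2 : p b ≠ c := (fun e => hcb ((Xq2).symm.trans (p.eq_comm'.1 e)))
                    exact case ![l, r, c, b, p l, p r, p b] (inj7 hlr hlc hlb (Ne.symm Xq0) (Ne.symm Xn1_0) (Ne.symm Xn3_0) hrc hrb (Ne.symm Xq0_1) (Ne.symm Xq1) (Ne.symm Xn3_1) hcb (Ne.symm Xq0_2) (Ne.symm Xq1_2) (Ne.symm Xn3_2) (Ne.symm Xq0_3) (Ne.symm Xq1_3) (Ne.symm Xq3) (fun e => hlr (p.inj e)) (fun e => hlb (p.inj e)) (fun e => hrb (p.inj e))) P7_2 (by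
                      intro x; fin_cases x <;> simp [P7_2, Xq2]) 0 1 2 3 (fun F => t39 h F) F
                · by_cases Xq2_3 : p c = b
                  · have Xr3 : p b = c := p.eq_comm'.1 Xq2_3
                    have Xn1_0 : p r ≠ l := (fun e => Xq0_1 (p.eq_comm'.1 e))
                    exact case ![l, r, c, b, p l, p r] (inj6 hlr hlc hlb (Ne.symm Xq0) (Ne.symm Xn1_0) hrc hrb (Ne.symm Xq0_1) (Ne.symm Xq1) hcb (Ne.symm Xq0_2) (Ne.symm Xq1_2) (Ne.symm Xq0_3) (Ne.symm Xq1_3) (fun e => hlr (p.inj e))) P6_11 (by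
                      intro x; fin_cases x <;> simp [P6_11, Xq2_3, Xr3]) 0 1 2 3 (fun F => t40 h F) F
                  · by_cases Xq3 : p b = b
                    · have Xn1_0 : p r ≠ l := (fun e => Xq0_1 (p.eq_comm'.1 e))
                      have Xn2_0 : p c ≠ l := (fun e => Xq0_2 (p.eq_comm'.1 e))
                      have Xn2_1 : p c ≠ r := (fun e => Xq1_2 (p.eq_comm'.1 e))
                      exact case ![l, r, c, b, p l, p r, p c] (inj7 hlr hlc hlb (Ne.symm Xq0) (Ne.symm Xn1_0) (Ne.symm Xn2_0) hrc hrb (Ne.symm Xq0_1) (Ne.symm Xq1) (Ne.symm Xn2_1) hcb (Ne.symm Xq0_2) (Ne.symm Xq1_2) (Ne.symm Xq2) (Ne.symm Xq0_3) (Ne.symm Xq1_3) (Ne.symm Xq2_3) (fun e => hlr (p.inj e)) (fun e => hlc (p.inj e)) (fun e => hrc (p.inj e))) P7_3 (by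
                        intro x; fin_cases x <;> simp [P7_3, Xq3]) 0 1 2 3 (fun F => t41 h F) F
                    · have Xn1_0 : p r ≠ l := (fun e => Xq0_1 (p.eq_comm'.1 e))
                      have Xn2_0 : p c ≠ l := (fun e => Xq0_2 (p.eq_comm'.1 e))
                      have Xn2_1 : p c ≠ r := (fun e => Xq1_2 (p.eq_comm'.1 e))
                      have Xn3_0 : p b ≠ l := (fun e => Xq0_3 (p.eq_comm'.1 e))
                      have Xn3_1 : p b ≠ r := (fun e => Xq1_3 (p.eq_comm'.1 e))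
                      have Xn3_2 : p b ≠ c := (fun e => Xq2_3 (p.eq_comm'.1 e))
                      exact case ![l, r, c, b, p l, p r, p c, p b] (inj8 hlr hlc hlb (Ne.symm Xq0) (Ne.symm Xn1_0) (Ne.symm Xn2_0) (Ne.symm Xn3_0) hrc hrb (Ne.symm Xq0_1) (Ne.symm Xq1) (Ne.symm Xn2_1) (Ne.symm Xn3_1) hcb (Ne.symm Xq0_2) (Ne.symm Xq1_2) (Ne.symm Xq2) (Ne.symm Xn3_2) (Ne.symm Xq0_3) (Ne.symm Xq1_3) (Ne.symm Xq2_3) (Ne.symm Xq3) (fun e => hlr (p.inj e)) (fun e => hlc (p.inj e)) (fun e => hlb (p.inj e)) (fun e => hrc (p.inj e)) (fun e => hrb (p.inj e)) (fun e => hcb (p.inj e))) P8_0 (by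
                        intro x; fin_cases x <;> simp [P8_0]) 0 1 2 3 (fun F => t42 h F) F

end Pool.Agent.EXL.CF
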