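import Pool.Agent.EXL.Ops

/-!
# (CU) glue R_lj(3l+u) R_rj(u) = glue

Generated file (local identity CU).
-/

set_option maxRecDepth 4000
set_option linter.all false

namespace Pool.Agent.EXL.CU

open Pool.Agent.EXL Pool.Agent.EXL.Pat

variable {α K : Type*} [DecidableEq α] [CommRing K]

/-- The scalar equations. -/
structure Eqs (w1 : Wt K) (w2 : Wt K) : Prop where
  e1 : 1 - w1.u1 * w2.u2 - w1.v * w2.v = 0
  e2 : w1.u1 * w2.v + w1.v * w2.u2 = 0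
  e3 : w1.u2 + w1.w1 * w2.u1 = 0
  e4 : w1.u2 * w2.u1 + w1.w1 * w2.w1 + w1.w2 * w2.w2 = 0
  e5 : 1 - w1.u2 * w2.u1 - w1.w1 * w2.w1 - w1.w1 * w2.w2 - w1.w2 * w2.w2 = 0
  e6 : w1.u2 * w2.w2 + w2.u1 = 0
  e7 : 1 - w1.w1 * w2.w2 = 0

def P3_0 : Pat (Fin 3) := ⟨![0, 1, 2], by decide⟩
def P3_1 : Pat (Fin 3) := ⟨![0, 2, 1], by decide⟩
def P3_2 : Pat (Fin 3) := ⟨![2, 1, 0], by decide⟩
def P3_3 : Pat (Fin 3) := ⟨![1, 0, 2], by decide⟩
def P4_0 : Pat (Fin 4) := ⟨![0, 1, 3, 2], by decide⟩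
def P4_1 : Pat (Fin 4) := ⟨![0, 3, 2, 1], by decide⟩
def P4_2 : Pat (Fin 4) := ⟨![3, 1, 2, 0], by decide⟩
def P4_3 : Pat (Fin 4) := ⟨![2, 3, 0, 1], by decide⟩
def P5_0 : Pat (Fin 5) := ⟨![0, 3, 4, 1, 2], by decide⟩
def P5_1 : Pat (Fin 5) := ⟨![0, 4, 3, 2, 1], by decide⟩
def P5_2 : Pat (Fin 5) := ⟨![0, 1, 2, 4, 3], by decide⟩
def P5_3 : Pat (Fin 5) := ⟨![0, 2, 1, 4, 3], by decide⟩
def P5_4 : Pat (Fin 5) := ⟨![2, 1, 0, 4, 3], by decide⟩
def P5_5 : Pat (Fin 5) := ⟨![1, 0, 2, 4, 3], by decide⟩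
def P5_6 : Pat (Fin 5) := ⟨![3, 4, 2, 0, 1], by decide⟩
def P4_4 : Pat (Fin 4) := ⟨![1, 0, 3, 2], by decide⟩
def P4_5 : Pat (Fin 4) := ⟨![3, 2, 1, 0], by decide⟩
def P5_7 : Pat (Fin 5) := ⟨![3, 1, 4, 0, 2], by decide⟩
def P5_8 : Pat (Fin 5) := ⟨![4, 1, 3, 2, 0], by decide⟩
def P6_0 : Pat (Fin 6) := ⟨![3, 4, 5, 0, 1, 2], by decide⟩
def P6_1 : Pat (Fin 6) := ⟨![3, 5, 4, 0, 2, 1], by decide⟩
def P6_2 : Pat (Fin 6) := ⟨![3, 1, 2, 0, 5, 4], by decide⟩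
def P6_3 : Pat (Fin 6) := ⟨![3, 2, 1, 0, 5, 4], by decide⟩
def P6_4 : Pat (Fin 6) := ⟨![0, 1, 3, 2, 5, 4], by decide⟩
def P6_5 : Pat (Fin 6) := ⟨![1, 0, 3, 2, 5, 4], by decide⟩
def P6_6 : Pat (Fin 6) := ⟨![0, 3, 2, 1, 5, 4], by decide⟩
def P6_7 : Pat (Fin 6) := ⟨![2, 3, 0, 1, 5, 4], by decide⟩
def P6_8 : Pat (Fin 6) := ⟨![4, 5, 3, 2, 0, 1], by decide⟩
def P6_9 : Pat (Fin 6) := ⟨![0, 5, 2, 4, 3, 1], by decide⟩
def P6_10 : Pat (Fin 6) := ⟨![2, 5, 0, 4, 3, 1], by decide⟩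
def P6_11 : Pat (Fin 6) := ⟨![0, 1, 5, 4, 3, 2], by decide⟩

theorem ev0 (w1 : Wt K) (F : Pat (Fin 3) → K) :
    R w1 1 2 F P3_0 = F P3_0 + w1.u2 * F P3_1 :=
  R_e (by decide) (by decide) (by decide)

theorem ev1 (w2 : Wt K) (F : Pat (Fin 3) → K) :
    R w2 0 2 F P3_0 = F P3_0 + w2.u2 * F P3_2 :=
  R_e (by decide) (by decide) (by decide)

theorem ev2 (w2 : Wt K) (F : Pat (Fin 3) → K) :
    R w2 0 2 F P3_1 = w2.v * F P3_1 + w2.u1 * F P3_3 :=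
  R_r (by decide) (by decide) (by decide)

theorem ev3 (F : Pat (Fin 3) → K) :
    glue 0 1 F P3_0 = F P3_0 :=
  glue_0 (by decide) (by decide)

theorem ev4 (F : Pat (Fin 3) → K) :
    glue 0 1 F P3_1 = 0 :=
  glue_z1 (by decide) (by decide)

theorem ev5 (F : Pat (Fin 3) → K) :
    glue 0 1 F P3_3 = 0 :=
  glue_z3 (by decide) (by decide)

theorem ev6 (F : Pat (Fin 3) → K) :
    glue 0 1 F P3_2 = 0 :=
  glue_z2 (by decide) (by decide)

theorem ev7 (w1 : Wt K) (F : Pat (Fin 4) → K) :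
    R w1 1 2 F P4_0 = w1.v * F P4_0 + w1.u1 * F P4_1 :=
  R_r (by decide) (by decide) (by decide)

theorem ev8 (w2 : Wt K) (F : Pat (Fin 4) → K) :
    R w2 0 2 F P4_0 = w2.v * F P4_0 + w2.u1 * F P4_2 :=
  R_r (by decide) (by decide) (by decide)

theorem ev9 (w2 : Wt K) (F : Pat (Fin 4) → K) :
    R w2 0 2 F P4_1 = F P4_1 + w2.u2 * F P4_3 :=
  R_e (by decide) (by decide) (by decide)

theorem ev10 (F : Pat (Fin 4) → K) :
    glue 0 1 F P4_0 = F P4_0 :=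
  glue_0 (by decide) (by decide)

theorem ev11 (F : Pat (Fin 4) → K) :
    glue 0 1 F P4_1 = 0 :=
  glue_z1 (by decide) (by decide)

theorem ev12 (F : Pat (Fin 4) → K) :
    glue 0 1 F P4_3 = F P4_0 :=
  glue_1 (by decide) (by decide) (by decide) (by decide)

theorem ev13 (F : Pat (Fin 4) → K) :
    glue 0 1 F P4_2 = 0 :=
  glue_z2 (by decide) (by decide)

theorem ev14 (w1 : Wt K) (F : Pat (Fin 3) → K) :
    R w1 1 2 F P3_1 = w1.w1 * F P3_1 :=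
  R_p (by decide) (by decide)

theorem ev15 (w1 : Wt K) (F : Pat (Fin 4) → K) :
    R w1 1 2 F P4_1 = w1.v * F P4_1 + w1.u1 * F P4_0 :=
  R_l (by decide) (by decide) (by decide)

theorem ev16 (w1 : Wt K) (F : Pat (Fin 5) → K) :
    R w1 1 2 F P5_0 = w1.w1 * F P5_1 + w1.u2 * F P5_2 + w1.w2 * F P5_3 :=
  R_d (by decide) (by decide) (by decide) (by decide) (by decide) (by decide)

theorem ev17 (w2 : Wt K) (F : Pat (Fin 5) → K) :
    R w2 0 2 F P5_2 = F P5_2 + w2.u2 * F P5_4 :=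
  R_e (by decide) (by decide) (by decide)

theorem ev18 (w2 : Wt K) (F : Pat (Fin 5) → K) :
    R w2 0 2 F P5_3 = w2.v * F P5_3 + w2.u1 * F P5_5 :=
  R_r (by decide) (by decide) (by decide)

theorem ev19 (w2 : Wt K) (F : Pat (Fin 5) → K) :
    R w2 0 2 F P5_1 = w2.v * F P5_1 + w2.u1 * F P5_6 :=
  R_r (by decide) (by decide) (by decide)

theorem ev20 (F : Pat (Fin 5) → K) :
    glue 0 1 F P5_2 = F P5_2 :=
  glue_0 (by decide) (by decide)

theorem ev21 (F : Pat (Fin 5) → K) :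
    glue 0 1 F P5_3 = 0 :=
  glue_z1 (by decide) (by decide)

theorem ev22 (F : Pat (Fin 5) → K) :
    glue 0 1 F P5_1 = 0 :=
  glue_z1 (by decide) (by decide)

theorem ev23 (F : Pat (Fin 5) → K) :
    glue 0 1 F P5_5 = 0 :=
  glue_z3 (by decide) (by decide)

theorem ev24 (F : Pat (Fin 5) → K) :
    glue 0 1 F P5_4 = 0 :=
  glue_z2 (by decide) (by decide)

theorem ev25 (F : Pat (Fin 5) → K) :
    glue 0 1 F P5_6 = F P5_2 :=
  glue_1 (by decide) (by decide) (by decide) (by decide)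

theorem ev26 (F : Pat (Fin 5) → K) :
    glue 0 1 F P5_0 = 0 :=
  glue_z1 (by decide) (by decide)

theorem ev27 (w1 : Wt K) (F : Pat (Fin 3) → K) :
    R w1 1 2 F P3_3 = w1.v * F P3_3 + w1.u1 * F P3_2 :=
  R_l (by decide) (by decide) (by decide)

theorem ev28 (w2 : Wt K) (F : Pat (Fin 3) → K) :
    R w2 0 2 F P3_3 = w2.v * F P3_3 + w2.u1 * F P3_1 :=
  R_l (by decide) (by decide) (by decide)

theorem ev29 (w2 : Wt K) (F : Pat (Fin 3) → K) :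
    R w2 0 2 F P3_2 = w2.w1 * F P3_2 :=
  R_p (by decide) (by decide)

theorem ev30 (w1 : Wt K) (F : Pat (Fin 4) → K) :
    R w1 1 2 F P4_4 = w1.w1 * F P4_3 + w1.u2 * F P4_2 + w1.w2 * F P4_5 :=
  R_d (by decide) (by decide) (by decide) (by decide) (by decide) (by decide)

theorem ev31 (w2 : Wt K) (F : Pat (Fin 4) → K) :
    R w2 0 2 F P4_3 = w2.w1 * F P4_3 :=
  R_p (by decide) (by decide)

theorem ev32 (w2 : Wt K) (F : Pat (Fin 4) → K) :
    R w2 0 2 F P4_2 = w2.v * F P4_2 + w2.u1 * F P4_0 :=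
  R_l (by decide) (by decide) (by decide)

theorem ev33 (w2 : Wt K) (F : Pat (Fin 4) → K) :
    R w2 0 2 F P4_5 = w2.w1 * F P4_4 + w2.u2 * F P4_1 + w2.w2 * F P4_3 :=
  R_d (by decide) (by decide) (by decide) (by decide) (by decide) (by decide)

theorem ev34 (F : Pat (Fin 4) → K) :
    glue 0 1 F P4_4 = 0 :=
  glue_z3 (by decide) (by decide)

theorem ev35 (w1 : Wt K) (F : Pat (Fin 3) → K) :
    R w1 1 2 F P3_2 = w1.v * F P3_2 + w1.u1 * F P3_3 :=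
  R_r (by decide) (by decide) (by decide)

theorem ev36 (w1 : Wt K) (F : Pat (Fin 4) → K) :
    R w1 1 2 F P4_3 = w1.w1 * F P4_4 + w1.u2 * F P4_2 + w1.w2 * F P4_5 :=
  R_d (by decide) (by decide) (by decide) (by decide) (by decide) (by decide)

theorem ev37 (w2 : Wt K) (F : Pat (Fin 4) → K) :
    R w2 0 2 F P4_4 = w2.w1 * F P4_5 + w2.u2 * F P4_1 + w2.w2 * F P4_3 :=
  R_d (by decide) (by decide) (by decide) (by decide) (by decide) (by decide)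

theorem ev38 (F : Pat (Fin 4) → K) :
    glue 0 1 F P4_5 = F P4_0 :=
  glue_1 (by decide) (by decide) (by decide) (by decide)

theorem ev39 (w1 : Wt K) (F : Pat (Fin 4) → K) :
    R w1 1 2 F P4_2 = F P4_2 + w1.u2 * F P4_5 :=
  R_e (by decide) (by decide) (by decide)

theorem ev40 (w1 : Wt K) (F : Pat (Fin 5) → K) :
    R w1 1 2 F P5_7 = w1.v * F P5_7 + w1.u1 * F P5_6 :=
  R_r (by decide) (by decide) (by decide)

theorem ev41 (w2 : Wt K) (F : Pat (Fin 5) → K) :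
    R w2 0 2 F P5_7 = w2.w1 * F P5_8 + w2.u2 * F P5_2 + w2.w2 * F P5_4 :=
  R_d (by decide) (by decide) (by decide) (by decide) (by decide) (by decide)

theorem ev42 (w2 : Wt K) (F : Pat (Fin 5) → K) :
    R w2 0 2 F P5_6 = w2.v * F P5_6 + w2.u1 * F P5_1 :=
  R_l (by decide) (by decide) (by decide)

theorem ev43 (F : Pat (Fin 5) → K) :
    glue 0 1 F P5_8 = 0 :=
  glue_z2 (by decide) (by decide)

theorem ev44 (F : Pat (Fin 5) → K) :
    glue 0 1 F P5_7 = 0 :=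
  glue_z2 (by decide) (by decide)

theorem ev45 (w1 : Wt K) (F : Pat (Fin 4) → K) :
    R w1 1 2 F P4_5 = w1.w1 * F P4_5 :=
  R_p (by decide) (by decide)

theorem ev46 (w1 : Wt K) (F : Pat (Fin 5) → K) :
    R w1 1 2 F P5_6 = w1.v * F P5_6 + w1.u1 * F P5_7 :=
  R_l (by decide) (by decide) (by decide)

theorem ev47 (w1 : Wt K) (F : Pat (Fin 6) → K) :
    R w1 1 2 F P6_0 = w1.w1 * F P6_1 + w1.u2 * F P6_2 + w1.w2 * F P6_3 :=
  R_d (by decide) (by decide) (by decide) (by decide) (by decide) (by decide)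

theorem ev48 (w2 : Wt K) (F : Pat (Fin 6) → K) :
    R w2 0 2 F P6_2 = w2.v * F P6_2 + w2.u1 * F P6_4 :=
  R_l (by decide) (by decide) (by decide)

theorem ev49 (w2 : Wt K) (F : Pat (Fin 6) → K) :
    R w2 0 2 F P6_3 = w2.w1 * F P6_5 + w2.u2 * F P6_6 + w2.w2 * F P6_7 :=
  R_d (by decide) (by decide) (by decide) (by decide) (by decide) (by decide)

theorem ev50 (w2 : Wt K) (F : Pat (Fin 6) → K) :
    R w2 0 2 F P6_1 = w2.w1 * F P6_8 + w2.u2 * F P6_9 + w2.w2 * F P6_10 :=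
  R_d (by decide) (by decide) (by decide) (by decide) (by decide) (by decide)

theorem ev51 (F : Pat (Fin 6) → K) :
    glue 0 1 F P6_4 = F P6_4 :=
  glue_0 (by decide) (by decide)

theorem ev52 (F : Pat (Fin 6) → K) :
    glue 0 1 F P6_6 = 0 :=
  glue_z1 (by decide) (by decide)

theorem ev53 (F : Pat (Fin 6) → K) :
    glue 0 1 F P6_9 = 0 :=
  glue_z1 (by decide) (by decide)

theorem ev54 (F : Pat (Fin 6) → K) :
    glue 0 1 F P6_5 = 0 :=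
  glue_z3 (by decide) (by decide)

theorem ev55 (F : Pat (Fin 6) → K) :
    glue 0 1 F P6_7 = F P6_4 :=
  glue_1 (by decide) (by decide) (by decide) (by decide)

theorem ev56 (F : Pat (Fin 6) → K) :
    glue 0 1 F P6_10 = F P6_11 :=
  glue_1 (by decide) (by decide) (by decide) (by decide)

theorem ev57 (F : Pat (Fin 6) → K) :
    glue 0 1 F P6_2 = 0 :=
  glue_z2 (by decide) (by decide)

theorem ev58 (F : Pat (Fin 6) → K) :
    glue 0 1 F P6_8 = F P6_4 :=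
  glue_1 (by decide) (by decide) (by decide) (by decide)

theorem ev59 (F : Pat (Fin 6) → K) :
    glue 0 1 F P6_0 = F P6_11 :=
  glue_1 (by decide) (by decide) (by decide) (by decide)

theorem t0 {w1 : Wt K} {w2 : Wt K} (h : Eqs w1 w2) (F : Pat (Fin 3) → K) :
    R w1 1 2 (R w2 0 2 (glue 0 1 F)) P3_0 = glue 0 1 F P3_0 := by
  simp only [ev0, ev1, ev2, ev3, ev4, ev5, ev6] <;>
  ring

theorem t1 {w1 : Wt K} {w2 : Wt K} (h : Eqs w1 w2) (F : Pat (Fin 4) → K) :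
    R w1 1 2 (R w2 0 2 (glue 0 1 F)) P4_0 = glue 0 1 F P4_0 := by
  simp only [ev7, ev8, ev9, ev10, ev11, ev12, ev13] <;>
  linear_combination (-1) * F P4_0 * h.e1

theorem t2 {w1 : Wt K} {w2 : Wt K} (h : Eqs w1 w2) (F : Pat (Fin 3) → K) :
    R w1 1 2 (R w2 0 2 (glue 0 1 F)) P3_1 = glue 0 1 F P3_1 := by
  simp only [ev14, ev2, ev4, ev5] <;>
  ring

theorem t3 {w1 : Wt K} {w2 : Wt K} (h : Eqs w1 w2) (F : Pat (Fin 4) → K) :
    R w1 1 2 (R w2 0 2 (glue 0 1 F)) P4_1 = glue 0 1 F P4_1 := by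
  simp only [ev15, ev8, ev9, ev10, ev11, ev12, ev13] <;>
  linear_combination F P4_0 * h.e2

theorem t4 {w1 : Wt K} {w2 : Wt K} (h : Eqs w1 w2) (F : Pat (Fin 5) → K) :
    R w1 1 2 (R w2 0 2 (glue 0 1 F)) P5_0 = glue 0 1 F P5_0 := by
  simp only [ev16, ev17, ev18, ev19, ev20, ev21, ev22, ev23, ev24, ev25, ev26] <;>
  linear_combination F P5_2 * h.e3

theorem t5 {w1 : Wt K} {w2 : Wt K} (h : Eqs w1 w2) (F : Pat (Fin 3) → K) :
    R w1 1 2 (R w2 0 2 (glue 0 1 F)) P3_3 = glue 0 1 F P3_3 := by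
  simp only [ev27, ev28, ev29, ev4, ev5, ev6] <;>
  ring

theorem t6 {w1 : Wt K} {w2 : Wt K} (h : Eqs w1 w2) (F : Pat (Fin 4) → K) :
    R w1 1 2 (R w2 0 2 (glue 0 1 F)) P4_4 = glue 0 1 F P4_4 := by
  simp only [ev30, ev31, ev32, ev33, ev10, ev11, ev34, ev12, ev13] <;>
  linear_combination F P4_0 * h.e4

theorem t7 {w1 : Wt K} {w2 : Wt K} (h : Eqs w1 w2) (F : Pat (Fin 3) → K) :
    R w1 1 2 (R w2 0 2 (glue 0 1 F)) P3_2 = glue 0 1 F P3_2 := by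
  simp only [ev35, ev28, ev29, ev4, ev5, ev6] <;>
  ring

theorem t8 {w1 : Wt K} {w2 : Wt K} (h : Eqs w1 w2) (F : Pat (Fin 4) → K) :
    R w1 1 2 (R w2 0 2 (glue 0 1 F)) P4_3 = glue 0 1 F P4_3 := by
  simp only [ev36, ev37, ev32, ev33, ev10, ev11, ev34, ev12, ev13, ev38] <;>
  linear_combination (-1) * F P4_0 * h.e5

theorem t9 {w1 : Wt K} {w2 : Wt K} (h : Eqs w1 w2) (F : Pat (Fin 4) → K) :
    R w1 1 2 (R w2 0 2 (glue 0 1 F)) P4_2 = glue 0 1 F P4_2 := by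
  simp only [ev39, ev32, ev33, ev10, ev11, ev34, ev12, ev13] <;>
  linear_combination F P4_0 * h.e6

theorem t10 {w1 : Wt K} {w2 : Wt K} (h : Eqs w1 w2) (F : Pat (Fin 5) → K) :
    R w1 1 2 (R w2 0 2 (glue 0 1 F)) P5_7 = glue 0 1 F P5_7 := by
  simp only [ev40, ev41, ev42, ev20, ev22, ev24, ev25, ev43, ev44] <;>
  linear_combination F P5_2 * h.e2

theorem t11 {w1 : Wt K} {w2 : Wt K} (h : Eqs w1 w2) (F : Pat (Fin 4) → K) :
    R w1 1 2 (R w2 0 2 (glue 0 1 F)) P4_5 = glue 0 1 F P4_5 := by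
  simp only [ev45, ev33, ev11, ev34, ev12, ev38] <;>
  linear_combination (-1) * F P4_0 * h.e7

theorem t12 {w1 : Wt K} {w2 : Wt K} (h : Eqs w1 w2) (F : Pat (Fin 5) → K) :
    R w1 1 2 (R w2 0 2 (glue 0 1 F)) P5_6 = glue 0 1 F P5_6 := by
  simp only [ev46, ev41, ev42, ev20, ev22, ev24, ev25, ev43] <;>
  linear_combination (-1) * F P5_2 * h.e1

theorem t13 {w1 : Wt K} {w2 : Wt K} (h : Eqs w1 w2) (F : Pat (Fin 6) → K) :
    R w1 1 2 (R w2 0 2 (glue 0 1 F)) P6_0 = glue 0 1 F P6_0 := by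
  simp only [ev47, ev48, ev49, ev50, ev51, ev52, ev53, ev54, ev55, ev56, ev57, ev58, ev59] <;>
  linear_combination F P6_4 * h.e4 + (-1) * F P6_11 * h.e7

theorem case {w1 : Wt K} {w2 : Wt K} {p : Pat α} {m : ℕ} (φ : Fin m → α) (inj : Function.Injective φ)
    (q : Pat (Fin m)) (hq : ∀ x, p (φ x) = φ (q x)) (l r j : Fin m)
    (H : ∀ F : Pat (Fin m) → K, (R w1 r j (R w2 l j (glue l r F))) q = (glue l r F) q)
    (F : Pat α → K) :
    (R w1 (φ r) (φ j) (R w2 (φ l) (φ j) (glue (φ l) (φ r) F))) p = (glue (φ l) (φ r) F) p := by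
  let E : Pat.Emb (Fin m) α := ⟨φ, inj, p, fun x => ⟨q x, hq x⟩⟩
  have hst : E.st q = p := E.st_eq hq
  have key := H (fun r => F (E.st r))
  have e1 : (R w1 (E.φ r) (E.φ j) (R w2 (E.φ l) (E.φ j) (glue (E.φ l) (E.φ r) F))) (E.st q) = (R w1 r j (R w2 l j (glue l r (fun r => F (E.st r))))) q := by
    simp only [R_st, glue_st]
  have e2 : (glue (E.φ l) (E.φ r) F) (E.st q) = (glue l r (fun r => F (E.st r))) q := by
    simp only [R_st, glue_st]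
  rw [hst] at e1 e2
  exact e1.trans (key.trans e2.symm)

omit [DecidableEq α] in
theorem inj3 {a0 a1 a2 : α} (h0_1 : a0 ≠ a1) (h0_2 : a0 ≠ a2) (h1_2 : a1 ≠ a2) :
    Function.Injective ![a0, a1, a2] := by
  intro x y hxy
  fin_cases x <;> fin_cases y <;> simp_all

omit [DecidableEq α] in
theorem inj4 {a0 a1 a2 a3 : α} (h0_1 : a0 ≠ a1) (h0_2 : a0 ≠ a2) (h0_3 : a0 ≠ a3) (h1_2 : a1 ≠ a2) (h1_3 : a1 ≠ a3) (h2_3 : a2 ≠ a3) :
    Function.Injective ![a0, a1, a2, a3] := by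
  intro x y hxy
  fin_cases x <;> fin_cases y <;> simp_all

omit [DecidableEq α] in
theorem inj5 {a0 a1 a2 a3 a4 : α} (h0_1 : a0 ≠ a1) (h0_2 : a0 ≠ a2) (h0_3 : a0 ≠ a3) (h0_4 : a0 ≠ a4) (h1_2 : a1 ≠ a2) (h1_3 : a1 ≠ a3) (h1_4 : a1 ≠ a4) (h2_3 : a2 ≠ a3) (h2_4 : a2 ≠ a4) (h3_4 : a3 ≠ a4) :
    Function.Injective ![a0, a1, a2, a3, a4] := by
  intro x y hxy
  fin_cases x <;> fin_cases y <;> simp_all

omit [DecidableEq α] in
theorem inj6 {a0 a1 a2 a3 a4 a5 : α} (h0_1 : a0 ≠ a1) (h0_2 : a0 ≠ a2) (h0_3 : a0 ≠ a3) (h0_4 : a0 ≠ a4) (h0_5 : a0 ≠ a5) (h1_2 : a1 ≠ a2) (h1_3 : a1 ≠ a3) (h1_4 : a1 ≠ a4) (h1_5 : a1 ≠ a5) (h2_3 : a2 ≠ a3) (h2_4 : a2 ≠ a4) (h2_5 : a2 ≠ a5) (h3_4 : a3 ≠ a4) (h3_5 : a3 ≠ a5) (h4_5 : a4 ≠ a5) :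
    Function.Injective ![a0, a1, a2, a3, a4, a5] := by
  intro x y hxy
  fin_cases x <;> fin_cases y <;> simp_all

/-- **CU** -/
theorem main {w1 : Wt K} {w2 : Wt K} (h : Eqs w1 w2) {l r j : α} (hlr : l ≠ r) (hlj : l ≠ j) (hrj : r ≠ j) (F : Pat α → K) :
    R w1 r j (R w2 l j (glue l r F)) = glue l r F := by
  funext p
  by_cases Xq0 : p l = l
  · by_cases Xq1 : p r = r
    · by_cases Xq2 : p j = j
      · exact case ![l, r, j] (inj3 hlr hlj hrj) P3_0 (by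
          intro x; fin_cases x <;> simp [P3_0, Xq0, Xq1, Xq2]) 0 1 2 (fun F => t0 h F) F
      · have Xn2_0 : p j ≠ l := (fun e => hlj ((Xq0).symm.trans (p.eq_comm'.1 e)))
        have Xn2_1 : p j ≠ r := (fun e => hrj ((Xq1).symm.trans (p.eq_comm'.1 e)))
        exact case ![l, r, j, p j] (inj4 hlr hlj (Ne.symm Xn2_0) hrj (Ne.symm Xn2_1) (Ne.symm Xq2)) P4_0 (by
          intro x; fin_cases x <;> simp [P4_0, Xq0, Xq1]) 0 1 2 (fun F => t1 h F) F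
    · by_cases Xq1_2 : p r = j
      · have Xr2 : p j = r := p.eq_comm'.1 Xq1_2
        exact case ![l, r, j] (inj3 hlr hlj hrj) P3_1 (by
          intro x; fin_cases x <;> simp [P3_1, Xq0, Xq1_2, Xr2]) 0 1 2 (fun F => t2 h F) F
      · by_cases Xq2 : p j = j
        · have Xn1_0 : p r ≠ l := (fun e => hlr ((Xq0).symm.trans (p.eq_comm'.1 e)))
          exact case ![l, r, j, p r] (inj4 hlr hlj (Ne.symm Xn1_0) hrj (Ne.symm Xq1) (Ne.symm Xq1_2)) P4_1 (by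
            intro x; fin_cases x <;> simp [P4_1, Xq0, Xq2]) 0 1 2 (fun F => t3 h F) F
        · have Xn1_0 : p r ≠ l := (fun e => hlr ((Xq0).symm.trans (p.eq_comm'.1 e)))
          have Xn2_0 : p j ≠ l := (fun e => hlj ((Xq0).symm.trans (p.eq_comm'.1 e)))
          have Xn2_1 : p j ≠ r := (fun e => Xq1_2 (p.eq_comm'.1 e))
          exact case ![l, r, j, p r, p j] (inj5 hlr hlj (Ne.symm Xn1_0) (Ne.symm Xn2_0) hrj (Ne.symm Xq1) (Ne.symm Xn2_1) (Ne.symm Xq1_2) (Ne.symm Xq2) (fun e => hrj (p.inj e))) P5_0 (by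
            intro x; fin_cases x <;> simp [P5_0, Xq0]) 0 1 2 (fun F => t4 h F) F
  · by_cases Xq0_1 : p l = r
    · have Xr1 : p r = l := p.eq_comm'.1 Xq0_1
      by_cases Xq2 : p j = j
      · exact case ![l, r, j] (inj3 hlr hlj hrj) P3_3 (by
          intro x; fin_cases x <;> simp [P3_3, Xq0_1, Xr1, Xq2]) 0 1 2 (fun F => t5 h F) F
      · have Xn2_0 : p j ≠ l := (fun e => hrj ((Xq0_1).symm.trans (p.eq_comm'.1 e)))
        have Xn2_1 : p j ≠ r := (fun e => hlj ((Xr1).symm.trans (p.eq_comm'.1 e)))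
        exact case ![l, r, j, p j] (inj4 hlr hlj (Ne.symm Xn2_0) hrj (Ne.symm Xn2_1) (Ne.symm Xq2)) P4_4 (by
          intro x; fin_cases x <;> simp [P4_4, Xq0_1, Xr1]) 0 1 2 (fun F => t6 h F) F
    · by_cases Xq0_2 : p l = j
      · have Xr2 : p j = l := p.eq_comm'.1 Xq0_2
        by_cases Xq1 : p r = r
        · exact case ![l, r, j] (inj3 hlr hlj hrj) P3_2 (by
            intro x; fin_cases x <;> simp [P3_2, Xq0_2, Xq1, Xr2]) 0 1 2 (fun F => t7 h F) F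
        · have Xn1_0 : p r ≠ l := (fun e => (Ne.symm hrj) ((Xq0_2).symm.trans (p.eq_comm'.1 e)))
          have Xn1_2 : p r ≠ j := (fun e => hlr ((Xr2).symm.trans (p.eq_comm'.1 e)))
          exact case ![l, r, j, p r] (inj4 hlr hlj (Ne.symm Xn1_0) hrj (Ne.symm Xq1) (Ne.symm Xn1_2)) P4_3 (by
            intro x; fin_cases x <;> simp [P4_3, Xq0_2, Xr2]) 0 1 2 (fun F => t8 h F) F
      · by_cases Xq1 : p r = r
        · by_cases Xq2 : p j = j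
          · exact case ![l, r, j, p l] (inj4 hlr hlj (Ne.symm Xq0) hrj (Ne.symm Xq0_1) (Ne.symm Xq0_2)) P4_2 (by
              intro x; fin_cases x <;> simp [P4_2, Xq1, Xq2]) 0 1 2 (fun F => t9 h F) F
          · have Xn2_0 : p j ≠ l := (fun e => Xq0_2 (p.eq_comm'.1 e))
            have Xn2_1 : p j ≠ r := (fun e => hrj ((Xq1).symm.trans (p.eq_comm'.1 e)))
            exact case ![l, r, j, p l, p j] (inj5 hlr hlj (Ne.symm Xq0) (Ne.symm Xn2_0) hrj (Ne.symm Xq0_1) (Ne.symm Xn2_1) (Ne.symm Xq0_2) (Ne.symm Xq2) (fun e => hlj (p.inj e))) P5_7 (by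
              intro x; fin_cases x <;> simp [P5_7, Xq1]) 0 1 2 (fun F => t10 h F) F
        · by_cases Xq1_2 : p r = j
          · have Xr2 : p j = r := p.eq_comm'.1 Xq1_2
            exact case ![l, r, j, p l] (inj4 hlr hlj (Ne.symm Xq0) hrj (Ne.symm Xq0_1) (Ne.symm Xq0_2)) P4_5 (by
              intro x; fin_cases x <;> simp [P4_5, Xq1_2, Xr2]) 0 1 2 (fun F => t11 h F) F
          · by_cases Xq2 : p j = j
            · have Xn1_0 : p r ≠ l := (fun e => Xq0_1 (p.eq_comm'.1 e))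
              exact case ![l, r, j, p l, p r] (inj5 hlr hlj (Ne.symm Xq0) (Ne.symm Xn1_0) hrj (Ne.symm Xq0_1) (Ne.symm Xq1) (Ne.symm Xq0_2) (Ne.symm Xq1_2) (fun e => hlr (p.inj e))) P5_6 (by
                intro x; fin_cases x <;> simp [P5_6, Xq2]) 0 1 2 (fun F => t12 h F) F
            · have Xn1_0 : p r ≠ l := (fun e => Xq0_1 (p.eq_comm'.1 e))
              have Xn2_0 : p j ≠ l := (fun e => Xq0_2 (p.eq_comm'.1 e))
              have Xn2_1 : p j ≠ r := (fun e => Xq1_2 (p.eq_comm'.1 e))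
              exact case ![l, r, j, p l, p r, p j] (inj6 hlr hlj (Ne.symm Xq0) (Ne.symm Xn1_0) (Ne.symm Xn2_0) hrj (Ne.symm Xq0_1) (Ne.symm Xq1) (Ne.symm Xn2_1) (Ne.symm Xq0_2) (Ne.symm Xq1_2) (Ne.symm Xq2) (fun e => hlr (p.inj e)) (fun e => hlj (p.inj e)) (fun e => hrj (p.inj e))) P6_0 (by
                intro x; fin_cases x <;> simp [P6_0]) 0 1 2 (fun F => t13 h F) F

end Pool.Agent.EXL.CU
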