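import Pool.Agent.EXL.Ops

/-!
# (CU2) R_lj(u) R_rj(3l+u) U = U

Generated file (local identity CU2).
-/

set_option maxRecDepth 4000
set_option linter.all false

namespace Pool.Agent.EXL.CU2

open Pool.Agent.EXL Pool.Agent.EXL.Pat

variable {α K : Type*} [DecidableEq α] [CommRing K]

/-- The scalar equations. -/
structure Eqs (w1 : Wt K) (w2 : Wt K) : Prop where
  e1 : w1.u1 * w2.v + w1.v * w2.u2 = 0
  e2 : 1 - w1.u1 * w2.u2 - w1.v * w2.v = 0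
  e3 : w1.u2 + w1.w1 * w2.u1 = 0
  e4 : w1.u2 * w2.w2 + w2.u1 = 0
  e5 : 1 - w1.w1 * w2.w2 = 0
  e6 : w1.u2 * w2.u1 + w1.w1 * w2.w1 + w1.w2 * w2.w2 = 0

def P3_0 : Pat (Fin 3) := ⟨![0, 1, 2], by decide⟩
def P3_1 : Pat (Fin 3) := ⟨![1, 0, 2], by decide⟩
def P3_2 : Pat (Fin 3) := ⟨![0, 2, 1], by decide⟩
def P3_3 : Pat (Fin 3) := ⟨![2, 1, 0], by decide⟩
def P4_0 : Pat (Fin 4) := ⟨![0, 1, 3, 2], by decide⟩
def P4_1 : Pat (Fin 4) := ⟨![1, 0, 3, 2], by decide⟩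
def P4_2 : Pat (Fin 4) := ⟨![0, 3, 2, 1], by decide⟩
def P4_3 : Pat (Fin 4) := ⟨![2, 3, 0, 1], by decide⟩
def P4_4 : Pat (Fin 4) := ⟨![3, 1, 2, 0], by decide⟩
def P4_5 : Pat (Fin 4) := ⟨![3, 2, 1, 0], by decide⟩
def P5_0 : Pat (Fin 5) := ⟨![0, 3, 4, 1, 2], by decide⟩
def P5_1 : Pat (Fin 5) := ⟨![3, 1, 4, 0, 2], by decide⟩
def P5_2 : Pat (Fin 5) := ⟨![3, 4, 2, 0, 1], by decide⟩
def P6_0 : Pat (Fin 6) := ⟨![3, 4, 5, 0, 1, 2], by decide⟩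

theorem ev0 (F : Pat (Fin 3) → K) :
    U 0 1 F P3_0 = F P3_0 + F P3_1 :=
  U_0 (by decide) (by decide) (by decide)

theorem ev1 (w2 : Wt K) (F : Pat (Fin 3) → K) :
    R w2 1 2 F P3_0 = F P3_0 + w2.u2 * F P3_2 :=
  R_e (by decide) (by decide) (by decide)

theorem ev2 (w2 : Wt K) (F : Pat (Fin 3) → K) :
    R w2 1 2 F P3_1 = w2.v * F P3_1 + w2.u1 * F P3_3 :=
  R_l (by decide) (by decide) (by decide)

theorem ev3 (w1 : Wt K) (F : Pat (Fin 3) → K) :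
    R w1 0 2 F P3_0 = F P3_0 + w1.u2 * F P3_3 :=
  R_e (by decide) (by decide) (by decide)

theorem ev4 (w1 : Wt K) (F : Pat (Fin 3) → K) :
    R w1 0 2 F P3_2 = w1.v * F P3_2 + w1.u1 * F P3_1 :=
  R_r (by decide) (by decide) (by decide)

theorem ev5 (w1 : Wt K) (F : Pat (Fin 3) → K) :
    R w1 0 2 F P3_1 = w1.v * F P3_1 + w1.u1 * F P3_2 :=
  R_l (by decide) (by decide) (by decide)

theorem ev6 (w1 : Wt K) (F : Pat (Fin 3) → K) :
    R w1 0 2 F P3_3 = w1.w1 * F P3_3 :=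
  R_p (by decide) (by decide)

theorem ev7 (F : Pat (Fin 4) → K) :
    U 0 1 F P4_0 = F P4_0 + F P4_1 :=
  U_0 (by decide) (by decide) (by decide)

theorem ev8 (w2 : Wt K) (F : Pat (Fin 4) → K) :
    R w2 1 2 F P4_0 = w2.v * F P4_0 + w2.u1 * F P4_2 :=
  R_r (by decide) (by decide) (by decide)

theorem ev9 (w2 : Wt K) (F : Pat (Fin 4) → K) :
    R w2 1 2 F P4_1 = w2.w1 * F P4_3 + w2.u2 * F P4_4 + w2.w2 * F P4_5 :=
  R_d (by decide) (by decide) (by decide) (by decide) (by decide) (by decide)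

theorem ev10 (w1 : Wt K) (F : Pat (Fin 4) → K) :
    R w1 0 2 F P4_0 = w1.v * F P4_0 + w1.u1 * F P4_4 :=
  R_r (by decide) (by decide) (by decide)

theorem ev11 (w1 : Wt K) (F : Pat (Fin 4) → K) :
    R w1 0 2 F P4_2 = F P4_2 + w1.u2 * F P4_3 :=
  R_e (by decide) (by decide) (by decide)

theorem ev12 (w1 : Wt K) (F : Pat (Fin 4) → K) :
    R w1 0 2 F P4_3 = w1.w1 * F P4_3 :=
  R_p (by decide) (by decide)

theorem ev13 (w1 : Wt K) (F : Pat (Fin 4) → K) :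
    R w1 0 2 F P4_4 = w1.v * F P4_4 + w1.u1 * F P4_0 :=
  R_l (by decide) (by decide) (by decide)

theorem ev14 (w1 : Wt K) (F : Pat (Fin 4) → K) :
    R w1 0 2 F P4_5 = w1.w1 * F P4_1 + w1.u2 * F P4_2 + w1.w2 * F P4_3 :=
  R_d (by decide) (by decide) (by decide) (by decide) (by decide) (by decide)

theorem ev15 (F : Pat (Fin 3) → K) :
    U 0 1 F P3_2 = 0 :=
  U_z (by decide)

theorem ev16 (F : Pat (Fin 4) → K) :
    U 0 1 F P4_2 = 0 :=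
  U_z (by decide)

theorem ev17 (F : Pat (Fin 5) → K) :
    U 0 1 F P5_0 = 0 :=
  U_z (by decide)

theorem ev18 (F : Pat (Fin 3) → K) :
    U 0 1 F P3_1 = 0 :=
  U_z (by decide)

theorem ev19 (F : Pat (Fin 4) → K) :
    U 0 1 F P4_1 = 0 :=
  U_z (by decide)

theorem ev20 (F : Pat (Fin 3) → K) :
    U 0 1 F P3_3 = 0 :=
  U_z (by decide)

theorem ev21 (F : Pat (Fin 4) → K) :
    U 0 1 F P4_3 = 0 :=
  U_z (by decide)

theorem ev22 (F : Pat (Fin 4) → K) :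
    U 0 1 F P4_4 = 0 :=
  U_z (by decide)

theorem ev23 (F : Pat (Fin 5) → K) :
    U 0 1 F P5_1 = 0 :=
  U_z (by decide)

theorem ev24 (F : Pat (Fin 4) → K) :
    U 0 1 F P4_5 = 0 :=
  U_z (by decide)

theorem ev25 (F : Pat (Fin 5) → K) :
    U 0 1 F P5_2 = 0 :=
  U_z (by decide)

theorem ev26 (F : Pat (Fin 6) → K) :
    U 0 1 F P6_0 = 0 :=
  U_z (by decide)

theorem t0 {w1 : Wt K} {w2 : Wt K} (h : Eqs w1 w2) (F : Pat (Fin 3) → K) :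
    U 0 1 (R w2 1 2 (R w1 0 2 F)) P3_0 = U 0 1 F P3_0 := by
  simp only [ev0, ev1, ev2, ev3, ev4, ev5, ev6] <;>
  linear_combination F P3_2 * h.e1 + (-1) * F P3_1 * h.e2 + F P3_3 * h.e3

theorem t1 {w1 : Wt K} {w2 : Wt K} (h : Eqs w1 w2) (F : Pat (Fin 4) → K) :
    U 0 1 (R w2 1 2 (R w1 0 2 F)) P4_0 = U 0 1 F P4_0 := by
  simp only [ev7, ev8, ev9, ev10, ev11, ev12, ev13, ev14] <;>
  linear_combination (-1) * F P4_0 * h.e2 + F P4_2 * h.e4 + (-1) * F P4_1 * h.e5 + F P4_3 * h.e6 + F P4_4 * h.e1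

theorem t2 {w1 : Wt K} {w2 : Wt K} (h : Eqs w1 w2) (F : Pat (Fin 3) → K) :
    U 0 1 (R w2 1 2 (R w1 0 2 F)) P3_2 = U 0 1 F P3_2 := by
  simp only [ev15] <;>
  ring

theorem t3 {w1 : Wt K} {w2 : Wt K} (h : Eqs w1 w2) (F : Pat (Fin 4) → K) :
    U 0 1 (R w2 1 2 (R w1 0 2 F)) P4_2 = U 0 1 F P4_2 := by
  simp only [ev16] <;>
  ring

theorem t4 {w1 : Wt K} {w2 : Wt K} (h : Eqs w1 w2) (F : Pat (Fin 5) → K) :
    U 0 1 (R w2 1 2 (R w1 0 2 F)) P5_0 = U 0 1 F P5_0 := by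
  simp only [ev17] <;>
  ring

theorem t5 {w1 : Wt K} {w2 : Wt K} (h : Eqs w1 w2) (F : Pat (Fin 3) → K) :
    U 0 1 (R w2 1 2 (R w1 0 2 F)) P3_1 = U 0 1 F P3_1 := by
  simp only [ev18] <;>
  ring

theorem t6 {w1 : Wt K} {w2 : Wt K} (h : Eqs w1 w2) (F : Pat (Fin 4) → K) :
    U 0 1 (R w2 1 2 (R w1 0 2 F)) P4_1 = U 0 1 F P4_1 := by
  simp only [ev19] <;>
  ring

theorem t7 {w1 : Wt K} {w2 : Wt K} (h : Eqs w1 w2) (F : Pat (Fin 3) → K) :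
    U 0 1 (R w2 1 2 (R w1 0 2 F)) P3_3 = U 0 1 F P3_3 := by
  simp only [ev20] <;>
  ring

theorem t8 {w1 : Wt K} {w2 : Wt K} (h : Eqs w1 w2) (F : Pat (Fin 4) → K) :
    U 0 1 (R w2 1 2 (R w1 0 2 F)) P4_3 = U 0 1 F P4_3 := by
  simp only [ev21] <;>
  ring

theorem t9 {w1 : Wt K} {w2 : Wt K} (h : Eqs w1 w2) (F : Pat (Fin 4) → K) :
    U 0 1 (R w2 1 2 (R w1 0 2 F)) P4_4 = U 0 1 F P4_4 := by
  simp only [ev22] <;>
  ring

theorem t10 {w1 : Wt K} {w2 : Wt K} (h : Eqs w1 w2) (F : Pat (Fin 5) → K) :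
    U 0 1 (R w2 1 2 (R w1 0 2 F)) P5_1 = U 0 1 F P5_1 := by
  simp only [ev23] <;>
  ring

theorem t11 {w1 : Wt K} {w2 : Wt K} (h : Eqs w1 w2) (F : Pat (Fin 4) → K) :
    U 0 1 (R w2 1 2 (R w1 0 2 F)) P4_5 = U 0 1 F P4_5 := by
  simp only [ev24] <;>
  ring

theorem t12 {w1 : Wt K} {w2 : Wt K} (h : Eqs w1 w2) (F : Pat (Fin 5) → K) :
    U 0 1 (R w2 1 2 (R w1 0 2 F)) P5_2 = U 0 1 F P5_2 := by
  simp only [ev25] <;>
  ring

theorem t13 {w1 : Wt K} {w2 : Wt K} (h : Eqs w1 w2) (F : Pat (Fin 6) → K) :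
    U 0 1 (R w2 1 2 (R w1 0 2 F)) P6_0 = U 0 1 F P6_0 := by
  simp only [ev26] <;>
  ring

theorem case {w1 : Wt K} {w2 : Wt K} {p : Pat α} {m : ℕ} (φ : Fin m → α) (inj : Function.Injective φ)
    (q : Pat (Fin m)) (hq : ∀ x, p (φ x) = φ (q x)) (l r j : Fin m)
    (H : ∀ F : Pat (Fin m) → K, (U l r (R w2 r j (R w1 l j F))) q = (U l r F) q)
    (F : Pat α → K) :
    (U (φ l) (φ r) (R w2 (φ r) (φ j) (R w1 (φ l) (φ j) F))) p = (U (φ l) (φ r) F) p := by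
  let E : Pat.Emb (Fin m) α := ⟨φ, inj, p, fun x => ⟨q x, hq x⟩⟩
  have hst : E.st q = p := E.st_eq hq
  have key := H (fun r => F (E.st r))
  have e1 : (U (E.φ l) (E.φ r) (R w2 (E.φ r) (E.φ j) (R w1 (E.φ l) (E.φ j) F))) (E.st q) = (U l r (R w2 r j (R w1 l j (fun r => F (E.st r))))) q := by
    simp only [R_st, U_st]
  have e2 : (U (E.φ l) (E.φ r) F) (E.st q) = (U l r (fun r => F (E.st r))) q := by
    simp only [R_st, U_st]
  rw [hst] at e1 e2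
  exact e1.trans (key.trans e2.symm)

omit [DecidableEq α] in
theorem inj3 {a0 a1 a2 : α} (h0_1 : a0 ≠ a1) (h0_2 : a0 ≠ a2) (h1_2 : a1 ≠ a2) :
    Function.Injective ![a0, a1, a2] := by
  intro x y hxy
  fin_cases x <;> fin_cases y <;> simp_all

omit [DecidableEq α] in
theorem inj4 {a0 a1 a2 a3 : α} (h0_1 : a0 ≠ a1) (h0_2 : a0 ≠ a2) (h0_3 : a0 ≠ a3) (h1_2 : a1 ≠ a2) (h1_3 : a1 ≠ a3) (h2_3 : a2 ≠ a3) :
    Function.Injective ![a0, a1, a2, a3] := by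
  intro x y hxy
  fin_cases x <;> fin_cases y <;> simp_all

omit [DecidableEq α] in
theorem inj5 {a0 a1 a2 a3 a4 : α} (h0_1 : a0 ≠ a1) (h0_2 : a0 ≠ a2) (h0_3 : a0 ≠ a3) (h0_4 : a0 ≠ a4) (h1_2 : a1 ≠ a2) (h1_3 : a1 ≠ a3) (h1_4 : a1 ≠ a4) (h2_3 : a2 ≠ a3) (h2_4 : a2 ≠ a4) (h3_4 : a3 ≠ a4) :
    Function.Injective ![a0, a1, a2, a3, a4] := by
  intro x y hxy
  fin_cases x <;> fin_cases y <;> simp_all

omit [DecidableEq α] in
theorem inj6 {a0 a1 a2 a3 a4 a5 : α} (h0_1 : a0 ≠ a1) (h0_2 : a0 ≠ a2) (h0_3 : a0 ≠ a3) (h0_4 : a0 ≠ a4) (h0_5 : a0 ≠ a5) (h1_2 : a1 ≠ a2) (h1_3 : a1 ≠ a3) (h1_4 : a1 ≠ a4) (h1_5 : a1 ≠ a5) (h2_3 : a2 ≠ a3) (h2_4 : a2 ≠ a4) (h2_5 : a2 ≠ a5) (h3_4 : a3 ≠ a4) (h3_5 : a3 ≠ a5) (h4_5 : a4 ≠ a5) :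
    Function.Injective ![a0, a1, a2, a3, a4, a5] := by
  intro x y hxy
  fin_cases x <;> fin_cases y <;> simp_all

/-- **CU2** -/
theorem main {w1 : Wt K} {w2 : Wt K} (h : Eqs w1 w2) {l r j : α} (hlr : l ≠ r) (hlj : l ≠ j) (hrj : r ≠ j) (F : Pat α → K) :
    U l r (R w2 r j (R w1 l j F)) = U l r F := by
  funext p
  by_cases Xq0 : p l = l
  · by_cases Xq1 : p r = r
    · by_cases Xq2 : p j = j
      · exact case ![l, r, j] (inj3 hlr hlj hrj) P3_0 (by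
          intro x; fin_cases x <;> simp [P3_0, Xq0, Xq1, Xq2]) 0 1 2 (fun F => t0 h F) F
      · have Xn2_0 : p j ≠ l := (fun e => hlj ((Xq0).symm.trans (p.eq_comm'.1 e)))
        have Xn2_1 : p j ≠ r := (fun e => hrj ((Xq1).symm.trans (p.eq_comm'.1 e)))
        exact case ![l, r, j, p j] (inj4 hlr hlj (Ne.symm Xn2_0) hrj (Ne.symm Xn2_1) (Ne.symm Xq2)) P4_0 (by
          intro x; fin_cases x <;> simp [P4_0, Xq0, Xq1]) 0 1 2 (fun F => t1 h F) F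
    · by_cases Xq1_2 : p r = j
      · have Xr2 : p j = r := p.eq_comm'.1 Xq1_2
        exact case ![l, r, j] (inj3 hlr hlj hrj) P3_2 (by
          intro x; fin_cases x <;> simp [P3_2, Xq0, Xq1_2, Xr2]) 0 1 2 (fun F => t2 h F) F
      · by_cases Xq2 : p j = j
        · have Xn1_0 : p r ≠ l := (fun e => hlr ((Xq0).symm.trans (p.eq_comm'.1 e)))
          exact case ![l, r, j, p r] (inj4 hlr hlj (Ne.symm Xn1_0) hrj (Ne.symm Xq1) (Ne.symm Xq1_2)) P4_2 (by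
            intro x; fin_cases x <;> simp [P4_2, Xq0, Xq2]) 0 1 2 (fun F => t3 h F) F
        · have Xn1_0 : p r ≠ l := (fun e => hlr ((Xq0).symm.trans (p.eq_comm'.1 e)))
          have Xn2_0 : p j ≠ l := (fun e => hlj ((Xq0).symm.trans (p.eq_comm'.1 e)))
          have Xn2_1 : p j ≠ r := (fun e => Xq1_2 (p.eq_comm'.1 e))
          exact case ![l, r, j, p r, p j] (inj5 hlr hlj (Ne.symm Xn1_0) (Ne.symm Xn2_0) hrj (Ne.symm Xq1) (Ne.symm Xn2_1) (Ne.symm Xq1_2) (Ne.symm Xq2) (fun e => hrj (p.inj e))) P5_0 (by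
            intro x; fin_cases x <;> simp [P5_0, Xq0]) 0 1 2 (fun F => t4 h F) F
  · by_cases Xq0_1 : p l = r
    · have Xr1 : p r = l := p.eq_comm'.1 Xq0_1
      by_cases Xq2 : p j = j
      · exact case ![l, r, j] (inj3 hlr hlj hrj) P3_1 (by
          intro x; fin_cases x <;> simp [P3_1, Xq0_1, Xr1, Xq2]) 0 1 2 (fun F => t5 h F) F
      · have Xn2_0 : p j ≠ l := (fun e => hrj ((Xq0_1).symm.trans (p.eq_comm'.1 e)))
        have Xn2_1 : p j ≠ r := (fun e => hlj ((Xr1).symm.trans (p.eq_comm'.1 e)))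
        exact case ![l, r, j, p j] (inj4 hlr hlj (Ne.symm Xn2_0) hrj (Ne.symm Xn2_1) (Ne.symm Xq2)) P4_1 (by
          intro x; fin_cases x <;> simp [P4_1, Xq0_1, Xr1]) 0 1 2 (fun F => t6 h F) F
    · by_cases Xq0_2 : p l = j
      · have Xr2 : p j = l := p.eq_comm'.1 Xq0_2
        by_cases Xq1 : p r = r
        · exact case ![l, r, j] (inj3 hlr hlj hrj) P3_3 (by
            intro x; fin_cases x <;> simp [P3_3, Xq0_2, Xq1, Xr2]) 0 1 2 (fun F => t7 h F) F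
        · have Xn1_0 : p r ≠ l := (fun e => (Ne.symm hrj) ((Xq0_2).symm.trans (p.eq_comm'.1 e)))
          have Xn1_2 : p r ≠ j := (fun e => hlr ((Xr2).symm.trans (p.eq_comm'.1 e)))
          exact case ![l, r, j, p r] (inj4 hlr hlj (Ne.symm Xn1_0) hrj (Ne.symm Xq1) (Ne.symm Xn1_2)) P4_3 (by
            intro x; fin_cases x <;> simp [P4_3, Xq0_2, Xr2]) 0 1 2 (fun F => t8 h F) F
      · by_cases Xq1 : p r = r
        · by_cases Xq2 : p j = j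
          · exact case ![l, r, j, p l] (inj4 hlr hlj (Ne.symm Xq0) hrj (Ne.symm Xq0_1) (Ne.symm Xq0_2)) P4_4 (by
              intro x; fin_cases x <;> simp [P4_4, Xq1, Xq2]) 0 1 2 (fun F => t9 h F) F
          · have Xn2_0 : p j ≠ l := (fun e => Xq0_2 (p.eq_comm'.1 e))
            have Xn2_1 : p j ≠ r := (fun e => hrj ((Xq1).symm.trans (p.eq_comm'.1 e)))
            exact case ![l, r, j, p l, p j] (inj5 hlr hlj (Ne.symm Xq0) (Ne.symm Xn2_0) hrj (Ne.symm Xq0_1) (Ne.symm Xn2_1) (Ne.symm Xq0_2) (Ne.symm Xq2) (fun e => hlj (p.inj e))) P5_1 (by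
              intro x; fin_cases x <;> simp [P5_1, Xq1]) 0 1 2 (fun F => t10 h F) F
        · by_cases Xq1_2 : p r = j
          · have Xr2 : p j = r := p.eq_comm'.1 Xq1_2
            exact case ![l, r, j, p l] (inj4 hlr hlj (Ne.symm Xq0) hrj (Ne.symm Xq0_1) (Ne.symm Xq0_2)) P4_5 (by
              intro x; fin_cases x <;> simp [P4_5, Xq1_2, Xr2]) 0 1 2 (fun F => t11 h F) F
          · by_cases Xq2 : p j = j
            · have Xn1_0 : p r ≠ l := (fun e => Xq0_1 (p.eq_comm'.1 e))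
              exact case ![l, r, j, p l, p r] (inj5 hlr hlj (Ne.symm Xq0) (Ne.symm Xn1_0) hrj (Ne.symm Xq0_1) (Ne.symm Xq1) (Ne.symm Xq0_2) (Ne.symm Xq1_2) (fun e => hlr (p.inj e))) P5_2 (by
                intro x; fin_cases x <;> simp [P5_2, Xq2]) 0 1 2 (fun F => t12 h F) F
            · have Xn1_0 : p r ≠ l := (fun e => Xq0_1 (p.eq_comm'.1 e))
              have Xn2_0 : p j ≠ l := (fun e => Xq0_2 (p.eq_comm'.1 e))
              have Xn2_1 : p j ≠ r := (fun e => Xq1_2 (p.eq_comm'.1 e))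
              exact case ![l, r, j, p l, p r, p j] (inj6 hlr hlj (Ne.symm Xq0) (Ne.symm Xn1_0) (Ne.symm Xn2_0) hrj (Ne.symm Xq0_1) (Ne.symm Xq1) (Ne.symm Xn2_1) (Ne.symm Xq0_2) (Ne.symm Xq1_2) (Ne.symm Xq2) (fun e => hlr (p.inj e)) (fun e => hlj (p.inj e)) (fun e => hrj (p.inj e))) P6_0 (by
                intro x; fin_cases x <;> simp [P6_0]) 0 1 2 (fun F => t13 h F) F

end Pool.Agent.EXL.CU2
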