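import Pool.Agent.EXL.Ops

/-!
# (FI) l'=m, r'=s

Generated file (local identity FI).
-/

set_option maxRecDepth 4000
set_option linter.all false

namespace Pool.Agent.EXL.FI

open Pool.Agent.EXL Pool.Agent.EXL.Pat

variable {α K : Type*} [DecidableEq α] [CommRing K]

/-- The scalar equations. -/
structure Eqs (κ : K) (k : K) (κ1 : K) (k1 : K) : Prop where
  e1 : k * κ1 + k1 = 0
  e2 : 1 - κ * κ1 = 0
  e3 : k + k1 * κ = 0

def P5_0 : Pat (Fin 5) := ⟨![0, 1, 2, 3, 4], by decide⟩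
def P5_1 : Pat (Fin 5) := ⟨![2, 1, 0, 3, 4], by decide⟩
def P5_2 : Pat (Fin 5) := ⟨![4, 1, 2, 3, 0], by decide⟩
def P5_3 : Pat (Fin 5) := ⟨![0, 1, 4, 3, 2], by decide⟩
def P5_4 : Pat (Fin 5) := ⟨![0, 3, 2, 1, 4], by decide⟩
def P5_5 : Pat (Fin 5) := ⟨![0, 4, 2, 3, 1], by decide⟩
def P5_6 : Pat (Fin 5) := ⟨![0, 1, 2, 4, 3], by decide⟩
def P5_7 : Pat (Fin 5) := ⟨![0, 3, 4, 1, 2], by decide⟩
def P5_8 : Pat (Fin 5) := ⟨![2, 3, 0, 1, 4], by decide⟩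
def P5_9 : Pat (Fin 5) := ⟨![2, 4, 0, 3, 1], by decide⟩
def P5_10 : Pat (Fin 5) := ⟨![2, 1, 0, 4, 3], by decide⟩
def P5_11 : Pat (Fin 5) := ⟨![4, 3, 2, 1, 0], by decide⟩
def P5_12 : Pat (Fin 5) := ⟨![1, 0, 2, 3, 4], by decide⟩
def P6_0 : Pat (Fin 6) := ⟨![0, 1, 2, 3, 5, 4], by decide⟩
def P6_1 : Pat (Fin 6) := ⟨![2, 1, 0, 3, 5, 4], by decide⟩
def P6_2 : Pat (Fin 6) := ⟨![0, 3, 2, 1, 5, 4], by decide⟩
def P6_3 : Pat (Fin 6) := ⟨![2, 3, 0, 1, 5, 4], by decide⟩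
def P6_4 : Pat (Fin 6) := ⟨![1, 0, 2, 3, 5, 4], by decide⟩
def P6_5 : Pat (Fin 6) := ⟨![0, 1, 2, 5, 4, 3], by decide⟩
def P6_6 : Pat (Fin 6) := ⟨![2, 1, 0, 5, 4, 3], by decide⟩
def P6_7 : Pat (Fin 6) := ⟨![4, 1, 2, 5, 0, 3], by decide⟩
def P6_8 : Pat (Fin 6) := ⟨![0, 1, 4, 5, 2, 3], by decide⟩
def P7_0 : Pat (Fin 7) := ⟨![0, 1, 2, 5, 6, 3, 4], by decide⟩
def P7_1 : Pat (Fin 7) := ⟨![2, 1, 0, 5, 6, 3, 4], by decide⟩
def P5_13 : Pat (Fin 5) := ⟨![0, 1, 3, 2, 4], by decide⟩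
def P6_9 : Pat (Fin 6) := ⟨![0, 1, 3, 2, 5, 4], by decide⟩
def P6_10 : Pat (Fin 6) := ⟨![0, 1, 5, 3, 4, 2], by decide⟩
def P7_2 : Pat (Fin 7) := ⟨![0, 1, 5, 3, 6, 2, 4], by decide⟩
def P6_11 : Pat (Fin 6) := ⟨![0, 1, 5, 4, 3, 2], by decide⟩
def P7_3 : Pat (Fin 7) := ⟨![0, 1, 5, 6, 4, 2, 3], by decide⟩
def P8_0 : Pat (Fin 8) := ⟨![0, 1, 5, 6, 7, 2, 3, 4], by decide⟩
def P5_14 : Pat (Fin 5) := ⟨![0, 2, 1, 3, 4], by decide⟩
def P6_12 : Pat (Fin 6) := ⟨![0, 2, 1, 3, 5, 4], by decide⟩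
def P5_15 : Pat (Fin 5) := ⟨![0, 2, 1, 4, 3], by decide⟩
def P6_13 : Pat (Fin 6) := ⟨![0, 2, 1, 5, 4, 3], by decide⟩
def P7_4 : Pat (Fin 7) := ⟨![0, 2, 1, 5, 6, 3, 4], by decide⟩
def P6_14 : Pat (Fin 6) := ⟨![0, 3, 5, 1, 4, 2], by decide⟩
def P7_5 : Pat (Fin 7) := ⟨![0, 3, 5, 1, 6, 2, 4], by decide⟩
def P6_15 : Pat (Fin 6) := ⟨![0, 4, 2, 5, 1, 3], by decide⟩
def P6_16 : Pat (Fin 6) := ⟨![2, 4, 0, 5, 1, 3], by decide⟩
def P5_16 : Pat (Fin 5) := ⟨![0, 4, 3, 2, 1], by decide⟩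
def P6_17 : Pat (Fin 6) := ⟨![0, 4, 5, 3, 1, 2], by decide⟩
def P7_6 : Pat (Fin 7) := ⟨![0, 4, 5, 6, 1, 2, 3], by decide⟩
def P6_18 : Pat (Fin 6) := ⟨![0, 5, 2, 3, 4, 1], by decide⟩
def P6_19 : Pat (Fin 6) := ⟨![2, 5, 0, 3, 4, 1], by decide⟩
def P6_20 : Pat (Fin 6) := ⟨![4, 5, 2, 3, 0, 1], by decide⟩
def P6_21 : Pat (Fin 6) := ⟨![0, 5, 4, 3, 2, 1], by decide⟩
def P7_7 : Pat (Fin 7) := ⟨![0, 5, 2, 3, 6, 1, 4], by decide⟩
def P7_8 : Pat (Fin 7) := ⟨![2, 5, 0, 3, 6, 1, 4], by decide⟩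
def P6_22 : Pat (Fin 6) := ⟨![0, 5, 2, 4, 3, 1], by decide⟩
def P6_23 : Pat (Fin 6) := ⟨![2, 5, 0, 4, 3, 1], by decide⟩
def P7_9 : Pat (Fin 7) := ⟨![0, 5, 2, 6, 4, 1, 3], by decide⟩
def P7_10 : Pat (Fin 7) := ⟨![2, 5, 0, 6, 4, 1, 3], by decide⟩
def P7_11 : Pat (Fin 7) := ⟨![4, 5, 2, 6, 0, 1, 3], by decide⟩
def P7_12 : Pat (Fin 7) := ⟨![0, 5, 4, 6, 2, 1, 3], by decide⟩
def P8_1 : Pat (Fin 8) := ⟨![0, 5, 2, 6, 7, 1, 3, 4], by decide⟩
def P8_2 : Pat (Fin 8) := ⟨![2, 5, 0, 6, 7, 1, 3, 4], by decide⟩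
def P6_24 : Pat (Fin 6) := ⟨![0, 5, 3, 2, 4, 1], by decide⟩
def P7_13 : Pat (Fin 7) := ⟨![0, 5, 3, 2, 6, 1, 4], by decide⟩
def P7_14 : Pat (Fin 7) := ⟨![0, 5, 6, 3, 4, 1, 2], by decide⟩
def P8_3 : Pat (Fin 8) := ⟨![0, 5, 6, 3, 7, 1, 2, 4], by decide⟩
def P7_15 : Pat (Fin 7) := ⟨![0, 5, 6, 4, 3, 1, 2], by decide⟩
def P8_4 : Pat (Fin 8) := ⟨![0, 5, 6, 7, 4, 1, 2, 3], by decide⟩
def P9_0 : Pat (Fin 9) := ⟨![0, 5, 6, 7, 8, 1, 2, 3, 4], by decide⟩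
def P5_17 : Pat (Fin 5) := ⟨![1, 0, 2, 4, 3], by decide⟩
def P6_25 : Pat (Fin 6) := ⟨![1, 0, 2, 5, 4, 3], by decide⟩
def P7_16 : Pat (Fin 7) := ⟨![1, 0, 2, 5, 6, 3, 4], by decide⟩
def P5_18 : Pat (Fin 5) := ⟨![1, 0, 3, 2, 4], by decide⟩
def P6_26 : Pat (Fin 6) := ⟨![1, 0, 3, 2, 5, 4], by decide⟩
def P5_19 : Pat (Fin 5) := ⟨![1, 0, 4, 3, 2], by decide⟩
def P6_27 : Pat (Fin 6) := ⟨![1, 0, 4, 5, 2, 3], by decide⟩
def P6_28 : Pat (Fin 6) := ⟨![1, 0, 5, 3, 4, 2], by decide⟩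
def P7_17 : Pat (Fin 7) := ⟨![1, 0, 5, 3, 6, 2, 4], by decide⟩
def P6_29 : Pat (Fin 6) := ⟨![1, 0, 5, 4, 3, 2], by decide⟩
def P7_18 : Pat (Fin 7) := ⟨![1, 0, 5, 6, 4, 2, 3], by decide⟩
def P8_5 : Pat (Fin 8) := ⟨![1, 0, 5, 6, 7, 2, 3, 4], by decide⟩
def P5_20 : Pat (Fin 5) := ⟨![3, 1, 2, 0, 4], by decide⟩
def P6_30 : Pat (Fin 6) := ⟨![3, 1, 2, 0, 5, 4], by decide⟩
def P5_21 : Pat (Fin 5) := ⟨![3, 1, 4, 0, 2], by decide⟩
def P6_31 : Pat (Fin 6) := ⟨![3, 1, 5, 0, 4, 2], by decide⟩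
def P7_19 : Pat (Fin 7) := ⟨![3, 1, 5, 0, 6, 2, 4], by decide⟩
def P5_22 : Pat (Fin 5) := ⟨![3, 2, 1, 0, 4], by decide⟩
def P6_32 : Pat (Fin 6) := ⟨![3, 2, 1, 0, 5, 4], by decide⟩
def P5_23 : Pat (Fin 5) := ⟨![3, 4, 2, 0, 1], by decide⟩
def P6_33 : Pat (Fin 6) := ⟨![3, 4, 5, 0, 1, 2], by decide⟩
def P6_34 : Pat (Fin 6) := ⟨![3, 5, 2, 0, 4, 1], by decide⟩
def P7_20 : Pat (Fin 7) := ⟨![3, 5, 2, 0, 6, 1, 4], by decide⟩
def P6_35 : Pat (Fin 6) := ⟨![3, 5, 4, 0, 2, 1], by decide⟩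
def P7_21 : Pat (Fin 7) := ⟨![3, 5, 6, 0, 4, 1, 2], by decide⟩
def P8_6 : Pat (Fin 8) := ⟨![3, 5, 6, 0, 7, 1, 2, 4], by decide⟩
def P5_24 : Pat (Fin 5) := ⟨![4, 1, 3, 2, 0], by decide⟩
def P6_36 : Pat (Fin 6) := ⟨![4, 1, 5, 3, 0, 2], by decide⟩
def P7_22 : Pat (Fin 7) := ⟨![4, 1, 5, 6, 0, 2, 3], by decide⟩
def P5_25 : Pat (Fin 5) := ⟨![4, 2, 1, 3, 0], by decide⟩
def P6_37 : Pat (Fin 6) := ⟨![4, 2, 1, 5, 0, 3], by decide⟩
def P6_38 : Pat (Fin 6) := ⟨![4, 3, 5, 1, 0, 2], by decide⟩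
def P6_39 : Pat (Fin 6) := ⟨![4, 5, 3, 2, 0, 1], by decide⟩
def P7_23 : Pat (Fin 7) := ⟨![4, 5, 6, 3, 0, 1, 2], by decide⟩
def P8_7 : Pat (Fin 8) := ⟨![4, 5, 6, 7, 0, 1, 2, 3], by decide⟩
def P6_40 : Pat (Fin 6) := ⟨![5, 1, 2, 3, 4, 0], by decide⟩
def P7_24 : Pat (Fin 7) := ⟨![5, 1, 2, 3, 6, 0, 4], by decide⟩
def P6_41 : Pat (Fin 6) := ⟨![5, 1, 2, 4, 3, 0], by decide⟩
def P7_25 : Pat (Fin 7) := ⟨![5, 1, 2, 6, 4, 0, 3], by decide⟩
def P8_8 : Pat (Fin 8) := ⟨![5, 1, 2, 6, 7, 0, 3, 4], by decide⟩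
def P6_42 : Pat (Fin 6) := ⟨![5, 1, 3, 2, 4, 0], by decide⟩
def P7_26 : Pat (Fin 7) := ⟨![5, 1, 3, 2, 6, 0, 4], by decide⟩
def P6_43 : Pat (Fin 6) := ⟨![5, 1, 4, 3, 2, 0], by decide⟩
def P7_27 : Pat (Fin 7) := ⟨![5, 1, 4, 6, 2, 0, 3], by decide⟩
def P7_28 : Pat (Fin 7) := ⟨![5, 1, 6, 3, 4, 0, 2], by decide⟩
def P8_9 : Pat (Fin 8) := ⟨![5, 1, 6, 3, 7, 0, 2, 4], by decide⟩
def P7_29 : Pat (Fin 7) := ⟨![5, 1, 6, 4, 3, 0, 2], by decide⟩
def P8_10 : Pat (Fin 8) := ⟨![5, 1, 6, 7, 4, 0, 2, 3], by decide⟩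
def P9_1 : Pat (Fin 9) := ⟨![5, 1, 6, 7, 8, 0, 2, 3, 4], by decide⟩
def P6_44 : Pat (Fin 6) := ⟨![5, 2, 1, 3, 4, 0], by decide⟩
def P7_30 : Pat (Fin 7) := ⟨![5, 2, 1, 3, 6, 0, 4], by decide⟩
def P6_45 : Pat (Fin 6) := ⟨![5, 2, 1, 4, 3, 0], by decide⟩
def P7_31 : Pat (Fin 7) := ⟨![5, 2, 1, 6, 4, 0, 3], by decide⟩
def P8_11 : Pat (Fin 8) := ⟨![5, 2, 1, 6, 7, 0, 3, 4], by decide⟩
def P6_46 : Pat (Fin 6) := ⟨![5, 3, 2, 1, 4, 0], by decide⟩
def P7_32 : Pat (Fin 7) := ⟨![5, 3, 2, 1, 6, 0, 4], by decide⟩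
def P6_47 : Pat (Fin 6) := ⟨![5, 3, 4, 1, 2, 0], by decide⟩
def P7_33 : Pat (Fin 7) := ⟨![5, 3, 6, 1, 4, 0, 2], by decide⟩
def P8_12 : Pat (Fin 8) := ⟨![5, 3, 6, 1, 7, 0, 2, 4], by decide⟩
def P6_48 : Pat (Fin 6) := ⟨![5, 4, 2, 3, 1, 0], by decide⟩
def P7_34 : Pat (Fin 7) := ⟨![5, 4, 2, 6, 1, 0, 3], by decide⟩
def P6_49 : Pat (Fin 6) := ⟨![5, 4, 3, 2, 1, 0], by decide⟩
def P7_35 : Pat (Fin 7) := ⟨![5, 4, 6, 3, 1, 0, 2], by decide⟩
def P8_13 : Pat (Fin 8) := ⟨![5, 4, 6, 7, 1, 0, 2, 3], by decide⟩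
def P7_36 : Pat (Fin 7) := ⟨![5, 6, 2, 3, 4, 0, 1], by decide⟩
def P8_14 : Pat (Fin 8) := ⟨![5, 6, 2, 3, 7, 0, 1, 4], by decide⟩
def P7_37 : Pat (Fin 7) := ⟨![5, 6, 2, 4, 3, 0, 1], by decide⟩
def P8_15 : Pat (Fin 8) := ⟨![5, 6, 2, 7, 4, 0, 1, 3], by decide⟩
def P9_2 : Pat (Fin 9) := ⟨![5, 6, 2, 7, 8, 0, 1, 3, 4], by decide⟩
def P7_38 : Pat (Fin 7) := ⟨![5, 6, 3, 2, 4, 0, 1], by decide⟩
def P8_16 : Pat (Fin 8) := ⟨![5, 6, 3, 2, 7, 0, 1, 4], by decide⟩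
def P7_39 : Pat (Fin 7) := ⟨![5, 6, 4, 3, 2, 0, 1], by decide⟩
def P8_17 : Pat (Fin 8) := ⟨![5, 6, 4, 7, 2, 0, 1, 3], by decide⟩
def P8_18 : Pat (Fin 8) := ⟨![5, 6, 7, 3, 4, 0, 1, 2], by decide⟩
def P9_3 : Pat (Fin 9) := ⟨![5, 6, 7, 3, 8, 0, 1, 2, 4], by decide⟩
def P8_19 : Pat (Fin 8) := ⟨![5, 6, 7, 4, 3, 0, 1, 2], by decide⟩
def P9_4 : Pat (Fin 9) := ⟨![5, 6, 7, 8, 4, 0, 1, 2, 3], by decide⟩
def P10_0 : Pat (Fin 10) := ⟨![5, 6, 7, 8, 9, 0, 1, 2, 3, 4], by decide⟩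

theorem ev0 (κ : K) (k : K) (F : Pat (Fin 5) → K) :
    bot κ k 0 2 4 F P5_0 = F P5_0 + κ * F P5_1 + k * (F P5_2 + F P5_3) :=
  bot_0 (by decide) (by decide) (by decide) (by decide) (by decide) (by decide)

theorem ev1 (κ1 : K) (k1 : K) (F : Pat (Fin 5) → K) :
    bot κ1 k1 1 3 4 F P5_0 = F P5_0 + κ1 * F P5_4 + k1 * (F P5_5 + F P5_6) :=
  bot_0 (by decide) (by decide) (by decide) (by decide) (by decide) (by decide)

theorem ev2 (κ1 : K) (k1 : K) (F : Pat (Fin 5) → K) :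
    bot κ1 k1 1 3 4 F P5_3 = F P5_3 + κ1 * F P5_7 :=
  bot_1 (by decide) (by decide) (by decide) (by decide)

theorem ev3 (κ1 : K) (k1 : K) (F : Pat (Fin 5) → K) :
    bot κ1 k1 1 3 4 F P5_1 = F P5_1 + κ1 * F P5_8 + k1 * (F P5_9 + F P5_10) :=
  bot_0 (by decide) (by decide) (by decide) (by decide) (by decide) (by decide)

theorem ev4 (κ1 : K) (k1 : K) (F : Pat (Fin 5) → K) :
    bot κ1 k1 1 3 4 F P5_2 = F P5_2 + κ1 * F P5_11 :=
  bot_1 (by decide) (by decide) (by decide) (by decide)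

theorem ev5 (F : Pat (Fin 5) → K) :
    glue 3 2 F P5_0 = F P5_0 :=
  glue_0 (by decide) (by decide)

theorem ev6 (F : Pat (Fin 5) → K) :
    glue 3 2 F P5_6 = 0 :=
  glue_z2 (by decide) (by decide)

theorem ev7 (F : Pat (Fin 5) → K) :
    glue 3 2 F P5_3 = 0 :=
  glue_z1 (by decide) (by decide)

theorem ev8 (F : Pat (Fin 5) → K) :
    glue 3 2 F P5_4 = 0 :=
  glue_z2 (by decide) (by decide)

theorem ev9 (F : Pat (Fin 5) → K) :
    glue 3 2 F P5_7 = F P5_5 :=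
  glue_1 (by decide) (by decide) (by decide) (by decide)

theorem ev10 (F : Pat (Fin 5) → K) :
    glue 3 2 F P5_5 = F P5_5 :=
  glue_0 (by decide) (by decide)

theorem ev11 (F : Pat (Fin 5) → K) :
    glue 3 2 F P5_1 = 0 :=
  glue_z1 (by decide) (by decide)

theorem ev12 (F : Pat (Fin 5) → K) :
    glue 3 2 F P5_10 = F P5_2 :=
  glue_1 (by decide) (by decide) (by decide) (by decide)

theorem ev13 (F : Pat (Fin 5) → K) :
    glue 3 2 F P5_8 = F P5_12 :=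
  glue_1 (by decide) (by decide) (by decide) (by decide)

theorem ev14 (F : Pat (Fin 5) → K) :
    glue 3 2 F P5_9 = 0 :=
  glue_z1 (by decide) (by decide)

theorem ev15 (F : Pat (Fin 5) → K) :
    glue 3 2 F P5_2 = F P5_2 :=
  glue_0 (by decide) (by decide)

theorem ev16 (F : Pat (Fin 5) → K) :
    glue 3 2 F P5_11 = 0 :=
  glue_z2 (by decide) (by decide)

theorem ev17 (F : Pat (Fin 5) → K) :
    emp 2 F P5_0 = F P5_0 :=
  emp_1 (by decide)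

theorem ev18 (F : Pat (Fin 5) → K) :
    emp 3 F P5_0 = F P5_0 :=
  emp_1 (by decide)

theorem ev19 (F : Pat (Fin 5) → K) :
    U 1 0 F P5_0 = F P5_0 + F P5_12 :=
  U_0 (by decide) (by decide) (by decide)

theorem ev20 (κ : K) (k : K) (F : Pat (Fin 6) → K) :
    bot κ k 0 2 4 F P6_0 = F P6_0 + κ * F P6_1 :=
  bot_1 (by decide) (by decide) (by decide) (by decide)

theorem ev21 (κ1 : K) (k1 : K) (F : Pat (Fin 6) → K) :
    bot κ1 k1 1 3 4 F P6_0 = F P6_0 + κ1 * F P6_2 :=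
  bot_1 (by decide) (by decide) (by decide) (by decide)

theorem ev22 (κ1 : K) (k1 : K) (F : Pat (Fin 6) → K) :
    bot κ1 k1 1 3 4 F P6_1 = F P6_1 + κ1 * F P6_3 :=
  bot_1 (by decide) (by decide) (by decide) (by decide)

theorem ev23 (F : Pat (Fin 6) → K) :
    glue 3 2 F P6_0 = F P6_0 :=
  glue_0 (by decide) (by decide)

theorem ev24 (F : Pat (Fin 6) → K) :
    glue 3 2 F P6_2 = 0 :=
  glue_z2 (by decide) (by decide)

theorem ev25 (F : Pat (Fin 6) → K) :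
    glue 3 2 F P6_1 = 0 :=
  glue_z1 (by decide) (by decide)

theorem ev26 (F : Pat (Fin 6) → K) :
    glue 3 2 F P6_3 = F P6_4 :=
  glue_1 (by decide) (by decide) (by decide) (by decide)

theorem ev27 (F : Pat (Fin 6) → K) :
    emp 2 F P6_0 = F P6_0 :=
  emp_1 (by decide)

theorem ev28 (F : Pat (Fin 6) → K) :
    emp 3 F P6_0 = F P6_0 :=
  emp_1 (by decide)

theorem ev29 (F : Pat (Fin 6) → K) :
    U 1 0 F P6_0 = F P6_0 + F P6_4 :=
  U_0 (by decide) (by decide) (by decide)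

theorem ev30 (κ : K) (k : K) (F : Pat (Fin 5) → K) :
    bot κ k 0 2 4 F P5_6 = F P5_6 + κ * F P5_10 :=
  bot_1 (by decide) (by decide) (by decide) (by decide)

theorem ev31 (κ1 : K) (k1 : K) (F : Pat (Fin 5) → K) :
    bot κ1 k1 1 3 4 F P5_6 = 0 :=
  bot_z (by decide)

theorem ev32 (κ1 : K) (k1 : K) (F : Pat (Fin 5) → K) :
    bot κ1 k1 1 3 4 F P5_10 = 0 :=
  bot_z (by decide)

theorem ev33 (F : Pat (Fin 5) → K) :
    emp 2 F P5_6 = F P5_6 :=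
  emp_1 (by decide)

theorem ev34 (F : Pat (Fin 5) → K) :
    emp 3 F P5_6 = 0 :=
  emp_z (by decide)

theorem ev35 (κ : K) (k : K) (F : Pat (Fin 6) → K) :
    bot κ k 0 2 4 F P6_5 = F P6_5 + κ * F P6_6 + k * (F P6_7 + F P6_8) :=
  bot_0 (by decide) (by decide) (by decide) (by decide) (by decide) (by decide)

theorem ev36 (κ1 : K) (k1 : K) (F : Pat (Fin 6) → K) :
    bot κ1 k1 1 3 4 F P6_5 = 0 :=
  bot_z (by decide)

theorem ev37 (κ1 : K) (k1 : K) (F : Pat (Fin 6) → K) :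
    bot κ1 k1 1 3 4 F P6_8 = 0 :=
  bot_z (by decide)

theorem ev38 (κ1 : K) (k1 : K) (F : Pat (Fin 6) → K) :
    bot κ1 k1 1 3 4 F P6_6 = 0 :=
  bot_z (by decide)

theorem ev39 (κ1 : K) (k1 : K) (F : Pat (Fin 6) → K) :
    bot κ1 k1 1 3 4 F P6_7 = 0 :=
  bot_z (by decide)

theorem ev40 (F : Pat (Fin 6) → K) :
    emp 2 F P6_5 = F P6_5 :=
  emp_1 (by decide)

theorem ev41 (F : Pat (Fin 6) → K) :
    emp 3 F P6_5 = 0 :=
  emp_z (by decide)

theorem ev42 (κ : K) (k : K) (F : Pat (Fin 7) → K) :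
    bot κ k 0 2 4 F P7_0 = F P7_0 + κ * F P7_1 :=
  bot_1 (by decide) (by decide) (by decide) (by decide)

theorem ev43 (κ1 : K) (k1 : K) (F : Pat (Fin 7) → K) :
    bot κ1 k1 1 3 4 F P7_0 = 0 :=
  bot_z (by decide)

theorem ev44 (κ1 : K) (k1 : K) (F : Pat (Fin 7) → K) :
    bot κ1 k1 1 3 4 F P7_1 = 0 :=
  bot_z (by decide)

theorem ev45 (F : Pat (Fin 7) → K) :
    emp 2 F P7_0 = F P7_0 :=
  emp_1 (by decide)

theorem ev46 (F : Pat (Fin 7) → K) :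
    emp 3 F P7_0 = 0 :=
  emp_z (by decide)

theorem ev47 (κ : K) (k : K) (F : Pat (Fin 5) → K) :
    bot κ k 0 2 4 F P5_13 = 0 :=
  bot_z (by decide)

theorem ev48 (F : Pat (Fin 5) → K) :
    emp 2 F P5_13 = 0 :=
  emp_z (by decide)

theorem ev49 (κ : K) (k : K) (F : Pat (Fin 6) → K) :
    bot κ k 0 2 4 F P6_9 = 0 :=
  bot_z (by decide)

theorem ev50 (F : Pat (Fin 6) → K) :
    emp 2 F P6_9 = 0 :=
  emp_z (by decide)

theorem ev51 (κ : K) (k : K) (F : Pat (Fin 5) → K) :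
    bot κ k 0 2 4 F P5_3 = 0 :=
  bot_z (by decide)

theorem ev52 (F : Pat (Fin 5) → K) :
    emp 2 F P5_3 = 0 :=
  emp_z (by decide)

theorem ev53 (κ : K) (k : K) (F : Pat (Fin 6) → K) :
    bot κ k 0 2 4 F P6_8 = 0 :=
  bot_z (by decide)

theorem ev54 (F : Pat (Fin 6) → K) :
    emp 2 F P6_8 = 0 :=
  emp_z (by decide)

theorem ev55 (κ : K) (k : K) (F : Pat (Fin 6) → K) :
    bot κ k 0 2 4 F P6_10 = 0 :=
  bot_z (by decide)

theorem ev56 (F : Pat (Fin 6) → K) :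
    emp 2 F P6_10 = 0 :=
  emp_z (by decide)

theorem ev57 (κ : K) (k : K) (F : Pat (Fin 7) → K) :
    bot κ k 0 2 4 F P7_2 = 0 :=
  bot_z (by decide)

theorem ev58 (F : Pat (Fin 7) → K) :
    emp 2 F P7_2 = 0 :=
  emp_z (by decide)

theorem ev59 (κ : K) (k : K) (F : Pat (Fin 6) → K) :
    bot κ k 0 2 4 F P6_11 = 0 :=
  bot_z (by decide)

theorem ev60 (F : Pat (Fin 6) → K) :
    emp 2 F P6_11 = 0 :=
  emp_z (by decide)

theorem ev61 (κ : K) (k : K) (F : Pat (Fin 7) → K) :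
    bot κ k 0 2 4 F P7_3 = 0 :=
  bot_z (by decide)

theorem ev62 (F : Pat (Fin 7) → K) :
    emp 2 F P7_3 = 0 :=
  emp_z (by decide)

theorem ev63 (κ : K) (k : K) (F : Pat (Fin 8) → K) :
    bot κ k 0 2 4 F P8_0 = 0 :=
  bot_z (by decide)

theorem ev64 (F : Pat (Fin 8) → K) :
    emp 2 F P8_0 = 0 :=
  emp_z (by decide)

theorem ev65 (κ : K) (k : K) (F : Pat (Fin 5) → K) :
    bot κ k 0 2 4 F P5_14 = 0 :=
  bot_z (by decide)

theorem ev66 (F : Pat (Fin 5) → K) :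
    emp 2 F P5_14 = 0 :=
  emp_z (by decide)

theorem ev67 (κ : K) (k : K) (F : Pat (Fin 6) → K) :
    bot κ k 0 2 4 F P6_12 = 0 :=
  bot_z (by decide)

theorem ev68 (F : Pat (Fin 6) → K) :
    emp 2 F P6_12 = 0 :=
  emp_z (by decide)

theorem ev69 (κ : K) (k : K) (F : Pat (Fin 5) → K) :
    bot κ k 0 2 4 F P5_15 = 0 :=
  bot_z (by decide)

theorem ev70 (F : Pat (Fin 5) → K) :
    emp 2 F P5_15 = 0 :=
  emp_z (by decide)

theorem ev71 (κ : K) (k : K) (F : Pat (Fin 6) → K) :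
    bot κ k 0 2 4 F P6_13 = 0 :=
  bot_z (by decide)

theorem ev72 (F : Pat (Fin 6) → K) :
    emp 2 F P6_13 = 0 :=
  emp_z (by decide)

theorem ev73 (κ : K) (k : K) (F : Pat (Fin 7) → K) :
    bot κ k 0 2 4 F P7_4 = 0 :=
  bot_z (by decide)

theorem ev74 (F : Pat (Fin 7) → K) :
    emp 2 F P7_4 = 0 :=
  emp_z (by decide)

theorem ev75 (κ : K) (k : K) (F : Pat (Fin 5) → K) :
    bot κ k 0 2 4 F P5_4 = F P5_4 + κ * F P5_8 + k * (F P5_11 + F P5_7) :=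
  bot_0 (by decide) (by decide) (by decide) (by decide) (by decide) (by decide)

theorem ev76 (κ1 : K) (k1 : K) (F : Pat (Fin 5) → K) :
    bot κ1 k1 1 3 4 F P5_4 = 0 :=
  bot_z (by decide)

theorem ev77 (κ1 : K) (k1 : K) (F : Pat (Fin 5) → K) :
    bot κ1 k1 1 3 4 F P5_7 = 0 :=
  bot_z (by decide)

theorem ev78 (κ1 : K) (k1 : K) (F : Pat (Fin 5) → K) :
    bot κ1 k1 1 3 4 F P5_8 = 0 :=
  bot_z (by decide)

theorem ev79 (κ1 : K) (k1 : K) (F : Pat (Fin 5) → K) :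
    bot κ1 k1 1 3 4 F P5_11 = 0 :=
  bot_z (by decide)

theorem ev80 (F : Pat (Fin 5) → K) :
    emp 2 F P5_4 = F P5_4 :=
  emp_1 (by decide)

theorem ev81 (F : Pat (Fin 5) → K) :
    emp 3 F P5_4 = 0 :=
  emp_z (by decide)

theorem ev82 (κ : K) (k : K) (F : Pat (Fin 6) → K) :
    bot κ k 0 2 4 F P6_2 = F P6_2 + κ * F P6_3 :=
  bot_1 (by decide) (by decide) (by decide) (by decide)

theorem ev83 (κ1 : K) (k1 : K) (F : Pat (Fin 6) → K) :
    bot κ1 k1 1 3 4 F P6_2 = 0 :=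
  bot_z (by decide)

theorem ev84 (κ1 : K) (k1 : K) (F : Pat (Fin 6) → K) :
    bot κ1 k1 1 3 4 F P6_3 = 0 :=
  bot_z (by decide)

theorem ev85 (F : Pat (Fin 6) → K) :
    emp 2 F P6_2 = F P6_2 :=
  emp_1 (by decide)

theorem ev86 (F : Pat (Fin 6) → K) :
    emp 3 F P6_2 = 0 :=
  emp_z (by decide)

theorem ev87 (κ : K) (k : K) (F : Pat (Fin 5) → K) :
    bot κ k 0 2 4 F P5_7 = 0 :=
  bot_z (by decide)

theorem ev88 (F : Pat (Fin 5) → K) :
    emp 2 F P5_7 = 0 :=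
  emp_z (by decide)

theorem ev89 (κ : K) (k : K) (F : Pat (Fin 6) → K) :
    bot κ k 0 2 4 F P6_14 = 0 :=
  bot_z (by decide)

theorem ev90 (F : Pat (Fin 6) → K) :
    emp 2 F P6_14 = 0 :=
  emp_z (by decide)

theorem ev91 (κ : K) (k : K) (F : Pat (Fin 7) → K) :
    bot κ k 0 2 4 F P7_5 = 0 :=
  bot_z (by decide)

theorem ev92 (F : Pat (Fin 7) → K) :
    emp 2 F P7_5 = 0 :=
  emp_z (by decide)

theorem ev93 (κ : K) (k : K) (F : Pat (Fin 5) → K) :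
    bot κ k 0 2 4 F P5_5 = F P5_5 + κ * F P5_9 :=
  bot_1 (by decide) (by decide) (by decide) (by decide)

theorem ev94 (κ1 : K) (k1 : K) (F : Pat (Fin 5) → K) :
    bot κ1 k1 1 3 4 F P5_5 = 0 :=
  bot_z (by decide)

theorem ev95 (κ1 : K) (k1 : K) (F : Pat (Fin 5) → K) :
    bot κ1 k1 1 3 4 F P5_9 = 0 :=
  bot_z (by decide)

theorem ev96 (F : Pat (Fin 5) → K) :
    emp 2 F P5_5 = F P5_5 :=
  emp_1 (by decide)

theorem ev97 (F : Pat (Fin 5) → K) :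
    emp 3 F P5_5 = F P5_5 :=
  emp_1 (by decide)

theorem ev98 (F : Pat (Fin 5) → K) :
    U 1 0 F P5_5 = 0 :=
  U_z (by decide)

theorem ev99 (κ : K) (k : K) (F : Pat (Fin 6) → K) :
    bot κ k 0 2 4 F P6_15 = F P6_15 + κ * F P6_16 :=
  bot_1 (by decide) (by decide) (by decide) (by decide)

theorem ev100 (κ1 : K) (k1 : K) (F : Pat (Fin 6) → K) :
    bot κ1 k1 1 3 4 F P6_15 = 0 :=
  bot_z (by decide)

theorem ev101 (κ1 : K) (k1 : K) (F : Pat (Fin 6) → K) :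
    bot κ1 k1 1 3 4 F P6_16 = 0 :=
  bot_z (by decide)

theorem ev102 (F : Pat (Fin 6) → K) :
    emp 2 F P6_15 = F P6_15 :=
  emp_1 (by decide)

theorem ev103 (F : Pat (Fin 6) → K) :
    emp 3 F P6_15 = 0 :=
  emp_z (by decide)

theorem ev104 (κ : K) (k : K) (F : Pat (Fin 5) → K) :
    bot κ k 0 2 4 F P5_16 = 0 :=
  bot_z (by decide)

theorem ev105 (F : Pat (Fin 5) → K) :
    emp 2 F P5_16 = 0 :=
  emp_z (by decide)

theorem ev106 (κ : K) (k : K) (F : Pat (Fin 6) → K) :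
    bot κ k 0 2 4 F P6_17 = 0 :=
  bot_z (by decide)

theorem ev107 (F : Pat (Fin 6) → K) :
    emp 2 F P6_17 = 0 :=
  emp_z (by decide)

theorem ev108 (κ : K) (k : K) (F : Pat (Fin 7) → K) :
    bot κ k 0 2 4 F P7_6 = 0 :=
  bot_z (by decide)

theorem ev109 (F : Pat (Fin 7) → K) :
    emp 2 F P7_6 = 0 :=
  emp_z (by decide)

theorem ev110 (κ : K) (k : K) (F : Pat (Fin 6) → K) :
    bot κ k 0 2 4 F P6_18 = F P6_18 + κ * F P6_19 + k * (F P6_20 + F P6_21) :=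
  bot_0 (by decide) (by decide) (by decide) (by decide) (by decide) (by decide)

theorem ev111 (κ1 : K) (k1 : K) (F : Pat (Fin 6) → K) :
    bot κ1 k1 1 3 4 F P6_18 = 0 :=
  bot_z (by decide)

theorem ev112 (κ1 : K) (k1 : K) (F : Pat (Fin 6) → K) :
    bot κ1 k1 1 3 4 F P6_21 = 0 :=
  bot_z (by decide)

theorem ev113 (κ1 : K) (k1 : K) (F : Pat (Fin 6) → K) :
    bot κ1 k1 1 3 4 F P6_19 = 0 :=
  bot_z (by decide)

theorem ev114 (κ1 : K) (k1 : K) (F : Pat (Fin 6) → K) :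
    bot κ1 k1 1 3 4 F P6_20 = 0 :=
  bot_z (by decide)

theorem ev115 (F : Pat (Fin 6) → K) :
    emp 2 F P6_18 = F P6_18 :=
  emp_1 (by decide)

theorem ev116 (F : Pat (Fin 6) → K) :
    emp 3 F P6_18 = F P6_18 :=
  emp_1 (by decide)

theorem ev117 (F : Pat (Fin 6) → K) :
    U 1 0 F P6_18 = 0 :=
  U_z (by decide)

theorem ev118 (κ : K) (k : K) (F : Pat (Fin 7) → K) :
    bot κ k 0 2 4 F P7_7 = F P7_7 + κ * F P7_8 :=
  bot_1 (by decide) (by decide) (by decide) (by decide)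

theorem ev119 (κ1 : K) (k1 : K) (F : Pat (Fin 7) → K) :
    bot κ1 k1 1 3 4 F P7_7 = 0 :=
  bot_z (by decide)

theorem ev120 (κ1 : K) (k1 : K) (F : Pat (Fin 7) → K) :
    bot κ1 k1 1 3 4 F P7_8 = 0 :=
  bot_z (by decide)

theorem ev121 (F : Pat (Fin 7) → K) :
    emp 2 F P7_7 = F P7_7 :=
  emp_1 (by decide)

theorem ev122 (F : Pat (Fin 7) → K) :
    emp 3 F P7_7 = F P7_7 :=
  emp_1 (by decide)

theorem ev123 (F : Pat (Fin 7) → K) :
    U 1 0 F P7_7 = 0 :=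
  U_z (by decide)

theorem ev124 (κ : K) (k : K) (F : Pat (Fin 6) → K) :
    bot κ k 0 2 4 F P6_22 = F P6_22 + κ * F P6_23 :=
  bot_1 (by decide) (by decide) (by decide) (by decide)

theorem ev125 (κ1 : K) (k1 : K) (F : Pat (Fin 6) → K) :
    bot κ1 k1 1 3 4 F P6_22 = 0 :=
  bot_z (by decide)

theorem ev126 (κ1 : K) (k1 : K) (F : Pat (Fin 6) → K) :
    bot κ1 k1 1 3 4 F P6_23 = 0 :=
  bot_z (by decide)

theorem ev127 (F : Pat (Fin 6) → K) :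
    emp 2 F P6_22 = F P6_22 :=
  emp_1 (by decide)

theorem ev128 (F : Pat (Fin 6) → K) :
    emp 3 F P6_22 = 0 :=
  emp_z (by decide)

theorem ev129 (κ : K) (k : K) (F : Pat (Fin 7) → K) :
    bot κ k 0 2 4 F P7_9 = F P7_9 + κ * F P7_10 + k * (F P7_11 + F P7_12) :=
  bot_0 (by decide) (by decide) (by decide) (by decide) (by decide) (by decide)

theorem ev130 (κ1 : K) (k1 : K) (F : Pat (Fin 7) → K) :
    bot κ1 k1 1 3 4 F P7_9 = 0 :=
  bot_z (by decide)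

theorem ev131 (κ1 : K) (k1 : K) (F : Pat (Fin 7) → K) :
    bot κ1 k1 1 3 4 F P7_12 = 0 :=
  bot_z (by decide)

theorem ev132 (κ1 : K) (k1 : K) (F : Pat (Fin 7) → K) :
    bot κ1 k1 1 3 4 F P7_10 = 0 :=
  bot_z (by decide)

theorem ev133 (κ1 : K) (k1 : K) (F : Pat (Fin 7) → K) :
    bot κ1 k1 1 3 4 F P7_11 = 0 :=
  bot_z (by decide)

theorem ev134 (F : Pat (Fin 7) → K) :
    emp 2 F P7_9 = F P7_9 :=
  emp_1 (by decide)

theorem ev135 (F : Pat (Fin 7) → K) :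
    emp 3 F P7_9 = 0 :=
  emp_z (by decide)

theorem ev136 (κ : K) (k : K) (F : Pat (Fin 8) → K) :
    bot κ k 0 2 4 F P8_1 = F P8_1 + κ * F P8_2 :=
  bot_1 (by decide) (by decide) (by decide) (by decide)

theorem ev137 (κ1 : K) (k1 : K) (F : Pat (Fin 8) → K) :
    bot κ1 k1 1 3 4 F P8_1 = 0 :=
  bot_z (by decide)

theorem ev138 (κ1 : K) (k1 : K) (F : Pat (Fin 8) → K) :
    bot κ1 k1 1 3 4 F P8_2 = 0 :=
  bot_z (by decide)

theorem ev139 (F : Pat (Fin 8) → K) :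
    emp 2 F P8_1 = F P8_1 :=
  emp_1 (by decide)

theorem ev140 (F : Pat (Fin 8) → K) :
    emp 3 F P8_1 = 0 :=
  emp_z (by decide)

theorem ev141 (κ : K) (k : K) (F : Pat (Fin 6) → K) :
    bot κ k 0 2 4 F P6_24 = 0 :=
  bot_z (by decide)

theorem ev142 (F : Pat (Fin 6) → K) :
    emp 2 F P6_24 = 0 :=
  emp_z (by decide)

theorem ev143 (κ : K) (k : K) (F : Pat (Fin 7) → K) :
    bot κ k 0 2 4 F P7_13 = 0 :=
  bot_z (by decide)

theorem ev144 (F : Pat (Fin 7) → K) :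
    emp 2 F P7_13 = 0 :=
  emp_z (by decide)

theorem ev145 (κ : K) (k : K) (F : Pat (Fin 6) → K) :
    bot κ k 0 2 4 F P6_21 = 0 :=
  bot_z (by decide)

theorem ev146 (F : Pat (Fin 6) → K) :
    emp 2 F P6_21 = 0 :=
  emp_z (by decide)

theorem ev147 (κ : K) (k : K) (F : Pat (Fin 7) → K) :
    bot κ k 0 2 4 F P7_12 = 0 :=
  bot_z (by decide)

theorem ev148 (F : Pat (Fin 7) → K) :
    emp 2 F P7_12 = 0 :=
  emp_z (by decide)

theorem ev149 (κ : K) (k : K) (F : Pat (Fin 7) → K) :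
    bot κ k 0 2 4 F P7_14 = 0 :=
  bot_z (by decide)

theorem ev150 (F : Pat (Fin 7) → K) :
    emp 2 F P7_14 = 0 :=
  emp_z (by decide)

theorem ev151 (κ : K) (k : K) (F : Pat (Fin 8) → K) :
    bot κ k 0 2 4 F P8_3 = 0 :=
  bot_z (by decide)

theorem ev152 (F : Pat (Fin 8) → K) :
    emp 2 F P8_3 = 0 :=
  emp_z (by decide)

theorem ev153 (κ : K) (k : K) (F : Pat (Fin 7) → K) :
    bot κ k 0 2 4 F P7_15 = 0 :=
  bot_z (by decide)

theorem ev154 (F : Pat (Fin 7) → K) :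
    emp 2 F P7_15 = 0 :=
  emp_z (by decide)

theorem ev155 (κ : K) (k : K) (F : Pat (Fin 8) → K) :
    bot κ k 0 2 4 F P8_4 = 0 :=
  bot_z (by decide)

theorem ev156 (F : Pat (Fin 8) → K) :
    emp 2 F P8_4 = 0 :=
  emp_z (by decide)

theorem ev157 (κ : K) (k : K) (F : Pat (Fin 9) → K) :
    bot κ k 0 2 4 F P9_0 = 0 :=
  bot_z (by decide)

theorem ev158 (F : Pat (Fin 9) → K) :
    emp 2 F P9_0 = 0 :=
  emp_z (by decide)

theorem ev159 (κ : K) (k : K) (F : Pat (Fin 5) → K) :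
    bot κ k 0 2 4 F P5_12 = 0 :=
  bot_z (by decide)

theorem ev160 (F : Pat (Fin 5) → K) :
    emp 2 F P5_12 = F P5_12 :=
  emp_1 (by decide)

theorem ev161 (F : Pat (Fin 5) → K) :
    emp 3 F P5_12 = F P5_12 :=
  emp_1 (by decide)

theorem ev162 (F : Pat (Fin 5) → K) :
    U 1 0 F P5_12 = 0 :=
  U_z (by decide)

theorem ev163 (κ : K) (k : K) (F : Pat (Fin 6) → K) :
    bot κ k 0 2 4 F P6_4 = 0 :=
  bot_z (by decide)

theorem ev164 (F : Pat (Fin 6) → K) :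
    emp 2 F P6_4 = F P6_4 :=
  emp_1 (by decide)

theorem ev165 (F : Pat (Fin 6) → K) :
    emp 3 F P6_4 = F P6_4 :=
  emp_1 (by decide)

theorem ev166 (F : Pat (Fin 6) → K) :
    U 1 0 F P6_4 = 0 :=
  U_z (by decide)

theorem ev167 (κ : K) (k : K) (F : Pat (Fin 5) → K) :
    bot κ k 0 2 4 F P5_17 = 0 :=
  bot_z (by decide)

theorem ev168 (F : Pat (Fin 5) → K) :
    emp 2 F P5_17 = F P5_17 :=
  emp_1 (by decide)

theorem ev169 (F : Pat (Fin 5) → K) :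
    emp 3 F P5_17 = 0 :=
  emp_z (by decide)

theorem ev170 (κ : K) (k : K) (F : Pat (Fin 6) → K) :
    bot κ k 0 2 4 F P6_25 = 0 :=
  bot_z (by decide)

theorem ev171 (F : Pat (Fin 6) → K) :
    emp 2 F P6_25 = F P6_25 :=
  emp_1 (by decide)

theorem ev172 (F : Pat (Fin 6) → K) :
    emp 3 F P6_25 = 0 :=
  emp_z (by decide)

theorem ev173 (κ : K) (k : K) (F : Pat (Fin 7) → K) :
    bot κ k 0 2 4 F P7_16 = 0 :=
  bot_z (by decide)

theorem ev174 (F : Pat (Fin 7) → K) :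
    emp 2 F P7_16 = F P7_16 :=
  emp_1 (by decide)

theorem ev175 (F : Pat (Fin 7) → K) :
    emp 3 F P7_16 = 0 :=
  emp_z (by decide)

theorem ev176 (κ : K) (k : K) (F : Pat (Fin 5) → K) :
    bot κ k 0 2 4 F P5_18 = 0 :=
  bot_z (by decide)

theorem ev177 (F : Pat (Fin 5) → K) :
    emp 2 F P5_18 = 0 :=
  emp_z (by decide)

theorem ev178 (κ : K) (k : K) (F : Pat (Fin 6) → K) :
    bot κ k 0 2 4 F P6_26 = 0 :=
  bot_z (by decide)

theorem ev179 (F : Pat (Fin 6) → K) :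
    emp 2 F P6_26 = 0 :=
  emp_z (by decide)

theorem ev180 (κ : K) (k : K) (F : Pat (Fin 5) → K) :
    bot κ k 0 2 4 F P5_19 = 0 :=
  bot_z (by decide)

theorem ev181 (F : Pat (Fin 5) → K) :
    emp 2 F P5_19 = 0 :=
  emp_z (by decide)

theorem ev182 (κ : K) (k : K) (F : Pat (Fin 6) → K) :
    bot κ k 0 2 4 F P6_27 = 0 :=
  bot_z (by decide)

theorem ev183 (F : Pat (Fin 6) → K) :
    emp 2 F P6_27 = 0 :=
  emp_z (by decide)

theorem ev184 (κ : K) (k : K) (F : Pat (Fin 6) → K) :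
    bot κ k 0 2 4 F P6_28 = 0 :=
  bot_z (by decide)

theorem ev185 (F : Pat (Fin 6) → K) :
    emp 2 F P6_28 = 0 :=
  emp_z (by decide)

theorem ev186 (κ : K) (k : K) (F : Pat (Fin 7) → K) :
    bot κ k 0 2 4 F P7_17 = 0 :=
  bot_z (by decide)

theorem ev187 (F : Pat (Fin 7) → K) :
    emp 2 F P7_17 = 0 :=
  emp_z (by decide)

theorem ev188 (κ : K) (k : K) (F : Pat (Fin 6) → K) :
    bot κ k 0 2 4 F P6_29 = 0 :=
  bot_z (by decide)

theorem ev189 (F : Pat (Fin 6) → K) :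
    emp 2 F P6_29 = 0 :=
  emp_z (by decide)

theorem ev190 (κ : K) (k : K) (F : Pat (Fin 7) → K) :
    bot κ k 0 2 4 F P7_18 = 0 :=
  bot_z (by decide)

theorem ev191 (F : Pat (Fin 7) → K) :
    emp 2 F P7_18 = 0 :=
  emp_z (by decide)

theorem ev192 (κ : K) (k : K) (F : Pat (Fin 8) → K) :
    bot κ k 0 2 4 F P8_5 = 0 :=
  bot_z (by decide)

theorem ev193 (F : Pat (Fin 8) → K) :
    emp 2 F P8_5 = 0 :=
  emp_z (by decide)

theorem ev194 (κ : K) (k : K) (F : Pat (Fin 5) → K) :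
    bot κ k 0 2 4 F P5_1 = 0 :=
  bot_z (by decide)

theorem ev195 (F : Pat (Fin 5) → K) :
    emp 2 F P5_1 = 0 :=
  emp_z (by decide)

theorem ev196 (κ : K) (k : K) (F : Pat (Fin 6) → K) :
    bot κ k 0 2 4 F P6_1 = 0 :=
  bot_z (by decide)

theorem ev197 (F : Pat (Fin 6) → K) :
    emp 2 F P6_1 = 0 :=
  emp_z (by decide)

theorem ev198 (κ : K) (k : K) (F : Pat (Fin 5) → K) :
    bot κ k 0 2 4 F P5_10 = 0 :=
  bot_z (by decide)

theorem ev199 (F : Pat (Fin 5) → K) :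
    emp 2 F P5_10 = 0 :=
  emp_z (by decide)

theorem ev200 (κ : K) (k : K) (F : Pat (Fin 6) → K) :
    bot κ k 0 2 4 F P6_6 = 0 :=
  bot_z (by decide)

theorem ev201 (F : Pat (Fin 6) → K) :
    emp 2 F P6_6 = 0 :=
  emp_z (by decide)

theorem ev202 (κ : K) (k : K) (F : Pat (Fin 7) → K) :
    bot κ k 0 2 4 F P7_1 = 0 :=
  bot_z (by decide)

theorem ev203 (F : Pat (Fin 7) → K) :
    emp 2 F P7_1 = 0 :=
  emp_z (by decide)

theorem ev204 (κ : K) (k : K) (F : Pat (Fin 5) → K) :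
    bot κ k 0 2 4 F P5_8 = 0 :=
  bot_z (by decide)

theorem ev205 (F : Pat (Fin 5) → K) :
    emp 2 F P5_8 = 0 :=
  emp_z (by decide)

theorem ev206 (κ : K) (k : K) (F : Pat (Fin 6) → K) :
    bot κ k 0 2 4 F P6_3 = 0 :=
  bot_z (by decide)

theorem ev207 (F : Pat (Fin 6) → K) :
    emp 2 F P6_3 = 0 :=
  emp_z (by decide)

theorem ev208 (κ : K) (k : K) (F : Pat (Fin 5) → K) :
    bot κ k 0 2 4 F P5_9 = 0 :=
  bot_z (by decide)

theorem ev209 (F : Pat (Fin 5) → K) :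
    emp 2 F P5_9 = 0 :=
  emp_z (by decide)

theorem ev210 (κ : K) (k : K) (F : Pat (Fin 6) → K) :
    bot κ k 0 2 4 F P6_16 = 0 :=
  bot_z (by decide)

theorem ev211 (F : Pat (Fin 6) → K) :
    emp 2 F P6_16 = 0 :=
  emp_z (by decide)

theorem ev212 (κ : K) (k : K) (F : Pat (Fin 6) → K) :
    bot κ k 0 2 4 F P6_19 = 0 :=
  bot_z (by decide)

theorem ev213 (F : Pat (Fin 6) → K) :
    emp 2 F P6_19 = 0 :=
  emp_z (by decide)

theorem ev214 (κ : K) (k : K) (F : Pat (Fin 7) → K) :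
    bot κ k 0 2 4 F P7_8 = 0 :=
  bot_z (by decide)

theorem ev215 (F : Pat (Fin 7) → K) :
    emp 2 F P7_8 = 0 :=
  emp_z (by decide)

theorem ev216 (κ : K) (k : K) (F : Pat (Fin 6) → K) :
    bot κ k 0 2 4 F P6_23 = 0 :=
  bot_z (by decide)

theorem ev217 (F : Pat (Fin 6) → K) :
    emp 2 F P6_23 = 0 :=
  emp_z (by decide)

theorem ev218 (κ : K) (k : K) (F : Pat (Fin 7) → K) :
    bot κ k 0 2 4 F P7_10 = 0 :=
  bot_z (by decide)

theorem ev219 (F : Pat (Fin 7) → K) :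
    emp 2 F P7_10 = 0 :=
  emp_z (by decide)

theorem ev220 (κ : K) (k : K) (F : Pat (Fin 8) → K) :
    bot κ k 0 2 4 F P8_2 = 0 :=
  bot_z (by decide)

theorem ev221 (F : Pat (Fin 8) → K) :
    emp 2 F P8_2 = 0 :=
  emp_z (by decide)

theorem ev222 (κ : K) (k : K) (F : Pat (Fin 5) → K) :
    bot κ k 0 2 4 F P5_20 = 0 :=
  bot_z (by decide)

theorem ev223 (F : Pat (Fin 5) → K) :
    emp 2 F P5_20 = F P5_20 :=
  emp_1 (by decide)

theorem ev224 (F : Pat (Fin 5) → K) :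
    emp 3 F P5_20 = 0 :=
  emp_z (by decide)

theorem ev225 (κ : K) (k : K) (F : Pat (Fin 6) → K) :
    bot κ k 0 2 4 F P6_30 = 0 :=
  bot_z (by decide)

theorem ev226 (F : Pat (Fin 6) → K) :
    emp 2 F P6_30 = F P6_30 :=
  emp_1 (by decide)

theorem ev227 (F : Pat (Fin 6) → K) :
    emp 3 F P6_30 = 0 :=
  emp_z (by decide)

theorem ev228 (κ : K) (k : K) (F : Pat (Fin 5) → K) :
    bot κ k 0 2 4 F P5_21 = 0 :=
  bot_z (by decide)

theorem ev229 (F : Pat (Fin 5) → K) :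
    emp 2 F P5_21 = 0 :=
  emp_z (by decide)

theorem ev230 (κ : K) (k : K) (F : Pat (Fin 6) → K) :
    bot κ k 0 2 4 F P6_31 = 0 :=
  bot_z (by decide)

theorem ev231 (F : Pat (Fin 6) → K) :
    emp 2 F P6_31 = 0 :=
  emp_z (by decide)

theorem ev232 (κ : K) (k : K) (F : Pat (Fin 7) → K) :
    bot κ k 0 2 4 F P7_19 = 0 :=
  bot_z (by decide)

theorem ev233 (F : Pat (Fin 7) → K) :
    emp 2 F P7_19 = 0 :=
  emp_z (by decide)

theorem ev234 (κ : K) (k : K) (F : Pat (Fin 5) → K) :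
    bot κ k 0 2 4 F P5_22 = 0 :=
  bot_z (by decide)

theorem ev235 (F : Pat (Fin 5) → K) :
    emp 2 F P5_22 = 0 :=
  emp_z (by decide)

theorem ev236 (κ : K) (k : K) (F : Pat (Fin 6) → K) :
    bot κ k 0 2 4 F P6_32 = 0 :=
  bot_z (by decide)

theorem ev237 (F : Pat (Fin 6) → K) :
    emp 2 F P6_32 = 0 :=
  emp_z (by decide)

theorem ev238 (κ : K) (k : K) (F : Pat (Fin 5) → K) :
    bot κ k 0 2 4 F P5_23 = 0 :=
  bot_z (by decide)

theorem ev239 (F : Pat (Fin 5) → K) :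
    emp 2 F P5_23 = F P5_23 :=
  emp_1 (by decide)

theorem ev240 (F : Pat (Fin 5) → K) :
    emp 3 F P5_23 = 0 :=
  emp_z (by decide)

theorem ev241 (κ : K) (k : K) (F : Pat (Fin 6) → K) :
    bot κ k 0 2 4 F P6_33 = 0 :=
  bot_z (by decide)

theorem ev242 (F : Pat (Fin 6) → K) :
    emp 2 F P6_33 = 0 :=
  emp_z (by decide)

theorem ev243 (κ : K) (k : K) (F : Pat (Fin 6) → K) :
    bot κ k 0 2 4 F P6_34 = 0 :=
  bot_z (by decide)

theorem ev244 (F : Pat (Fin 6) → K) :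
    emp 2 F P6_34 = F P6_34 :=
  emp_1 (by decide)

theorem ev245 (F : Pat (Fin 6) → K) :
    emp 3 F P6_34 = 0 :=
  emp_z (by decide)

theorem ev246 (κ : K) (k : K) (F : Pat (Fin 7) → K) :
    bot κ k 0 2 4 F P7_20 = 0 :=
  bot_z (by decide)

theorem ev247 (F : Pat (Fin 7) → K) :
    emp 2 F P7_20 = F P7_20 :=
  emp_1 (by decide)

theorem ev248 (F : Pat (Fin 7) → K) :
    emp 3 F P7_20 = 0 :=
  emp_z (by decide)

theorem ev249 (κ : K) (k : K) (F : Pat (Fin 6) → K) :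
    bot κ k 0 2 4 F P6_35 = 0 :=
  bot_z (by decide)

theorem ev250 (F : Pat (Fin 6) → K) :
    emp 2 F P6_35 = 0 :=
  emp_z (by decide)

theorem ev251 (κ : K) (k : K) (F : Pat (Fin 7) → K) :
    bot κ k 0 2 4 F P7_21 = 0 :=
  bot_z (by decide)

theorem ev252 (F : Pat (Fin 7) → K) :
    emp 2 F P7_21 = 0 :=
  emp_z (by decide)

theorem ev253 (κ : K) (k : K) (F : Pat (Fin 8) → K) :
    bot κ k 0 2 4 F P8_6 = 0 :=
  bot_z (by decide)

theorem ev254 (F : Pat (Fin 8) → K) :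
    emp 2 F P8_6 = 0 :=
  emp_z (by decide)

theorem ev255 (κ : K) (k : K) (F : Pat (Fin 5) → K) :
    bot κ k 0 2 4 F P5_2 = 0 :=
  bot_z (by decide)

theorem ev256 (F : Pat (Fin 5) → K) :
    emp 2 F P5_2 = F P5_2 :=
  emp_1 (by decide)

theorem ev257 (F : Pat (Fin 5) → K) :
    emp 3 F P5_2 = F P5_2 :=
  emp_1 (by decide)

theorem ev258 (F : Pat (Fin 5) → K) :
    U 1 0 F P5_2 = 0 :=
  U_z (by decide)

theorem ev259 (κ : K) (k : K) (F : Pat (Fin 6) → K) :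
    bot κ k 0 2 4 F P6_7 = 0 :=
  bot_z (by decide)

theorem ev260 (F : Pat (Fin 6) → K) :
    emp 2 F P6_7 = F P6_7 :=
  emp_1 (by decide)

theorem ev261 (F : Pat (Fin 6) → K) :
    emp 3 F P6_7 = 0 :=
  emp_z (by decide)

theorem ev262 (κ : K) (k : K) (F : Pat (Fin 5) → K) :
    bot κ k 0 2 4 F P5_24 = 0 :=
  bot_z (by decide)

theorem ev263 (F : Pat (Fin 5) → K) :
    emp 2 F P5_24 = 0 :=
  emp_z (by decide)

theorem ev264 (κ : K) (k : K) (F : Pat (Fin 6) → K) :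
    bot κ k 0 2 4 F P6_36 = 0 :=
  bot_z (by decide)

theorem ev265 (F : Pat (Fin 6) → K) :
    emp 2 F P6_36 = 0 :=
  emp_z (by decide)

theorem ev266 (κ : K) (k : K) (F : Pat (Fin 7) → K) :
    bot κ k 0 2 4 F P7_22 = 0 :=
  bot_z (by decide)

theorem ev267 (F : Pat (Fin 7) → K) :
    emp 2 F P7_22 = 0 :=
  emp_z (by decide)

theorem ev268 (κ : K) (k : K) (F : Pat (Fin 5) → K) :
    bot κ k 0 2 4 F P5_25 = 0 :=
  bot_z (by decide)

theorem ev269 (F : Pat (Fin 5) → K) :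
    emp 2 F P5_25 = 0 :=
  emp_z (by decide)

theorem ev270 (κ : K) (k : K) (F : Pat (Fin 6) → K) :
    bot κ k 0 2 4 F P6_37 = 0 :=
  bot_z (by decide)

theorem ev271 (F : Pat (Fin 6) → K) :
    emp 2 F P6_37 = 0 :=
  emp_z (by decide)

theorem ev272 (κ : K) (k : K) (F : Pat (Fin 5) → K) :
    bot κ k 0 2 4 F P5_11 = 0 :=
  bot_z (by decide)

theorem ev273 (F : Pat (Fin 5) → K) :
    emp 2 F P5_11 = F P5_11 :=
  emp_1 (by decide)

theorem ev274 (F : Pat (Fin 5) → K) :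
    emp 3 F P5_11 = 0 :=
  emp_z (by decide)

theorem ev275 (κ : K) (k : K) (F : Pat (Fin 6) → K) :
    bot κ k 0 2 4 F P6_38 = 0 :=
  bot_z (by decide)

theorem ev276 (F : Pat (Fin 6) → K) :
    emp 2 F P6_38 = 0 :=
  emp_z (by decide)

theorem ev277 (κ : K) (k : K) (F : Pat (Fin 6) → K) :
    bot κ k 0 2 4 F P6_20 = 0 :=
  bot_z (by decide)

theorem ev278 (F : Pat (Fin 6) → K) :
    emp 2 F P6_20 = F P6_20 :=
  emp_1 (by decide)

theorem ev279 (F : Pat (Fin 6) → K) :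
    emp 3 F P6_20 = F P6_20 :=
  emp_1 (by decide)

theorem ev280 (F : Pat (Fin 6) → K) :
    U 1 0 F P6_20 = 0 :=
  U_z (by decide)

theorem ev281 (κ : K) (k : K) (F : Pat (Fin 7) → K) :
    bot κ k 0 2 4 F P7_11 = 0 :=
  bot_z (by decide)

theorem ev282 (F : Pat (Fin 7) → K) :
    emp 2 F P7_11 = F P7_11 :=
  emp_1 (by decide)

theorem ev283 (F : Pat (Fin 7) → K) :
    emp 3 F P7_11 = 0 :=
  emp_z (by decide)

theorem ev284 (κ : K) (k : K) (F : Pat (Fin 6) → K) :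
    bot κ k 0 2 4 F P6_39 = 0 :=
  bot_z (by decide)

theorem ev285 (F : Pat (Fin 6) → K) :
    emp 2 F P6_39 = 0 :=
  emp_z (by decide)

theorem ev286 (κ : K) (k : K) (F : Pat (Fin 7) → K) :
    bot κ k 0 2 4 F P7_23 = 0 :=
  bot_z (by decide)

theorem ev287 (F : Pat (Fin 7) → K) :
    emp 2 F P7_23 = 0 :=
  emp_z (by decide)

theorem ev288 (κ : K) (k : K) (F : Pat (Fin 8) → K) :
    bot κ k 0 2 4 F P8_7 = 0 :=
  bot_z (by decide)

theorem ev289 (F : Pat (Fin 8) → K) :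
    emp 2 F P8_7 = 0 :=
  emp_z (by decide)

theorem ev290 (κ : K) (k : K) (F : Pat (Fin 6) → K) :
    bot κ k 0 2 4 F P6_40 = 0 :=
  bot_z (by decide)

theorem ev291 (F : Pat (Fin 6) → K) :
    emp 2 F P6_40 = F P6_40 :=
  emp_1 (by decide)

theorem ev292 (F : Pat (Fin 6) → K) :
    emp 3 F P6_40 = F P6_40 :=
  emp_1 (by decide)

theorem ev293 (F : Pat (Fin 6) → K) :
    U 1 0 F P6_40 = 0 :=
  U_z (by decide)

theorem ev294 (κ : K) (k : K) (F : Pat (Fin 7) → K) :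
    bot κ k 0 2 4 F P7_24 = 0 :=
  bot_z (by decide)

theorem ev295 (F : Pat (Fin 7) → K) :
    emp 2 F P7_24 = F P7_24 :=
  emp_1 (by decide)

theorem ev296 (F : Pat (Fin 7) → K) :
    emp 3 F P7_24 = F P7_24 :=
  emp_1 (by decide)

theorem ev297 (F : Pat (Fin 7) → K) :
    U 1 0 F P7_24 = 0 :=
  U_z (by decide)

theorem ev298 (κ : K) (k : K) (F : Pat (Fin 6) → K) :
    bot κ k 0 2 4 F P6_41 = 0 :=
  bot_z (by decide)

theorem ev299 (F : Pat (Fin 6) → K) :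
    emp 2 F P6_41 = F P6_41 :=
  emp_1 (by decide)

theorem ev300 (F : Pat (Fin 6) → K) :
    emp 3 F P6_41 = 0 :=
  emp_z (by decide)

theorem ev301 (κ : K) (k : K) (F : Pat (Fin 7) → K) :
    bot κ k 0 2 4 F P7_25 = 0 :=
  bot_z (by decide)

theorem ev302 (F : Pat (Fin 7) → K) :
    emp 2 F P7_25 = F P7_25 :=
  emp_1 (by decide)

theorem ev303 (F : Pat (Fin 7) → K) :
    emp 3 F P7_25 = 0 :=
  emp_z (by decide)

theorem ev304 (κ : K) (k : K) (F : Pat (Fin 8) → K) :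
    bot κ k 0 2 4 F P8_8 = 0 :=
  bot_z (by decide)

theorem ev305 (F : Pat (Fin 8) → K) :
    emp 2 F P8_8 = F P8_8 :=
  emp_1 (by decide)

theorem ev306 (F : Pat (Fin 8) → K) :
    emp 3 F P8_8 = 0 :=
  emp_z (by decide)

theorem ev307 (κ : K) (k : K) (F : Pat (Fin 6) → K) :
    bot κ k 0 2 4 F P6_42 = 0 :=
  bot_z (by decide)

theorem ev308 (F : Pat (Fin 6) → K) :
    emp 2 F P6_42 = 0 :=
  emp_z (by decide)

theorem ev309 (κ : K) (k : K) (F : Pat (Fin 7) → K) :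
    bot κ k 0 2 4 F P7_26 = 0 :=
  bot_z (by decide)

theorem ev310 (F : Pat (Fin 7) → K) :
    emp 2 F P7_26 = 0 :=
  emp_z (by decide)

theorem ev311 (κ : K) (k : K) (F : Pat (Fin 6) → K) :
    bot κ k 0 2 4 F P6_43 = 0 :=
  bot_z (by decide)

theorem ev312 (F : Pat (Fin 6) → K) :
    emp 2 F P6_43 = 0 :=
  emp_z (by decide)

theorem ev313 (κ : K) (k : K) (F : Pat (Fin 7) → K) :
    bot κ k 0 2 4 F P7_27 = 0 :=
  bot_z (by decide)

theorem ev314 (F : Pat (Fin 7) → K) :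
    emp 2 F P7_27 = 0 :=
  emp_z (by decide)

theorem ev315 (κ : K) (k : K) (F : Pat (Fin 7) → K) :
    bot κ k 0 2 4 F P7_28 = 0 :=
  bot_z (by decide)

theorem ev316 (F : Pat (Fin 7) → K) :
    emp 2 F P7_28 = 0 :=
  emp_z (by decide)

theorem ev317 (κ : K) (k : K) (F : Pat (Fin 8) → K) :
    bot κ k 0 2 4 F P8_9 = 0 :=
  bot_z (by decide)

theorem ev318 (F : Pat (Fin 8) → K) :
    emp 2 F P8_9 = 0 :=
  emp_z (by decide)

theorem ev319 (κ : K) (k : K) (F : Pat (Fin 7) → K) :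
    bot κ k 0 2 4 F P7_29 = 0 :=
  bot_z (by decide)

theorem ev320 (F : Pat (Fin 7) → K) :
    emp 2 F P7_29 = 0 :=
  emp_z (by decide)

theorem ev321 (κ : K) (k : K) (F : Pat (Fin 8) → K) :
    bot κ k 0 2 4 F P8_10 = 0 :=
  bot_z (by decide)

theorem ev322 (F : Pat (Fin 8) → K) :
    emp 2 F P8_10 = 0 :=
  emp_z (by decide)

theorem ev323 (κ : K) (k : K) (F : Pat (Fin 9) → K) :
    bot κ k 0 2 4 F P9_1 = 0 :=
  bot_z (by decide)

theorem ev324 (F : Pat (Fin 9) → K) :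
    emp 2 F P9_1 = 0 :=
  emp_z (by decide)

theorem ev325 (κ : K) (k : K) (F : Pat (Fin 6) → K) :
    bot κ k 0 2 4 F P6_44 = 0 :=
  bot_z (by decide)

theorem ev326 (F : Pat (Fin 6) → K) :
    emp 2 F P6_44 = 0 :=
  emp_z (by decide)

theorem ev327 (κ : K) (k : K) (F : Pat (Fin 7) → K) :
    bot κ k 0 2 4 F P7_30 = 0 :=
  bot_z (by decide)

theorem ev328 (F : Pat (Fin 7) → K) :
    emp 2 F P7_30 = 0 :=
  emp_z (by decide)

theorem ev329 (κ : K) (k : K) (F : Pat (Fin 6) → K) :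
    bot κ k 0 2 4 F P6_45 = 0 :=
  bot_z (by decide)

theorem ev330 (F : Pat (Fin 6) → K) :
    emp 2 F P6_45 = 0 :=
  emp_z (by decide)

theorem ev331 (κ : K) (k : K) (F : Pat (Fin 7) → K) :
    bot κ k 0 2 4 F P7_31 = 0 :=
  bot_z (by decide)

theorem ev332 (F : Pat (Fin 7) → K) :
    emp 2 F P7_31 = 0 :=
  emp_z (by decide)

theorem ev333 (κ : K) (k : K) (F : Pat (Fin 8) → K) :
    bot κ k 0 2 4 F P8_11 = 0 :=
  bot_z (by decide)

theorem ev334 (F : Pat (Fin 8) → K) :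
    emp 2 F P8_11 = 0 :=
  emp_z (by decide)

theorem ev335 (κ : K) (k : K) (F : Pat (Fin 6) → K) :
    bot κ k 0 2 4 F P6_46 = 0 :=
  bot_z (by decide)

theorem ev336 (F : Pat (Fin 6) → K) :
    emp 2 F P6_46 = F P6_46 :=
  emp_1 (by decide)

theorem ev337 (F : Pat (Fin 6) → K) :
    emp 3 F P6_46 = 0 :=
  emp_z (by decide)

theorem ev338 (κ : K) (k : K) (F : Pat (Fin 7) → K) :
    bot κ k 0 2 4 F P7_32 = 0 :=
  bot_z (by decide)

theorem ev339 (F : Pat (Fin 7) → K) :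
    emp 2 F P7_32 = F P7_32 :=
  emp_1 (by decide)

theorem ev340 (F : Pat (Fin 7) → K) :
    emp 3 F P7_32 = 0 :=
  emp_z (by decide)

theorem ev341 (κ : K) (k : K) (F : Pat (Fin 6) → K) :
    bot κ k 0 2 4 F P6_47 = 0 :=
  bot_z (by decide)

theorem ev342 (F : Pat (Fin 6) → K) :
    emp 2 F P6_47 = 0 :=
  emp_z (by decide)

theorem ev343 (κ : K) (k : K) (F : Pat (Fin 7) → K) :
    bot κ k 0 2 4 F P7_33 = 0 :=
  bot_z (by decide)

theorem ev344 (F : Pat (Fin 7) → K) :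
    emp 2 F P7_33 = 0 :=
  emp_z (by decide)

theorem ev345 (κ : K) (k : K) (F : Pat (Fin 8) → K) :
    bot κ k 0 2 4 F P8_12 = 0 :=
  bot_z (by decide)

theorem ev346 (F : Pat (Fin 8) → K) :
    emp 2 F P8_12 = 0 :=
  emp_z (by decide)

theorem ev347 (κ : K) (k : K) (F : Pat (Fin 6) → K) :
    bot κ k 0 2 4 F P6_48 = 0 :=
  bot_z (by decide)

theorem ev348 (F : Pat (Fin 6) → K) :
    emp 2 F P6_48 = F P6_48 :=
  emp_1 (by decide)

theorem ev349 (F : Pat (Fin 6) → K) :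
    emp 3 F P6_48 = F P6_48 :=
  emp_1 (by decide)

theorem ev350 (F : Pat (Fin 6) → K) :
    U 1 0 F P6_48 = 0 :=
  U_z (by decide)

theorem ev351 (κ : K) (k : K) (F : Pat (Fin 7) → K) :
    bot κ k 0 2 4 F P7_34 = 0 :=
  bot_z (by decide)

theorem ev352 (F : Pat (Fin 7) → K) :
    emp 2 F P7_34 = F P7_34 :=
  emp_1 (by decide)

theorem ev353 (F : Pat (Fin 7) → K) :
    emp 3 F P7_34 = 0 :=
  emp_z (by decide)

theorem ev354 (κ : K) (k : K) (F : Pat (Fin 6) → K) :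
    bot κ k 0 2 4 F P6_49 = 0 :=
  bot_z (by decide)

theorem ev355 (F : Pat (Fin 6) → K) :
    emp 2 F P6_49 = 0 :=
  emp_z (by decide)

theorem ev356 (κ : K) (k : K) (F : Pat (Fin 7) → K) :
    bot κ k 0 2 4 F P7_35 = 0 :=
  bot_z (by decide)

theorem ev357 (F : Pat (Fin 7) → K) :
    emp 2 F P7_35 = 0 :=
  emp_z (by decide)

theorem ev358 (κ : K) (k : K) (F : Pat (Fin 8) → K) :
    bot κ k 0 2 4 F P8_13 = 0 :=
  bot_z (by decide)

theorem ev359 (F : Pat (Fin 8) → K) :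
    emp 2 F P8_13 = 0 :=
  emp_z (by decide)

theorem ev360 (κ : K) (k : K) (F : Pat (Fin 7) → K) :
    bot κ k 0 2 4 F P7_36 = 0 :=
  bot_z (by decide)

theorem ev361 (F : Pat (Fin 7) → K) :
    emp 2 F P7_36 = F P7_36 :=
  emp_1 (by decide)

theorem ev362 (F : Pat (Fin 7) → K) :
    emp 3 F P7_36 = F P7_36 :=
  emp_1 (by decide)

theorem ev363 (F : Pat (Fin 7) → K) :
    U 1 0 F P7_36 = 0 :=
  U_z (by decide)

theorem ev364 (κ : K) (k : K) (F : Pat (Fin 8) → K) :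
    bot κ k 0 2 4 F P8_14 = 0 :=
  bot_z (by decide)

theorem ev365 (F : Pat (Fin 8) → K) :
    emp 2 F P8_14 = F P8_14 :=
  emp_1 (by decide)

theorem ev366 (F : Pat (Fin 8) → K) :
    emp 3 F P8_14 = F P8_14 :=
  emp_1 (by decide)

theorem ev367 (F : Pat (Fin 8) → K) :
    U 1 0 F P8_14 = 0 :=
  U_z (by decide)

theorem ev368 (κ : K) (k : K) (F : Pat (Fin 7) → K) :
    bot κ k 0 2 4 F P7_37 = 0 :=
  bot_z (by decide)

theorem ev369 (F : Pat (Fin 7) → K) :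
    emp 2 F P7_37 = F P7_37 :=
  emp_1 (by decide)

theorem ev370 (F : Pat (Fin 7) → K) :
    emp 3 F P7_37 = 0 :=
  emp_z (by decide)

theorem ev371 (κ : K) (k : K) (F : Pat (Fin 8) → K) :
    bot κ k 0 2 4 F P8_15 = 0 :=
  bot_z (by decide)

theorem ev372 (F : Pat (Fin 8) → K) :
    emp 2 F P8_15 = F P8_15 :=
  emp_1 (by decide)

theorem ev373 (F : Pat (Fin 8) → K) :
    emp 3 F P8_15 = 0 :=
  emp_z (by decide)

theorem ev374 (κ : K) (k : K) (F : Pat (Fin 9) → K) :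
    bot κ k 0 2 4 F P9_2 = 0 :=
  bot_z (by decide)

theorem ev375 (F : Pat (Fin 9) → K) :
    emp 2 F P9_2 = F P9_2 :=
  emp_1 (by decide)

theorem ev376 (F : Pat (Fin 9) → K) :
    emp 3 F P9_2 = 0 :=
  emp_z (by decide)

theorem ev377 (κ : K) (k : K) (F : Pat (Fin 7) → K) :
    bot κ k 0 2 4 F P7_38 = 0 :=
  bot_z (by decide)

theorem ev378 (F : Pat (Fin 7) → K) :
    emp 2 F P7_38 = 0 :=
  emp_z (by decide)

theorem ev379 (κ : K) (k : K) (F : Pat (Fin 8) → K) :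
    bot κ k 0 2 4 F P8_16 = 0 :=
  bot_z (by decide)

theorem ev380 (F : Pat (Fin 8) → K) :
    emp 2 F P8_16 = 0 :=
  emp_z (by decide)

theorem ev381 (κ : K) (k : K) (F : Pat (Fin 7) → K) :
    bot κ k 0 2 4 F P7_39 = 0 :=
  bot_z (by decide)

theorem ev382 (F : Pat (Fin 7) → K) :
    emp 2 F P7_39 = 0 :=
  emp_z (by decide)

theorem ev383 (κ : K) (k : K) (F : Pat (Fin 8) → K) :
    bot κ k 0 2 4 F P8_17 = 0 :=
  bot_z (by decide)

theorem ev384 (F : Pat (Fin 8) → K) :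
    emp 2 F P8_17 = 0 :=
  emp_z (by decide)

theorem ev385 (κ : K) (k : K) (F : Pat (Fin 8) → K) :
    bot κ k 0 2 4 F P8_18 = 0 :=
  bot_z (by decide)

theorem ev386 (F : Pat (Fin 8) → K) :
    emp 2 F P8_18 = 0 :=
  emp_z (by decide)

theorem ev387 (κ : K) (k : K) (F : Pat (Fin 9) → K) :
    bot κ k 0 2 4 F P9_3 = 0 :=
  bot_z (by decide)

theorem ev388 (F : Pat (Fin 9) → K) :
    emp 2 F P9_3 = 0 :=
  emp_z (by decide)

theorem ev389 (κ : K) (k : K) (F : Pat (Fin 8) → K) :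
    bot κ k 0 2 4 F P8_19 = 0 :=
  bot_z (by decide)

theorem ev390 (F : Pat (Fin 8) → K) :
    emp 2 F P8_19 = 0 :=
  emp_z (by decide)

theorem ev391 (κ : K) (k : K) (F : Pat (Fin 9) → K) :
    bot κ k 0 2 4 F P9_4 = 0 :=
  bot_z (by decide)

theorem ev392 (F : Pat (Fin 9) → K) :
    emp 2 F P9_4 = 0 :=
  emp_z (by decide)

theorem ev393 (κ : K) (k : K) (F : Pat (Fin 10) → K) :
    bot κ k 0 2 4 F P10_0 = 0 :=
  bot_z (by decide)

theorem ev394 (F : Pat (Fin 10) → K) :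
    emp 2 F P10_0 = 0 :=
  emp_z (by decide)

theorem t0 {κ : K} {k : K} {κ1 : K} {k1 : K} (h : Eqs κ k κ1 k1) (F : Pat (Fin 5) → K) :
    bot κ k 0 2 4 (bot κ1 k1 1 3 4 (glue 3 2 F)) P5_0 = emp 2 (emp 3 (U 1 0 F)) P5_0 := by
  simp only [ev0, ev1, ev2, ev3, ev4, ev5, ev6, ev7, ev8, ev9, ev10, ev11, ev12, ev13, ev14, ev15, ev16, ev17, ev18, ev19] <;>
  linear_combination F P5_5 * h.e1 + (-1) * F P5_12 * h.e2 + F P5_2 * h.e3

theorem t1 {κ : K} {k : K} {κ1 : K} {k1 : K} (h : Eqs κ k κ1 k1) (F : Pat (Fin 6) → K) :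
    bot κ k 0 2 4 (bot κ1 k1 1 3 4 (glue 3 2 F)) P6_0 = emp 2 (emp 3 (U 1 0 F)) P6_0 := by
  simp only [ev20, ev21, ev22, ev23, ev24, ev25, ev26, ev27, ev28, ev29] <;>
  linear_combination (-1) * F P6_4 * h.e2

theorem t2 {κ : K} {k : K} {κ1 : K} {k1 : K} (h : Eqs κ k κ1 k1) (F : Pat (Fin 5) → K) :
    bot κ k 0 2 4 (bot κ1 k1 1 3 4 (glue 3 2 F)) P5_6 = emp 2 (emp 3 (U 1 0 F)) P5_6 := by
  simp only [ev30, ev31, ev32, ev33, ev34] <;>
  ring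

theorem t3 {κ : K} {k : K} {κ1 : K} {k1 : K} (h : Eqs κ k κ1 k1) (F : Pat (Fin 6) → K) :
    bot κ k 0 2 4 (bot κ1 k1 1 3 4 (glue 3 2 F)) P6_5 = emp 2 (emp 3 (U 1 0 F)) P6_5 := by
  simp only [ev35, ev36, ev37, ev38, ev39, ev40, ev41] <;>
  ring

theorem t4 {κ : K} {k : K} {κ1 : K} {k1 : K} (h : Eqs κ k κ1 k1) (F : Pat (Fin 7) → K) :
    bot κ k 0 2 4 (bot κ1 k1 1 3 4 (glue 3 2 F)) P7_0 = emp 2 (emp 3 (U 1 0 F)) P7_0 := by
  simp only [ev42, ev43, ev44, ev45, ev46] <;>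
  ring

theorem t5 {κ : K} {k : K} {κ1 : K} {k1 : K} (h : Eqs κ k κ1 k1) (F : Pat (Fin 5) → K) :
    bot κ k 0 2 4 (bot κ1 k1 1 3 4 (glue 3 2 F)) P5_13 = emp 2 (emp 3 (U 1 0 F)) P5_13 := by
  simp only [ev47, ev48] <;>
  ring

theorem t6 {κ : K} {k : K} {κ1 : K} {k1 : K} (h : Eqs κ k κ1 k1) (F : Pat (Fin 6) → K) :
    bot κ k 0 2 4 (bot κ1 k1 1 3 4 (glue 3 2 F)) P6_9 = emp 2 (emp 3 (U 1 0 F)) P6_9 := by
  simp only [ev49, ev50] <;>
  ring

theorem t7 {κ : K} {k : K} {κ1 : K} {k1 : K} (h : Eqs κ k κ1 k1) (F : Pat (Fin 5) → K) :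
    bot κ k 0 2 4 (bot κ1 k1 1 3 4 (glue 3 2 F)) P5_3 = emp 2 (emp 3 (U 1 0 F)) P5_3 := by
  simp only [ev51, ev52] <;>
  ring

theorem t8 {κ : K} {k : K} {κ1 : K} {k1 : K} (h : Eqs κ k κ1 k1) (F : Pat (Fin 6) → K) :
    bot κ k 0 2 4 (bot κ1 k1 1 3 4 (glue 3 2 F)) P6_8 = emp 2 (emp 3 (U 1 0 F)) P6_8 := by
  simp only [ev53, ev54] <;>
  ring

theorem t9 {κ : K} {k : K} {κ1 : K} {k1 : K} (h : Eqs κ k κ1 k1) (F : Pat (Fin 6) → K) :
    bot κ k 0 2 4 (bot κ1 k1 1 3 4 (glue 3 2 F)) P6_10 = emp 2 (emp 3 (U 1 0 F)) P6_10 := by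
  simp only [ev55, ev56] <;>
  ring

theorem t10 {κ : K} {k : K} {κ1 : K} {k1 : K} (h : Eqs κ k κ1 k1) (F : Pat (Fin 7) → K) :
    bot κ k 0 2 4 (bot κ1 k1 1 3 4 (glue 3 2 F)) P7_2 = emp 2 (emp 3 (U 1 0 F)) P7_2 := by
  simp only [ev57, ev58] <;>
  ring

theorem t11 {κ : K} {k : K} {κ1 : K} {k1 : K} (h : Eqs κ k κ1 k1) (F : Pat (Fin 6) → K) :
    bot κ k 0 2 4 (bot κ1 k1 1 3 4 (glue 3 2 F)) P6_11 = emp 2 (emp 3 (U 1 0 F)) P6_11 := by
  simp only [ev59, ev60] <;>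
  ring

theorem t12 {κ : K} {k : K} {κ1 : K} {k1 : K} (h : Eqs κ k κ1 k1) (F : Pat (Fin 7) → K) :
    bot κ k 0 2 4 (bot κ1 k1 1 3 4 (glue 3 2 F)) P7_3 = emp 2 (emp 3 (U 1 0 F)) P7_3 := by
  simp only [ev61, ev62] <;>
  ring

theorem t13 {κ : K} {k : K} {κ1 : K} {k1 : K} (h : Eqs κ k κ1 k1) (F : Pat (Fin 8) → K) :
    bot κ k 0 2 4 (bot κ1 k1 1 3 4 (glue 3 2 F)) P8_0 = emp 2 (emp 3 (U 1 0 F)) P8_0 := by
  simp only [ev63, ev64] <;>
  ring

theorem t14 {κ : K} {k : K} {κ1 : K} {k1 : K} (h : Eqs κ k κ1 k1) (F : Pat (Fin 5) → K) :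
    bot κ k 0 2 4 (bot κ1 k1 1 3 4 (glue 3 2 F)) P5_14 = emp 2 (emp 3 (U 1 0 F)) P5_14 := by
  simp only [ev65, ev66] <;>
  ring

theorem t15 {κ : K} {k : K} {κ1 : K} {k1 : K} (h : Eqs κ k κ1 k1) (F : Pat (Fin 6) → K) :
    bot κ k 0 2 4 (bot κ1 k1 1 3 4 (glue 3 2 F)) P6_12 = emp 2 (emp 3 (U 1 0 F)) P6_12 := by
  simp only [ev67, ev68] <;>
  ring

theorem t16 {κ : K} {k : K} {κ1 : K} {k1 : K} (h : Eqs κ k κ1 k1) (F : Pat (Fin 5) → K) :
    bot κ k 0 2 4 (bot κ1 k1 1 3 4 (glue 3 2 F)) P5_15 = emp 2 (emp 3 (U 1 0 F)) P5_15 := by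
  simp only [ev69, ev70] <;>
  ring

theorem t17 {κ : K} {k : K} {κ1 : K} {k1 : K} (h : Eqs κ k κ1 k1) (F : Pat (Fin 6) → K) :
    bot κ k 0 2 4 (bot κ1 k1 1 3 4 (glue 3 2 F)) P6_13 = emp 2 (emp 3 (U 1 0 F)) P6_13 := by
  simp only [ev71, ev72] <;>
  ring

theorem t18 {κ : K} {k : K} {κ1 : K} {k1 : K} (h : Eqs κ k κ1 k1) (F : Pat (Fin 7) → K) :
    bot κ k 0 2 4 (bot κ1 k1 1 3 4 (glue 3 2 F)) P7_4 = emp 2 (emp 3 (U 1 0 F)) P7_4 := by
  simp only [ev73, ev74] <;>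
  ring

theorem t19 {κ : K} {k : K} {κ1 : K} {k1 : K} (h : Eqs κ k κ1 k1) (F : Pat (Fin 5) → K) :
    bot κ k 0 2 4 (bot κ1 k1 1 3 4 (glue 3 2 F)) P5_4 = emp 2 (emp 3 (U 1 0 F)) P5_4 := by
  simp only [ev75, ev76, ev77, ev78, ev79, ev80, ev81] <;>
  ring

theorem t20 {κ : K} {k : K} {κ1 : K} {k1 : K} (h : Eqs κ k κ1 k1) (F : Pat (Fin 6) → K) :
    bot κ k 0 2 4 (bot κ1 k1 1 3 4 (glue 3 2 F)) P6_2 = emp 2 (emp 3 (U 1 0 F)) P6_2 := by
  simp only [ev82, ev83, ev84, ev85, ev86] <;>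
  ring

theorem t21 {κ : K} {k : K} {κ1 : K} {k1 : K} (h : Eqs κ k κ1 k1) (F : Pat (Fin 5) → K) :
    bot κ k 0 2 4 (bot κ1 k1 1 3 4 (glue 3 2 F)) P5_7 = emp 2 (emp 3 (U 1 0 F)) P5_7 := by
  simp only [ev87, ev88] <;>
  ring

theorem t22 {κ : K} {k : K} {κ1 : K} {k1 : K} (h : Eqs κ k κ1 k1) (F : Pat (Fin 6) → K) :
    bot κ k 0 2 4 (bot κ1 k1 1 3 4 (glue 3 2 F)) P6_14 = emp 2 (emp 3 (U 1 0 F)) P6_14 := by
  simp only [ev89, ev90] <;>
  ring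

theorem t23 {κ : K} {k : K} {κ1 : K} {k1 : K} (h : Eqs κ k κ1 k1) (F : Pat (Fin 7) → K) :
    bot κ k 0 2 4 (bot κ1 k1 1 3 4 (glue 3 2 F)) P7_5 = emp 2 (emp 3 (U 1 0 F)) P7_5 := by
  simp only [ev91, ev92] <;>
  ring

theorem t24 {κ : K} {k : K} {κ1 : K} {k1 : K} (h : Eqs κ k κ1 k1) (F : Pat (Fin 5) → K) :
    bot κ k 0 2 4 (bot κ1 k1 1 3 4 (glue 3 2 F)) P5_5 = emp 2 (emp 3 (U 1 0 F)) P5_5 := by
  simp only [ev93, ev94, ev95, ev96, ev97, ev98] <;>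
  ring

theorem t25 {κ : K} {k : K} {κ1 : K} {k1 : K} (h : Eqs κ k κ1 k1) (F : Pat (Fin 6) → K) :
    bot κ k 0 2 4 (bot κ1 k1 1 3 4 (glue 3 2 F)) P6_15 = emp 2 (emp 3 (U 1 0 F)) P6_15 := by
  simp only [ev99, ev100, ev101, ev102, ev103] <;>
  ring

theorem t26 {κ : K} {k : K} {κ1 : K} {k1 : K} (h : Eqs κ k κ1 k1) (F : Pat (Fin 5) → K) :
    bot κ k 0 2 4 (bot κ1 k1 1 3 4 (glue 3 2 F)) P5_16 = emp 2 (emp 3 (U 1 0 F)) P5_16 := by
  simp only [ev104, ev105] <;>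
  ring

theorem t27 {κ : K} {k : K} {κ1 : K} {k1 : K} (h : Eqs κ k κ1 k1) (F : Pat (Fin 6) → K) :
    bot κ k 0 2 4 (bot κ1 k1 1 3 4 (glue 3 2 F)) P6_17 = emp 2 (emp 3 (U 1 0 F)) P6_17 := by
  simp only [ev106, ev107] <;>
  ring

theorem t28 {κ : K} {k : K} {κ1 : K} {k1 : K} (h : Eqs κ k κ1 k1) (F : Pat (Fin 7) → K) :
    bot κ k 0 2 4 (bot κ1 k1 1 3 4 (glue 3 2 F)) P7_6 = emp 2 (emp 3 (U 1 0 F)) P7_6 := by
  simp only [ev108, ev109] <;>
  ring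

theorem t29 {κ : K} {k : K} {κ1 : K} {k1 : K} (h : Eqs κ k κ1 k1) (F : Pat (Fin 6) → K) :
    bot κ k 0 2 4 (bot κ1 k1 1 3 4 (glue 3 2 F)) P6_18 = emp 2 (emp 3 (U 1 0 F)) P6_18 := by
  simp only [ev110, ev111, ev112, ev113, ev114, ev115, ev116, ev117] <;>
  ring

theorem t30 {κ : K} {k : K} {κ1 : K} {k1 : K} (h : Eqs κ k κ1 k1) (F : Pat (Fin 7) → K) :
    bot κ k 0 2 4 (bot κ1 k1 1 3 4 (glue 3 2 F)) P7_7 = emp 2 (emp 3 (U 1 0 F)) P7_7 := by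
  simp only [ev118, ev119, ev120, ev121, ev122, ev123] <;>
  ring

theorem t31 {κ : K} {k : K} {κ1 : K} {k1 : K} (h : Eqs κ k κ1 k1) (F : Pat (Fin 6) → K) :
    bot κ k 0 2 4 (bot κ1 k1 1 3 4 (glue 3 2 F)) P6_22 = emp 2 (emp 3 (U 1 0 F)) P6_22 := by
  simp only [ev124, ev125, ev126, ev127, ev128] <;>
  ring

theorem t32 {κ : K} {k : K} {κ1 : K} {k1 : K} (h : Eqs κ k κ1 k1) (F : Pat (Fin 7) → K) :
    bot κ k 0 2 4 (bot κ1 k1 1 3 4 (glue 3 2 F)) P7_9 = emp 2 (emp 3 (U 1 0 F)) P7_9 := by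
  simp only [ev129, ev130, ev131, ev132, ev133, ev134, ev135] <;>
  ring

theorem t33 {κ : K} {k : K} {κ1 : K} {k1 : K} (h : Eqs κ k κ1 k1) (F : Pat (Fin 8) → K) :
    bot κ k 0 2 4 (bot κ1 k1 1 3 4 (glue 3 2 F)) P8_1 = emp 2 (emp 3 (U 1 0 F)) P8_1 := by
  simp only [ev136, ev137, ev138, ev139, ev140] <;>
  ring

theorem t34 {κ : K} {k : K} {κ1 : K} {k1 : K} (h : Eqs κ k κ1 k1) (F : Pat (Fin 6) → K) :
    bot κ k 0 2 4 (bot κ1 k1 1 3 4 (glue 3 2 F)) P6_24 = emp 2 (emp 3 (U 1 0 F)) P6_24 := by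
  simp only [ev141, ev142] <;>
  ring

theorem t35 {κ : K} {k : K} {κ1 : K} {k1 : K} (h : Eqs κ k κ1 k1) (F : Pat (Fin 7) → K) :
    bot κ k 0 2 4 (bot κ1 k1 1 3 4 (glue 3 2 F)) P7_13 = emp 2 (emp 3 (U 1 0 F)) P7_13 := by
  simp only [ev143, ev144] <;>
  ring

theorem t36 {κ : K} {k : K} {κ1 : K} {k1 : K} (h : Eqs κ k κ1 k1) (F : Pat (Fin 6) → K) :
    bot κ k 0 2 4 (bot κ1 k1 1 3 4 (glue 3 2 F)) P6_21 = emp 2 (emp 3 (U 1 0 F)) P6_21 := by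
  simp only [ev145, ev146] <;>
  ring

theorem t37 {κ : K} {k : K} {κ1 : K} {k1 : K} (h : Eqs κ k κ1 k1) (F : Pat (Fin 7) → K) :
    bot κ k 0 2 4 (bot κ1 k1 1 3 4 (glue 3 2 F)) P7_12 = emp 2 (emp 3 (U 1 0 F)) P7_12 := by
  simp only [ev147, ev148] <;>
  ring

theorem t38 {κ : K} {k : K} {κ1 : K} {k1 : K} (h : Eqs κ k κ1 k1) (F : Pat (Fin 7) → K) :
    bot κ k 0 2 4 (bot κ1 k1 1 3 4 (glue 3 2 F)) P7_14 = emp 2 (emp 3 (U 1 0 F)) P7_14 := by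
  simp only [ev149, ev150] <;>
  ring

theorem t39 {κ : K} {k : K} {κ1 : K} {k1 : K} (h : Eqs κ k κ1 k1) (F : Pat (Fin 8) → K) :
    bot κ k 0 2 4 (bot κ1 k1 1 3 4 (glue 3 2 F)) P8_3 = emp 2 (emp 3 (U 1 0 F)) P8_3 := by
  simp only [ev151, ev152] <;>
  ring

theorem t40 {κ : K} {k : K} {κ1 : K} {k1 : K} (h : Eqs κ k κ1 k1) (F : Pat (Fin 7) → K) :
    bot κ k 0 2 4 (bot κ1 k1 1 3 4 (glue 3 2 F)) P7_15 = emp 2 (emp 3 (U 1 0 F)) P7_15 := by
  simp only [ev153, ev154] <;>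
  ring

theorem t41 {κ : K} {k : K} {κ1 : K} {k1 : K} (h : Eqs κ k κ1 k1) (F : Pat (Fin 8) → K) :
    bot κ k 0 2 4 (bot κ1 k1 1 3 4 (glue 3 2 F)) P8_4 = emp 2 (emp 3 (U 1 0 F)) P8_4 := by
  simp only [ev155, ev156] <;>
  ring

theorem t42 {κ : K} {k : K} {κ1 : K} {k1 : K} (h : Eqs κ k κ1 k1) (F : Pat (Fin 9) → K) :
    bot κ k 0 2 4 (bot κ1 k1 1 3 4 (glue 3 2 F)) P9_0 = emp 2 (emp 3 (U 1 0 F)) P9_0 := by
  simp only [ev157, ev158] <;>
  ring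

theorem t43 {κ : K} {k : K} {κ1 : K} {k1 : K} (h : Eqs κ k κ1 k1) (F : Pat (Fin 5) → K) :
    bot κ k 0 2 4 (bot κ1 k1 1 3 4 (glue 3 2 F)) P5_12 = emp 2 (emp 3 (U 1 0 F)) P5_12 := by
  simp only [ev159, ev160, ev161, ev162] <;>
  ring

theorem t44 {κ : K} {k : K} {κ1 : K} {k1 : K} (h : Eqs κ k κ1 k1) (F : Pat (Fin 6) → K) :
    bot κ k 0 2 4 (bot κ1 k1 1 3 4 (glue 3 2 F)) P6_4 = emp 2 (emp 3 (U 1 0 F)) P6_4 := by
  simp only [ev163, ev164, ev165, ev166] <;>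
  ring

theorem t45 {κ : K} {k : K} {κ1 : K} {k1 : K} (h : Eqs κ k κ1 k1) (F : Pat (Fin 5) → K) :
    bot κ k 0 2 4 (bot κ1 k1 1 3 4 (glue 3 2 F)) P5_17 = emp 2 (emp 3 (U 1 0 F)) P5_17 := by
  simp only [ev167, ev168, ev169] <;>
  ring

theorem t46 {κ : K} {k : K} {κ1 : K} {k1 : K} (h : Eqs κ k κ1 k1) (F : Pat (Fin 6) → K) :
    bot κ k 0 2 4 (bot κ1 k1 1 3 4 (glue 3 2 F)) P6_25 = emp 2 (emp 3 (U 1 0 F)) P6_25 := by
  simp only [ev170, ev171, ev172] <;>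
  ring

theorem t47 {κ : K} {k : K} {κ1 : K} {k1 : K} (h : Eqs κ k κ1 k1) (F : Pat (Fin 7) → K) :
    bot κ k 0 2 4 (bot κ1 k1 1 3 4 (glue 3 2 F)) P7_16 = emp 2 (emp 3 (U 1 0 F)) P7_16 := by
  simp only [ev173, ev174, ev175] <;>
  ring

theorem t48 {κ : K} {k : K} {κ1 : K} {k1 : K} (h : Eqs κ k κ1 k1) (F : Pat (Fin 5) → K) :
    bot κ k 0 2 4 (bot κ1 k1 1 3 4 (glue 3 2 F)) P5_18 = emp 2 (emp 3 (U 1 0 F)) P5_18 := by
  simp only [ev176, ev177] <;>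
  ring

theorem t49 {κ : K} {k : K} {κ1 : K} {k1 : K} (h : Eqs κ k κ1 k1) (F : Pat (Fin 6) → K) :
    bot κ k 0 2 4 (bot κ1 k1 1 3 4 (glue 3 2 F)) P6_26 = emp 2 (emp 3 (U 1 0 F)) P6_26 := by
  simp only [ev178, ev179] <;>
  ring

theorem t50 {κ : K} {k : K} {κ1 : K} {k1 : K} (h : Eqs κ k κ1 k1) (F : Pat (Fin 5) → K) :
    bot κ k 0 2 4 (bot κ1 k1 1 3 4 (glue 3 2 F)) P5_19 = emp 2 (emp 3 (U 1 0 F)) P5_19 := by
  simp only [ev180, ev181] <;>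
  ring

theorem t51 {κ : K} {k : K} {κ1 : K} {k1 : K} (h : Eqs κ k κ1 k1) (F : Pat (Fin 6) → K) :
    bot κ k 0 2 4 (bot κ1 k1 1 3 4 (glue 3 2 F)) P6_27 = emp 2 (emp 3 (U 1 0 F)) P6_27 := by
  simp only [ev182, ev183] <;>
  ring

theorem t52 {κ : K} {k : K} {κ1 : K} {k1 : K} (h : Eqs κ k κ1 k1) (F : Pat (Fin 6) → K) :
    bot κ k 0 2 4 (bot κ1 k1 1 3 4 (glue 3 2 F)) P6_28 = emp 2 (emp 3 (U 1 0 F)) P6_28 := by
  simp only [ev184, ev185] <;>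
  ring

theorem t53 {κ : K} {k : K} {κ1 : K} {k1 : K} (h : Eqs κ k κ1 k1) (F : Pat (Fin 7) → K) :
    bot κ k 0 2 4 (bot κ1 k1 1 3 4 (glue 3 2 F)) P7_17 = emp 2 (emp 3 (U 1 0 F)) P7_17 := by
  simp only [ev186, ev187] <;>
  ring

theorem t54 {κ : K} {k : K} {κ1 : K} {k1 : K} (h : Eqs κ k κ1 k1) (F : Pat (Fin 6) → K) :
    bot κ k 0 2 4 (bot κ1 k1 1 3 4 (glue 3 2 F)) P6_29 = emp 2 (emp 3 (U 1 0 F)) P6_29 := by
  simp only [ev188, ev189] <;>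
  ring

theorem t55 {κ : K} {k : K} {κ1 : K} {k1 : K} (h : Eqs κ k κ1 k1) (F : Pat (Fin 7) → K) :
    bot κ k 0 2 4 (bot κ1 k1 1 3 4 (glue 3 2 F)) P7_18 = emp 2 (emp 3 (U 1 0 F)) P7_18 := by
  simp only [ev190, ev191] <;>
  ring

theorem t56 {κ : K} {k : K} {κ1 : K} {k1 : K} (h : Eqs κ k κ1 k1) (F : Pat (Fin 8) → K) :
    bot κ k 0 2 4 (bot κ1 k1 1 3 4 (glue 3 2 F)) P8_5 = emp 2 (emp 3 (U 1 0 F)) P8_5 := by
  simp only [ev192, ev193] <;>
  ring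

theorem t57 {κ : K} {k : K} {κ1 : K} {k1 : K} (h : Eqs κ k κ1 k1) (F : Pat (Fin 5) → K) :
    bot κ k 0 2 4 (bot κ1 k1 1 3 4 (glue 3 2 F)) P5_1 = emp 2 (emp 3 (U 1 0 F)) P5_1 := by
  simp only [ev194, ev195] <;>
  ring

theorem t58 {κ : K} {k : K} {κ1 : K} {k1 : K} (h : Eqs κ k κ1 k1) (F : Pat (Fin 6) → K) :
    bot κ k 0 2 4 (bot κ1 k1 1 3 4 (glue 3 2 F)) P6_1 = emp 2 (emp 3 (U 1 0 F)) P6_1 := by
  simp only [ev196, ev197] <;>
  ring

theorem t59 {κ : K} {k : K} {κ1 : K} {k1 : K} (h : Eqs κ k κ1 k1) (F : Pat (Fin 5) → K) :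
    bot κ k 0 2 4 (bot κ1 k1 1 3 4 (glue 3 2 F)) P5_10 = emp 2 (emp 3 (U 1 0 F)) P5_10 := by
  simp only [ev198, ev199] <;>
  ring

theorem t60 {κ : K} {k : K} {κ1 : K} {k1 : K} (h : Eqs κ k κ1 k1) (F : Pat (Fin 6) → K) :
    bot κ k 0 2 4 (bot κ1 k1 1 3 4 (glue 3 2 F)) P6_6 = emp 2 (emp 3 (U 1 0 F)) P6_6 := by
  simp only [ev200, ev201] <;>
  ring

theorem t61 {κ : K} {k : K} {κ1 : K} {k1 : K} (h : Eqs κ k κ1 k1) (F : Pat (Fin 7) → K) :
    bot κ k 0 2 4 (bot κ1 k1 1 3 4 (glue 3 2 F)) P7_1 = emp 2 (emp 3 (U 1 0 F)) P7_1 := by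
  simp only [ev202, ev203] <;>
  ring

theorem t62 {κ : K} {k : K} {κ1 : K} {k1 : K} (h : Eqs κ k κ1 k1) (F : Pat (Fin 5) → K) :
    bot κ k 0 2 4 (bot κ1 k1 1 3 4 (glue 3 2 F)) P5_8 = emp 2 (emp 3 (U 1 0 F)) P5_8 := by
  simp only [ev204, ev205] <;>
  ring

theorem t63 {κ : K} {k : K} {κ1 : K} {k1 : K} (h : Eqs κ k κ1 k1) (F : Pat (Fin 6) → K) :
    bot κ k 0 2 4 (bot κ1 k1 1 3 4 (glue 3 2 F)) P6_3 = emp 2 (emp 3 (U 1 0 F)) P6_3 := by
  simp only [ev206, ev207] <;>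
  ring

theorem t64 {κ : K} {k : K} {κ1 : K} {k1 : K} (h : Eqs κ k κ1 k1) (F : Pat (Fin 5) → K) :
    bot κ k 0 2 4 (bot κ1 k1 1 3 4 (glue 3 2 F)) P5_9 = emp 2 (emp 3 (U 1 0 F)) P5_9 := by
  simp only [ev208, ev209] <;>
  ring

theorem t65 {κ : K} {k : K} {κ1 : K} {k1 : K} (h : Eqs κ k κ1 k1) (F : Pat (Fin 6) → K) :
    bot κ k 0 2 4 (bot κ1 k1 1 3 4 (glue 3 2 F)) P6_16 = emp 2 (emp 3 (U 1 0 F)) P6_16 := by
  simp only [ev210, ev211] <;>
  ring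

theorem t66 {κ : K} {k : K} {κ1 : K} {k1 : K} (h : Eqs κ k κ1 k1) (F : Pat (Fin 6) → K) :
    bot κ k 0 2 4 (bot κ1 k1 1 3 4 (glue 3 2 F)) P6_19 = emp 2 (emp 3 (U 1 0 F)) P6_19 := by
  simp only [ev212, ev213] <;>
  ring

theorem t67 {κ : K} {k : K} {κ1 : K} {k1 : K} (h : Eqs κ k κ1 k1) (F : Pat (Fin 7) → K) :
    bot κ k 0 2 4 (bot κ1 k1 1 3 4 (glue 3 2 F)) P7_8 = emp 2 (emp 3 (U 1 0 F)) P7_8 := by
  simp only [ev214, ev215] <;>
  ring

theorem t68 {κ : K} {k : K} {κ1 : K} {k1 : K} (h : Eqs κ k κ1 k1) (F : Pat (Fin 6) → K) :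
    bot κ k 0 2 4 (bot κ1 k1 1 3 4 (glue 3 2 F)) P6_23 = emp 2 (emp 3 (U 1 0 F)) P6_23 := by
  simp only [ev216, ev217] <;>
  ring

theorem t69 {κ : K} {k : K} {κ1 : K} {k1 : K} (h : Eqs κ k κ1 k1) (F : Pat (Fin 7) → K) :
    bot κ k 0 2 4 (bot κ1 k1 1 3 4 (glue 3 2 F)) P7_10 = emp 2 (emp 3 (U 1 0 F)) P7_10 := by
  simp only [ev218, ev219] <;>
  ring

theorem t70 {κ : K} {k : K} {κ1 : K} {k1 : K} (h : Eqs κ k κ1 k1) (F : Pat (Fin 8) → K) :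
    bot κ k 0 2 4 (bot κ1 k1 1 3 4 (glue 3 2 F)) P8_2 = emp 2 (emp 3 (U 1 0 F)) P8_2 := by
  simp only [ev220, ev221] <;>
  ring

theorem t71 {κ : K} {k : K} {κ1 : K} {k1 : K} (h : Eqs κ k κ1 k1) (F : Pat (Fin 5) → K) :
    bot κ k 0 2 4 (bot κ1 k1 1 3 4 (glue 3 2 F)) P5_20 = emp 2 (emp 3 (U 1 0 F)) P5_20 := by
  simp only [ev222, ev223, ev224] <;>
  ring

theorem t72 {κ : K} {k : K} {κ1 : K} {k1 : K} (h : Eqs κ k κ1 k1) (F : Pat (Fin 6) → K) :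
    bot κ k 0 2 4 (bot κ1 k1 1 3 4 (glue 3 2 F)) P6_30 = emp 2 (emp 3 (U 1 0 F)) P6_30 := by
  simp only [ev225, ev226, ev227] <;>
  ring

theorem t73 {κ : K} {k : K} {κ1 : K} {k1 : K} (h : Eqs κ k κ1 k1) (F : Pat (Fin 5) → K) :
    bot κ k 0 2 4 (bot κ1 k1 1 3 4 (glue 3 2 F)) P5_21 = emp 2 (emp 3 (U 1 0 F)) P5_21 := by
  simp only [ev228, ev229] <;>
  ring

theorem t74 {κ : K} {k : K} {κ1 : K} {k1 : K} (h : Eqs κ k κ1 k1) (F : Pat (Fin 6) → K) :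
    bot κ k 0 2 4 (bot κ1 k1 1 3 4 (glue 3 2 F)) P6_31 = emp 2 (emp 3 (U 1 0 F)) P6_31 := by
  simp only [ev230, ev231] <;>
  ring

theorem t75 {κ : K} {k : K} {κ1 : K} {k1 : K} (h : Eqs κ k κ1 k1) (F : Pat (Fin 7) → K) :
    bot κ k 0 2 4 (bot κ1 k1 1 3 4 (glue 3 2 F)) P7_19 = emp 2 (emp 3 (U 1 0 F)) P7_19 := by
  simp only [ev232, ev233] <;>
  ring

theorem t76 {κ : K} {k : K} {κ1 : K} {k1 : K} (h : Eqs κ k κ1 k1) (F : Pat (Fin 5) → K) :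
    bot κ k 0 2 4 (bot κ1 k1 1 3 4 (glue 3 2 F)) P5_22 = emp 2 (emp 3 (U 1 0 F)) P5_22 := by
  simp only [ev234, ev235] <;>
  ring

theorem t77 {κ : K} {k : K} {κ1 : K} {k1 : K} (h : Eqs κ k κ1 k1) (F : Pat (Fin 6) → K) :
    bot κ k 0 2 4 (bot κ1 k1 1 3 4 (glue 3 2 F)) P6_32 = emp 2 (emp 3 (U 1 0 F)) P6_32 := by
  simp only [ev236, ev237] <;>
  ring

theorem t78 {κ : K} {k : K} {κ1 : K} {k1 : K} (h : Eqs κ k κ1 k1) (F : Pat (Fin 5) → K) :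
    bot κ k 0 2 4 (bot κ1 k1 1 3 4 (glue 3 2 F)) P5_23 = emp 2 (emp 3 (U 1 0 F)) P5_23 := by
  simp only [ev238, ev239, ev240] <;>
  ring

theorem t79 {κ : K} {k : K} {κ1 : K} {k1 : K} (h : Eqs κ k κ1 k1) (F : Pat (Fin 6) → K) :
    bot κ k 0 2 4 (bot κ1 k1 1 3 4 (glue 3 2 F)) P6_33 = emp 2 (emp 3 (U 1 0 F)) P6_33 := by
  simp only [ev241, ev242] <;>
  ring

theorem t80 {κ : K} {k : K} {κ1 : K} {k1 : K} (h : Eqs κ k κ1 k1) (F : Pat (Fin 6) → K) :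
    bot κ k 0 2 4 (bot κ1 k1 1 3 4 (glue 3 2 F)) P6_34 = emp 2 (emp 3 (U 1 0 F)) P6_34 := by
  simp only [ev243, ev244, ev245] <;>
  ring

theorem t81 {κ : K} {k : K} {κ1 : K} {k1 : K} (h : Eqs κ k κ1 k1) (F : Pat (Fin 7) → K) :
    bot κ k 0 2 4 (bot κ1 k1 1 3 4 (glue 3 2 F)) P7_20 = emp 2 (emp 3 (U 1 0 F)) P7_20 := by
  simp only [ev246, ev247, ev248] <;>
  ring

theorem t82 {κ : K} {k : K} {κ1 : K} {k1 : K} (h : Eqs κ k κ1 k1) (F : Pat (Fin 6) → K) :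
    bot κ k 0 2 4 (bot κ1 k1 1 3 4 (glue 3 2 F)) P6_35 = emp 2 (emp 3 (U 1 0 F)) P6_35 := by
  simp only [ev249, ev250] <;>
  ring

theorem t83 {κ : K} {k : K} {κ1 : K} {k1 : K} (h : Eqs κ k κ1 k1) (F : Pat (Fin 7) → K) :
    bot κ k 0 2 4 (bot κ1 k1 1 3 4 (glue 3 2 F)) P7_21 = emp 2 (emp 3 (U 1 0 F)) P7_21 := by
  simp only [ev251, ev252] <;>
  ring

theorem t84 {κ : K} {k : K} {κ1 : K} {k1 : K} (h : Eqs κ k κ1 k1) (F : Pat (Fin 8) → K) :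
    bot κ k 0 2 4 (bot κ1 k1 1 3 4 (glue 3 2 F)) P8_6 = emp 2 (emp 3 (U 1 0 F)) P8_6 := by
  simp only [ev253, ev254] <;>
  ring

theorem t85 {κ : K} {k : K} {κ1 : K} {k1 : K} (h : Eqs κ k κ1 k1) (F : Pat (Fin 5) → K) :
    bot κ k 0 2 4 (bot κ1 k1 1 3 4 (glue 3 2 F)) P5_2 = emp 2 (emp 3 (U 1 0 F)) P5_2 := by
  simp only [ev255, ev256, ev257, ev258] <;>
  ring

theorem t86 {κ : K} {k : K} {κ1 : K} {k1 : K} (h : Eqs κ k κ1 k1) (F : Pat (Fin 6) → K) :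
    bot κ k 0 2 4 (bot κ1 k1 1 3 4 (glue 3 2 F)) P6_7 = emp 2 (emp 3 (U 1 0 F)) P6_7 := by
  simp only [ev259, ev260, ev261] <;>
  ring

theorem t87 {κ : K} {k : K} {κ1 : K} {k1 : K} (h : Eqs κ k κ1 k1) (F : Pat (Fin 5) → K) :
    bot κ k 0 2 4 (bot κ1 k1 1 3 4 (glue 3 2 F)) P5_24 = emp 2 (emp 3 (U 1 0 F)) P5_24 := by
  simp only [ev262, ev263] <;>
  ring

theorem t88 {κ : K} {k : K} {κ1 : K} {k1 : K} (h : Eqs κ k κ1 k1) (F : Pat (Fin 6) → K) :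
    bot κ k 0 2 4 (bot κ1 k1 1 3 4 (glue 3 2 F)) P6_36 = emp 2 (emp 3 (U 1 0 F)) P6_36 := by
  simp only [ev264, ev265] <;>
  ring

theorem t89 {κ : K} {k : K} {κ1 : K} {k1 : K} (h : Eqs κ k κ1 k1) (F : Pat (Fin 7) → K) :
    bot κ k 0 2 4 (bot κ1 k1 1 3 4 (glue 3 2 F)) P7_22 = emp 2 (emp 3 (U 1 0 F)) P7_22 := by
  simp only [ev266, ev267] <;>
  ring

theorem t90 {κ : K} {k : K} {κ1 : K} {k1 : K} (h : Eqs κ k κ1 k1) (F : Pat (Fin 5) → K) :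
    bot κ k 0 2 4 (bot κ1 k1 1 3 4 (glue 3 2 F)) P5_25 = emp 2 (emp 3 (U 1 0 F)) P5_25 := by
  simp only [ev268, ev269] <;>
  ring

theorem t91 {κ : K} {k : K} {κ1 : K} {k1 : K} (h : Eqs κ k κ1 k1) (F : Pat (Fin 6) → K) :
    bot κ k 0 2 4 (bot κ1 k1 1 3 4 (glue 3 2 F)) P6_37 = emp 2 (emp 3 (U 1 0 F)) P6_37 := by
  simp only [ev270, ev271] <;>
  ring

theorem t92 {κ : K} {k : K} {κ1 : K} {k1 : K} (h : Eqs κ k κ1 k1) (F : Pat (Fin 5) → K) :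
    bot κ k 0 2 4 (bot κ1 k1 1 3 4 (glue 3 2 F)) P5_11 = emp 2 (emp 3 (U 1 0 F)) P5_11 := by
  simp only [ev272, ev273, ev274] <;>
  ring

theorem t93 {κ : K} {k : K} {κ1 : K} {k1 : K} (h : Eqs κ k κ1 k1) (F : Pat (Fin 6) → K) :
    bot κ k 0 2 4 (bot κ1 k1 1 3 4 (glue 3 2 F)) P6_38 = emp 2 (emp 3 (U 1 0 F)) P6_38 := by
  simp only [ev275, ev276] <;>
  ring

theorem t94 {κ : K} {k : K} {κ1 : K} {k1 : K} (h : Eqs κ k κ1 k1) (F : Pat (Fin 6) → K) :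
    bot κ k 0 2 4 (bot κ1 k1 1 3 4 (glue 3 2 F)) P6_20 = emp 2 (emp 3 (U 1 0 F)) P6_20 := by
  simp only [ev277, ev278, ev279, ev280] <;>
  ring

theorem t95 {κ : K} {k : K} {κ1 : K} {k1 : K} (h : Eqs κ k κ1 k1) (F : Pat (Fin 7) → K) :
    bot κ k 0 2 4 (bot κ1 k1 1 3 4 (glue 3 2 F)) P7_11 = emp 2 (emp 3 (U 1 0 F)) P7_11 := by
  simp only [ev281, ev282, ev283] <;>
  ring

theorem t96 {κ : K} {k : K} {κ1 : K} {k1 : K} (h : Eqs κ k κ1 k1) (F : Pat (Fin 6) → K) :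
    bot κ k 0 2 4 (bot κ1 k1 1 3 4 (glue 3 2 F)) P6_39 = emp 2 (emp 3 (U 1 0 F)) P6_39 := by
  simp only [ev284, ev285] <;>
  ring

theorem t97 {κ : K} {k : K} {κ1 : K} {k1 : K} (h : Eqs κ k κ1 k1) (F : Pat (Fin 7) → K) :
    bot κ k 0 2 4 (bot κ1 k1 1 3 4 (glue 3 2 F)) P7_23 = emp 2 (emp 3 (U 1 0 F)) P7_23 := by
  simp only [ev286, ev287] <;>
  ring

theorem t98 {κ : K} {k : K} {κ1 : K} {k1 : K} (h : Eqs κ k κ1 k1) (F : Pat (Fin 8) → K) :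
    bot κ k 0 2 4 (bot κ1 k1 1 3 4 (glue 3 2 F)) P8_7 = emp 2 (emp 3 (U 1 0 F)) P8_7 := by
  simp only [ev288, ev289] <;>
  ring

theorem t99 {κ : K} {k : K} {κ1 : K} {k1 : K} (h : Eqs κ k κ1 k1) (F : Pat (Fin 6) → K) :
    bot κ k 0 2 4 (bot κ1 k1 1 3 4 (glue 3 2 F)) P6_40 = emp 2 (emp 3 (U 1 0 F)) P6_40 := by
  simp only [ev290, ev291, ev292, ev293] <;>
  ring

theorem t100 {κ : K} {k : K} {κ1 : K} {k1 : K} (h : Eqs κ k κ1 k1) (F : Pat (Fin 7) → K) :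
    bot κ k 0 2 4 (bot κ1 k1 1 3 4 (glue 3 2 F)) P7_24 = emp 2 (emp 3 (U 1 0 F)) P7_24 := by
  simp only [ev294, ev295, ev296, ev297] <;>
  ring

theorem t101 {κ : K} {k : K} {κ1 : K} {k1 : K} (h : Eqs κ k κ1 k1) (F : Pat (Fin 6) → K) :
    bot κ k 0 2 4 (bot κ1 k1 1 3 4 (glue 3 2 F)) P6_41 = emp 2 (emp 3 (U 1 0 F)) P6_41 := by
  simp only [ev298, ev299, ev300] <;>
  ring

theorem t102 {κ : K} {k : K} {κ1 : K} {k1 : K} (h : Eqs κ k κ1 k1) (F : Pat (Fin 7) → K) :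
    bot κ k 0 2 4 (bot κ1 k1 1 3 4 (glue 3 2 F)) P7_25 = emp 2 (emp 3 (U 1 0 F)) P7_25 := by
  simp only [ev301, ev302, ev303] <;>
  ring

theorem t103 {κ : K} {k : K} {κ1 : K} {k1 : K} (h : Eqs κ k κ1 k1) (F : Pat (Fin 8) → K) :
    bot κ k 0 2 4 (bot κ1 k1 1 3 4 (glue 3 2 F)) P8_8 = emp 2 (emp 3 (U 1 0 F)) P8_8 := by
  simp only [ev304, ev305, ev306] <;>
  ring

theorem t104 {κ : K} {k : K} {κ1 : K} {k1 : K} (h : Eqs κ k κ1 k1) (F : Pat (Fin 6) → K) :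
    bot κ k 0 2 4 (bot κ1 k1 1 3 4 (glue 3 2 F)) P6_42 = emp 2 (emp 3 (U 1 0 F)) P6_42 := by
  simp only [ev307, ev308] <;>
  ring

theorem t105 {κ : K} {k : K} {κ1 : K} {k1 : K} (h : Eqs κ k κ1 k1) (F : Pat (Fin 7) → K) :
    bot κ k 0 2 4 (bot κ1 k1 1 3 4 (glue 3 2 F)) P7_26 = emp 2 (emp 3 (U 1 0 F)) P7_26 := by
  simp only [ev309, ev310] <;>
  ring

theorem t106 {κ : K} {k : K} {κ1 : K} {k1 : K} (h : Eqs κ k κ1 k1) (F : Pat (Fin 6) → K) :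
    bot κ k 0 2 4 (bot κ1 k1 1 3 4 (glue 3 2 F)) P6_43 = emp 2 (emp 3 (U 1 0 F)) P6_43 := by
  simp only [ev311, ev312] <;>
  ring

theorem t107 {κ : K} {k : K} {κ1 : K} {k1 : K} (h : Eqs κ k κ1 k1) (F : Pat (Fin 7) → K) :
    bot κ k 0 2 4 (bot κ1 k1 1 3 4 (glue 3 2 F)) P7_27 = emp 2 (emp 3 (U 1 0 F)) P7_27 := by
  simp only [ev313, ev314] <;>
  ring

theorem t108 {κ : K} {k : K} {κ1 : K} {k1 : K} (h : Eqs κ k κ1 k1) (F : Pat (Fin 7) → K) :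
    bot κ k 0 2 4 (bot κ1 k1 1 3 4 (glue 3 2 F)) P7_28 = emp 2 (emp 3 (U 1 0 F)) P7_28 := by
  simp only [ev315, ev316] <;>
  ring

theorem t109 {κ : K} {k : K} {κ1 : K} {k1 : K} (h : Eqs κ k κ1 k1) (F : Pat (Fin 8) → K) :
    bot κ k 0 2 4 (bot κ1 k1 1 3 4 (glue 3 2 F)) P8_9 = emp 2 (emp 3 (U 1 0 F)) P8_9 := by
  simp only [ev317, ev318] <;>
  ring

theorem t110 {κ : K} {k : K} {κ1 : K} {k1 : K} (h : Eqs κ k κ1 k1) (F : Pat (Fin 7) → K) :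
    bot κ k 0 2 4 (bot κ1 k1 1 3 4 (glue 3 2 F)) P7_29 = emp 2 (emp 3 (U 1 0 F)) P7_29 := by
  simp only [ev319, ev320] <;>
  ring

theorem t111 {κ : K} {k : K} {κ1 : K} {k1 : K} (h : Eqs κ k κ1 k1) (F : Pat (Fin 8) → K) :
    bot κ k 0 2 4 (bot κ1 k1 1 3 4 (glue 3 2 F)) P8_10 = emp 2 (emp 3 (U 1 0 F)) P8_10 := by
  simp only [ev321, ev322] <;>
  ring

theorem t112 {κ : K} {k : K} {κ1 : K} {k1 : K} (h : Eqs κ k κ1 k1) (F : Pat (Fin 9) → K) :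
    bot κ k 0 2 4 (bot κ1 k1 1 3 4 (glue 3 2 F)) P9_1 = emp 2 (emp 3 (U 1 0 F)) P9_1 := by
  simp only [ev323, ev324] <;>
  ring

theorem t113 {κ : K} {k : K} {κ1 : K} {k1 : K} (h : Eqs κ k κ1 k1) (F : Pat (Fin 6) → K) :
    bot κ k 0 2 4 (bot κ1 k1 1 3 4 (glue 3 2 F)) P6_44 = emp 2 (emp 3 (U 1 0 F)) P6_44 := by
  simp only [ev325, ev326] <;>
  ring

theorem t114 {κ : K} {k : K} {κ1 : K} {k1 : K} (h : Eqs κ k κ1 k1) (F : Pat (Fin 7) → K) :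
    bot κ k 0 2 4 (bot κ1 k1 1 3 4 (glue 3 2 F)) P7_30 = emp 2 (emp 3 (U 1 0 F)) P7_30 := by
  simp only [ev327, ev328] <;>
  ring

theorem t115 {κ : K} {k : K} {κ1 : K} {k1 : K} (h : Eqs κ k κ1 k1) (F : Pat (Fin 6) → K) :
    bot κ k 0 2 4 (bot κ1 k1 1 3 4 (glue 3 2 F)) P6_45 = emp 2 (emp 3 (U 1 0 F)) P6_45 := by
  simp only [ev329, ev330] <;>
  ring

theorem t116 {κ : K} {k : K} {κ1 : K} {k1 : K} (h : Eqs κ k κ1 k1) (F : Pat (Fin 7) → K) :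
    bot κ k 0 2 4 (bot κ1 k1 1 3 4 (glue 3 2 F)) P7_31 = emp 2 (emp 3 (U 1 0 F)) P7_31 := by
  simp only [ev331, ev332] <;>
  ring

theorem t117 {κ : K} {k : K} {κ1 : K} {k1 : K} (h : Eqs κ k κ1 k1) (F : Pat (Fin 8) → K) :
    bot κ k 0 2 4 (bot κ1 k1 1 3 4 (glue 3 2 F)) P8_11 = emp 2 (emp 3 (U 1 0 F)) P8_11 := by
  simp only [ev333, ev334] <;>
  ring

theorem t118 {κ : K} {k : K} {κ1 : K} {k1 : K} (h : Eqs κ k κ1 k1) (F : Pat (Fin 6) → K) :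
    bot κ k 0 2 4 (bot κ1 k1 1 3 4 (glue 3 2 F)) P6_46 = emp 2 (emp 3 (U 1 0 F)) P6_46 := by
  simp only [ev335, ev336, ev337] <;>
  ring

theorem t119 {κ : K} {k : K} {κ1 : K} {k1 : K} (h : Eqs κ k κ1 k1) (F : Pat (Fin 7) → K) :
    bot κ k 0 2 4 (bot κ1 k1 1 3 4 (glue 3 2 F)) P7_32 = emp 2 (emp 3 (U 1 0 F)) P7_32 := by
  simp only [ev338, ev339, ev340] <;>
  ring

theorem t120 {κ : K} {k : K} {κ1 : K} {k1 : K} (h : Eqs κ k κ1 k1) (F : Pat (Fin 6) → K) :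
    bot κ k 0 2 4 (bot κ1 k1 1 3 4 (glue 3 2 F)) P6_47 = emp 2 (emp 3 (U 1 0 F)) P6_47 := by
  simp only [ev341, ev342] <;>
  ring

theorem t121 {κ : K} {k : K} {κ1 : K} {k1 : K} (h : Eqs κ k κ1 k1) (F : Pat (Fin 7) → K) :
    bot κ k 0 2 4 (bot κ1 k1 1 3 4 (glue 3 2 F)) P7_33 = emp 2 (emp 3 (U 1 0 F)) P7_33 := by
  simp only [ev343, ev344] <;>
  ring

theorem t122 {κ : K} {k : K} {κ1 : K} {k1 : K} (h : Eqs κ k κ1 k1) (F : Pat (Fin 8) → K) :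
    bot κ k 0 2 4 (bot κ1 k1 1 3 4 (glue 3 2 F)) P8_12 = emp 2 (emp 3 (U 1 0 F)) P8_12 := by
  simp only [ev345, ev346] <;>
  ring

theorem t123 {κ : K} {k : K} {κ1 : K} {k1 : K} (h : Eqs κ k κ1 k1) (F : Pat (Fin 6) → K) :
    bot κ k 0 2 4 (bot κ1 k1 1 3 4 (glue 3 2 F)) P6_48 = emp 2 (emp 3 (U 1 0 F)) P6_48 := by
  simp only [ev347, ev348, ev349, ev350] <;>
  ring

theorem t124 {κ : K} {k : K} {κ1 : K} {k1 : K} (h : Eqs κ k κ1 k1) (F : Pat (Fin 7) → K) :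
    bot κ k 0 2 4 (bot κ1 k1 1 3 4 (glue 3 2 F)) P7_34 = emp 2 (emp 3 (U 1 0 F)) P7_34 := by
  simp only [ev351, ev352, ev353] <;>
  ring

theorem t125 {κ : K} {k : K} {κ1 : K} {k1 : K} (h : Eqs κ k κ1 k1) (F : Pat (Fin 6) → K) :
    bot κ k 0 2 4 (bot κ1 k1 1 3 4 (glue 3 2 F)) P6_49 = emp 2 (emp 3 (U 1 0 F)) P6_49 := by
  simp only [ev354, ev355] <;>
  ring

theorem t126 {κ : K} {k : K} {κ1 : K} {k1 : K} (h : Eqs κ k κ1 k1) (F : Pat (Fin 7) → K) :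
    bot κ k 0 2 4 (bot κ1 k1 1 3 4 (glue 3 2 F)) P7_35 = emp 2 (emp 3 (U 1 0 F)) P7_35 := by
  simp only [ev356, ev357] <;>
  ring

theorem t127 {κ : K} {k : K} {κ1 : K} {k1 : K} (h : Eqs κ k κ1 k1) (F : Pat (Fin 8) → K) :
    bot κ k 0 2 4 (bot κ1 k1 1 3 4 (glue 3 2 F)) P8_13 = emp 2 (emp 3 (U 1 0 F)) P8_13 := by
  simp only [ev358, ev359] <;>
  ring

theorem t128 {κ : K} {k : K} {κ1 : K} {k1 : K} (h : Eqs κ k κ1 k1) (F : Pat (Fin 7) → K) :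
    bot κ k 0 2 4 (bot κ1 k1 1 3 4 (glue 3 2 F)) P7_36 = emp 2 (emp 3 (U 1 0 F)) P7_36 := by
  simp only [ev360, ev361, ev362, ev363] <;>
  ring

theorem t129 {κ : K} {k : K} {κ1 : K} {k1 : K} (h : Eqs κ k κ1 k1) (F : Pat (Fin 8) → K) :
    bot κ k 0 2 4 (bot κ1 k1 1 3 4 (glue 3 2 F)) P8_14 = emp 2 (emp 3 (U 1 0 F)) P8_14 := by
  simp only [ev364, ev365, ev366, ev367] <;>
  ring

theorem t130 {κ : K} {k : K} {κ1 : K} {k1 : K} (h : Eqs κ k κ1 k1) (F : Pat (Fin 7) → K) :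
    bot κ k 0 2 4 (bot κ1 k1 1 3 4 (glue 3 2 F)) P7_37 = emp 2 (emp 3 (U 1 0 F)) P7_37 := by
  simp only [ev368, ev369, ev370] <;>
  ring

theorem t131 {κ : K} {k : K} {κ1 : K} {k1 : K} (h : Eqs κ k κ1 k1) (F : Pat (Fin 8) → K) :
    bot κ k 0 2 4 (bot κ1 k1 1 3 4 (glue 3 2 F)) P8_15 = emp 2 (emp 3 (U 1 0 F)) P8_15 := by
  simp only [ev371, ev372, ev373] <;>
  ring

theorem t132 {κ : K} {k : K} {κ1 : K} {k1 : K} (h : Eqs κ k κ1 k1) (F : Pat (Fin 9) → K) :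
    bot κ k 0 2 4 (bot κ1 k1 1 3 4 (glue 3 2 F)) P9_2 = emp 2 (emp 3 (U 1 0 F)) P9_2 := by
  simp only [ev374, ev375, ev376] <;>
  ring

theorem t133 {κ : K} {k : K} {κ1 : K} {k1 : K} (h : Eqs κ k κ1 k1) (F : Pat (Fin 7) → K) :
    bot κ k 0 2 4 (bot κ1 k1 1 3 4 (glue 3 2 F)) P7_38 = emp 2 (emp 3 (U 1 0 F)) P7_38 := by
  simp only [ev377, ev378] <;>
  ring

theorem t134 {κ : K} {k : K} {κ1 : K} {k1 : K} (h : Eqs κ k κ1 k1) (F : Pat (Fin 8) → K) :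
    bot κ k 0 2 4 (bot κ1 k1 1 3 4 (glue 3 2 F)) P8_16 = emp 2 (emp 3 (U 1 0 F)) P8_16 := by
  simp only [ev379, ev380] <;>
  ring

theorem t135 {κ : K} {k : K} {κ1 : K} {k1 : K} (h : Eqs κ k κ1 k1) (F : Pat (Fin 7) → K) :
    bot κ k 0 2 4 (bot κ1 k1 1 3 4 (glue 3 2 F)) P7_39 = emp 2 (emp 3 (U 1 0 F)) P7_39 := by
  simp only [ev381, ev382] <;>
  ring

theorem t136 {κ : K} {k : K} {κ1 : K} {k1 : K} (h : Eqs κ k κ1 k1) (F : Pat (Fin 8) → K) :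
    bot κ k 0 2 4 (bot κ1 k1 1 3 4 (glue 3 2 F)) P8_17 = emp 2 (emp 3 (U 1 0 F)) P8_17 := by
  simp only [ev383, ev384] <;>
  ring

theorem t137 {κ : K} {k : K} {κ1 : K} {k1 : K} (h : Eqs κ k κ1 k1) (F : Pat (Fin 8) → K) :
    bot κ k 0 2 4 (bot κ1 k1 1 3 4 (glue 3 2 F)) P8_18 = emp 2 (emp 3 (U 1 0 F)) P8_18 := by
  simp only [ev385, ev386] <;>
  ring

theorem t138 {κ : K} {k : K} {κ1 : K} {k1 : K} (h : Eqs κ k κ1 k1) (F : Pat (Fin 9) → K) :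
    bot κ k 0 2 4 (bot κ1 k1 1 3 4 (glue 3 2 F)) P9_3 = emp 2 (emp 3 (U 1 0 F)) P9_3 := by
  simp only [ev387, ev388] <;>
  ring

theorem t139 {κ : K} {k : K} {κ1 : K} {k1 : K} (h : Eqs κ k κ1 k1) (F : Pat (Fin 8) → K) :
    bot κ k 0 2 4 (bot κ1 k1 1 3 4 (glue 3 2 F)) P8_19 = emp 2 (emp 3 (U 1 0 F)) P8_19 := by
  simp only [ev389, ev390] <;>
  ring

theorem t140 {κ : K} {k : K} {κ1 : K} {k1 : K} (h : Eqs κ k κ1 k1) (F : Pat (Fin 9) → K) :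
    bot κ k 0 2 4 (bot κ1 k1 1 3 4 (glue 3 2 F)) P9_4 = emp 2 (emp 3 (U 1 0 F)) P9_4 := by
  simp only [ev391, ev392] <;>
  ring

theorem t141 {κ : K} {k : K} {κ1 : K} {k1 : K} (h : Eqs κ k κ1 k1) (F : Pat (Fin 10) → K) :
    bot κ k 0 2 4 (bot κ1 k1 1 3 4 (glue 3 2 F)) P10_0 = emp 2 (emp 3 (U 1 0 F)) P10_0 := by
  simp only [ev393, ev394] <;>
  ring

theorem case {κ : K} {k : K} {κ1 : K} {k1 : K} {p : Pat α} {m : ℕ} (φ : Fin m → α) (inj : Function.Injective φ)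
    (q : Pat (Fin m)) (hq : ∀ x, p (φ x) = φ (q x)) (l l2 r r2 b : Fin m)
    (H : ∀ F : Pat (Fin m) → K, (bot κ k l r b (bot κ1 k1 l2 r2 b (glue r2 r F))) q = (emp r (emp r2 (U l2 l F))) q)
    (F : Pat α → K) :
    (bot κ k (φ l) (φ r) (φ b) (bot κ1 k1 (φ l2) (φ r2) (φ b) (glue (φ r2) (φ r) F))) p = (emp (φ r) (emp (φ r2) (U (φ l2) (φ l) F))) p := by
  let E : Pat.Emb (Fin m) α := ⟨φ, inj, p, fun x => ⟨q x, hq x⟩⟩
  have hst : E.st q = p := E.st_eq hq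
  have key := H (fun r => F (E.st r))
  have e1 : (bot κ k (E.φ l) (E.φ r) (E.φ b) (bot κ1 k1 (E.φ l2) (E.φ r2) (E.φ b) (glue (E.φ r2) (E.φ r) F))) (E.st q) = (bot κ k l r b (bot κ1 k1 l2 r2 b (glue r2 r (fun r => F (E.st r))))) q := by
    simp only [U_st, bot_st, emp_st, glue_st]
  have e2 : (emp (E.φ r) (emp (E.φ r2) (U (E.φ l2) (E.φ l) F))) (E.st q) = (emp r (emp r2 (U l2 l (fun r => F (E.st r))))) q := by
    simp only [U_st, bot_st, emp_st, glue_st]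
  rw [hst] at e1 e2
  exact e1.trans (key.trans e2.symm)

omit [DecidableEq α] in
theorem inj5 {a0 a1 a2 a3 a4 : α} (h0_1 : a0 ≠ a1) (h0_2 : a0 ≠ a2) (h0_3 : a0 ≠ a3) (h0_4 : a0 ≠ a4) (h1_2 : a1 ≠ a2) (h1_3 : a1 ≠ a3) (h1_4 : a1 ≠ a4) (h2_3 : a2 ≠ a3) (h2_4 : a2 ≠ a4) (h3_4 : a3 ≠ a4) :
    Function.Injective ![a0, a1, a2, a3, a4] := by
  intro x y hxy
  fin_cases x <;> fin_cases y <;> simp_all

omit [DecidableEq α] in
theorem inj6 {a0 a1 a2 a3 a4 a5 : α} (h0_1 : a0 ≠ a1) (h0_2 : a0 ≠ a2) (h0_3 : a0 ≠ a3) (h0_4 : a0 ≠ a4) (h0_5 : a0 ≠ a5) (h1_2 : a1 ≠ a2) (h1_3 : a1 ≠ a3) (h1_4 : a1 ≠ a4) (h1_5 : a1 ≠ a5) (h2_3 : a2 ≠ a3) (h2_4 : a2 ≠ a4) (h2_5 : a2 ≠ a5) (h3_4 : a3 ≠ a4) (h3_5 : a3 ≠ a5) (h4_5 : a4 ≠ a5) :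
    Function.Injective ![a0, a1, a2, a3, a4, a5] := by
  intro x y hxy
  fin_cases x <;> fin_cases y <;> simp_all

omit [DecidableEq α] in
theorem inj7 {a0 a1 a2 a3 a4 a5 a6 : α} (h0_1 : a0 ≠ a1) (h0_2 : a0 ≠ a2) (h0_3 : a0 ≠ a3) (h0_4 : a0 ≠ a4) (h0_5 : a0 ≠ a5) (h0_6 : a0 ≠ a6) (h1_2 : a1 ≠ a2) (h1_3 : a1 ≠ a3) (h1_4 : a1 ≠ a4) (h1_5 : a1 ≠ a5) (h1_6 : a1 ≠ a6) (h2_3 : a2 ≠ a3) (h2_4 : a2 ≠ a4) (h2_5 : a2 ≠ a5) (h2_6 : a2 ≠ a6) (h3_4 : a3 ≠ a4) (h3_5 : a3 ≠ a5) (h3_6 : a3 ≠ a6) (h4_5 : a4 ≠ a5) (h4_6 : a4 ≠ a6) (h5_6 : a5 ≠ a6) :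
    Function.Injective ![a0, a1, a2, a3, a4, a5, a6] := by
  intro x y hxy
  fin_cases x <;> fin_cases y <;> simp_all

omit [DecidableEq α] in
theorem inj8 {a0 a1 a2 a3 a4 a5 a6 a7 : α} (h0_1 : a0 ≠ a1) (h0_2 : a0 ≠ a2) (h0_3 : a0 ≠ a3) (h0_4 : a0 ≠ a4) (h0_5 : a0 ≠ a5) (h0_6 : a0 ≠ a6) (h0_7 : a0 ≠ a7) (h1_2 : a1 ≠ a2) (h1_3 : a1 ≠ a3) (h1_4 : a1 ≠ a4) (h1_5 : a1 ≠ a5) (h1_6 : a1 ≠ a6) (h1_7 : a1 ≠ a7) (h2_3 : a2 ≠ a3) (h2_4 : a2 ≠ a4) (h2_5 : a2 ≠ a5) (h2_6 : a2 ≠ a6) (h2_7 : a2 ≠ a7) (h3_4 : a3 ≠ a4) (h3_5 : a3 ≠ a5) (h3_6 : a3 ≠ a6) (h3_7 : a3 ≠ a7) (h4_5 : a4 ≠ a5) (h4_6 : a4 ≠ a6) (h4_7 : a4 ≠ a7) (h5_6 : a5 ≠ a6) (h5_7 : a5 ≠ a7) (h6_7 : a6 ≠ a7) :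
    Function.Injective ![a0, a1, a2, a3, a4, a5, a6, a7] := by
  intro x y hxy
  fin_cases x <;> fin_cases y <;> simp_all

omit [DecidableEq α] in
theorem inj9 {a0 a1 a2 a3 a4 a5 a6 a7 a8 : α} (h0_1 : a0 ≠ a1) (h0_2 : a0 ≠ a2) (h0_3 : a0 ≠ a3) (h0_4 : a0 ≠ a4) (h0_5 : a0 ≠ a5) (h0_6 : a0 ≠ a6) (h0_7 : a0 ≠ a7) (h0_8 : a0 ≠ a8) (h1_2 : a1 ≠ a2) (h1_3 : a1 ≠ a3) (h1_4 : a1 ≠ a4) (h1_5 : a1 ≠ a5) (h1_6 : a1 ≠ a6) (h1_7 : a1 ≠ a7) (h1_8 : a1 ≠ a8) (h2_3 : a2 ≠ a3) (h2_4 : a2 ≠ a4) (h2_5 : a2 ≠ a5) (h2_6 : a2 ≠ a6) (h2_7 : a2 ≠ a7) (h2_8 : a2 ≠ a8) (h3_4 : a3 ≠ a4) (h3_5 : a3 ≠ a5) (h3_6 : a3 ≠ a6) (h3_7 : a3 ≠ a7) (h3_8 : a3 ≠ a8) (h4_5 : a4 ≠ a5) (h4_6 : a4 ≠ a6) (h4_7 : a4 ≠ a7) (h4_8 : a4 ≠ a8) (h5_6 : a5 ≠ a6) (h5_7 : a5 ≠ a7) (h5_8 : a5 ≠ a8) (h6_7 : a6 ≠ a7) (h6_8 : a6 ≠ a8) (h7_8 : a7 ≠ a8) :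
    Function.Injective ![a0, a1, a2, a3, a4, a5, a6, a7, a8] := by
  intro x y hxy
  fin_cases x <;> fin_cases y <;> simp_all

omit [DecidableEq α] in
theorem inj10 {a0 a1 a2 a3 a4 a5 a6 a7 a8 a9 : α} (h0_1 : a0 ≠ a1) (h0_2 : a0 ≠ a2) (h0_3 : a0 ≠ a3) (h0_4 : a0 ≠ a4) (h0_5 : a0 ≠ a5) (h0_6 : a0 ≠ a6) (h0_7 : a0 ≠ a7) (h0_8 : a0 ≠ a8) (h0_9 : a0 ≠ a9) (h1_2 : a1 ≠ a2) (h1_3 : a1 ≠ a3) (h1_4 : a1 ≠ a4) (h1_5 : a1 ≠ a5) (h1_6 : a1 ≠ a6) (h1_7 : a1 ≠ a7) (h1_8 : a1 ≠ a8) (h1_9 : a1 ≠ a9) (h2_3 : a2 ≠ a3) (h2_4 : a2 ≠ a4) (h2_5 : a2 ≠ a5) (h2_6 : a2 ≠ a6) (h2_7 : a2 ≠ a7) (h2_8 : a2 ≠ a8) (h2_9 : a2 ≠ a9) (h3_4 : a3 ≠ a4) (h3_5 : a3 ≠ a5) (h3_6 : a3 ≠ a6) (h3_7 : a3 ≠ a7) (h3_8 : a3 ≠ a8) (h3_9 : a3 ≠ a9) (h4_5 : a4 ≠ a5) (h4_6 : a4 ≠ a6) (h4_7 : a4 ≠ a7) (h4_8 : a4 ≠ a8) (h4_9 : a4 ≠ a9) (h5_6 : a5 ≠ a6) (h5_7 : a5 ≠ a7) (h5_8 : a5 ≠ a8) (h5_9 : a5 ≠ a9) (h6_7 : a6 ≠ a7) (h6_8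 : a6 ≠ a8) (h6_9 : a6 ≠ a9) (h7_8 : a7 ≠ a8) (h7_9 : a7 ≠ a9) (h8_9 : a8 ≠ a9) :
    Function.Injective ![a0, a1, a2, a3, a4, a5, a6, a7, a8, a9] := by
  intro x y hxy
  fin_cases x <;> fin_cases y <;> simp_all

/-- **FI** -/
theorem main {κ : K} {k : K} {κ1 : K} {k1 : K} (h : Eqs κ k κ1 k1) {l l2 r r2 b : α} (hll2 : l ≠ l2) (hlr : l ≠ r) (hlr2 : l ≠ r2) (hlb : l ≠ b) (hl2r : l2 ≠ r) (hl2r2 : l2 ≠ r2) (hl2b : l2 ≠ b) (hrr2 : r ≠ r2) (hrb : r ≠ b) (hr2b : r2 ≠ b) (F : Pat α → K) :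
    bot κ k l r b (bot κ1 k1 l2 r2 b (glue r2 r F)) = emp r (emp r2 (U l2 l F)) := by
  funext p
  by_cases Xq0 : p l = l
  · by_cases Xq1 : p l2 = l2
    · by_cases Xq2 : p r = r
      · by_cases Xq3 : p r2 = r2
        · by_cases Xq4 : p b = b
          · exact case ![l, l2, r, r2, b] (inj5 hll2 hlr hlr2 hlb hl2r hl2r2 hl2b hrr2 hrb hr2b) P5_0 (by
              intro x; fin_cases x <;> simp [P5_0, Xq0, Xq1, Xq2, Xq3, Xq4]) 0 1 2 3 4 (fun F => t0 h F) F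
          · have Xn4_0 : p b ≠ l := (fun e => hlb ((Xq0).symm.trans (p.eq_comm'.1 e)))
            have Xn4_1 : p b ≠ l2 := (fun e => hl2b ((Xq1).symm.trans (p.eq_comm'.1 e)))
            have Xn4_2 : p b ≠ r := (fun e => hrb ((Xq2).symm.trans (p.eq_comm'.1 e)))
            have Xn4_3 : p b ≠ r2 := (fun e => hr2b ((Xq3).symm.trans (p.eq_comm'.1 e)))
            exact case ![l, l2, r, r2, b, p b] (inj6 hll2 hlr hlr2 hlb (Ne.symm Xn4_0) hl2r hl2r2 hl2b (Ne.symm Xn4_1) hrr2 hrb (Ne.symm Xn4_2) hr2b (Ne.symm Xn4_3) (Ne.symm Xq4)) P6_0 (by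
              intro x; fin_cases x <;> simp [P6_0, Xq0, Xq1, Xq2, Xq3]) 0 1 2 3 4 (fun F => t1 h F) F
        · by_cases Xq3_4 : p r2 = b
          · have Xr4 : p b = r2 := p.eq_comm'.1 Xq3_4
            exact case ![l, l2, r, r2, b] (inj5 hll2 hlr hlr2 hlb hl2r hl2r2 hl2b hrr2 hrb hr2b) P5_6 (by
              intro x; fin_cases x <;> simp [P5_6, Xq0, Xq1, Xq2, Xq3_4, Xr4]) 0 1 2 3 4 (fun F => t2 h F) F
          · by_cases Xq4 : p b = b
            · have Xn3_0 : p r2 ≠ l := (fun e => hlr2 ((Xq0).symm.trans (p.eq_comm'.1 e)))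
              have Xn3_1 : p r2 ≠ l2 := (fun e => hl2r2 ((Xq1).symm.trans (p.eq_comm'.1 e)))
              have Xn3_2 : p r2 ≠ r := (fun e => hrr2 ((Xq2).symm.trans (p.eq_comm'.1 e)))
              exact case ![l, l2, r, r2, b, p r2] (inj6 hll2 hlr hlr2 hlb (Ne.symm Xn3_0) hl2r hl2r2 hl2b (Ne.symm Xn3_1) hrr2 hrb (Ne.symm Xn3_2) hr2b (Ne.symm Xq3) (Ne.symm Xq3_4)) P6_5 (by
                intro x; fin_cases x <;> simp [P6_5, Xq0, Xq1, Xq2, Xq4]) 0 1 2 3 4 (fun F => t3 h F) F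
            · have Xn3_0 : p r2 ≠ l := (fun e => hlr2 ((Xq0).symm.trans (p.eq_comm'.1 e)))
              have Xn3_1 : p r2 ≠ l2 := (fun e => hl2r2 ((Xq1).symm.trans (p.eq_comm'.1 e)))
              have Xn3_2 : p r2 ≠ r := (fun e => hrr2 ((Xq2).symm.trans (p.eq_comm'.1 e)))
              have Xn4_0 : p b ≠ l := (fun e => hlb ((Xq0).symm.trans (p.eq_comm'.1 e)))
              have Xn4_1 : p b ≠ l2 := (fun e => hl2b ((Xq1).symm.trans (p.eq_comm'.1 e)))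
              have Xn4_2 : p b ≠ r := (fun e => hrb ((Xq2).symm.trans (p.eq_comm'.1 e)))
              have Xn4_3 : p b ≠ r2 := (fun e => Xq3_4 (p.eq_comm'.1 e))
              exact case ![l, l2, r, r2, b, p r2, p b] (inj7 hll2 hlr hlr2 hlb (Ne.symm Xn3_0) (Ne.symm Xn4_0) hl2r hl2r2 hl2b (Ne.symm Xn3_1) (Ne.symm Xn4_1) hrr2 hrb (Ne.symm Xn3_2) (Ne.symm Xn4_2) hr2b (Ne.symm Xq3) (Ne.symm Xn4_3) (Ne.symm Xq3_4) (Ne.symm Xq4) (fun e => hr2b (p.inj e))) P7_0 (by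
                intro x; fin_cases x <;> simp [P7_0, Xq0, Xq1, Xq2]) 0 1 2 3 4 (fun F => t4 h F) F
      · by_cases Xq2_3 : p r = r2
        · have Xr3 : p r2 = r := p.eq_comm'.1 Xq2_3
          by_cases Xq4 : p b = b
          · exact case ![l, l2, r, r2, b] (inj5 hll2 hlr hlr2 hlb hl2r hl2r2 hl2b hrr2 hrb hr2b) P5_13 (by
              intro x; fin_cases x <;> simp [P5_13, Xq0, Xq1, Xq2_3, Xr3, Xq4]) 0 1 2 3 4 (fun F => t5 h F) F
          · have Xn4_0 : p b ≠ l := (fun e => hlb ((Xq0).symm.trans (p.eq_comm'.1 e)))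
            have Xn4_1 : p b ≠ l2 := (fun e => hl2b ((Xq1).symm.trans (p.eq_comm'.1 e)))
            have Xn4_2 : p b ≠ r := (fun e => hr2b ((Xq2_3).symm.trans (p.eq_comm'.1 e)))
            have Xn4_3 : p b ≠ r2 := (fun e => hrb ((Xr3).symm.trans (p.eq_comm'.1 e)))
            exact case ![l, l2, r, r2, b, p b] (inj6 hll2 hlr hlr2 hlb (Ne.symm Xn4_0) hl2r hl2r2 hl2b (Ne.symm Xn4_1) hrr2 hrb (Ne.symm Xn4_2) hr2b (Ne.symm Xn4_3) (Ne.symm Xq4)) P6_9 (by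
              intro x; fin_cases x <;> simp [P6_9, Xq0, Xq1, Xq2_3, Xr3]) 0 1 2 3 4 (fun F => t6 h F) F
        · by_cases Xq2_4 : p r = b
          · have Xr4 : p b = r := p.eq_comm'.1 Xq2_4
            by_cases Xq3 : p r2 = r2
            · exact case ![l, l2, r, r2, b] (inj5 hll2 hlr hlr2 hlb hl2r hl2r2 hl2b hrr2 hrb hr2b) P5_3 (by
                intro x; fin_cases x <;> simp [P5_3, Xq0, Xq1, Xq2_4, Xq3, Xr4]) 0 1 2 3 4 (fun F => t7 h F) F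
            · have Xn3_0 : p r2 ≠ l := (fun e => hlr2 ((Xq0).symm.trans (p.eq_comm'.1 e)))
              have Xn3_1 : p r2 ≠ l2 := (fun e => hl2r2 ((Xq1).symm.trans (p.eq_comm'.1 e)))
              have Xn3_2 : p r2 ≠ r := (fun e => (Ne.symm hr2b) ((Xq2_4).symm.trans (p.eq_comm'.1 e)))
              have Xn3_4 : p r2 ≠ b := (fun e => hrr2 ((Xr4).symm.trans (p.eq_comm'.1 e)))
              exact case ![l, l2, r, r2, b, p r2] (inj6 hll2 hlr hlr2 hlb (Ne.symm Xn3_0) hl2r hl2r2 hl2b (Ne.symm Xn3_1) hrr2 hrb (Ne.symm Xn3_2) hr2b (Ne.symm Xq3) (Ne.symm Xn3_4)) P6_8 (by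
                intro x; fin_cases x <;> simp [P6_8, Xq0, Xq1, Xq2_4, Xr4]) 0 1 2 3 4 (fun F => t8 h F) F
          · by_cases Xq3 : p r2 = r2
            · by_cases Xq4 : p b = b
              · have Xn2_0 : p r ≠ l := (fun e => hlr ((Xq0).symm.trans (p.eq_comm'.1 e)))
                have Xn2_1 : p r ≠ l2 := (fun e => hl2r ((Xq1).symm.trans (p.eq_comm'.1 e)))
                exact case ![l, l2, r, r2, b, p r] (inj6 hll2 hlr hlr2 hlb (Ne.symm Xn2_0) hl2r hl2r2 hl2b (Ne.symm Xn2_1) hrr2 hrb (Ne.symm Xq2) hr2b (Ne.symm Xq2_3) (Ne.symm Xq2_4)) P6_10 (by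
                  intro x; fin_cases x <;> simp [P6_10, Xq0, Xq1, Xq3, Xq4]) 0 1 2 3 4 (fun F => t9 h F) F
              · have Xn2_0 : p r ≠ l := (fun e => hlr ((Xq0).symm.trans (p.eq_comm'.1 e)))
                have Xn2_1 : p r ≠ l2 := (fun e => hl2r ((Xq1).symm.trans (p.eq_comm'.1 e)))
                have Xn4_0 : p b ≠ l := (fun e => hlb ((Xq0).symm.trans (p.eq_comm'.1 e)))
                have Xn4_1 : p b ≠ l2 := (fun e => hl2b ((Xq1).symm.trans (p.eq_comm'.1 e)))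
                have Xn4_2 : p b ≠ r := (fun e => Xq2_4 (p.eq_comm'.1 e))
                have Xn4_3 : p b ≠ r2 := (fun e => hr2b ((Xq3).symm.trans (p.eq_comm'.1 e)))
                exact case ![l, l2, r, r2, b, p r, p b] (inj7 hll2 hlr hlr2 hlb (Ne.symm Xn2_0) (Ne.symm Xn4_0) hl2r hl2r2 hl2b (Ne.symm Xn2_1) (Ne.symm Xn4_1) hrr2 hrb (Ne.symm Xq2) (Ne.symm Xn4_2) hr2b (Ne.symm Xq2_3) (Ne.symm Xn4_3) (Ne.symm Xq2_4) (Ne.symm Xq4) (fun e => hrb (p.inj e))) P7_2 (by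
                  intro x; fin_cases x <;> simp [P7_2, Xq0, Xq1, Xq3]) 0 1 2 3 4 (fun F => t10 h F) F
            · by_cases Xq3_4 : p r2 = b
              · have Xr4 : p b = r2 := p.eq_comm'.1 Xq3_4
                have Xn2_0 : p r ≠ l := (fun e => hlr ((Xq0).symm.trans (p.eq_comm'.1 e)))
                have Xn2_1 : p r ≠ l2 := (fun e => hl2r ((Xq1).symm.trans (p.eq_comm'.1 e)))
                exact case ![l, l2, r, r2, b, p r] (inj6 hll2 hlr hlr2 hlb (Ne.symm Xn2_0) hl2r hl2r2 hl2b (Ne.symm Xn2_1) hrr2 hrb (Ne.symm Xq2) hr2b (Ne.symm Xq2_3) (Ne.symm Xq2_4)) P6_11 (by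
                  intro x; fin_cases x <;> simp [P6_11, Xq0, Xq1, Xq3_4, Xr4]) 0 1 2 3 4 (fun F => t11 h F) F
              · by_cases Xq4 : p b = b
                · have Xn2_0 : p r ≠ l := (fun e => hlr ((Xq0).symm.trans (p.eq_comm'.1 e)))
                  have Xn2_1 : p r ≠ l2 := (fun e => hl2r ((Xq1).symm.trans (p.eq_comm'.1 e)))
                  have Xn3_0 : p r2 ≠ l := (fun e => hlr2 ((Xq0).symm.trans (p.eq_comm'.1 e)))
                  have Xn3_1 : p r2 ≠ l2 := (fun e => hl2r2 ((Xq1).symm.trans (p.eq_comm'.1 e)))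
                  have Xn3_2 : p r2 ≠ r := (fun e => Xq2_3 (p.eq_comm'.1 e))
                  exact case ![l, l2, r, r2, b, p r, p r2] (inj7 hll2 hlr hlr2 hlb (Ne.symm Xn2_0) (Ne.symm Xn3_0) hl2r hl2r2 hl2b (Ne.symm Xn2_1) (Ne.symm Xn3_1) hrr2 hrb (Ne.symm Xq2) (Ne.symm Xn3_2) hr2b (Ne.symm Xq2_3) (Ne.symm Xq3) (Ne.symm Xq2_4) (Ne.symm Xq3_4) (fun e => hrr2 (p.inj e))) P7_3 (by
                    intro x; fin_cases x <;> simp [P7_3, Xq0, Xq1, Xq4]) 0 1 2 3 4 (fun F => t12 h F) F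
                · have Xn2_0 : p r ≠ l := (fun e => hlr ((Xq0).symm.trans (p.eq_comm'.1 e)))
                  have Xn2_1 : p r ≠ l2 := (fun e => hl2r ((Xq1).symm.trans (p.eq_comm'.1 e)))
                  have Xn3_0 : p r2 ≠ l := (fun e => hlr2 ((Xq0).symm.trans (p.eq_comm'.1 e)))
                  have Xn3_1 : p r2 ≠ l2 := (fun e => hl2r2 ((Xq1).symm.trans (p.eq_comm'.1 e)))
                  have Xn3_2 : p r2 ≠ r := (fun e => Xq2_3 (p.eq_comm'.1 e))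
                  have Xn4_0 : p b ≠ l := (fun e => hlb ((Xq0).symm.trans (p.eq_comm'.1 e)))
                  have Xn4_1 : p b ≠ l2 := (fun e => hl2b ((Xq1).symm.trans (p.eq_comm'.1 e)))
                  have Xn4_2 : p b ≠ r := (fun e => Xq2_4 (p.eq_comm'.1 e))
                  have Xn4_3 : p b ≠ r2 := (fun e => Xq3_4 (p.eq_comm'.1 e))
                  exact case ![l, l2, r, r2, b, p r, p r2, p b] (inj8 hll2 hlr hlr2 hlb (Ne.symm Xn2_0) (Ne.symm Xn3_0) (Ne.symm Xn4_0) hl2r hl2r2 hl2b (Ne.symm Xn2_1) (Ne.symm Xn3_1) (Ne.symm Xn4_1) hrr2 hrb (Ne.symm Xq2) (Ne.symm Xn3_2) (Ne.symm Xn4_2) hr2b (Ne.symm Xq2_3) (Ne.symm Xq3) (Ne.symm Xn4_3) (Ne.symm Xq2_4) (Ne.symm Xq3_4) (Ne.symm Xq4) (fun e => hrr2 (p.inj e)) (fun e => hrb (p.inj e)) (fun e => hr2b (p.inj e))) P8_0 (by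
                    intro x; fin_cases x <;> simp [P8_0, Xq0, Xq1]) 0 1 2 3 4 (fun F => t13 h F) F
    · by_cases Xq1_2 : p l2 = r
      · have Xr2 : p r = l2 := p.eq_comm'.1 Xq1_2
        by_cases Xq3 : p r2 = r2
        · by_cases Xq4 : p b = b
          · exact case ![l, l2, r, r2, b] (inj5 hll2 hlr hlr2 hlb hl2r hl2r2 hl2b hrr2 hrb hr2b) P5_14 (by
              intro x; fin_cases x <;> simp [P5_14, Xq0, Xq1_2, Xr2, Xq3, Xq4]) 0 1 2 3 4 (fun F => t14 h F) F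
          · have Xn4_0 : p b ≠ l := (fun e => hlb ((Xq0).symm.trans (p.eq_comm'.1 e)))
            have Xn4_1 : p b ≠ l2 := (fun e => hrb ((Xq1_2).symm.trans (p.eq_comm'.1 e)))
            have Xn4_2 : p b ≠ r := (fun e => hl2b ((Xr2).symm.trans (p.eq_comm'.1 e)))
            have Xn4_3 : p b ≠ r2 := (fun e => hr2b ((Xq3).symm.trans (p.eq_comm'.1 e)))
            exact case ![l, l2, r, r2, b, p b] (inj6 hll2 hlr hlr2 hlb (Ne.symm Xn4_0) hl2r hl2r2 hl2b (Ne.symm Xn4_1) hrr2 hrb (Ne.symm Xn4_2) hr2b (Ne.symm Xn4_3) (Ne.symm Xq4)) P6_12 (by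
              intro x; fin_cases x <;> simp [P6_12, Xq0, Xq1_2, Xr2, Xq3]) 0 1 2 3 4 (fun F => t15 h F) F
        · by_cases Xq3_4 : p r2 = b
          · have Xr4 : p b = r2 := p.eq_comm'.1 Xq3_4
            exact case ![l, l2, r, r2, b] (inj5 hll2 hlr hlr2 hlb hl2r hl2r2 hl2b hrr2 hrb hr2b) P5_15 (by
              intro x; fin_cases x <;> simp [P5_15, Xq0, Xq1_2, Xr2, Xq3_4, Xr4]) 0 1 2 3 4 (fun F => t16 h F) F
          · by_cases Xq4 : p b = b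
            · have Xn3_0 : p r2 ≠ l := (fun e => hlr2 ((Xq0).symm.trans (p.eq_comm'.1 e)))
              have Xn3_1 : p r2 ≠ l2 := (fun e => hrr2 ((Xq1_2).symm.trans (p.eq_comm'.1 e)))
              have Xn3_2 : p r2 ≠ r := (fun e => hl2r2 ((Xr2).symm.trans (p.eq_comm'.1 e)))
              exact case ![l, l2, r, r2, b, p r2] (inj6 hll2 hlr hlr2 hlb (Ne.symm Xn3_0) hl2r hl2r2 hl2b (Ne.symm Xn3_1) hrr2 hrb (Ne.symm Xn3_2) hr2b (Ne.symm Xq3) (Ne.symm Xq3_4)) P6_13 (by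
                intro x; fin_cases x <;> simp [P6_13, Xq0, Xq1_2, Xr2, Xq4]) 0 1 2 3 4 (fun F => t17 h F) F
            · have Xn3_0 : p r2 ≠ l := (fun e => hlr2 ((Xq0).symm.trans (p.eq_comm'.1 e)))
              have Xn3_1 : p r2 ≠ l2 := (fun e => hrr2 ((Xq1_2).symm.trans (p.eq_comm'.1 e)))
              have Xn3_2 : p r2 ≠ r := (fun e => hl2r2 ((Xr2).symm.trans (p.eq_comm'.1 e)))
              have Xn4_0 : p b ≠ l := (fun e => hlb ((Xq0).symm.trans (p.eq_comm'.1 e)))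
              have Xn4_1 : p b ≠ l2 := (fun e => hrb ((Xq1_2).symm.trans (p.eq_comm'.1 e)))
              have Xn4_2 : p b ≠ r := (fun e => hl2b ((Xr2).symm.trans (p.eq_comm'.1 e)))
              have Xn4_3 : p b ≠ r2 := (fun e => Xq3_4 (p.eq_comm'.1 e))
              exact case ![l, l2, r, r2, b, p r2, p b] (inj7 hll2 hlr hlr2 hlb (Ne.symm Xn3_0) (Ne.symm Xn4_0) hl2r hl2r2 hl2b (Ne.symm Xn3_1) (Ne.symm Xn4_1) hrr2 hrb (Ne.symm Xn3_2) (Ne.symm Xn4_2) hr2b (Ne.symm Xq3) (Ne.symm Xn4_3) (Ne.symm Xq3_4) (Ne.symm Xq4) (fun e => hr2b (p.inj e))) P7_4 (by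
                intro x; fin_cases x <;> simp [P7_4, Xq0, Xq1_2, Xr2]) 0 1 2 3 4 (fun F => t18 h F) F
      · by_cases Xq1_3 : p l2 = r2
        · have Xr3 : p r2 = l2 := p.eq_comm'.1 Xq1_3
          by_cases Xq2 : p r = r
          · by_cases Xq4 : p b = b
            · exact case ![l, l2, r, r2, b] (inj5 hll2 hlr hlr2 hlb hl2r hl2r2 hl2b hrr2 hrb hr2b) P5_4 (by
                intro x; fin_cases x <;> simp [P5_4, Xq0, Xq1_3, Xq2, Xr3, Xq4]) 0 1 2 3 4 (fun F => t19 h F) F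
            · have Xn4_0 : p b ≠ l := (fun e => hlb ((Xq0).symm.trans (p.eq_comm'.1 e)))
              have Xn4_1 : p b ≠ l2 := (fun e => hr2b ((Xq1_3).symm.trans (p.eq_comm'.1 e)))
              have Xn4_2 : p b ≠ r := (fun e => hrb ((Xq2).symm.trans (p.eq_comm'.1 e)))
              have Xn4_3 : p b ≠ r2 := (fun e => hl2b ((Xr3).symm.trans (p.eq_comm'.1 e)))
              exact case ![l, l2, r, r2, b, p b] (inj6 hll2 hlr hlr2 hlb (Ne.symm Xn4_0) hl2r hl2r2 hl2b (Ne.symm Xn4_1) hrr2 hrb (Ne.symm Xn4_2) hr2b (Ne.symm Xn4_3) (Ne.symm Xq4)) P6_2 (by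
                intro x; fin_cases x <;> simp [P6_2, Xq0, Xq1_3, Xq2, Xr3]) 0 1 2 3 4 (fun F => t20 h F) F
          · by_cases Xq2_4 : p r = b
            · have Xr4 : p b = r := p.eq_comm'.1 Xq2_4
              exact case ![l, l2, r, r2, b] (inj5 hll2 hlr hlr2 hlb hl2r hl2r2 hl2b hrr2 hrb hr2b) P5_7 (by
                intro x; fin_cases x <;> simp [P5_7, Xq0, Xq1_3, Xq2_4, Xr3, Xr4]) 0 1 2 3 4 (fun F => t21 h F) F
            · by_cases Xq4 : p b = b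
              · have Xn2_0 : p r ≠ l := (fun e => hlr ((Xq0).symm.trans (p.eq_comm'.1 e)))
                have Xn2_1 : p r ≠ l2 := (fun e => (Ne.symm hrr2) ((Xq1_3).symm.trans (p.eq_comm'.1 e)))
                have Xn2_3 : p r ≠ r2 := (fun e => hl2r ((Xr3).symm.trans (p.eq_comm'.1 e)))
                exact case ![l, l2, r, r2, b, p r] (inj6 hll2 hlr hlr2 hlb (Ne.symm Xn2_0) hl2r hl2r2 hl2b (Ne.symm Xn2_1) hrr2 hrb (Ne.symm Xq2) hr2b (Ne.symm Xn2_3) (Ne.symm Xq2_4)) P6_14 (by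
                  intro x; fin_cases x <;> simp [P6_14, Xq0, Xq1_3, Xr3, Xq4]) 0 1 2 3 4 (fun F => t22 h F) F
              · have Xn2_0 : p r ≠ l := (fun e => hlr ((Xq0).symm.trans (p.eq_comm'.1 e)))
                have Xn2_1 : p r ≠ l2 := (fun e => (Ne.symm hrr2) ((Xq1_3).symm.trans (p.eq_comm'.1 e)))
                have Xn2_3 : p r ≠ r2 := (fun e => hl2r ((Xr3).symm.trans (p.eq_comm'.1 e)))
                have Xn4_0 : p b ≠ l := (fun e => hlb ((Xq0).symm.trans (p.eq_comm'.1 e)))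
                have Xn4_1 : p b ≠ l2 := (fun e => hr2b ((Xq1_3).symm.trans (p.eq_comm'.1 e)))
                have Xn4_2 : p b ≠ r := (fun e => Xq2_4 (p.eq_comm'.1 e))
                have Xn4_3 : p b ≠ r2 := (fun e => hl2b ((Xr3).symm.trans (p.eq_comm'.1 e)))
                exact case ![l, l2, r, r2, b, p r, p b] (inj7 hll2 hlr hlr2 hlb (Ne.symm Xn2_0) (Ne.symm Xn4_0) hl2r hl2r2 hl2b (Ne.symm Xn2_1) (Ne.symm Xn4_1) hrr2 hrb (Ne.symm Xq2) (Ne.symm Xn4_2) hr2b (Ne.symm Xn2_3) (Ne.symm Xn4_3) (Ne.symm Xq2_4) (Ne.symm Xq4) (fun e => hrb (p.inj e))) P7_5 (by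
                  intro x; fin_cases x <;> simp [P7_5, Xq0, Xq1_3, Xr3]) 0 1 2 3 4 (fun F => t23 h F) F
        · by_cases Xq1_4 : p l2 = b
          · have Xr4 : p b = l2 := p.eq_comm'.1 Xq1_4
            by_cases Xq2 : p r = r
            · by_cases Xq3 : p r2 = r2
              · exact case ![l, l2, r, r2, b] (inj5 hll2 hlr hlr2 hlb hl2r hl2r2 hl2b hrr2 hrb hr2b) P5_5 (by
                  intro x; fin_cases x <;> simp [P5_5, Xq0, Xq1_4, Xq2, Xq3, Xr4]) 0 1 2 3 4 (fun F => t24 h F) F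
              · have Xn3_0 : p r2 ≠ l := (fun e => hlr2 ((Xq0).symm.trans (p.eq_comm'.1 e)))
                have Xn3_1 : p r2 ≠ l2 := (fun e => (Ne.symm hr2b) ((Xq1_4).symm.trans (p.eq_comm'.1 e)))
                have Xn3_2 : p r2 ≠ r := (fun e => hrr2 ((Xq2).symm.trans (p.eq_comm'.1 e)))
                have Xn3_4 : p r2 ≠ b := (fun e => hl2r2 ((Xr4).symm.trans (p.eq_comm'.1 e)))
                exact case ![l, l2, r, r2, b, p r2] (inj6 hll2 hlr hlr2 hlb (Ne.symm Xn3_0) hl2r hl2r2 hl2b (Ne.symm Xn3_1) hrr2 hrb (Ne.symm Xn3_2) hr2b (Ne.symm Xq3) (Ne.symm Xn3_4)) P6_15 (by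
                  intro x; fin_cases x <;> simp [P6_15, Xq0, Xq1_4, Xq2, Xr4]) 0 1 2 3 4 (fun F => t25 h F) F
            · by_cases Xq2_3 : p r = r2
              · have Xr3 : p r2 = r := p.eq_comm'.1 Xq2_3
                exact case ![l, l2, r, r2, b] (inj5 hll2 hlr hlr2 hlb hl2r hl2r2 hl2b hrr2 hrb hr2b) P5_16 (by
                  intro x; fin_cases x <;> simp [P5_16, Xq0, Xq1_4, Xq2_3, Xr3, Xr4]) 0 1 2 3 4 (fun F => t26 h F) F
              · by_cases Xq3 : p r2 = r2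
                · have Xn2_0 : p r ≠ l := (fun e => hlr ((Xq0).symm.trans (p.eq_comm'.1 e)))
                  have Xn2_1 : p r ≠ l2 := (fun e => (Ne.symm hrb) ((Xq1_4).symm.trans (p.eq_comm'.1 e)))
                  have Xn2_4 : p r ≠ b := (fun e => hl2r ((Xr4).symm.trans (p.eq_comm'.1 e)))
                  exact case ![l, l2, r, r2, b, p r] (inj6 hll2 hlr hlr2 hlb (Ne.symm Xn2_0) hl2r hl2r2 hl2b (Ne.symm Xn2_1) hrr2 hrb (Ne.symm Xq2) hr2b (Ne.symm Xq2_3) (Ne.symm Xn2_4)) P6_17 (by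
                    intro x; fin_cases x <;> simp [P6_17, Xq0, Xq1_4, Xq3, Xr4]) 0 1 2 3 4 (fun F => t27 h F) F
                · have Xn2_0 : p r ≠ l := (fun e => hlr ((Xq0).symm.trans (p.eq_comm'.1 e)))
                  have Xn2_1 : p r ≠ l2 := (fun e => (Ne.symm hrb) ((Xq1_4).symm.trans (p.eq_comm'.1 e)))
                  have Xn2_4 : p r ≠ b := (fun e => hl2r ((Xr4).symm.trans (p.eq_comm'.1 e)))
                  have Xn3_0 : p r2 ≠ l := (fun e => hlr2 ((Xq0).symm.trans (p.eq_comm'.1 e)))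
                  have Xn3_1 : p r2 ≠ l2 := (fun e => (Ne.symm hr2b) ((Xq1_4).symm.trans (p.eq_comm'.1 e)))
                  have Xn3_2 : p r2 ≠ r := (fun e => Xq2_3 (p.eq_comm'.1 e))
                  have Xn3_4 : p r2 ≠ b := (fun e => hl2r2 ((Xr4).symm.trans (p.eq_comm'.1 e)))
                  exact case ![l, l2, r, r2, b, p r, p r2] (inj7 hll2 hlr hlr2 hlb (Ne.symm Xn2_0) (Ne.symm Xn3_0) hl2r hl2r2 hl2b (Ne.symm Xn2_1) (Ne.symm Xn3_1) hrr2 hrb (Ne.symm Xq2) (Ne.symm Xn3_2) hr2b (Ne.symm Xq2_3) (Ne.symm Xq3) (Ne.symm Xn2_4) (Ne.symm Xn3_4) (fun e => hrr2 (p.inj e))) P7_6 (by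
                    intro x; fin_cases x <;> simp [P7_6, Xq0, Xq1_4, Xr4]) 0 1 2 3 4 (fun F => t28 h F) F
          · by_cases Xq2 : p r = r
            · by_cases Xq3 : p r2 = r2
              · by_cases Xq4 : p b = b
                · have Xn1_0 : p l2 ≠ l := (fun e => hll2 ((Xq0).symm.trans (p.eq_comm'.1 e)))
                  exact case ![l, l2, r, r2, b, p l2] (inj6 hll2 hlr hlr2 hlb (Ne.symm Xn1_0) hl2r hl2r2 hl2b (Ne.symm Xq1) hrr2 hrb (Ne.symm Xq1_2) hr2b (Ne.symm Xq1_3) (Ne.symm Xq1_4)) P6_18 (by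
                    intro x; fin_cases x <;> simp [P6_18, Xq0, Xq2, Xq3, Xq4]) 0 1 2 3 4 (fun F => t29 h F) F
                · have Xn1_0 : p l2 ≠ l := (fun e => hll2 ((Xq0).symm.trans (p.eq_comm'.1 e)))
                  have Xn4_0 : p b ≠ l := (fun e => hlb ((Xq0).symm.trans (p.eq_comm'.1 e)))
                  have Xn4_1 : p b ≠ l2 := (fun e => Xq1_4 (p.eq_comm'.1 e))
                  have Xn4_2 : p b ≠ r := (fun e => hrb ((Xq2).symm.trans (p.eq_comm'.1 e)))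
                  have Xn4_3 : p b ≠ r2 := (fun e => hr2b ((Xq3).symm.trans (p.eq_comm'.1 e)))
                  exact case ![l, l2, r, r2, b, p l2, p b] (inj7 hll2 hlr hlr2 hlb (Ne.symm Xn1_0) (Ne.symm Xn4_0) hl2r hl2r2 hl2b (Ne.symm Xq1) (Ne.symm Xn4_1) hrr2 hrb (Ne.symm Xq1_2) (Ne.symm Xn4_2) hr2b (Ne.symm Xq1_3) (Ne.symm Xn4_3) (Ne.symm Xq1_4) (Ne.symm Xq4) (fun e => hl2b (p.inj e))) P7_7 (by
                    intro x; fin_cases x <;> simp [P7_7, Xq0, Xq2, Xq3]) 0 1 2 3 4 (fun F => t30 h F) F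
              · by_cases Xq3_4 : p r2 = b
                · have Xr4 : p b = r2 := p.eq_comm'.1 Xq3_4
                  have Xn1_0 : p l2 ≠ l := (fun e => hll2 ((Xq0).symm.trans (p.eq_comm'.1 e)))
                  exact case ![l, l2, r, r2, b, p l2] (inj6 hll2 hlr hlr2 hlb (Ne.symm Xn1_0) hl2r hl2r2 hl2b (Ne.symm Xq1) hrr2 hrb (Ne.symm Xq1_2) hr2b (Ne.symm Xq1_3) (Ne.symm Xq1_4)) P6_22 (by
                    intro x; fin_cases x <;> simp [P6_22, Xq0, Xq2, Xq3_4, Xr4]) 0 1 2 3 4 (fun F => t31 h F) F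
                · by_cases Xq4 : p b = b
                  · have Xn1_0 : p l2 ≠ l := (fun e => hll2 ((Xq0).symm.trans (p.eq_comm'.1 e)))
                    have Xn3_0 : p r2 ≠ l := (fun e => hlr2 ((Xq0).symm.trans (p.eq_comm'.1 e)))
                    have Xn3_1 : p r2 ≠ l2 := (fun e => Xq1_3 (p.eq_comm'.1 e))
                    have Xn3_2 : p r2 ≠ r := (fun e => hrr2 ((Xq2).symm.trans (p.eq_comm'.1 e)))
                    exact case ![l, l2, r, r2, b, p l2, p r2] (inj7 hll2 hlr hlr2 hlb (Ne.symm Xn1_0) (Ne.symm Xn3_0) hl2r hl2r2 hl2b (Ne.symm Xq1) (Ne.symm Xn3_1) hrr2 hrb (Ne.symm Xq1_2) (Ne.symm Xn3_2) hr2b (Ne.symm Xq1_3) (Ne.symm Xq3) (Ne.symm Xq1_4) (Ne.symm Xq3_4) (fun e => hl2r2 (p.inj e))) P7_9 (by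
                      intro x; fin_cases x <;> simp [P7_9, Xq0, Xq2, Xq4]) 0 1 2 3 4 (fun F => t32 h F) F
                  · have Xn1_0 : p l2 ≠ l := (fun e => hll2 ((Xq0).symm.trans (p.eq_comm'.1 e)))
                    have Xn3_0 : p r2 ≠ l := (fun e => hlr2 ((Xq0).symm.trans (p.eq_comm'.1 e)))
                    have Xn3_1 : p r2 ≠ l2 := (fun e => Xq1_3 (p.eq_comm'.1 e))
                    have Xn3_2 : p r2 ≠ r := (fun e => hrr2 ((Xq2).symm.trans (p.eq_comm'.1 e)))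
                    have Xn4_0 : p b ≠ l := (fun e => hlb ((Xq0).symm.trans (p.eq_comm'.1 e)))
                    have Xn4_1 : p b ≠ l2 := (fun e => Xq1_4 (p.eq_comm'.1 e))
                    have Xn4_2 : p b ≠ r := (fun e => hrb ((Xq2).symm.trans (p.eq_comm'.1 e)))
                    have Xn4_3 : p b ≠ r2 := (fun e => Xq3_4 (p.eq_comm'.1 e))
                    exact case ![l, l2, r, r2, b, p l2, p r2, p b] (inj8 hll2 hlr hlr2 hlb (Ne.symm Xn1_0) (Ne.symm Xn3_0) (Ne.symm Xn4_0) hl2r hl2r2 hl2b (Ne.symm Xq1) (Ne.symm Xn3_1) (Ne.symm Xn4_1) hrr2 hrb (Ne.symm Xq1_2) (Ne.symm Xn3_2) (Ne.symm Xn4_2) hr2b (Ne.symm Xq1_3) (Ne.symm Xq3) (Ne.symm Xn4_3) (Ne.symm Xq1_4) (Ne.symm Xq3_4) (Ne.symm Xq4) (fun e => hl2r2 (p.inj e)) (fun e => hl2b (p.inj e)) (fun e => hr2b (p.inj e))) P8_1 (by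
                      intro x; fin_cases x <;> simp [P8_1, Xq0, Xq2]) 0 1 2 3 4 (fun F => t33 h F) F
            · by_cases Xq2_3 : p r = r2
              · have Xr3 : p r2 = r := p.eq_comm'.1 Xq2_3
                by_cases Xq4 : p b = b
                · have Xn1_0 : p l2 ≠ l := (fun e => hll2 ((Xq0).symm.trans (p.eq_comm'.1 e)))
                  exact case ![l, l2, r, r2, b, p l2] (inj6 hll2 hlr hlr2 hlb (Ne.symm Xn1_0) hl2r hl2r2 hl2b (Ne.symm Xq1) hrr2 hrb (Ne.symm Xq1_2) hr2b (Ne.symm Xq1_3) (Ne.symm Xq1_4)) P6_24 (by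
                    intro x; fin_cases x <;> simp [P6_24, Xq0, Xq2_3, Xr3, Xq4]) 0 1 2 3 4 (fun F => t34 h F) F
                · have Xn1_0 : p l2 ≠ l := (fun e => hll2 ((Xq0).symm.trans (p.eq_comm'.1 e)))
                  have Xn4_0 : p b ≠ l := (fun e => hlb ((Xq0).symm.trans (p.eq_comm'.1 e)))
                  have Xn4_1 : p b ≠ l2 := (fun e => Xq1_4 (p.eq_comm'.1 e))
                  have Xn4_2 : p b ≠ r := (fun e => hr2b ((Xq2_3).symm.trans (p.eq_comm'.1 e)))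
                  have Xn4_3 : p b ≠ r2 := (fun e => hrb ((Xr3).symm.trans (p.eq_comm'.1 e)))
                  exact case ![l, l2, r, r2, b, p l2, p b] (inj7 hll2 hlr hlr2 hlb (Ne.symm Xn1_0) (Ne.symm Xn4_0) hl2r hl2r2 hl2b (Ne.symm Xq1) (Ne.symm Xn4_1) hrr2 hrb (Ne.symm Xq1_2) (Ne.symm Xn4_2) hr2b (Ne.symm Xq1_3) (Ne.symm Xn4_3) (Ne.symm Xq1_4) (Ne.symm Xq4) (fun e => hl2b (p.inj e))) P7_13 (by
                    intro x; fin_cases x <;> simp [P7_13, Xq0, Xq2_3, Xr3]) 0 1 2 3 4 (fun F => t35 h F) F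
              · by_cases Xq2_4 : p r = b
                · have Xr4 : p b = r := p.eq_comm'.1 Xq2_4
                  by_cases Xq3 : p r2 = r2
                  · have Xn1_0 : p l2 ≠ l := (fun e => hll2 ((Xq0).symm.trans (p.eq_comm'.1 e)))
                    exact case ![l, l2, r, r2, b, p l2] (inj6 hll2 hlr hlr2 hlb (Ne.symm Xn1_0) hl2r hl2r2 hl2b (Ne.symm Xq1) hrr2 hrb (Ne.symm Xq1_2) hr2b (Ne.symm Xq1_3) (Ne.symm Xq1_4)) P6_21 (by
                      intro x; fin_cases x <;> simp [P6_21, Xq0, Xq2_4, Xq3, Xr4]) 0 1 2 3 4 (fun F => t36 h F) F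
                  · have Xn1_0 : p l2 ≠ l := (fun e => hll2 ((Xq0).symm.trans (p.eq_comm'.1 e)))
                    have Xn3_0 : p r2 ≠ l := (fun e => hlr2 ((Xq0).symm.trans (p.eq_comm'.1 e)))
                    have Xn3_1 : p r2 ≠ l2 := (fun e => Xq1_3 (p.eq_comm'.1 e))
                    have Xn3_2 : p r2 ≠ r := (fun e => (Ne.symm hr2b) ((Xq2_4).symm.trans (p.eq_comm'.1 e)))
                    have Xn3_4 : p r2 ≠ b := (fun e => hrr2 ((Xr4).symm.trans (p.eq_comm'.1 e)))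
                    exact case ![l, l2, r, r2, b, p l2, p r2] (inj7 hll2 hlr hlr2 hlb (Ne.symm Xn1_0) (Ne.symm Xn3_0) hl2r hl2r2 hl2b (Ne.symm Xq1) (Ne.symm Xn3_1) hrr2 hrb (Ne.symm Xq1_2) (Ne.symm Xn3_2) hr2b (Ne.symm Xq1_3) (Ne.symm Xq3) (Ne.symm Xq1_4) (Ne.symm Xn3_4) (fun e => hl2r2 (p.inj e))) P7_12 (by
                      intro x; fin_cases x <;> simp [P7_12, Xq0, Xq2_4, Xr4]) 0 1 2 3 4 (fun F => t37 h F) F
                · by_cases Xq3 : p r2 = r2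
                  · by_cases Xq4 : p b = b
                    · have Xn1_0 : p l2 ≠ l := (fun e => hll2 ((Xq0).symm.trans (p.eq_comm'.1 e)))
                      have Xn2_0 : p r ≠ l := (fun e => hlr ((Xq0).symm.trans (p.eq_comm'.1 e)))
                      have Xn2_1 : p r ≠ l2 := (fun e => Xq1_2 (p.eq_comm'.1 e))
                      exact case ![l, l2, r, r2, b, p l2, p r] (inj7 hll2 hlr hlr2 hlb (Ne.symm Xn1_0) (Ne.symm Xn2_0) hl2r hl2r2 hl2b (Ne.symm Xq1) (Ne.symm Xn2_1) hrr2 hrb (Ne.symm Xq1_2) (Ne.symm Xq2) hr2b (Ne.symm Xq1_3) (Ne.symm Xq2_3) (Ne.symm Xq1_4) (Ne.symm Xq2_4) (fun e => hl2r (p.inj e))) P7_14 (by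
                        intro x; fin_cases x <;> simp [P7_14, Xq0, Xq3, Xq4]) 0 1 2 3 4 (fun F => t38 h F) F
                    · have Xn1_0 : p l2 ≠ l := (fun e => hll2 ((Xq0).symm.trans (p.eq_comm'.1 e)))
                      have Xn2_0 : p r ≠ l := (fun e => hlr ((Xq0).symm.trans (p.eq_comm'.1 e)))
                      have Xn2_1 : p r ≠ l2 := (fun e => Xq1_2 (p.eq_comm'.1 e))
                      have Xn4_0 : p b ≠ l := (fun e => hlb ((Xq0).symm.trans (p.eq_comm'.1 e)))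
                      have Xn4_1 : p b ≠ l2 := (fun e => Xq1_4 (p.eq_comm'.1 e))
                      have Xn4_2 : p b ≠ r := (fun e => Xq2_4 (p.eq_comm'.1 e))
                      have Xn4_3 : p b ≠ r2 := (fun e => hr2b ((Xq3).symm.trans (p.eq_comm'.1 e)))
                      exact case ![l, l2, r, r2, b, p l2, p r, p b] (inj8 hll2 hlr hlr2 hlb (Ne.symm Xn1_0) (Ne.symm Xn2_0) (Ne.symm Xn4_0) hl2r hl2r2 hl2b (Ne.symm Xq1) (Ne.symm Xn2_1) (Ne.symm Xn4_1) hrr2 hrb (Ne.symm Xq1_2) (Ne.symm Xq2) (Ne.symm Xn4_2) hr2b (Ne.symm Xq1_3) (Ne.symm Xq2_3) (Ne.symm Xn4_3) (Ne.symm Xq1_4) (Ne.symm Xq2_4) (Ne.symm Xq4) (fun e => hl2r (p.inj e)) (fun e => hl2b (p.inj e)) (fun e => hrb (p.inj e))) P8_3 (by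
                        intro x; fin_cases x <;> simp [P8_3, Xq0, Xq3]) 0 1 2 3 4 (fun F => t39 h F) F
                  · by_cases Xq3_4 : p r2 = b
                    · have Xr4 : p b = r2 := p.eq_comm'.1 Xq3_4
                      have Xn1_0 : p l2 ≠ l := (fun e => hll2 ((Xq0).symm.trans (p.eq_comm'.1 e)))
                      have Xn2_0 : p r ≠ l := (fun e => hlr ((Xq0).symm.trans (p.eq_comm'.1 e)))
                      have Xn2_1 : p r ≠ l2 := (fun e => Xq1_2 (p.eq_comm'.1 e))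
                      exact case ![l, l2, r, r2, b, p l2, p r] (inj7 hll2 hlr hlr2 hlb (Ne.symm Xn1_0) (Ne.symm Xn2_0) hl2r hl2r2 hl2b (Ne.symm Xq1) (Ne.symm Xn2_1) hrr2 hrb (Ne.symm Xq1_2) (Ne.symm Xq2) hr2b (Ne.symm Xq1_3) (Ne.symm Xq2_3) (Ne.symm Xq1_4) (Ne.symm Xq2_4) (fun e => hl2r (p.inj e))) P7_15 (by
                        intro x; fin_cases x <;> simp [P7_15, Xq0, Xq3_4, Xr4]) 0 1 2 3 4 (fun F => t40 h F) F
                    · by_cases Xq4 : p b = b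
                      · have Xn1_0 : p l2 ≠ l := (fun e => hll2 ((Xq0).symm.trans (p.eq_comm'.1 e)))
                        have Xn2_0 : p r ≠ l := (fun e => hlr ((Xq0).symm.trans (p.eq_comm'.1 e)))
                        have Xn2_1 : p r ≠ l2 := (fun e => Xq1_2 (p.eq_comm'.1 e))
                        have Xn3_0 : p r2 ≠ l := (fun e => hlr2 ((Xq0).symm.trans (p.eq_comm'.1 e)))
                        have Xn3_1 : p r2 ≠ l2 := (fun e => Xq1_3 (p.eq_comm'.1 e))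
                        have Xn3_2 : p r2 ≠ r := (fun e => Xq2_3 (p.eq_comm'.1 e))
                        exact case ![l, l2, r, r2, b, p l2, p r, p r2] (inj8 hll2 hlr hlr2 hlb (Ne.symm Xn1_0) (Ne.symm Xn2_0) (Ne.symm Xn3_0) hl2r hl2r2 hl2b (Ne.symm Xq1) (Ne.symm Xn2_1) (Ne.symm Xn3_1) hrr2 hrb (Ne.symm Xq1_2) (Ne.symm Xq2) (Ne.symm Xn3_2) hr2b (Ne.symm Xq1_3) (Ne.symm Xq2_3) (Ne.symm Xq3) (Ne.symm Xq1_4) (Ne.symm Xq2_4) (Ne.symm Xq3_4) (fun e => hl2r (p.inj e)) (fun e => hl2r2 (p.inj e)) (fun e => hrr2 (p.inj e))) P8_4 (by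
                          intro x; fin_cases x <;> simp [P8_4, Xq0, Xq4]) 0 1 2 3 4 (fun F => t41 h F) F
                      · have Xn1_0 : p l2 ≠ l := (fun e => hll2 ((Xq0).symm.trans (p.eq_comm'.1 e)))
                        have Xn2_0 : p r ≠ l := (fun e => hlr ((Xq0).symm.trans (p.eq_comm'.1 e)))
                        have Xn2_1 : p r ≠ l2 := (fun e => Xq1_2 (p.eq_comm'.1 e))
                        have Xn3_0 : p r2 ≠ l := (fun e => hlr2 ((Xq0).symm.trans (p.eq_comm'.1 e)))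
                        have Xn3_1 : p r2 ≠ l2 := (fun e => Xq1_3 (p.eq_comm'.1 e))
                        have Xn3_2 : p r2 ≠ r := (fun e => Xq2_3 (p.eq_comm'.1 e))
                        have Xn4_0 : p b ≠ l := (fun e => hlb ((Xq0).symm.trans (p.eq_comm'.1 e)))
                        have Xn4_1 : p b ≠ l2 := (fun e => Xq1_4 (p.eq_comm'.1 e))
                        have Xn4_2 : p b ≠ r := (fun e => Xq2_4 (p.eq_comm'.1 e))
                        have Xn4_3 : p b ≠ r2 := (fun e => Xq3_4 (p.eq_comm'.1 e))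
                        exact case ![l, l2, r, r2, b, p l2, p r, p r2, p b] (inj9 hll2 hlr hlr2 hlb (Ne.symm Xn1_0) (Ne.symm Xn2_0) (Ne.symm Xn3_0) (Ne.symm Xn4_0) hl2r hl2r2 hl2b (Ne.symm Xq1) (Ne.symm Xn2_1) (Ne.symm Xn3_1) (Ne.symm Xn4_1) hrr2 hrb (Ne.symm Xq1_2) (Ne.symm Xq2) (Ne.symm Xn3_2) (Ne.symm Xn4_2) hr2b (Ne.symm Xq1_3) (Ne.symm Xq2_3) (Ne.symm Xq3) (Ne.symm Xn4_3) (Ne.symm Xq1_4) (Ne.symm Xq2_4) (Ne.symm Xq3_4) (Ne.symm Xq4) (fun e => hl2r (p.inj e)) (fun e => hl2r2 (p.inj e)) (fun e => hl2b (p.inj e)) (fun e => hrr2 (p.inj e)) (fun e => hrb (p.inj e)) (fun e => hr2b (p.inj e))) P9_0 (by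
                          intro x; fin_cases x <;> simp [P9_0, Xq0]) 0 1 2 3 4 (fun F => t42 h F) F
  · by_cases Xq0_1 : p l = l2
    · have Xr1 : p l2 = l := p.eq_comm'.1 Xq0_1
      by_cases Xq2 : p r = r
      · by_cases Xq3 : p r2 = r2
        · by_cases Xq4 : p b = b
          · exact case ![l, l2, r, r2, b] (inj5 hll2 hlr hlr2 hlb hl2r hl2r2 hl2b hrr2 hrb hr2b) P5_12 (by
              intro x; fin_cases x <;> simp [P5_12, Xq0_1, Xr1, Xq2, Xq3, Xq4]) 0 1 2 3 4 (fun F => t43 h F) F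
          · have Xn4_0 : p b ≠ l := (fun e => hl2b ((Xq0_1).symm.trans (p.eq_comm'.1 e)))
            have Xn4_1 : p b ≠ l2 := (fun e => hlb ((Xr1).symm.trans (p.eq_comm'.1 e)))
            have Xn4_2 : p b ≠ r := (fun e => hrb ((Xq2).symm.trans (p.eq_comm'.1 e)))
            have Xn4_3 : p b ≠ r2 := (fun e => hr2b ((Xq3).symm.trans (p.eq_comm'.1 e)))
            exact case ![l, l2, r, r2, b, p b] (inj6 hll2 hlr hlr2 hlb (Ne.symm Xn4_0) hl2r hl2r2 hl2b (Ne.symm Xn4_1) hrr2 hrb (Ne.symm Xn4_2) hr2b (Ne.symm Xn4_3) (Ne.symm Xq4)) P6_4 (by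
              intro x; fin_cases x <;> simp [P6_4, Xq0_1, Xr1, Xq2, Xq3]) 0 1 2 3 4 (fun F => t44 h F) F
        · by_cases Xq3_4 : p r2 = b
          · have Xr4 : p b = r2 := p.eq_comm'.1 Xq3_4
            exact case ![l, l2, r, r2, b] (inj5 hll2 hlr hlr2 hlb hl2r hl2r2 hl2b hrr2 hrb hr2b) P5_17 (by
              intro x; fin_cases x <;> simp [P5_17, Xq0_1, Xr1, Xq2, Xq3_4, Xr4]) 0 1 2 3 4 (fun F => t45 h F) F
          · by_cases Xq4 : p b = b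
            · have Xn3_0 : p r2 ≠ l := (fun e => hl2r2 ((Xq0_1).symm.trans (p.eq_comm'.1 e)))
              have Xn3_1 : p r2 ≠ l2 := (fun e => hlr2 ((Xr1).symm.trans (p.eq_comm'.1 e)))
              have Xn3_2 : p r2 ≠ r := (fun e => hrr2 ((Xq2).symm.trans (p.eq_comm'.1 e)))
              exact case ![l, l2, r, r2, b, p r2] (inj6 hll2 hlr hlr2 hlb (Ne.symm Xn3_0) hl2r hl2r2 hl2b (Ne.symm Xn3_1) hrr2 hrb (Ne.symm Xn3_2) hr2b (Ne.symm Xq3) (Ne.symm Xq3_4)) P6_25 (by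
                intro x; fin_cases x <;> simp [P6_25, Xq0_1, Xr1, Xq2, Xq4]) 0 1 2 3 4 (fun F => t46 h F) F
            · have Xn3_0 : p r2 ≠ l := (fun e => hl2r2 ((Xq0_1).symm.trans (p.eq_comm'.1 e)))
              have Xn3_1 : p r2 ≠ l2 := (fun e => hlr2 ((Xr1).symm.trans (p.eq_comm'.1 e)))
              have Xn3_2 : p r2 ≠ r := (fun e => hrr2 ((Xq2).symm.trans (p.eq_comm'.1 e)))
              have Xn4_0 : p b ≠ l := (fun e => hl2b ((Xq0_1).symm.trans (p.eq_comm'.1 e)))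
              have Xn4_1 : p b ≠ l2 := (fun e => hlb ((Xr1).symm.trans (p.eq_comm'.1 e)))
              have Xn4_2 : p b ≠ r := (fun e => hrb ((Xq2).symm.trans (p.eq_comm'.1 e)))
              have Xn4_3 : p b ≠ r2 := (fun e => Xq3_4 (p.eq_comm'.1 e))
              exact case ![l, l2, r, r2, b, p r2, p b] (inj7 hll2 hlr hlr2 hlb (Ne.symm Xn3_0) (Ne.symm Xn4_0) hl2r hl2r2 hl2b (Ne.symm Xn3_1) (Ne.symm Xn4_1) hrr2 hrb (Ne.symm Xn3_2) (Ne.symm Xn4_2) hr2b (Ne.symm Xq3) (Ne.symm Xn4_3) (Ne.symm Xq3_4) (Ne.symm Xq4) (fun e => hr2b (p.inj e))) P7_16 (by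
                intro x; fin_cases x <;> simp [P7_16, Xq0_1, Xr1, Xq2]) 0 1 2 3 4 (fun F => t47 h F) F
      · by_cases Xq2_3 : p r = r2
        · have Xr3 : p r2 = r := p.eq_comm'.1 Xq2_3
          by_cases Xq4 : p b = b
          · exact case ![l, l2, r, r2, b] (inj5 hll2 hlr hlr2 hlb hl2r hl2r2 hl2b hrr2 hrb hr2b) P5_18 (by
              intro x; fin_cases x <;> simp [P5_18, Xq0_1, Xr1, Xq2_3, Xr3, Xq4]) 0 1 2 3 4 (fun F => t48 h F) F
          · have Xn4_0 : p b ≠ l := (fun e => hl2b ((Xq0_1).symm.trans (p.eq_comm'.1 e)))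
            have Xn4_1 : p b ≠ l2 := (fun e => hlb ((Xr1).symm.trans (p.eq_comm'.1 e)))
            have Xn4_2 : p b ≠ r := (fun e => hr2b ((Xq2_3).symm.trans (p.eq_comm'.1 e)))
            have Xn4_3 : p b ≠ r2 := (fun e => hrb ((Xr3).symm.trans (p.eq_comm'.1 e)))
            exact case ![l, l2, r, r2, b, p b] (inj6 hll2 hlr hlr2 hlb (Ne.symm Xn4_0) hl2r hl2r2 hl2b (Ne.symm Xn4_1) hrr2 hrb (Ne.symm Xn4_2) hr2b (Ne.symm Xn4_3) (Ne.symm Xq4)) P6_26 (by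
              intro x; fin_cases x <;> simp [P6_26, Xq0_1, Xr1, Xq2_3, Xr3]) 0 1 2 3 4 (fun F => t49 h F) F
        · by_cases Xq2_4 : p r = b
          · have Xr4 : p b = r := p.eq_comm'.1 Xq2_4
            by_cases Xq3 : p r2 = r2
            · exact case ![l, l2, r, r2, b] (inj5 hll2 hlr hlr2 hlb hl2r hl2r2 hl2b hrr2 hrb hr2b) P5_19 (by
                intro x; fin_cases x <;> simp [P5_19, Xq0_1, Xr1, Xq2_4, Xq3, Xr4]) 0 1 2 3 4 (fun F => t50 h F) F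
            · have Xn3_0 : p r2 ≠ l := (fun e => hl2r2 ((Xq0_1).symm.trans (p.eq_comm'.1 e)))
              have Xn3_1 : p r2 ≠ l2 := (fun e => hlr2 ((Xr1).symm.trans (p.eq_comm'.1 e)))
              have Xn3_2 : p r2 ≠ r := (fun e => (Ne.symm hr2b) ((Xq2_4).symm.trans (p.eq_comm'.1 e)))
              have Xn3_4 : p r2 ≠ b := (fun e => hrr2 ((Xr4).symm.trans (p.eq_comm'.1 e)))
              exact case ![l, l2, r, r2, b, p r2] (inj6 hll2 hlr hlr2 hlb (Ne.symm Xn3_0) hl2r hl2r2 hl2b (Ne.symm Xn3_1) hrr2 hrb (Ne.symm Xn3_2) hr2b (Ne.symm Xq3) (Ne.symm Xn3_4)) P6_27 (by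
                intro x; fin_cases x <;> simp [P6_27, Xq0_1, Xr1, Xq2_4, Xr4]) 0 1 2 3 4 (fun F => t51 h F) F
          · by_cases Xq3 : p r2 = r2
            · by_cases Xq4 : p b = b
              · have Xn2_0 : p r ≠ l := (fun e => hl2r ((Xq0_1).symm.trans (p.eq_comm'.1 e)))
                have Xn2_1 : p r ≠ l2 := (fun e => hlr ((Xr1).symm.trans (p.eq_comm'.1 e)))
                exact case ![l, l2, r, r2, b, p r] (inj6 hll2 hlr hlr2 hlb (Ne.symm Xn2_0) hl2r hl2r2 hl2b (Ne.symm Xn2_1) hrr2 hrb (Ne.symm Xq2) hr2b (Ne.symm Xq2_3) (Ne.symm Xq2_4)) P6_28 (by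
                  intro x; fin_cases x <;> simp [P6_28, Xq0_1, Xr1, Xq3, Xq4]) 0 1 2 3 4 (fun F => t52 h F) F
              · have Xn2_0 : p r ≠ l := (fun e => hl2r ((Xq0_1).symm.trans (p.eq_comm'.1 e)))
                have Xn2_1 : p r ≠ l2 := (fun e => hlr ((Xr1).symm.trans (p.eq_comm'.1 e)))
                have Xn4_0 : p b ≠ l := (fun e => hl2b ((Xq0_1).symm.trans (p.eq_comm'.1 e)))
                have Xn4_1 : p b ≠ l2 := (fun e => hlb ((Xr1).symm.trans (p.eq_comm'.1 e)))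
                have Xn4_2 : p b ≠ r := (fun e => Xq2_4 (p.eq_comm'.1 e))
                have Xn4_3 : p b ≠ r2 := (fun e => hr2b ((Xq3).symm.trans (p.eq_comm'.1 e)))
                exact case ![l, l2, r, r2, b, p r, p b] (inj7 hll2 hlr hlr2 hlb (Ne.symm Xn2_0) (Ne.symm Xn4_0) hl2r hl2r2 hl2b (Ne.symm Xn2_1) (Ne.symm Xn4_1) hrr2 hrb (Ne.symm Xq2) (Ne.symm Xn4_2) hr2b (Ne.symm Xq2_3) (Ne.symm Xn4_3) (Ne.symm Xq2_4) (Ne.symm Xq4) (fun e => hrb (p.inj e))) P7_17 (by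
                  intro x; fin_cases x <;> simp [P7_17, Xq0_1, Xr1, Xq3]) 0 1 2 3 4 (fun F => t53 h F) F
            · by_cases Xq3_4 : p r2 = b
              · have Xr4 : p b = r2 := p.eq_comm'.1 Xq3_4
                have Xn2_0 : p r ≠ l := (fun e => hl2r ((Xq0_1).symm.trans (p.eq_comm'.1 e)))
                have Xn2_1 : p r ≠ l2 := (fun e => hlr ((Xr1).symm.trans (p.eq_comm'.1 e)))
                exact case ![l, l2, r, r2, b, p r] (inj6 hll2 hlr hlr2 hlb (Ne.symm Xn2_0) hl2r hl2r2 hl2b (Ne.symm Xn2_1) hrr2 hrb (Ne.symm Xq2) hr2b (Ne.symm Xq2_3) (Ne.symm Xq2_4)) P6_29 (by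
                  intro x; fin_cases x <;> simp [P6_29, Xq0_1, Xr1, Xq3_4, Xr4]) 0 1 2 3 4 (fun F => t54 h F) F
              · by_cases Xq4 : p b = b
                · have Xn2_0 : p r ≠ l := (fun e => hl2r ((Xq0_1).symm.trans (p.eq_comm'.1 e)))
                  have Xn2_1 : p r ≠ l2 := (fun e => hlr ((Xr1).symm.trans (p.eq_comm'.1 e)))
                  have Xn3_0 : p r2 ≠ l := (fun e => hl2r2 ((Xq0_1).symm.trans (p.eq_comm'.1 e)))
                  have Xn3_1 : p r2 ≠ l2 := (fun e => hlr2 ((Xr1).symm.trans (p.eq_comm'.1 e)))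
                  have Xn3_2 : p r2 ≠ r := (fun e => Xq2_3 (p.eq_comm'.1 e))
                  exact case ![l, l2, r, r2, b, p r, p r2] (inj7 hll2 hlr hlr2 hlb (Ne.symm Xn2_0) (Ne.symm Xn3_0) hl2r hl2r2 hl2b (Ne.symm Xn2_1) (Ne.symm Xn3_1) hrr2 hrb (Ne.symm Xq2) (Ne.symm Xn3_2) hr2b (Ne.symm Xq2_3) (Ne.symm Xq3) (Ne.symm Xq2_4) (Ne.symm Xq3_4) (fun e => hrr2 (p.inj e))) P7_18 (by
                    intro x; fin_cases x <;> simp [P7_18, Xq0_1, Xr1, Xq4]) 0 1 2 3 4 (fun F => t55 h F) F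
                · have Xn2_0 : p r ≠ l := (fun e => hl2r ((Xq0_1).symm.trans (p.eq_comm'.1 e)))
                  have Xn2_1 : p r ≠ l2 := (fun e => hlr ((Xr1).symm.trans (p.eq_comm'.1 e)))
                  have Xn3_0 : p r2 ≠ l := (fun e => hl2r2 ((Xq0_1).symm.trans (p.eq_comm'.1 e)))
                  have Xn3_1 : p r2 ≠ l2 := (fun e => hlr2 ((Xr1).symm.trans (p.eq_comm'.1 e)))
                  have Xn3_2 : p r2 ≠ r := (fun e => Xq2_3 (p.eq_comm'.1 e))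
                  have Xn4_0 : p b ≠ l := (fun e => hl2b ((Xq0_1).symm.trans (p.eq_comm'.1 e)))
                  have Xn4_1 : p b ≠ l2 := (fun e => hlb ((Xr1).symm.trans (p.eq_comm'.1 e)))
                  have Xn4_2 : p b ≠ r := (fun e => Xq2_4 (p.eq_comm'.1 e))
                  have Xn4_3 : p b ≠ r2 := (fun e => Xq3_4 (p.eq_comm'.1 e))
                  exact case ![l, l2, r, r2, b, p r, p r2, p b] (inj8 hll2 hlr hlr2 hlb (Ne.symm Xn2_0) (Ne.symm Xn3_0) (Ne.symm Xn4_0) hl2r hl2r2 hl2b (Ne.symm Xn2_1) (Ne.symm Xn3_1) (Ne.symm Xn4_1) hrr2 hrb (Ne.symm Xq2) (Ne.symm Xn3_2) (Ne.symm Xn4_2) hr2b (Ne.symm Xq2_3) (Ne.symm Xq3) (Ne.symm Xn4_3) (Ne.symm Xq2_4) (Ne.symm Xq3_4) (Ne.symm Xq4) (fun e => hrr2 (p.inj e)) (fun e => hrb (p.inj e)) (fun e => hr2b (p.inj e))) P8_5 (by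
                    intro x; fin_cases x <;> simp [P8_5, Xq0_1, Xr1]) 0 1 2 3 4 (fun F => t56 h F) F
    · by_cases Xq0_2 : p l = r
      · have Xr2 : p r = l := p.eq_comm'.1 Xq0_2
        by_cases Xq1 : p l2 = l2
        · by_cases Xq3 : p r2 = r2
          · by_cases Xq4 : p b = b
            · exact case ![l, l2, r, r2, b] (inj5 hll2 hlr hlr2 hlb hl2r hl2r2 hl2b hrr2 hrb hr2b) P5_1 (by
                intro x; fin_cases x <;> simp [P5_1, Xq0_2, Xq1, Xr2, Xq3, Xq4]) 0 1 2 3 4 (fun F => t57 h F) F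
            · have Xn4_0 : p b ≠ l := (fun e => hrb ((Xq0_2).symm.trans (p.eq_comm'.1 e)))
              have Xn4_1 : p b ≠ l2 := (fun e => hl2b ((Xq1).symm.trans (p.eq_comm'.1 e)))
              have Xn4_2 : p b ≠ r := (fun e => hlb ((Xr2).symm.trans (p.eq_comm'.1 e)))
              have Xn4_3 : p b ≠ r2 := (fun e => hr2b ((Xq3).symm.trans (p.eq_comm'.1 e)))
              exact case ![l, l2, r, r2, b, p b] (inj6 hll2 hlr hlr2 hlb (Ne.symm Xn4_0) hl2r hl2r2 hl2b (Ne.symm Xn4_1) hrr2 hrb (Ne.symm Xn4_2) hr2b (Ne.symm Xn4_3) (Ne.symm Xq4)) P6_1 (by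
                intro x; fin_cases x <;> simp [P6_1, Xq0_2, Xq1, Xr2, Xq3]) 0 1 2 3 4 (fun F => t58 h F) F
          · by_cases Xq3_4 : p r2 = b
            · have Xr4 : p b = r2 := p.eq_comm'.1 Xq3_4
              exact case ![l, l2, r, r2, b] (inj5 hll2 hlr hlr2 hlb hl2r hl2r2 hl2b hrr2 hrb hr2b) P5_10 (by
                intro x; fin_cases x <;> simp [P5_10, Xq0_2, Xq1, Xr2, Xq3_4, Xr4]) 0 1 2 3 4 (fun F => t59 h F) F
            · by_cases Xq4 : p b = b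
              · have Xn3_0 : p r2 ≠ l := (fun e => hrr2 ((Xq0_2).symm.trans (p.eq_comm'.1 e)))
                have Xn3_1 : p r2 ≠ l2 := (fun e => hl2r2 ((Xq1).symm.trans (p.eq_comm'.1 e)))
                have Xn3_2 : p r2 ≠ r := (fun e => hlr2 ((Xr2).symm.trans (p.eq_comm'.1 e)))
                exact case ![l, l2, r, r2, b, p r2] (inj6 hll2 hlr hlr2 hlb (Ne.symm Xn3_0) hl2r hl2r2 hl2b (Ne.symm Xn3_1) hrr2 hrb (Ne.symm Xn3_2) hr2b (Ne.symm Xq3) (Ne.symm Xq3_4)) P6_6 (by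
                  intro x; fin_cases x <;> simp [P6_6, Xq0_2, Xq1, Xr2, Xq4]) 0 1 2 3 4 (fun F => t60 h F) F
              · have Xn3_0 : p r2 ≠ l := (fun e => hrr2 ((Xq0_2).symm.trans (p.eq_comm'.1 e)))
                have Xn3_1 : p r2 ≠ l2 := (fun e => hl2r2 ((Xq1).symm.trans (p.eq_comm'.1 e)))
                have Xn3_2 : p r2 ≠ r := (fun e => hlr2 ((Xr2).symm.trans (p.eq_comm'.1 e)))
                have Xn4_0 : p b ≠ l := (fun e => hrb ((Xq0_2).symm.trans (p.eq_comm'.1 e)))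
                have Xn4_1 : p b ≠ l2 := (fun e => hl2b ((Xq1).symm.trans (p.eq_comm'.1 e)))
                have Xn4_2 : p b ≠ r := (fun e => hlb ((Xr2).symm.trans (p.eq_comm'.1 e)))
                have Xn4_3 : p b ≠ r2 := (fun e => Xq3_4 (p.eq_comm'.1 e))
                exact case ![l, l2, r, r2, b, p r2, p b] (inj7 hll2 hlr hlr2 hlb (Ne.symm Xn3_0) (Ne.symm Xn4_0) hl2r hl2r2 hl2b (Ne.symm Xn3_1) (Ne.symm Xn4_1) hrr2 hrb (Ne.symm Xn3_2) (Ne.symm Xn4_2) hr2b (Ne.symm Xq3) (Ne.symm Xn4_3) (Ne.symm Xq3_4) (Ne.symm Xq4) (fun e => hr2b (p.inj e))) P7_1 (by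
                  intro x; fin_cases x <;> simp [P7_1, Xq0_2, Xq1, Xr2]) 0 1 2 3 4 (fun F => t61 h F) F
        · by_cases Xq1_3 : p l2 = r2
          · have Xr3 : p r2 = l2 := p.eq_comm'.1 Xq1_3
            by_cases Xq4 : p b = b
            · exact case ![l, l2, r, r2, b] (inj5 hll2 hlr hlr2 hlb hl2r hl2r2 hl2b hrr2 hrb hr2b) P5_8 (by
                intro x; fin_cases x <;> simp [P5_8, Xq0_2, Xq1_3, Xr2, Xr3, Xq4]) 0 1 2 3 4 (fun F => t62 h F) F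
            · have Xn4_0 : p b ≠ l := (fun e => hrb ((Xq0_2).symm.trans (p.eq_comm'.1 e)))
              have Xn4_1 : p b ≠ l2 := (fun e => hr2b ((Xq1_3).symm.trans (p.eq_comm'.1 e)))
              have Xn4_2 : p b ≠ r := (fun e => hlb ((Xr2).symm.trans (p.eq_comm'.1 e)))
              have Xn4_3 : p b ≠ r2 := (fun e => hl2b ((Xr3).symm.trans (p.eq_comm'.1 e)))
              exact case ![l, l2, r, r2, b, p b] (inj6 hll2 hlr hlr2 hlb (Ne.symm Xn4_0) hl2r hl2r2 hl2b (Ne.symm Xn4_1) hrr2 hrb (Ne.symm Xn4_2) hr2b (Ne.symm Xn4_3) (Ne.symm Xq4)) P6_3 (by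
                intro x; fin_cases x <;> simp [P6_3, Xq0_2, Xq1_3, Xr2, Xr3]) 0 1 2 3 4 (fun F => t63 h F) F
          · by_cases Xq1_4 : p l2 = b
            · have Xr4 : p b = l2 := p.eq_comm'.1 Xq1_4
              by_cases Xq3 : p r2 = r2
              · exact case ![l, l2, r, r2, b] (inj5 hll2 hlr hlr2 hlb hl2r hl2r2 hl2b hrr2 hrb hr2b) P5_9 (by
                  intro x; fin_cases x <;> simp [P5_9, Xq0_2, Xq1_4, Xr2, Xq3, Xr4]) 0 1 2 3 4 (fun F => t64 h F) F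
              · have Xn3_0 : p r2 ≠ l := (fun e => hrr2 ((Xq0_2).symm.trans (p.eq_comm'.1 e)))
                have Xn3_1 : p r2 ≠ l2 := (fun e => (Ne.symm hr2b) ((Xq1_4).symm.trans (p.eq_comm'.1 e)))
                have Xn3_2 : p r2 ≠ r := (fun e => hlr2 ((Xr2).symm.trans (p.eq_comm'.1 e)))
                have Xn3_4 : p r2 ≠ b := (fun e => hl2r2 ((Xr4).symm.trans (p.eq_comm'.1 e)))
                exact case ![l, l2, r, r2, b, p r2] (inj6 hll2 hlr hlr2 hlb (Ne.symm Xn3_0) hl2r hl2r2 hl2b (Ne.symm Xn3_1) hrr2 hrb (Ne.symm Xn3_2) hr2b (Ne.symm Xq3) (Ne.symm Xn3_4)) P6_16 (by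
                  intro x; fin_cases x <;> simp [P6_16, Xq0_2, Xq1_4, Xr2, Xr4]) 0 1 2 3 4 (fun F => t65 h F) F
            · by_cases Xq3 : p r2 = r2
              · by_cases Xq4 : p b = b
                · have Xn1_0 : p l2 ≠ l := (fun e => (Ne.symm hl2r) ((Xq0_2).symm.trans (p.eq_comm'.1 e)))
                  have Xn1_2 : p l2 ≠ r := (fun e => hll2 ((Xr2).symm.trans (p.eq_comm'.1 e)))
                  exact case ![l, l2, r, r2, b, p l2] (inj6 hll2 hlr hlr2 hlb (Ne.symm Xn1_0) hl2r hl2r2 hl2b (Ne.symm Xq1) hrr2 hrb (Ne.symm Xn1_2) hr2b (Ne.symm Xq1_3) (Ne.symm Xq1_4)) P6_19 (by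
                    intro x; fin_cases x <;> simp [P6_19, Xq0_2, Xr2, Xq3, Xq4]) 0 1 2 3 4 (fun F => t66 h F) F
                · have Xn1_0 : p l2 ≠ l := (fun e => (Ne.symm hl2r) ((Xq0_2).symm.trans (p.eq_comm'.1 e)))
                  have Xn1_2 : p l2 ≠ r := (fun e => hll2 ((Xr2).symm.trans (p.eq_comm'.1 e)))
                  have Xn4_0 : p b ≠ l := (fun e => hrb ((Xq0_2).symm.trans (p.eq_comm'.1 e)))
                  have Xn4_1 : p b ≠ l2 := (fun e => Xq1_4 (p.eq_comm'.1 e))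
                  have Xn4_2 : p b ≠ r := (fun e => hlb ((Xr2).symm.trans (p.eq_comm'.1 e)))
                  have Xn4_3 : p b ≠ r2 := (fun e => hr2b ((Xq3).symm.trans (p.eq_comm'.1 e)))
                  exact case ![l, l2, r, r2, b, p l2, p b] (inj7 hll2 hlr hlr2 hlb (Ne.symm Xn1_0) (Ne.symm Xn4_0) hl2r hl2r2 hl2b (Ne.symm Xq1) (Ne.symm Xn4_1) hrr2 hrb (Ne.symm Xn1_2) (Ne.symm Xn4_2) hr2b (Ne.symm Xq1_3) (Ne.symm Xn4_3) (Ne.symm Xq1_4) (Ne.symm Xq4) (fun e => hl2b (p.inj e))) P7_8 (by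
                    intro x; fin_cases x <;> simp [P7_8, Xq0_2, Xr2, Xq3]) 0 1 2 3 4 (fun F => t67 h F) F
              · by_cases Xq3_4 : p r2 = b
                · have Xr4 : p b = r2 := p.eq_comm'.1 Xq3_4
                  have Xn1_0 : p l2 ≠ l := (fun e => (Ne.symm hl2r) ((Xq0_2).symm.trans (p.eq_comm'.1 e)))
                  have Xn1_2 : p l2 ≠ r := (fun e => hll2 ((Xr2).symm.trans (p.eq_comm'.1 e)))
                  exact case ![l, l2, r, r2, b, p l2] (inj6 hll2 hlr hlr2 hlb (Ne.symm Xn1_0) hl2r hl2r2 hl2b (Ne.symm Xq1) hrr2 hrb (Ne.symm Xn1_2) hr2b (Ne.symm Xq1_3) (Ne.symm Xq1_4)) P6_23 (by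
                    intro x; fin_cases x <;> simp [P6_23, Xq0_2, Xr2, Xq3_4, Xr4]) 0 1 2 3 4 (fun F => t68 h F) F
                · by_cases Xq4 : p b = b
                  · have Xn1_0 : p l2 ≠ l := (fun e => (Ne.symm hl2r) ((Xq0_2).symm.trans (p.eq_comm'.1 e)))
                    have Xn1_2 : p l2 ≠ r := (fun e => hll2 ((Xr2).symm.trans (p.eq_comm'.1 e)))
                    have Xn3_0 : p r2 ≠ l := (fun e => hrr2 ((Xq0_2).symm.trans (p.eq_comm'.1 e)))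
                    have Xn3_1 : p r2 ≠ l2 := (fun e => Xq1_3 (p.eq_comm'.1 e))
                    have Xn3_2 : p r2 ≠ r := (fun e => hlr2 ((Xr2).symm.trans (p.eq_comm'.1 e)))
                    exact case ![l, l2, r, r2, b, p l2, p r2] (inj7 hll2 hlr hlr2 hlb (Ne.symm Xn1_0) (Ne.symm Xn3_0) hl2r hl2r2 hl2b (Ne.symm Xq1) (Ne.symm Xn3_1) hrr2 hrb (Ne.symm Xn1_2) (Ne.symm Xn3_2) hr2b (Ne.symm Xq1_3) (Ne.symm Xq3) (Ne.symm Xq1_4) (Ne.symm Xq3_4) (fun e => hl2r2 (p.inj e))) P7_10 (by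
                      intro x; fin_cases x <;> simp [P7_10, Xq0_2, Xr2, Xq4]) 0 1 2 3 4 (fun F => t69 h F) F
                  · have Xn1_0 : p l2 ≠ l := (fun e => (Ne.symm hl2r) ((Xq0_2).symm.trans (p.eq_comm'.1 e)))
                    have Xn1_2 : p l2 ≠ r := (fun e => hll2 ((Xr2).symm.trans (p.eq_comm'.1 e)))
                    have Xn3_0 : p r2 ≠ l := (fun e => hrr2 ((Xq0_2).symm.trans (p.eq_comm'.1 e)))
                    have Xn3_1 : p r2 ≠ l2 := (fun e => Xq1_3 (p.eq_comm'.1 e))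
                    have Xn3_2 : p r2 ≠ r := (fun e => hlr2 ((Xr2).symm.trans (p.eq_comm'.1 e)))
                    have Xn4_0 : p b ≠ l := (fun e => hrb ((Xq0_2).symm.trans (p.eq_comm'.1 e)))
                    have Xn4_1 : p b ≠ l2 := (fun e => Xq1_4 (p.eq_comm'.1 e))
                    have Xn4_2 : p b ≠ r := (fun e => hlb ((Xr2).symm.trans (p.eq_comm'.1 e)))
                    have Xn4_3 : p b ≠ r2 := (fun e => Xq3_4 (p.eq_comm'.1 e))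
                    exact case ![l, l2, r, r2, b, p l2, p r2, p b] (inj8 hll2 hlr hlr2 hlb (Ne.symm Xn1_0) (Ne.symm Xn3_0) (Ne.symm Xn4_0) hl2r hl2r2 hl2b (Ne.symm Xq1) (Ne.symm Xn3_1) (Ne.symm Xn4_1) hrr2 hrb (Ne.symm Xn1_2) (Ne.symm Xn3_2) (Ne.symm Xn4_2) hr2b (Ne.symm Xq1_3) (Ne.symm Xq3) (Ne.symm Xn4_3) (Ne.symm Xq1_4) (Ne.symm Xq3_4) (Ne.symm Xq4) (fun e => hl2r2 (p.inj e)) (fun e => hl2b (p.inj e)) (fun e => hr2b (p.inj e))) P8_2 (by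
                      intro x; fin_cases x <;> simp [P8_2, Xq0_2, Xr2]) 0 1 2 3 4 (fun F => t70 h F) F
      · by_cases Xq0_3 : p l = r2
        · have Xr3 : p r2 = l := p.eq_comm'.1 Xq0_3
          by_cases Xq1 : p l2 = l2
          · by_cases Xq2 : p r = r
            · by_cases Xq4 : p b = b
              · exact case ![l, l2, r, r2, b] (inj5 hll2 hlr hlr2 hlb hl2r hl2r2 hl2b hrr2 hrb hr2b) P5_20 (by
                  intro x; fin_cases x <;> simp [P5_20, Xq0_3, Xq1, Xq2, Xr3, Xq4]) 0 1 2 3 4 (fun F => t71 h F) F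
              · have Xn4_0 : p b ≠ l := (fun e => hr2b ((Xq0_3).symm.trans (p.eq_comm'.1 e)))
                have Xn4_1 : p b ≠ l2 := (fun e => hl2b ((Xq1).symm.trans (p.eq_comm'.1 e)))
                have Xn4_2 : p b ≠ r := (fun e => hrb ((Xq2).symm.trans (p.eq_comm'.1 e)))
                have Xn4_3 : p b ≠ r2 := (fun e => hlb ((Xr3).symm.trans (p.eq_comm'.1 e)))
                exact case ![l, l2, r, r2, b, p b] (inj6 hll2 hlr hlr2 hlb (Ne.symm Xn4_0) hl2r hl2r2 hl2b (Ne.symm Xn4_1) hrr2 hrb (Ne.symm Xn4_2) hr2b (Ne.symm Xn4_3) (Ne.symm Xq4)) P6_30 (by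
                  intro x; fin_cases x <;> simp [P6_30, Xq0_3, Xq1, Xq2, Xr3]) 0 1 2 3 4 (fun F => t72 h F) F
            · by_cases Xq2_4 : p r = b
              · have Xr4 : p b = r := p.eq_comm'.1 Xq2_4
                exact case ![l, l2, r, r2, b] (inj5 hll2 hlr hlr2 hlb hl2r hl2r2 hl2b hrr2 hrb hr2b) P5_21 (by
                  intro x; fin_cases x <;> simp [P5_21, Xq0_3, Xq1, Xq2_4, Xr3, Xr4]) 0 1 2 3 4 (fun F => t73 h F) F
              · by_cases Xq4 : p b = b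
                · have Xn2_0 : p r ≠ l := (fun e => (Ne.symm hrr2) ((Xq0_3).symm.trans (p.eq_comm'.1 e)))
                  have Xn2_1 : p r ≠ l2 := (fun e => hl2r ((Xq1).symm.trans (p.eq_comm'.1 e)))
                  have Xn2_3 : p r ≠ r2 := (fun e => hlr ((Xr3).symm.trans (p.eq_comm'.1 e)))
                  exact case ![l, l2, r, r2, b, p r] (inj6 hll2 hlr hlr2 hlb (Ne.symm Xn2_0) hl2r hl2r2 hl2b (Ne.symm Xn2_1) hrr2 hrb (Ne.symm Xq2) hr2b (Ne.symm Xn2_3) (Ne.symm Xq2_4)) P6_31 (by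
                    intro x; fin_cases x <;> simp [P6_31, Xq0_3, Xq1, Xr3, Xq4]) 0 1 2 3 4 (fun F => t74 h F) F
                · have Xn2_0 : p r ≠ l := (fun e => (Ne.symm hrr2) ((Xq0_3).symm.trans (p.eq_comm'.1 e)))
                  have Xn2_1 : p r ≠ l2 := (fun e => hl2r ((Xq1).symm.trans (p.eq_comm'.1 e)))
                  have Xn2_3 : p r ≠ r2 := (fun e => hlr ((Xr3).symm.trans (p.eq_comm'.1 e)))
                  have Xn4_0 : p b ≠ l := (fun e => hr2b ((Xq0_3).symm.trans (p.eq_comm'.1 e)))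
                  have Xn4_1 : p b ≠ l2 := (fun e => hl2b ((Xq1).symm.trans (p.eq_comm'.1 e)))
                  have Xn4_2 : p b ≠ r := (fun e => Xq2_4 (p.eq_comm'.1 e))
                  have Xn4_3 : p b ≠ r2 := (fun e => hlb ((Xr3).symm.trans (p.eq_comm'.1 e)))
                  exact case ![l, l2, r, r2, b, p r, p b] (inj7 hll2 hlr hlr2 hlb (Ne.symm Xn2_0) (Ne.symm Xn4_0) hl2r hl2r2 hl2b (Ne.symm Xn2_1) (Ne.symm Xn4_1) hrr2 hrb (Ne.symm Xq2) (Ne.symm Xn4_2) hr2b (Ne.symm Xn2_3) (Ne.symm Xn4_3) (Ne.symm Xq2_4) (Ne.symm Xq4) (fun e => hrb (p.inj e))) P7_19 (by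
                    intro x; fin_cases x <;> simp [P7_19, Xq0_3, Xq1, Xr3]) 0 1 2 3 4 (fun F => t75 h F) F
          · by_cases Xq1_2 : p l2 = r
            · have Xr2 : p r = l2 := p.eq_comm'.1 Xq1_2
              by_cases Xq4 : p b = b
              · exact case ![l, l2, r, r2, b] (inj5 hll2 hlr hlr2 hlb hl2r hl2r2 hl2b hrr2 hrb hr2b) P5_22 (by
                  intro x; fin_cases x <;> simp [P5_22, Xq0_3, Xq1_2, Xr2, Xr3, Xq4]) 0 1 2 3 4 (fun F => t76 h F) F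
              · have Xn4_0 : p b ≠ l := (fun e => hr2b ((Xq0_3).symm.trans (p.eq_comm'.1 e)))
                have Xn4_1 : p b ≠ l2 := (fun e => hrb ((Xq1_2).symm.trans (p.eq_comm'.1 e)))
                have Xn4_2 : p b ≠ r := (fun e => hl2b ((Xr2).symm.trans (p.eq_comm'.1 e)))
                have Xn4_3 : p b ≠ r2 := (fun e => hlb ((Xr3).symm.trans (p.eq_comm'.1 e)))
                exact case ![l, l2, r, r2, b, p b] (inj6 hll2 hlr hlr2 hlb (Ne.symm Xn4_0) hl2r hl2r2 hl2b (Ne.symm Xn4_1) hrr2 hrb (Ne.symm Xn4_2) hr2b (Ne.symm Xn4_3) (Ne.symm Xq4)) P6_32 (by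
                  intro x; fin_cases x <;> simp [P6_32, Xq0_3, Xq1_2, Xr2, Xr3]) 0 1 2 3 4 (fun F => t77 h F) F
            · by_cases Xq1_4 : p l2 = b
              · have Xr4 : p b = l2 := p.eq_comm'.1 Xq1_4
                by_cases Xq2 : p r = r
                · exact case ![l, l2, r, r2, b] (inj5 hll2 hlr hlr2 hlb hl2r hl2r2 hl2b hrr2 hrb hr2b) P5_23 (by
                    intro x; fin_cases x <;> simp [P5_23, Xq0_3, Xq1_4, Xq2, Xr3, Xr4]) 0 1 2 3 4 (fun F => t78 h F) F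
                · have Xn2_0 : p r ≠ l := (fun e => (Ne.symm hrr2) ((Xq0_3).symm.trans (p.eq_comm'.1 e)))
                  have Xn2_1 : p r ≠ l2 := (fun e => (Ne.symm hrb) ((Xq1_4).symm.trans (p.eq_comm'.1 e)))
                  have Xn2_3 : p r ≠ r2 := (fun e => hlr ((Xr3).symm.trans (p.eq_comm'.1 e)))
                  have Xn2_4 : p r ≠ b := (fun e => hl2r ((Xr4).symm.trans (p.eq_comm'.1 e)))
                  exact case ![l, l2, r, r2, b, p r] (inj6 hll2 hlr hlr2 hlb (Ne.symm Xn2_0) hl2r hl2r2 hl2b (Ne.symm Xn2_1) hrr2 hrb (Ne.symm Xq2) hr2b (Ne.symm Xn2_3) (Ne.symm Xn2_4)) P6_33 (by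
                    intro x; fin_cases x <;> simp [P6_33, Xq0_3, Xq1_4, Xr3, Xr4]) 0 1 2 3 4 (fun F => t79 h F) F
              · by_cases Xq2 : p r = r
                · by_cases Xq4 : p b = b
                  · have Xn1_0 : p l2 ≠ l := (fun e => (Ne.symm hl2r2) ((Xq0_3).symm.trans (p.eq_comm'.1 e)))
                    have Xn1_3 : p l2 ≠ r2 := (fun e => hll2 ((Xr3).symm.trans (p.eq_comm'.1 e)))
                    exact case ![l, l2, r, r2, b, p l2] (inj6 hll2 hlr hlr2 hlb (Ne.symm Xn1_0) hl2r hl2r2 hl2b (Ne.symm Xq1) hrr2 hrb (Ne.symm Xq1_2) hr2b (Ne.symm Xn1_3) (Ne.symm Xq1_4)) P6_34 (by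
                      intro x; fin_cases x <;> simp [P6_34, Xq0_3, Xq2, Xr3, Xq4]) 0 1 2 3 4 (fun F => t80 h F) F
                  · have Xn1_0 : p l2 ≠ l := (fun e => (Ne.symm hl2r2) ((Xq0_3).symm.trans (p.eq_comm'.1 e)))
                    have Xn1_3 : p l2 ≠ r2 := (fun e => hll2 ((Xr3).symm.trans (p.eq_comm'.1 e)))
                    have Xn4_0 : p b ≠ l := (fun e => hr2b ((Xq0_3).symm.trans (p.eq_comm'.1 e)))
                    have Xn4_1 : p b ≠ l2 := (fun e => Xq1_4 (p.eq_comm'.1 e))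
                    have Xn4_2 : p b ≠ r := (fun e => hrb ((Xq2).symm.trans (p.eq_comm'.1 e)))
                    have Xn4_3 : p b ≠ r2 := (fun e => hlb ((Xr3).symm.trans (p.eq_comm'.1 e)))
                    exact case ![l, l2, r, r2, b, p l2, p b] (inj7 hll2 hlr hlr2 hlb (Ne.symm Xn1_0) (Ne.symm Xn4_0) hl2r hl2r2 hl2b (Ne.symm Xq1) (Ne.symm Xn4_1) hrr2 hrb (Ne.symm Xq1_2) (Ne.symm Xn4_2) hr2b (Ne.symm Xn1_3) (Ne.symm Xn4_3) (Ne.symm Xq1_4) (Ne.symm Xq4) (fun e => hl2b (p.inj e))) P7_20 (by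
                      intro x; fin_cases x <;> simp [P7_20, Xq0_3, Xq2, Xr3]) 0 1 2 3 4 (fun F => t81 h F) F
                · by_cases Xq2_4 : p r = b
                  · have Xr4 : p b = r := p.eq_comm'.1 Xq2_4
                    have Xn1_0 : p l2 ≠ l := (fun e => (Ne.symm hl2r2) ((Xq0_3).symm.trans (p.eq_comm'.1 e)))
                    have Xn1_3 : p l2 ≠ r2 := (fun e => hll2 ((Xr3).symm.trans (p.eq_comm'.1 e)))
                    exact case ![l, l2, r, r2, b, p l2] (inj6 hll2 hlr hlr2 hlb (Ne.symm Xn1_0) hl2r hl2r2 hl2b (Ne.symm Xq1) hrr2 hrb (Ne.symm Xq1_2) hr2b (Ne.symm Xn1_3) (Ne.symm Xq1_4)) P6_35 (by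
                      intro x; fin_cases x <;> simp [P6_35, Xq0_3, Xq2_4, Xr3, Xr4]) 0 1 2 3 4 (fun F => t82 h F) F
                  · by_cases Xq4 : p b = b
                    · have Xn1_0 : p l2 ≠ l := (fun e => (Ne.symm hl2r2) ((Xq0_3).symm.trans (p.eq_comm'.1 e)))
                      have Xn1_3 : p l2 ≠ r2 := (fun e => hll2 ((Xr3).symm.trans (p.eq_comm'.1 e)))
                      have Xn2_0 : p r ≠ l := (fun e => (Ne.symm hrr2) ((Xq0_3).symm.trans (p.eq_comm'.1 e)))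
                      have Xn2_1 : p r ≠ l2 := (fun e => Xq1_2 (p.eq_comm'.1 e))
                      have Xn2_3 : p r ≠ r2 := (fun e => hlr ((Xr3).symm.trans (p.eq_comm'.1 e)))
                      exact case ![l, l2, r, r2, b, p l2, p r] (inj7 hll2 hlr hlr2 hlb (Ne.symm Xn1_0) (Ne.symm Xn2_0) hl2r hl2r2 hl2b (Ne.symm Xq1) (Ne.symm Xn2_1) hrr2 hrb (Ne.symm Xq1_2) (Ne.symm Xq2) hr2b (Ne.symm Xn1_3) (Ne.symm Xn2_3) (Ne.symm Xq1_4) (Ne.symm Xq2_4) (fun e => hl2r (p.inj e))) P7_21 (by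
                        intro x; fin_cases x <;> simp [P7_21, Xq0_3, Xr3, Xq4]) 0 1 2 3 4 (fun F => t83 h F) F
                    · have Xn1_0 : p l2 ≠ l := (fun e => (Ne.symm hl2r2) ((Xq0_3).symm.trans (p.eq_comm'.1 e)))
                      have Xn1_3 : p l2 ≠ r2 := (fun e => hll2 ((Xr3).symm.trans (p.eq_comm'.1 e)))
                      have Xn2_0 : p r ≠ l := (fun e => (Ne.symm hrr2) ((Xq0_3).symm.trans (p.eq_comm'.1 e)))
                      have Xn2_1 : p r ≠ l2 := (fun e => Xq1_2 (p.eq_comm'.1 e))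
                      have Xn2_3 : p r ≠ r2 := (fun e => hlr ((Xr3).symm.trans (p.eq_comm'.1 e)))
                      have Xn4_0 : p b ≠ l := (fun e => hr2b ((Xq0_3).symm.trans (p.eq_comm'.1 e)))
                      have Xn4_1 : p b ≠ l2 := (fun e => Xq1_4 (p.eq_comm'.1 e))
                      have Xn4_2 : p b ≠ r := (fun e => Xq2_4 (p.eq_comm'.1 e))
                      have Xn4_3 : p b ≠ r2 := (fun e => hlb ((Xr3).symm.trans (p.eq_comm'.1 e)))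
                      exact case ![l, l2, r, r2, b, p l2, p r, p b] (inj8 hll2 hlr hlr2 hlb (Ne.symm Xn1_0) (Ne.symm Xn2_0) (Ne.symm Xn4_0) hl2r hl2r2 hl2b (Ne.symm Xq1) (Ne.symm Xn2_1) (Ne.symm Xn4_1) hrr2 hrb (Ne.symm Xq1_2) (Ne.symm Xq2) (Ne.symm Xn4_2) hr2b (Ne.symm Xn1_3) (Ne.symm Xn2_3) (Ne.symm Xn4_3) (Ne.symm Xq1_4) (Ne.symm Xq2_4) (Ne.symm Xq4) (fun e => hl2r (p.inj e)) (fun e => hl2b (p.inj e)) (fun e => hrb (p.inj e))) P8_6 (by
                        intro x; fin_cases x <;> simp [P8_6, Xq0_3, Xr3]) 0 1 2 3 4 (fun F => t84 h F) F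
        · by_cases Xq0_4 : p l = b
          · have Xr4 : p b = l := p.eq_comm'.1 Xq0_4
            by_cases Xq1 : p l2 = l2
            · by_cases Xq2 : p r = r
              · by_cases Xq3 : p r2 = r2
                · exact case ![l, l2, r, r2, b] (inj5 hll2 hlr hlr2 hlb hl2r hl2r2 hl2b hrr2 hrb hr2b) P5_2 (by
                    intro x; fin_cases x <;> simp [P5_2, Xq0_4, Xq1, Xq2, Xq3, Xr4]) 0 1 2 3 4 (fun F => t85 h F) F
                · have Xn3_0 : p r2 ≠ l := (fun e => (Ne.symm hr2b) ((Xq0_4).symm.trans (p.eq_comm'.1 e)))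
                  have Xn3_1 : p r2 ≠ l2 := (fun e => hl2r2 ((Xq1).symm.trans (p.eq_comm'.1 e)))
                  have Xn3_2 : p r2 ≠ r := (fun e => hrr2 ((Xq2).symm.trans (p.eq_comm'.1 e)))
                  have Xn3_4 : p r2 ≠ b := (fun e => hlr2 ((Xr4).symm.trans (p.eq_comm'.1 e)))
                  exact case ![l, l2, r, r2, b, p r2] (inj6 hll2 hlr hlr2 hlb (Ne.symm Xn3_0) hl2r hl2r2 hl2b (Ne.symm Xn3_1) hrr2 hrb (Ne.symm Xn3_2) hr2b (Ne.symm Xq3) (Ne.symm Xn3_4)) P6_7 (by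
                    intro x; fin_cases x <;> simp [P6_7, Xq0_4, Xq1, Xq2, Xr4]) 0 1 2 3 4 (fun F => t86 h F) F
              · by_cases Xq2_3 : p r = r2
                · have Xr3 : p r2 = r := p.eq_comm'.1 Xq2_3
                  exact case ![l, l2, r, r2, b] (inj5 hll2 hlr hlr2 hlb hl2r hl2r2 hl2b hrr2 hrb hr2b) P5_24 (by
                    intro x; fin_cases x <;> simp [P5_24, Xq0_4, Xq1, Xq2_3, Xr3, Xr4]) 0 1 2 3 4 (fun F => t87 h F) F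
                · by_cases Xq3 : p r2 = r2
                  · have Xn2_0 : p r ≠ l := (fun e => (Ne.symm hrb) ((Xq0_4).symm.trans (p.eq_comm'.1 e)))
                    have Xn2_1 : p r ≠ l2 := (fun e => hl2r ((Xq1).symm.trans (p.eq_comm'.1 e)))
                    have Xn2_4 : p r ≠ b := (fun e => hlr ((Xr4).symm.trans (p.eq_comm'.1 e)))
                    exact case ![l, l2, r, r2, b, p r] (inj6 hll2 hlr hlr2 hlb (Ne.symm Xn2_0) hl2r hl2r2 hl2b (Ne.symm Xn2_1) hrr2 hrb (Ne.symm Xq2) hr2b (Ne.symm Xq2_3) (Ne.symm Xn2_4)) P6_36 (by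
                      intro x; fin_cases x <;> simp [P6_36, Xq0_4, Xq1, Xq3, Xr4]) 0 1 2 3 4 (fun F => t88 h F) F
                  · have Xn2_0 : p r ≠ l := (fun e => (Ne.symm hrb) ((Xq0_4).symm.trans (p.eq_comm'.1 e)))
                    have Xn2_1 : p r ≠ l2 := (fun e => hl2r ((Xq1).symm.trans (p.eq_comm'.1 e)))
                    have Xn2_4 : p r ≠ b := (fun e => hlr ((Xr4).symm.trans (p.eq_comm'.1 e)))
                    have Xn3_0 : p r2 ≠ l := (fun e => (Ne.symm hr2b) ((Xq0_4).symm.trans (p.eq_comm'.1 e)))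
                    have Xn3_1 : p r2 ≠ l2 := (fun e => hl2r2 ((Xq1).symm.trans (p.eq_comm'.1 e)))
                    have Xn3_2 : p r2 ≠ r := (fun e => Xq2_3 (p.eq_comm'.1 e))
                    have Xn3_4 : p r2 ≠ b := (fun e => hlr2 ((Xr4).symm.trans (p.eq_comm'.1 e)))
                    exact case ![l, l2, r, r2, b, p r, p r2] (inj7 hll2 hlr hlr2 hlb (Ne.symm Xn2_0) (Ne.symm Xn3_0) hl2r hl2r2 hl2b (Ne.symm Xn2_1) (Ne.symm Xn3_1) hrr2 hrb (Ne.symm Xq2) (Ne.symm Xn3_2) hr2b (Ne.symm Xq2_3) (Ne.symm Xq3) (Ne.symm Xn2_4) (Ne.symm Xn3_4) (fun e => hrr2 (p.inj e))) P7_22 (by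
                      intro x; fin_cases x <;> simp [P7_22, Xq0_4, Xq1, Xr4]) 0 1 2 3 4 (fun F => t89 h F) F
            · by_cases Xq1_2 : p l2 = r
              · have Xr2 : p r = l2 := p.eq_comm'.1 Xq1_2
                by_cases Xq3 : p r2 = r2
                · exact case ![l, l2, r, r2, b] (inj5 hll2 hlr hlr2 hlb hl2r hl2r2 hl2b hrr2 hrb hr2b) P5_25 (by
                    intro x; fin_cases x <;> simp [P5_25, Xq0_4, Xq1_2, Xr2, Xq3, Xr4]) 0 1 2 3 4 (fun F => t90 h F) F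
                · have Xn3_0 : p r2 ≠ l := (fun e => (Ne.symm hr2b) ((Xq0_4).symm.trans (p.eq_comm'.1 e)))
                  have Xn3_1 : p r2 ≠ l2 := (fun e => hrr2 ((Xq1_2).symm.trans (p.eq_comm'.1 e)))
                  have Xn3_2 : p r2 ≠ r := (fun e => hl2r2 ((Xr2).symm.trans (p.eq_comm'.1 e)))
                  have Xn3_4 : p r2 ≠ b := (fun e => hlr2 ((Xr4).symm.trans (p.eq_comm'.1 e)))
                  exact case ![l, l2, r, r2, b, p r2] (inj6 hll2 hlr hlr2 hlb (Ne.symm Xn3_0) hl2r hl2r2 hl2b (Ne.symm Xn3_1) hrr2 hrb (Ne.symm Xn3_2) hr2b (Ne.symm Xq3) (Ne.symm Xn3_4)) P6_37 (by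
                    intro x; fin_cases x <;> simp [P6_37, Xq0_4, Xq1_2, Xr2, Xr4]) 0 1 2 3 4 (fun F => t91 h F) F
              · by_cases Xq1_3 : p l2 = r2
                · have Xr3 : p r2 = l2 := p.eq_comm'.1 Xq1_3
                  by_cases Xq2 : p r = r
                  · exact case ![l, l2, r, r2, b] (inj5 hll2 hlr hlr2 hlb hl2r hl2r2 hl2b hrr2 hrb hr2b) P5_11 (by
                      intro x; fin_cases x <;> simp [P5_11, Xq0_4, Xq1_3, Xq2, Xr3, Xr4]) 0 1 2 3 4 (fun F => t92 h F) F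
                  · have Xn2_0 : p r ≠ l := (fun e => (Ne.symm hrb) ((Xq0_4).symm.trans (p.eq_comm'.1 e)))
                    have Xn2_1 : p r ≠ l2 := (fun e => (Ne.symm hrr2) ((Xq1_3).symm.trans (p.eq_comm'.1 e)))
                    have Xn2_3 : p r ≠ r2 := (fun e => hl2r ((Xr3).symm.trans (p.eq_comm'.1 e)))
                    have Xn2_4 : p r ≠ b := (fun e => hlr ((Xr4).symm.trans (p.eq_comm'.1 e)))
                    exact case ![l, l2, r, r2, b, p r] (inj6 hll2 hlr hlr2 hlb (Ne.symm Xn2_0) hl2r hl2r2 hl2b (Ne.symm Xn2_1) hrr2 hrb (Ne.symm Xq2) hr2b (Ne.symm Xn2_3) (Ne.symm Xn2_4)) P6_38 (by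
                      intro x; fin_cases x <;> simp [P6_38, Xq0_4, Xq1_3, Xr3, Xr4]) 0 1 2 3 4 (fun F => t93 h F) F
                · by_cases Xq2 : p r = r
                  · by_cases Xq3 : p r2 = r2
                    · have Xn1_0 : p l2 ≠ l := (fun e => (Ne.symm hl2b) ((Xq0_4).symm.trans (p.eq_comm'.1 e)))
                      have Xn1_4 : p l2 ≠ b := (fun e => hll2 ((Xr4).symm.trans (p.eq_comm'.1 e)))
                      exact case ![l, l2, r, r2, b, p l2] (inj6 hll2 hlr hlr2 hlb (Ne.symm Xn1_0) hl2r hl2r2 hl2b (Ne.symm Xq1) hrr2 hrb (Ne.symm Xq1_2) hr2b (Ne.symm Xq1_3) (Ne.symm Xn1_4)) P6_20 (by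
                        intro x; fin_cases x <;> simp [P6_20, Xq0_4, Xq2, Xq3, Xr4]) 0 1 2 3 4 (fun F => t94 h F) F
                    · have Xn1_0 : p l2 ≠ l := (fun e => (Ne.symm hl2b) ((Xq0_4).symm.trans (p.eq_comm'.1 e)))
                      have Xn1_4 : p l2 ≠ b := (fun e => hll2 ((Xr4).symm.trans (p.eq_comm'.1 e)))
                      have Xn3_0 : p r2 ≠ l := (fun e => (Ne.symm hr2b) ((Xq0_4).symm.trans (p.eq_comm'.1 e)))
                      have Xn3_1 : p r2 ≠ l2 := (fun e => Xq1_3 (p.eq_comm'.1 e))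
                      have Xn3_2 : p r2 ≠ r := (fun e => hrr2 ((Xq2).symm.trans (p.eq_comm'.1 e)))
                      have Xn3_4 : p r2 ≠ b := (fun e => hlr2 ((Xr4).symm.trans (p.eq_comm'.1 e)))
                      exact case ![l, l2, r, r2, b, p l2, p r2] (inj7 hll2 hlr hlr2 hlb (Ne.symm Xn1_0) (Ne.symm Xn3_0) hl2r hl2r2 hl2b (Ne.symm Xq1) (Ne.symm Xn3_1) hrr2 hrb (Ne.symm Xq1_2) (Ne.symm Xn3_2) hr2b (Ne.symm Xq1_3) (Ne.symm Xq3) (Ne.symm Xn1_4) (Ne.symm Xn3_4) (fun e => hl2r2 (p.inj e))) P7_11 (by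
                        intro x; fin_cases x <;> simp [P7_11, Xq0_4, Xq2, Xr4]) 0 1 2 3 4 (fun F => t95 h F) F
                  · by_cases Xq2_3 : p r = r2
                    · have Xr3 : p r2 = r := p.eq_comm'.1 Xq2_3
                      have Xn1_0 : p l2 ≠ l := (fun e => (Ne.symm hl2b) ((Xq0_4).symm.trans (p.eq_comm'.1 e)))
                      have Xn1_4 : p l2 ≠ b := (fun e => hll2 ((Xr4).symm.trans (p.eq_comm'.1 e)))
                      exact case ![l, l2, r, r2, b, p l2] (inj6 hll2 hlr hlr2 hlb (Ne.symm Xn1_0) hl2r hl2r2 hl2b (Ne.symm Xq1) hrr2 hrb (Ne.symm Xq1_2) hr2b (Ne.symm Xq1_3) (Ne.symm Xn1_4)) P6_39 (by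
                        intro x; fin_cases x <;> simp [P6_39, Xq0_4, Xq2_3, Xr3, Xr4]) 0 1 2 3 4 (fun F => t96 h F) F
                    · by_cases Xq3 : p r2 = r2
                      · have Xn1_0 : p l2 ≠ l := (fun e => (Ne.symm hl2b) ((Xq0_4).symm.trans (p.eq_comm'.1 e)))
                        have Xn1_4 : p l2 ≠ b := (fun e => hll2 ((Xr4).symm.trans (p.eq_comm'.1 e)))
                        have Xn2_0 : p r ≠ l := (fun e => (Ne.symm hrb) ((Xq0_4).symm.trans (p.eq_comm'.1 e)))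
                        have Xn2_1 : p r ≠ l2 := (fun e => Xq1_2 (p.eq_comm'.1 e))
                        have Xn2_4 : p r ≠ b := (fun e => hlr ((Xr4).symm.trans (p.eq_comm'.1 e)))
                        exact case ![l, l2, r, r2, b, p l2, p r] (inj7 hll2 hlr hlr2 hlb (Ne.symm Xn1_0) (Ne.symm Xn2_0) hl2r hl2r2 hl2b (Ne.symm Xq1) (Ne.symm Xn2_1) hrr2 hrb (Ne.symm Xq1_2) (Ne.symm Xq2) hr2b (Ne.symm Xq1_3) (Ne.symm Xq2_3) (Ne.symm Xn1_4) (Ne.symm Xn2_4) (fun e => hl2r (p.inj e))) P7_23 (by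
                          intro x; fin_cases x <;> simp [P7_23, Xq0_4, Xq3, Xr4]) 0 1 2 3 4 (fun F => t97 h F) F
                      · have Xn1_0 : p l2 ≠ l := (fun e => (Ne.symm hl2b) ((Xq0_4).symm.trans (p.eq_comm'.1 e)))
                        have Xn1_4 : p l2 ≠ b := (fun e => hll2 ((Xr4).symm.trans (p.eq_comm'.1 e)))
                        have Xn2_0 : p r ≠ l := (fun e => (Ne.symm hrb) ((Xq0_4).symm.trans (p.eq_comm'.1 e)))
                        have Xn2_1 : p r ≠ l2 := (fun e => Xq1_2 (p.eq_comm'.1 e))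
                        have Xn2_4 : p r ≠ b := (fun e => hlr ((Xr4).symm.trans (p.eq_comm'.1 e)))
                        have Xn3_0 : p r2 ≠ l := (fun e => (Ne.symm hr2b) ((Xq0_4).symm.trans (p.eq_comm'.1 e)))
                        have Xn3_1 : p r2 ≠ l2 := (fun e => Xq1_3 (p.eq_comm'.1 e))
                        have Xn3_2 : p r2 ≠ r := (fun e => Xq2_3 (p.eq_comm'.1 e))
                        have Xn3_4 : p r2 ≠ b := (fun e => hlr2 ((Xr4).symm.trans (p.eq_comm'.1 e)))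
                        exact case ![l, l2, r, r2, b, p l2, p r, p r2] (inj8 hll2 hlr hlr2 hlb (Ne.symm Xn1_0) (Ne.symm Xn2_0) (Ne.symm Xn3_0) hl2r hl2r2 hl2b (Ne.symm Xq1) (Ne.symm Xn2_1) (Ne.symm Xn3_1) hrr2 hrb (Ne.symm Xq1_2) (Ne.symm Xq2) (Ne.symm Xn3_2) hr2b (Ne.symm Xq1_3) (Ne.symm Xq2_3) (Ne.symm Xq3) (Ne.symm Xn1_4) (Ne.symm Xn2_4) (Ne.symm Xn3_4) (fun e => hl2r (p.inj e)) (fun e => hl2r2 (p.inj e)) (fun e => hrr2 (p.inj e))) P8_7 (by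
                          intro x; fin_cases x <;> simp [P8_7, Xq0_4, Xr4]) 0 1 2 3 4 (fun F => t98 h F) F
          · by_cases Xq1 : p l2 = l2
            · by_cases Xq2 : p r = r
              · by_cases Xq3 : p r2 = r2
                · by_cases Xq4 : p b = b
                  · exact case ![l, l2, r, r2, b, p l] (inj6 hll2 hlr hlr2 hlb (Ne.symm Xq0) hl2r hl2r2 hl2b (Ne.symm Xq0_1) hrr2 hrb (Ne.symm Xq0_2) hr2b (Ne.symm Xq0_3) (Ne.symm Xq0_4)) P6_40 (by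
                      intro x; fin_cases x <;> simp [P6_40, Xq1, Xq2, Xq3, Xq4]) 0 1 2 3 4 (fun F => t99 h F) F
                  · have Xn4_0 : p b ≠ l := (fun e => Xq0_4 (p.eq_comm'.1 e))
                    have Xn4_1 : p b ≠ l2 := (fun e => hl2b ((Xq1).symm.trans (p.eq_comm'.1 e)))
                    have Xn4_2 : p b ≠ r := (fun e => hrb ((Xq2).symm.trans (p.eq_comm'.1 e)))
                    have Xn4_3 : p b ≠ r2 := (fun e => hr2b ((Xq3).symm.trans (p.eq_comm'.1 e)))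
                    exact case ![l, l2, r, r2, b, p l, p b] (inj7 hll2 hlr hlr2 hlb (Ne.symm Xq0) (Ne.symm Xn4_0) hl2r hl2r2 hl2b (Ne.symm Xq0_1) (Ne.symm Xn4_1) hrr2 hrb (Ne.symm Xq0_2) (Ne.symm Xn4_2) hr2b (Ne.symm Xq0_3) (Ne.symm Xn4_3) (Ne.symm Xq0_4) (Ne.symm Xq4) (fun e => hlb (p.inj e))) P7_24 (by
                      intro x; fin_cases x <;> simp [P7_24, Xq1, Xq2, Xq3]) 0 1 2 3 4 (fun F => t100 h F) F
                · by_cases Xq3_4 : p r2 = b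
                  · have Xr4 : p b = r2 := p.eq_comm'.1 Xq3_4
                    exact case ![l, l2, r, r2, b, p l] (inj6 hll2 hlr hlr2 hlb (Ne.symm Xq0) hl2r hl2r2 hl2b (Ne.symm Xq0_1) hrr2 hrb (Ne.symm Xq0_2) hr2b (Ne.symm Xq0_3) (Ne.symm Xq0_4)) P6_41 (by
                      intro x; fin_cases x <;> simp [P6_41, Xq1, Xq2, Xq3_4, Xr4]) 0 1 2 3 4 (fun F => t101 h F) F
                  · by_cases Xq4 : p b = b
                    · have Xn3_0 : p r2 ≠ l := (fun e => Xq0_3 (p.eq_comm'.1 e))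
                      have Xn3_1 : p r2 ≠ l2 := (fun e => hl2r2 ((Xq1).symm.trans (p.eq_comm'.1 e)))
                      have Xn3_2 : p r2 ≠ r := (fun e => hrr2 ((Xq2).symm.trans (p.eq_comm'.1 e)))
                      exact case ![l, l2, r, r2, b, p l, p r2] (inj7 hll2 hlr hlr2 hlb (Ne.symm Xq0) (Ne.symm Xn3_0) hl2r hl2r2 hl2b (Ne.symm Xq0_1) (Ne.symm Xn3_1) hrr2 hrb (Ne.symm Xq0_2) (Ne.symm Xn3_2) hr2b (Ne.symm Xq0_3) (Ne.symm Xq3) (Ne.symm Xq0_4) (Ne.symm Xq3_4) (fun e => hlr2 (p.inj e))) P7_25 (by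
                        intro x; fin_cases x <;> simp [P7_25, Xq1, Xq2, Xq4]) 0 1 2 3 4 (fun F => t102 h F) F
                    · have Xn3_0 : p r2 ≠ l := (fun e => Xq0_3 (p.eq_comm'.1 e))
                      have Xn3_1 : p r2 ≠ l2 := (fun e => hl2r2 ((Xq1).symm.trans (p.eq_comm'.1 e)))
                      have Xn3_2 : p r2 ≠ r := (fun e => hrr2 ((Xq2).symm.trans (p.eq_comm'.1 e)))
                      have Xn4_0 : p b ≠ l := (fun e => Xq0_4 (p.eq_comm'.1 e))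
                      have Xn4_1 : p b ≠ l2 := (fun e => hl2b ((Xq1).symm.trans (p.eq_comm'.1 e)))
                      have Xn4_2 : p b ≠ r := (fun e => hrb ((Xq2).symm.trans (p.eq_comm'.1 e)))
                      have Xn4_3 : p b ≠ r2 := (fun e => Xq3_4 (p.eq_comm'.1 e))
                      exact case ![l, l2, r, r2, b, p l, p r2, p b] (inj8 hll2 hlr hlr2 hlb (Ne.symm Xq0) (Ne.symm Xn3_0) (Ne.symm Xn4_0) hl2r hl2r2 hl2b (Ne.symm Xq0_1) (Ne.symm Xn3_1) (Ne.symm Xn4_1) hrr2 hrb (Ne.symm Xq0_2) (Ne.symm Xn3_2) (Ne.symm Xn4_2) hr2b (Ne.symm Xq0_3) (Ne.symm Xq3) (Ne.symm Xn4_3) (Ne.symm Xq0_4) (Ne.symm Xq3_4) (Ne.symm Xq4) (fun e => hlr2 (p.inj e)) (fun e => hlb (p.inj e)) (fun e => hr2b (p.inj e))) P8_8 (by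
                        intro x; fin_cases x <;> simp [P8_8, Xq1, Xq2]) 0 1 2 3 4 (fun F => t103 h F) F
              · by_cases Xq2_3 : p r = r2
                · have Xr3 : p r2 = r := p.eq_comm'.1 Xq2_3
                  by_cases Xq4 : p b = b
                  · exact case ![l, l2, r, r2, b, p l] (inj6 hll2 hlr hlr2 hlb (Ne.symm Xq0) hl2r hl2r2 hl2b (Ne.symm Xq0_1) hrr2 hrb (Ne.symm Xq0_2) hr2b (Ne.symm Xq0_3) (Ne.symm Xq0_4)) P6_42 (by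
                      intro x; fin_cases x <;> simp [P6_42, Xq1, Xq2_3, Xr3, Xq4]) 0 1 2 3 4 (fun F => t104 h F) F
                  · have Xn4_0 : p b ≠ l := (fun e => Xq0_4 (p.eq_comm'.1 e))
                    have Xn4_1 : p b ≠ l2 := (fun e => hl2b ((Xq1).symm.trans (p.eq_comm'.1 e)))
                    have Xn4_2 : p b ≠ r := (fun e => hr2b ((Xq2_3).symm.trans (p.eq_comm'.1 e)))
                    have Xn4_3 : p b ≠ r2 := (fun e => hrb ((Xr3).symm.trans (p.eq_comm'.1 e)))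
                    exact case ![l, l2, r, r2, b, p l, p b] (inj7 hll2 hlr hlr2 hlb (Ne.symm Xq0) (Ne.symm Xn4_0) hl2r hl2r2 hl2b (Ne.symm Xq0_1) (Ne.symm Xn4_1) hrr2 hrb (Ne.symm Xq0_2) (Ne.symm Xn4_2) hr2b (Ne.symm Xq0_3) (Ne.symm Xn4_3) (Ne.symm Xq0_4) (Ne.symm Xq4) (fun e => hlb (p.inj e))) P7_26 (by
                      intro x; fin_cases x <;> simp [P7_26, Xq1, Xq2_3, Xr3]) 0 1 2 3 4 (fun F => t105 h F) F
                · by_cases Xq2_4 : p r = b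
                  · have Xr4 : p b = r := p.eq_comm'.1 Xq2_4
                    by_cases Xq3 : p r2 = r2
                    · exact case ![l, l2, r, r2, b, p l] (inj6 hll2 hlr hlr2 hlb (Ne.symm Xq0) hl2r hl2r2 hl2b (Ne.symm Xq0_1) hrr2 hrb (Ne.symm Xq0_2) hr2b (Ne.symm Xq0_3) (Ne.symm Xq0_4)) P6_43 (by
                        intro x; fin_cases x <;> simp [P6_43, Xq1, Xq2_4, Xq3, Xr4]) 0 1 2 3 4 (fun F => t106 h F) F
                    · have Xn3_0 : p r2 ≠ l := (fun e => Xq0_3 (p.eq_comm'.1 e))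
                      have Xn3_1 : p r2 ≠ l2 := (fun e => hl2r2 ((Xq1).symm.trans (p.eq_comm'.1 e)))
                      have Xn3_2 : p r2 ≠ r := (fun e => (Ne.symm hr2b) ((Xq2_4).symm.trans (p.eq_comm'.1 e)))
                      have Xn3_4 : p r2 ≠ b := (fun e => hrr2 ((Xr4).symm.trans (p.eq_comm'.1 e)))
                      exact case ![l, l2, r, r2, b, p l, p r2] (inj7 hll2 hlr hlr2 hlb (Ne.symm Xq0) (Ne.symm Xn3_0) hl2r hl2r2 hl2b (Ne.symm Xq0_1) (Ne.symm Xn3_1) hrr2 hrb (Ne.symm Xq0_2) (Ne.symm Xn3_2) hr2b (Ne.symm Xq0_3) (Ne.symm Xq3) (Ne.symm Xq0_4) (Ne.symm Xn3_4) (fun e => hlr2 (p.inj e))) P7_27 (by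
                        intro x; fin_cases x <;> simp [P7_27, Xq1, Xq2_4, Xr4]) 0 1 2 3 4 (fun F => t107 h F) F
                  · by_cases Xq3 : p r2 = r2
                    · by_cases Xq4 : p b = b
                      · have Xn2_0 : p r ≠ l := (fun e => Xq0_2 (p.eq_comm'.1 e))
                        have Xn2_1 : p r ≠ l2 := (fun e => hl2r ((Xq1).symm.trans (p.eq_comm'.1 e)))
                        exact case ![l, l2, r, r2, b, p l, p r] (inj7 hll2 hlr hlr2 hlb (Ne.symm Xq0) (Ne.symm Xn2_0) hl2r hl2r2 hl2b (Ne.symm Xq0_1) (Ne.symm Xn2_1) hrr2 hrb (Ne.symm Xq0_2) (Ne.symm Xq2) hr2b (Ne.symm Xq0_3) (Ne.symm Xq2_3) (Ne.symm Xq0_4) (Ne.symm Xq2_4) (fun e => hlr (p.inj e))) P7_28 (by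
                          intro x; fin_cases x <;> simp [P7_28, Xq1, Xq3, Xq4]) 0 1 2 3 4 (fun F => t108 h F) F
                      · have Xn2_0 : p r ≠ l := (fun e => Xq0_2 (p.eq_comm'.1 e))
                        have Xn2_1 : p r ≠ l2 := (fun e => hl2r ((Xq1).symm.trans (p.eq_comm'.1 e)))
                        have Xn4_0 : p b ≠ l := (fun e => Xq0_4 (p.eq_comm'.1 e))
                        have Xn4_1 : p b ≠ l2 := (fun e => hl2b ((Xq1).symm.trans (p.eq_comm'.1 e)))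
                        have Xn4_2 : p b ≠ r := (fun e => Xq2_4 (p.eq_comm'.1 e))
                        have Xn4_3 : p b ≠ r2 := (fun e => hr2b ((Xq3).symm.trans (p.eq_comm'.1 e)))
                        exact case ![l, l2, r, r2, b, p l, p r, p b] (inj8 hll2 hlr hlr2 hlb (Ne.symm Xq0) (Ne.symm Xn2_0) (Ne.symm Xn4_0) hl2r hl2r2 hl2b (Ne.symm Xq0_1) (Ne.symm Xn2_1) (Ne.symm Xn4_1) hrr2 hrb (Ne.symm Xq0_2) (Ne.symm Xq2) (Ne.symm Xn4_2) hr2b (Ne.symm Xq0_3) (Ne.symm Xq2_3) (Ne.symm Xn4_3) (Ne.symm Xq0_4) (Ne.symm Xq2_4) (Ne.symm Xq4) (fun e => hlr (p.inj e)) (fun e => hlb (p.inj e)) (fun e => hrb (p.inj e))) P8_9 (by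
                          intro x; fin_cases x <;> simp [P8_9, Xq1, Xq3]) 0 1 2 3 4 (fun F => t109 h F) F
                    · by_cases Xq3_4 : p r2 = b
                      · have Xr4 : p b = r2 := p.eq_comm'.1 Xq3_4
                        have Xn2_0 : p r ≠ l := (fun e => Xq0_2 (p.eq_comm'.1 e))
                        have Xn2_1 : p r ≠ l2 := (fun e => hl2r ((Xq1).symm.trans (p.eq_comm'.1 e)))
                        exact case ![l, l2, r, r2, b, p l, p r] (inj7 hll2 hlr hlr2 hlb (Ne.symm Xq0) (Ne.symm Xn2_0) hl2r hl2r2 hl2b (Ne.symm Xq0_1) (Ne.symm Xn2_1) hrr2 hrb (Ne.symm Xq0_2) (Ne.symm Xq2) hr2b (Ne.symm Xq0_3) (Ne.symm Xq2_3) (Ne.symm Xq0_4) (Ne.symm Xq2_4) (fun e => hlr (p.inj e))) P7_29 (by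
                          intro x; fin_cases x <;> simp [P7_29, Xq1, Xq3_4, Xr4]) 0 1 2 3 4 (fun F => t110 h F) F
                      · by_cases Xq4 : p b = b
                        · have Xn2_0 : p r ≠ l := (fun e => Xq0_2 (p.eq_comm'.1 e))
                          have Xn2_1 : p r ≠ l2 := (fun e => hl2r ((Xq1).symm.trans (p.eq_comm'.1 e)))
                          have Xn3_0 : p r2 ≠ l := (fun e => Xq0_3 (p.eq_comm'.1 e))
                          have Xn3_1 : p r2 ≠ l2 := (fun e => hl2r2 ((Xq1).symm.trans (p.eq_comm'.1 e)))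
                          have Xn3_2 : p r2 ≠ r := (fun e => Xq2_3 (p.eq_comm'.1 e))
                          exact case ![l, l2, r, r2, b, p l, p r, p r2] (inj8 hll2 hlr hlr2 hlb (Ne.symm Xq0) (Ne.symm Xn2_0) (Ne.symm Xn3_0) hl2r hl2r2 hl2b (Ne.symm Xq0_1) (Ne.symm Xn2_1) (Ne.symm Xn3_1) hrr2 hrb (Ne.symm Xq0_2) (Ne.symm Xq2) (Ne.symm Xn3_2) hr2b (Ne.symm Xq0_3) (Ne.symm Xq2_3) (Ne.symm Xq3) (Ne.symm Xq0_4) (Ne.symm Xq2_4) (Ne.symm Xq3_4) (fun e => hlr (p.inj e)) (fun e => hlr2 (p.inj e)) (fun e => hrr2 (p.inj e))) P8_10 (by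
                            intro x; fin_cases x <;> simp [P8_10, Xq1, Xq4]) 0 1 2 3 4 (fun F => t111 h F) F
                        · have Xn2_0 : p r ≠ l := (fun e => Xq0_2 (p.eq_comm'.1 e))
                          have Xn2_1 : p r ≠ l2 := (fun e => hl2r ((Xq1).symm.trans (p.eq_comm'.1 e)))
                          have Xn3_0 : p r2 ≠ l := (fun e => Xq0_3 (p.eq_comm'.1 e))
                          have Xn3_1 : p r2 ≠ l2 := (fun e => hl2r2 ((Xq1).symm.trans (p.eq_comm'.1 e)))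
                          have Xn3_2 : p r2 ≠ r := (fun e => Xq2_3 (p.eq_comm'.1 e))
                          have Xn4_0 : p b ≠ l := (fun e => Xq0_4 (p.eq_comm'.1 e))
                          have Xn4_1 : p b ≠ l2 := (fun e => hl2b ((Xq1).symm.trans (p.eq_comm'.1 e)))
                          have Xn4_2 : p b ≠ r := (fun e => Xq2_4 (p.eq_comm'.1 e))
                          have Xn4_3 : p b ≠ r2 := (fun e => Xq3_4 (p.eq_comm'.1 e))
                          exact case ![l, l2, r, r2, b, p l, p r, p r2, p b] (inj9 hll2 hlr hlr2 hlb (Ne.symm Xq0) (Ne.symm Xn2_0) (Ne.symm Xn3_0) (Ne.symm Xn4_0) hl2r hl2r2 hl2b (Ne.symm Xq0_1) (Ne.symm Xn2_1) (Ne.symm Xn3_1) (Ne.symm Xn4_1) hrr2 hrb (Ne.symm Xq0_2) (Ne.symm Xq2) (Ne.symm Xn3_2) (Ne.symm Xn4_2) hr2b (Ne.symm Xq0_3) (Ne.symm Xq2_3) (Ne.symm Xq3) (Ne.symm Xn4_3) (Ne.symm Xq0_4) (Ne.symm Xq2_4) (Ne.symm Xq3_4) (Ne.symm Xq4) (fun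 e => hlr (p.inj e)) (fun e => hlr2 (p.inj e)) (fun e => hlb (p.inj e)) (fun e => hrr2 (p.inj e)) (fun e => hrb (p.inj e)) (fun e => hr2b (p.inj e))) P9_1 (by
                            intro x; fin_cases x <;> simp [P9_1, Xq1]) 0 1 2 3 4 (fun F => t112 h F) F
            · by_cases Xq1_2 : p l2 = r
              · have Xr2 : p r = l2 := p.eq_comm'.1 Xq1_2
                by_cases Xq3 : p r2 = r2
                · by_cases Xq4 : p b = b
                  · exact case ![l, l2, r, r2, b, p l] (inj6 hll2 hlr hlr2 hlb (Ne.symm Xq0) hl2r hl2r2 hl2b (Ne.symm Xq0_1) hrr2 hrb (Ne.symm Xq0_2) hr2b (Ne.symm Xq0_3) (Ne.symm Xq0_4)) P6_44 (by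
                      intro x; fin_cases x <;> simp [P6_44, Xq1_2, Xr2, Xq3, Xq4]) 0 1 2 3 4 (fun F => t113 h F) F
                  · have Xn4_0 : p b ≠ l := (fun e => Xq0_4 (p.eq_comm'.1 e))
                    have Xn4_1 : p b ≠ l2 := (fun e => hrb ((Xq1_2).symm.trans (p.eq_comm'.1 e)))
                    have Xn4_2 : p b ≠ r := (fun e => hl2b ((Xr2).symm.trans (p.eq_comm'.1 e)))
                    have Xn4_3 : p b ≠ r2 := (fun e => hr2b ((Xq3).symm.trans (p.eq_comm'.1 e)))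
                    exact case ![l, l2, r, r2, b, p l, p b] (inj7 hll2 hlr hlr2 hlb (Ne.symm Xq0) (Ne.symm Xn4_0) hl2r hl2r2 hl2b (Ne.symm Xq0_1) (Ne.symm Xn4_1) hrr2 hrb (Ne.symm Xq0_2) (Ne.symm Xn4_2) hr2b (Ne.symm Xq0_3) (Ne.symm Xn4_3) (Ne.symm Xq0_4) (Ne.symm Xq4) (fun e => hlb (p.inj e))) P7_30 (by
                      intro x; fin_cases x <;> simp [P7_30, Xq1_2, Xr2, Xq3]) 0 1 2 3 4 (fun F => t114 h F) F
                · by_cases Xq3_4 : p r2 = b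
                  · have Xr4 : p b = r2 := p.eq_comm'.1 Xq3_4
                    exact case ![l, l2, r, r2, b, p l] (inj6 hll2 hlr hlr2 hlb (Ne.symm Xq0) hl2r hl2r2 hl2b (Ne.symm Xq0_1) hrr2 hrb (Ne.symm Xq0_2) hr2b (Ne.symm Xq0_3) (Ne.symm Xq0_4)) P6_45 (by
                      intro x; fin_cases x <;> simp [P6_45, Xq1_2, Xr2, Xq3_4, Xr4]) 0 1 2 3 4 (fun F => t115 h F) F
                  · by_cases Xq4 : p b = b
                    · have Xn3_0 : p r2 ≠ l := (fun e => Xq0_3 (p.eq_comm'.1 e))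
                      have Xn3_1 : p r2 ≠ l2 := (fun e => hrr2 ((Xq1_2).symm.trans (p.eq_comm'.1 e)))
                      have Xn3_2 : p r2 ≠ r := (fun e => hl2r2 ((Xr2).symm.trans (p.eq_comm'.1 e)))
                      exact case ![l, l2, r, r2, b, p l, p r2] (inj7 hll2 hlr hlr2 hlb (Ne.symm Xq0) (Ne.symm Xn3_0) hl2r hl2r2 hl2b (Ne.symm Xq0_1) (Ne.symm Xn3_1) hrr2 hrb (Ne.symm Xq0_2) (Ne.symm Xn3_2) hr2b (Ne.symm Xq0_3) (Ne.symm Xq3) (Ne.symm Xq0_4) (Ne.symm Xq3_4) (fun e => hlr2 (p.inj e))) P7_31 (by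
                        intro x; fin_cases x <;> simp [P7_31, Xq1_2, Xr2, Xq4]) 0 1 2 3 4 (fun F => t116 h F) F
                    · have Xn3_0 : p r2 ≠ l := (fun e => Xq0_3 (p.eq_comm'.1 e))
                      have Xn3_1 : p r2 ≠ l2 := (fun e => hrr2 ((Xq1_2).symm.trans (p.eq_comm'.1 e)))
                      have Xn3_2 : p r2 ≠ r := (fun e => hl2r2 ((Xr2).symm.trans (p.eq_comm'.1 e)))
                      have Xn4_0 : p b ≠ l := (fun e => Xq0_4 (p.eq_comm'.1 e))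
                      have Xn4_1 : p b ≠ l2 := (fun e => hrb ((Xq1_2).symm.trans (p.eq_comm'.1 e)))
                      have Xn4_2 : p b ≠ r := (fun e => hl2b ((Xr2).symm.trans (p.eq_comm'.1 e)))
                      have Xn4_3 : p b ≠ r2 := (fun e => Xq3_4 (p.eq_comm'.1 e))
                      exact case ![l, l2, r, r2, b, p l, p r2, p b] (inj8 hll2 hlr hlr2 hlb (Ne.symm Xq0) (Ne.symm Xn3_0) (Ne.symm Xn4_0) hl2r hl2r2 hl2b (Ne.symm Xq0_1) (Ne.symm Xn3_1) (Ne.symm Xn4_1) hrr2 hrb (Ne.symm Xq0_2) (Ne.symm Xn3_2) (Ne.symm Xn4_2) hr2b (Ne.symm Xq0_3) (Ne.symm Xq3) (Ne.symm Xn4_3) (Ne.symm Xq0_4) (Ne.symm Xq3_4) (Ne.symm Xq4) (fun e => hlr2 (p.inj e)) (fun e => hlb (p.inj e)) (fun e => hr2b (p.inj e))) P8_11 (by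
                        intro x; fin_cases x <;> simp [P8_11, Xq1_2, Xr2]) 0 1 2 3 4 (fun F => t117 h F) F
              · by_cases Xq1_3 : p l2 = r2
                · have Xr3 : p r2 = l2 := p.eq_comm'.1 Xq1_3
                  by_cases Xq2 : p r = r
                  · by_cases Xq4 : p b = b
                    · exact case ![l, l2, r, r2, b, p l] (inj6 hll2 hlr hlr2 hlb (Ne.symm Xq0) hl2r hl2r2 hl2b (Ne.symm Xq0_1) hrr2 hrb (Ne.symm Xq0_2) hr2b (Ne.symm Xq0_3) (Ne.symm Xq0_4)) P6_46 (by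
                        intro x; fin_cases x <;> simp [P6_46, Xq1_3, Xq2, Xr3, Xq4]) 0 1 2 3 4 (fun F => t118 h F) F
                    · have Xn4_0 : p b ≠ l := (fun e => Xq0_4 (p.eq_comm'.1 e))
                      have Xn4_1 : p b ≠ l2 := (fun e => hr2b ((Xq1_3).symm.trans (p.eq_comm'.1 e)))
                      have Xn4_2 : p b ≠ r := (fun e => hrb ((Xq2).symm.trans (p.eq_comm'.1 e)))
                      have Xn4_3 : p b ≠ r2 := (fun e => hl2b ((Xr3).symm.trans (p.eq_comm'.1 e)))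
                      exact case ![l, l2, r, r2, b, p l, p b] (inj7 hll2 hlr hlr2 hlb (Ne.symm Xq0) (Ne.symm Xn4_0) hl2r hl2r2 hl2b (Ne.symm Xq0_1) (Ne.symm Xn4_1) hrr2 hrb (Ne.symm Xq0_2) (Ne.symm Xn4_2) hr2b (Ne.symm Xq0_3) (Ne.symm Xn4_3) (Ne.symm Xq0_4) (Ne.symm Xq4) (fun e => hlb (p.inj e))) P7_32 (by
                        intro x; fin_cases x <;> simp [P7_32, Xq1_3, Xq2, Xr3]) 0 1 2 3 4 (fun F => t119 h F) F
                  · by_cases Xq2_4 : p r = b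
                    · have Xr4 : p b = r := p.eq_comm'.1 Xq2_4
                      exact case ![l, l2, r, r2, b, p l] (inj6 hll2 hlr hlr2 hlb (Ne.symm Xq0) hl2r hl2r2 hl2b (Ne.symm Xq0_1) hrr2 hrb (Ne.symm Xq0_2) hr2b (Ne.symm Xq0_3) (Ne.symm Xq0_4)) P6_47 (by
                        intro x; fin_cases x <;> simp [P6_47, Xq1_3, Xq2_4, Xr3, Xr4]) 0 1 2 3 4 (fun F => t120 h F) F
                    · by_cases Xq4 : p b = b
                      · have Xn2_0 : p r ≠ l := (fun e => Xq0_2 (p.eq_comm'.1 e))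
                        have Xn2_1 : p r ≠ l2 := (fun e => (Ne.symm hrr2) ((Xq1_3).symm.trans (p.eq_comm'.1 e)))
                        have Xn2_3 : p r ≠ r2 := (fun e => hl2r ((Xr3).symm.trans (p.eq_comm'.1 e)))
                        exact case ![l, l2, r, r2, b, p l, p r] (inj7 hll2 hlr hlr2 hlb (Ne.symm Xq0) (Ne.symm Xn2_0) hl2r hl2r2 hl2b (Ne.symm Xq0_1) (Ne.symm Xn2_1) hrr2 hrb (Ne.symm Xq0_2) (Ne.symm Xq2) hr2b (Ne.symm Xq0_3) (Ne.symm Xn2_3) (Ne.symm Xq0_4) (Ne.symm Xq2_4) (fun e => hlr (p.inj e))) P7_33 (by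
                          intro x; fin_cases x <;> simp [P7_33, Xq1_3, Xr3, Xq4]) 0 1 2 3 4 (fun F => t121 h F) F
                      · have Xn2_0 : p r ≠ l := (fun e => Xq0_2 (p.eq_comm'.1 e))
                        have Xn2_1 : p r ≠ l2 := (fun e => (Ne.symm hrr2) ((Xq1_3).symm.trans (p.eq_comm'.1 e)))
                        have Xn2_3 : p r ≠ r2 := (fun e => hl2r ((Xr3).symm.trans (p.eq_comm'.1 e)))
                        have Xn4_0 : p b ≠ l := (fun e => Xq0_4 (p.eq_comm'.1 e))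
                        have Xn4_1 : p b ≠ l2 := (fun e => hr2b ((Xq1_3).symm.trans (p.eq_comm'.1 e)))
                        have Xn4_2 : p b ≠ r := (fun e => Xq2_4 (p.eq_comm'.1 e))
                        have Xn4_3 : p b ≠ r2 := (fun e => hl2b ((Xr3).symm.trans (p.eq_comm'.1 e)))
                        exact case ![l, l2, r, r2, b, p l, p r, p b] (inj8 hll2 hlr hlr2 hlb (Ne.symm Xq0) (Ne.symm Xn2_0) (Ne.symm Xn4_0) hl2r hl2r2 hl2b (Ne.symm Xq0_1) (Ne.symm Xn2_1) (Ne.symm Xn4_1) hrr2 hrb (Ne.symm Xq0_2) (Ne.symm Xq2) (Ne.symm Xn4_2) hr2b (Ne.symm Xq0_3) (Ne.symm Xn2_3) (Ne.symm Xn4_3) (Ne.symm Xq0_4) (Ne.symm Xq2_4) (Ne.symm Xq4) (fun e => hlr (p.inj e)) (fun e => hlb (p.inj e)) (fun e => hrb (p.inj e))) P8_12 (by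
                          intro x; fin_cases x <;> simp [P8_12, Xq1_3, Xr3]) 0 1 2 3 4 (fun F => t122 h F) F
                · by_cases Xq1_4 : p l2 = b
                  · have Xr4 : p b = l2 := p.eq_comm'.1 Xq1_4
                    by_cases Xq2 : p r = r
                    · by_cases Xq3 : p r2 = r2
                      · exact case ![l, l2, r, r2, b, p l] (inj6 hll2 hlr hlr2 hlb (Ne.symm Xq0) hl2r hl2r2 hl2b (Ne.symm Xq0_1) hrr2 hrb (Ne.symm Xq0_2) hr2b (Ne.symm Xq0_3) (Ne.symm Xq0_4)) P6_48 (by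
                          intro x; fin_cases x <;> simp [P6_48, Xq1_4, Xq2, Xq3, Xr4]) 0 1 2 3 4 (fun F => t123 h F) F
                      · have Xn3_0 : p r2 ≠ l := (fun e => Xq0_3 (p.eq_comm'.1 e))
                        have Xn3_1 : p r2 ≠ l2 := (fun e => (Ne.symm hr2b) ((Xq1_4).symm.trans (p.eq_comm'.1 e)))
                        have Xn3_2 : p r2 ≠ r := (fun e => hrr2 ((Xq2).symm.trans (p.eq_comm'.1 e)))
                        have Xn3_4 : p r2 ≠ b := (fun e => hl2r2 ((Xr4).symm.trans (p.eq_comm'.1 e)))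
                        exact case ![l, l2, r, r2, b, p l, p r2] (inj7 hll2 hlr hlr2 hlb (Ne.symm Xq0) (Ne.symm Xn3_0) hl2r hl2r2 hl2b (Ne.symm Xq0_1) (Ne.symm Xn3_1) hrr2 hrb (Ne.symm Xq0_2) (Ne.symm Xn3_2) hr2b (Ne.symm Xq0_3) (Ne.symm Xq3) (Ne.symm Xq0_4) (Ne.symm Xn3_4) (fun e => hlr2 (p.inj e))) P7_34 (by
                          intro x; fin_cases x <;> simp [P7_34, Xq1_4, Xq2, Xr4]) 0 1 2 3 4 (fun F => t124 h F) F
                    · by_cases Xq2_3 : p r = r2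
                      · have Xr3 : p r2 = r := p.eq_comm'.1 Xq2_3
                        exact case ![l, l2, r, r2, b, p l] (inj6 hll2 hlr hlr2 hlb (Ne.symm Xq0) hl2r hl2r2 hl2b (Ne.symm Xq0_1) hrr2 hrb (Ne.symm Xq0_2) hr2b (Ne.symm Xq0_3) (Ne.symm Xq0_4)) P6_49 (by
                          intro x; fin_cases x <;> simp [P6_49, Xq1_4, Xq2_3, Xr3, Xr4]) 0 1 2 3 4 (fun F => t125 h F) F
                      · by_cases Xq3 : p r2 = r2
                        · have Xn2_0 : p r ≠ l := (fun e => Xq0_2 (p.eq_comm'.1 e))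
                          have Xn2_1 : p r ≠ l2 := (fun e => (Ne.symm hrb) ((Xq1_4).symm.trans (p.eq_comm'.1 e)))
                          have Xn2_4 : p r ≠ b := (fun e => hl2r ((Xr4).symm.trans (p.eq_comm'.1 e)))
                          exact case ![l, l2, r, r2, b, p l, p r] (inj7 hll2 hlr hlr2 hlb (Ne.symm Xq0) (Ne.symm Xn2_0) hl2r hl2r2 hl2b (Ne.symm Xq0_1) (Ne.symm Xn2_1) hrr2 hrb (Ne.symm Xq0_2) (Ne.symm Xq2) hr2b (Ne.symm Xq0_3) (Ne.symm Xq2_3) (Ne.symm Xq0_4) (Ne.symm Xn2_4) (fun e => hlr (p.inj e))) P7_35 (by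
                            intro x; fin_cases x <;> simp [P7_35, Xq1_4, Xq3, Xr4]) 0 1 2 3 4 (fun F => t126 h F) F
                        · have Xn2_0 : p r ≠ l := (fun e => Xq0_2 (p.eq_comm'.1 e))
                          have Xn2_1 : p r ≠ l2 := (fun e => (Ne.symm hrb) ((Xq1_4).symm.trans (p.eq_comm'.1 e)))
                          have Xn2_4 : p r ≠ b := (fun e => hl2r ((Xr4).symm.trans (p.eq_comm'.1 e)))
                          have Xn3_0 : p r2 ≠ l := (fun e => Xq0_3 (p.eq_comm'.1 e))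
                          have Xn3_1 : p r2 ≠ l2 := (fun e => (Ne.symm hr2b) ((Xq1_4).symm.trans (p.eq_comm'.1 e)))
                          have Xn3_2 : p r2 ≠ r := (fun e => Xq2_3 (p.eq_comm'.1 e))
                          have Xn3_4 : p r2 ≠ b := (fun e => hl2r2 ((Xr4).symm.trans (p.eq_comm'.1 e)))
                          exact case ![l, l2, r, r2, b, p l, p r, p r2] (inj8 hll2 hlr hlr2 hlb (Ne.symm Xq0) (Ne.symm Xn2_0) (Ne.symm Xn3_0) hl2r hl2r2 hl2b (Ne.symm Xq0_1) (Ne.symm Xn2_1) (Ne.symm Xn3_1) hrr2 hrb (Ne.symm Xq0_2) (Ne.symm Xq2) (Ne.symm Xn3_2) hr2b (Ne.symm Xq0_3) (Ne.symm Xq2_3) (Ne.symm Xq3) (Ne.symm Xq0_4) (Ne.symm Xn2_4) (Ne.symm Xn3_4) (fun e => hlr (p.inj e)) (fun e => hlr2 (p.inj e)) (fun e => hrr2 (p.inj e))) P8_13 (by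
                            intro x; fin_cases x <;> simp [P8_13, Xq1_4, Xr4]) 0 1 2 3 4 (fun F => t127 h F) F
                  · by_cases Xq2 : p r = r
                    · by_cases Xq3 : p r2 = r2
                      · by_cases Xq4 : p b = b
                        · have Xn1_0 : p l2 ≠ l := (fun e => Xq0_1 (p.eq_comm'.1 e))
                          exact case ![l, l2, r, r2, b, p l, p l2] (inj7 hll2 hlr hlr2 hlb (Ne.symm Xq0) (Ne.symm Xn1_0) hl2r hl2r2 hl2b (Ne.symm Xq0_1) (Ne.symm Xq1) hrr2 hrb (Ne.symm Xq0_2) (Ne.symm Xq1_2) hr2b (Ne.symm Xq0_3) (Ne.symm Xq1_3) (Ne.symm Xq0_4) (Ne.symm Xq1_4) (fun e => hll2 (p.inj e))) P7_36 (by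
                            intro x; fin_cases x <;> simp [P7_36, Xq2, Xq3, Xq4]) 0 1 2 3 4 (fun F => t128 h F) F
                        · have Xn1_0 : p l2 ≠ l := (fun e => Xq0_1 (p.eq_comm'.1 e))
                          have Xn4_0 : p b ≠ l := (fun e => Xq0_4 (p.eq_comm'.1 e))
                          have Xn4_1 : p b ≠ l2 := (fun e => Xq1_4 (p.eq_comm'.1 e))
                          have Xn4_2 : p b ≠ r := (fun e => hrb ((Xq2).symm.trans (p.eq_comm'.1 e)))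
                          have Xn4_3 : p b ≠ r2 := (fun e => hr2b ((Xq3).symm.trans (p.eq_comm'.1 e)))
                          exact case ![l, l2, r, r2, b, p l, p l2, p b] (inj8 hll2 hlr hlr2 hlb (Ne.symm Xq0) (Ne.symm Xn1_0) (Ne.symm Xn4_0) hl2r hl2r2 hl2b (Ne.symm Xq0_1) (Ne.symm Xq1) (Ne.symm Xn4_1) hrr2 hrb (Ne.symm Xq0_2) (Ne.symm Xq1_2) (Ne.symm Xn4_2) hr2b (Ne.symm Xq0_3) (Ne.symm Xq1_3) (Ne.symm Xn4_3) (Ne.symm Xq0_4) (Ne.symm Xq1_4) (Ne.symm Xq4) (fun e => hll2 (p.inj e)) (fun e => hlb (p.inj e)) (fun e => hl2b (p.inj e))) P8_14 (by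
                            intro x; fin_cases x <;> simp [P8_14, Xq2, Xq3]) 0 1 2 3 4 (fun F => t129 h F) F
                      · by_cases Xq3_4 : p r2 = b
                        · have Xr4 : p b = r2 := p.eq_comm'.1 Xq3_4
                          have Xn1_0 : p l2 ≠ l := (fun e => Xq0_1 (p.eq_comm'.1 e))
                          exact case ![l, l2, r, r2, b, p l, p l2] (inj7 hll2 hlr hlr2 hlb (Ne.symm Xq0) (Ne.symm Xn1_0) hl2r hl2r2 hl2b (Ne.symm Xq0_1) (Ne.symm Xq1) hrr2 hrb (Ne.symm Xq0_2) (Ne.symm Xq1_2) hr2b (Ne.symm Xq0_3) (Ne.symm Xq1_3) (Ne.symm Xq0_4) (Ne.symm Xq1_4) (fun e => hll2 (p.inj e))) P7_37 (by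
                            intro x; fin_cases x <;> simp [P7_37, Xq2, Xq3_4, Xr4]) 0 1 2 3 4 (fun F => t130 h F) F
                        · by_cases Xq4 : p b = b
                          · have Xn1_0 : p l2 ≠ l := (fun e => Xq0_1 (p.eq_comm'.1 e))
                            have Xn3_0 : p r2 ≠ l := (fun e => Xq0_3 (p.eq_comm'.1 e))
                            have Xn3_1 : p r2 ≠ l2 := (fun e => Xq1_3 (p.eq_comm'.1 e))
                            have Xn3_2 : p r2 ≠ r := (fun e => hrr2 ((Xq2).symm.trans (p.eq_comm'.1 e)))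
                            exact case ![l, l2, r, r2, b, p l, p l2, p r2] (inj8 hll2 hlr hlr2 hlb (Ne.symm Xq0) (Ne.symm Xn1_0) (Ne.symm Xn3_0) hl2r hl2r2 hl2b (Ne.symm Xq0_1) (Ne.symm Xq1) (Ne.symm Xn3_1) hrr2 hrb (Ne.symm Xq0_2) (Ne.symm Xq1_2) (Ne.symm Xn3_2) hr2b (Ne.symm Xq0_3) (Ne.symm Xq1_3) (Ne.symm Xq3) (Ne.symm Xq0_4) (Ne.symm Xq1_4) (Ne.symm Xq3_4) (fun e => hll2 (p.inj e)) (fun e => hlr2 (p.inj e)) (fun e => hl2r2 (p.inj e))) P8_15 (by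
                              intro x; fin_cases x <;> simp [P8_15, Xq2, Xq4]) 0 1 2 3 4 (fun F => t131 h F) F
                          · have Xn1_0 : p l2 ≠ l := (fun e => Xq0_1 (p.eq_comm'.1 e))
                            have Xn3_0 : p r2 ≠ l := (fun e => Xq0_3 (p.eq_comm'.1 e))
                            have Xn3_1 : p r2 ≠ l2 := (fun e => Xq1_3 (p.eq_comm'.1 e))
                            have Xn3_2 : p r2 ≠ r := (fun e => hrr2 ((Xq2).symm.trans (p.eq_comm'.1 e)))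
                            have Xn4_0 : p b ≠ l := (fun e => Xq0_4 (p.eq_comm'.1 e))
                            have Xn4_1 : p b ≠ l2 := (fun e => Xq1_4 (p.eq_comm'.1 e))
                            have Xn4_2 : p b ≠ r := (fun e => hrb ((Xq2).symm.trans (p.eq_comm'.1 e)))
                            have Xn4_3 : p b ≠ r2 := (fun e => Xq3_4 (p.eq_comm'.1 e))
                            exact case ![l, l2, r, r2, b, p l, p l2, p r2, p b] (inj9 hll2 hlr hlr2 hlb (Ne.symm Xq0) (Ne.symm Xn1_0) (Ne.symm Xn3_0) (Ne.symm Xn4_0) hl2r hl2r2 hl2b (Ne.symm Xq0_1) (Ne.symm Xq1) (Ne.symm Xn3_1) (Ne.symm Xn4_1) hrr2 hrb (Ne.symm Xq0_2) (Ne.symm Xq1_2) (Ne.symm Xn3_2) (Ne.symm Xn4_2) hr2b (Ne.symm Xq0_3) (Ne.symm Xq1_3) (Ne.symm Xq3) (Ne.symm Xn4_3) (Ne.symm Xq0_4) (Ne.symm Xq1_4) (Ne.symm Xq3_4) (Ne.symm Xq4) (fun e => hll2 (p.inj e)) (fun e => hlr2 (p.inj e)) (fun e => hlb (p.inj e)) (fun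 e => hl2r2 (p.inj e)) (fun e => hl2b (p.inj e)) (fun e => hr2b (p.inj e))) P9_2 (by
                              intro x; fin_cases x <;> simp [P9_2, Xq2]) 0 1 2 3 4 (fun F => t132 h F) F
                    · by_cases Xq2_3 : p r = r2
                      · have Xr3 : p r2 = r := p.eq_comm'.1 Xq2_3
                        by_cases Xq4 : p b = b
                        · have Xn1_0 : p l2 ≠ l := (fun e => Xq0_1 (p.eq_comm'.1 e))
                          exact case ![l, l2, r, r2, b, p l, p l2] (inj7 hll2 hlr hlr2 hlb (Ne.symm Xq0) (Ne.symm Xn1_0) hl2r hl2r2 hl2b (Ne.symm Xq0_1) (Ne.symm Xq1) hrr2 hrb (Ne.symm Xq0_2) (Ne.symm Xq1_2) hr2b (Ne.symm Xq0_3) (Ne.symm Xq1_3) (Ne.symm Xq0_4) (Ne.symm Xq1_4) (fun e => hll2 (p.inj e))) P7_38 (by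
                            intro x; fin_cases x <;> simp [P7_38, Xq2_3, Xr3, Xq4]) 0 1 2 3 4 (fun F => t133 h F) F
                        · have Xn1_0 : p l2 ≠ l := (fun e => Xq0_1 (p.eq_comm'.1 e))
                          have Xn4_0 : p b ≠ l := (fun e => Xq0_4 (p.eq_comm'.1 e))
                          have Xn4_1 : p b ≠ l2 := (fun e => Xq1_4 (p.eq_comm'.1 e))
                          have Xn4_2 : p b ≠ r := (fun e => hr2b ((Xq2_3).symm.trans (p.eq_comm'.1 e)))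
                          have Xn4_3 : p b ≠ r2 := (fun e => hrb ((Xr3).symm.trans (p.eq_comm'.1 e)))
                          exact case ![l, l2, r, r2, b, p l, p l2, p b] (inj8 hll2 hlr hlr2 hlb (Ne.symm Xq0) (Ne.symm Xn1_0) (Ne.symm Xn4_0) hl2r hl2r2 hl2b (Ne.symm Xq0_1) (Ne.symm Xq1) (Ne.symm Xn4_1) hrr2 hrb (Ne.symm Xq0_2) (Ne.symm Xq1_2) (Ne.symm Xn4_2) hr2b (Ne.symm Xq0_3) (Ne.symm Xq1_3) (Ne.symm Xn4_3) (Ne.symm Xq0_4) (Ne.symm Xq1_4) (Ne.symm Xq4) (fun e => hll2 (p.inj e)) (fun e => hlb (p.inj e)) (fun e => hl2b (p.inj e))) P8_16 (by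
                            intro x; fin_cases x <;> simp [P8_16, Xq2_3, Xr3]) 0 1 2 3 4 (fun F => t134 h F) F
                      · by_cases Xq2_4 : p r = b
                        · have Xr4 : p b = r := p.eq_comm'.1 Xq2_4
                          by_cases Xq3 : p r2 = r2
                          · have Xn1_0 : p l2 ≠ l := (fun e => Xq0_1 (p.eq_comm'.1 e))
                            exact case ![l, l2, r, r2, b, p l, p l2] (inj7 hll2 hlr hlr2 hlb (Ne.symm Xq0) (Ne.symm Xn1_0) hl2r hl2r2 hl2b (Ne.symm Xq0_1) (Ne.symm Xq1) hrr2 hrb (Ne.symm Xq0_2) (Ne.symm Xq1_2) hr2b (Ne.symm Xq0_3) (Ne.symm Xq1_3) (Ne.symm Xq0_4) (Ne.symm Xq1_4) (fun e => hll2 (p.inj e))) P7_39 (by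
                              intro x; fin_cases x <;> simp [P7_39, Xq2_4, Xq3, Xr4]) 0 1 2 3 4 (fun F => t135 h F) F
                          · have Xn1_0 : p l2 ≠ l := (fun e => Xq0_1 (p.eq_comm'.1 e))
                            have Xn3_0 : p r2 ≠ l := (fun e => Xq0_3 (p.eq_comm'.1 e))
                            have Xn3_1 : p r2 ≠ l2 := (fun e => Xq1_3 (p.eq_comm'.1 e))
                            have Xn3_2 : p r2 ≠ r := (fun e => (Ne.symm hr2b) ((Xq2_4).symm.trans (p.eq_comm'.1 e)))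
                            have Xn3_4 : p r2 ≠ b := (fun e => hrr2 ((Xr4).symm.trans (p.eq_comm'.1 e)))
                            exact case ![l, l2, r, r2, b, p l, p l2, p r2] (inj8 hll2 hlr hlr2 hlb (Ne.symm Xq0) (Ne.symm Xn1_0) (Ne.symm Xn3_0) hl2r hl2r2 hl2b (Ne.symm Xq0_1) (Ne.symm Xq1) (Ne.symm Xn3_1) hrr2 hrb (Ne.symm Xq0_2) (Ne.symm Xq1_2) (Ne.symm Xn3_2) hr2b (Ne.symm Xq0_3) (Ne.symm Xq1_3) (Ne.symm Xq3) (Ne.symm Xq0_4) (Ne.symm Xq1_4) (Ne.symm Xn3_4) (fun e => hll2 (p.inj e)) (fun e => hlr2 (p.inj e)) (fun e => hl2r2 (p.inj e))) P8_17 (by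
                              intro x; fin_cases x <;> simp [P8_17, Xq2_4, Xr4]) 0 1 2 3 4 (fun F => t136 h F) F
                        · by_cases Xq3 : p r2 = r2
                          · by_cases Xq4 : p b = b
                            · have Xn1_0 : p l2 ≠ l := (fun e => Xq0_1 (p.eq_comm'.1 e))
                              have Xn2_0 : p r ≠ l := (fun e => Xq0_2 (p.eq_comm'.1 e))
                              have Xn2_1 : p r ≠ l2 := (fun e => Xq1_2 (p.eq_comm'.1 e))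
                              exact case ![l, l2, r, r2, b, p l, p l2, p r] (inj8 hll2 hlr hlr2 hlb (Ne.symm Xq0) (Ne.symm Xn1_0) (Ne.symm Xn2_0) hl2r hl2r2 hl2b (Ne.symm Xq0_1) (Ne.symm Xq1) (Ne.symm Xn2_1) hrr2 hrb (Ne.symm Xq0_2) (Ne.symm Xq1_2) (Ne.symm Xq2) hr2b (Ne.symm Xq0_3) (Ne.symm Xq1_3) (Ne.symm Xq2_3) (Ne.symm Xq0_4) (Ne.symm Xq1_4) (Ne.symm Xq2_4) (fun e => hll2 (p.inj e)) (fun e => hlr (p.inj e)) (fun e => hl2r (p.inj e))) P8_18 (by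
                                intro x; fin_cases x <;> simp [P8_18, Xq3, Xq4]) 0 1 2 3 4 (fun F => t137 h F) F
                            · have Xn1_0 : p l2 ≠ l := (fun e => Xq0_1 (p.eq_comm'.1 e))
                              have Xn2_0 : p r ≠ l := (fun e => Xq0_2 (p.eq_comm'.1 e))
                              have Xn2_1 : p r ≠ l2 := (fun e => Xq1_2 (p.eq_comm'.1 e))
                              have Xn4_0 : p b ≠ l := (fun e => Xq0_4 (p.eq_comm'.1 e))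
                              have Xn4_1 : p b ≠ l2 := (fun e => Xq1_4 (p.eq_comm'.1 e))
                              have Xn4_2 : p b ≠ r := (fun e => Xq2_4 (p.eq_comm'.1 e))
                              have Xn4_3 : p b ≠ r2 := (fun e => hr2b ((Xq3).symm.trans (p.eq_comm'.1 e)))
                              exact case ![l, l2, r, r2, b, p l, p l2, p r, p b] (inj9 hll2 hlr hlr2 hlb (Ne.symm Xq0) (Ne.symm Xn1_0) (Ne.symm Xn2_0) (Ne.symm Xn4_0) hl2r hl2r2 hl2b (Ne.symm Xq0_1) (Ne.symm Xq1) (Ne.symm Xn2_1) (Ne.symm Xn4_1) hrr2 hrb (Ne.symm Xq0_2) (Ne.symm Xq1_2) (Ne.symm Xq2) (Ne.symm Xn4_2) hr2b (Ne.symm Xq0_3) (Ne.symm Xq1_3) (Ne.symm Xq2_3) (Ne.symm Xn4_3) (Ne.symm Xq0_4) (Ne.symm Xq1_4) (Ne.symm Xq2_4) (Ne.symm Xq4) (fun e => hll2 (p.inj e)) (fun e => hlr (p.inj e)) (fun e => hlb (p.inj e)) (fun e => hl2r (p.inj e)) (fun e => hl2b (p.inj e)) (fun e => hrb (p.inj e))) P9_3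 (by
                                intro x; fin_cases x <;> simp [P9_3, Xq3]) 0 1 2 3 4 (fun F => t138 h F) F
                          · by_cases Xq3_4 : p r2 = b
                            · have Xr4 : p b = r2 := p.eq_comm'.1 Xq3_4
                              have Xn1_0 : p l2 ≠ l := (fun e => Xq0_1 (p.eq_comm'.1 e))
                              have Xn2_0 : p r ≠ l := (fun e => Xq0_2 (p.eq_comm'.1 e))
                              have Xn2_1 : p r ≠ l2 := (fun e => Xq1_2 (p.eq_comm'.1 e))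
                              exact case ![l, l2, r, r2, b, p l, p l2, p r] (inj8 hll2 hlr hlr2 hlb (Ne.symm Xq0) (Ne.symm Xn1_0) (Ne.symm Xn2_0) hl2r hl2r2 hl2b (Ne.symm Xq0_1) (Ne.symm Xq1) (Ne.symm Xn2_1) hrr2 hrb (Ne.symm Xq0_2) (Ne.symm Xq1_2) (Ne.symm Xq2) hr2b (Ne.symm Xq0_3) (Ne.symm Xq1_3) (Ne.symm Xq2_3) (Ne.symm Xq0_4) (Ne.symm Xq1_4) (Ne.symm Xq2_4) (fun e => hll2 (p.inj e)) (fun e => hlr (p.inj e)) (fun e => hl2r (p.inj e))) P8_19 (by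
                                intro x; fin_cases x <;> simp [P8_19, Xq3_4, Xr4]) 0 1 2 3 4 (fun F => t139 h F) F
                            · by_cases Xq4 : p b = b
                              · have Xn1_0 : p l2 ≠ l := (fun e => Xq0_1 (p.eq_comm'.1 e))
                                have Xn2_0 : p r ≠ l := (fun e => Xq0_2 (p.eq_comm'.1 e))
                                have Xn2_1 : p r ≠ l2 := (fun e => Xq1_2 (p.eq_comm'.1 e))
                                have Xn3_0 : p r2 ≠ l := (fun e => Xq0_3 (p.eq_comm'.1 e))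
                                have Xn3_1 : p r2 ≠ l2 := (fun e => Xq1_3 (p.eq_comm'.1 e))
                                have Xn3_2 : p r2 ≠ r := (fun e => Xq2_3 (p.eq_comm'.1 e))
                                exact case ![l, l2, r, r2, b, p l, p l2, p r, p r2] (inj9 hll2 hlr hlr2 hlb (Ne.symm Xq0) (Ne.symm Xn1_0) (Ne.symm Xn2_0) (Ne.symm Xn3_0) hl2r hl2r2 hl2b (Ne.symm Xq0_1) (Ne.symm Xq1) (Ne.symm Xn2_1) (Ne.symm Xn3_1) hrr2 hrb (Ne.symm Xq0_2) (Ne.symm Xq1_2) (Ne.symm Xq2) (Ne.symm Xn3_2) hr2b (Ne.symm Xq0_3) (Ne.symm Xq1_3) (Ne.symm Xq2_3) (Ne.symm Xq3) (Ne.symm Xq0_4) (Ne.symm Xq1_4) (Ne.symm Xq2_4) (Ne.symm Xq3_4) (fun e => hll2 (p.inj e)) (fun e => hlr (p.inj e)) (fun e => hlr2 (p.inj e)) (fun e => hl2r (p.inj e)) (fun e => hl2r2 (p.inj e)) (fun e => hrr2 (p.inj e))) P9_4 (by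
                                  intro x; fin_cases x <;> simp [P9_4, Xq4]) 0 1 2 3 4 (fun F => t140 h F) F
                              · have Xn1_0 : p l2 ≠ l := (fun e => Xq0_1 (p.eq_comm'.1 e))
                                have Xn2_0 : p r ≠ l := (fun e => Xq0_2 (p.eq_comm'.1 e))
                                have Xn2_1 : p r ≠ l2 := (fun e => Xq1_2 (p.eq_comm'.1 e))
                                have Xn3_0 : p r2 ≠ l := (fun e => Xq0_3 (p.eq_comm'.1 e))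
                                have Xn3_1 : p r2 ≠ l2 := (fun e => Xq1_3 (p.eq_comm'.1 e))
                                have Xn3_2 : p r2 ≠ r := (fun e => Xq2_3 (p.eq_comm'.1 e))
                                have Xn4_0 : p b ≠ l := (fun e => Xq0_4 (p.eq_comm'.1 e))
                                have Xn4_1 : p b ≠ l2 := (fun e => Xq1_4 (p.eq_comm'.1 e))
                                have Xn4_2 : p b ≠ r := (fun e => Xq2_4 (p.eq_comm'.1 e))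
                                have Xn4_3 : p b ≠ r2 := (fun e => Xq3_4 (p.eq_comm'.1 e))
                                exact case ![l, l2, r, r2, b, p l, p l2, p r, p r2, p b] (inj10 hll2 hlr hlr2 hlb (Ne.symm Xq0) (Ne.symm Xn1_0) (Ne.symm Xn2_0) (Ne.symm Xn3_0) (Ne.symm Xn4_0) hl2r hl2r2 hl2b (Ne.symm Xq0_1) (Ne.symm Xq1) (Ne.symm Xn2_1) (Ne.symm Xn3_1) (Ne.symm Xn4_1) hrr2 hrb (Ne.symm Xq0_2) (Ne.symm Xq1_2) (Ne.symm Xq2) (Ne.symm Xn3_2) (Ne.symm Xn4_2) hr2b (Ne.symm Xq0_3) (Ne.symm Xq1_3) (Ne.symm Xq2_3) (Ne.symm Xq3) (Ne.symm Xn4_3) (Ne.symm Xq0_4) (Ne.symm Xq1_4) (Ne.symm Xq2_4) (Ne.symm Xq3_4) (Ne.symm Xq4) (fun e => hll2 (p.inj e)) (fun e => hlr (p.inj e)) (fun e => hlr2 (p.inj e)) (fun e => hlb (p.inj e)) (fun e => hl2r (p.inj e)) (fun e => hl2r2 (p.inj e)) (fun e => hl2b (p.inj e)) (fun e => hrr2 (p.inj e)) (fun e => hrb (p.inj e)) (fun e => hr2b (p.inj e))) P10_0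 (by
                                  intro x; fin_cases x <;> simp [P10_0]) 0 1 2 3 4 (fun F => t141 h F) F

end Pool.Agent.EXL.FI
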