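import Pool.Agent.EXL.Ops

/-!
# R(2l) = Y Yt

Generated file (local identity R2).
-/

set_option maxRecDepth 4000
set_option linter.all false

namespace Pool.Agent.EXL.R2

open Pool.Agent.EXL Pool.Agent.EXL.Pat

variable {α K : Type*} [DecidableEq α] [CommRing K]

/-- The scalar equations. -/
structure Eqs (w : Wt K) (x : K) : Prop where
  e1 : w.u2 - x = 0
  e2 : w.v - x * x = 0
  e3 : w.u1 - x * x = 0
  e4 : w.w1 = 0
  e5 : w.w2 - x * x = 0

def P2_0 : Pat (Fin 2) := ⟨![0, 1], by decide⟩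
def P2_1 : Pat (Fin 2) := ⟨![1, 0], by decide⟩
def P3_0 : Pat (Fin 3) := ⟨![0, 2, 1], by decide⟩
def P3_1 : Pat (Fin 3) := ⟨![2, 1, 0], by decide⟩
def P4_0 : Pat (Fin 4) := ⟨![2, 3, 0, 1], by decide⟩
def P4_1 : Pat (Fin 4) := ⟨![3, 2, 1, 0], by decide⟩
def P4_2 : Pat (Fin 4) := ⟨![0, 1, 3, 2], by decide⟩
def P4_3 : Pat (Fin 4) := ⟨![1, 0, 3, 2], by decide⟩

theorem ev0 (w : Wt K) (F : Pat (Fin 2) → K) :
    R w 0 1 F P2_0 = F P2_0 + w.u2 * F P2_1 :=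
  R_e (by decide) (by decide) (by decide)

theorem ev1 (x : K) (F : Pat (Fin 2) → K) :
    Yt x 0 1 F P2_0 = F P2_0 :=
  Yt_0 (by decide) (by decide)

theorem ev2 (x : K) (F : Pat (Fin 2) → K) :
    Y x 0 1 F P2_0 = F P2_0 + x * F P2_1 :=
  Y_0 (by decide) (by decide) (by decide)

theorem ev3 (w : Wt K) (F : Pat (Fin 3) → K) :
    R w 0 1 F P3_0 = w.v * F P3_0 + w.u1 * F P3_1 :=
  R_r (by decide) (by decide) (by decide)

theorem ev4 (x : K) (F : Pat (Fin 3) → K) :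
    Yt x 0 1 F P3_0 = x * F P3_1 :=
  Yt_2 (by decide) (by decide) (by decide)

theorem ev5 (x : K) (F : Pat (Fin 3) → K) :
    Y x 0 1 F P3_1 = x * F P3_1 + x * F P3_0 :=
  Y_1 (by decide) (by decide) (by decide)

theorem ev6 (w : Wt K) (F : Pat (Fin 2) → K) :
    R w 0 1 F P2_1 = w.w1 * F P2_1 :=
  R_p (by decide) (by decide)

theorem ev7 (x : K) (F : Pat (Fin 2) → K) :
    Yt x 0 1 F P2_1 = 0 :=
  Yt_z (by decide) (by decide)

theorem ev8 (w : Wt K) (F : Pat (Fin 3) → K) :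
    R w 0 1 F P3_1 = w.v * F P3_1 + w.u1 * F P3_0 :=
  R_l (by decide) (by decide) (by decide)

theorem ev9 (x : K) (F : Pat (Fin 3) → K) :
    Yt x 0 1 F P3_1 = x * F P3_1 :=
  Yt_1 (by decide) (by decide)

theorem ev10 (w : Wt K) (F : Pat (Fin 4) → K) :
    R w 0 1 F P4_0 = w.w1 * F P4_1 + w.u2 * F P4_2 + w.w2 * F P4_3 :=
  R_d (by decide) (by decide) (by decide) (by decide) (by decide) (by decide)

theorem ev11 (x : K) (F : Pat (Fin 4) → K) :
    Yt x 0 1 F P4_0 = x * F P4_2 :=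
  Yt_3 (by decide) (by decide) (by decide) (by decide)

theorem ev12 (x : K) (F : Pat (Fin 4) → K) :
    Y x 0 1 F P4_2 = F P4_2 + x * F P4_3 :=
  Y_0 (by decide) (by decide) (by decide)

theorem t0 {w : Wt K} {x : K} (h : Eqs w x) (F : Pat (Fin 2) → K) :
    R w 0 1 F P2_0 = Yt x 0 1 (Y x 0 1 F) P2_0 := by
  simp only [ev0, ev1, ev2] <;>
  linear_combination F P2_1 * h.e1

theorem t1 {w : Wt K} {x : K} (h : Eqs w x) (F : Pat (Fin 3) → K) :
    R w 0 1 F P3_0 = Yt x 0 1 (Y x 0 1 F) P3_0 := by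
  simp only [ev3, ev4, ev5] <;>
  linear_combination F P3_0 * h.e2 + F P3_1 * h.e3

theorem t2 {w : Wt K} {x : K} (h : Eqs w x) (F : Pat (Fin 2) → K) :
    R w 0 1 F P2_1 = Yt x 0 1 (Y x 0 1 F) P2_1 := by
  simp only [ev6, ev7] <;>
  linear_combination F P2_1 * h.e4

theorem t3 {w : Wt K} {x : K} (h : Eqs w x) (F : Pat (Fin 3) → K) :
    R w 0 1 F P3_1 = Yt x 0 1 (Y x 0 1 F) P3_1 := by
  simp only [ev8, ev9, ev5] <;>
  linear_combination F P3_0 * h.e3 + F P3_1 * h.e2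

theorem t4 {w : Wt K} {x : K} (h : Eqs w x) (F : Pat (Fin 4) → K) :
    R w 0 1 F P4_0 = Yt x 0 1 (Y x 0 1 F) P4_0 := by
  simp only [ev10, ev11, ev12] <;>
  linear_combination F P4_2 * h.e1 + F P4_3 * h.e5 + F P4_1 * h.e4

theorem case {w : Wt K} {x : K} {p : Pat α} {m : ℕ} (φ : Fin m → α) (inj : Function.Injective φ)
    (q : Pat (Fin m)) (hq : ∀ x, p (φ x) = φ (q x)) (i j : Fin m)
    (H : ∀ F : Pat (Fin m) → K, (R w i j F) q = (Yt x i j (Y x i j F)) q)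
    (F : Pat α → K) :
    (R w (φ i) (φ j) F) p = (Yt x (φ i) (φ j) (Y x (φ i) (φ j) F)) p := by
  let E : Pat.Emb (Fin m) α := ⟨φ, inj, p, fun x => ⟨q x, hq x⟩⟩
  have hst : E.st q = p := E.st_eq hq
  have key := H (fun r => F (E.st r))
  have e1 : (R w (E.φ i) (E.φ j) F) (E.st q) = (R w i j (fun r => F (E.st r))) q := by
    simp only [R_st, Y_st, Yt_st]
  have e2 : (Yt x (E.φ i) (E.φ j) (Y x (E.φ i) (E.φ j) F)) (E.st q) = (Yt x i j (Y x i j (fun r => F (E.st r)))) q := by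
    simp only [R_st, Y_st, Yt_st]
  rw [hst] at e1 e2
  exact e1.trans (key.trans e2.symm)

omit [DecidableEq α] in
theorem inj2 {a0 a1 : α} (h0_1 : a0 ≠ a1) :
    Function.Injective ![a0, a1] := by
  intro x y hxy
  fin_cases x <;> fin_cases y <;> simp_all

omit [DecidableEq α] in
theorem inj3 {a0 a1 a2 : α} (h0_1 : a0 ≠ a1) (h0_2 : a0 ≠ a2) (h1_2 : a1 ≠ a2) :
    Function.Injective ![a0, a1, a2] := by
  intro x y hxy
  fin_cases x <;> fin_cases y <;> simp_all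

omit [DecidableEq α] in
theorem inj4 {a0 a1 a2 a3 : α} (h0_1 : a0 ≠ a1) (h0_2 : a0 ≠ a2) (h0_3 : a0 ≠ a3) (h1_2 : a1 ≠ a2) (h1_3 : a1 ≠ a3) (h2_3 : a2 ≠ a3) :
    Function.Injective ![a0, a1, a2, a3] := by
  intro x y hxy
  fin_cases x <;> fin_cases y <;> simp_all

/-- **R2** -/
theorem main {w : Wt K} {x : K} (h : Eqs w x) {i j : α} (hij : i ≠ j) (F : Pat α → K) :
    R w i j F = Yt x i j (Y x i j F) := by
  funext p
  by_cases Xq0 : p i = i
  · by_cases Xq1 : p j = j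
    · exact case ![i, j] (inj2 hij) P2_0 (by
        intro x; fin_cases x <;> simp [P2_0, Xq0, Xq1]) 0 1 (fun F => t0 h F) F
    · have Xn1_0 : p j ≠ i := (fun e => hij ((Xq0).symm.trans (p.eq_comm'.1 e)))
      exact case ![i, j, p j] (inj3 hij (Ne.symm Xn1_0) (Ne.symm Xq1)) P3_0 (by
        intro x; fin_cases x <;> simp [P3_0, Xq0]) 0 1 (fun F => t1 h F) F
  · by_cases Xq0_1 : p i = j
    · have Xr1 : p j = i := p.eq_comm'.1 Xq0_1
      exact case ![i, j] (inj2 hij) P2_1 (by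
        intro x; fin_cases x <;> simp [P2_1, Xq0_1, Xr1]) 0 1 (fun F => t2 h F) F
    · by_cases Xq1 : p j = j
      · exact case ![i, j, p i] (inj3 hij (Ne.symm Xq0) (Ne.symm Xq0_1)) P3_1 (by
          intro x; fin_cases x <;> simp [P3_1, Xq1]) 0 1 (fun F => t3 h F) F
      · have Xn1_0 : p j ≠ i := (fun e => Xq0_1 (p.eq_comm'.1 e))
        exact case ![i, j, p i, p j] (inj4 hij (Ne.symm Xq0) (Ne.symm Xn1_0) (Ne.symm Xq0_1) (Ne.symm Xq1) (fun e => hij (p.inj e))) P4_0 (by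
          intro x; fin_cases x <;> simp [P4_0]) 0 1 (fun F => t4 h F) F

end Pool.Agent.EXL.R2
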