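import Pool.Agent.EXL.Ops

/-!
# (Y3) l'=m, r'=s

Generated file (local identity Y3).
-/

set_option maxRecDepth 4000
set_option linter.all false

namespace Pool.Agent.EXL.Y3

open Pool.Agent.EXL Pool.Agent.EXL.Pat

variable {α K : Type*} [DecidableEq α] [CommRing K]

/-- The scalar equations. -/
structure Eqs (x : K) (w : Wt K) (κ1 : K) (k1 : K) (κ : K) (k : K) (κ2 : K) (k2 : K) : Prop where
  e1 : k * w.u2 * x * κ1 + k * w.v * x + k1 * w.u1 * x + k1 * x - k2 = 0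
  e2 : w.u2 * x + w.v * x * κ1 - x * κ2 = 0
  e3 : k * w.u1 + k * w.w2 * x * κ1 + k1 * w.u2 * x + k1 * w.v - k2 * x = 0
  e4 : k * w.u2 * x + k * w.v * x * κ1 + k1 * w.w2 * x * κ = 0
  e5 : k * w.u2 * x + k * w.v * x * κ1 + k1 * w.u1 * x * κ + k1 * w.w1 * x * κ + k1 * w.w2 * x * κ - k2 * x = 0
  e6 : w.u2 * x * κ * κ1 + w.v * x * κ - x * κ2 = 0
  e7 : w.u1 * κ + w.w2 * x * κ * κ1 - x = 0
  e8 : k + k1 * w.u2 * κ + k1 * w.v * x * κ - k2 * x = 0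
  e9 : k1 * w.u1 * x * κ + k1 * w.w1 * x * κ - k2 * x = 0

def P5_0 : Pat (Fin 5) := ⟨![0, 1, 2, 3, 4], by decide⟩
def P5_1 : Pat (Fin 5) := ⟨![0, 1, 3, 2, 4], by decide⟩
def P5_2 : Pat (Fin 5) := ⟨![0, 3, 2, 1, 4], by decide⟩
def P5_3 : Pat (Fin 5) := ⟨![0, 2, 1, 3, 4], by decide⟩
def P5_4 : Pat (Fin 5) := ⟨![0, 1, 2, 4, 3], by decide⟩
def P6_0 : Pat (Fin 6) := ⟨![0, 1, 2, 3, 5, 4], by decide⟩
def P6_1 : Pat (Fin 6) := ⟨![0, 1, 3, 2, 5, 4], by decide⟩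
def P6_2 : Pat (Fin 6) := ⟨![0, 3, 2, 1, 5, 4], by decide⟩
def P6_3 : Pat (Fin 6) := ⟨![0, 2, 1, 3, 5, 4], by decide⟩
def P6_4 : Pat (Fin 6) := ⟨![0, 1, 2, 5, 4, 3], by decide⟩
def P7_0 : Pat (Fin 7) := ⟨![0, 1, 2, 5, 6, 3, 4], by decide⟩
def P5_5 : Pat (Fin 5) := ⟨![0, 1, 4, 3, 2], by decide⟩
def P5_6 : Pat (Fin 5) := ⟨![0, 4, 2, 3, 1], by decide⟩
def P5_7 : Pat (Fin 5) := ⟨![0, 3, 4, 1, 2], by decide⟩
def P6_5 : Pat (Fin 6) := ⟨![0, 1, 4, 5, 2, 3], by decide⟩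
def P6_6 : Pat (Fin 6) := ⟨![0, 1, 5, 3, 4, 2], by decide⟩
def P6_7 : Pat (Fin 6) := ⟨![0, 5, 2, 3, 4, 1], by decide⟩
def P6_8 : Pat (Fin 6) := ⟨![0, 3, 5, 1, 4, 2], by decide⟩
def P7_1 : Pat (Fin 7) := ⟨![0, 1, 5, 3, 6, 2, 4], by decide⟩
def P7_2 : Pat (Fin 7) := ⟨![0, 5, 2, 3, 6, 1, 4], by decide⟩
def P7_3 : Pat (Fin 7) := ⟨![0, 3, 5, 1, 6, 2, 4], by decide⟩
def P6_9 : Pat (Fin 6) := ⟨![0, 1, 5, 4, 3, 2], by decide⟩
def P7_4 : Pat (Fin 7) := ⟨![0, 1, 5, 6, 4, 2, 3], by decide⟩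
def P8_0 : Pat (Fin 8) := ⟨![0, 1, 5, 6, 7, 2, 3, 4], by decide⟩
def P5_8 : Pat (Fin 5) := ⟨![2, 1, 0, 3, 4], by decide⟩
def P6_10 : Pat (Fin 6) := ⟨![2, 1, 0, 3, 5, 4], by decide⟩
def P5_9 : Pat (Fin 5) := ⟨![0, 2, 1, 4, 3], by decide⟩
def P6_11 : Pat (Fin 6) := ⟨![0, 2, 1, 5, 4, 3], by decide⟩
def P7_5 : Pat (Fin 7) := ⟨![0, 2, 1, 5, 6, 3, 4], by decide⟩
def P5_10 : Pat (Fin 5) := ⟨![0, 4, 3, 2, 1], by decide⟩
def P5_11 : Pat (Fin 5) := ⟨![4, 1, 2, 3, 0], by decide⟩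
def P6_12 : Pat (Fin 6) := ⟨![0, 4, 2, 5, 1, 3], by decide⟩
def P6_13 : Pat (Fin 6) := ⟨![0, 4, 5, 3, 1, 2], by decide⟩
def P6_14 : Pat (Fin 6) := ⟨![0, 5, 2, 4, 3, 1], by decide⟩
def P6_15 : Pat (Fin 6) := ⟨![4, 1, 5, 3, 0, 2], by decide⟩
def P7_6 : Pat (Fin 7) := ⟨![0, 4, 5, 6, 1, 2, 3], by decide⟩
def P6_16 : Pat (Fin 6) := ⟨![0, 5, 3, 2, 4, 1], by decide⟩
def P6_17 : Pat (Fin 6) := ⟨![5, 1, 2, 3, 4, 0], by decide⟩
def P7_7 : Pat (Fin 7) := ⟨![0, 5, 3, 2, 6, 1, 4], by decide⟩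
def P7_8 : Pat (Fin 7) := ⟨![5, 1, 2, 3, 6, 0, 4], by decide⟩
def P7_9 : Pat (Fin 7) := ⟨![0, 5, 2, 6, 4, 1, 3], by decide⟩
def P8_1 : Pat (Fin 8) := ⟨![0, 5, 2, 6, 7, 1, 3, 4], by decide⟩
def P6_18 : Pat (Fin 6) := ⟨![0, 5, 4, 3, 2, 1], by decide⟩
def P6_19 : Pat (Fin 6) := ⟨![5, 1, 4, 3, 2, 0], by decide⟩
def P7_10 : Pat (Fin 7) := ⟨![0, 5, 4, 6, 2, 1, 3], by decide⟩
def P7_11 : Pat (Fin 7) := ⟨![0, 5, 6, 3, 4, 1, 2], by decide⟩
def P7_12 : Pat (Fin 7) := ⟨![0, 6, 2, 5, 4, 3, 1], by decide⟩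
def P7_13 : Pat (Fin 7) := ⟨![0, 1, 2, 3, 4, 6, 5], by decide⟩
def P7_14 : Pat (Fin 7) := ⟨![0, 3, 2, 1, 4, 6, 5], by decide⟩
def P7_15 : Pat (Fin 7) := ⟨![0, 1, 6, 5, 4, 3, 2], by decide⟩
def P7_16 : Pat (Fin 7) := ⟨![0, 1, 2, 4, 3, 6, 5], by decide⟩
def P7_17 : Pat (Fin 7) := ⟨![5, 1, 6, 3, 4, 0, 2], by decide⟩
def P8_2 : Pat (Fin 8) := ⟨![0, 5, 6, 3, 7, 1, 2, 4], by decide⟩
def P8_3 : Pat (Fin 8) := ⟨![0, 6, 2, 5, 7, 3, 1, 4], by decide⟩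
def P8_4 : Pat (Fin 8) := ⟨![0, 1, 2, 3, 7, 6, 5, 4], by decide⟩
def P8_5 : Pat (Fin 8) := ⟨![0, 3, 2, 1, 7, 6, 5, 4], by decide⟩
def P8_6 : Pat (Fin 8) := ⟨![0, 1, 6, 5, 7, 3, 2, 4], by decide⟩
def P8_7 : Pat (Fin 8) := ⟨![5, 1, 6, 3, 7, 0, 2, 4], by decide⟩
def P7_18 : Pat (Fin 7) := ⟨![0, 5, 6, 4, 3, 1, 2], by decide⟩
def P8_8 : Pat (Fin 8) := ⟨![0, 5, 6, 7, 4, 1, 2, 3], by decide⟩
def P9_0 : Pat (Fin 9) := ⟨![0, 5, 6, 7, 8, 1, 2, 3, 4], by decide⟩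
def P5_12 : Pat (Fin 5) := ⟨![1, 0, 2, 3, 4], by decide⟩
def P5_13 : Pat (Fin 5) := ⟨![1, 0, 3, 2, 4], by decide⟩
def P5_14 : Pat (Fin 5) := ⟨![3, 1, 2, 0, 4], by decide⟩
def P5_15 : Pat (Fin 5) := ⟨![3, 2, 1, 0, 4], by decide⟩
def P5_16 : Pat (Fin 5) := ⟨![2, 3, 0, 1, 4], by decide⟩
def P6_20 : Pat (Fin 6) := ⟨![1, 0, 2, 3, 5, 4], by decide⟩
def P6_21 : Pat (Fin 6) := ⟨![1, 0, 3, 2, 5, 4], by decide⟩
def P6_22 : Pat (Fin 6) := ⟨![3, 1, 2, 0, 5, 4], by decide⟩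
def P6_23 : Pat (Fin 6) := ⟨![3, 2, 1, 0, 5, 4], by decide⟩
def P6_24 : Pat (Fin 6) := ⟨![2, 3, 0, 1, 5, 4], by decide⟩
def P5_17 : Pat (Fin 5) := ⟨![1, 0, 2, 4, 3], by decide⟩
def P6_25 : Pat (Fin 6) := ⟨![1, 0, 2, 5, 4, 3], by decide⟩
def P7_19 : Pat (Fin 7) := ⟨![1, 0, 2, 5, 6, 3, 4], by decide⟩
def P5_18 : Pat (Fin 5) := ⟨![1, 0, 4, 3, 2], by decide⟩
def P5_19 : Pat (Fin 5) := ⟨![3, 4, 2, 0, 1], by decide⟩
def P5_20 : Pat (Fin 5) := ⟨![4, 3, 2, 1, 0], by decide⟩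
def P5_21 : Pat (Fin 5) := ⟨![3, 1, 4, 0, 2], by decide⟩
def P6_26 : Pat (Fin 6) := ⟨![1, 0, 4, 5, 2, 3], by decide⟩
def P6_27 : Pat (Fin 6) := ⟨![1, 0, 5, 3, 4, 2], by decide⟩
def P6_28 : Pat (Fin 6) := ⟨![3, 5, 2, 0, 4, 1], by decide⟩
def P6_29 : Pat (Fin 6) := ⟨![5, 3, 2, 1, 4, 0], by decide⟩
def P6_30 : Pat (Fin 6) := ⟨![3, 1, 5, 0, 4, 2], by decide⟩
def P6_31 : Pat (Fin 6) := ⟨![5, 1, 2, 4, 3, 0], by decide⟩
def P7_20 : Pat (Fin 7) := ⟨![1, 0, 5, 3, 6, 2, 4], by decide⟩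
def P7_21 : Pat (Fin 7) := ⟨![3, 5, 2, 0, 6, 1, 4], by decide⟩
def P7_22 : Pat (Fin 7) := ⟨![5, 3, 2, 1, 6, 0, 4], by decide⟩
def P7_23 : Pat (Fin 7) := ⟨![3, 1, 5, 0, 6, 2, 4], by decide⟩
def P6_32 : Pat (Fin 6) := ⟨![1, 0, 5, 4, 3, 2], by decide⟩
def P7_24 : Pat (Fin 7) := ⟨![1, 0, 5, 6, 4, 2, 3], by decide⟩
def P8_9 : Pat (Fin 8) := ⟨![1, 0, 5, 6, 7, 2, 3, 4], by decide⟩
def P5_22 : Pat (Fin 5) := ⟨![2, 1, 0, 4, 3], by decide⟩
def P6_33 : Pat (Fin 6) := ⟨![2, 1, 0, 5, 4, 3], by decide⟩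
def P7_25 : Pat (Fin 7) := ⟨![2, 1, 0, 5, 6, 3, 4], by decide⟩
def P5_23 : Pat (Fin 5) := ⟨![2, 4, 0, 3, 1], by decide⟩
def P6_34 : Pat (Fin 6) := ⟨![2, 4, 0, 5, 1, 3], by decide⟩
def P6_35 : Pat (Fin 6) := ⟨![2, 5, 0, 3, 4, 1], by decide⟩
def P6_36 : Pat (Fin 6) := ⟨![4, 1, 2, 5, 0, 3], by decide⟩
def P7_26 : Pat (Fin 7) := ⟨![2, 5, 0, 3, 6, 1, 4], by decide⟩
def P6_37 : Pat (Fin 6) := ⟨![2, 5, 0, 4, 3, 1], by decide⟩
def P7_27 : Pat (Fin 7) := ⟨![2, 5, 0, 6, 4, 1, 3], by decide⟩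
def P8_10 : Pat (Fin 8) := ⟨![2, 5, 0, 6, 7, 1, 3, 4], by decide⟩
def P6_38 : Pat (Fin 6) := ⟨![3, 4, 5, 0, 1, 2], by decide⟩
def P6_39 : Pat (Fin 6) := ⟨![3, 5, 4, 0, 2, 1], by decide⟩
def P7_28 : Pat (Fin 7) := ⟨![3, 5, 6, 0, 4, 1, 2], by decide⟩
def P8_11 : Pat (Fin 8) := ⟨![3, 5, 6, 0, 7, 1, 2, 4], by decide⟩
def P5_24 : Pat (Fin 5) := ⟨![4, 1, 3, 2, 0], by decide⟩
def P5_25 : Pat (Fin 5) := ⟨![4, 2, 1, 3, 0], by decide⟩
def P6_40 : Pat (Fin 6) := ⟨![4, 5, 2, 3, 0, 1], by decide⟩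
def P6_41 : Pat (Fin 6) := ⟨![4, 3, 5, 1, 0, 2], by decide⟩
def P7_29 : Pat (Fin 7) := ⟨![4, 1, 5, 6, 0, 2, 3], by decide⟩
def P6_42 : Pat (Fin 6) := ⟨![4, 2, 1, 5, 0, 3], by decide⟩
def P6_43 : Pat (Fin 6) := ⟨![4, 5, 3, 2, 0, 1], by decide⟩
def P7_30 : Pat (Fin 7) := ⟨![4, 5, 2, 6, 0, 1, 3], by decide⟩
def P7_31 : Pat (Fin 7) := ⟨![4, 5, 6, 3, 0, 1, 2], by decide⟩
def P7_32 : Pat (Fin 7) := ⟨![4, 6, 2, 5, 0, 3, 1], by decide⟩
def P7_33 : Pat (Fin 7) := ⟨![4, 1, 2, 3, 0, 6, 5], by decide⟩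
def P7_34 : Pat (Fin 7) := ⟨![4, 3, 2, 1, 0, 6, 5], by decide⟩
def P7_35 : Pat (Fin 7) := ⟨![4, 1, 6, 5, 0, 3, 2], by decide⟩
def P7_36 : Pat (Fin 7) := ⟨![0, 1, 6, 3, 5, 4, 2], by decide⟩
def P8_12 : Pat (Fin 8) := ⟨![4, 5, 6, 7, 0, 1, 2, 3], by decide⟩
def P6_44 : Pat (Fin 6) := ⟨![5, 1, 3, 2, 4, 0], by decide⟩
def P6_45 : Pat (Fin 6) := ⟨![5, 2, 1, 3, 4, 0], by decide⟩
def P7_37 : Pat (Fin 7) := ⟨![5, 1, 3, 2, 6, 0, 4], by decide⟩
def P7_38 : Pat (Fin 7) := ⟨![5, 2, 1, 3, 6, 0, 4], by decide⟩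
def P7_39 : Pat (Fin 7) := ⟨![5, 1, 2, 6, 4, 0, 3], by decide⟩
def P8_13 : Pat (Fin 8) := ⟨![5, 1, 2, 6, 7, 0, 3, 4], by decide⟩
def P6_46 : Pat (Fin 6) := ⟨![5, 4, 2, 3, 1, 0], by decide⟩
def P6_47 : Pat (Fin 6) := ⟨![5, 3, 4, 1, 2, 0], by decide⟩
def P7_40 : Pat (Fin 7) := ⟨![5, 1, 4, 6, 2, 0, 3], by decide⟩
def P7_41 : Pat (Fin 7) := ⟨![5, 6, 2, 3, 4, 0, 1], by decide⟩
def P7_42 : Pat (Fin 7) := ⟨![5, 3, 6, 1, 4, 0, 2], by decide⟩
def P8_14 : Pat (Fin 8) := ⟨![5, 6, 2, 3, 7, 0, 1, 4], by decide⟩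
def P8_15 : Pat (Fin 8) := ⟨![5, 3, 6, 1, 7, 0, 2, 4], by decide⟩
def P7_43 : Pat (Fin 7) := ⟨![5, 1, 6, 4, 3, 0, 2], by decide⟩
def P8_16 : Pat (Fin 8) := ⟨![5, 1, 6, 7, 4, 0, 2, 3], by decide⟩
def P9_1 : Pat (Fin 9) := ⟨![5, 1, 6, 7, 8, 0, 2, 3, 4], by decide⟩
def P6_48 : Pat (Fin 6) := ⟨![5, 2, 1, 4, 3, 0], by decide⟩
def P7_44 : Pat (Fin 7) := ⟨![5, 2, 1, 6, 4, 0, 3], by decide⟩
def P8_17 : Pat (Fin 8) := ⟨![5, 2, 1, 6, 7, 0, 3, 4], by decide⟩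
def P6_49 : Pat (Fin 6) := ⟨![5, 4, 3, 2, 1, 0], by decide⟩
def P7_45 : Pat (Fin 7) := ⟨![5, 4, 2, 6, 1, 0, 3], by decide⟩
def P7_46 : Pat (Fin 7) := ⟨![5, 4, 6, 3, 1, 0, 2], by decide⟩
def P7_47 : Pat (Fin 7) := ⟨![5, 6, 2, 4, 3, 0, 1], by decide⟩
def P8_18 : Pat (Fin 8) := ⟨![5, 4, 6, 7, 1, 0, 2, 3], by decide⟩
def P7_48 : Pat (Fin 7) := ⟨![5, 6, 3, 2, 4, 0, 1], by decide⟩
def P8_19 : Pat (Fin 8) := ⟨![5, 6, 3, 2, 7, 0, 1, 4], by decide⟩
def P8_20 : Pat (Fin 8) := ⟨![5, 6, 2, 7, 4, 0, 1, 3], by decide⟩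
def P9_2 : Pat (Fin 9) := ⟨![5, 6, 2, 7, 8, 0, 1, 3, 4], by decide⟩
def P7_49 : Pat (Fin 7) := ⟨![5, 6, 4, 3, 2, 0, 1], by decide⟩
def P7_50 : Pat (Fin 7) := ⟨![0, 1, 4, 3, 2, 6, 5], by decide⟩
def P8_21 : Pat (Fin 8) := ⟨![5, 6, 4, 7, 2, 0, 1, 3], by decide⟩
def P8_22 : Pat (Fin 8) := ⟨![5, 6, 7, 3, 4, 0, 1, 2], by decide⟩
def P8_23 : Pat (Fin 8) := ⟨![5, 7, 2, 6, 4, 0, 3, 1], by decide⟩
def P8_24 : Pat (Fin 8) := ⟨![5, 1, 2, 3, 4, 0, 7, 6], by decide⟩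
def P8_25 : Pat (Fin 8) := ⟨![5, 3, 2, 1, 4, 0, 7, 6], by decide⟩
def P8_26 : Pat (Fin 8) := ⟨![5, 1, 7, 6, 4, 0, 3, 2], by decide⟩
def P8_27 : Pat (Fin 8) := ⟨![5, 1, 2, 4, 3, 0, 7, 6], by decide⟩
def P8_28 : Pat (Fin 8) := ⟨![0, 1, 2, 3, 5, 4, 7, 6], by decide⟩
def P8_29 : Pat (Fin 8) := ⟨![0, 1, 7, 3, 4, 6, 5, 2], by decide⟩
def P9_3 : Pat (Fin 9) := ⟨![5, 6, 7, 3, 8, 0, 1, 2, 4], by decide⟩
def P9_4 : Pat (Fin 9) := ⟨![5, 7, 2, 6, 8, 0, 3, 1, 4], by decide⟩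
def P9_5 : Pat (Fin 9) := ⟨![5, 1, 2, 3, 8, 0, 7, 6, 4], by decide⟩
def P9_6 : Pat (Fin 9) := ⟨![5, 3, 2, 1, 8, 0, 7, 6, 4], by decide⟩
def P9_7 : Pat (Fin 9) := ⟨![5, 1, 7, 6, 8, 0, 3, 2, 4], by decide⟩
def P9_8 : Pat (Fin 9) := ⟨![0, 1, 7, 3, 8, 6, 5, 2, 4], by decide⟩
def P8_30 : Pat (Fin 8) := ⟨![5, 6, 7, 4, 3, 0, 1, 2], by decide⟩
def P9_9 : Pat (Fin 9) := ⟨![5, 6, 7, 8, 4, 0, 1, 2, 3], by decide⟩
def P10_0 : Pat (Fin 10) := ⟨![5, 6, 7, 8, 9, 0, 1, 2, 3, 4], by decide⟩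

theorem ev0 (x : K) (F : Pat (Fin 5) → K) :
    Y x 2 3 F P5_0 = F P5_0 + x * F P5_1 :=
  Y_0 (by decide) (by decide) (by decide)

theorem ev1 (w : Wt K) (F : Pat (Fin 5) → K) :
    R w 1 3 F P5_0 = F P5_0 + w.u2 * F P5_2 :=
  R_e (by decide) (by decide) (by decide)

theorem ev2 (w : Wt K) (F : Pat (Fin 5) → K) :
    R w 1 3 F P5_1 = w.v * F P5_1 + w.u1 * F P5_3 :=
  R_r (by decide) (by decide) (by decide)

theorem ev3 (κ1 : K) (k1 : K) (F : Pat (Fin 5) → K) :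
    top κ1 k1 1 2 4 F P5_0 = F P5_0 :=
  top_0 (by decide) (by decide)

theorem ev4 (κ1 : K) (k1 : K) (F : Pat (Fin 5) → K) :
    top κ1 k1 1 2 4 F P5_1 = k1 * F P5_4 :=
  top_r (by decide) (by decide) (by decide) (by decide)

theorem ev5 (κ1 : K) (k1 : K) (F : Pat (Fin 5) → K) :
    top κ1 k1 1 2 4 F P5_3 = 0 :=
  top_z3 (by decide) (by decide)

theorem ev6 (κ1 : K) (k1 : K) (F : Pat (Fin 5) → K) :
    top κ1 k1 1 2 4 F P5_2 = k1 * F P5_4 :=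
  top_l (by decide) (by decide) (by decide) (by decide)

theorem ev7 (κ : K) (k : K) (F : Pat (Fin 5) → K) :
    top κ k 0 3 4 F P5_0 = F P5_0 :=
  top_0 (by decide) (by decide)

theorem ev8 (κ : K) (k : K) (F : Pat (Fin 5) → K) :
    top κ k 0 3 4 F P5_4 = 0 :=
  top_z1 (by decide) (by decide) (by decide)

theorem ev9 (F : Pat (Fin 5) → K) :
    emp 3 F P5_0 = F P5_0 :=
  emp_1 (by decide)

theorem ev10 (x : K) (F : Pat (Fin 5) → K) :
    Yt x 0 1 F P5_0 = F P5_0 :=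
  Yt_0 (by decide) (by decide)

theorem ev11 (κ2 : K) (k2 : K) (F : Pat (Fin 5) → K) :
    top κ2 k2 0 2 4 F P5_0 = F P5_0 :=
  top_0 (by decide) (by decide)

theorem ev12 (x : K) (F : Pat (Fin 6) → K) :
    Y x 2 3 F P6_0 = F P6_0 + x * F P6_1 :=
  Y_0 (by decide) (by decide) (by decide)

theorem ev13 (w : Wt K) (F : Pat (Fin 6) → K) :
    R w 1 3 F P6_0 = F P6_0 + w.u2 * F P6_2 :=
  R_e (by decide) (by decide) (by decide)

theorem ev14 (w : Wt K) (F : Pat (Fin 6) → K) :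
    R w 1 3 F P6_1 = w.v * F P6_1 + w.u1 * F P6_3 :=
  R_r (by decide) (by decide) (by decide)

theorem ev15 (κ1 : K) (k1 : K) (F : Pat (Fin 6) → K) :
    top κ1 k1 1 2 4 F P6_0 = F P6_0 :=
  top_0 (by decide) (by decide)

theorem ev16 (κ1 : K) (k1 : K) (F : Pat (Fin 6) → K) :
    top κ1 k1 1 2 4 F P6_1 = 0 :=
  top_z1 (by decide) (by decide) (by decide)

theorem ev17 (κ1 : K) (k1 : K) (F : Pat (Fin 6) → K) :
    top κ1 k1 1 2 4 F P6_3 = 0 :=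
  top_z3 (by decide) (by decide)

theorem ev18 (κ1 : K) (k1 : K) (F : Pat (Fin 6) → K) :
    top κ1 k1 1 2 4 F P6_2 = 0 :=
  top_z2 (by decide) (by decide) (by decide)

theorem ev19 (κ : K) (k : K) (F : Pat (Fin 6) → K) :
    top κ k 0 3 4 F P6_0 = F P6_0 :=
  top_0 (by decide) (by decide)

theorem ev20 (F : Pat (Fin 6) → K) :
    emp 3 F P6_0 = F P6_0 :=
  emp_1 (by decide)

theorem ev21 (x : K) (F : Pat (Fin 6) → K) :
    Yt x 0 1 F P6_0 = F P6_0 :=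
  Yt_0 (by decide) (by decide)

theorem ev22 (κ2 : K) (k2 : K) (F : Pat (Fin 6) → K) :
    top κ2 k2 0 2 4 F P6_0 = F P6_0 :=
  top_0 (by decide) (by decide)

theorem ev23 (x : K) (F : Pat (Fin 5) → K) :
    Y x 2 3 F P5_4 = 0 :=
  Y_z (by decide)

theorem ev24 (F : Pat (Fin 5) → K) :
    emp 3 F P5_4 = 0 :=
  emp_z (by decide)

theorem ev25 (x : K) (F : Pat (Fin 6) → K) :
    Y x 2 3 F P6_4 = 0 :=
  Y_z (by decide)

theorem ev26 (F : Pat (Fin 6) → K) :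
    emp 3 F P6_4 = 0 :=
  emp_z (by decide)

theorem ev27 (x : K) (F : Pat (Fin 7) → K) :
    Y x 2 3 F P7_0 = 0 :=
  Y_z (by decide)

theorem ev28 (F : Pat (Fin 7) → K) :
    emp 3 F P7_0 = 0 :=
  emp_z (by decide)

theorem ev29 (x : K) (F : Pat (Fin 5) → K) :
    Y x 2 3 F P5_1 = 0 :=
  Y_z (by decide)

theorem ev30 (F : Pat (Fin 5) → K) :
    emp 3 F P5_1 = 0 :=
  emp_z (by decide)

theorem ev31 (x : K) (F : Pat (Fin 6) → K) :
    Y x 2 3 F P6_1 = 0 :=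
  Y_z (by decide)

theorem ev32 (F : Pat (Fin 6) → K) :
    emp 3 F P6_1 = 0 :=
  emp_z (by decide)

theorem ev33 (x : K) (F : Pat (Fin 5) → K) :
    Y x 2 3 F P5_5 = x * F P5_5 + x * F P5_4 :=
  Y_1 (by decide) (by decide) (by decide)

theorem ev34 (w : Wt K) (F : Pat (Fin 5) → K) :
    R w 1 3 F P5_4 = w.v * F P5_4 + w.u1 * F P5_6 :=
  R_r (by decide) (by decide) (by decide)

theorem ev35 (w : Wt K) (F : Pat (Fin 5) → K) :
    R w 1 3 F P5_5 = F P5_5 + w.u2 * F P5_7 :=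
  R_e (by decide) (by decide) (by decide)

theorem ev36 (κ1 : K) (k1 : K) (F : Pat (Fin 5) → K) :
    top κ1 k1 1 2 4 F P5_4 = F P5_4 :=
  top_0 (by decide) (by decide)

theorem ev37 (κ1 : K) (k1 : K) (F : Pat (Fin 5) → K) :
    top κ1 k1 1 2 4 F P5_5 = 0 :=
  top_z1 (by decide) (by decide) (by decide)

theorem ev38 (κ1 : K) (k1 : K) (F : Pat (Fin 5) → K) :
    top κ1 k1 1 2 4 F P5_7 = κ1 * F P5_4 :=
  top_d (by decide) (by decide) (by decide) (by decide)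

theorem ev39 (κ1 : K) (k1 : K) (F : Pat (Fin 5) → K) :
    top κ1 k1 1 2 4 F P5_6 = 0 :=
  top_z2 (by decide) (by decide) (by decide)

theorem ev40 (F : Pat (Fin 5) → K) :
    emp 3 F P5_5 = F P5_5 :=
  emp_1 (by decide)

theorem ev41 (x : K) (F : Pat (Fin 5) → K) :
    Yt x 0 1 F P5_5 = F P5_5 :=
  Yt_0 (by decide) (by decide)

theorem ev42 (κ2 : K) (k2 : K) (F : Pat (Fin 5) → K) :
    top κ2 k2 0 2 4 F P5_5 = 0 :=
  top_z1 (by decide) (by decide) (by decide)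

theorem ev43 (x : K) (F : Pat (Fin 6) → K) :
    Y x 2 3 F P6_5 = 0 :=
  Y_z (by decide)

theorem ev44 (F : Pat (Fin 6) → K) :
    emp 3 F P6_5 = 0 :=
  emp_z (by decide)

theorem ev45 (x : K) (F : Pat (Fin 6) → K) :
    Y x 2 3 F P6_6 = x * F P6_6 + x * F P6_4 :=
  Y_1 (by decide) (by decide) (by decide)

theorem ev46 (w : Wt K) (F : Pat (Fin 6) → K) :
    R w 1 3 F P6_4 = w.v * F P6_4 + w.u1 * F P6_7 :=
  R_r (by decide) (by decide) (by decide)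

theorem ev47 (w : Wt K) (F : Pat (Fin 6) → K) :
    R w 1 3 F P6_6 = F P6_6 + w.u2 * F P6_8 :=
  R_e (by decide) (by decide) (by decide)

theorem ev48 (κ1 : K) (k1 : K) (F : Pat (Fin 6) → K) :
    top κ1 k1 1 2 4 F P6_4 = F P6_4 :=
  top_0 (by decide) (by decide)

theorem ev49 (κ1 : K) (k1 : K) (F : Pat (Fin 6) → K) :
    top κ1 k1 1 2 4 F P6_6 = k1 * F P6_0 :=
  top_r (by decide) (by decide) (by decide) (by decide)

theorem ev50 (κ1 : K) (k1 : K) (F : Pat (Fin 6) → K) :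
    top κ1 k1 1 2 4 F P6_8 = κ1 * F P6_4 :=
  top_d (by decide) (by decide) (by decide) (by decide)

theorem ev51 (κ1 : K) (k1 : K) (F : Pat (Fin 6) → K) :
    top κ1 k1 1 2 4 F P6_7 = k1 * F P6_0 :=
  top_l (by decide) (by decide) (by decide) (by decide)

theorem ev52 (κ : K) (k : K) (F : Pat (Fin 6) → K) :
    top κ k 0 3 4 F P6_4 = k * F P6_0 :=
  top_r (by decide) (by decide) (by decide) (by decide)

theorem ev53 (F : Pat (Fin 6) → K) :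
    emp 3 F P6_6 = F P6_6 :=
  emp_1 (by decide)

theorem ev54 (x : K) (F : Pat (Fin 6) → K) :
    Yt x 0 1 F P6_6 = F P6_6 :=
  Yt_0 (by decide) (by decide)

theorem ev55 (κ2 : K) (k2 : K) (F : Pat (Fin 6) → K) :
    top κ2 k2 0 2 4 F P6_6 = k2 * F P6_0 :=
  top_r (by decide) (by decide) (by decide) (by decide)

theorem ev56 (x : K) (F : Pat (Fin 7) → K) :
    Y x 2 3 F P7_1 = x * F P7_1 + x * F P7_0 :=
  Y_1 (by decide) (by decide) (by decide)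

theorem ev57 (w : Wt K) (F : Pat (Fin 7) → K) :
    R w 1 3 F P7_0 = w.v * F P7_0 + w.u1 * F P7_2 :=
  R_r (by decide) (by decide) (by decide)

theorem ev58 (w : Wt K) (F : Pat (Fin 7) → K) :
    R w 1 3 F P7_1 = F P7_1 + w.u2 * F P7_3 :=
  R_e (by decide) (by decide) (by decide)

theorem ev59 (κ1 : K) (k1 : K) (F : Pat (Fin 7) → K) :
    top κ1 k1 1 2 4 F P7_0 = F P7_0 :=
  top_0 (by decide) (by decide)

theorem ev60 (κ1 : K) (k1 : K) (F : Pat (Fin 7) → K) :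
    top κ1 k1 1 2 4 F P7_1 = 0 :=
  top_z1 (by decide) (by decide) (by decide)

theorem ev61 (κ1 : K) (k1 : K) (F : Pat (Fin 7) → K) :
    top κ1 k1 1 2 4 F P7_3 = κ1 * F P7_0 :=
  top_d (by decide) (by decide) (by decide) (by decide)

theorem ev62 (κ1 : K) (k1 : K) (F : Pat (Fin 7) → K) :
    top κ1 k1 1 2 4 F P7_2 = 0 :=
  top_z2 (by decide) (by decide) (by decide)

theorem ev63 (κ : K) (k : K) (F : Pat (Fin 7) → K) :
    top κ k 0 3 4 F P7_0 = 0 :=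
  top_z1 (by decide) (by decide) (by decide)

theorem ev64 (F : Pat (Fin 7) → K) :
    emp 3 F P7_1 = F P7_1 :=
  emp_1 (by decide)

theorem ev65 (x : K) (F : Pat (Fin 7) → K) :
    Yt x 0 1 F P7_1 = F P7_1 :=
  Yt_0 (by decide) (by decide)

theorem ev66 (κ2 : K) (k2 : K) (F : Pat (Fin 7) → K) :
    top κ2 k2 0 2 4 F P7_1 = 0 :=
  top_z1 (by decide) (by decide) (by decide)

theorem ev67 (x : K) (F : Pat (Fin 6) → K) :
    Y x 2 3 F P6_9 = 0 :=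
  Y_z (by decide)

theorem ev68 (F : Pat (Fin 6) → K) :
    emp 3 F P6_9 = 0 :=
  emp_z (by decide)

theorem ev69 (x : K) (F : Pat (Fin 7) → K) :
    Y x 2 3 F P7_4 = 0 :=
  Y_z (by decide)

theorem ev70 (F : Pat (Fin 7) → K) :
    emp 3 F P7_4 = 0 :=
  emp_z (by decide)

theorem ev71 (x : K) (F : Pat (Fin 8) → K) :
    Y x 2 3 F P8_0 = 0 :=
  Y_z (by decide)

theorem ev72 (F : Pat (Fin 8) → K) :
    emp 3 F P8_0 = 0 :=
  emp_z (by decide)

theorem ev73 (x : K) (F : Pat (Fin 5) → K) :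
    Y x 2 3 F P5_3 = x * F P5_3 + x * F P5_2 :=
  Y_1 (by decide) (by decide) (by decide)

theorem ev74 (w : Wt K) (F : Pat (Fin 5) → K) :
    R w 1 3 F P5_3 = w.v * F P5_3 + w.u1 * F P5_1 :=
  R_l (by decide) (by decide) (by decide)

theorem ev75 (w : Wt K) (F : Pat (Fin 5) → K) :
    R w 1 3 F P5_2 = w.w1 * F P5_2 :=
  R_p (by decide) (by decide)

theorem ev76 (F : Pat (Fin 5) → K) :
    emp 3 F P5_3 = F P5_3 :=
  emp_1 (by decide)

theorem ev77 (x : K) (F : Pat (Fin 5) → K) :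
    Yt x 0 1 F P5_3 = x * F P5_8 :=
  Yt_2 (by decide) (by decide) (by decide)

theorem ev78 (κ2 : K) (k2 : K) (F : Pat (Fin 5) → K) :
    top κ2 k2 0 2 4 F P5_8 = 0 :=
  top_z3 (by decide) (by decide)

theorem ev79 (x : K) (F : Pat (Fin 6) → K) :
    Y x 2 3 F P6_3 = x * F P6_3 + x * F P6_2 :=
  Y_1 (by decide) (by decide) (by decide)

theorem ev80 (w : Wt K) (F : Pat (Fin 6) → K) :
    R w 1 3 F P6_3 = w.v * F P6_3 + w.u1 * F P6_1 :=
  R_l (by decide) (by decide) (by decide)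

theorem ev81 (w : Wt K) (F : Pat (Fin 6) → K) :
    R w 1 3 F P6_2 = w.w1 * F P6_2 :=
  R_p (by decide) (by decide)

theorem ev82 (F : Pat (Fin 6) → K) :
    emp 3 F P6_3 = F P6_3 :=
  emp_1 (by decide)

theorem ev83 (x : K) (F : Pat (Fin 6) → K) :
    Yt x 0 1 F P6_3 = x * F P6_10 :=
  Yt_2 (by decide) (by decide) (by decide)

theorem ev84 (κ2 : K) (k2 : K) (F : Pat (Fin 6) → K) :
    top κ2 k2 0 2 4 F P6_10 = 0 :=
  top_z3 (by decide) (by decide)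

theorem ev85 (x : K) (F : Pat (Fin 5) → K) :
    Y x 2 3 F P5_9 = 0 :=
  Y_z (by decide)

theorem ev86 (F : Pat (Fin 5) → K) :
    emp 3 F P5_9 = 0 :=
  emp_z (by decide)

theorem ev87 (x : K) (F : Pat (Fin 6) → K) :
    Y x 2 3 F P6_11 = 0 :=
  Y_z (by decide)

theorem ev88 (F : Pat (Fin 6) → K) :
    emp 3 F P6_11 = 0 :=
  emp_z (by decide)

theorem ev89 (x : K) (F : Pat (Fin 7) → K) :
    Y x 2 3 F P7_5 = 0 :=
  Y_z (by decide)

theorem ev90 (F : Pat (Fin 7) → K) :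
    emp 3 F P7_5 = 0 :=
  emp_z (by decide)

theorem ev91 (x : K) (F : Pat (Fin 5) → K) :
    Y x 2 3 F P5_2 = 0 :=
  Y_z (by decide)

theorem ev92 (F : Pat (Fin 5) → K) :
    emp 3 F P5_2 = 0 :=
  emp_z (by decide)

theorem ev93 (x : K) (F : Pat (Fin 6) → K) :
    Y x 2 3 F P6_2 = 0 :=
  Y_z (by decide)

theorem ev94 (F : Pat (Fin 6) → K) :
    emp 3 F P6_2 = 0 :=
  emp_z (by decide)

theorem ev95 (x : K) (F : Pat (Fin 5) → K) :
    Y x 2 3 F P5_7 = 0 :=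
  Y_z (by decide)

theorem ev96 (F : Pat (Fin 5) → K) :
    emp 3 F P5_7 = 0 :=
  emp_z (by decide)

theorem ev97 (x : K) (F : Pat (Fin 6) → K) :
    Y x 2 3 F P6_8 = 0 :=
  Y_z (by decide)

theorem ev98 (F : Pat (Fin 6) → K) :
    emp 3 F P6_8 = 0 :=
  emp_z (by decide)

theorem ev99 (x : K) (F : Pat (Fin 7) → K) :
    Y x 2 3 F P7_3 = 0 :=
  Y_z (by decide)

theorem ev100 (F : Pat (Fin 7) → K) :
    emp 3 F P7_3 = 0 :=
  emp_z (by decide)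

theorem ev101 (x : K) (F : Pat (Fin 5) → K) :
    Y x 2 3 F P5_6 = F P5_6 + x * F P5_10 :=
  Y_0 (by decide) (by decide) (by decide)

theorem ev102 (w : Wt K) (F : Pat (Fin 5) → K) :
    R w 1 3 F P5_6 = w.v * F P5_6 + w.u1 * F P5_4 :=
  R_l (by decide) (by decide) (by decide)

theorem ev103 (w : Wt K) (F : Pat (Fin 5) → K) :
    R w 1 3 F P5_10 = w.w1 * F P5_9 + w.u2 * F P5_5 + w.w2 * F P5_7 :=
  R_d (by decide) (by decide) (by decide) (by decide) (by decide) (by decide)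

theorem ev104 (κ1 : K) (k1 : K) (F : Pat (Fin 5) → K) :
    top κ1 k1 1 2 4 F P5_9 = 0 :=
  top_z3 (by decide) (by decide)

theorem ev105 (F : Pat (Fin 5) → K) :
    emp 3 F P5_6 = F P5_6 :=
  emp_1 (by decide)

theorem ev106 (x : K) (F : Pat (Fin 5) → K) :
    Yt x 0 1 F P5_6 = x * F P5_11 :=
  Yt_2 (by decide) (by decide) (by decide)

theorem ev107 (κ2 : K) (k2 : K) (F : Pat (Fin 5) → K) :
    top κ2 k2 0 2 4 F P5_11 = 0 :=
  top_z2 (by decide) (by decide) (by decide)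

theorem ev108 (x : K) (F : Pat (Fin 6) → K) :
    Y x 2 3 F P6_12 = 0 :=
  Y_z (by decide)

theorem ev109 (F : Pat (Fin 6) → K) :
    emp 3 F P6_12 = 0 :=
  emp_z (by decide)

theorem ev110 (x : K) (F : Pat (Fin 5) → K) :
    Y x 2 3 F P5_10 = 0 :=
  Y_z (by decide)

theorem ev111 (F : Pat (Fin 5) → K) :
    emp 3 F P5_10 = 0 :=
  emp_z (by decide)

theorem ev112 (x : K) (F : Pat (Fin 6) → K) :
    Y x 2 3 F P6_13 = x * F P6_13 + x * F P6_12 :=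
  Y_1 (by decide) (by decide) (by decide)

theorem ev113 (w : Wt K) (F : Pat (Fin 6) → K) :
    R w 1 3 F P6_12 = w.w1 * F P6_14 + w.u2 * F P6_0 + w.w2 * F P6_2 :=
  R_d (by decide) (by decide) (by decide) (by decide) (by decide) (by decide)

theorem ev114 (w : Wt K) (F : Pat (Fin 6) → K) :
    R w 1 3 F P6_13 = w.v * F P6_13 + w.u1 * F P6_9 :=
  R_l (by decide) (by decide) (by decide)

theorem ev115 (κ1 : K) (k1 : K) (F : Pat (Fin 6) → K) :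
    top κ1 k1 1 2 4 F P6_9 = 0 :=
  top_z1 (by decide) (by decide) (by decide)

theorem ev116 (κ1 : K) (k1 : K) (F : Pat (Fin 6) → K) :
    top κ1 k1 1 2 4 F P6_13 = κ1 * F P6_0 :=
  top_d (by decide) (by decide) (by decide) (by decide)

theorem ev117 (κ1 : K) (k1 : K) (F : Pat (Fin 6) → K) :
    top κ1 k1 1 2 4 F P6_14 = 0 :=
  top_z2 (by decide) (by decide) (by decide)

theorem ev118 (F : Pat (Fin 6) → K) :
    emp 3 F P6_13 = F P6_13 :=
  emp_1 (by decide)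

theorem ev119 (x : K) (F : Pat (Fin 6) → K) :
    Yt x 0 1 F P6_13 = x * F P6_15 :=
  Yt_2 (by decide) (by decide) (by decide)

theorem ev120 (κ2 : K) (k2 : K) (F : Pat (Fin 6) → K) :
    top κ2 k2 0 2 4 F P6_15 = κ2 * F P6_0 :=
  top_d (by decide) (by decide) (by decide) (by decide)

theorem ev121 (x : K) (F : Pat (Fin 7) → K) :
    Y x 2 3 F P7_6 = 0 :=
  Y_z (by decide)

theorem ev122 (F : Pat (Fin 7) → K) :
    emp 3 F P7_6 = 0 :=
  emp_z (by decide)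

theorem ev123 (x : K) (F : Pat (Fin 6) → K) :
    Y x 2 3 F P6_7 = F P6_7 + x * F P6_16 :=
  Y_0 (by decide) (by decide) (by decide)

theorem ev124 (w : Wt K) (F : Pat (Fin 6) → K) :
    R w 1 3 F P6_7 = w.v * F P6_7 + w.u1 * F P6_4 :=
  R_l (by decide) (by decide) (by decide)

theorem ev125 (w : Wt K) (F : Pat (Fin 6) → K) :
    R w 1 3 F P6_16 = w.w1 * F P6_11 + w.u2 * F P6_6 + w.w2 * F P6_8 :=
  R_d (by decide) (by decide) (by decide) (by decide) (by decide) (by decide)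

theorem ev126 (κ1 : K) (k1 : K) (F : Pat (Fin 6) → K) :
    top κ1 k1 1 2 4 F P6_11 = 0 :=
  top_z3 (by decide) (by decide)

theorem ev127 (F : Pat (Fin 6) → K) :
    emp 3 F P6_7 = F P6_7 :=
  emp_1 (by decide)

theorem ev128 (x : K) (F : Pat (Fin 6) → K) :
    Yt x 0 1 F P6_7 = x * F P6_17 :=
  Yt_2 (by decide) (by decide) (by decide)

theorem ev129 (κ2 : K) (k2 : K) (F : Pat (Fin 6) → K) :
    top κ2 k2 0 2 4 F P6_17 = k2 * F P6_0 :=
  top_l (by decide) (by decide) (by decide) (by decide)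

theorem ev130 (x : K) (F : Pat (Fin 7) → K) :
    Y x 2 3 F P7_2 = F P7_2 + x * F P7_7 :=
  Y_0 (by decide) (by decide) (by decide)

theorem ev131 (w : Wt K) (F : Pat (Fin 7) → K) :
    R w 1 3 F P7_2 = w.v * F P7_2 + w.u1 * F P7_0 :=
  R_l (by decide) (by decide) (by decide)

theorem ev132 (w : Wt K) (F : Pat (Fin 7) → K) :
    R w 1 3 F P7_7 = w.w1 * F P7_5 + w.u2 * F P7_1 + w.w2 * F P7_3 :=
  R_d (by decide) (by decide) (by decide) (by decide) (by decide) (by decide)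

theorem ev133 (κ1 : K) (k1 : K) (F : Pat (Fin 7) → K) :
    top κ1 k1 1 2 4 F P7_5 = 0 :=
  top_z3 (by decide) (by decide)

theorem ev134 (F : Pat (Fin 7) → K) :
    emp 3 F P7_2 = F P7_2 :=
  emp_1 (by decide)

theorem ev135 (x : K) (F : Pat (Fin 7) → K) :
    Yt x 0 1 F P7_2 = x * F P7_8 :=
  Yt_2 (by decide) (by decide) (by decide)

theorem ev136 (κ2 : K) (k2 : K) (F : Pat (Fin 7) → K) :
    top κ2 k2 0 2 4 F P7_8 = 0 :=
  top_z2 (by decide) (by decide) (by decide)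

theorem ev137 (x : K) (F : Pat (Fin 6) → K) :
    Y x 2 3 F P6_14 = 0 :=
  Y_z (by decide)

theorem ev138 (F : Pat (Fin 6) → K) :
    emp 3 F P6_14 = 0 :=
  emp_z (by decide)

theorem ev139 (x : K) (F : Pat (Fin 7) → K) :
    Y x 2 3 F P7_9 = 0 :=
  Y_z (by decide)

theorem ev140 (F : Pat (Fin 7) → K) :
    emp 3 F P7_9 = 0 :=
  emp_z (by decide)

theorem ev141 (x : K) (F : Pat (Fin 8) → K) :
    Y x 2 3 F P8_1 = 0 :=
  Y_z (by decide)

theorem ev142 (F : Pat (Fin 8) → K) :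
    emp 3 F P8_1 = 0 :=
  emp_z (by decide)

theorem ev143 (x : K) (F : Pat (Fin 6) → K) :
    Y x 2 3 F P6_16 = 0 :=
  Y_z (by decide)

theorem ev144 (F : Pat (Fin 6) → K) :
    emp 3 F P6_16 = 0 :=
  emp_z (by decide)

theorem ev145 (x : K) (F : Pat (Fin 7) → K) :
    Y x 2 3 F P7_7 = 0 :=
  Y_z (by decide)

theorem ev146 (F : Pat (Fin 7) → K) :
    emp 3 F P7_7 = 0 :=
  emp_z (by decide)

theorem ev147 (x : K) (F : Pat (Fin 6) → K) :
    Y x 2 3 F P6_18 = x * F P6_18 + x * F P6_14 :=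
  Y_1 (by decide) (by decide) (by decide)

theorem ev148 (w : Wt K) (F : Pat (Fin 6) → K) :
    R w 1 3 F P6_14 = w.w1 * F P6_12 + w.u2 * F P6_0 + w.w2 * F P6_2 :=
  R_d (by decide) (by decide) (by decide) (by decide) (by decide) (by decide)

theorem ev149 (w : Wt K) (F : Pat (Fin 6) → K) :
    R w 1 3 F P6_18 = w.v * F P6_18 + w.u1 * F P6_5 :=
  R_l (by decide) (by decide) (by decide)

theorem ev150 (κ1 : K) (k1 : K) (F : Pat (Fin 6) → K) :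
    top κ1 k1 1 2 4 F P6_5 = 0 :=
  top_z1 (by decide) (by decide) (by decide)

theorem ev151 (κ1 : K) (k1 : K) (F : Pat (Fin 6) → K) :
    top κ1 k1 1 2 4 F P6_12 = 0 :=
  top_z2 (by decide) (by decide) (by decide)

theorem ev152 (κ1 : K) (k1 : K) (F : Pat (Fin 6) → K) :
    top κ1 k1 1 2 4 F P6_18 = κ1 * F P6_0 :=
  top_d (by decide) (by decide) (by decide) (by decide)

theorem ev153 (F : Pat (Fin 6) → K) :
    emp 3 F P6_18 = F P6_18 :=
  emp_1 (by decide)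

theorem ev154 (x : K) (F : Pat (Fin 6) → K) :
    Yt x 0 1 F P6_18 = x * F P6_19 :=
  Yt_2 (by decide) (by decide) (by decide)

theorem ev155 (κ2 : K) (k2 : K) (F : Pat (Fin 6) → K) :
    top κ2 k2 0 2 4 F P6_19 = κ2 * F P6_0 :=
  top_d (by decide) (by decide) (by decide) (by decide)

theorem ev156 (x : K) (F : Pat (Fin 7) → K) :
    Y x 2 3 F P7_10 = 0 :=
  Y_z (by decide)

theorem ev157 (F : Pat (Fin 7) → K) :
    emp 3 F P7_10 = 0 :=
  emp_z (by decide)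

theorem ev158 (x : K) (F : Pat (Fin 7) → K) :
    Y x 2 3 F P7_11 = x * F P7_11 + x * F P7_9 :=
  Y_1 (by decide) (by decide) (by decide)

theorem ev159 (w : Wt K) (F : Pat (Fin 7) → K) :
    R w 1 3 F P7_9 = w.w1 * F P7_12 + w.u2 * F P7_13 + w.w2 * F P7_14 :=
  R_d (by decide) (by decide) (by decide) (by decide) (by decide) (by decide)

theorem ev160 (w : Wt K) (F : Pat (Fin 7) → K) :
    R w 1 3 F P7_11 = w.v * F P7_11 + w.u1 * F P7_15 :=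
  R_l (by decide) (by decide) (by decide)

theorem ev161 (κ1 : K) (k1 : K) (F : Pat (Fin 7) → K) :
    top κ1 k1 1 2 4 F P7_13 = F P7_13 :=
  top_0 (by decide) (by decide)

theorem ev162 (κ1 : K) (k1 : K) (F : Pat (Fin 7) → K) :
    top κ1 k1 1 2 4 F P7_15 = k1 * F P7_0 :=
  top_r (by decide) (by decide) (by decide) (by decide)

theorem ev163 (κ1 : K) (k1 : K) (F : Pat (Fin 7) → K) :
    top κ1 k1 1 2 4 F P7_14 = k1 * F P7_16 :=
  top_l (by decide) (by decide) (by decide) (by decide)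

theorem ev164 (κ1 : K) (k1 : K) (F : Pat (Fin 7) → K) :
    top κ1 k1 1 2 4 F P7_11 = κ1 * F P7_13 :=
  top_d (by decide) (by decide) (by decide) (by decide)

theorem ev165 (κ1 : K) (k1 : K) (F : Pat (Fin 7) → K) :
    top κ1 k1 1 2 4 F P7_12 = k1 * F P7_0 :=
  top_l (by decide) (by decide) (by decide) (by decide)

theorem ev166 (κ : K) (k : K) (F : Pat (Fin 7) → K) :
    top κ k 0 3 4 F P7_13 = F P7_13 :=
  top_0 (by decide) (by decide)

theorem ev167 (κ : K) (k : K) (F : Pat (Fin 7) → K) :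
    top κ k 0 3 4 F P7_16 = 0 :=
  top_z1 (by decide) (by decide) (by decide)

theorem ev168 (F : Pat (Fin 7) → K) :
    emp 3 F P7_11 = F P7_11 :=
  emp_1 (by decide)

theorem ev169 (x : K) (F : Pat (Fin 7) → K) :
    Yt x 0 1 F P7_11 = x * F P7_17 :=
  Yt_2 (by decide) (by decide) (by decide)

theorem ev170 (κ2 : K) (k2 : K) (F : Pat (Fin 7) → K) :
    top κ2 k2 0 2 4 F P7_17 = κ2 * F P7_13 :=
  top_d (by decide) (by decide) (by decide) (by decide)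

theorem ev171 (x : K) (F : Pat (Fin 8) → K) :
    Y x 2 3 F P8_2 = x * F P8_2 + x * F P8_1 :=
  Y_1 (by decide) (by decide) (by decide)

theorem ev172 (w : Wt K) (F : Pat (Fin 8) → K) :
    R w 1 3 F P8_1 = w.w1 * F P8_3 + w.u2 * F P8_4 + w.w2 * F P8_5 :=
  R_d (by decide) (by decide) (by decide) (by decide) (by decide) (by decide)

theorem ev173 (w : Wt K) (F : Pat (Fin 8) → K) :
    R w 1 3 F P8_2 = w.v * F P8_2 + w.u1 * F P8_6 :=
  R_l (by decide) (by decide) (by decide)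

theorem ev174 (κ1 : K) (k1 : K) (F : Pat (Fin 8) → K) :
    top κ1 k1 1 2 4 F P8_4 = F P8_4 :=
  top_0 (by decide) (by decide)

theorem ev175 (κ1 : K) (k1 : K) (F : Pat (Fin 8) → K) :
    top κ1 k1 1 2 4 F P8_6 = 0 :=
  top_z1 (by decide) (by decide) (by decide)

theorem ev176 (κ1 : K) (k1 : K) (F : Pat (Fin 8) → K) :
    top κ1 k1 1 2 4 F P8_5 = 0 :=
  top_z2 (by decide) (by decide) (by decide)

theorem ev177 (κ1 : K) (k1 : K) (F : Pat (Fin 8) → K) :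
    top κ1 k1 1 2 4 F P8_2 = κ1 * F P8_4 :=
  top_d (by decide) (by decide) (by decide) (by decide)

theorem ev178 (κ1 : K) (k1 : K) (F : Pat (Fin 8) → K) :
    top κ1 k1 1 2 4 F P8_3 = 0 :=
  top_z2 (by decide) (by decide) (by decide)

theorem ev179 (κ : K) (k : K) (F : Pat (Fin 8) → K) :
    top κ k 0 3 4 F P8_4 = F P8_4 :=
  top_0 (by decide) (by decide)

theorem ev180 (F : Pat (Fin 8) → K) :
    emp 3 F P8_2 = F P8_2 :=
  emp_1 (by decide)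

theorem ev181 (x : K) (F : Pat (Fin 8) → K) :
    Yt x 0 1 F P8_2 = x * F P8_7 :=
  Yt_2 (by decide) (by decide) (by decide)

theorem ev182 (κ2 : K) (k2 : K) (F : Pat (Fin 8) → K) :
    top κ2 k2 0 2 4 F P8_7 = κ2 * F P8_4 :=
  top_d (by decide) (by decide) (by decide) (by decide)

theorem ev183 (x : K) (F : Pat (Fin 7) → K) :
    Y x 2 3 F P7_18 = 0 :=
  Y_z (by decide)

theorem ev184 (F : Pat (Fin 7) → K) :
    emp 3 F P7_18 = 0 :=
  emp_z (by decide)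

theorem ev185 (x : K) (F : Pat (Fin 8) → K) :
    Y x 2 3 F P8_8 = 0 :=
  Y_z (by decide)

theorem ev186 (F : Pat (Fin 8) → K) :
    emp 3 F P8_8 = 0 :=
  emp_z (by decide)

theorem ev187 (x : K) (F : Pat (Fin 9) → K) :
    Y x 2 3 F P9_0 = 0 :=
  Y_z (by decide)

theorem ev188 (F : Pat (Fin 9) → K) :
    emp 3 F P9_0 = 0 :=
  emp_z (by decide)

theorem ev189 (x : K) (F : Pat (Fin 5) → K) :
    Y x 2 3 F P5_12 = F P5_12 + x * F P5_13 :=
  Y_0 (by decide) (by decide) (by decide)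

theorem ev190 (w : Wt K) (F : Pat (Fin 5) → K) :
    R w 1 3 F P5_12 = w.v * F P5_12 + w.u1 * F P5_14 :=
  R_l (by decide) (by decide) (by decide)

theorem ev191 (w : Wt K) (F : Pat (Fin 5) → K) :
    R w 1 3 F P5_13 = w.w1 * F P5_15 + w.u2 * F P5_8 + w.w2 * F P5_16 :=
  R_d (by decide) (by decide) (by decide) (by decide) (by decide) (by decide)

theorem ev192 (κ1 : K) (k1 : K) (F : Pat (Fin 5) → K) :
    top κ1 k1 1 2 4 F P5_12 = k1 * F P5_11 :=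
  top_l (by decide) (by decide) (by decide) (by decide)

theorem ev193 (κ1 : K) (k1 : K) (F : Pat (Fin 5) → K) :
    top κ1 k1 1 2 4 F P5_8 = k1 * F P5_11 :=
  top_r (by decide) (by decide) (by decide) (by decide)

theorem ev194 (κ1 : K) (k1 : K) (F : Pat (Fin 5) → K) :
    top κ1 k1 1 2 4 F P5_16 = κ1 * F P5_14 :=
  top_d (by decide) (by decide) (by decide) (by decide)

theorem ev195 (κ1 : K) (k1 : K) (F : Pat (Fin 5) → K) :
    top κ1 k1 1 2 4 F P5_14 = F P5_14 :=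
  top_0 (by decide) (by decide)

theorem ev196 (κ1 : K) (k1 : K) (F : Pat (Fin 5) → K) :
    top κ1 k1 1 2 4 F P5_15 = 0 :=
  top_z3 (by decide) (by decide)

theorem ev197 (κ : K) (k : K) (F : Pat (Fin 5) → K) :
    top κ k 0 3 4 F P5_14 = 0 :=
  top_z3 (by decide) (by decide)

theorem ev198 (κ : K) (k : K) (F : Pat (Fin 5) → K) :
    top κ k 0 3 4 F P5_11 = 0 :=
  top_z2 (by decide) (by decide) (by decide)

theorem ev199 (F : Pat (Fin 5) → K) :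
    emp 3 F P5_12 = F P5_12 :=
  emp_1 (by decide)

theorem ev200 (x : K) (F : Pat (Fin 5) → K) :
    Yt x 0 1 F P5_12 = 0 :=
  Yt_z (by decide) (by decide)

theorem ev201 (x : K) (F : Pat (Fin 6) → K) :
    Y x 2 3 F P6_20 = F P6_20 + x * F P6_21 :=
  Y_0 (by decide) (by decide) (by decide)

theorem ev202 (w : Wt K) (F : Pat (Fin 6) → K) :
    R w 1 3 F P6_20 = w.v * F P6_20 + w.u1 * F P6_22 :=
  R_l (by decide) (by decide) (by decide)

theorem ev203 (w : Wt K) (F : Pat (Fin 6) → K) :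
    R w 1 3 F P6_21 = w.w1 * F P6_23 + w.u2 * F P6_10 + w.w2 * F P6_24 :=
  R_d (by decide) (by decide) (by decide) (by decide) (by decide) (by decide)

theorem ev204 (κ1 : K) (k1 : K) (F : Pat (Fin 6) → K) :
    top κ1 k1 1 2 4 F P6_20 = 0 :=
  top_z2 (by decide) (by decide) (by decide)

theorem ev205 (κ1 : K) (k1 : K) (F : Pat (Fin 6) → K) :
    top κ1 k1 1 2 4 F P6_10 = 0 :=
  top_z1 (by decide) (by decide) (by decide)

theorem ev206 (κ1 : K) (k1 : K) (F : Pat (Fin 6) → K) :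
    top κ1 k1 1 2 4 F P6_24 = κ1 * F P6_22 :=
  top_d (by decide) (by decide) (by decide) (by decide)

theorem ev207 (κ1 : K) (k1 : K) (F : Pat (Fin 6) → K) :
    top κ1 k1 1 2 4 F P6_22 = F P6_22 :=
  top_0 (by decide) (by decide)

theorem ev208 (κ1 : K) (k1 : K) (F : Pat (Fin 6) → K) :
    top κ1 k1 1 2 4 F P6_23 = 0 :=
  top_z3 (by decide) (by decide)

theorem ev209 (κ : K) (k : K) (F : Pat (Fin 6) → K) :
    top κ k 0 3 4 F P6_22 = 0 :=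
  top_z3 (by decide) (by decide)

theorem ev210 (F : Pat (Fin 6) → K) :
    emp 3 F P6_20 = F P6_20 :=
  emp_1 (by decide)

theorem ev211 (x : K) (F : Pat (Fin 6) → K) :
    Yt x 0 1 F P6_20 = 0 :=
  Yt_z (by decide) (by decide)

theorem ev212 (x : K) (F : Pat (Fin 5) → K) :
    Y x 2 3 F P5_17 = 0 :=
  Y_z (by decide)

theorem ev213 (F : Pat (Fin 5) → K) :
    emp 3 F P5_17 = 0 :=
  emp_z (by decide)

theorem ev214 (x : K) (F : Pat (Fin 6) → K) :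
    Y x 2 3 F P6_25 = 0 :=
  Y_z (by decide)

theorem ev215 (F : Pat (Fin 6) → K) :
    emp 3 F P6_25 = 0 :=
  emp_z (by decide)

theorem ev216 (x : K) (F : Pat (Fin 7) → K) :
    Y x 2 3 F P7_19 = 0 :=
  Y_z (by decide)

theorem ev217 (F : Pat (Fin 7) → K) :
    emp 3 F P7_19 = 0 :=
  emp_z (by decide)

theorem ev218 (x : K) (F : Pat (Fin 5) → K) :
    Y x 2 3 F P5_13 = 0 :=
  Y_z (by decide)

theorem ev219 (F : Pat (Fin 5) → K) :
    emp 3 F P5_13 = 0 :=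
  emp_z (by decide)

theorem ev220 (x : K) (F : Pat (Fin 6) → K) :
    Y x 2 3 F P6_21 = 0 :=
  Y_z (by decide)

theorem ev221 (F : Pat (Fin 6) → K) :
    emp 3 F P6_21 = 0 :=
  emp_z (by decide)

theorem ev222 (x : K) (F : Pat (Fin 5) → K) :
    Y x 2 3 F P5_18 = x * F P5_18 + x * F P5_17 :=
  Y_1 (by decide) (by decide) (by decide)

theorem ev223 (w : Wt K) (F : Pat (Fin 5) → K) :
    R w 1 3 F P5_17 = w.w1 * F P5_19 + w.u2 * F P5_11 + w.w2 * F P5_20 :=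
  R_d (by decide) (by decide) (by decide) (by decide) (by decide) (by decide)

theorem ev224 (w : Wt K) (F : Pat (Fin 5) → K) :
    R w 1 3 F P5_18 = w.v * F P5_18 + w.u1 * F P5_21 :=
  R_l (by decide) (by decide) (by decide)

theorem ev225 (κ1 : K) (k1 : K) (F : Pat (Fin 5) → K) :
    top κ1 k1 1 2 4 F P5_18 = κ1 * F P5_11 :=
  top_d (by decide) (by decide) (by decide) (by decide)

theorem ev226 (κ1 : K) (k1 : K) (F : Pat (Fin 5) → K) :
    top κ1 k1 1 2 4 F P5_21 = 0 :=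
  top_z1 (by decide) (by decide) (by decide)

theorem ev227 (κ1 : K) (k1 : K) (F : Pat (Fin 5) → K) :
    top κ1 k1 1 2 4 F P5_19 = 0 :=
  top_z2 (by decide) (by decide) (by decide)

theorem ev228 (κ1 : K) (k1 : K) (F : Pat (Fin 5) → K) :
    top κ1 k1 1 2 4 F P5_11 = F P5_11 :=
  top_0 (by decide) (by decide)

theorem ev229 (κ1 : K) (k1 : K) (F : Pat (Fin 5) → K) :
    top κ1 k1 1 2 4 F P5_20 = 0 :=
  top_z2 (by decide) (by decide) (by decide)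

theorem ev230 (F : Pat (Fin 5) → K) :
    emp 3 F P5_18 = F P5_18 :=
  emp_1 (by decide)

theorem ev231 (x : K) (F : Pat (Fin 5) → K) :
    Yt x 0 1 F P5_18 = 0 :=
  Yt_z (by decide) (by decide)

theorem ev232 (x : K) (F : Pat (Fin 6) → K) :
    Y x 2 3 F P6_26 = 0 :=
  Y_z (by decide)

theorem ev233 (F : Pat (Fin 6) → K) :
    emp 3 F P6_26 = 0 :=
  emp_z (by decide)

theorem ev234 (x : K) (F : Pat (Fin 6) → K) :
    Y x 2 3 F P6_27 = x * F P6_27 + x * F P6_25 :=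
  Y_1 (by decide) (by decide) (by decide)

theorem ev235 (w : Wt K) (F : Pat (Fin 6) → K) :
    R w 1 3 F P6_25 = w.w1 * F P6_28 + w.u2 * F P6_17 + w.w2 * F P6_29 :=
  R_d (by decide) (by decide) (by decide) (by decide) (by decide) (by decide)

theorem ev236 (w : Wt K) (F : Pat (Fin 6) → K) :
    R w 1 3 F P6_27 = w.v * F P6_27 + w.u1 * F P6_30 :=
  R_l (by decide) (by decide) (by decide)

theorem ev237 (κ1 : K) (k1 : K) (F : Pat (Fin 6) → K) :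
    top κ1 k1 1 2 4 F P6_27 = κ1 * F P6_17 :=
  top_d (by decide) (by decide) (by decide) (by decide)

theorem ev238 (κ1 : K) (k1 : K) (F : Pat (Fin 6) → K) :
    top κ1 k1 1 2 4 F P6_30 = k1 * F P6_22 :=
  top_r (by decide) (by decide) (by decide) (by decide)

theorem ev239 (κ1 : K) (k1 : K) (F : Pat (Fin 6) → K) :
    top κ1 k1 1 2 4 F P6_28 = k1 * F P6_22 :=
  top_l (by decide) (by decide) (by decide) (by decide)

theorem ev240 (κ1 : K) (k1 : K) (F : Pat (Fin 6) → K) :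
    top κ1 k1 1 2 4 F P6_17 = F P6_17 :=
  top_0 (by decide) (by decide)

theorem ev241 (κ1 : K) (k1 : K) (F : Pat (Fin 6) → K) :
    top κ1 k1 1 2 4 F P6_29 = k1 * F P6_31 :=
  top_l (by decide) (by decide) (by decide) (by decide)

theorem ev242 (κ : K) (k : K) (F : Pat (Fin 6) → K) :
    top κ k 0 3 4 F P6_17 = k * F P6_0 :=
  top_l (by decide) (by decide) (by decide) (by decide)

theorem ev243 (κ : K) (k : K) (F : Pat (Fin 6) → K) :
    top κ k 0 3 4 F P6_31 = κ * F P6_0 :=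
  top_d (by decide) (by decide) (by decide) (by decide)

theorem ev244 (F : Pat (Fin 6) → K) :
    emp 3 F P6_27 = F P6_27 :=
  emp_1 (by decide)

theorem ev245 (x : K) (F : Pat (Fin 6) → K) :
    Yt x 0 1 F P6_27 = 0 :=
  Yt_z (by decide) (by decide)

theorem ev246 (x : K) (F : Pat (Fin 7) → K) :
    Y x 2 3 F P7_20 = x * F P7_20 + x * F P7_19 :=
  Y_1 (by decide) (by decide) (by decide)

theorem ev247 (w : Wt K) (F : Pat (Fin 7) → K) :
    R w 1 3 F P7_19 = w.w1 * F P7_21 + w.u2 * F P7_8 + w.w2 * F P7_22 :=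
  R_d (by decide) (by decide) (by decide) (by decide) (by decide) (by decide)

theorem ev248 (w : Wt K) (F : Pat (Fin 7) → K) :
    R w 1 3 F P7_20 = w.v * F P7_20 + w.u1 * F P7_23 :=
  R_l (by decide) (by decide) (by decide)

theorem ev249 (κ1 : K) (k1 : K) (F : Pat (Fin 7) → K) :
    top κ1 k1 1 2 4 F P7_20 = κ1 * F P7_8 :=
  top_d (by decide) (by decide) (by decide) (by decide)

theorem ev250 (κ1 : K) (k1 : K) (F : Pat (Fin 7) → K) :
    top κ1 k1 1 2 4 F P7_23 = 0 :=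
  top_z1 (by decide) (by decide) (by decide)

theorem ev251 (κ1 : K) (k1 : K) (F : Pat (Fin 7) → K) :
    top κ1 k1 1 2 4 F P7_21 = 0 :=
  top_z2 (by decide) (by decide) (by decide)

theorem ev252 (κ1 : K) (k1 : K) (F : Pat (Fin 7) → K) :
    top κ1 k1 1 2 4 F P7_8 = F P7_8 :=
  top_0 (by decide) (by decide)

theorem ev253 (κ1 : K) (k1 : K) (F : Pat (Fin 7) → K) :
    top κ1 k1 1 2 4 F P7_22 = 0 :=
  top_z2 (by decide) (by decide) (by decide)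

theorem ev254 (κ : K) (k : K) (F : Pat (Fin 7) → K) :
    top κ k 0 3 4 F P7_8 = 0 :=
  top_z2 (by decide) (by decide) (by decide)

theorem ev255 (F : Pat (Fin 7) → K) :
    emp 3 F P7_20 = F P7_20 :=
  emp_1 (by decide)

theorem ev256 (x : K) (F : Pat (Fin 7) → K) :
    Yt x 0 1 F P7_20 = 0 :=
  Yt_z (by decide) (by decide)

theorem ev257 (x : K) (F : Pat (Fin 6) → K) :
    Y x 2 3 F P6_32 = 0 :=
  Y_z (by decide)

theorem ev258 (F : Pat (Fin 6) → K) :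
    emp 3 F P6_32 = 0 :=
  emp_z (by decide)

theorem ev259 (x : K) (F : Pat (Fin 7) → K) :
    Y x 2 3 F P7_24 = 0 :=
  Y_z (by decide)

theorem ev260 (F : Pat (Fin 7) → K) :
    emp 3 F P7_24 = 0 :=
  emp_z (by decide)

theorem ev261 (x : K) (F : Pat (Fin 8) → K) :
    Y x 2 3 F P8_9 = 0 :=
  Y_z (by decide)

theorem ev262 (F : Pat (Fin 8) → K) :
    emp 3 F P8_9 = 0 :=
  emp_z (by decide)

theorem ev263 (x : K) (F : Pat (Fin 5) → K) :
    Y x 2 3 F P5_8 = x * F P5_8 + x * F P5_14 :=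
  Y_1 (by decide) (by decide) (by decide)

theorem ev264 (w : Wt K) (F : Pat (Fin 5) → K) :
    R w 1 3 F P5_8 = F P5_8 + w.u2 * F P5_16 :=
  R_e (by decide) (by decide) (by decide)

theorem ev265 (w : Wt K) (F : Pat (Fin 5) → K) :
    R w 1 3 F P5_14 = w.v * F P5_14 + w.u1 * F P5_12 :=
  R_r (by decide) (by decide) (by decide)

theorem ev266 (F : Pat (Fin 5) → K) :
    emp 3 F P5_8 = F P5_8 :=
  emp_1 (by decide)

theorem ev267 (x : K) (F : Pat (Fin 5) → K) :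
    Yt x 0 1 F P5_8 = x * F P5_8 :=
  Yt_1 (by decide) (by decide)

theorem ev268 (x : K) (F : Pat (Fin 6) → K) :
    Y x 2 3 F P6_10 = x * F P6_10 + x * F P6_22 :=
  Y_1 (by decide) (by decide) (by decide)

theorem ev269 (w : Wt K) (F : Pat (Fin 6) → K) :
    R w 1 3 F P6_10 = F P6_10 + w.u2 * F P6_24 :=
  R_e (by decide) (by decide) (by decide)

theorem ev270 (w : Wt K) (F : Pat (Fin 6) → K) :
    R w 1 3 F P6_22 = w.v * F P6_22 + w.u1 * F P6_20 :=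
  R_r (by decide) (by decide) (by decide)

theorem ev271 (F : Pat (Fin 6) → K) :
    emp 3 F P6_10 = F P6_10 :=
  emp_1 (by decide)

theorem ev272 (x : K) (F : Pat (Fin 6) → K) :
    Yt x 0 1 F P6_10 = x * F P6_10 :=
  Yt_1 (by decide) (by decide)

theorem ev273 (x : K) (F : Pat (Fin 5) → K) :
    Y x 2 3 F P5_22 = 0 :=
  Y_z (by decide)

theorem ev274 (F : Pat (Fin 5) → K) :
    emp 3 F P5_22 = 0 :=
  emp_z (by decide)

theorem ev275 (x : K) (F : Pat (Fin 6) → K) :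
    Y x 2 3 F P6_33 = 0 :=
  Y_z (by decide)

theorem ev276 (F : Pat (Fin 6) → K) :
    emp 3 F P6_33 = 0 :=
  emp_z (by decide)

theorem ev277 (x : K) (F : Pat (Fin 7) → K) :
    Y x 2 3 F P7_25 = 0 :=
  Y_z (by decide)

theorem ev278 (F : Pat (Fin 7) → K) :
    emp 3 F P7_25 = 0 :=
  emp_z (by decide)

theorem ev279 (x : K) (F : Pat (Fin 5) → K) :
    Y x 2 3 F P5_16 = 0 :=
  Y_z (by decide)

theorem ev280 (F : Pat (Fin 5) → K) :
    emp 3 F P5_16 = 0 :=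
  emp_z (by decide)

theorem ev281 (x : K) (F : Pat (Fin 6) → K) :
    Y x 2 3 F P6_24 = 0 :=
  Y_z (by decide)

theorem ev282 (F : Pat (Fin 6) → K) :
    emp 3 F P6_24 = 0 :=
  emp_z (by decide)

theorem ev283 (x : K) (F : Pat (Fin 5) → K) :
    Y x 2 3 F P5_23 = x * F P5_23 + x * F P5_19 :=
  Y_1 (by decide) (by decide) (by decide)

theorem ev284 (w : Wt K) (F : Pat (Fin 5) → K) :
    R w 1 3 F P5_23 = w.v * F P5_23 + w.u1 * F P5_22 :=
  R_l (by decide) (by decide) (by decide)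

theorem ev285 (w : Wt K) (F : Pat (Fin 5) → K) :
    R w 1 3 F P5_19 = w.w1 * F P5_17 + w.u2 * F P5_11 + w.w2 * F P5_20 :=
  R_d (by decide) (by decide) (by decide) (by decide) (by decide) (by decide)

theorem ev286 (κ1 : K) (k1 : K) (F : Pat (Fin 5) → K) :
    top κ1 k1 1 2 4 F P5_17 = 0 :=
  top_z2 (by decide) (by decide) (by decide)

theorem ev287 (κ1 : K) (k1 : K) (F : Pat (Fin 5) → K) :
    top κ1 k1 1 2 4 F P5_22 = 0 :=
  top_z1 (by decide) (by decide) (by decide)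

theorem ev288 (κ1 : K) (k1 : K) (F : Pat (Fin 5) → K) :
    top κ1 k1 1 2 4 F P5_23 = κ1 * F P5_11 :=
  top_d (by decide) (by decide) (by decide) (by decide)

theorem ev289 (F : Pat (Fin 5) → K) :
    emp 3 F P5_23 = F P5_23 :=
  emp_1 (by decide)

theorem ev290 (x : K) (F : Pat (Fin 5) → K) :
    Yt x 0 1 F P5_23 = x * F P5_5 :=
  Yt_3 (by decide) (by decide) (by decide) (by decide)

theorem ev291 (x : K) (F : Pat (Fin 6) → K) :
    Y x 2 3 F P6_34 = 0 :=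
  Y_z (by decide)

theorem ev292 (F : Pat (Fin 6) → K) :
    emp 3 F P6_34 = 0 :=
  emp_z (by decide)

theorem ev293 (x : K) (F : Pat (Fin 6) → K) :
    Y x 2 3 F P6_35 = x * F P6_35 + x * F P6_28 :=
  Y_1 (by decide) (by decide) (by decide)

theorem ev294 (w : Wt K) (F : Pat (Fin 6) → K) :
    R w 1 3 F P6_35 = w.v * F P6_35 + w.u1 * F P6_33 :=
  R_l (by decide) (by decide) (by decide)

theorem ev295 (w : Wt K) (F : Pat (Fin 6) → K) :
    R w 1 3 F P6_28 = w.w1 * F P6_25 + w.u2 * F P6_17 + w.w2 * F P6_29 :=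
  R_d (by decide) (by decide) (by decide) (by decide) (by decide) (by decide)

theorem ev296 (κ1 : K) (k1 : K) (F : Pat (Fin 6) → K) :
    top κ1 k1 1 2 4 F P6_25 = k1 * F P6_36 :=
  top_l (by decide) (by decide) (by decide) (by decide)

theorem ev297 (κ1 : K) (k1 : K) (F : Pat (Fin 6) → K) :
    top κ1 k1 1 2 4 F P6_33 = k1 * F P6_36 :=
  top_r (by decide) (by decide) (by decide) (by decide)

theorem ev298 (κ1 : K) (k1 : K) (F : Pat (Fin 6) → K) :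
    top κ1 k1 1 2 4 F P6_35 = κ1 * F P6_17 :=
  top_d (by decide) (by decide) (by decide) (by decide)

theorem ev299 (κ : K) (k : K) (F : Pat (Fin 6) → K) :
    top κ k 0 3 4 F P6_36 = κ * F P6_0 :=
  top_d (by decide) (by decide) (by decide) (by decide)

theorem ev300 (F : Pat (Fin 6) → K) :
    emp 3 F P6_35 = F P6_35 :=
  emp_1 (by decide)

theorem ev301 (x : K) (F : Pat (Fin 6) → K) :
    Yt x 0 1 F P6_35 = x * F P6_6 :=
  Yt_3 (by decide) (by decide) (by decide) (by decide)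

theorem ev302 (x : K) (F : Pat (Fin 7) → K) :
    Y x 2 3 F P7_26 = x * F P7_26 + x * F P7_21 :=
  Y_1 (by decide) (by decide) (by decide)

theorem ev303 (w : Wt K) (F : Pat (Fin 7) → K) :
    R w 1 3 F P7_26 = w.v * F P7_26 + w.u1 * F P7_25 :=
  R_l (by decide) (by decide) (by decide)

theorem ev304 (w : Wt K) (F : Pat (Fin 7) → K) :
    R w 1 3 F P7_21 = w.w1 * F P7_19 + w.u2 * F P7_8 + w.w2 * F P7_22 :=
  R_d (by decide) (by decide) (by decide) (by decide) (by decide) (by decide)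

theorem ev305 (κ1 : K) (k1 : K) (F : Pat (Fin 7) → K) :
    top κ1 k1 1 2 4 F P7_19 = 0 :=
  top_z2 (by decide) (by decide) (by decide)

theorem ev306 (κ1 : K) (k1 : K) (F : Pat (Fin 7) → K) :
    top κ1 k1 1 2 4 F P7_25 = 0 :=
  top_z1 (by decide) (by decide) (by decide)

theorem ev307 (κ1 : K) (k1 : K) (F : Pat (Fin 7) → K) :
    top κ1 k1 1 2 4 F P7_26 = κ1 * F P7_8 :=
  top_d (by decide) (by decide) (by decide) (by decide)

theorem ev308 (F : Pat (Fin 7) → K) :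
    emp 3 F P7_26 = F P7_26 :=
  emp_1 (by decide)

theorem ev309 (x : K) (F : Pat (Fin 7) → K) :
    Yt x 0 1 F P7_26 = x * F P7_1 :=
  Yt_3 (by decide) (by decide) (by decide) (by decide)

theorem ev310 (x : K) (F : Pat (Fin 6) → K) :
    Y x 2 3 F P6_37 = 0 :=
  Y_z (by decide)

theorem ev311 (F : Pat (Fin 6) → K) :
    emp 3 F P6_37 = 0 :=
  emp_z (by decide)

theorem ev312 (x : K) (F : Pat (Fin 7) → K) :
    Y x 2 3 F P7_27 = 0 :=
  Y_z (by decide)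

theorem ev313 (F : Pat (Fin 7) → K) :
    emp 3 F P7_27 = 0 :=
  emp_z (by decide)

theorem ev314 (x : K) (F : Pat (Fin 8) → K) :
    Y x 2 3 F P8_10 = 0 :=
  Y_z (by decide)

theorem ev315 (F : Pat (Fin 8) → K) :
    emp 3 F P8_10 = 0 :=
  emp_z (by decide)

theorem ev316 (x : K) (F : Pat (Fin 5) → K) :
    Y x 2 3 F P5_14 = 0 :=
  Y_z (by decide)

theorem ev317 (F : Pat (Fin 5) → K) :
    emp 3 F P5_14 = 0 :=
  emp_z (by decide)

theorem ev318 (x : K) (F : Pat (Fin 6) → K) :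
    Y x 2 3 F P6_22 = 0 :=
  Y_z (by decide)

theorem ev319 (F : Pat (Fin 6) → K) :
    emp 3 F P6_22 = 0 :=
  emp_z (by decide)

theorem ev320 (x : K) (F : Pat (Fin 5) → K) :
    Y x 2 3 F P5_21 = 0 :=
  Y_z (by decide)

theorem ev321 (F : Pat (Fin 5) → K) :
    emp 3 F P5_21 = 0 :=
  emp_z (by decide)

theorem ev322 (x : K) (F : Pat (Fin 6) → K) :
    Y x 2 3 F P6_30 = 0 :=
  Y_z (by decide)

theorem ev323 (F : Pat (Fin 6) → K) :
    emp 3 F P6_30 = 0 :=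
  emp_z (by decide)

theorem ev324 (x : K) (F : Pat (Fin 7) → K) :
    Y x 2 3 F P7_23 = 0 :=
  Y_z (by decide)

theorem ev325 (F : Pat (Fin 7) → K) :
    emp 3 F P7_23 = 0 :=
  emp_z (by decide)

theorem ev326 (x : K) (F : Pat (Fin 5) → K) :
    Y x 2 3 F P5_15 = 0 :=
  Y_z (by decide)

theorem ev327 (F : Pat (Fin 5) → K) :
    emp 3 F P5_15 = 0 :=
  emp_z (by decide)

theorem ev328 (x : K) (F : Pat (Fin 6) → K) :
    Y x 2 3 F P6_23 = 0 :=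
  Y_z (by decide)

theorem ev329 (F : Pat (Fin 6) → K) :
    emp 3 F P6_23 = 0 :=
  emp_z (by decide)

theorem ev330 (x : K) (F : Pat (Fin 5) → K) :
    Y x 2 3 F P5_19 = 0 :=
  Y_z (by decide)

theorem ev331 (F : Pat (Fin 5) → K) :
    emp 3 F P5_19 = 0 :=
  emp_z (by decide)

theorem ev332 (x : K) (F : Pat (Fin 6) → K) :
    Y x 2 3 F P6_38 = 0 :=
  Y_z (by decide)

theorem ev333 (F : Pat (Fin 6) → K) :
    emp 3 F P6_38 = 0 :=
  emp_z (by decide)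

theorem ev334 (x : K) (F : Pat (Fin 6) → K) :
    Y x 2 3 F P6_28 = 0 :=
  Y_z (by decide)

theorem ev335 (F : Pat (Fin 6) → K) :
    emp 3 F P6_28 = 0 :=
  emp_z (by decide)

theorem ev336 (x : K) (F : Pat (Fin 7) → K) :
    Y x 2 3 F P7_21 = 0 :=
  Y_z (by decide)

theorem ev337 (F : Pat (Fin 7) → K) :
    emp 3 F P7_21 = 0 :=
  emp_z (by decide)

theorem ev338 (x : K) (F : Pat (Fin 6) → K) :
    Y x 2 3 F P6_39 = 0 :=
  Y_z (by decide)

theorem ev339 (F : Pat (Fin 6) → K) :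
    emp 3 F P6_39 = 0 :=
  emp_z (by decide)

theorem ev340 (x : K) (F : Pat (Fin 7) → K) :
    Y x 2 3 F P7_28 = 0 :=
  Y_z (by decide)

theorem ev341 (F : Pat (Fin 7) → K) :
    emp 3 F P7_28 = 0 :=
  emp_z (by decide)

theorem ev342 (x : K) (F : Pat (Fin 8) → K) :
    Y x 2 3 F P8_11 = 0 :=
  Y_z (by decide)

theorem ev343 (F : Pat (Fin 8) → K) :
    emp 3 F P8_11 = 0 :=
  emp_z (by decide)

theorem ev344 (x : K) (F : Pat (Fin 5) → K) :
    Y x 2 3 F P5_11 = F P5_11 + x * F P5_24 :=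
  Y_0 (by decide) (by decide) (by decide)

theorem ev345 (w : Wt K) (F : Pat (Fin 5) → K) :
    R w 1 3 F P5_11 = F P5_11 + w.u2 * F P5_20 :=
  R_e (by decide) (by decide) (by decide)

theorem ev346 (w : Wt K) (F : Pat (Fin 5) → K) :
    R w 1 3 F P5_24 = w.v * F P5_24 + w.u1 * F P5_25 :=
  R_r (by decide) (by decide) (by decide)

theorem ev347 (κ1 : K) (k1 : K) (F : Pat (Fin 5) → K) :
    top κ1 k1 1 2 4 F P5_24 = 0 :=
  top_z1 (by decide) (by decide) (by decide)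

theorem ev348 (κ1 : K) (k1 : K) (F : Pat (Fin 5) → K) :
    top κ1 k1 1 2 4 F P5_25 = 0 :=
  top_z3 (by decide) (by decide)

theorem ev349 (F : Pat (Fin 5) → K) :
    emp 3 F P5_11 = F P5_11 :=
  emp_1 (by decide)

theorem ev350 (x : K) (F : Pat (Fin 5) → K) :
    Yt x 0 1 F P5_11 = x * F P5_11 :=
  Yt_1 (by decide) (by decide)

theorem ev351 (x : K) (F : Pat (Fin 6) → K) :
    Y x 2 3 F P6_36 = 0 :=
  Y_z (by decide)

theorem ev352 (F : Pat (Fin 6) → K) :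
    emp 3 F P6_36 = 0 :=
  emp_z (by decide)

theorem ev353 (x : K) (F : Pat (Fin 5) → K) :
    Y x 2 3 F P5_24 = 0 :=
  Y_z (by decide)

theorem ev354 (F : Pat (Fin 5) → K) :
    emp 3 F P5_24 = 0 :=
  emp_z (by decide)

theorem ev355 (x : K) (F : Pat (Fin 6) → K) :
    Y x 2 3 F P6_15 = x * F P6_15 + x * F P6_36 :=
  Y_1 (by decide) (by decide) (by decide)

theorem ev356 (w : Wt K) (F : Pat (Fin 6) → K) :
    R w 1 3 F P6_36 = w.v * F P6_36 + w.u1 * F P6_40 :=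
  R_r (by decide) (by decide) (by decide)

theorem ev357 (w : Wt K) (F : Pat (Fin 6) → K) :
    R w 1 3 F P6_15 = F P6_15 + w.u2 * F P6_41 :=
  R_e (by decide) (by decide) (by decide)

theorem ev358 (κ1 : K) (k1 : K) (F : Pat (Fin 6) → K) :
    top κ1 k1 1 2 4 F P6_36 = F P6_36 :=
  top_0 (by decide) (by decide)

theorem ev359 (κ1 : K) (k1 : K) (F : Pat (Fin 6) → K) :
    top κ1 k1 1 2 4 F P6_15 = 0 :=
  top_z1 (by decide) (by decide) (by decide)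

theorem ev360 (κ1 : K) (k1 : K) (F : Pat (Fin 6) → K) :
    top κ1 k1 1 2 4 F P6_41 = κ1 * F P6_36 :=
  top_d (by decide) (by decide) (by decide) (by decide)

theorem ev361 (κ1 : K) (k1 : K) (F : Pat (Fin 6) → K) :
    top κ1 k1 1 2 4 F P6_40 = 0 :=
  top_z2 (by decide) (by decide) (by decide)

theorem ev362 (F : Pat (Fin 6) → K) :
    emp 3 F P6_15 = F P6_15 :=
  emp_1 (by decide)

theorem ev363 (x : K) (F : Pat (Fin 6) → K) :
    Yt x 0 1 F P6_15 = x * F P6_15 :=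
  Yt_1 (by decide) (by decide)

theorem ev364 (x : K) (F : Pat (Fin 7) → K) :
    Y x 2 3 F P7_29 = 0 :=
  Y_z (by decide)

theorem ev365 (F : Pat (Fin 7) → K) :
    emp 3 F P7_29 = 0 :=
  emp_z (by decide)

theorem ev366 (x : K) (F : Pat (Fin 5) → K) :
    Y x 2 3 F P5_25 = x * F P5_25 + x * F P5_20 :=
  Y_1 (by decide) (by decide) (by decide)

theorem ev367 (w : Wt K) (F : Pat (Fin 5) → K) :
    R w 1 3 F P5_25 = w.v * F P5_25 + w.u1 * F P5_24 :=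
  R_l (by decide) (by decide) (by decide)

theorem ev368 (w : Wt K) (F : Pat (Fin 5) → K) :
    R w 1 3 F P5_20 = w.w1 * F P5_20 :=
  R_p (by decide) (by decide)

theorem ev369 (F : Pat (Fin 5) → K) :
    emp 3 F P5_25 = F P5_25 :=
  emp_1 (by decide)

theorem ev370 (x : K) (F : Pat (Fin 5) → K) :
    Yt x 0 1 F P5_25 = x * F P5_5 :=
  Yt_3 (by decide) (by decide) (by decide) (by decide)

theorem ev371 (x : K) (F : Pat (Fin 6) → K) :
    Y x 2 3 F P6_42 = 0 :=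
  Y_z (by decide)

theorem ev372 (F : Pat (Fin 6) → K) :
    emp 3 F P6_42 = 0 :=
  emp_z (by decide)

theorem ev373 (x : K) (F : Pat (Fin 5) → K) :
    Y x 2 3 F P5_20 = 0 :=
  Y_z (by decide)

theorem ev374 (F : Pat (Fin 5) → K) :
    emp 3 F P5_20 = 0 :=
  emp_z (by decide)

theorem ev375 (x : K) (F : Pat (Fin 6) → K) :
    Y x 2 3 F P6_41 = 0 :=
  Y_z (by decide)

theorem ev376 (F : Pat (Fin 6) → K) :
    emp 3 F P6_41 = 0 :=
  emp_z (by decide)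

theorem ev377 (x : K) (F : Pat (Fin 6) → K) :
    Y x 2 3 F P6_40 = F P6_40 + x * F P6_43 :=
  Y_0 (by decide) (by decide) (by decide)

theorem ev378 (w : Wt K) (F : Pat (Fin 6) → K) :
    R w 1 3 F P6_40 = w.v * F P6_40 + w.u1 * F P6_36 :=
  R_l (by decide) (by decide) (by decide)

theorem ev379 (w : Wt K) (F : Pat (Fin 6) → K) :
    R w 1 3 F P6_43 = w.w1 * F P6_42 + w.u2 * F P6_15 + w.w2 * F P6_41 :=
  R_d (by decide) (by decide) (by decide) (by decide) (by decide) (by decide)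

theorem ev380 (κ1 : K) (k1 : K) (F : Pat (Fin 6) → K) :
    top κ1 k1 1 2 4 F P6_42 = 0 :=
  top_z3 (by decide) (by decide)

theorem ev381 (F : Pat (Fin 6) → K) :
    emp 3 F P6_40 = F P6_40 :=
  emp_1 (by decide)

theorem ev382 (x : K) (F : Pat (Fin 6) → K) :
    Yt x 0 1 F P6_40 = x * F P6_0 :=
  Yt_3 (by decide) (by decide) (by decide) (by decide)

theorem ev383 (x : K) (F : Pat (Fin 7) → K) :
    Y x 2 3 F P7_30 = 0 :=
  Y_z (by decide)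

theorem ev384 (F : Pat (Fin 7) → K) :
    emp 3 F P7_30 = 0 :=
  emp_z (by decide)

theorem ev385 (x : K) (F : Pat (Fin 6) → K) :
    Y x 2 3 F P6_43 = 0 :=
  Y_z (by decide)

theorem ev386 (F : Pat (Fin 6) → K) :
    emp 3 F P6_43 = 0 :=
  emp_z (by decide)

theorem ev387 (x : K) (F : Pat (Fin 7) → K) :
    Y x 2 3 F P7_31 = x * F P7_31 + x * F P7_30 :=
  Y_1 (by decide) (by decide) (by decide)

theorem ev388 (w : Wt K) (F : Pat (Fin 7) → K) :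
    R w 1 3 F P7_30 = w.w1 * F P7_32 + w.u2 * F P7_33 + w.w2 * F P7_34 :=
  R_d (by decide) (by decide) (by decide) (by decide) (by decide) (by decide)

theorem ev389 (w : Wt K) (F : Pat (Fin 7) → K) :
    R w 1 3 F P7_31 = w.v * F P7_31 + w.u1 * F P7_35 :=
  R_l (by decide) (by decide) (by decide)

theorem ev390 (κ1 : K) (k1 : K) (F : Pat (Fin 7) → K) :
    top κ1 k1 1 2 4 F P7_33 = F P7_33 :=
  top_0 (by decide) (by decide)

theorem ev391 (κ1 : K) (k1 : K) (F : Pat (Fin 7) → K) :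
    top κ1 k1 1 2 4 F P7_35 = 0 :=
  top_z1 (by decide) (by decide) (by decide)

theorem ev392 (κ1 : K) (k1 : K) (F : Pat (Fin 7) → K) :
    top κ1 k1 1 2 4 F P7_34 = 0 :=
  top_z2 (by decide) (by decide) (by decide)

theorem ev393 (κ1 : K) (k1 : K) (F : Pat (Fin 7) → K) :
    top κ1 k1 1 2 4 F P7_31 = κ1 * F P7_33 :=
  top_d (by decide) (by decide) (by decide) (by decide)

theorem ev394 (κ1 : K) (k1 : K) (F : Pat (Fin 7) → K) :
    top κ1 k1 1 2 4 F P7_32 = 0 :=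
  top_z2 (by decide) (by decide) (by decide)

theorem ev395 (κ : K) (k : K) (F : Pat (Fin 7) → K) :
    top κ k 0 3 4 F P7_33 = 0 :=
  top_z2 (by decide) (by decide) (by decide)

theorem ev396 (F : Pat (Fin 7) → K) :
    emp 3 F P7_31 = F P7_31 :=
  emp_1 (by decide)

theorem ev397 (x : K) (F : Pat (Fin 7) → K) :
    Yt x 0 1 F P7_31 = x * F P7_36 :=
  Yt_3 (by decide) (by decide) (by decide) (by decide)

theorem ev398 (κ2 : K) (k2 : K) (F : Pat (Fin 7) → K) :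
    top κ2 k2 0 2 4 F P7_36 = 0 :=
  top_z1 (by decide) (by decide) (by decide)

theorem ev399 (x : K) (F : Pat (Fin 8) → K) :
    Y x 2 3 F P8_12 = 0 :=
  Y_z (by decide)

theorem ev400 (F : Pat (Fin 8) → K) :
    emp 3 F P8_12 = 0 :=
  emp_z (by decide)

theorem ev401 (x : K) (F : Pat (Fin 6) → K) :
    Y x 2 3 F P6_17 = F P6_17 + x * F P6_44 :=
  Y_0 (by decide) (by decide) (by decide)

theorem ev402 (w : Wt K) (F : Pat (Fin 6) → K) :
    R w 1 3 F P6_17 = F P6_17 + w.u2 * F P6_29 :=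
  R_e (by decide) (by decide) (by decide)

theorem ev403 (w : Wt K) (F : Pat (Fin 6) → K) :
    R w 1 3 F P6_44 = w.v * F P6_44 + w.u1 * F P6_45 :=
  R_r (by decide) (by decide) (by decide)

theorem ev404 (κ1 : K) (k1 : K) (F : Pat (Fin 6) → K) :
    top κ1 k1 1 2 4 F P6_44 = k1 * F P6_31 :=
  top_r (by decide) (by decide) (by decide) (by decide)

theorem ev405 (κ1 : K) (k1 : K) (F : Pat (Fin 6) → K) :
    top κ1 k1 1 2 4 F P6_45 = 0 :=
  top_z3 (by decide) (by decide)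

theorem ev406 (F : Pat (Fin 6) → K) :
    emp 3 F P6_17 = F P6_17 :=
  emp_1 (by decide)

theorem ev407 (x : K) (F : Pat (Fin 6) → K) :
    Yt x 0 1 F P6_17 = x * F P6_17 :=
  Yt_1 (by decide) (by decide)

theorem ev408 (x : K) (F : Pat (Fin 7) → K) :
    Y x 2 3 F P7_8 = F P7_8 + x * F P7_37 :=
  Y_0 (by decide) (by decide) (by decide)

theorem ev409 (w : Wt K) (F : Pat (Fin 7) → K) :
    R w 1 3 F P7_8 = F P7_8 + w.u2 * F P7_22 :=
  R_e (by decide) (by decide) (by decide)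

theorem ev410 (w : Wt K) (F : Pat (Fin 7) → K) :
    R w 1 3 F P7_37 = w.v * F P7_37 + w.u1 * F P7_38 :=
  R_r (by decide) (by decide) (by decide)

theorem ev411 (κ1 : K) (k1 : K) (F : Pat (Fin 7) → K) :
    top κ1 k1 1 2 4 F P7_37 = 0 :=
  top_z1 (by decide) (by decide) (by decide)

theorem ev412 (κ1 : K) (k1 : K) (F : Pat (Fin 7) → K) :
    top κ1 k1 1 2 4 F P7_38 = 0 :=
  top_z3 (by decide) (by decide)

theorem ev413 (F : Pat (Fin 7) → K) :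
    emp 3 F P7_8 = F P7_8 :=
  emp_1 (by decide)

theorem ev414 (x : K) (F : Pat (Fin 7) → K) :
    Yt x 0 1 F P7_8 = x * F P7_8 :=
  Yt_1 (by decide) (by decide)

theorem ev415 (x : K) (F : Pat (Fin 6) → K) :
    Y x 2 3 F P6_31 = 0 :=
  Y_z (by decide)

theorem ev416 (F : Pat (Fin 6) → K) :
    emp 3 F P6_31 = 0 :=
  emp_z (by decide)

theorem ev417 (x : K) (F : Pat (Fin 7) → K) :
    Y x 2 3 F P7_39 = 0 :=
  Y_z (by decide)

theorem ev418 (F : Pat (Fin 7) → K) :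
    emp 3 F P7_39 = 0 :=
  emp_z (by decide)

theorem ev419 (x : K) (F : Pat (Fin 8) → K) :
    Y x 2 3 F P8_13 = 0 :=
  Y_z (by decide)

theorem ev420 (F : Pat (Fin 8) → K) :
    emp 3 F P8_13 = 0 :=
  emp_z (by decide)

theorem ev421 (x : K) (F : Pat (Fin 6) → K) :
    Y x 2 3 F P6_44 = 0 :=
  Y_z (by decide)

theorem ev422 (F : Pat (Fin 6) → K) :
    emp 3 F P6_44 = 0 :=
  emp_z (by decide)

theorem ev423 (x : K) (F : Pat (Fin 7) → K) :
    Y x 2 3 F P7_37 = 0 :=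
  Y_z (by decide)

theorem ev424 (F : Pat (Fin 7) → K) :
    emp 3 F P7_37 = 0 :=
  emp_z (by decide)

theorem ev425 (x : K) (F : Pat (Fin 6) → K) :
    Y x 2 3 F P6_19 = x * F P6_19 + x * F P6_31 :=
  Y_1 (by decide) (by decide) (by decide)

theorem ev426 (w : Wt K) (F : Pat (Fin 6) → K) :
    R w 1 3 F P6_31 = w.v * F P6_31 + w.u1 * F P6_46 :=
  R_r (by decide) (by decide) (by decide)

theorem ev427 (w : Wt K) (F : Pat (Fin 6) → K) :
    R w 1 3 F P6_19 = F P6_19 + w.u2 * F P6_47 :=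
  R_e (by decide) (by decide) (by decide)

theorem ev428 (κ1 : K) (k1 : K) (F : Pat (Fin 6) → K) :
    top κ1 k1 1 2 4 F P6_31 = F P6_31 :=
  top_0 (by decide) (by decide)

theorem ev429 (κ1 : K) (k1 : K) (F : Pat (Fin 6) → K) :
    top κ1 k1 1 2 4 F P6_19 = 0 :=
  top_z1 (by decide) (by decide) (by decide)

theorem ev430 (κ1 : K) (k1 : K) (F : Pat (Fin 6) → K) :
    top κ1 k1 1 2 4 F P6_47 = κ1 * F P6_31 :=
  top_d (by decide) (by decide) (by decide) (by decide)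

theorem ev431 (κ1 : K) (k1 : K) (F : Pat (Fin 6) → K) :
    top κ1 k1 1 2 4 F P6_46 = 0 :=
  top_z2 (by decide) (by decide) (by decide)

theorem ev432 (F : Pat (Fin 6) → K) :
    emp 3 F P6_19 = F P6_19 :=
  emp_1 (by decide)

theorem ev433 (x : K) (F : Pat (Fin 6) → K) :
    Yt x 0 1 F P6_19 = x * F P6_19 :=
  Yt_1 (by decide) (by decide)

theorem ev434 (x : K) (F : Pat (Fin 7) → K) :
    Y x 2 3 F P7_40 = 0 :=
  Y_z (by decide)

theorem ev435 (F : Pat (Fin 7) → K) :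
    emp 3 F P7_40 = 0 :=
  emp_z (by decide)

theorem ev436 (x : K) (F : Pat (Fin 7) → K) :
    Y x 2 3 F P7_17 = x * F P7_17 + x * F P7_39 :=
  Y_1 (by decide) (by decide) (by decide)

theorem ev437 (w : Wt K) (F : Pat (Fin 7) → K) :
    R w 1 3 F P7_39 = w.v * F P7_39 + w.u1 * F P7_41 :=
  R_r (by decide) (by decide) (by decide)

theorem ev438 (w : Wt K) (F : Pat (Fin 7) → K) :
    R w 1 3 F P7_17 = F P7_17 + w.u2 * F P7_42 :=
  R_e (by decide) (by decide) (by decide)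

theorem ev439 (κ1 : K) (k1 : K) (F : Pat (Fin 7) → K) :
    top κ1 k1 1 2 4 F P7_39 = F P7_39 :=
  top_0 (by decide) (by decide)

theorem ev440 (κ1 : K) (k1 : K) (F : Pat (Fin 7) → K) :
    top κ1 k1 1 2 4 F P7_17 = k1 * F P7_8 :=
  top_r (by decide) (by decide) (by decide) (by decide)

theorem ev441 (κ1 : K) (k1 : K) (F : Pat (Fin 7) → K) :
    top κ1 k1 1 2 4 F P7_42 = κ1 * F P7_39 :=
  top_d (by decide) (by decide) (by decide) (by decide)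

theorem ev442 (κ1 : K) (k1 : K) (F : Pat (Fin 7) → K) :
    top κ1 k1 1 2 4 F P7_41 = k1 * F P7_8 :=
  top_l (by decide) (by decide) (by decide) (by decide)

theorem ev443 (κ : K) (k : K) (F : Pat (Fin 7) → K) :
    top κ k 0 3 4 F P7_39 = κ * F P7_13 :=
  top_d (by decide) (by decide) (by decide) (by decide)

theorem ev444 (F : Pat (Fin 7) → K) :
    emp 3 F P7_17 = F P7_17 :=
  emp_1 (by decide)

theorem ev445 (x : K) (F : Pat (Fin 7) → K) :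
    Yt x 0 1 F P7_17 = x * F P7_17 :=
  Yt_1 (by decide) (by decide)

theorem ev446 (x : K) (F : Pat (Fin 8) → K) :
    Y x 2 3 F P8_7 = x * F P8_7 + x * F P8_13 :=
  Y_1 (by decide) (by decide) (by decide)

theorem ev447 (w : Wt K) (F : Pat (Fin 8) → K) :
    R w 1 3 F P8_13 = w.v * F P8_13 + w.u1 * F P8_14 :=
  R_r (by decide) (by decide) (by decide)

theorem ev448 (w : Wt K) (F : Pat (Fin 8) → K) :
    R w 1 3 F P8_7 = F P8_7 + w.u2 * F P8_15 :=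
  R_e (by decide) (by decide) (by decide)

theorem ev449 (κ1 : K) (k1 : K) (F : Pat (Fin 8) → K) :
    top κ1 k1 1 2 4 F P8_13 = F P8_13 :=
  top_0 (by decide) (by decide)

theorem ev450 (κ1 : K) (k1 : K) (F : Pat (Fin 8) → K) :
    top κ1 k1 1 2 4 F P8_7 = 0 :=
  top_z1 (by decide) (by decide) (by decide)

theorem ev451 (κ1 : K) (k1 : K) (F : Pat (Fin 8) → K) :
    top κ1 k1 1 2 4 F P8_15 = κ1 * F P8_13 :=
  top_d (by decide) (by decide) (by decide) (by decide)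

theorem ev452 (κ1 : K) (k1 : K) (F : Pat (Fin 8) → K) :
    top κ1 k1 1 2 4 F P8_14 = 0 :=
  top_z2 (by decide) (by decide) (by decide)

theorem ev453 (κ : K) (k : K) (F : Pat (Fin 8) → K) :
    top κ k 0 3 4 F P8_13 = κ * F P8_4 :=
  top_d (by decide) (by decide) (by decide) (by decide)

theorem ev454 (F : Pat (Fin 8) → K) :
    emp 3 F P8_7 = F P8_7 :=
  emp_1 (by decide)

theorem ev455 (x : K) (F : Pat (Fin 8) → K) :
    Yt x 0 1 F P8_7 = x * F P8_7 :=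
  Yt_1 (by decide) (by decide)

theorem ev456 (x : K) (F : Pat (Fin 7) → K) :
    Y x 2 3 F P7_43 = 0 :=
  Y_z (by decide)

theorem ev457 (F : Pat (Fin 7) → K) :
    emp 3 F P7_43 = 0 :=
  emp_z (by decide)

theorem ev458 (x : K) (F : Pat (Fin 8) → K) :
    Y x 2 3 F P8_16 = 0 :=
  Y_z (by decide)

theorem ev459 (F : Pat (Fin 8) → K) :
    emp 3 F P8_16 = 0 :=
  emp_z (by decide)

theorem ev460 (x : K) (F : Pat (Fin 9) → K) :
    Y x 2 3 F P9_1 = 0 :=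
  Y_z (by decide)

theorem ev461 (F : Pat (Fin 9) → K) :
    emp 3 F P9_1 = 0 :=
  emp_z (by decide)

theorem ev462 (x : K) (F : Pat (Fin 6) → K) :
    Y x 2 3 F P6_45 = x * F P6_45 + x * F P6_29 :=
  Y_1 (by decide) (by decide) (by decide)

theorem ev463 (w : Wt K) (F : Pat (Fin 6) → K) :
    R w 1 3 F P6_45 = w.v * F P6_45 + w.u1 * F P6_44 :=
  R_l (by decide) (by decide) (by decide)

theorem ev464 (w : Wt K) (F : Pat (Fin 6) → K) :
    R w 1 3 F P6_29 = w.w1 * F P6_29 :=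
  R_p (by decide) (by decide)

theorem ev465 (F : Pat (Fin 6) → K) :
    emp 3 F P6_45 = F P6_45 :=
  emp_1 (by decide)

theorem ev466 (x : K) (F : Pat (Fin 6) → K) :
    Yt x 0 1 F P6_45 = x * F P6_6 :=
  Yt_3 (by decide) (by decide) (by decide) (by decide)

theorem ev467 (x : K) (F : Pat (Fin 7) → K) :
    Y x 2 3 F P7_38 = x * F P7_38 + x * F P7_22 :=
  Y_1 (by decide) (by decide) (by decide)

theorem ev468 (w : Wt K) (F : Pat (Fin 7) → K) :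
    R w 1 3 F P7_38 = w.v * F P7_38 + w.u1 * F P7_37 :=
  R_l (by decide) (by decide) (by decide)

theorem ev469 (w : Wt K) (F : Pat (Fin 7) → K) :
    R w 1 3 F P7_22 = w.w1 * F P7_22 :=
  R_p (by decide) (by decide)

theorem ev470 (F : Pat (Fin 7) → K) :
    emp 3 F P7_38 = F P7_38 :=
  emp_1 (by decide)

theorem ev471 (x : K) (F : Pat (Fin 7) → K) :
    Yt x 0 1 F P7_38 = x * F P7_1 :=
  Yt_3 (by decide) (by decide) (by decide) (by decide)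

theorem ev472 (x : K) (F : Pat (Fin 6) → K) :
    Y x 2 3 F P6_48 = 0 :=
  Y_z (by decide)

theorem ev473 (F : Pat (Fin 6) → K) :
    emp 3 F P6_48 = 0 :=
  emp_z (by decide)

theorem ev474 (x : K) (F : Pat (Fin 7) → K) :
    Y x 2 3 F P7_44 = 0 :=
  Y_z (by decide)

theorem ev475 (F : Pat (Fin 7) → K) :
    emp 3 F P7_44 = 0 :=
  emp_z (by decide)

theorem ev476 (x : K) (F : Pat (Fin 8) → K) :
    Y x 2 3 F P8_17 = 0 :=
  Y_z (by decide)

theorem ev477 (F : Pat (Fin 8) → K) :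
    emp 3 F P8_17 = 0 :=
  emp_z (by decide)

theorem ev478 (x : K) (F : Pat (Fin 6) → K) :
    Y x 2 3 F P6_29 = 0 :=
  Y_z (by decide)

theorem ev479 (F : Pat (Fin 6) → K) :
    emp 3 F P6_29 = 0 :=
  emp_z (by decide)

theorem ev480 (x : K) (F : Pat (Fin 7) → K) :
    Y x 2 3 F P7_22 = 0 :=
  Y_z (by decide)

theorem ev481 (F : Pat (Fin 7) → K) :
    emp 3 F P7_22 = 0 :=
  emp_z (by decide)

theorem ev482 (x : K) (F : Pat (Fin 6) → K) :
    Y x 2 3 F P6_47 = 0 :=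
  Y_z (by decide)

theorem ev483 (F : Pat (Fin 6) → K) :
    emp 3 F P6_47 = 0 :=
  emp_z (by decide)

theorem ev484 (x : K) (F : Pat (Fin 7) → K) :
    Y x 2 3 F P7_42 = 0 :=
  Y_z (by decide)

theorem ev485 (F : Pat (Fin 7) → K) :
    emp 3 F P7_42 = 0 :=
  emp_z (by decide)

theorem ev486 (x : K) (F : Pat (Fin 8) → K) :
    Y x 2 3 F P8_15 = 0 :=
  Y_z (by decide)

theorem ev487 (F : Pat (Fin 8) → K) :
    emp 3 F P8_15 = 0 :=
  emp_z (by decide)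

theorem ev488 (x : K) (F : Pat (Fin 6) → K) :
    Y x 2 3 F P6_46 = F P6_46 + x * F P6_49 :=
  Y_0 (by decide) (by decide) (by decide)

theorem ev489 (w : Wt K) (F : Pat (Fin 6) → K) :
    R w 1 3 F P6_46 = w.v * F P6_46 + w.u1 * F P6_31 :=
  R_l (by decide) (by decide) (by decide)

theorem ev490 (w : Wt K) (F : Pat (Fin 6) → K) :
    R w 1 3 F P6_49 = w.w1 * F P6_48 + w.u2 * F P6_19 + w.w2 * F P6_47 :=
  R_d (by decide) (by decide) (by decide) (by decide) (by decide) (by decide)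

theorem ev491 (κ1 : K) (k1 : K) (F : Pat (Fin 6) → K) :
    top κ1 k1 1 2 4 F P6_48 = 0 :=
  top_z3 (by decide) (by decide)

theorem ev492 (F : Pat (Fin 6) → K) :
    emp 3 F P6_46 = F P6_46 :=
  emp_1 (by decide)

theorem ev493 (x : K) (F : Pat (Fin 6) → K) :
    Yt x 0 1 F P6_46 = x * F P6_0 :=
  Yt_3 (by decide) (by decide) (by decide) (by decide)

theorem ev494 (x : K) (F : Pat (Fin 7) → K) :
    Y x 2 3 F P7_45 = 0 :=
  Y_z (by decide)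

theorem ev495 (F : Pat (Fin 7) → K) :
    emp 3 F P7_45 = 0 :=
  emp_z (by decide)

theorem ev496 (x : K) (F : Pat (Fin 6) → K) :
    Y x 2 3 F P6_49 = 0 :=
  Y_z (by decide)

theorem ev497 (F : Pat (Fin 6) → K) :
    emp 3 F P6_49 = 0 :=
  emp_z (by decide)

theorem ev498 (x : K) (F : Pat (Fin 7) → K) :
    Y x 2 3 F P7_46 = x * F P7_46 + x * F P7_45 :=
  Y_1 (by decide) (by decide) (by decide)

theorem ev499 (w : Wt K) (F : Pat (Fin 7) → K) :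
    R w 1 3 F P7_45 = w.w1 * F P7_47 + w.u2 * F P7_8 + w.w2 * F P7_22 :=
  R_d (by decide) (by decide) (by decide) (by decide) (by decide) (by decide)

theorem ev500 (w : Wt K) (F : Pat (Fin 7) → K) :
    R w 1 3 F P7_46 = w.v * F P7_46 + w.u1 * F P7_43 :=
  R_l (by decide) (by decide) (by decide)

theorem ev501 (κ1 : K) (k1 : K) (F : Pat (Fin 7) → K) :
    top κ1 k1 1 2 4 F P7_43 = 0 :=
  top_z1 (by decide) (by decide) (by decide)

theorem ev502 (κ1 : K) (k1 : K) (F : Pat (Fin 7) → K) :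
    top κ1 k1 1 2 4 F P7_46 = κ1 * F P7_8 :=
  top_d (by decide) (by decide) (by decide) (by decide)

theorem ev503 (κ1 : K) (k1 : K) (F : Pat (Fin 7) → K) :
    top κ1 k1 1 2 4 F P7_47 = 0 :=
  top_z2 (by decide) (by decide) (by decide)

theorem ev504 (F : Pat (Fin 7) → K) :
    emp 3 F P7_46 = F P7_46 :=
  emp_1 (by decide)

theorem ev505 (x : K) (F : Pat (Fin 7) → K) :
    Yt x 0 1 F P7_46 = x * F P7_36 :=
  Yt_3 (by decide) (by decide) (by decide) (by decide)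

theorem ev506 (x : K) (F : Pat (Fin 8) → K) :
    Y x 2 3 F P8_18 = 0 :=
  Y_z (by decide)

theorem ev507 (F : Pat (Fin 8) → K) :
    emp 3 F P8_18 = 0 :=
  emp_z (by decide)

theorem ev508 (x : K) (F : Pat (Fin 7) → K) :
    Y x 2 3 F P7_41 = F P7_41 + x * F P7_48 :=
  Y_0 (by decide) (by decide) (by decide)

theorem ev509 (w : Wt K) (F : Pat (Fin 7) → K) :
    R w 1 3 F P7_41 = w.v * F P7_41 + w.u1 * F P7_39 :=
  R_l (by decide) (by decide) (by decide)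

theorem ev510 (w : Wt K) (F : Pat (Fin 7) → K) :
    R w 1 3 F P7_48 = w.w1 * F P7_44 + w.u2 * F P7_17 + w.w2 * F P7_42 :=
  R_d (by decide) (by decide) (by decide) (by decide) (by decide) (by decide)

theorem ev511 (κ1 : K) (k1 : K) (F : Pat (Fin 7) → K) :
    top κ1 k1 1 2 4 F P7_44 = 0 :=
  top_z3 (by decide) (by decide)

theorem ev512 (F : Pat (Fin 7) → K) :
    emp 3 F P7_41 = F P7_41 :=
  emp_1 (by decide)

theorem ev513 (x : K) (F : Pat (Fin 7) → K) :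
    Yt x 0 1 F P7_41 = x * F P7_13 :=
  Yt_3 (by decide) (by decide) (by decide) (by decide)

theorem ev514 (κ2 : K) (k2 : K) (F : Pat (Fin 7) → K) :
    top κ2 k2 0 2 4 F P7_13 = F P7_13 :=
  top_0 (by decide) (by decide)

theorem ev515 (x : K) (F : Pat (Fin 8) → K) :
    Y x 2 3 F P8_14 = F P8_14 + x * F P8_19 :=
  Y_0 (by decide) (by decide) (by decide)

theorem ev516 (w : Wt K) (F : Pat (Fin 8) → K) :
    R w 1 3 F P8_14 = w.v * F P8_14 + w.u1 * F P8_13 :=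
  R_l (by decide) (by decide) (by decide)

theorem ev517 (w : Wt K) (F : Pat (Fin 8) → K) :
    R w 1 3 F P8_19 = w.w1 * F P8_17 + w.u2 * F P8_7 + w.w2 * F P8_15 :=
  R_d (by decide) (by decide) (by decide) (by decide) (by decide) (by decide)

theorem ev518 (κ1 : K) (k1 : K) (F : Pat (Fin 8) → K) :
    top κ1 k1 1 2 4 F P8_17 = 0 :=
  top_z3 (by decide) (by decide)

theorem ev519 (F : Pat (Fin 8) → K) :
    emp 3 F P8_14 = F P8_14 :=
  emp_1 (by decide)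

theorem ev520 (x : K) (F : Pat (Fin 8) → K) :
    Yt x 0 1 F P8_14 = x * F P8_4 :=
  Yt_3 (by decide) (by decide) (by decide) (by decide)

theorem ev521 (κ2 : K) (k2 : K) (F : Pat (Fin 8) → K) :
    top κ2 k2 0 2 4 F P8_4 = F P8_4 :=
  top_0 (by decide) (by decide)

theorem ev522 (x : K) (F : Pat (Fin 7) → K) :
    Y x 2 3 F P7_47 = 0 :=
  Y_z (by decide)

theorem ev523 (F : Pat (Fin 7) → K) :
    emp 3 F P7_47 = 0 :=
  emp_z (by decide)

theorem ev524 (x : K) (F : Pat (Fin 8) → K) :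
    Y x 2 3 F P8_20 = 0 :=
  Y_z (by decide)

theorem ev525 (F : Pat (Fin 8) → K) :
    emp 3 F P8_20 = 0 :=
  emp_z (by decide)

theorem ev526 (x : K) (F : Pat (Fin 9) → K) :
    Y x 2 3 F P9_2 = 0 :=
  Y_z (by decide)

theorem ev527 (F : Pat (Fin 9) → K) :
    emp 3 F P9_2 = 0 :=
  emp_z (by decide)

theorem ev528 (x : K) (F : Pat (Fin 7) → K) :
    Y x 2 3 F P7_48 = 0 :=
  Y_z (by decide)

theorem ev529 (F : Pat (Fin 7) → K) :
    emp 3 F P7_48 = 0 :=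
  emp_z (by decide)

theorem ev530 (x : K) (F : Pat (Fin 8) → K) :
    Y x 2 3 F P8_19 = 0 :=
  Y_z (by decide)

theorem ev531 (F : Pat (Fin 8) → K) :
    emp 3 F P8_19 = 0 :=
  emp_z (by decide)

theorem ev532 (x : K) (F : Pat (Fin 7) → K) :
    Y x 2 3 F P7_49 = x * F P7_49 + x * F P7_47 :=
  Y_1 (by decide) (by decide) (by decide)

theorem ev533 (w : Wt K) (F : Pat (Fin 7) → K) :
    R w 1 3 F P7_47 = w.w1 * F P7_45 + w.u2 * F P7_8 + w.w2 * F P7_22 :=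
  R_d (by decide) (by decide) (by decide) (by decide) (by decide) (by decide)

theorem ev534 (w : Wt K) (F : Pat (Fin 7) → K) :
    R w 1 3 F P7_49 = w.v * F P7_49 + w.u1 * F P7_40 :=
  R_l (by decide) (by decide) (by decide)

theorem ev535 (κ1 : K) (k1 : K) (F : Pat (Fin 7) → K) :
    top κ1 k1 1 2 4 F P7_40 = 0 :=
  top_z1 (by decide) (by decide) (by decide)

theorem ev536 (κ1 : K) (k1 : K) (F : Pat (Fin 7) → K) :
    top κ1 k1 1 2 4 F P7_45 = 0 :=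
  top_z2 (by decide) (by decide) (by decide)

theorem ev537 (κ1 : K) (k1 : K) (F : Pat (Fin 7) → K) :
    top κ1 k1 1 2 4 F P7_49 = κ1 * F P7_8 :=
  top_d (by decide) (by decide) (by decide) (by decide)

theorem ev538 (F : Pat (Fin 7) → K) :
    emp 3 F P7_49 = F P7_49 :=
  emp_1 (by decide)

theorem ev539 (x : K) (F : Pat (Fin 7) → K) :
    Yt x 0 1 F P7_49 = x * F P7_50 :=
  Yt_3 (by decide) (by decide) (by decide) (by decide)

theorem ev540 (κ2 : K) (k2 : K) (F : Pat (Fin 7) → K) :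
    top κ2 k2 0 2 4 F P7_50 = 0 :=
  top_z1 (by decide) (by decide) (by decide)

theorem ev541 (x : K) (F : Pat (Fin 8) → K) :
    Y x 2 3 F P8_21 = 0 :=
  Y_z (by decide)

theorem ev542 (F : Pat (Fin 8) → K) :
    emp 3 F P8_21 = 0 :=
  emp_z (by decide)

theorem ev543 (x : K) (F : Pat (Fin 8) → K) :
    Y x 2 3 F P8_22 = x * F P8_22 + x * F P8_20 :=
  Y_1 (by decide) (by decide) (by decide)

theorem ev544 (w : Wt K) (F : Pat (Fin 8) → K) :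
    R w 1 3 F P8_20 = w.w1 * F P8_23 + w.u2 * F P8_24 + w.w2 * F P8_25 :=
  R_d (by decide) (by decide) (by decide) (by decide) (by decide) (by decide)

theorem ev545 (w : Wt K) (F : Pat (Fin 8) → K) :
    R w 1 3 F P8_22 = w.v * F P8_22 + w.u1 * F P8_26 :=
  R_l (by decide) (by decide) (by decide)

theorem ev546 (κ1 : K) (k1 : K) (F : Pat (Fin 8) → K) :
    top κ1 k1 1 2 4 F P8_24 = F P8_24 :=
  top_0 (by decide) (by decide)

theorem ev547 (κ1 : K) (k1 : K) (F : Pat (Fin 8) → K) :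
    top κ1 k1 1 2 4 F P8_26 = k1 * F P8_13 :=
  top_r (by decide) (by decide) (by decide) (by decide)

theorem ev548 (κ1 : K) (k1 : K) (F : Pat (Fin 8) → K) :
    top κ1 k1 1 2 4 F P8_25 = k1 * F P8_27 :=
  top_l (by decide) (by decide) (by decide) (by decide)

theorem ev549 (κ1 : K) (k1 : K) (F : Pat (Fin 8) → K) :
    top κ1 k1 1 2 4 F P8_22 = κ1 * F P8_24 :=
  top_d (by decide) (by decide) (by decide) (by decide)

theorem ev550 (κ1 : K) (k1 : K) (F : Pat (Fin 8) → K) :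
    top κ1 k1 1 2 4 F P8_23 = k1 * F P8_13 :=
  top_l (by decide) (by decide) (by decide) (by decide)

theorem ev551 (κ : K) (k : K) (F : Pat (Fin 8) → K) :
    top κ k 0 3 4 F P8_24 = k * F P8_28 :=
  top_l (by decide) (by decide) (by decide) (by decide)

theorem ev552 (κ : K) (k : K) (F : Pat (Fin 8) → K) :
    top κ k 0 3 4 F P8_27 = κ * F P8_28 :=
  top_d (by decide) (by decide) (by decide) (by decide)

theorem ev553 (F : Pat (Fin 8) → K) :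
    emp 3 F P8_22 = F P8_22 :=
  emp_1 (by decide)

theorem ev554 (x : K) (F : Pat (Fin 8) → K) :
    Yt x 0 1 F P8_22 = x * F P8_29 :=
  Yt_3 (by decide) (by decide) (by decide) (by decide)

theorem ev555 (κ2 : K) (k2 : K) (F : Pat (Fin 8) → K) :
    top κ2 k2 0 2 4 F P8_29 = k2 * F P8_4 :=
  top_r (by decide) (by decide) (by decide) (by decide)

theorem ev556 (x : K) (F : Pat (Fin 9) → K) :
    Y x 2 3 F P9_3 = x * F P9_3 + x * F P9_2 :=
  Y_1 (by decide) (by decide) (by decide)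

theorem ev557 (w : Wt K) (F : Pat (Fin 9) → K) :
    R w 1 3 F P9_2 = w.w1 * F P9_4 + w.u2 * F P9_5 + w.w2 * F P9_6 :=
  R_d (by decide) (by decide) (by decide) (by decide) (by decide) (by decide)

theorem ev558 (w : Wt K) (F : Pat (Fin 9) → K) :
    R w 1 3 F P9_3 = w.v * F P9_3 + w.u1 * F P9_7 :=
  R_l (by decide) (by decide) (by decide)

theorem ev559 (κ1 : K) (k1 : K) (F : Pat (Fin 9) → K) :
    top κ1 k1 1 2 4 F P9_5 = F P9_5 :=
  top_0 (by decide) (by decide)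

theorem ev560 (κ1 : K) (k1 : K) (F : Pat (Fin 9) → K) :
    top κ1 k1 1 2 4 F P9_7 = 0 :=
  top_z1 (by decide) (by decide) (by decide)

theorem ev561 (κ1 : K) (k1 : K) (F : Pat (Fin 9) → K) :
    top κ1 k1 1 2 4 F P9_6 = 0 :=
  top_z2 (by decide) (by decide) (by decide)

theorem ev562 (κ1 : K) (k1 : K) (F : Pat (Fin 9) → K) :
    top κ1 k1 1 2 4 F P9_3 = κ1 * F P9_5 :=
  top_d (by decide) (by decide) (by decide) (by decide)

theorem ev563 (κ1 : K) (k1 : K) (F : Pat (Fin 9) → K) :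
    top κ1 k1 1 2 4 F P9_4 = 0 :=
  top_z2 (by decide) (by decide) (by decide)

theorem ev564 (κ : K) (k : K) (F : Pat (Fin 9) → K) :
    top κ k 0 3 4 F P9_5 = 0 :=
  top_z2 (by decide) (by decide) (by decide)

theorem ev565 (F : Pat (Fin 9) → K) :
    emp 3 F P9_3 = F P9_3 :=
  emp_1 (by decide)

theorem ev566 (x : K) (F : Pat (Fin 9) → K) :
    Yt x 0 1 F P9_3 = x * F P9_8 :=
  Yt_3 (by decide) (by decide) (by decide) (by decide)

theorem ev567 (κ2 : K) (k2 : K) (F : Pat (Fin 9) → K) :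
    top κ2 k2 0 2 4 F P9_8 = 0 :=
  top_z1 (by decide) (by decide) (by decide)

theorem ev568 (x : K) (F : Pat (Fin 8) → K) :
    Y x 2 3 F P8_30 = 0 :=
  Y_z (by decide)

theorem ev569 (F : Pat (Fin 8) → K) :
    emp 3 F P8_30 = 0 :=
  emp_z (by decide)

theorem ev570 (x : K) (F : Pat (Fin 9) → K) :
    Y x 2 3 F P9_9 = 0 :=
  Y_z (by decide)

theorem ev571 (F : Pat (Fin 9) → K) :
    emp 3 F P9_9 = 0 :=
  emp_z (by decide)

theorem ev572 (x : K) (F : Pat (Fin 10) → K) :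
    Y x 2 3 F P10_0 = 0 :=
  Y_z (by decide)

theorem ev573 (F : Pat (Fin 10) → K) :
    emp 3 F P10_0 = 0 :=
  emp_z (by decide)

theorem t0 {x : K} {w : Wt K} {κ1 : K} {k1 : K} {κ : K} {k : K} {κ2 : K} {k2 : K} (h : Eqs x w κ1 k1 κ k κ2 k2) (F : Pat (Fin 5) → K) :
    Y x 2 3 (R w 1 3 (top κ1 k1 1 2 4 (top κ k 0 3 4 F))) P5_0 = emp 3 (Yt x 0 1 (top κ2 k2 0 2 4 F)) P5_0 := by
  simp only [ev0, ev1, ev2, ev3, ev4, ev5, ev6, ev7, ev8, ev9, ev10, ev11] <;>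
  ring

theorem t1 {x : K} {w : Wt K} {κ1 : K} {k1 : K} {κ : K} {k : K} {κ2 : K} {k2 : K} (h : Eqs x w κ1 k1 κ k κ2 k2) (F : Pat (Fin 6) → K) :
    Y x 2 3 (R w 1 3 (top κ1 k1 1 2 4 (top κ k 0 3 4 F))) P6_0 = emp 3 (Yt x 0 1 (top κ2 k2 0 2 4 F)) P6_0 := by
  simp only [ev12, ev13, ev14, ev15, ev16, ev17, ev18, ev19, ev20, ev21, ev22] <;>
  ring

theorem t2 {x : K} {w : Wt K} {κ1 : K} {k1 : K} {κ : K} {k : K} {κ2 : K} {k2 : K} (h : Eqs x w κ1 k1 κ k κ2 k2) (F : Pat (Fin 5) → K) :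
    Y x 2 3 (R w 1 3 (top κ1 k1 1 2 4 (top κ k 0 3 4 F))) P5_4 = emp 3 (Yt x 0 1 (top κ2 k2 0 2 4 F)) P5_4 := by
  simp only [ev23, ev24] <;>
  ring

theorem t3 {x : K} {w : Wt K} {κ1 : K} {k1 : K} {κ : K} {k : K} {κ2 : K} {k2 : K} (h : Eqs x w κ1 k1 κ k κ2 k2) (F : Pat (Fin 6) → K) :
    Y x 2 3 (R w 1 3 (top κ1 k1 1 2 4 (top κ k 0 3 4 F))) P6_4 = emp 3 (Yt x 0 1 (top κ2 k2 0 2 4 F)) P6_4 := by
  simp only [ev25, ev26] <;>
  ring

theorem t4 {x : K} {w : Wt K} {κ1 : K} {k1 : K} {κ : K} {k : K} {κ2 : K} {k2 : K} (h : Eqs x w κ1 k1 κ k κ2 k2) (F : Pat (Fin 7) → K) :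
    Y x 2 3 (R w 1 3 (top κ1 k1 1 2 4 (top κ k 0 3 4 F))) P7_0 = emp 3 (Yt x 0 1 (top κ2 k2 0 2 4 F)) P7_0 := by
  simp only [ev27, ev28] <;>
  ring

theorem t5 {x : K} {w : Wt K} {κ1 : K} {k1 : K} {κ : K} {k : K} {κ2 : K} {k2 : K} (h : Eqs x w κ1 k1 κ k κ2 k2) (F : Pat (Fin 5) → K) :
    Y x 2 3 (R w 1 3 (top κ1 k1 1 2 4 (top κ k 0 3 4 F))) P5_1 = emp 3 (Yt x 0 1 (top κ2 k2 0 2 4 F)) P5_1 := by
  simp only [ev29, ev30] <;>
  ring

theorem t6 {x : K} {w : Wt K} {κ1 : K} {k1 : K} {κ : K} {k : K} {κ2 : K} {k2 : K} (h : Eqs x w κ1 k1 κ k κ2 k2) (F : Pat (Fin 6) → K) :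
    Y x 2 3 (R w 1 3 (top κ1 k1 1 2 4 (top κ k 0 3 4 F))) P6_1 = emp 3 (Yt x 0 1 (top κ2 k2 0 2 4 F)) P6_1 := by
  simp only [ev31, ev32] <;>
  ring

theorem t7 {x : K} {w : Wt K} {κ1 : K} {k1 : K} {κ : K} {k : K} {κ2 : K} {k2 : K} (h : Eqs x w κ1 k1 κ k κ2 k2) (F : Pat (Fin 5) → K) :
    Y x 2 3 (R w 1 3 (top κ1 k1 1 2 4 (top κ k 0 3 4 F))) P5_5 = emp 3 (Yt x 0 1 (top κ2 k2 0 2 4 F)) P5_5 := by
  simp only [ev33, ev34, ev35, ev36, ev37, ev38, ev39, ev8, ev40, ev41, ev42] <;>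
  ring

theorem t8 {x : K} {w : Wt K} {κ1 : K} {k1 : K} {κ : K} {k : K} {κ2 : K} {k2 : K} (h : Eqs x w κ1 k1 κ k κ2 k2) (F : Pat (Fin 6) → K) :
    Y x 2 3 (R w 1 3 (top κ1 k1 1 2 4 (top κ k 0 3 4 F))) P6_5 = emp 3 (Yt x 0 1 (top κ2 k2 0 2 4 F)) P6_5 := by
  simp only [ev43, ev44] <;>
  ring

theorem t9 {x : K} {w : Wt K} {κ1 : K} {k1 : K} {κ : K} {k : K} {κ2 : K} {k2 : K} (h : Eqs x w κ1 k1 κ k κ2 k2) (F : Pat (Fin 6) → K) :
    Y x 2 3 (R w 1 3 (top κ1 k1 1 2 4 (top κ k 0 3 4 F))) P6_6 = emp 3 (Yt x 0 1 (top κ2 k2 0 2 4 F)) P6_6 := by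
  simp only [ev45, ev46, ev47, ev48, ev49, ev50, ev51, ev19, ev52, ev53, ev54, ev55] <;>
  linear_combination F P6_0 * h.e1

theorem t10 {x : K} {w : Wt K} {κ1 : K} {k1 : K} {κ : K} {k : K} {κ2 : K} {k2 : K} (h : Eqs x w κ1 k1 κ k κ2 k2) (F : Pat (Fin 7) → K) :
    Y x 2 3 (R w 1 3 (top κ1 k1 1 2 4 (top κ k 0 3 4 F))) P7_1 = emp 3 (Yt x 0 1 (top κ2 k2 0 2 4 F)) P7_1 := by
  simp only [ev56, ev57, ev58, ev59, ev60, ev61, ev62, ev63, ev64, ev65, ev66] <;>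
  ring

theorem t11 {x : K} {w : Wt K} {κ1 : K} {k1 : K} {κ : K} {k : K} {κ2 : K} {k2 : K} (h : Eqs x w κ1 k1 κ k κ2 k2) (F : Pat (Fin 6) → K) :
    Y x 2 3 (R w 1 3 (top κ1 k1 1 2 4 (top κ k 0 3 4 F))) P6_9 = emp 3 (Yt x 0 1 (top κ2 k2 0 2 4 F)) P6_9 := by
  simp only [ev67, ev68] <;>
  ring

theorem t12 {x : K} {w : Wt K} {κ1 : K} {k1 : K} {κ : K} {k : K} {κ2 : K} {k2 : K} (h : Eqs x w κ1 k1 κ k κ2 k2) (F : Pat (Fin 7) → K) :
    Y x 2 3 (R w 1 3 (top κ1 k1 1 2 4 (top κ k 0 3 4 F))) P7_4 = emp 3 (Yt x 0 1 (top κ2 k2 0 2 4 F)) P7_4 := by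
  simp only [ev69, ev70] <;>
  ring

theorem t13 {x : K} {w : Wt K} {κ1 : K} {k1 : K} {κ : K} {k : K} {κ2 : K} {k2 : K} (h : Eqs x w κ1 k1 κ k κ2 k2) (F : Pat (Fin 8) → K) :
    Y x 2 3 (R w 1 3 (top κ1 k1 1 2 4 (top κ k 0 3 4 F))) P8_0 = emp 3 (Yt x 0 1 (top κ2 k2 0 2 4 F)) P8_0 := by
  simp only [ev71, ev72] <;>
  ring

theorem t14 {x : K} {w : Wt K} {κ1 : K} {k1 : K} {κ : K} {k : K} {κ2 : K} {k2 : K} (h : Eqs x w κ1 k1 κ k κ2 k2) (F : Pat (Fin 5) → K) :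
    Y x 2 3 (R w 1 3 (top κ1 k1 1 2 4 (top κ k 0 3 4 F))) P5_3 = emp 3 (Yt x 0 1 (top κ2 k2 0 2 4 F)) P5_3 := by
  simp only [ev73, ev74, ev75, ev4, ev5, ev6, ev8, ev76, ev77, ev78] <;>
  ring

theorem t15 {x : K} {w : Wt K} {κ1 : K} {k1 : K} {κ : K} {k : K} {κ2 : K} {k2 : K} (h : Eqs x w κ1 k1 κ k κ2 k2) (F : Pat (Fin 6) → K) :
    Y x 2 3 (R w 1 3 (top κ1 k1 1 2 4 (top κ k 0 3 4 F))) P6_3 = emp 3 (Yt x 0 1 (top κ2 k2 0 2 4 F)) P6_3 := by
  simp only [ev79, ev80, ev81, ev16, ev17, ev18, ev82, ev83, ev84] <;>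
  ring

theorem t16 {x : K} {w : Wt K} {κ1 : K} {k1 : K} {κ : K} {k : K} {κ2 : K} {k2 : K} (h : Eqs x w κ1 k1 κ k κ2 k2) (F : Pat (Fin 5) → K) :
    Y x 2 3 (R w 1 3 (top κ1 k1 1 2 4 (top κ k 0 3 4 F))) P5_9 = emp 3 (Yt x 0 1 (top κ2 k2 0 2 4 F)) P5_9 := by
  simp only [ev85, ev86] <;>
  ring

theorem t17 {x : K} {w : Wt K} {κ1 : K} {k1 : K} {κ : K} {k : K} {κ2 : K} {k2 : K} (h : Eqs x w κ1 k1 κ k κ2 k2) (F : Pat (Fin 6) → K) :
    Y x 2 3 (R w 1 3 (top κ1 k1 1 2 4 (top κ k 0 3 4 F))) P6_11 = emp 3 (Yt x 0 1 (top κ2 k2 0 2 4 F)) P6_11 := by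
  simp only [ev87, ev88] <;>
  ring

theorem t18 {x : K} {w : Wt K} {κ1 : K} {k1 : K} {κ : K} {k : K} {κ2 : K} {k2 : K} (h : Eqs x w κ1 k1 κ k κ2 k2) (F : Pat (Fin 7) → K) :
    Y x 2 3 (R w 1 3 (top κ1 k1 1 2 4 (top κ k 0 3 4 F))) P7_5 = emp 3 (Yt x 0 1 (top κ2 k2 0 2 4 F)) P7_5 := by
  simp only [ev89, ev90] <;>
  ring

theorem t19 {x : K} {w : Wt K} {κ1 : K} {k1 : K} {κ : K} {k : K} {κ2 : K} {k2 : K} (h : Eqs x w κ1 k1 κ k κ2 k2) (F : Pat (Fin 5) → K) :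
    Y x 2 3 (R w 1 3 (top κ1 k1 1 2 4 (top κ k 0 3 4 F))) P5_2 = emp 3 (Yt x 0 1 (top κ2 k2 0 2 4 F)) P5_2 := by
  simp only [ev91, ev92] <;>
  ring

theorem t20 {x : K} {w : Wt K} {κ1 : K} {k1 : K} {κ : K} {k : K} {κ2 : K} {k2 : K} (h : Eqs x w κ1 k1 κ k κ2 k2) (F : Pat (Fin 6) → K) :
    Y x 2 3 (R w 1 3 (top κ1 k1 1 2 4 (top κ k 0 3 4 F))) P6_2 = emp 3 (Yt x 0 1 (top κ2 k2 0 2 4 F)) P6_2 := by
  simp only [ev93, ev94] <;>
  ring

theorem t21 {x : K} {w : Wt K} {κ1 : K} {k1 : K} {κ : K} {k : K} {κ2 : K} {k2 : K} (h : Eqs x w κ1 k1 κ k κ2 k2) (F : Pat (Fin 5) → K) :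
    Y x 2 3 (R w 1 3 (top κ1 k1 1 2 4 (top κ k 0 3 4 F))) P5_7 = emp 3 (Yt x 0 1 (top κ2 k2 0 2 4 F)) P5_7 := by
  simp only [ev95, ev96] <;>
  ring

theorem t22 {x : K} {w : Wt K} {κ1 : K} {k1 : K} {κ : K} {k : K} {κ2 : K} {k2 : K} (h : Eqs x w κ1 k1 κ k κ2 k2) (F : Pat (Fin 6) → K) :
    Y x 2 3 (R w 1 3 (top κ1 k1 1 2 4 (top κ k 0 3 4 F))) P6_8 = emp 3 (Yt x 0 1 (top κ2 k2 0 2 4 F)) P6_8 := by
  simp only [ev97, ev98] <;>
  ring

theorem t23 {x : K} {w : Wt K} {κ1 : K} {k1 : K} {κ : K} {k : K} {κ2 : K} {k2 : K} (h : Eqs x w κ1 k1 κ k κ2 k2) (F : Pat (Fin 7) → K) :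
    Y x 2 3 (R w 1 3 (top κ1 k1 1 2 4 (top κ k 0 3 4 F))) P7_3 = emp 3 (Yt x 0 1 (top κ2 k2 0 2 4 F)) P7_3 := by
  simp only [ev99, ev100] <;>
  ring

theorem t24 {x : K} {w : Wt K} {κ1 : K} {k1 : K} {κ : K} {k : K} {κ2 : K} {k2 : K} (h : Eqs x w κ1 k1 κ k κ2 k2) (F : Pat (Fin 5) → K) :
    Y x 2 3 (R w 1 3 (top κ1 k1 1 2 4 (top κ k 0 3 4 F))) P5_6 = emp 3 (Yt x 0 1 (top κ2 k2 0 2 4 F)) P5_6 := by
  simp only [ev101, ev102, ev103, ev36, ev37, ev104, ev38, ev39, ev8, ev105, ev106, ev107] <;>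
  ring

theorem t25 {x : K} {w : Wt K} {κ1 : K} {k1 : K} {κ : K} {k : K} {κ2 : K} {k2 : K} (h : Eqs x w κ1 k1 κ k κ2 k2) (F : Pat (Fin 6) → K) :
    Y x 2 3 (R w 1 3 (top κ1 k1 1 2 4 (top κ k 0 3 4 F))) P6_12 = emp 3 (Yt x 0 1 (top κ2 k2 0 2 4 F)) P6_12 := by
  simp only [ev108, ev109] <;>
  ring

theorem t26 {x : K} {w : Wt K} {κ1 : K} {k1 : K} {κ : K} {k : K} {κ2 : K} {k2 : K} (h : Eqs x w κ1 k1 κ k κ2 k2) (F : Pat (Fin 5) → K) :
    Y x 2 3 (R w 1 3 (top κ1 k1 1 2 4 (top κ k 0 3 4 F))) P5_10 = emp 3 (Yt x 0 1 (top κ2 k2 0 2 4 F)) P5_10 := by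
  simp only [ev110, ev111] <;>
  ring

theorem t27 {x : K} {w : Wt K} {κ1 : K} {k1 : K} {κ : K} {k : K} {κ2 : K} {k2 : K} (h : Eqs x w κ1 k1 κ k κ2 k2) (F : Pat (Fin 6) → K) :
    Y x 2 3 (R w 1 3 (top κ1 k1 1 2 4 (top κ k 0 3 4 F))) P6_13 = emp 3 (Yt x 0 1 (top κ2 k2 0 2 4 F)) P6_13 := by
  simp only [ev112, ev113, ev114, ev15, ev115, ev18, ev116, ev117, ev19, ev118, ev119, ev120] <;>
  linear_combination F P6_0 * h.e2

theorem t28 {x : K} {w : Wt K} {κ1 : K} {k1 : K} {κ : K} {k : K} {κ2 : K} {k2 : K} (h : Eqs x w κ1 k1 κ k κ2 k2) (F : Pat (Fin 7) → K) :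
    Y x 2 3 (R w 1 3 (top κ1 k1 1 2 4 (top κ k 0 3 4 F))) P7_6 = emp 3 (Yt x 0 1 (top κ2 k2 0 2 4 F)) P7_6 := by
  simp only [ev121, ev122] <;>
  ring

theorem t29 {x : K} {w : Wt K} {κ1 : K} {k1 : K} {κ : K} {k : K} {κ2 : K} {k2 : K} (h : Eqs x w κ1 k1 κ k κ2 k2) (F : Pat (Fin 6) → K) :
    Y x 2 3 (R w 1 3 (top κ1 k1 1 2 4 (top κ k 0 3 4 F))) P6_7 = emp 3 (Yt x 0 1 (top κ2 k2 0 2 4 F)) P6_7 := by
  simp only [ev123, ev124, ev125, ev48, ev49, ev126, ev50, ev51, ev19, ev52, ev127, ev128, ev129] <;>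
  linear_combination F P6_0 * h.e3

theorem t30 {x : K} {w : Wt K} {κ1 : K} {k1 : K} {κ : K} {k : K} {κ2 : K} {k2 : K} (h : Eqs x w κ1 k1 κ k κ2 k2) (F : Pat (Fin 7) → K) :
    Y x 2 3 (R w 1 3 (top κ1 k1 1 2 4 (top κ k 0 3 4 F))) P7_2 = emp 3 (Yt x 0 1 (top κ2 k2 0 2 4 F)) P7_2 := by
  simp only [ev130, ev131, ev132, ev59, ev60, ev133, ev61, ev62, ev63, ev134, ev135, ev136] <;>
  ring

theorem t31 {x : K} {w : Wt K} {κ1 : K} {k1 : K} {κ : K} {k : K} {κ2 : K} {k2 : K} (h : Eqs x w κ1 k1 κ k κ2 k2) (F : Pat (Fin 6) → K) :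
    Y x 2 3 (R w 1 3 (top κ1 k1 1 2 4 (top κ k 0 3 4 F))) P6_14 = emp 3 (Yt x 0 1 (top κ2 k2 0 2 4 F)) P6_14 := by
  simp only [ev137, ev138] <;>
  ring

theorem t32 {x : K} {w : Wt K} {κ1 : K} {k1 : K} {κ : K} {k : K} {κ2 : K} {k2 : K} (h : Eqs x w κ1 k1 κ k κ2 k2) (F : Pat (Fin 7) → K) :
    Y x 2 3 (R w 1 3 (top κ1 k1 1 2 4 (top κ k 0 3 4 F))) P7_9 = emp 3 (Yt x 0 1 (top κ2 k2 0 2 4 F)) P7_9 := by
  simp only [ev139, ev140] <;>
  ring

theorem t33 {x : K} {w : Wt K} {κ1 : K} {k1 : K} {κ : K} {k : K} {κ2 : K} {k2 : K} (h : Eqs x w κ1 k1 κ k κ2 k2) (F : Pat (Fin 8) → K) :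
    Y x 2 3 (R w 1 3 (top κ1 k1 1 2 4 (top κ k 0 3 4 F))) P8_1 = emp 3 (Yt x 0 1 (top κ2 k2 0 2 4 F)) P8_1 := by
  simp only [ev141, ev142] <;>
  ring

theorem t34 {x : K} {w : Wt K} {κ1 : K} {k1 : K} {κ : K} {k : K} {κ2 : K} {k2 : K} (h : Eqs x w κ1 k1 κ k κ2 k2) (F : Pat (Fin 6) → K) :
    Y x 2 3 (R w 1 3 (top κ1 k1 1 2 4 (top κ k 0 3 4 F))) P6_16 = emp 3 (Yt x 0 1 (top κ2 k2 0 2 4 F)) P6_16 := by
  simp only [ev143, ev144] <;>
  ring

theorem t35 {x : K} {w : Wt K} {κ1 : K} {k1 : K} {κ : K} {k : K} {κ2 : K} {k2 : K} (h : Eqs x w κ1 k1 κ k κ2 k2) (F : Pat (Fin 7) → K) :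
    Y x 2 3 (R w 1 3 (top κ1 k1 1 2 4 (top κ k 0 3 4 F))) P7_7 = emp 3 (Yt x 0 1 (top κ2 k2 0 2 4 F)) P7_7 := by
  simp only [ev145, ev146] <;>
  ring

theorem t36 {x : K} {w : Wt K} {κ1 : K} {k1 : K} {κ : K} {k : K} {κ2 : K} {k2 : K} (h : Eqs x w κ1 k1 κ k κ2 k2) (F : Pat (Fin 6) → K) :
    Y x 2 3 (R w 1 3 (top κ1 k1 1 2 4 (top κ k 0 3 4 F))) P6_18 = emp 3 (Yt x 0 1 (top κ2 k2 0 2 4 F)) P6_18 := by
  simp only [ev147, ev148, ev149, ev15, ev150, ev18, ev151, ev152, ev19, ev153, ev154, ev155] <;>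
  linear_combination F P6_0 * h.e2

theorem t37 {x : K} {w : Wt K} {κ1 : K} {k1 : K} {κ : K} {k : K} {κ2 : K} {k2 : K} (h : Eqs x w κ1 k1 κ k κ2 k2) (F : Pat (Fin 7) → K) :
    Y x 2 3 (R w 1 3 (top κ1 k1 1 2 4 (top κ k 0 3 4 F))) P7_10 = emp 3 (Yt x 0 1 (top κ2 k2 0 2 4 F)) P7_10 := by
  simp only [ev156, ev157] <;>
  ring

theorem t38 {x : K} {w : Wt K} {κ1 : K} {k1 : K} {κ : K} {k : K} {κ2 : K} {k2 : K} (h : Eqs x w κ1 k1 κ k κ2 k2) (F : Pat (Fin 7) → K) :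
    Y x 2 3 (R w 1 3 (top κ1 k1 1 2 4 (top κ k 0 3 4 F))) P7_11 = emp 3 (Yt x 0 1 (top κ2 k2 0 2 4 F)) P7_11 := by
  simp only [ev158, ev159, ev160, ev161, ev162, ev163, ev164, ev165, ev166, ev167, ev63, ev168, ev169, ev170] <;>
  linear_combination F P7_13 * h.e2

theorem t39 {x : K} {w : Wt K} {κ1 : K} {k1 : K} {κ : K} {k : K} {κ2 : K} {k2 : K} (h : Eqs x w κ1 k1 κ k κ2 k2) (F : Pat (Fin 8) → K) :
    Y x 2 3 (R w 1 3 (top κ1 k1 1 2 4 (top κ k 0 3 4 F))) P8_2 = emp 3 (Yt x 0 1 (top κ2 k2 0 2 4 F)) P8_2 := by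
  simp only [ev171, ev172, ev173, ev174, ev175, ev176, ev177, ev178, ev179, ev180, ev181, ev182] <;>
  linear_combination F P8_4 * h.e2

theorem t40 {x : K} {w : Wt K} {κ1 : K} {k1 : K} {κ : K} {k : K} {κ2 : K} {k2 : K} (h : Eqs x w κ1 k1 κ k κ2 k2) (F : Pat (Fin 7) → K) :
    Y x 2 3 (R w 1 3 (top κ1 k1 1 2 4 (top κ k 0 3 4 F))) P7_18 = emp 3 (Yt x 0 1 (top κ2 k2 0 2 4 F)) P7_18 := by
  simp only [ev183, ev184] <;>
  ring

theorem t41 {x : K} {w : Wt K} {κ1 : K} {k1 : K} {κ : K} {k : K} {κ2 : K} {k2 : K} (h : Eqs x w κ1 k1 κ k κ2 k2) (F : Pat (Fin 8) → K) :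
    Y x 2 3 (R w 1 3 (top κ1 k1 1 2 4 (top κ k 0 3 4 F))) P8_8 = emp 3 (Yt x 0 1 (top κ2 k2 0 2 4 F)) P8_8 := by
  simp only [ev185, ev186] <;>
  ring

theorem t42 {x : K} {w : Wt K} {κ1 : K} {k1 : K} {κ : K} {k : K} {κ2 : K} {k2 : K} (h : Eqs x w κ1 k1 κ k κ2 k2) (F : Pat (Fin 9) → K) :
    Y x 2 3 (R w 1 3 (top κ1 k1 1 2 4 (top κ k 0 3 4 F))) P9_0 = emp 3 (Yt x 0 1 (top κ2 k2 0 2 4 F)) P9_0 := by
  simp only [ev187, ev188] <;>
  ring

theorem t43 {x : K} {w : Wt K} {κ1 : K} {k1 : K} {κ : K} {k : K} {κ2 : K} {k2 : K} (h : Eqs x w κ1 k1 κ k κ2 k2) (F : Pat (Fin 5) → K) :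
    Y x 2 3 (R w 1 3 (top κ1 k1 1 2 4 (top κ k 0 3 4 F))) P5_12 = emp 3 (Yt x 0 1 (top κ2 k2 0 2 4 F)) P5_12 := by
  simp only [ev189, ev190, ev191, ev192, ev193, ev194, ev195, ev196, ev197, ev198, ev199, ev200] <;>
  ring

theorem t44 {x : K} {w : Wt K} {κ1 : K} {k1 : K} {κ : K} {k : K} {κ2 : K} {k2 : K} (h : Eqs x w κ1 k1 κ k κ2 k2) (F : Pat (Fin 6) → K) :
    Y x 2 3 (R w 1 3 (top κ1 k1 1 2 4 (top κ k 0 3 4 F))) P6_20 = emp 3 (Yt x 0 1 (top κ2 k2 0 2 4 F)) P6_20 := by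
  simp only [ev201, ev202, ev203, ev204, ev205, ev206, ev207, ev208, ev209, ev210, ev211] <;>
  ring

theorem t45 {x : K} {w : Wt K} {κ1 : K} {k1 : K} {κ : K} {k : K} {κ2 : K} {k2 : K} (h : Eqs x w κ1 k1 κ k κ2 k2) (F : Pat (Fin 5) → K) :
    Y x 2 3 (R w 1 3 (top κ1 k1 1 2 4 (top κ k 0 3 4 F))) P5_17 = emp 3 (Yt x 0 1 (top κ2 k2 0 2 4 F)) P5_17 := by
  simp only [ev212, ev213] <;>
  ring

theorem t46 {x : K} {w : Wt K} {κ1 : K} {k1 : K} {κ : K} {k : K} {κ2 : K} {k2 : K} (h : Eqs x w κ1 k1 κ k κ2 k2) (F : Pat (Fin 6) → K) :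
    Y x 2 3 (R w 1 3 (top κ1 k1 1 2 4 (top κ k 0 3 4 F))) P6_25 = emp 3 (Yt x 0 1 (top κ2 k2 0 2 4 F)) P6_25 := by
  simp only [ev214, ev215] <;>
  ring

theorem t47 {x : K} {w : Wt K} {κ1 : K} {k1 : K} {κ : K} {k : K} {κ2 : K} {k2 : K} (h : Eqs x w κ1 k1 κ k κ2 k2) (F : Pat (Fin 7) → K) :
    Y x 2 3 (R w 1 3 (top κ1 k1 1 2 4 (top κ k 0 3 4 F))) P7_19 = emp 3 (Yt x 0 1 (top κ2 k2 0 2 4 F)) P7_19 := by
  simp only [ev216, ev217] <;>
  ring

theorem t48 {x : K} {w : Wt K} {κ1 : K} {k1 : K} {κ : K} {k : K} {κ2 : K} {k2 : K} (h : Eqs x w κ1 k1 κ k κ2 k2) (F : Pat (Fin 5) → K) :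
    Y x 2 3 (R w 1 3 (top κ1 k1 1 2 4 (top κ k 0 3 4 F))) P5_13 = emp 3 (Yt x 0 1 (top κ2 k2 0 2 4 F)) P5_13 := by
  simp only [ev218, ev219] <;>
  ring

theorem t49 {x : K} {w : Wt K} {κ1 : K} {k1 : K} {κ : K} {k : K} {κ2 : K} {k2 : K} (h : Eqs x w κ1 k1 κ k κ2 k2) (F : Pat (Fin 6) → K) :
    Y x 2 3 (R w 1 3 (top κ1 k1 1 2 4 (top κ k 0 3 4 F))) P6_21 = emp 3 (Yt x 0 1 (top κ2 k2 0 2 4 F)) P6_21 := by
  simp only [ev220, ev221] <;>
  ring

theorem t50 {x : K} {w : Wt K} {κ1 : K} {k1 : K} {κ : K} {k : K} {κ2 : K} {k2 : K} (h : Eqs x w κ1 k1 κ k κ2 k2) (F : Pat (Fin 5) → K) :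
    Y x 2 3 (R w 1 3 (top κ1 k1 1 2 4 (top κ k 0 3 4 F))) P5_18 = emp 3 (Yt x 0 1 (top κ2 k2 0 2 4 F)) P5_18 := by
  simp only [ev222, ev223, ev224, ev225, ev226, ev227, ev228, ev229, ev198, ev230, ev231] <;>
  ring

theorem t51 {x : K} {w : Wt K} {κ1 : K} {k1 : K} {κ : K} {k : K} {κ2 : K} {k2 : K} (h : Eqs x w κ1 k1 κ k κ2 k2) (F : Pat (Fin 6) → K) :
    Y x 2 3 (R w 1 3 (top κ1 k1 1 2 4 (top κ k 0 3 4 F))) P6_26 = emp 3 (Yt x 0 1 (top κ2 k2 0 2 4 F)) P6_26 := by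
  simp only [ev232, ev233] <;>
  ring

theorem t52 {x : K} {w : Wt K} {κ1 : K} {k1 : K} {κ : K} {k : K} {κ2 : K} {k2 : K} (h : Eqs x w κ1 k1 κ k κ2 k2) (F : Pat (Fin 6) → K) :
    Y x 2 3 (R w 1 3 (top κ1 k1 1 2 4 (top κ k 0 3 4 F))) P6_27 = emp 3 (Yt x 0 1 (top κ2 k2 0 2 4 F)) P6_27 := by
  simp only [ev234, ev235, ev236, ev237, ev238, ev239, ev240, ev241, ev209, ev242, ev243, ev244, ev245] <;>
  linear_combination F P6_0 * h.e4

theorem t53 {x : K} {w : Wt K} {κ1 : K} {k1 : K} {κ : K} {k : K} {κ2 : K} {k2 : K} (h : Eqs x w κ1 k1 κ k κ2 k2) (F : Pat (Fin 7) → K) :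
    Y x 2 3 (R w 1 3 (top κ1 k1 1 2 4 (top κ k 0 3 4 F))) P7_20 = emp 3 (Yt x 0 1 (top κ2 k2 0 2 4 F)) P7_20 := by
  simp only [ev246, ev247, ev248, ev249, ev250, ev251, ev252, ev253, ev254, ev255, ev256] <;>
  ring

theorem t54 {x : K} {w : Wt K} {κ1 : K} {k1 : K} {κ : K} {k : K} {κ2 : K} {k2 : K} (h : Eqs x w κ1 k1 κ k κ2 k2) (F : Pat (Fin 6) → K) :
    Y x 2 3 (R w 1 3 (top κ1 k1 1 2 4 (top κ k 0 3 4 F))) P6_32 = emp 3 (Yt x 0 1 (top κ2 k2 0 2 4 F)) P6_32 := by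
  simp only [ev257, ev258] <;>
  ring

theorem t55 {x : K} {w : Wt K} {κ1 : K} {k1 : K} {κ : K} {k : K} {κ2 : K} {k2 : K} (h : Eqs x w κ1 k1 κ k κ2 k2) (F : Pat (Fin 7) → K) :
    Y x 2 3 (R w 1 3 (top κ1 k1 1 2 4 (top κ k 0 3 4 F))) P7_24 = emp 3 (Yt x 0 1 (top κ2 k2 0 2 4 F)) P7_24 := by
  simp only [ev259, ev260] <;>
  ring

theorem t56 {x : K} {w : Wt K} {κ1 : K} {k1 : K} {κ : K} {k : K} {κ2 : K} {k2 : K} (h : Eqs x w κ1 k1 κ k κ2 k2) (F : Pat (Fin 8) → K) :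
    Y x 2 3 (R w 1 3 (top κ1 k1 1 2 4 (top κ k 0 3 4 F))) P8_9 = emp 3 (Yt x 0 1 (top κ2 k2 0 2 4 F)) P8_9 := by
  simp only [ev261, ev262] <;>
  ring

theorem t57 {x : K} {w : Wt K} {κ1 : K} {k1 : K} {κ : K} {k : K} {κ2 : K} {k2 : K} (h : Eqs x w κ1 k1 κ k κ2 k2) (F : Pat (Fin 5) → K) :
    Y x 2 3 (R w 1 3 (top κ1 k1 1 2 4 (top κ k 0 3 4 F))) P5_8 = emp 3 (Yt x 0 1 (top κ2 k2 0 2 4 F)) P5_8 := by
  simp only [ev263, ev264, ev265, ev192, ev193, ev194, ev195, ev197, ev198, ev266, ev267, ev78] <;>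
  ring

theorem t58 {x : K} {w : Wt K} {κ1 : K} {k1 : K} {κ : K} {k : K} {κ2 : K} {k2 : K} (h : Eqs x w κ1 k1 κ k κ2 k2) (F : Pat (Fin 6) → K) :
    Y x 2 3 (R w 1 3 (top κ1 k1 1 2 4 (top κ k 0 3 4 F))) P6_10 = emp 3 (Yt x 0 1 (top κ2 k2 0 2 4 F)) P6_10 := by
  simp only [ev268, ev269, ev270, ev204, ev205, ev206, ev207, ev209, ev271, ev272, ev84] <;>
  ring

theorem t59 {x : K} {w : Wt K} {κ1 : K} {k1 : K} {κ : K} {k : K} {κ2 : K} {k2 : K} (h : Eqs x w κ1 k1 κ k κ2 k2) (F : Pat (Fin 5) → K) :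
    Y x 2 3 (R w 1 3 (top κ1 k1 1 2 4 (top κ k 0 3 4 F))) P5_22 = emp 3 (Yt x 0 1 (top κ2 k2 0 2 4 F)) P5_22 := by
  simp only [ev273, ev274] <;>
  ring

theorem t60 {x : K} {w : Wt K} {κ1 : K} {k1 : K} {κ : K} {k : K} {κ2 : K} {k2 : K} (h : Eqs x w κ1 k1 κ k κ2 k2) (F : Pat (Fin 6) → K) :
    Y x 2 3 (R w 1 3 (top κ1 k1 1 2 4 (top κ k 0 3 4 F))) P6_33 = emp 3 (Yt x 0 1 (top κ2 k2 0 2 4 F)) P6_33 := by
  simp only [ev275, ev276] <;>
  ring

theorem t61 {x : K} {w : Wt K} {κ1 : K} {k1 : K} {κ : K} {k : K} {κ2 : K} {k2 : K} (h : Eqs x w κ1 k1 κ k κ2 k2) (F : Pat (Fin 7) → K) :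
    Y x 2 3 (R w 1 3 (top κ1 k1 1 2 4 (top κ k 0 3 4 F))) P7_25 = emp 3 (Yt x 0 1 (top κ2 k2 0 2 4 F)) P7_25 := by
  simp only [ev277, ev278] <;>
  ring

theorem t62 {x : K} {w : Wt K} {κ1 : K} {k1 : K} {κ : K} {k : K} {κ2 : K} {k2 : K} (h : Eqs x w κ1 k1 κ k κ2 k2) (F : Pat (Fin 5) → K) :
    Y x 2 3 (R w 1 3 (top κ1 k1 1 2 4 (top κ k 0 3 4 F))) P5_16 = emp 3 (Yt x 0 1 (top κ2 k2 0 2 4 F)) P5_16 := by
  simp only [ev279, ev280] <;>
  ring

theorem t63 {x : K} {w : Wt K} {κ1 : K} {k1 : K} {κ : K} {k : K} {κ2 : K} {k2 : K} (h : Eqs x w κ1 k1 κ k κ2 k2) (F : Pat (Fin 6) → K) :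
    Y x 2 3 (R w 1 3 (top κ1 k1 1 2 4 (top κ k 0 3 4 F))) P6_24 = emp 3 (Yt x 0 1 (top κ2 k2 0 2 4 F)) P6_24 := by
  simp only [ev281, ev282] <;>
  ring

theorem t64 {x : K} {w : Wt K} {κ1 : K} {k1 : K} {κ : K} {k : K} {κ2 : K} {k2 : K} (h : Eqs x w κ1 k1 κ k κ2 k2) (F : Pat (Fin 5) → K) :
    Y x 2 3 (R w 1 3 (top κ1 k1 1 2 4 (top κ k 0 3 4 F))) P5_23 = emp 3 (Yt x 0 1 (top κ2 k2 0 2 4 F)) P5_23 := by
  simp only [ev283, ev284, ev285, ev286, ev287, ev288, ev228, ev229, ev198, ev289, ev290, ev42] <;>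
  ring

theorem t65 {x : K} {w : Wt K} {κ1 : K} {k1 : K} {κ : K} {k : K} {κ2 : K} {k2 : K} (h : Eqs x w κ1 k1 κ k κ2 k2) (F : Pat (Fin 6) → K) :
    Y x 2 3 (R w 1 3 (top κ1 k1 1 2 4 (top κ k 0 3 4 F))) P6_34 = emp 3 (Yt x 0 1 (top κ2 k2 0 2 4 F)) P6_34 := by
  simp only [ev291, ev292] <;>
  ring

theorem t66 {x : K} {w : Wt K} {κ1 : K} {k1 : K} {κ : K} {k : K} {κ2 : K} {k2 : K} (h : Eqs x w κ1 k1 κ k κ2 k2) (F : Pat (Fin 6) → K) :
    Y x 2 3 (R w 1 3 (top κ1 k1 1 2 4 (top κ k 0 3 4 F))) P6_35 = emp 3 (Yt x 0 1 (top κ2 k2 0 2 4 F)) P6_35 := by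
  simp only [ev293, ev294, ev295, ev296, ev297, ev298, ev240, ev241, ev299, ev242, ev243, ev300, ev301, ev55] <;>
  linear_combination F P6_0 * h.e5

theorem t67 {x : K} {w : Wt K} {κ1 : K} {k1 : K} {κ : K} {k : K} {κ2 : K} {k2 : K} (h : Eqs x w κ1 k1 κ k κ2 k2) (F : Pat (Fin 7) → K) :
    Y x 2 3 (R w 1 3 (top κ1 k1 1 2 4 (top κ k 0 3 4 F))) P7_26 = emp 3 (Yt x 0 1 (top κ2 k2 0 2 4 F)) P7_26 := by
  simp only [ev302, ev303, ev304, ev305, ev306, ev307, ev252, ev253, ev254, ev308, ev309, ev66] <;>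
  ring

theorem t68 {x : K} {w : Wt K} {κ1 : K} {k1 : K} {κ : K} {k : K} {κ2 : K} {k2 : K} (h : Eqs x w κ1 k1 κ k κ2 k2) (F : Pat (Fin 6) → K) :
    Y x 2 3 (R w 1 3 (top κ1 k1 1 2 4 (top κ k 0 3 4 F))) P6_37 = emp 3 (Yt x 0 1 (top κ2 k2 0 2 4 F)) P6_37 := by
  simp only [ev310, ev311] <;>
  ring

theorem t69 {x : K} {w : Wt K} {κ1 : K} {k1 : K} {κ : K} {k : K} {κ2 : K} {k2 : K} (h : Eqs x w κ1 k1 κ k κ2 k2) (F : Pat (Fin 7) → K) :
    Y x 2 3 (R w 1 3 (top κ1 k1 1 2 4 (top κ k 0 3 4 F))) P7_27 = emp 3 (Yt x 0 1 (top κ2 k2 0 2 4 F)) P7_27 := by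
  simp only [ev312, ev313] <;>
  ring

theorem t70 {x : K} {w : Wt K} {κ1 : K} {k1 : K} {κ : K} {k : K} {κ2 : K} {k2 : K} (h : Eqs x w κ1 k1 κ k κ2 k2) (F : Pat (Fin 8) → K) :
    Y x 2 3 (R w 1 3 (top κ1 k1 1 2 4 (top κ k 0 3 4 F))) P8_10 = emp 3 (Yt x 0 1 (top κ2 k2 0 2 4 F)) P8_10 := by
  simp only [ev314, ev315] <;>
  ring

theorem t71 {x : K} {w : Wt K} {κ1 : K} {k1 : K} {κ : K} {k : K} {κ2 : K} {k2 : K} (h : Eqs x w κ1 k1 κ k κ2 k2) (F : Pat (Fin 5) → K) :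
    Y x 2 3 (R w 1 3 (top κ1 k1 1 2 4 (top κ k 0 3 4 F))) P5_14 = emp 3 (Yt x 0 1 (top κ2 k2 0 2 4 F)) P5_14 := by
  simp only [ev316, ev317] <;>
  ring

theorem t72 {x : K} {w : Wt K} {κ1 : K} {k1 : K} {κ : K} {k : K} {κ2 : K} {k2 : K} (h : Eqs x w κ1 k1 κ k κ2 k2) (F : Pat (Fin 6) → K) :
    Y x 2 3 (R w 1 3 (top κ1 k1 1 2 4 (top κ k 0 3 4 F))) P6_22 = emp 3 (Yt x 0 1 (top κ2 k2 0 2 4 F)) P6_22 := by
  simp only [ev318, ev319] <;>
  ring

theorem t73 {x : K} {w : Wt K} {κ1 : K} {k1 : K} {κ : K} {k : K} {κ2 : K} {k2 : K} (h : Eqs x w κ1 k1 κ k κ2 k2) (F : Pat (Fin 5) → K) :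
    Y x 2 3 (R w 1 3 (top κ1 k1 1 2 4 (top κ k 0 3 4 F))) P5_21 = emp 3 (Yt x 0 1 (top κ2 k2 0 2 4 F)) P5_21 := by
  simp only [ev320, ev321] <;>
  ring

theorem t74 {x : K} {w : Wt K} {κ1 : K} {k1 : K} {κ : K} {k : K} {κ2 : K} {k2 : K} (h : Eqs x w κ1 k1 κ k κ2 k2) (F : Pat (Fin 6) → K) :
    Y x 2 3 (R w 1 3 (top κ1 k1 1 2 4 (top κ k 0 3 4 F))) P6_30 = emp 3 (Yt x 0 1 (top κ2 k2 0 2 4 F)) P6_30 := by
  simp only [ev322, ev323] <;>
  ring

theorem t75 {x : K} {w : Wt K} {κ1 : K} {k1 : K} {κ : K} {k : K} {κ2 : K} {k2 : K} (h : Eqs x w κ1 k1 κ k κ2 k2) (F : Pat (Fin 7) → K) :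
    Y x 2 3 (R w 1 3 (top κ1 k1 1 2 4 (top κ k 0 3 4 F))) P7_23 = emp 3 (Yt x 0 1 (top κ2 k2 0 2 4 F)) P7_23 := by
  simp only [ev324, ev325] <;>
  ring

theorem t76 {x : K} {w : Wt K} {κ1 : K} {k1 : K} {κ : K} {k : K} {κ2 : K} {k2 : K} (h : Eqs x w κ1 k1 κ k κ2 k2) (F : Pat (Fin 5) → K) :
    Y x 2 3 (R w 1 3 (top κ1 k1 1 2 4 (top κ k 0 3 4 F))) P5_15 = emp 3 (Yt x 0 1 (top κ2 k2 0 2 4 F)) P5_15 := by
  simp only [ev326, ev327] <;>
  ring

theorem t77 {x : K} {w : Wt K} {κ1 : K} {k1 : K} {κ : K} {k : K} {κ2 : K} {k2 : K} (h : Eqs x w κ1 k1 κ k κ2 k2) (F : Pat (Fin 6) → K) :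
    Y x 2 3 (R w 1 3 (top κ1 k1 1 2 4 (top κ k 0 3 4 F))) P6_23 = emp 3 (Yt x 0 1 (top κ2 k2 0 2 4 F)) P6_23 := by
  simp only [ev328, ev329] <;>
  ring

theorem t78 {x : K} {w : Wt K} {κ1 : K} {k1 : K} {κ : K} {k : K} {κ2 : K} {k2 : K} (h : Eqs x w κ1 k1 κ k κ2 k2) (F : Pat (Fin 5) → K) :
    Y x 2 3 (R w 1 3 (top κ1 k1 1 2 4 (top κ k 0 3 4 F))) P5_19 = emp 3 (Yt x 0 1 (top κ2 k2 0 2 4 F)) P5_19 := by
  simp only [ev330, ev331] <;>
  ring

theorem t79 {x : K} {w : Wt K} {κ1 : K} {k1 : K} {κ : K} {k : K} {κ2 : K} {k2 : K} (h : Eqs x w κ1 k1 κ k κ2 k2) (F : Pat (Fin 6) → K) :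
    Y x 2 3 (R w 1 3 (top κ1 k1 1 2 4 (top κ k 0 3 4 F))) P6_38 = emp 3 (Yt x 0 1 (top κ2 k2 0 2 4 F)) P6_38 := by
  simp only [ev332, ev333] <;>
  ring

theorem t80 {x : K} {w : Wt K} {κ1 : K} {k1 : K} {κ : K} {k : K} {κ2 : K} {k2 : K} (h : Eqs x w κ1 k1 κ k κ2 k2) (F : Pat (Fin 6) → K) :
    Y x 2 3 (R w 1 3 (top κ1 k1 1 2 4 (top κ k 0 3 4 F))) P6_28 = emp 3 (Yt x 0 1 (top κ2 k2 0 2 4 F)) P6_28 := by
  simp only [ev334, ev335] <;>
  ring

theorem t81 {x : K} {w : Wt K} {κ1 : K} {k1 : K} {κ : K} {k : K} {κ2 : K} {k2 : K} (h : Eqs x w κ1 k1 κ k κ2 k2) (F : Pat (Fin 7) → K) :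
    Y x 2 3 (R w 1 3 (top κ1 k1 1 2 4 (top κ k 0 3 4 F))) P7_21 = emp 3 (Yt x 0 1 (top κ2 k2 0 2 4 F)) P7_21 := by
  simp only [ev336, ev337] <;>
  ring

theorem t82 {x : K} {w : Wt K} {κ1 : K} {k1 : K} {κ : K} {k : K} {κ2 : K} {k2 : K} (h : Eqs x w κ1 k1 κ k κ2 k2) (F : Pat (Fin 6) → K) :
    Y x 2 3 (R w 1 3 (top κ1 k1 1 2 4 (top κ k 0 3 4 F))) P6_39 = emp 3 (Yt x 0 1 (top κ2 k2 0 2 4 F)) P6_39 := by
  simp only [ev338, ev339] <;>
  ring

theorem t83 {x : K} {w : Wt K} {κ1 : K} {k1 : K} {κ : K} {k : K} {κ2 : K} {k2 : K} (h : Eqs x w κ1 k1 κ k κ2 k2) (F : Pat (Fin 7) → K) :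
    Y x 2 3 (R w 1 3 (top κ1 k1 1 2 4 (top κ k 0 3 4 F))) P7_28 = emp 3 (Yt x 0 1 (top κ2 k2 0 2 4 F)) P7_28 := by
  simp only [ev340, ev341] <;>
  ring

theorem t84 {x : K} {w : Wt K} {κ1 : K} {k1 : K} {κ : K} {k : K} {κ2 : K} {k2 : K} (h : Eqs x w κ1 k1 κ k κ2 k2) (F : Pat (Fin 8) → K) :
    Y x 2 3 (R w 1 3 (top κ1 k1 1 2 4 (top κ k 0 3 4 F))) P8_11 = emp 3 (Yt x 0 1 (top κ2 k2 0 2 4 F)) P8_11 := by
  simp only [ev342, ev343] <;>
  ring

theorem t85 {x : K} {w : Wt K} {κ1 : K} {k1 : K} {κ : K} {k : K} {κ2 : K} {k2 : K} (h : Eqs x w κ1 k1 κ k κ2 k2) (F : Pat (Fin 5) → K) :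
    Y x 2 3 (R w 1 3 (top κ1 k1 1 2 4 (top κ k 0 3 4 F))) P5_11 = emp 3 (Yt x 0 1 (top κ2 k2 0 2 4 F)) P5_11 := by
  simp only [ev344, ev345, ev346, ev228, ev347, ev348, ev229, ev198, ev349, ev350, ev107] <;>
  ring

theorem t86 {x : K} {w : Wt K} {κ1 : K} {k1 : K} {κ : K} {k : K} {κ2 : K} {k2 : K} (h : Eqs x w κ1 k1 κ k κ2 k2) (F : Pat (Fin 6) → K) :
    Y x 2 3 (R w 1 3 (top κ1 k1 1 2 4 (top κ k 0 3 4 F))) P6_36 = emp 3 (Yt x 0 1 (top κ2 k2 0 2 4 F)) P6_36 := by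
  simp only [ev351, ev352] <;>
  ring

theorem t87 {x : K} {w : Wt K} {κ1 : K} {k1 : K} {κ : K} {k : K} {κ2 : K} {k2 : K} (h : Eqs x w κ1 k1 κ k κ2 k2) (F : Pat (Fin 5) → K) :
    Y x 2 3 (R w 1 3 (top κ1 k1 1 2 4 (top κ k 0 3 4 F))) P5_24 = emp 3 (Yt x 0 1 (top κ2 k2 0 2 4 F)) P5_24 := by
  simp only [ev353, ev354] <;>
  ring

theorem t88 {x : K} {w : Wt K} {κ1 : K} {k1 : K} {κ : K} {k : K} {κ2 : K} {k2 : K} (h : Eqs x w κ1 k1 κ k κ2 k2) (F : Pat (Fin 6) → K) :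
    Y x 2 3 (R w 1 3 (top κ1 k1 1 2 4 (top κ k 0 3 4 F))) P6_15 = emp 3 (Yt x 0 1 (top κ2 k2 0 2 4 F)) P6_15 := by
  simp only [ev355, ev356, ev357, ev358, ev359, ev360, ev361, ev299, ev362, ev363, ev120] <;>
  linear_combination F P6_0 * h.e6

theorem t89 {x : K} {w : Wt K} {κ1 : K} {k1 : K} {κ : K} {k : K} {κ2 : K} {k2 : K} (h : Eqs x w κ1 k1 κ k κ2 k2) (F : Pat (Fin 7) → K) :
    Y x 2 3 (R w 1 3 (top κ1 k1 1 2 4 (top κ k 0 3 4 F))) P7_29 = emp 3 (Yt x 0 1 (top κ2 k2 0 2 4 F)) P7_29 := by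
  simp only [ev364, ev365] <;>
  ring

theorem t90 {x : K} {w : Wt K} {κ1 : K} {k1 : K} {κ : K} {k : K} {κ2 : K} {k2 : K} (h : Eqs x w κ1 k1 κ k κ2 k2) (F : Pat (Fin 5) → K) :
    Y x 2 3 (R w 1 3 (top κ1 k1 1 2 4 (top κ k 0 3 4 F))) P5_25 = emp 3 (Yt x 0 1 (top κ2 k2 0 2 4 F)) P5_25 := by
  simp only [ev366, ev367, ev368, ev347, ev348, ev229, ev369, ev370, ev42] <;>
  ring

theorem t91 {x : K} {w : Wt K} {κ1 : K} {k1 : K} {κ : K} {k : K} {κ2 : K} {k2 : K} (h : Eqs x w κ1 k1 κ k κ2 k2) (F : Pat (Fin 6) → K) :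
    Y x 2 3 (R w 1 3 (top κ1 k1 1 2 4 (top κ k 0 3 4 F))) P6_42 = emp 3 (Yt x 0 1 (top κ2 k2 0 2 4 F)) P6_42 := by
  simp only [ev371, ev372] <;>
  ring

theorem t92 {x : K} {w : Wt K} {κ1 : K} {k1 : K} {κ : K} {k : K} {κ2 : K} {k2 : K} (h : Eqs x w κ1 k1 κ k κ2 k2) (F : Pat (Fin 5) → K) :
    Y x 2 3 (R w 1 3 (top κ1 k1 1 2 4 (top κ k 0 3 4 F))) P5_20 = emp 3 (Yt x 0 1 (top κ2 k2 0 2 4 F)) P5_20 := by
  simp only [ev373, ev374] <;>
  ring

theorem t93 {x : K} {w : Wt K} {κ1 : K} {k1 : K} {κ : K} {k : K} {κ2 : K} {k2 : K} (h : Eqs x w κ1 k1 κ k κ2 k2) (F : Pat (Fin 6) → K) :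
    Y x 2 3 (R w 1 3 (top κ1 k1 1 2 4 (top κ k 0 3 4 F))) P6_41 = emp 3 (Yt x 0 1 (top κ2 k2 0 2 4 F)) P6_41 := by
  simp only [ev375, ev376] <;>
  ring

theorem t94 {x : K} {w : Wt K} {κ1 : K} {k1 : K} {κ : K} {k : K} {κ2 : K} {k2 : K} (h : Eqs x w κ1 k1 κ k κ2 k2) (F : Pat (Fin 6) → K) :
    Y x 2 3 (R w 1 3 (top κ1 k1 1 2 4 (top κ k 0 3 4 F))) P6_40 = emp 3 (Yt x 0 1 (top κ2 k2 0 2 4 F)) P6_40 := by
  simp only [ev377, ev378, ev379, ev358, ev359, ev380, ev360, ev361, ev299, ev381, ev382, ev22] <;>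
  linear_combination F P6_0 * h.e7

theorem t95 {x : K} {w : Wt K} {κ1 : K} {k1 : K} {κ : K} {k : K} {κ2 : K} {k2 : K} (h : Eqs x w κ1 k1 κ k κ2 k2) (F : Pat (Fin 7) → K) :
    Y x 2 3 (R w 1 3 (top κ1 k1 1 2 4 (top κ k 0 3 4 F))) P7_30 = emp 3 (Yt x 0 1 (top κ2 k2 0 2 4 F)) P7_30 := by
  simp only [ev383, ev384] <;>
  ring

theorem t96 {x : K} {w : Wt K} {κ1 : K} {k1 : K} {κ : K} {k : K} {κ2 : K} {k2 : K} (h : Eqs x w κ1 k1 κ k κ2 k2) (F : Pat (Fin 6) → K) :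
    Y x 2 3 (R w 1 3 (top κ1 k1 1 2 4 (top κ k 0 3 4 F))) P6_43 = emp 3 (Yt x 0 1 (top κ2 k2 0 2 4 F)) P6_43 := by
  simp only [ev385, ev386] <;>
  ring

theorem t97 {x : K} {w : Wt K} {κ1 : K} {k1 : K} {κ : K} {k : K} {κ2 : K} {k2 : K} (h : Eqs x w κ1 k1 κ k κ2 k2) (F : Pat (Fin 7) → K) :
    Y x 2 3 (R w 1 3 (top κ1 k1 1 2 4 (top κ k 0 3 4 F))) P7_31 = emp 3 (Yt x 0 1 (top κ2 k2 0 2 4 F)) P7_31 := by
  simp only [ev387, ev388, ev389, ev390, ev391, ev392, ev393, ev394, ev395, ev396, ev397, ev398] <;>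
  ring

theorem t98 {x : K} {w : Wt K} {κ1 : K} {k1 : K} {κ : K} {k : K} {κ2 : K} {k2 : K} (h : Eqs x w κ1 k1 κ k κ2 k2) (F : Pat (Fin 8) → K) :
    Y x 2 3 (R w 1 3 (top κ1 k1 1 2 4 (top κ k 0 3 4 F))) P8_12 = emp 3 (Yt x 0 1 (top κ2 k2 0 2 4 F)) P8_12 := by
  simp only [ev399, ev400] <;>
  ring

theorem t99 {x : K} {w : Wt K} {κ1 : K} {k1 : K} {κ : K} {k : K} {κ2 : K} {k2 : K} (h : Eqs x w κ1 k1 κ k κ2 k2) (F : Pat (Fin 6) → K) :
    Y x 2 3 (R w 1 3 (top κ1 k1 1 2 4 (top κ k 0 3 4 F))) P6_17 = emp 3 (Yt x 0 1 (top κ2 k2 0 2 4 F)) P6_17 := by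
  simp only [ev401, ev402, ev403, ev240, ev404, ev405, ev241, ev242, ev243, ev406, ev407, ev129] <;>
  linear_combination F P6_0 * h.e8

theorem t100 {x : K} {w : Wt K} {κ1 : K} {k1 : K} {κ : K} {k : K} {κ2 : K} {k2 : K} (h : Eqs x w κ1 k1 κ k κ2 k2) (F : Pat (Fin 7) → K) :
    Y x 2 3 (R w 1 3 (top κ1 k1 1 2 4 (top κ k 0 3 4 F))) P7_8 = emp 3 (Yt x 0 1 (top κ2 k2 0 2 4 F)) P7_8 := by
  simp only [ev408, ev409, ev410, ev252, ev411, ev412, ev253, ev254, ev413, ev414, ev136] <;>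
  ring

theorem t101 {x : K} {w : Wt K} {κ1 : K} {k1 : K} {κ : K} {k : K} {κ2 : K} {k2 : K} (h : Eqs x w κ1 k1 κ k κ2 k2) (F : Pat (Fin 6) → K) :
    Y x 2 3 (R w 1 3 (top κ1 k1 1 2 4 (top κ k 0 3 4 F))) P6_31 = emp 3 (Yt x 0 1 (top κ2 k2 0 2 4 F)) P6_31 := by
  simp only [ev415, ev416] <;>
  ring

theorem t102 {x : K} {w : Wt K} {κ1 : K} {k1 : K} {κ : K} {k : K} {κ2 : K} {k2 : K} (h : Eqs x w κ1 k1 κ k κ2 k2) (F : Pat (Fin 7) → K) :
    Y x 2 3 (R w 1 3 (top κ1 k1 1 2 4 (top κ k 0 3 4 F))) P7_39 = emp 3 (Yt x 0 1 (top κ2 k2 0 2 4 F)) P7_39 := by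
  simp only [ev417, ev418] <;>
  ring

theorem t103 {x : K} {w : Wt K} {κ1 : K} {k1 : K} {κ : K} {k : K} {κ2 : K} {k2 : K} (h : Eqs x w κ1 k1 κ k κ2 k2) (F : Pat (Fin 8) → K) :
    Y x 2 3 (R w 1 3 (top κ1 k1 1 2 4 (top κ k 0 3 4 F))) P8_13 = emp 3 (Yt x 0 1 (top κ2 k2 0 2 4 F)) P8_13 := by
  simp only [ev419, ev420] <;>
  ring

theorem t104 {x : K} {w : Wt K} {κ1 : K} {k1 : K} {κ : K} {k : K} {κ2 : K} {k2 : K} (h : Eqs x w κ1 k1 κ k κ2 k2) (F : Pat (Fin 6) → K) :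
    Y x 2 3 (R w 1 3 (top κ1 k1 1 2 4 (top κ k 0 3 4 F))) P6_44 = emp 3 (Yt x 0 1 (top κ2 k2 0 2 4 F)) P6_44 := by
  simp only [ev421, ev422] <;>
  ring

theorem t105 {x : K} {w : Wt K} {κ1 : K} {k1 : K} {κ : K} {k : K} {κ2 : K} {k2 : K} (h : Eqs x w κ1 k1 κ k κ2 k2) (F : Pat (Fin 7) → K) :
    Y x 2 3 (R w 1 3 (top κ1 k1 1 2 4 (top κ k 0 3 4 F))) P7_37 = emp 3 (Yt x 0 1 (top κ2 k2 0 2 4 F)) P7_37 := by
  simp only [ev423, ev424] <;>
  ring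

theorem t106 {x : K} {w : Wt K} {κ1 : K} {k1 : K} {κ : K} {k : K} {κ2 : K} {k2 : K} (h : Eqs x w κ1 k1 κ k κ2 k2) (F : Pat (Fin 6) → K) :
    Y x 2 3 (R w 1 3 (top κ1 k1 1 2 4 (top κ k 0 3 4 F))) P6_19 = emp 3 (Yt x 0 1 (top κ2 k2 0 2 4 F)) P6_19 := by
  simp only [ev425, ev426, ev427, ev428, ev429, ev430, ev431, ev243, ev432, ev433, ev155] <;>
  linear_combination F P6_0 * h.e6

theorem t107 {x : K} {w : Wt K} {κ1 : K} {k1 : K} {κ : K} {k : K} {κ2 : K} {k2 : K} (h : Eqs x w κ1 k1 κ k κ2 k2) (F : Pat (Fin 7) → K) :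
    Y x 2 3 (R w 1 3 (top κ1 k1 1 2 4 (top κ k 0 3 4 F))) P7_40 = emp 3 (Yt x 0 1 (top κ2 k2 0 2 4 F)) P7_40 := by
  simp only [ev434, ev435] <;>
  ring

theorem t108 {x : K} {w : Wt K} {κ1 : K} {k1 : K} {κ : K} {k : K} {κ2 : K} {k2 : K} (h : Eqs x w κ1 k1 κ k κ2 k2) (F : Pat (Fin 7) → K) :
    Y x 2 3 (R w 1 3 (top κ1 k1 1 2 4 (top κ k 0 3 4 F))) P7_17 = emp 3 (Yt x 0 1 (top κ2 k2 0 2 4 F)) P7_17 := by
  simp only [ev436, ev437, ev438, ev439, ev440, ev441, ev442, ev254, ev443, ev444, ev445, ev170] <;>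
  linear_combination F P7_13 * h.e6

theorem t109 {x : K} {w : Wt K} {κ1 : K} {k1 : K} {κ : K} {k : K} {κ2 : K} {k2 : K} (h : Eqs x w κ1 k1 κ k κ2 k2) (F : Pat (Fin 8) → K) :
    Y x 2 3 (R w 1 3 (top κ1 k1 1 2 4 (top κ k 0 3 4 F))) P8_7 = emp 3 (Yt x 0 1 (top κ2 k2 0 2 4 F)) P8_7 := by
  simp only [ev446, ev447, ev448, ev449, ev450, ev451, ev452, ev453, ev454, ev455, ev182] <;>
  linear_combination F P8_4 * h.e6

theorem t110 {x : K} {w : Wt K} {κ1 : K} {k1 : K} {κ : K} {k : K} {κ2 : K} {k2 : K} (h : Eqs x w κ1 k1 κ k κ2 k2) (F : Pat (Fin 7) → K) :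
    Y x 2 3 (R w 1 3 (top κ1 k1 1 2 4 (top κ k 0 3 4 F))) P7_43 = emp 3 (Yt x 0 1 (top κ2 k2 0 2 4 F)) P7_43 := by
  simp only [ev456, ev457] <;>
  ring

theorem t111 {x : K} {w : Wt K} {κ1 : K} {k1 : K} {κ : K} {k : K} {κ2 : K} {k2 : K} (h : Eqs x w κ1 k1 κ k κ2 k2) (F : Pat (Fin 8) → K) :
    Y x 2 3 (R w 1 3 (top κ1 k1 1 2 4 (top κ k 0 3 4 F))) P8_16 = emp 3 (Yt x 0 1 (top κ2 k2 0 2 4 F)) P8_16 := by
  simp only [ev458, ev459] <;>
  ring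

theorem t112 {x : K} {w : Wt K} {κ1 : K} {k1 : K} {κ : K} {k : K} {κ2 : K} {k2 : K} (h : Eqs x w κ1 k1 κ k κ2 k2) (F : Pat (Fin 9) → K) :
    Y x 2 3 (R w 1 3 (top κ1 k1 1 2 4 (top κ k 0 3 4 F))) P9_1 = emp 3 (Yt x 0 1 (top κ2 k2 0 2 4 F)) P9_1 := by
  simp only [ev460, ev461] <;>
  ring

theorem t113 {x : K} {w : Wt K} {κ1 : K} {k1 : K} {κ : K} {k : K} {κ2 : K} {k2 : K} (h : Eqs x w κ1 k1 κ k κ2 k2) (F : Pat (Fin 6) → K) :
    Y x 2 3 (R w 1 3 (top κ1 k1 1 2 4 (top κ k 0 3 4 F))) P6_45 = emp 3 (Yt x 0 1 (top κ2 k2 0 2 4 F)) P6_45 := by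
  simp only [ev462, ev463, ev464, ev404, ev405, ev241, ev243, ev465, ev466, ev55] <;>
  linear_combination F P6_0 * h.e9

theorem t114 {x : K} {w : Wt K} {κ1 : K} {k1 : K} {κ : K} {k : K} {κ2 : K} {k2 : K} (h : Eqs x w κ1 k1 κ k κ2 k2) (F : Pat (Fin 7) → K) :
    Y x 2 3 (R w 1 3 (top κ1 k1 1 2 4 (top κ k 0 3 4 F))) P7_38 = emp 3 (Yt x 0 1 (top κ2 k2 0 2 4 F)) P7_38 := by
  simp only [ev467, ev468, ev469, ev411, ev412, ev253, ev470, ev471, ev66] <;>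
  ring

theorem t115 {x : K} {w : Wt K} {κ1 : K} {k1 : K} {κ : K} {k : K} {κ2 : K} {k2 : K} (h : Eqs x w κ1 k1 κ k κ2 k2) (F : Pat (Fin 6) → K) :
    Y x 2 3 (R w 1 3 (top κ1 k1 1 2 4 (top κ k 0 3 4 F))) P6_48 = emp 3 (Yt x 0 1 (top κ2 k2 0 2 4 F)) P6_48 := by
  simp only [ev472, ev473] <;>
  ring

theorem t116 {x : K} {w : Wt K} {κ1 : K} {k1 : K} {κ : K} {k : K} {κ2 : K} {k2 : K} (h : Eqs x w κ1 k1 κ k κ2 k2) (F : Pat (Fin 7) → K) :
    Y x 2 3 (R w 1 3 (top κ1 k1 1 2 4 (top κ k 0 3 4 F))) P7_44 = emp 3 (Yt x 0 1 (top κ2 k2 0 2 4 F)) P7_44 := by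
  simp only [ev474, ev475] <;>
  ring

theorem t117 {x : K} {w : Wt K} {κ1 : K} {k1 : K} {κ : K} {k : K} {κ2 : K} {k2 : K} (h : Eqs x w κ1 k1 κ k κ2 k2) (F : Pat (Fin 8) → K) :
    Y x 2 3 (R w 1 3 (top κ1 k1 1 2 4 (top κ k 0 3 4 F))) P8_17 = emp 3 (Yt x 0 1 (top κ2 k2 0 2 4 F)) P8_17 := by
  simp only [ev476, ev477] <;>
  ring

theorem t118 {x : K} {w : Wt K} {κ1 : K} {k1 : K} {κ : K} {k : K} {κ2 : K} {k2 : K} (h : Eqs x w κ1 k1 κ k κ2 k2) (F : Pat (Fin 6) → K) :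
    Y x 2 3 (R w 1 3 (top κ1 k1 1 2 4 (top κ k 0 3 4 F))) P6_29 = emp 3 (Yt x 0 1 (top κ2 k2 0 2 4 F)) P6_29 := by
  simp only [ev478, ev479] <;>
  ring

theorem t119 {x : K} {w : Wt K} {κ1 : K} {k1 : K} {κ : K} {k : K} {κ2 : K} {k2 : K} (h : Eqs x w κ1 k1 κ k κ2 k2) (F : Pat (Fin 7) → K) :
    Y x 2 3 (R w 1 3 (top κ1 k1 1 2 4 (top κ k 0 3 4 F))) P7_22 = emp 3 (Yt x 0 1 (top κ2 k2 0 2 4 F)) P7_22 := by
  simp only [ev480, ev481] <;>
  ring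

theorem t120 {x : K} {w : Wt K} {κ1 : K} {k1 : K} {κ : K} {k : K} {κ2 : K} {k2 : K} (h : Eqs x w κ1 k1 κ k κ2 k2) (F : Pat (Fin 6) → K) :
    Y x 2 3 (R w 1 3 (top κ1 k1 1 2 4 (top κ k 0 3 4 F))) P6_47 = emp 3 (Yt x 0 1 (top κ2 k2 0 2 4 F)) P6_47 := by
  simp only [ev482, ev483] <;>
  ring

theorem t121 {x : K} {w : Wt K} {κ1 : K} {k1 : K} {κ : K} {k : K} {κ2 : K} {k2 : K} (h : Eqs x w κ1 k1 κ k κ2 k2) (F : Pat (Fin 7) → K) :
    Y x 2 3 (R w 1 3 (top κ1 k1 1 2 4 (top κ k 0 3 4 F))) P7_42 = emp 3 (Yt x 0 1 (top κ2 k2 0 2 4 F)) P7_42 := by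
  simp only [ev484, ev485] <;>
  ring

theorem t122 {x : K} {w : Wt K} {κ1 : K} {k1 : K} {κ : K} {k : K} {κ2 : K} {k2 : K} (h : Eqs x w κ1 k1 κ k κ2 k2) (F : Pat (Fin 8) → K) :
    Y x 2 3 (R w 1 3 (top κ1 k1 1 2 4 (top κ k 0 3 4 F))) P8_15 = emp 3 (Yt x 0 1 (top κ2 k2 0 2 4 F)) P8_15 := by
  simp only [ev486, ev487] <;>
  ring

theorem t123 {x : K} {w : Wt K} {κ1 : K} {k1 : K} {κ : K} {k : K} {κ2 : K} {k2 : K} (h : Eqs x w κ1 k1 κ k κ2 k2) (F : Pat (Fin 6) → K) :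
    Y x 2 3 (R w 1 3 (top κ1 k1 1 2 4 (top κ k 0 3 4 F))) P6_46 = emp 3 (Yt x 0 1 (top κ2 k2 0 2 4 F)) P6_46 := by
  simp only [ev488, ev489, ev490, ev428, ev429, ev491, ev430, ev431, ev243, ev492, ev493, ev22] <;>
  linear_combination F P6_0 * h.e7

theorem t124 {x : K} {w : Wt K} {κ1 : K} {k1 : K} {κ : K} {k : K} {κ2 : K} {k2 : K} (h : Eqs x w κ1 k1 κ k κ2 k2) (F : Pat (Fin 7) → K) :
    Y x 2 3 (R w 1 3 (top κ1 k1 1 2 4 (top κ k 0 3 4 F))) P7_45 = emp 3 (Yt x 0 1 (top κ2 k2 0 2 4 F)) P7_45 := by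
  simp only [ev494, ev495] <;>
  ring

theorem t125 {x : K} {w : Wt K} {κ1 : K} {k1 : K} {κ : K} {k : K} {κ2 : K} {k2 : K} (h : Eqs x w κ1 k1 κ k κ2 k2) (F : Pat (Fin 6) → K) :
    Y x 2 3 (R w 1 3 (top κ1 k1 1 2 4 (top κ k 0 3 4 F))) P6_49 = emp 3 (Yt x 0 1 (top κ2 k2 0 2 4 F)) P6_49 := by
  simp only [ev496, ev497] <;>
  ring

theorem t126 {x : K} {w : Wt K} {κ1 : K} {k1 : K} {κ : K} {k : K} {κ2 : K} {k2 : K} (h : Eqs x w κ1 k1 κ k κ2 k2) (F : Pat (Fin 7) → K) :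
    Y x 2 3 (R w 1 3 (top κ1 k1 1 2 4 (top κ k 0 3 4 F))) P7_46 = emp 3 (Yt x 0 1 (top κ2 k2 0 2 4 F)) P7_46 := by
  simp only [ev498, ev499, ev500, ev252, ev501, ev253, ev502, ev503, ev254, ev504, ev505, ev398] <;>
  ring

theorem t127 {x : K} {w : Wt K} {κ1 : K} {k1 : K} {κ : K} {k : K} {κ2 : K} {k2 : K} (h : Eqs x w κ1 k1 κ k κ2 k2) (F : Pat (Fin 8) → K) :
    Y x 2 3 (R w 1 3 (top κ1 k1 1 2 4 (top κ k 0 3 4 F))) P8_18 = emp 3 (Yt x 0 1 (top κ2 k2 0 2 4 F)) P8_18 := by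
  simp only [ev506, ev507] <;>
  ring

theorem t128 {x : K} {w : Wt K} {κ1 : K} {k1 : K} {κ : K} {k : K} {κ2 : K} {k2 : K} (h : Eqs x w κ1 k1 κ k κ2 k2) (F : Pat (Fin 7) → K) :
    Y x 2 3 (R w 1 3 (top κ1 k1 1 2 4 (top κ k 0 3 4 F))) P7_41 = emp 3 (Yt x 0 1 (top κ2 k2 0 2 4 F)) P7_41 := by
  simp only [ev508, ev509, ev510, ev439, ev440, ev511, ev441, ev442, ev254, ev443, ev512, ev513, ev514] <;>
  linear_combination F P7_13 * h.e7

theorem t129 {x : K} {w : Wt K} {κ1 : K} {k1 : K} {κ : K} {k : K} {κ2 : K} {k2 : K} (h : Eqs x w κ1 k1 κ k κ2 k2) (F : Pat (Fin 8) → K) :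
    Y x 2 3 (R w 1 3 (top κ1 k1 1 2 4 (top κ k 0 3 4 F))) P8_14 = emp 3 (Yt x 0 1 (top κ2 k2 0 2 4 F)) P8_14 := by
  simp only [ev515, ev516, ev517, ev449, ev450, ev518, ev451, ev452, ev453, ev519, ev520, ev521] <;>
  linear_combination F P8_4 * h.e7

theorem t130 {x : K} {w : Wt K} {κ1 : K} {k1 : K} {κ : K} {k : K} {κ2 : K} {k2 : K} (h : Eqs x w κ1 k1 κ k κ2 k2) (F : Pat (Fin 7) → K) :
    Y x 2 3 (R w 1 3 (top κ1 k1 1 2 4 (top κ k 0 3 4 F))) P7_47 = emp 3 (Yt x 0 1 (top κ2 k2 0 2 4 F)) P7_47 := by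
  simp only [ev522, ev523] <;>
  ring

theorem t131 {x : K} {w : Wt K} {κ1 : K} {k1 : K} {κ : K} {k : K} {κ2 : K} {k2 : K} (h : Eqs x w κ1 k1 κ k κ2 k2) (F : Pat (Fin 8) → K) :
    Y x 2 3 (R w 1 3 (top κ1 k1 1 2 4 (top κ k 0 3 4 F))) P8_20 = emp 3 (Yt x 0 1 (top κ2 k2 0 2 4 F)) P8_20 := by
  simp only [ev524, ev525] <;>
  ring

theorem t132 {x : K} {w : Wt K} {κ1 : K} {k1 : K} {κ : K} {k : K} {κ2 : K} {k2 : K} (h : Eqs x w κ1 k1 κ k κ2 k2) (F : Pat (Fin 9) → K) :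
    Y x 2 3 (R w 1 3 (top κ1 k1 1 2 4 (top κ k 0 3 4 F))) P9_2 = emp 3 (Yt x 0 1 (top κ2 k2 0 2 4 F)) P9_2 := by
  simp only [ev526, ev527] <;>
  ring

theorem t133 {x : K} {w : Wt K} {κ1 : K} {k1 : K} {κ : K} {k : K} {κ2 : K} {k2 : K} (h : Eqs x w κ1 k1 κ k κ2 k2) (F : Pat (Fin 7) → K) :
    Y x 2 3 (R w 1 3 (top κ1 k1 1 2 4 (top κ k 0 3 4 F))) P7_48 = emp 3 (Yt x 0 1 (top κ2 k2 0 2 4 F)) P7_48 := by
  simp only [ev528, ev529] <;>
  ring

theorem t134 {x : K} {w : Wt K} {κ1 : K} {k1 : K} {κ : K} {k : K} {κ2 : K} {k2 : K} (h : Eqs x w κ1 k1 κ k κ2 k2) (F : Pat (Fin 8) → K) :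
    Y x 2 3 (R w 1 3 (top κ1 k1 1 2 4 (top κ k 0 3 4 F))) P8_19 = emp 3 (Yt x 0 1 (top κ2 k2 0 2 4 F)) P8_19 := by
  simp only [ev530, ev531] <;>
  ring

theorem t135 {x : K} {w : Wt K} {κ1 : K} {k1 : K} {κ : K} {k : K} {κ2 : K} {k2 : K} (h : Eqs x w κ1 k1 κ k κ2 k2) (F : Pat (Fin 7) → K) :
    Y x 2 3 (R w 1 3 (top κ1 k1 1 2 4 (top κ k 0 3 4 F))) P7_49 = emp 3 (Yt x 0 1 (top κ2 k2 0 2 4 F)) P7_49 := by
  simp only [ev532, ev533, ev534, ev252, ev535, ev253, ev536, ev537, ev254, ev538, ev539, ev540] <;>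
  ring

theorem t136 {x : K} {w : Wt K} {κ1 : K} {k1 : K} {κ : K} {k : K} {κ2 : K} {k2 : K} (h : Eqs x w κ1 k1 κ k κ2 k2) (F : Pat (Fin 8) → K) :
    Y x 2 3 (R w 1 3 (top κ1 k1 1 2 4 (top κ k 0 3 4 F))) P8_21 = emp 3 (Yt x 0 1 (top κ2 k2 0 2 4 F)) P8_21 := by
  simp only [ev541, ev542] <;>
  ring

theorem t137 {x : K} {w : Wt K} {κ1 : K} {k1 : K} {κ : K} {k : K} {κ2 : K} {k2 : K} (h : Eqs x w κ1 k1 κ k κ2 k2) (F : Pat (Fin 8) → K) :
    Y x 2 3 (R w 1 3 (top κ1 k1 1 2 4 (top κ k 0 3 4 F))) P8_22 = emp 3 (Yt x 0 1 (top κ2 k2 0 2 4 F)) P8_22 := by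
  simp only [ev543, ev544, ev545, ev546, ev547, ev548, ev549, ev550, ev551, ev552, ev453, ev553, ev554, ev555] <;>
  linear_combination F P8_28 * h.e4 + F P8_4 * h.e9

theorem t138 {x : K} {w : Wt K} {κ1 : K} {k1 : K} {κ : K} {k : K} {κ2 : K} {k2 : K} (h : Eqs x w κ1 k1 κ k κ2 k2) (F : Pat (Fin 9) → K) :
    Y x 2 3 (R w 1 3 (top κ1 k1 1 2 4 (top κ k 0 3 4 F))) P9_3 = emp 3 (Yt x 0 1 (top κ2 k2 0 2 4 F)) P9_3 := by
  simp only [ev556, ev557, ev558, ev559, ev560, ev561, ev562, ev563, ev564, ev565, ev566, ev567] <;>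
  ring

theorem t139 {x : K} {w : Wt K} {κ1 : K} {k1 : K} {κ : K} {k : K} {κ2 : K} {k2 : K} (h : Eqs x w κ1 k1 κ k κ2 k2) (F : Pat (Fin 8) → K) :
    Y x 2 3 (R w 1 3 (top κ1 k1 1 2 4 (top κ k 0 3 4 F))) P8_30 = emp 3 (Yt x 0 1 (top κ2 k2 0 2 4 F)) P8_30 := by
  simp only [ev568, ev569] <;>
  ring

theorem t140 {x : K} {w : Wt K} {κ1 : K} {k1 : K} {κ : K} {k : K} {κ2 : K} {k2 : K} (h : Eqs x w κ1 k1 κ k κ2 k2) (F : Pat (Fin 9) → K) :
    Y x 2 3 (R w 1 3 (top κ1 k1 1 2 4 (top κ k 0 3 4 F))) P9_9 = emp 3 (Yt x 0 1 (top κ2 k2 0 2 4 F)) P9_9 := by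
  simp only [ev570, ev571] <;>
  ring

theorem t141 {x : K} {w : Wt K} {κ1 : K} {k1 : K} {κ : K} {k : K} {κ2 : K} {k2 : K} (h : Eqs x w κ1 k1 κ k κ2 k2) (F : Pat (Fin 10) → K) :
    Y x 2 3 (R w 1 3 (top κ1 k1 1 2 4 (top κ k 0 3 4 F))) P10_0 = emp 3 (Yt x 0 1 (top κ2 k2 0 2 4 F)) P10_0 := by
  simp only [ev572, ev573] <;>
  ring

theorem case {x : K} {w : Wt K} {κ1 : K} {k1 : K} {κ : K} {k : K} {κ2 : K} {k2 : K} {p : Pat α} {m : ℕ} (φ : Fin m → α) (inj : Function.Injective φ)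
    (q : Pat (Fin m)) (hq : ∀ x, p (φ x) = φ (q x)) (l l2 r2 n t : Fin m)
    (H : ∀ F : Pat (Fin m) → K, (Y x r2 n (R w l2 n (top κ1 k1 l2 r2 t (top κ k l n t F)))) q = (emp n (Yt x l l2 (top κ2 k2 l r2 t F))) q)
    (F : Pat α → K) :
    (Y x (φ r2) (φ n) (R w (φ l2) (φ n) (top κ1 k1 (φ l2) (φ r2) (φ t) (top κ k (φ l) (φ n) (φ t) F)))) p = (emp (φ n) (Yt x (φ l) (φ l2) (top κ2 k2 (φ l) (φ r2) (φ t) F))) p := by
  let E : Pat.Emb (Fin m) α := ⟨φ, inj, p, fun x => ⟨q x, hq x⟩⟩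
  have hst : E.st q = p := E.st_eq hq
  have key := H (fun r => F (E.st r))
  have e1 : (Y x (E.φ r2) (E.φ n) (R w (E.φ l2) (E.φ n) (top κ1 k1 (E.φ l2) (E.φ r2) (E.φ t) (top κ k (E.φ l) (E.φ n) (E.φ t) F)))) (E.st q) = (Y x r2 n (R w l2 n (top κ1 k1 l2 r2 t (top κ k l n t (fun r => F (E.st r)))))) q := by
    simp only [R_st, Y_st, Yt_st, emp_st, top_st]
  have e2 : (emp (E.φ n) (Yt x (E.φ l) (E.φ l2) (top κ2 k2 (E.φ l) (E.φ r2) (E.φ t) F))) (E.st q) = (emp n (Yt x l l2 (top κ2 k2 l r2 t (fun r => F (E.st r))))) q := by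
    simp only [R_st, Y_st, Yt_st, emp_st, top_st]
  rw [hst] at e1 e2
  exact e1.trans (key.trans e2.symm)

omit [DecidableEq α] in
theorem inj5 {a0 a1 a2 a3 a4 : α} (h0_1 : a0 ≠ a1) (h0_2 : a0 ≠ a2) (h0_3 : a0 ≠ a3) (h0_4 : a0 ≠ a4) (h1_2 : a1 ≠ a2) (h1_3 : a1 ≠ a3) (h1_4 : a1 ≠ a4) (h2_3 : a2 ≠ a3) (h2_4 : a2 ≠ a4) (h3_4 : a3 ≠ a4) :
    Function.Injective ![a0, a1, a2, a3, a4] := by
  intro x y hxy
  fin_cases x <;> fin_cases y <;> simp_all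

omit [DecidableEq α] in
theorem inj6 {a0 a1 a2 a3 a4 a5 : α} (h0_1 : a0 ≠ a1) (h0_2 : a0 ≠ a2) (h0_3 : a0 ≠ a3) (h0_4 : a0 ≠ a4) (h0_5 : a0 ≠ a5) (h1_2 : a1 ≠ a2) (h1_3 : a1 ≠ a3) (h1_4 : a1 ≠ a4) (h1_5 : a1 ≠ a5) (h2_3 : a2 ≠ a3) (h2_4 : a2 ≠ a4) (h2_5 : a2 ≠ a5) (h3_4 : a3 ≠ a4) (h3_5 : a3 ≠ a5) (h4_5 : a4 ≠ a5) :
    Function.Injective ![a0, a1, a2, a3, a4, a5] := by
  intro x y hxy
  fin_cases x <;> fin_cases y <;> simp_all

omit [DecidableEq α] in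
theorem inj7 {a0 a1 a2 a3 a4 a5 a6 : α} (h0_1 : a0 ≠ a1) (h0_2 : a0 ≠ a2) (h0_3 : a0 ≠ a3) (h0_4 : a0 ≠ a4) (h0_5 : a0 ≠ a5) (h0_6 : a0 ≠ a6) (h1_2 : a1 ≠ a2) (h1_3 : a1 ≠ a3) (h1_4 : a1 ≠ a4) (h1_5 : a1 ≠ a5) (h1_6 : a1 ≠ a6) (h2_3 : a2 ≠ a3) (h2_4 : a2 ≠ a4) (h2_5 : a2 ≠ a5) (h2_6 : a2 ≠ a6) (h3_4 : a3 ≠ a4) (h3_5 : a3 ≠ a5) (h3_6 : a3 ≠ a6) (h4_5 : a4 ≠ a5) (h4_6 : a4 ≠ a6) (h5_6 : a5 ≠ a6) :
    Function.Injective ![a0, a1, a2, a3, a4, a5, a6] := by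
  intro x y hxy
  fin_cases x <;> fin_cases y <;> simp_all

omit [DecidableEq α] in
theorem inj8 {a0 a1 a2 a3 a4 a5 a6 a7 : α} (h0_1 : a0 ≠ a1) (h0_2 : a0 ≠ a2) (h0_3 : a0 ≠ a3) (h0_4 : a0 ≠ a4) (h0_5 : a0 ≠ a5) (h0_6 : a0 ≠ a6) (h0_7 : a0 ≠ a7) (h1_2 : a1 ≠ a2) (h1_3 : a1 ≠ a3) (h1_4 : a1 ≠ a4) (h1_5 : a1 ≠ a5) (h1_6 : a1 ≠ a6) (h1_7 : a1 ≠ a7) (h2_3 : a2 ≠ a3) (h2_4 : a2 ≠ a4) (h2_5 : a2 ≠ a5) (h2_6 : a2 ≠ a6) (h2_7 : a2 ≠ a7) (h3_4 : a3 ≠ a4) (h3_5 : a3 ≠ a5) (h3_6 : a3 ≠ a6) (h3_7 : a3 ≠ a7) (h4_5 : a4 ≠ a5) (h4_6 : a4 ≠ a6) (h4_7 : a4 ≠ a7) (h5_6 : a5 ≠ a6) (h5_7 : a5 ≠ a7) (h6_7 : a6 ≠ a7) :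
    Function.Injective ![a0, a1, a2, a3, a4, a5, a6, a7] := by
  intro x y hxy
  fin_cases x <;> fin_cases y <;> simp_all

omit [DecidableEq α] in
theorem inj9 {a0 a1 a2 a3 a4 a5 a6 a7 a8 : α} (h0_1 : a0 ≠ a1) (h0_2 : a0 ≠ a2) (h0_3 : a0 ≠ a3) (h0_4 : a0 ≠ a4) (h0_5 : a0 ≠ a5) (h0_6 : a0 ≠ a6) (h0_7 : a0 ≠ a7) (h0_8 : a0 ≠ a8) (h1_2 : a1 ≠ a2) (h1_3 : a1 ≠ a3) (h1_4 : a1 ≠ a4) (h1_5 : a1 ≠ a5) (h1_6 : a1 ≠ a6) (h1_7 : a1 ≠ a7) (h1_8 : a1 ≠ a8) (h2_3 : a2 ≠ a3) (h2_4 : a2 ≠ a4) (h2_5 : a2 ≠ a5) (h2_6 : a2 ≠ a6) (h2_7 : a2 ≠ a7) (h2_8 : a2 ≠ a8) (h3_4 : a3 ≠ a4) (h3_5 : a3 ≠ a5) (h3_6 : a3 ≠ a6) (h3_7 : a3 ≠ a7) (h3_8 : a3 ≠ a8) (h4_5 : a4 ≠ a5) (h4_6 : a4 ≠ a6) (h4_7 : a4 ≠ a7) (h4_8 : a4 ≠ a8) (h5_6 : a5 ≠ a6) (h5_7 : a5 ≠ a7) (h5_8 : a5 ≠ a8) (h6_7 : a6 ≠ a7) (h6_8 : a6 ≠ a8) (h7_8 : a7 ≠ a8) :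
    Function.Injective ![a0, a1, a2, a3, a4, a5, a6, a7, a8] := by
  intro x y hxy
  fin_cases x <;> fin_cases y <;> simp_all

omit [DecidableEq α] in
theorem inj10 {a0 a1 a2 a3 a4 a5 a6 a7 a8 a9 : α} (h0_1 : a0 ≠ a1) (h0_2 : a0 ≠ a2) (h0_3 : a0 ≠ a3) (h0_4 : a0 ≠ a4) (h0_5 : a0 ≠ a5) (h0_6 : a0 ≠ a6) (h0_7 : a0 ≠ a7) (h0_8 : a0 ≠ a8) (h0_9 : a0 ≠ a9) (h1_2 : a1 ≠ a2) (h1_3 : a1 ≠ a3) (h1_4 : a1 ≠ a4) (h1_5 : a1 ≠ a5) (h1_6 : a1 ≠ a6) (h1_7 : a1 ≠ a7) (h1_8 : a1 ≠ a8) (h1_9 : a1 ≠ a9) (h2_3 : a2 ≠ a3) (h2_4 : a2 ≠ a4) (h2_5 : a2 ≠ a5) (h2_6 : a2 ≠ a6) (h2_7 : a2 ≠ a7) (h2_8 : a2 ≠ a8) (h2_9 : a2 ≠ a9) (h3_4 : a3 ≠ a4) (h3_5 : a3 ≠ a5) (h3_6 : a3 ≠ a6) (h3_7 : a3 ≠ a7) (h3_8 : a3 ≠ a8) (h3_9 : a3 ≠ a9) (h4_5 : a4 ≠ a5) (h4_6 : a4 ≠ a6) (h4_7 : a4 ≠ a7) (h4_8 : a4 ≠ a8) (h4_9 : a4 ≠ a9) (h5_6 : a5 ≠ a6) (h5_7 : a5 ≠ a7) (h5_8 : a5 ≠ a8) (h5_9 : a5 ≠ a9) (h6_7 : a6 ≠ a7) (h6_8 : a6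 ≠ a8) (h6_9 : a6 ≠ a9) (h7_8 : a7 ≠ a8) (h7_9 : a7 ≠ a9) (h8_9 : a8 ≠ a9) :
    Function.Injective ![a0, a1, a2, a3, a4, a5, a6, a7, a8, a9] := by
  intro x y hxy
  fin_cases x <;> fin_cases y <;> simp_all

/-- **Y3** -/
theorem main {x : K} {w : Wt K} {κ1 : K} {k1 : K} {κ : K} {k : K} {κ2 : K} {k2 : K} (h : Eqs x w κ1 k1 κ k κ2 k2) {l l2 r2 n t : α} (hll2 : l ≠ l2) (hlr2 : l ≠ r2) (hln : l ≠ n) (hlt : l ≠ t) (hl2r2 : l2 ≠ r2) (hl2n : l2 ≠ n) (hl2t : l2 ≠ t) (hr2n : r2 ≠ n) (hr2t : r2 ≠ t) (hnt : n ≠ t) (F : Pat α → K) :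
    Y x r2 n (R w l2 n (top κ1 k1 l2 r2 t (top κ k l n t F))) = emp n (Yt x l l2 (top κ2 k2 l r2 t F)) := by
  funext p
  by_cases Xq0 : p l = l
  · by_cases Xq1 : p l2 = l2
    · by_cases Xq2 : p r2 = r2
      · by_cases Xq3 : p n = n
        · by_cases Xq4 : p t = t
          · exact case ![l, l2, r2, n, t] (inj5 hll2 hlr2 hln hlt hl2r2 hl2n hl2t hr2n hr2t hnt) P5_0 (by
              intro x; fin_cases x <;> simp [P5_0, Xq0, Xq1, Xq2, Xq3, Xq4]) 0 1 2 3 4 (fun F => t0 h F) F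
          · have Xn4_0 : p t ≠ l := (fun e => hlt ((Xq0).symm.trans (p.eq_comm'.1 e)))
            have Xn4_1 : p t ≠ l2 := (fun e => hl2t ((Xq1).symm.trans (p.eq_comm'.1 e)))
            have Xn4_2 : p t ≠ r2 := (fun e => hr2t ((Xq2).symm.trans (p.eq_comm'.1 e)))
            have Xn4_3 : p t ≠ n := (fun e => hnt ((Xq3).symm.trans (p.eq_comm'.1 e)))
            exact case ![l, l2, r2, n, t, p t] (inj6 hll2 hlr2 hln hlt (Ne.symm Xn4_0) hl2r2 hl2n hl2t (Ne.symm Xn4_1) hr2n hr2t (Ne.symm Xn4_2) hnt (Ne.symm Xn4_3) (Ne.symm Xq4)) P6_0 (by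
              intro x; fin_cases x <;> simp [P6_0, Xq0, Xq1, Xq2, Xq3]) 0 1 2 3 4 (fun F => t1 h F) F
        · by_cases Xq3_4 : p n = t
          · have Xr4 : p t = n := p.eq_comm'.1 Xq3_4
            exact case ![l, l2, r2, n, t] (inj5 hll2 hlr2 hln hlt hl2r2 hl2n hl2t hr2n hr2t hnt) P5_4 (by
              intro x; fin_cases x <;> simp [P5_4, Xq0, Xq1, Xq2, Xq3_4, Xr4]) 0 1 2 3 4 (fun F => t2 h F) F
          · by_cases Xq4 : p t = t
            · have Xn3_0 : p n ≠ l := (fun e => hln ((Xq0).symm.trans (p.eq_comm'.1 e)))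
              have Xn3_1 : p n ≠ l2 := (fun e => hl2n ((Xq1).symm.trans (p.eq_comm'.1 e)))
              have Xn3_2 : p n ≠ r2 := (fun e => hr2n ((Xq2).symm.trans (p.eq_comm'.1 e)))
              exact case ![l, l2, r2, n, t, p n] (inj6 hll2 hlr2 hln hlt (Ne.symm Xn3_0) hl2r2 hl2n hl2t (Ne.symm Xn3_1) hr2n hr2t (Ne.symm Xn3_2) hnt (Ne.symm Xq3) (Ne.symm Xq3_4)) P6_4 (by
                intro x; fin_cases x <;> simp [P6_4, Xq0, Xq1, Xq2, Xq4]) 0 1 2 3 4 (fun F => t3 h F) F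
            · have Xn3_0 : p n ≠ l := (fun e => hln ((Xq0).symm.trans (p.eq_comm'.1 e)))
              have Xn3_1 : p n ≠ l2 := (fun e => hl2n ((Xq1).symm.trans (p.eq_comm'.1 e)))
              have Xn3_2 : p n ≠ r2 := (fun e => hr2n ((Xq2).symm.trans (p.eq_comm'.1 e)))
              have Xn4_0 : p t ≠ l := (fun e => hlt ((Xq0).symm.trans (p.eq_comm'.1 e)))
              have Xn4_1 : p t ≠ l2 := (fun e => hl2t ((Xq1).symm.trans (p.eq_comm'.1 e)))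
              have Xn4_2 : p t ≠ r2 := (fun e => hr2t ((Xq2).symm.trans (p.eq_comm'.1 e)))
              have Xn4_3 : p t ≠ n := (fun e => Xq3_4 (p.eq_comm'.1 e))
              exact case ![l, l2, r2, n, t, p n, p t] (inj7 hll2 hlr2 hln hlt (Ne.symm Xn3_0) (Ne.symm Xn4_0) hl2r2 hl2n hl2t (Ne.symm Xn3_1) (Ne.symm Xn4_1) hr2n hr2t (Ne.symm Xn3_2) (Ne.symm Xn4_2) hnt (Ne.symm Xq3) (Ne.symm Xn4_3) (Ne.symm Xq3_4) (Ne.symm Xq4) (fun e => hnt (p.inj e))) P7_0 (by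
                intro x; fin_cases x <;> simp [P7_0, Xq0, Xq1, Xq2]) 0 1 2 3 4 (fun F => t4 h F) F
      · by_cases Xq2_3 : p r2 = n
        · have Xr3 : p n = r2 := p.eq_comm'.1 Xq2_3
          by_cases Xq4 : p t = t
          · exact case ![l, l2, r2, n, t] (inj5 hll2 hlr2 hln hlt hl2r2 hl2n hl2t hr2n hr2t hnt) P5_1 (by
              intro x; fin_cases x <;> simp [P5_1, Xq0, Xq1, Xq2_3, Xr3, Xq4]) 0 1 2 3 4 (fun F => t5 h F) F
          · have Xn4_0 : p t ≠ l := (fun e => hlt ((Xq0).symm.trans (p.eq_comm'.1 e)))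
            have Xn4_1 : p t ≠ l2 := (fun e => hl2t ((Xq1).symm.trans (p.eq_comm'.1 e)))
            have Xn4_2 : p t ≠ r2 := (fun e => hnt ((Xq2_3).symm.trans (p.eq_comm'.1 e)))
            have Xn4_3 : p t ≠ n := (fun e => hr2t ((Xr3).symm.trans (p.eq_comm'.1 e)))
            exact case ![l, l2, r2, n, t, p t] (inj6 hll2 hlr2 hln hlt (Ne.symm Xn4_0) hl2r2 hl2n hl2t (Ne.symm Xn4_1) hr2n hr2t (Ne.symm Xn4_2) hnt (Ne.symm Xn4_3) (Ne.symm Xq4)) P6_1 (by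
              intro x; fin_cases x <;> simp [P6_1, Xq0, Xq1, Xq2_3, Xr3]) 0 1 2 3 4 (fun F => t6 h F) F
        · by_cases Xq2_4 : p r2 = t
          · have Xr4 : p t = r2 := p.eq_comm'.1 Xq2_4
            by_cases Xq3 : p n = n
            · exact case ![l, l2, r2, n, t] (inj5 hll2 hlr2 hln hlt hl2r2 hl2n hl2t hr2n hr2t hnt) P5_5 (by
                intro x; fin_cases x <;> simp [P5_5, Xq0, Xq1, Xq2_4, Xq3, Xr4]) 0 1 2 3 4 (fun F => t7 h F) F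
            · have Xn3_0 : p n ≠ l := (fun e => hln ((Xq0).symm.trans (p.eq_comm'.1 e)))
              have Xn3_1 : p n ≠ l2 := (fun e => hl2n ((Xq1).symm.trans (p.eq_comm'.1 e)))
              have Xn3_2 : p n ≠ r2 := (fun e => (Ne.symm hnt) ((Xq2_4).symm.trans (p.eq_comm'.1 e)))
              have Xn3_4 : p n ≠ t := (fun e => hr2n ((Xr4).symm.trans (p.eq_comm'.1 e)))
              exact case ![l, l2, r2, n, t, p n] (inj6 hll2 hlr2 hln hlt (Ne.symm Xn3_0) hl2r2 hl2n hl2t (Ne.symm Xn3_1) hr2n hr2t (Ne.symm Xn3_2) hnt (Ne.symm Xq3) (Ne.symm Xn3_4)) P6_5 (by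
                intro x; fin_cases x <;> simp [P6_5, Xq0, Xq1, Xq2_4, Xr4]) 0 1 2 3 4 (fun F => t8 h F) F
          · by_cases Xq3 : p n = n
            · by_cases Xq4 : p t = t
              · have Xn2_0 : p r2 ≠ l := (fun e => hlr2 ((Xq0).symm.trans (p.eq_comm'.1 e)))
                have Xn2_1 : p r2 ≠ l2 := (fun e => hl2r2 ((Xq1).symm.trans (p.eq_comm'.1 e)))
                exact case ![l, l2, r2, n, t, p r2] (inj6 hll2 hlr2 hln hlt (Ne.symm Xn2_0) hl2r2 hl2n hl2t (Ne.symm Xn2_1) hr2n hr2t (Ne.symm Xq2) hnt (Ne.symm Xq2_3) (Ne.symm Xq2_4)) P6_6 (by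
                  intro x; fin_cases x <;> simp [P6_6, Xq0, Xq1, Xq3, Xq4]) 0 1 2 3 4 (fun F => t9 h F) F
              · have Xn2_0 : p r2 ≠ l := (fun e => hlr2 ((Xq0).symm.trans (p.eq_comm'.1 e)))
                have Xn2_1 : p r2 ≠ l2 := (fun e => hl2r2 ((Xq1).symm.trans (p.eq_comm'.1 e)))
                have Xn4_0 : p t ≠ l := (fun e => hlt ((Xq0).symm.trans (p.eq_comm'.1 e)))
                have Xn4_1 : p t ≠ l2 := (fun e => hl2t ((Xq1).symm.trans (p.eq_comm'.1 e)))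
                have Xn4_2 : p t ≠ r2 := (fun e => Xq2_4 (p.eq_comm'.1 e))
                have Xn4_3 : p t ≠ n := (fun e => hnt ((Xq3).symm.trans (p.eq_comm'.1 e)))
                exact case ![l, l2, r2, n, t, p r2, p t] (inj7 hll2 hlr2 hln hlt (Ne.symm Xn2_0) (Ne.symm Xn4_0) hl2r2 hl2n hl2t (Ne.symm Xn2_1) (Ne.symm Xn4_1) hr2n hr2t (Ne.symm Xq2) (Ne.symm Xn4_2) hnt (Ne.symm Xq2_3) (Ne.symm Xn4_3) (Ne.symm Xq2_4) (Ne.symm Xq4) (fun e => hr2t (p.inj e))) P7_1 (by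
                  intro x; fin_cases x <;> simp [P7_1, Xq0, Xq1, Xq3]) 0 1 2 3 4 (fun F => t10 h F) F
            · by_cases Xq3_4 : p n = t
              · have Xr4 : p t = n := p.eq_comm'.1 Xq3_4
                have Xn2_0 : p r2 ≠ l := (fun e => hlr2 ((Xq0).symm.trans (p.eq_comm'.1 e)))
                have Xn2_1 : p r2 ≠ l2 := (fun e => hl2r2 ((Xq1).symm.trans (p.eq_comm'.1 e)))
                exact case ![l, l2, r2, n, t, p r2] (inj6 hll2 hlr2 hln hlt (Ne.symm Xn2_0) hl2r2 hl2n hl2t (Ne.symm Xn2_1) hr2n hr2t (Ne.symm Xq2) hnt (Ne.symm Xq2_3) (Ne.symm Xq2_4)) P6_9 (by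
                  intro x; fin_cases x <;> simp [P6_9, Xq0, Xq1, Xq3_4, Xr4]) 0 1 2 3 4 (fun F => t11 h F) F
              · by_cases Xq4 : p t = t
                · have Xn2_0 : p r2 ≠ l := (fun e => hlr2 ((Xq0).symm.trans (p.eq_comm'.1 e)))
                  have Xn2_1 : p r2 ≠ l2 := (fun e => hl2r2 ((Xq1).symm.trans (p.eq_comm'.1 e)))
                  have Xn3_0 : p n ≠ l := (fun e => hln ((Xq0).symm.trans (p.eq_comm'.1 e)))
                  have Xn3_1 : p n ≠ l2 := (fun e => hl2n ((Xq1).symm.trans (p.eq_comm'.1 e)))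
                  have Xn3_2 : p n ≠ r2 := (fun e => Xq2_3 (p.eq_comm'.1 e))
                  exact case ![l, l2, r2, n, t, p r2, p n] (inj7 hll2 hlr2 hln hlt (Ne.symm Xn2_0) (Ne.symm Xn3_0) hl2r2 hl2n hl2t (Ne.symm Xn2_1) (Ne.symm Xn3_1) hr2n hr2t (Ne.symm Xq2) (Ne.symm Xn3_2) hnt (Ne.symm Xq2_3) (Ne.symm Xq3) (Ne.symm Xq2_4) (Ne.symm Xq3_4) (fun e => hr2n (p.inj e))) P7_4 (by
                    intro x; fin_cases x <;> simp [P7_4, Xq0, Xq1, Xq4]) 0 1 2 3 4 (fun F => t12 h F) F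
                · have Xn2_0 : p r2 ≠ l := (fun e => hlr2 ((Xq0).symm.trans (p.eq_comm'.1 e)))
                  have Xn2_1 : p r2 ≠ l2 := (fun e => hl2r2 ((Xq1).symm.trans (p.eq_comm'.1 e)))
                  have Xn3_0 : p n ≠ l := (fun e => hln ((Xq0).symm.trans (p.eq_comm'.1 e)))
                  have Xn3_1 : p n ≠ l2 := (fun e => hl2n ((Xq1).symm.trans (p.eq_comm'.1 e)))
                  have Xn3_2 : p n ≠ r2 := (fun e => Xq2_3 (p.eq_comm'.1 e))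
                  have Xn4_0 : p t ≠ l := (fun e => hlt ((Xq0).symm.trans (p.eq_comm'.1 e)))
                  have Xn4_1 : p t ≠ l2 := (fun e => hl2t ((Xq1).symm.trans (p.eq_comm'.1 e)))
                  have Xn4_2 : p t ≠ r2 := (fun e => Xq2_4 (p.eq_comm'.1 e))
                  have Xn4_3 : p t ≠ n := (fun e => Xq3_4 (p.eq_comm'.1 e))
                  exact case ![l, l2, r2, n, t, p r2, p n, p t] (inj8 hll2 hlr2 hln hlt (Ne.symm Xn2_0) (Ne.symm Xn3_0) (Ne.symm Xn4_0) hl2r2 hl2n hl2t (Ne.symm Xn2_1) (Ne.symm Xn3_1) (Ne.symm Xn4_1) hr2n hr2t (Ne.symm Xq2) (Ne.symm Xn3_2) (Ne.symm Xn4_2) hnt (Ne.symm Xq2_3) (Ne.symm Xq3) (Ne.symm Xn4_3) (Ne.symm Xq2_4) (Ne.symm Xq3_4) (Ne.symm Xq4) (fun e => hr2n (p.inj e)) (fun e => hr2t (p.inj e)) (fun e => hnt (p.inj e))) P8_0 (by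
                    intro x; fin_cases x <;> simp [P8_0, Xq0, Xq1]) 0 1 2 3 4 (fun F => t13 h F) F
    · by_cases Xq1_2 : p l2 = r2
      · have Xr2 : p r2 = l2 := p.eq_comm'.1 Xq1_2
        by_cases Xq3 : p n = n
        · by_cases Xq4 : p t = t
          · exact case ![l, l2, r2, n, t] (inj5 hll2 hlr2 hln hlt hl2r2 hl2n hl2t hr2n hr2t hnt) P5_3 (by
              intro x; fin_cases x <;> simp [P5_3, Xq0, Xq1_2, Xr2, Xq3, Xq4]) 0 1 2 3 4 (fun F => t14 h F) F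
          · have Xn4_0 : p t ≠ l := (fun e => hlt ((Xq0).symm.trans (p.eq_comm'.1 e)))
            have Xn4_1 : p t ≠ l2 := (fun e => hr2t ((Xq1_2).symm.trans (p.eq_comm'.1 e)))
            have Xn4_2 : p t ≠ r2 := (fun e => hl2t ((Xr2).symm.trans (p.eq_comm'.1 e)))
            have Xn4_3 : p t ≠ n := (fun e => hnt ((Xq3).symm.trans (p.eq_comm'.1 e)))
            exact case ![l, l2, r2, n, t, p t] (inj6 hll2 hlr2 hln hlt (Ne.symm Xn4_0) hl2r2 hl2n hl2t (Ne.symm Xn4_1) hr2n hr2t (Ne.symm Xn4_2) hnt (Ne.symm Xn4_3) (Ne.symm Xq4)) P6_3 (by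
              intro x; fin_cases x <;> simp [P6_3, Xq0, Xq1_2, Xr2, Xq3]) 0 1 2 3 4 (fun F => t15 h F) F
        · by_cases Xq3_4 : p n = t
          · have Xr4 : p t = n := p.eq_comm'.1 Xq3_4
            exact case ![l, l2, r2, n, t] (inj5 hll2 hlr2 hln hlt hl2r2 hl2n hl2t hr2n hr2t hnt) P5_9 (by
              intro x; fin_cases x <;> simp [P5_9, Xq0, Xq1_2, Xr2, Xq3_4, Xr4]) 0 1 2 3 4 (fun F => t16 h F) F
          · by_cases Xq4 : p t = t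
            · have Xn3_0 : p n ≠ l := (fun e => hln ((Xq0).symm.trans (p.eq_comm'.1 e)))
              have Xn3_1 : p n ≠ l2 := (fun e => hr2n ((Xq1_2).symm.trans (p.eq_comm'.1 e)))
              have Xn3_2 : p n ≠ r2 := (fun e => hl2n ((Xr2).symm.trans (p.eq_comm'.1 e)))
              exact case ![l, l2, r2, n, t, p n] (inj6 hll2 hlr2 hln hlt (Ne.symm Xn3_0) hl2r2 hl2n hl2t (Ne.symm Xn3_1) hr2n hr2t (Ne.symm Xn3_2) hnt (Ne.symm Xq3) (Ne.symm Xq3_4)) P6_11 (by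
                intro x; fin_cases x <;> simp [P6_11, Xq0, Xq1_2, Xr2, Xq4]) 0 1 2 3 4 (fun F => t17 h F) F
            · have Xn3_0 : p n ≠ l := (fun e => hln ((Xq0).symm.trans (p.eq_comm'.1 e)))
              have Xn3_1 : p n ≠ l2 := (fun e => hr2n ((Xq1_2).symm.trans (p.eq_comm'.1 e)))
              have Xn3_2 : p n ≠ r2 := (fun e => hl2n ((Xr2).symm.trans (p.eq_comm'.1 e)))
              have Xn4_0 : p t ≠ l := (fun e => hlt ((Xq0).symm.trans (p.eq_comm'.1 e)))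
              have Xn4_1 : p t ≠ l2 := (fun e => hr2t ((Xq1_2).symm.trans (p.eq_comm'.1 e)))
              have Xn4_2 : p t ≠ r2 := (fun e => hl2t ((Xr2).symm.trans (p.eq_comm'.1 e)))
              have Xn4_3 : p t ≠ n := (fun e => Xq3_4 (p.eq_comm'.1 e))
              exact case ![l, l2, r2, n, t, p n, p t] (inj7 hll2 hlr2 hln hlt (Ne.symm Xn3_0) (Ne.symm Xn4_0) hl2r2 hl2n hl2t (Ne.symm Xn3_1) (Ne.symm Xn4_1) hr2n hr2t (Ne.symm Xn3_2) (Ne.symm Xn4_2) hnt (Ne.symm Xq3) (Ne.symm Xn4_3) (Ne.symm Xq3_4) (Ne.symm Xq4) (fun e => hnt (p.inj e))) P7_5 (by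
                intro x; fin_cases x <;> simp [P7_5, Xq0, Xq1_2, Xr2]) 0 1 2 3 4 (fun F => t18 h F) F
      · by_cases Xq1_3 : p l2 = n
        · have Xr3 : p n = l2 := p.eq_comm'.1 Xq1_3
          by_cases Xq2 : p r2 = r2
          · by_cases Xq4 : p t = t
            · exact case ![l, l2, r2, n, t] (inj5 hll2 hlr2 hln hlt hl2r2 hl2n hl2t hr2n hr2t hnt) P5_2 (by
                intro x; fin_cases x <;> simp [P5_2, Xq0, Xq1_3, Xq2, Xr3, Xq4]) 0 1 2 3 4 (fun F => t19 h F) F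
            · have Xn4_0 : p t ≠ l := (fun e => hlt ((Xq0).symm.trans (p.eq_comm'.1 e)))
              have Xn4_1 : p t ≠ l2 := (fun e => hnt ((Xq1_3).symm.trans (p.eq_comm'.1 e)))
              have Xn4_2 : p t ≠ r2 := (fun e => hr2t ((Xq2).symm.trans (p.eq_comm'.1 e)))
              have Xn4_3 : p t ≠ n := (fun e => hl2t ((Xr3).symm.trans (p.eq_comm'.1 e)))
              exact case ![l, l2, r2, n, t, p t] (inj6 hll2 hlr2 hln hlt (Ne.symm Xn4_0) hl2r2 hl2n hl2t (Ne.symm Xn4_1) hr2n hr2t (Ne.symm Xn4_2) hnt (Ne.symm Xn4_3) (Ne.symm Xq4)) P6_2 (by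
                intro x; fin_cases x <;> simp [P6_2, Xq0, Xq1_3, Xq2, Xr3]) 0 1 2 3 4 (fun F => t20 h F) F
          · by_cases Xq2_4 : p r2 = t
            · have Xr4 : p t = r2 := p.eq_comm'.1 Xq2_4
              exact case ![l, l2, r2, n, t] (inj5 hll2 hlr2 hln hlt hl2r2 hl2n hl2t hr2n hr2t hnt) P5_7 (by
                intro x; fin_cases x <;> simp [P5_7, Xq0, Xq1_3, Xq2_4, Xr3, Xr4]) 0 1 2 3 4 (fun F => t21 h F) F
            · by_cases Xq4 : p t = t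
              · have Xn2_0 : p r2 ≠ l := (fun e => hlr2 ((Xq0).symm.trans (p.eq_comm'.1 e)))
                have Xn2_1 : p r2 ≠ l2 := (fun e => (Ne.symm hr2n) ((Xq1_3).symm.trans (p.eq_comm'.1 e)))
                have Xn2_3 : p r2 ≠ n := (fun e => hl2r2 ((Xr3).symm.trans (p.eq_comm'.1 e)))
                exact case ![l, l2, r2, n, t, p r2] (inj6 hll2 hlr2 hln hlt (Ne.symm Xn2_0) hl2r2 hl2n hl2t (Ne.symm Xn2_1) hr2n hr2t (Ne.symm Xq2) hnt (Ne.symm Xn2_3) (Ne.symm Xq2_4)) P6_8 (by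
                  intro x; fin_cases x <;> simp [P6_8, Xq0, Xq1_3, Xr3, Xq4]) 0 1 2 3 4 (fun F => t22 h F) F
              · have Xn2_0 : p r2 ≠ l := (fun e => hlr2 ((Xq0).symm.trans (p.eq_comm'.1 e)))
                have Xn2_1 : p r2 ≠ l2 := (fun e => (Ne.symm hr2n) ((Xq1_3).symm.trans (p.eq_comm'.1 e)))
                have Xn2_3 : p r2 ≠ n := (fun e => hl2r2 ((Xr3).symm.trans (p.eq_comm'.1 e)))
                have Xn4_0 : p t ≠ l := (fun e => hlt ((Xq0).symm.trans (p.eq_comm'.1 e)))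
                have Xn4_1 : p t ≠ l2 := (fun e => hnt ((Xq1_3).symm.trans (p.eq_comm'.1 e)))
                have Xn4_2 : p t ≠ r2 := (fun e => Xq2_4 (p.eq_comm'.1 e))
                have Xn4_3 : p t ≠ n := (fun e => hl2t ((Xr3).symm.trans (p.eq_comm'.1 e)))
                exact case ![l, l2, r2, n, t, p r2, p t] (inj7 hll2 hlr2 hln hlt (Ne.symm Xn2_0) (Ne.symm Xn4_0) hl2r2 hl2n hl2t (Ne.symm Xn2_1) (Ne.symm Xn4_1) hr2n hr2t (Ne.symm Xq2) (Ne.symm Xn4_2) hnt (Ne.symm Xn2_3) (Ne.symm Xn4_3) (Ne.symm Xq2_4) (Ne.symm Xq4) (fun e => hr2t (p.inj e))) P7_3 (by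
                  intro x; fin_cases x <;> simp [P7_3, Xq0, Xq1_3, Xr3]) 0 1 2 3 4 (fun F => t23 h F) F
        · by_cases Xq1_4 : p l2 = t
          · have Xr4 : p t = l2 := p.eq_comm'.1 Xq1_4
            by_cases Xq2 : p r2 = r2
            · by_cases Xq3 : p n = n
              · exact case ![l, l2, r2, n, t] (inj5 hll2 hlr2 hln hlt hl2r2 hl2n hl2t hr2n hr2t hnt) P5_6 (by
                  intro x; fin_cases x <;> simp [P5_6, Xq0, Xq1_4, Xq2, Xq3, Xr4]) 0 1 2 3 4 (fun F => t24 h F) F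
              · have Xn3_0 : p n ≠ l := (fun e => hln ((Xq0).symm.trans (p.eq_comm'.1 e)))
                have Xn3_1 : p n ≠ l2 := (fun e => (Ne.symm hnt) ((Xq1_4).symm.trans (p.eq_comm'.1 e)))
                have Xn3_2 : p n ≠ r2 := (fun e => hr2n ((Xq2).symm.trans (p.eq_comm'.1 e)))
                have Xn3_4 : p n ≠ t := (fun e => hl2n ((Xr4).symm.trans (p.eq_comm'.1 e)))
                exact case ![l, l2, r2, n, t, p n] (inj6 hll2 hlr2 hln hlt (Ne.symm Xn3_0) hl2r2 hl2n hl2t (Ne.symm Xn3_1) hr2n hr2t (Ne.symm Xn3_2) hnt (Ne.symm Xq3) (Ne.symm Xn3_4)) P6_12 (by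
                  intro x; fin_cases x <;> simp [P6_12, Xq0, Xq1_4, Xq2, Xr4]) 0 1 2 3 4 (fun F => t25 h F) F
            · by_cases Xq2_3 : p r2 = n
              · have Xr3 : p n = r2 := p.eq_comm'.1 Xq2_3
                exact case ![l, l2, r2, n, t] (inj5 hll2 hlr2 hln hlt hl2r2 hl2n hl2t hr2n hr2t hnt) P5_10 (by
                  intro x; fin_cases x <;> simp [P5_10, Xq0, Xq1_4, Xq2_3, Xr3, Xr4]) 0 1 2 3 4 (fun F => t26 h F) F
              · by_cases Xq3 : p n = n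
                · have Xn2_0 : p r2 ≠ l := (fun e => hlr2 ((Xq0).symm.trans (p.eq_comm'.1 e)))
                  have Xn2_1 : p r2 ≠ l2 := (fun e => (Ne.symm hr2t) ((Xq1_4).symm.trans (p.eq_comm'.1 e)))
                  have Xn2_4 : p r2 ≠ t := (fun e => hl2r2 ((Xr4).symm.trans (p.eq_comm'.1 e)))
                  exact case ![l, l2, r2, n, t, p r2] (inj6 hll2 hlr2 hln hlt (Ne.symm Xn2_0) hl2r2 hl2n hl2t (Ne.symm Xn2_1) hr2n hr2t (Ne.symm Xq2) hnt (Ne.symm Xq2_3) (Ne.symm Xn2_4)) P6_13 (by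
                    intro x; fin_cases x <;> simp [P6_13, Xq0, Xq1_4, Xq3, Xr4]) 0 1 2 3 4 (fun F => t27 h F) F
                · have Xn2_0 : p r2 ≠ l := (fun e => hlr2 ((Xq0).symm.trans (p.eq_comm'.1 e)))
                  have Xn2_1 : p r2 ≠ l2 := (fun e => (Ne.symm hr2t) ((Xq1_4).symm.trans (p.eq_comm'.1 e)))
                  have Xn2_4 : p r2 ≠ t := (fun e => hl2r2 ((Xr4).symm.trans (p.eq_comm'.1 e)))
                  have Xn3_0 : p n ≠ l := (fun e => hln ((Xq0).symm.trans (p.eq_comm'.1 e)))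
                  have Xn3_1 : p n ≠ l2 := (fun e => (Ne.symm hnt) ((Xq1_4).symm.trans (p.eq_comm'.1 e)))
                  have Xn3_2 : p n ≠ r2 := (fun e => Xq2_3 (p.eq_comm'.1 e))
                  have Xn3_4 : p n ≠ t := (fun e => hl2n ((Xr4).symm.trans (p.eq_comm'.1 e)))
                  exact case ![l, l2, r2, n, t, p r2, p n] (inj7 hll2 hlr2 hln hlt (Ne.symm Xn2_0) (Ne.symm Xn3_0) hl2r2 hl2n hl2t (Ne.symm Xn2_1) (Ne.symm Xn3_1) hr2n hr2t (Ne.symm Xq2) (Ne.symm Xn3_2) hnt (Ne.symm Xq2_3) (Ne.symm Xq3) (Ne.symm Xn2_4) (Ne.symm Xn3_4) (fun e => hr2n (p.inj e))) P7_6 (by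
                    intro x; fin_cases x <;> simp [P7_6, Xq0, Xq1_4, Xr4]) 0 1 2 3 4 (fun F => t28 h F) F
          · by_cases Xq2 : p r2 = r2
            · by_cases Xq3 : p n = n
              · by_cases Xq4 : p t = t
                · have Xn1_0 : p l2 ≠ l := (fun e => hll2 ((Xq0).symm.trans (p.eq_comm'.1 e)))
                  exact case ![l, l2, r2, n, t, p l2] (inj6 hll2 hlr2 hln hlt (Ne.symm Xn1_0) hl2r2 hl2n hl2t (Ne.symm Xq1) hr2n hr2t (Ne.symm Xq1_2) hnt (Ne.symm Xq1_3) (Ne.symm Xq1_4)) P6_7 (by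
                    intro x; fin_cases x <;> simp [P6_7, Xq0, Xq2, Xq3, Xq4]) 0 1 2 3 4 (fun F => t29 h F) F
                · have Xn1_0 : p l2 ≠ l := (fun e => hll2 ((Xq0).symm.trans (p.eq_comm'.1 e)))
                  have Xn4_0 : p t ≠ l := (fun e => hlt ((Xq0).symm.trans (p.eq_comm'.1 e)))
                  have Xn4_1 : p t ≠ l2 := (fun e => Xq1_4 (p.eq_comm'.1 e))
                  have Xn4_2 : p t ≠ r2 := (fun e => hr2t ((Xq2).symm.trans (p.eq_comm'.1 e)))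
                  have Xn4_3 : p t ≠ n := (fun e => hnt ((Xq3).symm.trans (p.eq_comm'.1 e)))
                  exact case ![l, l2, r2, n, t, p l2, p t] (inj7 hll2 hlr2 hln hlt (Ne.symm Xn1_0) (Ne.symm Xn4_0) hl2r2 hl2n hl2t (Ne.symm Xq1) (Ne.symm Xn4_1) hr2n hr2t (Ne.symm Xq1_2) (Ne.symm Xn4_2) hnt (Ne.symm Xq1_3) (Ne.symm Xn4_3) (Ne.symm Xq1_4) (Ne.symm Xq4) (fun e => hl2t (p.inj e))) P7_2 (by
                    intro x; fin_cases x <;> simp [P7_2, Xq0, Xq2, Xq3]) 0 1 2 3 4 (fun F => t30 h F) F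
              · by_cases Xq3_4 : p n = t
                · have Xr4 : p t = n := p.eq_comm'.1 Xq3_4
                  have Xn1_0 : p l2 ≠ l := (fun e => hll2 ((Xq0).symm.trans (p.eq_comm'.1 e)))
                  exact case ![l, l2, r2, n, t, p l2] (inj6 hll2 hlr2 hln hlt (Ne.symm Xn1_0) hl2r2 hl2n hl2t (Ne.symm Xq1) hr2n hr2t (Ne.symm Xq1_2) hnt (Ne.symm Xq1_3) (Ne.symm Xq1_4)) P6_14 (by
                    intro x; fin_cases x <;> simp [P6_14, Xq0, Xq2, Xq3_4, Xr4]) 0 1 2 3 4 (fun F => t31 h F) F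
                · by_cases Xq4 : p t = t
                  · have Xn1_0 : p l2 ≠ l := (fun e => hll2 ((Xq0).symm.trans (p.eq_comm'.1 e)))
                    have Xn3_0 : p n ≠ l := (fun e => hln ((Xq0).symm.trans (p.eq_comm'.1 e)))
                    have Xn3_1 : p n ≠ l2 := (fun e => Xq1_3 (p.eq_comm'.1 e))
                    have Xn3_2 : p n ≠ r2 := (fun e => hr2n ((Xq2).symm.trans (p.eq_comm'.1 e)))
                    exact case ![l, l2, r2, n, t, p l2, p n] (inj7 hll2 hlr2 hln hlt (Ne.symm Xn1_0) (Ne.symm Xn3_0) hl2r2 hl2n hl2t (Ne.symm Xq1) (Ne.symm Xn3_1) hr2n hr2t (Ne.symm Xq1_2) (Ne.symm Xn3_2) hnt (Ne.symm Xq1_3) (Ne.symm Xq3) (Ne.symm Xq1_4) (Ne.symm Xq3_4) (fun e => hl2n (p.inj e))) P7_9 (by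
                      intro x; fin_cases x <;> simp [P7_9, Xq0, Xq2, Xq4]) 0 1 2 3 4 (fun F => t32 h F) F
                  · have Xn1_0 : p l2 ≠ l := (fun e => hll2 ((Xq0).symm.trans (p.eq_comm'.1 e)))
                    have Xn3_0 : p n ≠ l := (fun e => hln ((Xq0).symm.trans (p.eq_comm'.1 e)))
                    have Xn3_1 : p n ≠ l2 := (fun e => Xq1_3 (p.eq_comm'.1 e))
                    have Xn3_2 : p n ≠ r2 := (fun e => hr2n ((Xq2).symm.trans (p.eq_comm'.1 e)))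
                    have Xn4_0 : p t ≠ l := (fun e => hlt ((Xq0).symm.trans (p.eq_comm'.1 e)))
                    have Xn4_1 : p t ≠ l2 := (fun e => Xq1_4 (p.eq_comm'.1 e))
                    have Xn4_2 : p t ≠ r2 := (fun e => hr2t ((Xq2).symm.trans (p.eq_comm'.1 e)))
                    have Xn4_3 : p t ≠ n := (fun e => Xq3_4 (p.eq_comm'.1 e))
                    exact case ![l, l2, r2, n, t, p l2, p n, p t] (inj8 hll2 hlr2 hln hlt (Ne.symm Xn1_0) (Ne.symm Xn3_0) (Ne.symm Xn4_0) hl2r2 hl2n hl2t (Ne.symm Xq1) (Ne.symm Xn3_1) (Ne.symm Xn4_1) hr2n hr2t (Ne.symm Xq1_2) (Ne.symm Xn3_2) (Ne.symm Xn4_2) hnt (Ne.symm Xq1_3) (Ne.symm Xq3) (Ne.symm Xn4_3) (Ne.symm Xq1_4) (Ne.symm Xq3_4) (Ne.symm Xq4) (fun e => hl2n (p.inj e)) (fun e => hl2t (p.inj e)) (fun e => hnt (p.inj e))) P8_1 (by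
                      intro x; fin_cases x <;> simp [P8_1, Xq0, Xq2]) 0 1 2 3 4 (fun F => t33 h F) F
            · by_cases Xq2_3 : p r2 = n
              · have Xr3 : p n = r2 := p.eq_comm'.1 Xq2_3
                by_cases Xq4 : p t = t
                · have Xn1_0 : p l2 ≠ l := (fun e => hll2 ((Xq0).symm.trans (p.eq_comm'.1 e)))
                  exact case ![l, l2, r2, n, t, p l2] (inj6 hll2 hlr2 hln hlt (Ne.symm Xn1_0) hl2r2 hl2n hl2t (Ne.symm Xq1) hr2n hr2t (Ne.symm Xq1_2) hnt (Ne.symm Xq1_3) (Ne.symm Xq1_4)) P6_16 (by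
                    intro x; fin_cases x <;> simp [P6_16, Xq0, Xq2_3, Xr3, Xq4]) 0 1 2 3 4 (fun F => t34 h F) F
                · have Xn1_0 : p l2 ≠ l := (fun e => hll2 ((Xq0).symm.trans (p.eq_comm'.1 e)))
                  have Xn4_0 : p t ≠ l := (fun e => hlt ((Xq0).symm.trans (p.eq_comm'.1 e)))
                  have Xn4_1 : p t ≠ l2 := (fun e => Xq1_4 (p.eq_comm'.1 e))
                  have Xn4_2 : p t ≠ r2 := (fun e => hnt ((Xq2_3).symm.trans (p.eq_comm'.1 e)))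
                  have Xn4_3 : p t ≠ n := (fun e => hr2t ((Xr3).symm.trans (p.eq_comm'.1 e)))
                  exact case ![l, l2, r2, n, t, p l2, p t] (inj7 hll2 hlr2 hln hlt (Ne.symm Xn1_0) (Ne.symm Xn4_0) hl2r2 hl2n hl2t (Ne.symm Xq1) (Ne.symm Xn4_1) hr2n hr2t (Ne.symm Xq1_2) (Ne.symm Xn4_2) hnt (Ne.symm Xq1_3) (Ne.symm Xn4_3) (Ne.symm Xq1_4) (Ne.symm Xq4) (fun e => hl2t (p.inj e))) P7_7 (by
                    intro x; fin_cases x <;> simp [P7_7, Xq0, Xq2_3, Xr3]) 0 1 2 3 4 (fun F => t35 h F) F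
              · by_cases Xq2_4 : p r2 = t
                · have Xr4 : p t = r2 := p.eq_comm'.1 Xq2_4
                  by_cases Xq3 : p n = n
                  · have Xn1_0 : p l2 ≠ l := (fun e => hll2 ((Xq0).symm.trans (p.eq_comm'.1 e)))
                    exact case ![l, l2, r2, n, t, p l2] (inj6 hll2 hlr2 hln hlt (Ne.symm Xn1_0) hl2r2 hl2n hl2t (Ne.symm Xq1) hr2n hr2t (Ne.symm Xq1_2) hnt (Ne.symm Xq1_3) (Ne.symm Xq1_4)) P6_18 (by
                      intro x; fin_cases x <;> simp [P6_18, Xq0, Xq2_4, Xq3, Xr4]) 0 1 2 3 4 (fun F => t36 h F) F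
                  · have Xn1_0 : p l2 ≠ l := (fun e => hll2 ((Xq0).symm.trans (p.eq_comm'.1 e)))
                    have Xn3_0 : p n ≠ l := (fun e => hln ((Xq0).symm.trans (p.eq_comm'.1 e)))
                    have Xn3_1 : p n ≠ l2 := (fun e => Xq1_3 (p.eq_comm'.1 e))
                    have Xn3_2 : p n ≠ r2 := (fun e => (Ne.symm hnt) ((Xq2_4).symm.trans (p.eq_comm'.1 e)))
                    have Xn3_4 : p n ≠ t := (fun e => hr2n ((Xr4).symm.trans (p.eq_comm'.1 e)))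
                    exact case ![l, l2, r2, n, t, p l2, p n] (inj7 hll2 hlr2 hln hlt (Ne.symm Xn1_0) (Ne.symm Xn3_0) hl2r2 hl2n hl2t (Ne.symm Xq1) (Ne.symm Xn3_1) hr2n hr2t (Ne.symm Xq1_2) (Ne.symm Xn3_2) hnt (Ne.symm Xq1_3) (Ne.symm Xq3) (Ne.symm Xq1_4) (Ne.symm Xn3_4) (fun e => hl2n (p.inj e))) P7_10 (by
                      intro x; fin_cases x <;> simp [P7_10, Xq0, Xq2_4, Xr4]) 0 1 2 3 4 (fun F => t37 h F) F
                · by_cases Xq3 : p n = n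
                  · by_cases Xq4 : p t = t
                    · have Xn1_0 : p l2 ≠ l := (fun e => hll2 ((Xq0).symm.trans (p.eq_comm'.1 e)))
                      have Xn2_0 : p r2 ≠ l := (fun e => hlr2 ((Xq0).symm.trans (p.eq_comm'.1 e)))
                      have Xn2_1 : p r2 ≠ l2 := (fun e => Xq1_2 (p.eq_comm'.1 e))
                      exact case ![l, l2, r2, n, t, p l2, p r2] (inj7 hll2 hlr2 hln hlt (Ne.symm Xn1_0) (Ne.symm Xn2_0) hl2r2 hl2n hl2t (Ne.symm Xq1) (Ne.symm Xn2_1) hr2n hr2t (Ne.symm Xq1_2) (Ne.symm Xq2) hnt (Ne.symm Xq1_3) (Ne.symm Xq2_3) (Ne.symm Xq1_4) (Ne.symm Xq2_4) (fun e => hl2r2 (p.inj e))) P7_11 (by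
                        intro x; fin_cases x <;> simp [P7_11, Xq0, Xq3, Xq4]) 0 1 2 3 4 (fun F => t38 h F) F
                    · have Xn1_0 : p l2 ≠ l := (fun e => hll2 ((Xq0).symm.trans (p.eq_comm'.1 e)))
                      have Xn2_0 : p r2 ≠ l := (fun e => hlr2 ((Xq0).symm.trans (p.eq_comm'.1 e)))
                      have Xn2_1 : p r2 ≠ l2 := (fun e => Xq1_2 (p.eq_comm'.1 e))
                      have Xn4_0 : p t ≠ l := (fun e => hlt ((Xq0).symm.trans (p.eq_comm'.1 e)))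
                      have Xn4_1 : p t ≠ l2 := (fun e => Xq1_4 (p.eq_comm'.1 e))
                      have Xn4_2 : p t ≠ r2 := (fun e => Xq2_4 (p.eq_comm'.1 e))
                      have Xn4_3 : p t ≠ n := (fun e => hnt ((Xq3).symm.trans (p.eq_comm'.1 e)))
                      exact case ![l, l2, r2, n, t, p l2, p r2, p t] (inj8 hll2 hlr2 hln hlt (Ne.symm Xn1_0) (Ne.symm Xn2_0) (Ne.symm Xn4_0) hl2r2 hl2n hl2t (Ne.symm Xq1) (Ne.symm Xn2_1) (Ne.symm Xn4_1) hr2n hr2t (Ne.symm Xq1_2) (Ne.symm Xq2) (Ne.symm Xn4_2) hnt (Ne.symm Xq1_3) (Ne.symm Xq2_3) (Ne.symm Xn4_3) (Ne.symm Xq1_4) (Ne.symm Xq2_4) (Ne.symm Xq4) (fun e => hl2r2 (p.inj e)) (fun e => hl2t (p.inj e)) (fun e => hr2t (p.inj e))) P8_2 (by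
                        intro x; fin_cases x <;> simp [P8_2, Xq0, Xq3]) 0 1 2 3 4 (fun F => t39 h F) F
                  · by_cases Xq3_4 : p n = t
                    · have Xr4 : p t = n := p.eq_comm'.1 Xq3_4
                      have Xn1_0 : p l2 ≠ l := (fun e => hll2 ((Xq0).symm.trans (p.eq_comm'.1 e)))
                      have Xn2_0 : p r2 ≠ l := (fun e => hlr2 ((Xq0).symm.trans (p.eq_comm'.1 e)))
                      have Xn2_1 : p r2 ≠ l2 := (fun e => Xq1_2 (p.eq_comm'.1 e))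
                      exact case ![l, l2, r2, n, t, p l2, p r2] (inj7 hll2 hlr2 hln hlt (Ne.symm Xn1_0) (Ne.symm Xn2_0) hl2r2 hl2n hl2t (Ne.symm Xq1) (Ne.symm Xn2_1) hr2n hr2t (Ne.symm Xq1_2) (Ne.symm Xq2) hnt (Ne.symm Xq1_3) (Ne.symm Xq2_3) (Ne.symm Xq1_4) (Ne.symm Xq2_4) (fun e => hl2r2 (p.inj e))) P7_18 (by
                        intro x; fin_cases x <;> simp [P7_18, Xq0, Xq3_4, Xr4]) 0 1 2 3 4 (fun F => t40 h F) F
                    · by_cases Xq4 : p t = t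
                      · have Xn1_0 : p l2 ≠ l := (fun e => hll2 ((Xq0).symm.trans (p.eq_comm'.1 e)))
                        have Xn2_0 : p r2 ≠ l := (fun e => hlr2 ((Xq0).symm.trans (p.eq_comm'.1 e)))
                        have Xn2_1 : p r2 ≠ l2 := (fun e => Xq1_2 (p.eq_comm'.1 e))
                        have Xn3_0 : p n ≠ l := (fun e => hln ((Xq0).symm.trans (p.eq_comm'.1 e)))
                        have Xn3_1 : p n ≠ l2 := (fun e => Xq1_3 (p.eq_comm'.1 e))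
                        have Xn3_2 : p n ≠ r2 := (fun e => Xq2_3 (p.eq_comm'.1 e))
                        exact case ![l, l2, r2, n, t, p l2, p r2, p n] (inj8 hll2 hlr2 hln hlt (Ne.symm Xn1_0) (Ne.symm Xn2_0) (Ne.symm Xn3_0) hl2r2 hl2n hl2t (Ne.symm Xq1) (Ne.symm Xn2_1) (Ne.symm Xn3_1) hr2n hr2t (Ne.symm Xq1_2) (Ne.symm Xq2) (Ne.symm Xn3_2) hnt (Ne.symm Xq1_3) (Ne.symm Xq2_3) (Ne.symm Xq3) (Ne.symm Xq1_4) (Ne.symm Xq2_4) (Ne.symm Xq3_4) (fun e => hl2r2 (p.inj e)) (fun e => hl2n (p.inj e)) (fun e => hr2n (p.inj e))) P8_8 (by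
                          intro x; fin_cases x <;> simp [P8_8, Xq0, Xq4]) 0 1 2 3 4 (fun F => t41 h F) F
                      · have Xn1_0 : p l2 ≠ l := (fun e => hll2 ((Xq0).symm.trans (p.eq_comm'.1 e)))
                        have Xn2_0 : p r2 ≠ l := (fun e => hlr2 ((Xq0).symm.trans (p.eq_comm'.1 e)))
                        have Xn2_1 : p r2 ≠ l2 := (fun e => Xq1_2 (p.eq_comm'.1 e))
                        have Xn3_0 : p n ≠ l := (fun e => hln ((Xq0).symm.trans (p.eq_comm'.1 e)))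
                        have Xn3_1 : p n ≠ l2 := (fun e => Xq1_3 (p.eq_comm'.1 e))
                        have Xn3_2 : p n ≠ r2 := (fun e => Xq2_3 (p.eq_comm'.1 e))
                        have Xn4_0 : p t ≠ l := (fun e => hlt ((Xq0).symm.trans (p.eq_comm'.1 e)))
                        have Xn4_1 : p t ≠ l2 := (fun e => Xq1_4 (p.eq_comm'.1 e))
                        have Xn4_2 : p t ≠ r2 := (fun e => Xq2_4 (p.eq_comm'.1 e))
                        have Xn4_3 : p t ≠ n := (fun e => Xq3_4 (p.eq_comm'.1 e))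
                        exact case ![l, l2, r2, n, t, p l2, p r2, p n, p t] (inj9 hll2 hlr2 hln hlt (Ne.symm Xn1_0) (Ne.symm Xn2_0) (Ne.symm Xn3_0) (Ne.symm Xn4_0) hl2r2 hl2n hl2t (Ne.symm Xq1) (Ne.symm Xn2_1) (Ne.symm Xn3_1) (Ne.symm Xn4_1) hr2n hr2t (Ne.symm Xq1_2) (Ne.symm Xq2) (Ne.symm Xn3_2) (Ne.symm Xn4_2) hnt (Ne.symm Xq1_3) (Ne.symm Xq2_3) (Ne.symm Xq3) (Ne.symm Xn4_3) (Ne.symm Xq1_4) (Ne.symm Xq2_4) (Ne.symm Xq3_4) (Ne.symm Xq4) (fun e => hl2r2 (p.inj e)) (fun e => hl2n (p.inj e)) (fun e => hl2t (p.inj e)) (fun e => hr2n (p.inj e)) (fun e => hr2t (p.inj e)) (fun e => hnt (p.inj e))) P9_0 (by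
                          intro x; fin_cases x <;> simp [P9_0, Xq0]) 0 1 2 3 4 (fun F => t42 h F) F
  · by_cases Xq0_1 : p l = l2
    · have Xr1 : p l2 = l := p.eq_comm'.1 Xq0_1
      by_cases Xq2 : p r2 = r2
      · by_cases Xq3 : p n = n
        · by_cases Xq4 : p t = t
          · exact case ![l, l2, r2, n, t] (inj5 hll2 hlr2 hln hlt hl2r2 hl2n hl2t hr2n hr2t hnt) P5_12 (by
              intro x; fin_cases x <;> simp [P5_12, Xq0_1, Xr1, Xq2, Xq3, Xq4]) 0 1 2 3 4 (fun F => t43 h F) F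
          · have Xn4_0 : p t ≠ l := (fun e => hl2t ((Xq0_1).symm.trans (p.eq_comm'.1 e)))
            have Xn4_1 : p t ≠ l2 := (fun e => hlt ((Xr1).symm.trans (p.eq_comm'.1 e)))
            have Xn4_2 : p t ≠ r2 := (fun e => hr2t ((Xq2).symm.trans (p.eq_comm'.1 e)))
            have Xn4_3 : p t ≠ n := (fun e => hnt ((Xq3).symm.trans (p.eq_comm'.1 e)))
            exact case ![l, l2, r2, n, t, p t] (inj6 hll2 hlr2 hln hlt (Ne.symm Xn4_0) hl2r2 hl2n hl2t (Ne.symm Xn4_1) hr2n hr2t (Ne.symm Xn4_2) hnt (Ne.symm Xn4_3) (Ne.symm Xq4)) P6_20 (by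
              intro x; fin_cases x <;> simp [P6_20, Xq0_1, Xr1, Xq2, Xq3]) 0 1 2 3 4 (fun F => t44 h F) F
        · by_cases Xq3_4 : p n = t
          · have Xr4 : p t = n := p.eq_comm'.1 Xq3_4
            exact case ![l, l2, r2, n, t] (inj5 hll2 hlr2 hln hlt hl2r2 hl2n hl2t hr2n hr2t hnt) P5_17 (by
              intro x; fin_cases x <;> simp [P5_17, Xq0_1, Xr1, Xq2, Xq3_4, Xr4]) 0 1 2 3 4 (fun F => t45 h F) F
          · by_cases Xq4 : p t = t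
            · have Xn3_0 : p n ≠ l := (fun e => hl2n ((Xq0_1).symm.trans (p.eq_comm'.1 e)))
              have Xn3_1 : p n ≠ l2 := (fun e => hln ((Xr1).symm.trans (p.eq_comm'.1 e)))
              have Xn3_2 : p n ≠ r2 := (fun e => hr2n ((Xq2).symm.trans (p.eq_comm'.1 e)))
              exact case ![l, l2, r2, n, t, p n] (inj6 hll2 hlr2 hln hlt (Ne.symm Xn3_0) hl2r2 hl2n hl2t (Ne.symm Xn3_1) hr2n hr2t (Ne.symm Xn3_2) hnt (Ne.symm Xq3) (Ne.symm Xq3_4)) P6_25 (by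
                intro x; fin_cases x <;> simp [P6_25, Xq0_1, Xr1, Xq2, Xq4]) 0 1 2 3 4 (fun F => t46 h F) F
            · have Xn3_0 : p n ≠ l := (fun e => hl2n ((Xq0_1).symm.trans (p.eq_comm'.1 e)))
              have Xn3_1 : p n ≠ l2 := (fun e => hln ((Xr1).symm.trans (p.eq_comm'.1 e)))
              have Xn3_2 : p n ≠ r2 := (fun e => hr2n ((Xq2).symm.trans (p.eq_comm'.1 e)))
              have Xn4_0 : p t ≠ l := (fun e => hl2t ((Xq0_1).symm.trans (p.eq_comm'.1 e)))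
              have Xn4_1 : p t ≠ l2 := (fun e => hlt ((Xr1).symm.trans (p.eq_comm'.1 e)))
              have Xn4_2 : p t ≠ r2 := (fun e => hr2t ((Xq2).symm.trans (p.eq_comm'.1 e)))
              have Xn4_3 : p t ≠ n := (fun e => Xq3_4 (p.eq_comm'.1 e))
              exact case ![l, l2, r2, n, t, p n, p t] (inj7 hll2 hlr2 hln hlt (Ne.symm Xn3_0) (Ne.symm Xn4_0) hl2r2 hl2n hl2t (Ne.symm Xn3_1) (Ne.symm Xn4_1) hr2n hr2t (Ne.symm Xn3_2) (Ne.symm Xn4_2) hnt (Ne.symm Xq3) (Ne.symm Xn4_3) (Ne.symm Xq3_4) (Ne.symm Xq4) (fun e => hnt (p.inj e))) P7_19 (by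
                intro x; fin_cases x <;> simp [P7_19, Xq0_1, Xr1, Xq2]) 0 1 2 3 4 (fun F => t47 h F) F
      · by_cases Xq2_3 : p r2 = n
        · have Xr3 : p n = r2 := p.eq_comm'.1 Xq2_3
          by_cases Xq4 : p t = t
          · exact case ![l, l2, r2, n, t] (inj5 hll2 hlr2 hln hlt hl2r2 hl2n hl2t hr2n hr2t hnt) P5_13 (by
              intro x; fin_cases x <;> simp [P5_13, Xq0_1, Xr1, Xq2_3, Xr3, Xq4]) 0 1 2 3 4 (fun F => t48 h F) F
          · have Xn4_0 : p t ≠ l := (fun e => hl2t ((Xq0_1).symm.trans (p.eq_comm'.1 e)))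
            have Xn4_1 : p t ≠ l2 := (fun e => hlt ((Xr1).symm.trans (p.eq_comm'.1 e)))
            have Xn4_2 : p t ≠ r2 := (fun e => hnt ((Xq2_3).symm.trans (p.eq_comm'.1 e)))
            have Xn4_3 : p t ≠ n := (fun e => hr2t ((Xr3).symm.trans (p.eq_comm'.1 e)))
            exact case ![l, l2, r2, n, t, p t] (inj6 hll2 hlr2 hln hlt (Ne.symm Xn4_0) hl2r2 hl2n hl2t (Ne.symm Xn4_1) hr2n hr2t (Ne.symm Xn4_2) hnt (Ne.symm Xn4_3) (Ne.symm Xq4)) P6_21 (by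
              intro x; fin_cases x <;> simp [P6_21, Xq0_1, Xr1, Xq2_3, Xr3]) 0 1 2 3 4 (fun F => t49 h F) F
        · by_cases Xq2_4 : p r2 = t
          · have Xr4 : p t = r2 := p.eq_comm'.1 Xq2_4
            by_cases Xq3 : p n = n
            · exact case ![l, l2, r2, n, t] (inj5 hll2 hlr2 hln hlt hl2r2 hl2n hl2t hr2n hr2t hnt) P5_18 (by
                intro x; fin_cases x <;> simp [P5_18, Xq0_1, Xr1, Xq2_4, Xq3, Xr4]) 0 1 2 3 4 (fun F => t50 h F) F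
            · have Xn3_0 : p n ≠ l := (fun e => hl2n ((Xq0_1).symm.trans (p.eq_comm'.1 e)))
              have Xn3_1 : p n ≠ l2 := (fun e => hln ((Xr1).symm.trans (p.eq_comm'.1 e)))
              have Xn3_2 : p n ≠ r2 := (fun e => (Ne.symm hnt) ((Xq2_4).symm.trans (p.eq_comm'.1 e)))
              have Xn3_4 : p n ≠ t := (fun e => hr2n ((Xr4).symm.trans (p.eq_comm'.1 e)))
              exact case ![l, l2, r2, n, t, p n] (inj6 hll2 hlr2 hln hlt (Ne.symm Xn3_0) hl2r2 hl2n hl2t (Ne.symm Xn3_1) hr2n hr2t (Ne.symm Xn3_2) hnt (Ne.symm Xq3) (Ne.symm Xn3_4)) P6_26 (by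
                intro x; fin_cases x <;> simp [P6_26, Xq0_1, Xr1, Xq2_4, Xr4]) 0 1 2 3 4 (fun F => t51 h F) F
          · by_cases Xq3 : p n = n
            · by_cases Xq4 : p t = t
              · have Xn2_0 : p r2 ≠ l := (fun e => hl2r2 ((Xq0_1).symm.trans (p.eq_comm'.1 e)))
                have Xn2_1 : p r2 ≠ l2 := (fun e => hlr2 ((Xr1).symm.trans (p.eq_comm'.1 e)))
                exact case ![l, l2, r2, n, t, p r2] (inj6 hll2 hlr2 hln hlt (Ne.symm Xn2_0) hl2r2 hl2n hl2t (Ne.symm Xn2_1) hr2n hr2t (Ne.symm Xq2) hnt (Ne.symm Xq2_3) (Ne.symm Xq2_4)) P6_27 (by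
                  intro x; fin_cases x <;> simp [P6_27, Xq0_1, Xr1, Xq3, Xq4]) 0 1 2 3 4 (fun F => t52 h F) F
              · have Xn2_0 : p r2 ≠ l := (fun e => hl2r2 ((Xq0_1).symm.trans (p.eq_comm'.1 e)))
                have Xn2_1 : p r2 ≠ l2 := (fun e => hlr2 ((Xr1).symm.trans (p.eq_comm'.1 e)))
                have Xn4_0 : p t ≠ l := (fun e => hl2t ((Xq0_1).symm.trans (p.eq_comm'.1 e)))
                have Xn4_1 : p t ≠ l2 := (fun e => hlt ((Xr1).symm.trans (p.eq_comm'.1 e)))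
                have Xn4_2 : p t ≠ r2 := (fun e => Xq2_4 (p.eq_comm'.1 e))
                have Xn4_3 : p t ≠ n := (fun e => hnt ((Xq3).symm.trans (p.eq_comm'.1 e)))
                exact case ![l, l2, r2, n, t, p r2, p t] (inj7 hll2 hlr2 hln hlt (Ne.symm Xn2_0) (Ne.symm Xn4_0) hl2r2 hl2n hl2t (Ne.symm Xn2_1) (Ne.symm Xn4_1) hr2n hr2t (Ne.symm Xq2) (Ne.symm Xn4_2) hnt (Ne.symm Xq2_3) (Ne.symm Xn4_3) (Ne.symm Xq2_4) (Ne.symm Xq4) (fun e => hr2t (p.inj e))) P7_20 (by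
                  intro x; fin_cases x <;> simp [P7_20, Xq0_1, Xr1, Xq3]) 0 1 2 3 4 (fun F => t53 h F) F
            · by_cases Xq3_4 : p n = t
              · have Xr4 : p t = n := p.eq_comm'.1 Xq3_4
                have Xn2_0 : p r2 ≠ l := (fun e => hl2r2 ((Xq0_1).symm.trans (p.eq_comm'.1 e)))
                have Xn2_1 : p r2 ≠ l2 := (fun e => hlr2 ((Xr1).symm.trans (p.eq_comm'.1 e)))
                exact case ![l, l2, r2, n, t, p r2] (inj6 hll2 hlr2 hln hlt (Ne.symm Xn2_0) hl2r2 hl2n hl2t (Ne.symm Xn2_1) hr2n hr2t (Ne.symm Xq2) hnt (Ne.symm Xq2_3) (Ne.symm Xq2_4)) P6_32 (by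
                  intro x; fin_cases x <;> simp [P6_32, Xq0_1, Xr1, Xq3_4, Xr4]) 0 1 2 3 4 (fun F => t54 h F) F
              · by_cases Xq4 : p t = t
                · have Xn2_0 : p r2 ≠ l := (fun e => hl2r2 ((Xq0_1).symm.trans (p.eq_comm'.1 e)))
                  have Xn2_1 : p r2 ≠ l2 := (fun e => hlr2 ((Xr1).symm.trans (p.eq_comm'.1 e)))
                  have Xn3_0 : p n ≠ l := (fun e => hl2n ((Xq0_1).symm.trans (p.eq_comm'.1 e)))
                  have Xn3_1 : p n ≠ l2 := (fun e => hln ((Xr1).symm.trans (p.eq_comm'.1 e)))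
                  have Xn3_2 : p n ≠ r2 := (fun e => Xq2_3 (p.eq_comm'.1 e))
                  exact case ![l, l2, r2, n, t, p r2, p n] (inj7 hll2 hlr2 hln hlt (Ne.symm Xn2_0) (Ne.symm Xn3_0) hl2r2 hl2n hl2t (Ne.symm Xn2_1) (Ne.symm Xn3_1) hr2n hr2t (Ne.symm Xq2) (Ne.symm Xn3_2) hnt (Ne.symm Xq2_3) (Ne.symm Xq3) (Ne.symm Xq2_4) (Ne.symm Xq3_4) (fun e => hr2n (p.inj e))) P7_24 (by
                    intro x; fin_cases x <;> simp [P7_24, Xq0_1, Xr1, Xq4]) 0 1 2 3 4 (fun F => t55 h F) F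
                · have Xn2_0 : p r2 ≠ l := (fun e => hl2r2 ((Xq0_1).symm.trans (p.eq_comm'.1 e)))
                  have Xn2_1 : p r2 ≠ l2 := (fun e => hlr2 ((Xr1).symm.trans (p.eq_comm'.1 e)))
                  have Xn3_0 : p n ≠ l := (fun e => hl2n ((Xq0_1).symm.trans (p.eq_comm'.1 e)))
                  have Xn3_1 : p n ≠ l2 := (fun e => hln ((Xr1).symm.trans (p.eq_comm'.1 e)))
                  have Xn3_2 : p n ≠ r2 := (fun e => Xq2_3 (p.eq_comm'.1 e))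
                  have Xn4_0 : p t ≠ l := (fun e => hl2t ((Xq0_1).symm.trans (p.eq_comm'.1 e)))
                  have Xn4_1 : p t ≠ l2 := (fun e => hlt ((Xr1).symm.trans (p.eq_comm'.1 e)))
                  have Xn4_2 : p t ≠ r2 := (fun e => Xq2_4 (p.eq_comm'.1 e))
                  have Xn4_3 : p t ≠ n := (fun e => Xq3_4 (p.eq_comm'.1 e))
                  exact case ![l, l2, r2, n, t, p r2, p n, p t] (inj8 hll2 hlr2 hln hlt (Ne.symm Xn2_0) (Ne.symm Xn3_0) (Ne.symm Xn4_0) hl2r2 hl2n hl2t (Ne.symm Xn2_1) (Ne.symm Xn3_1) (Ne.symm Xn4_1) hr2n hr2t (Ne.symm Xq2) (Ne.symm Xn3_2) (Ne.symm Xn4_2) hnt (Ne.symm Xq2_3) (Ne.symm Xq3) (Ne.symm Xn4_3) (Ne.symm Xq2_4) (Ne.symm Xq3_4) (Ne.symm Xq4) (fun e => hr2n (p.inj e)) (fun e => hr2t (p.inj e)) (fun e => hnt (p.inj e))) P8_9 (by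
                    intro x; fin_cases x <;> simp [P8_9, Xq0_1, Xr1]) 0 1 2 3 4 (fun F => t56 h F) F
    · by_cases Xq0_2 : p l = r2
      · have Xr2 : p r2 = l := p.eq_comm'.1 Xq0_2
        by_cases Xq1 : p l2 = l2
        · by_cases Xq3 : p n = n
          · by_cases Xq4 : p t = t
            · exact case ![l, l2, r2, n, t] (inj5 hll2 hlr2 hln hlt hl2r2 hl2n hl2t hr2n hr2t hnt) P5_8 (by
                intro x; fin_cases x <;> simp [P5_8, Xq0_2, Xq1, Xr2, Xq3, Xq4]) 0 1 2 3 4 (fun F => t57 h F) F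
            · have Xn4_0 : p t ≠ l := (fun e => hr2t ((Xq0_2).symm.trans (p.eq_comm'.1 e)))
              have Xn4_1 : p t ≠ l2 := (fun e => hl2t ((Xq1).symm.trans (p.eq_comm'.1 e)))
              have Xn4_2 : p t ≠ r2 := (fun e => hlt ((Xr2).symm.trans (p.eq_comm'.1 e)))
              have Xn4_3 : p t ≠ n := (fun e => hnt ((Xq3).symm.trans (p.eq_comm'.1 e)))
              exact case ![l, l2, r2, n, t, p t] (inj6 hll2 hlr2 hln hlt (Ne.symm Xn4_0) hl2r2 hl2n hl2t (Ne.symm Xn4_1) hr2n hr2t (Ne.symm Xn4_2) hnt (Ne.symm Xn4_3) (Ne.symm Xq4)) P6_10 (by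
                intro x; fin_cases x <;> simp [P6_10, Xq0_2, Xq1, Xr2, Xq3]) 0 1 2 3 4 (fun F => t58 h F) F
          · by_cases Xq3_4 : p n = t
            · have Xr4 : p t = n := p.eq_comm'.1 Xq3_4
              exact case ![l, l2, r2, n, t] (inj5 hll2 hlr2 hln hlt hl2r2 hl2n hl2t hr2n hr2t hnt) P5_22 (by
                intro x; fin_cases x <;> simp [P5_22, Xq0_2, Xq1, Xr2, Xq3_4, Xr4]) 0 1 2 3 4 (fun F => t59 h F) F
            · by_cases Xq4 : p t = t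
              · have Xn3_0 : p n ≠ l := (fun e => hr2n ((Xq0_2).symm.trans (p.eq_comm'.1 e)))
                have Xn3_1 : p n ≠ l2 := (fun e => hl2n ((Xq1).symm.trans (p.eq_comm'.1 e)))
                have Xn3_2 : p n ≠ r2 := (fun e => hln ((Xr2).symm.trans (p.eq_comm'.1 e)))
                exact case ![l, l2, r2, n, t, p n] (inj6 hll2 hlr2 hln hlt (Ne.symm Xn3_0) hl2r2 hl2n hl2t (Ne.symm Xn3_1) hr2n hr2t (Ne.symm Xn3_2) hnt (Ne.symm Xq3) (Ne.symm Xq3_4)) P6_33 (by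
                  intro x; fin_cases x <;> simp [P6_33, Xq0_2, Xq1, Xr2, Xq4]) 0 1 2 3 4 (fun F => t60 h F) F
              · have Xn3_0 : p n ≠ l := (fun e => hr2n ((Xq0_2).symm.trans (p.eq_comm'.1 e)))
                have Xn3_1 : p n ≠ l2 := (fun e => hl2n ((Xq1).symm.trans (p.eq_comm'.1 e)))
                have Xn3_2 : p n ≠ r2 := (fun e => hln ((Xr2).symm.trans (p.eq_comm'.1 e)))
                have Xn4_0 : p t ≠ l := (fun e => hr2t ((Xq0_2).symm.trans (p.eq_comm'.1 e)))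
                have Xn4_1 : p t ≠ l2 := (fun e => hl2t ((Xq1).symm.trans (p.eq_comm'.1 e)))
                have Xn4_2 : p t ≠ r2 := (fun e => hlt ((Xr2).symm.trans (p.eq_comm'.1 e)))
                have Xn4_3 : p t ≠ n := (fun e => Xq3_4 (p.eq_comm'.1 e))
                exact case ![l, l2, r2, n, t, p n, p t] (inj7 hll2 hlr2 hln hlt (Ne.symm Xn3_0) (Ne.symm Xn4_0) hl2r2 hl2n hl2t (Ne.symm Xn3_1) (Ne.symm Xn4_1) hr2n hr2t (Ne.symm Xn3_2) (Ne.symm Xn4_2) hnt (Ne.symm Xq3) (Ne.symm Xn4_3) (Ne.symm Xq3_4) (Ne.symm Xq4) (fun e => hnt (p.inj e))) P7_25 (by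
                  intro x; fin_cases x <;> simp [P7_25, Xq0_2, Xq1, Xr2]) 0 1 2 3 4 (fun F => t61 h F) F
        · by_cases Xq1_3 : p l2 = n
          · have Xr3 : p n = l2 := p.eq_comm'.1 Xq1_3
            by_cases Xq4 : p t = t
            · exact case ![l, l2, r2, n, t] (inj5 hll2 hlr2 hln hlt hl2r2 hl2n hl2t hr2n hr2t hnt) P5_16 (by
                intro x; fin_cases x <;> simp [P5_16, Xq0_2, Xq1_3, Xr2, Xr3, Xq4]) 0 1 2 3 4 (fun F => t62 h F) F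
            · have Xn4_0 : p t ≠ l := (fun e => hr2t ((Xq0_2).symm.trans (p.eq_comm'.1 e)))
              have Xn4_1 : p t ≠ l2 := (fun e => hnt ((Xq1_3).symm.trans (p.eq_comm'.1 e)))
              have Xn4_2 : p t ≠ r2 := (fun e => hlt ((Xr2).symm.trans (p.eq_comm'.1 e)))
              have Xn4_3 : p t ≠ n := (fun e => hl2t ((Xr3).symm.trans (p.eq_comm'.1 e)))
              exact case ![l, l2, r2, n, t, p t] (inj6 hll2 hlr2 hln hlt (Ne.symm Xn4_0) hl2r2 hl2n hl2t (Ne.symm Xn4_1) hr2n hr2t (Ne.symm Xn4_2) hnt (Ne.symm Xn4_3) (Ne.symm Xq4)) P6_24 (by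
                intro x; fin_cases x <;> simp [P6_24, Xq0_2, Xq1_3, Xr2, Xr3]) 0 1 2 3 4 (fun F => t63 h F) F
          · by_cases Xq1_4 : p l2 = t
            · have Xr4 : p t = l2 := p.eq_comm'.1 Xq1_4
              by_cases Xq3 : p n = n
              · exact case ![l, l2, r2, n, t] (inj5 hll2 hlr2 hln hlt hl2r2 hl2n hl2t hr2n hr2t hnt) P5_23 (by
                  intro x; fin_cases x <;> simp [P5_23, Xq0_2, Xq1_4, Xr2, Xq3, Xr4]) 0 1 2 3 4 (fun F => t64 h F) F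
              · have Xn3_0 : p n ≠ l := (fun e => hr2n ((Xq0_2).symm.trans (p.eq_comm'.1 e)))
                have Xn3_1 : p n ≠ l2 := (fun e => (Ne.symm hnt) ((Xq1_4).symm.trans (p.eq_comm'.1 e)))
                have Xn3_2 : p n ≠ r2 := (fun e => hln ((Xr2).symm.trans (p.eq_comm'.1 e)))
                have Xn3_4 : p n ≠ t := (fun e => hl2n ((Xr4).symm.trans (p.eq_comm'.1 e)))
                exact case ![l, l2, r2, n, t, p n] (inj6 hll2 hlr2 hln hlt (Ne.symm Xn3_0) hl2r2 hl2n hl2t (Ne.symm Xn3_1) hr2n hr2t (Ne.symm Xn3_2) hnt (Ne.symm Xq3) (Ne.symm Xn3_4)) P6_34 (by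
                  intro x; fin_cases x <;> simp [P6_34, Xq0_2, Xq1_4, Xr2, Xr4]) 0 1 2 3 4 (fun F => t65 h F) F
            · by_cases Xq3 : p n = n
              · by_cases Xq4 : p t = t
                · have Xn1_0 : p l2 ≠ l := (fun e => (Ne.symm hl2r2) ((Xq0_2).symm.trans (p.eq_comm'.1 e)))
                  have Xn1_2 : p l2 ≠ r2 := (fun e => hll2 ((Xr2).symm.trans (p.eq_comm'.1 e)))
                  exact case ![l, l2, r2, n, t, p l2] (inj6 hll2 hlr2 hln hlt (Ne.symm Xn1_0) hl2r2 hl2n hl2t (Ne.symm Xq1) hr2n hr2t (Ne.symm Xn1_2) hnt (Ne.symm Xq1_3) (Ne.symm Xq1_4)) P6_35 (by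
                    intro x; fin_cases x <;> simp [P6_35, Xq0_2, Xr2, Xq3, Xq4]) 0 1 2 3 4 (fun F => t66 h F) F
                · have Xn1_0 : p l2 ≠ l := (fun e => (Ne.symm hl2r2) ((Xq0_2).symm.trans (p.eq_comm'.1 e)))
                  have Xn1_2 : p l2 ≠ r2 := (fun e => hll2 ((Xr2).symm.trans (p.eq_comm'.1 e)))
                  have Xn4_0 : p t ≠ l := (fun e => hr2t ((Xq0_2).symm.trans (p.eq_comm'.1 e)))
                  have Xn4_1 : p t ≠ l2 := (fun e => Xq1_4 (p.eq_comm'.1 e))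
                  have Xn4_2 : p t ≠ r2 := (fun e => hlt ((Xr2).symm.trans (p.eq_comm'.1 e)))
                  have Xn4_3 : p t ≠ n := (fun e => hnt ((Xq3).symm.trans (p.eq_comm'.1 e)))
                  exact case ![l, l2, r2, n, t, p l2, p t] (inj7 hll2 hlr2 hln hlt (Ne.symm Xn1_0) (Ne.symm Xn4_0) hl2r2 hl2n hl2t (Ne.symm Xq1) (Ne.symm Xn4_1) hr2n hr2t (Ne.symm Xn1_2) (Ne.symm Xn4_2) hnt (Ne.symm Xq1_3) (Ne.symm Xn4_3) (Ne.symm Xq1_4) (Ne.symm Xq4) (fun e => hl2t (p.inj e))) P7_26 (by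
                    intro x; fin_cases x <;> simp [P7_26, Xq0_2, Xr2, Xq3]) 0 1 2 3 4 (fun F => t67 h F) F
              · by_cases Xq3_4 : p n = t
                · have Xr4 : p t = n := p.eq_comm'.1 Xq3_4
                  have Xn1_0 : p l2 ≠ l := (fun e => (Ne.symm hl2r2) ((Xq0_2).symm.trans (p.eq_comm'.1 e)))
                  have Xn1_2 : p l2 ≠ r2 := (fun e => hll2 ((Xr2).symm.trans (p.eq_comm'.1 e)))
                  exact case ![l, l2, r2, n, t, p l2] (inj6 hll2 hlr2 hln hlt (Ne.symm Xn1_0) hl2r2 hl2n hl2t (Ne.symm Xq1) hr2n hr2t (Ne.symm Xn1_2) hnt (Ne.symm Xq1_3) (Ne.symm Xq1_4)) P6_37 (by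
                    intro x; fin_cases x <;> simp [P6_37, Xq0_2, Xr2, Xq3_4, Xr4]) 0 1 2 3 4 (fun F => t68 h F) F
                · by_cases Xq4 : p t = t
                  · have Xn1_0 : p l2 ≠ l := (fun e => (Ne.symm hl2r2) ((Xq0_2).symm.trans (p.eq_comm'.1 e)))
                    have Xn1_2 : p l2 ≠ r2 := (fun e => hll2 ((Xr2).symm.trans (p.eq_comm'.1 e)))
                    have Xn3_0 : p n ≠ l := (fun e => hr2n ((Xq0_2).symm.trans (p.eq_comm'.1 e)))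
                    have Xn3_1 : p n ≠ l2 := (fun e => Xq1_3 (p.eq_comm'.1 e))
                    have Xn3_2 : p n ≠ r2 := (fun e => hln ((Xr2).symm.trans (p.eq_comm'.1 e)))
                    exact case ![l, l2, r2, n, t, p l2, p n] (inj7 hll2 hlr2 hln hlt (Ne.symm Xn1_0) (Ne.symm Xn3_0) hl2r2 hl2n hl2t (Ne.symm Xq1) (Ne.symm Xn3_1) hr2n hr2t (Ne.symm Xn1_2) (Ne.symm Xn3_2) hnt (Ne.symm Xq1_3) (Ne.symm Xq3) (Ne.symm Xq1_4) (Ne.symm Xq3_4) (fun e => hl2n (p.inj e))) P7_27 (by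
                      intro x; fin_cases x <;> simp [P7_27, Xq0_2, Xr2, Xq4]) 0 1 2 3 4 (fun F => t69 h F) F
                  · have Xn1_0 : p l2 ≠ l := (fun e => (Ne.symm hl2r2) ((Xq0_2).symm.trans (p.eq_comm'.1 e)))
                    have Xn1_2 : p l2 ≠ r2 := (fun e => hll2 ((Xr2).symm.trans (p.eq_comm'.1 e)))
                    have Xn3_0 : p n ≠ l := (fun e => hr2n ((Xq0_2).symm.trans (p.eq_comm'.1 e)))
                    have Xn3_1 : p n ≠ l2 := (fun e => Xq1_3 (p.eq_comm'.1 e))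
                    have Xn3_2 : p n ≠ r2 := (fun e => hln ((Xr2).symm.trans (p.eq_comm'.1 e)))
                    have Xn4_0 : p t ≠ l := (fun e => hr2t ((Xq0_2).symm.trans (p.eq_comm'.1 e)))
                    have Xn4_1 : p t ≠ l2 := (fun e => Xq1_4 (p.eq_comm'.1 e))
                    have Xn4_2 : p t ≠ r2 := (fun e => hlt ((Xr2).symm.trans (p.eq_comm'.1 e)))
                    have Xn4_3 : p t ≠ n := (fun e => Xq3_4 (p.eq_comm'.1 e))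
                    exact case ![l, l2, r2, n, t, p l2, p n, p t] (inj8 hll2 hlr2 hln hlt (Ne.symm Xn1_0) (Ne.symm Xn3_0) (Ne.symm Xn4_0) hl2r2 hl2n hl2t (Ne.symm Xq1) (Ne.symm Xn3_1) (Ne.symm Xn4_1) hr2n hr2t (Ne.symm Xn1_2) (Ne.symm Xn3_2) (Ne.symm Xn4_2) hnt (Ne.symm Xq1_3) (Ne.symm Xq3) (Ne.symm Xn4_3) (Ne.symm Xq1_4) (Ne.symm Xq3_4) (Ne.symm Xq4) (fun e => hl2n (p.inj e)) (fun e => hl2t (p.inj e)) (fun e => hnt (p.inj e))) P8_10 (by
                      intro x; fin_cases x <;> simp [P8_10, Xq0_2, Xr2]) 0 1 2 3 4 (fun F => t70 h F) F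
      · by_cases Xq0_3 : p l = n
        · have Xr3 : p n = l := p.eq_comm'.1 Xq0_3
          by_cases Xq1 : p l2 = l2
          · by_cases Xq2 : p r2 = r2
            · by_cases Xq4 : p t = t
              · exact case ![l, l2, r2, n, t] (inj5 hll2 hlr2 hln hlt hl2r2 hl2n hl2t hr2n hr2t hnt) P5_14 (by
                  intro x; fin_cases x <;> simp [P5_14, Xq0_3, Xq1, Xq2, Xr3, Xq4]) 0 1 2 3 4 (fun F => t71 h F) F
              · have Xn4_0 : p t ≠ l := (fun e => hnt ((Xq0_3).symm.trans (p.eq_comm'.1 e)))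
                have Xn4_1 : p t ≠ l2 := (fun e => hl2t ((Xq1).symm.trans (p.eq_comm'.1 e)))
                have Xn4_2 : p t ≠ r2 := (fun e => hr2t ((Xq2).symm.trans (p.eq_comm'.1 e)))
                have Xn4_3 : p t ≠ n := (fun e => hlt ((Xr3).symm.trans (p.eq_comm'.1 e)))
                exact case ![l, l2, r2, n, t, p t] (inj6 hll2 hlr2 hln hlt (Ne.symm Xn4_0) hl2r2 hl2n hl2t (Ne.symm Xn4_1) hr2n hr2t (Ne.symm Xn4_2) hnt (Ne.symm Xn4_3) (Ne.symm Xq4)) P6_22 (by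
                  intro x; fin_cases x <;> simp [P6_22, Xq0_3, Xq1, Xq2, Xr3]) 0 1 2 3 4 (fun F => t72 h F) F
            · by_cases Xq2_4 : p r2 = t
              · have Xr4 : p t = r2 := p.eq_comm'.1 Xq2_4
                exact case ![l, l2, r2, n, t] (inj5 hll2 hlr2 hln hlt hl2r2 hl2n hl2t hr2n hr2t hnt) P5_21 (by
                  intro x; fin_cases x <;> simp [P5_21, Xq0_3, Xq1, Xq2_4, Xr3, Xr4]) 0 1 2 3 4 (fun F => t73 h F) F
              · by_cases Xq4 : p t = t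
                · have Xn2_0 : p r2 ≠ l := (fun e => (Ne.symm hr2n) ((Xq0_3).symm.trans (p.eq_comm'.1 e)))
                  have Xn2_1 : p r2 ≠ l2 := (fun e => hl2r2 ((Xq1).symm.trans (p.eq_comm'.1 e)))
                  have Xn2_3 : p r2 ≠ n := (fun e => hlr2 ((Xr3).symm.trans (p.eq_comm'.1 e)))
                  exact case ![l, l2, r2, n, t, p r2] (inj6 hll2 hlr2 hln hlt (Ne.symm Xn2_0) hl2r2 hl2n hl2t (Ne.symm Xn2_1) hr2n hr2t (Ne.symm Xq2) hnt (Ne.symm Xn2_3) (Ne.symm Xq2_4)) P6_30 (by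
                    intro x; fin_cases x <;> simp [P6_30, Xq0_3, Xq1, Xr3, Xq4]) 0 1 2 3 4 (fun F => t74 h F) F
                · have Xn2_0 : p r2 ≠ l := (fun e => (Ne.symm hr2n) ((Xq0_3).symm.trans (p.eq_comm'.1 e)))
                  have Xn2_1 : p r2 ≠ l2 := (fun e => hl2r2 ((Xq1).symm.trans (p.eq_comm'.1 e)))
                  have Xn2_3 : p r2 ≠ n := (fun e => hlr2 ((Xr3).symm.trans (p.eq_comm'.1 e)))
                  have Xn4_0 : p t ≠ l := (fun e => hnt ((Xq0_3).symm.trans (p.eq_comm'.1 e)))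
                  have Xn4_1 : p t ≠ l2 := (fun e => hl2t ((Xq1).symm.trans (p.eq_comm'.1 e)))
                  have Xn4_2 : p t ≠ r2 := (fun e => Xq2_4 (p.eq_comm'.1 e))
                  have Xn4_3 : p t ≠ n := (fun e => hlt ((Xr3).symm.trans (p.eq_comm'.1 e)))
                  exact case ![l, l2, r2, n, t, p r2, p t] (inj7 hll2 hlr2 hln hlt (Ne.symm Xn2_0) (Ne.symm Xn4_0) hl2r2 hl2n hl2t (Ne.symm Xn2_1) (Ne.symm Xn4_1) hr2n hr2t (Ne.symm Xq2) (Ne.symm Xn4_2) hnt (Ne.symm Xn2_3) (Ne.symm Xn4_3) (Ne.symm Xq2_4) (Ne.symm Xq4) (fun e => hr2t (p.inj e))) P7_23 (by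
                    intro x; fin_cases x <;> simp [P7_23, Xq0_3, Xq1, Xr3]) 0 1 2 3 4 (fun F => t75 h F) F
          · by_cases Xq1_2 : p l2 = r2
            · have Xr2 : p r2 = l2 := p.eq_comm'.1 Xq1_2
              by_cases Xq4 : p t = t
              · exact case ![l, l2, r2, n, t] (inj5 hll2 hlr2 hln hlt hl2r2 hl2n hl2t hr2n hr2t hnt) P5_15 (by
                  intro x; fin_cases x <;> simp [P5_15, Xq0_3, Xq1_2, Xr2, Xr3, Xq4]) 0 1 2 3 4 (fun F => t76 h F) F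
              · have Xn4_0 : p t ≠ l := (fun e => hnt ((Xq0_3).symm.trans (p.eq_comm'.1 e)))
                have Xn4_1 : p t ≠ l2 := (fun e => hr2t ((Xq1_2).symm.trans (p.eq_comm'.1 e)))
                have Xn4_2 : p t ≠ r2 := (fun e => hl2t ((Xr2).symm.trans (p.eq_comm'.1 e)))
                have Xn4_3 : p t ≠ n := (fun e => hlt ((Xr3).symm.trans (p.eq_comm'.1 e)))
                exact case ![l, l2, r2, n, t, p t] (inj6 hll2 hlr2 hln hlt (Ne.symm Xn4_0) hl2r2 hl2n hl2t (Ne.symm Xn4_1) hr2n hr2t (Ne.symm Xn4_2) hnt (Ne.symm Xn4_3) (Ne.symm Xq4)) P6_23 (by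
                  intro x; fin_cases x <;> simp [P6_23, Xq0_3, Xq1_2, Xr2, Xr3]) 0 1 2 3 4 (fun F => t77 h F) F
            · by_cases Xq1_4 : p l2 = t
              · have Xr4 : p t = l2 := p.eq_comm'.1 Xq1_4
                by_cases Xq2 : p r2 = r2
                · exact case ![l, l2, r2, n, t] (inj5 hll2 hlr2 hln hlt hl2r2 hl2n hl2t hr2n hr2t hnt) P5_19 (by
                    intro x; fin_cases x <;> simp [P5_19, Xq0_3, Xq1_4, Xq2, Xr3, Xr4]) 0 1 2 3 4 (fun F => t78 h F) F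
                · have Xn2_0 : p r2 ≠ l := (fun e => (Ne.symm hr2n) ((Xq0_3).symm.trans (p.eq_comm'.1 e)))
                  have Xn2_1 : p r2 ≠ l2 := (fun e => (Ne.symm hr2t) ((Xq1_4).symm.trans (p.eq_comm'.1 e)))
                  have Xn2_3 : p r2 ≠ n := (fun e => hlr2 ((Xr3).symm.trans (p.eq_comm'.1 e)))
                  have Xn2_4 : p r2 ≠ t := (fun e => hl2r2 ((Xr4).symm.trans (p.eq_comm'.1 e)))
                  exact case ![l, l2, r2, n, t, p r2] (inj6 hll2 hlr2 hln hlt (Ne.symm Xn2_0) hl2r2 hl2n hl2t (Ne.symm Xn2_1) hr2n hr2t (Ne.symm Xq2) hnt (Ne.symm Xn2_3) (Ne.symm Xn2_4)) P6_38 (by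
                    intro x; fin_cases x <;> simp [P6_38, Xq0_3, Xq1_4, Xr3, Xr4]) 0 1 2 3 4 (fun F => t79 h F) F
              · by_cases Xq2 : p r2 = r2
                · by_cases Xq4 : p t = t
                  · have Xn1_0 : p l2 ≠ l := (fun e => (Ne.symm hl2n) ((Xq0_3).symm.trans (p.eq_comm'.1 e)))
                    have Xn1_3 : p l2 ≠ n := (fun e => hll2 ((Xr3).symm.trans (p.eq_comm'.1 e)))
                    exact case ![l, l2, r2, n, t, p l2] (inj6 hll2 hlr2 hln hlt (Ne.symm Xn1_0) hl2r2 hl2n hl2t (Ne.symm Xq1) hr2n hr2t (Ne.symm Xq1_2) hnt (Ne.symm Xn1_3) (Ne.symm Xq1_4)) P6_28 (by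
                      intro x; fin_cases x <;> simp [P6_28, Xq0_3, Xq2, Xr3, Xq4]) 0 1 2 3 4 (fun F => t80 h F) F
                  · have Xn1_0 : p l2 ≠ l := (fun e => (Ne.symm hl2n) ((Xq0_3).symm.trans (p.eq_comm'.1 e)))
                    have Xn1_3 : p l2 ≠ n := (fun e => hll2 ((Xr3).symm.trans (p.eq_comm'.1 e)))
                    have Xn4_0 : p t ≠ l := (fun e => hnt ((Xq0_3).symm.trans (p.eq_comm'.1 e)))
                    have Xn4_1 : p t ≠ l2 := (fun e => Xq1_4 (p.eq_comm'.1 e))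
                    have Xn4_2 : p t ≠ r2 := (fun e => hr2t ((Xq2).symm.trans (p.eq_comm'.1 e)))
                    have Xn4_3 : p t ≠ n := (fun e => hlt ((Xr3).symm.trans (p.eq_comm'.1 e)))
                    exact case ![l, l2, r2, n, t, p l2, p t] (inj7 hll2 hlr2 hln hlt (Ne.symm Xn1_0) (Ne.symm Xn4_0) hl2r2 hl2n hl2t (Ne.symm Xq1) (Ne.symm Xn4_1) hr2n hr2t (Ne.symm Xq1_2) (Ne.symm Xn4_2) hnt (Ne.symm Xn1_3) (Ne.symm Xn4_3) (Ne.symm Xq1_4) (Ne.symm Xq4) (fun e => hl2t (p.inj e))) P7_21 (by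
                      intro x; fin_cases x <;> simp [P7_21, Xq0_3, Xq2, Xr3]) 0 1 2 3 4 (fun F => t81 h F) F
                · by_cases Xq2_4 : p r2 = t
                  · have Xr4 : p t = r2 := p.eq_comm'.1 Xq2_4
                    have Xn1_0 : p l2 ≠ l := (fun e => (Ne.symm hl2n) ((Xq0_3).symm.trans (p.eq_comm'.1 e)))
                    have Xn1_3 : p l2 ≠ n := (fun e => hll2 ((Xr3).symm.trans (p.eq_comm'.1 e)))
                    exact case ![l, l2, r2, n, t, p l2] (inj6 hll2 hlr2 hln hlt (Ne.symm Xn1_0) hl2r2 hl2n hl2t (Ne.symm Xq1) hr2n hr2t (Ne.symm Xq1_2) hnt (Ne.symm Xn1_3) (Ne.symm Xq1_4)) P6_39 (by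
                      intro x; fin_cases x <;> simp [P6_39, Xq0_3, Xq2_4, Xr3, Xr4]) 0 1 2 3 4 (fun F => t82 h F) F
                  · by_cases Xq4 : p t = t
                    · have Xn1_0 : p l2 ≠ l := (fun e => (Ne.symm hl2n) ((Xq0_3).symm.trans (p.eq_comm'.1 e)))
                      have Xn1_3 : p l2 ≠ n := (fun e => hll2 ((Xr3).symm.trans (p.eq_comm'.1 e)))
                      have Xn2_0 : p r2 ≠ l := (fun e => (Ne.symm hr2n) ((Xq0_3).symm.trans (p.eq_comm'.1 e)))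
                      have Xn2_1 : p r2 ≠ l2 := (fun e => Xq1_2 (p.eq_comm'.1 e))
                      have Xn2_3 : p r2 ≠ n := (fun e => hlr2 ((Xr3).symm.trans (p.eq_comm'.1 e)))
                      exact case ![l, l2, r2, n, t, p l2, p r2] (inj7 hll2 hlr2 hln hlt (Ne.symm Xn1_0) (Ne.symm Xn2_0) hl2r2 hl2n hl2t (Ne.symm Xq1) (Ne.symm Xn2_1) hr2n hr2t (Ne.symm Xq1_2) (Ne.symm Xq2) hnt (Ne.symm Xn1_3) (Ne.symm Xn2_3) (Ne.symm Xq1_4) (Ne.symm Xq2_4) (fun e => hl2r2 (p.inj e))) P7_28 (by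
                        intro x; fin_cases x <;> simp [P7_28, Xq0_3, Xr3, Xq4]) 0 1 2 3 4 (fun F => t83 h F) F
                    · have Xn1_0 : p l2 ≠ l := (fun e => (Ne.symm hl2n) ((Xq0_3).symm.trans (p.eq_comm'.1 e)))
                      have Xn1_3 : p l2 ≠ n := (fun e => hll2 ((Xr3).symm.trans (p.eq_comm'.1 e)))
                      have Xn2_0 : p r2 ≠ l := (fun e => (Ne.symm hr2n) ((Xq0_3).symm.trans (p.eq_comm'.1 e)))
                      have Xn2_1 : p r2 ≠ l2 := (fun e => Xq1_2 (p.eq_comm'.1 e))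
                      have Xn2_3 : p r2 ≠ n := (fun e => hlr2 ((Xr3).symm.trans (p.eq_comm'.1 e)))
                      have Xn4_0 : p t ≠ l := (fun e => hnt ((Xq0_3).symm.trans (p.eq_comm'.1 e)))
                      have Xn4_1 : p t ≠ l2 := (fun e => Xq1_4 (p.eq_comm'.1 e))
                      have Xn4_2 : p t ≠ r2 := (fun e => Xq2_4 (p.eq_comm'.1 e))
                      have Xn4_3 : p t ≠ n := (fun e => hlt ((Xr3).symm.trans (p.eq_comm'.1 e)))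
                      exact case ![l, l2, r2, n, t, p l2, p r2, p t] (inj8 hll2 hlr2 hln hlt (Ne.symm Xn1_0) (Ne.symm Xn2_0) (Ne.symm Xn4_0) hl2r2 hl2n hl2t (Ne.symm Xq1) (Ne.symm Xn2_1) (Ne.symm Xn4_1) hr2n hr2t (Ne.symm Xq1_2) (Ne.symm Xq2) (Ne.symm Xn4_2) hnt (Ne.symm Xn1_3) (Ne.symm Xn2_3) (Ne.symm Xn4_3) (Ne.symm Xq1_4) (Ne.symm Xq2_4) (Ne.symm Xq4) (fun e => hl2r2 (p.inj e)) (fun e => hl2t (p.inj e)) (fun e => hr2t (p.inj e))) P8_11 (by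
                        intro x; fin_cases x <;> simp [P8_11, Xq0_3, Xr3]) 0 1 2 3 4 (fun F => t84 h F) F
        · by_cases Xq0_4 : p l = t
          · have Xr4 : p t = l := p.eq_comm'.1 Xq0_4
            by_cases Xq1 : p l2 = l2
            · by_cases Xq2 : p r2 = r2
              · by_cases Xq3 : p n = n
                · exact case ![l, l2, r2, n, t] (inj5 hll2 hlr2 hln hlt hl2r2 hl2n hl2t hr2n hr2t hnt) P5_11 (by
                    intro x; fin_cases x <;> simp [P5_11, Xq0_4, Xq1, Xq2, Xq3, Xr4]) 0 1 2 3 4 (fun F => t85 h F) F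
                · have Xn3_0 : p n ≠ l := (fun e => (Ne.symm hnt) ((Xq0_4).symm.trans (p.eq_comm'.1 e)))
                  have Xn3_1 : p n ≠ l2 := (fun e => hl2n ((Xq1).symm.trans (p.eq_comm'.1 e)))
                  have Xn3_2 : p n ≠ r2 := (fun e => hr2n ((Xq2).symm.trans (p.eq_comm'.1 e)))
                  have Xn3_4 : p n ≠ t := (fun e => hln ((Xr4).symm.trans (p.eq_comm'.1 e)))
                  exact case ![l, l2, r2, n, t, p n] (inj6 hll2 hlr2 hln hlt (Ne.symm Xn3_0) hl2r2 hl2n hl2t (Ne.symm Xn3_1) hr2n hr2t (Ne.symm Xn3_2) hnt (Ne.symm Xq3) (Ne.symm Xn3_4)) P6_36 (by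
                    intro x; fin_cases x <;> simp [P6_36, Xq0_4, Xq1, Xq2, Xr4]) 0 1 2 3 4 (fun F => t86 h F) F
              · by_cases Xq2_3 : p r2 = n
                · have Xr3 : p n = r2 := p.eq_comm'.1 Xq2_3
                  exact case ![l, l2, r2, n, t] (inj5 hll2 hlr2 hln hlt hl2r2 hl2n hl2t hr2n hr2t hnt) P5_24 (by
                    intro x; fin_cases x <;> simp [P5_24, Xq0_4, Xq1, Xq2_3, Xr3, Xr4]) 0 1 2 3 4 (fun F => t87 h F) F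
                · by_cases Xq3 : p n = n
                  · have Xn2_0 : p r2 ≠ l := (fun e => (Ne.symm hr2t) ((Xq0_4).symm.trans (p.eq_comm'.1 e)))
                    have Xn2_1 : p r2 ≠ l2 := (fun e => hl2r2 ((Xq1).symm.trans (p.eq_comm'.1 e)))
                    have Xn2_4 : p r2 ≠ t := (fun e => hlr2 ((Xr4).symm.trans (p.eq_comm'.1 e)))
                    exact case ![l, l2, r2, n, t, p r2] (inj6 hll2 hlr2 hln hlt (Ne.symm Xn2_0) hl2r2 hl2n hl2t (Ne.symm Xn2_1) hr2n hr2t (Ne.symm Xq2) hnt (Ne.symm Xq2_3) (Ne.symm Xn2_4)) P6_15 (by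
                      intro x; fin_cases x <;> simp [P6_15, Xq0_4, Xq1, Xq3, Xr4]) 0 1 2 3 4 (fun F => t88 h F) F
                  · have Xn2_0 : p r2 ≠ l := (fun e => (Ne.symm hr2t) ((Xq0_4).symm.trans (p.eq_comm'.1 e)))
                    have Xn2_1 : p r2 ≠ l2 := (fun e => hl2r2 ((Xq1).symm.trans (p.eq_comm'.1 e)))
                    have Xn2_4 : p r2 ≠ t := (fun e => hlr2 ((Xr4).symm.trans (p.eq_comm'.1 e)))
                    have Xn3_0 : p n ≠ l := (fun e => (Ne.symm hnt) ((Xq0_4).symm.trans (p.eq_comm'.1 e)))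
                    have Xn3_1 : p n ≠ l2 := (fun e => hl2n ((Xq1).symm.trans (p.eq_comm'.1 e)))
                    have Xn3_2 : p n ≠ r2 := (fun e => Xq2_3 (p.eq_comm'.1 e))
                    have Xn3_4 : p n ≠ t := (fun e => hln ((Xr4).symm.trans (p.eq_comm'.1 e)))
                    exact case ![l, l2, r2, n, t, p r2, p n] (inj7 hll2 hlr2 hln hlt (Ne.symm Xn2_0) (Ne.symm Xn3_0) hl2r2 hl2n hl2t (Ne.symm Xn2_1) (Ne.symm Xn3_1) hr2n hr2t (Ne.symm Xq2) (Ne.symm Xn3_2) hnt (Ne.symm Xq2_3) (Ne.symm Xq3) (Ne.symm Xn2_4) (Ne.symm Xn3_4) (fun e => hr2n (p.inj e))) P7_29 (by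
                      intro x; fin_cases x <;> simp [P7_29, Xq0_4, Xq1, Xr4]) 0 1 2 3 4 (fun F => t89 h F) F
            · by_cases Xq1_2 : p l2 = r2
              · have Xr2 : p r2 = l2 := p.eq_comm'.1 Xq1_2
                by_cases Xq3 : p n = n
                · exact case ![l, l2, r2, n, t] (inj5 hll2 hlr2 hln hlt hl2r2 hl2n hl2t hr2n hr2t hnt) P5_25 (by
                    intro x; fin_cases x <;> simp [P5_25, Xq0_4, Xq1_2, Xr2, Xq3, Xr4]) 0 1 2 3 4 (fun F => t90 h F) F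
                · have Xn3_0 : p n ≠ l := (fun e => (Ne.symm hnt) ((Xq0_4).symm.trans (p.eq_comm'.1 e)))
                  have Xn3_1 : p n ≠ l2 := (fun e => hr2n ((Xq1_2).symm.trans (p.eq_comm'.1 e)))
                  have Xn3_2 : p n ≠ r2 := (fun e => hl2n ((Xr2).symm.trans (p.eq_comm'.1 e)))
                  have Xn3_4 : p n ≠ t := (fun e => hln ((Xr4).symm.trans (p.eq_comm'.1 e)))
                  exact case ![l, l2, r2, n, t, p n] (inj6 hll2 hlr2 hln hlt (Ne.symm Xn3_0) hl2r2 hl2n hl2t (Ne.symm Xn3_1) hr2n hr2t (Ne.symm Xn3_2) hnt (Ne.symm Xq3) (Ne.symm Xn3_4)) P6_42 (by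
                    intro x; fin_cases x <;> simp [P6_42, Xq0_4, Xq1_2, Xr2, Xr4]) 0 1 2 3 4 (fun F => t91 h F) F
              · by_cases Xq1_3 : p l2 = n
                · have Xr3 : p n = l2 := p.eq_comm'.1 Xq1_3
                  by_cases Xq2 : p r2 = r2
                  · exact case ![l, l2, r2, n, t] (inj5 hll2 hlr2 hln hlt hl2r2 hl2n hl2t hr2n hr2t hnt) P5_20 (by
                      intro x; fin_cases x <;> simp [P5_20, Xq0_4, Xq1_3, Xq2, Xr3, Xr4]) 0 1 2 3 4 (fun F => t92 h F) F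
                  · have Xn2_0 : p r2 ≠ l := (fun e => (Ne.symm hr2t) ((Xq0_4).symm.trans (p.eq_comm'.1 e)))
                    have Xn2_1 : p r2 ≠ l2 := (fun e => (Ne.symm hr2n) ((Xq1_3).symm.trans (p.eq_comm'.1 e)))
                    have Xn2_3 : p r2 ≠ n := (fun e => hl2r2 ((Xr3).symm.trans (p.eq_comm'.1 e)))
                    have Xn2_4 : p r2 ≠ t := (fun e => hlr2 ((Xr4).symm.trans (p.eq_comm'.1 e)))
                    exact case ![l, l2, r2, n, t, p r2] (inj6 hll2 hlr2 hln hlt (Ne.symm Xn2_0) hl2r2 hl2n hl2t (Ne.symm Xn2_1) hr2n hr2t (Ne.symm Xq2) hnt (Ne.symm Xn2_3) (Ne.symm Xn2_4)) P6_41 (by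
                      intro x; fin_cases x <;> simp [P6_41, Xq0_4, Xq1_3, Xr3, Xr4]) 0 1 2 3 4 (fun F => t93 h F) F
                · by_cases Xq2 : p r2 = r2
                  · by_cases Xq3 : p n = n
                    · have Xn1_0 : p l2 ≠ l := (fun e => (Ne.symm hl2t) ((Xq0_4).symm.trans (p.eq_comm'.1 e)))
                      have Xn1_4 : p l2 ≠ t := (fun e => hll2 ((Xr4).symm.trans (p.eq_comm'.1 e)))
                      exact case ![l, l2, r2, n, t, p l2] (inj6 hll2 hlr2 hln hlt (Ne.symm Xn1_0) hl2r2 hl2n hl2t (Ne.symm Xq1) hr2n hr2t (Ne.symm Xq1_2) hnt (Ne.symm Xq1_3) (Ne.symm Xn1_4)) P6_40 (by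
                        intro x; fin_cases x <;> simp [P6_40, Xq0_4, Xq2, Xq3, Xr4]) 0 1 2 3 4 (fun F => t94 h F) F
                    · have Xn1_0 : p l2 ≠ l := (fun e => (Ne.symm hl2t) ((Xq0_4).symm.trans (p.eq_comm'.1 e)))
                      have Xn1_4 : p l2 ≠ t := (fun e => hll2 ((Xr4).symm.trans (p.eq_comm'.1 e)))
                      have Xn3_0 : p n ≠ l := (fun e => (Ne.symm hnt) ((Xq0_4).symm.trans (p.eq_comm'.1 e)))
                      have Xn3_1 : p n ≠ l2 := (fun e => Xq1_3 (p.eq_comm'.1 e))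
                      have Xn3_2 : p n ≠ r2 := (fun e => hr2n ((Xq2).symm.trans (p.eq_comm'.1 e)))
                      have Xn3_4 : p n ≠ t := (fun e => hln ((Xr4).symm.trans (p.eq_comm'.1 e)))
                      exact case ![l, l2, r2, n, t, p l2, p n] (inj7 hll2 hlr2 hln hlt (Ne.symm Xn1_0) (Ne.symm Xn3_0) hl2r2 hl2n hl2t (Ne.symm Xq1) (Ne.symm Xn3_1) hr2n hr2t (Ne.symm Xq1_2) (Ne.symm Xn3_2) hnt (Ne.symm Xq1_3) (Ne.symm Xq3) (Ne.symm Xn1_4) (Ne.symm Xn3_4) (fun e => hl2n (p.inj e))) P7_30 (by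
                        intro x; fin_cases x <;> simp [P7_30, Xq0_4, Xq2, Xr4]) 0 1 2 3 4 (fun F => t95 h F) F
                  · by_cases Xq2_3 : p r2 = n
                    · have Xr3 : p n = r2 := p.eq_comm'.1 Xq2_3
                      have Xn1_0 : p l2 ≠ l := (fun e => (Ne.symm hl2t) ((Xq0_4).symm.trans (p.eq_comm'.1 e)))
                      have Xn1_4 : p l2 ≠ t := (fun e => hll2 ((Xr4).symm.trans (p.eq_comm'.1 e)))
                      exact case ![l, l2, r2, n, t, p l2] (inj6 hll2 hlr2 hln hlt (Ne.symm Xn1_0) hl2r2 hl2n hl2t (Ne.symm Xq1) hr2n hr2t (Ne.symm Xq1_2) hnt (Ne.symm Xq1_3) (Ne.symm Xn1_4)) P6_43 (by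
                        intro x; fin_cases x <;> simp [P6_43, Xq0_4, Xq2_3, Xr3, Xr4]) 0 1 2 3 4 (fun F => t96 h F) F
                    · by_cases Xq3 : p n = n
                      · have Xn1_0 : p l2 ≠ l := (fun e => (Ne.symm hl2t) ((Xq0_4).symm.trans (p.eq_comm'.1 e)))
                        have Xn1_4 : p l2 ≠ t := (fun e => hll2 ((Xr4).symm.trans (p.eq_comm'.1 e)))
                        have Xn2_0 : p r2 ≠ l := (fun e => (Ne.symm hr2t) ((Xq0_4).symm.trans (p.eq_comm'.1 e)))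
                        have Xn2_1 : p r2 ≠ l2 := (fun e => Xq1_2 (p.eq_comm'.1 e))
                        have Xn2_4 : p r2 ≠ t := (fun e => hlr2 ((Xr4).symm.trans (p.eq_comm'.1 e)))
                        exact case ![l, l2, r2, n, t, p l2, p r2] (inj7 hll2 hlr2 hln hlt (Ne.symm Xn1_0) (Ne.symm Xn2_0) hl2r2 hl2n hl2t (Ne.symm Xq1) (Ne.symm Xn2_1) hr2n hr2t (Ne.symm Xq1_2) (Ne.symm Xq2) hnt (Ne.symm Xq1_3) (Ne.symm Xq2_3) (Ne.symm Xn1_4) (Ne.symm Xn2_4) (fun e => hl2r2 (p.inj e))) P7_31 (by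
                          intro x; fin_cases x <;> simp [P7_31, Xq0_4, Xq3, Xr4]) 0 1 2 3 4 (fun F => t97 h F) F
                      · have Xn1_0 : p l2 ≠ l := (fun e => (Ne.symm hl2t) ((Xq0_4).symm.trans (p.eq_comm'.1 e)))
                        have Xn1_4 : p l2 ≠ t := (fun e => hll2 ((Xr4).symm.trans (p.eq_comm'.1 e)))
                        have Xn2_0 : p r2 ≠ l := (fun e => (Ne.symm hr2t) ((Xq0_4).symm.trans (p.eq_comm'.1 e)))
                        have Xn2_1 : p r2 ≠ l2 := (fun e => Xq1_2 (p.eq_comm'.1 e))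
                        have Xn2_4 : p r2 ≠ t := (fun e => hlr2 ((Xr4).symm.trans (p.eq_comm'.1 e)))
                        have Xn3_0 : p n ≠ l := (fun e => (Ne.symm hnt) ((Xq0_4).symm.trans (p.eq_comm'.1 e)))
                        have Xn3_1 : p n ≠ l2 := (fun e => Xq1_3 (p.eq_comm'.1 e))
                        have Xn3_2 : p n ≠ r2 := (fun e => Xq2_3 (p.eq_comm'.1 e))
                        have Xn3_4 : p n ≠ t := (fun e => hln ((Xr4).symm.trans (p.eq_comm'.1 e)))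
                        exact case ![l, l2, r2, n, t, p l2, p r2, p n] (inj8 hll2 hlr2 hln hlt (Ne.symm Xn1_0) (Ne.symm Xn2_0) (Ne.symm Xn3_0) hl2r2 hl2n hl2t (Ne.symm Xq1) (Ne.symm Xn2_1) (Ne.symm Xn3_1) hr2n hr2t (Ne.symm Xq1_2) (Ne.symm Xq2) (Ne.symm Xn3_2) hnt (Ne.symm Xq1_3) (Ne.symm Xq2_3) (Ne.symm Xq3) (Ne.symm Xn1_4) (Ne.symm Xn2_4) (Ne.symm Xn3_4) (fun e => hl2r2 (p.inj e)) (fun e => hl2n (p.inj e)) (fun e => hr2n (p.inj e))) P8_12 (by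
                          intro x; fin_cases x <;> simp [P8_12, Xq0_4, Xr4]) 0 1 2 3 4 (fun F => t98 h F) F
          · by_cases Xq1 : p l2 = l2
            · by_cases Xq2 : p r2 = r2
              · by_cases Xq3 : p n = n
                · by_cases Xq4 : p t = t
                  · exact case ![l, l2, r2, n, t, p l] (inj6 hll2 hlr2 hln hlt (Ne.symm Xq0) hl2r2 hl2n hl2t (Ne.symm Xq0_1) hr2n hr2t (Ne.symm Xq0_2) hnt (Ne.symm Xq0_3) (Ne.symm Xq0_4)) P6_17 (by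
                      intro x; fin_cases x <;> simp [P6_17, Xq1, Xq2, Xq3, Xq4]) 0 1 2 3 4 (fun F => t99 h F) F
                  · have Xn4_0 : p t ≠ l := (fun e => Xq0_4 (p.eq_comm'.1 e))
                    have Xn4_1 : p t ≠ l2 := (fun e => hl2t ((Xq1).symm.trans (p.eq_comm'.1 e)))
                    have Xn4_2 : p t ≠ r2 := (fun e => hr2t ((Xq2).symm.trans (p.eq_comm'.1 e)))
                    have Xn4_3 : p t ≠ n := (fun e => hnt ((Xq3).symm.trans (p.eq_comm'.1 e)))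
                    exact case ![l, l2, r2, n, t, p l, p t] (inj7 hll2 hlr2 hln hlt (Ne.symm Xq0) (Ne.symm Xn4_0) hl2r2 hl2n hl2t (Ne.symm Xq0_1) (Ne.symm Xn4_1) hr2n hr2t (Ne.symm Xq0_2) (Ne.symm Xn4_2) hnt (Ne.symm Xq0_3) (Ne.symm Xn4_3) (Ne.symm Xq0_4) (Ne.symm Xq4) (fun e => hlt (p.inj e))) P7_8 (by
                      intro x; fin_cases x <;> simp [P7_8, Xq1, Xq2, Xq3]) 0 1 2 3 4 (fun F => t100 h F) F
                · by_cases Xq3_4 : p n = t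
                  · have Xr4 : p t = n := p.eq_comm'.1 Xq3_4
                    exact case ![l, l2, r2, n, t, p l] (inj6 hll2 hlr2 hln hlt (Ne.symm Xq0) hl2r2 hl2n hl2t (Ne.symm Xq0_1) hr2n hr2t (Ne.symm Xq0_2) hnt (Ne.symm Xq0_3) (Ne.symm Xq0_4)) P6_31 (by
                      intro x; fin_cases x <;> simp [P6_31, Xq1, Xq2, Xq3_4, Xr4]) 0 1 2 3 4 (fun F => t101 h F) F
                  · by_cases Xq4 : p t = t
                    · have Xn3_0 : p n ≠ l := (fun e => Xq0_3 (p.eq_comm'.1 e))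
                      have Xn3_1 : p n ≠ l2 := (fun e => hl2n ((Xq1).symm.trans (p.eq_comm'.1 e)))
                      have Xn3_2 : p n ≠ r2 := (fun e => hr2n ((Xq2).symm.trans (p.eq_comm'.1 e)))
                      exact case ![l, l2, r2, n, t, p l, p n] (inj7 hll2 hlr2 hln hlt (Ne.symm Xq0) (Ne.symm Xn3_0) hl2r2 hl2n hl2t (Ne.symm Xq0_1) (Ne.symm Xn3_1) hr2n hr2t (Ne.symm Xq0_2) (Ne.symm Xn3_2) hnt (Ne.symm Xq0_3) (Ne.symm Xq3) (Ne.symm Xq0_4) (Ne.symm Xq3_4) (fun e => hln (p.inj e))) P7_39 (by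
                        intro x; fin_cases x <;> simp [P7_39, Xq1, Xq2, Xq4]) 0 1 2 3 4 (fun F => t102 h F) F
                    · have Xn3_0 : p n ≠ l := (fun e => Xq0_3 (p.eq_comm'.1 e))
                      have Xn3_1 : p n ≠ l2 := (fun e => hl2n ((Xq1).symm.trans (p.eq_comm'.1 e)))
                      have Xn3_2 : p n ≠ r2 := (fun e => hr2n ((Xq2).symm.trans (p.eq_comm'.1 e)))
                      have Xn4_0 : p t ≠ l := (fun e => Xq0_4 (p.eq_comm'.1 e))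
                      have Xn4_1 : p t ≠ l2 := (fun e => hl2t ((Xq1).symm.trans (p.eq_comm'.1 e)))
                      have Xn4_2 : p t ≠ r2 := (fun e => hr2t ((Xq2).symm.trans (p.eq_comm'.1 e)))
                      have Xn4_3 : p t ≠ n := (fun e => Xq3_4 (p.eq_comm'.1 e))
                      exact case ![l, l2, r2, n, t, p l, p n, p t] (inj8 hll2 hlr2 hln hlt (Ne.symm Xq0) (Ne.symm Xn3_0) (Ne.symm Xn4_0) hl2r2 hl2n hl2t (Ne.symm Xq0_1) (Ne.symm Xn3_1) (Ne.symm Xn4_1) hr2n hr2t (Ne.symm Xq0_2) (Ne.symm Xn3_2) (Ne.symm Xn4_2) hnt (Ne.symm Xq0_3) (Ne.symm Xq3) (Ne.symm Xn4_3) (Ne.symm Xq0_4) (Ne.symm Xq3_4) (Ne.symm Xq4) (fun e => hln (p.inj e)) (fun e => hlt (p.inj e)) (fun e => hnt (p.inj e))) P8_13 (by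
                        intro x; fin_cases x <;> simp [P8_13, Xq1, Xq2]) 0 1 2 3 4 (fun F => t103 h F) F
              · by_cases Xq2_3 : p r2 = n
                · have Xr3 : p n = r2 := p.eq_comm'.1 Xq2_3
                  by_cases Xq4 : p t = t
                  · exact case ![l, l2, r2, n, t, p l] (inj6 hll2 hlr2 hln hlt (Ne.symm Xq0) hl2r2 hl2n hl2t (Ne.symm Xq0_1) hr2n hr2t (Ne.symm Xq0_2) hnt (Ne.symm Xq0_3) (Ne.symm Xq0_4)) P6_44 (by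
                      intro x; fin_cases x <;> simp [P6_44, Xq1, Xq2_3, Xr3, Xq4]) 0 1 2 3 4 (fun F => t104 h F) F
                  · have Xn4_0 : p t ≠ l := (fun e => Xq0_4 (p.eq_comm'.1 e))
                    have Xn4_1 : p t ≠ l2 := (fun e => hl2t ((Xq1).symm.trans (p.eq_comm'.1 e)))
                    have Xn4_2 : p t ≠ r2 := (fun e => hnt ((Xq2_3).symm.trans (p.eq_comm'.1 e)))
                    have Xn4_3 : p t ≠ n := (fun e => hr2t ((Xr3).symm.trans (p.eq_comm'.1 e)))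
                    exact case ![l, l2, r2, n, t, p l, p t] (inj7 hll2 hlr2 hln hlt (Ne.symm Xq0) (Ne.symm Xn4_0) hl2r2 hl2n hl2t (Ne.symm Xq0_1) (Ne.symm Xn4_1) hr2n hr2t (Ne.symm Xq0_2) (Ne.symm Xn4_2) hnt (Ne.symm Xq0_3) (Ne.symm Xn4_3) (Ne.symm Xq0_4) (Ne.symm Xq4) (fun e => hlt (p.inj e))) P7_37 (by
                      intro x; fin_cases x <;> simp [P7_37, Xq1, Xq2_3, Xr3]) 0 1 2 3 4 (fun F => t105 h F) F
                · by_cases Xq2_4 : p r2 = t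
                  · have Xr4 : p t = r2 := p.eq_comm'.1 Xq2_4
                    by_cases Xq3 : p n = n
                    · exact case ![l, l2, r2, n, t, p l] (inj6 hll2 hlr2 hln hlt (Ne.symm Xq0) hl2r2 hl2n hl2t (Ne.symm Xq0_1) hr2n hr2t (Ne.symm Xq0_2) hnt (Ne.symm Xq0_3) (Ne.symm Xq0_4)) P6_19 (by
                        intro x; fin_cases x <;> simp [P6_19, Xq1, Xq2_4, Xq3, Xr4]) 0 1 2 3 4 (fun F => t106 h F) F
                    · have Xn3_0 : p n ≠ l := (fun e => Xq0_3 (p.eq_comm'.1 e))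
                      have Xn3_1 : p n ≠ l2 := (fun e => hl2n ((Xq1).symm.trans (p.eq_comm'.1 e)))
                      have Xn3_2 : p n ≠ r2 := (fun e => (Ne.symm hnt) ((Xq2_4).symm.trans (p.eq_comm'.1 e)))
                      have Xn3_4 : p n ≠ t := (fun e => hr2n ((Xr4).symm.trans (p.eq_comm'.1 e)))
                      exact case ![l, l2, r2, n, t, p l, p n] (inj7 hll2 hlr2 hln hlt (Ne.symm Xq0) (Ne.symm Xn3_0) hl2r2 hl2n hl2t (Ne.symm Xq0_1) (Ne.symm Xn3_1) hr2n hr2t (Ne.symm Xq0_2) (Ne.symm Xn3_2) hnt (Ne.symm Xq0_3) (Ne.symm Xq3) (Ne.symm Xq0_4) (Ne.symm Xn3_4) (fun e => hln (p.inj e))) P7_40 (by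
                        intro x; fin_cases x <;> simp [P7_40, Xq1, Xq2_4, Xr4]) 0 1 2 3 4 (fun F => t107 h F) F
                  · by_cases Xq3 : p n = n
                    · by_cases Xq4 : p t = t
                      · have Xn2_0 : p r2 ≠ l := (fun e => Xq0_2 (p.eq_comm'.1 e))
                        have Xn2_1 : p r2 ≠ l2 := (fun e => hl2r2 ((Xq1).symm.trans (p.eq_comm'.1 e)))
                        exact case ![l, l2, r2, n, t, p l, p r2] (inj7 hll2 hlr2 hln hlt (Ne.symm Xq0) (Ne.symm Xn2_0) hl2r2 hl2n hl2t (Ne.symm Xq0_1) (Ne.symm Xn2_1) hr2n hr2t (Ne.symm Xq0_2) (Ne.symm Xq2) hnt (Ne.symm Xq0_3) (Ne.symm Xq2_3) (Ne.symm Xq0_4) (Ne.symm Xq2_4) (fun e => hlr2 (p.inj e))) P7_17 (by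
                          intro x; fin_cases x <;> simp [P7_17, Xq1, Xq3, Xq4]) 0 1 2 3 4 (fun F => t108 h F) F
                      · have Xn2_0 : p r2 ≠ l := (fun e => Xq0_2 (p.eq_comm'.1 e))
                        have Xn2_1 : p r2 ≠ l2 := (fun e => hl2r2 ((Xq1).symm.trans (p.eq_comm'.1 e)))
                        have Xn4_0 : p t ≠ l := (fun e => Xq0_4 (p.eq_comm'.1 e))
                        have Xn4_1 : p t ≠ l2 := (fun e => hl2t ((Xq1).symm.trans (p.eq_comm'.1 e)))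
                        have Xn4_2 : p t ≠ r2 := (fun e => Xq2_4 (p.eq_comm'.1 e))
                        have Xn4_3 : p t ≠ n := (fun e => hnt ((Xq3).symm.trans (p.eq_comm'.1 e)))
                        exact case ![l, l2, r2, n, t, p l, p r2, p t] (inj8 hll2 hlr2 hln hlt (Ne.symm Xq0) (Ne.symm Xn2_0) (Ne.symm Xn4_0) hl2r2 hl2n hl2t (Ne.symm Xq0_1) (Ne.symm Xn2_1) (Ne.symm Xn4_1) hr2n hr2t (Ne.symm Xq0_2) (Ne.symm Xq2) (Ne.symm Xn4_2) hnt (Ne.symm Xq0_3) (Ne.symm Xq2_3) (Ne.symm Xn4_3) (Ne.symm Xq0_4) (Ne.symm Xq2_4) (Ne.symm Xq4) (fun e => hlr2 (p.inj e)) (fun e => hlt (p.inj e)) (fun e => hr2t (p.inj e))) P8_7 (by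
                          intro x; fin_cases x <;> simp [P8_7, Xq1, Xq3]) 0 1 2 3 4 (fun F => t109 h F) F
                    · by_cases Xq3_4 : p n = t
                      · have Xr4 : p t = n := p.eq_comm'.1 Xq3_4
                        have Xn2_0 : p r2 ≠ l := (fun e => Xq0_2 (p.eq_comm'.1 e))
                        have Xn2_1 : p r2 ≠ l2 := (fun e => hl2r2 ((Xq1).symm.trans (p.eq_comm'.1 e)))
                        exact case ![l, l2, r2, n, t, p l, p r2] (inj7 hll2 hlr2 hln hlt (Ne.symm Xq0) (Ne.symm Xn2_0) hl2r2 hl2n hl2t (Ne.symm Xq0_1) (Ne.symm Xn2_1) hr2n hr2t (Ne.symm Xq0_2) (Ne.symm Xq2) hnt (Ne.symm Xq0_3) (Ne.symm Xq2_3) (Ne.symm Xq0_4) (Ne.symm Xq2_4) (fun e => hlr2 (p.inj e))) P7_43 (by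
                          intro x; fin_cases x <;> simp [P7_43, Xq1, Xq3_4, Xr4]) 0 1 2 3 4 (fun F => t110 h F) F
                      · by_cases Xq4 : p t = t
                        · have Xn2_0 : p r2 ≠ l := (fun e => Xq0_2 (p.eq_comm'.1 e))
                          have Xn2_1 : p r2 ≠ l2 := (fun e => hl2r2 ((Xq1).symm.trans (p.eq_comm'.1 e)))
                          have Xn3_0 : p n ≠ l := (fun e => Xq0_3 (p.eq_comm'.1 e))
                          have Xn3_1 : p n ≠ l2 := (fun e => hl2n ((Xq1).symm.trans (p.eq_comm'.1 e)))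
                          have Xn3_2 : p n ≠ r2 := (fun e => Xq2_3 (p.eq_comm'.1 e))
                          exact case ![l, l2, r2, n, t, p l, p r2, p n] (inj8 hll2 hlr2 hln hlt (Ne.symm Xq0) (Ne.symm Xn2_0) (Ne.symm Xn3_0) hl2r2 hl2n hl2t (Ne.symm Xq0_1) (Ne.symm Xn2_1) (Ne.symm Xn3_1) hr2n hr2t (Ne.symm Xq0_2) (Ne.symm Xq2) (Ne.symm Xn3_2) hnt (Ne.symm Xq0_3) (Ne.symm Xq2_3) (Ne.symm Xq3) (Ne.symm Xq0_4) (Ne.symm Xq2_4) (Ne.symm Xq3_4) (fun e => hlr2 (p.inj e)) (fun e => hln (p.inj e)) (fun e => hr2n (p.inj e))) P8_16 (by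
                            intro x; fin_cases x <;> simp [P8_16, Xq1, Xq4]) 0 1 2 3 4 (fun F => t111 h F) F
                        · have Xn2_0 : p r2 ≠ l := (fun e => Xq0_2 (p.eq_comm'.1 e))
                          have Xn2_1 : p r2 ≠ l2 := (fun e => hl2r2 ((Xq1).symm.trans (p.eq_comm'.1 e)))
                          have Xn3_0 : p n ≠ l := (fun e => Xq0_3 (p.eq_comm'.1 e))
                          have Xn3_1 : p n ≠ l2 := (fun e => hl2n ((Xq1).symm.trans (p.eq_comm'.1 e)))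
                          have Xn3_2 : p n ≠ r2 := (fun e => Xq2_3 (p.eq_comm'.1 e))
                          have Xn4_0 : p t ≠ l := (fun e => Xq0_4 (p.eq_comm'.1 e))
                          have Xn4_1 : p t ≠ l2 := (fun e => hl2t ((Xq1).symm.trans (p.eq_comm'.1 e)))
                          have Xn4_2 : p t ≠ r2 := (fun e => Xq2_4 (p.eq_comm'.1 e))
                          have Xn4_3 : p t ≠ n := (fun e => Xq3_4 (p.eq_comm'.1 e))
                          exact case ![l, l2, r2, n, t, p l, p r2, p n, p t] (inj9 hll2 hlr2 hln hlt (Ne.symm Xq0) (Ne.symm Xn2_0) (Ne.symm Xn3_0) (Ne.symm Xn4_0) hl2r2 hl2n hl2t (Ne.symm Xq0_1) (Ne.symm Xn2_1) (Ne.symm Xn3_1) (Ne.symm Xn4_1) hr2n hr2t (Ne.symm Xq0_2) (Ne.symm Xq2) (Ne.symm Xn3_2) (Ne.symm Xn4_2) hnt (Ne.symm Xq0_3) (Ne.symm Xq2_3) (Ne.symm Xq3) (Ne.symm Xn4_3) (Ne.symm Xq0_4) (Ne.symm Xq2_4) (Ne.symm Xq3_4) (Ne.symm Xq4) (fun e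 => hlr2 (p.inj e)) (fun e => hln (p.inj e)) (fun e => hlt (p.inj e)) (fun e => hr2n (p.inj e)) (fun e => hr2t (p.inj e)) (fun e => hnt (p.inj e))) P9_1 (by
                            intro x; fin_cases x <;> simp [P9_1, Xq1]) 0 1 2 3 4 (fun F => t112 h F) F
            · by_cases Xq1_2 : p l2 = r2
              · have Xr2 : p r2 = l2 := p.eq_comm'.1 Xq1_2
                by_cases Xq3 : p n = n
                · by_cases Xq4 : p t = t
                  · exact case ![l, l2, r2, n, t, p l] (inj6 hll2 hlr2 hln hlt (Ne.symm Xq0) hl2r2 hl2n hl2t (Ne.symm Xq0_1) hr2n hr2t (Ne.symm Xq0_2) hnt (Ne.symm Xq0_3) (Ne.symm Xq0_4)) P6_45 (by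
                      intro x; fin_cases x <;> simp [P6_45, Xq1_2, Xr2, Xq3, Xq4]) 0 1 2 3 4 (fun F => t113 h F) F
                  · have Xn4_0 : p t ≠ l := (fun e => Xq0_4 (p.eq_comm'.1 e))
                    have Xn4_1 : p t ≠ l2 := (fun e => hr2t ((Xq1_2).symm.trans (p.eq_comm'.1 e)))
                    have Xn4_2 : p t ≠ r2 := (fun e => hl2t ((Xr2).symm.trans (p.eq_comm'.1 e)))
                    have Xn4_3 : p t ≠ n := (fun e => hnt ((Xq3).symm.trans (p.eq_comm'.1 e)))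
                    exact case ![l, l2, r2, n, t, p l, p t] (inj7 hll2 hlr2 hln hlt (Ne.symm Xq0) (Ne.symm Xn4_0) hl2r2 hl2n hl2t (Ne.symm Xq0_1) (Ne.symm Xn4_1) hr2n hr2t (Ne.symm Xq0_2) (Ne.symm Xn4_2) hnt (Ne.symm Xq0_3) (Ne.symm Xn4_3) (Ne.symm Xq0_4) (Ne.symm Xq4) (fun e => hlt (p.inj e))) P7_38 (by
                      intro x; fin_cases x <;> simp [P7_38, Xq1_2, Xr2, Xq3]) 0 1 2 3 4 (fun F => t114 h F) F
                · by_cases Xq3_4 : p n = t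
                  · have Xr4 : p t = n := p.eq_comm'.1 Xq3_4
                    exact case ![l, l2, r2, n, t, p l] (inj6 hll2 hlr2 hln hlt (Ne.symm Xq0) hl2r2 hl2n hl2t (Ne.symm Xq0_1) hr2n hr2t (Ne.symm Xq0_2) hnt (Ne.symm Xq0_3) (Ne.symm Xq0_4)) P6_48 (by
                      intro x; fin_cases x <;> simp [P6_48, Xq1_2, Xr2, Xq3_4, Xr4]) 0 1 2 3 4 (fun F => t115 h F) F
                  · by_cases Xq4 : p t = t
                    · have Xn3_0 : p n ≠ l := (fun e => Xq0_3 (p.eq_comm'.1 e))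
                      have Xn3_1 : p n ≠ l2 := (fun e => hr2n ((Xq1_2).symm.trans (p.eq_comm'.1 e)))
                      have Xn3_2 : p n ≠ r2 := (fun e => hl2n ((Xr2).symm.trans (p.eq_comm'.1 e)))
                      exact case ![l, l2, r2, n, t, p l, p n] (inj7 hll2 hlr2 hln hlt (Ne.symm Xq0) (Ne.symm Xn3_0) hl2r2 hl2n hl2t (Ne.symm Xq0_1) (Ne.symm Xn3_1) hr2n hr2t (Ne.symm Xq0_2) (Ne.symm Xn3_2) hnt (Ne.symm Xq0_3) (Ne.symm Xq3) (Ne.symm Xq0_4) (Ne.symm Xq3_4) (fun e => hln (p.inj e))) P7_44 (by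
                        intro x; fin_cases x <;> simp [P7_44, Xq1_2, Xr2, Xq4]) 0 1 2 3 4 (fun F => t116 h F) F
                    · have Xn3_0 : p n ≠ l := (fun e => Xq0_3 (p.eq_comm'.1 e))
                      have Xn3_1 : p n ≠ l2 := (fun e => hr2n ((Xq1_2).symm.trans (p.eq_comm'.1 e)))
                      have Xn3_2 : p n ≠ r2 := (fun e => hl2n ((Xr2).symm.trans (p.eq_comm'.1 e)))
                      have Xn4_0 : p t ≠ l := (fun e => Xq0_4 (p.eq_comm'.1 e))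
                      have Xn4_1 : p t ≠ l2 := (fun e => hr2t ((Xq1_2).symm.trans (p.eq_comm'.1 e)))
                      have Xn4_2 : p t ≠ r2 := (fun e => hl2t ((Xr2).symm.trans (p.eq_comm'.1 e)))
                      have Xn4_3 : p t ≠ n := (fun e => Xq3_4 (p.eq_comm'.1 e))
                      exact case ![l, l2, r2, n, t, p l, p n, p t] (inj8 hll2 hlr2 hln hlt (Ne.symm Xq0) (Ne.symm Xn3_0) (Ne.symm Xn4_0) hl2r2 hl2n hl2t (Ne.symm Xq0_1) (Ne.symm Xn3_1) (Ne.symm Xn4_1) hr2n hr2t (Ne.symm Xq0_2) (Ne.symm Xn3_2) (Ne.symm Xn4_2) hnt (Ne.symm Xq0_3) (Ne.symm Xq3) (Ne.symm Xn4_3) (Ne.symm Xq0_4) (Ne.symm Xq3_4) (Ne.symm Xq4) (fun e => hln (p.inj e)) (fun e => hlt (p.inj e)) (fun e => hnt (p.inj e))) P8_17 (by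
                        intro x; fin_cases x <;> simp [P8_17, Xq1_2, Xr2]) 0 1 2 3 4 (fun F => t117 h F) F
              · by_cases Xq1_3 : p l2 = n
                · have Xr3 : p n = l2 := p.eq_comm'.1 Xq1_3
                  by_cases Xq2 : p r2 = r2
                  · by_cases Xq4 : p t = t
                    · exact case ![l, l2, r2, n, t, p l] (inj6 hll2 hlr2 hln hlt (Ne.symm Xq0) hl2r2 hl2n hl2t (Ne.symm Xq0_1) hr2n hr2t (Ne.symm Xq0_2) hnt (Ne.symm Xq0_3) (Ne.symm Xq0_4)) P6_29 (by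
                        intro x; fin_cases x <;> simp [P6_29, Xq1_3, Xq2, Xr3, Xq4]) 0 1 2 3 4 (fun F => t118 h F) F
                    · have Xn4_0 : p t ≠ l := (fun e => Xq0_4 (p.eq_comm'.1 e))
                      have Xn4_1 : p t ≠ l2 := (fun e => hnt ((Xq1_3).symm.trans (p.eq_comm'.1 e)))
                      have Xn4_2 : p t ≠ r2 := (fun e => hr2t ((Xq2).symm.trans (p.eq_comm'.1 e)))
                      have Xn4_3 : p t ≠ n := (fun e => hl2t ((Xr3).symm.trans (p.eq_comm'.1 e)))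
                      exact case ![l, l2, r2, n, t, p l, p t] (inj7 hll2 hlr2 hln hlt (Ne.symm Xq0) (Ne.symm Xn4_0) hl2r2 hl2n hl2t (Ne.symm Xq0_1) (Ne.symm Xn4_1) hr2n hr2t (Ne.symm Xq0_2) (Ne.symm Xn4_2) hnt (Ne.symm Xq0_3) (Ne.symm Xn4_3) (Ne.symm Xq0_4) (Ne.symm Xq4) (fun e => hlt (p.inj e))) P7_22 (by
                        intro x; fin_cases x <;> simp [P7_22, Xq1_3, Xq2, Xr3]) 0 1 2 3 4 (fun F => t119 h F) F
                  · by_cases Xq2_4 : p r2 = t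
                    · have Xr4 : p t = r2 := p.eq_comm'.1 Xq2_4
                      exact case ![l, l2, r2, n, t, p l] (inj6 hll2 hlr2 hln hlt (Ne.symm Xq0) hl2r2 hl2n hl2t (Ne.symm Xq0_1) hr2n hr2t (Ne.symm Xq0_2) hnt (Ne.symm Xq0_3) (Ne.symm Xq0_4)) P6_47 (by
                        intro x; fin_cases x <;> simp [P6_47, Xq1_3, Xq2_4, Xr3, Xr4]) 0 1 2 3 4 (fun F => t120 h F) F
                    · by_cases Xq4 : p t = t
                      · have Xn2_0 : p r2 ≠ l := (fun e => Xq0_2 (p.eq_comm'.1 e))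
                        have Xn2_1 : p r2 ≠ l2 := (fun e => (Ne.symm hr2n) ((Xq1_3).symm.trans (p.eq_comm'.1 e)))
                        have Xn2_3 : p r2 ≠ n := (fun e => hl2r2 ((Xr3).symm.trans (p.eq_comm'.1 e)))
                        exact case ![l, l2, r2, n, t, p l, p r2] (inj7 hll2 hlr2 hln hlt (Ne.symm Xq0) (Ne.symm Xn2_0) hl2r2 hl2n hl2t (Ne.symm Xq0_1) (Ne.symm Xn2_1) hr2n hr2t (Ne.symm Xq0_2) (Ne.symm Xq2) hnt (Ne.symm Xq0_3) (Ne.symm Xn2_3) (Ne.symm Xq0_4) (Ne.symm Xq2_4) (fun e => hlr2 (p.inj e))) P7_42 (by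
                          intro x; fin_cases x <;> simp [P7_42, Xq1_3, Xr3, Xq4]) 0 1 2 3 4 (fun F => t121 h F) F
                      · have Xn2_0 : p r2 ≠ l := (fun e => Xq0_2 (p.eq_comm'.1 e))
                        have Xn2_1 : p r2 ≠ l2 := (fun e => (Ne.symm hr2n) ((Xq1_3).symm.trans (p.eq_comm'.1 e)))
                        have Xn2_3 : p r2 ≠ n := (fun e => hl2r2 ((Xr3).symm.trans (p.eq_comm'.1 e)))
                        have Xn4_0 : p t ≠ l := (fun e => Xq0_4 (p.eq_comm'.1 e))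
                        have Xn4_1 : p t ≠ l2 := (fun e => hnt ((Xq1_3).symm.trans (p.eq_comm'.1 e)))
                        have Xn4_2 : p t ≠ r2 := (fun e => Xq2_4 (p.eq_comm'.1 e))
                        have Xn4_3 : p t ≠ n := (fun e => hl2t ((Xr3).symm.trans (p.eq_comm'.1 e)))
                        exact case ![l, l2, r2, n, t, p l, p r2, p t] (inj8 hll2 hlr2 hln hlt (Ne.symm Xq0) (Ne.symm Xn2_0) (Ne.symm Xn4_0) hl2r2 hl2n hl2t (Ne.symm Xq0_1) (Ne.symm Xn2_1) (Ne.symm Xn4_1) hr2n hr2t (Ne.symm Xq0_2) (Ne.symm Xq2) (Ne.symm Xn4_2) hnt (Ne.symm Xq0_3) (Ne.symm Xn2_3) (Ne.symm Xn4_3) (Ne.symm Xq0_4) (Ne.symm Xq2_4) (Ne.symm Xq4) (fun e => hlr2 (p.inj e)) (fun e => hlt (p.inj e)) (fun e => hr2t (p.inj e))) P8_15 (by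
                          intro x; fin_cases x <;> simp [P8_15, Xq1_3, Xr3]) 0 1 2 3 4 (fun F => t122 h F) F
                · by_cases Xq1_4 : p l2 = t
                  · have Xr4 : p t = l2 := p.eq_comm'.1 Xq1_4
                    by_cases Xq2 : p r2 = r2
                    · by_cases Xq3 : p n = n
                      · exact case ![l, l2, r2, n, t, p l] (inj6 hll2 hlr2 hln hlt (Ne.symm Xq0) hl2r2 hl2n hl2t (Ne.symm Xq0_1) hr2n hr2t (Ne.symm Xq0_2) hnt (Ne.symm Xq0_3) (Ne.symm Xq0_4)) P6_46 (by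
                          intro x; fin_cases x <;> simp [P6_46, Xq1_4, Xq2, Xq3, Xr4]) 0 1 2 3 4 (fun F => t123 h F) F
                      · have Xn3_0 : p n ≠ l := (fun e => Xq0_3 (p.eq_comm'.1 e))
                        have Xn3_1 : p n ≠ l2 := (fun e => (Ne.symm hnt) ((Xq1_4).symm.trans (p.eq_comm'.1 e)))
                        have Xn3_2 : p n ≠ r2 := (fun e => hr2n ((Xq2).symm.trans (p.eq_comm'.1 e)))
                        have Xn3_4 : p n ≠ t := (fun e => hl2n ((Xr4).symm.trans (p.eq_comm'.1 e)))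
                        exact case ![l, l2, r2, n, t, p l, p n] (inj7 hll2 hlr2 hln hlt (Ne.symm Xq0) (Ne.symm Xn3_0) hl2r2 hl2n hl2t (Ne.symm Xq0_1) (Ne.symm Xn3_1) hr2n hr2t (Ne.symm Xq0_2) (Ne.symm Xn3_2) hnt (Ne.symm Xq0_3) (Ne.symm Xq3) (Ne.symm Xq0_4) (Ne.symm Xn3_4) (fun e => hln (p.inj e))) P7_45 (by
                          intro x; fin_cases x <;> simp [P7_45, Xq1_4, Xq2, Xr4]) 0 1 2 3 4 (fun F => t124 h F) F
                    · by_cases Xq2_3 : p r2 = n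
                      · have Xr3 : p n = r2 := p.eq_comm'.1 Xq2_3
                        exact case ![l, l2, r2, n, t, p l] (inj6 hll2 hlr2 hln hlt (Ne.symm Xq0) hl2r2 hl2n hl2t (Ne.symm Xq0_1) hr2n hr2t (Ne.symm Xq0_2) hnt (Ne.symm Xq0_3) (Ne.symm Xq0_4)) P6_49 (by
                          intro x; fin_cases x <;> simp [P6_49, Xq1_4, Xq2_3, Xr3, Xr4]) 0 1 2 3 4 (fun F => t125 h F) F
                      · by_cases Xq3 : p n = n
                        · have Xn2_0 : p r2 ≠ l := (fun e => Xq0_2 (p.eq_comm'.1 e))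
                          have Xn2_1 : p r2 ≠ l2 := (fun e => (Ne.symm hr2t) ((Xq1_4).symm.trans (p.eq_comm'.1 e)))
                          have Xn2_4 : p r2 ≠ t := (fun e => hl2r2 ((Xr4).symm.trans (p.eq_comm'.1 e)))
                          exact case ![l, l2, r2, n, t, p l, p r2] (inj7 hll2 hlr2 hln hlt (Ne.symm Xq0) (Ne.symm Xn2_0) hl2r2 hl2n hl2t (Ne.symm Xq0_1) (Ne.symm Xn2_1) hr2n hr2t (Ne.symm Xq0_2) (Ne.symm Xq2) hnt (Ne.symm Xq0_3) (Ne.symm Xq2_3) (Ne.symm Xq0_4) (Ne.symm Xn2_4) (fun e => hlr2 (p.inj e))) P7_46 (by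
                            intro x; fin_cases x <;> simp [P7_46, Xq1_4, Xq3, Xr4]) 0 1 2 3 4 (fun F => t126 h F) F
                        · have Xn2_0 : p r2 ≠ l := (fun e => Xq0_2 (p.eq_comm'.1 e))
                          have Xn2_1 : p r2 ≠ l2 := (fun e => (Ne.symm hr2t) ((Xq1_4).symm.trans (p.eq_comm'.1 e)))
                          have Xn2_4 : p r2 ≠ t := (fun e => hl2r2 ((Xr4).symm.trans (p.eq_comm'.1 e)))
                          have Xn3_0 : p n ≠ l := (fun e => Xq0_3 (p.eq_comm'.1 e))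
                          have Xn3_1 : p n ≠ l2 := (fun e => (Ne.symm hnt) ((Xq1_4).symm.trans (p.eq_comm'.1 e)))
                          have Xn3_2 : p n ≠ r2 := (fun e => Xq2_3 (p.eq_comm'.1 e))
                          have Xn3_4 : p n ≠ t := (fun e => hl2n ((Xr4).symm.trans (p.eq_comm'.1 e)))
                          exact case ![l, l2, r2, n, t, p l, p r2, p n] (inj8 hll2 hlr2 hln hlt (Ne.symm Xq0) (Ne.symm Xn2_0) (Ne.symm Xn3_0) hl2r2 hl2n hl2t (Ne.symm Xq0_1) (Ne.symm Xn2_1) (Ne.symm Xn3_1) hr2n hr2t (Ne.symm Xq0_2) (Ne.symm Xq2) (Ne.symm Xn3_2) hnt (Ne.symm Xq0_3) (Ne.symm Xq2_3) (Ne.symm Xq3) (Ne.symm Xq0_4) (Ne.symm Xn2_4) (Ne.symm Xn3_4) (fun e => hlr2 (p.inj e)) (fun e => hln (p.inj e)) (fun e => hr2n (p.inj e))) P8_18 (by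
                            intro x; fin_cases x <;> simp [P8_18, Xq1_4, Xr4]) 0 1 2 3 4 (fun F => t127 h F) F
                  · by_cases Xq2 : p r2 = r2
                    · by_cases Xq3 : p n = n
                      · by_cases Xq4 : p t = t
                        · have Xn1_0 : p l2 ≠ l := (fun e => Xq0_1 (p.eq_comm'.1 e))
                          exact case ![l, l2, r2, n, t, p l, p l2] (inj7 hll2 hlr2 hln hlt (Ne.symm Xq0) (Ne.symm Xn1_0) hl2r2 hl2n hl2t (Ne.symm Xq0_1) (Ne.symm Xq1) hr2n hr2t (Ne.symm Xq0_2) (Ne.symm Xq1_2) hnt (Ne.symm Xq0_3) (Ne.symm Xq1_3) (Ne.symm Xq0_4) (Ne.symm Xq1_4) (fun e => hll2 (p.inj e))) P7_41 (by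
                            intro x; fin_cases x <;> simp [P7_41, Xq2, Xq3, Xq4]) 0 1 2 3 4 (fun F => t128 h F) F
                        · have Xn1_0 : p l2 ≠ l := (fun e => Xq0_1 (p.eq_comm'.1 e))
                          have Xn4_0 : p t ≠ l := (fun e => Xq0_4 (p.eq_comm'.1 e))
                          have Xn4_1 : p t ≠ l2 := (fun e => Xq1_4 (p.eq_comm'.1 e))
                          have Xn4_2 : p t ≠ r2 := (fun e => hr2t ((Xq2).symm.trans (p.eq_comm'.1 e)))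
                          have Xn4_3 : p t ≠ n := (fun e => hnt ((Xq3).symm.trans (p.eq_comm'.1 e)))
                          exact case ![l, l2, r2, n, t, p l, p l2, p t] (inj8 hll2 hlr2 hln hlt (Ne.symm Xq0) (Ne.symm Xn1_0) (Ne.symm Xn4_0) hl2r2 hl2n hl2t (Ne.symm Xq0_1) (Ne.symm Xq1) (Ne.symm Xn4_1) hr2n hr2t (Ne.symm Xq0_2) (Ne.symm Xq1_2) (Ne.symm Xn4_2) hnt (Ne.symm Xq0_3) (Ne.symm Xq1_3) (Ne.symm Xn4_3) (Ne.symm Xq0_4) (Ne.symm Xq1_4) (Ne.symm Xq4) (fun e => hll2 (p.inj e)) (fun e => hlt (p.inj e)) (fun e => hl2t (p.inj e))) P8_14 (by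
                            intro x; fin_cases x <;> simp [P8_14, Xq2, Xq3]) 0 1 2 3 4 (fun F => t129 h F) F
                      · by_cases Xq3_4 : p n = t
                        · have Xr4 : p t = n := p.eq_comm'.1 Xq3_4
                          have Xn1_0 : p l2 ≠ l := (fun e => Xq0_1 (p.eq_comm'.1 e))
                          exact case ![l, l2, r2, n, t, p l, p l2] (inj7 hll2 hlr2 hln hlt (Ne.symm Xq0) (Ne.symm Xn1_0) hl2r2 hl2n hl2t (Ne.symm Xq0_1) (Ne.symm Xq1) hr2n hr2t (Ne.symm Xq0_2) (Ne.symm Xq1_2) hnt (Ne.symm Xq0_3) (Ne.symm Xq1_3) (Ne.symm Xq0_4) (Ne.symm Xq1_4) (fun e => hll2 (p.inj e))) P7_47 (by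
                            intro x; fin_cases x <;> simp [P7_47, Xq2, Xq3_4, Xr4]) 0 1 2 3 4 (fun F => t130 h F) F
                        · by_cases Xq4 : p t = t
                          · have Xn1_0 : p l2 ≠ l := (fun e => Xq0_1 (p.eq_comm'.1 e))
                            have Xn3_0 : p n ≠ l := (fun e => Xq0_3 (p.eq_comm'.1 e))
                            have Xn3_1 : p n ≠ l2 := (fun e => Xq1_3 (p.eq_comm'.1 e))
                            have Xn3_2 : p n ≠ r2 := (fun e => hr2n ((Xq2).symm.trans (p.eq_comm'.1 e)))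
                            exact case ![l, l2, r2, n, t, p l, p l2, p n] (inj8 hll2 hlr2 hln hlt (Ne.symm Xq0) (Ne.symm Xn1_0) (Ne.symm Xn3_0) hl2r2 hl2n hl2t (Ne.symm Xq0_1) (Ne.symm Xq1) (Ne.symm Xn3_1) hr2n hr2t (Ne.symm Xq0_2) (Ne.symm Xq1_2) (Ne.symm Xn3_2) hnt (Ne.symm Xq0_3) (Ne.symm Xq1_3) (Ne.symm Xq3) (Ne.symm Xq0_4) (Ne.symm Xq1_4) (Ne.symm Xq3_4) (fun e => hll2 (p.inj e)) (fun e => hln (p.inj e)) (fun e => hl2n (p.inj e))) P8_20 (by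
                              intro x; fin_cases x <;> simp [P8_20, Xq2, Xq4]) 0 1 2 3 4 (fun F => t131 h F) F
                          · have Xn1_0 : p l2 ≠ l := (fun e => Xq0_1 (p.eq_comm'.1 e))
                            have Xn3_0 : p n ≠ l := (fun e => Xq0_3 (p.eq_comm'.1 e))
                            have Xn3_1 : p n ≠ l2 := (fun e => Xq1_3 (p.eq_comm'.1 e))
                            have Xn3_2 : p n ≠ r2 := (fun e => hr2n ((Xq2).symm.trans (p.eq_comm'.1 e)))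
                            have Xn4_0 : p t ≠ l := (fun e => Xq0_4 (p.eq_comm'.1 e))
                            have Xn4_1 : p t ≠ l2 := (fun e => Xq1_4 (p.eq_comm'.1 e))
                            have Xn4_2 : p t ≠ r2 := (fun e => hr2t ((Xq2).symm.trans (p.eq_comm'.1 e)))
                            have Xn4_3 : p t ≠ n := (fun e => Xq3_4 (p.eq_comm'.1 e))
                            exact case ![l, l2, r2, n, t, p l, p l2, p n, p t] (inj9 hll2 hlr2 hln hlt (Ne.symm Xq0) (Ne.symm Xn1_0) (Ne.symm Xn3_0) (Ne.symm Xn4_0) hl2r2 hl2n hl2t (Ne.symm Xq0_1) (Ne.symm Xq1) (Ne.symm Xn3_1) (Ne.symm Xn4_1) hr2n hr2t (Ne.symm Xq0_2) (Ne.symm Xq1_2) (Ne.symm Xn3_2) (Ne.symm Xn4_2) hnt (Ne.symm Xq0_3) (Ne.symm Xq1_3) (Ne.symm Xq3) (Ne.symm Xn4_3) (Ne.symm Xq0_4) (Ne.symm Xq1_4) (Ne.symm Xq3_4) (Ne.symm Xq4) (fun e => hll2 (p.inj e)) (fun e => hln (p.inj e)) (fun e => hlt (p.inj e)) (fun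 e => hl2n (p.inj e)) (fun e => hl2t (p.inj e)) (fun e => hnt (p.inj e))) P9_2 (by
                              intro x; fin_cases x <;> simp [P9_2, Xq2]) 0 1 2 3 4 (fun F => t132 h F) F
                    · by_cases Xq2_3 : p r2 = n
                      · have Xr3 : p n = r2 := p.eq_comm'.1 Xq2_3
                        by_cases Xq4 : p t = t
                        · have Xn1_0 : p l2 ≠ l := (fun e => Xq0_1 (p.eq_comm'.1 e))
                          exact case ![l, l2, r2, n, t, p l, p l2] (inj7 hll2 hlr2 hln hlt (Ne.symm Xq0) (Ne.symm Xn1_0) hl2r2 hl2n hl2t (Ne.symm Xq0_1) (Ne.symm Xq1) hr2n hr2t (Ne.symm Xq0_2) (Ne.symm Xq1_2) hnt (Ne.symm Xq0_3) (Ne.symm Xq1_3) (Ne.symm Xq0_4) (Ne.symm Xq1_4) (fun e => hll2 (p.inj e))) P7_48 (by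
                            intro x; fin_cases x <;> simp [P7_48, Xq2_3, Xr3, Xq4]) 0 1 2 3 4 (fun F => t133 h F) F
                        · have Xn1_0 : p l2 ≠ l := (fun e => Xq0_1 (p.eq_comm'.1 e))
                          have Xn4_0 : p t ≠ l := (fun e => Xq0_4 (p.eq_comm'.1 e))
                          have Xn4_1 : p t ≠ l2 := (fun e => Xq1_4 (p.eq_comm'.1 e))
                          have Xn4_2 : p t ≠ r2 := (fun e => hnt ((Xq2_3).symm.trans (p.eq_comm'.1 e)))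
                          have Xn4_3 : p t ≠ n := (fun e => hr2t ((Xr3).symm.trans (p.eq_comm'.1 e)))
                          exact case ![l, l2, r2, n, t, p l, p l2, p t] (inj8 hll2 hlr2 hln hlt (Ne.symm Xq0) (Ne.symm Xn1_0) (Ne.symm Xn4_0) hl2r2 hl2n hl2t (Ne.symm Xq0_1) (Ne.symm Xq1) (Ne.symm Xn4_1) hr2n hr2t (Ne.symm Xq0_2) (Ne.symm Xq1_2) (Ne.symm Xn4_2) hnt (Ne.symm Xq0_3) (Ne.symm Xq1_3) (Ne.symm Xn4_3) (Ne.symm Xq0_4) (Ne.symm Xq1_4) (Ne.symm Xq4) (fun e => hll2 (p.inj e)) (fun e => hlt (p.inj e)) (fun e => hl2t (p.inj e))) P8_19 (by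
                            intro x; fin_cases x <;> simp [P8_19, Xq2_3, Xr3]) 0 1 2 3 4 (fun F => t134 h F) F
                      · by_cases Xq2_4 : p r2 = t
                        · have Xr4 : p t = r2 := p.eq_comm'.1 Xq2_4
                          by_cases Xq3 : p n = n
                          · have Xn1_0 : p l2 ≠ l := (fun e => Xq0_1 (p.eq_comm'.1 e))
                            exact case ![l, l2, r2, n, t, p l, p l2] (inj7 hll2 hlr2 hln hlt (Ne.symm Xq0) (Ne.symm Xn1_0) hl2r2 hl2n hl2t (Ne.symm Xq0_1) (Ne.symm Xq1) hr2n hr2t (Ne.symm Xq0_2) (Ne.symm Xq1_2) hnt (Ne.symm Xq0_3) (Ne.symm Xq1_3) (Ne.symm Xq0_4) (Ne.symm Xq1_4) (fun e => hll2 (p.inj e))) P7_49 (by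
                              intro x; fin_cases x <;> simp [P7_49, Xq2_4, Xq3, Xr4]) 0 1 2 3 4 (fun F => t135 h F) F
                          · have Xn1_0 : p l2 ≠ l := (fun e => Xq0_1 (p.eq_comm'.1 e))
                            have Xn3_0 : p n ≠ l := (fun e => Xq0_3 (p.eq_comm'.1 e))
                            have Xn3_1 : p n ≠ l2 := (fun e => Xq1_3 (p.eq_comm'.1 e))
                            have Xn3_2 : p n ≠ r2 := (fun e => (Ne.symm hnt) ((Xq2_4).symm.trans (p.eq_comm'.1 e)))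
                            have Xn3_4 : p n ≠ t := (fun e => hr2n ((Xr4).symm.trans (p.eq_comm'.1 e)))
                            exact case ![l, l2, r2, n, t, p l, p l2, p n] (inj8 hll2 hlr2 hln hlt (Ne.symm Xq0) (Ne.symm Xn1_0) (Ne.symm Xn3_0) hl2r2 hl2n hl2t (Ne.symm Xq0_1) (Ne.symm Xq1) (Ne.symm Xn3_1) hr2n hr2t (Ne.symm Xq0_2) (Ne.symm Xq1_2) (Ne.symm Xn3_2) hnt (Ne.symm Xq0_3) (Ne.symm Xq1_3) (Ne.symm Xq3) (Ne.symm Xq0_4) (Ne.symm Xq1_4) (Ne.symm Xn3_4) (fun e => hll2 (p.inj e)) (fun e => hln (p.inj e)) (fun e => hl2n (p.inj e))) P8_21 (by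
                              intro x; fin_cases x <;> simp [P8_21, Xq2_4, Xr4]) 0 1 2 3 4 (fun F => t136 h F) F
                        · by_cases Xq3 : p n = n
                          · by_cases Xq4 : p t = t
                            · have Xn1_0 : p l2 ≠ l := (fun e => Xq0_1 (p.eq_comm'.1 e))
                              have Xn2_0 : p r2 ≠ l := (fun e => Xq0_2 (p.eq_comm'.1 e))
                              have Xn2_1 : p r2 ≠ l2 := (fun e => Xq1_2 (p.eq_comm'.1 e))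
                              exact case ![l, l2, r2, n, t, p l, p l2, p r2] (inj8 hll2 hlr2 hln hlt (Ne.symm Xq0) (Ne.symm Xn1_0) (Ne.symm Xn2_0) hl2r2 hl2n hl2t (Ne.symm Xq0_1) (Ne.symm Xq1) (Ne.symm Xn2_1) hr2n hr2t (Ne.symm Xq0_2) (Ne.symm Xq1_2) (Ne.symm Xq2) hnt (Ne.symm Xq0_3) (Ne.symm Xq1_3) (Ne.symm Xq2_3) (Ne.symm Xq0_4) (Ne.symm Xq1_4) (Ne.symm Xq2_4) (fun e => hll2 (p.inj e)) (fun e => hlr2 (p.inj e)) (fun e => hl2r2 (p.inj e))) P8_22 (by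
                                intro x; fin_cases x <;> simp [P8_22, Xq3, Xq4]) 0 1 2 3 4 (fun F => t137 h F) F
                            · have Xn1_0 : p l2 ≠ l := (fun e => Xq0_1 (p.eq_comm'.1 e))
                              have Xn2_0 : p r2 ≠ l := (fun e => Xq0_2 (p.eq_comm'.1 e))
                              have Xn2_1 : p r2 ≠ l2 := (fun e => Xq1_2 (p.eq_comm'.1 e))
                              have Xn4_0 : p t ≠ l := (fun e => Xq0_4 (p.eq_comm'.1 e))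
                              have Xn4_1 : p t ≠ l2 := (fun e => Xq1_4 (p.eq_comm'.1 e))
                              have Xn4_2 : p t ≠ r2 := (fun e => Xq2_4 (p.eq_comm'.1 e))
                              have Xn4_3 : p t ≠ n := (fun e => hnt ((Xq3).symm.trans (p.eq_comm'.1 e)))
                              exact case ![l, l2, r2, n, t, p l, p l2, p r2, p t] (inj9 hll2 hlr2 hln hlt (Ne.symm Xq0) (Ne.symm Xn1_0) (Ne.symm Xn2_0) (Ne.symm Xn4_0) hl2r2 hl2n hl2t (Ne.symm Xq0_1) (Ne.symm Xq1) (Ne.symm Xn2_1) (Ne.symm Xn4_1) hr2n hr2t (Ne.symm Xq0_2) (Ne.symm Xq1_2) (Ne.symm Xq2) (Ne.symm Xn4_2) hnt (Ne.symm Xq0_3) (Ne.symm Xq1_3) (Ne.symm Xq2_3) (Ne.symm Xn4_3) (Ne.symm Xq0_4) (Ne.symm Xq1_4) (Ne.symm Xq2_4) (Ne.symm Xq4) (fun e => hll2 (p.inj e)) (fun e => hlr2 (p.inj e)) (fun e => hlt (p.inj e)) (fun e => hl2r2 (p.inj e)) (fun e => hl2t (p.inj e)) (fun e => hr2t (p.inj e))) P9_3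 (by
                                intro x; fin_cases x <;> simp [P9_3, Xq3]) 0 1 2 3 4 (fun F => t138 h F) F
                          · by_cases Xq3_4 : p n = t
                            · have Xr4 : p t = n := p.eq_comm'.1 Xq3_4
                              have Xn1_0 : p l2 ≠ l := (fun e => Xq0_1 (p.eq_comm'.1 e))
                              have Xn2_0 : p r2 ≠ l := (fun e => Xq0_2 (p.eq_comm'.1 e))
                              have Xn2_1 : p r2 ≠ l2 := (fun e => Xq1_2 (p.eq_comm'.1 e))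
                              exact case ![l, l2, r2, n, t, p l, p l2, p r2] (inj8 hll2 hlr2 hln hlt (Ne.symm Xq0) (Ne.symm Xn1_0) (Ne.symm Xn2_0) hl2r2 hl2n hl2t (Ne.symm Xq0_1) (Ne.symm Xq1) (Ne.symm Xn2_1) hr2n hr2t (Ne.symm Xq0_2) (Ne.symm Xq1_2) (Ne.symm Xq2) hnt (Ne.symm Xq0_3) (Ne.symm Xq1_3) (Ne.symm Xq2_3) (Ne.symm Xq0_4) (Ne.symm Xq1_4) (Ne.symm Xq2_4) (fun e => hll2 (p.inj e)) (fun e => hlr2 (p.inj e)) (fun e => hl2r2 (p.inj e))) P8_30 (by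
                                intro x; fin_cases x <;> simp [P8_30, Xq3_4, Xr4]) 0 1 2 3 4 (fun F => t139 h F) F
                            · by_cases Xq4 : p t = t
                              · have Xn1_0 : p l2 ≠ l := (fun e => Xq0_1 (p.eq_comm'.1 e))
                                have Xn2_0 : p r2 ≠ l := (fun e => Xq0_2 (p.eq_comm'.1 e))
                                have Xn2_1 : p r2 ≠ l2 := (fun e => Xq1_2 (p.eq_comm'.1 e))
                                have Xn3_0 : p n ≠ l := (fun e => Xq0_3 (p.eq_comm'.1 e))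
                                have Xn3_1 : p n ≠ l2 := (fun e => Xq1_3 (p.eq_comm'.1 e))
                                have Xn3_2 : p n ≠ r2 := (fun e => Xq2_3 (p.eq_comm'.1 e))
                                exact case ![l, l2, r2, n, t, p l, p l2, p r2, p n] (inj9 hll2 hlr2 hln hlt (Ne.symm Xq0) (Ne.symm Xn1_0) (Ne.symm Xn2_0) (Ne.symm Xn3_0) hl2r2 hl2n hl2t (Ne.symm Xq0_1) (Ne.symm Xq1) (Ne.symm Xn2_1) (Ne.symm Xn3_1) hr2n hr2t (Ne.symm Xq0_2) (Ne.symm Xq1_2) (Ne.symm Xq2) (Ne.symm Xn3_2) hnt (Ne.symm Xq0_3) (Ne.symm Xq1_3) (Ne.symm Xq2_3) (Ne.symm Xq3) (Ne.symm Xq0_4) (Ne.symm Xq1_4) (Ne.symm Xq2_4) (Ne.symm Xq3_4) (fun e => hll2 (p.inj e)) (fun e => hlr2 (p.inj e)) (fun e => hln (p.inj e)) (fun e => hl2r2 (p.inj e)) (fun e => hl2n (p.inj e)) (fun e => hr2n (p.inj e))) P9_9 (by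
                                  intro x; fin_cases x <;> simp [P9_9, Xq4]) 0 1 2 3 4 (fun F => t140 h F) F
                              · have Xn1_0 : p l2 ≠ l := (fun e => Xq0_1 (p.eq_comm'.1 e))
                                have Xn2_0 : p r2 ≠ l := (fun e => Xq0_2 (p.eq_comm'.1 e))
                                have Xn2_1 : p r2 ≠ l2 := (fun e => Xq1_2 (p.eq_comm'.1 e))
                                have Xn3_0 : p n ≠ l := (fun e => Xq0_3 (p.eq_comm'.1 e))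
                                have Xn3_1 : p n ≠ l2 := (fun e => Xq1_3 (p.eq_comm'.1 e))
                                have Xn3_2 : p n ≠ r2 := (fun e => Xq2_3 (p.eq_comm'.1 e))
                                have Xn4_0 : p t ≠ l := (fun e => Xq0_4 (p.eq_comm'.1 e))
                                have Xn4_1 : p t ≠ l2 := (fun e => Xq1_4 (p.eq_comm'.1 e))
                                have Xn4_2 : p t ≠ r2 := (fun e => Xq2_4 (p.eq_comm'.1 e))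
                                have Xn4_3 : p t ≠ n := (fun e => Xq3_4 (p.eq_comm'.1 e))
                                exact case ![l, l2, r2, n, t, p l, p l2, p r2, p n, p t] (inj10 hll2 hlr2 hln hlt (Ne.symm Xq0) (Ne.symm Xn1_0) (Ne.symm Xn2_0) (Ne.symm Xn3_0) (Ne.symm Xn4_0) hl2r2 hl2n hl2t (Ne.symm Xq0_1) (Ne.symm Xq1) (Ne.symm Xn2_1) (Ne.symm Xn3_1) (Ne.symm Xn4_1) hr2n hr2t (Ne.symm Xq0_2) (Ne.symm Xq1_2) (Ne.symm Xq2) (Ne.symm Xn3_2) (Ne.symm Xn4_2) hnt (Ne.symm Xq0_3) (Ne.symm Xq1_3) (Ne.symm Xq2_3) (Ne.symm Xq3) (Ne.symm Xn4_3) (Ne.symm Xq0_4) (Ne.symm Xq1_4) (Ne.symm Xq2_4) (Ne.symm Xq3_4) (Ne.symm Xq4) (fun e => hll2 (p.inj e)) (fun e => hlr2 (p.inj e)) (fun e => hln (p.inj e)) (fun e => hlt (p.inj e)) (fun e => hl2r2 (p.inj e)) (fun e => hl2n (p.inj e)) (fun e => hl2t (p.inj e)) (fun e => hr2n (p.inj e)) (fun e => hr2t (p.inj e)) (fun e => hnt (p.inj e))) P10_0 (by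
                                  intro x; fin_cases x <;> simp [P10_0]) 0 1 2 3 4 (fun F => t141 h F) F

end Pool.Agent.EXL.Y3
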