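import Pool.Agent.EXL.Ops

/-!
# (Y5) r'=s

Generated file (local identity Y5).
-/

set_option maxRecDepth 4000
set_option linter.all false

namespace Pool.Agent.EXL.Y5

open Pool.Agent.EXL Pool.Agent.EXL.Pat

variable {α K : Type*} [DecidableEq α] [CommRing K]

/-- The scalar equations. -/
structure Eqs (w : Wt K) (x : K) : Prop where
  e1 : w.u2 - x * x = 0
  e2 : w.v - x * x = 0
  e3 : w.u1 - x = 0
  e4 : w.w1 - x * x = 0
  e5 : w.w2 = 0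

def P3_0 : Pat (Fin 3) := ⟨![0, 1, 2], by decide⟩
def P3_1 : Pat (Fin 3) := ⟨![1, 0, 2], by decide⟩
def P3_2 : Pat (Fin 3) := ⟨![2, 1, 0], by decide⟩
def P4_0 : Pat (Fin 4) := ⟨![0, 1, 3, 2], by decide⟩
def P3_3 : Pat (Fin 3) := ⟨![0, 2, 1], by decide⟩
def P4_1 : Pat (Fin 4) := ⟨![0, 3, 2, 1], by decide⟩
def P4_2 : Pat (Fin 4) := ⟨![3, 1, 2, 0], by decide⟩
def P4_3 : Pat (Fin 4) := ⟨![2, 3, 0, 1], by decide⟩
def P5_0 : Pat (Fin 5) := ⟨![0, 3, 4, 1, 2], by decide⟩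
def P4_4 : Pat (Fin 4) := ⟨![1, 0, 3, 2], by decide⟩
def P5_1 : Pat (Fin 5) := ⟨![3, 1, 4, 0, 2], by decide⟩
def P4_5 : Pat (Fin 4) := ⟨![3, 2, 1, 0], by decide⟩
def P5_2 : Pat (Fin 5) := ⟨![3, 4, 2, 0, 1], by decide⟩
def P5_3 : Pat (Fin 5) := ⟨![4, 3, 2, 1, 0], by decide⟩
def P5_4 : Pat (Fin 5) := ⟨![0, 1, 2, 4, 3], by decide⟩
def P5_5 : Pat (Fin 5) := ⟨![1, 0, 2, 4, 3], by decide⟩
def P5_6 : Pat (Fin 5) := ⟨![0, 4, 3, 2, 1], by decide⟩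
def P5_7 : Pat (Fin 5) := ⟨![4, 1, 3, 2, 0], by decide⟩
def P6_0 : Pat (Fin 6) := ⟨![3, 4, 5, 0, 1, 2], by decide⟩

theorem ev0 (F : Pat (Fin 3) → K) :
    emp 2 F P3_0 = F P3_0 :=
  emp_1 (by decide)

theorem ev1 (w : Wt K) (F : Pat (Fin 3) → K) :
    R w 0 1 F P3_0 = F P3_0 + w.u2 * F P3_1 :=
  R_e (by decide) (by decide) (by decide)

theorem ev2 (x : K) (F : Pat (Fin 3) → K) :
    Y x 0 2 F P3_0 = F P3_0 + x * F P3_2 :=
  Y_0 (by decide) (by decide) (by decide)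

theorem ev3 (x : K) (F : Pat (Fin 3) → K) :
    Yt x 0 1 F P3_0 = F P3_0 :=
  Yt_0 (by decide) (by decide)

theorem ev4 (x : K) (F : Pat (Fin 3) → K) :
    Yt x 0 1 F P3_2 = x * F P3_2 :=
  Yt_1 (by decide) (by decide)

theorem ev5 (F : Pat (Fin 3) → K) :
    ren 2 1 F P3_0 = F P3_0 :=
  ren_1 (by decide) (by decide)

theorem ev6 (F : Pat (Fin 3) → K) :
    ren 2 1 F P3_2 = F P3_1 :=
  ren_1 (by decide) (by decide)

theorem ev7 (F : Pat (Fin 4) → K) :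
    emp 2 F P4_0 = 0 :=
  emp_z (by decide)

theorem ev8 (x : K) (F : Pat (Fin 4) → K) :
    Y x 0 2 F P4_0 = 0 :=
  Y_z (by decide)

theorem ev9 (F : Pat (Fin 3) → K) :
    emp 2 F P3_3 = 0 :=
  emp_z (by decide)

theorem ev10 (x : K) (F : Pat (Fin 3) → K) :
    Y x 0 2 F P3_3 = 0 :=
  Y_z (by decide)

theorem ev11 (F : Pat (Fin 4) → K) :
    emp 2 F P4_1 = F P4_1 :=
  emp_1 (by decide)

theorem ev12 (w : Wt K) (F : Pat (Fin 4) → K) :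
    R w 0 1 F P4_1 = w.v * F P4_1 + w.u1 * F P4_2 :=
  R_r (by decide) (by decide) (by decide)

theorem ev13 (x : K) (F : Pat (Fin 4) → K) :
    Y x 0 2 F P4_1 = F P4_1 + x * F P4_3 :=
  Y_0 (by decide) (by decide) (by decide)

theorem ev14 (x : K) (F : Pat (Fin 4) → K) :
    Yt x 0 1 F P4_1 = x * F P4_2 :=
  Yt_2 (by decide) (by decide) (by decide)

theorem ev15 (x : K) (F : Pat (Fin 4) → K) :
    Yt x 0 1 F P4_3 = x * F P4_0 :=
  Yt_3 (by decide) (by decide) (by decide) (by decide)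

theorem ev16 (F : Pat (Fin 4) → K) :
    ren 2 1 F P4_0 = F P4_1 :=
  ren_1 (by decide) (by decide)

theorem ev17 (F : Pat (Fin 4) → K) :
    ren 2 1 F P4_2 = F P4_2 :=
  ren_1 (by decide) (by decide)

theorem ev18 (F : Pat (Fin 5) → K) :
    emp 2 F P5_0 = 0 :=
  emp_z (by decide)

theorem ev19 (x : K) (F : Pat (Fin 5) → K) :
    Y x 0 2 F P5_0 = 0 :=
  Y_z (by decide)

theorem ev20 (F : Pat (Fin 3) → K) :
    emp 2 F P3_1 = F P3_1 :=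
  emp_1 (by decide)

theorem ev21 (w : Wt K) (F : Pat (Fin 3) → K) :
    R w 0 1 F P3_1 = w.w1 * F P3_1 :=
  R_p (by decide) (by decide)

theorem ev22 (x : K) (F : Pat (Fin 3) → K) :
    Y x 0 2 F P3_1 = x * F P3_1 + x * F P3_3 :=
  Y_1 (by decide) (by decide) (by decide)

theorem ev23 (x : K) (F : Pat (Fin 3) → K) :
    Yt x 0 1 F P3_3 = x * F P3_2 :=
  Yt_2 (by decide) (by decide) (by decide)

theorem ev24 (x : K) (F : Pat (Fin 3) → K) :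
    Yt x 0 1 F P3_1 = 0 :=
  Yt_z (by decide) (by decide)

theorem ev25 (F : Pat (Fin 4) → K) :
    emp 2 F P4_4 = 0 :=
  emp_z (by decide)

theorem ev26 (x : K) (F : Pat (Fin 4) → K) :
    Y x 0 2 F P4_4 = 0 :=
  Y_z (by decide)

theorem ev27 (F : Pat (Fin 3) → K) :
    emp 2 F P3_2 = 0 :=
  emp_z (by decide)

theorem ev28 (x : K) (F : Pat (Fin 3) → K) :
    Y x 0 2 F P3_2 = 0 :=
  Y_z (by decide)

theorem ev29 (F : Pat (Fin 4) → K) :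
    emp 2 F P4_3 = 0 :=
  emp_z (by decide)

theorem ev30 (x : K) (F : Pat (Fin 4) → K) :
    Y x 0 2 F P4_3 = 0 :=
  Y_z (by decide)

theorem ev31 (F : Pat (Fin 4) → K) :
    emp 2 F P4_2 = F P4_2 :=
  emp_1 (by decide)

theorem ev32 (w : Wt K) (F : Pat (Fin 4) → K) :
    R w 0 1 F P4_2 = w.v * F P4_2 + w.u1 * F P4_1 :=
  R_l (by decide) (by decide) (by decide)

theorem ev33 (x : K) (F : Pat (Fin 4) → K) :
    Y x 0 2 F P4_2 = x * F P4_2 + x * F P4_0 :=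
  Y_1 (by decide) (by decide) (by decide)

theorem ev34 (x : K) (F : Pat (Fin 4) → K) :
    Yt x 0 1 F P4_0 = F P4_0 :=
  Yt_0 (by decide) (by decide)

theorem ev35 (x : K) (F : Pat (Fin 4) → K) :
    Yt x 0 1 F P4_2 = x * F P4_2 :=
  Yt_1 (by decide) (by decide)

theorem ev36 (F : Pat (Fin 5) → K) :
    emp 2 F P5_1 = 0 :=
  emp_z (by decide)

theorem ev37 (x : K) (F : Pat (Fin 5) → K) :
    Y x 0 2 F P5_1 = 0 :=
  Y_z (by decide)

theorem ev38 (F : Pat (Fin 4) → K) :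
    emp 2 F P4_5 = 0 :=
  emp_z (by decide)

theorem ev39 (x : K) (F : Pat (Fin 4) → K) :
    Y x 0 2 F P4_5 = 0 :=
  Y_z (by decide)

theorem ev40 (F : Pat (Fin 5) → K) :
    emp 2 F P5_2 = F P5_2 :=
  emp_1 (by decide)

theorem ev41 (w : Wt K) (F : Pat (Fin 5) → K) :
    R w 0 1 F P5_2 = w.w1 * F P5_3 + w.u2 * F P5_4 + w.w2 * F P5_5 :=
  R_d (by decide) (by decide) (by decide) (by decide) (by decide) (by decide)

theorem ev42 (x : K) (F : Pat (Fin 5) → K) :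
    Y x 0 2 F P5_2 = x * F P5_2 + x * F P5_6 :=
  Y_1 (by decide) (by decide) (by decide)

theorem ev43 (x : K) (F : Pat (Fin 5) → K) :
    Yt x 0 1 F P5_6 = x * F P5_7 :=
  Yt_2 (by decide) (by decide) (by decide)

theorem ev44 (x : K) (F : Pat (Fin 5) → K) :
    Yt x 0 1 F P5_2 = x * F P5_4 :=
  Yt_3 (by decide) (by decide) (by decide) (by decide)

theorem ev45 (F : Pat (Fin 5) → K) :
    ren 2 1 F P5_4 = F P5_4 :=
  ren_1 (by decide) (by decide)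

theorem ev46 (F : Pat (Fin 5) → K) :
    ren 2 1 F P5_7 = F P5_3 :=
  ren_1 (by decide) (by decide)

theorem ev47 (F : Pat (Fin 6) → K) :
    emp 2 F P6_0 = 0 :=
  emp_z (by decide)

theorem ev48 (x : K) (F : Pat (Fin 6) → K) :
    Y x 0 2 F P6_0 = 0 :=
  Y_z (by decide)

theorem t0 {w : Wt K} {x : K} (h : Eqs w x) (F : Pat (Fin 3) → K) :
    emp 2 (R w 0 1 F) P3_0 = Y x 0 2 (Yt x 0 1 (ren 2 1 F)) P3_0 := by
  simp only [ev0, ev1, ev2, ev3, ev4, ev5, ev6] <;>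
  linear_combination F P3_1 * h.e1

theorem t1 {w : Wt K} {x : K} (h : Eqs w x) (F : Pat (Fin 4) → K) :
    emp 2 (R w 0 1 F) P4_0 = Y x 0 2 (Yt x 0 1 (ren 2 1 F)) P4_0 := by
  simp only [ev7, ev8] <;>
  ring

theorem t2 {w : Wt K} {x : K} (h : Eqs w x) (F : Pat (Fin 3) → K) :
    emp 2 (R w 0 1 F) P3_3 = Y x 0 2 (Yt x 0 1 (ren 2 1 F)) P3_3 := by
  simp only [ev9, ev10] <;>
  ring

theorem t3 {w : Wt K} {x : K} (h : Eqs w x) (F : Pat (Fin 4) → K) :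
    emp 2 (R w 0 1 F) P4_1 = Y x 0 2 (Yt x 0 1 (ren 2 1 F)) P4_1 := by
  simp only [ev11, ev12, ev13, ev14, ev15, ev16, ev17] <;>
  linear_combination F P4_1 * h.e2 + F P4_2 * h.e3

theorem t4 {w : Wt K} {x : K} (h : Eqs w x) (F : Pat (Fin 5) → K) :
    emp 2 (R w 0 1 F) P5_0 = Y x 0 2 (Yt x 0 1 (ren 2 1 F)) P5_0 := by
  simp only [ev18, ev19] <;>
  ring

theorem t5 {w : Wt K} {x : K} (h : Eqs w x) (F : Pat (Fin 3) → K) :
    emp 2 (R w 0 1 F) P3_1 = Y x 0 2 (Yt x 0 1 (ren 2 1 F)) P3_1 := by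
  simp only [ev20, ev21, ev22, ev23, ev24, ev6] <;>
  linear_combination F P3_1 * h.e4

theorem t6 {w : Wt K} {x : K} (h : Eqs w x) (F : Pat (Fin 4) → K) :
    emp 2 (R w 0 1 F) P4_4 = Y x 0 2 (Yt x 0 1 (ren 2 1 F)) P4_4 := by
  simp only [ev25, ev26] <;>
  ring

theorem t7 {w : Wt K} {x : K} (h : Eqs w x) (F : Pat (Fin 3) → K) :
    emp 2 (R w 0 1 F) P3_2 = Y x 0 2 (Yt x 0 1 (ren 2 1 F)) P3_2 := by
  simp only [ev27, ev28] <;>
  ring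

theorem t8 {w : Wt K} {x : K} (h : Eqs w x) (F : Pat (Fin 4) → K) :
    emp 2 (R w 0 1 F) P4_3 = Y x 0 2 (Yt x 0 1 (ren 2 1 F)) P4_3 := by
  simp only [ev29, ev30] <;>
  ring

theorem t9 {w : Wt K} {x : K} (h : Eqs w x) (F : Pat (Fin 4) → K) :
    emp 2 (R w 0 1 F) P4_2 = Y x 0 2 (Yt x 0 1 (ren 2 1 F)) P4_2 := by
  simp only [ev31, ev32, ev33, ev34, ev35, ev16, ev17] <;>
  linear_combination F P4_1 * h.e3 + F P4_2 * h.e2

theorem t10 {w : Wt K} {x : K} (h : Eqs w x) (F : Pat (Fin 5) → K) :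
    emp 2 (R w 0 1 F) P5_1 = Y x 0 2 (Yt x 0 1 (ren 2 1 F)) P5_1 := by
  simp only [ev36, ev37] <;>
  ring

theorem t11 {w : Wt K} {x : K} (h : Eqs w x) (F : Pat (Fin 4) → K) :
    emp 2 (R w 0 1 F) P4_5 = Y x 0 2 (Yt x 0 1 (ren 2 1 F)) P4_5 := by
  simp only [ev38, ev39] <;>
  ring

theorem t12 {w : Wt K} {x : K} (h : Eqs w x) (F : Pat (Fin 5) → K) :
    emp 2 (R w 0 1 F) P5_2 = Y x 0 2 (Yt x 0 1 (ren 2 1 F)) P5_2 := by
  simp only [ev40, ev41, ev42, ev43, ev44, ev45, ev46] <;>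
  linear_combination F P5_4 * h.e1 + F P5_5 * h.e5 + F P5_3 * h.e4

theorem t13 {w : Wt K} {x : K} (h : Eqs w x) (F : Pat (Fin 6) → K) :
    emp 2 (R w 0 1 F) P6_0 = Y x 0 2 (Yt x 0 1 (ren 2 1 F)) P6_0 := by
  simp only [ev47, ev48] <;>
  ring

theorem case {w : Wt K} {x : K} {p : Pat α} {m : ℕ} (φ : Fin m → α) (inj : Function.Injective φ)
    (q : Pat (Fin m)) (hq : ∀ x, p (φ x) = φ (q x)) (r2 n r : Fin m)
    (H : ∀ F : Pat (Fin m) → K, (emp r (R w r2 n F)) q = (Y x r2 r (Yt x r2 n (ren r n F))) q)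
    (F : Pat α → K) :
    (emp (φ r) (R w (φ r2) (φ n) F)) p = (Y x (φ r2) (φ r) (Yt x (φ r2) (φ n) (ren (φ r) (φ n) F))) p := by
  let E : Pat.Emb (Fin m) α := ⟨φ, inj, p, fun x => ⟨q x, hq x⟩⟩
  have hst : E.st q = p := E.st_eq hq
  have key := H (fun r => F (E.st r))
  have e1 : (emp (E.φ r) (R w (E.φ r2) (E.φ n) F)) (E.st q) = (emp r (R w r2 n (fun r => F (E.st r)))) q := by
    simp only [R_st, Y_st, Yt_st, emp_st, ren_st]
  have e2 : (Y x (E.φ r2) (E.φ r) (Yt x (E.φ r2) (E.φ n) (ren (E.φ r) (E.φ n) F))) (E.st q) = (Y x r2 r (Yt x r2 n (ren r n (fun r => F (E.st r))))) q := by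
    simp only [R_st, Y_st, Yt_st, emp_st, ren_st]
  rw [hst] at e1 e2
  exact e1.trans (key.trans e2.symm)

omit [DecidableEq α] in
theorem inj3 {a0 a1 a2 : α} (h0_1 : a0 ≠ a1) (h0_2 : a0 ≠ a2) (h1_2 : a1 ≠ a2) :
    Function.Injective ![a0, a1, a2] := by
  intro x y hxy
  fin_cases x <;> fin_cases y <;> simp_all

omit [DecidableEq α] in
theorem inj4 {a0 a1 a2 a3 : α} (h0_1 : a0 ≠ a1) (h0_2 : a0 ≠ a2) (h0_3 : a0 ≠ a3) (h1_2 : a1 ≠ a2) (h1_3 : a1 ≠ a3) (h2_3 : a2 ≠ a3) :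
    Function.Injective ![a0, a1, a2, a3] := by
  intro x y hxy
  fin_cases x <;> fin_cases y <;> simp_all

omit [DecidableEq α] in
theorem inj5 {a0 a1 a2 a3 a4 : α} (h0_1 : a0 ≠ a1) (h0_2 : a0 ≠ a2) (h0_3 : a0 ≠ a3) (h0_4 : a0 ≠ a4) (h1_2 : a1 ≠ a2) (h1_3 : a1 ≠ a3) (h1_4 : a1 ≠ a4) (h2_3 : a2 ≠ a3) (h2_4 : a2 ≠ a4) (h3_4 : a3 ≠ a4) :
    Function.Injective ![a0, a1, a2, a3, a4] := by
  intro x y hxy
  fin_cases x <;> fin_cases y <;> simp_all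

omit [DecidableEq α] in
theorem inj6 {a0 a1 a2 a3 a4 a5 : α} (h0_1 : a0 ≠ a1) (h0_2 : a0 ≠ a2) (h0_3 : a0 ≠ a3) (h0_4 : a0 ≠ a4) (h0_5 : a0 ≠ a5) (h1_2 : a1 ≠ a2) (h1_3 : a1 ≠ a3) (h1_4 : a1 ≠ a4) (h1_5 : a1 ≠ a5) (h2_3 : a2 ≠ a3) (h2_4 : a2 ≠ a4) (h2_5 : a2 ≠ a5) (h3_4 : a3 ≠ a4) (h3_5 : a3 ≠ a5) (h4_5 : a4 ≠ a5) :
    Function.Injective ![a0, a1, a2, a3, a4, a5] := by
  intro x y hxy
  fin_cases x <;> fin_cases y <;> simp_all

/-- **Y5** -/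
theorem main {w : Wt K} {x : K} (h : Eqs w x) {r2 n r : α} (hr2n : r2 ≠ n) (hr2r : r2 ≠ r) (hnr : n ≠ r) (F : Pat α → K) :
    emp r (R w r2 n F) = Y x r2 r (Yt x r2 n (ren r n F)) := by
  funext p
  by_cases Xq0 : p r2 = r2
  · by_cases Xq1 : p n = n
    · by_cases Xq2 : p r = r
      · exact case ![r2, n, r] (inj3 hr2n hr2r hnr) P3_0 (by
          intro x; fin_cases x <;> simp [P3_0, Xq0, Xq1, Xq2]) 0 1 2 (fun F => t0 h F) F
      · have Xn2_0 : p r ≠ r2 := (fun e => hr2r ((Xq0).symm.trans (p.eq_comm'.1 e)))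
        have Xn2_1 : p r ≠ n := (fun e => hnr ((Xq1).symm.trans (p.eq_comm'.1 e)))
        exact case ![r2, n, r, p r] (inj4 hr2n hr2r (Ne.symm Xn2_0) hnr (Ne.symm Xn2_1) (Ne.symm Xq2)) P4_0 (by
          intro x; fin_cases x <;> simp [P4_0, Xq0, Xq1]) 0 1 2 (fun F => t1 h F) F
    · by_cases Xq1_2 : p n = r
      · have Xr2 : p r = n := p.eq_comm'.1 Xq1_2
        exact case ![r2, n, r] (inj3 hr2n hr2r hnr) P3_3 (by
          intro x; fin_cases x <;> simp [P3_3, Xq0, Xq1_2, Xr2]) 0 1 2 (fun F => t2 h F) F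
      · by_cases Xq2 : p r = r
        · have Xn1_0 : p n ≠ r2 := (fun e => hr2n ((Xq0).symm.trans (p.eq_comm'.1 e)))
          exact case ![r2, n, r, p n] (inj4 hr2n hr2r (Ne.symm Xn1_0) hnr (Ne.symm Xq1) (Ne.symm Xq1_2)) P4_1 (by
            intro x; fin_cases x <;> simp [P4_1, Xq0, Xq2]) 0 1 2 (fun F => t3 h F) F
        · have Xn1_0 : p n ≠ r2 := (fun e => hr2n ((Xq0).symm.trans (p.eq_comm'.1 e)))
          have Xn2_0 : p r ≠ r2 := (fun e => hr2r ((Xq0).symm.trans (p.eq_comm'.1 e)))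
          have Xn2_1 : p r ≠ n := (fun e => Xq1_2 (p.eq_comm'.1 e))
          exact case ![r2, n, r, p n, p r] (inj5 hr2n hr2r (Ne.symm Xn1_0) (Ne.symm Xn2_0) hnr (Ne.symm Xq1) (Ne.symm Xn2_1) (Ne.symm Xq1_2) (Ne.symm Xq2) (fun e => hnr (p.inj e))) P5_0 (by
            intro x; fin_cases x <;> simp [P5_0, Xq0]) 0 1 2 (fun F => t4 h F) F
  · by_cases Xq0_1 : p r2 = n
    · have Xr1 : p n = r2 := p.eq_comm'.1 Xq0_1
      by_cases Xq2 : p r = r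
      · exact case ![r2, n, r] (inj3 hr2n hr2r hnr) P3_1 (by
          intro x; fin_cases x <;> simp [P3_1, Xq0_1, Xr1, Xq2]) 0 1 2 (fun F => t5 h F) F
      · have Xn2_0 : p r ≠ r2 := (fun e => hnr ((Xq0_1).symm.trans (p.eq_comm'.1 e)))
        have Xn2_1 : p r ≠ n := (fun e => hr2r ((Xr1).symm.trans (p.eq_comm'.1 e)))
        exact case ![r2, n, r, p r] (inj4 hr2n hr2r (Ne.symm Xn2_0) hnr (Ne.symm Xn2_1) (Ne.symm Xq2)) P4_4 (by
          intro x; fin_cases x <;> simp [P4_4, Xq0_1, Xr1]) 0 1 2 (fun F => t6 h F) F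
    · by_cases Xq0_2 : p r2 = r
      · have Xr2 : p r = r2 := p.eq_comm'.1 Xq0_2
        by_cases Xq1 : p n = n
        · exact case ![r2, n, r] (inj3 hr2n hr2r hnr) P3_2 (by
            intro x; fin_cases x <;> simp [P3_2, Xq0_2, Xq1, Xr2]) 0 1 2 (fun F => t7 h F) F
        · have Xn1_0 : p n ≠ r2 := (fun e => (Ne.symm hnr) ((Xq0_2).symm.trans (p.eq_comm'.1 e)))
          have Xn1_2 : p n ≠ r := (fun e => hr2n ((Xr2).symm.trans (p.eq_comm'.1 e)))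
          exact case ![r2, n, r, p n] (inj4 hr2n hr2r (Ne.symm Xn1_0) hnr (Ne.symm Xq1) (Ne.symm Xn1_2)) P4_3 (by
            intro x; fin_cases x <;> simp [P4_3, Xq0_2, Xr2]) 0 1 2 (fun F => t8 h F) F
      · by_cases Xq1 : p n = n
        · by_cases Xq2 : p r = r
          · exact case ![r2, n, r, p r2] (inj4 hr2n hr2r (Ne.symm Xq0) hnr (Ne.symm Xq0_1) (Ne.symm Xq0_2)) P4_2 (by
              intro x; fin_cases x <;> simp [P4_2, Xq1, Xq2]) 0 1 2 (fun F => t9 h F) F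
          · have Xn2_0 : p r ≠ r2 := (fun e => Xq0_2 (p.eq_comm'.1 e))
            have Xn2_1 : p r ≠ n := (fun e => hnr ((Xq1).symm.trans (p.eq_comm'.1 e)))
            exact case ![r2, n, r, p r2, p r] (inj5 hr2n hr2r (Ne.symm Xq0) (Ne.symm Xn2_0) hnr (Ne.symm Xq0_1) (Ne.symm Xn2_1) (Ne.symm Xq0_2) (Ne.symm Xq2) (fun e => hr2r (p.inj e))) P5_1 (by
              intro x; fin_cases x <;> simp [P5_1, Xq1]) 0 1 2 (fun F => t10 h F) F
        · by_cases Xq1_2 : p n = r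
          · have Xr2 : p r = n := p.eq_comm'.1 Xq1_2
            exact case ![r2, n, r, p r2] (inj4 hr2n hr2r (Ne.symm Xq0) hnr (Ne.symm Xq0_1) (Ne.symm Xq0_2)) P4_5 (by
              intro x; fin_cases x <;> simp [P4_5, Xq1_2, Xr2]) 0 1 2 (fun F => t11 h F) F
          · by_cases Xq2 : p r = r
            · have Xn1_0 : p n ≠ r2 := (fun e => Xq0_1 (p.eq_comm'.1 e))
              exact case ![r2, n, r, p r2, p n] (inj5 hr2n hr2r (Ne.symm Xq0) (Ne.symm Xn1_0) hnr (Ne.symm Xq0_1) (Ne.symm Xq1) (Ne.symm Xq0_2) (Ne.symm Xq1_2) (fun e => hr2n (p.inj e))) P5_2 (by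
                intro x; fin_cases x <;> simp [P5_2, Xq2]) 0 1 2 (fun F => t12 h F) F
            · have Xn1_0 : p n ≠ r2 := (fun e => Xq0_1 (p.eq_comm'.1 e))
              have Xn2_0 : p r ≠ r2 := (fun e => Xq0_2 (p.eq_comm'.1 e))
              have Xn2_1 : p r ≠ n := (fun e => Xq1_2 (p.eq_comm'.1 e))
              exact case ![r2, n, r, p r2, p n, p r] (inj6 hr2n hr2r (Ne.symm Xq0) (Ne.symm Xn1_0) (Ne.symm Xn2_0) hnr (Ne.symm Xq0_1) (Ne.symm Xq1) (Ne.symm Xn2_1) (Ne.symm Xq0_2) (Ne.symm Xq1_2) (Ne.symm Xq2) (fun e => hr2n (p.inj e)) (fun e => hr2r (p.inj e)) (fun e => hnr (p.inj e))) P6_0 (by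
                intro x; fin_cases x <;> simp [P6_0]) 0 1 2 (fun F => t13 h F) F

end Pool.Agent.EXL.Y5
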