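import Pool.Agent.EXL.LocInv
import Pool.Agent.EXL.LocC1
import Pool.Agent.EXL.LocC2
import Pool.Agent.EXL.LocCF
import Pool.Agent.EXL.LocCT
import Pool.Agent.EXL.LocCU
import Pool.Agent.EXL.LocCU2
import Pool.Agent.EXL.LocR3
import Pool.Agent.EXL.LocR0
import Pool.Agent.EXL.LocFI
import Pool.Agent.EXL.LocTI
import Pool.Agent.EXL.LocR2
import Pool.Agent.EXL.LocB1
import Pool.Agent.EXL.LocB2
import Pool.Agent.EXL.LocY3
import Pool.Agent.EXL.LocY4
import Pool.Agent.EXL.LocY5
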