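import Pool.Agent.EXL.ScalDefs
import Pool.Agent.EXL.LocR0
import Pool.Agent.EXL.LocInv
import Pool.Agent.EXL.LocC1
import Pool.Agent.EXL.LocC2
import Pool.Agent.EXL.LocR3
import Pool.Agent.EXL.LocFI
import Pool.Agent.EXL.LocR2
import Pool.Agent.EXL.LocY5

/-!
# The scalar identities (generated)
-/

namespace Pool.Agent.EXL.Sc

set_option linter.unusedSimpArgs false
set_option linter.unusedVariables false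
set_option linter.unreachableTactic false
set_option linter.unusedTactic false

theorem R0_e1 (r : ℂ) (hr : r^16 + 1 = 0) (hr0 : r ≠ 0)
    (h1 : Df r (1) (1) ≠ 0) :
    (Wf r (1) (1)).u2 = 0 := by
  have hN : (r^6*(1)*(1)*(r^8-1)*((1)^2-(1)^2)) = 0 := by
    linear_combination (0) * hr
  have hE : (Wf r (1) (1)).u2 = ((r^6*(1)*(1)*(r^8-1)*((1)^2-(1)^2))) / ((Df r (1) (1))) := by
    simp only [Wf, Kf, kf, xf]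
    first | done | (field_simp; done) | (field_simp; ring)
  rw [hE, hN, zero_div]

theorem R0_e2 (r : ℂ) (hr : r^16 + 1 = 0) (hr0 : r ≠ 0)
    (h1 : Df r (1) (1) ≠ 0) :
    (Wf r (1) (1)).v = 0 := by
  have hN : (r^4*((1)^2-(1)^2)*(r^12*(1)^2-(1)^2)) = 0 := by
    linear_combination (0) * hr
  have hE : (Wf r (1) (1)).v = ((r^4*((1)^2-(1)^2)*(r^12*(1)^2-(1)^2))) / ((Df r (1) (1))) := by
    simp only [Wf, Kf, kf, xf]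
    first | done | (field_simp; done) | (field_simp; ring)
  rw [hE, hN, zero_div]

theorem R0_e3 (r : ℂ) (hr : r^16 + 1 = 0) (hr0 : r ≠ 0)
    (h1 : Df r (1) (1) ≠ 0) :
    1 - (Wf r (1) (1)).u1 = 0 := by
  have hN : (Df r (1) (1)) -((r^8-1)*(1)*(1)*(r^12*(1)^2-(1)^2)) = 0 := by
    simp only [Df, Sf]
    linear_combination (0) * hr
  have hE : 1 - (Wf r (1) (1)).u1 = ((Df r (1) (1)) -((r^8-1)*(1)*(1)*(r^12*(1)^2-(1)^2))) / ((Df r (1) (1))) := by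
    simp only [Wf, Kf, kf, xf]
    first | done | (field_simp; done) | (field_simp; ring)
  rw [hE, hN, zero_div]

theorem R0_e4 (r : ℂ) (hr : r^16 + 1 = 0) (hr0 : r ≠ 0)
    (h1 : Df r (1) (1) ≠ 0) :
    1 - (Wf r (1) (1)).w1 = 0 := by
  have hN : (Df r (1) (1)) -((r^8*(1)^2-(1)^2)*(r^12*(1)^2-(1)^2)) = 0 := by
    simp only [Df, Sf]
    linear_combination (0) * hr
  have hE : 1 - (Wf r (1) (1)).w1 = ((Df r (1) (1)) -((r^8*(1)^2-(1)^2)*(r^12*(1)^2-(1)^2))) / ((Df r (1) (1))) := by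
    simp only [Wf, Kf, kf, xf]
    first | done | (field_simp; done) | (field_simp; ring)
  rw [hE, hN, zero_div]

theorem R0_e5 (r : ℂ) (hr : r^16 + 1 = 0) (hr0 : r ≠ 0)
    (h1 : Df r (1) (1) ≠ 0) :
    (Wf r (1) (1)).w2 = 0 := by
  have hN : (-(r^8*((1)^2-(1)^2)*(r^4*(1)^2-(1)^2))) = 0 := by
    linear_combination (0) * hr
  have hE : (Wf r (1) (1)).w2 = ((-(r^8*((1)^2-(1)^2)*(r^4*(1)^2-(1)^2)))) / ((Df r (1) (1))) := by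
    simp only [Wf, Kf, kf, xf]
    first | done | (field_simp; done) | (field_simp; ring)
  rw [hE, hN, zero_div]

theorem R0_scal (r : ℂ) (hr : r^16 + 1 = 0) (hr0 : r ≠ 0)
    (h1 : Df r (1) (1) ≠ 0) :
    R0.Eqs (Wf r (1) (1)) :=
  ⟨R0_e1 r hr hr0 h1,
   R0_e2 r hr hr0 h1,
   R0_e3 r hr hr0 h1,
   R0_e4 r hr hr0 h1,
   R0_e5 r hr hr0 h1⟩

theorem Inv_e1 (r z : ℂ) (hr : r^16 + 1 = 0) (hz : z ≠ 0) (hr0 : r ≠ 0)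
    (h1 : Df r (z) (1) ≠ 0)
    (h2 : Df r (1) (z) ≠ 0) :
    (Wf r (z) (1)).u2 * (Wf r (1) (z)).w1 + (Wf r (1) (z)).u2 = 0 := by
  have hN : (r^6*(z)*(1)*(r^8-1)*((z)^2-(1)^2))*((r^8*(z)^2-(1)^2)*(r^12*(z)^2-(1)^2)) +(r^6*(1)*(z)*(r^8-1)*((1)^2-(z)^2))*(Df r (z) (1)) = 0 := by
    simp only [Df, Sf]
    linear_combination (0) * hr
  have hE : (Wf r (z) (1)).u2 * (Wf r (1) (z)).w1 + (Wf r (1) (z)).u2 = ((r^6*(z)*(1)*(r^8-1)*((z)^2-(1)^2))*((r^8*(z)^2-(1)^2)*(r^12*(z)^2-(1)^2)) +(r^6*(1)*(z)*(r^8-1)*((1)^2-(z)^2))*(Df r (z) (1))) / ((Df r (z) (1))*(Df r (1) (z))) := by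
    simp only [Wf, Kf, kf, xf]
    first | done | (field_simp; done) | (field_simp; ring)
  rw [hE, hN, zero_div]

theorem Inv_e2 (r z : ℂ) (hr : r^16 + 1 = 0) (hz : z ≠ 0) (hr0 : r ≠ 0)
    (h1 : Df r (z) (1) ≠ 0)
    (h2 : Df r (1) (z) ≠ 0) :
    1 - (Wf r (z) (1)).u1 * (Wf r (1) (z)).u1 - (Wf r (z) (1)).v * (Wf r (1) (z)).v = 0 := by
  have hN : (Df r (z) (1))*(Df r (1) (z)) -((r^8-1)*(z)*(1)*(r^12*(1)^2-(z)^2))*((r^8-1)*(1)*(z)*(r^12*(z)^2-(1)^2)) -(r^4*((z)^2-(1)^2)*(r^12*(1)^2-(z)^2))*(r^4*((1)^2-(z)^2)*(r^12*(z)^2-(1)^2)) = 0 := by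
    simp only [Df, Sf]
    linear_combination (0) * hr
  have hE : 1 - (Wf r (z) (1)).u1 * (Wf r (1) (z)).u1 - (Wf r (z) (1)).v * (Wf r (1) (z)).v = ((Df r (z) (1))*(Df r (1) (z)) -((r^8-1)*(z)*(1)*(r^12*(1)^2-(z)^2))*((r^8-1)*(1)*(z)*(r^12*(z)^2-(1)^2)) -(r^4*((z)^2-(1)^2)*(r^12*(1)^2-(z)^2))*(r^4*((1)^2-(z)^2)*(r^12*(z)^2-(1)^2))) / ((Df r (z) (1))*(Df r (1) (z))) := by
    simp only [Wf, Kf, kf, xf]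
    first | done | (field_simp; done) | (field_simp; ring)
  rw [hE, hN, zero_div]

theorem Inv_e3 (r z : ℂ) (hr : r^16 + 1 = 0) (hz : z ≠ 0) (hr0 : r ≠ 0)
    (h1 : Df r (z) (1) ≠ 0)
    (h2 : Df r (1) (z) ≠ 0) :
    (Wf r (z) (1)).u1 * (Wf r (1) (z)).v + (Wf r (z) (1)).v * (Wf r (1) (z)).u1 = 0 := by
  have hN : ((r^8-1)*(z)*(1)*(r^12*(1)^2-(z)^2))*(r^4*((1)^2-(z)^2)*(r^12*(z)^2-(1)^2)) +(r^4*((z)^2-(1)^2)*(r^12*(1)^2-(z)^2))*((r^8-1)*(1)*(z)*(r^12*(z)^2-(1)^2)) = 0 := by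
    linear_combination (0) * hr
  have hE : (Wf r (z) (1)).u1 * (Wf r (1) (z)).v + (Wf r (z) (1)).v * (Wf r (1) (z)).u1 = (((r^8-1)*(z)*(1)*(r^12*(1)^2-(z)^2))*(r^4*((1)^2-(z)^2)*(r^12*(z)^2-(1)^2)) +(r^4*((z)^2-(1)^2)*(r^12*(1)^2-(z)^2))*((r^8-1)*(1)*(z)*(r^12*(z)^2-(1)^2))) / ((Df r (z) (1))*(Df r (1) (z))) := by
    simp only [Wf, Kf, kf, xf]
    first | done | (field_simp; done) | (field_simp; ring)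
  rw [hE, hN, zero_div]

theorem Inv_e4 (r z : ℂ) (hr : r^16 + 1 = 0) (hz : z ≠ 0) (hr0 : r ≠ 0)
    (h1 : Df r (z) (1) ≠ 0)
    (h2 : Df r (1) (z) ≠ 0) :
    1 - (Wf r (z) (1)).w1 * (Wf r (1) (z)).w1 = 0 := by
  have hN : (Df r (z) (1))*(Df r (1) (z)) -((r^8*(1)^2-(z)^2)*(r^12*(1)^2-(z)^2))*((r^8*(z)^2-(1)^2)*(r^12*(z)^2-(1)^2)) = 0 := by
    simp only [Df, Sf]
    linear_combination (0) * hr
  have hE : 1 - (Wf r (z) (1)).w1 * (Wf r (1) (z)).w1 = ((Df r (z) (1))*(Df r (1) (z)) -((r^8*(1)^2-(z)^2)*(r^12*(1)^2-(z)^2))*((r^8*(z)^2-(1)^2)*(r^12*(z)^2-(1)^2))) / ((Df r (z) (1))*(Df r (1) (z))) := by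
    simp only [Wf, Kf, kf, xf]
    first | done | (field_simp; done) | (field_simp; ring)
  rw [hE, hN, zero_div]

theorem Inv_e5 (r z : ℂ) (hr : r^16 + 1 = 0) (hz : z ≠ 0) (hr0 : r ≠ 0)
    (h1 : Df r (z) (1) ≠ 0)
    (h2 : Df r (1) (z) ≠ 0) :
    (Wf r (z) (1)).u2 + (Wf r (z) (1)).w1 * (Wf r (1) (z)).u2 = 0 := by
  have hN : (r^6*(z)*(1)*(r^8-1)*((z)^2-(1)^2))*(Df r (1) (z)) +((r^8*(1)^2-(z)^2)*(r^12*(1)^2-(z)^2))*(r^6*(1)*(z)*(r^8-1)*((1)^2-(z)^2)) = 0 := by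
    simp only [Df, Sf]
    linear_combination (0) * hr
  have hE : (Wf r (z) (1)).u2 + (Wf r (z) (1)).w1 * (Wf r (1) (z)).u2 = ((r^6*(z)*(1)*(r^8-1)*((z)^2-(1)^2))*(Df r (1) (z)) +((r^8*(1)^2-(z)^2)*(r^12*(1)^2-(z)^2))*(r^6*(1)*(z)*(r^8-1)*((1)^2-(z)^2))) / ((Df r (z) (1))*(Df r (1) (z))) := by
    simp only [Wf, Kf, kf, xf]
    first | done | (field_simp; done) | (field_simp; ring)
  rw [hE, hN, zero_div]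

theorem Inv_e6 (r z : ℂ) (hr : r^16 + 1 = 0) (hz : z ≠ 0) (hr0 : r ≠ 0)
    (h1 : Df r (z) (1) ≠ 0)
    (h2 : Df r (1) (z) ≠ 0) :
    (Wf r (z) (1)).u2 * (Wf r (1) (z)).u2 + (Wf r (z) (1)).w1 * (Wf r (1) (z)).w2 + (Wf r (z) (1)).w2 * (Wf r (1) (z)).w1 = 0 := by
  have hN : (r^6*(z)*(1)*(r^8-1)*((z)^2-(1)^2))*(r^6*(1)*(z)*(r^8-1)*((1)^2-(z)^2)) +((r^8*(1)^2-(z)^2)*(r^12*(1)^2-(z)^2))*(-(r^8*((1)^2-(z)^2)*(r^4*(z)^2-(1)^2))) +(-(r^8*((z)^2-(1)^2)*(r^4*(1)^2-(z)^2)))*((r^8*(z)^2-(1)^2)*(r^12*(z)^2-(1)^2)) = 0 := by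
    linear_combination (-r^8*z^2 +2*r^8*z^4 -r^8*z^6 +r^12 -2*r^12*z^2 +2*r^12*z^4 -2*r^12*z^6 +r^12*z^8 -r^16*z^2 +2*r^16*z^4 -r^16*z^6) * hr
  have hE : (Wf r (z) (1)).u2 * (Wf r (1) (z)).u2 + (Wf r (z) (1)).w1 * (Wf r (1) (z)).w2 + (Wf r (z) (1)).w2 * (Wf r (1) (z)).w1 = ((r^6*(z)*(1)*(r^8-1)*((z)^2-(1)^2))*(r^6*(1)*(z)*(r^8-1)*((1)^2-(z)^2)) +((r^8*(1)^2-(z)^2)*(r^12*(1)^2-(z)^2))*(-(r^8*((1)^2-(z)^2)*(r^4*(z)^2-(1)^2))) +(-(r^8*((z)^2-(1)^2)*(r^4*(1)^2-(z)^2)))*((r^8*(z)^2-(1)^2)*(r^12*(z)^2-(1)^2))) / ((Df r (z) (1))*(Df r (1) (z))) := by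
    simp only [Wf, Kf, kf, xf]
    first | done | (field_simp; done) | (field_simp; ring)
  rw [hE, hN, zero_div]

theorem Inv_scal (r z : ℂ) (hr : r^16 + 1 = 0) (hz : z ≠ 0) (hr0 : r ≠ 0)
    (h1 : Df r (z) (1) ≠ 0)
    (h2 : Df r (1) (z) ≠ 0) :
    Inv.Eqs (Wf r (z) (1)) (Wf r (1) (z)) :=
  ⟨Inv_e1 r z hr hz hr0 h1 h2,
   Inv_e2 r z hr hz hr0 h1 h2,
   Inv_e3 r z hr hz hr0 h1 h2,
   Inv_e4 r z hr hz hr0 h1 h2,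
   Inv_e5 r z hr hz hr0 h1 h2,
   Inv_e6 r z hr hz hr0 h1 h2⟩

theorem C1_e1 (r z : ℂ) (hr : r^16 + 1 = 0) (hz : z ≠ 0) (hr0 : r ≠ 0)
    (h1 : Df r (r^6) (z^2) ≠ 0)
    (h2 : Sf r (r^6) (z) ≠ 0)
    (h3 : Sf r (z) (1) ≠ 0) :
    (kf r (r^6) (z)) * (Wf r (r^6) (z^2)).u1 + (kf r (r^6) (z)) * (Wf r (r^6) (z^2)).v - (kf r (z) (1)) = 0 := by
  have hN : (r^3*((r^6)^4-(z)^4))*((r^8-1)*(r^6)*(z^2)*(r^12*(z^2)^2-(r^6)^2))*(Sf r (z) (1)) +(r^3*((r^6)^4-(z)^4))*(r^4*((r^6)^2-(z^2)^2)*(r^12*(z^2)^2-(r^6)^2))*(Sf r (z) (1)) -(r^3*((z)^4-(1)^4))*((r^6))*(Sf r (r^6) (z))*(Df r (r^6) (z^2)) = 0 := by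
    simp only [Df, Sf]
    linear_combination (-r^9*z^10 +r^9*z^14 +r^19*z^8 -r^19*z^12 +r^21*z^6 -r^21*z^10 -r^31*z^4 +r^31*z^8 +r^33*z^6 -r^33*z^10 -r^43*z^4 +r^43*z^8 -r^45*z^2 +r^45*z^6 +r^55 -r^55*z^4) * hr
  have hE : (kf r (r^6) (z)) * (Wf r (r^6) (z^2)).u1 + (kf r (r^6) (z)) * (Wf r (r^6) (z^2)).v - (kf r (z) (1)) = ((r^3*((r^6)^4-(z)^4))*((r^8-1)*(r^6)*(z^2)*(r^12*(z^2)^2-(r^6)^2))*(Sf r (z) (1)) +(r^3*((r^6)^4-(z)^4))*(r^4*((r^6)^2-(z^2)^2)*(r^12*(z^2)^2-(r^6)^2))*(Sf r (z) (1)) -(r^3*((z)^4-(1)^4))*((r^6))*(Sf r (r^6) (z))*(Df r (r^6) (z^2))) / (((r^6))*((z))*(Sf r (r^6) (z))*(Df r (r^6) (z^2))*(Sf r (z) (1))) := by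
    simp only [Wf, Kf, kf, xf]
    first | done | (field_simp; done) | (field_simp; ring)
  rw [hE, hN, zero_div]

theorem C1_e2 (r z : ℂ) (hr : r^16 + 1 = 0) (hz : z ≠ 0) (hr0 : r ≠ 0)
    (h1 : Df r (r^6) (z^2) ≠ 0)
    (h2 : Sf r (r^6) (z) ≠ 0)
    (h3 : Sf r (z) (1) ≠ 0) :
    (Wf r (r^6) (z^2)).u2 + (Wf r (r^6) (z^2)).w1 * (Kf r (r^6) (z)) - (Kf r (z) (1)) = 0 := by
  have hN : (r^6*(r^6)*(z^2)*(r^8-1)*((r^6)^2-(z^2)^2))*(Sf r (r^6) (z))*(Sf r (z) (1)) +((r^8*(z^2)^2-(r^6)^2)*(r^12*(z^2)^2-(r^6)^2))*(r^6*(z)^2-(r^6)^2)*(Sf r (z) (1)) -(r^6*(1)^2-(z)^2)*(Df r (r^6) (z^2))*(Sf r (r^6) (z)) = 0 := by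
    simp only [Df, Sf]
    linear_combination (-z^12 +r^6*z^10 +r^12*z^8 +r^16*z^12 -r^22*z^10 -r^24*z^4 -r^28*z^8 -r^30*z^2 +r^36 +r^40*z^4 +r^46*z^2 -r^52) * hr
  have hE : (Wf r (r^6) (z^2)).u2 + (Wf r (r^6) (z^2)).w1 * (Kf r (r^6) (z)) - (Kf r (z) (1)) = ((r^6*(r^6)*(z^2)*(r^8-1)*((r^6)^2-(z^2)^2))*(Sf r (r^6) (z))*(Sf r (z) (1)) +((r^8*(z^2)^2-(r^6)^2)*(r^12*(z^2)^2-(r^6)^2))*(r^6*(z)^2-(r^6)^2)*(Sf r (z) (1)) -(r^6*(1)^2-(z)^2)*(Df r (r^6) (z^2))*(Sf r (r^6) (z))) / ((Df r (r^6) (z^2))*(Sf r (r^6) (z))*(Sf r (z) (1))) := by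
    simp only [Wf, Kf, kf, xf]
    first | done | (field_simp; done) | (field_simp; ring)
  rw [hE, hN, zero_div]

theorem C1_scal (r z : ℂ) (hr : r^16 + 1 = 0) (hz : z ≠ 0) (hr0 : r ≠ 0)
    (h1 : Df r (r^6) (z^2) ≠ 0)
    (h2 : Sf r (r^6) (z) ≠ 0)
    (h3 : Sf r (z) (1) ≠ 0) :
    C1.Eqs (Wf r (r^6) (z^2)) (Kf r (r^6) (z)) (kf r (r^6) (z)) (Kf r (z) (1)) (kf r (z) (1)) :=
  ⟨C1_e1 r z hr hz hr0 h1 h2 h3,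
   C1_e2 r z hr hz hr0 h1 h2 h3⟩

theorem C2_e1 (r z : ℂ) (hr : r^16 + 1 = 0) (hz : z ≠ 0) (hr0 : r ≠ 0)
    (h1 : Df r (z^2) (r^6) ≠ 0)
    (h2 : Sf r (z) (1) ≠ 0)
    (h3 : Sf r (r^6) (z) ≠ 0) :
    (kf r (z) (1)) * (Wf r (z^2) (r^6)).u1 + (kf r (z) (1)) * (Wf r (z^2) (r^6)).v - (kf r (r^6) (z)) = 0 := by
  have hN : (r^3*((z)^4-(1)^4))*((r^8-1)*(z^2)*(r^6)*(r^12*(r^6)^2-(z^2)^2))*((r^6))*(Sf r (r^6) (z)) +(r^3*((z)^4-(1)^4))*(r^4*((z^2)^2-(r^6)^2)*(r^12*(r^6)^2-(z^2)^2))*((r^6))*(Sf r (r^6) (z)) -(r^3*((r^6)^4-(z)^4))*(Sf r (z) (1))*(Df r (z^2) (r^6)) = 0 := by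
    simp only [Df, Sf]
    linear_combination (-r^13*z^10 +r^13*z^14 +r^15*z^8 -r^15*z^12 +r^25*z^6 -r^25*z^10 -r^27*z^4 +r^27*z^8 +r^37*z^6 -r^37*z^10 -r^39*z^4 +r^39*z^8 -r^49*z^2 +r^49*z^6 +r^51 -r^51*z^4) * hr
  have hE : (kf r (z) (1)) * (Wf r (z^2) (r^6)).u1 + (kf r (z) (1)) * (Wf r (z^2) (r^6)).v - (kf r (r^6) (z)) = ((r^3*((z)^4-(1)^4))*((r^8-1)*(z^2)*(r^6)*(r^12*(r^6)^2-(z^2)^2))*((r^6))*(Sf r (r^6) (z)) +(r^3*((z)^4-(1)^4))*(r^4*((z^2)^2-(r^6)^2)*(r^12*(r^6)^2-(z^2)^2))*((r^6))*(Sf r (r^6) (z)) -(r^3*((r^6)^4-(z)^4))*(Sf r (z) (1))*(Df r (z^2) (r^6))) / (((z))*(Sf r (z) (1))*(Df r (z^2) (r^6))*((r^6))*(Sf r (r^6) (z))) := by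
    simp only [Wf, Kf, kf, xf]
    first | done | (field_simp; done) | (field_simp; ring)
  rw [hE, hN, zero_div]

theorem C2_e2 (r z : ℂ) (hr : r^16 + 1 = 0) (hz : z ≠ 0) (hr0 : r ≠ 0)
    (h1 : Df r (z^2) (r^6) ≠ 0)
    (h2 : Sf r (z) (1) ≠ 0)
    (h3 : Sf r (r^6) (z) ≠ 0) :
    (Wf r (z^2) (r^6)).u2 + (Wf r (z^2) (r^6)).w1 * (Kf r (z) (1)) - (Kf r (r^6) (z)) = 0 := by
  have hN : (r^6*(z^2)*(r^6)*(r^8-1)*((z^2)^2-(r^6)^2))*(Sf r (z) (1))*(Sf r (r^6) (z)) +((r^8*(r^6)^2-(z^2)^2)*(r^12*(r^6)^2-(z^2)^2))*(r^6*(1)^2-(z)^2)*(Sf r (r^6) (z)) -(r^6*(z)^2-(r^6)^2)*(Df r (z^2) (r^6))*(Sf r (z) (1)) = 0 := by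
    simp only [Df, Sf]
    linear_combination (z^12 -r^6*z^10 -r^12*z^8 -r^16*z^12 +r^22*z^10 +r^24*z^4 +r^28*z^8 +r^30*z^2 -r^36 -r^40*z^4 -r^46*z^2 +r^52) * hr
  have hE : (Wf r (z^2) (r^6)).u2 + (Wf r (z^2) (r^6)).w1 * (Kf r (z) (1)) - (Kf r (r^6) (z)) = ((r^6*(z^2)*(r^6)*(r^8-1)*((z^2)^2-(r^6)^2))*(Sf r (z) (1))*(Sf r (r^6) (z)) +((r^8*(r^6)^2-(z^2)^2)*(r^12*(r^6)^2-(z^2)^2))*(r^6*(1)^2-(z)^2)*(Sf r (r^6) (z)) -(r^6*(z)^2-(r^6)^2)*(Df r (z^2) (r^6))*(Sf r (z) (1))) / ((Df r (z^2) (r^6))*(Sf r (z) (1))*(Sf r (r^6) (z))) := by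
    simp only [Wf, Kf, kf, xf]
    first | done | (field_simp; done) | (field_simp; ring)
  rw [hE, hN, zero_div]

theorem C2_scal (r z : ℂ) (hr : r^16 + 1 = 0) (hz : z ≠ 0) (hr0 : r ≠ 0)
    (h1 : Df r (z^2) (r^6) ≠ 0)
    (h2 : Sf r (z) (1) ≠ 0)
    (h3 : Sf r (r^6) (z) ≠ 0) :
    C2.Eqs (Wf r (z^2) (r^6)) (Kf r (z) (1)) (kf r (z) (1)) (Kf r (r^6) (z)) (kf r (r^6) (z)) :=
  ⟨C2_e1 r z hr hz hr0 h1 h2 h3,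
   C2_e2 r z hr hz hr0 h1 h2 h3⟩

theorem R3_e1 (r : ℂ) (hr : r^16 + 1 = 0) (hr0 : r ≠ 0)
    (h1 : Df r (r^6) (1) ≠ 0) :
    1 - (Wf r (r^6) (1)).u2 = 0 := by
  have hN : (Df r (r^6) (1)) -(r^6*(r^6)*(1)*(r^8-1)*((r^6)^2-(1)^2)) = 0 := by
    simp only [Df, Sf]
    linear_combination (1 -r^12 -r^16 +r^28) * hr
  have hE : 1 - (Wf r (r^6) (1)).u2 = ((Df r (r^6) (1)) -(r^6*(r^6)*(1)*(r^8-1)*((r^6)^2-(1)^2))) / ((Df r (r^6) (1))) := by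
    simp only [Wf, Kf, kf, xf]
    first | done | (field_simp; done) | (field_simp; ring)
  rw [hE, hN, zero_div]

theorem R3_e2 (r : ℂ) (hr : r^16 + 1 = 0) (hr0 : r ≠ 0)
    (h1 : Df r (r^6) (1) ≠ 0) :
    (Wf r (r^6) (1)).v = 0 := by
  have hN : (r^4*((r^6)^2-(1)^2)*(r^12*(1)^2-(r^6)^2)) = 0 := by
    linear_combination (0) * hr
  have hE : (Wf r (r^6) (1)).v = ((r^4*((r^6)^2-(1)^2)*(r^12*(1)^2-(r^6)^2))) / ((Df r (r^6) (1))) := by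
    simp only [Wf, Kf, kf, xf]
    first | done | (field_simp; done) | (field_simp; ring)
  rw [hE, hN, zero_div]

theorem R3_e3 (r : ℂ) (hr : r^16 + 1 = 0) (hr0 : r ≠ 0)
    (h1 : Df r (r^6) (1) ≠ 0) :
    (Wf r (r^6) (1)).u1 = 0 := by
  have hN : ((r^8-1)*(r^6)*(1)*(r^12*(1)^2-(r^6)^2)) = 0 := by
    linear_combination (0) * hr
  have hE : (Wf r (r^6) (1)).u1 = (((r^8-1)*(r^6)*(1)*(r^12*(1)^2-(r^6)^2))) / ((Df r (r^6) (1))) := by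
    simp only [Wf, Kf, kf, xf]
    first | done | (field_simp; done) | (field_simp; ring)
  rw [hE, hN, zero_div]

theorem R3_e4 (r : ℂ) (hr : r^16 + 1 = 0) (hr0 : r ≠ 0)
    (h1 : Df r (r^6) (1) ≠ 0) :
    (Wf r (r^6) (1)).w1 = 0 := by
  have hN : ((r^8*(1)^2-(r^6)^2)*(r^12*(1)^2-(r^6)^2)) = 0 := by
    linear_combination (0) * hr
  have hE : (Wf r (r^6) (1)).w1 = (((r^8*(1)^2-(r^6)^2)*(r^12*(1)^2-(r^6)^2))) / ((Df r (r^6) (1))) := by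
    simp only [Wf, Kf, kf, xf]
    first | done | (field_simp; done) | (field_simp; ring)
  rw [hE, hN, zero_div]

theorem R3_e5 (r : ℂ) (hr : r^16 + 1 = 0) (hr0 : r ≠ 0)
    (h1 : Df r (r^6) (1) ≠ 0) :
    1 - (Wf r (r^6) (1)).w2 = 0 := by
  have hN : (Df r (r^6) (1)) -(-(r^8*((r^6)^2-(1)^2)*(r^4*(1)^2-(r^6)^2))) = 0 := by
    simp only [Df, Sf]
    linear_combination (1 -r^12 -r^16 +r^28) * hr
  have hE : 1 - (Wf r (r^6) (1)).w2 = ((Df r (r^6) (1)) -(-(r^8*((r^6)^2-(1)^2)*(r^4*(1)^2-(r^6)^2)))) / ((Df r (r^6) (1))) := by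
    simp only [Wf, Kf, kf, xf]
    first | done | (field_simp; done) | (field_simp; ring)
  rw [hE, hN, zero_div]

theorem R3_scal (r : ℂ) (hr : r^16 + 1 = 0) (hr0 : r ≠ 0)
    (h1 : Df r (r^6) (1) ≠ 0) :
    R3.Eqs (Wf r (r^6) (1)) :=
  ⟨R3_e1 r hr hr0 h1,
   R3_e2 r hr hr0 h1,
   R3_e3 r hr hr0 h1,
   R3_e4 r hr hr0 h1,
   R3_e5 r hr hr0 h1⟩

theorem FI_e1 (r z : ℂ) (hr : r^16 + 1 = 0) (hz : z ≠ 0) (hr0 : r ≠ 0)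
    (h1 : Sf r (z) (1) ≠ 0)
    (h2 : Sf r (1) (z) ≠ 0) :
    (kf r (z) (1)) * (Kf r (1) (z)) + (kf r (1) (z)) = 0 := by
  have hN : (r^3*((z)^4-(1)^4))*(r^6*(z)^2-(1)^2) +(r^3*((1)^4-(z)^4))*(Sf r (z) (1)) = 0 := by
    simp only [Df, Sf]
    linear_combination (0) * hr
  have hE : (kf r (z) (1)) * (Kf r (1) (z)) + (kf r (1) (z)) = ((r^3*((z)^4-(1)^4))*(r^6*(z)^2-(1)^2) +(r^3*((1)^4-(z)^4))*(Sf r (z) (1))) / (((z))*(Sf r (z) (1))*(Sf r (1) (z))) := by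
    simp only [Wf, Kf, kf, xf]
    first | done | (field_simp; done) | (field_simp; ring)
  rw [hE, hN, zero_div]

theorem FI_e2 (r z : ℂ) (hr : r^16 + 1 = 0) (hz : z ≠ 0) (hr0 : r ≠ 0)
    (h1 : Sf r (z) (1) ≠ 0)
    (h2 : Sf r (1) (z) ≠ 0) :
    1 - (Kf r (z) (1)) * (Kf r (1) (z)) = 0 := by
  have hN : (Sf r (z) (1))*(Sf r (1) (z)) -(r^6*(1)^2-(z)^2)*(r^6*(z)^2-(1)^2) = 0 := by
    simp only [Df, Sf]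
    linear_combination (0) * hr
  have hE : 1 - (Kf r (z) (1)) * (Kf r (1) (z)) = ((Sf r (z) (1))*(Sf r (1) (z)) -(r^6*(1)^2-(z)^2)*(r^6*(z)^2-(1)^2)) / ((Sf r (z) (1))*(Sf r (1) (z))) := by
    simp only [Wf, Kf, kf, xf]
    first | done | (field_simp; done) | (field_simp; ring)
  rw [hE, hN, zero_div]

theorem FI_e3 (r z : ℂ) (hr : r^16 + 1 = 0) (hz : z ≠ 0) (hr0 : r ≠ 0)
    (h1 : Sf r (z) (1) ≠ 0)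
    (h2 : Sf r (1) (z) ≠ 0) :
    (kf r (z) (1)) + (kf r (1) (z)) * (Kf r (z) (1)) = 0 := by
  have hN : (r^3*((z)^4-(1)^4))*(Sf r (1) (z)) +(r^3*((1)^4-(z)^4))*(r^6*(1)^2-(z)^2) = 0 := by
    simp only [Df, Sf]
    linear_combination (0) * hr
  have hE : (kf r (z) (1)) + (kf r (1) (z)) * (Kf r (z) (1)) = ((r^3*((z)^4-(1)^4))*(Sf r (1) (z)) +(r^3*((1)^4-(z)^4))*(r^6*(1)^2-(z)^2)) / (((z))*(Sf r (z) (1))*(Sf r (1) (z))) := by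
    simp only [Wf, Kf, kf, xf]
    first | done | (field_simp; done) | (field_simp; ring)
  rw [hE, hN, zero_div]

theorem FI_scal (r z : ℂ) (hr : r^16 + 1 = 0) (hz : z ≠ 0) (hr0 : r ≠ 0)
    (h1 : Sf r (z) (1) ≠ 0)
    (h2 : Sf r (1) (z) ≠ 0) :
    FI.Eqs (Kf r (z) (1)) (kf r (z) (1)) (Kf r (1) (z)) (kf r (1) (z)) :=
  ⟨FI_e1 r z hr hz hr0 h1 h2,
   FI_e2 r z hr hz hr0 h1 h2,
   FI_e3 r z hr hz hr0 h1 h2⟩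

theorem R2_e1 (r : ℂ) (hr : r^16 + 1 = 0) (hr0 : r ≠ 0)
    (h1 : Df r (r^4) (1) ≠ 0)
    (h2 : (r^4+1) ≠ 0) :
    (Wf r (r^4) (1)).u2 - (xf r) = 0 := by
  have hN : (r^6*(r^4)*(1)*(r^8-1)*((r^4)^2-(1)^2))*((r^4+1)) -(r^2)*(Df r (r^4) (1)) = 0 := by
    simp only [Df, Sf]
    linear_combination (-r^2 +r^10 +r^14 -r^22) * hr
  have hE : (Wf r (r^4) (1)).u2 - (xf r) = ((r^6*(r^4)*(1)*(r^8-1)*((r^4)^2-(1)^2))*((r^4+1)) -(r^2)*(Df r (r^4) (1))) / ((Df r (r^4) (1))*((r^4+1))) := by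
    simp only [Wf, Kf, kf, xf]
    first | done | (field_simp; done) | (field_simp; ring)
  rw [hE, hN, zero_div]

theorem R2_e2 (r : ℂ) (hr : r^16 + 1 = 0) (hr0 : r ≠ 0)
    (h1 : Df r (r^4) (1) ≠ 0)
    (h2 : (r^4+1) ≠ 0) :
    (Wf r (r^4) (1)).v - (xf r) * (xf r) = 0 := by
  have hN : (r^4*((r^4)^2-(1)^2)*(r^12*(1)^2-(r^4)^2))*((r^4+1))*((r^4+1)) -(r^2)*(r^2)*(Df r (r^4) (1)) = 0 := by
    simp only [Df, Sf]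
    linear_combination (-r^4 +r^12 +r^16 -r^24) * hr
  have hE : (Wf r (r^4) (1)).v - (xf r) * (xf r) = ((r^4*((r^4)^2-(1)^2)*(r^12*(1)^2-(r^4)^2))*((r^4+1))*((r^4+1)) -(r^2)*(r^2)*(Df r (r^4) (1))) / ((Df r (r^4) (1))*((r^4+1))^2) := by
    simp only [Wf, Kf, kf, xf]
    first | done | (field_simp; done) | (field_simp; ring)
  rw [hE, hN, zero_div]

theorem R2_e3 (r : ℂ) (hr : r^16 + 1 = 0) (hr0 : r ≠ 0)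
    (h1 : Df r (r^4) (1) ≠ 0)
    (h2 : (r^4+1) ≠ 0) :
    (Wf r (r^4) (1)).u1 - (xf r) * (xf r) = 0 := by
  have hN : ((r^8-1)*(r^4)*(1)*(r^12*(1)^2-(r^4)^2))*((r^4+1))*((r^4+1)) -(r^2)*(r^2)*(Df r (r^4) (1)) = 0 := by
    simp only [Df, Sf]
    linear_combination (-r^4 +r^12 +r^16 -r^24) * hr
  have hE : (Wf r (r^4) (1)).u1 - (xf r) * (xf r) = (((r^8-1)*(r^4)*(1)*(r^12*(1)^2-(r^4)^2))*((r^4+1))*((r^4+1)) -(r^2)*(r^2)*(Df r (r^4) (1))) / ((Df r (r^4) (1))*((r^4+1))^2) := by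
    simp only [Wf, Kf, kf, xf]
    first | done | (field_simp; done) | (field_simp; ring)
  rw [hE, hN, zero_div]

theorem R2_e4 (r : ℂ) (hr : r^16 + 1 = 0) (hr0 : r ≠ 0)
    (h1 : Df r (r^4) (1) ≠ 0)
    (h2 : (r^4+1) ≠ 0) :
    (Wf r (r^4) (1)).w1 = 0 := by
  have hN : ((r^8*(1)^2-(r^4)^2)*(r^12*(1)^2-(r^4)^2)) = 0 := by
    linear_combination (0) * hr
  have hE : (Wf r (r^4) (1)).w1 = (((r^8*(1)^2-(r^4)^2)*(r^12*(1)^2-(r^4)^2))) / ((Df r (r^4) (1))) := by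
    simp only [Wf, Kf, kf, xf]
    first | done | (field_simp; done) | (field_simp; ring)
  rw [hE, hN, zero_div]

theorem R2_e5 (r : ℂ) (hr : r^16 + 1 = 0) (hr0 : r ≠ 0)
    (h1 : Df r (r^4) (1) ≠ 0)
    (h2 : (r^4+1) ≠ 0) :
    (Wf r (r^4) (1)).w2 - (xf r) * (xf r) = 0 := by
  have hN : (-(r^8*((r^4)^2-(1)^2)*(r^4*(1)^2-(r^4)^2)))*((r^4+1))*((r^4+1)) -(r^2)*(r^2)*(Df r (r^4) (1)) = 0 := by
    simp only [Df, Sf]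
    linear_combination (-r^4 +r^12 +r^16 -r^24) * hr
  have hE : (Wf r (r^4) (1)).w2 - (xf r) * (xf r) = ((-(r^8*((r^4)^2-(1)^2)*(r^4*(1)^2-(r^4)^2)))*((r^4+1))*((r^4+1)) -(r^2)*(r^2)*(Df r (r^4) (1))) / ((Df r (r^4) (1))*((r^4+1))^2) := by
    simp only [Wf, Kf, kf, xf]
    first | done | (field_simp; done) | (field_simp; ring)
  rw [hE, hN, zero_div]

theorem R2_scal (r : ℂ) (hr : r^16 + 1 = 0) (hr0 : r ≠ 0)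
    (h1 : Df r (r^4) (1) ≠ 0)
    (h2 : (r^4+1) ≠ 0) :
    R2.Eqs (Wf r (r^4) (1)) (xf r) :=
  ⟨R2_e1 r hr hr0 h1 h2,
   R2_e2 r hr hr0 h1 h2,
   R2_e3 r hr hr0 h1 h2,
   R2_e4 r hr hr0 h1 h2,
   R2_e5 r hr hr0 h1 h2⟩

theorem Y5_e1 (r : ℂ) (hr : r^16 + 1 = 0) (hr0 : r ≠ 0)
    (h1 : Df r (r^2) (1) ≠ 0)
    (h2 : (r^4+1) ≠ 0) :
    (Wf r (r^2) (1)).u2 - (xf r) * (xf r) = 0 := by
  have hN : (r^6*(r^2)*(1)*(r^8-1)*((r^2)^2-(1)^2))*((r^4+1))*((r^4+1)) -(r^2)*(r^2)*(Df r (r^2) (1)) = 0 := by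
    simp only [Df, Sf]
    linear_combination (-r^4 +r^8 +r^12 -r^16) * hr
  have hE : (Wf r (r^2) (1)).u2 - (xf r) * (xf r) = ((r^6*(r^2)*(1)*(r^8-1)*((r^2)^2-(1)^2))*((r^4+1))*((r^4+1)) -(r^2)*(r^2)*(Df r (r^2) (1))) / ((Df r (r^2) (1))*((r^4+1))^2) := by
    simp only [Wf, Kf, kf, xf]
    first | done | (field_simp; done) | (field_simp; ring)
  rw [hE, hN, zero_div]

theorem Y5_e2 (r : ℂ) (hr : r^16 + 1 = 0) (hr0 : r ≠ 0)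
    (h1 : Df r (r^2) (1) ≠ 0)
    (h2 : (r^4+1) ≠ 0) :
    (Wf r (r^2) (1)).v - (xf r) * (xf r) = 0 := by
  have hN : (r^4*((r^2)^2-(1)^2)*(r^12*(1)^2-(r^2)^2))*((r^4+1))*((r^4+1)) -(r^2)*(r^2)*(Df r (r^2) (1)) = 0 := by
    simp only [Df, Sf]
    linear_combination (-r^4 +r^8 +r^12 -r^16) * hr
  have hE : (Wf r (r^2) (1)).v - (xf r) * (xf r) = ((r^4*((r^2)^2-(1)^2)*(r^12*(1)^2-(r^2)^2))*((r^4+1))*((r^4+1)) -(r^2)*(r^2)*(Df r (r^2) (1))) / ((Df r (r^2) (1))*((r^4+1))^2) := by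
    simp only [Wf, Kf, kf, xf]
    first | done | (field_simp; done) | (field_simp; ring)
  rw [hE, hN, zero_div]

theorem Y5_e3 (r : ℂ) (hr : r^16 + 1 = 0) (hr0 : r ≠ 0)
    (h1 : Df r (r^2) (1) ≠ 0)
    (h2 : (r^4+1) ≠ 0) :
    (Wf r (r^2) (1)).u1 - (xf r) = 0 := by
  have hN : ((r^8-1)*(r^2)*(1)*(r^12*(1)^2-(r^2)^2))*((r^4+1)) -(r^2)*(Df r (r^2) (1)) = 0 := by
    simp only [Df, Sf]
    linear_combination (-r^2 +r^6 +r^10 -r^14) * hr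
  have hE : (Wf r (r^2) (1)).u1 - (xf r) = (((r^8-1)*(r^2)*(1)*(r^12*(1)^2-(r^2)^2))*((r^4+1)) -(r^2)*(Df r (r^2) (1))) / ((Df r (r^2) (1))*((r^4+1))) := by
    simp only [Wf, Kf, kf, xf]
    first | done | (field_simp; done) | (field_simp; ring)
  rw [hE, hN, zero_div]

theorem Y5_e4 (r : ℂ) (hr : r^16 + 1 = 0) (hr0 : r ≠ 0)
    (h1 : Df r (r^2) (1) ≠ 0)
    (h2 : (r^4+1) ≠ 0) :
    (Wf r (r^2) (1)).w1 - (xf r) * (xf r) = 0 := by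
  have hN : ((r^8*(1)^2-(r^2)^2)*(r^12*(1)^2-(r^2)^2))*((r^4+1))*((r^4+1)) -(r^2)*(r^2)*(Df r (r^2) (1)) = 0 := by
    simp only [Df, Sf]
    linear_combination (-r^4 +r^8 +r^12 -r^16) * hr
  have hE : (Wf r (r^2) (1)).w1 - (xf r) * (xf r) = (((r^8*(1)^2-(r^2)^2)*(r^12*(1)^2-(r^2)^2))*((r^4+1))*((r^4+1)) -(r^2)*(r^2)*(Df r (r^2) (1))) / ((Df r (r^2) (1))*((r^4+1))^2) := by
    simp only [Wf, Kf, kf, xf]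
    first | done | (field_simp; done) | (field_simp; ring)
  rw [hE, hN, zero_div]

theorem Y5_e5 (r : ℂ) (hr : r^16 + 1 = 0) (hr0 : r ≠ 0)
    (h1 : Df r (r^2) (1) ≠ 0)
    (h2 : (r^4+1) ≠ 0) :
    (Wf r (r^2) (1)).w2 = 0 := by
  have hN : (-(r^8*((r^2)^2-(1)^2)*(r^4*(1)^2-(r^2)^2))) = 0 := by
    linear_combination (0) * hr
  have hE : (Wf r (r^2) (1)).w2 = ((-(r^8*((r^2)^2-(1)^2)*(r^4*(1)^2-(r^2)^2)))) / ((Df r (r^2) (1))) := by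
    simp only [Wf, Kf, kf, xf]
    first | done | (field_simp; done) | (field_simp; ring)
  rw [hE, hN, zero_div]

theorem Y5_scal (r : ℂ) (hr : r^16 + 1 = 0) (hr0 : r ≠ 0)
    (h1 : Df r (r^2) (1) ≠ 0)
    (h2 : (r^4+1) ≠ 0) :
    Y5.Eqs (Wf r (r^2) (1)) (xf r) :=
  ⟨Y5_e1 r hr hr0 h1 h2,
   Y5_e2 r hr hr0 h1 h2,
   Y5_e3 r hr hr0 h1 h2,
   Y5_e4 r hr hr0 h1 h2,
   Y5_e5 r hr hr0 h1 h2⟩

end Pool.Agent.EXL.Sc
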