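import Pool.Agent.EXL.ScalDefs
import Pool.Agent.EXL.LocCF
import Pool.Agent.EXL.LocCT
import Pool.Agent.EXL.LocCU
import Pool.Agent.EXL.LocCU2
import Pool.Agent.EXL.LocTI

/-!
# The scalar identities (generated)
-/

namespace Pool.Agent.EXL.Sc

set_option linter.unusedSimpArgs false
set_option linter.unusedVariables false
set_option linter.unreachableTactic false
set_option linter.unusedTactic false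

theorem CF_e1 (r z : ℂ) (hr : r^16 + 1 = 0) (hz : z ≠ 0) (hr0 : r ≠ 0)
    (h1 : Df r (z) (r^3) ≠ 0)
    (h2 : Df r (r^3) (z) ≠ 0)
    (h3 : Sf r (r^6) (z) ≠ 0) :
    1 - (kf r (r^6) (z)) * (Wf r (z) (r^3)).u1 * (Wf r (r^3) (z)).v - (kf r (r^6) (z)) * (Wf r (r^3) (z)).u1 - (Wf r (z) (r^3)).u2 * (Wf r (r^3) (z)).u1 * (Kf r (r^6) (z)) - (Wf r (z) (r^3)).v * (Wf r (r^3) (z)).v = 0 := by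
  have hN : ((r^6))*((z))*(Sf r (r^6) (z))*(Df r (z) (r^3))*(Df r (r^3) (z)) -(r^3*((r^6)^4-(z)^4))*((r^8-1)*(z)*(r^3)*(r^12*(r^3)^2-(z)^2))*(r^4*((r^3)^2-(z)^2)*(r^12*(z)^2-(r^3)^2)) -(r^3*((r^6)^4-(z)^4))*((r^8-1)*(r^3)*(z)*(r^12*(z)^2-(r^3)^2))*(Df r (z) (r^3)) -(r^6*(z)*(r^3)*(r^8-1)*((z)^2-(r^3)^2))*((r^8-1)*(r^3)*(z)*(r^12*(z)^2-(r^3)^2))*(r^6*(z)^2-(r^6)^2)*((r^6))*((z)) -(r^4*((z)^2-(r^3)^2)*(r^12*(r^3)^2-(z)^2))*(r^4*((r^3)^2-(z)^2)*(r^12*(z)^2-(r^3)^2))*((r^6))*((z))*(Sf r (r^6) (z)) = 0 := by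
    simp only [Df, Sf]
    linear_combination (r^16*z^9 -r^18*z^7 -r^22*z^7 -r^22*z^11 +r^24*z^5 +r^26*z^7 +r^28*z^9 +r^30*z^11 -r^32*z^5 -r^32*z^9 -r^36*z^9 +r^38*z^7 -r^40*z^5 +r^42*z^3 +r^46*z^3 +r^46*z^7 -r^48*z -r^50*z^3 -r^52*z^5 -r^54*z^7 +r^56*z +r^56*z^5 +r^60*z^5 -r^62*z^3) * hr
  have hE : 1 - (kf r (r^6) (z)) * (Wf r (z) (r^3)).u1 * (Wf r (r^3) (z)).v - (kf r (r^6) (z)) * (Wf r (r^3) (z)).u1 - (Wf r (z) (r^3)).u2 * (Wf r (r^3) (z)).u1 * (Kf r (r^6) (z)) - (Wf r (z) (r^3)).v * (Wf r (r^3) (z)).v = (((r^6))*((z))*(Sf r (r^6) (z))*(Df r (z) (r^3))*(Df r (r^3) (z)) -(r^3*((r^6)^4-(z)^4))*((r^8-1)*(z)*(r^3)*(r^12*(r^3)^2-(z)^2))*(r^4*((r^3)^2-(z)^2)*(r^12*(z)^2-(r^3)^2)) -(r^3*((r^6)^4-(z)^4))*((r^8-1)*(r^3)*(z)*(r^12*(z)^2-(r^3)^2))*(Df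 r (z) (r^3)) -(r^6*(z)*(r^3)*(r^8-1)*((z)^2-(r^3)^2))*((r^8-1)*(r^3)*(z)*(r^12*(z)^2-(r^3)^2))*(r^6*(z)^2-(r^6)^2)*((r^6))*((z)) -(r^4*((z)^2-(r^3)^2)*(r^12*(r^3)^2-(z)^2))*(r^4*((r^3)^2-(z)^2)*(r^12*(z)^2-(r^3)^2))*((r^6))*((z))*(Sf r (r^6) (z))) / (((r^6))*((z))*(Sf r (r^6) (z))*(Df r (z) (r^3))*(Df r (r^3) (z))) := by
    simp only [Wf, Kf, kf, xf]
    first | done | (field_simp; done) | (field_simp; ring)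
  rw [hE, hN, zero_div]

theorem CF_e2 (r z : ℂ) (hr : r^16 + 1 = 0) (hz : z ≠ 0) (hr0 : r ≠ 0)
    (h1 : Df r (z) (r^3) ≠ 0)
    (h2 : Df r (r^3) (z) ≠ 0)
    (h3 : Sf r (r^6) (z) ≠ 0) :
    (Wf r (z) (r^3)).u2 * (Wf r (r^3) (z)).v + (Wf r (z) (r^3)).v * (Wf r (r^3) (z)).u1 * (Kf r (r^6) (z)) = 0 := by
  have hN : (r^6*(z)*(r^3)*(r^8-1)*((z)^2-(r^3)^2))*(r^4*((r^3)^2-(z)^2)*(r^12*(z)^2-(r^3)^2))*(Sf r (r^6) (z)) +(r^4*((z)^2-(r^3)^2)*(r^12*(r^3)^2-(z)^2))*((r^8-1)*(r^3)*(z)*(r^12*(z)^2-(r^3)^2))*(r^6*(z)^2-(r^6)^2) = 0 := by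
    simp only [Df, Sf]
    linear_combination (0) * hr
  have hE : (Wf r (z) (r^3)).u2 * (Wf r (r^3) (z)).v + (Wf r (z) (r^3)).v * (Wf r (r^3) (z)).u1 * (Kf r (r^6) (z)) = ((r^6*(z)*(r^3)*(r^8-1)*((z)^2-(r^3)^2))*(r^4*((r^3)^2-(z)^2)*(r^12*(z)^2-(r^3)^2))*(Sf r (r^6) (z)) +(r^4*((z)^2-(r^3)^2)*(r^12*(r^3)^2-(z)^2))*((r^8-1)*(r^3)*(z)*(r^12*(z)^2-(r^3)^2))*(r^6*(z)^2-(r^6)^2)) / ((Df r (z) (r^3))*(Df r (r^3) (z))*(Sf r (r^6) (z))) := by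
    simp only [Wf, Kf, kf, xf]
    first | done | (field_simp; done) | (field_simp; ring)
  rw [hE, hN, zero_div]

theorem CF_e3 (r z : ℂ) (hr : r^16 + 1 = 0) (hz : z ≠ 0) (hr0 : r ≠ 0)
    (h1 : Df r (z) (r^3) ≠ 0)
    (h2 : Df r (r^3) (z) ≠ 0)
    (h3 : Sf r (r^6) (z) ≠ 0) :
    (kf r (r^6) (z)) - (kf r (r^6) (z)) * (Wf r (z) (r^3)).u2 * (Wf r (r^3) (z)).u2 - (kf r (r^6) (z)) * (Wf r (z) (r^3)).v - (Wf r (z) (r^3)).u1 - (Wf r (z) (r^3)).w2 * (Wf r (r^3) (z)).u2 * (Kf r (r^6) (z)) = 0 := by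
  have hN : (r^3*((r^6)^4-(z)^4))*(Df r (z) (r^3))*(Df r (r^3) (z)) -(r^3*((r^6)^4-(z)^4))*(r^6*(z)*(r^3)*(r^8-1)*((z)^2-(r^3)^2))*(r^6*(r^3)*(z)*(r^8-1)*((r^3)^2-(z)^2)) -(r^3*((r^6)^4-(z)^4))*(r^4*((z)^2-(r^3)^2)*(r^12*(r^3)^2-(z)^2))*(Df r (r^3) (z)) -((r^8-1)*(z)*(r^3)*(r^12*(r^3)^2-(z)^2))*((r^6))*((z))*(Sf r (r^6) (z))*(Df r (r^3) (z)) -(-(r^8*((z)^2-(r^3)^2)*(r^4*(r^3)^2-(z)^2)))*(r^6*(r^3)*(z)*(r^8-1)*((r^3)^2-(z)^2))*(r^6*(z)^2-(r^6)^2)*((r^6))*((z)) = 0 := by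
    simp only [Df, Sf]
    linear_combination (-r^7*z^12 +r^9*z^10 +r^13*z^10 -r^15*z^8 +r^21*z^10 -r^23*z^8 +r^25*z^10 -2*r^27*z^8 +r^29*z^6 -r^37*z^6 +r^39*z^4 -r^39*z^8 +r^41*z^6 -r^49*z^6 +2*r^51*z^4 -r^53*z^2 +r^55*z^4 -r^57*z^2 +r^63*z^4 -r^65*z^2 -r^69*z^2 +r^71) * hr
  have hE : (kf r (r^6) (z)) - (kf r (r^6) (z)) * (Wf r (z) (r^3)).u2 * (Wf r (r^3) (z)).u2 - (kf r (r^6) (z)) * (Wf r (z) (r^3)).v - (Wf r (z) (r^3)).u1 - (Wf r (z) (r^3)).w2 * (Wf r (r^3) (z)).u2 * (Kf r (r^6) (z)) = ((r^3*((r^6)^4-(z)^4))*(Df r (z) (r^3))*(Df r (r^3) (z)) -(r^3*((r^6)^4-(z)^4))*(r^6*(z)*(r^3)*(r^8-1)*((z)^2-(r^3)^2))*(r^6*(r^3)*(z)*(r^8-1)*((r^3)^2-(z)^2)) -(r^3*((r^6)^4-(z)^4))*(r^4*((z)^2-(r^3)^2)*(r^12*(r^3)^2-(z)^2))*(Df r (r^3) (z)) -((r^8-1)*(z)*(r^3)*(r^12*(r^3)^2-(z)^2))*((r^6))*((z))*(Sf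 r (r^6) (z))*(Df r (r^3) (z)) -(-(r^8*((z)^2-(r^3)^2)*(r^4*(r^3)^2-(z)^2)))*(r^6*(r^3)*(z)*(r^8-1)*((r^3)^2-(z)^2))*(r^6*(z)^2-(r^6)^2)*((r^6))*((z))) / (((r^6))*((z))*(Sf r (r^6) (z))*(Df r (z) (r^3))*(Df r (r^3) (z))) := by
    simp only [Wf, Kf, kf, xf]
    first | done | (field_simp; done) | (field_simp; ring)
  rw [hE, hN, zero_div]

theorem CF_e4 (r z : ℂ) (hr : r^16 + 1 = 0) (hz : z ≠ 0) (hr0 : r ≠ 0)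
    (h1 : Df r (z) (r^3) ≠ 0)
    (h2 : Df r (r^3) (z) ≠ 0)
    (h3 : Sf r (r^6) (z) ≠ 0) :
    (Wf r (z) (r^3)).u2 * (Wf r (r^3) (z)).u1 + (Wf r (z) (r^3)).v * (Wf r (r^3) (z)).v * (Kf r (r^6) (z)) - (Kf r (r^6) (z)) = 0 := by
  have hN : (r^6*(z)*(r^3)*(r^8-1)*((z)^2-(r^3)^2))*((r^8-1)*(r^3)*(z)*(r^12*(z)^2-(r^3)^2))*(Sf r (r^6) (z)) +(r^4*((z)^2-(r^3)^2)*(r^12*(r^3)^2-(z)^2))*(r^4*((r^3)^2-(z)^2)*(r^12*(z)^2-(r^3)^2))*(r^6*(z)^2-(r^6)^2) -(r^6*(z)^2-(r^6)^2)*(Df r (z) (r^3))*(Df r (r^3) (z)) = 0 := by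
    simp only [Df, Sf]
    linear_combination (0) * hr
  have hE : (Wf r (z) (r^3)).u2 * (Wf r (r^3) (z)).u1 + (Wf r (z) (r^3)).v * (Wf r (r^3) (z)).v * (Kf r (r^6) (z)) - (Kf r (r^6) (z)) = ((r^6*(z)*(r^3)*(r^8-1)*((z)^2-(r^3)^2))*((r^8-1)*(r^3)*(z)*(r^12*(z)^2-(r^3)^2))*(Sf r (r^6) (z)) +(r^4*((z)^2-(r^3)^2)*(r^12*(r^3)^2-(z)^2))*(r^4*((r^3)^2-(z)^2)*(r^12*(z)^2-(r^3)^2))*(r^6*(z)^2-(r^6)^2) -(r^6*(z)^2-(r^6)^2)*(Df r (z) (r^3))*(Df r (r^3) (z))) / ((Df r (z) (r^3))*(Df r (r^3) (z))*(Sf r (r^6) (z))) := by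
    simp only [Wf, Kf, kf, xf]
    first | done | (field_simp; done) | (field_simp; ring)
  rw [hE, hN, zero_div]

theorem CF_e5 (r z : ℂ) (hr : r^16 + 1 = 0) (hz : z ≠ 0) (hr0 : r ≠ 0)
    (h1 : Df r (z) (r^3) ≠ 0)
    (h2 : Df r (r^3) (z) ≠ 0)
    (h3 : Sf r (r^6) (z) ≠ 0) :
    (kf r (r^6) (z)) * (Wf r (z) (r^3)).u2 * (Wf r (r^3) (z)).w1 + (Wf r (z) (r^3)).w2 * (Wf r (r^3) (z)).w1 * (Kf r (r^6) (z)) - (Kf r (r^6) (z)) = 0 := by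
  have hN : (r^3*((r^6)^4-(z)^4))*(r^6*(z)*(r^3)*(r^8-1)*((z)^2-(r^3)^2))*((r^8*(z)^2-(r^3)^2)*(r^12*(z)^2-(r^3)^2)) +(-(r^8*((z)^2-(r^3)^2)*(r^4*(r^3)^2-(z)^2)))*((r^8*(z)^2-(r^3)^2)*(r^12*(z)^2-(r^3)^2))*(r^6*(z)^2-(r^6)^2)*((r^6))*((z)) -(r^6*(z)^2-(r^6)^2)*((r^6))*((z))*(Df r (z) (r^3))*(Df r (r^3) (z)) = 0 := by
    simp only [Df, Sf]
    linear_combination (0) * hr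
  have hE : (kf r (r^6) (z)) * (Wf r (z) (r^3)).u2 * (Wf r (r^3) (z)).w1 + (Wf r (z) (r^3)).w2 * (Wf r (r^3) (z)).w1 * (Kf r (r^6) (z)) - (Kf r (r^6) (z)) = ((r^3*((r^6)^4-(z)^4))*(r^6*(z)*(r^3)*(r^8-1)*((z)^2-(r^3)^2))*((r^8*(z)^2-(r^3)^2)*(r^12*(z)^2-(r^3)^2)) +(-(r^8*((z)^2-(r^3)^2)*(r^4*(r^3)^2-(z)^2)))*((r^8*(z)^2-(r^3)^2)*(r^12*(z)^2-(r^3)^2))*(r^6*(z)^2-(r^6)^2)*((r^6))*((z)) -(r^6*(z)^2-(r^6)^2)*((r^6))*((z))*(Df r (z) (r^3))*(Df r (r^3) (z))) / (((r^6))*((z))*(Sf r (r^6) (z))*(Df r (z) (r^3))*(Df r (r^3) (z))) := by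
    simp only [Wf, Kf, kf, xf]
    first | done | (field_simp; done) | (field_simp; ring)
  rw [hE, hN, zero_div]

theorem CF_e6 (r z : ℂ) (hr : r^16 + 1 = 0) (hz : z ≠ 0) (hr0 : r ≠ 0)
    (h1 : Df r (z) (r^3) ≠ 0)
    (h2 : Df r (r^3) (z) ≠ 0)
    (h3 : Sf r (r^6) (z) ≠ 0) :
    (Wf r (z) (r^3)).u1 * (Wf r (r^3) (z)).w1 * (Kf r (r^6) (z)) + (Wf r (r^3) (z)).u2 = 0 := by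
  have hN : ((r^8-1)*(z)*(r^3)*(r^12*(r^3)^2-(z)^2))*((r^8*(z)^2-(r^3)^2)*(r^12*(z)^2-(r^3)^2))*(r^6*(z)^2-(r^6)^2) +(r^6*(r^3)*(z)*(r^8-1)*((r^3)^2-(z)^2))*(Df r (z) (r^3))*(Sf r (r^6) (z)) = 0 := by
    simp only [Df, Sf]
    linear_combination (0) * hr
  have hE : (Wf r (z) (r^3)).u1 * (Wf r (r^3) (z)).w1 * (Kf r (r^6) (z)) + (Wf r (r^3) (z)).u2 = (((r^8-1)*(z)*(r^3)*(r^12*(r^3)^2-(z)^2))*((r^8*(z)^2-(r^3)^2)*(r^12*(z)^2-(r^3)^2))*(r^6*(z)^2-(r^6)^2) +(r^6*(r^3)*(z)*(r^8-1)*((r^3)^2-(z)^2))*(Df r (z) (r^3))*(Sf r (r^6) (z))) / ((Df r (z) (r^3))*(Df r (r^3) (z))*(Sf r (r^6) (z))) := by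
    simp only [Wf, Kf, kf, xf]
    first | done | (field_simp; done) | (field_simp; ring)
  rw [hE, hN, zero_div]

theorem CF_e7 (r z : ℂ) (hr : r^16 + 1 = 0) (hz : z ≠ 0) (hr0 : r ≠ 0)
    (h1 : Df r (z) (r^3) ≠ 0)
    (h2 : Df r (r^3) (z) ≠ 0)
    (h3 : Sf r (r^6) (z) ≠ 0) :
    (kf r (r^6) (z)) * (Wf r (z) (r^3)).u2 * (Wf r (r^3) (z)).w2 + (kf r (r^6) (z)) * (Wf r (z) (r^3)).v * (Wf r (r^3) (z)).u2 + (Wf r (z) (r^3)).u1 * (Wf r (r^3) (z)).u2 + (Wf r (z) (r^3)).w1 * (Wf r (r^3) (z)).w1 * (Kf r (r^6) (z)) + (Wf r (z) (r^3)).w2 * (Wf r (r^3) (z)).w2 * (Kf r (r^6) (z)) = 0 := by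
  have hN : (r^3*((r^6)^4-(z)^4))*(r^6*(z)*(r^3)*(r^8-1)*((z)^2-(r^3)^2))*(-(r^8*((r^3)^2-(z)^2)*(r^4*(z)^2-(r^3)^2))) +(r^3*((r^6)^4-(z)^4))*(r^4*((z)^2-(r^3)^2)*(r^12*(r^3)^2-(z)^2))*(r^6*(r^3)*(z)*(r^8-1)*((r^3)^2-(z)^2)) +((r^8-1)*(z)*(r^3)*(r^12*(r^3)^2-(z)^2))*(r^6*(r^3)*(z)*(r^8-1)*((r^3)^2-(z)^2))*((r^6))*((z))*(Sf r (r^6) (z)) +((r^8*(r^3)^2-(z)^2)*(r^12*(r^3)^2-(z)^2))*((r^8*(z)^2-(r^3)^2)*(r^12*(z)^2-(r^3)^2))*(r^6*(z)^2-(r^6)^2)*((r^6))*((z)) +(-(r^8*((z)^2-(r^3)^2)*(r^4*(r^3)^2-(z)^2)))*(-(r^8*((r^3)^2-(z)^2)*(r^4*(z)^2-(r^3)^2)))*(r^6*(z)^2-(r^6)^2)*((r^6))*((z)) = 0 := by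
    simp only [Df, Sf]
    linear_combination (r^16*z^11 -r^18*z^9 -2*r^22*z^9 +2*r^24*z^7 +r^28*z^7 -r^30*z^5 -r^30*z^9 +r^32*z^7 -r^34*z^9 +3*r^36*z^7 -2*r^38*z^5 +2*r^40*z^7 -3*r^42*z^5 +r^44*z^3 -r^46*z^5 +r^48*z^3 +r^48*z^7 -r^50*z^5 -2*r^54*z^5 +2*r^56*z^3 +r^60*z^3 -r^62*z) * hr
  have hE : (kf r (r^6) (z)) * (Wf r (z) (r^3)).u2 * (Wf r (r^3) (z)).w2 + (kf r (r^6) (z)) * (Wf r (z) (r^3)).v * (Wf r (r^3) (z)).u2 + (Wf r (z) (r^3)).u1 * (Wf r (r^3) (z)).u2 + (Wf r (z) (r^3)).w1 * (Wf r (r^3) (z)).w1 * (Kf r (r^6) (z)) + (Wf r (z) (r^3)).w2 * (Wf r (r^3) (z)).w2 * (Kf r (r^6) (z)) = ((r^3*((r^6)^4-(z)^4))*(r^6*(z)*(r^3)*(r^8-1)*((z)^2-(r^3)^2))*(-(r^8*((r^3)^2-(z)^2)*(r^4*(z)^2-(r^3)^2))) +(r^3*((r^6)^4-(z)^4))*(r^4*((z)^2-(r^3)^2)*(r^12*(r^3)^2-(z)^2))*(r^6*(r^3)*(z)*(r^8-1)*((r^3)^2-(z)^2))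 +((r^8-1)*(z)*(r^3)*(r^12*(r^3)^2-(z)^2))*(r^6*(r^3)*(z)*(r^8-1)*((r^3)^2-(z)^2))*((r^6))*((z))*(Sf r (r^6) (z)) +((r^8*(r^3)^2-(z)^2)*(r^12*(r^3)^2-(z)^2))*((r^8*(z)^2-(r^3)^2)*(r^12*(z)^2-(r^3)^2))*(r^6*(z)^2-(r^6)^2)*((r^6))*((z)) +(-(r^8*((z)^2-(r^3)^2)*(r^4*(r^3)^2-(z)^2)))*(-(r^8*((r^3)^2-(z)^2)*(r^4*(z)^2-(r^3)^2)))*(r^6*(z)^2-(r^6)^2)*((r^6))*((z))) / (((r^6))*((z))*(Sf r (r^6) (z))*(Df r (z) (r^3))*(Df r (r^3) (z))) := by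
    simp only [Wf, Kf, kf, xf]
    first | done | (field_simp; done) | (field_simp; ring)
  rw [hE, hN, zero_div]

theorem CF_e8 (r z : ℂ) (hr : r^16 + 1 = 0) (hz : z ≠ 0) (hr0 : r ≠ 0)
    (h1 : Df r (z) (r^3) ≠ 0)
    (h2 : Df r (r^3) (z) ≠ 0)
    (h3 : Sf r (r^6) (z) ≠ 0) :
    (kf r (r^6) (z)) - (kf r (r^6) (z)) * (Wf r (z) (r^3)).u1 * (Wf r (r^3) (z)).u1 - (kf r (r^6) (z)) * (Wf r (r^3) (z)).v - (Wf r (z) (r^3)).u2 * (Wf r (r^3) (z)).v * (Kf r (r^6) (z)) - (Wf r (z) (r^3)).v * (Wf r (r^3) (z)).u1 = 0 := by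
  have hN : (r^3*((r^6)^4-(z)^4))*(Df r (z) (r^3))*(Df r (r^3) (z)) -(r^3*((r^6)^4-(z)^4))*((r^8-1)*(z)*(r^3)*(r^12*(r^3)^2-(z)^2))*((r^8-1)*(r^3)*(z)*(r^12*(z)^2-(r^3)^2)) -(r^3*((r^6)^4-(z)^4))*(r^4*((r^3)^2-(z)^2)*(r^12*(z)^2-(r^3)^2))*(Df r (z) (r^3)) -(r^6*(z)*(r^3)*(r^8-1)*((z)^2-(r^3)^2))*(r^4*((r^3)^2-(z)^2)*(r^12*(z)^2-(r^3)^2))*(r^6*(z)^2-(r^6)^2)*((r^6))*((z)) -(r^4*((z)^2-(r^3)^2)*(r^12*(r^3)^2-(z)^2))*((r^8-1)*(r^3)*(z)*(r^12*(z)^2-(r^3)^2))*((r^6))*((z))*(Sf r (r^6) (z)) = 0 := by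
    simp only [Df, Sf]
    linear_combination (r^17*z^10 -r^19*z^8 -2*r^23*z^8 -r^23*z^12 +2*r^25*z^6 +r^25*z^10 +r^29*z^6 +2*r^29*z^10 -r^31*z^4 -2*r^31*z^8 -r^35*z^8 +r^37*z^6 -r^41*z^6 +r^43*z^4 +2*r^47*z^4 +r^47*z^8 -2*r^49*z^2 -r^49*z^6 -r^53*z^2 -2*r^53*z^6 +r^55 +2*r^55*z^4 +r^59*z^4 -r^61*z^2) * hr
  have hE : (kf r (r^6) (z)) - (kf r (r^6) (z)) * (Wf r (z) (r^3)).u1 * (Wf r (r^3) (z)).u1 - (kf r (r^6) (z)) * (Wf r (r^3) (z)).v - (Wf r (z) (r^3)).u2 * (Wf r (r^3) (z)).v * (Kf r (r^6) (z)) - (Wf r (z) (r^3)).v * (Wf r (r^3) (z)).u1 = ((r^3*((r^6)^4-(z)^4))*(Df r (z) (r^3))*(Df r (r^3) (z)) -(r^3*((r^6)^4-(z)^4))*((r^8-1)*(z)*(r^3)*(r^12*(r^3)^2-(z)^2))*((r^8-1)*(r^3)*(z)*(r^12*(z)^2-(r^3)^2)) -(r^3*((r^6)^4-(z)^4))*(r^4*((r^3)^2-(z)^2)*(r^12*(z)^2-(r^3)^2))*(Df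 r (z) (r^3)) -(r^6*(z)*(r^3)*(r^8-1)*((z)^2-(r^3)^2))*(r^4*((r^3)^2-(z)^2)*(r^12*(z)^2-(r^3)^2))*(r^6*(z)^2-(r^6)^2)*((r^6))*((z)) -(r^4*((z)^2-(r^3)^2)*(r^12*(r^3)^2-(z)^2))*((r^8-1)*(r^3)*(z)*(r^12*(z)^2-(r^3)^2))*((r^6))*((z))*(Sf r (r^6) (z))) / (((r^6))*((z))*(Sf r (r^6) (z))*(Df r (z) (r^3))*(Df r (r^3) (z))) := by
    simp only [Wf, Kf, kf, xf]
    first | done | (field_simp; done) | (field_simp; ring)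
  rw [hE, hN, zero_div]

theorem CF_scal (r z : ℂ) (hr : r^16 + 1 = 0) (hz : z ≠ 0) (hr0 : r ≠ 0)
    (h1 : Df r (z) (r^3) ≠ 0)
    (h2 : Df r (r^3) (z) ≠ 0)
    (h3 : Sf r (r^6) (z) ≠ 0) :
    CF.Eqs (Wf r (z) (r^3)) (Wf r (r^3) (z)) (Kf r (r^6) (z)) (kf r (r^6) (z)) :=
  ⟨CF_e1 r z hr hz hr0 h1 h2 h3,
   CF_e2 r z hr hz hr0 h1 h2 h3,
   CF_e3 r z hr hz hr0 h1 h2 h3,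
   CF_e4 r z hr hz hr0 h1 h2 h3,
   CF_e5 r z hr hz hr0 h1 h2 h3,
   CF_e6 r z hr hz hr0 h1 h2 h3,
   CF_e7 r z hr hz hr0 h1 h2 h3,
   CF_e8 r z hr hz hr0 h1 h2 h3⟩

theorem CT_e1 (r z : ℂ) (hr : r^16 + 1 = 0) (hz : z ≠ 0) (hr0 : r ≠ 0)
    (h1 : Df r (z) (r^3) ≠ 0)
    (h2 : Df r (r^3) (z) ≠ 0)
    (h3 : Sf r (z) (1) ≠ 0) :
    1 - (kf r (z) (1)) * (Wf r (z) (r^3)).u1 - (kf r (z) (1)) * (Wf r (z) (r^3)).v * (Wf r (r^3) (z)).u1 - (Wf r (z) (r^3)).u1 * (Wf r (r^3) (z)).u2 * (Kf r (z) (1)) - (Wf r (z) (r^3)).v * (Wf r (r^3) (z)).v = 0 := by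
  have hN : ((z))*(Sf r (z) (1))*(Df r (z) (r^3))*(Df r (r^3) (z)) -(r^3*((z)^4-(1)^4))*((r^8-1)*(z)*(r^3)*(r^12*(r^3)^2-(z)^2))*(Df r (r^3) (z)) -(r^3*((z)^4-(1)^4))*(r^4*((z)^2-(r^3)^2)*(r^12*(r^3)^2-(z)^2))*((r^8-1)*(r^3)*(z)*(r^12*(z)^2-(r^3)^2)) -((r^8-1)*(z)*(r^3)*(r^12*(r^3)^2-(z)^2))*(r^6*(r^3)*(z)*(r^8-1)*((r^3)^2-(z)^2))*(r^6*(1)^2-(z)^2)*((z)) -(r^4*((z)^2-(r^3)^2)*(r^12*(r^3)^2-(z)^2))*(r^4*((r^3)^2-(z)^2)*(r^12*(z)^2-(r^3)^2))*((z))*(Sf r (z) (1)) = 0 := by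
    simp only [Df, Sf]
    linear_combination (r^6*z^7 -r^6*z^11 -r^12*z^5 +r^12*z^9 -r^14*z^7 +r^14*z^11 -r^16*z^5 +r^16*z^9 +r^20*z^5 -r^20*z^9 +r^22*z^3 -r^22*z^7 +r^32*z^5 -r^32*z^9 +r^34*z^3 -r^34*z^7 -r^38*z^3 +r^38*z^7 -r^40*z +r^40*z^5 -r^42*z^3 +r^42*z^7 +r^48*z -r^48*z^5) * hr
  have hE : 1 - (kf r (z) (1)) * (Wf r (z) (r^3)).u1 - (kf r (z) (1)) * (Wf r (z) (r^3)).v * (Wf r (r^3) (z)).u1 - (Wf r (z) (r^3)).u1 * (Wf r (r^3) (z)).u2 * (Kf r (z) (1)) - (Wf r (z) (r^3)).v * (Wf r (r^3) (z)).v = (((z))*(Sf r (z) (1))*(Df r (z) (r^3))*(Df r (r^3) (z)) -(r^3*((z)^4-(1)^4))*((r^8-1)*(z)*(r^3)*(r^12*(r^3)^2-(z)^2))*(Df r (r^3) (z)) -(r^3*((z)^4-(1)^4))*(r^4*((z)^2-(r^3)^2)*(r^12*(r^3)^2-(z)^2))*((r^8-1)*(r^3)*(z)*(r^12*(z)^2-(r^3)^2))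 -((r^8-1)*(z)*(r^3)*(r^12*(r^3)^2-(z)^2))*(r^6*(r^3)*(z)*(r^8-1)*((r^3)^2-(z)^2))*(r^6*(1)^2-(z)^2)*((z)) -(r^4*((z)^2-(r^3)^2)*(r^12*(r^3)^2-(z)^2))*(r^4*((r^3)^2-(z)^2)*(r^12*(z)^2-(r^3)^2))*((z))*(Sf r (z) (1))) / (((z))*(Sf r (z) (1))*(Df r (z) (r^3))*(Df r (r^3) (z))) := by
    simp only [Wf, Kf, kf, xf]
    first | done | (field_simp; done) | (field_simp; ring)
  rw [hE, hN, zero_div]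

theorem CT_e2 (r z : ℂ) (hr : r^16 + 1 = 0) (hz : z ≠ 0) (hr0 : r ≠ 0)
    (h1 : Df r (z) (r^3) ≠ 0)
    (h2 : Df r (r^3) (z) ≠ 0)
    (h3 : Sf r (z) (1) ≠ 0) :
    (Wf r (z) (r^3)).u2 + (Wf r (z) (r^3)).w1 * (Wf r (r^3) (z)).u1 * (Kf r (z) (1)) = 0 := by
  have hN : (r^6*(z)*(r^3)*(r^8-1)*((z)^2-(r^3)^2))*(Df r (r^3) (z))*(Sf r (z) (1)) +((r^8*(r^3)^2-(z)^2)*(r^12*(r^3)^2-(z)^2))*((r^8-1)*(r^3)*(z)*(r^12*(z)^2-(r^3)^2))*(r^6*(1)^2-(z)^2) = 0 := by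
    simp only [Df, Sf]
    linear_combination (0) * hr
  have hE : (Wf r (z) (r^3)).u2 + (Wf r (z) (r^3)).w1 * (Wf r (r^3) (z)).u1 * (Kf r (z) (1)) = ((r^6*(z)*(r^3)*(r^8-1)*((z)^2-(r^3)^2))*(Df r (r^3) (z))*(Sf r (z) (1)) +((r^8*(r^3)^2-(z)^2)*(r^12*(r^3)^2-(z)^2))*((r^8-1)*(r^3)*(z)*(r^12*(z)^2-(r^3)^2))*(r^6*(1)^2-(z)^2)) / ((Df r (z) (r^3))*(Df r (r^3) (z))*(Sf r (z) (1))) := by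
    simp only [Wf, Kf, kf, xf]
    first | done | (field_simp; done) | (field_simp; ring)
  rw [hE, hN, zero_div]

theorem CT_e3 (r z : ℂ) (hr : r^16 + 1 = 0) (hz : z ≠ 0) (hr0 : r ≠ 0)
    (h1 : Df r (z) (r^3) ≠ 0)
    (h2 : Df r (r^3) (z) ≠ 0)
    (h3 : Sf r (z) (1) ≠ 0) :
    (kf r (z) (1)) - (kf r (z) (1)) * (Wf r (z) (r^3)).u1 * (Wf r (r^3) (z)).u1 - (kf r (z) (1)) * (Wf r (z) (r^3)).v - (Wf r (z) (r^3)).u1 * (Wf r (r^3) (z)).v - (Wf r (z) (r^3)).v * (Wf r (r^3) (z)).u2 * (Kf r (z) (1)) = 0 := by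
  have hN : (r^3*((z)^4-(1)^4))*(Df r (z) (r^3))*(Df r (r^3) (z)) -(r^3*((z)^4-(1)^4))*((r^8-1)*(z)*(r^3)*(r^12*(r^3)^2-(z)^2))*((r^8-1)*(r^3)*(z)*(r^12*(z)^2-(r^3)^2)) -(r^3*((z)^4-(1)^4))*(r^4*((z)^2-(r^3)^2)*(r^12*(r^3)^2-(z)^2))*(Df r (r^3) (z)) -((r^8-1)*(z)*(r^3)*(r^12*(r^3)^2-(z)^2))*(r^4*((r^3)^2-(z)^2)*(r^12*(z)^2-(r^3)^2))*((z))*(Sf r (z) (1)) -(r^4*((z)^2-(r^3)^2)*(r^12*(r^3)^2-(z)^2))*(r^6*(r^3)*(z)*(r^8-1)*((r^3)^2-(z)^2))*(r^6*(1)^2-(z)^2)*((z)) = 0 := by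
    simp only [Df, Sf]
    linear_combination (-r^7*z^8 +r^7*z^12 +2*r^13*z^6 -2*r^13*z^10 +r^17*z^6 -r^17*z^10 -r^19*z^4 +r^19*z^8 -2*r^23*z^4 +2*r^23*z^8 +r^25*z^6 -r^25*z^10 +r^29*z^2 -r^29*z^6 -2*r^31*z^4 +2*r^31*z^8 -r^35*z^4 +r^35*z^8 +r^37*z^2 -r^37*z^6 +2*r^41*z^2 -2*r^41*z^6 -r^47 +r^47*z^4) * hr
  have hE : (kf r (z) (1)) - (kf r (z) (1)) * (Wf r (z) (r^3)).u1 * (Wf r (r^3) (z)).u1 - (kf r (z) (1)) * (Wf r (z) (r^3)).v - (Wf r (z) (r^3)).u1 * (Wf r (r^3) (z)).v - (Wf r (z) (r^3)).v * (Wf r (r^3) (z)).u2 * (Kf r (z) (1)) = ((r^3*((z)^4-(1)^4))*(Df r (z) (r^3))*(Df r (r^3) (z)) -(r^3*((z)^4-(1)^4))*((r^8-1)*(z)*(r^3)*(r^12*(r^3)^2-(z)^2))*((r^8-1)*(r^3)*(z)*(r^12*(z)^2-(r^3)^2)) -(r^3*((z)^4-(1)^4))*(r^4*((z)^2-(r^3)^2)*(r^12*(r^3)^2-(z)^2))*(Df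 r (r^3) (z)) -((r^8-1)*(z)*(r^3)*(r^12*(r^3)^2-(z)^2))*(r^4*((r^3)^2-(z)^2)*(r^12*(z)^2-(r^3)^2))*((z))*(Sf r (z) (1)) -(r^4*((z)^2-(r^3)^2)*(r^12*(r^3)^2-(z)^2))*(r^6*(r^3)*(z)*(r^8-1)*((r^3)^2-(z)^2))*(r^6*(1)^2-(z)^2)*((z))) / (((z))*(Sf r (z) (1))*(Df r (z) (r^3))*(Df r (r^3) (z))) := by
    simp only [Wf, Kf, kf, xf]
    first | done | (field_simp; done) | (field_simp; ring)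
  rw [hE, hN, zero_div]

theorem CT_e4 (r z : ℂ) (hr : r^16 + 1 = 0) (hz : z ≠ 0) (hr0 : r ≠ 0)
    (h1 : Df r (z) (r^3) ≠ 0)
    (h2 : Df r (r^3) (z) ≠ 0)
    (h3 : Sf r (z) (1) ≠ 0) :
    (kf r (z) (1)) * (Wf r (z) (r^3)).u2 * (Wf r (r^3) (z)).v + (kf r (z) (1)) * (Wf r (z) (r^3)).w2 * (Wf r (r^3) (z)).u2 + (Wf r (z) (r^3)).u2 * (Wf r (r^3) (z)).u1 + (Wf r (z) (r^3)).w1 * (Wf r (r^3) (z)).w1 * (Kf r (z) (1)) + (Wf r (z) (r^3)).w2 * (Wf r (r^3) (z)).w2 * (Kf r (z) (1)) = 0 := by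
  have hN : (r^3*((z)^4-(1)^4))*(r^6*(z)*(r^3)*(r^8-1)*((z)^2-(r^3)^2))*(r^4*((r^3)^2-(z)^2)*(r^12*(z)^2-(r^3)^2)) +(r^3*((z)^4-(1)^4))*(-(r^8*((z)^2-(r^3)^2)*(r^4*(r^3)^2-(z)^2)))*(r^6*(r^3)*(z)*(r^8-1)*((r^3)^2-(z)^2)) +(r^6*(z)*(r^3)*(r^8-1)*((z)^2-(r^3)^2))*((r^8-1)*(r^3)*(z)*(r^12*(z)^2-(r^3)^2))*((z))*(Sf r (z) (1)) +((r^8*(r^3)^2-(z)^2)*(r^12*(r^3)^2-(z)^2))*((r^8*(z)^2-(r^3)^2)*(r^12*(z)^2-(r^3)^2))*(r^6*(1)^2-(z)^2)*((z)) +(-(r^8*((z)^2-(r^3)^2)*(r^4*(r^3)^2-(z)^2)))*(-(r^8*((r^3)^2-(z)^2)*(r^4*(z)^2-(r^3)^2)))*(r^6*(1)^2-(z)^2)*((z)) = 0 := by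
    simp only [Df, Sf]
    linear_combination (-r^12*z^7 +r^14*z^9 +2*r^18*z^5 +r^18*z^9 -2*r^20*z^7 -r^20*z^11 +r^22*z^5 -r^24*z^3 -3*r^24*z^7 +r^26*z^5 +2*r^26*z^9 -2*r^28*z^3 -r^28*z^7 +3*r^30*z^5 +r^30*z^9 -r^32*z^7 +r^34*z +2*r^34*z^5 -r^36*z^3 -2*r^36*z^7 -r^40*z^3 +r^42*z^5) * hr
  have hE : (kf r (z) (1)) * (Wf r (z) (r^3)).u2 * (Wf r (r^3) (z)).v + (kf r (z) (1)) * (Wf r (z) (r^3)).w2 * (Wf r (r^3) (z)).u2 + (Wf r (z) (r^3)).u2 * (Wf r (r^3) (z)).u1 + (Wf r (z) (r^3)).w1 * (Wf r (r^3) (z)).w1 * (Kf r (z) (1)) + (Wf r (z) (r^3)).w2 * (Wf r (r^3) (z)).w2 * (Kf r (z) (1)) = ((r^3*((z)^4-(1)^4))*(r^6*(z)*(r^3)*(r^8-1)*((z)^2-(r^3)^2))*(r^4*((r^3)^2-(z)^2)*(r^12*(z)^2-(r^3)^2)) +(r^3*((z)^4-(1)^4))*(-(r^8*((z)^2-(r^3)^2)*(r^4*(r^3)^2-(z)^2)))*(r^6*(r^3)*(z)*(r^8-1)*((r^3)^2-(z)^2))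 +(r^6*(z)*(r^3)*(r^8-1)*((z)^2-(r^3)^2))*((r^8-1)*(r^3)*(z)*(r^12*(z)^2-(r^3)^2))*((z))*(Sf r (z) (1)) +((r^8*(r^3)^2-(z)^2)*(r^12*(r^3)^2-(z)^2))*((r^8*(z)^2-(r^3)^2)*(r^12*(z)^2-(r^3)^2))*(r^6*(1)^2-(z)^2)*((z)) +(-(r^8*((z)^2-(r^3)^2)*(r^4*(r^3)^2-(z)^2)))*(-(r^8*((r^3)^2-(z)^2)*(r^4*(z)^2-(r^3)^2)))*(r^6*(1)^2-(z)^2)*((z))) / (((z))*(Sf r (z) (1))*(Df r (z) (r^3))*(Df r (r^3) (z))) := by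
    simp only [Wf, Kf, kf, xf]
    first | done | (field_simp; done) | (field_simp; ring)
  rw [hE, hN, zero_div]

theorem CT_e5 (r z : ℂ) (hr : r^16 + 1 = 0) (hz : z ≠ 0) (hr0 : r ≠ 0)
    (h1 : Df r (z) (r^3) ≠ 0)
    (h2 : Df r (r^3) (z) ≠ 0)
    (h3 : Sf r (z) (1) ≠ 0) :
    (kf r (z) (1)) * (Wf r (z) (r^3)).u2 * (Wf r (r^3) (z)).v + (kf r (z) (1)) * (Wf r (z) (r^3)).w1 * (Wf r (r^3) (z)).u2 + (kf r (z) (1)) * (Wf r (z) (r^3)).w2 * (Wf r (r^3) (z)).u2 + (Wf r (z) (r^3)).u2 * (Wf r (r^3) (z)).u1 + (Wf r (z) (r^3)).w1 * (Wf r (r^3) (z)).w1 * (Kf r (z) (1)) + (Wf r (z) (r^3)).w1 * (Wf r (r^3) (z)).w2 * (Kf r (z) (1)) + (Wf r (z) (r^3)).w2 * (Wf r (r^3) (z)).w2 * (Kf r (z) (1)) - (Kf r (z) (1)) = 0 := by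
  have hN : (r^3*((z)^4-(1)^4))*(r^6*(z)*(r^3)*(r^8-1)*((z)^2-(r^3)^2))*(r^4*((r^3)^2-(z)^2)*(r^12*(z)^2-(r^3)^2)) +(r^3*((z)^4-(1)^4))*((r^8*(r^3)^2-(z)^2)*(r^12*(r^3)^2-(z)^2))*(r^6*(r^3)*(z)*(r^8-1)*((r^3)^2-(z)^2)) +(r^3*((z)^4-(1)^4))*(-(r^8*((z)^2-(r^3)^2)*(r^4*(r^3)^2-(z)^2)))*(r^6*(r^3)*(z)*(r^8-1)*((r^3)^2-(z)^2)) +(r^6*(z)*(r^3)*(r^8-1)*((z)^2-(r^3)^2))*((r^8-1)*(r^3)*(z)*(r^12*(z)^2-(r^3)^2))*((z))*(Sf r (z) (1)) +((r^8*(r^3)^2-(z)^2)*(r^12*(r^3)^2-(z)^2))*((r^8*(z)^2-(r^3)^2)*(r^12*(z)^2-(r^3)^2))*(r^6*(1)^2-(z)^2)*((z)) +((r^8*(r^3)^2-(z)^2)*(r^12*(r^3)^2-(z)^2))*(-(r^8*((r^3)^2-(z)^2)*(r^4*(z)^2-(r^3)^2)))*(r^6*(1)^2-(z)^2)*((z)) +(-(r^8*((z)^2-(r^3)^2)*(r^4*(r^3)^2-(z)^2)))*(-(r^8*((r^3)^2-(z)^2)*(r^4*(z)^2-(r^3)^2)))*(r^6*(1)^2-(z)^2)*((z))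 -(r^6*(1)^2-(z)^2)*((z))*(Df r (z) (r^3))*(Df r (r^3) (z)) = 0 := by
    simp only [Df, Sf]
    linear_combination (-r^12*z^7 +r^14*z^9 +2*r^18*z^5 +r^18*z^9 -2*r^20*z^7 -r^20*z^11 +r^22*z^5 -r^24*z^3 -3*r^24*z^7 +r^26*z^5 +2*r^26*z^9 -2*r^28*z^3 -r^28*z^7 +3*r^30*z^5 +r^30*z^9 -r^32*z^7 +r^34*z +2*r^34*z^5 -r^36*z^3 -2*r^36*z^7 -r^40*z^3 +r^42*z^5) * hr
  have hE : (kf r (z) (1)) * (Wf r (z) (r^3)).u2 * (Wf r (r^3) (z)).v + (kf r (z) (1)) * (Wf r (z) (r^3)).w1 * (Wf r (r^3) (z)).u2 + (kf r (z) (1)) * (Wf r (z) (r^3)).w2 * (Wf r (r^3) (z)).u2 + (Wf r (z) (r^3)).u2 * (Wf r (r^3) (z)).u1 + (Wf r (z) (r^3)).w1 * (Wf r (r^3) (z)).w1 * (Kf r (z) (1)) + (Wf r (z) (r^3)).w1 * (Wf r (r^3) (z)).w2 * (Kf r (z) (1)) + (Wf r (z) (r^3)).w2 * (Wf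 r (r^3) (z)).w2 * (Kf r (z) (1)) - (Kf r (z) (1)) = ((r^3*((z)^4-(1)^4))*(r^6*(z)*(r^3)*(r^8-1)*((z)^2-(r^3)^2))*(r^4*((r^3)^2-(z)^2)*(r^12*(z)^2-(r^3)^2)) +(r^3*((z)^4-(1)^4))*((r^8*(r^3)^2-(z)^2)*(r^12*(r^3)^2-(z)^2))*(r^6*(r^3)*(z)*(r^8-1)*((r^3)^2-(z)^2)) +(r^3*((z)^4-(1)^4))*(-(r^8*((z)^2-(r^3)^2)*(r^4*(r^3)^2-(z)^2)))*(r^6*(r^3)*(z)*(r^8-1)*((r^3)^2-(z)^2)) +(r^6*(z)*(r^3)*(r^8-1)*((z)^2-(r^3)^2))*((r^8-1)*(r^3)*(z)*(r^12*(z)^2-(r^3)^2))*((z))*(Sf r (z) (1)) +((r^8*(r^3)^2-(z)^2)*(r^12*(r^3)^2-(z)^2))*((r^8*(z)^2-(r^3)^2)*(r^12*(z)^2-(r^3)^2))*(r^6*(1)^2-(z)^2)*((z)) +((r^8*(r^3)^2-(z)^2)*(r^12*(r^3)^2-(z)^2))*(-(r^8*((r^3)^2-(z)^2)*(r^4*(z)^2-(r^3)^2)))*(r^6*(1)^2-(z)^2)*((z)) +(-(r^8*((z)^2-(r^3)^2)*(r^4*(r^3)^2-(z)^2)))*(-(r^8*((r^3)^2-(z)^2)*(r^4*(z)^2-(r^3)^2)))*(r^6*(1)^2-(z)^2)*((z))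 -(r^6*(1)^2-(z)^2)*((z))*(Df r (z) (r^3))*(Df r (r^3) (z))) / (((z))*(Sf r (z) (1))*(Df r (z) (r^3))*(Df r (r^3) (z))) := by
    simp only [Wf, Kf, kf, xf]
    first | done | (field_simp; done) | (field_simp; ring)
  rw [hE, hN, zero_div]

theorem CT_e6 (r z : ℂ) (hr : r^16 + 1 = 0) (hz : z ≠ 0) (hr0 : r ≠ 0)
    (h1 : Df r (z) (r^3) ≠ 0)
    (h2 : Df r (r^3) (z) ≠ 0)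
    (h3 : Sf r (z) (1) ≠ 0) :
    (Wf r (z) (r^3)).u1 * (Wf r (r^3) (z)).v * (Kf r (z) (1)) + (Wf r (z) (r^3)).v * (Wf r (r^3) (z)).u2 = 0 := by
  have hN : ((r^8-1)*(z)*(r^3)*(r^12*(r^3)^2-(z)^2))*(r^4*((r^3)^2-(z)^2)*(r^12*(z)^2-(r^3)^2))*(r^6*(1)^2-(z)^2) +(r^4*((z)^2-(r^3)^2)*(r^12*(r^3)^2-(z)^2))*(r^6*(r^3)*(z)*(r^8-1)*((r^3)^2-(z)^2))*(Sf r (z) (1)) = 0 := by
    simp only [Df, Sf]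
    linear_combination (0) * hr
  have hE : (Wf r (z) (r^3)).u1 * (Wf r (r^3) (z)).v * (Kf r (z) (1)) + (Wf r (z) (r^3)).v * (Wf r (r^3) (z)).u2 = (((r^8-1)*(z)*(r^3)*(r^12*(r^3)^2-(z)^2))*(r^4*((r^3)^2-(z)^2)*(r^12*(z)^2-(r^3)^2))*(r^6*(1)^2-(z)^2) +(r^4*((z)^2-(r^3)^2)*(r^12*(r^3)^2-(z)^2))*(r^6*(r^3)*(z)*(r^8-1)*((r^3)^2-(z)^2))*(Sf r (z) (1))) / ((Df r (z) (r^3))*(Df r (r^3) (z))*(Sf r (z) (1))) := by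
    simp only [Wf, Kf, kf, xf]
    first | done | (field_simp; done) | (field_simp; ring)
  rw [hE, hN, zero_div]

theorem CT_e7 (r z : ℂ) (hr : r^16 + 1 = 0) (hz : z ≠ 0) (hr0 : r ≠ 0)
    (h1 : Df r (z) (r^3) ≠ 0)
    (h2 : Df r (r^3) (z) ≠ 0)
    (h3 : Sf r (z) (1) ≠ 0) :
    (Wf r (z) (r^3)).u1 * (Wf r (r^3) (z)).u2 + (Wf r (z) (r^3)).v * (Wf r (r^3) (z)).v * (Kf r (z) (1)) - (Kf r (z) (1)) = 0 := by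
  have hN : ((r^8-1)*(z)*(r^3)*(r^12*(r^3)^2-(z)^2))*(r^6*(r^3)*(z)*(r^8-1)*((r^3)^2-(z)^2))*(Sf r (z) (1)) +(r^4*((z)^2-(r^3)^2)*(r^12*(r^3)^2-(z)^2))*(r^4*((r^3)^2-(z)^2)*(r^12*(z)^2-(r^3)^2))*(r^6*(1)^2-(z)^2) -(r^6*(1)^2-(z)^2)*(Df r (z) (r^3))*(Df r (r^3) (z)) = 0 := by
    simp only [Df, Sf]
    linear_combination (0) * hr
  have hE : (Wf r (z) (r^3)).u1 * (Wf r (r^3) (z)).u2 + (Wf r (z) (r^3)).v * (Wf r (r^3) (z)).v * (Kf r (z) (1)) - (Kf r (z) (1)) = (((r^8-1)*(z)*(r^3)*(r^12*(r^3)^2-(z)^2))*(r^6*(r^3)*(z)*(r^8-1)*((r^3)^2-(z)^2))*(Sf r (z) (1)) +(r^4*((z)^2-(r^3)^2)*(r^12*(r^3)^2-(z)^2))*(r^4*((r^3)^2-(z)^2)*(r^12*(z)^2-(r^3)^2))*(r^6*(1)^2-(z)^2) -(r^6*(1)^2-(z)^2)*(Df r (z) (r^3))*(Df r (r^3) (z))) / ((Df r (z) (r^3))*(Df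 r (r^3) (z))*(Sf r (z) (1))) := by
    simp only [Wf, Kf, kf, xf]
    first | done | (field_simp; done) | (field_simp; ring)
  rw [hE, hN, zero_div]

theorem CT_e8 (r z : ℂ) (hr : r^16 + 1 = 0) (hz : z ≠ 0) (hr0 : r ≠ 0)
    (h1 : Df r (z) (r^3) ≠ 0)
    (h2 : Df r (r^3) (z) ≠ 0)
    (h3 : Sf r (z) (1) ≠ 0) :
    (kf r (z) (1)) - (kf r (z) (1)) * (Wf r (z) (r^3)).u2 * (Wf r (r^3) (z)).u2 - (kf r (z) (1)) * (Wf r (r^3) (z)).v - (Wf r (z) (r^3)).u2 * (Wf r (r^3) (z)).w2 * (Kf r (z) (1)) - (Wf r (r^3) (z)).u1 = 0 := by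
  have hN : (r^3*((z)^4-(1)^4))*(Df r (z) (r^3))*(Df r (r^3) (z)) -(r^3*((z)^4-(1)^4))*(r^6*(z)*(r^3)*(r^8-1)*((z)^2-(r^3)^2))*(r^6*(r^3)*(z)*(r^8-1)*((r^3)^2-(z)^2)) -(r^3*((z)^4-(1)^4))*(r^4*((r^3)^2-(z)^2)*(r^12*(z)^2-(r^3)^2))*(Df r (z) (r^3)) -(r^6*(z)*(r^3)*(r^8-1)*((z)^2-(r^3)^2))*(-(r^8*((r^3)^2-(z)^2)*(r^4*(z)^2-(r^3)^2)))*(r^6*(1)^2-(z)^2)*((z)) -((r^8-1)*(r^3)*(z)*(r^12*(z)^2-(r^3)^2))*((z))*(Sf r (z) (1))*(Df r (z) (r^3)) = 0 := by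
    simp only [Df, Sf]
    linear_combination (-r^15*z^4 +r^15*z^8 +r^17*z^6 -r^17*z^10 +r^21*z^2 -r^21*z^10 -r^23*z^4 +r^23*z^12 +r^25*z^2 -r^25*z^6 -2*r^27*z^4 +2*r^27*z^8 +r^29*z^6 -r^29*z^10 -r^31 +r^31*z^8 +r^33*z^2 -r^33*z^10 +r^37*z^2 -r^37*z^6 -r^39*z^4 +r^39*z^8) * hr
  have hE : (kf r (z) (1)) - (kf r (z) (1)) * (Wf r (z) (r^3)).u2 * (Wf r (r^3) (z)).u2 - (kf r (z) (1)) * (Wf r (r^3) (z)).v - (Wf r (z) (r^3)).u2 * (Wf r (r^3) (z)).w2 * (Kf r (z) (1)) - (Wf r (r^3) (z)).u1 = ((r^3*((z)^4-(1)^4))*(Df r (z) (r^3))*(Df r (r^3) (z)) -(r^3*((z)^4-(1)^4))*(r^6*(z)*(r^3)*(r^8-1)*((z)^2-(r^3)^2))*(r^6*(r^3)*(z)*(r^8-1)*((r^3)^2-(z)^2)) -(r^3*((z)^4-(1)^4))*(r^4*((r^3)^2-(z)^2)*(r^12*(z)^2-(r^3)^2))*(Df r (z) (r^3)) -(r^6*(z)*(r^3)*(r^8-1)*((z)^2-(r^3)^2))*(-(r^8*((r^3)^2-(z)^2)*(r^4*(z)^2-(r^3)^2)))*(r^6*(1)^2-(z)^2)*((z))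 -((r^8-1)*(r^3)*(z)*(r^12*(z)^2-(r^3)^2))*((z))*(Sf r (z) (1))*(Df r (z) (r^3))) / (((z))*(Sf r (z) (1))*(Df r (z) (r^3))*(Df r (r^3) (z))) := by
    simp only [Wf, Kf, kf, xf]
    first | done | (field_simp; done) | (field_simp; ring)
  rw [hE, hN, zero_div]

theorem CT_e9 (r z : ℂ) (hr : r^16 + 1 = 0) (hz : z ≠ 0) (hr0 : r ≠ 0)
    (h1 : Df r (z) (r^3) ≠ 0)
    (h2 : Df r (r^3) (z) ≠ 0)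
    (h3 : Sf r (z) (1) ≠ 0) :
    (kf r (z) (1)) * (Wf r (z) (r^3)).w1 * (Wf r (r^3) (z)).u2 + (Wf r (z) (r^3)).w1 * (Wf r (r^3) (z)).w2 * (Kf r (z) (1)) - (Kf r (z) (1)) = 0 := by
  have hN : (r^3*((z)^4-(1)^4))*((r^8*(r^3)^2-(z)^2)*(r^12*(r^3)^2-(z)^2))*(r^6*(r^3)*(z)*(r^8-1)*((r^3)^2-(z)^2)) +((r^8*(r^3)^2-(z)^2)*(r^12*(r^3)^2-(z)^2))*(-(r^8*((r^3)^2-(z)^2)*(r^4*(z)^2-(r^3)^2)))*(r^6*(1)^2-(z)^2)*((z)) -(r^6*(1)^2-(z)^2)*((z))*(Df r (z) (r^3))*(Df r (r^3) (z)) = 0 := by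
    simp only [Df, Sf]
    linear_combination (0) * hr
  have hE : (kf r (z) (1)) * (Wf r (z) (r^3)).w1 * (Wf r (r^3) (z)).u2 + (Wf r (z) (r^3)).w1 * (Wf r (r^3) (z)).w2 * (Kf r (z) (1)) - (Kf r (z) (1)) = ((r^3*((z)^4-(1)^4))*((r^8*(r^3)^2-(z)^2)*(r^12*(r^3)^2-(z)^2))*(r^6*(r^3)*(z)*(r^8-1)*((r^3)^2-(z)^2)) +((r^8*(r^3)^2-(z)^2)*(r^12*(r^3)^2-(z)^2))*(-(r^8*((r^3)^2-(z)^2)*(r^4*(z)^2-(r^3)^2)))*(r^6*(1)^2-(z)^2)*((z)) -(r^6*(1)^2-(z)^2)*((z))*(Df r (z) (r^3))*(Df r (r^3) (z))) / (((z))*(Sf r (z) (1))*(Df r (z) (r^3))*(Df r (r^3) (z))) := by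
    simp only [Wf, Kf, kf, xf]
    first | done | (field_simp; done) | (field_simp; ring)
  rw [hE, hN, zero_div]

theorem CT_scal (r z : ℂ) (hr : r^16 + 1 = 0) (hz : z ≠ 0) (hr0 : r ≠ 0)
    (h1 : Df r (z) (r^3) ≠ 0)
    (h2 : Df r (r^3) (z) ≠ 0)
    (h3 : Sf r (z) (1) ≠ 0) :
    CT.Eqs (Wf r (z) (r^3)) (Wf r (r^3) (z)) (Kf r (z) (1)) (kf r (z) (1)) :=
  ⟨CT_e1 r z hr hz hr0 h1 h2 h3,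
   CT_e2 r z hr hz hr0 h1 h2 h3,
   CT_e3 r z hr hz hr0 h1 h2 h3,
   CT_e4 r z hr hz hr0 h1 h2 h3,
   CT_e5 r z hr hz hr0 h1 h2 h3,
   CT_e6 r z hr hz hr0 h1 h2 h3,
   CT_e7 r z hr hz hr0 h1 h2 h3,
   CT_e8 r z hr hz hr0 h1 h2 h3,
   CT_e9 r z hr hz hr0 h1 h2 h3⟩

theorem CU_e1 (r z : ℂ) (hr : r^16 + 1 = 0) (hz : z ≠ 0) (hr0 : r ≠ 0)
    (h1 : Df r (z) (1) ≠ 0)
    (h2 : Df r (r^6*z) (1) ≠ 0) :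
    1 - (Wf r (z) (1)).u1 * (Wf r (r^6*z) (1)).u2 - (Wf r (z) (1)).v * (Wf r (r^6*z) (1)).v = 0 := by
  have hN : (Df r (z) (1))*(Df r (r^6*z) (1)) -((r^8-1)*(z)*(1)*(r^12*(1)^2-(z)^2))*(r^6*(r^6*z)*(1)*(r^8-1)*((r^6*z)^2-(1)^2)) -(r^4*((z)^2-(1)^2)*(r^12*(1)^2-(z)^2))*(r^4*((r^6*z)^2-(1)^2)*(r^12*(1)^2-(r^6*z)^2)) = 0 := by
    simp only [Df, Sf]
    linear_combination (1 -r^8*z^2 -r^12*z^2 -r^12*z^4 -r^16 +r^20*z^4 +r^20*z^6 +r^24*z^2 +r^24*z^6 +r^28*z^2 +r^28*z^4 -r^32*z^8 -r^36*z^4 -r^36*z^6 -r^40*z^6 +r^48*z^8) * hr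
  have hE : 1 - (Wf r (z) (1)).u1 * (Wf r (r^6*z) (1)).u2 - (Wf r (z) (1)).v * (Wf r (r^6*z) (1)).v = ((Df r (z) (1))*(Df r (r^6*z) (1)) -((r^8-1)*(z)*(1)*(r^12*(1)^2-(z)^2))*(r^6*(r^6*z)*(1)*(r^8-1)*((r^6*z)^2-(1)^2)) -(r^4*((z)^2-(1)^2)*(r^12*(1)^2-(z)^2))*(r^4*((r^6*z)^2-(1)^2)*(r^12*(1)^2-(r^6*z)^2))) / ((Df r (z) (1))*(Df r (r^6*z) (1))) := by
    simp only [Wf, Kf, kf, xf]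
    first | done | (field_simp; done) | (field_simp; ring)
  rw [hE, hN, zero_div]

theorem CU_e2 (r z : ℂ) (hr : r^16 + 1 = 0) (hz : z ≠ 0) (hr0 : r ≠ 0)
    (h1 : Df r (z) (1) ≠ 0)
    (h2 : Df r (r^6*z) (1) ≠ 0) :
    (Wf r (z) (1)).u1 * (Wf r (r^6*z) (1)).v + (Wf r (z) (1)).v * (Wf r (r^6*z) (1)).u2 = 0 := by
  have hN : ((r^8-1)*(z)*(1)*(r^12*(1)^2-(z)^2))*(r^4*((r^6*z)^2-(1)^2)*(r^12*(1)^2-(r^6*z)^2)) +(r^4*((z)^2-(1)^2)*(r^12*(1)^2-(z)^2))*(r^6*(r^6*z)*(1)*(r^8-1)*((r^6*z)^2-(1)^2)) = 0 := by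
    linear_combination (0) * hr
  have hE : (Wf r (z) (1)).u1 * (Wf r (r^6*z) (1)).v + (Wf r (z) (1)).v * (Wf r (r^6*z) (1)).u2 = (((r^8-1)*(z)*(1)*(r^12*(1)^2-(z)^2))*(r^4*((r^6*z)^2-(1)^2)*(r^12*(1)^2-(r^6*z)^2)) +(r^4*((z)^2-(1)^2)*(r^12*(1)^2-(z)^2))*(r^6*(r^6*z)*(1)*(r^8-1)*((r^6*z)^2-(1)^2))) / ((Df r (z) (1))*(Df r (r^6*z) (1))) := by
    simp only [Wf, Kf, kf, xf]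
    first | done | (field_simp; done) | (field_simp; ring)
  rw [hE, hN, zero_div]

theorem CU_e3 (r z : ℂ) (hr : r^16 + 1 = 0) (hz : z ≠ 0) (hr0 : r ≠ 0)
    (h1 : Df r (z) (1) ≠ 0)
    (h2 : Df r (r^6*z) (1) ≠ 0) :
    (Wf r (z) (1)).u2 + (Wf r (z) (1)).w1 * (Wf r (r^6*z) (1)).u1 = 0 := by
  have hN : (r^6*(z)*(1)*(r^8-1)*((z)^2-(1)^2))*(Df r (r^6*z) (1)) +((r^8*(1)^2-(z)^2)*(r^12*(1)^2-(z)^2))*((r^8-1)*(r^6*z)*(1)*(r^12*(1)^2-(r^6*z)^2)) = 0 := by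
    simp only [Df, Sf]
    linear_combination (r^6*z -r^6*z^3 -r^14*z +r^14*z^3 -r^18*z^5 +r^18*z^7 -r^22*z +r^22*z^3 +r^26*z^5 -r^26*z^7 +r^30*z -r^30*z^3 +r^34*z^5 -r^34*z^7 -r^42*z^5 +r^42*z^7) * hr
  have hE : (Wf r (z) (1)).u2 + (Wf r (z) (1)).w1 * (Wf r (r^6*z) (1)).u1 = ((r^6*(z)*(1)*(r^8-1)*((z)^2-(1)^2))*(Df r (r^6*z) (1)) +((r^8*(1)^2-(z)^2)*(r^12*(1)^2-(z)^2))*((r^8-1)*(r^6*z)*(1)*(r^12*(1)^2-(r^6*z)^2))) / ((Df r (z) (1))*(Df r (r^6*z) (1))) := by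
    simp only [Wf, Kf, kf, xf]
    first | done | (field_simp; done) | (field_simp; ring)
  rw [hE, hN, zero_div]

theorem CU_e4 (r z : ℂ) (hr : r^16 + 1 = 0) (hz : z ≠ 0) (hr0 : r ≠ 0)
    (h1 : Df r (z) (1) ≠ 0)
    (h2 : Df r (r^6*z) (1) ≠ 0) :
    (Wf r (z) (1)).u2 * (Wf r (r^6*z) (1)).u1 + (Wf r (z) (1)).w1 * (Wf r (r^6*z) (1)).w1 + (Wf r (z) (1)).w2 * (Wf r (r^6*z) (1)).w2 = 0 := by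
  have hN : (r^6*(z)*(1)*(r^8-1)*((z)^2-(1)^2))*((r^8-1)*(r^6*z)*(1)*(r^12*(1)^2-(r^6*z)^2)) +((r^8*(1)^2-(z)^2)*(r^12*(1)^2-(z)^2))*((r^8*(1)^2-(r^6*z)^2)*(r^12*(1)^2-(r^6*z)^2)) +(-(r^8*((z)^2-(1)^2)*(r^4*(1)^2-(z)^2)))*(-(r^8*((r^6*z)^2-(1)^2)*(r^4*(1)^2-(r^6*z)^2))) = 0 := by
    linear_combination (-r^20*z^2 +2*r^20*z^4 -r^20*z^6 +r^24 -2*r^24*z^2 +2*r^24*z^4 -2*r^24*z^6 +r^24*z^8 -r^28*z^2 +2*r^28*z^4 -r^28*z^6) * hr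
  have hE : (Wf r (z) (1)).u2 * (Wf r (r^6*z) (1)).u1 + (Wf r (z) (1)).w1 * (Wf r (r^6*z) (1)).w1 + (Wf r (z) (1)).w2 * (Wf r (r^6*z) (1)).w2 = ((r^6*(z)*(1)*(r^8-1)*((z)^2-(1)^2))*((r^8-1)*(r^6*z)*(1)*(r^12*(1)^2-(r^6*z)^2)) +((r^8*(1)^2-(z)^2)*(r^12*(1)^2-(z)^2))*((r^8*(1)^2-(r^6*z)^2)*(r^12*(1)^2-(r^6*z)^2)) +(-(r^8*((z)^2-(1)^2)*(r^4*(1)^2-(z)^2)))*(-(r^8*((r^6*z)^2-(1)^2)*(r^4*(1)^2-(r^6*z)^2)))) / ((Df r (z) (1))*(Df r (r^6*z) (1))) := by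
    simp only [Wf, Kf, kf, xf]
    first | done | (field_simp; done) | (field_simp; ring)
  rw [hE, hN, zero_div]

theorem CU_e5 (r z : ℂ) (hr : r^16 + 1 = 0) (hz : z ≠ 0) (hr0 : r ≠ 0)
    (h1 : Df r (z) (1) ≠ 0)
    (h2 : Df r (r^6*z) (1) ≠ 0) :
    1 - (Wf r (z) (1)).u2 * (Wf r (r^6*z) (1)).u1 - (Wf r (z) (1)).w1 * (Wf r (r^6*z) (1)).w1 - (Wf r (z) (1)).w1 * (Wf r (r^6*z) (1)).w2 - (Wf r (z) (1)).w2 * (Wf r (r^6*z) (1)).w2 = 0 := by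
  have hN : (Df r (z) (1))*(Df r (r^6*z) (1)) -(r^6*(z)*(1)*(r^8-1)*((z)^2-(1)^2))*((r^8-1)*(r^6*z)*(1)*(r^12*(1)^2-(r^6*z)^2)) -((r^8*(1)^2-(z)^2)*(r^12*(1)^2-(z)^2))*((r^8*(1)^2-(r^6*z)^2)*(r^12*(1)^2-(r^6*z)^2)) -((r^8*(1)^2-(z)^2)*(r^12*(1)^2-(z)^2))*(-(r^8*((r^6*z)^2-(1)^2)*(r^4*(1)^2-(r^6*z)^2))) -(-(r^8*((z)^2-(1)^2)*(r^4*(1)^2-(z)^2)))*(-(r^8*((r^6*z)^2-(1)^2)*(r^4*(1)^2-(r^6*z)^2))) = 0 := by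
    simp only [Df, Sf]
    linear_combination (1 -r^8*z^2 -r^12*z^2 -r^12*z^4 -r^16 +r^20*z^2 -r^20*z^4 +2*r^20*z^6 -r^24 +3*r^24*z^2 -2*r^24*z^4 +3*r^24*z^6 -r^24*z^8 +2*r^28*z^2 -r^28*z^4 +r^28*z^6 -r^32*z^8 -r^36*z^4 -r^36*z^6 -r^40*z^6 +r^48*z^8) * hr
  have hE : 1 - (Wf r (z) (1)).u2 * (Wf r (r^6*z) (1)).u1 - (Wf r (z) (1)).w1 * (Wf r (r^6*z) (1)).w1 - (Wf r (z) (1)).w1 * (Wf r (r^6*z) (1)).w2 - (Wf r (z) (1)).w2 * (Wf r (r^6*z) (1)).w2 = ((Df r (z) (1))*(Df r (r^6*z) (1)) -(r^6*(z)*(1)*(r^8-1)*((z)^2-(1)^2))*((r^8-1)*(r^6*z)*(1)*(r^12*(1)^2-(r^6*z)^2)) -((r^8*(1)^2-(z)^2)*(r^12*(1)^2-(z)^2))*((r^8*(1)^2-(r^6*z)^2)*(r^12*(1)^2-(r^6*z)^2)) -((r^8*(1)^2-(z)^2)*(r^12*(1)^2-(z)^2))*(-(r^8*((r^6*z)^2-(1)^2)*(r^4*(1)^2-(r^6*z)^2))) -(-(r^8*((z)^2-(1)^2)*(r^4*(1)^2-(z)^2)))*(-(r^8*((r^6*z)^2-(1)^2)*(r^4*(1)^2-(r^6*z)^2))))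 / ((Df r (z) (1))*(Df r (r^6*z) (1))) := by
    simp only [Wf, Kf, kf, xf]
    first | done | (field_simp; done) | (field_simp; ring)
  rw [hE, hN, zero_div]

theorem CU_e6 (r z : ℂ) (hr : r^16 + 1 = 0) (hz : z ≠ 0) (hr0 : r ≠ 0)
    (h1 : Df r (z) (1) ≠ 0)
    (h2 : Df r (r^6*z) (1) ≠ 0) :
    (Wf r (z) (1)).u2 * (Wf r (r^6*z) (1)).w2 + (Wf r (r^6*z) (1)).u1 = 0 := by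
  have hN : (r^6*(z)*(1)*(r^8-1)*((z)^2-(1)^2))*(-(r^8*((r^6*z)^2-(1)^2)*(r^4*(1)^2-(r^6*z)^2))) +((r^8-1)*(r^6*z)*(1)*(r^12*(1)^2-(r^6*z)^2))*(Df r (z) (1)) = 0 := by
    simp only [Df, Sf]
    linear_combination (0) * hr
  have hE : (Wf r (z) (1)).u2 * (Wf r (r^6*z) (1)).w2 + (Wf r (r^6*z) (1)).u1 = ((r^6*(z)*(1)*(r^8-1)*((z)^2-(1)^2))*(-(r^8*((r^6*z)^2-(1)^2)*(r^4*(1)^2-(r^6*z)^2))) +((r^8-1)*(r^6*z)*(1)*(r^12*(1)^2-(r^6*z)^2))*(Df r (z) (1))) / ((Df r (z) (1))*(Df r (r^6*z) (1))) := by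
    simp only [Wf, Kf, kf, xf]
    first | done | (field_simp; done) | (field_simp; ring)
  rw [hE, hN, zero_div]

theorem CU_e7 (r z : ℂ) (hr : r^16 + 1 = 0) (hz : z ≠ 0) (hr0 : r ≠ 0)
    (h1 : Df r (z) (1) ≠ 0)
    (h2 : Df r (r^6*z) (1) ≠ 0) :
    1 - (Wf r (z) (1)).w1 * (Wf r (r^6*z) (1)).w2 = 0 := by
  have hN : (Df r (z) (1))*(Df r (r^6*z) (1)) -((r^8*(1)^2-(z)^2)*(r^12*(1)^2-(z)^2))*(-(r^8*((r^6*z)^2-(1)^2)*(r^4*(1)^2-(r^6*z)^2))) = 0 := by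
    simp only [Df, Sf]
    linear_combination (1 -r^8*z^2 -r^12*z^2 -r^12*z^4 -r^16 +r^20*z^4 +r^20*z^6 +r^24*z^2 +r^24*z^6 +r^28*z^2 +r^28*z^4 -r^32*z^8 -r^36*z^4 -r^36*z^6 -r^40*z^6 +r^48*z^8) * hr
  have hE : 1 - (Wf r (z) (1)).w1 * (Wf r (r^6*z) (1)).w2 = ((Df r (z) (1))*(Df r (r^6*z) (1)) -((r^8*(1)^2-(z)^2)*(r^12*(1)^2-(z)^2))*(-(r^8*((r^6*z)^2-(1)^2)*(r^4*(1)^2-(r^6*z)^2)))) / ((Df r (z) (1))*(Df r (r^6*z) (1))) := by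
    simp only [Wf, Kf, kf, xf]
    first | done | (field_simp; done) | (field_simp; ring)
  rw [hE, hN, zero_div]

theorem CU_scal (r z : ℂ) (hr : r^16 + 1 = 0) (hz : z ≠ 0) (hr0 : r ≠ 0)
    (h1 : Df r (z) (1) ≠ 0)
    (h2 : Df r (r^6*z) (1) ≠ 0) :
    CU.Eqs (Wf r (z) (1)) (Wf r (r^6*z) (1)) :=
  ⟨CU_e1 r z hr hz hr0 h1 h2,
   CU_e2 r z hr hz hr0 h1 h2,
   CU_e3 r z hr hz hr0 h1 h2,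
   CU_e4 r z hr hz hr0 h1 h2,
   CU_e5 r z hr hz hr0 h1 h2,
   CU_e6 r z hr hz hr0 h1 h2,
   CU_e7 r z hr hz hr0 h1 h2⟩

theorem CU2_e1 (r z : ℂ) (hr : r^16 + 1 = 0) (hz : z ≠ 0) (hr0 : r ≠ 0)
    (h1 : Df r (z) (1) ≠ 0)
    (h2 : Df r (r^6*z) (1) ≠ 0) :
    (Wf r (z) (1)).u1 * (Wf r (r^6*z) (1)).v + (Wf r (z) (1)).v * (Wf r (r^6*z) (1)).u2 = 0 := by
  have hN : ((r^8-1)*(z)*(1)*(r^12*(1)^2-(z)^2))*(r^4*((r^6*z)^2-(1)^2)*(r^12*(1)^2-(r^6*z)^2)) +(r^4*((z)^2-(1)^2)*(r^12*(1)^2-(z)^2))*(r^6*(r^6*z)*(1)*(r^8-1)*((r^6*z)^2-(1)^2)) = 0 := by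
    linear_combination (0) * hr
  have hE : (Wf r (z) (1)).u1 * (Wf r (r^6*z) (1)).v + (Wf r (z) (1)).v * (Wf r (r^6*z) (1)).u2 = (((r^8-1)*(z)*(1)*(r^12*(1)^2-(z)^2))*(r^4*((r^6*z)^2-(1)^2)*(r^12*(1)^2-(r^6*z)^2)) +(r^4*((z)^2-(1)^2)*(r^12*(1)^2-(z)^2))*(r^6*(r^6*z)*(1)*(r^8-1)*((r^6*z)^2-(1)^2))) / ((Df r (z) (1))*(Df r (r^6*z) (1))) := by
    simp only [Wf, Kf, kf, xf]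
    first | done | (field_simp; done) | (field_simp; ring)
  rw [hE, hN, zero_div]

theorem CU2_e2 (r z : ℂ) (hr : r^16 + 1 = 0) (hz : z ≠ 0) (hr0 : r ≠ 0)
    (h1 : Df r (z) (1) ≠ 0)
    (h2 : Df r (r^6*z) (1) ≠ 0) :
    1 - (Wf r (z) (1)).u1 * (Wf r (r^6*z) (1)).u2 - (Wf r (z) (1)).v * (Wf r (r^6*z) (1)).v = 0 := by
  have hN : (Df r (z) (1))*(Df r (r^6*z) (1)) -((r^8-1)*(z)*(1)*(r^12*(1)^2-(z)^2))*(r^6*(r^6*z)*(1)*(r^8-1)*((r^6*z)^2-(1)^2)) -(r^4*((z)^2-(1)^2)*(r^12*(1)^2-(z)^2))*(r^4*((r^6*z)^2-(1)^2)*(r^12*(1)^2-(r^6*z)^2)) = 0 := by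
    simp only [Df, Sf]
    linear_combination (1 -r^8*z^2 -r^12*z^2 -r^12*z^4 -r^16 +r^20*z^4 +r^20*z^6 +r^24*z^2 +r^24*z^6 +r^28*z^2 +r^28*z^4 -r^32*z^8 -r^36*z^4 -r^36*z^6 -r^40*z^6 +r^48*z^8) * hr
  have hE : 1 - (Wf r (z) (1)).u1 * (Wf r (r^6*z) (1)).u2 - (Wf r (z) (1)).v * (Wf r (r^6*z) (1)).v = ((Df r (z) (1))*(Df r (r^6*z) (1)) -((r^8-1)*(z)*(1)*(r^12*(1)^2-(z)^2))*(r^6*(r^6*z)*(1)*(r^8-1)*((r^6*z)^2-(1)^2)) -(r^4*((z)^2-(1)^2)*(r^12*(1)^2-(z)^2))*(r^4*((r^6*z)^2-(1)^2)*(r^12*(1)^2-(r^6*z)^2))) / ((Df r (z) (1))*(Df r (r^6*z) (1))) := by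
    simp only [Wf, Kf, kf, xf]
    first | done | (field_simp; done) | (field_simp; ring)
  rw [hE, hN, zero_div]

theorem CU2_e3 (r z : ℂ) (hr : r^16 + 1 = 0) (hz : z ≠ 0) (hr0 : r ≠ 0)
    (h1 : Df r (z) (1) ≠ 0)
    (h2 : Df r (r^6*z) (1) ≠ 0) :
    (Wf r (z) (1)).u2 + (Wf r (z) (1)).w1 * (Wf r (r^6*z) (1)).u1 = 0 := by
  have hN : (r^6*(z)*(1)*(r^8-1)*((z)^2-(1)^2))*(Df r (r^6*z) (1)) +((r^8*(1)^2-(z)^2)*(r^12*(1)^2-(z)^2))*((r^8-1)*(r^6*z)*(1)*(r^12*(1)^2-(r^6*z)^2)) = 0 := by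
    simp only [Df, Sf]
    linear_combination (r^6*z -r^6*z^3 -r^14*z +r^14*z^3 -r^18*z^5 +r^18*z^7 -r^22*z +r^22*z^3 +r^26*z^5 -r^26*z^7 +r^30*z -r^30*z^3 +r^34*z^5 -r^34*z^7 -r^42*z^5 +r^42*z^7) * hr
  have hE : (Wf r (z) (1)).u2 + (Wf r (z) (1)).w1 * (Wf r (r^6*z) (1)).u1 = ((r^6*(z)*(1)*(r^8-1)*((z)^2-(1)^2))*(Df r (r^6*z) (1)) +((r^8*(1)^2-(z)^2)*(r^12*(1)^2-(z)^2))*((r^8-1)*(r^6*z)*(1)*(r^12*(1)^2-(r^6*z)^2))) / ((Df r (z) (1))*(Df r (r^6*z) (1))) := by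
    simp only [Wf, Kf, kf, xf]
    first | done | (field_simp; done) | (field_simp; ring)
  rw [hE, hN, zero_div]

theorem CU2_e4 (r z : ℂ) (hr : r^16 + 1 = 0) (hz : z ≠ 0) (hr0 : r ≠ 0)
    (h1 : Df r (z) (1) ≠ 0)
    (h2 : Df r (r^6*z) (1) ≠ 0) :
    (Wf r (z) (1)).u2 * (Wf r (r^6*z) (1)).w2 + (Wf r (r^6*z) (1)).u1 = 0 := by
  have hN : (r^6*(z)*(1)*(r^8-1)*((z)^2-(1)^2))*(-(r^8*((r^6*z)^2-(1)^2)*(r^4*(1)^2-(r^6*z)^2))) +((r^8-1)*(r^6*z)*(1)*(r^12*(1)^2-(r^6*z)^2))*(Df r (z) (1)) = 0 := by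
    simp only [Df, Sf]
    linear_combination (0) * hr
  have hE : (Wf r (z) (1)).u2 * (Wf r (r^6*z) (1)).w2 + (Wf r (r^6*z) (1)).u1 = ((r^6*(z)*(1)*(r^8-1)*((z)^2-(1)^2))*(-(r^8*((r^6*z)^2-(1)^2)*(r^4*(1)^2-(r^6*z)^2))) +((r^8-1)*(r^6*z)*(1)*(r^12*(1)^2-(r^6*z)^2))*(Df r (z) (1))) / ((Df r (z) (1))*(Df r (r^6*z) (1))) := by
    simp only [Wf, Kf, kf, xf]
    first | done | (field_simp; done) | (field_simp; ring)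
  rw [hE, hN, zero_div]

theorem CU2_e5 (r z : ℂ) (hr : r^16 + 1 = 0) (hz : z ≠ 0) (hr0 : r ≠ 0)
    (h1 : Df r (z) (1) ≠ 0)
    (h2 : Df r (r^6*z) (1) ≠ 0) :
    1 - (Wf r (z) (1)).w1 * (Wf r (r^6*z) (1)).w2 = 0 := by
  have hN : (Df r (z) (1))*(Df r (r^6*z) (1)) -((r^8*(1)^2-(z)^2)*(r^12*(1)^2-(z)^2))*(-(r^8*((r^6*z)^2-(1)^2)*(r^4*(1)^2-(r^6*z)^2))) = 0 := by
    simp only [Df, Sf]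
    linear_combination (1 -r^8*z^2 -r^12*z^2 -r^12*z^4 -r^16 +r^20*z^4 +r^20*z^6 +r^24*z^2 +r^24*z^6 +r^28*z^2 +r^28*z^4 -r^32*z^8 -r^36*z^4 -r^36*z^6 -r^40*z^6 +r^48*z^8) * hr
  have hE : 1 - (Wf r (z) (1)).w1 * (Wf r (r^6*z) (1)).w2 = ((Df r (z) (1))*(Df r (r^6*z) (1)) -((r^8*(1)^2-(z)^2)*(r^12*(1)^2-(z)^2))*(-(r^8*((r^6*z)^2-(1)^2)*(r^4*(1)^2-(r^6*z)^2)))) / ((Df r (z) (1))*(Df r (r^6*z) (1))) := by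
    simp only [Wf, Kf, kf, xf]
    first | done | (field_simp; done) | (field_simp; ring)
  rw [hE, hN, zero_div]

theorem CU2_e6 (r z : ℂ) (hr : r^16 + 1 = 0) (hz : z ≠ 0) (hr0 : r ≠ 0)
    (h1 : Df r (z) (1) ≠ 0)
    (h2 : Df r (r^6*z) (1) ≠ 0) :
    (Wf r (z) (1)).u2 * (Wf r (r^6*z) (1)).u1 + (Wf r (z) (1)).w1 * (Wf r (r^6*z) (1)).w1 + (Wf r (z) (1)).w2 * (Wf r (r^6*z) (1)).w2 = 0 := by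
  have hN : (r^6*(z)*(1)*(r^8-1)*((z)^2-(1)^2))*((r^8-1)*(r^6*z)*(1)*(r^12*(1)^2-(r^6*z)^2)) +((r^8*(1)^2-(z)^2)*(r^12*(1)^2-(z)^2))*((r^8*(1)^2-(r^6*z)^2)*(r^12*(1)^2-(r^6*z)^2)) +(-(r^8*((z)^2-(1)^2)*(r^4*(1)^2-(z)^2)))*(-(r^8*((r^6*z)^2-(1)^2)*(r^4*(1)^2-(r^6*z)^2))) = 0 := by
    linear_combination (-r^20*z^2 +2*r^20*z^4 -r^20*z^6 +r^24 -2*r^24*z^2 +2*r^24*z^4 -2*r^24*z^6 +r^24*z^8 -r^28*z^2 +2*r^28*z^4 -r^28*z^6) * hr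
  have hE : (Wf r (z) (1)).u2 * (Wf r (r^6*z) (1)).u1 + (Wf r (z) (1)).w1 * (Wf r (r^6*z) (1)).w1 + (Wf r (z) (1)).w2 * (Wf r (r^6*z) (1)).w2 = ((r^6*(z)*(1)*(r^8-1)*((z)^2-(1)^2))*((r^8-1)*(r^6*z)*(1)*(r^12*(1)^2-(r^6*z)^2)) +((r^8*(1)^2-(z)^2)*(r^12*(1)^2-(z)^2))*((r^8*(1)^2-(r^6*z)^2)*(r^12*(1)^2-(r^6*z)^2)) +(-(r^8*((z)^2-(1)^2)*(r^4*(1)^2-(z)^2)))*(-(r^8*((r^6*z)^2-(1)^2)*(r^4*(1)^2-(r^6*z)^2)))) / ((Df r (z) (1))*(Df r (r^6*z) (1))) := by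
    simp only [Wf, Kf, kf, xf]
    first | done | (field_simp; done) | (field_simp; ring)
  rw [hE, hN, zero_div]

theorem CU2_scal (r z : ℂ) (hr : r^16 + 1 = 0) (hz : z ≠ 0) (hr0 : r ≠ 0)
    (h1 : Df r (z) (1) ≠ 0)
    (h2 : Df r (r^6*z) (1) ≠ 0) :
    CU2.Eqs (Wf r (z) (1)) (Wf r (r^6*z) (1)) :=
  ⟨CU2_e1 r z hr hz hr0 h1 h2,
   CU2_e2 r z hr hz hr0 h1 h2,
   CU2_e3 r z hr hz hr0 h1 h2,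
   CU2_e4 r z hr hz hr0 h1 h2,
   CU2_e5 r z hr hz hr0 h1 h2,
   CU2_e6 r z hr hz hr0 h1 h2⟩

theorem TI_e1 (r z : ℂ) (hr : r^16 + 1 = 0) (hz : z ≠ 0) (hr0 : r ≠ 0)
    (h1 : Sf r (z) (1) ≠ 0)
    (h2 : Sf r (r^6*z) (1) ≠ 0)
    (h3 : Df r (1) (z^2) ≠ 0) :
    (kf r (z) (1)) * (Wf r (1) (z^2)).u1 + (kf r (z) (1)) * (Wf r (1) (z^2)).w2 * (Kf r (r^6*z) (1)) + (kf r (r^6*z) (1)) * (Wf r (1) (z^2)).u2 + (kf r (r^6*z) (1)) * (Wf r (1) (z^2)).v = 0 := by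
  have hN : (r^3*((z)^4-(1)^4))*((r^8-1)*(1)*(z^2)*(r^12*(z^2)^2-(1)^2))*(Sf r (r^6*z) (1))*((r^6*z)) +(r^3*((z)^4-(1)^4))*(-(r^8*((1)^2-(z^2)^2)*(r^4*(z^2)^2-(1)^2)))*(r^6*(1)^2-(r^6*z)^2)*((r^6*z)) +(r^3*((r^6*z)^4-(1)^4))*(r^6*(1)*(z^2)*(r^8-1)*((1)^2-(z^2)^2))*((z))*(Sf r (z) (1)) +(r^3*((r^6*z)^4-(1)^4))*(r^4*((1)^2-(z^2)^2)*(r^12*(z^2)^2-(1)^2))*((z))*(Sf r (z) (1)) = 0 := by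
    simp only [Df, Sf]
    linear_combination (-r^7*z +r^7*z^5 +r^13*z^3 -r^13*z^7 +r^15*z^5 -r^15*z^9 +r^19*z^5 -r^19*z^9 -r^21*z^7 +r^21*z^11 -r^25*z^7 +r^25*z^11 -r^27*z^9 +r^27*z^13 +r^33*z^11 -r^33*z^15) * hr
  have hE : (kf r (z) (1)) * (Wf r (1) (z^2)).u1 + (kf r (z) (1)) * (Wf r (1) (z^2)).w2 * (Kf r (r^6*z) (1)) + (kf r (r^6*z) (1)) * (Wf r (1) (z^2)).u2 + (kf r (r^6*z) (1)) * (Wf r (1) (z^2)).v = ((r^3*((z)^4-(1)^4))*((r^8-1)*(1)*(z^2)*(r^12*(z^2)^2-(1)^2))*(Sf r (r^6*z) (1))*((r^6*z)) +(r^3*((z)^4-(1)^4))*(-(r^8*((1)^2-(z^2)^2)*(r^4*(z^2)^2-(1)^2)))*(r^6*(1)^2-(r^6*z)^2)*((r^6*z)) +(r^3*((r^6*z)^4-(1)^4))*(r^6*(1)*(z^2)*(r^8-1)*((1)^2-(z^2)^2))*((z))*(Sf r (z) (1)) +(r^3*((r^6*z)^4-(1)^4))*(r^4*((1)^2-(z^2)^2)*(r^12*(z^2)^2-(1)^2))*((z))*(Sf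 r (z) (1))) / (((z))*(Sf r (z) (1))*(Df r (1) (z^2))*(Sf r (r^6*z) (1))*((r^6*z))) := by
    simp only [Wf, Kf, kf, xf]
    first | done | (field_simp; done) | (field_simp; ring)
  rw [hE, hN, zero_div]

theorem TI_e2 (r z : ℂ) (hr : r^16 + 1 = 0) (hz : z ≠ 0) (hr0 : r ≠ 0)
    (h1 : Sf r (z) (1) ≠ 0)
    (h2 : Sf r (r^6*z) (1) ≠ 0)
    (h3 : Df r (1) (z^2) ≠ 0) :
    1 - (Wf r (1) (z^2)).u1 * (Kf r (z) (1)) - (Wf r (1) (z^2)).w2 * (Kf r (z) (1)) * (Kf r (r^6*z) (1)) = 0 := by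
  have hN : (Df r (1) (z^2))*(Sf r (z) (1))*(Sf r (r^6*z) (1)) -((r^8-1)*(1)*(z^2)*(r^12*(z^2)^2-(1)^2))*(r^6*(1)^2-(z)^2)*(Sf r (r^6*z) (1)) -(-(r^8*((1)^2-(z^2)^2)*(r^4*(z^2)^2-(1)^2)))*(r^6*(1)^2-(z)^2)*(r^6*(1)^2-(r^6*z)^2) = 0 := by
    simp only [Df, Sf]
    linear_combination (-z^4 +z^8 +r^6*z^2 -r^6*z^10 -r^12*z^4 +r^12*z^8 +r^16*z^4 -r^16*z^8 -r^22*z^2 +r^22*z^10 +r^28*z^4 -r^28*z^8) * hr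
  have hE : 1 - (Wf r (1) (z^2)).u1 * (Kf r (z) (1)) - (Wf r (1) (z^2)).w2 * (Kf r (z) (1)) * (Kf r (r^6*z) (1)) = ((Df r (1) (z^2))*(Sf r (z) (1))*(Sf r (r^6*z) (1)) -((r^8-1)*(1)*(z^2)*(r^12*(z^2)^2-(1)^2))*(r^6*(1)^2-(z)^2)*(Sf r (r^6*z) (1)) -(-(r^8*((1)^2-(z^2)^2)*(r^4*(z^2)^2-(1)^2)))*(r^6*(1)^2-(z)^2)*(r^6*(1)^2-(r^6*z)^2)) / ((Df r (1) (z^2))*(Sf r (z) (1))*(Sf r (r^6*z) (1))) := by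
    simp only [Wf, Kf, kf, xf]
    first | done | (field_simp; done) | (field_simp; ring)
  rw [hE, hN, zero_div]

theorem TI_e3 (r z : ℂ) (hr : r^16 + 1 = 0) (hz : z ≠ 0) (hr0 : r ≠ 0)
    (h1 : Sf r (z) (1) ≠ 0)
    (h2 : Sf r (r^6*z) (1) ≠ 0)
    (h3 : Df r (1) (z^2) ≠ 0) :
    (kf r (z) (1)) + (kf r (r^6*z) (1)) * (Wf r (1) (z^2)).u2 * (Kf r (z) (1)) + (kf r (r^6*z) (1)) * (Wf r (1) (z^2)).v * (Kf r (z) (1)) = 0 := by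
  have hN : (r^3*((z)^4-(1)^4))*((r^6*z))*(Sf r (r^6*z) (1))*(Df r (1) (z^2)) +(r^3*((r^6*z)^4-(1)^4))*(r^6*(1)*(z^2)*(r^8-1)*((1)^2-(z^2)^2))*(r^6*(1)^2-(z)^2)*((z)) +(r^3*((r^6*z)^4-(1)^4))*(r^4*((1)^2-(z^2)^2)*(r^12*(z^2)^2-(1)^2))*(r^6*(1)^2-(z)^2)*((z)) = 0 := by
    simp only [Df, Sf]
    linear_combination (-r^7*z^3 +r^7*z^7 -r^9*z^5 +2*r^9*z^9 -r^9*z^13 +r^13*z -r^13*z^5 +r^15*z^3 -r^15*z^7 +r^19*z^7 -r^19*z^11 -r^21*z^5 +r^21*z^9 -r^25*z^9 +r^25*z^13 -r^27*z^11 +r^27*z^15 -r^31*z^3 +2*r^31*z^7 -r^31*z^11 +r^33*z^9 -r^33*z^13) * hr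
  have hE : (kf r (z) (1)) + (kf r (r^6*z) (1)) * (Wf r (1) (z^2)).u2 * (Kf r (z) (1)) + (kf r (r^6*z) (1)) * (Wf r (1) (z^2)).v * (Kf r (z) (1)) = ((r^3*((z)^4-(1)^4))*((r^6*z))*(Sf r (r^6*z) (1))*(Df r (1) (z^2)) +(r^3*((r^6*z)^4-(1)^4))*(r^6*(1)*(z^2)*(r^8-1)*((1)^2-(z^2)^2))*(r^6*(1)^2-(z)^2)*((z)) +(r^3*((r^6*z)^4-(1)^4))*(r^4*((1)^2-(z^2)^2)*(r^12*(z^2)^2-(1)^2))*(r^6*(1)^2-(z)^2)*((z))) / (((z))*(Sf r (z) (1))*((r^6*z))*(Sf r (r^6*z) (1))*(Df r (1) (z^2))) := by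
    simp only [Wf, Kf, kf, xf]
    first | done | (field_simp; done) | (field_simp; ring)
  rw [hE, hN, zero_div]

theorem TI_scal (r z : ℂ) (hr : r^16 + 1 = 0) (hz : z ≠ 0) (hr0 : r ≠ 0)
    (h1 : Sf r (z) (1) ≠ 0)
    (h2 : Sf r (r^6*z) (1) ≠ 0)
    (h3 : Df r (1) (z^2) ≠ 0) :
    TI.Eqs (Kf r (z) (1)) (kf r (z) (1)) (Kf r (r^6*z) (1)) (kf r (r^6*z) (1)) (Wf r (1) (z^2)) :=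
  ⟨TI_e1 r z hr hz hr0 h1 h2 h3,
   TI_e2 r z hr hz hr0 h1 h2 h3,
   TI_e3 r z hr hz hr0 h1 h2 h3⟩

end Pool.Agent.EXL.Sc
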