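import Pool.Agent.EXL.ScalDefs
import Pool.Agent.EXL.LocB1

/-!
# The scalar identities (generated)
-/

namespace Pool.Agent.EXL.Sc

set_option linter.unusedSimpArgs false
set_option linter.unusedVariables false
set_option linter.unreachableTactic false
set_option linter.unusedTactic false

theorem B1_e1 (r z : ℂ) (hr : r^16 + 1 = 0) (hz : z ≠ 0) (hr0 : r ≠ 0)
    (h1 : Df r (z) (1) ≠ 0)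
    (h2 : Df r (r^4*z) (1) ≠ 0)
    (h3 : Df r (r^2*z) (1) ≠ 0)
    (h4 : (r^4+1) ≠ 0) :
    (Wf r (z) (1)).u2 + (Wf r (z) (1)).w1 * (Wf r (r^4*z) (1)).u1 * (xf r) - (Wf r (r^2*z) (1)).u2 * (xf r) = 0 := by
  have hN : (r^6*(z)*(1)*(r^8-1)*((z)^2-(1)^2))*(Df r (r^4*z) (1))*((r^4+1))*(Df r (r^2*z) (1)) +((r^8*(1)^2-(z)^2)*(r^12*(1)^2-(z)^2))*((r^8-1)*(r^4*z)*(1)*(r^12*(1)^2-(r^4*z)^2))*(r^2)*(Df r (r^2*z) (1)) -(r^6*(r^2*z)*(1)*(r^8-1)*((r^2*z)^2-(1)^2))*(r^2)*(Df r (z) (1))*(Df r (r^4*z) (1)) = 0 := by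
    simp only [Df, Sf]
    linear_combination (r^6*z -r^6*z^3 -r^10*z^3 -r^14*z +2*r^14*z^3 +r^14*z^7 +r^18*z^3 -r^22*z -2*r^22*z^3 +r^22*z^5 -r^22*z^7 +r^26*z^5 -r^26*z^9 +r^30*z +r^30*z^3 -2*r^30*z^5 -r^30*z^9 +r^34*z^3 -r^34*z^5 +r^34*z^7 +r^34*z^9 +r^38*z^3 +r^38*z^5 -r^38*z^7 +r^38*z^9 -r^42*z^3 -2*r^42*z^7 +r^42*z^9 +r^42*z^11 -r^46*z^3 +r^46*z^7 -r^50*z^5 +r^50*z^7 -2*r^50*z^9 -r^50*z^11 +r^54*z^9 +r^58*z^5 +2*r^58*z^9 -r^58*z^11 -r^62*z^9 -r^66*z^9 +r^66*z^11) * hr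
  have hE : (Wf r (z) (1)).u2 + (Wf r (z) (1)).w1 * (Wf r (r^4*z) (1)).u1 * (xf r) - (Wf r (r^2*z) (1)).u2 * (xf r) = ((r^6*(z)*(1)*(r^8-1)*((z)^2-(1)^2))*(Df r (r^4*z) (1))*((r^4+1))*(Df r (r^2*z) (1)) +((r^8*(1)^2-(z)^2)*(r^12*(1)^2-(z)^2))*((r^8-1)*(r^4*z)*(1)*(r^12*(1)^2-(r^4*z)^2))*(r^2)*(Df r (r^2*z) (1)) -(r^6*(r^2*z)*(1)*(r^8-1)*((r^2*z)^2-(1)^2))*(r^2)*(Df r (z) (1))*(Df r (r^4*z) (1))) / ((Df r (z) (1))*(Df r (r^4*z) (1))*((r^4+1))*(Df r (r^2*z) (1))) := by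
    simp only [Wf, Kf, kf, xf]
    first | done | (field_simp; done) | (field_simp; ring)
  rw [hE, hN, zero_div]

theorem B1_e2 (r z : ℂ) (hr : r^16 + 1 = 0) (hz : z ≠ 0) (hr0 : r ≠ 0)
    (h1 : Df r (z) (1) ≠ 0)
    (h2 : Df r (r^4*z) (1) ≠ 0)
    (h3 : Df r (r^2*z) (1) ≠ 0)
    (h4 : (r^4+1) ≠ 0) :
    (Wf r (z) (1)).u1 * (Wf r (r^4*z) (1)).u2 + (Wf r (z) (1)).v * (Wf r (r^4*z) (1)).v * (xf r) - (xf r) = 0 := by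
  have hN : ((r^8-1)*(z)*(1)*(r^12*(1)^2-(z)^2))*(r^6*(r^4*z)*(1)*(r^8-1)*((r^4*z)^2-(1)^2))*((r^4+1)) +(r^4*((z)^2-(1)^2)*(r^12*(1)^2-(z)^2))*(r^4*((r^4*z)^2-(1)^2)*(r^12*(1)^2-(r^4*z)^2))*(r^2) -(r^2)*(Df r (z) (1))*(Df r (r^4*z) (1)) = 0 := by
    simp only [Df, Sf]
    linear_combination (-r^2 +r^10*z^2 +r^10*z^4 +r^14*z^2 +r^14*z^4 +r^18 +r^18*z^2 -r^18*z^4 -2*r^18*z^6 -r^22*z^2 -2*r^22*z^4 -r^22*z^6 -2*r^26*z^2 -r^26*z^4 +r^26*z^6 +r^26*z^8 +r^30*z^4 +r^30*z^6 +r^34*z^4 +r^34*z^6 -r^42*z^8) * hr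
  have hE : (Wf r (z) (1)).u1 * (Wf r (r^4*z) (1)).u2 + (Wf r (z) (1)).v * (Wf r (r^4*z) (1)).v * (xf r) - (xf r) = (((r^8-1)*(z)*(1)*(r^12*(1)^2-(z)^2))*(r^6*(r^4*z)*(1)*(r^8-1)*((r^4*z)^2-(1)^2))*((r^4+1)) +(r^4*((z)^2-(1)^2)*(r^12*(1)^2-(z)^2))*(r^4*((r^4*z)^2-(1)^2)*(r^12*(1)^2-(r^4*z)^2))*(r^2) -(r^2)*(Df r (z) (1))*(Df r (r^4*z) (1))) / ((Df r (z) (1))*(Df r (r^4*z) (1))*((r^4+1))) := by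
    simp only [Wf, Kf, kf, xf]
    first | done | (field_simp; done) | (field_simp; ring)
  rw [hE, hN, zero_div]

theorem B1_e3 (r z : ℂ) (hr : r^16 + 1 = 0) (hz : z ≠ 0) (hr0 : r ≠ 0)
    (h1 : Df r (z) (1) ≠ 0)
    (h2 : Df r (r^4*z) (1) ≠ 0)
    (h3 : Df r (r^2*z) (1) ≠ 0)
    (h4 : (r^4+1) ≠ 0) :
    (Wf r (z) (1)).u1 * (Wf r (r^4*z) (1)).v * (xf r) + (Wf r (z) (1)).v * (Wf r (r^4*z) (1)).u2 - (Wf r (r^2*z) (1)).u2 * (xf r) = 0 := by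
  have hN : ((r^8-1)*(z)*(1)*(r^12*(1)^2-(z)^2))*(r^4*((r^4*z)^2-(1)^2)*(r^12*(1)^2-(r^4*z)^2))*(r^2)*(Df r (r^2*z) (1)) +(r^4*((z)^2-(1)^2)*(r^12*(1)^2-(z)^2))*(r^6*(r^4*z)*(1)*(r^8-1)*((r^4*z)^2-(1)^2))*((r^4+1))*(Df r (r^2*z) (1)) -(r^6*(r^2*z)*(1)*(r^8-1)*((r^2*z)^2-(1)^2))*(r^2)*(Df r (z) (1))*(Df r (r^4*z) (1)) = 0 := by
    simp only [Df, Sf]
    linear_combination (-r^10*z +2*r^14*z^3 +r^18*z +r^18*z^3 -r^18*z^5 -r^22*z^3 -2*r^22*z^5 -r^26*z^5 +r^26*z^7 -r^30*z^3 -r^30*z^5 +r^30*z^7 -r^34*z^3 +r^34*z^5 +2*r^34*z^7 +2*r^38*z^5 +r^38*z^7 -r^38*z^9 +r^42*z^5 -r^42*z^7 -r^42*z^9 +r^46*z^5 -r^46*z^7 -2*r^50*z^7 -r^50*z^9 -r^54*z^7 +r^54*z^9 +r^54*z^11 +2*r^58*z^9 -r^62*z^11) * hr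
  have hE : (Wf r (z) (1)).u1 * (Wf r (r^4*z) (1)).v * (xf r) + (Wf r (z) (1)).v * (Wf r (r^4*z) (1)).u2 - (Wf r (r^2*z) (1)).u2 * (xf r) = (((r^8-1)*(z)*(1)*(r^12*(1)^2-(z)^2))*(r^4*((r^4*z)^2-(1)^2)*(r^12*(1)^2-(r^4*z)^2))*(r^2)*(Df r (r^2*z) (1)) +(r^4*((z)^2-(1)^2)*(r^12*(1)^2-(z)^2))*(r^6*(r^4*z)*(1)*(r^8-1)*((r^4*z)^2-(1)^2))*((r^4+1))*(Df r (r^2*z) (1)) -(r^6*(r^2*z)*(1)*(r^8-1)*((r^2*z)^2-(1)^2))*(r^2)*(Df r (z) (1))*(Df r (r^4*z) (1))) / ((Df r (z) (1))*(Df r (r^4*z) (1))*((r^4+1))*(Df r (r^2*z) (1))) := by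
    simp only [Wf, Kf, kf, xf]
    first | done | (field_simp; done) | (field_simp; ring)
  rw [hE, hN, zero_div]

theorem B1_e4 (r z : ℂ) (hr : r^16 + 1 = 0) (hz : z ≠ 0) (hr0 : r ≠ 0)
    (h1 : Df r (z) (1) ≠ 0)
    (h2 : Df r (r^4*z) (1) ≠ 0)
    (h3 : Df r (r^2*z) (1) ≠ 0)
    (h4 : (r^4+1) ≠ 0) :
    (Wf r (z) (1)).u1 * (Wf r (r^4*z) (1)).u2 * (xf r) + (Wf r (z) (1)).v * (Wf r (r^4*z) (1)).v - (Wf r (r^2*z) (1)).v = 0 := by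
  have hN : ((r^8-1)*(z)*(1)*(r^12*(1)^2-(z)^2))*(r^6*(r^4*z)*(1)*(r^8-1)*((r^4*z)^2-(1)^2))*(r^2)*(Df r (r^2*z) (1)) +(r^4*((z)^2-(1)^2)*(r^12*(1)^2-(z)^2))*(r^4*((r^4*z)^2-(1)^2)*(r^12*(1)^2-(r^4*z)^2))*((r^4+1))*(Df r (r^2*z) (1)) -(r^4*((r^2*z)^2-(1)^2)*(r^12*(1)^2-(r^2*z)^2))*(Df r (z) (1))*(Df r (r^4*z) (1))*((r^4+1)) = 0 := by
    simp only [Df, Sf]
    linear_combination (-r^8*z^2 -r^12*z^2 +2*r^12*z^4 +r^16 +3*r^16*z^4 -r^16*z^6 +r^20 -2*r^20*z^2 +2*r^20*z^4 -3*r^20*z^6 -3*r^24*z^2 +3*r^24*z^4 -4*r^24*z^6 +r^24*z^8 -2*r^28*z^2 +4*r^28*z^4 -5*r^28*z^6 +2*r^28*z^8 -2*r^32*z^2 +4*r^32*z^4 -5*r^32*z^6 +4*r^32*z^8 -r^36*z^2 +5*r^36*z^4 -4*r^36*z^6 +5*r^36*z^8 -r^36*z^10 +4*r^40*z^4 -5*r^40*z^6 +4*r^40*z^8 -2*r^40*z^10 +2*r^44*z^4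 -5*r^44*z^6 +4*r^44*z^8 -2*r^44*z^10 +r^48*z^4 -4*r^48*z^6 +3*r^48*z^8 -3*r^48*z^10 -3*r^52*z^6 +2*r^52*z^8 -2*r^52*z^10 +r^52*z^12 -r^56*z^6 +3*r^56*z^8 +r^56*z^12 +2*r^60*z^8 -r^60*z^10 -r^64*z^10) * hr
  have hE : (Wf r (z) (1)).u1 * (Wf r (r^4*z) (1)).u2 * (xf r) + (Wf r (z) (1)).v * (Wf r (r^4*z) (1)).v - (Wf r (r^2*z) (1)).v = (((r^8-1)*(z)*(1)*(r^12*(1)^2-(z)^2))*(r^6*(r^4*z)*(1)*(r^8-1)*((r^4*z)^2-(1)^2))*(r^2)*(Df r (r^2*z) (1)) +(r^4*((z)^2-(1)^2)*(r^12*(1)^2-(z)^2))*(r^4*((r^4*z)^2-(1)^2)*(r^12*(1)^2-(r^4*z)^2))*((r^4+1))*(Df r (r^2*z) (1)) -(r^4*((r^2*z)^2-(1)^2)*(r^12*(1)^2-(r^2*z)^2))*(Df r (z) (1))*(Df r (r^4*z) (1))*((r^4+1))) / ((Df r (z) (1))*(Df r (r^4*z) (1))*((r^4+1))*(Df r (r^2*z) (1))) := by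
    simp only [Wf, Kf, kf, xf]
    first | done | (field_simp; done) | (field_simp; ring)
  rw [hE, hN, zero_div]

theorem B1_e5 (r z : ℂ) (hr : r^16 + 1 = 0) (hz : z ≠ 0) (hr0 : r ≠ 0)
    (h1 : Df r (z) (1) ≠ 0)
    (h2 : Df r (r^4*z) (1) ≠ 0)
    (h3 : Df r (r^2*z) (1) ≠ 0)
    (h4 : (r^4+1) ≠ 0) :
    (Wf r (z) (1)).u1 * (Wf r (r^4*z) (1)).v + (Wf r (z) (1)).v * (Wf r (r^4*z) (1)).u2 * (xf r) - (Wf r (r^2*z) (1)).u1 * (xf r) = 0 := by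
  have hN : ((r^8-1)*(z)*(1)*(r^12*(1)^2-(z)^2))*(r^4*((r^4*z)^2-(1)^2)*(r^12*(1)^2-(r^4*z)^2))*((r^4+1))*(Df r (r^2*z) (1)) +(r^4*((z)^2-(1)^2)*(r^12*(1)^2-(z)^2))*(r^6*(r^4*z)*(1)*(r^8-1)*((r^4*z)^2-(1)^2))*(r^2)*(Df r (r^2*z) (1)) -((r^8-1)*(r^2*z)*(1)*(r^12*(1)^2-(r^2*z)^2))*(r^2)*(Df r (z) (1))*(Df r (r^4*z) (1)) = 0 := by
    simp only [Df, Sf]
    linear_combination (-r^8*z^3 +r^12*z^5 +r^16*z +r^16*z^3 +r^16*z^5 -r^20*z^3 -r^20*z^7 -r^24*z -r^24*z^3 -r^24*z^7 -r^28*z^7 +r^32*z^9 +r^36*z^3 +r^36*z^5 +r^36*z^7 +r^36*z^9 +r^40*z^3 -r^44*z^5 -r^48*z^5 -r^48*z^9 -r^48*z^11 -r^52*z^5 -r^52*z^9 +r^56*z^7 +r^56*z^9 +r^56*z^11 +r^60*z^7 -r^64*z^9) * hr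
  have hE : (Wf r (z) (1)).u1 * (Wf r (r^4*z) (1)).v + (Wf r (z) (1)).v * (Wf r (r^4*z) (1)).u2 * (xf r) - (Wf r (r^2*z) (1)).u1 * (xf r) = (((r^8-1)*(z)*(1)*(r^12*(1)^2-(z)^2))*(r^4*((r^4*z)^2-(1)^2)*(r^12*(1)^2-(r^4*z)^2))*((r^4+1))*(Df r (r^2*z) (1)) +(r^4*((z)^2-(1)^2)*(r^12*(1)^2-(z)^2))*(r^6*(r^4*z)*(1)*(r^8-1)*((r^4*z)^2-(1)^2))*(r^2)*(Df r (r^2*z) (1)) -((r^8-1)*(r^2*z)*(1)*(r^12*(1)^2-(r^2*z)^2))*(r^2)*(Df r (z) (1))*(Df r (r^4*z) (1))) / ((Df r (z) (1))*(Df r (r^4*z) (1))*((r^4+1))*(Df r (r^2*z) (1))) := by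
    simp only [Wf, Kf, kf, xf]
    first | done | (field_simp; done) | (field_simp; ring)
  rw [hE, hN, zero_div]

theorem B1_e6 (r z : ℂ) (hr : r^16 + 1 = 0) (hz : z ≠ 0) (hr0 : r ≠ 0)
    (h1 : Df r (z) (1) ≠ 0)
    (h2 : Df r (r^4*z) (1) ≠ 0)
    (h3 : Df r (r^2*z) (1) ≠ 0)
    (h4 : (r^4+1) ≠ 0) :
    (Wf r (z) (1)).w1 * (Wf r (r^4*z) (1)).w2 * (xf r) - (Wf r (r^2*z) (1)).v * (xf r) = 0 := by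
  have hN : ((r^8*(1)^2-(z)^2)*(r^12*(1)^2-(z)^2))*(-(r^8*((r^4*z)^2-(1)^2)*(r^4*(1)^2-(r^4*z)^2)))*(r^2)*(Df r (r^2*z) (1)) -(r^4*((r^2*z)^2-(1)^2)*(r^12*(1)^2-(r^2*z)^2))*(r^2)*(Df r (z) (1))*(Df r (r^4*z) (1)) = 0 := by
    simp only [Df, Sf]
    linear_combination (-r^10*z^2 +2*r^14*z^4 +r^18 +r^18*z^4 -r^18*z^6 -2*r^22*z^2 +r^22*z^4 -2*r^22*z^6 -r^26*z^2 +2*r^26*z^4 -2*r^26*z^6 +r^26*z^8 -r^30*z^2 +2*r^30*z^4 -3*r^30*z^6 +r^30*z^8 -r^34*z^2 +2*r^34*z^4 -2*r^34*z^6 +3*r^34*z^8 +3*r^38*z^4 -2*r^38*z^6 +2*r^38*z^8 -r^38*z^10 +r^42*z^4 -3*r^42*z^6 +2*r^42*z^8 -r^42*z^10 +r^46*z^4 -2*r^46*z^6 +2*r^46*z^8 -r^46*z^10 -2*r^50*z^6 +r^50*z^8 -2*r^50*z^10 -r^54*z^6 +r^54*z^8 +r^54*z^12 +2*r^58*z^8 -r^62*z^10) * hr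
  have hE : (Wf r (z) (1)).w1 * (Wf r (r^4*z) (1)).w2 * (xf r) - (Wf r (r^2*z) (1)).v * (xf r) = (((r^8*(1)^2-(z)^2)*(r^12*(1)^2-(z)^2))*(-(r^8*((r^4*z)^2-(1)^2)*(r^4*(1)^2-(r^4*z)^2)))*(r^2)*(Df r (r^2*z) (1)) -(r^4*((r^2*z)^2-(1)^2)*(r^12*(1)^2-(r^2*z)^2))*(r^2)*(Df r (z) (1))*(Df r (r^4*z) (1))) / ((Df r (z) (1))*(Df r (r^4*z) (1))*((r^4+1))*(Df r (r^2*z) (1))) := by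
    simp only [Wf, Kf, kf, xf]
    first | done | (field_simp; done) | (field_simp; ring)
  rw [hE, hN, zero_div]

theorem B1_e7 (r z : ℂ) (hr : r^16 + 1 = 0) (hz : z ≠ 0) (hr0 : r ≠ 0)
    (h1 : Df r (z) (1) ≠ 0)
    (h2 : Df r (r^4*z) (1) ≠ 0)
    (h3 : Df r (r^2*z) (1) ≠ 0)
    (h4 : (r^4+1) ≠ 0) :
    (Wf r (z) (1)).u2 * (Wf r (r^4*z) (1)).w2 * (xf r) + (Wf r (r^4*z) (1)).u1 - (Wf r (r^2*z) (1)).u1 * (xf r) = 0 := by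
  have hN : (r^6*(z)*(1)*(r^8-1)*((z)^2-(1)^2))*(-(r^8*((r^4*z)^2-(1)^2)*(r^4*(1)^2-(r^4*z)^2)))*(r^2)*(Df r (r^2*z) (1)) +((r^8-1)*(r^4*z)*(1)*(r^12*(1)^2-(r^4*z)^2))*(Df r (z) (1))*((r^4+1))*(Df r (r^2*z) (1)) -((r^8-1)*(r^2*z)*(1)*(r^12*(1)^2-(r^2*z)^2))*(r^2)*(Df r (z) (1))*(Df r (r^4*z) (1)) = 0 := by
    simp only [Df, Sf]
    linear_combination (-r^8*z^3 +r^12*z^3 +2*r^16*z^3 +r^16*z^5 -2*r^20*z^3 -r^24*z^3 -2*r^24*z^5 +r^28*z^3 -r^28*z^5 -r^28*z^7 +r^32*z^5 +2*r^36*z^5 +2*r^36*z^7 +r^40*z^7 -r^44*z^5 -r^44*z^7 +r^44*z^9 -2*r^48*z^7 -r^48*z^9 -2*r^52*z^9 +r^56*z^7 +2*r^56*z^9 +r^60*z^9 -r^64*z^9) * hr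
  have hE : (Wf r (z) (1)).u2 * (Wf r (r^4*z) (1)).w2 * (xf r) + (Wf r (r^4*z) (1)).u1 - (Wf r (r^2*z) (1)).u1 * (xf r) = ((r^6*(z)*(1)*(r^8-1)*((z)^2-(1)^2))*(-(r^8*((r^4*z)^2-(1)^2)*(r^4*(1)^2-(r^4*z)^2)))*(r^2)*(Df r (r^2*z) (1)) +((r^8-1)*(r^4*z)*(1)*(r^12*(1)^2-(r^4*z)^2))*(Df r (z) (1))*((r^4+1))*(Df r (r^2*z) (1)) -((r^8-1)*(r^2*z)*(1)*(r^12*(1)^2-(r^2*z)^2))*(r^2)*(Df r (z) (1))*(Df r (r^4*z) (1))) / ((Df r (z) (1))*(Df r (r^4*z) (1))*((r^4+1))*(Df r (r^2*z) (1))) := by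
    simp only [Wf, Kf, kf, xf]
    first | done | (field_simp; done) | (field_simp; ring)
  rw [hE, hN, zero_div]

theorem B1_e8 (r z : ℂ) (hr : r^16 + 1 = 0) (hz : z ≠ 0) (hr0 : r ≠ 0)
    (h1 : Df r (z) (1) ≠ 0)
    (h2 : Df r (r^4*z) (1) ≠ 0)
    (h3 : Df r (r^2*z) (1) ≠ 0)
    (h4 : (r^4+1) ≠ 0) :
    (Wf r (z) (1)).u2 * (Wf r (r^4*z) (1)).u1 + (Wf r (z) (1)).w1 * (Wf r (r^4*z) (1)).w1 * (xf r) + (Wf r (z) (1)).w2 * (Wf r (r^4*z) (1)).w2 * (xf r) = 0 := by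
  have hN : (r^6*(z)*(1)*(r^8-1)*((z)^2-(1)^2))*((r^8-1)*(r^4*z)*(1)*(r^12*(1)^2-(r^4*z)^2))*((r^4+1)) +((r^8*(1)^2-(z)^2)*(r^12*(1)^2-(z)^2))*((r^8*(1)^2-(r^4*z)^2)*(r^12*(1)^2-(r^4*z)^2))*(r^2) +(-(r^8*((z)^2-(1)^2)*(r^4*(1)^2-(z)^2)))*(-(r^8*((r^4*z)^2-(1)^2)*(r^4*(1)^2-(r^4*z)^2)))*(r^2) = 0 := by
    linear_combination (r^18*z^4 -2*r^18*z^6 +r^18*z^8 -2*r^22*z^2 +4*r^22*z^4 -2*r^22*z^6 +r^26 -2*r^26*z^2 +r^26*z^4) * hr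
  have hE : (Wf r (z) (1)).u2 * (Wf r (r^4*z) (1)).u1 + (Wf r (z) (1)).w1 * (Wf r (r^4*z) (1)).w1 * (xf r) + (Wf r (z) (1)).w2 * (Wf r (r^4*z) (1)).w2 * (xf r) = ((r^6*(z)*(1)*(r^8-1)*((z)^2-(1)^2))*((r^8-1)*(r^4*z)*(1)*(r^12*(1)^2-(r^4*z)^2))*((r^4+1)) +((r^8*(1)^2-(z)^2)*(r^12*(1)^2-(z)^2))*((r^8*(1)^2-(r^4*z)^2)*(r^12*(1)^2-(r^4*z)^2))*(r^2) +(-(r^8*((z)^2-(1)^2)*(r^4*(1)^2-(z)^2)))*(-(r^8*((r^4*z)^2-(1)^2)*(r^4*(1)^2-(r^4*z)^2)))*(r^2)) / ((Df r (z) (1))*(Df r (r^4*z) (1))*((r^4+1))) := by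
    simp only [Wf, Kf, kf, xf]
    first | done | (field_simp; done) | (field_simp; ring)
  rw [hE, hN, zero_div]

theorem B1_e9 (r z : ℂ) (hr : r^16 + 1 = 0) (hz : z ≠ 0) (hr0 : r ≠ 0)
    (h1 : Df r (z) (1) ≠ 0)
    (h2 : Df r (r^4*z) (1) ≠ 0)
    (h3 : Df r (r^2*z) (1) ≠ 0)
    (h4 : (r^4+1) ≠ 0) :
    (Wf r (z) (1)).w1 * (Wf r (r^4*z) (1)).v * (xf r) - (Wf r (r^2*z) (1)).w1 * (xf r) = 0 := by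
  have hN : ((r^8*(1)^2-(z)^2)*(r^12*(1)^2-(z)^2))*(r^4*((r^4*z)^2-(1)^2)*(r^12*(1)^2-(r^4*z)^2))*(r^2)*(Df r (r^2*z) (1)) -((r^8*(1)^2-(r^2*z)^2)*(r^12*(1)^2-(r^2*z)^2))*(r^2)*(Df r (z) (1))*(Df r (r^4*z) (1)) = 0 := by
    simp only [Df, Sf]
    linear_combination (-r^10*z^4 +r^14*z^2 +r^14*z^6 +r^18*z^2 -r^18*z^4 +r^18*z^6 -r^22 -2*r^22*z^4 +r^22*z^6 -r^22*z^8 +r^26*z^2 -2*r^26*z^4 +2*r^26*z^6 -r^26*z^8 +r^30*z^2 -2*r^30*z^4 +2*r^30*z^6 -2*r^30*z^8 +r^34*z^2 -2*r^34*z^4 +3*r^34*z^6 -r^34*z^8 +r^34*z^10 +r^38*z^2 -r^38*z^4 +3*r^38*z^6 -2*r^38*z^8 +r^38*z^10 -2*r^42*z^4 +2*r^42*z^6 -2*r^42*z^8 +r^42*z^10 -r^46*z^4 +2*r^46*z^6 -2*r^46*z^8 +r^46*z^10 -r^50*z^4 +r^50*z^6 -2*r^50*z^8 -r^50*z^12 +r^54*z^6 -r^54*z^8 +r^54*z^10 +r^58*z^6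 +r^58*z^10 -r^62*z^8) * hr
  have hE : (Wf r (z) (1)).w1 * (Wf r (r^4*z) (1)).v * (xf r) - (Wf r (r^2*z) (1)).w1 * (xf r) = (((r^8*(1)^2-(z)^2)*(r^12*(1)^2-(z)^2))*(r^4*((r^4*z)^2-(1)^2)*(r^12*(1)^2-(r^4*z)^2))*(r^2)*(Df r (r^2*z) (1)) -((r^8*(1)^2-(r^2*z)^2)*(r^12*(1)^2-(r^2*z)^2))*(r^2)*(Df r (z) (1))*(Df r (r^4*z) (1))) / ((Df r (z) (1))*(Df r (r^4*z) (1))*((r^4+1))*(Df r (r^2*z) (1))) := by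
    simp only [Wf, Kf, kf, xf]
    first | done | (field_simp; done) | (field_simp; ring)
  rw [hE, hN, zero_div]

theorem B1_e10 (r z : ℂ) (hr : r^16 + 1 = 0) (hz : z ≠ 0) (hr0 : r ≠ 0)
    (h1 : Df r (z) (1) ≠ 0)
    (h2 : Df r (r^4*z) (1) ≠ 0)
    (h3 : Df r (r^2*z) (1) ≠ 0)
    (h4 : (r^4+1) ≠ 0) :
    (Wf r (z) (1)).u1 * (Wf r (r^4*z) (1)).w1 * (xf r) + (Wf r (z) (1)).v * (Wf r (r^4*z) (1)).u1 * (xf r) = 0 := by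
  have hN : ((r^8-1)*(z)*(1)*(r^12*(1)^2-(z)^2))*((r^8*(1)^2-(r^4*z)^2)*(r^12*(1)^2-(r^4*z)^2))*(r^2) +(r^4*((z)^2-(1)^2)*(r^12*(1)^2-(z)^2))*((r^8-1)*(r^4*z)*(1)*(r^12*(1)^2-(r^4*z)^2))*(r^2) = 0 := by
    linear_combination (0) * hr
  have hE : (Wf r (z) (1)).u1 * (Wf r (r^4*z) (1)).w1 * (xf r) + (Wf r (z) (1)).v * (Wf r (r^4*z) (1)).u1 * (xf r) = (((r^8-1)*(z)*(1)*(r^12*(1)^2-(z)^2))*((r^8*(1)^2-(r^4*z)^2)*(r^12*(1)^2-(r^4*z)^2))*(r^2) +(r^4*((z)^2-(1)^2)*(r^12*(1)^2-(z)^2))*((r^8-1)*(r^4*z)*(1)*(r^12*(1)^2-(r^4*z)^2))*(r^2)) / ((Df r (z) (1))*(Df r (r^4*z) (1))*((r^4+1))) := by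
    simp only [Wf, Kf, kf, xf]
    first | done | (field_simp; done) | (field_simp; ring)
  rw [hE, hN, zero_div]

theorem B1_e11 (r z : ℂ) (hr : r^16 + 1 = 0) (hz : z ≠ 0) (hr0 : r ≠ 0)
    (h1 : Df r (z) (1) ≠ 0)
    (h2 : Df r (r^4*z) (1) ≠ 0)
    (h3 : Df r (r^2*z) (1) ≠ 0)
    (h4 : (r^4+1) ≠ 0) :
    (Wf r (z) (1)).u1 * (Wf r (r^4*z) (1)).u1 * (xf r) + (Wf r (z) (1)).v * (Wf r (r^4*z) (1)).w1 * (xf r) - (Wf r (r^2*z) (1)).w1 * (xf r) = 0 := by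
  have hN : ((r^8-1)*(z)*(1)*(r^12*(1)^2-(z)^2))*((r^8-1)*(r^4*z)*(1)*(r^12*(1)^2-(r^4*z)^2))*(r^2)*(Df r (r^2*z) (1)) +(r^4*((z)^2-(1)^2)*(r^12*(1)^2-(z)^2))*((r^8*(1)^2-(r^4*z)^2)*(r^12*(1)^2-(r^4*z)^2))*(r^2)*(Df r (r^2*z) (1)) -((r^8*(1)^2-(r^2*z)^2)*(r^12*(1)^2-(r^2*z)^2))*(r^2)*(Df r (z) (1))*(Df r (r^4*z) (1)) = 0 := by
    simp only [Df, Sf]
    linear_combination (-r^10*z^4 +r^14*z^2 +r^14*z^6 +r^18*z^2 -r^18*z^4 +r^18*z^6 -r^22 -2*r^22*z^4 +r^22*z^6 -r^22*z^8 +r^26*z^2 -2*r^26*z^4 +2*r^26*z^6 -r^26*z^8 +r^30*z^2 -2*r^30*z^4 +2*r^30*z^6 -2*r^30*z^8 +r^34*z^2 -2*r^34*z^4 +3*r^34*z^6 -r^34*z^8 +r^34*z^10 +r^38*z^2 -r^38*z^4 +3*r^38*z^6 -2*r^38*z^8 +r^38*z^10 -2*r^42*z^4 +2*r^42*z^6 -2*r^42*z^8 +r^42*z^10 -r^46*z^4 +2*r^46*z^6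 -2*r^46*z^8 +r^46*z^10 -r^50*z^4 +r^50*z^6 -2*r^50*z^8 -r^50*z^12 +r^54*z^6 -r^54*z^8 +r^54*z^10 +r^58*z^6 +r^58*z^10 -r^62*z^8) * hr
  have hE : (Wf r (z) (1)).u1 * (Wf r (r^4*z) (1)).u1 * (xf r) + (Wf r (z) (1)).v * (Wf r (r^4*z) (1)).w1 * (xf r) - (Wf r (r^2*z) (1)).w1 * (xf r) = (((r^8-1)*(z)*(1)*(r^12*(1)^2-(z)^2))*((r^8-1)*(r^4*z)*(1)*(r^12*(1)^2-(r^4*z)^2))*(r^2)*(Df r (r^2*z) (1)) +(r^4*((z)^2-(1)^2)*(r^12*(1)^2-(z)^2))*((r^8*(1)^2-(r^4*z)^2)*(r^12*(1)^2-(r^4*z)^2))*(r^2)*(Df r (r^2*z) (1)) -((r^8*(1)^2-(r^2*z)^2)*(r^12*(1)^2-(r^2*z)^2))*(r^2)*(Df r (z) (1))*(Df r (r^4*z) (1))) / ((Df r (z) (1))*(Df r (r^4*z) (1))*((r^4+1))*(Df r (r^2*z) (1))) := by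
    simp only [Wf, Kf, kf, xf]
    first | done | (field_simp; done) | (field_simp; ring)
  rw [hE, hN, zero_div]

theorem B1_e12 (r z : ℂ) (hr : r^16 + 1 = 0) (hz : z ≠ 0) (hr0 : r ≠ 0)
    (h1 : Df r (z) (1) ≠ 0)
    (h2 : Df r (r^4*z) (1) ≠ 0)
    (h3 : Df r (r^2*z) (1) ≠ 0)
    (h4 : (r^4+1) ≠ 0) :
    (Wf r (z) (1)).u1 * (xf r) + (Wf r (z) (1)).v * (Wf r (r^4*z) (1)).u1 * (xf r) - (Wf r (r^2*z) (1)).u1 = 0 := by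
  have hN : ((r^8-1)*(z)*(1)*(r^12*(1)^2-(z)^2))*(r^2)*(Df r (r^4*z) (1))*(Df r (r^2*z) (1)) +(r^4*((z)^2-(1)^2)*(r^12*(1)^2-(z)^2))*((r^8-1)*(r^4*z)*(1)*(r^12*(1)^2-(r^4*z)^2))*(r^2)*(Df r (r^2*z) (1)) -((r^8-1)*(r^2*z)*(1)*(r^12*(1)^2-(r^2*z)^2))*(Df r (z) (1))*((r^4+1))*(Df r (r^4*z) (1)) = 0 := by
    simp only [Df, Sf]
    linear_combination (r^2*z^3 -r^6*z^3 -2*r^10*z^3 +r^14*z^3 +r^18*z +r^18*z^5 -r^18*z^7 -r^22*z^3 +2*r^22*z^5 -r^26*z +r^26*z^3 +r^26*z^5 -r^30*z^7 +r^30*z^9 -r^34*z^3 -r^34*z^5 -r^34*z^7 +r^34*z^9 +r^38*z^3 -r^38*z^5 -r^38*z^7 -r^38*z^9 +r^42*z^3 -r^42*z^5 +r^46*z^7 +r^46*z^9 -r^46*z^11 +2*r^50*z^7 -r^50*z^9 -r^54*z^5 +r^54*z^7 +r^54*z^11 +r^58*z^9 -2*r^62*z^9 -r^66*z^9 +r^70*z^9) * hr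
  have hE : (Wf r (z) (1)).u1 * (xf r) + (Wf r (z) (1)).v * (Wf r (r^4*z) (1)).u1 * (xf r) - (Wf r (r^2*z) (1)).u1 = (((r^8-1)*(z)*(1)*(r^12*(1)^2-(z)^2))*(r^2)*(Df r (r^4*z) (1))*(Df r (r^2*z) (1)) +(r^4*((z)^2-(1)^2)*(r^12*(1)^2-(z)^2))*((r^8-1)*(r^4*z)*(1)*(r^12*(1)^2-(r^4*z)^2))*(r^2)*(Df r (r^2*z) (1)) -((r^8-1)*(r^2*z)*(1)*(r^12*(1)^2-(r^2*z)^2))*(Df r (z) (1))*((r^4+1))*(Df r (r^4*z) (1))) / ((Df r (z) (1))*((r^4+1))*(Df r (r^4*z) (1))*(Df r (r^2*z) (1))) := by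
    simp only [Wf, Kf, kf, xf]
    first | done | (field_simp; done) | (field_simp; ring)
  rw [hE, hN, zero_div]

theorem B1_e13 (r z : ℂ) (hr : r^16 + 1 = 0) (hz : z ≠ 0) (hr0 : r ≠ 0)
    (h1 : Df r (z) (1) ≠ 0)
    (h2 : Df r (r^4*z) (1) ≠ 0)
    (h3 : Df r (r^2*z) (1) ≠ 0)
    (h4 : (r^4+1) ≠ 0) :
    (Wf r (z) (1)).u1 * (Wf r (r^4*z) (1)).u1 * (xf r) + (Wf r (z) (1)).v * (xf r) - (Wf r (r^2*z) (1)).v * (xf r) = 0 := by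
  have hN : ((r^8-1)*(z)*(1)*(r^12*(1)^2-(z)^2))*((r^8-1)*(r^4*z)*(1)*(r^12*(1)^2-(r^4*z)^2))*(r^2)*(Df r (r^2*z) (1)) +(r^4*((z)^2-(1)^2)*(r^12*(1)^2-(z)^2))*(r^2)*(Df r (r^4*z) (1))*(Df r (r^2*z) (1)) -(r^4*((r^2*z)^2-(1)^2)*(r^12*(1)^2-(r^2*z)^2))*(r^2)*(Df r (z) (1))*(Df r (r^4*z) (1)) = 0 := by
    simp only [Df, Sf]
    linear_combination (r^6*z^2 -r^6*z^4 -r^10*z^2 +r^14*z^4 +r^14*z^6 +r^18*z^2 -r^18*z^4 +r^18*z^6 -2*r^22*z^2 -r^22*z^6 +r^26*z^4 -r^26*z^8 +r^30*z^2 -r^30*z^6 -r^30*z^8 +r^34*z^4 +r^34*z^8 +r^38*z^4 +r^38*z^8 -r^42*z^4 -r^42*z^6 +r^42*z^10 -r^46*z^4 +r^46*z^8 -r^50*z^6 -2*r^50*z^10 +r^54*z^6 -r^54*z^8 +r^54*z^10 +r^58*z^6 +r^58*z^8 -r^62*z^10 -r^66*z^8 +r^66*z^10) * hr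
  have hE : (Wf r (z) (1)).u1 * (Wf r (r^4*z) (1)).u1 * (xf r) + (Wf r (z) (1)).v * (xf r) - (Wf r (r^2*z) (1)).v * (xf r) = (((r^8-1)*(z)*(1)*(r^12*(1)^2-(z)^2))*((r^8-1)*(r^4*z)*(1)*(r^12*(1)^2-(r^4*z)^2))*(r^2)*(Df r (r^2*z) (1)) +(r^4*((z)^2-(1)^2)*(r^12*(1)^2-(z)^2))*(r^2)*(Df r (r^4*z) (1))*(Df r (r^2*z) (1)) -(r^4*((r^2*z)^2-(1)^2)*(r^12*(1)^2-(r^2*z)^2))*(r^2)*(Df r (z) (1))*(Df r (r^4*z) (1))) / ((Df r (z) (1))*(Df r (r^4*z) (1))*((r^4+1))*(Df r (r^2*z) (1))) := by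
    simp only [Wf, Kf, kf, xf]
    first | done | (field_simp; done) | (field_simp; ring)
  rw [hE, hN, zero_div]

theorem B1_e14 (r z : ℂ) (hr : r^16 + 1 = 0) (hz : z ≠ 0) (hr0 : r ≠ 0)
    (h1 : Df r (z) (1) ≠ 0)
    (h2 : Df r (r^4*z) (1) ≠ 0)
    (h3 : Df r (r^2*z) (1) ≠ 0)
    (h4 : (r^4+1) ≠ 0) :
    (Wf r (z) (1)).w1 * (Wf r (r^4*z) (1)).u2 * (xf r) - (Wf r (r^2*z) (1)).u1 * (xf r) = 0 := by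
  have hN : ((r^8*(1)^2-(z)^2)*(r^12*(1)^2-(z)^2))*(r^6*(r^4*z)*(1)*(r^8-1)*((r^4*z)^2-(1)^2))*(r^2)*(Df r (r^2*z) (1)) -((r^8-1)*(r^2*z)*(1)*(r^12*(1)^2-(r^2*z)^2))*(r^2)*(Df r (z) (1))*(Df r (r^4*z) (1)) = 0 := by
    simp only [Df, Sf]
    linear_combination (-r^8*z^3 +r^12*z^5 +r^16*z +r^16*z^3 +r^16*z^5 -r^20*z^3 -r^20*z^7 -r^24*z -r^24*z^3 -r^24*z^7 -r^28*z^7 +r^32*z^9 +r^36*z^3 +r^36*z^5 +r^36*z^7 +r^36*z^9 +r^40*z^3 -r^44*z^5 -r^48*z^5 -r^48*z^9 -r^48*z^11 -r^52*z^5 -r^52*z^9 +r^56*z^7 +r^56*z^9 +r^56*z^11 +r^60*z^7 -r^64*z^9) * hr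
  have hE : (Wf r (z) (1)).w1 * (Wf r (r^4*z) (1)).u2 * (xf r) - (Wf r (r^2*z) (1)).u1 * (xf r) = (((r^8*(1)^2-(z)^2)*(r^12*(1)^2-(z)^2))*(r^6*(r^4*z)*(1)*(r^8-1)*((r^4*z)^2-(1)^2))*(r^2)*(Df r (r^2*z) (1)) -((r^8-1)*(r^2*z)*(1)*(r^12*(1)^2-(r^2*z)^2))*(r^2)*(Df r (z) (1))*(Df r (r^4*z) (1))) / ((Df r (z) (1))*(Df r (r^4*z) (1))*((r^4+1))*(Df r (r^2*z) (1))) := by
    simp only [Wf, Kf, kf, xf]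
    first | done | (field_simp; done) | (field_simp; ring)
  rw [hE, hN, zero_div]

theorem B1_e15 (r z : ℂ) (hr : r^16 + 1 = 0) (hz : z ≠ 0) (hr0 : r ≠ 0)
    (h1 : Df r (z) (1) ≠ 0)
    (h2 : Df r (r^4*z) (1) ≠ 0)
    (h3 : Df r (r^2*z) (1) ≠ 0)
    (h4 : (r^4+1) ≠ 0) :
    (Wf r (z) (1)).u2 * (Wf r (r^4*z) (1)).u2 * (xf r) + (Wf r (r^4*z) (1)).v * (xf r) - (Wf r (r^2*z) (1)).v * (xf r) = 0 := by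
  have hN : (r^6*(z)*(1)*(r^8-1)*((z)^2-(1)^2))*(r^6*(r^4*z)*(1)*(r^8-1)*((r^4*z)^2-(1)^2))*(r^2)*(Df r (r^2*z) (1)) +(r^4*((r^4*z)^2-(1)^2)*(r^12*(1)^2-(r^4*z)^2))*(r^2)*(Df r (z) (1))*(Df r (r^2*z) (1)) -(r^4*((r^2*z)^2-(1)^2)*(r^12*(1)^2-(r^2*z)^2))*(r^2)*(Df r (z) (1))*(Df r (r^4*z) (1)) = 0 := by
    simp only [Df, Sf]
    linear_combination (-r^10*z^2 +r^14*z^2 +r^14*z^4 +r^18*z^2 -r^22*z^2 -r^22*z^4 -r^22*z^6 -r^30*z^4 +r^34*z^6 +r^34*z^8 +r^38*z^4 +r^38*z^6 -r^42*z^8 -r^50*z^6 -r^50*z^8 -r^50*z^10 +r^54*z^10 +r^58*z^8 +r^58*z^10 -r^62*z^10) * hr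
  have hE : (Wf r (z) (1)).u2 * (Wf r (r^4*z) (1)).u2 * (xf r) + (Wf r (r^4*z) (1)).v * (xf r) - (Wf r (r^2*z) (1)).v * (xf r) = ((r^6*(z)*(1)*(r^8-1)*((z)^2-(1)^2))*(r^6*(r^4*z)*(1)*(r^8-1)*((r^4*z)^2-(1)^2))*(r^2)*(Df r (r^2*z) (1)) +(r^4*((r^4*z)^2-(1)^2)*(r^12*(1)^2-(r^4*z)^2))*(r^2)*(Df r (z) (1))*(Df r (r^2*z) (1)) -(r^4*((r^2*z)^2-(1)^2)*(r^12*(1)^2-(r^2*z)^2))*(r^2)*(Df r (z) (1))*(Df r (r^4*z) (1))) / ((Df r (z) (1))*(Df r (r^4*z) (1))*((r^4+1))*(Df r (r^2*z) (1))) := by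
    simp only [Wf, Kf, kf, xf]
    first | done | (field_simp; done) | (field_simp; ring)
  rw [hE, hN, zero_div]

theorem B1_e16 (r z : ℂ) (hr : r^16 + 1 = 0) (hz : z ≠ 0) (hr0 : r ≠ 0)
    (h1 : Df r (z) (1) ≠ 0)
    (h2 : Df r (r^4*z) (1) ≠ 0)
    (h3 : Df r (r^2*z) (1) ≠ 0)
    (h4 : (r^4+1) ≠ 0) :
    (Wf r (z) (1)).u2 * (Wf r (r^4*z) (1)).v * (xf r) + (Wf r (z) (1)).w2 * (Wf r (r^4*z) (1)).u2 * (xf r) = 0 := by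
  have hN : (r^6*(z)*(1)*(r^8-1)*((z)^2-(1)^2))*(r^4*((r^4*z)^2-(1)^2)*(r^12*(1)^2-(r^4*z)^2))*(r^2) +(-(r^8*((z)^2-(1)^2)*(r^4*(1)^2-(z)^2)))*(r^6*(r^4*z)*(1)*(r^8-1)*((r^4*z)^2-(1)^2))*(r^2) = 0 := by
    linear_combination (0) * hr
  have hE : (Wf r (z) (1)).u2 * (Wf r (r^4*z) (1)).v * (xf r) + (Wf r (z) (1)).w2 * (Wf r (r^4*z) (1)).u2 * (xf r) = ((r^6*(z)*(1)*(r^8-1)*((z)^2-(1)^2))*(r^4*((r^4*z)^2-(1)^2)*(r^12*(1)^2-(r^4*z)^2))*(r^2) +(-(r^8*((z)^2-(1)^2)*(r^4*(1)^2-(z)^2)))*(r^6*(r^4*z)*(1)*(r^8-1)*((r^4*z)^2-(1)^2))*(r^2)) / ((Df r (z) (1))*(Df r (r^4*z) (1))*((r^4+1))) := by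
    simp only [Wf, Kf, kf, xf]
    first | done | (field_simp; done) | (field_simp; ring)
  rw [hE, hN, zero_div]

theorem B1_e17 (r z : ℂ) (hr : r^16 + 1 = 0) (hz : z ≠ 0) (hr0 : r ≠ 0)
    (h1 : Df r (z) (1) ≠ 0)
    (h2 : Df r (r^4*z) (1) ≠ 0)
    (h3 : Df r (r^2*z) (1) ≠ 0)
    (h4 : (r^4+1) ≠ 0) :
    (Wf r (z) (1)).u2 * (Wf r (r^4*z) (1)).v * (xf r) + (Wf r (r^4*z) (1)).u2 * (xf r) - (Wf r (r^2*z) (1)).u2 = 0 := by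
  have hN : (r^6*(z)*(1)*(r^8-1)*((z)^2-(1)^2))*(r^4*((r^4*z)^2-(1)^2)*(r^12*(1)^2-(r^4*z)^2))*(r^2)*(Df r (r^2*z) (1)) +(r^6*(r^4*z)*(1)*(r^8-1)*((r^4*z)^2-(1)^2))*(r^2)*(Df r (z) (1))*(Df r (r^2*z) (1)) -(r^6*(r^2*z)*(1)*(r^8-1)*((r^2*z)^2-(1)^2))*(Df r (z) (1))*(Df r (r^4*z) (1))*((r^4+1)) = 0 := by
    simp only [Df, Sf]
    linear_combination (-r^8*z +r^12*z^3 +r^16*z +2*r^16*z^3 -2*r^20*z^5 -r^24*z^3 -2*r^24*z^5 -r^28*z^3 -r^28*z^5 +r^28*z^7 -r^32*z^3 +2*r^32*z^7 +2*r^36*z^5 +2*r^36*z^7 +2*r^40*z^5 -r^40*z^9 +r^44*z^5 -r^44*z^7 -r^44*z^9 -2*r^48*z^7 -r^48*z^9 -2*r^52*z^7 +2*r^56*z^9 +r^56*z^11 +r^60*z^9 -r^64*z^11) * hr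
  have hE : (Wf r (z) (1)).u2 * (Wf r (r^4*z) (1)).v * (xf r) + (Wf r (r^4*z) (1)).u2 * (xf r) - (Wf r (r^2*z) (1)).u2 = ((r^6*(z)*(1)*(r^8-1)*((z)^2-(1)^2))*(r^4*((r^4*z)^2-(1)^2)*(r^12*(1)^2-(r^4*z)^2))*(r^2)*(Df r (r^2*z) (1)) +(r^6*(r^4*z)*(1)*(r^8-1)*((r^4*z)^2-(1)^2))*(r^2)*(Df r (z) (1))*(Df r (r^2*z) (1)) -(r^6*(r^2*z)*(1)*(r^8-1)*((r^2*z)^2-(1)^2))*(Df r (z) (1))*(Df r (r^4*z) (1))*((r^4+1))) / ((Df r (z) (1))*(Df r (r^4*z) (1))*((r^4+1))*(Df r (r^2*z) (1))) := by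
    simp only [Wf, Kf, kf, xf]
    first | done | (field_simp; done) | (field_simp; ring)
  rw [hE, hN, zero_div]

theorem B1_e18 (r z : ℂ) (hr : r^16 + 1 = 0) (hz : z ≠ 0) (hr0 : r ≠ 0)
    (h1 : Df r (z) (1) ≠ 0)
    (h2 : Df r (r^4*z) (1) ≠ 0)
    (h3 : Df r (r^2*z) (1) ≠ 0)
    (h4 : (r^4+1) ≠ 0) :
    (Wf r (z) (1)).u2 * (Wf r (r^4*z) (1)).u2 * (xf r) + (Wf r (z) (1)).w2 * (Wf r (r^4*z) (1)).v * (xf r) - (Wf r (r^2*z) (1)).w2 * (xf r) = 0 := by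
  have hN : (r^6*(z)*(1)*(r^8-1)*((z)^2-(1)^2))*(r^6*(r^4*z)*(1)*(r^8-1)*((r^4*z)^2-(1)^2))*(r^2)*(Df r (r^2*z) (1)) +(-(r^8*((z)^2-(1)^2)*(r^4*(1)^2-(z)^2)))*(r^4*((r^4*z)^2-(1)^2)*(r^12*(1)^2-(r^4*z)^2))*(r^2)*(Df r (r^2*z) (1)) -(-(r^8*((r^2*z)^2-(1)^2)*(r^4*(1)^2-(r^2*z)^2)))*(r^2)*(Df r (z) (1))*(Df r (r^4*z) (1)) = 0 := by
    simp only [Df, Sf]
    linear_combination (-r^14 +r^14*z^2 +2*r^18*z^2 -2*r^18*z^4 +r^22*z^2 -2*r^22*z^4 +r^22*z^6 +r^26*z^2 -3*r^26*z^4 +2*r^26*z^6 +r^30*z^2 -3*r^30*z^4 +3*r^30*z^6 -r^30*z^8 -3*r^34*z^4 +4*r^34*z^6 -r^34*z^8 -r^38*z^4 +4*r^38*z^6 -3*r^38*z^8 -r^42*z^4 +3*r^42*z^6 -3*r^42*z^8 +r^42*z^10 +2*r^46*z^6 -3*r^46*z^8 +r^46*z^10 +r^50*z^6 -2*r^50*z^8 +r^50*z^10 -2*r^54*z^8 +2*r^54*z^10 +r^58*z^10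 -r^58*z^12) * hr
  have hE : (Wf r (z) (1)).u2 * (Wf r (r^4*z) (1)).u2 * (xf r) + (Wf r (z) (1)).w2 * (Wf r (r^4*z) (1)).v * (xf r) - (Wf r (r^2*z) (1)).w2 * (xf r) = ((r^6*(z)*(1)*(r^8-1)*((z)^2-(1)^2))*(r^6*(r^4*z)*(1)*(r^8-1)*((r^4*z)^2-(1)^2))*(r^2)*(Df r (r^2*z) (1)) +(-(r^8*((z)^2-(1)^2)*(r^4*(1)^2-(z)^2)))*(r^4*((r^4*z)^2-(1)^2)*(r^12*(1)^2-(r^4*z)^2))*(r^2)*(Df r (r^2*z) (1)) -(-(r^8*((r^2*z)^2-(1)^2)*(r^4*(1)^2-(r^2*z)^2)))*(r^2)*(Df r (z) (1))*(Df r (r^4*z) (1))) / ((Df r (z) (1))*(Df r (r^4*z) (1))*((r^4+1))*(Df r (r^2*z) (1))) := by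
    simp only [Wf, Kf, kf, xf]
    first | done | (field_simp; done) | (field_simp; ring)
  rw [hE, hN, zero_div]

theorem B1_e19 (r z : ℂ) (hr : r^16 + 1 = 0) (hz : z ≠ 0) (hr0 : r ≠ 0)
    (h1 : Df r (z) (1) ≠ 0)
    (h2 : Df r (r^4*z) (1) ≠ 0)
    (h3 : Df r (r^2*z) (1) ≠ 0)
    (h4 : (r^4+1) ≠ 0) :
    (Wf r (z) (1)).u1 * (Wf r (r^4*z) (1)).w2 * (xf r) - (Wf r (r^2*z) (1)).u2 * (xf r) = 0 := by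
  have hN : ((r^8-1)*(z)*(1)*(r^12*(1)^2-(z)^2))*(-(r^8*((r^4*z)^2-(1)^2)*(r^4*(1)^2-(r^4*z)^2)))*(r^2)*(Df r (r^2*z) (1)) -(r^6*(r^2*z)*(1)*(r^8-1)*((r^2*z)^2-(1)^2))*(r^2)*(Df r (z) (1))*(Df r (r^4*z) (1)) = 0 := by
    simp only [Df, Sf]
    linear_combination (-r^10*z +2*r^14*z^3 +r^18*z +r^18*z^3 -r^18*z^5 -r^22*z^3 -2*r^22*z^5 -r^26*z^5 +r^26*z^7 -r^30*z^3 -r^30*z^5 +r^30*z^7 -r^34*z^3 +r^34*z^5 +2*r^34*z^7 +2*r^38*z^5 +r^38*z^7 -r^38*z^9 +r^42*z^5 -r^42*z^7 -r^42*z^9 +r^46*z^5 -r^46*z^7 -2*r^50*z^7 -r^50*z^9 -r^54*z^7 +r^54*z^9 +r^54*z^11 +2*r^58*z^9 -r^62*z^11) * hr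
  have hE : (Wf r (z) (1)).u1 * (Wf r (r^4*z) (1)).w2 * (xf r) - (Wf r (r^2*z) (1)).u2 * (xf r) = (((r^8-1)*(z)*(1)*(r^12*(1)^2-(z)^2))*(-(r^8*((r^4*z)^2-(1)^2)*(r^4*(1)^2-(r^4*z)^2)))*(r^2)*(Df r (r^2*z) (1)) -(r^6*(r^2*z)*(1)*(r^8-1)*((r^2*z)^2-(1)^2))*(r^2)*(Df r (z) (1))*(Df r (r^4*z) (1))) / ((Df r (z) (1))*(Df r (r^4*z) (1))*((r^4+1))*(Df r (r^2*z) (1))) := by
    simp only [Wf, Kf, kf, xf]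
    first | done | (field_simp; done) | (field_simp; ring)
  rw [hE, hN, zero_div]

theorem B1_e20 (r z : ℂ) (hr : r^16 + 1 = 0) (hz : z ≠ 0) (hr0 : r ≠ 0)
    (h1 : Df r (z) (1) ≠ 0)
    (h2 : Df r (r^4*z) (1) ≠ 0)
    (h3 : Df r (r^2*z) (1) ≠ 0)
    (h4 : (r^4+1) ≠ 0) :
    (Wf r (z) (1)).v * (Wf r (r^4*z) (1)).w2 * (xf r) - (Wf r (r^2*z) (1)).w2 * (xf r) = 0 := by
  have hN : (r^4*((z)^2-(1)^2)*(r^12*(1)^2-(z)^2))*(-(r^8*((r^4*z)^2-(1)^2)*(r^4*(1)^2-(r^4*z)^2)))*(r^2)*(Df r (r^2*z) (1)) -(-(r^8*((r^2*z)^2-(1)^2)*(r^4*(1)^2-(r^2*z)^2)))*(r^2)*(Df r (z) (1))*(Df r (r^4*z) (1)) = 0 := by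
    simp only [Df, Sf]
    linear_combination (-r^14 +r^14*z^2 +2*r^18*z^2 -2*r^18*z^4 +r^22*z^2 -2*r^22*z^4 +r^22*z^6 +r^26*z^2 -3*r^26*z^4 +2*r^26*z^6 +r^30*z^2 -3*r^30*z^4 +3*r^30*z^6 -r^30*z^8 -3*r^34*z^4 +4*r^34*z^6 -r^34*z^8 -r^38*z^4 +4*r^38*z^6 -3*r^38*z^8 -r^42*z^4 +3*r^42*z^6 -3*r^42*z^8 +r^42*z^10 +2*r^46*z^6 -3*r^46*z^8 +r^46*z^10 +r^50*z^6 -2*r^50*z^8 +r^50*z^10 -2*r^54*z^8 +2*r^54*z^10 +r^58*z^10 -r^58*z^12) * hr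
  have hE : (Wf r (z) (1)).v * (Wf r (r^4*z) (1)).w2 * (xf r) - (Wf r (r^2*z) (1)).w2 * (xf r) = ((r^4*((z)^2-(1)^2)*(r^12*(1)^2-(z)^2))*(-(r^8*((r^4*z)^2-(1)^2)*(r^4*(1)^2-(r^4*z)^2)))*(r^2)*(Df r (r^2*z) (1)) -(-(r^8*((r^2*z)^2-(1)^2)*(r^4*(1)^2-(r^2*z)^2)))*(r^2)*(Df r (z) (1))*(Df r (r^4*z) (1))) / ((Df r (z) (1))*(Df r (r^4*z) (1))*((r^4+1))*(Df r (r^2*z) (1))) := by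
    simp only [Wf, Kf, kf, xf]
    first | done | (field_simp; done) | (field_simp; ring)
  rw [hE, hN, zero_div]

theorem B1_scal (r z : ℂ) (hr : r^16 + 1 = 0) (hz : z ≠ 0) (hr0 : r ≠ 0)
    (h1 : Df r (z) (1) ≠ 0)
    (h2 : Df r (r^4*z) (1) ≠ 0)
    (h3 : Df r (r^2*z) (1) ≠ 0)
    (h4 : (r^4+1) ≠ 0) :
    B1.Eqs (Wf r (z) (1)) (Wf r (r^4*z) (1)) (Wf r (r^2*z) (1)) (xf r) :=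
  ⟨B1_e1 r z hr hz hr0 h1 h2 h3 h4,
   B1_e2 r z hr hz hr0 h1 h2 h3 h4,
   B1_e3 r z hr hz hr0 h1 h2 h3 h4,
   B1_e4 r z hr hz hr0 h1 h2 h3 h4,
   B1_e5 r z hr hz hr0 h1 h2 h3 h4,
   B1_e6 r z hr hz hr0 h1 h2 h3 h4,
   B1_e7 r z hr hz hr0 h1 h2 h3 h4,
   B1_e8 r z hr hz hr0 h1 h2 h3 h4,
   B1_e9 r z hr hz hr0 h1 h2 h3 h4,
   B1_e10 r z hr hz hr0 h1 h2 h3 h4,
   B1_e11 r z hr hz hr0 h1 h2 h3 h4,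
   B1_e12 r z hr hz hr0 h1 h2 h3 h4,
   B1_e13 r z hr hz hr0 h1 h2 h3 h4,
   B1_e14 r z hr hz hr0 h1 h2 h3 h4,
   B1_e15 r z hr hz hr0 h1 h2 h3 h4,
   B1_e16 r z hr hz hr0 h1 h2 h3 h4,
   B1_e17 r z hr hz hr0 h1 h2 h3 h4,
   B1_e18 r z hr hz hr0 h1 h2 h3 h4,
   B1_e19 r z hr hz hr0 h1 h2 h3 h4,
   B1_e20 r z hr hz hr0 h1 h2 h3 h4⟩

end Pool.Agent.EXL.Sc
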