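import Pool.Agent.EXL.ScalDefs
import Pool.Agent.EXL.LocY3
import Pool.Agent.EXL.LocY4

/-!
# The scalar identities (generated)
-/

namespace Pool.Agent.EXL.Sc

set_option linter.unusedSimpArgs false
set_option linter.unusedVariables false
set_option linter.unreachableTactic false
set_option linter.unusedTactic false

theorem Y3_e1 (r z : ℂ) (hr : r^16 + 1 = 0) (hz : z ≠ 0) (hr0 : r ≠ 0)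
    (h1 : (r^4+1) ≠ 0)
    (h2 : Df r (r^2) (z^2) ≠ 0)
    (h3 : Sf r (r^4*z) (1) ≠ 0)
    (h4 : Sf r (z) (1) ≠ 0)
    (h5 : Sf r (r^2*z) (1) ≠ 0) :
    (kf r (z) (1)) * (Wf r (r^2) (z^2)).u2 * (xf r) * (Kf r (r^4*z) (1)) + (kf r (z) (1)) * (Wf r (r^2) (z^2)).v * (xf r) + (kf r (r^4*z) (1)) * (Wf r (r^2) (z^2)).u1 * (xf r) + (kf r (r^4*z) (1)) * (xf r) - (kf r (r^2*z) (1)) = 0 := by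
  have hN : (r^3*((z)^4-(1)^4))*(r^6*(r^2)*(z^2)*(r^8-1)*((r^2)^2-(z^2)^2))*(r^2)*(r^6*(1)^2-(r^4*z)^2)*((r^4*z))*((r^2*z))*(Sf r (r^2*z) (1)) +(r^3*((z)^4-(1)^4))*(r^4*((r^2)^2-(z^2)^2)*(r^12*(z^2)^2-(r^2)^2))*(r^2)*(Sf r (r^4*z) (1))*((r^4*z))*((r^2*z))*(Sf r (r^2*z) (1)) +(r^3*((r^4*z)^4-(1)^4))*((r^8-1)*(r^2)*(z^2)*(r^12*(z^2)^2-(r^2)^2))*(r^2)*((z))*(Sf r (z) (1))*((r^2*z))*(Sf r (r^2*z) (1)) +(r^3*((r^4*z)^4-(1)^4))*(r^2)*((z))*(Sf r (z) (1))*(Df r (r^2) (z^2))*((r^2*z))*(Sf r (r^2*z) (1)) -(r^3*((r^2*z)^4-(1)^4))*((z))*(Sf r (z) (1))*(Df r (r^2) (z^2))*((r^4+1))*(Sf r (r^4*z) (1))*((r^4*z)) = 0 := by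
    simp only [Df, Sf]
    linear_combination (r^11*z^10 -r^13*z^4 -r^15*z^14 +r^19*z^10 -r^19*z^14 +r^21*z^4 +r^21*z^8 -r^21*z^12 +r^21*z^16 +r^23*z^2 -r^23*z^6 +r^25*z^8 -2*r^25*z^12 +r^25*z^16 -2*r^27*z^6 -r^27*z^10 +r^27*z^14 +r^29*z^8 -r^29*z^12 -r^31*z^6 +r^31*z^10 +2*r^31*z^14 -r^33*z^4 +2*r^33*z^8 -r^33*z^12 +r^35*z^14 -r^35*z^18 -r^37*z^4 +r^37*z^8 -r^37*z^12 -r^37*z^16 +r^39*z^6 -r^39*z^10 +r^43*z^6 +r^45*z^16 -r^47*z^10) * hr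
  have hE : (kf r (z) (1)) * (Wf r (r^2) (z^2)).u2 * (xf r) * (Kf r (r^4*z) (1)) + (kf r (z) (1)) * (Wf r (r^2) (z^2)).v * (xf r) + (kf r (r^4*z) (1)) * (Wf r (r^2) (z^2)).u1 * (xf r) + (kf r (r^4*z) (1)) * (xf r) - (kf r (r^2*z) (1)) = ((r^3*((z)^4-(1)^4))*(r^6*(r^2)*(z^2)*(r^8-1)*((r^2)^2-(z^2)^2))*(r^2)*(r^6*(1)^2-(r^4*z)^2)*((r^4*z))*((r^2*z))*(Sf r (r^2*z) (1)) +(r^3*((z)^4-(1)^4))*(r^4*((r^2)^2-(z^2)^2)*(r^12*(z^2)^2-(r^2)^2))*(r^2)*(Sf r (r^4*z) (1))*((r^4*z))*((r^2*z))*(Sf r (r^2*z) (1)) +(r^3*((r^4*z)^4-(1)^4))*((r^8-1)*(r^2)*(z^2)*(r^12*(z^2)^2-(r^2)^2))*(r^2)*((z))*(Sf r (z) (1))*((r^2*z))*(Sf r (r^2*z) (1)) +(r^3*((r^4*z)^4-(1)^4))*(r^2)*((z))*(Sf r (z) (1))*(Df r (r^2) (z^2))*((r^2*z))*(Sf r (r^2*z) (1)) -(r^3*((r^2*z)^4-(1)^4))*((z))*(Sf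 r (z) (1))*(Df r (r^2) (z^2))*((r^4+1))*(Sf r (r^4*z) (1))*((r^4*z))) / (((z))*(Sf r (z) (1))*(Df r (r^2) (z^2))*((r^4+1))*(Sf r (r^4*z) (1))*((r^4*z))*((r^2*z))*(Sf r (r^2*z) (1))) := by
    simp only [Wf, Kf, kf, xf]
    first | done | (field_simp; done) | (field_simp; ring)
  rw [hE, hN, zero_div]

theorem Y3_e2 (r z : ℂ) (hr : r^16 + 1 = 0) (hz : z ≠ 0) (hr0 : r ≠ 0)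
    (h1 : (r^4+1) ≠ 0)
    (h2 : Df r (r^2) (z^2) ≠ 0)
    (h3 : Sf r (r^4*z) (1) ≠ 0)
    (h4 : Sf r (z) (1) ≠ 0)
    (h5 : Sf r (r^2*z) (1) ≠ 0) :
    (Wf r (r^2) (z^2)).u2 * (xf r) + (Wf r (r^2) (z^2)).v * (xf r) * (Kf r (r^4*z) (1)) - (xf r) * (Kf r (r^2*z) (1)) = 0 := by
  have hN : (r^6*(r^2)*(z^2)*(r^8-1)*((r^2)^2-(z^2)^2))*(r^2)*(Sf r (r^4*z) (1))*(Sf r (r^2*z) (1)) +(r^4*((r^2)^2-(z^2)^2)*(r^12*(z^2)^2-(r^2)^2))*(r^2)*(r^6*(1)^2-(r^4*z)^2)*(Sf r (r^2*z) (1)) -(r^2)*(r^6*(1)^2-(r^2*z)^2)*(Df r (r^2) (z^2))*(Sf r (r^4*z) (1)) = 0 := by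
    simp only [Df, Sf]
    linear_combination (-r^6*z^10 +r^8*z^8 +r^10*z^6 -r^14*z^2 -r^16*z^4 +r^18*z^6 +r^20 -r^20*z^4 -r^20*z^8 +r^20*z^12 +r^22*z^6 -r^24*z^8 -r^26*z^10 +r^30*z^6 +r^32*z^4 -r^34*z^2) * hr
  have hE : (Wf r (r^2) (z^2)).u2 * (xf r) + (Wf r (r^2) (z^2)).v * (xf r) * (Kf r (r^4*z) (1)) - (xf r) * (Kf r (r^2*z) (1)) = ((r^6*(r^2)*(z^2)*(r^8-1)*((r^2)^2-(z^2)^2))*(r^2)*(Sf r (r^4*z) (1))*(Sf r (r^2*z) (1)) +(r^4*((r^2)^2-(z^2)^2)*(r^12*(z^2)^2-(r^2)^2))*(r^2)*(r^6*(1)^2-(r^4*z)^2)*(Sf r (r^2*z) (1)) -(r^2)*(r^6*(1)^2-(r^2*z)^2)*(Df r (r^2) (z^2))*(Sf r (r^4*z) (1))) / ((Df r (r^2) (z^2))*((r^4+1))*(Sf r (r^4*z) (1))*(Sf r (r^2*z) (1))) := by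
    simp only [Wf, Kf, kf, xf]
    first | done | (field_simp; done) | (field_simp; ring)
  rw [hE, hN, zero_div]

theorem Y3_e3 (r z : ℂ) (hr : r^16 + 1 = 0) (hz : z ≠ 0) (hr0 : r ≠ 0)
    (h1 : (r^4+1) ≠ 0)
    (h2 : Df r (r^2) (z^2) ≠ 0)
    (h3 : Sf r (r^4*z) (1) ≠ 0)
    (h4 : Sf r (z) (1) ≠ 0)
    (h5 : Sf r (r^2*z) (1) ≠ 0) :
    (kf r (z) (1)) * (Wf r (r^2) (z^2)).u1 + (kf r (z) (1)) * (Wf r (r^2) (z^2)).w2 * (xf r) * (Kf r (r^4*z) (1)) + (kf r (r^4*z) (1)) * (Wf r (r^2) (z^2)).u2 * (xf r) + (kf r (r^4*z) (1)) * (Wf r (r^2) (z^2)).v - (kf r (r^2*z) (1)) * (xf r) = 0 := by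
  have hN : (r^3*((z)^4-(1)^4))*((r^8-1)*(r^2)*(z^2)*(r^12*(z^2)^2-(r^2)^2))*((r^4+1))*(Sf r (r^4*z) (1))*((r^4*z))*((r^2*z))*(Sf r (r^2*z) (1)) +(r^3*((z)^4-(1)^4))*(-(r^8*((r^2)^2-(z^2)^2)*(r^4*(z^2)^2-(r^2)^2)))*(r^2)*(r^6*(1)^2-(r^4*z)^2)*((r^4*z))*((r^2*z))*(Sf r (r^2*z) (1)) +(r^3*((r^4*z)^4-(1)^4))*(r^6*(r^2)*(z^2)*(r^8-1)*((r^2)^2-(z^2)^2))*(r^2)*((z))*(Sf r (z) (1))*((r^2*z))*(Sf r (r^2*z) (1)) +(r^3*((r^4*z)^4-(1)^4))*(r^4*((r^2)^2-(z^2)^2)*(r^12*(z^2)^2-(r^2)^2))*((z))*(Sf r (z) (1))*((r^4+1))*((r^2*z))*(Sf r (r^2*z) (1)) -(r^3*((r^2*z)^4-(1)^4))*(r^2)*((z))*(Sf r (z) (1))*(Df r (r^2) (z^2))*(Sf r (r^4*z) (1))*((r^4*z)) = 0 := by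
    simp only [Df, Sf]
    linear_combination (r^9*z^10 -r^13*z^6 -r^15*z^4 -r^15*z^12 +r^17*z^2 -r^17*z^6 -r^17*z^14 +2*r^19*z^8 +r^21*z^2 -r^21*z^6 +2*r^21*z^10 +3*r^23*z^8 -2*r^23*z^12 +r^23*z^16 -2*r^25*z^6 -2*r^27*z^4 +2*r^27*z^8 -2*r^27*z^12 +2*r^31*z^8 -2*r^31*z^12 +2*r^31*z^16 +2*r^33*z^14 -r^35*z^4 +2*r^35*z^8 -3*r^35*z^12 -2*r^37*z^10 +r^37*z^14 -r^37*z^18 -2*r^39*z^12 +r^41*z^6 +r^41*z^14 -r^41*z^18 +r^43*z^8 +r^43*z^16 +r^45*z^14 -r^49*z^10) * hr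
  have hE : (kf r (z) (1)) * (Wf r (r^2) (z^2)).u1 + (kf r (z) (1)) * (Wf r (r^2) (z^2)).w2 * (xf r) * (Kf r (r^4*z) (1)) + (kf r (r^4*z) (1)) * (Wf r (r^2) (z^2)).u2 * (xf r) + (kf r (r^4*z) (1)) * (Wf r (r^2) (z^2)).v - (kf r (r^2*z) (1)) * (xf r) = ((r^3*((z)^4-(1)^4))*((r^8-1)*(r^2)*(z^2)*(r^12*(z^2)^2-(r^2)^2))*((r^4+1))*(Sf r (r^4*z) (1))*((r^4*z))*((r^2*z))*(Sf r (r^2*z) (1)) +(r^3*((z)^4-(1)^4))*(-(r^8*((r^2)^2-(z^2)^2)*(r^4*(z^2)^2-(r^2)^2)))*(r^2)*(r^6*(1)^2-(r^4*z)^2)*((r^4*z))*((r^2*z))*(Sf r (r^2*z) (1)) +(r^3*((r^4*z)^4-(1)^4))*(r^6*(r^2)*(z^2)*(r^8-1)*((r^2)^2-(z^2)^2))*(r^2)*((z))*(Sf r (z) (1))*((r^2*z))*(Sf r (r^2*z) (1)) +(r^3*((r^4*z)^4-(1)^4))*(r^4*((r^2)^2-(z^2)^2)*(r^12*(z^2)^2-(r^2)^2))*((z))*(Sf r (z) (1))*((r^4+1))*((r^2*z))*(Sf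 r (r^2*z) (1)) -(r^3*((r^2*z)^4-(1)^4))*(r^2)*((z))*(Sf r (z) (1))*(Df r (r^2) (z^2))*(Sf r (r^4*z) (1))*((r^4*z))) / (((z))*(Sf r (z) (1))*(Df r (r^2) (z^2))*((r^4+1))*(Sf r (r^4*z) (1))*((r^4*z))*((r^2*z))*(Sf r (r^2*z) (1))) := by
    simp only [Wf, Kf, kf, xf]
    first | done | (field_simp; done) | (field_simp; ring)
  rw [hE, hN, zero_div]

theorem Y3_e4 (r z : ℂ) (hr : r^16 + 1 = 0) (hz : z ≠ 0) (hr0 : r ≠ 0)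
    (h1 : (r^4+1) ≠ 0)
    (h2 : Df r (r^2) (z^2) ≠ 0)
    (h3 : Sf r (r^4*z) (1) ≠ 0)
    (h4 : Sf r (z) (1) ≠ 0)
    (h5 : Sf r (r^2*z) (1) ≠ 0) :
    (kf r (z) (1)) * (Wf r (r^2) (z^2)).u2 * (xf r) + (kf r (z) (1)) * (Wf r (r^2) (z^2)).v * (xf r) * (Kf r (r^4*z) (1)) + (kf r (r^4*z) (1)) * (Wf r (r^2) (z^2)).w2 * (xf r) * (Kf r (z) (1)) = 0 := by
  have hN : (r^3*((z)^4-(1)^4))*(r^6*(r^2)*(z^2)*(r^8-1)*((r^2)^2-(z^2)^2))*(r^2)*(Sf r (r^4*z) (1))*((r^4*z)) +(r^3*((z)^4-(1)^4))*(r^4*((r^2)^2-(z^2)^2)*(r^12*(z^2)^2-(r^2)^2))*(r^2)*(r^6*(1)^2-(r^4*z)^2)*((r^4*z)) +(r^3*((r^4*z)^4-(1)^4))*(-(r^8*((r^2)^2-(z^2)^2)*(r^4*(z^2)^2-(r^2)^2)))*(r^2)*(r^6*(1)^2-(z)^2)*((z)) = 0 := by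
    simp only [Df, Sf]
    linear_combination (0) * hr
  have hE : (kf r (z) (1)) * (Wf r (r^2) (z^2)).u2 * (xf r) + (kf r (z) (1)) * (Wf r (r^2) (z^2)).v * (xf r) * (Kf r (r^4*z) (1)) + (kf r (r^4*z) (1)) * (Wf r (r^2) (z^2)).w2 * (xf r) * (Kf r (z) (1)) = ((r^3*((z)^4-(1)^4))*(r^6*(r^2)*(z^2)*(r^8-1)*((r^2)^2-(z^2)^2))*(r^2)*(Sf r (r^4*z) (1))*((r^4*z)) +(r^3*((z)^4-(1)^4))*(r^4*((r^2)^2-(z^2)^2)*(r^12*(z^2)^2-(r^2)^2))*(r^2)*(r^6*(1)^2-(r^4*z)^2)*((r^4*z)) +(r^3*((r^4*z)^4-(1)^4))*(-(r^8*((r^2)^2-(z^2)^2)*(r^4*(z^2)^2-(r^2)^2)))*(r^2)*(r^6*(1)^2-(z)^2)*((z))) / (((z))*(Sf r (z) (1))*(Df r (r^2) (z^2))*((r^4+1))*(Sf r (r^4*z) (1))*((r^4*z))) := by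
    simp only [Wf, Kf, kf, xf]
    first | done | (field_simp; done) | (field_simp; ring)
  rw [hE, hN, zero_div]

theorem Y3_e5 (r z : ℂ) (hr : r^16 + 1 = 0) (hz : z ≠ 0) (hr0 : r ≠ 0)
    (h1 : (r^4+1) ≠ 0)
    (h2 : Df r (r^2) (z^2) ≠ 0)
    (h3 : Sf r (r^4*z) (1) ≠ 0)
    (h4 : Sf r (z) (1) ≠ 0)
    (h5 : Sf r (r^2*z) (1) ≠ 0) :
    (kf r (z) (1)) * (Wf r (r^2) (z^2)).u2 * (xf r) + (kf r (z) (1)) * (Wf r (r^2) (z^2)).v * (xf r) * (Kf r (r^4*z) (1)) + (kf r (r^4*z) (1)) * (Wf r (r^2) (z^2)).u1 * (xf r) * (Kf r (z) (1)) + (kf r (r^4*z) (1)) * (Wf r (r^2) (z^2)).w1 * (xf r) * (Kf r (z) (1)) + (kf r (r^4*z) (1)) * (Wf r (r^2) (z^2)).w2 * (xf r) * (Kf r (z) (1)) - (kf r (r^2*z) (1)) * (xf r) = 0 := by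
  have hN : (r^3*((z)^4-(1)^4))*(r^6*(r^2)*(z^2)*(r^8-1)*((r^2)^2-(z^2)^2))*(r^2)*(Sf r (r^4*z) (1))*((r^4*z))*((r^2*z))*(Sf r (r^2*z) (1)) +(r^3*((z)^4-(1)^4))*(r^4*((r^2)^2-(z^2)^2)*(r^12*(z^2)^2-(r^2)^2))*(r^2)*(r^6*(1)^2-(r^4*z)^2)*((r^4*z))*((r^2*z))*(Sf r (r^2*z) (1)) +(r^3*((r^4*z)^4-(1)^4))*((r^8-1)*(r^2)*(z^2)*(r^12*(z^2)^2-(r^2)^2))*(r^2)*(r^6*(1)^2-(z)^2)*((z))*((r^2*z))*(Sf r (r^2*z) (1)) +(r^3*((r^4*z)^4-(1)^4))*((r^8*(z^2)^2-(r^2)^2)*(r^12*(z^2)^2-(r^2)^2))*(r^2)*(r^6*(1)^2-(z)^2)*((z))*((r^2*z))*(Sf r (r^2*z) (1)) +(r^3*((r^4*z)^4-(1)^4))*(-(r^8*((r^2)^2-(z^2)^2)*(r^4*(z^2)^2-(r^2)^2)))*(r^2)*(r^6*(1)^2-(z)^2)*((z))*((r^2*z))*(Sf r (r^2*z) (1)) -(r^3*((r^2*z)^4-(1)^4))*(r^2)*((z))*(Sf r (z) (1))*(Df r (r^2) (z^2))*(Sf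 r (r^4*z) (1))*((r^4*z)) = 0 := by
    simp only [Df, Sf]
    linear_combination (r^9*z^10 -r^13*z^6 -r^15*z^4 -r^15*z^12 -r^17*z^14 +r^19*z^4 +r^19*z^8 +r^21*z^2 +r^21*z^10 +2*r^23*z^8 -r^23*z^12 +r^23*z^16 -r^25*z^6 -r^25*z^10 -r^27*z^4 -r^27*z^12 -r^29*z^6 +r^29*z^14 +r^31*z^8 +r^31*z^16 +r^33*z^10 +r^33*z^14 -r^35*z^4 +r^35*z^8 -2*r^35*z^12 -r^37*z^10 -r^37*z^18 -r^39*z^12 -r^39*z^16 +r^41*z^6 +r^43*z^8 +r^43*z^16 +r^45*z^14 -r^49*z^10) * hr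
  have hE : (kf r (z) (1)) * (Wf r (r^2) (z^2)).u2 * (xf r) + (kf r (z) (1)) * (Wf r (r^2) (z^2)).v * (xf r) * (Kf r (r^4*z) (1)) + (kf r (r^4*z) (1)) * (Wf r (r^2) (z^2)).u1 * (xf r) * (Kf r (z) (1)) + (kf r (r^4*z) (1)) * (Wf r (r^2) (z^2)).w1 * (xf r) * (Kf r (z) (1)) + (kf r (r^4*z) (1)) * (Wf r (r^2) (z^2)).w2 * (xf r) * (Kf r (z) (1)) - (kf r (r^2*z) (1)) * (xf r) = ((r^3*((z)^4-(1)^4))*(r^6*(r^2)*(z^2)*(r^8-1)*((r^2)^2-(z^2)^2))*(r^2)*(Sf r (r^4*z) (1))*((r^4*z))*((r^2*z))*(Sf r (r^2*z) (1)) +(r^3*((z)^4-(1)^4))*(r^4*((r^2)^2-(z^2)^2)*(r^12*(z^2)^2-(r^2)^2))*(r^2)*(r^6*(1)^2-(r^4*z)^2)*((r^4*z))*((r^2*z))*(Sf r (r^2*z) (1)) +(r^3*((r^4*z)^4-(1)^4))*((r^8-1)*(r^2)*(z^2)*(r^12*(z^2)^2-(r^2)^2))*(r^2)*(r^6*(1)^2-(z)^2)*((z))*((r^2*z))*(Sf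 r (r^2*z) (1)) +(r^3*((r^4*z)^4-(1)^4))*((r^8*(z^2)^2-(r^2)^2)*(r^12*(z^2)^2-(r^2)^2))*(r^2)*(r^6*(1)^2-(z)^2)*((z))*((r^2*z))*(Sf r (r^2*z) (1)) +(r^3*((r^4*z)^4-(1)^4))*(-(r^8*((r^2)^2-(z^2)^2)*(r^4*(z^2)^2-(r^2)^2)))*(r^2)*(r^6*(1)^2-(z)^2)*((z))*((r^2*z))*(Sf r (r^2*z) (1)) -(r^3*((r^2*z)^4-(1)^4))*(r^2)*((z))*(Sf r (z) (1))*(Df r (r^2) (z^2))*(Sf r (r^4*z) (1))*((r^4*z))) / (((z))*(Sf r (z) (1))*(Df r (r^2) (z^2))*((r^4+1))*(Sf r (r^4*z) (1))*((r^4*z))*((r^2*z))*(Sf r (r^2*z) (1))) := by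
    simp only [Wf, Kf, kf, xf]
    first | done | (field_simp; done) | (field_simp; ring)
  rw [hE, hN, zero_div]

theorem Y3_e6 (r z : ℂ) (hr : r^16 + 1 = 0) (hz : z ≠ 0) (hr0 : r ≠ 0)
    (h1 : (r^4+1) ≠ 0)
    (h2 : Df r (r^2) (z^2) ≠ 0)
    (h3 : Sf r (r^4*z) (1) ≠ 0)
    (h4 : Sf r (z) (1) ≠ 0)
    (h5 : Sf r (r^2*z) (1) ≠ 0) :
    (Wf r (r^2) (z^2)).u2 * (xf r) * (Kf r (z) (1)) * (Kf r (r^4*z) (1)) + (Wf r (r^2) (z^2)).v * (xf r) * (Kf r (z) (1)) - (xf r) * (Kf r (r^2*z) (1)) = 0 := by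
  have hN : (r^6*(r^2)*(z^2)*(r^8-1)*((r^2)^2-(z^2)^2))*(r^2)*(r^6*(1)^2-(z)^2)*(r^6*(1)^2-(r^4*z)^2)*(Sf r (r^2*z) (1)) +(r^4*((r^2)^2-(z^2)^2)*(r^12*(z^2)^2-(r^2)^2))*(r^2)*(r^6*(1)^2-(z)^2)*(Sf r (r^4*z) (1))*(Sf r (r^2*z) (1)) -(r^2)*(r^6*(1)^2-(r^2*z)^2)*(Df r (r^2) (z^2))*(Sf r (z) (1))*(Sf r (r^4*z) (1)) = 0 := by
    simp only [Df, Sf]
    linear_combination (r^6*z^10 -r^8*z^8 -r^10*z^6 -r^12*z^12 +r^14*z^2 +r^14*z^10 +r^16*z^4 +r^16*z^8 -r^18*z^6 -r^20 +r^20*z^8 -r^20*z^12 -2*r^22*z^6 +2*r^24*z^8 +r^26*z^2 -r^26*z^6 +r^26*z^14 +r^28*z^8 -r^30*z^6 -r^30*z^10 -r^32*z^4 -r^32*z^12 +r^34*z^2 +r^36*z^8 +r^38*z^6 -r^40*z^4) * hr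
  have hE : (Wf r (r^2) (z^2)).u2 * (xf r) * (Kf r (z) (1)) * (Kf r (r^4*z) (1)) + (Wf r (r^2) (z^2)).v * (xf r) * (Kf r (z) (1)) - (xf r) * (Kf r (r^2*z) (1)) = ((r^6*(r^2)*(z^2)*(r^8-1)*((r^2)^2-(z^2)^2))*(r^2)*(r^6*(1)^2-(z)^2)*(r^6*(1)^2-(r^4*z)^2)*(Sf r (r^2*z) (1)) +(r^4*((r^2)^2-(z^2)^2)*(r^12*(z^2)^2-(r^2)^2))*(r^2)*(r^6*(1)^2-(z)^2)*(Sf r (r^4*z) (1))*(Sf r (r^2*z) (1)) -(r^2)*(r^6*(1)^2-(r^2*z)^2)*(Df r (r^2) (z^2))*(Sf r (z) (1))*(Sf r (r^4*z) (1))) / ((Df r (r^2) (z^2))*((r^4+1))*(Sf r (z) (1))*(Sf r (r^4*z) (1))*(Sf r (r^2*z) (1))) := by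
    simp only [Wf, Kf, kf, xf]
    first | done | (field_simp; done) | (field_simp; ring)
  rw [hE, hN, zero_div]

theorem Y3_e7 (r z : ℂ) (hr : r^16 + 1 = 0) (hz : z ≠ 0) (hr0 : r ≠ 0)
    (h1 : (r^4+1) ≠ 0)
    (h2 : Df r (r^2) (z^2) ≠ 0)
    (h3 : Sf r (r^4*z) (1) ≠ 0)
    (h4 : Sf r (z) (1) ≠ 0)
    (h5 : Sf r (r^2*z) (1) ≠ 0) :
    (Wf r (r^2) (z^2)).u1 * (Kf r (z) (1)) + (Wf r (r^2) (z^2)).w2 * (xf r) * (Kf r (z) (1)) * (Kf r (r^4*z) (1)) - (xf r) = 0 := by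
  have hN : ((r^8-1)*(r^2)*(z^2)*(r^12*(z^2)^2-(r^2)^2))*(r^6*(1)^2-(z)^2)*((r^4+1))*(Sf r (r^4*z) (1)) +(-(r^8*((r^2)^2-(z^2)^2)*(r^4*(z^2)^2-(r^2)^2)))*(r^2)*(r^6*(1)^2-(z)^2)*(r^6*(1)^2-(r^4*z)^2) -(r^2)*(Df r (r^2) (z^2))*(Sf r (z) (1))*(Sf r (r^4*z) (1)) = 0 := by
    simp only [Df, Sf]
    linear_combination (-r^2*z^8 +r^6*z^4 +r^8*z^10 +r^10*z^4 -r^12*z^2 -r^14*z^8 -r^16*z^2 +r^16*z^10 +r^20*z^2 -r^20*z^10 -r^22*z^4 -r^24*z^10 +r^26*z^8 +r^28*z^2 +r^30*z^8 -r^34*z^4) * hr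
  have hE : (Wf r (r^2) (z^2)).u1 * (Kf r (z) (1)) + (Wf r (r^2) (z^2)).w2 * (xf r) * (Kf r (z) (1)) * (Kf r (r^4*z) (1)) - (xf r) = (((r^8-1)*(r^2)*(z^2)*(r^12*(z^2)^2-(r^2)^2))*(r^6*(1)^2-(z)^2)*((r^4+1))*(Sf r (r^4*z) (1)) +(-(r^8*((r^2)^2-(z^2)^2)*(r^4*(z^2)^2-(r^2)^2)))*(r^2)*(r^6*(1)^2-(z)^2)*(r^6*(1)^2-(r^4*z)^2) -(r^2)*(Df r (r^2) (z^2))*(Sf r (z) (1))*(Sf r (r^4*z) (1))) / ((Df r (r^2) (z^2))*(Sf r (z) (1))*((r^4+1))*(Sf r (r^4*z) (1))) := by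
    simp only [Wf, Kf, kf, xf]
    first | done | (field_simp; done) | (field_simp; ring)
  rw [hE, hN, zero_div]

theorem Y3_e8 (r z : ℂ) (hr : r^16 + 1 = 0) (hz : z ≠ 0) (hr0 : r ≠ 0)
    (h1 : (r^4+1) ≠ 0)
    (h2 : Df r (r^2) (z^2) ≠ 0)
    (h3 : Sf r (r^4*z) (1) ≠ 0)
    (h4 : Sf r (z) (1) ≠ 0)
    (h5 : Sf r (r^2*z) (1) ≠ 0) :
    (kf r (z) (1)) + (kf r (r^4*z) (1)) * (Wf r (r^2) (z^2)).u2 * (Kf r (z) (1)) + (kf r (r^4*z) (1)) * (Wf r (r^2) (z^2)).v * (xf r) * (Kf r (z) (1)) - (kf r (r^2*z) (1)) * (xf r) = 0 := by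
  have hN : (r^3*((z)^4-(1)^4))*((r^4*z))*(Sf r (r^4*z) (1))*(Df r (r^2) (z^2))*((r^4+1))*((r^2*z))*(Sf r (r^2*z) (1)) +(r^3*((r^4*z)^4-(1)^4))*(r^6*(r^2)*(z^2)*(r^8-1)*((r^2)^2-(z^2)^2))*(r^6*(1)^2-(z)^2)*((z))*((r^4+1))*((r^2*z))*(Sf r (r^2*z) (1)) +(r^3*((r^4*z)^4-(1)^4))*(r^4*((r^2)^2-(z^2)^2)*(r^12*(z^2)^2-(r^2)^2))*(r^2)*(r^6*(1)^2-(z)^2)*((z))*((r^2*z))*(Sf r (r^2*z) (1)) -(r^3*((r^2*z)^4-(1)^4))*(r^2)*((z))*(Sf r (z) (1))*((r^4*z))*(Sf r (r^4*z) (1))*(Df r (r^2) (z^2)) = 0 := by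
    simp only [Df, Sf]
    linear_combination (r^9*z^14 -2*r^13*z^10 +r^13*z^14 -r^15*z^8 -r^15*z^12 +r^17*z^6 -r^17*z^10 -r^17*z^14 +r^19*z^4 +r^19*z^8 +r^19*z^12 -r^19*z^16 +2*r^21*z^6 -r^23*z^4 +r^23*z^8 +3*r^23*z^12 -r^23*z^16 -r^25*z^2 -r^25*z^14 -r^27*z^4 -2*r^27*z^8 +2*r^27*z^12 -r^27*z^16 -r^29*z^6 +r^29*z^14 +r^31*z^4 -2*r^31*z^8 +2*r^31*z^12 +r^31*z^16 +r^33*z^6 +r^33*z^18 +r^35*z^4 -3*r^35*z^8 -r^35*z^12 +r^35*z^16 -2*r^37*z^14 +r^39*z^4 -r^39*z^8 -r^39*z^12 -r^39*z^16 +r^41*z^6 +r^41*z^10 -r^41*z^14 +r^43*z^8 +r^43*z^12 -r^45*z^6 +2*r^45*z^10 -r^49*z^6) * hr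
  have hE : (kf r (z) (1)) + (kf r (r^4*z) (1)) * (Wf r (r^2) (z^2)).u2 * (Kf r (z) (1)) + (kf r (r^4*z) (1)) * (Wf r (r^2) (z^2)).v * (xf r) * (Kf r (z) (1)) - (kf r (r^2*z) (1)) * (xf r) = ((r^3*((z)^4-(1)^4))*((r^4*z))*(Sf r (r^4*z) (1))*(Df r (r^2) (z^2))*((r^4+1))*((r^2*z))*(Sf r (r^2*z) (1)) +(r^3*((r^4*z)^4-(1)^4))*(r^6*(r^2)*(z^2)*(r^8-1)*((r^2)^2-(z^2)^2))*(r^6*(1)^2-(z)^2)*((z))*((r^4+1))*((r^2*z))*(Sf r (r^2*z) (1)) +(r^3*((r^4*z)^4-(1)^4))*(r^4*((r^2)^2-(z^2)^2)*(r^12*(z^2)^2-(r^2)^2))*(r^2)*(r^6*(1)^2-(z)^2)*((z))*((r^2*z))*(Sf r (r^2*z) (1)) -(r^3*((r^2*z)^4-(1)^4))*(r^2)*((z))*(Sf r (z) (1))*((r^4*z))*(Sf r (r^4*z) (1))*(Df r (r^2) (z^2))) / (((z))*(Sf r (z) (1))*((r^4*z))*(Sf r (r^4*z) (1))*(Df r (r^2) (z^2))*((r^4+1))*((r^2*z))*(Sf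 r (r^2*z) (1))) := by
    simp only [Wf, Kf, kf, xf]
    first | done | (field_simp; done) | (field_simp; ring)
  rw [hE, hN, zero_div]

theorem Y3_e9 (r z : ℂ) (hr : r^16 + 1 = 0) (hz : z ≠ 0) (hr0 : r ≠ 0)
    (h1 : (r^4+1) ≠ 0)
    (h2 : Df r (r^2) (z^2) ≠ 0)
    (h3 : Sf r (r^4*z) (1) ≠ 0)
    (h4 : Sf r (z) (1) ≠ 0)
    (h5 : Sf r (r^2*z) (1) ≠ 0) :
    (kf r (r^4*z) (1)) * (Wf r (r^2) (z^2)).u1 * (xf r) * (Kf r (z) (1)) + (kf r (r^4*z) (1)) * (Wf r (r^2) (z^2)).w1 * (xf r) * (Kf r (z) (1)) - (kf r (r^2*z) (1)) * (xf r) = 0 := by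
  have hN : (r^3*((r^4*z)^4-(1)^4))*((r^8-1)*(r^2)*(z^2)*(r^12*(z^2)^2-(r^2)^2))*(r^2)*(r^6*(1)^2-(z)^2)*((r^2*z))*(Sf r (r^2*z) (1)) +(r^3*((r^4*z)^4-(1)^4))*((r^8*(z^2)^2-(r^2)^2)*(r^12*(z^2)^2-(r^2)^2))*(r^2)*(r^6*(1)^2-(z)^2)*((r^2*z))*(Sf r (r^2*z) (1)) -(r^3*((r^2*z)^4-(1)^4))*(r^2)*((r^4*z))*(Sf r (r^4*z) (1))*(Df r (r^2) (z^2))*(Sf r (z) (1)) = 0 := by
    simp only [Df, Sf]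
    linear_combination (r^9*z^9 -r^13*z^5 -r^15*z^3 -r^15*z^11 -r^17*z^13 +r^19*z^3 +r^19*z^7 +r^21*z +r^21*z^9 +2*r^23*z^7 -r^23*z^11 +r^23*z^15 -r^25*z^5 -r^25*z^9 -r^27*z^3 -r^27*z^11 -r^29*z^5 +r^29*z^13 +r^31*z^7 +r^31*z^15 +r^33*z^9 +r^33*z^13 -r^35*z^3 +r^35*z^7 -2*r^35*z^11 -r^37*z^9 -r^37*z^17 -r^39*z^11 -r^39*z^15 +r^41*z^5 +r^43*z^7 +r^43*z^15 +r^45*z^13 -r^49*z^9) * hr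
  have hE : (kf r (r^4*z) (1)) * (Wf r (r^2) (z^2)).u1 * (xf r) * (Kf r (z) (1)) + (kf r (r^4*z) (1)) * (Wf r (r^2) (z^2)).w1 * (xf r) * (Kf r (z) (1)) - (kf r (r^2*z) (1)) * (xf r) = ((r^3*((r^4*z)^4-(1)^4))*((r^8-1)*(r^2)*(z^2)*(r^12*(z^2)^2-(r^2)^2))*(r^2)*(r^6*(1)^2-(z)^2)*((r^2*z))*(Sf r (r^2*z) (1)) +(r^3*((r^4*z)^4-(1)^4))*((r^8*(z^2)^2-(r^2)^2)*(r^12*(z^2)^2-(r^2)^2))*(r^2)*(r^6*(1)^2-(z)^2)*((r^2*z))*(Sf r (r^2*z) (1)) -(r^3*((r^2*z)^4-(1)^4))*(r^2)*((r^4*z))*(Sf r (r^4*z) (1))*(Df r (r^2) (z^2))*(Sf r (z) (1))) / (((r^4*z))*(Sf r (r^4*z) (1))*(Df r (r^2) (z^2))*((r^4+1))*(Sf r (z) (1))*((r^2*z))*(Sf r (r^2*z) (1))) := by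
    simp only [Wf, Kf, kf, xf]
    first | done | (field_simp; done) | (field_simp; ring)
  rw [hE, hN, zero_div]

theorem Y3_scal (r z : ℂ) (hr : r^16 + 1 = 0) (hz : z ≠ 0) (hr0 : r ≠ 0)
    (h1 : (r^4+1) ≠ 0)
    (h2 : Df r (r^2) (z^2) ≠ 0)
    (h3 : Sf r (r^4*z) (1) ≠ 0)
    (h4 : Sf r (z) (1) ≠ 0)
    (h5 : Sf r (r^2*z) (1) ≠ 0) :
    Y3.Eqs (xf r) (Wf r (r^2) (z^2)) (Kf r (r^4*z) (1)) (kf r (r^4*z) (1)) (Kf r (z) (1)) (kf r (z) (1)) (Kf r (r^2*z) (1)) (kf r (r^2*z) (1)) :=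
  ⟨Y3_e1 r z hr hz hr0 h1 h2 h3 h4 h5,
   Y3_e2 r z hr hz hr0 h1 h2 h3 h4 h5,
   Y3_e3 r z hr hz hr0 h1 h2 h3 h4 h5,
   Y3_e4 r z hr hz hr0 h1 h2 h3 h4 h5,
   Y3_e5 r z hr hz hr0 h1 h2 h3 h4 h5,
   Y3_e6 r z hr hz hr0 h1 h2 h3 h4 h5,
   Y3_e7 r z hr hz hr0 h1 h2 h3 h4 h5,
   Y3_e8 r z hr hz hr0 h1 h2 h3 h4 h5,
   Y3_e9 r z hr hz hr0 h1 h2 h3 h4 h5⟩

theorem Y4_e1 (r z : ℂ) (hr : r^16 + 1 = 0) (hz : z ≠ 0) (hr0 : r ≠ 0)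
    (h1 : (r^4+1) ≠ 0)
    (h2 : Df r (r^4) (z^2) ≠ 0)
    (h3 : Sf r (r^2) (z) ≠ 0)
    (h4 : Sf r (z) (1) ≠ 0)
    (h5 : Sf r (r^4) (z) ≠ 0) :
    (kf r (z) (1)) * (xf r) * (Kf r (r^2) (z)) + (kf r (r^2) (z)) - (kf r (r^4) (z)) * (Wf r (r^4) (z^2)).u2 * (xf r) - (kf r (r^4) (z)) * (xf r) = 0 := by
  have hN : (r^3*((z)^4-(1)^4))*(r^2)*(r^6*(z)^2-(r^2)^2)*((r^2))*((r^4))*(Sf r (r^4) (z))*(Df r (r^4) (z^2)) +(r^3*((r^2)^4-(z)^4))*(Sf r (z) (1))*((r^4+1))*((r^4))*(Sf r (r^4) (z))*(Df r (r^4) (z^2)) -(r^3*((r^4)^4-(z)^4))*(r^6*(r^4)*(z^2)*(r^8-1)*((r^4)^2-(z^2)^2))*(r^2)*(Sf r (z) (1))*(Sf r (r^2) (z))*((r^2)) -(r^3*((r^4)^4-(z)^4))*(r^2)*(Sf r (z) (1))*(Sf r (r^2) (z))*((r^2))*(Df r (r^4) (z^2)) = 0 := by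
    simp only [Df, Sf]
    linear_combination (-r^11*z^14 +r^15*z^14 +r^17*z^12 +r^19*z^10 -r^23*z^10 -r^25*z^8 -r^25*z^12 +r^41*z^4 +r^41*z^8 +r^43*z^6 -r^47*z^6 -r^49*z^4 -r^51*z^2 +r^55*z^2) * hr
  have hE : (kf r (z) (1)) * (xf r) * (Kf r (r^2) (z)) + (kf r (r^2) (z)) - (kf r (r^4) (z)) * (Wf r (r^4) (z^2)).u2 * (xf r) - (kf r (r^4) (z)) * (xf r) = ((r^3*((z)^4-(1)^4))*(r^2)*(r^6*(z)^2-(r^2)^2)*((r^2))*((r^4))*(Sf r (r^4) (z))*(Df r (r^4) (z^2)) +(r^3*((r^2)^4-(z)^4))*(Sf r (z) (1))*((r^4+1))*((r^4))*(Sf r (r^4) (z))*(Df r (r^4) (z^2)) -(r^3*((r^4)^4-(z)^4))*(r^6*(r^4)*(z^2)*(r^8-1)*((r^4)^2-(z^2)^2))*(r^2)*(Sf r (z) (1))*(Sf r (r^2) (z))*((r^2)) -(r^3*((r^4)^4-(z)^4))*(r^2)*(Sf r (z) (1))*(Sf r (r^2) (z))*((r^2))*(Df r (r^4) (z^2)))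 / (((z))*(Sf r (z) (1))*((r^4+1))*(Sf r (r^2) (z))*((r^2))*((r^4))*(Sf r (r^4) (z))*(Df r (r^4) (z^2))) := by
    simp only [Wf, Kf, kf, xf]
    first | done | (field_simp; done) | (field_simp; ring)
  rw [hE, hN, zero_div]

theorem Y4_e2 (r z : ℂ) (hr : r^16 + 1 = 0) (hz : z ≠ 0) (hr0 : r ≠ 0)
    (h1 : (r^4+1) ≠ 0)
    (h2 : Df r (r^4) (z^2) ≠ 0)
    (h3 : Sf r (r^2) (z) ≠ 0)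
    (h4 : Sf r (z) (1) ≠ 0)
    (h5 : Sf r (r^4) (z) ≠ 0) :
    (Wf r (r^4) (z^2)).u1 * (xf r) * (Kf r (r^4) (z)) + (Wf r (r^4) (z^2)).v * (xf r) - (xf r) * (Kf r (z) (1)) * (Kf r (r^2) (z)) = 0 := by
  have hN : ((r^8-1)*(r^4)*(z^2)*(r^12*(z^2)^2-(r^4)^2))*(r^2)*(r^6*(z)^2-(r^4)^2)*(Sf r (z) (1))*(Sf r (r^2) (z)) +(r^4*((r^4)^2-(z^2)^2)*(r^12*(z^2)^2-(r^4)^2))*(r^2)*(Sf r (r^4) (z))*(Sf r (z) (1))*(Sf r (r^2) (z)) -(r^2)*(r^6*(1)^2-(z)^2)*(r^6*(z)^2-(r^2)^2)*(Df r (r^4) (z^2))*(Sf r (r^4) (z)) = 0 := by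
    simp only [Df, Sf]
    linear_combination (r^6*z^12 -r^8*z^14 -r^12*z^10 -r^14*z^8 +r^14*z^12 +r^18*z^12 +r^20*z^6 -r^22*z^8 +r^24*z^6 -r^26*z^8 +r^28*z^6 -r^30*z^8 +r^32*z^6 -r^34*z^8 -r^36*z^2 -r^40*z^2 +r^40*z^6 +r^42*z^4 +r^46 -r^48*z^2) * hr
  have hE : (Wf r (r^4) (z^2)).u1 * (xf r) * (Kf r (r^4) (z)) + (Wf r (r^4) (z^2)).v * (xf r) - (xf r) * (Kf r (z) (1)) * (Kf r (r^2) (z)) = (((r^8-1)*(r^4)*(z^2)*(r^12*(z^2)^2-(r^4)^2))*(r^2)*(r^6*(z)^2-(r^4)^2)*(Sf r (z) (1))*(Sf r (r^2) (z)) +(r^4*((r^4)^2-(z^2)^2)*(r^12*(z^2)^2-(r^4)^2))*(r^2)*(Sf r (r^4) (z))*(Sf r (z) (1))*(Sf r (r^2) (z)) -(r^2)*(r^6*(1)^2-(z)^2)*(r^6*(z)^2-(r^2)^2)*(Df r (r^4) (z^2))*(Sf r (r^4) (z))) / ((Df r (r^4) (z^2))*((r^4+1))*(Sf r (r^4) (z))*(Sf r (z) (1))*(Sf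 r (r^2) (z))) := by
    simp only [Wf, Kf, kf, xf]
    first | done | (field_simp; done) | (field_simp; ring)
  rw [hE, hN, zero_div]

theorem Y4_e3 (r z : ℂ) (hr : r^16 + 1 = 0) (hz : z ≠ 0) (hr0 : r ≠ 0)
    (h1 : (r^4+1) ≠ 0)
    (h2 : Df r (r^4) (z^2) ≠ 0)
    (h3 : Sf r (r^2) (z) ≠ 0)
    (h4 : Sf r (z) (1) ≠ 0)
    (h5 : Sf r (r^4) (z) ≠ 0) :
    (kf r (z) (1)) + (kf r (r^2) (z)) * (xf r) * (Kf r (z) (1)) - (kf r (r^4) (z)) * (Wf r (r^4) (z^2)).u1 - (kf r (r^4) (z)) * (Wf r (r^4) (z^2)).v * (xf r) = 0 := by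
  have hN : (r^3*((z)^4-(1)^4))*((r^2))*(Sf r (r^2) (z))*((r^4+1))*((r^4))*(Sf r (r^4) (z))*(Df r (r^4) (z^2)) +(r^3*((r^2)^4-(z)^4))*(r^2)*(r^6*(1)^2-(z)^2)*((r^4))*(Sf r (r^4) (z))*(Df r (r^4) (z^2)) -(r^3*((r^4)^4-(z)^4))*((r^8-1)*(r^4)*(z^2)*(r^12*(z^2)^2-(r^4)^2))*(Sf r (z) (1))*((r^2))*(Sf r (r^2) (z))*((r^4+1)) -(r^3*((r^4)^4-(z)^4))*(r^4*((r^4)^2-(z^2)^2)*(r^12*(z^2)^2-(r^4)^2))*(r^2)*(Sf r (z) (1))*((r^2))*(Sf r (r^2) (z)) = 0 := by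
    simp only [Df, Sf]
    linear_combination (-r^9*z^12 -r^13*z^12 +r^13*z^16 +r^15*z^14 +r^17*z^8 +r^17*z^12 +2*r^19*z^10 -r^19*z^14 +r^21*z^8 -r^21*z^12 -2*r^23*z^14 -r^25*z^12 -2*r^27*z^6 -r^31*z^6 +r^31*z^10 -r^33*z^4 +r^33*z^12 -r^35*z^6 +r^35*z^10 +2*r^39*z^10 +r^41*z^4 +2*r^43*z^2 +r^45*z^4 -r^45*z^8 +r^47*z^2 -2*r^47*z^6 -r^49*z^4 -r^49*z^8 -r^51*z^2 -r^53 +r^53*z^4 +r^57*z^4) * hr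
  have hE : (kf r (z) (1)) + (kf r (r^2) (z)) * (xf r) * (Kf r (z) (1)) - (kf r (r^4) (z)) * (Wf r (r^4) (z^2)).u1 - (kf r (r^4) (z)) * (Wf r (r^4) (z^2)).v * (xf r) = ((r^3*((z)^4-(1)^4))*((r^2))*(Sf r (r^2) (z))*((r^4+1))*((r^4))*(Sf r (r^4) (z))*(Df r (r^4) (z^2)) +(r^3*((r^2)^4-(z)^4))*(r^2)*(r^6*(1)^2-(z)^2)*((r^4))*(Sf r (r^4) (z))*(Df r (r^4) (z^2)) -(r^3*((r^4)^4-(z)^4))*((r^8-1)*(r^4)*(z^2)*(r^12*(z^2)^2-(r^4)^2))*(Sf r (z) (1))*((r^2))*(Sf r (r^2) (z))*((r^4+1)) -(r^3*((r^4)^4-(z)^4))*(r^4*((r^4)^2-(z^2)^2)*(r^12*(z^2)^2-(r^4)^2))*(r^2)*(Sf r (z) (1))*((r^2))*(Sf r (r^2) (z))) / (((z))*(Sf r (z) (1))*((r^2))*(Sf r (r^2) (z))*((r^4+1))*((r^4))*(Sf r (r^4) (z))*(Df r (r^4) (z^2))) := by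
    simp only [Wf, Kf, kf, xf]
    first | done | (field_simp; done) | (field_simp; ring)
  rw [hE, hN, zero_div]

theorem Y4_e4 (r z : ℂ) (hr : r^16 + 1 = 0) (hz : z ≠ 0) (hr0 : r ≠ 0)
    (h1 : (r^4+1) ≠ 0)
    (h2 : Df r (r^4) (z^2) ≠ 0)
    (h3 : Sf r (r^2) (z) ≠ 0)
    (h4 : Sf r (z) (1) ≠ 0)
    (h5 : Sf r (r^4) (z) ≠ 0) :
    (Wf r (r^4) (z^2)).u2 + (Wf r (r^4) (z^2)).w1 * (xf r) * (Kf r (r^4) (z)) - (xf r) * (Kf r (z) (1)) = 0 := by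
  have hN : (r^6*(r^4)*(z^2)*(r^8-1)*((r^4)^2-(z^2)^2))*((r^4+1))*(Sf r (r^4) (z))*(Sf r (z) (1)) +((r^8*(z^2)^2-(r^4)^2)*(r^12*(z^2)^2-(r^4)^2))*(r^2)*(r^6*(z)^2-(r^4)^2)*(Sf r (z) (1)) -(r^2)*(r^6*(1)^2-(z)^2)*(Df r (r^4) (z^2))*(Sf r (r^4) (z)) = 0 := by
    simp only [Df, Sf]
    linear_combination (-r^2*z^12 +r^8*z^10 +r^10*z^8 +r^14*z^8 -r^18*z^4 +r^18*z^12 -r^20*z^10 -r^22*z^4 -r^22*z^8 -r^24*z^2 +r^26 -r^26*z^8 +r^30*z^4 +r^34*z^4 +r^36*z^2 -r^42) * hr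
  have hE : (Wf r (r^4) (z^2)).u2 + (Wf r (r^4) (z^2)).w1 * (xf r) * (Kf r (r^4) (z)) - (xf r) * (Kf r (z) (1)) = ((r^6*(r^4)*(z^2)*(r^8-1)*((r^4)^2-(z^2)^2))*((r^4+1))*(Sf r (r^4) (z))*(Sf r (z) (1)) +((r^8*(z^2)^2-(r^4)^2)*(r^12*(z^2)^2-(r^4)^2))*(r^2)*(r^6*(z)^2-(r^4)^2)*(Sf r (z) (1)) -(r^2)*(r^6*(1)^2-(z)^2)*(Df r (r^4) (z^2))*(Sf r (r^4) (z))) / ((Df r (r^4) (z^2))*((r^4+1))*(Sf r (r^4) (z))*(Sf r (z) (1))) := by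
    simp only [Wf, Kf, kf, xf]
    first | done | (field_simp; done) | (field_simp; ring)
  rw [hE, hN, zero_div]

theorem Y4_e5 (r z : ℂ) (hr : r^16 + 1 = 0) (hz : z ≠ 0) (hr0 : r ≠ 0)
    (h1 : (r^4+1) ≠ 0)
    (h2 : Df r (r^4) (z^2) ≠ 0)
    (h3 : Sf r (r^2) (z) ≠ 0)
    (h4 : Sf r (z) (1) ≠ 0)
    (h5 : Sf r (r^4) (z) ≠ 0) :
    (kf r (r^2) (z)) * (xf r) * (Kf r (z) (1)) - (kf r (r^4) (z)) * (Wf r (r^4) (z^2)).u2 * (xf r) - (kf r (r^4) (z)) * (Wf r (r^4) (z^2)).w2 * (xf r) = 0 := by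
  have hN : (r^3*((r^2)^4-(z)^4))*(r^2)*(r^6*(1)^2-(z)^2)*((r^4))*(Sf r (r^4) (z))*(Df r (r^4) (z^2)) -(r^3*((r^4)^4-(z)^4))*(r^6*(r^4)*(z^2)*(r^8-1)*((r^4)^2-(z^2)^2))*(r^2)*((r^2))*(Sf r (r^2) (z))*(Sf r (z) (1)) -(r^3*((r^4)^4-(z)^4))*(-(r^8*((r^4)^2-(z^2)^2)*(r^4*(z^2)^2-(r^4)^2)))*(r^2)*((r^2))*(Sf r (r^2) (z))*(Sf r (z) (1)) = 0 := by
    simp only [Df, Sf]
    linear_combination (-r^9*z^16 +r^15*z^14 +2*r^17*z^12 +r^19*z^14 -2*r^23*z^10 -r^25*z^8 -2*r^27*z^10 +r^31*z^6 -r^31*z^10 +r^35*z^6 -r^35*z^10 +2*r^39*z^6 +r^41*z^8 +2*r^43*z^6 -r^47*z^2 -2*r^49*z^4 -r^51*z^2 +r^57) * hr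
  have hE : (kf r (r^2) (z)) * (xf r) * (Kf r (z) (1)) - (kf r (r^4) (z)) * (Wf r (r^4) (z^2)).u2 * (xf r) - (kf r (r^4) (z)) * (Wf r (r^4) (z^2)).w2 * (xf r) = ((r^3*((r^2)^4-(z)^4))*(r^2)*(r^6*(1)^2-(z)^2)*((r^4))*(Sf r (r^4) (z))*(Df r (r^4) (z^2)) -(r^3*((r^4)^4-(z)^4))*(r^6*(r^4)*(z^2)*(r^8-1)*((r^4)^2-(z^2)^2))*(r^2)*((r^2))*(Sf r (r^2) (z))*(Sf r (z) (1)) -(r^3*((r^4)^4-(z)^4))*(-(r^8*((r^4)^2-(z^2)^2)*(r^4*(z^2)^2-(r^4)^2)))*(r^2)*((r^2))*(Sf r (r^2) (z))*(Sf r (z) (1))) / (((r^2))*((z))*(Sf r (r^2) (z))*((r^4+1))*(Sf r (z) (1))*((r^4))*(Sf r (r^4) (z))*(Df r (r^4) (z^2))) := by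
    simp only [Wf, Kf, kf, xf]
    first | done | (field_simp; done) | (field_simp; ring)
  rw [hE, hN, zero_div]

theorem Y4_e6 (r z : ℂ) (hr : r^16 + 1 = 0) (hz : z ≠ 0) (hr0 : r ≠ 0)
    (h1 : (r^4+1) ≠ 0)
    (h2 : Df r (r^4) (z^2) ≠ 0)
    (h3 : Sf r (r^2) (z) ≠ 0)
    (h4 : Sf r (z) (1) ≠ 0)
    (h5 : Sf r (r^4) (z) ≠ 0) :
    (Wf r (r^4) (z^2)).u1 * (xf r) + (Wf r (r^4) (z^2)).v * (xf r) * (Kf r (r^4) (z)) - (xf r) * (Kf r (r^2) (z)) = 0 := by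
  have hN : ((r^8-1)*(r^4)*(z^2)*(r^12*(z^2)^2-(r^4)^2))*(r^2)*(Sf r (r^4) (z))*(Sf r (r^2) (z)) +(r^4*((r^4)^2-(z^2)^2)*(r^12*(z^2)^2-(r^4)^2))*(r^2)*(r^6*(z)^2-(r^4)^2)*(Sf r (r^2) (z)) -(r^2)*(r^6*(z)^2-(r^2)^2)*(Df r (r^4) (z^2))*(Sf r (r^4) (z)) = 0 := by
    simp only [Df, Sf]
    linear_combination (-r^6*z^10 +r^8*z^12 +r^14*z^6 -r^18*z^10 +r^22*z^6 -r^24*z^4 -r^24*z^8 +r^26*z^6 -r^30*z^2 +r^34*z^6 +r^40 -r^42*z^2) * hr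
  have hE : (Wf r (r^4) (z^2)).u1 * (xf r) + (Wf r (r^4) (z^2)).v * (xf r) * (Kf r (r^4) (z)) - (xf r) * (Kf r (r^2) (z)) = (((r^8-1)*(r^4)*(z^2)*(r^12*(z^2)^2-(r^4)^2))*(r^2)*(Sf r (r^4) (z))*(Sf r (r^2) (z)) +(r^4*((r^4)^2-(z^2)^2)*(r^12*(z^2)^2-(r^4)^2))*(r^2)*(r^6*(z)^2-(r^4)^2)*(Sf r (r^2) (z)) -(r^2)*(r^6*(z)^2-(r^2)^2)*(Df r (r^4) (z^2))*(Sf r (r^4) (z))) / ((Df r (r^4) (z^2))*((r^4+1))*(Sf r (r^4) (z))*(Sf r (r^2) (z))) := by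
    simp only [Wf, Kf, kf, xf]
    first | done | (field_simp; done) | (field_simp; ring)
  rw [hE, hN, zero_div]

theorem Y4_e7 (r z : ℂ) (hr : r^16 + 1 = 0) (hz : z ≠ 0) (hr0 : r ≠ 0)
    (h1 : (r^4+1) ≠ 0)
    (h2 : Df r (r^4) (z^2) ≠ 0)
    (h3 : Sf r (r^2) (z) ≠ 0)
    (h4 : Sf r (z) (1) ≠ 0)
    (h5 : Sf r (r^4) (z) ≠ 0) :
    (kf r (z) (1)) * (xf r) * (Kf r (r^2) (z)) - (kf r (r^4) (z)) * (Wf r (r^4) (z^2)).w1 * (xf r) = 0 := by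
  have hN : (r^3*((z)^4-(1)^4))*(r^2)*(r^6*(z)^2-(r^2)^2)*((r^4))*(Sf r (r^4) (z))*(Df r (r^4) (z^2)) -(r^3*((r^4)^4-(z)^4))*((r^8*(z^2)^2-(r^4)^2)*(r^12*(z^2)^2-(r^4)^2))*(r^2)*(Sf r (z) (1))*(Sf r (r^2) (z)) = 0 := by
    simp only [Df, Sf]
    linear_combination (-r^13*z^10 +r^13*z^14 +r^15*z^12 -r^15*z^16 +r^21*z^6 -r^21*z^10 -r^25*z^10 +r^25*z^14 +r^29*z^6 -r^29*z^10 -r^31*z^4 +r^31*z^12 +r^33*z^6 -r^33*z^10 -r^37*z^2 +r^37*z^6 +r^41*z^6 -r^41*z^10 +r^47 -r^47*z^4 -r^49*z^2 +r^49*z^6) * hr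
  have hE : (kf r (z) (1)) * (xf r) * (Kf r (r^2) (z)) - (kf r (r^4) (z)) * (Wf r (r^4) (z^2)).w1 * (xf r) = ((r^3*((z)^4-(1)^4))*(r^2)*(r^6*(z)^2-(r^2)^2)*((r^4))*(Sf r (r^4) (z))*(Df r (r^4) (z^2)) -(r^3*((r^4)^4-(z)^4))*((r^8*(z^2)^2-(r^4)^2)*(r^12*(z^2)^2-(r^4)^2))*(r^2)*(Sf r (z) (1))*(Sf r (r^2) (z))) / (((z))*(Sf r (z) (1))*((r^4+1))*(Sf r (r^2) (z))*((r^4))*(Sf r (r^4) (z))*(Df r (r^4) (z^2))) := by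
    simp only [Wf, Kf, kf, xf]
    first | done | (field_simp; done) | (field_simp; ring)
  rw [hE, hN, zero_div]

theorem Y4_e8 (r z : ℂ) (hr : r^16 + 1 = 0) (hz : z ≠ 0) (hr0 : r ≠ 0)
    (h1 : (r^4+1) ≠ 0)
    (h2 : Df r (r^4) (z^2) ≠ 0)
    (h3 : Sf r (r^2) (z) ≠ 0)
    (h4 : Sf r (z) (1) ≠ 0)
    (h5 : Sf r (r^4) (z) ≠ 0) :
    (kf r (z) (1)) * (xf r) + (kf r (r^2) (z)) * (xf r) - (kf r (r^4) (z)) * (Wf r (r^4) (z^2)).u1 * (xf r) - (kf r (r^4) (z)) * (Wf r (r^4) (z^2)).v = 0 := by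
  have hN : (r^3*((z)^4-(1)^4))*(r^2)*((r^2))*(Sf r (r^2) (z))*((r^4))*(Sf r (r^4) (z))*(Df r (r^4) (z^2)) +(r^3*((r^2)^4-(z)^4))*(r^2)*(Sf r (z) (1))*((r^4))*(Sf r (r^4) (z))*(Df r (r^4) (z^2)) -(r^3*((r^4)^4-(z)^4))*((r^8-1)*(r^4)*(z^2)*(r^12*(z^2)^2-(r^4)^2))*(r^2)*(Sf r (z) (1))*((r^2))*(Sf r (r^2) (z)) -(r^3*((r^4)^4-(z)^4))*(r^4*((r^4)^2-(z^2)^2)*(r^12*(z^2)^2-(r^4)^2))*(Sf r (z) (1))*((r^4+1))*((r^2))*(Sf r (r^2) (z)) = 0 := by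
    simp only [Df, Sf]
    linear_combination (-r^9*z^14 -r^11*z^12 +r^11*z^16 +r^15*z^16 +2*r^17*z^10 +r^19*z^8 +2*r^21*z^10 -2*r^21*z^14 -2*r^23*z^12 -r^25*z^6 +r^25*z^10 -r^25*z^14 -r^27*z^8 -r^27*z^12 -2*r^29*z^6 +2*r^29*z^10 -2*r^33*z^6 +2*r^33*z^10 -2*r^37*z^6 +2*r^37*z^10 +r^39*z^4 +r^39*z^8 +r^41*z^2 -r^41*z^6 +r^41*z^10 +2*r^43*z^4 +2*r^45*z^2 -2*r^45*z^6 -r^47*z^8 -2*r^49*z^6 -r^51 -r^55 +r^55*z^4 +r^57*z^2) * hr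
  have hE : (kf r (z) (1)) * (xf r) + (kf r (r^2) (z)) * (xf r) - (kf r (r^4) (z)) * (Wf r (r^4) (z^2)).u1 * (xf r) - (kf r (r^4) (z)) * (Wf r (r^4) (z^2)).v = ((r^3*((z)^4-(1)^4))*(r^2)*((r^2))*(Sf r (r^2) (z))*((r^4))*(Sf r (r^4) (z))*(Df r (r^4) (z^2)) +(r^3*((r^2)^4-(z)^4))*(r^2)*(Sf r (z) (1))*((r^4))*(Sf r (r^4) (z))*(Df r (r^4) (z^2)) -(r^3*((r^4)^4-(z)^4))*((r^8-1)*(r^4)*(z^2)*(r^12*(z^2)^2-(r^4)^2))*(r^2)*(Sf r (z) (1))*((r^2))*(Sf r (r^2) (z)) -(r^3*((r^4)^4-(z)^4))*(r^4*((r^4)^2-(z^2)^2)*(r^12*(z^2)^2-(r^4)^2))*(Sf r (z) (1))*((r^4+1))*((r^2))*(Sf r (r^2) (z))) / (((z))*(Sf r (z) (1))*((r^4+1))*((r^2))*(Sf r (r^2) (z))*((r^4))*(Sf r (r^4) (z))*(Df r (r^4) (z^2))) := by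
    simp only [Wf, Kf, kf, xf]
    first | done | (field_simp; done) | (field_simp; ring)
  rw [hE, hN, zero_div]

theorem Y4_scal (r z : ℂ) (hr : r^16 + 1 = 0) (hz : z ≠ 0) (hr0 : r ≠ 0)
    (h1 : (r^4+1) ≠ 0)
    (h2 : Df r (r^4) (z^2) ≠ 0)
    (h3 : Sf r (r^2) (z) ≠ 0)
    (h4 : Sf r (z) (1) ≠ 0)
    (h5 : Sf r (r^4) (z) ≠ 0) :
    Y4.Eqs (xf r) (Wf r (r^4) (z^2)) (Kf r (r^2) (z)) (kf r (r^2) (z)) (Kf r (z) (1)) (kf r (z) (1)) (Kf r (r^4) (z)) (kf r (r^4) (z)) :=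
  ⟨Y4_e1 r z hr hz hr0 h1 h2 h3 h4 h5,
   Y4_e2 r z hr hz hr0 h1 h2 h3 h4 h5,
   Y4_e3 r z hr hz hr0 h1 h2 h3 h4 h5,
   Y4_e4 r z hr hz hr0 h1 h2 h3 h4 h5,
   Y4_e5 r z hr hz hr0 h1 h2 h3 h4 h5,
   Y4_e6 r z hr hz hr0 h1 h2 h3 h4 h5,
   Y4_e7 r z hr hz hr0 h1 h2 h3 h4 h5,
   Y4_e8 r z hr hz hr0 h1 h2 h3 h4 h5⟩

end Pool.Agent.EXL.Sc
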