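import Pool.Agent.EXL.ScalEq
import Pool.Agent.EXL.Scal1
import Pool.Agent.EXL.Scal2
import Pool.Agent.EXL.Scal3
import Pool.Agent.EXL.Scal4
import Pool.Agent.EXL.Scal5

/-!
# The scalar identities for the weights of the concrete operators
-/

namespace Pool.Agent.EXL

namespace Sc

open Complex

/-- `e^{iv}` -/
noncomputable def zz (v : ℂ) : ℂ := exp (v * I)

theorem zz_ne (v : ℂ) : zz v ≠ 0 := exp_ne_zero _

theorem zz_pow (v : ℂ) (n : ℕ) : zz v ^ n = exp (n * (v * I)) := by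
  rw [zz, ← exp_nat_mul]

variable {u v w : ℂ}

/-- The general exponent: `u = (a - a') π / 16 + (b - b') v`. -/
theorem ex (a b a' b' : ℕ) (h : u = (a - a') * (Real.pi / 16) + (b - b') * v) :
    exp (u * I) = (rr ^ a * zz v ^ b) / (rr ^ a' * zz v ^ b') := by
  rw [rr_pow, rr_pow, zz_pow, zz_pow, eq_div_iff (mul_ne_zero (exp_ne_zero _) (exp_ne_zero _)),
    ← exp_add, ← exp_add, ← exp_add, h]
  congr 1
  ring

theorem two_ne' : (1 : ℂ) ≠ -1 := by norm_num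

theorem okR_of (k : ℕ) (h : u = k * (Real.pi / 16)) (h1 : rr ^ (8 + 2 * k) ≠ 1)
    (h2 : rr ^ (12 + 2 * k) ≠ 1) : okR u := by
  have e : exp (u * I) = rr ^ k := by rw [rr_pow, h]; congr 1; ring
  rw [okR, Dn, e, rr4]
  simp only [Pool.Agent.EXL.PP]
  apply mul_ne_zero
  · intro h3
    apply h1
    linear_combination h3
  · intro h3
    apply h2
    linear_combination h3

theorem rp16 : rr ^ 16 = -1 := by linear_combination rr16

theorem ok_R0 : okR 0 := by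
  apply okR_of 0 (by push_cast; ring)
  · intro h
    have : rr ^ 16 = 1 := by
      calc rr ^ 16 = (rr ^ (8 + 2 * 0)) ^ 2 := by ring
        _ = 1 := by rw [h]; ring
    rw [rp16] at this
    exact two_ne' this.symm
  · intro h
    have : (rr ^ 16) ^ 3 = 1 := by
      calc (rr ^ 16) ^ 3 = (rr ^ (12 + 2 * 0)) ^ 4 := by ring
        _ = 1 := by rw [h]; ring
    rw [rp16] at this
    norm_num at this

theorem ok_Y5 : okR ((Real.pi : ℂ) / 8) := by
  apply okR_of 2 (by push_cast; ring)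
  · intro h
    have : (rr ^ 16) ^ 3 = 1 := by
      calc (rr ^ 16) ^ 3 = (rr ^ (8 + 2 * 2)) ^ 4 := by ring
        _ = 1 := by rw [h]; ring
    rw [rp16] at this
    norm_num at this
  · intro h
    have h' : rr ^ 16 = 1 := h
    rw [rp16] at h'
    exact two_ne' h'.symm

theorem ok_R2 : okR (((Real.pi : ℂ) / 8) + ((Real.pi : ℂ) / 8)) := by
  apply okR_of 4 (by push_cast; ring)
  · intro h
    have h' : rr ^ 16 = 1 := h
    rw [rp16] at h'
    exact two_ne' h'.symm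
  · intro h
    have : (rr ^ 16) ^ 5 = 1 := by
      calc (rr ^ 16) ^ 5 = (rr ^ (12 + 2 * 4)) ^ 4 := by ring
        _ = 1 := by rw [h]; ring
    rw [rp16] at this
    norm_num at this

theorem ok_R3 : okR (3 * (Real.pi : ℂ) / 8) := by
  apply okR_of 6 (by push_cast; ring)
  · intro h
    have : (rr ^ 16) ^ 5 = 1 := by
      calc (rr ^ 16) ^ 5 = (rr ^ (8 + 2 * 6)) ^ 4 := by ring
        _ = 1 := by rw [h]; ring
    rw [rp16] at this
    norm_num at this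
  · intro h
    have : (rr ^ 16) ^ 3 = 1 := by
      calc (rr ^ 16) ^ 3 = (rr ^ (12 + 2 * 6)) ^ 2 := by ring
        _ = 1 := by rw [h]; ring
    rw [rp16] at this
    norm_num at this

theorem sYB (h1 : okR u) (h2 : okR w) (h3 : okR (u + w)) : YB (rwt u) (rwt (u + w)) (rwt w) := by
  have e : exp ((u + w) * I) = exp (u * I) * exp (w * I) := by rw [add_mul, exp_add]
  have hω : exp (Real.pi / 4 * I) ^ 4 = -1 := by
    rw [rr4, ← pow_mul]
    exact rp16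
  have hs : exp (3 * Real.pi / 8 * I) ^ 2 = exp (Real.pi / 4 * I) ^ 3 := by
    rw [rr6, rr4, ← pow_mul, ← pow_mul]
  rw [rwt, rwt, rwt, e]
  apply yb_wt hω hs
  · exact mul_inv_cancel₀ h1
  · exact mul_inv_cancel₀ h2
  · rw [← e]
    exact mul_inv_cancel₀ h3

theorem sR0 : R0.Eqs (rwt 0) := by
  have hr := rr_ne
  have e1 : exp ((0) * I) = (1) / (1) := by
    have := ex (v := (0 : ℂ)) 0 0 0 0 (u := 0) (by push_cast; ring)
    simpa using this
  have h1 : okR (0) := ok_R0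
  rw [rwt_eq one_ne_zero e1 h1]
  exact R0_scal rr  rr16  hr (Df_ne one_ne_zero e1 h1)

theorem sInv (h1 : okR u) (h2 : okR (-u)) : Inv.Eqs (rwt u) (rwt (-u)) := by
  have hz := zz_ne u
  have hr := rr_ne
  have e1 : exp ((u) * I) = (zz u) / (1) := by
    have := ex (v := u) 0 1 0 0 (u := u) (by push_cast; ring)
    simpa using this
  have e2 : exp ((-u) * I) = (1) / (zz u) := by
    have := ex (v := u) 0 0 0 1 (u := -u) (by push_cast; ring)
    simpa using this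
  rw [rwt_eq one_ne_zero e1 h1,
    rwt_eq hz e2 h2]
  exact Inv_scal rr (zz u) rr16 hz hr (Df_ne one_ne_zero e1 h1) (Df_ne hz e2 h2)

theorem sC1 (h : okR ((3 * (Real.pi : ℂ) / 8) - v - v)) (h1 : okC v) (h2 : okC ((3 * (Real.pi : ℂ)
    / 8) - v)) : C1.Eqs (rwt ((3 * (Real.pi : ℂ) / 8) - v - v))
    (kK ((3 * (Real.pi : ℂ) / 8) - v)) (kk ((3 * (Real.pi : ℂ) / 8) - v)) (kK v) (kk v) := by
  have hz := zz_ne v
  have hr := rr_ne
  have e1 : exp (((3 * (Real.pi : ℂ) / 8) - v - v) * I) = (rr ^ 6) / (zz v ^ 2) := by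
    have := ex (v := v) 6 0 0 2 (u := (3 * (Real.pi : ℂ) / 8) - v - v) (by push_cast; ring)
    simpa using this
  have e2 : exp (((3 * (Real.pi : ℂ) / 8) - v) * I) = (rr ^ 6) / (zz v) := by
    have := ex (v := v) 6 0 0 1 (u := (3 * (Real.pi : ℂ) / 8) - v) (by push_cast; ring)
    simpa using this
  have e3 : exp ((v) * I) = (zz v) / (1) := by
    have := ex (v := v) 0 1 0 0 (u := v) (by push_cast; ring)
    simpa using this
  rw [rwt_eq (pow_ne_zero _ hz) e1 h,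
    kK_eq (pow_ne_zero _ hr) hz e2 h2,
    kk_eq (pow_ne_zero _ hr) hz e2 h2,
    kK_eq hz one_ne_zero e3 h1,
    kk_eq hz one_ne_zero e3 h1]
  exact C1_scal rr (zz v) rr16 hz hr (Df_ne (pow_ne_zero _ hz) e1 h) (Sf_ne (pow_ne_zero _ hr) hz
      e2 h2) (Sf_ne hz one_ne_zero e3 h1)

theorem sC2 (h : okR (v + v - (3 * (Real.pi : ℂ) / 8))) (h1 : okC v) (h2 : okC ((3 * (Real.pi : ℂ)
    / 8) - v)) : C2.Eqs (rwt (v + v - (3 * (Real.pi : ℂ) / 8)))
    (kK v) (kk v) (kK ((3 * (Real.pi : ℂ) / 8) - v)) (kk ((3 * (Real.pi : ℂ) / 8) - v)) := by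
  have hz := zz_ne v
  have hr := rr_ne
  have e1 : exp ((v + v - (3 * (Real.pi : ℂ) / 8)) * I) = (zz v ^ 2) / (rr ^ 6) := by
    have := ex (v := v) 0 2 6 0 (u := v + v - (3 * (Real.pi : ℂ) / 8)) (by push_cast; ring)
    simpa using this
  have e2 : exp ((v) * I) = (zz v) / (1) := by
    have := ex (v := v) 0 1 0 0 (u := v) (by push_cast; ring)
    simpa using this
  have e3 : exp (((3 * (Real.pi : ℂ) / 8) - v) * I) = (rr ^ 6) / (zz v) := by
    have := ex (v := v) 6 0 0 1 (u := (3 * (Real.pi : ℂ) / 8) - v) (by push_cast; ring)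
    simpa using this
  rw [rwt_eq (pow_ne_zero _ hr) e1 h,
    kK_eq hz one_ne_zero e2 h1,
    kk_eq hz one_ne_zero e2 h1,
    kK_eq (pow_ne_zero _ hr) hz e3 h2,
    kk_eq (pow_ne_zero _ hr) hz e3 h2]
  exact C2_scal rr (zz v) rr16 hz hr (Df_ne (pow_ne_zero _ hr) e1 h) (Sf_ne hz one_ne_zero e2 h1)
      (Sf_ne (pow_ne_zero _ hr) hz e3 h2)

theorem sCF (h1 : okR (v - (3 * (Real.pi : ℂ) / 8) / 2)) (h2 : okR ((3 * (Real.pi : ℂ) / 8) / 2 -
    v)) (h3 : okC ((3 * (Real.pi : ℂ) / 8) - v)) : CF.Eqs (rwt (v -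
    (3 * (Real.pi : ℂ) / 8) / 2)) (rwt ((3 * (Real.pi : ℂ) / 8) / 2 - v)) (kK ((3 * (Real.pi : ℂ)
        / 8) - v)) (kk ((3 * (Real.pi : ℂ) / 8) - v)) := by
  have hz := zz_ne v
  have hr := rr_ne
  have e1 : exp ((v - (3 * (Real.pi : ℂ) / 8) / 2) * I) = (zz v) / (rr ^ 3) := by
    have := ex (v := v) 0 1 3 0 (u := v - (3 * (Real.pi : ℂ) / 8) / 2) (by push_cast; ring)
    simpa using this
  have e2 : exp (((3 * (Real.pi : ℂ) / 8) / 2 - v) * I) = (rr ^ 3) / (zz v) := by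
    have := ex (v := v) 3 0 0 1 (u := (3 * (Real.pi : ℂ) / 8) / 2 - v) (by push_cast; ring)
    simpa using this
  have e3 : exp (((3 * (Real.pi : ℂ) / 8) - v) * I) = (rr ^ 6) / (zz v) := by
    have := ex (v := v) 6 0 0 1 (u := (3 * (Real.pi : ℂ) / 8) - v) (by push_cast; ring)
    simpa using this
  rw [rwt_eq (pow_ne_zero _ hr) e1 h1,
    rwt_eq hz e2 h2,
    kK_eq (pow_ne_zero _ hr) hz e3 h3,
    kk_eq (pow_ne_zero _ hr) hz e3 h3]
  exact CF_scal rr (zz v) rr16 hz hr (Df_ne (pow_ne_zero _ hr) e1 h1) (Df_ne hz e2 h2) (Sf_ne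
      (pow_ne_zero _ hr) hz e3 h3)

theorem sCT (h1 : okR (v - (3 * (Real.pi : ℂ) / 8) / 2)) (h2 : okR ((3 * (Real.pi : ℂ) / 8) / 2 -
    v)) (h3 : okC v) : CT.Eqs (rwt (v - (3 * (Real.pi : ℂ) / 8) /
    2)) (rwt ((3 * (Real.pi : ℂ) / 8) / 2 - v)) (kK v) (kk v) := by
  have hz := zz_ne v
  have hr := rr_ne
  have e1 : exp ((v - (3 * (Real.pi : ℂ) / 8) / 2) * I) = (zz v) / (rr ^ 3) := by
    have := ex (v := v) 0 1 3 0 (u := v - (3 * (Real.pi : ℂ) / 8) / 2) (by push_cast; ring)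
    simpa using this
  have e2 : exp (((3 * (Real.pi : ℂ) / 8) / 2 - v) * I) = (rr ^ 3) / (zz v) := by
    have := ex (v := v) 3 0 0 1 (u := (3 * (Real.pi : ℂ) / 8) / 2 - v) (by push_cast; ring)
    simpa using this
  have e3 : exp ((v) * I) = (zz v) / (1) := by
    have := ex (v := v) 0 1 0 0 (u := v) (by push_cast; ring)
    simpa using this
  rw [rwt_eq (pow_ne_zero _ hr) e1 h1,
    rwt_eq hz e2 h2,
    kK_eq hz one_ne_zero e3 h3,
    kk_eq hz one_ne_zero e3 h3]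
  exact CT_scal rr (zz v) rr16 hz hr (Df_ne (pow_ne_zero _ hr) e1 h1) (Df_ne hz e2 h2) (Sf_ne hz
      one_ne_zero e3 h3)

theorem sCU (h1 : okR u) (h2 : okR ((3 * (Real.pi : ℂ) / 8) + u)) : CU.Eqs (rwt u) (rwt ((3 *
    (Real.pi : ℂ) / 8) + u)) := by
  have hz := zz_ne u
  have hr := rr_ne
  have e1 : exp ((u) * I) = (zz u) / (1) := by
    have := ex (v := u) 0 1 0 0 (u := u) (by push_cast; ring)
    simpa using this
  have e2 : exp (((3 * (Real.pi : ℂ) / 8) + u) * I) = (rr ^ 6 * zz u) / (1) := by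
    have := ex (v := u) 6 1 0 0 (u := (3 * (Real.pi : ℂ) / 8) + u) (by push_cast; ring)
    simpa using this
  rw [rwt_eq one_ne_zero e1 h1,
    rwt_eq one_ne_zero e2 h2]
  exact CU_scal rr (zz u) rr16 hz hr (Df_ne one_ne_zero e1 h1) (Df_ne one_ne_zero e2 h2)

theorem sCU2 (h1 : okR u) (h2 : okR ((3 * (Real.pi : ℂ) / 8) + u)) : CU2.Eqs (rwt u) (rwt ((3 *
    (Real.pi : ℂ) / 8) + u)) := by
  have hz := zz_ne u
  have hr := rr_ne
  have e1 : exp ((u) * I) = (zz u) / (1) := by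
    have := ex (v := u) 0 1 0 0 (u := u) (by push_cast; ring)
    simpa using this
  have e2 : exp (((3 * (Real.pi : ℂ) / 8) + u) * I) = (rr ^ 6 * zz u) / (1) := by
    have := ex (v := u) 6 1 0 0 (u := (3 * (Real.pi : ℂ) / 8) + u) (by push_cast; ring)
    simpa using this
  rw [rwt_eq one_ne_zero e1 h1,
    rwt_eq one_ne_zero e2 h2]
  exact CU2_scal rr (zz u) rr16 hz hr (Df_ne one_ne_zero e1 h1) (Df_ne one_ne_zero e2 h2)

theorem sR3 : R3.Eqs (rwt (3 * (Real.pi : ℂ) / 8)) := by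
  have hr := rr_ne
  have e1 : exp (((3 * (Real.pi : ℂ) / 8)) * I) = (rr ^ 6) / (1) := by
    have := ex (v := (0 : ℂ)) 6 0 0 0 (u := (3 * (Real.pi : ℂ) / 8)) (by push_cast; ring)
    simpa using this
  have h1 : okR ((3 * (Real.pi : ℂ) / 8)) := ok_R3
  rw [rwt_eq one_ne_zero e1 h1]
  exact R3_scal rr  rr16  hr (Df_ne one_ne_zero e1 h1)

theorem sFI (h1 : okC v) (h2 : okC (-v)) : FI.Eqs (kK v) (kk v) (kK (-v)) (kk (-v)) := by
  have hz := zz_ne v
  have hr := rr_ne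
  have e1 : exp ((v) * I) = (zz v) / (1) := by
    have := ex (v := v) 0 1 0 0 (u := v) (by push_cast; ring)
    simpa using this
  have e2 : exp ((-v) * I) = (1) / (zz v) := by
    have := ex (v := v) 0 0 0 1 (u := -v) (by push_cast; ring)
    simpa using this
  rw [kK_eq hz one_ne_zero e1 h1,
    kk_eq hz one_ne_zero e1 h1,
    kK_eq one_ne_zero hz e2 h2,
    kk_eq one_ne_zero hz e2 h2]
  exact FI_scal rr (zz v) rr16 hz hr (Sf_ne hz one_ne_zero e1 h1) (Sf_ne one_ne_zero hz e2 h2)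

theorem sTI (h1 : okC v) (h2 : okC (-v)) (h3 : okC ((3 * (Real.pi : ℂ) / 8) + v)) (h4 : okR (-v -
    v)) : TI.Eqs (kK v)
    (kk v) (kK ((3 * (Real.pi : ℂ) / 8) + v)) (kk ((3 * (Real.pi : ℂ) / 8) + v)) (rwt (-v - v)) :=
        by
  have hz := zz_ne v
  have hr := rr_ne
  have e1 : exp ((v) * I) = (zz v) / (1) := by
    have := ex (v := v) 0 1 0 0 (u := v) (by push_cast; ring)
    simpa using this
  have e2 : exp (((3 * (Real.pi : ℂ) / 8) + v) * I) = (rr ^ 6 * zz v) / (1) := by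
    have := ex (v := v) 6 1 0 0 (u := (3 * (Real.pi : ℂ) / 8) + v) (by push_cast; ring)
    simpa using this
  have e3 : exp ((-v - v) * I) = (1) / (zz v ^ 2) := by
    have := ex (v := v) 0 0 0 2 (u := -v - v) (by push_cast; ring)
    simpa using this
  rw [kK_eq hz one_ne_zero e1 h1,
    kk_eq hz one_ne_zero e1 h1,
    kK_eq (mul_ne_zero (pow_ne_zero _ hr) hz) one_ne_zero e2 h3,
    kk_eq (mul_ne_zero (pow_ne_zero _ hr) hz) one_ne_zero e2 h3,
    rwt_eq (pow_ne_zero _ hz) e3 h4]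
  exact TI_scal rr (zz v) rr16 hz hr (Sf_ne hz one_ne_zero e1 h1) (Sf_ne (mul_ne_zero (pow_ne_zero
      _ hr) hz) one_ne_zero e2 h3) (Df_ne (pow_ne_zero _ hz) e3 h4)

theorem sR2 : R2.Eqs (rwt (((Real.pi : ℂ) / 8) + ((Real.pi : ℂ) / 8))) xh := by
  have hr := rr_ne
  have e1 : exp ((((Real.pi : ℂ) / 8) + ((Real.pi : ℂ) / 8)) * I) = (rr ^ 4) / (1) := by
    have := ex (v := (0 : ℂ)) 4 0 0 0 (u := ((Real.pi : ℂ) / 8) + ((Real.pi : ℂ) / 8)) (by
        push_cast; ring)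
    simpa using this
  have h1 : okR (((Real.pi : ℂ) / 8) + ((Real.pi : ℂ) / 8)) := ok_R2
  rw [rwt_eq one_ne_zero e1 h1,
    xh_eq]
  exact R2_scal rr  rr16  hr (Df_ne one_ne_zero e1 h1) rr4_ne

theorem sB1 (h1 : okR w) (h2 : okR (w + ((Real.pi : ℂ) / 8))) (h3 : okR (w + ((Real.pi : ℂ) / 8) +
    ((Real.pi : ℂ) / 8))) : B1.Eqs (rwt w) (rwt (w +
    ((Real.pi : ℂ) / 8) + ((Real.pi : ℂ) / 8))) (rwt (w + ((Real.pi : ℂ) / 8))) xh := by
  have hz := zz_ne w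
  have hr := rr_ne
  have e1 : exp ((w) * I) = (zz w) / (1) := by
    have := ex (v := w) 0 1 0 0 (u := w) (by push_cast; ring)
    simpa using this
  have e2 : exp ((w + ((Real.pi : ℂ) / 8) + ((Real.pi : ℂ) / 8)) * I) = (rr ^ 4 * zz w) / (1) := by
    have := ex (v := w) 4 1 0 0 (u := w + ((Real.pi : ℂ) / 8) + ((Real.pi : ℂ) / 8)) (by
        push_cast; ring)
    simpa using this
  have e3 : exp ((w + ((Real.pi : ℂ) / 8)) * I) = (rr ^ 2 * zz w) / (1) := by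
    have := ex (v := w) 2 1 0 0 (u := w + ((Real.pi : ℂ) / 8)) (by push_cast; ring)
    simpa using this
  rw [rwt_eq one_ne_zero e1 h1,
    rwt_eq one_ne_zero e2 h3,
    rwt_eq one_ne_zero e3 h2,
    xh_eq]
  exact B1_scal rr (zz w) rr16 hz hr (Df_ne one_ne_zero e1 h1) (Df_ne one_ne_zero e2 h3) (Df_ne
      one_ne_zero e3 h2) rr4_ne

theorem sB2 (h1 : okR w) (h2 : okR (w + ((Real.pi : ℂ) / 8))) (h3 : okR (w + ((Real.pi : ℂ) / 8) +
    ((Real.pi : ℂ) / 8))) : B2.Eqs (rwt w) (rwt (w +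
    ((Real.pi : ℂ) / 8) + ((Real.pi : ℂ) / 8))) (rwt (w + ((Real.pi : ℂ) / 8))) xh := by
  have hz := zz_ne w
  have hr := rr_ne
  have e1 : exp ((w) * I) = (zz w) / (1) := by
    have := ex (v := w) 0 1 0 0 (u := w) (by push_cast; ring)
    simpa using this
  have e2 : exp ((w + ((Real.pi : ℂ) / 8) + ((Real.pi : ℂ) / 8)) * I) = (rr ^ 4 * zz w) / (1) := by
    have := ex (v := w) 4 1 0 0 (u := w + ((Real.pi : ℂ) / 8) + ((Real.pi : ℂ) / 8)) (by
        push_cast; ring)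
    simpa using this
  have e3 : exp ((w + ((Real.pi : ℂ) / 8)) * I) = (rr ^ 2 * zz w) / (1) := by
    have := ex (v := w) 2 1 0 0 (u := w + ((Real.pi : ℂ) / 8)) (by push_cast; ring)
    simpa using this
  rw [rwt_eq one_ne_zero e1 h1,
    rwt_eq one_ne_zero e2 h3,
    rwt_eq one_ne_zero e3 h2,
    xh_eq]
  exact B2_scal rr (zz w) rr16 hz hr (Df_ne one_ne_zero e1 h1) (Df_ne one_ne_zero e2 h3) (Df_ne
      one_ne_zero e3 h2) rr4_ne

theorem sY3 (h1 : okC v) (h2 : okC (v + ((Real.pi : ℂ) / 8) + ((Real.pi : ℂ) / 8))) (h3 : okC (v +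
    ((Real.pi : ℂ) / 8))) (h4 : okR (((Real.pi : ℂ) / 8) - v - v)) :
    Y3.Eqs xh (rwt (((Real.pi : ℂ) / 8) - v - v)) (kK (v + ((Real.pi : ℂ) / 8) + ((Real.pi : ℂ) /
        8))) (kk (v + ((Real.pi : ℂ) / 8) + ((Real.pi : ℂ) / 8))) (kK v) (kk v) (kK (v + ((Real.pi
        : ℂ) / 8)))
    (kk (v + ((Real.pi : ℂ) / 8))) := by
  have hz := zz_ne v
  have hr := rr_ne
  have e1 : exp ((((Real.pi : ℂ) / 8) - v - v) * I) = (rr ^ 2) / (zz v ^ 2) := by
    have := ex (v := v) 2 0 0 2 (u := ((Real.pi : ℂ) / 8) - v - v) (by push_cast; ring)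
    simpa using this
  have e2 : exp ((v + ((Real.pi : ℂ) / 8) + ((Real.pi : ℂ) / 8)) * I) = (rr ^ 4 * zz v) / (1) := by
    have := ex (v := v) 4 1 0 0 (u := v + ((Real.pi : ℂ) / 8) + ((Real.pi : ℂ) / 8)) (by
        push_cast; ring)
    simpa using this
  have e3 : exp ((v) * I) = (zz v) / (1) := by
    have := ex (v := v) 0 1 0 0 (u := v) (by push_cast; ring)
    simpa using this
  have e4 : exp ((v + ((Real.pi : ℂ) / 8)) * I) = (rr ^ 2 * zz v) / (1) := by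
    have := ex (v := v) 2 1 0 0 (u := v + ((Real.pi : ℂ) / 8)) (by push_cast; ring)
    simpa using this
  rw [xh_eq,
    rwt_eq (pow_ne_zero _ hz) e1 h4,
    kK_eq (mul_ne_zero (pow_ne_zero _ hr) hz) one_ne_zero e2 h2,
    kk_eq (mul_ne_zero (pow_ne_zero _ hr) hz) one_ne_zero e2 h2,
    kK_eq hz one_ne_zero e3 h1,
    kk_eq hz one_ne_zero e3 h1,
    kK_eq (mul_ne_zero (pow_ne_zero _ hr) hz) one_ne_zero e4 h3,
    kk_eq (mul_ne_zero (pow_ne_zero _ hr) hz) one_ne_zero e4 h3]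
  exact Y3_scal rr (zz v) rr16 hz hr rr4_ne (Df_ne (pow_ne_zero _ hz) e1 h4) (Sf_ne (mul_ne_zero
      (pow_ne_zero _ hr) hz) one_ne_zero e2 h2) (Sf_ne hz one_ne_zero e3 h1) (Sf_ne (mul_ne_zero
      (pow_ne_zero _ hr) hz) one_ne_zero e4 h3)

theorem sY4 (h1 : okC v) (h2 : okC (((Real.pi : ℂ) / 8) - v)) (h3 : okC (((Real.pi : ℂ) / 8) +
    ((Real.pi : ℂ) / 8) - v))
    (h4 : okR (((Real.pi : ℂ) / 8) + ((Real.pi : ℂ) / 8) - v - v)) : Y4.Eqs xh (rwt (((Real.pi :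
        ℂ) / 8) + ((Real.pi : ℂ) / 8) - v - v)) (kK (((Real.pi : ℂ) / 8) - v)) (kk (((Real.pi : ℂ)
        / 8) - v))
        (kK v) (kk v) (kK (((Real.pi : ℂ) / 8) + ((Real.pi : ℂ) / 8) - v)) (kk (((Real.pi : ℂ) /
            8) + ((Real.pi : ℂ) / 8) - v)) := by
  have hz := zz_ne v
  have hr := rr_ne
  have e1 : exp ((((Real.pi : ℂ) / 8) + ((Real.pi : ℂ) / 8) - v - v) * I) = (rr ^ 4) / (zz v ^ 2)
      := by
    have := ex (v := v) 4 0 0 2 (u := ((Real.pi : ℂ) / 8) + ((Real.pi : ℂ) / 8) - v - v) (by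
        push_cast; ring)
    simpa using this
  have e2 : exp ((((Real.pi : ℂ) / 8) - v) * I) = (rr ^ 2) / (zz v) := by
    have := ex (v := v) 2 0 0 1 (u := ((Real.pi : ℂ) / 8) - v) (by push_cast; ring)
    simpa using this
  have e3 : exp ((v) * I) = (zz v) / (1) := by
    have := ex (v := v) 0 1 0 0 (u := v) (by push_cast; ring)
    simpa using this
  have e4 : exp ((((Real.pi : ℂ) / 8) + ((Real.pi : ℂ) / 8) - v) * I) = (rr ^ 4) / (zz v) := by
    have := ex (v := v) 4 0 0 1 (u := ((Real.pi : ℂ) / 8) + ((Real.pi : ℂ) / 8) - v) (by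
        push_cast; ring)
    simpa using this
  rw [xh_eq,
    rwt_eq (pow_ne_zero _ hz) e1 h4,
    kK_eq (pow_ne_zero _ hr) hz e2 h2,
    kk_eq (pow_ne_zero _ hr) hz e2 h2,
    kK_eq hz one_ne_zero e3 h1,
    kk_eq hz one_ne_zero e3 h1,
    kK_eq (pow_ne_zero _ hr) hz e4 h3,
    kk_eq (pow_ne_zero _ hr) hz e4 h3]
  exact Y4_scal rr (zz v) rr16 hz hr rr4_ne (Df_ne (pow_ne_zero _ hz) e1 h4) (Sf_ne (pow_ne_zero _
      hr) hz e2 h2) (Sf_ne hz one_ne_zero e3 h1) (Sf_ne (pow_ne_zero _ hr) hz e4 h3)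

theorem sY5 : Y5.Eqs (rwt ((Real.pi : ℂ) / 8)) xh := by
  have hr := rr_ne
  have e1 : exp ((((Real.pi : ℂ) / 8)) * I) = (rr ^ 2) / (1) := by
    have := ex (v := (0 : ℂ)) 2 0 0 0 (u := ((Real.pi : ℂ) / 8)) (by push_cast; ring)
    simpa using this
  have h1 : okR (((Real.pi : ℂ) / 8)) := ok_Y5
  rw [rwt_eq one_ne_zero e1 h1,
    xh_eq]
  exact Y5_scal rr  rr16  hr (Df_ne one_ne_zero e1 h1) rr4_ne

end Sc

end Pool.Agent.EXL
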