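import Pool.Agent.EXL.InstVal
import Pool.Agent.EXL.Loc
import Pool.Agent.EXL.ScalInst

/-!
# The concrete operators satisfy the laws
-/

namespace Pool.Agent.EXL

open Pat

namespace Ins

set_option linter.unusedSectionVars false

section gen

variable {α K : Type*} [DecidableEq α] [CommRing K] {i j k a b t n r : α} {x : K}

/-- After a merging vertex the renaming is an exchange of names. -/
theorem Yt_ren (h : a ≠ n) (F : Pat α → K) : Yt x a n (ren r n F) = Yt x a n (sw r n F) := by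
  funext p
  have inv : ∀ x, p (p x) = x := p.inv
  have key : ∀ q : Pat α, q n = n → ren r n F q = sw r n F q := fun q hq => by
    rw [ren_1 hq rfl, sw_1 rfl]
  by_cases h1 : p n = n
  · by_cases h2 : p a = a
    · rw [Yt_0 h1 h2, Yt_0 h1 h2, key p h1]
    · rw [Yt_1 h1 h2, Yt_1 h1 h2, key p h1]
  · by_cases h2 : p a = a
    · rw [Yt_2 h1 h2 rfl, Yt_2 h1 h2 rfl, key]
      rw [swap_apply]
      simp only [Equiv.swap_apply_def]
      grind
    · by_cases h3 : p a = n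
      · rw [Yt_z h h3, Yt_z h h3]
      · rw [Yt_3 h2 h1 h3 rfl, Yt_3 h2 h1 h3 rfl, key]
        rw [cut_apply ⟨h, h2, h1, h3⟩]
        simp [h.symm]

theorem Yt_emp (h : a ≠ n) (F : Pat α → K) : Yt x a n (emp n F) = Yt x a n F := by
  funext p
  have inv : ∀ x, p (p x) = x := p.inv
  by_cases h1 : p n = n
  · by_cases h2 : p a = a
    · rw [Yt_0 h1 h2, Yt_0 h1 h2, emp_1 h1]
    · rw [Yt_1 h1 h2, Yt_1 h1 h2, emp_1 h1]
  · by_cases h2 : p a = a
    · rw [Yt_2 h1 h2 rfl, Yt_2 h1 h2 rfl, emp_1]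
      rw [swap_apply]
      simp only [Equiv.swap_apply_def]
      grind
    · by_cases h3 : p a = n
      · rw [Yt_z h h3, Yt_z h h3]
      · rw [Yt_3 h2 h1 h3 rfl, Yt_3 h2 h1 h3 rfl, emp_1]
        rw [cut_apply ⟨h, h2, h1, h3⟩]
        simp [h.symm]

end gen

variable {ι α : Type*} [DecidableEq ι] [DecidableEq α] {L : LabMap ι α}

theorem h2 : (ops L).h + (ops L).h = 3 * (Real.pi : ℂ) / 8 := by rw [ops_h]; ring

theorem h1 : (ops L).h = 3 * (Real.pi : ℂ) / 8 / 2 := by rw [ops_h]; ring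

variable {i j k c r n i' j' : ι} {u v w : ℂ}

theorem YtE : (ops L).Yt i j * (ops L).E j = (ops L).Yt i j := by
  by_cases h : i = j
  · subst h; rw [ops_Yt0, zero_mul]
  · rw [ops_Yt h]; exact LinearMap.ext (Yt_emp (L.lab_ne h))

theorem L1 (h : i ≠ j) (h1 : okR u) (h2 : okR (-u)) :
    (ops L).R i j u * (ops L).R i j (-u) = 1 := by
  rw [ops_R h, ops_R h]
  exact LinearMap.ext (Inv.main (Sc.sInv h1 h2) (L.lab_ne h))

theorem L2 (hij : i ≠ j) (hik : i ≠ k) (hjk : j ≠ k) (h1 : okR u) (h2 : okR w)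
    (h3 : okR (u + w)) :
    (ops L).R i j u * (ops L).R i k (u + w) * (ops L).R j k w =
      (ops L).R j k w * (ops L).R i k (u + w) * (ops L).R i j u := by
  rw [ops_R hij, ops_R hik, ops_R hjk]
  exact LinearMap.ext fun F =>
    (ybe (Sc.sYB h1 h2 h3) (L.lab_ne hij) (L.lab_ne hik) (L.lab_ne hjk) F).symm

theorem L3 (h : i ≠ j) : (ops L).R i j 0 = (ops L).P i j := by
  rw [ops_R h, ops_P]
  exact mk_congr (R0.main Sc.sR0 (L.lab_ne h))

theorem C1 (h : i ≠ j) (k1 : okR ((ops L).h + (ops L).h - v - v)) (k2 : okC v)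
    (k3 : okC ((ops L).h + (ops L).h - v)) :
    (ops L).R i j ((ops L).h + (ops L).h - v - v) * (ops L).t i j ((ops L).h + (ops L).h - v) =
      (ops L).t i j v := by
  rw [h2] at k1 k3 ⊢
  rw [ops_R h, ops_t h, ops_t h]
  exact LinearMap.ext (EXL.C1.main (Sc.sC1 k1 k2 k3) (L.lab_ne h) (by simp) (by simp))

theorem C2 (h : i ≠ j) (k1 : okR (v + v - ((ops L).h + (ops L).h))) (k2 : okC v)
    (k3 : okC ((ops L).h + (ops L).h - v)) :
    (ops L).b i j ((ops L).h + (ops L).h - v) * (ops L).R i j (v + v - ((ops L).h + (ops L).h)) =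
      (ops L).b i j v := by
  rw [h2] at k1 k3 ⊢
  have e : 3 * (Real.pi : ℂ) / 8 - (3 * (Real.pi : ℂ) / 8 - v) = v := by ring
  rw [ops_R h, ops_b h, ops_b h, e]
  exact LinearMap.ext (EXL.C2.main (Sc.sC2 k1 k2 k3) (L.lab_ne h) (by simp) (by simp))

theorem CF (hij : i ≠ j) (hic : i ≠ c) (hjc : j ≠ c) (k1 : okR (v - (ops L).h))
    (k2 : okR ((ops L).h - v)) (k3 : okC ((ops L).h + (ops L).h - v)) :
    (ops L).bc c * (ops L).b i j v * (ops L).R j c (v - (ops L).h) *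
      (ops L).R i c ((ops L).h - v) = (ops L).bc c * (ops L).b i j v := by
  rw [h2] at k3
  rw [h1] at k1 k2 ⊢
  rw [ops_R hjc, ops_R hic, ops_b hij]
  exact LinearMap.ext (EXL.CF.main (Sc.sCF k1 k2 k3) (L.lab_ne hij) (L.lab_ne hic) (by simp)
    (L.lab_ne hjc) (by simp) (by simp))

theorem CT (hij : i ≠ j) (hic : i ≠ c) (hjc : j ≠ c) (k1 : okR (v - (ops L).h))
    (k2 : okR ((ops L).h - v)) (k3 : okC v) :
    (ops L).R j c (v - (ops L).h) * (ops L).R i c ((ops L).h - v) * (ops L).t i j v *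
      (ops L).tc c = (ops L).t i j v * (ops L).tc c := by
  rw [h1] at k1 k2 ⊢
  rw [ops_R hjc, ops_R hic, ops_t hij]
  exact LinearMap.ext (EXL.CT.main (Sc.sCT k1 k2 k3) (L.lab_ne hij) (L.lab_ne hic) (by simp)
    (L.lab_ne hjc) (by simp) (by simp))

theorem CU (hij : i ≠ j) (hir : i ≠ r) (hjr : j ≠ r) (k1 : okR u)
    (k2 : okR ((ops L).h + (ops L).h + u)) :
    (ops L).R j r u * (ops L).R i r ((ops L).h + (ops L).h + u) * (ops L).glue i j =
      (ops L).glue i j := by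
  rw [h2] at k2 ⊢
  rw [ops_R hjr, ops_R hir, ops_glue hij]
  exact LinearMap.ext (EXL.CU.main (Sc.sCU k1 k2) (L.lab_ne hij) (L.lab_ne hir) (L.lab_ne hjr))

theorem CU2 (hij : i ≠ j) (hir : i ≠ r) (hjr : j ≠ r) (k1 : okR u)
    (k2 : okR ((ops L).h + (ops L).h + u)) :
    (ops L).U i j * (ops L).R j r ((ops L).h + (ops L).h + u) * (ops L).R i r u =
      (ops L).U i j := by
  rw [h2] at k2 ⊢
  rw [ops_R hjr, ops_R hir, ops_U hij]
  exact LinearMap.ext (EXL.CU2.main (Sc.sCU2 k1 k2) (L.lab_ne hij) (L.lab_ne hir)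
    (L.lab_ne hjr))

theorem R3 (h : i ≠ j) :
    (ops L).R i j ((ops L).h + (ops L).h) = (ops L).glue i j * (ops L).U i j := by
  rw [h2, ops_R h, ops_glue h, ops_U h]
  exact LinearMap.ext (EXL.R3.main Sc.sR3 (L.lab_ne h))

theorem FI (hij : i ≠ j) (hii : i ≠ i') (hij' : i ≠ j') (hji : j ≠ i') (hjj : j ≠ j')
    (hij2 : i' ≠ j') (k1 : okC v) (k2 : okC (-v)) :
    (ops L).b i j ((ops L).h + (ops L).h - v) * (ops L).b i' j' ((ops L).h + (ops L).h + v) *
      (ops L).glue j' j = (ops L).E j * (ops L).E j' * (ops L).U i' i := by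
  have e1 : 3 * (Real.pi : ℂ) / 8 - (3 * (Real.pi : ℂ) / 8 - v) = v := by ring
  have e2 : 3 * (Real.pi : ℂ) / 8 - (3 * (Real.pi : ℂ) / 8 + v) = -v := by ring
  rw [h2, ops_b hij, ops_b hij2, ops_glue hjj.symm, ops_U hii.symm, e1, e2]
  exact LinearMap.ext (EXL.FI.main (Sc.sFI k1 k2) (L.lab_ne hii) (L.lab_ne hij) (L.lab_ne hij')
    (by simp) (L.lab_ne hji.symm) (L.lab_ne hij2) (by simp) (L.lab_ne hjj) (by simp) (by simp))

theorem TI (hin : i ≠ n) (hii : i ≠ i') (hij' : i ≠ j') (hni : n ≠ i') (hnj : n ≠ j')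
    (hij2 : i' ≠ j') (k1 : okC v) (k2 : okC (-v)) (k3 : okC ((ops L).h + (ops L).h + v))
    (k4 : okR (-v - v)) :
    (ops L).E j' * (ops L).U i' i * (ops L).t i n v * (ops L).U j' n *
      (ops L).R i' n (-v - v) * (ops L).t i' j' ((ops L).h + (ops L).h + v) =
      (ops L).E i * (ops L).E i' * (ops L).E j' := by
  rw [h2] at k3 ⊢
  have key : (ops L).U i' i * (ops L).t i n v * (ops L).U j' n *
      (ops L).R i' n (-v - v) * (ops L).t i' j' (3 * (Real.pi : ℂ) / 8 + v) =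
      (ops L).E i * (ops L).E i' * (ops L).E j' := by
    rw [ops_U hii.symm, ops_t hin, ops_U hnj.symm, ops_R hni.symm, ops_t hij2]
    exact LinearMap.ext (EXL.TI.main (Sc.sTI k1 k2 k3 k4) (L.lab_ne hii) (L.lab_ne hij')
      (L.lab_ne hin) (by simp) (L.lab_ne hij2) (L.lab_ne hni.symm) (by simp)
      (L.lab_ne hnj.symm) (by simp) (by simp))
  calc _ = (ops L).E j' * ((ops L).U i' i * (ops L).t i n v * (ops L).U j' n *
      (ops L).R i' n (-v - v) * (ops L).t i' j' (3 * (Real.pi : ℂ) / 8 + v)) := by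
        simp only [mul_assoc]
    _ = ((ops L).E j' * (ops L).E i) * (ops L).E i' * (ops L).E j' := by
        rw [key]; simp only [mul_assoc]
    _ = (ops L).E i * ((ops L).E j' * (ops L).E i') * (ops L).E j' := by
        rw [(cEE (L := L) (i := j') (j := i)).eq]; simp only [mul_assoc]
    _ = (ops L).E i * (ops L).E i' * ((ops L).E j' * (ops L).E j') := by
        rw [(cEE (L := L) (i := j') (j := i')).eq]; simp only [mul_assoc]
    _ = _ := by rw [EE]

theorem R2 (h : i ≠ j) :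
    (ops L).R i j ((ops L).l + (ops L).l) = (ops L).Yt i j * (ops L).Y i j := by
  rw [ops_l, ops_R h, ops_Yt h, ops_Y h]
  exact LinearMap.ext (EXL.R2.main Sc.sR2 (L.lab_ne h))

theorem B1 (hij : i ≠ j) (hir : i ≠ r) (hjr : j ≠ r) (k1 : okR w) (k2 : okR (w + (ops L).l))
    (k3 : okR (w + (ops L).l + (ops L).l)) :
    (ops L).Y i j * (ops L).R i r (w + (ops L).l + (ops L).l) * (ops L).R j r w =
      (ops L).R i r (w + (ops L).l) * (ops L).Y i j := by
  rw [ops_l] at k2 k3 ⊢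
  rw [ops_R hir, ops_R hir, ops_R hjr, ops_Y hij]
  exact LinearMap.ext (EXL.B1.main (Sc.sB1 k1 k2 k3) (L.lab_ne hij) (L.lab_ne hir)
    (L.lab_ne hjr))

theorem B2 (hij : i ≠ j) (hir : i ≠ r) (hjr : j ≠ r) (k1 : okR w) (k2 : okR (w + (ops L).l))
    (k3 : okR (w + (ops L).l + (ops L).l)) :
    (ops L).R j r w * (ops L).R i r (w + (ops L).l + (ops L).l) * (ops L).Yt i j =
      (ops L).Yt i j * (ops L).R i r (w + (ops L).l) := by
  rw [ops_l] at k2 k3 ⊢
  rw [ops_R hir, ops_R hir, ops_R hjr, ops_Yt hij]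
  exact LinearMap.ext (EXL.B2.main (Sc.sB2 k1 k2 k3) (L.lab_ne hij) (L.lab_ne hir)
    (L.lab_ne hjr))

theorem Y3 (hin : i ≠ n) (hii : i ≠ i') (hij' : i ≠ j') (hni : n ≠ i') (hnj : n ≠ j')
    (hij2 : i' ≠ j') (k1 : okC v) (k2 : okC (v + (ops L).l + (ops L).l))
    (k3 : okC (v + (ops L).l)) (k4 : okR ((ops L).l - v - v)) :
    (ops L).Y j' n * (ops L).R i' n ((ops L).l - v - v) *
      (ops L).t i' j' (v + (ops L).l + (ops L).l) * (ops L).t i n v =
      (ops L).E n * ((ops L).Yt i i' * (ops L).t i j' (v + (ops L).l)) := by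
  rw [ops_l] at k2 k3 k4 ⊢
  rw [ops_Y hnj.symm, ops_R hni.symm, ops_t hij2, ops_t hin, ops_t hij', ops_Yt hii]
  exact LinearMap.ext (EXL.Y3.main (Sc.sY3 k1 k2 k3 k4) (L.lab_ne hii) (L.lab_ne hij')
    (L.lab_ne hin) (by simp) (L.lab_ne hij2) (L.lab_ne hni.symm) (by simp)
    (L.lab_ne hnj.symm) (by simp) (by simp))

theorem Y4 (hij : i ≠ j) (hii : i ≠ i') (hij' : i ≠ j') (hji : j ≠ i') (hjj : j ≠ j')
    (hij2 : i' ≠ j') (k1 : okC v) (k2 : okC ((ops L).l - v))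
    (k3 : okC ((ops L).l + (ops L).l - v)) (k4 : okR ((ops L).l + (ops L).l - v - v)) :
    (ops L).b i' j' (v + (ops L).l + (ops L).l) * (ops L).b i j ((ops L).h + (ops L).h - v) *
      (ops L).Yt i i' = (ops L).E i' * (ops L).b i j' (v + (ops L).l) * (ops L).Y j' j *
        (ops L).R i j ((ops L).l + (ops L).l - v - v) := by
  have e1 : 3 * (Real.pi : ℂ) / 8 - (3 * (Real.pi : ℂ) / 8 - v) = v := by ring
  have e2 : 3 * (Real.pi : ℂ) / 8 - (v + Real.pi / 8 + Real.pi / 8) = Real.pi / 8 - v := by ring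
  have e3 : 3 * (Real.pi : ℂ) / 8 - (v + Real.pi / 8) = Real.pi / 8 + Real.pi / 8 - v := by ring
  rw [ops_l] at k2 k3 k4 ⊢
  rw [h2, ops_b hij2, ops_b hij, ops_b hij', ops_Yt hii, ops_Y hjj.symm, ops_R hij, e1, e2, e3]
  exact LinearMap.ext (EXL.Y4.main (Sc.sY4 k1 k2 k3 k4) (L.lab_ne hii) (L.lab_ne hij)
    (L.lab_ne hij') (by simp) (L.lab_ne hji.symm) (L.lab_ne hij2) (by simp) (L.lab_ne hjj)
    (by simp) (by simp))

theorem Y5 (hin : i ≠ n) (hir : i ≠ r) (hnr : n ≠ r) :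
    (ops L).E r * (ops L).R i n (ops L).l = (ops L).Y i r * (ops L).Yt i n * (ops L).P r n := by
  rw [ops_l, ops_R hin, ops_Y hir, ops_Yt hin]
  refine LinearMap.ext fun F => ?_
  have := EXL.Y5.main Sc.sY5 (L.lab_ne hin) (L.lab_ne hir) (L.lab_ne hnr) F
  rw [Yt_ren (L.lab_ne hin)] at this
  exact this

/-- The concrete operators satisfy the laws. -/
theorem laws (L : LabMap ι α) : Glob.Laws (ops L) okR okC where
  hh := hh
  cRR := cRR
  cRP := cRP
  cRb := cRb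
  cRt := cRt
  cRglue := cRglue
  cRU := cRU
  cRY := cRY
  cRYt := cRYt
  cRbc := cRbc
  cRtc := cRtc
  cRE := cRE
  cbt := cbt
  cbtc := cbtc
  cbbc := cbbc
  cbE := cbE
  cbY := cbY
  cbYt := cbYt
  ctbc := ctbc
  cttc := cttc
  ctE := ctE
  ctglue := ctglue
  cbctc := cbctc
  cglueE := cglueE
  cYtYt := cYtYt
  cEE := cEE
  cRZ := cRZ
  cZZ := cZZ
  Rs := Rs
  Ps := Ps
  bs := bs
  ts := ts
  gs := gs
  EE := EE
  Eb := Eb
  tE := tE
  Ebc := Ebc
  tcE := tcE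
  glueE := glueE
  EU := EU
  YtE := YtE
  PP _ := PP
  PE _ := PE
  PR := PR
  PR' := PR'
  Pb := Pb
  Pt := Pt
  Pbc _ := Pbc
  Ptc _ := Ptc
  Pglue := Pglue
  cPb := cPb
  cPt := cPt
  cPE := cPE
  L1 := L1
  L2 := L2
  L3 := L3
  C1 := C1
  C2 := C2
  CF := CF
  CT := CT
  bh := bh
  th := th
  CU := CU
  CU2 := CU2
  t0 := t0
  b0 := b0
  R3 := R3
  FI h1 h2 h3 h4 h5 h6 k1 k2 _ _ := FI h1 h2 h3 h4 h5 h6 k1 k2
  TI := TI
  R2 := R2
  B1 := B1
  B2 := B2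
  Y3 := Y3
  Y4 := Y4
  Y5 := Y5
  qq := qq
  ZZ := ZZ
  Rp := Rp
  bp := bp
  tp := tp
  tq := tq
  bq := bq

end Ins

end Pool.Agent.EXL
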