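import Pool.Agent.EXL.H1b

/-!
# The half strip function: from real to complex numbers; iterates; the growth of the partition function
-/

namespace Pool.Agent.EXL.HS

open _root_.Pool.Agent.EXL.Pat Filter Topology

variable {α : Type*} [DecidableEq α]

section complex

variable {b t : α} {A : Pat α → Prop} {C : (Pat α → ℝ) → (Pat α → ℝ)}
  {C' : (Pat α → ℂ) → (Pat α → ℂ)}

omit [DecidableEq α] in
/-- a linear operator extending a real one acts on the real and the imaginary part. -/
theorem apply_re_im (hl : Lin C') (h : ∀ F p, C' (fun q => (F q : ℂ)) p = (C F p : ℂ))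
    (G : Pat α → ℂ) (p : Pat α) :
    (C' G p).re = C (fun q => (G q).re) p ∧ (C' G p).im = C (fun q => (G q).im) p := by
  have e : G = fun q => (1 : ℂ) * (fun q => ((G q).re : ℂ)) q + Complex.I *
      (fun q => ((G q).im : ℂ)) q := by
    funext q
    rw [one_mul, mul_comm]
    exact (Complex.re_add_im _).symm
  have e2 : C' G p = (C (fun q => (G q).re) p : ℂ) + Complex.I * (C (fun q => (G q).im) p : ℂ) := by
    conv_lhs => rw [e]
    rw [hl]
    simp only
    rw [h, h, one_mul]
  rw [e2]
  constructor <;> simp

omit [DecidableEq α] in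
theorem Inj.toComplex (hl : Lin C') (h : ∀ F p, C' (fun q => (F q : ℂ)) p = (C F p : ℂ))
    (inj : Inj b t A C) : Inj b t A C' := by
  intro G h0 h1 p
  have k1 := inj (fun q => (G q).re) (fun q hq => by rw [h0 q hq]; rfl)
    (fun q hq hA => by rw [← (apply_re_im hl h G q).1, h1 q hq hA]) p
  have k2 := inj (fun q => (G q).im) (fun q hq => by rw [h0 q hq]; rfl)
    (fun q hq hA => by rw [← (apply_re_im hl h G q).2, h1 q hq hA]) p
  exact Complex.ext k1 k2

theorem Half.toComplex {β : ℝ} {F : Pat α → ℝ}
    (h : ∀ F p, C' (fun q => (F q : ℂ)) p = (C F p : ℂ))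
    (hh : Half b t A C β F) : Half b t A C' (β : ℂ) (fun p => (F p : ℂ)) where
  dead p hp hd := by rw [hh.dead p hp hd]; rfl
  fullv := by rw [hh.fullv]; rfl
  eq p hp hne := by rw [h, hh.eq p hp hne]
  emp := by rw [h, hh.emp]; push_cast; rfl

end complex

section iterate

variable {K : Type*} [CommRing K] {b t : α} {A : Pat α → Prop} {C : (Pat α → K) → (Pat α → K)}

theorem Good.iterate (hC : Good b t C) (m : ℕ) : Good b t (C^[m]) := by
  induction m with
  | zero => exact Good.id b t
  | succ m ih =>
    rw [Function.iterate_succ]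
    exact ih.comp hC

omit [DecidableEq α] [CommRing K] in
theorem Pres.iterate (PC : Pres A A C) (m : ℕ) : Pres A A (C^[m]) := by
  induction m with
  | zero => exact Pres.id A
  | succ m ih =>
    rw [Function.iterate_succ]
    exact ih.comp PC

theorem Half.iterate {β : K} {F : Pat α → K} (he : A Pat.empty) (hC : Good b t C)
    (PC : Pres A A C) (h : Half b t A C β F) (m : ℕ) : Half b t A (C^[m]) (m * β) F := by
  induction m with
  | zero =>
    have e : ((0 : ℕ) : K) * β = 0 := by simp
    rw [e]
    exact h.one
  | succ m ih =>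
    have := ih.comp he (hC.iterate m) (PC.iterate m) h
    rw [Function.iterate_succ]
    have e : ((m + 1 : ℕ) : K) * β = m * β + β := by push_cast; ring
    rw [e]
    exact this

/-- the partition function in terms of `β`. -/
theorem Half.partition [Fintype (Pat α)] {β : K} {F : Pat α → K} (he : A Pat.empty)
    (hC : Good b t C) (PC : Pres A A C) (h : Half b t A C β F)
    (hF : F Pat.empty = 0) (m : ℕ) : open scoped Classical in
    C^[m] (ind (full b t)) Pat.empty = m * β -
      ∑ q : Pat α, (if Live b t q ∧ A q then F q else 0) * C^[m] (ind q) Pat.empty := by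
  classical
  have hm := h.iterate he hC PC m
  have h1 := hm.emp
  rw [hF, zero_add] at h1
  have e1 : ∀ p, A p → F p = (fun p => ind (full b t) p + 1 *
      (fun p => ∑ q : Pat α, (if Live b t q ∧ A q then F q else 0) * ind q p) p) p := by
    intro p hp
    have e2 : (∑ q : Pat α, (if Live b t q ∧ A q then F q else 0) * ind q p) =
        if Live b t p ∧ A p then F p else 0 := by
      rw [Finset.sum_eq_single p]
      · rw [ind_self, mul_one]
      · intro q _ hq
        rw [ind_ne hq.symm, mul_zero]
      · intro h
        exact absurd (Finset.mem_univ p) h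
    simp only [e2, one_mul]
    by_cases hp1 : p = full b t
    · subst hp1
      have : ¬ (Live b t (full b t) ∧ A (full b t)) := by
        intro h
        apply h.1.1
        rw [full_apply, if_pos rfl]
      rw [if_neg this, ind_self, add_zero, h.fullv]
    · rw [ind_ne hp1, zero_add]
      by_cases hp2 : p = Pat.empty
      · subst hp2
        rw [if_neg, hF]
        exact fun h => h.1.2 rfl
      · by_cases hp3 : p b = t
        · rcases full_or_dead hp3 with h4 | h4
          · exact absurd h4 hp1
          · rw [h.dead p hp h4, if_neg]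
            exact fun h => h.1.1 hp3
        · rw [if_pos ⟨⟨hp3, hp2⟩, hp⟩]
  rw [PC.iterate m _ _ e1 _ he, (hC.iterate m).lin.addSmul, (hC.iterate m).lin.sum] at h1
  simp only [one_mul] at h1
  rw [← h1]
  ring

end iterate

section limit

variable {K : Type*} [RCLike K] {b t : α} {A : Pat α → Prop} {C : (Pat α → K) → (Pat α → K)}

/-- the partition function grows linearly with rate `β`. -/
theorem Half.limit [Fintype (Pat α)] {β : K} {F : Pat α → K} (he : A Pat.empty)
    (hC : Good b t C) (PC : Pres A A C) (h : Half b t A C β F)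
    (hF : F Pat.empty = 0)
    (hb : ∀ q, Live b t q → A q → ∃ M : ℝ, ∀ m, ‖C^[m] (ind q) Pat.empty‖ ≤ M) :
    Tendsto (fun m : ℕ => C^[m] (ind (full b t)) Pat.empty / (m : K)) atTop (𝓝 β) := by
  classical
  have key : ∀ q : Pat α, Tendsto (fun m : ℕ => (if Live b t q ∧ A q then F q else 0) *
      C^[m] (ind q) Pat.empty / (m : K)) atTop (𝓝 0) := by
    intro q
    by_cases hq : Live b t q ∧ A q
    · obtain ⟨M, hM⟩ := hb q hq.1 hq.2
      rw [if_pos hq]
      apply squeeze_zero_norm (a := fun m : ℕ => (‖F q‖ * M) / (m : ℝ))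
      · intro m
        rw [norm_div, norm_mul, RCLike.norm_natCast]
        gcongr
        exact hM m
      · exact tendsto_const_nhds.div_atTop tendsto_natCast_atTop_atTop
    · simp only [if_neg hq, zero_mul, zero_div]
      exact tendsto_const_nhds
  have e : ∀ᶠ m : ℕ in atTop, C^[m] (ind (full b t)) Pat.empty / (m : K) =
      β - ∑ q : Pat α, (if Live b t q ∧ A q then F q else 0) * C^[m] (ind q) Pat.empty / (m : K) := by
    filter_upwards [eventually_gt_atTop 0] with m hm
    rw [h.partition he hC PC hF m]
    have hm' : (m : K) ≠ 0 := Nat.cast_ne_zero.2 hm.ne'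
    rw [sub_div, mul_div_cancel_left₀ _ hm', Finset.sum_div]
  have lim : Tendsto (fun m : ℕ => β - ∑ q : Pat α, (if Live b t q ∧ A q then F q else 0) *
      C^[m] (ind q) Pat.empty / (m : K)) atTop (𝓝 (β - ∑ q : Pat α, (0 : K))) :=
    tendsto_const_nhds.sub (tendsto_finsetSum _ fun q _ => key q)
  rw [Finset.sum_const_zero, sub_zero] at lim
  exact lim.congr' (e.mono fun _ h => h.symm)

end limit

end Pool.Agent.EXL.HS
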