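import Pool.Agent.EXL.Ops

/-!
# Columns of rhombi and the auxiliary double column

`M w a L` = the line `a` crosses the rows of the list `L`, the first row of the list first.
`TT` = the double column: the line `r` goes up, the line `l` comes down.
Dual convention: `A (B F)` means that `A` acts first on the state.
-/

namespace Pool.Agent.EXL

open Pat

variable {α K : Type*} [DecidableEq α] [CommRing K]

/-- The line `a` crosses the rows of the list; `w j` is the weight of the rhombus at row `j`. -/
def M (w : α → Wt K) (a : α) : List α → (Pat α → K) → (Pat α → K)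
  | [], F => F
  | j :: L, F => R (w j) a j (M w a L F)

@[simp] theorem M_nil (w : α → Wt K) (a : α) (F : Pat α → K) : M w a [] F = F := rfl

@[simp] theorem M_cons (w : α → Wt K) (a j : α) (L : List α) (F : Pat α → K) :
    M w a (j :: L) F = R (w j) a j (M w a L F) := rfl

theorem M_append (w : α → Wt K) (a : α) (L L' : List α) (F : Pat α → K) :
    M w a (L ++ L') F = M w a L (M w a L' F) := by
  induction L with
  | nil => rfl
  | cons j L ih => simp [ih]

/-- The auxiliary double column with the lines `l`, `r` through the rows `L`; `kb`, `kb'` are the
weights of the bottom cap, `kt`, `kt'` of the top cap, `wr`, `wl` of the rhombi. -/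
def TT (kb kb' kt kt' : K) (wr wl : α → Wt K) (l r b t : α) (L : List α)
    (F : Pat α → K) : Pat α → K :=
  bot kb kb' l r b (M wr r L (M wl l L (top kt kt' l r t F)))

/-- Two operators commute. -/
def Com (X Y : (Pat α → K) → (Pat α → K)) : Prop := ∀ F, X (Y F) = Y (X F)

omit [DecidableEq α] in
theorem Com.symm {X Y : (Pat α → K) → (Pat α → K)} (h : Com X Y) : Com Y X :=
  fun F => (h F).symm

/-- An operator that commutes with all rhombi of a column commutes with the column. -/
theorem Com.M {X : (Pat α → K) → (Pat α → K)} {w : α → Wt K} {a : α} {L : List α}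
    (h : ∀ j ∈ L, Com X (R (w j) a j)) : Com X (M w a L) := by
  induction L with
  | nil => intro F; rfl
  | cons j L ih =>
    intro F
    have h1 := h j (by simp)
    have h2 := ih (fun i hi => h i (by simp [hi]))
    rw [M_cons, M_cons, h1, h2]

/-- Push an operator through one column: `X` is changed into `Y` and the weights change. -/
theorem M_push {X Y : (Pat α → K) → (Pat α → K)} {w w' : α → Wt K} {a a' : α} {L : List α}
    (h : ∀ j ∈ L, ∀ F, X (R (w j) a j F) = R (w' j) a' j (X F)) (F : Pat α → K) :
    X (M w a L F) = M w' a' L (X F) := by
  induction L generalizing F with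
  | nil => rfl
  | cons j L ih =>
    rw [M_cons, M_cons, h j (by simp), ih (fun i hi => h i (by simp [hi]))]

end Pool.Agent.EXL
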