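import Pool.Agent.EXL.H1b
import Pool.Agent.EXL.Col

/-!
# Columns and double columns are good operators; combination of admissibility predicates
-/

namespace Pool.Agent.EXL.HS

open Pat

variable {α K : Type*} [DecidableEq α] [CommRing K]

section pres

variable {X Y : (Pat α → K) → (Pat α → K)} {A A' B B' : Pat α → Prop}

omit [DecidableEq α] [CommRing K] in
theorem Pres.inter (hA : Pres A A' X) (hB : Pres B B' X) :
    Pres (fun p => A p ∧ B p) (fun p => A' p ∧ B' p) X := by
  classical
  intro F G h p hp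
  let H : Pat α → K := fun q => if A' q then F q else G q
  rw [hA F H (fun q hq => (if_pos hq).symm) p hp.1]
  apply hB _ _ _ p hp.2
  intro q hq
  show (if A' q then F q else G q) = G q
  by_cases hA' : A' q
  · rw [if_pos hA', h q ⟨hA', hq⟩]
  · rw [if_neg hA']

omit [DecidableEq α] [CommRing K] in
theorem Pres.top : Pres (K := K) (fun _ : Pat α => True) (fun _ => True) X := by
  intro F G h p _
  rw [show F = G from funext fun q => h q trivial]

omit [DecidableEq α] [CommRing K] in
theorem Pres.all_mem {ι : Type*} (s : Finset ι) {A A' : ι → Pat α → Prop}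
    (h : ∀ k ∈ s, Pres (A k) (A' k) X) :
    Pres (fun p => ∀ k ∈ s, A k p) (fun p => ∀ k ∈ s, A' k p) X := by
  classical
  induction s using Finset.induction_on with
  | empty =>
    apply (Pres.top (X := X)).mono
    · intro _ _; trivial
    · intro _ _ k hk; exact absurd hk (Finset.notMem_empty k)
  | insert i s hi ih =>
    have h1 := (h i (Finset.mem_insert_self i s)).inter
      (ih fun k hk => h k (Finset.mem_insert_of_mem hk))
    apply h1.mono
    · intro p hp
      exact ⟨hp i (Finset.mem_insert_self i s), fun k hk => hp k (Finset.mem_insert_of_mem hk)⟩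
    · intro p hp k hk
      rcases Finset.mem_insert.1 hk with rfl | hk
      · exact hp.1
      · exact hp.2 k hk

omit [DecidableEq α] [CommRing K] in
theorem Pres.all {ι : Type*} [Finite ι] {A A' : ι → Pat α → Prop}
    (h : ∀ k, Pres (A k) (A' k) X) : Pres (fun p => ∀ k, A k p) (fun p => ∀ k, A' k p) X := by
  have : Fintype ι := Fintype.ofFinite ι
  apply (Pres.all_mem Finset.univ (fun k _ => h k)).mono
  · intro p hp k _
    exact hp k
  · intro p hp k
    exact hp k (Finset.mem_univ k)

/-- An operator commuting with the projection on 'the site `k` is empty'. -/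
theorem pres_emp {k : α} (hc : ∀ F, EXL.emp k (X F) = X (EXL.emp k F)) :
    Pres (fun p => p k = k) (fun p => p k = k) X := by
  intro F G h p hp
  have e : EXL.emp k F = EXL.emp k G := by
    funext q
    by_cases hq : q k = k
    · rw [emp_1 hq, emp_1 hq, h q hq]
    · rw [emp_z hq, emp_z hq]
  have h1 := congrFun (hc F) p
  have h2 := congrFun (hc G) p
  rw [emp_1 hp] at h1 h2
  rw [h1, h2, e]

/-- An operator with `X emp_k = X`. -/
theorem pres_emp' {k : α} (hc : ∀ F, X (EXL.emp k F) = X F) :
    Pres (fun _ => True) (fun p => p k = k) X := by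
  intro F G h p _
  have e : EXL.emp k F = EXL.emp k G := by
    funext q
    by_cases hq : q k = k
    · rw [emp_1 hq, emp_1 hq, h q hq]
    · rw [emp_z hq, emp_z hq]
  rw [← hc F, ← hc G, e]

end pres

section cols

variable {b t a l r : α}

theorem good_M (w : α → Wt K) (hbt : b ≠ t) (hab : a ≠ b) (hat : a ≠ t) {L : List α}
    (hL : ∀ j ∈ L, j ≠ a ∧ j ≠ b ∧ j ≠ t) : Good b t (M w a L) := by
  induction L with
  | nil => exact Good.id b t
  | cons j L ih =>
    have h1 := hL j (by simp)
    exact (good_R (w j) hbt h1.1.symm hab hat h1.2.1 h1.2.2).comp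
      (ih fun i hi => hL i (by simp [hi]))

theorem good_TT (kb kb' kt kt' : K) (wr wl : α → Wt K) (hbt : b ≠ t) (hlr : l ≠ r)
    (hlb : l ≠ b) (hlt : l ≠ t) (hrb : r ≠ b) (hrt : r ≠ t) {L : List α}
    (hL : ∀ j ∈ L, j ≠ l ∧ j ≠ r ∧ j ≠ b ∧ j ≠ t) :
    Good b t (TT kb kb' kt kt' wr wl l r b t L) :=
  (good_bot kb kb' hbt hlr hlb hlt hrb hrt).comp
    ((good_M wr hbt hrb hrt fun j hj => ⟨(hL j hj).2.1, (hL j hj).2.2⟩).comp
      ((good_M wl hbt hlb hlt fun j hj => ⟨(hL j hj).1, (hL j hj).2.2⟩).comp
        (good_top kt kt' hbt hlb hlt hrb hrt)))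

/-- The ordinary column: the line `c` from the floor to the top. -/
def CC (w : α → Wt K) (c b t : α) (L : List α) (F : Pat α → K) : Pat α → K :=
  bc c b (M w c L (tc c t F))

theorem good_CC (w : α → Wt K) (hbt : b ≠ t) (hab : a ≠ b) (hat : a ≠ t) {L : List α}
    (hL : ∀ j ∈ L, j ≠ a ∧ j ≠ b ∧ j ≠ t) : Good b t (CC w a b t L) :=
  (good_bc hbt hab hat).comp ((good_M w hbt hab hat hL).comp (good_tc hbt hab hat))

end cols

section cont

variable [TopologicalSpace K] [IsTopologicalRing K] {Z : Type*} [TopologicalSpace Z] {z0 : Z}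

/-- A family of rhombus weights that is continuous at a point. -/
structure WtCont (w : Z → Wt K) (z0 : Z) : Prop where
  v : ContinuousAt (fun z => (w z).v) z0
  u1 : ContinuousAt (fun z => (w z).u1) z0
  u2 : ContinuousAt (fun z => (w z).u2) z0
  w1 : ContinuousAt (fun z => (w z).w1) z0
  w2 : ContinuousAt (fun z => (w z).w2) z0

theorem cont_R {w : Z → Wt K} (hw : WtCont w z0) (i j : α) {F : Z → Pat α → K}
    (hF : ∀ p, ContinuousAt (fun z => F z p) z0) (p : Pat α) :
    ContinuousAt (fun z => R (w z) i j (F z) p) z0 := by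
  simp only [R]
  split_ifs
  · exact (hF p).add (hw.u2.mul (hF _))
  · exact (hw.v.mul (hF p)).add (hw.u1.mul (hF _))
  · exact (hw.v.mul (hF p)).add (hw.u1.mul (hF _))
  · exact hw.w1.mul (hF p)
  · exact ((hw.w1.mul (hF _)).add (hw.u2.mul (hF _))).add (hw.w2.mul (hF _))

theorem cont_bot {κ k : Z → K} (h1 : ContinuousAt κ z0) (h2 : ContinuousAt k z0) (i j b : α)
    {F : Z → Pat α → K} (hF : ∀ p, ContinuousAt (fun z => F z p) z0) (p : Pat α) :
    ContinuousAt (fun z => bot (κ z) (k z) i j b (F z) p) z0 := by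
  simp only [bot]
  split_ifs
  · exact ((hF p).add (h1.mul (hF _))).add (h2.mul ((hF _).add (hF _)))
  · exact (hF p).add (h1.mul (hF _))
  · exact continuousAt_const
  · exact continuousAt_const

theorem cont_top {κ k : Z → K} (h1 : ContinuousAt κ z0) (h2 : ContinuousAt k z0) (i j t : α)
    {F : Z → Pat α → K} (hF : ∀ p, ContinuousAt (fun z => F z p) z0) (p : Pat α) :
    ContinuousAt (fun z => top (κ z) (k z) i j t (F z) p) z0 := by
  simp only [top]
  split_ifs
  · exact hF p
  · exact h2.mul (hF _)
  · exact continuousAt_const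
  · exact h2.mul (hF _)
  · exact continuousAt_const
  · exact continuousAt_const
  · exact h1.mul (hF _)

omit [IsTopologicalRing K] in
theorem cont_bc [ContinuousAdd K] (c b : α) {F : Z → Pat α → K}
    (hF : ∀ p, ContinuousAt (fun z => F z p) z0) (p : Pat α) :
    ContinuousAt (fun z => bc c b (F z) p) z0 := by
  simp only [bc]
  split_ifs
  · exact (hF p).add (hF _)
  · exact hF p
  · exact continuousAt_const

omit [IsTopologicalRing K] in
theorem cont_tc (c t : α) {F : Z → Pat α → K}
    (hF : ∀ p, ContinuousAt (fun z => F z p) z0) (p : Pat α) :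
    ContinuousAt (fun z => tc c t (F z) p) z0 := by
  simp only [tc]
  split_ifs
  · exact hF p
  · exact hF _
  · exact continuousAt_const

theorem cont_M {w : Z → α → Wt K} (a : α) {L : List α} (hw : ∀ j ∈ L, WtCont (fun z => w z j) z0)
    {F : Z → Pat α → K} (hF : ∀ p, ContinuousAt (fun z => F z p) z0) (p : Pat α) :
    ContinuousAt (fun z => M (w z) a L (F z) p) z0 := by
  induction L generalizing p with
  | nil => exact hF p
  | cons j L ih =>
    exact cont_R (hw j (by simp)) a j (fun q => ih (fun i hi => hw i (by simp [hi])) q) p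

theorem cont_CC {w : Z → α → Wt K} (c b t : α) {L : List α}
    (hw : ∀ j ∈ L, WtCont (fun z => w z j) z0)
    {F : Z → Pat α → K} (hF : ∀ p, ContinuousAt (fun z => F z p) z0) (p : Pat α) :
    ContinuousAt (fun z => CC (w z) c b t L (F z) p) z0 :=
  cont_bc c b (fun q => cont_M c hw (fun q => cont_tc c t hF q) q) p

theorem cont_TT {kb kb' kt kt' : Z → K} (h1 : ContinuousAt kb z0) (h2 : ContinuousAt kb' z0)
    (h3 : ContinuousAt kt z0) (h4 : ContinuousAt kt' z0) {wr wl : Z → α → Wt K} (l r b t : α)
    {L : List α} (hr : ∀ j ∈ L, WtCont (fun z => wr z j) z0)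
    (hl : ∀ j ∈ L, WtCont (fun z => wl z j) z0)
    {F : Z → Pat α → K} (hF : ∀ p, ContinuousAt (fun z => F z p) z0) (p : Pat α) :
    ContinuousAt (fun z => TT (kb z) (kb' z) (kt z) (kt' z) (wr z) (wl z) l r b t L (F z) p) z0 :=
  cont_bot h1 h2 l r b
    (fun q => cont_M r hr (fun q => cont_M l hl (fun q => cont_top h3 h4 l r t hF q) q) q) p

end cont

end Pool.Agent.EXL.HS
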