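import Pool.Agent.EXL.Site
import Pool.Agent.EXL.Inst
import Pool.Agent.EXL.H1c

/-!
# The honeycomb point (board EXI): weights, complexification, the concrete column
-/

set_option autoImplicit false

namespace Pool.Agent.EXL

/-- The weights at the angle π / 8. -/
theorem wt_hex {K : Type*} [Field K] {z : K} (h8 : z ^ 8 = -1) (h2 : z ^ 2 + 1 ≠ 0)
    (h6 : z ^ 6 - 1 ≠ 0) (h20 : (2 : K) ≠ 0) :
    wt (z ^ 2) (z ^ 3) z (PP (z ^ 2) z)⁻¹ = hexW (z / (z ^ 2 + 1)) := by
  have hP : PP (z ^ 2) z = -2 * (z ^ 6 - 1) := by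
    unfold PP
    linear_combination (z ^ 6 - 1) * h8
  have hv : (z ^ 2) * (z^2-1)*((z ^ 2)^3-z^2) * (z ^ 2 + 1) ^ 2 = z ^ 2 * (-2 * (z ^ 6 - 1)) := by
    linear_combination (z ^ 6 + z ^ 4 - 2 * z ^ 2) * h8
  have hu : ((z ^ 2)^2-1)*z*((z ^ 2)^3-z^2) * (z ^ 2 + 1) = z * (-2 * (z ^ 6 - 1)) := by
    linear_combination (z^5+z^3-2*z) * h8
  have hq : (z ^ 2 + 1) ^ 2 ≠ 0 := pow_ne_zero 2 h2
  have hn : -2 * (z ^ 6 - 1) ≠ 0 := mul_ne_zero (neg_ne_zero.2 h20) h6
  simp only [wt, hexW, hP, Wt.mk.injEq, div_pow]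
  refine ⟨?_, ?_, ?_, ?_, ?_⟩
  · rw [← div_eq_mul_inv, div_eq_div_iff hn hq, hv]
  · rw [← div_eq_mul_inv, div_eq_div_iff hn h2, hu]
  · rw [← div_eq_mul_inv, div_eq_div_iff hn hq]
    linear_combination hv
  · rw [← div_eq_mul_inv, div_eq_div_iff hn hq]
    linear_combination hv
  · ring

/-- The number exp(iπ/8). -/
theorem z8 : Complex.exp ((Real.pi / 8 : ℂ) * Complex.I) ^ 8 = -1 := by
  rw [← Complex.exp_nat_mul, ← Complex.exp_pi_mul_I]
  congr 1
  push_cast
  ring

theorem rwt_hex : rwt (Real.pi / 8) = hexW (HexObs.xc : ℂ) := by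
  set z := Complex.exp ((Real.pi / 8 : ℂ) * Complex.I) with hz
  have h8 : z ^ 8 = -1 := z8
  have h2 : z ^ 2 + 1 ≠ 0 := by
    intro h
    have e : z ^ 8 = 1 := by linear_combination (z ^ 6 - z ^ 4 + z ^ 2 - 1) * h
    rw [h8] at e
    norm_num at e
  have h6 : z ^ 6 - 1 ≠ 0 := by
    intro h
    have e : (z ^ 8) ^ 3 = 1 := by linear_combination (z ^ 18 + z ^ 12 + z ^ 6 + 1) * h
    rw [h8] at e
    norm_num at e
  have e1 : Complex.exp (Real.pi / 4 * Complex.I) = z ^ 2 := by
    rw [hz, ← Complex.exp_nat_mul]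
    congr 1
    push_cast
    ring
  have e2 : Complex.exp (3 * Real.pi / 8 * Complex.I) = z ^ 3 := by
    rw [hz, ← Complex.exp_nat_mul]
    congr 1
    push_cast
    ring
  have e3 : (HexObs.xc : ℂ) = z / (z ^ 2 + 1) := by
    have hz0 : z ≠ 0 := Complex.exp_ne_zero _
    have e4 : 2 * Complex.cos ((Real.pi / 8 : ℂ)) = z + z⁻¹ := by
      rw [Complex.two_cos, hz, ← Complex.exp_neg]
      congr 2
      ring
    unfold HexObs.xc
    push_cast
    rw [e4]
    field_simp
  unfold rwt Dn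
  rw [e1, e2, ← hz, wt_hex h8 h2 h6 two_ne_zero, e3]

/-! ### Change of the ring -/

section map

variable {α : Type*} [DecidableEq α] {K K' : Type*} [CommRing K] [CommRing K'] (f : K →+* K')

/-- weights in another ring. -/
def Wt.map (w : Wt K) : Wt K' where
  v := f w.v
  u1 := f w.u1
  u2 := f w.u2
  w1 := f w.w1
  w2 := f w.w2

theorem hexW_map (x : K) : (hexW x).map f = hexW (f x) := by
  simp only [Wt.map, hexW, map_pow, map_zero]

theorem R_map (w : Wt K) (i j : α) (F : Pat α → K) :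
    R (w.map f) i j (fun p => f (F p)) = fun p => f (R w i j F p) := by
  funext p
  simp only [R, Wt.map]
  split_ifs <;> simp only [map_add, map_mul]

theorem M_map (w : α → Wt K) (a : α) (L : List α) (F : Pat α → K) :
    M (fun j => (w j).map f) a L (fun p => f (F p)) = fun p => f (M w a L F p) := by
  induction L with
  | nil => rfl
  | cons j L ih => rw [M_cons, M_cons, ih, R_map]

theorem bc_map (c b : α) (F : Pat α → K) : bc c b (fun p => f (F p)) = fun p => f (bc c b F p) := by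
  funext p
  simp only [bc]
  split_ifs <;> simp only [map_add, map_zero]

theorem tc_map (c t : α) (F : Pat α → K) : tc c t (fun p => f (F p)) = fun p => f (tc c t F p) := by
  funext p
  simp only [tc]
  split_ifs <;> simp only [map_zero]

theorem CC_map (w : α → Wt K) (c b t : α) (L : List α) (F : Pat α → K) :
    HS.CC (fun j => (w j).map f) c b t L (fun p => f (F p)) = fun p => f (HS.CC w c b t L F p) := by
  unfold HS.CC
  rw [tc_map, M_map, bc_map]

end map

/-! ### Positivity -/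

section pos

variable {α : Type*} [DecidableEq α]

/-- positive weights. -/
structure Wt.Nn (w : Wt ℝ) : Prop where
  v : 0 ≤ w.v
  u1 : 0 ≤ w.u1
  u2 : 0 ≤ w.u2
  w1 : 0 ≤ w.w1
  w2 : 0 ≤ w.w2

theorem hexW_nn {x : ℝ} (h : 0 ≤ x) : (hexW x).Nn :=
  ⟨by simp only [hexW]; positivity, by simp only [hexW]; positivity, by simp only [hexW]; positivity,
    by simp only [hexW]; positivity, by simp only [hexW]; exact le_rfl⟩

theorem R_nn {w : Wt ℝ} (hw : w.Nn) (i j : α) {F : Pat α → ℝ} (hF : ∀ p, 0 ≤ F p) (p : Pat α) :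
    0 ≤ R w i j F p := by
  have h1 := hw.v
  have h2 := hw.u1
  have h3 := hw.u2
  have h4 := hw.w1
  have h5 := hw.w2
  simp only [R]
  split_ifs
  · exact add_nonneg (hF _) (mul_nonneg h3 (hF _))
  · exact add_nonneg (mul_nonneg h1 (hF _)) (mul_nonneg h2 (hF _))
  · exact add_nonneg (mul_nonneg h1 (hF _)) (mul_nonneg h2 (hF _))
  · exact mul_nonneg h4 (hF _)
  · exact add_nonneg (add_nonneg (mul_nonneg h4 (hF _)) (mul_nonneg h3 (hF _))) (mul_nonneg h5 (hF _))

theorem M_nn {w : α → Wt ℝ} (hw : ∀ j, (w j).Nn) (a : α) (L : List α) {F : Pat α → ℝ} (hF : ∀ p, 0 ≤ F p)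
    (p : Pat α) : 0 ≤ M w a L F p := by
  induction L generalizing p with
  | nil => exact hF p
  | cons j L ih => exact R_nn (hw j) a j ih p

theorem bc_nn (c b : α) {F : Pat α → ℝ} (hF : ∀ p, 0 ≤ F p) (p : Pat α) : 0 ≤ bc c b F p := by
  simp only [bc]
  split_ifs
  · exact add_nonneg (hF _) (hF _)
  · exact hF _
  · exact le_rfl

theorem tc_nn (c t : α) {F : Pat α → ℝ} (hF : ∀ p, 0 ≤ F p) (p : Pat α) : 0 ≤ tc c t F p := by
  simp only [tc]
  split_ifs
  · exact hF _
  · exact hF _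
  · exact le_rfl

theorem CC_nn {w : α → Wt ℝ} (hw : ∀ j, (w j).Nn) (c b t : α) (L : List α) {F : Pat α → ℝ}
    (hF : ∀ p, 0 ≤ F p) (p : Pat α) : 0 ≤ HS.CC w c b t L F p :=
  bc_nn c b (M_nn hw c L (tc_nn c t hF)) p

end pos

/-! ### The column of the honeycomb lattice -/

section col

/-- The rows from the floor to the top. -/
def rowsL (N : ℕ) : List (Site N) := (List.finRange N).map Site.row

theorem mem_rowsL {N : ℕ} {s : Site N} : s ∈ rowsL N ↔ ∃ i, s = Site.row i := by
  unfold rowsL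
  simp only [List.mem_map, List.mem_finRange, true_and]
  constructor
  · rintro ⟨i, rfl⟩
    exact ⟨i, rfl⟩
  · rintro ⟨i, rfl⟩
    exact ⟨i, rfl⟩

theorem M_rows {K : Type*} [CommRing K] {N : ℕ} (w : Wt K) (a : Site N) (l : List (Fin N)) (F : Pat (Site N) → K) :
    M (fun _ => w) a (l.map Site.row) F = l.foldr (fun i G => R w a (Site.row i) G) F := by
  induction l with
  | nil => rfl
  | cons i l ih => rw [List.map_cons, M_cons, List.foldr_cons, ih]

theorem colW_eq {K : Type*} [CommRing K] {N : ℕ} (w : Wt K) (F : Pat (Site N) → K) :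
    colW (fun _ => w) F = HS.CC (fun _ => w) (Site.ax 0) Site.fl Site.tp (rowsL N) F := by
  unfold colW HS.CC rowsL
  rw [M_rows]

theorem colH_eq (N : ℕ) : colH N = HS.CC (fun _ => hexW HexObs.xc) (Site.ax 0) Site.fl Site.tp (rowsL N) := by
  funext F
  exact colW_eq _ F

theorem good_colH (N : ℕ) : HS.Good Site.fl Site.tp (colH N) := by
  rw [colH_eq]
  apply HS.good_CC
  · simp
  · simp
  · simp
  · intro j hj
    obtain ⟨i, rfl⟩ := mem_rowsL.1 hj
    simp

/-- the column over the complex numbers. -/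
noncomputable def colC (N : ℕ) : (Pat (Site N) → ℂ) → (Pat (Site N) → ℂ) :=
  HS.CC (fun _ => hexW (HexObs.xc : ℂ)) (Site.ax 0) Site.fl Site.tp (rowsL N)

theorem good_colC (N : ℕ) : HS.Good Site.fl Site.tp (colC N) := by
  unfold colC
  apply HS.good_CC
  · simp
  · simp
  · simp
  · intro j hj
    obtain ⟨i, rfl⟩ := mem_rowsL.1 hj
    simp

theorem colC_ofReal (N : ℕ) (F : Pat (Site N) → ℝ) :
    colC N (fun p => (F p : ℂ)) = fun p => (colH N F p : ℂ) := by
  have h := CC_map Complex.ofRealHom (fun _ => hexW HexObs.xc) (Site.ax 0 : Site N) Site.fl Site.tp (rowsL N) F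
  rw [hexW_map] at h
  rw [colH_eq]
  exact h

/-- the concrete column of helper8 at the honeycomb point. -/
theorem ops_C_apply {ι α : Type*} [DecidableEq ι] [DecidableEq α] (L : LabMap ι α) (z : ι → ℂ) (c : ι)
    {rows : List ι} (hc : c ∉ rows) (hz : ∀ i ∈ rows, z i = Real.pi / 16) (F : Pat α → ℂ) :
    (ops L).C z c rows F =
      HS.CC (fun _ => hexW (HexObs.xc : ℂ)) (L.lab c) L.flo L.cei (rows.map L.lab) F := by
  have key : ∀ G : Pat α → ℂ, (ops L).M z c (ops L).h rows G =
      M (fun _ => hexW (HexObs.xc : ℂ)) (L.lab c) (rows.map L.lab) G := by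
    intro G
    induction rows with
    | nil => rfl
    | cons r rows ih =>
      have hcr : c ≠ r := fun e => hc (by simp [e])
      rw [Glob.Ops.M_cons, Module.End.mul_apply, ih (fun h => hc (by simp [h])) (fun i hi => hz i (by simp [hi])),
        List.map_cons, M_cons, ops_R hcr, mk_apply, ops_h, hz r (by simp)]
      rw [show (3 * Real.pi / 16 - Real.pi / 16 : ℂ) = Real.pi / 8 by ring, rwt_hex]
  unfold Glob.Ops.C HS.CC
  rw [Module.End.mul_apply, Module.End.mul_apply, key]
  rfl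

end col

/-! ### From the real to the complex numbers -/

namespace HS

variable {α : Type*} [DecidableEq α] {b t : α} {A : Pat α → Prop} {X : (Pat α → ℝ) → (Pat α → ℝ)}
  {Y : (Pat α → ℂ) → (Pat α → ℂ)}

omit [DecidableEq α] in
theorem cx_split (hY : Lin Y) (h : ∀ F : Pat α → ℝ, Y (fun p => (F p : ℂ)) = fun p => (X F p : ℂ)) (G : Pat α → ℂ)
    (p : Pat α) : Y G p = (X (fun q => (G q).re) p : ℂ) + Complex.I * (X (fun q => (G q).im) p : ℂ) := by
  have e : G = fun q => (1 : ℂ) * ((G q).re : ℂ) + Complex.I * ((G q).im : ℂ) := by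
    funext q
    rw [one_mul, mul_comm Complex.I]
    exact (Complex.re_add_im (G q)).symm
  conv_lhs => rw [e]
  rw [hY 1 Complex.I (fun q => ((G q).re : ℂ)) (fun q => ((G q).im : ℂ)), h, h]
  simp only [one_mul]

omit [DecidableEq α] in
theorem inj_cx (hY : Lin Y) (h : ∀ F : Pat α → ℝ, Y (fun p => (F p : ℂ)) = fun p => (X F p : ℂ))
    (inj : Inj b t A X) : Inj b t A Y := by
  intro G h0 h1 p
  have key : ∀ q, Live b t q → A q → X (fun q => (G q).re) q = (G q).re ∧ X (fun q => (G q).im) q = (G q).im := by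
    intro q hq hA
    have h2 := h1 q hq hA
    rw [cx_split hY h] at h2
    constructor
    · have := congrArg Complex.re h2
      simpa using this
    · have := congrArg Complex.im h2
      simpa using this
  apply Complex.ext
  · exact inj (fun q => (G q).re) (fun q hq => by rw [h0 q hq]; rfl) (fun q hq hA => (key q hq hA).1) p
  · exact inj (fun q => (G q).im) (fun q hq => by rw [h0 q hq]; rfl) (fun q hq hA => (key q hq hA).2) p

theorem half_cx (h : ∀ F : Pat α → ℝ, Y (fun p => (F p : ℂ)) = fun p => (X F p : ℂ)) {β : ℝ}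
    {F : Pat α → ℝ} (hF : Half b t A X β F) : Half b t A Y (β : ℂ) (fun p => (F p : ℂ)) where
  dead p hp hd := by rw [hF.dead p hp hd, Complex.ofReal_zero]
  fullv := by rw [hF.fullv, Complex.ofReal_one]
  eq p hp hne := by
    rw [h]
    show (X F p : ℂ) = _
    rw [hF.eq p hp hne]
  emp := by
    rw [h]
    show (X F Pat.empty : ℂ) = _
    rw [hF.emp, Complex.ofReal_add]

end HS

end Pool.Agent.EXL
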