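import Pool.Agent.EXL.Ops
import Pool.Agent.PHW.Defs

/-!
# The sites of the strip and the honeycomb column (board EXI: common definitions)
-/

set_option autoImplicit false

namespace Pool.Agent.EXL

open Pat

/-- The sites: the end at the floor, the end at the top, the rows, auxiliary lines. -/
inductive Site (N : ℕ) : Type
  | fl : Site N
  | tp : Site N
  | row : Fin N → Site N
  | ax : Fin 6 → Site N
  deriving DecidableEq

namespace Site

/-- The sites as a finite type. -/
def equiv (N : ℕ) : Site N ≃ (Unit ⊕ Unit) ⊕ (Fin N ⊕ Fin 6) where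
  toFun s := match s with
    | fl => Sum.inl (Sum.inl ())
    | tp => Sum.inl (Sum.inr ())
    | row i => Sum.inr (Sum.inl i)
    | ax k => Sum.inr (Sum.inr k)
  invFun s := match s with
    | Sum.inl (Sum.inl _) => fl
    | Sum.inl (Sum.inr _) => tp
    | Sum.inr (Sum.inl i) => row i
    | Sum.inr (Sum.inr k) => ax k
  left_inv s := by cases s <;> rfl
  right_inv s := by rcases s with (_ | _) | (_ | _) <;> rfl

instance (N : ℕ) : Fintype (Site N) := Fintype.ofEquiv _ (equiv N).symm

/-- The height of a site. -/
def rk {N : ℕ} : Site N → ℤ
  | fl => 0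
  | tp => 2 * N + 2
  | row i => 2 * (i : ℤ) + 2
  | ax k => -1 - (k : ℤ)

end Site

/-- The states form a finite type. -/
noncomputable instance (α : Type*) [Finite α] : Finite (Pat α) :=
  Finite.of_injective (fun p : Pat α => p.f) (fun _ _ h => Pat.ext h)

noncomputable instance (α : Type*) [Finite α] : Fintype (Pat α) := Fintype.ofFinite _

/-- The weights of the honeycomb rhombus. -/
def hexW {K : Type*} [CommRing K] (x : K) : Wt K where
  v := x ^ 2
  u1 := x
  u2 := x ^ 2
  w1 := x ^ 2
  w2 := 0

/-- A vertical line with the weights w i at the row i, between the bottom end and the top end of an ordinary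
column. -/
def colW {K : Type*} [CommRing K] {N : ℕ} (w : Fin N → Wt K) (F : Pat (Site N) → K) : Pat (Site N) → K :=
  bc (Site.ax 0) Site.fl ((List.finRange N).foldr (fun i G => R (w i) (Site.ax 0) (Site.row i) G)
    (tc (Site.ax 0) Site.tp F))

/-- The column of the honeycomb lattice. -/
noncomputable def colH (N : ℕ) : (Pat (Site N) → ℝ) → (Pat (Site N) → ℝ) := colW (fun _ => hexW HexObs.xc)

/-- The state with a completed walk from the floor to the top. -/
def fullS (N : ℕ) : Pat (Site N) := cup Site.fl Site.tp empty

/-- The indicator of a state. -/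
noncomputable def ind {α K : Type*} [CommRing K] (q : Pat α) : Pat α → K := by
  classical
  exact fun p => if p = q then 1 else 0

/-- The total weight of the walks from the floor to the top in m columns of the honeycomb strip with N rows. -/
noncomputable def Zm (N m : ℕ) : ℝ := (colH N)^[m] (ind (fullS N)) empty

/-- A completed walk and at least one more arc. -/
def Dead {N : ℕ} (p : Pat (Site N)) : Prop :=
  p Site.fl = Site.tp ∧ ∃ k, k ≠ Site.fl ∧ k ≠ Site.tp ∧ p k ≠ k

/-- All auxiliary sites are empty. -/
def AxE {N : ℕ} (p : Pat (Site N)) : Prop := ∀ k, p (Site.ax k) = Site.ax k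

end Pool.Agent.EXL
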