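import Pool.Agent.EXL.Planar
import Pool.Agent.EXL.H1c

/-!
# The columns and the double columns preserve planarity
-/

set_option autoImplicit false

namespace Pool.Agent.EXL

open _root_.Pool.Agent.EXL.Pat HS

namespace Wd

variable {α : Type*} [DecidableEq α] {D : Set α} {r r' : α → ℤ} {a i j x y : α} {L L2 : List α}

/-- exchange of the ranks. -/
def rsw (r : α → ℤ) (i j : α) : α → ℤ := fun x => r (Equiv.swap i j x)

/-- the line `a` moves above the rows of the list. -/
def mv (a : α) : List α → (α → ℤ) → (α → ℤ)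
  | [], r => r
  | j :: L, r => mv a L (rsw r a j)

/-- no value of `D` strictly between `u` and `v`. -/
def Gap (D : Set α) (r : α → ℤ) (u v : ℤ) : Prop :=
  ∀ k ∈ D, ¬ (u < r k ∧ r k < v) ∧ ¬ (v < r k ∧ r k < u)

/-- `y` is the next site after `x`. -/
def Nx (D : Set α) (r : α → ℤ) (x y : α) : Prop := r x < r y ∧ Gap D r (r x) (r y)

omit [DecidableEq α] in
theorem Nx.adj (h : Nx D r x y) : Adj D r x y := h.2

theorem gap_rsw (hi : i ∈ D) (hj : j ∈ D) {u v : ℤ} : Gap D (rsw r i j) u v ↔ Gap D r u v := by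
  constructor
  · intro h k hk
    have := h (Equiv.swap i j k) ((swap_mem_iff hi hj k).2 hk)
    unfold rsw at this
    rwa [Equiv.swap_apply_self] at this
  · intro h k hk
    exact h (Equiv.swap i j k) ((swap_mem_iff hi hj k).2 hk)

theorem gap_mv (ha : a ∈ D) (hL : ∀ j ∈ L, j ∈ D) {u v : ℤ} :
    Gap D (mv a L r) u v ↔ Gap D r u v := by
  induction L generalizing r with
  | nil => exact Iff.rfl
  | cons j L ih =>
    unfold mv
    rw [ih (fun k hk => hL k (by simp [hk])), gap_rsw ha (hL j (by simp))]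

theorem inj_rsw (hr : Set.InjOn r D) (hi : i ∈ D) (hj : j ∈ D) : Set.InjOn (rsw r i j) D := by
  intro x hx y hy h
  exact (Equiv.swap i j).injective
    (hr ((swap_mem_iff hi hj x).2 hx) ((swap_mem_iff hi hj y).2 hy) h)

theorem inj_mv (hr : Set.InjOn r D) (ha : a ∈ D) (hL : ∀ j ∈ L, j ∈ D) :
    Set.InjOn (mv a L r) D := by
  induction L generalizing r with
  | nil => exact hr
  | cons j L ih =>
    exact ih (inj_rsw hr ha (hL j (by simp))) (fun k hk => hL k (by simp [hk]))

theorem rsw_out (h1 : x ≠ i) (h2 : x ≠ j) : rsw r i j x = r x := by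
  unfold rsw
  rw [Equiv.swap_apply_of_ne_of_ne h1 h2]

theorem rsw_left : rsw r i j i = r j := by
  unfold rsw
  rw [Equiv.swap_apply_left]

theorem rsw_right : rsw r i j j = r i := by
  unfold rsw
  rw [Equiv.swap_apply_right]

theorem mv_out (h1 : x ≠ a) (h2 : x ∉ L) : mv a L r x = r x := by
  induction L generalizing r with
  | nil => rfl
  | cons j L ih =>
    unfold mv
    rw [ih (fun h => h2 (by simp [h])), rsw_out h1 (fun h => h2 (by simp [h]))]

/-- the list is an interval of consecutive sites. -/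
abbrev Asc (D : Set α) (r : α → ℤ) (L : List α) : Prop := L.IsChain (Nx D r)

omit [DecidableEq α] in
theorem asc_congr (h : ∀ y ∈ L, r' y = r y) (hg : ∀ u v, Gap D r u v → Gap D r' u v)
    (hL : Asc D r L) : Asc D r' L := by
  induction L with
  | nil => exact List.isChain_nil
  | cons x L ih =>
    cases L with
    | nil => exact List.isChain_singleton x
    | cons y L =>
      unfold Asc at hL ⊢
      rw [List.isChain_cons_cons] at hL ⊢
      refine ⟨?_, ih (fun z hz => h z (List.mem_cons_of_mem _ hz)) hL.2⟩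
      unfold Nx
      rw [h x (by simp), h y (by simp)]
      exact ⟨hL.1.1, hg _ _ hL.1.2⟩

/-- one step of the line `a`. -/
theorem asc_step (ha : a ∈ D) (hj : j ∈ D) (h1 : a ∉ L) (h2 : j ∉ L)
    (h : Asc D r (a :: j :: L)) : Asc D (rsw r a j) (a :: L) := by
  unfold Asc at h ⊢
  rw [List.isChain_cons_cons] at h
  cases L with
  | nil => exact List.isChain_singleton a
  | cons x L =>
    have h' := h.2
    rw [List.isChain_cons_cons] at h' ⊢
    have hx1 : x ≠ a := fun e => h1 (by simp [e])
    have hx2 : x ≠ j := fun e => h2 (by simp [e])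
    refine ⟨?_, ?_⟩
    · unfold Nx
      rw [rsw_left, rsw_out hx1 hx2, gap_rsw ha hj]
      exact h'.1
    · apply asc_congr _ (fun u v => (gap_rsw ha hj).2) h'.2
      intro y hy
      exact rsw_out (fun e => h1 (e ▸ hy)) (fun e => h2 (e ▸ hy))

/-- after the line `a` has moved. -/
theorem asc_mv_append (ha : a ∈ D) (hL : ∀ j ∈ L, j ∈ D) (h1 : a ∉ L ++ L2)
    (h2 : (L ++ L2).Nodup) (h : Asc D r (a :: (L ++ L2))) : Asc D (mv a L r) (a :: L2) := by
  induction L generalizing r with
  | nil => exact h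
  | cons j L ih =>
    rw [List.cons_append, List.nodup_cons] at h2
    exact ih (fun k hk => hL k (by simp [hk])) (fun h => h1 (by
      rw [List.cons_append]; exact List.mem_cons_of_mem _ h)) h2.2
      (asc_step ha (hL j (by simp)) (fun h => h1 (by
        rw [List.cons_append]; exact List.mem_cons_of_mem _ h)) h2.1 h)

/-- after the line `a` has moved, the site `x` below sees the rows, then `a`. -/
theorem asc_mv (ha : a ∈ D) (hL : ∀ j ∈ L, j ∈ D) (h1 : a ∉ L ++ L2)
    (h2 : (L ++ L2).Nodup) (h3 : x ∉ a :: (L ++ L2)) (h : Asc D r (x :: a :: (L ++ L2))) :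
    Asc D (mv a L r) (x :: (L ++ a :: L2)) := by
  induction L generalizing r x with
  | nil => exact h
  | cons j L ih =>
    rw [List.cons_append, List.nodup_cons] at h2
    have hj := hL j (by simp)
    have hja : j ≠ a := fun e => h1 (by simp [e])
    have hxa : x ≠ a := fun e => h3 (by simp [e])
    have hxj : x ≠ j := fun e => h3 (by simp [e])
    have hxL : x ∉ L := fun e => h3 (by simp [e])
    have hjL : j ∉ L := fun e => h2.1 (by simp [e])
    have haL : a ∉ L ++ L2 := fun h => h1 (by rw [List.cons_append]; exact List.mem_cons_of_mem _ h)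
    have hL' : ∀ k ∈ L, k ∈ D := fun k hk => hL k (by simp [hk])
    unfold Asc at h ⊢
    rw [List.isChain_cons_cons] at h
    have h4 := h.2
    rw [List.cons_append, List.isChain_cons_cons] at h4 ⊢
    refine ⟨?_, ?_⟩
    · show Nx D (mv a L (rsw r a j)) x j
      unfold Nx
      rw [mv_out hxa hxL, mv_out hja hjL, rsw_out hxa hxj, rsw_right, gap_mv ha hL', gap_rsw ha hj]
      exact h.1
    · apply ih hL' haL h2.2
      · intro h5
        rcases List.mem_cons.1 h5 with h5 | h5
        · exact hja h5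
        · exact h2.1 h5
      · refine List.isChain_cons_cons.2 ⟨?_, ?_⟩
        · unfold Nx
          rw [rsw_left, rsw_right, gap_rsw ha hj]
          exact h4.1
        · exact asc_step ha hj haL h2.1 h.2

/-- the order of the other sites does not change. -/
theorem ordEq_rsw (hr : Set.InjOn r D) (ha : a ∈ D) (hj : j ∈ D) (h : Nx D r a j) :
    OrdEq (D \ {a}) r (rsw r a j) := by
  have key : ∀ x ∈ D \ {a}, rsw r a j x = if x = j then r a else r x := by
    intro x hx
    by_cases h1 : x = j
    · rw [if_pos h1, h1, rsw_right]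
    · rw [if_neg h1, rsw_out hx.2 h1]
  intro x hx y hy
  rw [key x hx, key y hy]
  have hn : ∀ z ∈ D \ {a}, z ≠ j → (r z ≠ r a ∧ r z ≠ r j ∧ ¬ (r a < r z ∧ r z < r j)) := by
    intro z hz hzj
    exact ⟨fun e => hz.2 (hr hz.1 ha e), fun e => hzj (hr hz.1 hj e), (h.2 z hz.1).1⟩
  have h0 := h.1
  by_cases h1 : x = j
  · by_cases h2 : y = j
    · rw [if_pos h1, if_pos h2, h1, h2]
      simp
    · rw [if_pos h1, if_neg h2, h1]
      have := hn y hy h2
      omega
  · by_cases h2 : y = j
    · rw [if_neg h1, if_pos h2, h2]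
      have := hn x hx h1
      omega
    · rw [if_neg h1, if_neg h2]

theorem ordEq_mv (hr : Set.InjOn r D) (ha : a ∈ D) (hL : ∀ j ∈ L, j ∈ D) (h1 : a ∉ L)
    (h2 : L.Nodup) (h : Asc D r (a :: L)) : OrdEq (D \ {a}) r (mv a L r) := by
  induction L generalizing r with
  | nil => exact fun x _ y _ => Iff.rfl
  | cons j L ih =>
    rw [List.nodup_cons] at h2
    have hj := hL j (by simp)
    have h3 : a ∉ L := fun e => h1 (by simp [e])
    have e1 := ordEq_rsw hr ha hj (List.isChain_cons_cons.1 h).1
    have e2 := ih (inj_rsw hr ha hj) (fun k hk => hL k (by simp [hk])) h3 h2.2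
      (asc_step ha hj h3 h2.1 h)
    exact fun x hx y hy => (e1 x hx y hy).trans (e2 x hx y hy)

variable {K : Type*} [CommRing K]

theorem pres_M (w : α → Wt K) (hr : Set.InjOn r D) (ha : a ∈ D) (hL : ∀ j ∈ L, j ∈ D)
    (h1 : a ∉ L) (h2 : L.Nodup) (h : Asc D r (a :: L)) :
    Pres (K := K) (PD D r) (PD D (mv a L r)) (M w a L) := by
  induction L generalizing r with
  | nil => exact Pres.id _
  | cons j L ih =>
    rw [List.nodup_cons] at h2
    have hj := hL j (by simp)
    have h3 : a ∉ L := fun e => h1 (by simp [e])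
    have hja : a ≠ j := fun e => h1 (by simp [e])
    exact (pres_R (w j) hja hr ha hj (List.isChain_cons_cons.1 h).1.adj).comp
      (ih (inj_rsw hr ha hj) (fun k hk => hL k (by simp [hk])) h3 h2.2
        (asc_step ha hj h3 h2.1 h))

/-- removal of an empty site. -/
theorem PD.remove {p : Pat α} (h : PD D r' p) (ha : p a = a) (ho : OrdEq (D \ {a}) r r') :
    PD (D \ {a}) r p := by
  have h1 : PD (D \ {a}) r' p := by
    refine ⟨?_, h.nc⟩
    intro x hx
    by_cases h2 : x ∈ D
    · have : x = a := by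
        by_contra h3
        exact hx ⟨h2, h3⟩
      rw [this, ha]
    · exact h.out x h2
  exact h1.congr fun x hx y hy => (ho x hx y hy).symm

omit [DecidableEq α] in
theorem PD.mono {D' : Set α} {p : Pat α} (h : PD D r p) (hD : D ⊆ D') : PD D' r p :=
  ⟨fun x hx => h.out x fun h' => hx (hD h'), h.nc⟩

/-- The ordinary column preserves planarity. -/
theorem pres_CC (w : α → Wt K) {b c t : α} (hr : Set.InjOn r D) (hc : c ∈ D) (hb : b ∈ D)
    (ht : t ∈ D) (hL : ∀ j ∈ L, j ∈ D) (h1 : c ∉ L ++ [t]) (h2 : (L ++ [t]).Nodup)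
    (h : Asc D r (b :: c :: (L ++ [t]))) :
    Pres (K := K) (PD (D \ {c}) r) (PD (D \ {c}) r) (CC w c b t L) := by
  have h3 := List.isChain_cons_cons.1 h
  have hcL : c ∉ L := fun e => h1 (by simp [e])
  have hLn : L.Nodup := (List.nodup_append.1 h2).1
  have hasc : Asc D r (c :: L) := by
    have := h3.2
    rw [← List.cons_append] at this
    exact (List.isChain_append.1 this).1
  have e1 := pres_bc (K := K) hr hc hb h3.1.adj
  have e2 := pres_M w hr hc hL hcL hLn hasc
  have h4 := asc_mv_append hc hL h1 h2 h3.2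
  have e3 := pres_tc (K := K) (inj_mv hr hc hL) hc ht (List.isChain_cons_cons.1 h4).1.adj
  apply (e1.comp (e2.comp e3)).mono
  · intro p hp
    exact PD.mono hp Set.sdiff_subset
  · rintro p ⟨hp, hpc⟩
    exact PD.remove hp hpc (ordEq_mv hr hc hL hcL hLn hasc)

/-- The double column preserves planarity. -/
theorem pres_TT (kb kb' kt kt' : K) (wr wl : α → Wt K) {b l n t : α} (hr : Set.InjOn r D)
    (hl : l ∈ D) (hn : n ∈ D) (hb : b ∈ D) (ht : t ∈ D) (hL : ∀ j ∈ L, j ∈ D)
    (h1 : l ∉ n :: (L ++ [t])) (h2 : n ∉ L ++ [t]) (h3 : (L ++ [t]).Nodup)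
    (h : Asc D r (b :: l :: n :: (L ++ [t]))) :
    Pres (K := K) (PD ((D \ {n}) \ {l}) r) (PD ((D \ {n}) \ {l}) r)
      (TT kb kb' kt kt' wr wl l n b t L) := by
  have h4 := List.isChain_cons_cons.1 h
  have h5 := List.isChain_cons_cons.1 h4.2
  have hnL : n ∉ L := fun e => h2 (by simp [e])
  have hlL : l ∉ L := fun e => h1 (by simp [e])
  have hln : l ≠ n := fun e => h1 (by simp [e])
  have hlt : l ≠ t := fun e => h1 (by simp [e])
  have hnt : n ≠ t := fun e => h2 (by simp [e])
  have hLn : L.Nodup := (List.nodup_append.1 h3).1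
  have hasc : Asc D r (n :: L) := by
    have := h5.2
    rw [← List.cons_append] at this
    exact (List.isChain_append.1 this).1
  have e1 := pres_bot kb kb' hr hl hn hb h5.1.adj h4.1.adj h4.1.1 h5.1.1
  have e2 := pres_M wr hr hn hL hnL hLn hasc
  -- the second line
  have h6 : Asc D (mv n L r) (l :: (L ++ [n, t])) := asc_mv hn hL h2 h3 h1 h4.2
  have hr1 := inj_mv (L := L) hr hn hL
  have hasc2 : Asc D (mv n L r) (l :: L) := by
    rw [← List.cons_append] at h6
    exact (List.isChain_append.1 h6).1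
  have e3 := pres_M wl hr1 hl hL hlL hLn hasc2
  have hr2 := inj_mv (L := L) hr1 hl hL
  have h7 : Asc D (mv l L (mv n L r)) (l :: [n, t]) := by
    apply asc_mv_append hl hL _ _ h6
    · simp [hlL, hln, hlt]
    · have h3' := h3
      rw [List.nodup_append] at h3' ⊢
      refine ⟨hLn, by simp [hnt], ?_⟩
      intro x hx y hy
      rcases List.mem_cons.1 hy with rfl | hy
      · rintro rfl
        exact hnL hx
      · exact h3'.2.2 x hx y hy
  have h8 := List.isChain_cons_cons.1 h7
  have h9 := List.isChain_cons_cons.1 h8.2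
  have e4 := pres_top kt kt' hr2 hl hn ht h8.1.adj h9.1.adj h9.1.1 h8.1.1
  apply (e1.comp (e2.comp (e3.comp e4))).mono
  · intro p hp
    exact PD.mono hp (Set.sdiff_subset.trans Set.sdiff_subset)
  · rintro p ⟨hp, hpl, hpn⟩
    have o1 := ordEq_mv hr hn hL hnL hLn hasc
    have o2 := ordEq_mv hr1 hl hL hlL hLn hasc2
    have p1 := PD.remove (r := mv n L r) hp hpl o2
    -- remove n
    refine ⟨?_, ?_⟩
    · intro x hx
      by_cases hxn : x = n
      · rw [hxn, hpn]
      · apply p1.out
        intro h'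
        exact hx ⟨⟨h'.1, hxn⟩, h'.2⟩
    · apply nc_congr _ p1.nc
      intro x y hx hy
      have hx' : x ∈ D \ {n} := ⟨(p1.occ hx).1, fun e => hx (by rw [Set.mem_singleton_iff.1 e, hpn])⟩
      have hy' : y ∈ D \ {n} := ⟨(p1.occ hy).1, fun e => hy (by rw [Set.mem_singleton_iff.1 e, hpn])⟩
      exact (o1 x hx' y hy').symm

end Wd

end Pool.Agent.EXL
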