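import Pool.Agent.EXL.H1e
import Pool.Agent.EXL.Words
import Pool.Agent.EXL.Site

/-!
# The setting for the strip with `N` rows
-/

namespace Pool.Agent.EXL

open _root_.Pool.Agent.EXL.Pat

/-- the labels: the rows and the auxiliary lines. -/
abbrev LbN (N : ℕ) := Fin N ⊕ Fin 6

/-- the labels as sites. -/
def LN (N : ℕ) : LabMap (LbN N) (Site N) where
  lab := Sum.elim Site.row Site.ax
  flo := Site.fl
  cei := Site.tp
  inj := by
    rintro (i | i) (j | j) h
    · simp only [Sum.elim_inl, Site.row.injEq] at h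
      rw [h]
    · simp at h
    · simp at h
    · simp only [Sum.elim_inr, Site.ax.injEq] at h
      rw [h]
  ne_flo := by rintro (i | i) <;> simp
  ne_cei := by rintro (i | i) <;> simp
  flo_ne := by simp

/-- the rows, from the floor to the top. -/
def rowsN (N : ℕ) : List (LbN N) := (List.finRange N).map Sum.inl

/-- the auxiliary lines. -/
def axN (N : ℕ) : Set (LbN N) := Set.range Sum.inr

/-- the sites of the boundary. -/
def DN (N : ℕ) : Set (Site N) := {s | ∀ k, s ≠ Site.ax k}

/-- the admissible states. -/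
def AN (N : ℕ) : Pat (Site N) → Prop := PD (DN N) Site.rk

/-- the rows as sites. -/
def LsN (N : ℕ) : List (Site N) := (List.finRange N).map Site.row

theorem rowsN_map (N : ℕ) : (rowsN N).map (LN N).lab = LsN N := by
  unfold rowsN LsN
  rw [List.map_map]
  rfl

theorem AN_empty (N : ℕ) : AN N Pat.empty := by
  refine ⟨fun _ _ => rfl, ?_⟩
  intro a b h1 h2
  exact ⟨h1, h2⟩

theorem AN_full (N : ℕ) : AN N (HS.full Site.fl Site.tp) := by
  refine ⟨?_, ?_⟩
  · intro x hx
    unfold DN at hx
    simp only [Set.mem_ofPred_eq, not_forall, not_not] at hx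
    obtain ⟨k, rfl⟩ := hx
    rw [HS.full_apply, if_neg (by simp), if_neg (by simp)]
  · intro a b h1 h2
    rw [HS.full_apply] at h2 ⊢
    rw [HS.full_apply]
    by_cases ha : a = Site.fl
    · subst ha
      rw [if_pos rfl] at h2 ⊢
      by_cases hb : b = Site.fl
      · subst hb; omega
      · rw [if_neg hb]
        by_cases hb2 : b = Site.tp
        · subst hb2; omega
        · rw [if_neg hb2]
          exact ⟨h1, h2⟩
    · rw [if_neg ha] at h2 ⊢
      by_cases ha2 : a = Site.tp
      · subst ha2
        rw [if_pos rfl] at h2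
        simp only [Site.rk] at h1 h2
        omega
      · rw [if_neg ha2] at h2
        omega

theorem row_notMem (N : ℕ) (i : LbN N) (hi : i ∈ axN N) : i ∉ rowsN N := by
  obtain ⟨k, rfl⟩ := hi
  unfold rowsN
  simp

theorem setupN_aux (N : ℕ) (hC : ∀ (w : Site N → Wt ℂ) (k : Fin 6),
      HS.Pres (AN N) (AN N) (HS.CC w (Site.ax k) Site.fl Site.tp (LsN N)))
    (hT : ∀ (kb kb' kt kt' : ℂ) (wr wl : Site N → Wt ℂ) (k l : Fin 6), k ≠ l →
      HS.Pres (AN N) (AN N) (TT kb kb' kt kt' wr wl (Site.ax k) (Site.ax l) Site.fl Site.tp (LsN N))) :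
    HS.Setup (LN N) (rowsN N) (axN N) (AN N) where
  nodup := (List.nodup_finRange N).map Sum.inl_injective
  nmem := row_notMem N
  third := by
    intro i j
    have h : ∀ x : LbN N, ∃ u : Fin 6, ∀ k, k ≠ u → (Sum.inr k : LbN N) ≠ x := by
      rintro (x | x)
      · exact ⟨0, fun k _ h => by simp at h⟩
      · exact ⟨x, fun k hk h => hk (by simpa using h)⟩
    obtain ⟨u, hu⟩ := h i
    obtain ⟨u', hu'⟩ := h j
    have : ∃ k : Fin 6, k ≠ u ∧ k ≠ u' := by
      clear hu hu'
      revert u u'
      decide
    obtain ⟨k, hk, hk'⟩ := this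
    exact ⟨Sum.inr k, ⟨k, rfl⟩, hu k hk, hu' k hk'⟩
  full := AN_full N
  empty := AN_empty N
  aux := by
    rintro p hp i ⟨k, rfl⟩
    apply hp.out
    intro h
    exact h k rfl
  presC := by
    rintro z i ⟨k, rfl⟩
    have e : (fun F => (ops (LN N)).C z (Sum.inr k) (rowsN N) F) = _ :=
      funext (HS.ops_C_apply z (row_notMem N _ ⟨k, rfl⟩))
    rw [e, rowsN_map]
    exact hC _ k
  presT := by
    rintro z v i ⟨k, rfl⟩ j ⟨l, rfl⟩ hij
    have hkl : k ≠ l := fun h => hij (by rw [h])
    have e : (fun F => (ops (LN N)).T z (Sum.inr k) (Sum.inr l) v (rowsN N) F) = _ :=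
      funext (HS.ops_T_apply z v hij (row_notMem N _ ⟨k, rfl⟩) (row_notMem N _ ⟨l, rfl⟩))
    rw [e, rowsN_map]
    exact hT _ _ _ _ _ _ k l hkl

/-! ### Planarity -/

namespace Wd

variable {N : ℕ} {r : Site N → ℤ} {D : Set (Site N)}

theorem getElem_LsN (i : ℕ) (h : i < (LsN N ++ [Site.tp]).length)
    (h1 : ∀ i : Fin N, r (Site.row i) = 4 * (i : ℤ) + 4) (h2 : r Site.tp = 4 * (N : ℤ) + 4) :
    r ((LsN N ++ [Site.tp])[i]) = 4 * (i : ℤ) + 4 := by
  have hlen : (LsN N).length = N := by simp [LsN]
  rw [List.length_append, hlen] at h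
  by_cases hi : i < N
  · rw [List.getElem_append_left (by rw [hlen]; exact hi)]
    have : (LsN N)[i]'(by rw [hlen]; exact hi) = Site.row ⟨i, hi⟩ := by
      simp [LsN]
    rw [this, h1]
  · have hi' : i = N := by
      simp only [List.length_cons, List.length_nil] at h
      omega
    subst hi'
    rw [List.getElem_append_right (by rw [hlen])]
    simp [h2]

theorem asc_rows (h1 : ∀ i : Fin N, r (Site.row i) = 4 * (i : ℤ) + 4)
    (h2 : r Site.tp = 4 * (N : ℤ) + 4) (hD : ∀ x ∈ D, r x = 1 ∨ r x = 2 ∨ 4 ∣ r x) :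
    Asc D r (LsN N ++ [Site.tp]) := by
  unfold Asc
  rw [List.isChain_iff_getElem]
  intro i hi
  unfold Nx
  rw [getElem_LsN i (by omega) h1 h2, getElem_LsN (i + 1) hi h1 h2]
  push_cast
  refine ⟨by omega, ?_⟩
  intro k hk
  have := hD k hk
  omega

theorem head_rows (h1 : ∀ i : Fin N, r (Site.row i) = 4 * (i : ℤ) + 4)
    (h2 : r Site.tp = 4 * (N : ℤ) + 4) {y : Site N} (hy : y ∈ (LsN N ++ [Site.tp]).head?) :
    r y = 4 := by
  rw [List.head?_eq_getElem?, Option.mem_def, List.getElem?_eq_some_iff] at hy
  obtain ⟨h, rfl⟩ := hy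
  rw [getElem_LsN 0 h h1 h2]
  simp

/-- the ranks: the auxiliary lines `k`, `l` are just above the floor. -/
def rkl (k l : Fin 6) : Site N → ℤ
  | Site.fl => 0
  | Site.tp => 4 * (N : ℤ) + 4
  | Site.row i => 4 * (i : ℤ) + 4
  | Site.ax m => if m = k then 1 else if m = l then 2 else 0

theorem ordEq_rkl (k l : Fin 6) : OrdEq (DN N) Site.rk (rkl k l) := by
  have key : ∀ x ∈ DN N, rkl k l x = if x = Site.fl then 0 else 2 * Site.rk x := by
    intro x hx
    cases x with
    | fl => simp [rkl]
    | tp => simp [rkl, Site.rk]; ring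
    | row i => simp [rkl, Site.rk]; ring
    | ax m => exact absurd rfl (hx m)
  have key2 : ∀ x ∈ DN N, rkl k l x = 2 * Site.rk x := by
    intro x hx
    rw [key x hx]
    by_cases h : x = Site.fl
    · rw [if_pos h, h]; rfl
    · rw [if_neg h]
  intro x hx y hy
  rw [key2 x hx, key2 y hy]
  omega

theorem pd_iff (k l : Fin 6) {p : Pat (Site N)} : PD (DN N) (rkl k l) p ↔ AN N p :=
  ⟨fun h => h.congr fun x hx y hy => (ordEq_rkl k l x hx y hy).symm,
    fun h => h.congr (ordEq_rkl k l)⟩

theorem rkl_div (k l : Fin 6) (x : Site N) : rkl k l x = 1 ∨ rkl k l x = 2 ∨ 4 ∣ rkl k l x := by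
  cases x with
  | fl => right; right; exact ⟨0, rfl⟩
  | tp => right; right; exact ⟨(N : ℤ) + 1, by simp only [rkl]; ring⟩
  | row i => right; right; exact ⟨(i : ℤ) + 1, by simp only [rkl]; ring⟩
  | ax m =>
    simp only [rkl]
    split_ifs
    · left; rfl
    · right; left; rfl
    · right; right; exact ⟨0, rfl⟩

/-- the sites with the lines `k`, `l`. -/
def Dkl (N : ℕ) (k l : Fin 6) : Set (Site N) :=
  {s | ∀ m, s = Site.ax m → m = k ∨ m = l}

theorem inj_rkl (k l : Fin 6) : Set.InjOn (rkl k l) (Dkl N k l) := by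
  intro x hx y hy h
  have hk : ∀ m : Fin 6, (Site.ax m : Site N) ∈ Dkl N k l → m = k ∨ m = l := fun m h => h m rfl
  cases x with
  | fl =>
    cases y with
    | fl => rfl
    | tp => simp only [rkl] at h; omega
    | row i => simp only [rkl] at h; omega
    | ax m =>
      simp only [rkl] at h
      rcases hk m hy with h' | h'
      · rw [if_pos h'] at h; omega
      · by_cases h2 : m = k
        · rw [if_pos h2] at h; omega
        · rw [if_neg h2, if_pos h'] at h; omega
  | tp =>
    cases y with
    | fl => simp only [rkl] at h; omega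
    | tp => rfl
    | row i => simp only [rkl] at h; have := i.2; omega
    | ax m =>
      simp only [rkl] at h
      split_ifs at h <;> omega
  | row i =>
    cases y with
    | fl => simp only [rkl] at h; omega
    | tp => simp only [rkl] at h; have := i.2; omega
    | row j =>
      simp only [rkl] at h
      have : (i : ℕ) = j := by omega
      rw [Fin.ext this]
    | ax m =>
      simp only [rkl] at h
      split_ifs at h <;> omega
  | ax m =>
    cases y with
    | fl =>
      simp only [rkl] at h
      rcases hk m hx with h' | h'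
      · rw [if_pos h'] at h; omega
      · by_cases h2 : m = k
        · rw [if_pos h2] at h; omega
        · rw [if_neg h2, if_pos h'] at h; omega
    | tp =>
      simp only [rkl] at h
      split_ifs at h <;> omega
    | row i =>
      simp only [rkl] at h
      split_ifs at h <;> omega
    | ax n =>
      simp only [rkl] at h
      have e1 := hk m hx
      have e2 := hk n hy
      by_cases h1 : m = k
      · by_cases h2 : n = k
        · rw [h1, h2]
        · rw [if_pos h1, if_neg h2] at h
          split_ifs at h <;> omega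
      · by_cases h2 : n = k
        · rw [if_neg h1, if_pos h2] at h
          split_ifs at h <;> omega
        · rw [e1.resolve_left h1, e2.resolve_left h2]

theorem fl_mem (k l : Fin 6) : (Site.fl : Site N) ∈ Dkl N k l := fun m h => by cases h
theorem tp_mem (k l : Fin 6) : (Site.tp : Site N) ∈ Dkl N k l := fun m h => by cases h
theorem row_mem (k l : Fin 6) (i : Fin N) : (Site.row i : Site N) ∈ Dkl N k l :=
  fun m h => by cases h

theorem ls_mem (k l : Fin 6) : ∀ j ∈ LsN N, j ∈ Dkl N k l := by
  intro j hj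
  unfold LsN at hj
  obtain ⟨i, _, rfl⟩ := List.mem_map.1 hj
  exact row_mem k l i

theorem ax_notMem (k : Fin 6) : (Site.ax k : Site N) ∉ LsN N ++ [Site.tp] := by
  simp [LsN]

theorem nodup_LsN : (LsN N ++ [Site.tp]).Nodup := by
  rw [List.nodup_append]
  refine ⟨(List.nodup_finRange N).map (fun i j h => by simpa using h), by simp, ?_⟩
  intro x hx y hy
  unfold LsN at hx
  obtain ⟨i, _, rfl⟩ := List.mem_map.1 hx
  rw [List.mem_singleton] at hy
  subst hy
  simp

theorem diff1 (k : Fin 6) : Dkl N k k \ {Site.ax k} = DN N := by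
  ext s
  constructor
  · intro h m hm
    have h1 := h.1 m hm
    have h2 : m = k := by rcases h1 with h1 | h1 <;> exact h1
    exact h.2 (by rw [hm, h2]; rfl)
  · intro h
    exact ⟨fun m hm => absurd hm (h m), fun hm => h k hm⟩

theorem diff2 (k l : Fin 6) : (Dkl N k l \ {Site.ax l}) \ {Site.ax k} = DN N := by
  ext s
  constructor
  · intro h m hm
    rcases h.1.1 m hm with h1 | h1
    · exact h.2 (by rw [hm, h1]; rfl)
    · exact h.1.2 (by rw [hm, h1]; rfl)
  · intro h
    exact ⟨⟨fun m hm => absurd hm (h m), fun hm => h l hm⟩, fun hm => h k hm⟩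

end Wd

open Wd

theorem presC_N (N : ℕ) {K : Type*} [CommRing K] (w : Site N → Wt K) (k : Fin 6) :
    HS.Pres (AN N) (AN N) (HS.CC w (Site.ax k) Site.fl Site.tp (LsN N)) := by
  have hrow : ∀ i : Fin N, rkl k k (Site.row i) = 4 * (i : ℤ) + 4 := fun _ => rfl
  have htp : rkl k k (Site.tp : Site N) = 4 * (N : ℤ) + 4 := rfl
  have hax : rkl k k (Site.ax k : Site N) = 1 := by simp [rkl]
  have hasc : Asc (Dkl N k k) (rkl k k) (Site.fl :: Site.ax k :: (LsN N ++ [Site.tp])) := by
    refine List.isChain_cons_cons.2 ⟨?_, ?_⟩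
    · unfold Nx
      rw [hax]
      refine ⟨by simp only [rkl]; omega, ?_⟩
      intro x _
      have := rkl_div k k x
      simp only [rkl]
      omega
    · refine List.isChain_cons.2 ⟨?_, ?_⟩
      · intro y hy
        unfold Nx
        rw [hax, head_rows hrow htp hy]
        refine ⟨by omega, ?_⟩
        intro x hx
        have h2 : rkl k k x ≠ 2 := by
          cases x with
          | fl => simp [rkl]
          | tp => simp only [rkl]; omega
          | row i => simp only [rkl]; omega
          | ax m =>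
            have : m = k := by rcases hx m rfl with h | h <;> exact h
            simp [rkl, this]
        have := rkl_div k k x
        omega
      · exact asc_rows hrow htp fun x _ => rkl_div k k x
  have key := pres_CC (K := K) w (inj_rkl k k) (c := Site.ax k) (b := Site.fl) (t := Site.tp)
    (fun m h => by left; simpa using h.symm) (fl_mem k k) (tp_mem k k) (ls_mem k k) (ax_notMem k)
    nodup_LsN hasc
  rw [diff1] at key
  exact key.mono (fun p hp => (pd_iff k k).2 hp) (fun p hp => (pd_iff k k).1 hp)

theorem presT_N (N : ℕ) {K : Type*} [CommRing K] (kb kb' kt kt' : K) (wr wl : Site N → Wt K)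
    (k l : Fin 6) (hkl : k ≠ l) :
    HS.Pres (AN N) (AN N)
      (TT kb kb' kt kt' wr wl (Site.ax k) (Site.ax l) Site.fl Site.tp (LsN N)) := by
  have hrow : ∀ i : Fin N, rkl k l (Site.row i) = 4 * (i : ℤ) + 4 := fun _ => rfl
  have htp : rkl k l (Site.tp : Site N) = 4 * (N : ℤ) + 4 := rfl
  have hax : rkl k l (Site.ax k : Site N) = 1 := by simp [rkl]
  have hax2 : rkl k l (Site.ax l : Site N) = 2 := by simp [rkl, hkl.symm]
  have hasc : Asc (Dkl N k l) (rkl k l)
      (Site.fl :: Site.ax k :: Site.ax l :: (LsN N ++ [Site.tp])) := by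
    refine List.isChain_cons_cons.2 ⟨?_, List.isChain_cons_cons.2 ⟨?_, ?_⟩⟩
    · unfold Nx
      rw [hax]
      refine ⟨by simp only [rkl]; omega, ?_⟩
      intro x _
      have := rkl_div k l x
      simp only [rkl]
      omega
    · unfold Nx
      rw [hax, hax2]
      refine ⟨by omega, ?_⟩
      intro x _
      omega
    · refine List.isChain_cons.2 ⟨?_, ?_⟩
      · intro y hy
        unfold Nx
        rw [hax2, head_rows hrow htp hy]
        refine ⟨by omega, ?_⟩
        intro x _
        have := rkl_div k l x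
        omega
      · exact asc_rows hrow htp fun x _ => rkl_div k l x
  have key := pres_TT (K := K) kb kb' kt kt' wr wl (inj_rkl k l) (l := Site.ax k) (n := Site.ax l)
    (b := Site.fl) (t := Site.tp) (fun m h => by left; simpa using h.symm)
    (fun m h => by right; simpa using h.symm) (fl_mem k l) (tp_mem k l) (ls_mem k l)
    (by
      intro h
      rcases List.mem_cons.1 h with h | h
      · exact hkl (by simpa using h)
      · exact ax_notMem k h) (ax_notMem l) nodup_LsN hasc
  rw [diff2] at key
  exact key.mono (fun p hp => (pd_iff k l).2 hp) (fun p hp => (pd_iff k l).1 hp)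

/-- The setting for the strip with `N` rows. -/
theorem setupN (N : ℕ) : HS.Setup (LN N) (rowsN N) (axN N) (AN N) :=
  setupN_aux N (fun w k => presC_N N w k)
    (fun kb kb' kt kt' wr wl k l hkl => presT_N N kb kb' kt kt' wr wl k l hkl)

end Pool.Agent.EXL
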