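import Pool.Agent.EXL.CoReach
import Pool.Agent.EXL.HexCol
import Pool.Agent.EXL.H1f
import Pool.Agent.EXL.SetN

/-!
# Every planar state is reached from the empty state (board EXI, I3a)
-/

set_option autoImplicit false

namespace Pool.Agent.EXL

open Pat Site

section general

variable {α : Type*} {r : α → ℤ} {D : Set α} {p : Pat α}

/-- A non-empty planar state has an innermost arc. -/
theorem exists_innermost (hr : Set.InjOn r D) (hp : PD D r p) (hne : ∃ x, p x ≠ x) :
    ∃ x y, p x = y ∧ r x < r y ∧ ∀ k, r x < r k → r k < r y → p k = k := by
  classical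
  have hex : ∃ n : ℕ, ∃ x y, p x = y ∧ r x < r y ∧ (r y - r x).toNat = n := by
    obtain ⟨x, hx⟩ := hne
    have hx' : p (p x) ≠ p x := by rw [p.inv]; exact fun e => hx e.symm
    rcases lt_or_gt_of_ne (fun e => hx' (by
      have := hr (hp.occ hx) (hp.occ hx') e
      rw [p.inv]; exact this)) with h | h
    · exact ⟨_, x, p x, rfl, h, rfl⟩
    · exact ⟨_, p x, x, p.inv x, h, rfl⟩
  obtain ⟨x, y, hxy, hlt, hn⟩ := Nat.find_spec hex
  refine ⟨x, y, hxy, hlt, fun k h1 h2 => ?_⟩
  by_contra hk
  have h3 := hp.nc x k h1 (by rw [hxy]; exact h2)
  rw [hxy] at h3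
  have hk' : p (p k) ≠ p k := by rw [p.inv]; exact fun e => hk e.symm
  have hmin : ∀ x' y', p x' = y' → r x' < r y' → (r y - r x).toNat ≤ (r y' - r x').toNat := by
    intro x' y' h4 h5
    rw [hn]
    exact Nat.find_min' hex ⟨x', y', h4, h5, rfl⟩
  rcases lt_or_gt_of_ne (fun e => hk' (by
      have := hr (hp.occ hk) (hp.occ hk') e
      rw [p.inv]; exact this)) with h | h
  · have := hmin k (p k) rfl h
    omega
  · have := hmin (p k) k (p.inv k) h
    omega

variable [DecidableEq α]

/-- Removal of an arc. -/
def rem (x y : α) (p : Pat α) (h : p x = y) : Pat α where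
  f z := if z = x then x else if z = y then y else p z
  inv z := by
    have h1 : p y = x := by rw [← h, p.inv]
    have h2 := p.inv z
    split_ifs <;> grind

variable {x y : α}

theorem rem_apply (h : p x = y) (z : α) :
    rem x y p h z = if z = x then x else if z = y then y else p z := rfl

theorem cup_rem (h : p x = y) (hxy : x ≠ y) : cup x y (rem x y p h) = p := by
  have h1 : p y = x := by rw [← h, p.inv]
  have e1 : rem x y p h x = x := by rw [rem_apply, if_pos rfl]
  have e2 : rem x y p h y = y := by rw [rem_apply, if_neg hxy.symm, if_pos rfl]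
  ext z
  rw [pcup_apply e1 e2, rem_apply]
  split_ifs with h2 h3
  · rw [h2, h]
  · rw [h3, h1]
  · rfl

theorem pd_rem (hp : PD D r p) (h : p x = y) : PD D r (rem x y p h) := by
  have h1 : p y = x := by rw [← h, p.inv]
  refine ⟨fun z hz => ?_, ?_⟩
  · rw [rem_apply]
    split_ifs with h2 h3
    · exact h2.symm
    · exact h3.symm
    · exact hp.out z hz
  · intro a b hab hba
    rw [rem_apply] at hba ⊢
    rw [rem_apply]
    by_cases ha : a = x
    · rw [if_pos ha, ← ha] at hba; omega
    by_cases ha' : a = y
    · rw [if_neg ha, if_pos ha', ← ha'] at hba; omega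
    rw [if_neg ha, if_neg ha'] at hba ⊢
    by_cases hb : b = x
    · rw [if_pos hb, ← hb]; exact ⟨hab, hba⟩
    by_cases hb' : b = y
    · rw [if_neg hb, if_pos hb', ← hb']; exact ⟨hab, hba⟩
    rw [if_neg hb, if_neg hb']
    exact hp.nc a b hab hba

end general

variable {N : ℕ} {p : Pat (Site N)}

theorem rk_injOn : Set.InjOn (Site.rk (N := N)) (DN N) := by
  intro x hx y hy h
  cases x with
  | fl =>
    cases y with
    | fl => rfl
    | tp => simp only [Site.rk] at h; omega
    | row j => simp only [Site.rk] at h; omega
    | ax k => exact absurd rfl (hy k)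
  | tp =>
    cases y with
    | fl => simp only [Site.rk] at h; omega
    | tp => rfl
    | row j => simp only [Site.rk] at h; have := j.2; omega
    | ax k => exact absurd rfl (hy k)
  | row i =>
    cases y with
    | fl => simp only [Site.rk] at h; omega
    | tp => simp only [Site.rk] at h; have := i.2; omega
    | row j =>
      simp only [Site.rk] at h
      congr 1
      exact Fin.ext (by omega)
    | ax k => exact absurd rfl (hy k)
  | ax k => exact absurd rfl (hx k)

theorem AN_axE (h : AN N p) : AxE p := fun k => h.out _ (fun h' => h' k rfl)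

/-- Every planar state other than those with a completed walk is reached from the empty state. -/
theorem leads_from_empty : ∀ (n : ℕ) (p : Pat (Site N)),
    (Finset.univ.filter (fun s => p s ≠ s)).card ≤ n → AN N p → p fl ≠ tp →
    ∃ a : ℕ, Leads ((colH N)^[a]) Pat.empty p := by
  classical
  intro n
  induction n with
  | zero =>
    intro p hn _ _
    have he : p = Pat.empty := by
      ext s
      by_contra hs
      have : s ∈ Finset.univ.filter (fun s => p s ≠ s) := Finset.mem_filter.2 ⟨Finset.mem_univ _, hs⟩
      rw [Finset.card_eq_zero.1 (Nat.le_zero.1 hn)] at this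
      exact absurd this (Finset.notMem_empty _)
    exact ⟨0, by rw [he]; exact Leads.id _⟩
  | succ n ih =>
    intro p hn hA hl
    by_cases he : p = Pat.empty
    · exact ⟨0, by rw [he]; exact Leads.id _⟩
    obtain ⟨x, y, hxy, hlt, hbet⟩ := exists_innermost rk_injOn hA (HS.Pat.ne_empty_iff.1 he)
    have hne : x ≠ y := fun e => by rw [e] at hlt; exact lt_irrefl _ hlt
    set q := rem x y p hxy with hq
    have hyx : p y = x := by rw [← hxy, p.inv]
    have qx : q x = x := by rw [hq, rem_apply, if_pos rfl]
    have qy : q y = y := by rw [hq, rem_apply, if_neg hne.symm, if_pos rfl]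
    have qo : ∀ z, p z = z → q z = z := by
      intro z hz
      rw [hq, rem_apply]
      split_ifs with h2 h3
      · exact h2.symm
      · exact h3.symm
      · exact hz
    have hqA : AN N q := pd_rem hA hxy
    have hqax := AN_axE hqA
    have hql : q fl ≠ tp := by
      intro e
      rw [hq, rem_apply] at e
      split_ifs at e with h2 h3
      · exact fl_ne_tp (h2.trans e)
      · exact fl_ne_tp (h3.trans e)
      · exact hl e
    have hcard : (Finset.univ.filter (fun s => q s ≠ s)).card ≤ n := by
      have : (Finset.univ.filter (fun s => q s ≠ s)).card <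
          (Finset.univ.filter (fun s => p s ≠ s)).card := by
        apply Finset.card_lt_card
        rw [Finset.ssubset_iff_of_subset]
        · refine ⟨x, Finset.mem_filter.2 ⟨Finset.mem_univ _, by rw [hxy]; exact hne.symm⟩, ?_⟩
          intro h
          exact (Finset.mem_filter.1 h).2 qx
        · intro s hs
          exact Finset.mem_filter.2 ⟨Finset.mem_univ _, fun e => (Finset.mem_filter.1 hs).2 (qo s e)⟩
      omega
    obtain ⟨a, ha⟩ := ih q hcard hqA hql
    have hcup : cup x y q = p := cup_rem hxy hne
    have hrow : ∀ k : Fin N, rk x < rk (row k) → rk (row k) < rk y → q (row k) = row k :=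
      fun k h1 h2 => qo _ (hbet _ h1 h2)
    have key : Leads (colH N) q p := by
      rw [← hcup]
      have hxD := hA.occ (x := x) (by rw [hxy]; exact hne.symm)
      have hyD := hA.occ (x := y) (by rw [hyx]; exact hne)
      cases x with
      | fl =>
        cases y with
        | fl => exact absurd rfl hne
        | tp => exact absurd hxy hl
        | row j =>
          refine move_floor_create (hqax 0) qx qy (fun k hk => hrow k ?_ ?_)
          · simp only [Site.rk]; omega
          · simp only [Site.rk]
            have : (k : ℕ) < j := hk
            omega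
        | ax k => exact absurd rfl (hyD k)
      | tp =>
        exfalso
        cases y with
        | fl => simp only [Site.rk] at hlt; omega
        | tp => exact hne rfl
        | row j => simp only [Site.rk] at hlt; have := j.2; omega
        | ax k => exact absurd rfl (hyD k)
      | row i =>
        cases y with
        | fl => exfalso; simp only [Site.rk] at hlt; omega
        | tp =>
          refine move_top_create (hqax 0) qy qx (fun k hk => hrow k ?_ ?_)
          · simp only [Site.rk]
            have : (i : ℕ) < k := hk
            omega
          · simp only [Site.rk]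
            have := k.2
            omega
        | row j =>
          have hij : i < j := by
            simp only [Site.rk] at hlt
            exact Fin.lt_def.2 (by omega)
          refine move_create hij (hqax 0) qx qy (fun k hk1 hk2 => hrow k ?_ ?_)
          · simp only [Site.rk]
            have : (i : ℕ) < k := hk1
            omega
          · simp only [Site.rk]
            have : (k : ℕ) < j := hk2
            omega
        | ax k => exact absurd rfl (hyD k)
      | ax k => exact absurd rfl (hxD k)
    have h1 : Leads ((colH N)^[1]) q p := key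
    exact ⟨a + 1, Leads.iterate_add pos_colH ha h1⟩

/-- Reachability. -/
theorem reach (N : ℕ) : HS.Reach (AN N) fl tp (colH N) := by
  classical
  intro p hp hA
  obtain ⟨a, w, hw, h⟩ := leads_from_empty _ p le_rfl hA hp.1
  refine ⟨a, w, hw, fun F hF => ?_⟩
  have hG := (good_colH N).iterate a
  -- decomposition of `F`
  set E : Pat (Site N) → ℝ := fun q => if q = Pat.empty then 1 else 0 with hE
  set F' : Pat (Site N) → ℝ := fun q => if q = Pat.empty then 0 else F q with hF'
  have e1 : F = fun q => F' q + F Pat.empty * E q := by
    funext q
    simp only [hE, hF']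
    by_cases hq : q = Pat.empty
    · rw [if_pos hq, if_pos hq, hq]; ring
    · rw [if_neg hq, if_neg hq]; ring
  have e2 : (colH N)^[a] E = E := hG.emp E (fun q hq => by simp only [hE, if_neg hq])
  have e3 : (colH N)^[a] F = fun q => (colH N)^[a] F' q + F Pat.empty * (colH N)^[a] E q := by
    conv_lhs => rw [e1]
    exact hG.lin.addSmul F' E (F Pat.empty)
  rw [e3, e2]
  have h1 := h F' (fun s => by
    simp only [hF']
    split_ifs
    · exact le_rfl
    · exact hF s)
  have h2 : F' p = F p := by simp only [hF', if_neg hp.2]
  have h3 : E Pat.empty = 1 := by simp only [hE, if_true]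
  rw [h2] at h1
  simp only [h3, mul_one]
  linarith

end Pool.Agent.EXL
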