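import Pool.Agent.EXL.SetN
import Pool.Agent.EXL.Ident
import Pool.Agent.EXL.Reach
import Pool.Agent.EXL.CoReach
import Pool.Agent.EXL.LawsInst
import Pool.Agent.EXL.GlLat
import Pool.Agent.EXL.FinalPre

/-!
# Glue: the lattice side for the strip with `N` rows (helper43)
-/

set_option autoImplicit false

open Real Filter Topology

namespace Pool.Agent.EXL.Glue

/-- the column at `π/16` is the honeycomb column -/
theorem opsC_eq (N : ℕ) : (fun F => (ops (LN N)).C (fun _ => ((π / 16 : ℝ) : ℂ)) (Sum.inr 0)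
    (rowsN N) F) = colC N := by
  funext F
  rw [ops_C_apply (LN N) (fun _ => ((π / 16 : ℝ) : ℂ)) (Sum.inr 0)
    (row_notMem N _ ⟨0, rfl⟩) (fun _ _ => by push_cast; rfl) F, rowsN_map]
  rfl

theorem aux4N (N : ℕ) : Aux4 (axN N) (rowsN N) (Sum.inr 1) (Sum.inr 2) (Sum.inr 3) (Sum.inr 4) where
  mi := ⟨1, rfl⟩
  mj := ⟨2, rfl⟩
  mi' := ⟨3, rfl⟩
  mj' := ⟨4, rfl⟩
  ij := by simp
  ii := by simp
  ij' := by simp
  ji' := by simp
  jj' := by simp
  ij2 := by simp
  ri := row_notMem N _ ⟨1, rfl⟩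
  rj := row_notMem N _ ⟨2, rfl⟩
  ri' := row_notMem N _ ⟨3, rfl⟩
  rj' := row_notMem N _ ⟨4, rfl⟩

theorem presH (N : ℕ) : HS.Pres (AN N) (AN N) (colH N) := by
  rw [colH_eq]
  exact presC_N N _ 0

/-- **The lattice side** for the critical weights `bT N` of the bridges of the honeycomb strip. -/
theorem latRel : LatRel (fun N => HexObs.bT N) := by
  intro N hN
  refine lat_at (setupN N) (Ins.laws (LN N)) (row := fun i => Sum.inl i) Sum.inl_injective rfl
    (aux4N N) (c := Sum.inr 0) ⟨0, rfl⟩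
    (F₀ := fun p => (HS.Flim Site.fl Site.tp (AN N) (colH N) p : ℂ)) ?_ ?_
  · rw [opsC_eq]
    exact inj_colC hN (AN_full N) (AN_empty N) (presH N) (reach N) (coReach fun p h => AN_axE h)
  · rw [opsC_eq]
    exact half_colC hN (AN_full N) (AN_empty N) (presH N) (reach N)

/-- the node relation of (P) for `bT` -/
theorem relE_bT : RelE (fun N => HexObs.bT N) := nodeRelE bT_zero latRel

end Pool.Agent.EXL.Glue
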