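import Pool.Agent.EXL.FormOps
import Pool.Agent.EXL.Col

/-!
# The weights as functions of the rapidity, and columns with polynomial weights

`Wc u` = the weights of the rhombus with rapidity `u` (empty rhombus: 1), `Dn u` the denominator,
`Wn u` the numerators.
-/

namespace Pool.Agent.EXL.Fm

open Polynomial Complex Pat

variable {α : Type*} [DecidableEq α]

/-- `π / 8`. -/
noncomputable def lam : ℂ := (Real.pi : ℂ) / 8

/-- The denominator of the weights. -/
noncomputable def Dn (u : ℂ) : ℂ := sin (2 * lam + u) * sin (3 * lam + u)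

/-- The numerators of the weights. -/
noncomputable def Wn (u : ℂ) : Wt ℂ where
  v := sin u * sin (3 * lam - u)
  u1 := sin (2 * lam) * sin (3 * lam - u)
  u2 := sin (2 * lam) * sin u
  w1 := sin (2 * lam - u) * sin (3 * lam - u)
  w2 := sin u * sin (u - lam)

/-- The weights of the rhombus with rapidity `u`. -/
noncomputable def Wc (u : ℂ) : Wt ℂ := (Wn u).sc (Dn u)⁻¹

theorem Wc_sc {u : ℂ} (h : Dn u ≠ 0) : (Wc u).sc (Dn u) = Wn u := by
  simp only [Wc, Wt.sc, mul_inv_cancel_left₀ h]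

/-- `ω = e^{iπ/4}`. -/
noncomputable def om : ℂ := exp (I * (2 * lam))

/-- `s = e^{3iπ/8}`. -/
noncomputable def ss : ℂ := exp (I * (3 * lam))

theorem exp_8lam : exp (I * (8 * lam)) = -1 := by
  rw [lam, show I * (8 * ((Real.pi : ℂ) / 8)) = Real.pi * I by ring, exp_pi_mul_I]

theorem om_pow : om ^ 4 = -1 := by
  rw [om, ← exp_nat_mul, ← exp_8lam]; congr 1; push_cast; ring

theorem ss_sq : ss ^ 2 = om ^ 3 := by
  rw [om, ss, ← exp_nat_mul, ← exp_nat_mul]; congr 1; push_cast; ring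

/-- `2 i sin u` -/
theorem two_I_sin (u : ℂ) : 2 * I * sin u = exp (I * u) - exp (-(I * u)) := by
  rw [Complex.sin, show u * I = I * u by ring, show -u * I = -(I * u) by ring]
  linear_combination (exp (-(I * u)) - exp (I * u)) * I_sq

theorem exp_sq_sub_one (u : ℂ) : exp (I * u) ^ 2 - 1 = 2 * I * sin u * exp (I * u) := by
  rw [two_I_sin, sub_mul, ← exp_add, ← exp_add, neg_add_cancel, exp_zero, ← exp_nat_mul]
  push_cast; ring_nf

theorem exp_sub_exp (a b : ℂ) :
    exp (I * (2 * a)) - exp (I * (2 * b)) = 2 * I * sin (a - b) * exp (I * (a + b)) := by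
  rw [two_I_sin, sub_mul, ← exp_add, ← exp_add]
  congr 2 <;> ring

theorem PP_exp (u : ℂ) : PP om (exp (I * u)) = -4 * Dn u * exp (I * (5 * lam + 2 * u)) := by
  have e1 : om ^ 2 * exp (I * u) ^ 2 - 1 = 2 * I * sin (2 * lam + u) * exp (I * (2 * lam + u)) := by
    rw [← exp_sq_sub_one, om, ← exp_nat_mul, ← exp_nat_mul, ← exp_nat_mul, ← exp_add]
    congr 2; push_cast; ring
  have e2 : om ^ 3 * exp (I * u) ^ 2 - 1 = 2 * I * sin (3 * lam + u) * exp (I * (3 * lam + u)) := by
    rw [← exp_sq_sub_one, om, ← exp_nat_mul, ← exp_nat_mul, ← exp_nat_mul, ← exp_add]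
    congr 2; push_cast; ring
  rw [PP, e1, e2, Dn, show I * (5 * lam + 2 * u) = I * (2 * lam + u) + I * (3 * lam + u) by ring,
    exp_add]
  linear_combination (4 * sin (2 * lam + u) * sin (3 * lam + u) * exp (I * (2 * lam + u)) *
    exp (I * (3 * lam + u))) * I_sq

theorem om_exp (n : ℕ) : om ^ n = exp (I * (2 * (n * lam))) := by
  rw [om, ← exp_nat_mul]; congr 1; ring

theorem om_sub (n : ℕ) (u : ℂ) : om ^ n - exp (I * u) ^ 2 =
    2 * I * sin (n * lam - u) * exp (I * (n * lam + u)) := by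
  rw [← exp_sub_exp, om_exp, ← exp_nat_mul]
  congr 2; push_cast; ring

theorem om_sub_one : om ^ 2 - 1 = 2 * I * sin (2 * lam) * exp (I * (2 * lam)) := by
  rw [om, exp_sq_sub_one]

theorem wt_eq (u : ℂ) : wt om ss (exp (I * u)) (PP om (exp (I * u)))⁻¹ = Wc u := by
  set E := exp (I * (5 * lam + 2 * u)) with hE
  have hE0 : E ≠ 0 := exp_ne_zero _
  have e2 := om_sub 2 u
  have e3 := om_sub 3 u
  have e1 := om_sub 1 u
  have e0 := exp_sq_sub_one u
  have eo := om_sub_one
  push_cast at e1 e2 e3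
  rw [pow_one, one_mul] at e1
  have X1 : exp (I * (2 * lam)) * exp (I * u) * exp (I * (3 * lam + u)) = E := by
    rw [hE, ← exp_add, ← exp_add]; congr 1; ring
  have X2 : exp (I * (3 * lam)) * exp (I * u) * exp (I * (2 * lam)) * exp (I * u) = E := by
    rw [hE, ← exp_add, ← exp_add, ← exp_add]; congr 1; ring
  have X3 : exp (I * (2 * lam + u)) * exp (I * (3 * lam + u)) = E := by
    rw [hE, ← exp_add]; congr 1; ring
  have X4 : om ^ 2 * exp (I * u) * exp (I * (lam + u)) = E := by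
    rw [hE, om_exp, ← exp_add, ← exp_add]; congr 1; push_cast; ring
  have n1 : om * (exp (I * u) ^ 2 - 1) * (om ^ 3 - exp (I * u) ^ 2) =
      -4 * (sin u * sin (3 * lam - u)) * E := by
    rw [e0, e3, ← X1, om]
    linear_combination (4 * sin u * sin (3 * lam - u) * exp (I * (2 * lam)) * exp (I * u) *
      exp (I * (3 * lam + u))) * I_sq
  have n2 : (om ^ 2 - 1) * exp (I * u) * (om ^ 3 - exp (I * u) ^ 2) =
      -4 * (sin (2 * lam) * sin (3 * lam - u)) * E := by
    rw [eo, e3, ← X1]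
    linear_combination (4 * sin (2 * lam) * sin (3 * lam - u) * exp (I * (2 * lam)) *
      exp (I * u) * exp (I * (3 * lam + u))) * I_sq
  have n3 : ss * exp (I * u) * (om ^ 2 - 1) * (exp (I * u) ^ 2 - 1) =
      -4 * (sin (2 * lam) * sin u) * E := by
    rw [eo, e0, ← X2, ss]
    linear_combination (4 * sin (2 * lam) * sin u * (exp (I * (3 * lam)) * exp (I * u) *
      exp (I * (2 * lam)) * exp (I * u))) * I_sq
  have n4 : (om ^ 2 - exp (I * u) ^ 2) * (om ^ 3 - exp (I * u) ^ 2) =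
      -4 * (sin (2 * lam - u) * sin (3 * lam - u)) * E := by
    rw [e2, e3, ← X3]
    linear_combination (4 * sin (2 * lam - u) * sin (3 * lam - u) * (exp (I * (2 * lam + u)) *
      exp (I * (3 * lam + u)))) * I_sq
  have n5 : -(om ^ 2 * (exp (I * u) ^ 2 - 1) * (om - exp (I * u) ^ 2)) =
      -4 * (sin u * sin (u - lam)) * E := by
    rw [e0, e1, ← X4, show sin (u - lam) = - sin (lam - u) by rw [← sin_neg]; ring_nf]
    linear_combination (-4 * sin u * sin (lam - u) * (om ^ 2 * exp (I * u) *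
      exp (I * (lam + u)))) * I_sq
  have hi : ∀ x : ℂ, -4 * x * E * (-4 * Dn u * E)⁻¹ = (Dn u)⁻¹ * x := by
    intro x
    rw [mul_inv, mul_inv]
    field_simp
  rw [PP_exp, ← hE, Wc, Wt.sc, Wn, wt, n1, n2, n3, n4]
  have n5' : -(om ^ 2 * (exp (I * u) ^ 2 - 1) * (om - exp (I * u) ^ 2)) * (-4 * Dn u * E)⁻¹ =
      (Dn u)⁻¹ * (sin u * sin (u - lam)) := by rw [n5, hi]
  simp only [hi, n5']

end Pool.Agent.EXL.Fm
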