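import Pool.Agent.EXL.FinalPre
import Pool.Agent.EXL.GlFin
import Pool.Agent.Ex.P2Main

/-!
# EXL, integration: the one-arm exponent 1/4 of the bridges of the critical honeycomb lattice

`HexObs.bT N` is the total weight (at `x = 1/√(2+√2)`, with the convention of
`Pool.Agent.HexPoly`) of the self-avoiding bridges of the strip of width `N`.  The lattice
relation of the diagonal kernels (`Pool.Agent.EXL.Glue.relE_bT`) and the real analysis of
`Pool.Agent.Ex.P2Main` give two-sided bounds `N^(-1/4)` for it.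
-/

namespace Pool.Agent.EXL

/-- **The one-arm exponent**: `bT N ≍ N^(-1/4)` for all `N ≥ 1`. -/
theorem bridge_exponent :
    ∃ C : ℝ, 0 < C ∧ ∀ T : ℕ, 1 ≤ T →
      (T : ℝ) ^ (-(1 / 4) : ℝ) / C ≤ HexObs.bT T ∧
        HexObs.bT T ≤ C * (T : ℝ) ^ (-(1 / 4) : ℝ) :=
  Ex.P2.main (A := fun N => HexObs.bT N) (B := fun N => HexObs.bT N)
    (fun n => HexObs.bT_nonneg n) (fun _ _ h => bT_anti h) (fun _ => rfl) Glue.relE_bT

end Pool.Agent.EXL
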