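import Pool.Agent.EXL.ClTool

/-!
# Closing (block (C) of board/EXL): the residuals belong to the class `FF`
-/

open Filter Topology

namespace Pool.Agent.EXL.Cl

noncomputable section

variable {N : ℕ}

/-! ## the kernel `Dh` -/

theorem ze_three : ze ^ 3 = Complex.I * ze := by
  have : ze ^ 3 = ze ^ 2 * ze := by ring
  rw [this, ze_sq]

theorem ze_five : ze ^ 5 = - ze := by
  have : ze ^ 5 = ze ^ 4 * ze := by ring
  rw [this, ze_pow_four]; ring

theorem ze3_sub_ze5 : ze ^ 3 - ze ^ 5 = Complex.I * (Real.sqrt 2 : ℂ) := by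
  have h := ze35
  have h2 : (Real.sqrt 2 : ℂ) = -(ze ^ 3 + ze ^ 5) := by rw [h]; ring
  rw [h2, ze_three, ze_five]
  linear_combination (ze) * Complex.I_sq

theorem sqrt2_ne : (Real.sqrt 2 : ℂ) ≠ 0 := by
  intro h
  have := sqrt2_sq
  rw [h] at this
  norm_num at this

theorem ze3_ne_ze5 : ze ^ 3 ≠ ze ^ 5 := by
  intro h
  have := ze3_sub_ze5
  rw [h, sub_self] at this
  exact mul_ne_zero Complex.I_ne_zero sqrt2_ne this.symm

theorem Dh_eq (z : ℂ) :
    Dh z = -(2 * (Real.sqrt 2 : ℂ)) * z / ((z - ze ^ 3) * (z - ze ^ 5)) := by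
  rw [Dh, quad_fac]

theorem Dh_inv (z : ℂ) : Dh z⁻¹ = Dh z := by
  rcases eq_or_ne z 0 with rfl | hz
  · simp
  · unfold Dh
    have h : (z⁻¹) ^ 2 + (Real.sqrt 2 : ℂ) * z⁻¹ + 1
        = (z ^ 2 + (Real.sqrt 2 : ℂ) * z + 1) / z ^ 2 := by
      field_simp
      ring
    rw [h, div_div_eq_mul_div]
    congr 1
    field_simp

theorem Dh_diff {z : ℂ} (h3 : z ≠ ze ^ 3) (h5 : z ≠ ze ^ 5) : DifferentiableAt ℂ Dh z := by
  have he : Dh = fun z => -(2 * (Real.sqrt 2 : ℂ)) * z / ((z - ze ^ 3) * (z - ze ^ 5)) :=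
    funext Dh_eq
  rw [he]
  refine DifferentiableAt.div (by fun_prop) (by fun_prop) ?_
  exact mul_ne_zero (sub_ne_zero.mpr h3) (sub_ne_zero.mpr h5)

theorem Dh_HR3 : HR Dh (ze ^ 3) (2 * Complex.I) := by
  have hz3 : ze ^ 3 ≠ 0 := pow_ne_zero _ ze_ne_zero
  have hc : ContinuousAt (fun z : ℂ => -(2 * (Real.sqrt 2 : ℂ)) * z / (ze ^ 3 * (z - ze ^ 5)))
      (ze ^ 3) := by
    refine ContinuousAt.div (by fun_prop) (by fun_prop) ?_
    exact mul_ne_zero hz3 (sub_ne_zero.mpr ze3_ne_ze5)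
  have hv : -(2 * (Real.sqrt 2 : ℂ)) * ze ^ 3 / (ze ^ 3 * (ze ^ 3 - ze ^ 5)) = 2 * Complex.I := by
    rw [ze3_sub_ze5]
    have h2 := sqrt2_ne
    have hI := Complex.I_ne_zero
    rw [div_eq_iff (mul_ne_zero hz3 (mul_ne_zero hI h2))]
    linear_combination (-2 * (Real.sqrt 2 : ℂ) * ze ^ 3) * Complex.I_sq
  have ht := hc.tendsto.mono_left (nhdsWithin_le_nhds (s := {ze ^ 3}ᶜ))
  rw [hv] at ht
  refine ht.congr' ?_
  filter_upwards [self_mem_nhdsWithin] with z hz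
  have hz' : z - ze ^ 3 ≠ 0 := sub_ne_zero.mpr hz
  rw [Dh_eq]
  by_cases h5 : z - ze ^ 5 = 0
  · rw [h5]; simp
  · have e : z / ze ^ 3 - 1 = (z - ze ^ 3) / ze ^ 3 := by rw [sub_div, div_self hz3]
    rw [e, div_mul_div_comm, div_eq_div_iff (mul_ne_zero hz3 h5)
      (mul_ne_zero hz3 (mul_ne_zero hz' h5))]
    ring

theorem Dh_HR5 : HR Dh (ze ^ 5) (-(2 * Complex.I)) := by
  have hz5 : ze ^ 5 ≠ 0 := pow_ne_zero _ ze_ne_zero
  have hc : ContinuousAt (fun z : ℂ => -(2 * (Real.sqrt 2 : ℂ)) * z / (ze ^ 5 * (z - ze ^ 3)))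
      (ze ^ 5) := by
    refine ContinuousAt.div (by fun_prop) (by fun_prop) ?_
    exact mul_ne_zero hz5 (sub_ne_zero.mpr ze3_ne_ze5.symm)
  have hv : -(2 * (Real.sqrt 2 : ℂ)) * ze ^ 5 / (ze ^ 5 * (ze ^ 5 - ze ^ 3))
      = -(2 * Complex.I) := by
    have e : ze ^ 5 - ze ^ 3 = -(Complex.I * (Real.sqrt 2 : ℂ)) := by
      rw [← ze3_sub_ze5]; ring
    rw [e]
    have h2 := sqrt2_ne
    have hI := Complex.I_ne_zero
    rw [div_eq_iff (mul_ne_zero hz5 (neg_ne_zero.mpr (mul_ne_zero hI h2)))]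
    linear_combination (-2 * (Real.sqrt 2 : ℂ) * ze ^ 5) * Complex.I_sq
  have ht := hc.tendsto.mono_left (nhdsWithin_le_nhds (s := {ze ^ 5}ᶜ))
  rw [hv] at ht
  refine ht.congr' ?_
  filter_upwards [self_mem_nhdsWithin] with z hz
  have hz' : z - ze ^ 5 ≠ 0 := sub_ne_zero.mpr hz
  rw [Dh_eq]
  by_cases h3 : z - ze ^ 3 = 0
  · rw [h3]; simp
  · have e : z / ze ^ 5 - 1 = (z - ze ^ 5) / ze ^ 5 := by rw [sub_div, div_self hz5]
    rw [e, div_mul_div_comm, div_eq_div_iff (mul_ne_zero hz5 h3)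
      (mul_ne_zero hz5 (mul_ne_zero h3 hz'))]
    ring

theorem Dh_add_neg {z : ℂ} (h : z ^ 4 ≠ -1) : Dh z + Dh (-z) = 8 * z ^ 2 / (z ^ 4 + 1) := by
  have h4 : z ^ 4 + 1 ≠ 0 := fun h0 => h (eq_neg_of_add_eq_zero_left h0)
  have e : (z ^ 2 + (Real.sqrt 2 : ℂ) * z + 1) * (z ^ 2 - (Real.sqrt 2 : ℂ) * z + 1)
      = z ^ 4 + 1 := by
    linear_combination (-z ^ 2) * sqrt2_sq
  have h1 : z ^ 2 + (Real.sqrt 2 : ℂ) * z + 1 ≠ 0 := fun h0 => h4 (by rw [← e, h0, zero_mul])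
  have h2 : z ^ 2 - (Real.sqrt 2 : ℂ) * z + 1 ≠ 0 := fun h0 => h4 (by rw [← e, h0, mul_zero])
  unfold Dh
  have e2 : (-z) ^ 2 + (Real.sqrt 2 : ℂ) * (-z) + 1 = z ^ 2 - (Real.sqrt 2 : ℂ) * z + 1 := by ring
  rw [e2, div_add_div _ _ h1 h2, e]
  congr 1
  linear_combination (4 * z ^ 2) * sqrt2_sq

theorem Dh_fe {z : ℂ} (h : z ^ 4 ≠ -1) :
    Dh z + Dh (ze ^ 2 * z) + Dh (ze ^ 4 * z) + Dh (ze ^ 6 * z) = 0 := by
  have e4 : ze ^ 4 * z = -z := by rw [ze_pow_four]; ring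
  have e6 : ze ^ 6 * z = -(ze ^ 2 * z) := by
    have : ze ^ 6 = ze ^ 4 * ze ^ 2 := by ring
    rw [this, ze_pow_four]; ring
  have e22 : (ze ^ 2 * z) ^ 4 = z ^ 4 := by
    have : (ze ^ 2 * z) ^ 4 = ze ^ 8 * z ^ 4 := by ring
    rw [this, ze_pow_eight, one_mul]
  have e21 : (ze ^ 2 * z) ^ 2 = - z ^ 2 := by
    have : (ze ^ 2 * z) ^ 2 = ze ^ 4 * z ^ 2 := by ring
    rw [this, ze_pow_four]; ring
  have h' : (ze ^ 2 * z) ^ 4 ≠ -1 := by rw [e22]; exact h
  have a1 := Dh_add_neg h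
  have a2 := Dh_add_neg h'
  rw [e22, e21] at a2
  rw [e4, e6]
  linear_combination a1 + a2

/-! ## asymptotics -/

theorem Dh_zero : Tendsto (fun z => Dh z / z) (𝓝[≠] 0) (𝓝 (-(2 * (Real.sqrt 2 : ℂ)))) := by
  have hc : ContinuousAt (fun z : ℂ => -(2 * (Real.sqrt 2 : ℂ)) /
      (z ^ 2 + (Real.sqrt 2 : ℂ) * z + 1)) 0 := by
    refine ContinuousAt.div (by fun_prop) (by fun_prop) ?_
    norm_num
  have ht := hc.tendsto.mono_left (nhdsWithin_le_nhds (s := {(0 : ℂ)}ᶜ))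
  have hv : -(2 * (Real.sqrt 2 : ℂ)) / ((0 : ℂ) ^ 2 + (Real.sqrt 2 : ℂ) * 0 + 1)
      = -(2 * (Real.sqrt 2 : ℂ)) := by norm_num
  rw [hv] at ht
  refine ht.congr' ?_
  filter_upwards [self_mem_nhdsWithin] with z hz
  have hz : z ≠ 0 := hz
  unfold Dh
  rw [div_right_comm, mul_div_assoc _ z z, div_self hz, mul_one]

theorem tendsto_inv_cocompact : Tendsto (fun z : ℂ => z⁻¹) (cocompact ℂ) (𝓝[≠] 0) := by
  refine tendsto_nhdsWithin_iff.mpr ⟨?_, ?_⟩
  · exact tendsto_inv₀_cobounded.comp (by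
      rw [Metric.cobounded_eq_cocompact]; exact tendsto_id)
  · have : ∀ᶠ z : ℂ in cocompact ℂ, z ≠ 0 := by
      have := (isCompact_singleton (x := (0 : ℂ))).compl_mem_cocompact
      filter_upwards [this] with z hz
      exact hz
    filter_upwards [this] with z hz
    simpa using hz

theorem Dh_inf : Tendsto (fun z => z * Dh z) (cocompact ℂ) (𝓝 (-(2 * (Real.sqrt 2 : ℂ)))) := by
  have := Dh_zero.comp tendsto_inv_cocompact
  refine this.congr (fun z => ?_)
  simp only [Function.comp, Dh_inv, div_inv_eq_mul]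
  ring

theorem An.sub {F G : ℂ → ℂ} (hF : An F) (hG : An G) : An (fun z => F z - G z) := by
  obtain ⟨⟨c, hc⟩, ⟨d, hd⟩⟩ := hF
  obtain ⟨⟨c', hc'⟩, ⟨d', hd'⟩⟩ := hG
  refine ⟨⟨c - c', (hc.sub hc').congr (fun z => by ring)⟩,
    ⟨d - d', (hd.sub hd').congr (fun z => by ring)⟩⟩

theorem An.const_mul {F : ℂ → ℂ} (a : ℂ) (hF : An F) : An (fun z => a * F z) := by
  obtain ⟨⟨c, hc⟩, ⟨d, hd⟩⟩ := hF
  refine ⟨⟨a * c, (hc.const_mul a).congr (fun z => by ring)⟩,
    ⟨a * d, (hd.const_mul a).congr (fun z => by ring)⟩⟩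

theorem An.sum {κ : Type*} (t : Finset κ) {F : κ → ℂ → ℂ} (hF : ∀ i, An (F i)) :
    An (fun z => ∑ i ∈ t, F i z) := by
  choose c hc using fun i => (hF i).inf
  choose d hd using fun i => (hF i).zero
  refine ⟨⟨∑ i ∈ t, c i, (tendsto_finsetSum t (fun i _ => hc i)).congr (fun z => ?_)⟩,
    ⟨∑ i ∈ t, d i, (tendsto_finsetSum t (fun i _ => hd i)).congr (fun z => ?_)⟩⟩
  · rw [Finset.mul_sum]
  · rw [Finset.sum_div]

theorem An.Dh_scale {c : ℂ} (hc : c ≠ 0) : An (fun z => Dh (c * z)) := by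
  refine ⟨⟨c⁻¹ * -(2 * (Real.sqrt 2 : ℂ)), ?_⟩, ⟨c * -(2 * (Real.sqrt 2 : ℂ)), ?_⟩⟩
  · have h : Tendsto (fun z : ℂ => c * z) (cocompact ℂ) (cocompact ℂ) :=
      (Homeomorph.mulLeft₀ c hc).isClosedEmbedding.tendsto_cocompact
    have := (Dh_inf.comp h).const_mul c⁻¹
    refine this.congr (fun z => ?_)
    simp only [Function.comp]
    field_simp
  · have h := tendsto_mul_punct (s := 0) hc
    rw [mul_zero] at h
    have := (Dh_zero.comp h).const_mul c
    refine this.congr' ?_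
    filter_upwards [self_mem_nhdsWithin] with z hz
    have hz : z ≠ 0 := hz
    simp only [Function.comp]
    field_simp

theorem KK_eq (w : ℂ) : (fun z => KK z w) = fun z => Dh (w⁻¹ * z) - Dh (w * z) := by
  funext z
  simp only [KK, div_eq_mul_inv, mul_comm]

theorem An.KK {w : ℂ} (hw : w ≠ 0) : An (fun z => KK z w) := by
  rw [KK_eq]
  exact (An.Dh_scale (inv_ne_zero hw)).sub (An.Dh_scale hw)

theorem An.as_inf {F : ℂ → ℂ} (hF : An F) (m : ℕ) :
    Tendsto (fun z => F z / z ^ m) (cocompact ℂ) (𝓝 0) := by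
  obtain ⟨⟨c, hc⟩, _⟩ := hF
  have h1 := (tendsto_nhdsWithin_iff.mp tendsto_inv_cocompact).1
  have h2 := hc.mul (h1.pow (m + 1))
  rw [zero_pow (by omega), mul_zero] at h2
  refine h2.congr' ?_
  filter_upwards [(isCompact_singleton (x := (0 : ℂ))).compl_mem_cocompact] with z hz
  have hz : z ≠ 0 := hz
  rw [inv_pow, pow_succ]
  field_simp

theorem An.as_zero {F : ℂ → ℂ} (hF : An F) (m : ℕ) :
    Tendsto (fun z => F z * z ^ m) (𝓝[≠] 0) (𝓝 0) := by
  obtain ⟨_, ⟨c, hc⟩⟩ := hF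
  have h1 : Tendsto (fun z : ℂ => z) (𝓝[≠] 0) (𝓝 0) := tendsto_id.mono_left nhdsWithin_le_nhds
  have h2 := hc.mul (h1.pow (m + 1))
  rw [zero_pow (by omega), mul_zero] at h2
  refine h2.congr' ?_
  filter_upwards [self_mem_nhdsWithin] with z hz
  have hz : z ≠ 0 := hz
  rw [pow_succ]
  field_simp

theorem ev_ne_zero_cocompact : ∀ᶠ z : ℂ in cocompact ℂ, z ≠ 0 := by
  filter_upwards [(isCompact_singleton (x := (0 : ℂ))).compl_mem_cocompact] with z hz
  exact hz

theorem tendsto_inv_cocompact' : Tendsto (fun z : ℂ => z⁻¹) (cocompact ℂ) (𝓝 0) :=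
  (tendsto_nhdsWithin_iff.mp tendsto_inv_cocompact).1

theorem tendsto_id_punct : Tendsto (fun z : ℂ => z) (𝓝[≠] 0) (𝓝 0) :=
  tendsto_id.mono_left nhdsWithin_le_nhds

theorem S1_as : As 1 S1 := by
  constructor
  · have h := ((tendsto_const_nhds (x := (1 : ℂ))).sub
      (tendsto_inv_cocompact'.pow 2)).div_const (2 * Complex.I)
    rw [zero_pow two_ne_zero, sub_zero] at h
    refine h.congr' ?_
    filter_upwards [ev_ne_zero_cocompact] with z hz
    unfold S1
    field_simp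
  · have h := ((tendsto_id_punct.pow 2).sub
      (tendsto_const_nhds (x := (1 : ℂ)))).div_const (2 * Complex.I)
    rw [zero_pow two_ne_zero, zero_sub, neg_div] at h
    refine h.congr' ?_
    filter_upwards [self_mem_nhdsWithin] with z hz
    have hz : z ≠ 0 := hz
    unfold S1
    field_simp

theorem S2_as : As 2 S2 := by
  constructor
  · have h := ((tendsto_const_nhds (x := (1 : ℂ))).sub
      (tendsto_inv_cocompact'.pow 4)).div_const (2 * Complex.I)
    rw [zero_pow four_ne_zero, sub_zero] at h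
    refine h.congr' ?_
    filter_upwards [ev_ne_zero_cocompact] with z hz
    unfold S2
    field_simp
  · have h := ((tendsto_id_punct.pow 4).sub
      (tendsto_const_nhds (x := (1 : ℂ)))).div_const (2 * Complex.I)
    rw [zero_pow four_ne_zero, zero_sub, neg_div] at h
    refine h.congr' ?_
    filter_upwards [self_mem_nhdsWithin] with z hz
    have hz : z ≠ 0 := hz
    unfold S2
    field_simp

/-! ## the kernel at the nodes -/

variable {x : Fin N → ℝ}

theorem KK_ep (z : ℂ) (k : Fin N) :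
    KK z (ep (x k)) = Dh (z / yy x (k, true)) - Dh (z / yy x (k, false)) := by
  simp only [KK, yy, if_true]
  rw [if_neg (by simp), div_inv_eq_mul]

theorem Dd_HR {f : ℂ → ℂ} {c s r : ℂ} (hc : c ≠ 0) (h : HR f s r) :
    HR (fun z => f (z / c)) (c * s) r := by
  have h' : HR f (c⁻¹ * (c * s)) r := by rwa [inv_mul_cancel_left₀ hc]
  refine (HR.scale (inv_ne_zero hc) h').congr (fun z => ?_)
  rw [div_eq_inv_mul]

/-- `Dh (z / y)` is regular away from `y ze^3`, `y ze^5` -/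
theorem Dd_diff {c z : ℂ} (hc : c ≠ 0) (h3 : z ≠ c * ze ^ 3) (h5 : z ≠ c * ze ^ 5) :
    DifferentiableAt ℂ (fun z => Dh (z / c)) z := by
  have h : DifferentiableAt ℂ Dh (z / c) := by
    refine Dh_diff ?_ ?_
    · intro h; exact h3 (by rw [← h]; field_simp)
    · intro h; exact h5 (by rw [← h]; field_simp)
  have h' : DifferentiableAt ℂ (fun z : ℂ => z / c) z := by fun_prop
  exact DifferentiableAt.comp (f := fun z : ℂ => z / c) (g := Dh) z h h'

theorem Dd_reg {c z : ℂ} (hc : c ≠ 0) (hz : z ≠ 0) (h3 : z ≠ c * ze ^ 3) (h5 : z ≠ c * ze ^ 5) :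
    HR (fun z => Dh (z / c)) z 0 :=
  HR.of_cont hz (Dd_diff hc h3 h5).continuousAt

theorem yy_inj (hx : Nd x) : Function.Injective (yy x) := by
  intro u u' h
  exact yy_eight_inj hx (by rw [h])

/-- residues of `Dh (z / y)` at `y' ze^3` -/
theorem Dd_HR3 (hx : Nd x) (u u' : Fin N × Bool) :
    HR (fun z => Dh (z / yy x u)) (yy x u' * ze ^ 3) (if u = u' then 2 * Complex.I else 0) := by
  split_ifs with h
  · subst h; exact Dd_HR (yy_ne_zero x u) Dh_HR3
  · refine Dd_reg (yy_ne_zero x u) (mul_ne_zero (yy_ne_zero x u') (pow_ne_zero _ ze_ne_zero)) ?_ ?_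
    · intro e
      exact h (yy_inj hx (mul_right_cancel₀ (pow_ne_zero _ ze_ne_zero) e)).symm
    · exact yy_mul_ne hx (by norm_num) (by norm_num) (by norm_num)

/-- residues of `Dh (z / y)` at `y' ze^5` -/
theorem Dd_HR5 (hx : Nd x) (u u' : Fin N × Bool) :
    HR (fun z => Dh (z / yy x u)) (yy x u' * ze ^ 5) (if u = u' then -(2 * Complex.I) else 0) := by
  split_ifs with h
  · subst h; exact Dd_HR (yy_ne_zero x u) Dh_HR5
  · refine Dd_reg (yy_ne_zero x u) (mul_ne_zero (yy_ne_zero x u') (pow_ne_zero _ ze_ne_zero)) ?_ ?_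
    · exact yy_mul_ne hx (by norm_num) (by norm_num) (by norm_num)
    · intro e
      exact h (yy_inj hx (mul_right_cancel₀ (pow_ne_zero _ ze_ne_zero) e)).symm

/-- the sum `∑ a_k DD(., x_k)` -/
def Sg (x : Fin N → ℝ) (a : Fin N → ℂ) (z : ℂ) : ℂ := ∑ k, a k * KK z (ep (x k))

/-- its residues -/
def rs (a : Fin N → ℂ) (u : Fin N × Bool) : ℂ :=
  a u.1 * (if u.2 then 2 * Complex.I else -(2 * Complex.I))

theorem Sg_HR3 (hx : Nd x) (a : Fin N → ℂ) (u) : HR (Sg x a) (yy x u * ze ^ 3) (rs a u) := by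
  have h : ∀ k ∈ Finset.univ, HR (fun z => a k * KK z (ep (x k))) (yy x u * ze ^ 3)
      (a k * ((if (k, true) = u then 2 * Complex.I else 0) -
        (if (k, false) = u then 2 * Complex.I else 0))) := by
    intro k _
    refine HR.const_mul _ ?_
    refine ((Dd_HR3 hx (k, true) u).sub (Dd_HR3 hx (k, false) u)).congr (fun z => ?_)
    rw [KK_ep]
  refine (HR.sum Finset.univ h).cast rfl ?_
  obtain ⟨k, (_ | _)⟩ := u
  · simp [rs]
  · simp [rs]

theorem Sg_HR5 (hx : Nd x) (a : Fin N → ℂ) (u) : HR (Sg x a) (yy x u * ze ^ 5) (-rs a u) := by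
  have h : ∀ k ∈ Finset.univ, HR (fun z => a k * KK z (ep (x k))) (yy x u * ze ^ 5)
      (a k * ((if (k, true) = u then -(2 * Complex.I) else 0) -
        (if (k, false) = u then -(2 * Complex.I) else 0))) := by
    intro k _
    refine HR.const_mul _ ?_
    refine ((Dd_HR5 hx (k, true) u).sub (Dd_HR5 hx (k, false) u)).congr (fun z => ?_)
    rw [KK_ep]
  refine (HR.sum Finset.univ h).cast rfl ?_
  obtain ⟨k, (_ | _)⟩ := u
  · simp [rs]
  · simp [rs]

theorem Sg_diff (a : Fin N → ℂ) {z : ℂ} (h3 : ∀ u, z ≠ yy x u * ze ^ 3)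
    (h5 : ∀ u, z ≠ yy x u * ze ^ 5) : DifferentiableAt ℂ (Sg x a) z := by
  unfold Sg
  refine DifferentiableAt.fun_sum (fun k _ => ?_)
  refine DifferentiableAt.const_mul ?_ _
  have : (fun z => KK z (ep (x k))) =
      fun z => Dh (z / yy x (k, true)) - Dh (z / yy x (k, false)) := funext (fun z => KK_ep z k)
  rw [this]
  exact (Dd_diff (yy_ne_zero x _) (h3 _) (h5 _)).sub (Dd_diff (yy_ne_zero x _) (h3 _) (h5 _))

theorem KK_fe {z w : ℂ} (h1 : (z / w) ^ 4 ≠ -1) (h2 : (z * w) ^ 4 ≠ -1) :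
    KK z w + KK (ze ^ 2 * z) w + KK (ze ^ 4 * z) w + KK (ze ^ 6 * z) w = 0 := by
  have a1 := Dh_fe h1
  have a2 := Dh_fe h2
  simp only [KK, mul_div_assoc, mul_assoc] at *
  linear_combination a1 - a2

theorem Sg_fe (a : Fin N → ℂ) {z : ℂ} (h : ∀ u, (z / yy x u) ^ 4 ≠ -1) :
    Sg x a z + Sg x a (ze ^ 2 * z) + Sg x a (ze ^ 4 * z) + Sg x a (ze ^ 6 * z) = 0 := by
  simp only [Sg, ← Finset.sum_add_distrib]
  refine Finset.sum_eq_zero (fun k _ => ?_)
  have h1 := h (k, true)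
  have h2 := h (k, false)
  simp only [yy, if_true] at h1
  simp only [yy, Bool.false_eq_true, if_false, div_inv_eq_mul] at h2
  have := KK_fe h1 h2
  linear_combination (a k) * this

theorem KK_odd (z w : ℂ) : KK z⁻¹ w = - KK z w := by
  simp only [KK]
  have e1 : z⁻¹ / w = (z * w)⁻¹ := by rw [mul_inv, div_eq_mul_inv]
  have e2 : z⁻¹ * w = (z / w)⁻¹ := by rw [inv_div, div_eq_mul_inv, mul_comm]
  rw [e1, e2, Dh_inv, Dh_inv]
  ring

theorem Sg_odd (a : Fin N → ℂ) (z : ℂ) : Sg x a z⁻¹ = - Sg x a z := by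
  simp only [Sg, KK_odd, mul_neg, Finset.sum_neg_distrib]

theorem S1_odd (z : ℂ) : S1 z⁻¹ = - S1 z := by
  simp only [S1, inv_inv]; ring

theorem S2_odd (z : ℂ) : S2 z⁻¹ = - S2 z := by
  simp only [S2, inv_inv]; ring

theorem zero_yy {F : ℂ → ℂ} (hF : ∀ z, F z⁻¹ = - F z) (h : ∀ k, F (ep (x k)) = 0)
    (u : Fin N × Bool) : F (yy x u) = 0 := by
  obtain ⟨k, (_ | _)⟩ := u
  · simp only [yy, Bool.false_eq_true, if_false]
    rw [hF, h, neg_zero]
  · simp only [yy, if_true]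
    exact h k

theorem ze_six : ze ^ 6 = - Complex.I := by
  have : ze ^ 6 = ze ^ 4 * ze ^ 2 := by ring
  rw [this, ze_pow_four, ze_sq]; ring

theorem S1_fe (z : ℂ) : S1 z + S1 (ze ^ 2 * z) + S1 (ze ^ 4 * z) + S1 (ze ^ 6 * z) = 0 := by
  rw [ze_pow_four, ze_sq, ze_six]
  simp only [S1, mul_inv, Complex.inv_I, inv_neg, inv_one]
  ring

theorem S2_fe (z : ℂ) : S2 z + S2 (ze ^ 2 * z) + S2 (ze ^ 4 * z) + S2 (ze ^ 6 * z) = 0 := by
  rw [ze_pow_four, ze_sq, ze_six]
  simp only [S2, mul_inv, Complex.inv_I, inv_neg, inv_one]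
  have h : (Complex.I * z) ^ 2 = - z ^ 2 := by rw [mul_pow, Complex.I_sq]; ring
  have h' : (-Complex.I * z⁻¹) ^ 2 = - (z⁻¹) ^ 2 := by rw [mul_pow, neg_sq, Complex.I_sq]; ring
  have h2 : (-Complex.I * z) ^ 2 = - z ^ 2 := by rw [mul_pow, neg_sq, Complex.I_sq]; ring
  have h2' : (Complex.I * z⁻¹) ^ 2 = - (z⁻¹) ^ 2 := by rw [mul_pow, Complex.I_sq]; ring
  rw [h, h', h2]
  have h3 : (-(-Complex.I) * z⁻¹) ^ 2 = - (z⁻¹) ^ 2 := by rw [neg_neg]; exact h2'
  simp only [h3]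
  ring

theorem S1_diff {z : ℂ} (hz : z ≠ 0) : DifferentiableAt ℂ S1 z := by
  unfold S1
  fun_prop (disch := assumption)

theorem S2_diff {z : ℂ} (hz : z ≠ 0) : DifferentiableAt ℂ S2 z := by
  unfold S2
  fun_prop (disch := assumption)

theorem yyze_ne_zero (u) (j : ℕ) : yy x u * ze ^ j ≠ 0 :=
  mul_ne_zero (yy_ne_zero x u) (pow_ne_zero _ ze_ne_zero)

theorem ff_res1 {x : Fin N → ℝ} (hx : Nd x) (a : Fin N → ℂ)
    (h0 : ∀ k, res1 x a (ep (x k)) = 0) : (∃ r, FF x ∅ (res1 x a) r) ∧ As 1 (res1 x a) := by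
  have he : res1 x a = fun z => S1 z - Sg x a z := rfl
  have ho : ∀ z, res1 x a z⁻¹ = - res1 x a z := by
    intro z; rw [he]; simp only [S1_odd, Sg_odd]; ring
  have hA : An (Sg x a) := An.sum _ (fun k => An.const_mul _ (An.KK (ep_ne_zero _)))
  refine ⟨⟨fun u => 0 - rs a u, ?_⟩, ?_⟩
  · refine ⟨fun z _ => ho z, zero_yy ho h0, ?_, ?_, ?_, ?_⟩
    · intro z hz h3 h5 _
      rw [he]
      exact (S1_diff hz).sub (Sg_diff a h3 h5)
    · intro z _ h4 _
      have a1 := S1_fe z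
      have a2 := Sg_fe a h4
      simp only [he]
      linear_combination a1 - a2
    · intro u
      exact (HR.of_cont (yyze_ne_zero u 3) (S1_diff (yyze_ne_zero u 3)).continuousAt).sub
        (Sg_HR3 hx a u)
    · intro u
      refine ((HR.of_cont (yyze_ne_zero u 5) (S1_diff (yyze_ne_zero u 5)).continuousAt).sub
        (Sg_HR5 hx a u)).cast rfl ?_
      ring
  · constructor
    · have := S1_as.inf.sub (hA.as_inf 1)
      rw [sub_zero] at this
      refine this.congr (fun z => ?_)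
      rw [he]; ring
    · have := S1_as.zero.sub (hA.as_zero 1)
      rw [sub_zero] at this
      refine this.congr (fun z => ?_)
      rw [he]; ring

theorem S1_two : Tendsto (fun z => S1 z / z ^ 2) (cocompact ℂ) (𝓝 0) ∧
    Tendsto (fun z => S1 z * z ^ 2) (𝓝[≠] 0) (𝓝 0) := by
  constructor
  · have := S1_as.inf.mul tendsto_inv_cocompact'
    rw [mul_zero] at this
    refine this.congr' ?_
    filter_upwards [ev_ne_zero_cocompact] with z hz
    field_simp
  · have := S1_as.zero.mul tendsto_id_punct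
    rw [mul_zero] at this
    refine this.congr (fun z => ?_)
    ring

theorem ff_resE {x : Fin N → ℝ} (hx : Nd x) (α : ℂ) (a : Fin N → ℂ)
    (h0 : ∀ k, resE x α a (ep (x k)) = 0) : (∃ r, FF x ∅ (resE x α a) r) ∧ As 2 (resE x α a) := by
  have he : resE x α a = fun z => (S2 z - α * S1 z) - Sg x a z := rfl
  have ho : ∀ z, resE x α a z⁻¹ = - resE x α a z := by
    intro z; rw [he]; simp only [S1_odd, S2_odd, Sg_odd]; ring
  have hA : An (Sg x a) := An.sum _ (fun k => An.const_mul _ (An.KK (ep_ne_zero _)))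
  have hd : ∀ z : ℂ, z ≠ 0 → DifferentiableAt ℂ (fun z => S2 z - α * S1 z) z := fun z hz =>
    (S2_diff hz).sub ((S1_diff hz).const_mul α)
  refine ⟨⟨fun u => 0 - rs a u, ?_⟩, ?_⟩
  · refine ⟨fun z _ => ho z, zero_yy ho h0, ?_, ?_, ?_, ?_⟩
    · intro z hz h3 h5 _
      rw [he]
      exact (hd z hz).sub (Sg_diff a h3 h5)
    · intro z _ h4 _
      have a1 := S1_fe z
      have a3 := S2_fe z
      have a2 := Sg_fe a h4
      simp only [he]
      linear_combination a3 - α * a1 - a2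
    · intro u
      exact (HR.of_cont (yyze_ne_zero u 3) (hd _ (yyze_ne_zero u 3)).continuousAt).sub
        (Sg_HR3 hx a u)
    · intro u
      refine ((HR.of_cont (yyze_ne_zero u 5) (hd _ (yyze_ne_zero u 5)).continuousAt).sub
        (Sg_HR5 hx a u)).cast rfl ?_
      ring
  · constructor
    · have := (S2_as.inf.sub (S1_two.1.const_mul α)).sub (hA.as_inf 2)
      rw [mul_zero, sub_zero, sub_zero] at this
      refine this.congr (fun z => ?_)
      rw [he]; ring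
    · have := (S2_as.zero.sub (S1_two.2.const_mul α)).sub (hA.as_zero 2)
      rw [mul_zero, sub_zero, sub_zero] at this
      refine this.congr (fun z => ?_)
      rw [he]; ring

/-! ## the residual of `DD(., t)` -/

theorem KKt_eq : (fun z => KK z (th ^ 3)) =
    fun z => Dh (z / th ^ 3) - Dh (z / th ^ 13) := by
  funext z
  have : th ^ 13 = (th ^ 3)⁻¹ := by
    refine eq_inv_of_mul_eq_one_left ?_
    rw [← pow_add]; exact th_prim.pow_eq_one
  rw [this, div_inv_eq_mul, KK]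

theorem ze_pow_eq (j : ℕ) : ze ^ j = th ^ (2 * j) := by
  rw [ze, ← pow_mul]

theorem th_pow_eight' {k : ℕ} (hk : k % 2 = 1) : (th ^ k) ^ 8 = -1 := by
  rw [← pow_mul, mul_comm, pow_mul, th_pow_eight]
  exact Odd.neg_one_pow (Nat.odd_iff.mpr hk)

theorem thze_eight {k j : ℕ} (hk : k % 2 = 1) : (th ^ k * ze ^ j) ^ 8 = -1 := by
  rw [ze_pow_eq, ← pow_add]
  exact th_pow_eight' (by omega)

theorem KKt_diff {z : ℂ} (h : z ^ 8 ≠ -1) : DifferentiableAt ℂ (fun z => KK z (th ^ 3)) z := by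
  rw [KKt_eq]
  have h3 := pow_ne_zero 3 th_ne_zero
  have h13 := pow_ne_zero 13 th_ne_zero
  refine (Dd_diff h3 ?_ ?_).sub (Dd_diff h13 ?_ ?_)
  all_goals
    intro e
    apply h
    rw [e]
    exact thze_eight (by norm_num)

theorem KKt_fe {z : ℂ} (h : z ^ 8 ≠ -1) :
    KK z (th ^ 3) + KK (ze ^ 2 * z) (th ^ 3) + KK (ze ^ 4 * z) (th ^ 3)
      + KK (ze ^ 6 * z) (th ^ 3) = 0 := by
  have h38 : (th ^ 3) ^ 8 = -1 := th_pow_eight' (by norm_num)
  have h3 : th ^ 3 ≠ 0 := pow_ne_zero 3 th_ne_zero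
  apply KK_fe
  · intro e
    apply h
    have : (z / th ^ 3) ^ 8 = 1 := by
      have : (z / th ^ 3) ^ 8 = ((z / th ^ 3) ^ 4) ^ 2 := by ring
      rw [this, e]; norm_num
    rw [div_pow, h38] at this
    rw [div_eq_iff (by norm_num)] at this
    rw [this]; norm_num
  · intro e
    apply h
    have : (z * th ^ 3) ^ 8 = 1 := by
      have : (z * th ^ 3) ^ 8 = ((z * th ^ 3) ^ 4) ^ 2 := by ring
      rw [this, e]; norm_num
    rw [mul_pow, h38] at this
    linear_combination (-1 : ℂ) * this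

/-- `th^i ≠ th^j` -/
theorem th_ne {i j : ℕ} (hi : i < 16) (hj : j < 16) (h : i ≠ j) : th ^ i ≠ th ^ j :=
  fun e => h (th_prim.pow_inj hi hj e)

theorem thDd_HR {k m : ℕ}
    (e3 : th ^ k * ze ^ 3 ≠ th ^ m) (e5 : th ^ k * ze ^ 5 ≠ th ^ m) :
    HR (fun z => Dh (z / th ^ k)) (th ^ m) 0 :=
  Dd_reg (pow_ne_zero _ th_ne_zero) (pow_ne_zero _ th_ne_zero) e3.symm e5.symm

theorem th_red {i j k : ℕ} (h : (i + 2 * j) % 16 = k) : th ^ i * ze ^ j = th ^ k := by
  rw [ze_pow_eq, ← pow_add, ← h]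
  exact (pow_mod_orderOf th (i + 2 * j)).symm.trans (by rw [← th_prim.eq_orderOf]) |>.trans rfl

theorem Sg_reg_th (hx : Nd x) (a : Fin N → ℂ) {k : ℕ} (hk : k % 2 = 1) :
    HR (Sg x a) (th ^ k) 0 := by
  refine HR.of_cont (pow_ne_zero _ th_ne_zero) (Sg_diff a ?_ ?_).continuousAt
  all_goals
    intro u e
    have := th_pow_eight' hk
    rw [e, yy_mul_eight] at this
    exact yy_eight_ne_neg hx u this

theorem ff_resD {x : Fin N → ℝ} (hx : Nd x) (a : Fin N → ℂ)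
    (h0 : ∀ k, resD x a (ep (x k)) = 0) :
    (∃ r, FF x {-1} (resD x a) r) ∧ An (resD x a) ∧ Ex (resD x a) := by
  have he : resD x a = fun z => KK z (th ^ 3) - Sg x a z := rfl
  have ho : ∀ z, resD x a z⁻¹ = - resD x a z := by
    intro z; rw [he]; simp only [KK_odd, Sg_odd]; ring
  have hA : An (Sg x a) := An.sum _ (fun k => An.const_mul _ (An.KK (ep_ne_zero _)))
  have hyy : ∀ u (j : ℕ), (yy x u * ze ^ j) ^ 8 ≠ -1 := fun u j => by
    rw [yy_mul_eight]; exact yy_eight_ne_neg hx u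
  refine ⟨⟨fun u => 0 - rs a u, ?_⟩, ?_, ?_⟩
  · refine ⟨fun z _ => ho z, zero_yy ho h0, ?_, ?_, ?_, ?_⟩
    · intro z hz h3 h5 h8
      rw [he]
      exact (KKt_diff h8).sub (Sg_diff a h3 h5)
    · intro z _ h4 h8
      have a1 := KKt_fe (z := z) h8
      have a2 := Sg_fe a h4
      simp only [he]
      linear_combination a1 - a2
    · intro u
      exact (HR.of_cont (yyze_ne_zero u 3) (KKt_diff (hyy u 3)).continuousAt).sub
        (Sg_HR3 hx a u)
    · intro u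
      refine ((HR.of_cont (yyze_ne_zero u 5) (KKt_diff (hyy u 5)).continuousAt).sub
        (Sg_HR5 hx a u)).cast rfl ?_
      ring
  · exact (An.KK (pow_ne_zero _ th_ne_zero)).sub hA
  · have hreg : ∀ {k m : ℕ}, k < 16 → m < 16 → (k + 6) % 16 ≠ m → (k + 10) % 16 ≠ m →
        HR (fun z => Dh (z / th ^ k)) (th ^ m) 0 := by
      intro k m hk hm h1 h2
      refine thDd_HR ?_ ?_
      · rw [th_red (k := (k + 6) % 16) rfl]
        exact th_ne (Nat.mod_lt _ (by norm_num)) hm h1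
      · rw [th_red (k := (k + 10) % 16) rfl]
        exact th_ne (Nat.mod_lt _ (by norm_num)) hm h2
    have h3 : ∀ {k m : ℕ}, (k + 6) % 16 = m →
        HR (fun z => Dh (z / th ^ k)) (th ^ m) (2 * Complex.I) := by
      intro k m h
      refine (Dd_HR (pow_ne_zero k th_ne_zero) Dh_HR3).cast ?_ rfl
      exact th_red (by rw [← h])
    have h5 : ∀ {k m : ℕ}, (k + 10) % 16 = m →
        HR (fun z => Dh (z / th ^ k)) (th ^ m) (-(2 * Complex.I)) := by
      intro k m h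
      refine (Dd_HR (pow_ne_zero k th_ne_zero) Dh_HR5).cast ?_ rfl
      exact th_red (by rw [← h])
    have hK : ∀ {m : ℕ} {r1 r2 : ℂ}, m % 2 = 1 → HR (fun z => Dh (z / th ^ 3)) (th ^ m) r1 →
        HR (fun z => Dh (z / th ^ 13)) (th ^ m) r2 → HR (resD x a) (th ^ m) (r1 - r2) := by
      intro m r1 r2 hm h1 h2
      refine (((h1.sub h2).sub (Sg_reg_th hx a hm)).cast rfl (sub_zero _)).congr (fun z => ?_)
      have h := congrFun KKt_eq z
      rw [he]
      show Dh (z / th ^ 3) - Dh (z / th ^ 13) - Sg x a z = KK z (th ^ 3) - Sg x a z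
      rw [← h]
    have hdd : ∀ {k m : ℕ}, k < 16 → m < 16 → (k + 6) % 16 ≠ m → (k + 10) % 16 ≠ m →
        DifferentiableAt ℂ (fun z => Dh (z / th ^ k)) (th ^ m) := by
      intro k m hk hm h1 h2
      refine Dd_diff (pow_ne_zero _ th_ne_zero) (Ne.symm ?_) (Ne.symm ?_)
      · rw [th_red (k := (k + 6) % 16) rfl]
        exact th_ne (Nat.mod_lt _ (by norm_num)) hm h1
      · rw [th_red (k := (k + 10) % 16) rfl]
        exact th_ne (Nat.mod_lt _ (by norm_num)) hm h2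
    have hS : ∀ {m : ℕ}, m % 2 = 1 → DifferentiableAt ℂ (Sg x a) (th ^ m) := by
      intro m hm
      refine Sg_diff a ?_ ?_
      all_goals
        intro u e
        have := th_pow_eight' hm
        rw [e, yy_mul_eight] at this
        exact yy_eight_ne_neg hx u this
    refine ⟨?_, ?_, ?_, ?_, ?_⟩
    · intro k hk
      rw [he]
      have h1 : DifferentiableAt ℂ (fun z => KK z (th ^ 3)) (th ^ k) := by
        rw [KKt_eq]
        rcases hk with rfl | rfl | rfl | rfl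
        all_goals
          exact (hdd (by norm_num) (by norm_num) (by norm_num) (by norm_num)).sub
            (hdd (by norm_num) (by norm_num) (by norm_num) (by norm_num))
      refine h1.sub (hS ?_)
      rcases hk with rfl | rfl | rfl | rfl <;> norm_num
    · exact (hK (by norm_num) (hreg (by norm_num) (by norm_num) (by norm_num) (by norm_num))
        (h3 (by norm_num))).cast rfl (by ring)
    · exact (hK (by norm_num) (hreg (by norm_num) (by norm_num) (by norm_num) (by norm_num))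
        (h5 (by norm_num))).cast rfl (by ring)
    · exact (hK (by norm_num) (h3 (by norm_num))
        (hreg (by norm_num) (by norm_num) (by norm_num) (by norm_num))).cast rfl (by ring)
    · exact (hK (by norm_num) (h5 (by norm_num))
        (hreg (by norm_num) (by norm_num) (by norm_num) (by norm_num))).cast rfl (by ring)

end

end Pool.Agent.EXL.Cl
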