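import Pool.Agent.Ex.P2Hv

/-!
# Glue (G1 of board/EXL): the Gram matrix `NN (x i) (x j)` is invertible (helper43)
-/

open Finset Real

namespace Pool.Agent.EXL.Glue

noncomputable section

/-- the Szego form controls the first `n` moments -/
theorem szego_lower {n : ℕ} (a z : Fin n → ℝ) (hz : ∀ i, |z i| < 1 / 20) :
    ∑ m : Fin n, (∑ i, a i * z i ^ (m : ℕ)) ^ 2 ≤ ∑ i, ∑ j, a i * a j / (1 - z i * z j) := by
  have hne : ∀ i j, 1 - z i * z j ≠ 0 := by
    intro i j
    have h1 := abs_lt.1 (hz i)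
    have h2 := abs_lt.1 (hz j)
    have : z i * z j < 1 := by nlinarith
    linarith
  have hnn : 0 ≤ ∑ i, ∑ j, (a i * z i ^ n) * (a j * z j ^ n) / (1 - z i * z j) :=
    le_trans (sq_nonneg _) (P2F.hv (fun i => a i * z i ^ n) z hz).2
  have key : ∑ i, ∑ j, a i * a j / (1 - z i * z j) =
      ∑ m : Fin n, (∑ i, a i * z i ^ (m : ℕ)) ^ 2 +
        ∑ i, ∑ j, (a i * z i ^ n) * (a j * z j ^ n) / (1 - z i * z j) := by
    have h1 : ∑ m : Fin n, (∑ i, a i * z i ^ (m : ℕ)) ^ 2 =
        ∑ i, ∑ j, a i * a j * ∑ m : Fin n, (z i * z j) ^ (m : ℕ) := by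
      simp_rw [sq, Finset.sum_mul_sum]
      rw [Finset.sum_comm]
      refine Finset.sum_congr rfl fun i _ => ?_
      rw [Finset.sum_comm]
      refine Finset.sum_congr rfl fun j _ => ?_
      rw [Finset.mul_sum]
      refine Finset.sum_congr rfl fun m _ => ?_
      rw [mul_pow]
      ring
    rw [h1, ← Finset.sum_add_distrib]
    refine Finset.sum_congr rfl fun i _ => ?_
    rw [← Finset.sum_add_distrib]
    refine Finset.sum_congr rfl fun j _ => ?_
    have h2 : (∑ m : Fin n, (z i * z j) ^ (m : ℕ)) * (1 - z i * z j) = 1 - (z i * z j) ^ n := by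
      rw [Fin.sum_univ_eq_sum_range (fun m => (z i * z j) ^ m) n]
      have := geom_sum_mul (z i * z j) n
      linarith
    have h3 := hne i j
    field_simp
    rw [mul_pow] at h2
    linear_combination (-(a i * a j)) * h2
  rw [key]
  linarith

/-- the vectors `vN (xx (z i))` are linearly independent -/
theorem NN_inj {n : ℕ} {z : Fin n → ℝ} (hz : ∀ i, |z i| < 1 / 20) (hinj : Function.Injective z)
    {a : Fin n → ℝ} (ha : ∀ i, ∑ j, a j * P2W.NN (P2F.xx (z i)) (P2F.xx (z j)) = 0) : a = 0 := by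
  have e3 : 0 < √(√2) := sqrt_pos.2 (sqrt_pos.2 (by norm_num))
  have hr := fun i => P2F.rho_pos (hz i)
  set b : Fin n → ℝ := fun i => a i * (√(√2) * P2F.rho (z i)) with hb
  have hvv : ∑ i, b i • P2F.vv (z i) = ∑ i, a i • P2W.vN (P2F.xx (z i)) := by
    refine Finset.sum_congr rfl fun i _ => ?_
    have := (hr i).ne'
    rw [P2F.vv, smul_smul, hb]
    congr 1
    field_simp
  have hnorm : ‖∑ i, b i • P2F.vv (z i)‖ ^ 2 = 0 := by
    rw [hvv, ← real_inner_self_eq_norm_sq, sum_inner]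
    refine Finset.sum_eq_zero fun i _ => ?_
    rw [inner_sum]
    have : ∑ j, inner ℝ (a i • P2W.vN (P2F.xx (z i))) (a j • P2W.vN (P2F.xx (z j))) =
        a i * ∑ j, a j * P2W.NN (P2F.xx (z i)) (P2F.xx (z j)) := by
      rw [Finset.mul_sum]
      refine Finset.sum_congr rfl fun j _ => ?_
      rw [real_inner_smul_left, real_inner_smul_right,
        P2W.inner_vN (P2F.xx_abs (hz i)) (P2F.xx_abs (hz j))]
    rw [this, ha i, mul_zero]
  have h1 := (P2F.hv b z hz).1
  rw [hnorm] at h1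
  have h2 := szego_lower b z hz
  have h3 : ∑ m : Fin n, (∑ i, b i * z i ^ (m : ℕ)) ^ 2 = 0 :=
    le_antisymm (by linarith) (Finset.sum_nonneg fun m _ => sq_nonneg _)
  have h4 : ∀ m : Fin n, ∑ i, b i * z i ^ (m : ℕ) = 0 := by
    intro m
    have := (Finset.sum_eq_zero_iff_of_nonneg (fun m _ => sq_nonneg _)).1 h3 m (Finset.mem_univ m)
    exact pow_eq_zero_iff two_ne_zero |>.1 this
  have h5 : b = 0 := Matrix.eq_zero_of_forall_pow_sum_mul_pow_eq_zero hinj h4
  funext i
  have h6 : a i * (√(√2) * P2F.rho (z i)) = 0 := congrFun h5 i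
  rcases mul_eq_zero.1 h6 with h | h
  · exact h
  · exact absurd h (mul_pos e3 (hr i)).ne'

/-- the linear system with matrix `NN (x i) (x j)` is solvable -/
theorem NN_solve {n : ℕ} {z : Fin n → ℝ} (hz : ∀ i, |z i| < 1 / 20)
    (hinj : Function.Injective z) (c : Fin n → ℝ) :
    ∃ a : Fin n → ℝ, ∀ i, ∑ j, a j * P2W.NN (P2F.xx (z i)) (P2F.xx (z j)) = c i := by
  let L : (Fin n → ℝ) →ₗ[ℝ] (Fin n → ℝ) :=
    { toFun := fun a i => ∑ j, a j * P2W.NN (P2F.xx (z i)) (P2F.xx (z j))
      map_add' := by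
        intro a b
        funext i
        simp only [Pi.add_apply, add_mul, Finset.sum_add_distrib]
      map_smul' := by
        intro r a
        funext i
        simp only [Pi.smul_apply, smul_eq_mul, RingHom.id_apply, Finset.mul_sum, mul_assoc] }
  have hL : Function.Injective L := by
    rw [← LinearMap.ker_eq_bot, LinearMap.ker_eq_bot']
    intro a ha
    exact NN_inj hz hinj fun i => congrFun ha i
  obtain ⟨a, ha⟩ := (LinearMap.injective_iff_surjective.1 hL) c
  exact ⟨a, fun i => congrFun ha i⟩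

end

end Pool.Agent.EXL.Glue
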