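import Pool.Agent.EXL.ClDefs
import Pool.Agent.EXL.GlSolve

/-!
# Glue (G1 of board/EXL): from the closing theorem at one set of distinct nodes to the node
relation of (P) (helper43)
-/

open Finset Real Filter Topology

namespace Pool.Agent.EXL.Glue

noncomputable section

/-! ## dictionary: the kernel `KK` in real form -/

theorem ep_add (x y : ℝ) : Cl.ep (x + y) = Cl.ep x * Cl.ep y := by
  unfold Cl.ep
  rw [← Complex.exp_add]
  congr 1
  push_cast
  ring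

theorem ep_ne (x : ℝ) : Cl.ep x ≠ 0 := Complex.exp_ne_zero _

theorem ep_neg (x : ℝ) : Cl.ep (-x) = (Cl.ep x)⁻¹ := by
  unfold Cl.ep
  rw [← Complex.exp_neg]
  congr 1
  push_cast
  ring

theorem ep_sub (x y : ℝ) : Cl.ep (x - y) = Cl.ep x / Cl.ep y := by
  rw [sub_eq_add_neg, ep_add, ep_neg]
  rfl

theorem ep_two (x : ℝ) : Cl.ep x + (Cl.ep x)⁻¹ = ((2 * cos (2 * x) : ℝ) : ℂ) := by
  unfold Cl.ep
  rw [← Complex.exp_neg]
  push_cast
  rw [Complex.cos, show (2 : ℂ) * x * Complex.I = 2 * Complex.I * x by ring,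
    show -(2 * (x : ℂ)) * Complex.I = -(2 * Complex.I * x) by ring]
  ring

theorem ep_S1 (x : ℝ) : Cl.S1 (Cl.ep x) = ((sin (2 * x) : ℝ) : ℂ) := by
  unfold Cl.S1 Cl.ep
  rw [← Complex.exp_neg]
  push_cast
  rw [Complex.sin, show (2 : ℂ) * x * Complex.I = 2 * Complex.I * x by ring,
    show -(2 * (x : ℂ)) * Complex.I = -(2 * Complex.I * x) by ring]
  have h : Complex.I * Complex.I = -1 := Complex.I_mul_I
  rw [div_eq_div_iff (by simp) (by norm_num)]
  linear_combination (-(2 * (Complex.exp (-(2 * Complex.I * ↑x)) -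
    Complex.exp (2 * Complex.I * ↑x)))) * h

theorem ep_S2 (x : ℝ) : Cl.S2 (Cl.ep x) = ((sin (4 * x) : ℝ) : ℂ) := by
  have h := ep_S1 (2 * x)
  rw [show 2 * x = x + x by ring, ep_add] at h
  rw [show sin (4 * x) = sin (2 * (x + x)) by ring_nf, ← h]
  unfold Cl.S1 Cl.S2
  rw [sq, sq, mul_inv]

theorem th_eq : Cl.th = Cl.ep (π / 16) := by
  unfold Cl.th Cl.ep
  congr 1
  push_cast
  ring

theorem th3_eq : Cl.th ^ 3 = Cl.ep (3 * π / 16) := by
  rw [th_eq, show 3 * π / 16 = π / 16 + π / 16 + π / 16 by ring, ep_add, ep_add]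
  ring

theorem Dh_ep {x : ℝ} (h : cos (2 * x) + cos (π / 4) ≠ 0) :
    Cl.Dh (Cl.ep x) = ((-(√2 * P2W.E x) : ℝ) : ℂ) := by
  have h1 := ep_two x
  have h0 := ep_ne x
  have h2 : Cl.ep x ^ 2 + (√2 : ℂ) * Cl.ep x + 1 =
      Cl.ep x * ((2 * (cos (2 * x) + cos (π / 4)) : ℝ) : ℂ) := by
    have h3 : ((2 * (cos (2 * x) + cos (π / 4)) : ℝ) : ℂ) =
        Cl.ep x + (Cl.ep x)⁻¹ + (√2 : ℂ) := by
      rw [h1, cos_pi_div_four]
      push_cast
      ring
    rw [h3]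
    field_simp
    ring
  have h4 : ((2 * (cos (2 * x) + cos (π / 4)) : ℝ) : ℂ) ≠ 0 := by
    exact_mod_cast mul_ne_zero two_ne_zero h
  unfold Cl.Dh P2W.E
  rw [h2]
  push_cast at h4 ⊢
  have h5 : (Complex.cos (2 * x) + Complex.cos (π / 4)) ≠ 0 := right_ne_zero_of_mul h4
  field_simp

theorem KK_ep {x y : ℝ} (h1 : cos (2 * (x - y)) + cos (π / 4) ≠ 0)
    (h2 : cos (2 * (x + y)) + cos (π / 4) ≠ 0) :
    Cl.KK (Cl.ep x) (Cl.ep y) = ((√2 * P2W.NN x y : ℝ) : ℂ) := by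
  unfold Cl.KK P2W.NN
  rw [← ep_sub, ← ep_add, Dh_ep h1, Dh_ep h2]
  push_cast
  ring

theorem KK_ep' {x y : ℝ} (hx : 0 ≤ x) (hx' : x ≤ 3 * π / 16) (hy : 0 ≤ y) (hy' : y ≤ π / 16) :
    Cl.KK (Cl.ep x) (Cl.ep y) = ((√2 * P2W.NN x y : ℝ) : ℂ) := by
  have hpi := pi_pos
  exact KK_ep (P2F.cos_ne (abs_lt.2 ⟨by linarith, by linarith⟩))
    (P2F.cos_ne (abs_lt.2 ⟨by linarith, by linarith⟩))

/-- the kernel in closed form -/
theorem NN_H {x y : ℝ} (hx : 0 ≤ x) (hx' : x ≤ 3 * π / 16) (hy : 0 ≤ y) (hy' : y ≤ π / 16) :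
    P2W.NN x y = 2 * sin (2 * x) * sin (2 * y) / P2F.H (cos (2 * x)) (cos (2 * y)) := by
  have hpi := pi_pos
  exact P2F.NN_eq _ _ (P2F.cos_ne (abs_lt.2 ⟨by linarith, by linarith⟩))
    (P2F.cos_ne (abs_lt.2 ⟨by linarith, by linarith⟩))

theorem H_t (c : ℝ) : P2F.H c (cos (2 * (3 * π / 16))) =
    (c + cos (π / 8)) * (c - cos (3 * π / 8)) := by
  have h1 := P2F.r1_cube
  have h2 := P2F.r2_sq
  have h3 := P2F.r1_mul_r2
  have h4 := P2F.r1_sq
  have e1 : cos (π / 8) = P2F.r1 / 2 := by unfold P2F.r1; ring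
  have e2 : cos (3 * π / 8) = P2F.r2 / 2 := by unfold P2F.r2; ring
  have e3 : √2 * √2 = 2 := mul_self_sqrt (by norm_num)
  -- `r1 - r2 = √2 r2`
  have h5 : P2F.r1 - P2F.r2 = √2 * P2F.r2 := by
    have hp := P2F.r1_pos
    have : P2F.r1 * (P2F.r1 - P2F.r2) = P2F.r1 * (√2 * P2F.r2) := by
      linear_combination h4 - h3 - √2 * h3 - e3
    exact mul_left_cancel₀ hp.ne' this
  unfold P2F.H
  rw [show 2 * (3 * π / 16) = 3 * π / 8 by ring, e1, e2]
  linear_combination (-(c / 2)) * h5 + (1 / 4) * h2 + (1 / 4) * h3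

theorem sin_sin : 2 * √2 * sin (π / 8) * sin (3 * π / 8) = 1 := by
  have e1 : sin (3 * π / 8) = cos (π / 8) := by
    rw [show 3 * π / 8 = π / 2 - π / 8 by ring, sin_pi_div_two_sub]
  have e2 := sin_two_mul (π / 8)
  rw [show 2 * (π / 8) = π / 4 by ring, sin_pi_div_four] at e2
  have e3 : √2 * √2 = 2 := mul_self_sqrt (by norm_num)
  rw [e1]
  linear_combination (-√2) * e2 + (1 / 2) * e3

/-- `m_*` is the kernel at `t = 3 π / 16` -/
theorem NN_t {x : ℝ} (hx : 0 < x) (hx' : x ≤ π / 16) :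
    √2 * P2W.NN x (3 * π / 16) * sin (π / 8) = sin (2 * x) * P2F.mst (cos (2 * x)) := by
  have hpi := pi_pos
  have h1 : P2W.NN x (3 * π / 16) = 2 * sin (2 * x) * sin (2 * (3 * π / 16)) /
      P2F.H (cos (2 * x)) (cos (2 * (3 * π / 16))) :=
    P2F.NN_eq _ _ (P2F.cos_ne (abs_lt.2 ⟨by linarith, by linarith⟩))
      (P2F.cos_ne (abs_lt.2 ⟨by linarith, by linarith⟩))
  rw [h1, H_t]
  unfold P2F.mst
  rw [show 2 * (3 * π / 16) = 3 * π / 8 by ring]
  have h := sin_sin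
  calc √2 * (2 * sin (2 * x) * sin (3 * π / 8) /
        ((cos (2 * x) + cos (π / 8)) * (cos (2 * x) - cos (3 * π / 8)))) * sin (π / 8)
      = sin (2 * x) * (2 * √2 * sin (π / 8) * sin (3 * π / 8)) /
        ((cos (2 * x) + cos (π / 8)) * (cos (2 * x) - cos (3 * π / 8))) := by ring
    _ = _ := by rw [h]; ring

/-- **Output of the closing** at one set of nodes, in the form used by the glue. -/
def ClOut {n : ℕ} (x : Fin n → ℝ) (B : ℂ) : Prop :=
  ∀ a a' a'' : Fin n → ℂ, (∀ k, Cl.res1 x a (Cl.ep (x k)) = 0) →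
    (∀ k, Cl.resE x 0 a' (Cl.ep (x k)) = 0) → (∀ k, Cl.resD x a'' (Cl.ep (x k)) = 0) →
    Cl.res1 x a Cl.th ≠ 0 ∧ ∃ σ : ℂ, (σ = 1 ∨ σ = -1) ∧
      (Real.sin (Real.pi / 8) : ℝ) * Cl.resD x a'' Cl.th = σ * B * Cl.res1 x a Cl.th

/-- the node relation at one set of nodes -/
theorem rel {n : ℕ} {z : Fin n → ℝ} (hz : ∀ i, |z i| < 1 / 20) (hinj : Function.Injective z)
    (hx : Cl.Nd fun i => P2F.xx (z i)) {B : ℂ} (hcl : ClOut (fun i => P2F.xx (z i)) B) :
    ∃ β : ℝ, (β : ℂ) ^ 2 = B ^ 2 ∧ ∃ g : Fin n → ℝ, ∀ y, (y = π / 16 ∨ ∃ i, y = P2F.xx (z i)) →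
      P2F.mst (cos (2 * y)) - β = ∑ j, g j / P2F.H (cos (2 * y)) (cos (2 * P2F.xx (z j))) := by
  have hpi := pi_pos
  set x : Fin n → ℝ := fun i => P2F.xx (z i) with hxdef
  have s2 : (0 : ℝ) < √2 := sqrt_pos.2 (by norm_num)
  -- the weights
  obtain ⟨a, ha⟩ := NN_solve hz hinj fun i => sin (2 * x i) / √2
  obtain ⟨a', ha'⟩ := NN_solve hz hinj fun i => sin (4 * x i) / √2
  obtain ⟨a'', ha''⟩ := NN_solve hz hinj fun i => P2W.NN (x i) (3 * π / 16)
  have hK : ∀ i j, Cl.KK (Cl.ep (x i)) (Cl.ep (x j)) = ((√2 * P2W.NN (x i) (x j) : ℝ) : ℂ) :=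
    fun i j => KK_ep' (hx.pos i).le (by linarith [hx.lt i]) (hx.pos j).le (hx.lt j).le
  have hKp : ∀ j, Cl.KK Cl.th (Cl.ep (x j)) = ((√2 * P2W.NN (π / 16) (x j) : ℝ) : ℂ) := by
    intro j
    rw [th_eq]
    exact KK_ep' (by positivity) (by linarith) (hx.pos j).le (hx.lt j).le
  have hT : ∀ y, 0 < y → y ≤ π / 16 →
      Cl.KK (Cl.ep y) (Cl.th ^ 3) = ((√2 * P2W.NN y (3 * π / 16) : ℝ) : ℂ) := by
    intro y h1 h2
    rw [th3_eq]
    exact KK_ep (P2F.cos_ne (abs_lt.2 ⟨by linarith, by linarith⟩))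
      (P2F.cos_ne (abs_lt.2 ⟨by linarith, by linarith⟩))
  have c1 : ∀ k, Cl.res1 x (fun j => ((a j : ℝ) : ℂ)) (Cl.ep (x k)) = 0 := by
    intro k
    have h := ha k
    have h2 : ∑ j, a j * (√2 * P2W.NN (x k) (x j)) = sin (2 * x k) := by
      rw [eq_div_iff s2.ne'] at h
      rw [← h, Finset.sum_mul]
      exact Finset.sum_congr rfl fun j _ => by ring
    unfold Cl.res1
    rw [ep_S1]
    simp_rw [hK]
    rw [← h2]
    push_cast
    ring
  have c2 : ∀ k, Cl.resE x 0 (fun j => ((a' j : ℝ) : ℂ)) (Cl.ep (x k)) = 0 := by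
    intro k
    have h := ha' k
    have h2 : ∑ j, a' j * (√2 * P2W.NN (x k) (x j)) = sin (4 * x k) := by
      rw [eq_div_iff s2.ne'] at h
      rw [← h, Finset.sum_mul]
      exact Finset.sum_congr rfl fun j _ => by ring
    unfold Cl.resE
    rw [ep_S2]
    simp_rw [hK]
    rw [← h2]
    push_cast
    ring
  have c3 : ∀ k, Cl.resD x (fun j => ((a'' j : ℝ) : ℂ)) (Cl.ep (x k)) = 0 := by
    intro k
    have h := ha'' k
    have h2 : ∑ j, a'' j * (√2 * P2W.NN (x k) (x j)) = √2 * P2W.NN (x k) (3 * π / 16) := by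
      rw [← h, Finset.mul_sum]
      exact Finset.sum_congr rfl fun j _ => by ring
    unfold Cl.resD
    rw [hT _ (hx.pos k) (hx.lt k).le]
    simp_rw [hK]
    rw [← h2]
    push_cast
    ring
  obtain ⟨hne, σ, hσ, hcl⟩ := hcl _ _ _ c1 c2 c3
  -- real values at `p`
  set R1 : ℝ := sin (2 * (π / 16)) - ∑ j, a j * (√2 * P2W.NN (π / 16) (x j)) with hR1
  set RD : ℝ := √2 * P2W.NN (π / 16) (3 * π / 16) - ∑ j, a'' j * (√2 * P2W.NN (π / 16) (x j))
    with hRD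
  have v1 : Cl.res1 x (fun j => ((a j : ℝ) : ℂ)) Cl.th = (R1 : ℂ) := by
    unfold Cl.res1
    simp_rw [hKp]
    rw [th_eq, ep_S1, hR1]
    push_cast
    ring
  have v3 : Cl.resD x (fun j => ((a'' j : ℝ) : ℂ)) Cl.th = (RD : ℂ) := by
    unfold Cl.resD
    simp_rw [hKp]
    rw [show Cl.KK Cl.th (Cl.th ^ 3) = ((√2 * P2W.NN (π / 16) (3 * π / 16) : ℝ) : ℂ) by
      have := hT (π / 16) (by positivity) le_rfl
      rw [← th_eq] at this
      exact this, hRD]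
    push_cast
    ring
  rw [v1] at hne hcl
  rw [v3] at hcl
  have hR1ne : R1 ≠ 0 := by exact_mod_cast hne
  have hσ2 : σ ^ 2 = 1 := by
    rcases hσ with h | h <;> rw [h] <;> ring
  refine ⟨sin (π / 8) * RD / R1, ?_, fun j => sin (π / 8) * (a'' j - RD / R1 * a j) *
    (2 * √2 * sin (2 * x j)), ?_⟩
  · have hβ : ((sin (π / 8) * RD / R1 : ℝ) : ℂ) = σ * B := by
      push_cast
      rw [div_eq_iff hne]
      have : ((sin (π / 8) : ℝ) : ℂ) * (RD : ℂ) = σ * B * (R1 : ℂ) := hcl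
      rw [← this]
      push_cast
      ring
    rw [hβ, mul_pow, hσ2, one_mul]
  · intro y hy
    have hy0 : 0 < y ∧ y ≤ π / 16 := by
      rcases hy with rfl | ⟨i, rfl⟩
      · exact ⟨by positivity, le_rfl⟩
      · exact ⟨hx.pos i, (hx.lt i).le⟩
    obtain ⟨hy1, hy2⟩ := hy0
    have hsy : 0 < sin (2 * y) := sin_pos_of_pos_of_lt_pi (by linarith) (by linarith)
    -- the combination of the two residuals vanishes at `y`
    have key : (√2 * P2W.NN y (3 * π / 16) - ∑ j, a'' j * (√2 * P2W.NN y (x j))) -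
        RD / R1 * (sin (2 * y) - ∑ j, a j * (√2 * P2W.NN y (x j))) = 0 := by
      rcases hy with rfl | ⟨i, rfl⟩
      · rw [← hRD, ← hR1]
        field_simp
        ring
      · have e1 : ∑ j, a'' j * (√2 * P2W.NN (x i) (x j)) = √2 * P2W.NN (x i) (3 * π / 16) := by
          rw [← ha'' i, Finset.mul_sum]
          exact Finset.sum_congr rfl fun j _ => by ring
        have e2 : ∑ j, a j * (√2 * P2W.NN (x i) (x j)) = sin (2 * x i) := by
          have h := ha i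
          rw [eq_div_iff s2.ne'] at h
          rw [← h, Finset.sum_mul]
          exact Finset.sum_congr rfl fun j _ => by ring
        change (√2 * P2W.NN (x i) (3 * π / 16) - ∑ j, a'' j * (√2 * P2W.NN (x i) (x j))) -
          RD / R1 * (sin (2 * x i) - ∑ j, a j * (√2 * P2W.NN (x i) (x j))) = 0
        rw [e1, e2]
        ring
    have hN := NN_t hy1 hy2
    have hS : ∑ j, sin (π / 8) * (a'' j - RD / R1 * a j) * (2 * √2 * sin (2 * x j)) /
        P2F.H (cos (2 * y)) (cos (2 * P2F.xx (z j))) * sin (2 * y) =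
        sin (π / 8) * (∑ j, a'' j * (√2 * P2W.NN y (x j)) -
          RD / R1 * ∑ j, a j * (√2 * P2W.NN y (x j))) := by
      rw [Finset.mul_sum, ← Finset.sum_sub_distrib, Finset.mul_sum]
      refine Finset.sum_congr rfl fun j _ => ?_
      rw [NN_H hy1.le (by linarith) (hx.pos j).le (hx.lt j).le]
      ring
    apply mul_right_cancel₀ hsy.ne'
    rw [Finset.sum_mul, hS]
    linear_combination (-1) * hN + sin (π / 8) * key

end

end Pool.Agent.EXL.Glue
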