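import Pool.Agent.EXL.FormPar

/-!
# The form of `b(v)`

`b v` = the value at the empty state of `T(v) F` for a function `F` of states with
`F (pair b t) = 1`.  With the explicit denominator `den v` the product `b v * den v` is a
trigonometric polynomial of degree `4N + 4`, even in `e^{iv}`, with explicit extreme coefficients.
-/

namespace Pool.Agent.EXL.Fm

open Polynomial Complex Pat

variable {α : Type*} [DecidableEq α]

/-- The denominator of the caps. -/
noncomputable def Sc (v : ℂ) : ℂ := sin (3 * lam / 2 + v)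

/-- The reflection weight of the cap. -/
noncomputable def Kc (v : ℂ) : ℂ := sin (3 * lam / 2 - v) / Sc v

/-- The weight of a strand that ends at the cap. -/
noncomputable def kc (v : ℂ) : ℂ := sin (2 * v) / Sc v

/-- The auxiliary double column `T(v)`. -/
noncomputable def Tv (z : α → ℂ) (l r b t : α) (L : List α) (v : ℂ) :
    (Pat α → ℂ) → (Pat α → ℂ) :=
  TT (Kc (3 * lam - v)) (kc (3 * lam - v)) (Kc v) (kc v) (fun j => Wc (v - z j))
    (fun j => Wc (3 * lam - v - z j)) l r b t L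

/-- The denominator of `T(v)`. -/
noncomputable def den (z : α → ℂ) (L : List α) (v : ℂ) : ℂ :=
  Sc (3 * lam - v) * (L.map fun j => Dn (v - z j)).prod *
    (L.map fun j => Dn (3 * lam - v - z j)).prod * Sc v

theorem R_smul {K : Type*} [CommRing K] (d : K) (w : Wt K) (i j : α) (F : Pat α → K) :
    R w i j (fun p => d * F p) = fun p => d * R w i j F p := by
  funext p; simp only [R]; split_ifs <;> ring

theorem M_smul {K : Type*} [CommRing K] (d : K) (w : α → Wt K) (i : α) (L : List α)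
    (F : Pat α → K) : M w i L (fun p => d * F p) = fun p => d * M w i L F p := by
  induction L with
  | nil => rfl
  | cons j L ih => rw [M_cons, ih, R_smul]; rfl

theorem bot_smul {K : Type*} [CommRing K] (d κ k : K) (i j b : α) (F : Pat α → K) :
    bot κ k i j b (fun p => d * F p) = fun p => d * bot κ k i j b F p := by
  funext p; simp only [bot]; split_ifs <;> ring

/-- The numerator of `T(v) F`. -/
noncomputable def Qn (z : α → ℂ) (l r b t : α) (L : List α) (F : Pat α → ℂ) (v : ℂ) :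
    Pat α → ℂ :=
  bot3 (Sc (3 * lam - v)) (sin (3 * lam / 2 - (3 * lam - v))) (sin (2 * (3 * lam - v))) l r b
    (M6 (fun j => Dn (v - z j)) (fun j => Wn (v - z j)) r L
      (M6 (fun j => Dn (3 * lam - v - z j)) (fun j => Wn (3 * lam - v - z j)) l L
        (top3 (Sc v) (sin (3 * lam / 2 - v)) (sin (2 * v)) l r t F)))

theorem Qn_eq {z : α → ℂ} {l r b t : α} {L : List α} {F : Pat α → ℂ} {v : ℂ}
    (h1 : Sc v ≠ 0) (h2 : Sc (3 * lam - v) ≠ 0) (h3 : ∀ j ∈ L, Dn (v - z j) ≠ 0)
    (h4 : ∀ j ∈ L, Dn (3 * lam - v - z j) ≠ 0) (p : Pat α) :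
    Qn z l r b t L F v p = den z L v * Tv z l r b t L v F p := by
  have e1 : top3 (Sc v) (sin (3 * lam / 2 - v)) (sin (2 * v)) l r t F =
      fun p => Sc v * top (Kc v) (kc v) l r t F p := by
    funext q
    rw [← top3_eq, Kc, kc, mul_div_cancel₀ _ h1, mul_div_cancel₀ _ h1]
  have e2 : ∀ G : Pat α → ℂ, bot3 (Sc (3 * lam - v)) (sin (3 * lam / 2 - (3 * lam - v)))
      (sin (2 * (3 * lam - v))) l r b G =
      fun p => Sc (3 * lam - v) * bot (Kc (3 * lam - v)) (kc (3 * lam - v)) l r b G p := by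
    intro G
    funext q
    rw [← bot3_eq, Kc, kc, mul_div_cancel₀ _ h2, mul_div_cancel₀ _ h2]
  have e3 : ∀ G : Pat α → ℂ,
      M6 (fun j => Dn (3 * lam - v - z j)) (fun j => Wn (3 * lam - v - z j)) l L G =
      fun p => (L.map fun j => Dn (3 * lam - v - z j)).prod *
        M (fun j => Wc (3 * lam - v - z j)) l L G p := by
    intro G
    rw [← M6_eq]
    exact M6_congr G (fun j hj => rfl) (fun j hj => (Wc_sc (h4 j hj)).symm)
  have e4 : ∀ G : Pat α → ℂ,
      M6 (fun j => Dn (v - z j)) (fun j => Wn (v - z j)) r L G =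
      fun p => (L.map fun j => Dn (v - z j)).prod * M (fun j => Wc (v - z j)) r L G p := by
    intro G
    rw [← M6_eq]
    exact M6_congr G (fun j hj => rfl) (fun j hj => (Wc_sc (h3 j hj)).symm)
  rw [Qn, e1]
  simp only [M6_smul, e3, e4, bot3_smul, e2, M_smul, bot_smul]
  rw [den, Tv, TT]
  ring

/-! ### Degree and extreme coefficients -/

theorem sin2p (c : ℂ) : TP 2 (ap c) (am c) (fun v => sin (2 * v + c)) := by
  refine ⟨C (ap c) * X ^ 4 + C (am c), ?_, ?_, ?_, ?_⟩
  · refine (natDegree_add_le _ _).trans (max_le ?_ ?_)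
    · exact (natDegree_C_mul_X_pow_le _ _)
    · simp
  · simp [coeff_C]
  · simp
  · intro v
    simp only [eval_add, eval_mul, eval_C, eval_pow, eval_X]
    have h : exp (I * v) ≠ 0 := exp_ne_zero _
    have e1 : exp ((2 * v + c) * I) = exp (I * v) ^ 2 * exp (I * c) := by
      rw [← exp_nat_mul, ← exp_add]; congr 1; push_cast; ring
    have e2 : exp (-(2 * v + c) * I) = (exp (I * v))⁻¹ ^ 2 * exp (-(I * c)) := by
      rw [← exp_neg, ← exp_nat_mul, ← exp_add]; congr 1; push_cast; ring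
    rw [Complex.sin, e1, e2, ap, am]
    have hI : (I : ℂ) ≠ 0 := I_ne_zero
    field_simp
    ring_nf
    rw [I_sq]
    ring

theorem sin2m (c : ℂ) : TP 2 (am c) (ap c) (fun v => sin (c - 2 * v)) := by
  have h := (sin2p (-c)).neg
  refine (h.congr fun v => ?_).cast ?_ ?_
  · rw [← Complex.sin_neg]; ring_nf
  · rw [ap, am, mul_neg]; ring
  · rw [ap, am, mul_neg, neg_neg]; ring

/-- The state with one strand between the two ends. -/
def full (b t : α) : Pat α := cup b t Pat.empty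

theorem swap_cup_empty {l b t : α} (hlb : l ≠ b) (hlt : l ≠ t) (hbt : b ≠ t) :
    swap l t (cup l b (Pat.empty : Pat α)) = full b t := by
  ext x
  simp only [full, swap, cup, Pat.empty, id, and_self, if_true, Equiv.swap_apply_def]
  grind

/-- The pieces of the leading computation. -/
theorem lead_aux {c c' : α → ℂ} {w w' : α → Wt ℂ} {l r b t : α} {L : List α} {kb kt : ℂ}
    (hlr : l ≠ r) (hlb : l ≠ b) (hlt : l ≠ t) (hrb : r ≠ b) (hrt : r ≠ t) (hbt : b ≠ t)
    (hl : l ∉ L) (hr : r ∉ L) (hb : b ∉ L) {F : Pat α → ℂ} (hF : F (full b t) = 1)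
    (h1 : ∀ j ∈ L, (w j).v = c j) (h2 : ∀ j ∈ L, (w j).u1 = 0) (h3 : ∀ j ∈ L, (w j).u2 = 0)
    (h1' : ∀ j ∈ L, (w' j).v = c' j) (h2' : ∀ j ∈ L, (w' j).u1 = 0)
    (h3' : ∀ j ∈ L, (w' j).u2 = 0) :
    bot3 0 0 kb l r b (M6 c w r L (M6 c' w' l L (top3 0 0 kt l r t F))) Pat.empty =
      2 * kb * kt * ((L.map c).prod * (L.map c').prod) := by
  have key : ∀ {x y : α}, x ≠ y → x ≠ b → x ≠ t → y ≠ b → (∀ j ∈ L, j ≠ x) → (∀ j ∈ L, j ≠ b) →
      ∀ j ∈ L, (cup x b (Pat.empty : Pat α)) j = j := by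
    intro x y _ _ _ _ h5 h6 j hj
    rw [cup_out _ (h5 j hj) (h6 j hj)]; rfl
  have hL : ∀ j ∈ L, j ≠ l := fun j hj e => hl (e ▸ hj)
  have hL' : ∀ j ∈ L, j ≠ r := fun j hj e => hr (e ▸ hj)
  have hLb : ∀ j ∈ L, j ≠ b := fun j hj e => hb (e ▸ hj)
  have e1 : M6 c w r L (M6 c' w' l L (top3 0 0 kt l r t F)) (cup l b Pat.empty) =
      (L.map c).prod * ((L.map c').prod * kt) := by
    have hp := key hlr hlb hlt hrb hL hLb
    rw [M6_lead h1 h2 h3 _ hp, M6_lead h1' h2' h3' _ hp]
    have q1 : (cup l b (Pat.empty : Pat α)) l ≠ l := by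
      simp [cup, Pat.empty, hlb.symm]
    have q2 : (cup l b (Pat.empty : Pat α)) r = r := by
      rw [cup_out _ hlr.symm hrb]; rfl
    have q3 : (cup l b (Pat.empty : Pat α)) t = t := by
      rw [cup_out _ hlt.symm hbt.symm]; rfl
    simp only [top3, q1, q2, q3, if_true, if_false, swap_cup_empty hlb hlt hbt, hF, mul_one]
  have e2 : M6 c w r L (M6 c' w' l L (top3 0 0 kt l r t F)) (cup r b Pat.empty) =
      (L.map c).prod * ((L.map c').prod * kt) := by
    have hp := key hlr.symm hrb hrt hlb hL' hLb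
    rw [M6_lead h1 h2 h3 _ hp, M6_lead h1' h2' h3' _ hp]
    have q1 : (cup r b (Pat.empty : Pat α)) r ≠ r := by
      simp [cup, Pat.empty, hrb.symm]
    have q2 : (cup r b (Pat.empty : Pat α)) l = l := by
      rw [cup_out _ hlr hlb]; rfl
    have q3 : (cup r b (Pat.empty : Pat α)) t = t := by
      rw [cup_out _ hrt.symm hbt.symm]; rfl
    simp only [top3, q1, q2, q3, if_true, if_false, swap_cup_empty hrb hrt hbt, hF, mul_one]
  have z1 : (Pat.empty : Pat α) l = l := rfl
  have z2 : (Pat.empty : Pat α) r = r := rfl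
  have z3 : (Pat.empty : Pat α) b = b := rfl
  simp only [bot3, z1, z2, z3, if_true, e1, e2, zero_mul, zero_add]
  ring

theorem Qn_TP {z : α → ℂ} {l r b t : α} {L : List α} {F : Pat α → ℂ}
    (hlr : l ≠ r) (hlb : l ≠ b) (hlt : l ≠ t) (hrb : r ≠ b) (hrt : r ≠ t) (hbt : b ≠ t)
    (hl : l ∉ L) (hr : r ∉ L) (hb : b ∉ L) (hF : F (full b t) = 1) :
    TP (4 * L.length + 4)
      (2 * am (6 * lam) * ap 0 * ((L.map fun j => dp (z j)).prod * (L.map fun j => dp (-z j)).prod))
      (2 * ap (6 * lam) * am 0 * ((L.map fun j => dm (z j)).prod * (L.map fun j => dm (-z j)).prod))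
      (fun v => Qn z l r b t L F v Pat.empty) := by
  choose x y x' y' hw using TPW_Wn
  choose p q p' q' hw' using TPW_Wn'
  have h0 : TPF 0 F F (fun _ : ℂ => F) := fun p => TP.const (F p)
  have t1 : TPF (2 + 0) (top3 0 0 (ap 0) l r t F) (top3 0 0 (am 0) l r t F)
      (fun v => top3 (Sc v) (sin (3 * lam / 2 - v)) (sin (2 * v)) l r t F) := by
    refine TPF.top3 (c := Sc) (κ := fun v => sin (3 * lam / 2 - v)) (k := fun v => sin (2 * v))
      ?_ ?_ ?_ h0 l r t
    · exact (sinp (f := fun v => 3 * lam / 2 + v) (3 * lam / 2) (fun v => by ring)).succ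
    · exact (sinm (f := fun v => 3 * lam / 2 - v) (3 * lam / 2) (fun v => by ring)).succ
    · exact (sin2p 0).congr fun v => by rw [add_zero]
  have t2 := TPF.M6 (a := fun j => dp (-z j)) (b := fun j => dm (-z j))
    (A := fun j => WA (-z j) (p (z j)) (q (z j))) (B := fun j => WB (-z j) (p' (z j)) (q' (z j)))
    (w₀ := fun v j => Dn (3 * lam - v - z j)) (w := fun v j => Wn (3 * lam - v - z j)) l L
    (fun j _ => TP_Dn' (z j)) (fun j _ => hw' (z j)) t1
  have t3 := TPF.M6 (a := fun j => dp (z j)) (b := fun j => dm (z j))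
    (A := fun j => WA (z j) (x (z j)) (y (z j))) (B := fun j => WB (z j) (x' (z j)) (y' (z j)))
    (w₀ := fun v j => Dn (v - z j)) (w := fun v j => Wn (v - z j)) r L
    (fun j _ => TP_Dn (z j)) (fun j _ => hw (z j)) t2
  have t4 := TPF.bot3 (m := 2) (a := 0) (b := 0) (a' := 0) (b' := 0) (a'' := am (6 * lam))
    (b'' := ap (6 * lam)) (c := fun v => Sc (3 * lam - v))
    (κ := fun v => sin (3 * lam / 2 - (3 * lam - v))) (k := fun v => sin (2 * (3 * lam - v)))
    ((sinm (f := fun v => 3 * lam / 2 + (3 * lam - v)) (9 * lam / 2) (fun v => by ring)).succ)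
    ((sinp (f := fun v => 3 * lam / 2 - (3 * lam - v)) (-(3 * lam / 2)) (fun v => by ring)).succ)
    ((sin2m (6 * lam)).congr fun v => by congr 1; ring) t3 l r b
  have t5 := t4 Pat.empty
  have e : 2 + (2 * L.length + (2 * L.length + (2 + 0))) = 4 * L.length + 4 := by ring
  rw [e] at t5
  refine t5.cast ?_ ?_
  · exact lead_aux hlr hlb hlt hrb hrt hbt hl hr hb hF (fun _ _ => rfl) (fun _ _ => rfl)
      (fun _ _ => rfl) (fun _ _ => rfl) (fun _ _ => rfl) (fun _ _ => rfl)
  · exact lead_aux hlr hlb hlt hrb hrt hbt hl hr hb hF (fun _ _ => rfl) (fun _ _ => rfl)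
      (fun _ _ => rfl) (fun _ _ => rfl) (fun _ _ => rfl) (fun _ _ => rfl)

/-! ### Parity -/

theorem Qn_add_pi {z : α → ℂ} {l r b t : α} {L : List α} {F : Pat α → ℂ}
    (hlr : l ≠ r) (hlb : l ≠ b) (hlt : l ≠ t) (hrb : r ≠ b) (hrt : r ≠ t)
    (hl : l ∉ L) (hr : r ∉ L) (v : ℂ) (p : Pat α) :
    Qn z l r b t L F (v + Real.pi) p = Qn z l r b t L F v p := by
  have a1 : Sc (v + Real.pi) = -Sc v := by rw [Sc, Sc, ← add_assoc, sin_add_pi]
  have a2 : sin (3 * lam / 2 - (v + Real.pi)) = -sin (3 * lam / 2 - v) := by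
    rw [show 3 * lam / 2 - (v + Real.pi) = (3 * lam / 2 - v) - Real.pi by ring, sin_sub_pi]
  have a3 : sin (2 * (v + Real.pi)) = sin (2 * v) := by
    rw [show 2 * (v + (Real.pi : ℂ)) = 2 * v + 2 * Real.pi by ring, sin_add_two_pi]
  have a4 : Sc (3 * lam - (v + Real.pi)) = -Sc (3 * lam - v) := by
    rw [Sc, Sc, show 3 * lam / 2 + (3 * lam - (v + Real.pi)) =
      (3 * lam / 2 + (3 * lam - v)) - Real.pi by ring, sin_sub_pi]
  have a5 : sin (3 * lam / 2 - (3 * lam - (v + Real.pi))) =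
      -sin (3 * lam / 2 - (3 * lam - v)) := by
    rw [show 3 * lam / 2 - (3 * lam - (v + Real.pi)) =
      (3 * lam / 2 - (3 * lam - v)) + Real.pi by ring, sin_add_pi]
  have a6 : sin (2 * (3 * lam - (v + Real.pi))) = sin (2 * (3 * lam - v)) := by
    rw [show 2 * (3 * lam - (v + (Real.pi : ℂ))) = 2 * (3 * lam - v) - 2 * Real.pi by ring,
      sin_sub_two_pi]
  set T := top3 (Sc v) (sin (3 * lam / 2 - v)) (sin (2 * v)) l r t F with hT
  have t1 : top3 (Sc (v + Real.pi)) (sin (3 * lam / 2 - (v + Real.pi))) (sin (2 * (v + Real.pi)))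
      l r t F = fun p => (-1) * (chi l p * chi r p * T p) := by
    funext q
    rw [a1, a2, a3, top3_chi hlr hlt hrt, hT]; ring
  set G1 : Pat α → ℂ := fun p => chi l p * chi r p * T p with hG1
  have b0 : ∀ j : α, Dn (3 * lam - (v + Real.pi) - z j) = Dn (3 * lam - v - z j) := fun j => by
    rw [show 3 * lam - (v + Real.pi) - z j = (3 * lam - v - z j) - Real.pi by ring, Dn_sub_pi]
  have b1 : ∀ j : α, Wn (3 * lam - (v + Real.pi) - z j) = (Wn (3 * lam - v - z j)).par :=
    fun j => by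
    rw [show 3 * lam - (v + Real.pi) - z j = (3 * lam - v - z j) - Real.pi by ring, Wn_sub_pi]
  have c0 : ∀ j : α, Dn (v + Real.pi - z j) = Dn (v - z j) := fun j => by
    rw [show v + Real.pi - z j = (v - z j) + Real.pi by ring, Dn_add_pi]
  have c1 : ∀ j : α, Wn (v + Real.pi - z j) = (Wn (v - z j)).par := fun j => by
    rw [show v + Real.pi - z j = (v - z j) + Real.pi by ring, Wn_add_pi]
  have m1 := M6_chi (w₀ := fun j => Dn (3 * lam - v - z j))
    (w₀' := fun j => Dn (3 * lam - (v + Real.pi) - z j)) (w := fun j => Wn (3 * lam - v - z j))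
    (w' := fun j => Wn (3 * lam - (v + Real.pi) - z j)) hlr hl hr (fun j _ => b0 j)
    (fun j _ => b1 j) (G := T) (G' := G1) (fun p => rfl)
  have m2 := M6_chi (w₀ := fun j => Dn (v - z j))
    (w₀' := fun j => Dn (v + Real.pi - z j)) (w := fun j => Wn (v - z j))
    (w' := fun j => Wn (v + Real.pi - z j)) hlr.symm hr hl (fun j _ => c0 j)
    (fun j _ => c1 j)
    (G := M6 (fun j => Dn (3 * lam - v - z j)) (fun j => Wn (3 * lam - v - z j)) l L T)
    (G' := M6 (fun j => Dn (3 * lam - (v + Real.pi) - z j))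
      (fun j => Wn (3 * lam - (v + Real.pi) - z j)) l L G1)
    (fun p => by rw [m1 p, mul_comm (chi l p)])
  rw [Qn, Qn, t1, M6_smul, M6_smul, a4, a5, a6]
  refine bot3_chi hlr hlb hrb ?_ p
  intro q
  rw [m2 q]; ring

theorem sum_even_odd (f : ℕ → ℂ) (n : ℕ) : ∑ i ∈ Finset.range (2 * n + 1), f i =
    ∑ k ∈ Finset.range (n + 1), f (2 * k) + ∑ k ∈ Finset.range n, f (2 * k + 1) := by
  induction n with
  | zero => simp
  | succ n ih =>
    rw [show 2 * (n + 1) + 1 = (2 * n + 1) + 1 + 1 by ring, Finset.sum_range_succ,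
      Finset.sum_range_succ, ih, Finset.sum_range_succ (fun k => f (2 * k)) (n + 1),
      Finset.sum_range_succ (fun k => f (2 * k + 1)) n]
    rw [show 2 * n + 1 + 1 = 2 * (n + 1) by ring]
    ring

/-- A polynomial with `P(-w) = P(w)` for all `w` of the form `e^{iv}` is a polynomial in the
square of the variable. -/
theorem even_poly (P : ℂ[X]) (n : ℕ) (hd : P.natDegree ≤ 2 * n)
    (h : ∀ v : ℂ, P.eval (-exp (I * v)) = P.eval (exp (I * v))) :
    ∃ Q : ℂ[X], Q.natDegree ≤ n ∧ Q.coeff n = P.coeff (2 * n) ∧ Q.coeff 0 = P.coeff 0 ∧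
      ∀ v : ℂ, P.eval (exp (I * v)) = Q.eval (exp (I * v) ^ 2) := by
  refine ⟨∑ k ∈ Finset.range (n + 1), C (P.coeff (2 * k)) * X ^ k, ?_, ?_, ?_, ?_⟩
  · refine natDegree_sum_le_of_forall_le _ _ fun k hk => ?_
    exact (natDegree_C_mul_X_pow_le _ _).trans (by simp at hk; omega)
  · simp [finset_sum_coeff, coeff_X_pow]
  · simp [finset_sum_coeff, coeff_X_pow]
  · intro v
    have e : ∀ w : ℂ, P.eval w = ∑ k ∈ Finset.range (n + 1), P.coeff (2 * k) * (w ^ 2) ^ k +
        w * ∑ k ∈ Finset.range n, P.coeff (2 * k + 1) * (w ^ 2) ^ k := by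
      intro w
      rw [eval_eq_sum_range' (show P.natDegree < 2 * n + 1 by omega), sum_even_odd,
        Finset.mul_sum]
      congr 1
      · refine Finset.sum_congr rfl fun k _ => ?_
        rw [pow_mul]
      · refine Finset.sum_congr rfl fun k _ => ?_
        rw [pow_succ, pow_mul]; ring
    have h1 := h v
    rw [e, e (exp (I * v)), neg_sq] at h1
    rw [e, eval_finset_sum]
    simp only [eval_mul, eval_C, eval_pow, eval_X]
    linear_combination (-1 / 2) * h1

/-! ### The form of `b` -/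

theorem prod_mul_exp {f g : α → ℂ} (L : List α) :
    (L.map f).prod * (L.map g).prod = (L.map fun j => f j * g j).prod := by
  induction L with
  | nil => simp
  | cons j L ih => simp only [List.map_cons, List.prod_cons, ← ih]; ring

theorem dp_mul (z : ℂ) : dp z * dp (-z) = exp (I * (10 * lam)) / 16 := by
  rw [dp, dp, show -exp (I * (5 * lam - 2 * z)) / 4 * (-exp (I * (5 * lam - 2 * -z)) / 4) =
    exp (I * (5 * lam - 2 * z)) * exp (I * (5 * lam - 2 * -z)) / 16 by ring, ← exp_add]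
  congr 2; ring

theorem dm_mul (z : ℂ) : dm z * dm (-z) = exp (-(I * (10 * lam))) / 16 := by
  rw [dm, dm, show -exp (-(I * (5 * lam - 2 * z))) / 4 * (-exp (-(I * (5 * lam - 2 * -z))) / 4) =
    exp (-(I * (5 * lam - 2 * z))) * exp (-(I * (5 * lam - 2 * -z))) / 16 by ring, ← exp_add]
  congr 2; ring

/-- **The form of `b(v)`** (H2): with the explicit denominator `den`, `b v = T(v) F (empty)` is
`e^{-(4N+4)iv} P(e^{2iv}) / den v` with `deg P ≤ 4N + 4` and explicit extreme coefficients. -/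
theorem b_form {z : α → ℂ} {l r b t : α} {L : List α} {F : Pat α → ℂ}
    (hlr : l ≠ r) (hlb : l ≠ b) (hlt : l ≠ t) (hrb : r ≠ b) (hrt : r ≠ t) (hbt : b ≠ t)
    (hl : l ∉ L) (hr : r ∉ L) (hb : b ∉ L) (hF : F (full b t) = 1) :
    ∃ P : ℂ[X], P.natDegree ≤ 4 * L.length + 4 ∧
      P.coeff (4 * L.length + 4) =
        exp (-(I * (6 * lam))) / 2 * (exp (I * (10 * lam)) / 16) ^ L.length ∧
      P.coeff 0 = exp (I * (6 * lam)) / 2 * (exp (-(I * (10 * lam))) / 16) ^ L.length ∧
      ∀ v : ℂ, Sc v ≠ 0 → Sc (3 * lam - v) ≠ 0 → (∀ j ∈ L, Dn (v - z j) ≠ 0) →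
        (∀ j ∈ L, Dn (3 * lam - v - z j) ≠ 0) →
        Tv z l r b t L v F Pat.empty * den z L v * exp (2 * I * v) ^ (2 * L.length + 2) =
          P.eval (exp (2 * I * v)) := by
  obtain ⟨P, h1, h2, h3, h4⟩ := Qn_TP (z := z) hlr hlb hlt hrb hrt hbt hl hr hb hF
  beta_reduce at h4
  have hper : ∀ v : ℂ, P.eval (-exp (I * v)) = P.eval (exp (I * v)) := by
    intro v
    have e1 : exp (I * (v + Real.pi)) = -exp (I * v) := by
      rw [mul_add, exp_add, mul_comm I (Real.pi : ℂ), exp_pi_mul_I]; ring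
    have e2 := h4 (v + Real.pi)
    rw [e1, Qn_add_pi hlr hlb hlt hrb hrt hl hr] at e2
    rw [← e2, ← h4 v]
    congr 1
    rw [show 4 * L.length + 4 = 2 * (2 * L.length + 2) by ring, pow_mul, pow_mul, neg_sq]
  obtain ⟨Q, k1, k2, k3, k4⟩ := even_poly P (4 * L.length + 4) h1 hper
  refine ⟨Q, k1, ?_, ?_, ?_⟩
  · rw [k2, h2, prod_mul_exp]
    simp only [dp_mul, List.map_const', List.prod_replicate, am, ap]
    rw [mul_zero, exp_zero]
    have hI : (2 * I) * (2 * I) = -4 := by linear_combination 4 * I_sq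
    have : 2 * (-exp (-(I * (6 * lam))) / (2 * I)) * (1 / (2 * I)) =
        exp (-(I * (6 * lam))) / 2 := by
      rw [show 2 * (-exp (-(I * (6 * lam))) / (2 * I)) * (1 / (2 * I)) =
        -2 * exp (-(I * (6 * lam))) / ((2 * I) * (2 * I)) by field_simp, hI]
      ring
    rw [this]
  · rw [k3, h3, prod_mul_exp]
    simp only [dm_mul, List.map_const', List.prod_replicate, am, ap]
    rw [mul_zero, neg_zero, exp_zero]
    have hI : (2 * I) * (2 * I) = -4 := by linear_combination 4 * I_sq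
    have : 2 * (exp (I * (6 * lam)) / (2 * I)) * (-1 / (2 * I)) = exp (I * (6 * lam)) / 2 := by
      rw [show 2 * (exp (I * (6 * lam)) / (2 * I)) * (-1 / (2 * I)) =
        -2 * exp (I * (6 * lam)) / ((2 * I) * (2 * I)) by field_simp, hI]
      ring
    rw [this]
  · intro v c1 c2 c3 c4
    have e0 : exp (2 * I * v) = exp (I * v) ^ 2 := by
      rw [← exp_nat_mul]; congr 1; push_cast; ring
    rw [e0, ← k4 v, ← h4 v, Qn_eq c1 c2 c3 c4, ← pow_mul]
    rw [show 2 * (2 * L.length + 2) = 4 * L.length + 4 by ring]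
    ring

end Pool.Agent.EXL.Fm
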