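import Pool.Agent.EXL.Inst
import Pool.Agent.EXL.H1c

/-!
# Continuity of the concrete operators in the rapidities

`OCont X z0`: the family `X` of operators is continuous at `z0` (also when the function it is
applied to varies continuously).
-/

namespace Pool.Agent.EXL

open Pat

section weights

variable {Z : Type*} [TopologicalSpace Z] {u v : Z → ℂ} {z0 : Z}

theorem continuous_Dn : Continuous Dn := by
  unfold Dn PP
  fun_prop

theorem continuous_Sn : Continuous Sn := by
  unfold Sn
  fun_prop

theorem wtCont_rwt (hu : ContinuousAt u z0) (h : okR (u z0)) :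
    HS.WtCont (fun z => rwt (u z)) z0 := by
  have hi : ContinuousAt (fun z => (Dn (u z))⁻¹) z0 :=
    (continuous_Dn.continuousAt.comp hu).inv₀ h
  have he : ContinuousAt (fun z => Complex.exp (u z * Complex.I)) z0 :=
    Complex.continuous_exp.continuousAt.comp (hu.mul continuousAt_const)
  constructor <;> simp only [rwt, wt]
  · exact ((continuousAt_const.mul ((he.pow 2).sub continuousAt_const)).mul
      (continuousAt_const.sub (he.pow 2))).mul hi
  · exact ((continuousAt_const.mul he).mul (continuousAt_const.sub (he.pow 2))).mul hi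
  · exact (((continuousAt_const.mul he).mul continuousAt_const).mul
      ((he.pow 2).sub continuousAt_const)).mul hi
  · exact ((continuousAt_const.sub (he.pow 2)).mul (continuousAt_const.sub (he.pow 2))).mul hi
  · exact ((continuousAt_const.mul ((he.pow 2).sub continuousAt_const)).mul
      (continuousAt_const.sub (he.pow 2))).neg.mul hi

theorem cont_kK (hv : ContinuousAt v z0) (h : okC (v z0)) :
    ContinuousAt (fun z => kK (v z)) z0 :=
  (continuous_Sn.continuousAt.comp hv.neg).div (continuous_Sn.continuousAt.comp hv) h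

theorem cont_kk (hv : ContinuousAt v z0) (h : okC (v z0)) :
    ContinuousAt (fun z => kk (v z)) z0 :=
  (Complex.continuous_sin.continuousAt.comp (continuousAt_const.mul hv)).div
    (continuous_Sn.continuousAt.comp hv) h

end weights

section ocont

variable {Z : Type*} [TopologicalSpace Z] {z0 : Z} {ι α : Type*} [DecidableEq ι] [DecidableEq α]

/-- A family of operators that is continuous at a point. -/
def OCont (X : Z → Opr α) (z0 : Z) : Prop :=
  ∀ F : Z → Pat α → ℂ, (∀ p, ContinuousAt (fun z => F z p) z0) →
    ∀ p, ContinuousAt (fun z => X z (F z) p) z0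

omit [DecidableEq α] in
theorem OCont.one : OCont (fun _ : Z => (1 : Opr α)) z0 := fun _ hF p => hF p

omit [DecidableEq α] in
theorem OCont.zero : OCont (fun _ : Z => (0 : Opr α)) z0 := fun _ _ _ => continuousAt_const

omit [DecidableEq α] in
theorem OCont.mul {X Y : Z → Opr α} (hX : OCont X z0) (hY : OCont Y z0) :
    OCont (fun z => X z * Y z) z0 := fun F hF p => hX _ (hY F hF) p

omit [DecidableEq α] in
theorem OCont.apply {X : Z → Opr α} (hX : OCont X z0) (F : Pat α → ℂ) (p : Pat α) :
    ContinuousAt (fun z => X z F p) z0 := hX (fun _ => F) (fun _ => continuousAt_const) p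

variable {L : LabMap ι α} {i j c : ι} {u v : Z → ℂ}

theorem ocont_R (hu : ContinuousAt u z0) (h : okR (u z0)) :
    OCont (fun z => (ops L).R i j (u z)) z0 := by
  by_cases hij : i = j
  · subst hij
    simp only [ops_R0]
    exact OCont.zero
  · simp only [ops_R hij]
    exact fun F hF p => HS.cont_R (wtCont_rwt hu h) _ _ hF p

theorem ocont_b (hv : ContinuousAt v z0) (h : okC (3 * Real.pi / 8 - v z0)) :
    OCont (fun z => (ops L).b i j (v z)) z0 := by
  by_cases hij : i = j
  · subst hij
    simp only [ops_b0]
    exact OCont.zero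
  · simp only [ops_b hij]
    exact fun F hF p => HS.cont_bot (cont_kK (v := fun z => 3 * Real.pi / 8 - v z)
      (continuousAt_const.sub hv) h) (cont_kk (v := fun z => 3 * Real.pi / 8 - v z)
      (continuousAt_const.sub hv) h) _ _ _ hF p

theorem ocont_t (hv : ContinuousAt v z0) (h : okC (v z0)) :
    OCont (fun z => (ops L).t i j (v z)) z0 := by
  by_cases hij : i = j
  · subst hij
    simp only [ops_t0]
    exact OCont.zero
  · simp only [ops_t hij]
    exact fun F hF p => HS.cont_top (cont_kK hv h) (cont_kk hv h) _ _ _ hF p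

theorem ocont_bc : OCont (fun _ : Z => (ops L).bc c) z0 := by
  simp only [ops_bc]
  exact fun F hF p => HS.cont_bc _ _ hF p

theorem ocont_tc : OCont (fun _ : Z => (ops L).tc c) z0 := by
  simp only [ops_tc]
  exact fun F hF p => HS.cont_tc _ _ hF p

theorem ocont_M {z : Z → ι → ℂ} {rows : List ι} (hw : ContinuousAt u z0)
    (hz : ∀ r ∈ rows, ContinuousAt (fun y => z y r) z0)
    (h : ∀ r ∈ rows, okR (u z0 - z z0 r)) :
    OCont (fun y => (ops L).M (z y) i (u y) rows) z0 := by
  induction rows with
  | nil => exact OCont.one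
  | cons r rows ih =>
    simp only [Glob.Ops.M_cons]
    exact (ocont_R (u := fun y => u y - z y r) (hw.sub (hz r (by simp))) (h r (by simp))).mul
      (ih (fun q hq => hz q (by simp [hq])) fun q hq => h q (by simp [hq]))

/-- The double column is continuous in the rapidities. -/
theorem ocont_T {z : Z → ι → ℂ} {rows : List ι} (hv : ContinuousAt v z0)
    (hz : ∀ r ∈ rows, ContinuousAt (fun y => z y r) z0)
    (h1 : okC (v z0)) (h2 : okC (3 * Real.pi / 8 - v z0))
    (h3 : ∀ r ∈ rows, okR (v z0 - z z0 r))
    (h4 : ∀ r ∈ rows, okR (3 * Real.pi / 16 + 3 * Real.pi / 16 - v z0 - z z0 r)) :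
    OCont (fun y => (ops L).T (z y) i j (v y) rows) z0 := by
  simp only [Glob.Ops.T, ops_h]
  exact (((ocont_b hv h2).mul (ocont_M hv hz h3)).mul
    (ocont_M (u := fun y => 3 * Real.pi / 16 + 3 * Real.pi / 16 - v y)
      (continuousAt_const.sub hv) hz h4)).mul (ocont_t hv h1)

/-- The ordinary column is continuous in the rapidities. -/
theorem ocont_C {z : Z → ι → ℂ} {rows : List ι}
    (hz : ∀ r ∈ rows, ContinuousAt (fun y => z y r) z0)
    (h : ∀ r ∈ rows, okR (3 * Real.pi / 16 - z z0 r)) :
    OCont (fun y => (ops L).C (z y) c rows) z0 := by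
  simp only [Glob.Ops.C, ops_h]
  exact (ocont_bc.mul (ocont_M (u := fun _ => 3 * Real.pi / 16) continuousAt_const hz h)).mul
    ocont_tc

end ocont

end Pool.Agent.EXL
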