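import Pool.Agent.EXL.H1d

/-!
# Existence and continuity of the half strip function of the concrete operators (H1)
-/

namespace Pool.Agent.EXL.HS

open _root_.Pool.Agent.EXL.Pat Filter Topology

variable {ι α : Type*} [DecidableEq ι] [DecidableEq α] {L : LabMap ι α}
variable {rows : List ι} {a : Set ι} {A : Pat α → Prop}

/-- **H1**: near a point `x0` where `1 - C` is injective on the live admissible states, the half strip
function exists, it is common to the column and all double columns, and `B`, `F` are continuous. -/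
theorem H1 [Finite α] (S : Setup L rows a A) (W : Glob.Laws (ops L) okR okC) {Z : Type*}
    [TopologicalSpace Z] {x0 : Z} (z : Z → ι → ℂ) (hz : ∀ r ∈ rows, ContinuousAt (fun x => z x r) x0)
    (h0 : ∀ r ∈ rows, okR ((ops L).h - z x0 r)) {c i0 j0 : ι} (hc : c ∈ a) (hi0 : i0 ∈ a)
    (hj0 : j0 ∈ a) (hij0 : i0 ≠ j0)
    (inj : Inj L.flo L.cei A (fun F => (ops L).C (z x0) c rows F)) :
    ∃ (F : Z → Pat α → ℂ) (B : Z → ℂ), ContinuousAt B x0 ∧ (∀ p, ContinuousAt (fun x => F x p) x0) ∧
      (∀ x, F x Pat.empty = 0) ∧ (∀ x p, ¬ A p → F x p = 0) ∧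
      ∀ᶠ x in 𝓝 x0, (∀ r ∈ rows, okR ((ops L).h - z x r)) ∧ F x (full L.flo L.cei) = 1 ∧
        Half L.flo L.cei A (fun F => (ops L).C (z x) c rows F) (B x) (F x) ∧
        Inj L.flo L.cei A (fun F => (ops L).C (z x) c rows F) ∧
        Glob.Half (ops L) okR okC (z x) rows a (Nsub A) (F x) dE
          (fun v => (ops L).T (z x) i0 j0 v rows (F x) Pat.empty) (B x) := by
  have hc1 := S.nmem c hc
  -- continuity of the column
  have hcont : ∀ (F : Pat α → ℂ) (p : Pat α),
      ContinuousAt (fun x => (ops L).C (z x) c rows F p) x0 := by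
    intro F p
    have e : (fun x => (ops L).C (z x) c rows F p) = fun x =>
        CC (fun s => rwt (3 * Real.pi / 16 - zs L (z x) s)) (L.lab c) L.flo L.cei
          (rows.map L.lab) F p := by
      funext x
      rw [ops_C_apply (z x) hc1]
    rw [e]
    apply cont_CC (w := fun x s => rwt (3 * Real.pi / 16 - zs L (z x) s)) (L.lab c) L.flo L.cei
      (F := fun _ => F) _ (fun _ => continuousAt_const)
    intro s hs
    obtain ⟨r, hr, rfl⟩ := List.mem_map.1 hs
    simp only [zs_lab]
    exact cont_rwt (continuousAt_const.sub (hz r hr)) (h0 r hr)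
  obtain ⟨F, B, hev, hFc, hBc, hFe, hFoff⟩ := exists_half L.flo_ne S.full
    (fun x => good_opsC (z x) hc1) hcont inj
  refine ⟨F, B, hBc, hFc, hFe, hFoff, ?_⟩
  have hok : ∀ᶠ x in 𝓝 x0, ∀ r ∈ rows, okR ((ops L).h - z x r) := by
    have : ∀ r ∈ rows, ∀ᶠ x in 𝓝 x0, okR ((ops L).h - z x r) := by
      intro r hr
      have h1 : ContinuousAt (fun x => Dn ((ops L).h - z x r)) x0 :=
        cont_Dn.continuousAt.comp (continuousAt_const.sub (hz r hr))
      exact h1.eventually_ne (h0 r hr)
    exact (List.finite_toSet rows).eventually_all.2 this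
  filter_upwards [hev, hok] with x hx hx2
  refine ⟨hx2, hx.1.fullv, hx.1, hx.2, ?_⟩
  have key := half_ops S W hc (hFoff x) hx.1 hx.2 hx2 hi0 hj0 hij0
  simp only [hFe x, sub_zero] at key
  exact key

end Pool.Agent.EXL.HS
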