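import Pool.Agent.EXL.ClDefs

/-!
# Residue lemma for trigonometric polynomials (closing of the exact solution, part (R))

`IsTP n f`: `f` is a trigonometric polynomial in the span of `e^{i m v}`, `|m| ≤ n`, `m ≡ n (mod 2)`.
`IsTP.residue_sum`: sum of the residues of `f / ∏ sin (v - v_s)`.
-/

open Complex Filter Topology Polynomial

namespace EXL.Cl

/-- `f` is in the span of `e^{i m v}`, `|m| ≤ n`, `m ≡ n (mod 2)`. -/
def IsTP (n : ℕ) (f : ℂ → ℂ) : Prop :=
  ∃ P : Polynomial ℂ, P.natDegree ≤ n ∧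
    ∀ v, f v * Complex.exp (I * n * v) = P.eval (Complex.exp (2 * I * v))

namespace IsTP

variable {n m : ℕ} {f g : ℂ → ℂ}

theorem congr (hf : IsTP n f) (h : ∀ v, g v = f v) : IsTP n g := by
  obtain ⟨P, hP, hPe⟩ := hf
  exact ⟨P, hP, fun v => by rw [h v, hPe v]⟩

theorem cast (hf : IsTP n f) (h : n = m) : IsTP m f := h ▸ hf

theorem mul (hf : IsTP n f) (hg : IsTP m g) : IsTP (n + m) (fun v => f v * g v) := by
  obtain ⟨P, hP, hPe⟩ := hf
  obtain ⟨Q, hQ, hQe⟩ := hg
  refine ⟨P * Q, (natDegree_mul_le).trans (add_le_add hP hQ), fun v => ?_⟩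
  rw [eval_mul, ← hPe v, ← hQe v]
  push_cast
  rw [show I * ((n : ℂ) + m) * v = I * n * v + I * m * v by ring, Complex.exp_add]
  ring

theorem add (hf : IsTP n f) (hg : IsTP n g) : IsTP n (fun v => f v + g v) := by
  obtain ⟨P, hP, hPe⟩ := hf
  obtain ⟨Q, hQ, hQe⟩ := hg
  refine ⟨P + Q, (natDegree_add_le _ _).trans (max_le hP hQ), fun v => ?_⟩
  rw [eval_add, ← hPe v, ← hQe v]; ring

theorem sub (hf : IsTP n f) (hg : IsTP n g) : IsTP n (fun v => f v - g v) := by
  obtain ⟨P, hP, hPe⟩ := hf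
  obtain ⟨Q, hQ, hQe⟩ := hg
  refine ⟨P - Q, (natDegree_sub_le _ _).trans (max_le hP hQ), fun v => ?_⟩
  rw [eval_sub, ← hPe v, ← hQe v]; ring

theorem const_mul (c : ℂ) (hf : IsTP n f) : IsTP n (fun v => c * f v) := by
  obtain ⟨P, hP, hPe⟩ := hf
  refine ⟨C c * P, (natDegree_C_mul_le _ _).trans hP, fun v => ?_⟩
  rw [eval_mul, eval_C, ← hPe v]; ring

theorem const (c : ℂ) : IsTP 0 (fun _ => c) :=
  ⟨C c, by simp, fun v => by simp⟩

theorem zero : IsTP n (fun _ => 0) :=
  ⟨0, by simp, fun v => by simp⟩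

theorem sum {ι : Type*} (s : Finset ι) {F : ι → ℂ → ℂ} (h : ∀ i ∈ s, IsTP n (F i)) :
    IsTP n (fun v => ∑ i ∈ s, F i v) := by
  classical
  induction s using Finset.induction_on with
  | empty => simpa using zero
  | insert a s ha ih =>
    simp only [Finset.sum_insert ha]
    exact (h a (Finset.mem_insert_self a s)).add
      (ih fun i hi => h i (Finset.mem_insert_of_mem hi))

theorem prod {ι : Type*} (s : Finset ι) {d : ι → ℕ} {F : ι → ℂ → ℂ}
    (h : ∀ i ∈ s, IsTP (d i) (F i)) :
    IsTP (∑ i ∈ s, d i) (fun v => ∏ i ∈ s, F i v) := by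
  classical
  induction s using Finset.induction_on with
  | empty => simpa using const 1
  | insert a s ha ih =>
    simp only [Finset.prod_insert ha, Finset.sum_insert ha]
    exact (h a (Finset.mem_insert_self a s)).mul
      (ih fun i hi => h i (Finset.mem_insert_of_mem hi))

theorem prod_const {ι : Type*} (s : Finset ι) {d : ℕ} {F : ι → ℂ → ℂ}
    (h : ∀ i ∈ s, IsTP d (F i)) :
    IsTP (s.card * d) (fun v => ∏ i ∈ s, F i v) := by
  have := prod s (d := fun _ => d) h
  rwa [Finset.sum_const, smul_eq_mul] at this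

/-- raising the degree by two -/
theorem lift (hf : IsTP n f) : IsTP (n + 2) f := by
  obtain ⟨P, hP, hPe⟩ := hf
  refine ⟨X * P, ?_, fun v => ?_⟩
  · refine (natDegree_mul_le).trans ?_
    have : (X : Polynomial ℂ).natDegree ≤ 1 := natDegree_X_le
    omega
  · rw [eval_mul, eval_X, ← hPe v]
    push_cast
    rw [show I * ((n : ℂ) + 2) * v = 2 * I * v + I * n * v by ring, Complex.exp_add]
    ring

theorem lift_even (hf : IsTP n f) (k : ℕ) : IsTP (n + 2 * k) f := by
  induction k with
  | zero => simpa using hf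
  | succ k ih => exact ih.lift

theorem shift (hf : IsTP n f) (a : ℂ) : IsTP n (fun v => f (v + a)) := by
  obtain ⟨P, hP, hPe⟩ := hf
  refine ⟨C (Complex.exp (-(I * n * a))) * P.comp (C (Complex.exp (2 * I * a)) * X), ?_,
    fun v => ?_⟩
  · refine (natDegree_C_mul_le _ _).trans ?_
    refine (natDegree_comp_le).trans ?_
    have : (C (Complex.exp (2 * I * a)) * X : Polynomial ℂ).natDegree ≤ 1 :=
      (natDegree_C_mul_le _ _).trans natDegree_X_le
    calc P.natDegree * _ ≤ P.natDegree * 1 := Nat.mul_le_mul_left _ this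
      _ ≤ n := by omega
  · rw [eval_mul, eval_C, eval_comp, eval_mul, eval_C, eval_X, ← Complex.exp_add,
      show 2 * I * a + 2 * I * v = 2 * I * (v + a) by ring, ← hPe (v + a)]
    rw [show I * (n : ℂ) * (v + a) = I * n * v + I * n * a by ring, Complex.exp_add,
      Complex.exp_neg]
    have : Complex.exp (I * n * a) ≠ 0 := Complex.exp_ne_zero _
    field_simp

theorem sin_mul (k : ℕ) : IsTP k (fun v => Complex.sin (k * v)) := by
  refine ⟨C (1 / (2 * I)) * (X ^ k - 1), ?_, fun v => ?_⟩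
  · refine (natDegree_C_mul_le _ _).trans ?_
    refine (natDegree_sub_le _ _).trans (max_le (natDegree_X_pow_le _) (by simp))
  · have h0 : Complex.sin (k * v) = (Complex.exp (-(k * v) * I) - Complex.exp (k * v * I)) * I / 2 :=
      rfl
    simp only [eval_mul, eval_C, eval_sub, eval_pow, eval_X, eval_one, h0]
    rw [← Complex.exp_nat_mul]
    have h1 : Complex.exp (-(k * v) * I) * Complex.exp (I * k * v) = 1 := by
      rw [← Complex.exp_add]; ring_nf; simp
    have h2 : Complex.exp (k * v * I) * Complex.exp (I * k * v) = Complex.exp (k * (2 * I * v)) := by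
      rw [← Complex.exp_add]; ring_nf
    have hI : (I : ℂ) ≠ 0 := I_ne_zero
    calc (Complex.exp (-(k * v) * I) - Complex.exp (k * v * I)) * I / 2 * Complex.exp (I * k * v)
        = (Complex.exp (-(k * v) * I) * Complex.exp (I * k * v)
            - Complex.exp (k * v * I) * Complex.exp (I * k * v)) * I / 2 := by ring
      _ = (1 - Complex.exp (k * (2 * I * v))) * I / 2 := by rw [h1, h2]
      _ = 1 / (2 * I) * (Complex.exp (k * (2 * I * v)) - 1) := by
          generalize Complex.exp (k * (2 * I * v)) = A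
          have h3 : 1 / (2 * I) = -I / 2 := by
            field_simp
            rw [Complex.I_sq]; norm_num
          rw [h3]; ring

theorem sin_sub (a : ℂ) : IsTP 1 (fun v => Complex.sin (v - a)) := by
  have h := (sin_mul 1).shift (-a)
  refine h.congr fun v => ?_
  simp [sub_eq_add_neg]

theorem sin_add (a : ℂ) : IsTP 1 (fun v => Complex.sin (v + a)) := by
  have h := (sin_mul 1).shift a
  refine h.congr fun v => ?_
  simp

theorem continuous (hf : IsTP n f) : Continuous f := by
  obtain ⟨P, _, hPe⟩ := hf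
  have : f = fun v => P.eval (Complex.exp (2 * I * v)) * Complex.exp (-(I * n * v)) := by
    funext v
    rw [← hPe v, Complex.exp_neg, mul_assoc, mul_inv_cancel₀ (Complex.exp_ne_zero _), mul_one]
  rw [this]
  fun_prop

end IsTP

theorem sin_sub_exp (v w : ℂ) :
    Complex.sin (v - w) = (Complex.exp (2 * I * v) - Complex.exp (2 * I * w)) /
      (2 * I * Complex.exp (I * v) * Complex.exp (I * w)) := by
  have h0 : Complex.sin (v - w)
      = (Complex.exp (-(v - w) * I) - Complex.exp ((v - w) * I)) * I / 2 := rfl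
  have hv : Complex.exp (I * v) ≠ 0 := Complex.exp_ne_zero _
  have hw : Complex.exp (I * w) ≠ 0 := Complex.exp_ne_zero _
  have h1 : Complex.exp (-(v - w) * I) = Complex.exp (I * w) / Complex.exp (I * v) := by
    rw [← Complex.exp_sub]; ring_nf
  have h2 : Complex.exp ((v - w) * I) = Complex.exp (I * v) / Complex.exp (I * w) := by
    rw [← Complex.exp_sub]; ring_nf
  have h3 : Complex.exp (2 * I * v) = Complex.exp (I * v) ^ 2 := by
    rw [← Complex.exp_nat_mul]; ring_nf
  have h4 : Complex.exp (2 * I * w) = Complex.exp (I * w) ^ 2 := by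
    rw [← Complex.exp_nat_mul]; ring_nf
  rw [h0, h1, h2, h3, h4]
  generalize Complex.exp (I * v) = a at *
  generalize Complex.exp (I * w) = b at *
  have hI : (I : ℂ) ≠ 0 := I_ne_zero
  have h5 : 1 / (2 * I * a * b) = -I / 2 * (1 / (a * b)) := by
    have : 1 / (2 * I) = -I / 2 := by
      field_simp
      rw [Complex.I_sq]; norm_num
    rw [← this]; field_simp
  rw [div_eq_mul_one_div (a ^ 2 - b ^ 2), h5]
  field_simp
  ring

/-- `∑ 1 / (z_s ∏_{t ≠ s} (z_s - z_t)) = (-1)^(n+1) / ∏ z_t`. -/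
theorem sum_inv_div_prod {ι : Type*} [DecidableEq ι] (S : Finset ι) (z : ι → ℂ)
    (hz : Set.InjOn z S) (hz0 : ∀ s ∈ S, z s ≠ 0) (hS : S.Nonempty) :
    ∑ s ∈ S, (z s)⁻¹ / ∏ t ∈ S.erase s, (z s - z t)
      = (-1) ^ (S.card + 1) / ∏ t ∈ S, z t := by
  set N := Lagrange.nodal S z with hN
  have hcard : 1 ≤ S.card := hS.card_pos
  have hN0 : N.coeff 0 = (-1) ^ S.card * ∏ t ∈ S, z t := by
    rw [coeff_zero_eq_eval_zero, hN, Lagrange.eval_nodal]
    simp [Finset.prod_neg]
  have hprod : ∏ t ∈ S, z t ≠ 0 := Finset.prod_ne_zero_iff.2 hz0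
  have hN0' : N.coeff 0 ≠ 0 := by
    rw [hN0]; exact mul_ne_zero (pow_ne_zero _ (by norm_num)) hprod
  have hNdeg : N.natDegree = S.card := Lagrange.natDegree_nodal
  have hdegM : N.divX.degree < (S.card : WithBot ℕ) := by
    rw [← hNdeg]
    have : N.divX.natDegree < N.natDegree := by
      rw [natDegree_divX_eq_natDegree_tsub_one, hNdeg]; omega
    exact (degree_le_natDegree).trans_lt (by exact_mod_cast this)
  have h1 := Lagrange.coeff_eq_sum hz hdegM
  have h2 : N.divX.coeff (S.card - 1) = 1 := by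
    rw [coeff_divX, Nat.sub_add_cancel hcard]
    have := Lagrange.nodal_monic (s := S) (v := z)
    rw [Polynomial.Monic, leadingCoeff, Lagrange.natDegree_nodal] at this
    exact this
  have h3 : ∀ s ∈ S, N.divX.eval (z s) = -N.coeff 0 * (z s)⁻¹ := by
    intro s hs
    have h4 := congrArg (Polynomial.eval (z s)) (divX_mul_X_add N)
    rw [eval_add, eval_mul, eval_X, eval_C, hN, Lagrange.eval_nodal_at_node hs, ← hN] at h4
    have := hz0 s hs
    field_simp
    linear_combination h4
  rw [h2] at h1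
  have h5 : (1 : ℂ) = -N.coeff 0 * ∑ s ∈ S, (z s)⁻¹ / ∏ t ∈ S.erase s, (z s - z t) := by
    rw [h1, Finset.mul_sum]
    refine Finset.sum_congr rfl fun s hs => ?_
    rw [h3 s hs]; ring
  have h6 : ∑ s ∈ S, (z s)⁻¹ / ∏ t ∈ S.erase s, (z s - z t) = 1 / (-N.coeff 0) := by
    rw [eq_div_iff (neg_ne_zero.2 hN0'), mul_comm]; exact h5.symm
  rw [h6, hN0, pow_succ]
  have h7 : ((-1 : ℂ) ^ S.card) * (-1) ^ S.card = 1 := by
    rw [← mul_pow]; norm_num
  have h8 : ((-1 : ℂ) ^ S.card) ≠ 0 := pow_ne_zero _ (by norm_num)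
  rw [div_eq_div_iff (by simp [h8, hprod]) hprod]
  linear_combination (-(∏ t ∈ S, z t)) * h7

/-- Lagrange form of the residue sum, degree `|S|`. -/
theorem IsTP.sum_div_prod_sin {ι : Type*} [DecidableEq ι] (S : Finset ι) (v : ι → ℂ)
    (hv : ∀ s ∈ S, ∀ t ∈ S, s ≠ t → Complex.sin (v s - v t) ≠ 0)
    (P : Polynomial ℂ) (hP : P.natDegree ≤ S.card) (hS : S.Nonempty) (f : ℂ → ℂ)
    (hf : ∀ w, f w * Complex.exp (I * (S.card : ℂ) * w) = P.eval (Complex.exp (2 * I * w))) :
    ∑ s ∈ S, f (v s) / ∏ t ∈ S.erase s, Complex.sin (v s - v t)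
      = (2 * I) ^ (S.card - 1) * (Complex.exp (I * ∑ s ∈ S, v s) * P.coeff S.card
        - (-1) ^ S.card * P.coeff 0 * Complex.exp (-(I * ∑ s ∈ S, v s))) := by
  set z : ι → ℂ := fun s => Complex.exp (2 * I * v s) with hzdef
  set a : ι → ℂ := fun s => Complex.exp (I * v s) with hadef
  have ha : ∀ s, a s ≠ 0 := fun s => Complex.exp_ne_zero _
  have hz0 : ∀ s, z s ≠ 0 := fun s => Complex.exp_ne_zero _
  have haz : ∀ s, z s = a s ^ 2 := by
    intro s; simp only [hzdef, hadef]; rw [← Complex.exp_nat_mul]; ring_nf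
  have hcard : 1 ≤ S.card := hS.card_pos
  have hI2 : (2 * I : ℂ) ≠ 0 := by simp
  have hinj : Set.InjOn z S := by
    intro s hs t ht hst
    by_contra hne
    refine hv s hs t ht hne ?_
    rw [sin_sub_exp]
    simp only [hzdef] at hst
    rw [hst, sub_self, zero_div]
  set E : ℂ := Complex.exp (I * ∑ s ∈ S, v s) with hE
  have hE0 : E ≠ 0 := Complex.exp_ne_zero _
  have hEprod : ∏ s ∈ S, a s = E := by
    simp only [hadef, hE]; rw [← Complex.exp_sum, Finset.mul_sum]
  have hzprod : ∏ s ∈ S, z s = E ^ 2 := by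
    rw [← hEprod, ← Finset.prod_pow]; exact Finset.prod_congr rfl fun s _ => haz s
  have hterm : ∀ s ∈ S, f (v s) / ∏ t ∈ S.erase s, Complex.sin (v s - v t)
      = (2 * I) ^ (S.card - 1) * E * (P.eval (z s) * (z s)⁻¹ / ∏ t ∈ S.erase s, (z s - z t)) := by
    intro s hs
    have h1 : ∏ t ∈ S.erase s, Complex.sin (v s - v t)
        = (∏ t ∈ S.erase s, (z s - z t)) / ((2 * I) ^ (S.card - 1) * a s ^ (S.card - 1)
          * ∏ t ∈ S.erase s, a t) := by
      rw [← Finset.card_erase_of_mem hs, ← Finset.prod_const (2 * I), ← Finset.prod_const (a s),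
        ← Finset.prod_mul_distrib, ← Finset.prod_mul_distrib, ← Finset.prod_div_distrib]
      refine Finset.prod_congr rfl fun t _ => ?_
      rw [sin_sub_exp]
    have h2 : a s * ∏ t ∈ S.erase s, a t = E := by
      rw [Finset.mul_prod_erase S a hs, hEprod]
    have h3 : f (v s) * a s ^ S.card = P.eval (z s) := by
      rw [← hf (v s)]
      congr 1
      simp only [hadef]; rw [← Complex.exp_nat_mul]; ring_nf
    have h4 : ∏ t ∈ S.erase s, (z s - z t) ≠ 0 := by
      refine Finset.prod_ne_zero_iff.2 fun t ht => ?_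
      obtain ⟨hts, htS⟩ := Finset.mem_erase.1 ht
      exact sub_ne_zero.2 fun h => hts (hinj hs htS h).symm
    have h5 : ∏ t ∈ S.erase s, a t ≠ 0 := Finset.prod_ne_zero_iff.2 fun t _ => ha t
    have h6 : a s ^ S.card = a s ^ (S.card - 1) * a s := by
      rw [← pow_succ, Nat.sub_add_cancel hcard]
    rw [h1, ← h3, haz s, ← h2, h6]
    have := ha s
    field_simp
  rw [Finset.sum_congr rfl hterm, ← Finset.mul_sum]
  have hQ : ∀ s ∈ S, P.eval (z s) * (z s)⁻¹ / ∏ t ∈ S.erase s, (z s - z t)
      = P.divX.eval (z s) / ∏ t ∈ S.erase s, (z s - z t)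
        + P.coeff 0 * ((z s)⁻¹ / ∏ t ∈ S.erase s, (z s - z t)) := by
    intro s hs
    have h4 := congrArg (Polynomial.eval (z s)) (divX_mul_X_add P)
    rw [eval_add, eval_mul, eval_X, eval_C] at h4
    rw [← h4]
    have := hz0 s
    field_simp
  rw [Finset.sum_congr rfl hQ, Finset.sum_add_distrib, ← Finset.mul_sum,
    sum_inv_div_prod S z hinj (fun s _ => hz0 s) hS, hzprod]
  have hdeg : P.divX.degree < (S.card : WithBot ℕ) := by
    have h1 : P.divX.natDegree < S.card := by
      rw [natDegree_divX_eq_natDegree_tsub_one]; omega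
    exact (degree_le_natDegree).trans_lt (by exact_mod_cast h1)
  rw [← Lagrange.coeff_eq_sum hinj hdeg, coeff_divX, Nat.sub_add_cancel hcard, Complex.exp_neg,
    ← hE, pow_succ]
  field_simp
  ring

theorem eval_div_pow (P : Polynomial ℂ) (n : ℕ) (hP : P.natDegree ≤ n) (Z : ℂ) (hZ : Z ≠ 0) :
    P.eval Z / Z ^ n = (P.reflect n).eval Z⁻¹ := by
  have : Invertible Z := invertibleOfNonzero hZ
  have h := eval₂_reflect_mul_pow (RingHom.id ℂ) Z n P hP
  rw [invOf_eq_inv] at h
  change eval Z⁻¹ (reflect n P) * Z ^ n = eval Z P at h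
  rw [← h, mul_div_assoc, div_self (pow_ne_zero _ hZ), mul_one]

theorem tendsto_exp_inv : Tendsto (fun y : ℝ => (Complex.exp (2 * (y : ℂ)))⁻¹) atTop (𝓝 0) := by
  rw [tendsto_zero_iff_norm_tendsto_zero]
  have h : (fun y : ℝ => ‖(Complex.exp (2 * (y : ℂ)))⁻¹‖) = fun y : ℝ => Real.exp (-(2 * y)) := by
    funext y
    rw [norm_inv, Complex.norm_exp, Real.exp_neg]
    simp
  rw [h]
  have h2 : Tendsto (fun y : ℝ => 2 * y) atTop atTop :=
    tendsto_id.const_mul_atTop (by norm_num)
  exact Real.tendsto_exp_neg_atTop_nhds_zero.comp h2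

theorem tendsto_eval_div_pow (P : Polynomial ℂ) (n : ℕ) (hP : P.natDegree ≤ n) :
    Tendsto (fun y : ℝ => P.eval (Complex.exp (2 * (y : ℂ))) / Complex.exp (2 * (y : ℂ)) ^ n)
      atTop (𝓝 (P.coeff n)) := by
  have h1 : (fun y : ℝ => P.eval (Complex.exp (2 * (y : ℂ))) / Complex.exp (2 * (y : ℂ)) ^ n)
      = fun y : ℝ => (P.reflect n).eval (Complex.exp (2 * (y : ℂ)))⁻¹ := by
    funext y; exact eval_div_pow P n hP _ (Complex.exp_ne_zero _)
  rw [h1]
  have h2 : (P.reflect n).eval 0 = P.coeff n := by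
    rw [← coeff_zero_eq_eval_zero, coeff_reflect]
    simp [revAt_le (Nat.zero_le n)]
  rw [← h2]
  exact ((P.reflect n).continuous.tendsto 0).comp tendsto_exp_inv

theorem tendsto_eval_zero (P : Polynomial ℂ) :
    Tendsto (fun y : ℝ => P.eval (Complex.exp (2 * (y : ℂ)))⁻¹) atTop (𝓝 (P.coeff 0)) := by
  rw [coeff_zero_eq_eval_zero]
  exact (P.continuous.tendsto 0).comp tendsto_exp_inv

theorem prod_sin_sub {ι : Type*} (S : Finset ι) (v : ι → ℂ) (w : ℂ) :
    ∏ s ∈ S, Complex.sin (w - v s)
      = (Lagrange.nodal S fun s => Complex.exp (2 * I * v s)).eval (Complex.exp (2 * I * w))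
        / ((2 * I) ^ S.card * Complex.exp (I * S.card * w) * Complex.exp (I * ∑ s ∈ S, v s)) := by
  rw [Lagrange.eval_nodal]
  have h1 : Complex.exp (I * S.card * w) = ∏ _s ∈ S, Complex.exp (I * w) := by
    rw [Finset.prod_const, ← Complex.exp_nat_mul]; ring_nf
  rw [h1, Finset.mul_sum, Complex.exp_sum, ← Finset.prod_const, ← Finset.prod_mul_distrib,
    ← Finset.prod_mul_distrib, ← Finset.prod_div_distrib]
  exact Finset.prod_congr rfl fun s _ => sin_sub_exp w (v s)

/-- **Residue lemma (R).** -/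
theorem IsTP.residue_sum {ι : Type*} [DecidableEq ι] (S : Finset ι) (v : ι → ℂ)
    (hv : ∀ s ∈ S, ∀ t ∈ S, s ≠ t → Complex.sin (v s - v t) ≠ 0) (hS : S.Nonempty)
    {f g : ℂ → ℂ} (hf : IsTP S.card f)
    (hg : ∀ w, ∏ s ∈ S, Complex.sin (w - v s) ≠ 0 → g w * ∏ s ∈ S, Complex.sin (w - v s) = f w)
    {r : ι → ℂ}
    (hr : ∀ s ∈ S, Tendsto (fun w => Complex.sin (w - v s) * g w) (𝓝[≠] (v s)) (𝓝 (r s)))
    {gp gm : ℂ} (hp : Tendsto (fun y : ℝ => g (I * y)) atTop (𝓝 gp))
    (hm : Tendsto (fun y : ℝ => g (-(I * y))) atTop (𝓝 gm)) :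
    ∑ s ∈ S, r s = (gm - gp) / (2 * I) := by
  have hcard : 1 ≤ S.card := hS.card_pos
  have hfc := hf.continuous
  obtain ⟨P, hP, hPe⟩ := hf
  have hsin_ne : ∀ s : ι, ∀ᶠ w in 𝓝[≠] (v s), Complex.sin (w - v s) ≠ 0 := by
    intro s
    have h1 : HasDerivAt (fun w => Complex.sin (w - v s)) 1 (v s) := by
      have := ((hasDerivAt_id (v s)).sub_const (v s)).csin
      simpa using this
    exact h1.eventually_ne (by norm_num)
  have hrs : ∀ s ∈ S, r s = f (v s) / ∏ t ∈ S.erase s, Complex.sin (v s - v t) := by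
    intro s hs
    have hne : ∏ t ∈ S.erase s, Complex.sin (v s - v t) ≠ 0 := by
      refine Finset.prod_ne_zero_iff.2 fun t ht => ?_
      obtain ⟨hts, htS⟩ := Finset.mem_erase.1 ht
      exact hv s hs t htS (Ne.symm hts)
    rw [eq_div_iff hne]
    have hcont : Tendsto (fun w => ∏ t ∈ S.erase s, Complex.sin (w - v t)) (𝓝[≠] (v s))
        (𝓝 (∏ t ∈ S.erase s, Complex.sin (v s - v t))) := by
      have : Continuous (fun w => ∏ t ∈ S.erase s, Complex.sin (w - v t)) := by fun_prop
      exact (this.tendsto (v s)).mono_left nhdsWithin_le_nhds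
    have h1 := (hr s hs).mul hcont
    have h2 : Tendsto f (𝓝[≠] (v s)) (𝓝 (f (v s))) :=
      (hfc.tendsto (v s)).mono_left nhdsWithin_le_nhds
    refine tendsto_nhds_unique h1 (h2.congr' ?_)
    have h3 : ∀ᶠ w in 𝓝[≠] (v s), ∏ t ∈ S.erase s, Complex.sin (w - v t) ≠ 0 :=
      hcont.eventually_ne hne
    filter_upwards [h3, hsin_ne s] with w hw1 hw2
    have h4 : ∏ t ∈ S, Complex.sin (w - v t)
        = Complex.sin (w - v s) * ∏ t ∈ S.erase s, Complex.sin (w - v t) :=
      (Finset.mul_prod_erase S (fun t => Complex.sin (w - v t)) hs).symm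
    rw [← hg w (by rw [h4]; exact mul_ne_zero hw2 hw1), h4]
    ring
  rw [Finset.sum_congr rfl hrs, IsTP.sum_div_prod_sin S v hv P hP hS f hPe]
  set E : ℂ := Complex.exp (I * ∑ s ∈ S, v s) with hE
  have hE0 : E ≠ 0 := Complex.exp_ne_zero _
  set N : Polynomial ℂ := Lagrange.nodal S fun s => Complex.exp (2 * I * v s) with hN
  have hI2 : (2 * I : ℂ) ≠ 0 := by simp
  have hgw : ∀ w, N.eval (Complex.exp (2 * I * w)) ≠ 0 →
      g w = (2 * I) ^ S.card * E * (P.eval (Complex.exp (2 * I * w)) /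
        N.eval (Complex.exp (2 * I * w))) := by
    intro w hw
    have h1 := prod_sin_sub S v w
    have hexp : Complex.exp (I * S.card * w) ≠ 0 := Complex.exp_ne_zero _
    have h2 : ∏ s ∈ S, Complex.sin (w - v s) ≠ 0 := by
      rw [h1]; exact div_ne_zero hw (by simp [hexp])
    have h3 := hg w h2
    rw [h1, ← hN, ← hE] at h3
    have h4 := hPe w
    rw [← h3] at h4
    rw [← h4]
    field_simp
  have hNdeg : N.natDegree = S.card := Lagrange.natDegree_nodal
  have hNc : N.coeff S.card = 1 := by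
    have := Lagrange.nodal_monic (s := S) (v := fun s => Complex.exp (2 * I * v s))
    rw [Polynomial.Monic, leadingCoeff, Lagrange.natDegree_nodal] at this
    exact this
  have hN0 : N.coeff 0 = (-1) ^ S.card * E ^ 2 := by
    rw [coeff_zero_eq_eval_zero, hN, Lagrange.eval_nodal]
    simp only [zero_sub, Finset.prod_neg]
    rw [← Complex.exp_sum, ← Finset.mul_sum, hE, ← Complex.exp_nat_mul]
    push_cast; ring_nf
  have hN0' : N.coeff 0 ≠ 0 := by
    rw [hN0]; exact mul_ne_zero (pow_ne_zero _ (by norm_num)) (pow_ne_zero _ hE0)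
  have hlimM : gm = (2 * I) ^ S.card * E * P.coeff S.card := by
    have h1 := tendsto_eval_div_pow P S.card hP
    have h2 := tendsto_eval_div_pow N S.card hNdeg.le
    rw [hNc] at h2
    have h3 := (h1.div h2 one_ne_zero).const_mul ((2 * I) ^ S.card * E)
    rw [div_one] at h3
    refine tendsto_nhds_unique hm (h3.congr' ?_)
    filter_upwards [h2.eventually_ne one_ne_zero] with y hy
    have h4 : 2 * I * -(I * (y : ℂ)) = 2 * (y : ℂ) := by
      linear_combination (-2 * (y : ℂ)) * Complex.I_sq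
    have h5 : N.eval (Complex.exp (2 * (y : ℂ))) ≠ 0 := by
      intro h; apply hy; rw [h, zero_div]
    rw [hgw (-(I * y)) (by rw [h4]; exact h5), h4]
    have h6 : Complex.exp (2 * (y : ℂ)) ^ S.card ≠ 0 := pow_ne_zero _ (Complex.exp_ne_zero _)
    congr 1
    simp only [Pi.div_apply]
    field_simp
  have hlimP : gp = (2 * I) ^ S.card * E * (P.coeff 0 / N.coeff 0) := by
    have h1 := tendsto_eval_zero P
    have h2 := tendsto_eval_zero N
    have h3 := (h1.div h2 hN0').const_mul ((2 * I) ^ S.card * E)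
    refine tendsto_nhds_unique hp (h3.congr' ?_)
    filter_upwards [h2.eventually_ne hN0'] with y hy
    have h4 : Complex.exp (2 * I * (I * (y : ℂ))) = (Complex.exp (2 * (y : ℂ)))⁻¹ := by
      rw [← Complex.exp_neg]
      congr 1
      linear_combination (2 * (y : ℂ)) * Complex.I_sq
    rw [hgw (I * y) (by rw [h4]; exact hy), h4]
    rfl
  rw [hlimM, hlimP, hN0, Complex.exp_neg, ← hE]
  obtain ⟨m, hm'⟩ : ∃ m, S.card = m + 1 := ⟨S.card - 1, by omega⟩
  rw [hm', Nat.add_sub_cancel, pow_succ (2 * I) m]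
  have h8 : ((-1 : ℂ) ^ (m + 1)) ≠ 0 := pow_ne_zero _ (by norm_num)
  have h7 : ((-1 : ℂ) ^ (m + 1)) * (-1) ^ (m + 1) = 1 := by
    rw [← mul_pow]; norm_num
  generalize ((-1 : ℂ) ^ (m + 1)) = sg at *
  have h9 : (2 * I : ℂ) ^ m ≠ 0 := pow_ne_zero _ hI2
  field_simp
  linear_combination (-(P.coeff 0)) * h7

end EXL.Cl

/-! ## The residue theorem in the variable `z` (board/EXL, block (C), part (R)) -/

open Filter Topology

namespace Pool.Agent.EXL.Cl

noncomputable section

theorem res_sum {ι : Type*} [Fintype ι] (s : ι → ℂ) (hs : Function.Injective s)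
    (hs0 : ∀ i, s i ≠ 0) (f : ℂ → ℂ)
    (hf : ∀ z, z ≠ 0 → (∀ i, z ≠ s i) → DifferentiableAt ℂ f z)
    (r : ι → ℂ) (hr : ∀ i, HR f (s i) (r i)) (L0 Li : ℂ)
    (h0 : Tendsto f (𝓝[≠] 0) (𝓝 L0)) (hi : Tendsto f (cocompact ℂ) (𝓝 Li)) :
    ∑ i, r i = Li - L0 := by
  classical
  set q : ℂ → ℂ := fun z => ∑ i, r i * s i / (z - s i) with hq
  set h : ℂ → ℂ := fun z => f z - q z with hh
  set T : Set ℂ := insert 0 (Set.range s) with hT
  have hTfin : T.Finite := (Set.finite_range s).insert 0
  have hqd : ∀ z, (∀ i, z ≠ s i) → DifferentiableAt ℂ q z := by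
    intro z hz
    simp only [hq]
    refine DifferentiableAt.fun_sum fun i _ => ?_
    exact (differentiableAt_const _).div (by fun_prop) (sub_ne_zero.2 (hz i))
  have hhd : ∀ z, z ∉ T → DifferentiableAt ℂ h z := by
    intro z hz
    have hz0 : z ≠ 0 := fun h => hz (by simp [hT, h])
    have hzs : ∀ i, z ≠ s i := fun i h => hz (by simp [hT, h])
    exact (hf z hz0 hzs).sub (hqd z hzs)
  have hpun : ∀ c : ℂ, ∀ᶠ z in 𝓝[≠] c, z ∉ T := by
    intro c
    have h1 : IsClosed (T \ {c}) := (hTfin.subset Set.sdiff_subset).isClosed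
    have h2 : (T \ {c})ᶜ ∈ 𝓝 c := h1.isOpen_compl.mem_nhds (by simp)
    filter_upwards [mem_nhdsWithin_of_mem_nhds h2, self_mem_nhdsWithin] with z hz hzc hzT
    exact hz ⟨hzT, hzc⟩
  -- existence of the limit everywhere
  have hlim : ∀ c : ℂ, ∃ L, Tendsto h (𝓝[≠] c) (𝓝 L) := by
    intro c
    by_cases hc0 : c = 0
    · subst hc0
      refine ⟨L0 - q 0, h0.sub ?_⟩
      exact ((hqd 0 fun i => (hs0 i).symm).continuousAt.tendsto).mono_left nhdsWithin_le_nhds
    by_cases hcs : ∃ i, s i = c
    · obtain ⟨i, rfl⟩ := hcs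
      refine ⟨_, Complex.tendsto_limUnder_of_differentiable_on_punctured_nhds_of_isLittleO
        ((hpun (s i)).mono fun z hz => hhd z hz) ?_⟩
      have hlim0 : Tendsto (fun z => (z - s i) * h z) (𝓝[≠] (s i)) (𝓝 0) := by
        have h1 : Tendsto (fun z => (z - s i) * f z) (𝓝[≠] (s i)) (𝓝 (s i * r i)) := by
          refine ((hr i).const_mul (s i)).congr fun z => ?_
          have := hs0 i
          field_simp
        have h2 : Tendsto (fun z => (z - s i) * q z) (𝓝[≠] (s i)) (𝓝 (s i * r i)) := by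
          have h3 : Tendsto (fun z => r i * s i + (z - s i) *
              ∑ j ∈ Finset.univ.erase i, r j * s j / (z - s j)) (𝓝[≠] (s i))
              (𝓝 (r i * s i + (s i - s i) *
              ∑ j ∈ Finset.univ.erase i, r j * s j / (s i - s j))) := by
            refine Tendsto.mono_left ?_ nhdsWithin_le_nhds
            refine ContinuousAt.tendsto ?_
            refine continuousAt_const.add ((by fun_prop : ContinuousAt (fun z => z - s i) (s i)).mul ?_)
            refine tendsto_finsetSum _ fun j hj => ?_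
            have hji : j ≠ i := (Finset.mem_erase.1 hj).1
            have : s i - s j ≠ 0 := sub_ne_zero.2 fun h => hji (hs h).symm
            have hc : ContinuousAt (fun z => r j * s j / (z - s j)) (s i) :=
              ContinuousAt.div continuousAt_const (by fun_prop) this
            exact hc.tendsto
          have h4 : r i * s i + (s i - s i) *
              ∑ j ∈ Finset.univ.erase i, r j * s j / (s i - s j) = s i * r i := by ring
          rw [h4] at h3
          refine h3.congr' ?_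
          filter_upwards [self_mem_nhdsWithin] with z hz
          have hz' : z - s i ≠ 0 := sub_ne_zero.2 hz
          simp only [hq]
          rw [← Finset.add_sum_erase _ _ (Finset.mem_univ i), mul_add]
          field_simp
        have := h1.sub h2
        rw [sub_self] at this
        refine this.congr fun z => ?_
        simp only [hh]; ring
      have hlim1 : Tendsto (fun z => (z - s i) * (h z - h (s i))) (𝓝[≠] (s i)) (𝓝 0) := by
        have h5 : Tendsto (fun z => (z - s i) * h (s i)) (𝓝[≠] (s i)) (𝓝 0) := by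
          have : Tendsto (fun z => (z - s i) * h (s i)) (𝓝 (s i)) (𝓝 ((s i - s i) * h (s i))) :=
            (by fun_prop : Continuous (fun z => (z - s i) * h (s i))).tendsto _
          rw [sub_self, zero_mul] at this
          exact this.mono_left nhdsWithin_le_nhds
        have := hlim0.sub h5
        rw [sub_zero] at this
        exact this.congr fun z => by ring
      rw [Asymptotics.isLittleO_iff_tendsto']
      · refine hlim1.congr' ?_
        filter_upwards [self_mem_nhdsWithin] with z hz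
        have hz' : z - s i ≠ 0 := sub_ne_zero.2 hz
        field_simp
      · filter_upwards [self_mem_nhdsWithin] with z hz h6
        exact absurd (inv_eq_zero.1 h6) (sub_ne_zero.2 hz)
    · have hcT : c ∉ T := by
        simp only [hT, Set.mem_insert_iff, Set.mem_range, not_or]
        exact ⟨hc0, hcs⟩
      exact ⟨h c, ((hhd c hcT).continuousAt.tendsto).mono_left nhdsWithin_le_nhds⟩
  choose H hH using hlim
  have hHh : ∀ z, z ∉ T → H z = h z := by
    intro z hz
    exact tendsto_nhds_unique (hH z)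
      (((hhd z hz).continuousAt.tendsto).mono_left nhdsWithin_le_nhds)
  have hHd : Differentiable ℂ H := by
    intro c
    refine (Complex.analyticAt_of_differentiable_on_punctured_nhds_of_continuousAt ?_ ?_).differentiableAt
    · filter_upwards [hpun c] with z hz
      refine (hhd z hz).congr_of_eventuallyEq ?_
      have : Tᶜ ∈ 𝓝 z := hTfin.isClosed.isOpen_compl.mem_nhds hz
      filter_upwards [this] with w hw
      exact hHh w hw
    · rw [continuousAt_iff_punctured_nhds]
      refine (hH c).congr' ?_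
      filter_upwards [hpun c] with z hz
      exact (hHh z hz).symm
  have hqinf : Tendsto q (cocompact ℂ) (𝓝 0) := by
    have : (0:ℂ) = ∑ _i : ι, 0 := by simp
    rw [this]
    simp only [hq]
    refine tendsto_finsetSum _ fun i _ => ?_
    have h1 : Tendsto (fun z : ℂ => z - s i) (cocompact ℂ) (cocompact ℂ) := by
      have := (Homeomorph.subRight (s i)).isClosedEmbedding.tendsto_cocompact
      exact this
    have h2 : Tendsto (fun z : ℂ => (z - s i)⁻¹) (cocompact ℂ) (𝓝 0) := by
      refine Tendsto.comp ?_ h1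
      rw [← Metric.cobounded_eq_cocompact]
      exact Filter.tendsto_inv₀_cobounded
    have h3 := h2.const_mul (r i * s i)
    rw [mul_zero] at h3
    exact h3
  have hHinf : Tendsto H (cocompact ℂ) (𝓝 Li) := by
    have h1 : Tendsto h (cocompact ℂ) (𝓝 Li) := by
      have := hi.sub hqinf
      rwa [sub_zero] at this
    refine h1.congr' ?_
    have : Tᶜ ∈ cocompact ℂ := hTfin.isCompact.compl_mem_cocompact
    filter_upwards [this] with z hz
    exact (hHh z hz).symm
  have hconst := hHd.eq_const_of_tendsto_cocompact hHinf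
  have hH0 : H 0 = Li := by rw [hconst]; rfl
  have hH0' : H 0 = L0 - q 0 := by
    refine tendsto_nhds_unique (hH 0) (h0.sub ?_)
    exact ((hqd 0 fun i => (hs0 i).symm).continuousAt.tendsto).mono_left nhdsWithin_le_nhds
  have hq0 : q 0 = -∑ i, r i := by
    simp only [hq]
    rw [← Finset.sum_neg_distrib]
    refine Finset.sum_congr rfl fun i _ => ?_
    have := hs0 i
    field_simp
    ring
  rw [hH0, hq0] at hH0'
  linear_combination (-1 : ℂ) * hH0'

end

end Pool.Agent.EXL.Cl
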