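import Pool.Agent.EXL.ClBase
import Pool.Agent.EXL.ClRes

/-!
# Closing, part (III): `E(t)^2 = 1`

Sum of the residues of `E(z) (E(ze z) + 3 E(ze^3 z)) / (z^4 + z^{-4})`.
-/

set_option autoImplicit false

open Filter Topology

namespace Pool.Agent.EXL.Cl

namespace Three

lemma th_ne : th ≠ 0 := Complex.exp_ne_zero _
lemma ze_ne : ze ≠ 0 := pow_ne_zero _ th_ne
lemma ze4 : ze ^ 4 = -1 := by rw [ze, ← pow_mul]; exact th_pow_eight
lemma ze8 : ze ^ 8 = 1 := by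
  have : ze ^ 8 = (ze ^ 4) ^ 2 := by ring
  rw [this, ze4]; ring
lemma th4 : th ^ 4 = Complex.I := by
  rw [th, ← Complex.exp_nat_mul]
  have : ((4 : ℕ) : ℂ) * (Complex.I * ((Real.pi / 8 : ℝ) : ℂ)) = (Real.pi / 2 : ℝ) * Complex.I := by
    push_cast; ring
  rw [this]
  push_cast
  exact Complex.exp_pi_div_two_mul_I
lemma ze2 : ze ^ 2 = Complex.I := by rw [ze, ← pow_mul]; exact th4

lemma prim : IsPrimitiveRoot ze 8 := by
  have h := Complex.isPrimitiveRoot_exp 8 (by norm_num)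
  have : ze = Complex.exp (2 * Real.pi * Complex.I / (8 : ℕ)) := by
    rw [ze, th, ← Complex.exp_nat_mul]
    congr 1
    push_cast
    ring
  rw [this]; exact h

lemma exists_pow {z : ℂ} (h : z ^ 8 = -1) : ∃ j : Fin 8, z = th * ze ^ (j : ℕ) := by
  have h1 : (z / th) ^ 8 = 1 := by rw [div_pow, h, th_pow_eight]; norm_num
  obtain ⟨i, hi, hi2⟩ := prim.eq_pow_of_pow_eq_one h1
  refine ⟨⟨i, hi⟩, ?_⟩
  show z = th * ze ^ i
  rw [hi2, mul_div_cancel₀ _ th_ne]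

section HRl

variable {f g : ℂ → ℂ} {s r q : ℂ}

lemma hrMul (hf : HR f s r) (hg : ContinuousAt g s) : HR (fun z => f z * g z) s (r * g s) := by
  have h := Tendsto.mul hf (hg.tendsto.mono_left nhdsWithin_le_nhds)
  exact h.congr fun z => by ring

lemma hrCont (hs : s ≠ 0) (hf : ContinuousAt f s) : HR f s 0 := by
  have h1 : Tendsto (fun z => z / s - 1) (𝓝[≠] s) (𝓝 0) := by
    have : ContinuousAt (fun z : ℂ => z / s - 1) s := by fun_prop
    have h := this.tendsto.mono_left (nhdsWithin_le_nhds (s := {s}ᶜ))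
    rwa [div_self hs, sub_self] at h
  have h := h1.mul (hf.tendsto.mono_left nhdsWithin_le_nhds)
  rwa [zero_mul] at h

lemma hrAdd (hf : HR f s r) (hg : HR g s q) : HR (fun z => f z + g z) s (r + q) := by
  have h := Tendsto.add hf hg
  exact h.congr fun z => by ring

lemma hrConst (c : ℂ) (hf : HR f s r) : HR (fun z => c * f z) s (c * r) := by
  have h := Tendsto.const_mul c hf
  exact h.congr fun z => by ring

lemma hrScale {c : ℂ} (hc : c ≠ 0) (hf : HR f (c * s) r) : HR (fun z => f (c * z)) s r := by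
  have hm : Tendsto (fun z => c * z) (𝓝[≠] s) (𝓝[≠] (c * s)) := by
    refine tendsto_nhdsWithin_iff.mpr ⟨?_, ?_⟩
    · exact ((continuous_const.mul continuous_id).tendsto s).mono_left nhdsWithin_le_nhds
    · filter_upwards [self_mem_nhdsWithin] with z hz h
      exact hz (mul_left_cancel₀ hc h)
  have h := Tendsto.comp hf hm
  refine h.congr fun z => ?_
  simp only [Function.comp]
  rw [mul_div_mul_left _ _ hc]

end HRl

section main

variable {N : ℕ} {x : Fin N → ℝ} {E : ℂ → ℂ} {r : Fin N × Bool → ℂ}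

lemma bs_ne (β : (Fin N × Bool) ⊕ Bool) : bs x β ≠ 0 := by
  have h := nd_ne_zero x (β, 0)
  simpa [nd] using h

lemma pt_eq (β : (Fin N × Bool) ⊕ Bool) (k : ℕ) :
    bs x β * ze ^ k = nd x (β, ⟨k % 8, Nat.mod_lt _ (by norm_num)⟩) := by
  show _ = bs x β * ze ^ (k % 8)
  rw [← pow_eq_pow_mod k ze8]

lemma pt_ne (hx : Nd x) {β γ : (Fin N × Bool) ⊕ Bool} {k m : ℕ}
    (h : β ≠ γ ∨ k % 8 ≠ m % 8) : bs x β * ze ^ k ≠ bs x γ * ze ^ m := by
  rw [pt_eq, pt_eq]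
  intro h'
  have := nd_inj hx h'
  rw [Prod.mk.injEq, Fin.mk.injEq] at this
  rcases h with h | h
  · exact h this.1
  · exact h this.2

lemma cE (hx : Nd x) (hE : FF x ∅ E r) (β : (Fin N × Bool) ⊕ Bool) (k : ℕ)
    (hk : (∃ c, β = .inr c) ∨ (k % 8 ≠ 3 ∧ k % 8 ≠ 5)) : ContinuousAt E (bs x β * ze ^ k) := by
  refine (hE.diff _ (mul_ne_zero (bs_ne β) (pow_ne_zero _ ze_ne)) (fun u => ?_) (fun u => ?_)
    (by simp)).continuousAt
  · refine pt_ne hx (γ := .inl u) (m := 3) ?_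
    rcases hk with ⟨c, rfl⟩ | hk
    · left; simp
    · right; simpa using hk.1
  · refine pt_ne hx (γ := .inl u) (m := 5) ?_
    rcases hk with ⟨c, rfl⟩ | hk
    · left; simp
    · right; simpa using hk.2

lemma cE' (hx : Nd x) (hE : FF x ∅ E r) (β : (Fin N × Bool) ⊕ Bool) (k n : ℕ)
    (hk : (∃ c, β = .inr c) ∨ ((k + n) % 8 ≠ 3 ∧ (k + n) % 8 ≠ 5)) :
    ContinuousAt (fun z => E (ze ^ n * z)) (bs x β * ze ^ k) := by
  have h := cE hx hE β (k + n) hk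
  have e : ze ^ n * (bs x β * ze ^ k) = bs x β * ze ^ (k + n) := by rw [pow_add]; ring
  rw [← e] at h
  exact ContinuousAt.comp (f := fun z => ze ^ n * z) (g := E) h (by fun_prop)

lemma hE3 (hE : FF x ∅ E r) (u : Fin N × Bool) (k n : ℕ) (hk : (k + n) % 8 = 3) :
    HR (fun z => E (ze ^ n * z)) (yy x u * ze ^ k) (r u) := by
  refine hrScale (pow_ne_zero _ ze_ne) ?_
  have e : ze ^ n * (yy x u * ze ^ k) = yy x u * ze ^ 3 := by
    have : ze ^ (k + n) = ze ^ 3 := by rw [pow_eq_pow_mod (k + n) ze8, hk]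
    rw [← this, pow_add]; ring
  rw [e]; exact hE.r3 u

lemma hE5 (hE : FF x ∅ E r) (u : Fin N × Bool) (k n : ℕ) (hk : (k + n) % 8 = 5) :
    HR (fun z => E (ze ^ n * z)) (yy x u * ze ^ k) (-r u) := by
  refine hrScale (pow_ne_zero _ ze_ne) ?_
  have e : ze ^ n * (yy x u * ze ^ k) = yy x u * ze ^ 5 := by
    have : ze ^ (k + n) = ze ^ 5 := by rw [pow_eq_pow_mod (k + n) ze8, hk]
    rw [← this, pow_add]; ring
  rw [e]; exact hE.r5 u

lemma y8 (hx : Nd x) (u : Fin N × Bool) : (yy x u) ^ 8 ≠ -1 := by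
  intro h
  obtain ⟨j, hj⟩ := exists_pow h
  have h2 : nd x (.inl u, 0) = nd x (.inr true, j) := by
    simp only [nd, bs, Fin.val_zero, pow_zero, mul_one]
    exact hj
  have := nd_inj hx h2
  simp at this

lemma den_ne {z : ℂ} (hz : z ≠ 0) (h : z ^ 8 ≠ -1) : z ^ 4 + (z⁻¹) ^ 4 ≠ 0 := by
  intro h'
  apply h
  have : z ^ 8 + 1 = z ^ 4 * (z ^ 4 + (z⁻¹) ^ 4) := by field_simp
  rw [h', mul_zero] at this
  linear_combination this

lemma pw4 (y : ℂ) (k : ℕ) : (y * ze ^ k) ^ 4 + ((y * ze ^ k)⁻¹) ^ 4 =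
    (-1) ^ k * (y ^ 4 + (y⁻¹) ^ 4) := by
  have e1 : (ze ^ k) ^ 4 = (-1) ^ k := by rw [← pow_mul, mul_comm, pow_mul, ze4]
  have e2 : (((-1 : ℂ)) ^ k)⁻¹ = (-1) ^ k := by
    rw [← inv_pow]; norm_num
  rw [mul_inv, mul_pow, mul_pow, e1, inv_pow (ze ^ k), e1, e2]
  ring

/-- the function whose residues are summed -/
noncomputable def gg (E : ℂ → ℂ) (z : ℂ) : ℂ :=
  E (ze ^ 0 * z) * (E (ze ^ 1 * z) + 3 * E (ze ^ 3 * z)) * (z ^ 4 + (z⁻¹) ^ 4)⁻¹

/-- its residues -/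
noncomputable def rv (x : Fin N → ℝ) (E : ℂ → ℂ) (r : Fin N × Bool → ℂ) :
    ((Fin N × Bool) ⊕ Bool) × Fin 8 → ℂ
  | (.inl u, j) => if j = 2 then -(2 * r u * E (yy x u * ze ^ 2)) * (yy x u ^ 4 + (yy x u)⁻¹ ^ 4)⁻¹
      else if j = 3 then
        -(r u * (E (yy x u * ze ^ 4) + 3 * E (yy x u * ze ^ 6))) * (yy x u ^ 4 + (yy x u)⁻¹ ^ 4)⁻¹
      else if j = 4 then -(r u * E (yy x u * ze ^ 4)) * (yy x u ^ 4 + (yy x u)⁻¹ ^ 4)⁻¹
      else if j = 5 then (r u * E (yy x u * ze ^ 6)) * (yy x u ^ 4 + (yy x u)⁻¹ ^ 4)⁻¹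
      else 0
  | (.inr false, _) => 0
  | (.inr true, j) => E (th * ze ^ (j : ℕ)) * (E (th * ze ^ ((j : ℕ) + 1)) +
      3 * E (th * ze ^ ((j : ℕ) + 3))) * (1 / (8 * (th * ze ^ (j : ℕ)) ^ 4))

lemma hr_den {s : ℂ} (hs : s ≠ 0) (h8 : s ^ 8 = -1) :
    HR (fun z => (z ^ 4 + (z⁻¹) ^ 4)⁻¹) s (1 / (8 * s ^ 4)) := by
  have hc : ContinuousAt (fun z : ℂ => z ^ 4 / (s * (z ^ 7 + z ^ 6 * s + z ^ 5 * s ^ 2 +
      z ^ 4 * s ^ 3 + z ^ 3 * s ^ 4 + z ^ 2 * s ^ 5 + z * s ^ 6 + s ^ 7))) s := by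
    refine ContinuousAt.div (by fun_prop) (by fun_prop) ?_
    have : s * (s ^ 7 + s ^ 6 * s + s ^ 5 * s ^ 2 + s ^ 4 * s ^ 3 + s ^ 3 * s ^ 4 +
      s ^ 2 * s ^ 5 + s * s ^ 6 + s ^ 7) = 8 * s ^ 8 := by ring
    rw [this, h8]; norm_num
  have h := hc.tendsto.mono_left (nhdsWithin_le_nhds (s := {s}ᶜ))
  have e : s ^ 4 / (s * (s ^ 7 + s ^ 6 * s + s ^ 5 * s ^ 2 + s ^ 4 * s ^ 3 + s ^ 3 * s ^ 4 +
      s ^ 2 * s ^ 5 + s * s ^ 6 + s ^ 7)) = 1 / (8 * s ^ 4) := by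
    field_simp
    norm_num
  rw [e] at h
  refine Tendsto.congr' ?_ h
  have h0 : ∀ᶠ z in 𝓝[≠] s, z ≠ 0 :=
    (continuousAt_id.eventually_ne hs).filter_mono nhdsWithin_le_nhds
  filter_upwards [self_mem_nhdsWithin, h0] with z hz hz0
  have hz' : z - s ≠ 0 := sub_ne_zero.mpr hz
  have e2 : z ^ 4 + (z⁻¹) ^ 4 = (z - s) * (z ^ 7 + z ^ 6 * s + z ^ 5 * s ^ 2 +
      z ^ 4 * s ^ 3 + z ^ 3 * s ^ 4 + z ^ 2 * s ^ 5 + z * s ^ 6 + s ^ 7) / z ^ 4 := by
    rw [eq_div_iff (pow_ne_zero _ hz0)]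
    have e3 : (z ^ 4 + (z⁻¹) ^ 4) * z ^ 4 = z ^ 8 + 1 := by field_simp
    rw [e3]
    linear_combination h8
  rw [e2]
  have e4 : z / s - 1 = (z - s) / s := by field_simp
  rw [e4, inv_div]
  generalize z ^ 7 + z ^ 6 * s + z ^ 5 * s ^ 2 + z ^ 4 * s ^ 3 + z ^ 3 * s ^ 4 + z ^ 2 * s ^ 5 +
    z * s ^ 6 + s ^ 7 = w
  rw [div_mul_div_comm, show s * ((z - s) * w) = s * w * (z - s) by ring,
    mul_comm (z - s) (z ^ 4), mul_div_mul_right _ _ hz']

lemma c_den {s : ℂ} (hs : s ≠ 0) (h8 : s ^ 8 ≠ -1) :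
    ContinuousAt (fun z : ℂ => (z ^ 4 + (z⁻¹) ^ 4)⁻¹) s := by
  refine ContinuousAt.inv₀ ?_ (den_ne hs h8)
  have : ContinuousAt (fun z : ℂ => z⁻¹) s := continuousAt_inv₀ hs
  fun_prop

lemma y8' (hx : Nd x) (u : Fin N × Bool) (k : ℕ) : (yy x u * ze ^ k) ^ 8 ≠ -1 := by
  rw [mul_pow, ← pow_mul, mul_comm k 8, pow_mul, ze8, one_pow, mul_one]
  exact y8 hx u

lemma e0 (k : ℕ) (β : (Fin N × Bool) ⊕ Bool) :
    ze ^ 0 * (bs x β * ze ^ k) = bs x β * ze ^ k := by rw [pow_zero, one_mul]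

/-- `E(ze z) + 3 E(ze^3 z)` is continuous. -/
lemma cM (hx : Nd x) (hE : FF x ∅ E r) (β : (Fin N × Bool) ⊕ Bool) (k : ℕ)
    (hk : (∃ c, β = .inr c) ∨ ((k + 1) % 8 ≠ 3 ∧ (k + 1) % 8 ≠ 5 ∧ (k + 3) % 8 ≠ 3 ∧
      (k + 3) % 8 ≠ 5)) :
    ContinuousAt (fun z => E (ze ^ 1 * z) + 3 * E (ze ^ 3 * z)) (bs x β * ze ^ k) := by
  refine ContinuousAt.add (cE' hx hE β k 1 ?_) (continuousAt_const.mul (cE' hx hE β k 3 ?_))
  · rcases hk with h | h
    · exact .inl h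
    · exact .inr ⟨h.1, h.2.1⟩
  · rcases hk with h | h
    · exact .inl h
    · exact .inr ⟨h.2.2.1, h.2.2.2⟩

lemma hr_zero (hx : Nd x) (hE : FF x ∅ E r) (β : (Fin N × Bool) ⊕ Bool) (k : ℕ)
    (h8 : (bs x β * ze ^ k) ^ 8 ≠ -1)
    (hk : (∃ c, β = .inr c) ∨ (k % 8 ≠ 3 ∧ k % 8 ≠ 5 ∧ (k + 1) % 8 ≠ 3 ∧ (k + 1) % 8 ≠ 5 ∧
      (k + 3) % 8 ≠ 3 ∧ (k + 3) % 8 ≠ 5)) : HR (gg E) (bs x β * ze ^ k) 0 := by
  have hs : bs x β * ze ^ k ≠ 0 := mul_ne_zero (bs_ne β) (pow_ne_zero _ ze_ne)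
  refine hrCont hs ?_
  refine ((cE' hx hE β k 0 ?_).mul (cM hx hE β k ?_)).mul (c_den hs h8)
  · rcases hk with h | h
    · exact .inl h
    · exact .inr ⟨h.1, h.2.1⟩
  · rcases hk with h | h
    · exact .inl h
    · exact .inr h.2.2

theorem hr_all (hx : Nd x) (hE : FF x ∅ E r) (i : ((Fin N × Bool) ⊕ Bool) × Fin 8) :
    HR (gg E) (nd x i) (rv x E r i) := by
  obtain ⟨β, j⟩ := i
  have hnd : nd x (β, j) = bs x β * ze ^ (j : ℕ) := rfl
  rw [hnd]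
  rcases β with u | c
  · -- the blocks of the nodes
    have hs : ∀ k : ℕ, yy x u * ze ^ k ≠ 0 := fun k =>
      mul_ne_zero (bs_ne (x := x) (.inl u)) (pow_ne_zero _ ze_ne)
    have hc : ∀ k : ℕ, ContinuousAt (fun z : ℂ => (z ^ 4 + (z⁻¹) ^ 4)⁻¹) (yy x u * ze ^ k) :=
      fun k => c_den (hs k) (y8' hx u k)
    show HR (gg E) (yy x u * ze ^ (j : ℕ)) _
    fin_cases j
    · -- j = 0
      have h1 : HR (fun z => E (ze ^ 1 * z) + 3 * E (ze ^ 3 * z)) (yy x u * ze ^ 0)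
          (0 + 3 * r u) :=
        hrAdd (hrCont (hs 0) (cE' hx hE (.inl u) 0 1 (.inr (by norm_num))))
          (hrConst 3 (hE3 hE u 0 3 (by norm_num)))
      have h2 : ContinuousAt (fun z => E (ze ^ 0 * z) * (z ^ 4 + (z⁻¹) ^ 4)⁻¹) (yy x u * ze ^ 0) :=
        (cE' hx hE (.inl u) 0 0 (.inr (by norm_num))).mul (hc 0)
      have h := hrMul h1 h2
      have e : rv x E r (Sum.inl u, ⟨0, by norm_num⟩) = (0 + 3 * r u) *
          (E (ze ^ 0 * (yy x u * ze ^ 0)) * ((yy x u * ze ^ 0) ^ 4 + ((yy x u * ze ^ 0)⁻¹) ^ 4)⁻¹) := by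
        simp [rv, hE.zero u]
      show HR (gg E) (yy x u * ze ^ 0) (rv x E r (Sum.inl u, ⟨0, by norm_num⟩))
      rw [e]
      exact Tendsto.congr (fun z => by simp only [gg]; ring) h
    · exact hr_zero hx hE (.inl u) 1 (y8' hx u 1) (.inr (by norm_num))
    · -- j = 2
      have h1 : HR (fun z => E (ze ^ 1 * z) + 3 * E (ze ^ 3 * z)) (yy x u * ze ^ 2)
          (r u + 3 * (-r u)) :=
        hrAdd (hE3 hE u 2 1 (by norm_num)) (hrConst 3 (hE5 hE u 2 3 (by norm_num)))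
      have h2 : ContinuousAt (fun z => E (ze ^ 0 * z) * (z ^ 4 + (z⁻¹) ^ 4)⁻¹) (yy x u * ze ^ 2) :=
        (cE' hx hE (.inl u) 2 0 (.inr (by norm_num))).mul (hc 2)
      have h := hrMul h1 h2
      have e : rv x E r (Sum.inl u, ⟨2, by norm_num⟩) = (r u + 3 * (-r u)) *
          (E (ze ^ 0 * (yy x u * ze ^ 2)) * ((yy x u * ze ^ 2) ^ 4 + ((yy x u * ze ^ 2)⁻¹) ^ 4)⁻¹) := by
        rw [pw4, pow_zero, one_mul]
        simp [rv]
        ring
      show HR (gg E) (yy x u * ze ^ 2) (rv x E r (Sum.inl u, ⟨2, by norm_num⟩))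
      rw [e]
      exact Tendsto.congr (fun z => by simp only [gg]; ring) h
    · -- j = 3
      have h1 : HR (fun z => E (ze ^ 0 * z)) (yy x u * ze ^ 3) (r u) :=
        hE3 hE u 3 0 (by norm_num)
      have h2 : ContinuousAt (fun z => (E (ze ^ 1 * z) + 3 * E (ze ^ 3 * z)) *
          (z ^ 4 + (z⁻¹) ^ 4)⁻¹) (yy x u * ze ^ 3) :=
        (cM hx hE (.inl u) 3 (.inr (by norm_num))).mul (hc 3)
      have h := hrMul h1 h2
      have e : rv x E r (Sum.inl u, ⟨3, by norm_num⟩) = r u *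
          ((E (ze ^ 1 * (yy x u * ze ^ 3)) + 3 * E (ze ^ 3 * (yy x u * ze ^ 3))) *
            ((yy x u * ze ^ 3) ^ 4 + ((yy x u * ze ^ 3)⁻¹) ^ 4)⁻¹) := by
        rw [pw4, show ze ^ 1 * (yy x u * ze ^ 3) = yy x u * ze ^ 4 by ring,
          show ze ^ 3 * (yy x u * ze ^ 3) = yy x u * ze ^ 6 by ring]
        simp [rv]
        rw [show ((-1 : ℂ)) ^ 3 = -1 by norm_num, show ((-1 : ℂ))⁻¹ = -1 by norm_num]
        ring
      show HR (gg E) (yy x u * ze ^ 3) (rv x E r (Sum.inl u, ⟨3, by norm_num⟩))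
      rw [e]
      exact Tendsto.congr (fun z => by simp only [gg]; ring) h
    · -- j = 4
      have h1 : HR (fun z => E (ze ^ 1 * z) + 3 * E (ze ^ 3 * z)) (yy x u * ze ^ 4)
          (-r u + 3 * 0) :=
        hrAdd (hE5 hE u 4 1 (by norm_num)) (hrConst 3 (hrCont (hs 4)
          (cE' hx hE (.inl u) 4 3 (.inr (by norm_num)))))
      have h2 : ContinuousAt (fun z => E (ze ^ 0 * z) * (z ^ 4 + (z⁻¹) ^ 4)⁻¹) (yy x u * ze ^ 4) :=
        (cE' hx hE (.inl u) 4 0 (.inr (by norm_num))).mul (hc 4)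
      have h := hrMul h1 h2
      have e : rv x E r (Sum.inl u, ⟨4, by norm_num⟩) = (-r u + 3 * 0) *
          (E (ze ^ 0 * (yy x u * ze ^ 4)) * ((yy x u * ze ^ 4) ^ 4 + ((yy x u * ze ^ 4)⁻¹) ^ 4)⁻¹) := by
        rw [pw4, pow_zero, one_mul]
        simp [rv]
        ring
      show HR (gg E) (yy x u * ze ^ 4) (rv x E r (Sum.inl u, ⟨4, by norm_num⟩))
      rw [e]
      exact Tendsto.congr (fun z => by simp only [gg]; ring) h
    · -- j = 5
      have h1 : HR (fun z => E (ze ^ 0 * z)) (yy x u * ze ^ 5) (-r u) :=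
        hE5 hE u 5 0 (by norm_num)
      have h2 : ContinuousAt (fun z => (E (ze ^ 1 * z) + 3 * E (ze ^ 3 * z)) *
          (z ^ 4 + (z⁻¹) ^ 4)⁻¹) (yy x u * ze ^ 5) :=
        (cM hx hE (.inl u) 5 (.inr (by norm_num))).mul (hc 5)
      have h := hrMul h1 h2
      have e : rv x E r (Sum.inl u, ⟨5, by norm_num⟩) = -r u *
          ((E (ze ^ 1 * (yy x u * ze ^ 5)) + 3 * E (ze ^ 3 * (yy x u * ze ^ 5))) *
            ((yy x u * ze ^ 5) ^ 4 + ((yy x u * ze ^ 5)⁻¹) ^ 4)⁻¹) := by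
        rw [pw4, show ze ^ 1 * (yy x u * ze ^ 5) = yy x u * ze ^ 6 by ring,
          show ze ^ 3 * (yy x u * ze ^ 5) = yy x u * ze ^ 8 by ring, ze8, mul_one, hE.zero u]
        simp [rv]
        rw [show ((-1 : ℂ)) ^ 5 = -1 by norm_num, show ((-1 : ℂ))⁻¹ = -1 by norm_num]
        ring
      show HR (gg E) (yy x u * ze ^ 5) (rv x E r (Sum.inl u, ⟨5, by norm_num⟩))
      rw [e]
      exact Tendsto.congr (fun z => by simp only [gg]; ring) h
    · exact hr_zero hx hE (.inl u) 6 (y8' hx u 6) (.inr (by norm_num))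
    · exact hr_zero hx hE (.inl u) 7 (y8' hx u 7) (.inr (by norm_num))
  · rcases c with _ | _
    · -- base point 1
      have h8 : (bs x (.inr false) * ze ^ (j : ℕ)) ^ 8 ≠ -1 := by
        show ((1 : ℂ) * ze ^ (j : ℕ)) ^ 8 ≠ -1
        rw [one_mul, ← pow_mul, mul_comm, pow_mul, ze8, one_pow]
        norm_num
      exact hr_zero hx hE (.inr false) j h8 (.inl ⟨_, rfl⟩)
    · -- base point th
      have hs : th * ze ^ (j : ℕ) ≠ 0 := mul_ne_zero th_ne (pow_ne_zero _ ze_ne)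
      have h8 : (th * ze ^ (j : ℕ)) ^ 8 = -1 := by
        rw [mul_pow, ← pow_mul, mul_comm (j : ℕ) 8, pow_mul, ze8, one_pow, mul_one, th_pow_eight]
      have h1 := hr_den hs h8
      have h2 : ContinuousAt (fun z => E (ze ^ 0 * z) * (E (ze ^ 1 * z) + 3 * E (ze ^ 3 * z)))
          (th * ze ^ (j : ℕ)) :=
        (cE' hx hE (.inr true) j 0 (.inl ⟨_, rfl⟩)).mul (cM hx hE (.inr true) j (.inl ⟨_, rfl⟩))
      have h := hrMul h1 h2
      have e : rv x E r (Sum.inr true, j) = 1 / (8 * (th * ze ^ (j : ℕ)) ^ 4) *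
          (E (ze ^ 0 * (th * ze ^ (j : ℕ))) * (E (ze ^ 1 * (th * ze ^ (j : ℕ))) +
            3 * E (ze ^ 3 * (th * ze ^ (j : ℕ))))) := by
        rw [pow_zero, one_mul, show ze ^ 1 * (th * ze ^ (j : ℕ)) = th * ze ^ ((j : ℕ) + 1) by
          rw [pow_succ]; ring, show ze ^ 3 * (th * ze ^ (j : ℕ)) = th * ze ^ ((j : ℕ) + 3) by
          rw [pow_add]; ring]
        simp only [rv]
        ring
      show HR (gg E) (th * ze ^ (j : ℕ)) _
      rw [e]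
      exact Tendsto.congr (fun z => by simp only [gg]; ring) h

/-- the sum of the residues in the block of a node vanishes -/
lemma block (hx : Nd x) (hE : FF x ∅ E r) (u : Fin N × Bool) :
    ∑ j : Fin 8, rv x E r (.inl u, j) = 0 := by
  have hfe : E (yy x u) + E (ze ^ 2 * yy x u) + E (ze ^ 4 * yy x u) + E (ze ^ 6 * yy x u) = 0 := by
    refine hE.fe _ (bs_ne (x := x) (.inl u)) (fun u' h => ?_) (by simp)
    have h1 : ((yy x u / yy x u') ^ 8 : ℂ) = 1 := by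
      have : ((yy x u / yy x u') ^ 8 : ℂ) = ((yy x u / yy x u') ^ 4) ^ 2 := by ring
      rw [this, h]; norm_num
    obtain ⟨i, hi, hi2⟩ := prim.eq_pow_of_pow_eq_one h1
    have hy' : yy x u' ≠ 0 := bs_ne (x := x) (.inl u')
    have h3 : bs x (.inl u) * ze ^ 0 = bs x (.inl u') * ze ^ i := by
      show yy x u * ze ^ 0 = yy x u' * ze ^ i
      rw [hi2, pow_zero, mul_one, mul_div_cancel₀ _ hy']
    by_cases hu : u = u'
    · subst hu
      rw [div_self hy'] at h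
      norm_num at h
    · exact pt_ne hx (.inl (by simpa using hu)) h3
  rw [hE.zero u, zero_add] at hfe
  have c2 : ze ^ 2 * yy x u = yy x u * ze ^ 2 := mul_comm _ _
  have c4 : ze ^ 4 * yy x u = yy x u * ze ^ 4 := mul_comm _ _
  have c6 : ze ^ 6 * yy x u = yy x u * ze ^ 6 := mul_comm _ _
  rw [c2, c4, c6] at hfe
  rw [Fin.sum_univ_eight]
  simp [rv]
  linear_combination (-2 * r u * (yy x u ^ 4 + (yy x u ^ 4)⁻¹)⁻¹) * hfe

lemma half (hx : Nd x) (hE : FF x ∅ E r) (h0 : E th = 0) :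
    ∑ j : Fin 8, rv x E r (.inr true, j) = Complex.I * E (th ^ 3) ^ 2 := by
  have h16 : th ^ 16 = 1 := by
    have : th ^ 16 = (th ^ 8) ^ 2 := by ring
    rw [this, th_pow_eight]; norm_num
  have z8 : ∀ k, E (th * ze ^ (8 + k)) = E (th * ze ^ k) := fun k => by
    rw [pow_add, ze8, one_mul]
  have m0 : E (th * ze ^ 0) = 0 := by rw [pow_zero, mul_one]; exact h0
  have m1 : E (th * ze ^ 1) = E (th ^ 3) := by congr 1; rw [ze]; ring
  have inv : ∀ j k : ℕ, 2 * j + 1 + (2 * k + 1) = 16 → E (th * ze ^ j) = -E (th * ze ^ k) := by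
    intro j k hjk
    rw [← hE.odd _ (mul_ne_zero th_ne (pow_ne_zero _ ze_ne))]
    congr 1
    refine eq_inv_of_mul_eq_one_left ?_
    rw [ze, ← pow_mul, ← pow_mul]
    calc th * th ^ (2 * j) * (th * th ^ (2 * k)) = th ^ (2 * j + 1 + (2 * k + 1)) := by ring
      _ = 1 := by rw [hjk, h16]
  have m7 : E (th * ze ^ 7) = 0 := by rw [inv 7 0 (by norm_num), m0, neg_zero]
  have m6 : E (th * ze ^ 6) = -E (th ^ 3) := by rw [inv 6 1 (by norm_num), m1]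
  have m5 : E (th * ze ^ 5) = -E (th * ze ^ 2) := inv 5 2 (by norm_num)
  have m4 : E (th * ze ^ 4) = -E (th * ze ^ 3) := inv 4 3 (by norm_num)
  have hfe : E th + E (ze ^ 2 * th) + E (ze ^ 4 * th) + E (ze ^ 6 * th) = 0 := by
    refine hE.fe _ th_ne (fun u' h => ?_) (by simp)
    have h1 : ((th / yy x u') ^ 8 : ℂ) = 1 := by
      have : ((th / yy x u') ^ 8 : ℂ) = ((th / yy x u') ^ 4) ^ 2 := by ring
      rw [this, h]; norm_num
    obtain ⟨i, hi, hi2⟩ := prim.eq_pow_of_pow_eq_one h1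
    have hy' : yy x u' ≠ 0 := bs_ne (x := x) (.inl u')
    have h3 : bs x (.inr true) * ze ^ 0 = bs x (.inl u') * ze ^ i := by
      show th * ze ^ 0 = yy x u' * ze ^ i
      rw [hi2, pow_zero, mul_one, mul_div_cancel₀ _ hy']
    exact pt_ne hx (.inl (by simp)) h3
  rw [mul_comm (ze ^ 2), mul_comm (ze ^ 4), mul_comm (ze ^ 6), h0, m4, m6] at hfe
  have hB : E (th * ze ^ 2) = E (th * ze ^ 3) + E (th ^ 3) := by linear_combination hfe
  have hp : ∀ j : ℕ, (th * ze ^ j) ^ 4 = Complex.I * (-1) ^ j := by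
    intro j
    rw [mul_pow, th4, ← pow_mul, mul_comm j 4, pow_mul, ze4]
  rw [Fin.sum_univ_eight]
  simp only [rv, Fin.isValue, Fin.val_zero, Fin.val_one, Fin.val_two, hp]
  have v3 : ((3 : Fin 8) : ℕ) = 3 := rfl
  have v4 : ((4 : Fin 8) : ℕ) = 4 := rfl
  have v5 : ((5 : Fin 8) : ℕ) = 5 := rfl
  have v6 : ((6 : Fin 8) : ℕ) = 6 := rfl
  have v7 : ((7 : Fin 8) : ℕ) = 7 := rfl
  rw [v3, v4, v5, v6, v7]
  norm_num only
  have m8 : E (th * ze ^ 8) = 0 := by rw [z8 0, m0]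
  have m9 : E (th * ze ^ 9) = E (th ^ 3) := by rw [z8 1, m1]
  have m10 : E (th * ze ^ 10) = E (th * ze ^ 3) + E (th ^ 3) := by rw [z8 2, hB]
  rw [m10, m9, m8, m0, m7, m6, m5, m4, m1, hB]
  generalize E (th * ze ^ 3) = b
  generalize E (th ^ 3) = t
  have hI : (1 : ℂ) / (8 * (Complex.I * 1)) = -Complex.I / 8 := by
    rw [div_eq_div_iff (by simp) (by norm_num)]
    linear_combination (8 : ℂ) * Complex.I_sq
  have hI' : (1 : ℂ) / (8 * (Complex.I * -1)) = Complex.I / 8 := by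
    rw [div_eq_div_iff (by simp) (by norm_num)]
    linear_combination (8 : ℂ) * Complex.I_sq
  rw [hI, hI']
  ring

lemma tendsto_mul_cocompact {c : ℂ} (hc : c ≠ 0) :
    Tendsto (fun z => c * z) (cocompact ℂ) (cocompact ℂ) :=
  (Homeomorph.mulLeft₀ c hc).isClosedEmbedding.tendsto_cocompact

lemma tendsto_mul_zero' {c : ℂ} (hc : c ≠ 0) :
    Tendsto (fun z => c * z) (𝓝[≠] 0) (𝓝[≠] 0) := by
  refine tendsto_nhdsWithin_iff.mpr ⟨?_, ?_⟩
  · have : Tendsto (fun z => c * z) (𝓝 0) (𝓝 (c * 0)) := (continuous_const.mul continuous_id).tendsto 0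
    rw [mul_zero] at this
    exact this.mono_left nhdsWithin_le_nhds
  · filter_upwards [self_mem_nhdsWithin] with z hz
    exact mul_ne_zero hc hz

lemma lim_inf {κ : ℂ} (aEi : Tendsto (fun z => E z / z ^ 2) (cocompact ℂ) (𝓝 κ)) :
    Tendsto (gg E) (cocompact ℂ) (𝓝 (κ * (ze ^ 2 * κ + 3 * (ze ^ 6 * κ)) * 1)) := by
  have h1 : ∀ n : ℕ, Tendsto (fun z => E (ze ^ n * z) / z ^ 2) (cocompact ℂ)
      (𝓝 ((ze ^ n) ^ 2 * κ)) := by
    intro n
    have h := (aEi.comp (tendsto_mul_cocompact (pow_ne_zero n ze_ne))).const_mul ((ze ^ n) ^ 2)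
    refine h.congr fun z => ?_
    simp only [Function.comp]
    have := pow_ne_zero n ze_ne
    rw [mul_pow, mul_div_assoc', mul_div_mul_left _ _ (pow_ne_zero 2 this)]
  have h2 : Tendsto (fun z : ℂ => z ^ 4 * (z ^ 4 + (z⁻¹) ^ 4)⁻¹) (cocompact ℂ) (𝓝 1) := by
    have hi : Tendsto (fun z : ℂ => z⁻¹) (cocompact ℂ) (𝓝 0) := by
      rw [← Metric.cobounded_eq_cocompact]; exact tendsto_inv₀_cobounded
    have h3 : Tendsto (fun z : ℂ => (1 + (z⁻¹) ^ 8)⁻¹) (cocompact ℂ) (𝓝 (1 + 0 ^ 8)⁻¹) :=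
      ((hi.pow 8).const_add 1).inv₀ (by norm_num)
    have e : ((1 : ℂ) + 0 ^ 8)⁻¹ = 1 := by norm_num
    rw [e] at h3
    refine h3.congr' ?_
    have hne : ∀ᶠ z : ℂ in cocompact ℂ, z ≠ 0 := by
      have := (isCompact_singleton (x := (0 : ℂ))).compl_mem_cocompact
      filter_upwards [this] with z hz
      simpa using hz
    filter_upwards [hne] with z hz
    have : z ^ 4 + (z⁻¹) ^ 4 = z ^ 4 * (1 + (z⁻¹) ^ 8) := by field_simp
    rw [this, mul_inv, ← mul_assoc, mul_inv_cancel₀ (pow_ne_zero 4 hz), one_mul]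
  have h := ((h1 0).mul ((h1 1).add ((h1 3).const_mul 3))).mul h2
  have e : (ze ^ 0) ^ 2 * κ * ((ze ^ 1) ^ 2 * κ + 3 * ((ze ^ 3) ^ 2 * κ)) * 1 =
      κ * (ze ^ 2 * κ + 3 * (ze ^ 6 * κ)) * 1 := by ring
  rw [e] at h
  refine h.congr' ?_
  have hne : ∀ᶠ z : ℂ in cocompact ℂ, z ≠ 0 := by
    have := (isCompact_singleton (x := (0 : ℂ))).compl_mem_cocompact
    filter_upwards [this] with z hz
    simpa using hz
  filter_upwards [hne] with z hz
  simp only [gg]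
  field_simp

lemma lim_zero {κ : ℂ} (aE0 : Tendsto (fun z => E z * z ^ 2) (𝓝[≠] 0) (𝓝 κ)) :
    Tendsto (gg E) (𝓝[≠] 0)
      (𝓝 (κ * ((ze ^ 2)⁻¹ * κ + 3 * ((ze ^ 6)⁻¹ * κ)) * 1)) := by
  have h1 : ∀ n : ℕ, Tendsto (fun z => E (ze ^ n * z) * z ^ 2) (𝓝[≠] 0)
      (𝓝 (((ze ^ n) ^ 2)⁻¹ * κ)) := by
    intro n
    have h := (aE0.comp (tendsto_mul_zero' (pow_ne_zero n ze_ne))).const_mul (((ze ^ n) ^ 2)⁻¹)
    refine h.congr fun z => ?_
    simp only [Function.comp]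
    have hzn := pow_ne_zero n ze_ne
    rw [mul_pow]
    field_simp
  have h2 : Tendsto (fun z : ℂ => (z⁻¹) ^ 4 * (z ^ 4 + (z⁻¹) ^ 4)⁻¹) (𝓝[≠] 0) (𝓝 1) := by
    have hc : ContinuousAt (fun z : ℂ => (1 + z ^ 8)⁻¹) 0 :=
      ContinuousAt.inv₀ (by fun_prop) (by norm_num)
    have h3 := hc.tendsto.mono_left (nhdsWithin_le_nhds (s := {0}ᶜ))
    have e : ((1 : ℂ) + 0 ^ 8)⁻¹ = 1 := by norm_num
    rw [e] at h3
    refine h3.congr' ?_
    filter_upwards [self_mem_nhdsWithin] with z hz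
    have hz' : z ≠ 0 := hz
    have : z ^ 4 + (z⁻¹) ^ 4 = (z⁻¹) ^ 4 * (1 + z ^ 8) := by field_simp; ring
    rw [this, mul_inv, ← mul_assoc, mul_inv_cancel₀ (pow_ne_zero 4 (inv_ne_zero hz')), one_mul]
  have h := ((h1 0).mul ((h1 1).add ((h1 3).const_mul 3))).mul h2
  have e : ((ze ^ 0) ^ 2)⁻¹ * κ * (((ze ^ 1) ^ 2)⁻¹ * κ + 3 * (((ze ^ 3) ^ 2)⁻¹ * κ)) * 1 =
      κ * ((ze ^ 2)⁻¹ * κ + 3 * ((ze ^ 6)⁻¹ * κ)) * 1 := by
    rw [pow_zero, one_pow, inv_one, one_mul, pow_one, ← pow_mul]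
  rw [e] at h
  refine h.congr' ?_
  filter_upwards [self_mem_nhdsWithin] with z hz
  have hz' : z ≠ 0 := hz
  simp only [gg]
  field_simp

end main

end Three

open Three in
theorem closeIII {N : ℕ} {x : Fin N → ℝ} (hx : Nd x) {E : ℂ → ℂ} {r : Fin N × Bool → ℂ}
    (hE : FF x ∅ E r) (κ : ℂ)
    (aEi : Tendsto (fun z => E z / z ^ 2) (cocompact ℂ) (𝓝 (κ / (2 * Complex.I))))
    (aE0 : Tendsto (fun z => E z * z ^ 2) (𝓝[≠] 0) (𝓝 (-(κ / (2 * Complex.I)))))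
    (hE0 : E th = 0) : E (th ^ 3) ^ 2 = κ ^ 2 := by
  have hsum := res_sum (nd x) (nd_inj hx) (nd_ne_zero x) (gg E) ?_ (rv x E r) (hr_all hx hE) _ _
    (lim_zero aE0) (lim_inf aEi)
  · rw [Fintype.sum_prod_type, Fintype.sum_sum_type, Fintype.sum_bool] at hsum
    rw [Finset.sum_eq_zero (fun u _ => block hx hE u), half hx hE hE0] at hsum
    have h1 : ∑ j : Fin 8, rv x E r (.inr false, j) = 0 := by simp [rv]
    rw [h1] at hsum
    have z6 : ze ^ 6 = -Complex.I := by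
      have : ze ^ 6 = ze ^ 4 * ze ^ 2 := by ring
      rw [this, ze4, ze2]; ring
    rw [z6, ze2] at hsum
    have hi : (Complex.I)⁻¹ = -Complex.I := Complex.inv_I
    have hi' : (-Complex.I)⁻¹ = Complex.I := by rw [inv_neg, hi, neg_neg]
    have hd : κ / (2 * Complex.I) = -(κ * Complex.I) / 2 := by
      rw [div_eq_div_iff (by simp) (by norm_num)]
      linear_combination (2 * κ) * Complex.I_sq
    rw [hi, hi', hd] at hsum
    have h3 : Complex.I * E (th ^ 3) ^ 2 = Complex.I * κ ^ 2 := by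
      linear_combination hsum + (-κ ^ 2 * Complex.I) * Complex.I_sq
    exact mul_left_cancel₀ Complex.I_ne_zero h3
  · -- differentiability away from the nodes
    intro z hz hne
    have hE1 : ∀ n : ℕ, (∀ u, z ≠ yy x u * ze ^ ((11 - n) % 8)) →
        (∀ u, z ≠ yy x u * ze ^ ((13 - n) % 8)) → n ≤ 3 →
        DifferentiableAt ℂ (fun z => E (ze ^ n * z)) z := by
      intro n h3 h5 hn
      refine DifferentiableAt.comp (f := fun z => ze ^ n * z) (g := E) z ?_ (by fun_prop)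
      refine hE.diff _ (mul_ne_zero (pow_ne_zero _ ze_ne) hz) (fun u h => h3 u ?_)
        (fun u h => h5 u ?_) (by simp)
      · apply mul_left_cancel₀ (pow_ne_zero n ze_ne)
        rw [h, ← pow_eq_pow_mod (11 - n) ze8]
        have : ze ^ n * (yy x u * ze ^ (11 - n)) = yy x u * ze ^ (n + (11 - n)) := by
          rw [pow_add]; ring
        rw [this, show n + (11 - n) = 3 + 8 by omega, pow_add, ze8, mul_one]
      · apply mul_left_cancel₀ (pow_ne_zero n ze_ne)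
        rw [h, ← pow_eq_pow_mod (13 - n) ze8]
        have : ze ^ n * (yy x u * ze ^ (13 - n)) = yy x u * ze ^ (n + (13 - n)) := by
          rw [pow_add]; ring
        rw [this, show n + (13 - n) = 5 + 8 by omega, pow_add, ze8, mul_one]
    have hn : ∀ (u : Fin N × Bool) (k : Fin 8), z ≠ yy x u * ze ^ (k : ℕ) :=
      fun u k => hne (.inl u, k)
    have h0 := hE1 0 (fun u => hn u 3) (fun u => hn u 5) (by norm_num)
    have h1 := hE1 1 (fun u => hn u 2) (fun u => hn u 4) (by norm_num)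
    have h3 := hE1 3 (fun u => hn u 0) (fun u => hn u 2) (by norm_num)
    have hz8 : z ^ 8 ≠ -1 := by
      intro h
      obtain ⟨j, hj⟩ := exists_pow h
      exact hne (.inr true, j) hj
    have hd : DifferentiableAt ℂ (fun z : ℂ => (z ^ 4 + (z⁻¹) ^ 4)⁻¹) z := by
      refine DifferentiableAt.fun_inv ?_ (den_ne hz hz8)
      have : DifferentiableAt ℂ (fun z : ℂ => z⁻¹) z := differentiableAt_inv hz
      fun_prop
    exact (h0.mul (h1.add (h3.const_mul 3))).mul hd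

end Pool.Agent.EXL.Cl
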