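import Pool.Agent.EXL.ClFF
import Pool.Agent.EXL.ClRes

/-!
# Closing (block (C) of board/EXL): the residue theorem (II), `b(t) = i ρ D(p)`
-/

open Filter Topology

namespace Pool.Agent.EXL.Cl

noncomputable section

variable {N : ℕ}

/-- `C(v) = i cot 4v` up to sign -/
def C8 (z : ℂ) : ℂ := (z ^ 8 + 1) / (z ^ 8 - 1)

theorem C8_diff {z : ℂ} (h : z ^ 8 ≠ 1) : DifferentiableAt ℂ C8 z := by
  unfold C8
  exact DifferentiableAt.div (by fun_prop) (by fun_prop) (sub_ne_zero.mpr h)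

/-- `(w^8 - 1)/(w - 1)` -/
theorem geo8 (w : ℂ) : w ^ 8 - 1 = (w - 1) * (w ^ 7 + w ^ 6 + w ^ 5 + w ^ 4 + w ^ 3 + w ^ 2 + w + 1) := by
  ring

theorem C8_pole {s : ℂ} (hs : s ^ 8 = 1) : HR C8 s (1 / 4) := by
  have hs0 : s ≠ 0 := by rintro rfl; norm_num at hs
  have hc : ContinuousAt (fun z : ℂ => (z ^ 8 + 1) / ((z / s) ^ 7 + (z / s) ^ 6 + (z / s) ^ 5 +
      (z / s) ^ 4 + (z / s) ^ 3 + (z / s) ^ 2 + (z / s) + 1)) s := by
    refine ContinuousAt.div (by fun_prop) (by fun_prop) ?_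
    rw [div_self hs0]; norm_num
  have ht := hc.tendsto.mono_left (nhdsWithin_le_nhds (s := {s}ᶜ))
  have hv : (s ^ 8 + 1) / ((s / s) ^ 7 + (s / s) ^ 6 + (s / s) ^ 5 +
      (s / s) ^ 4 + (s / s) ^ 3 + (s / s) ^ 2 + (s / s) + 1) = 1 / 4 := by
    rw [div_self hs0, hs]; norm_num
  rw [hv] at ht
  refine ht.congr' ?_
  filter_upwards [self_mem_nhdsWithin] with z hz
  have hz' : z / s - 1 ≠ 0 := by
    intro h
    apply hz
    have : z / s = 1 := by linear_combination h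
    rwa [div_eq_one_iff_eq hs0] at this
  have e : z ^ 8 - 1 = (z / s) ^ 8 - 1 := by rw [div_pow, hs, div_one]
  unfold C8
  rw [e, geo8]
  rw [mul_div_assoc', mul_div_mul_left _ _ hz']

theorem C8_zero {s : ℂ} (hs : s ^ 8 = -1) :
    Tendsto (fun z => C8 z / (z / s - 1)) (𝓝[≠] s) (𝓝 4) := by
  have hs0 : s ≠ 0 := by rintro rfl; norm_num at hs
  have hc : ContinuousAt (fun z : ℂ => -((z / s) ^ 7 + (z / s) ^ 6 + (z / s) ^ 5 +
      (z / s) ^ 4 + (z / s) ^ 3 + (z / s) ^ 2 + (z / s) + 1) / (z ^ 8 - 1)) s := by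
    refine ContinuousAt.div (by fun_prop) (by fun_prop) ?_
    rw [hs]; norm_num
  have ht := hc.tendsto.mono_left (nhdsWithin_le_nhds (s := {s}ᶜ))
  have hv : -((s / s) ^ 7 + (s / s) ^ 6 + (s / s) ^ 5 +
      (s / s) ^ 4 + (s / s) ^ 3 + (s / s) ^ 2 + (s / s) + 1) / (s ^ 8 - 1) = 4 := by
    rw [div_self hs0, hs]; norm_num
  rw [hv] at ht
  refine ht.congr' ?_
  filter_upwards [self_mem_nhdsWithin] with z hz
  have hz' : z / s - 1 ≠ 0 := by
    intro h
    apply hz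
    have : z / s = 1 := by linear_combination h
    rwa [div_eq_one_iff_eq hs0] at this
  have e : z ^ 8 + 1 = -((z / s) ^ 8 - 1) := by
    rw [div_pow, hs]; ring
  unfold C8
  rw [e, geo8 (z / s), div_div, mul_comm (z ^ 8 - 1), ← div_div]
  congr 1
  rw [eq_div_iff hz']
  ring

theorem C8_inf : Tendsto C8 (cocompact ℂ) (𝓝 1) := by
  have h8 := tendsto_inv_cocompact'.pow 8
  rw [zero_pow (by norm_num)] at h8
  have h := ((tendsto_const_nhds (x := (1 : ℂ))).add h8).div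
    ((tendsto_const_nhds (x := (1 : ℂ))).sub h8) (by norm_num)
  have : ((1 : ℂ) + 0) / (1 - 0) = 1 := by norm_num
  rw [this] at h
  refine h.congr' ?_
  filter_upwards [ev_ne_zero_cocompact] with z hz
  simp only [Pi.div_apply]
  unfold C8
  have h1 : (1 : ℂ) + z⁻¹ ^ 8 = (z ^ 8 + 1) / z ^ 8 := by field_simp
  have h2 : (1 : ℂ) - z⁻¹ ^ 8 = (z ^ 8 - 1) / z ^ 8 := by field_simp
  rw [h1, h2, div_div_div_cancel_right₀ (pow_ne_zero _ hz)]

theorem C8_zero' : Tendsto C8 (𝓝[≠] 0) (𝓝 (-1)) := by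
  have hc : ContinuousAt C8 0 := (C8_diff (by norm_num)).continuousAt
  have ht := hc.tendsto.mono_left (nhdsWithin_le_nhds (s := {(0 : ℂ)}ᶜ))
  have : C8 0 = -1 := by unfold C8; norm_num
  rwa [this] at ht

theorem scale_cocompact {c : ℂ} (hc : c ≠ 0) :
    Tendsto (fun z : ℂ => c * z) (cocompact ℂ) (cocompact ℂ) :=
  (Homeomorph.mulLeft₀ c hc).isClosedEmbedding.tendsto_cocompact

theorem An.scale {F : ℂ → ℂ} (hF : An F) {c : ℂ} (hc : c ≠ 0) : An (fun z => F (c * z)) := by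
  obtain ⟨⟨a, ha⟩, ⟨d, hd⟩⟩ := hF
  refine ⟨⟨c⁻¹ * a, ?_⟩, ⟨c * d, ?_⟩⟩
  · refine ((ha.comp (scale_cocompact hc)).const_mul c⁻¹).congr (fun z => ?_)
    simp only [Function.comp]
    field_simp
  · have h := tendsto_mul_punct (s := 0) hc
    rw [mul_zero] at h
    refine ((hd.comp h).const_mul c).congr' ?_
    filter_upwards [self_mem_nhdsWithin] with z hz
    have hz : z ≠ 0 := hz
    simp only [Function.comp]
    field_simp

/-- the product of two `An` functions kills `z^{±1}` growth -/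
theorem An.mul_inf {F G : ℂ → ℂ} (hF : An F) (hG : An G) :
    Tendsto (fun z => z * (F z * G z)) (cocompact ℂ) (𝓝 0) := by
  obtain ⟨⟨a, ha⟩, _⟩ := hF
  obtain ⟨⟨a', ha'⟩, _⟩ := hG
  have := (ha.mul ha').mul tendsto_inv_cocompact'
  rw [mul_zero] at this
  refine this.congr' ?_
  filter_upwards [ev_ne_zero_cocompact] with z hz
  field_simp

theorem An.mul_zero {F G : ℂ → ℂ} (hF : An F) (hG : An G) :
    Tendsto (fun z => z⁻¹ * (F z * G z)) (𝓝[≠] 0) (𝓝 0) := by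
  obtain ⟨_, ⟨a, ha⟩⟩ := hF
  obtain ⟨_, ⟨a', ha'⟩⟩ := hG
  have := (ha.mul ha').mul tendsto_id_punct
  rw [MulZeroClass.mul_zero] at this
  refine this.congr' ?_
  filter_upwards [self_mem_nhdsWithin] with z hz
  have hz : z ≠ 0 := hz
  field_simp

variable {x : Fin N → ℝ}

/-- the integrand of (II) -/
def g2 (b D : ℂ → ℂ) (z : ℂ) : ℂ := b z * C8 z * D (ze ^ 3 * z) * D (ze ^ 2 * z)

theorem g2_inf {b D : ℂ → ℂ} {B ρ : ℂ} (hb : BF x b B ρ) (aD : An D) :
    Tendsto (g2 b D) (cocompact ℂ) (𝓝 0) := by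
  have h3 := aD.scale (c := ze ^ 3) (pow_ne_zero _ ze_ne_zero)
  have h2 := aD.scale (c := ze ^ 2) (pow_ne_zero _ ze_ne_zero)
  have := (hb.inf.mul C8_inf).mul (h3.mul_inf h2)
  rw [mul_zero] at this
  refine this.congr' ?_
  filter_upwards [ev_ne_zero_cocompact] with z hz
  unfold g2
  field_simp

theorem g2_zero {b D : ℂ → ℂ} {B ρ : ℂ} (hb : BF x b B ρ) (aD : An D) :
    Tendsto (g2 b D) (𝓝[≠] 0) (𝓝 0) := by
  have h3 := aD.scale (c := ze ^ 3) (pow_ne_zero _ ze_ne_zero)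
  have h2 := aD.scale (c := ze ^ 2) (pow_ne_zero _ ze_ne_zero)
  have := (hb.zero.mul C8_zero').mul (h3.mul_zero h2)
  rw [mul_zero] at this
  refine this.congr' ?_
  filter_upwards [self_mem_nhdsWithin] with z hz
  have hz : z ≠ 0 := hz
  unfold g2
  field_simp

theorem eq_nd_one {z : ℂ} (h : z ^ 8 = 1) : ∃ i, z = nd x i := by
  obtain ⟨j, hj, e⟩ := ze_prim.eq_pow_of_pow_eq_one h
  exact ⟨(.inr false, ⟨j, hj⟩), by simp [nd, bs, e]⟩

theorem eq_nd_th {z : ℂ} (h : z ^ 8 = -1) : ∃ i, z = nd x i := by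
  have h' : (z / th) ^ 8 = 1 := by rw [div_pow, h, th_pow_eight]; norm_num
  obtain ⟨j, hj, e⟩ := ze_prim.eq_pow_of_pow_eq_one h'
  refine ⟨(.inr true, ⟨j, hj⟩), ?_⟩
  simp only [nd, bs, e]
  field_simp [th_ne_zero]

theorem eq_nd_yy {z : ℂ} {u} {i j : ℕ} (h : ze ^ i * z = yy x u * ze ^ j) :
    ∃ i, z = nd x i := by
  set k := (j + 7 * i) % 8 with hk
  refine ⟨(.inl u, ⟨k, Nat.mod_lt _ (by norm_num)⟩), ?_⟩
  simp only [nd, bs]
  have h1 : ze ^ k = ze ^ (j + 7 * i) := by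
    rw [hk]
    conv_rhs => rw [← Nat.div_add_mod (j + 7 * i) 8]
    rw [pow_add, pow_mul, ze_pow_eight, one_pow, one_mul]
  rw [h1, pow_add, pow_mul, ← mul_assoc, ← h]
  have : ze ^ i * (ze ^ 7) ^ i = 1 := by
    rw [← mul_pow, ← pow_succ', ze_pow_eight, one_pow]
  linear_combination (-z) * this

theorem g2_diff {b D : ℂ → ℂ} {B ρ : ℂ} {r} (hb : BF x b B ρ) (hD : FF x {-1} D r)
    {z : ℂ} (hz : z ≠ 0) (hn : ∀ i, z ≠ nd x i) : DifferentiableAt ℂ (g2 b D) z := by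
  have hnn : ¬ ∃ i, z = nd x i := fun ⟨i, h⟩ => hn i h
  have hb' : DifferentiableAt ℂ b z := by
    refine hb.diff z hz ?_ ?_ ?_ ?_
    · intro u h; exact hn (.inl u, 5) (by simpa [nd, bs] using h)
    · intro u h; exact hn (.inl u, 6) (by simpa [nd, bs] using h)
    · intro h; exact hnn (eq_nd_th (by rw [h]; exact th_pow_eight' (by norm_num)))
    · intro h; exact hnn (eq_nd_th (by rw [h]; exact th_pow_eight' (by norm_num)))
  have hC : DifferentiableAt ℂ C8 z := C8_diff (fun h => hnn (eq_nd_one h))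
  have hDj : ∀ j : ℕ, DifferentiableAt ℂ (fun z => D (ze ^ j * z)) z := by
    intro j
    have h : DifferentiableAt ℂ D (ze ^ j * z) := by
      refine hD.diff _ (mul_ne_zero (pow_ne_zero _ ze_ne_zero) hz) ?_ ?_ ?_
      · intro u h; exact hnn (eq_nd_yy h)
      · intro u h; exact hnn (eq_nd_yy h)
      · intro h
        apply hnn
        apply eq_nd_th
        rw [mul_pow, ze_pow_pow_eight, one_mul] at h
        exact h
    have h' : DifferentiableAt ℂ (fun z : ℂ => ze ^ j * z) z := by fun_prop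
    exact DifferentiableAt.comp (f := fun z : ℂ => ze ^ j * z) (g := D) z h h'
  exact ((hb'.mul hC).mul (hDj 3)).mul (hDj 2)

/-! ## the local data at the nodes -/

/-- `D (ze^i z)` at `y ze^j` -/
theorem D_yy_cont (hx : Nd x) {D : ℂ → ℂ} {r} (hD : FF x {-1} D r) (u) {i j k : ℕ}
    (hk : (i + j) % 8 = k) (h3 : k ≠ 3) (h5 : k ≠ 5) :
    DifferentiableAt ℂ (fun z => D (ze ^ i * z)) (yy x u * ze ^ j) ∧
      D (ze ^ i * (yy x u * ze ^ j)) = D (yy x u * ze ^ k) := by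
  have e : ze ^ i * (yy x u * ze ^ j) = yy x u * ze ^ k := by
    have : ze ^ k = ze ^ (i + j) := by
      rw [← hk]
      conv_rhs => rw [← Nat.div_add_mod (i + j) 8]
      rw [pow_add ze (8 * _), pow_mul, ze_pow_eight, one_pow, one_mul]
    rw [this]; ring
  refine ⟨?_, by rw [e]⟩
  have h : DifferentiableAt ℂ D (ze ^ i * (yy x u * ze ^ j)) := by
    rw [e]; exact hD.diff_yy hx (le_refl _) u (by omega) h3 h5
  have h' : DifferentiableAt ℂ (fun z : ℂ => ze ^ i * z) (yy x u * ze ^ j) := by fun_prop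
  exact DifferentiableAt.comp (f := fun z : ℂ => ze ^ i * z) (g := D) _ h h'

theorem C8_mul_ze (s : ℂ) (j : ℕ) : C8 (s * ze ^ j) = C8 s := by
  unfold C8; rw [mul_pow, ze_pow_pow_eight, mul_one]

/-- one pole, in `b` -/
theorem g2_b {b D : ℂ → ℂ} {s β : ℂ} (h : HR b s β) (hC : DifferentiableAt ℂ C8 s)
    (h3 : DifferentiableAt ℂ (fun z => D (ze ^ 3 * z)) s)
    (h2 : DifferentiableAt ℂ (fun z => D (ze ^ 2 * z)) s) :
    HR (g2 b D) s (β * (C8 s * D (ze ^ 3 * s) * D (ze ^ 2 * s))) :=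
  (h.mul_cont ((hC.mul h3).mul h2).continuousAt).congr (fun z => by simp only [g2, Pi.mul_apply]; ring)

/-- one pole, in `D (ze^3 z)` -/
theorem g2_3 {b D : ℂ → ℂ} {s β : ℂ} (h : HR (fun z => D (ze ^ 3 * z)) s β)
    (hb : DifferentiableAt ℂ b s) (hC : DifferentiableAt ℂ C8 s)
    (h2 : DifferentiableAt ℂ (fun z => D (ze ^ 2 * z)) s) :
    HR (g2 b D) s (β * (b s * C8 s * D (ze ^ 2 * s))) :=
  (h.mul_cont ((hb.mul hC).mul h2).continuousAt).congr (fun z => by simp only [g2, Pi.mul_apply]; ring)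

/-- one pole, in `D (ze^2 z)` -/
theorem g2_2 {b D : ℂ → ℂ} {s β : ℂ} (h : HR (fun z => D (ze ^ 2 * z)) s β)
    (hb : DifferentiableAt ℂ b s) (hC : DifferentiableAt ℂ C8 s)
    (h3 : DifferentiableAt ℂ (fun z => D (ze ^ 3 * z)) s) :
    HR (g2 b D) s (β * (b s * C8 s * D (ze ^ 3 * s))) :=
  (h.mul_cont ((hb.mul hC).mul h3).continuousAt).congr (fun z => by simp only [g2, Pi.mul_apply]; ring)

/-- one pole, in `C8` -/
theorem g2_C {b D : ℂ → ℂ} {s β : ℂ} (h : HR C8 s β)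
    (hb : DifferentiableAt ℂ b s)
    (h3 : DifferentiableAt ℂ (fun z => D (ze ^ 3 * z)) s)
    (h2 : DifferentiableAt ℂ (fun z => D (ze ^ 2 * z)) s) :
    HR (g2 b D) s (β * (b s * D (ze ^ 3 * s) * D (ze ^ 2 * s))) :=
  (h.mul_cont ((hb.mul h3).mul h2).continuousAt).congr (fun z => by simp only [g2, Pi.mul_apply]; ring)

/-- no pole -/
theorem g2_0 {b D : ℂ → ℂ} {s : ℂ} (hs : s ≠ 0)
    (hb : DifferentiableAt ℂ b s) (hC : DifferentiableAt ℂ C8 s)
    (h3 : DifferentiableAt ℂ (fun z => D (ze ^ 3 * z)) s)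
    (h2 : DifferentiableAt ℂ (fun z => D (ze ^ 2 * z)) s) :
    HR (g2 b D) s 0 :=
  HR.of_cont hs (((hb.mul hC).mul h3).mul h2).continuousAt

theorem eight {g : ℂ → ℂ} {s q0 q1 q2 q3 q4 q5 q6 q7 : ℂ} (h0 : HR g (s * ze ^ 0) q0)
    (h1 : HR g (s * ze ^ 1) q1) (h2 : HR g (s * ze ^ 2) q2) (h3 : HR g (s * ze ^ 3) q3)
    (h4 : HR g (s * ze ^ 4) q4) (h5 : HR g (s * ze ^ 5) q5) (h6 : HR g (s * ze ^ 6) q6)
    (h7 : HR g (s * ze ^ 7) q7) :
    ∃ q : Fin 8 → ℂ, (∀ j : Fin 8, HR g (s * ze ^ (j : ℕ)) (q j)) ∧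
      ∑ j, q j = q0 + q1 + q2 + q3 + q4 + q5 + q6 + q7 := by
  refine ⟨![q0, q1, q2, q3, q4, q5, q6, q7], ?_, ?_⟩
  · intro j
    fin_cases j
    · exact h0
    · exact h1
    · exact h2
    · exact h3
    · exact h4
    · exact h5
    · exact h6
    · exact h7
  · rw [Fin.sum_univ_eight]
    rfl

theorem block_yy (hx : Nd x) {b D : ℂ → ℂ} {B ρ : ℂ} {r} (hb : BF x b B ρ)
    (hD : FF x {-1} D r) (u : Fin N × Bool) :
    ∃ q : Fin 8 → ℂ, (∀ j : Fin 8, HR (g2 b D) (yy x u * ze ^ (j : ℕ)) (q j)) ∧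
      ∑ j, q j = 0 := by
  have hbc : ∀ j : ℕ, j < 8 → j ≠ 5 → j ≠ 6 → DifferentiableAt ℂ b (yy x u * ze ^ j) := by
    intro j hj h5 h6
    refine hb.diff _ (yyze_ne_zero u j) ?_ ?_ ?_ ?_
    · intro u'; exact yy_mul_ne hx hj (by norm_num) h5
    · intro u'; exact yy_mul_ne hx hj (by norm_num) h6
    · intro e
      have := th_pow_eight' (k := 9) (by norm_num)
      rw [← e, yy_mul_eight] at this
      exact yy_eight_ne_neg hx u this
    · intro e
      have := th_pow_eight' (k := 13) (by norm_num)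
      rw [← e, yy_mul_eight] at this
      exact yy_eight_ne_neg hx u this
  have hCc : ∀ j : ℕ, DifferentiableAt ℂ C8 (yy x u * ze ^ j) := by
    intro j
    refine C8_diff ?_
    rw [yy_mul_eight]
    exact yy_eight_ne_one hx u
  have hp3 : ∀ i j : ℕ, i + j = 3 → HR (fun z => D (ze ^ i * z)) (yy x u * ze ^ j) (r u) := by
    intro i j hij
    refine HR.scale (pow_ne_zero _ ze_ne_zero) ?_
    refine (hD.r3 u).cast ?_ rfl
    rw [← hij, pow_add]; ring
  have hp5 : ∀ i j : ℕ, i + j = 5 → HR (fun z => D (ze ^ i * z)) (yy x u * ze ^ j) (-r u) := by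
    intro i j hij
    refine HR.scale (pow_ne_zero _ ze_ne_zero) ?_
    refine (hD.r5 u).cast ?_ rfl
    rw [← hij, pow_add]; ring
  have hz0 : D (yy x u * ze ^ 0) = 0 := by rw [pow_zero, mul_one]; exact hD.zero u
  obtain ⟨ρ5, hρ5⟩ := hb.p5 u
  obtain ⟨ρ6, hρ6⟩ := hb.p6 u
  -- the eight residues
  have h0 := g2_3 (hp3 3 0 rfl) (hbc 0 (by norm_num) (by norm_num) (by norm_num)) (hCc 0)
    (D_yy_cont hx hD u (i := 2) (j := 0) (k := 2) rfl (by norm_num) (by norm_num)).1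
  rw [(D_yy_cont hx hD u (i := 2) (j := 0) (k := 2) rfl (by norm_num) (by norm_num)).2,
    C8_mul_ze] at h0
  have h1 := g2_2 (hp3 2 1 rfl) (hbc 1 (by norm_num) (by norm_num) (by norm_num)) (hCc 1)
    (D_yy_cont hx hD u (i := 3) (j := 1) (k := 4) rfl (by norm_num) (by norm_num)).1
  rw [(D_yy_cont hx hD u (i := 3) (j := 1) (k := 4) rfl (by norm_num) (by norm_num)).2,
    C8_mul_ze] at h1
  have h2 := g2_3 (hp5 3 2 rfl) (hbc 2 (by norm_num) (by norm_num) (by norm_num)) (hCc 2)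
    (D_yy_cont hx hD u (i := 2) (j := 2) (k := 4) rfl (by norm_num) (by norm_num)).1
  rw [(D_yy_cont hx hD u (i := 2) (j := 2) (k := 4) rfl (by norm_num) (by norm_num)).2,
    C8_mul_ze] at h2
  have h3 := g2_2 (hp5 2 3 rfl) (hbc 3 (by norm_num) (by norm_num) (by norm_num)) (hCc 3)
    (D_yy_cont hx hD u (i := 3) (j := 3) (k := 6) rfl (by norm_num) (by norm_num)).1
  rw [(D_yy_cont hx hD u (i := 3) (j := 3) (k := 6) rfl (by norm_num) (by norm_num)).2,
    C8_mul_ze] at h3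
  have h4 := g2_0 (yyze_ne_zero u 4) (hbc 4 (by norm_num) (by norm_num) (by norm_num)) (hCc 4)
    (D_yy_cont hx hD u (i := 3) (j := 4) (k := 7) rfl (by norm_num) (by norm_num)).1
    (D_yy_cont hx hD u (i := 2) (j := 4) (k := 6) rfl (by norm_num) (by norm_num)).1
  have h5 := g2_b hρ5 (hCc 5)
    (D_yy_cont hx hD u (i := 3) (j := 5) (k := 0) rfl (by norm_num) (by norm_num)).1
    (D_yy_cont hx hD u (i := 2) (j := 5) (k := 7) rfl (by norm_num) (by norm_num)).1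
  rw [(D_yy_cont hx hD u (i := 3) (j := 5) (k := 0) rfl (by norm_num) (by norm_num)).2,
    hz0, mul_zero, zero_mul, mul_zero] at h5
  have h6 := g2_b hρ6 (hCc 6)
    (D_yy_cont hx hD u (i := 3) (j := 6) (k := 1) rfl (by norm_num) (by norm_num)).1
    (D_yy_cont hx hD u (i := 2) (j := 6) (k := 0) rfl (by norm_num) (by norm_num)).1
  rw [(D_yy_cont hx hD u (i := 2) (j := 6) (k := 0) rfl (by norm_num) (by norm_num)).2,
    hz0, mul_zero, mul_zero] at h6
  have h7 := g2_0 (yyze_ne_zero u 7) (hbc 7 (by norm_num) (by norm_num) (by norm_num)) (hCc 7)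
    (D_yy_cont hx hD u (i := 3) (j := 7) (k := 2) rfl (by norm_num) (by norm_num)).1
    (D_yy_cont hx hD u (i := 2) (j := 7) (k := 1) rfl (by norm_num) (by norm_num)).1
  obtain ⟨q, hq, hs⟩ := eight h0 h1 h2 h3 h4 h5 h6 h7
  refine ⟨q, hq, ?_⟩
  rw [hs]
  have hf := hb.fus u
  have ho := hb.opp u
  have hfe := hD.fe_yy hx (le_refl _) u
  rw [pow_zero, mul_one, pow_one, ho]
  linear_combination (r u * b (yy x u) * C8 (yy x u)) * hfe
    - (r u * C8 (yy x u) * D (yy x u * ze ^ 4)) * hf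

theorem block_one (hx : Nd x) {b D : ℂ → ℂ} {B ρ : ℂ} {r} (hb : BF x b B ρ)
    (hD : FF x {-1} D r) :
    ∃ q : Fin 8 → ℂ, (∀ j : Fin 8, HR (g2 b D) (1 * ze ^ (j : ℕ)) (q j)) ∧
      ∑ j, q j = 0 := by
  have hne : ∀ (u : Fin N × Bool) (i j : ℕ), (1 : ℂ) * ze ^ j ≠ yy x u * ze ^ i := by
    intro u i j e
    have := congrArg (· ^ 8) e
    simp only [one_mul, yy_mul_eight, ze_pow_pow_eight] at this
    exact yy_eight_ne_one hx u this.symm
  have hne' : ∀ (j k : ℕ), k % 2 = 1 → (1 : ℂ) * ze ^ j ≠ th ^ k := by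
    intro j k hk e
    have h8 := th_pow_eight' hk
    rw [← e, one_mul, ze_pow_pow_eight] at h8
    norm_num at h8
  have h0' : ∀ j : ℕ, (1 : ℂ) * ze ^ j ≠ 0 := fun j =>
    mul_ne_zero one_ne_zero (pow_ne_zero _ ze_ne_zero)
  have hbc : ∀ j : ℕ, DifferentiableAt ℂ b (1 * ze ^ j) := fun j =>
    hb.diff _ (h0' j) (fun u => hne u _ _) (fun u => hne u _ _) (hne' _ _ (by norm_num))
      (hne' _ _ (by norm_num))
  have hDc : ∀ i j : ℕ, DifferentiableAt ℂ (fun z => D (ze ^ i * z)) (1 * ze ^ j) := by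
    intro i j
    have h : DifferentiableAt ℂ D (ze ^ i * (1 * ze ^ j)) := by
      have e : ze ^ i * (1 * ze ^ j) = 1 * ze ^ (i + j) := by rw [pow_add]; ring
      rw [e]
      refine hD.diff _ (h0' _) (fun u => hne u _ _) (fun u => hne u _ _) ?_
      rw [one_mul, ze_pow_pow_eight]
      intro h
      simp only [Set.mem_singleton_iff] at h
      norm_num at h
    have h' : DifferentiableAt ℂ (fun z : ℂ => ze ^ i * z) (1 * ze ^ j) := by fun_prop
    exact DifferentiableAt.comp (f := fun z : ℂ => ze ^ i * z) (g := D) _ h h'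
  have hC : ∀ j : ℕ, HR C8 (1 * ze ^ j) (1 / 4) := fun j =>
    C8_pole (by rw [one_mul, ze_pow_pow_eight])
  have key : ∀ j : ℕ, b (1 * ze ^ j) * D (ze ^ 3 * (1 * ze ^ j)) * D (ze ^ 2 * (1 * ze ^ j)) = 0 →
      HR (g2 b D) (1 * ze ^ j) 0 := by
    intro j h
    refine (g2_C (hC j) (hbc j) (hDc 3 j) (hDc 2 j)).cast rfl ?_
    rw [h, mul_zero]
  have kb : ∀ j : ℕ, b (ze ^ j) = 0 → HR (g2 b D) (1 * ze ^ j) 0 := fun j h =>
    key j (by rw [one_mul, h, zero_mul, zero_mul])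
  have k3 : ∀ j : ℕ, D (ze ^ (3 + j)) = 0 → HR (g2 b D) (1 * ze ^ j) 0 := fun j h =>
    key j (by rw [one_mul, ← pow_add, h, mul_zero, zero_mul])
  have k2 : ∀ j : ℕ, D (ze ^ (2 + j)) = 0 → HR (g2 b D) (1 * ze ^ j) 0 := fun j h =>
    key j (by rw [one_mul, ← pow_add ze 2 j, h, mul_zero])
  obtain ⟨q, hq, hs⟩ := eight (kb 0 (by rw [pow_zero]; exact hb.z0)) (k3 1 hD.at_ze4)
    (k2 2 hD.at_ze4) (kb 3 hb.z3) (kb 4 hb.z4) (k3 5 hD.at_ze8) (k2 6 hD.at_ze8) (kb 7 hb.z7)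
  exact ⟨q, hq, by rw [hs]; ring⟩

theorem block_th (hx : Nd x) {b D : ℂ → ℂ} {B ρ : ℂ} {r} (hb : BF x b B ρ)
    (hD : FF x {-1} D r) (eD : Ex D) :
    ∃ q : Fin 8 → ℂ, (∀ j : Fin 8, HR (g2 b D) (th * ze ^ (j : ℕ)) (q j)) ∧
      ∑ j, q j = -16 * b (th ^ 3) + 16 * Complex.I * ρ * D th := by
  have e1 : ∀ {j k : ℕ}, (1 + 2 * j) % 16 = k → th * ze ^ j = th ^ k := by
    intro j k h
    have := th_red (i := 1) h
    rwa [pow_one] at this
  have e2 : ∀ {i j k : ℕ}, (1 + 2 * (i + j)) % 16 = k → ze ^ i * (th * ze ^ j) = th ^ k := by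
    intro i j k h
    rw [← e1 h, pow_add]; ring
  have hne : ∀ (u : Fin N × Bool) (i j : ℕ), th * ze ^ j ≠ yy x u * ze ^ i := by
    intro u i j e
    have := congrArg (· ^ 8) e
    simp only [yy_mul_eight] at this
    rw [mul_pow, ze_pow_pow_eight, th_pow_eight, mul_one] at this
    exact yy_eight_ne_neg hx u this.symm
  have h0' : ∀ j : ℕ, th * ze ^ j ≠ 0 := fun j =>
    mul_ne_zero th_ne_zero (pow_ne_zero _ ze_ne_zero)
  have hs8 : ∀ j : ℕ, (th * ze ^ j) ^ 8 = -1 := fun j => by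
    rw [mul_pow, ze_pow_pow_eight, th_pow_eight, mul_one]
  have hbc : ∀ j k : ℕ, (1 + 2 * j) % 16 = k → k ≠ 9 → k ≠ 13 →
      DifferentiableAt ℂ b (th * ze ^ j) := by
    intro j k hk h9 h13
    refine hb.diff _ (h0' j) (fun u => hne u _ _) (fun u => hne u _ _) ?_ ?_
    · rw [e1 hk]
      exact th_ne (by rw [← hk]; exact Nat.mod_lt _ (by norm_num)) (by norm_num) h9
    · rw [e1 hk]
      exact th_ne (by rw [← hk]; exact Nat.mod_lt _ (by norm_num)) (by norm_num) h13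
  have hC := fun j => C8_zero (hs8 j)
  have hCc : ∀ j, DifferentiableAt ℂ C8 (th * ze ^ j) := fun j => C8_diff (by rw [hs8]; norm_num)
  -- regular points of `D`
  have hDc : ∀ {i j k : ℕ}, (1 + 2 * (i + j)) % 16 = k → (k = 1 ∨ k = 5 ∨ k = 11 ∨ k = 15) →
      DifferentiableAt ℂ (fun z => D (ze ^ i * z)) (th * ze ^ j) := by
    intro i j k hk hh
    have h : DifferentiableAt ℂ D (ze ^ i * (th * ze ^ j)) := by
      rw [e2 hk]; exact eD.reg k hh
    have h' : DifferentiableAt ℂ (fun z : ℂ => ze ^ i * z) (th * ze ^ j) := by fun_prop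
    exact DifferentiableAt.comp (f := fun z : ℂ => ze ^ i * z) (g := D) _ h h'
  -- poles of `D`
  have hDp : ∀ {i j k : ℕ} {q : ℂ}, (1 + 2 * (i + j)) % 16 = k → HR D (th ^ k) q →
      HR (fun z => D (ze ^ i * z)) (th * ze ^ j) q := by
    intro i j k q hk h
    exact HR.scale (pow_ne_zero _ ze_ne_zero) (h.cast (e2 hk).symm rfl)
  -- one pole times the zero of `C8`
  have one3 : ∀ {j : ℕ} {q : ℂ}, HR (fun z => D (ze ^ 3 * z)) (th * ze ^ j) q →
      DifferentiableAt ℂ b (th * ze ^ j) →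
      DifferentiableAt ℂ (fun z => D (ze ^ 2 * z)) (th * ze ^ j) →
      HR (g2 b D) (th * ze ^ j) 0 := by
    intro j q h3 hb' h2
    have t := (HR.mul_zero_tendsto (h0' j) h3 (hC j)).mul
      ((hb'.mul h2).continuousAt.tendsto.mono_left nhdsWithin_le_nhds)
    exact (HR.of_tendsto (h0' j) t).congr (fun z => by simp only [g2, Pi.mul_apply]; ring)
  have one2 : ∀ {j : ℕ} {q : ℂ}, HR (fun z => D (ze ^ 2 * z)) (th * ze ^ j) q →
      DifferentiableAt ℂ b (th * ze ^ j) →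
      DifferentiableAt ℂ (fun z => D (ze ^ 3 * z)) (th * ze ^ j) →
      HR (g2 b D) (th * ze ^ j) 0 := by
    intro j q h3 hb' h2
    have t := (HR.mul_zero_tendsto (h0' j) h3 (hC j)).mul
      ((hb'.mul h2).continuousAt.tendsto.mono_left nhdsWithin_le_nhds)
    exact (HR.of_tendsto (h0' j) t).congr (fun z => by simp only [g2, Pi.mul_apply]; ring)
  have k0 : HR (g2 b D) (th * ze ^ 0) 0 :=
    one3 (hDp (k := 7) rfl eD.r7) (hbc 0 1 rfl (by norm_num) (by norm_num))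
      (hDc (k := 5) rfl (by norm_num))
  have k1 : HR (g2 b D) (th * ze ^ 1) (-16 * b (th ^ 3)) := by
    have h3 : HR (fun z => D (ze ^ 3 * z)) (th * ze ^ 1) (2 * Complex.I) := hDp (k := 9) rfl eD.r9
    have h2 : HR (fun z => D (ze ^ 2 * z)) (th * ze ^ 1) (2 * Complex.I) := hDp (k := 7) rfl eD.r7
    have t := (HR.mul_mul_zero (h0' 1) h3 h2 (hC 1)).mul_cont
      (hbc 1 3 rfl (by norm_num) (by norm_num)).continuousAt
    refine (t.congr (g := g2 b D) (fun z => by simp only [g2]; ring)).cast rfl ?_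
    rw [e1 (j := 1) (k := 3) rfl]
    linear_combination (16 * b (th ^ 3)) * Complex.I_sq
  have k2 : HR (g2 b D) (th * ze ^ 2) 0 :=
    one2 (hDp (k := 9) rfl eD.r9) (hbc 2 5 rfl (by norm_num) (by norm_num))
      (hDc (k := 11) rfl (by norm_num))
  have k3 : HR (g2 b D) (th * ze ^ 3) 0 :=
    one3 (hDp (k := 13) rfl eD.r13) (hbc 3 7 rfl (by norm_num) (by norm_num))
      (hDc (k := 11) rfl (by norm_num))
  have k4 : HR (g2 b D) (th * ze ^ 4) (8 * Complex.I * ρ * D th) := by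
    have h1 : HR b (th * ze ^ 4) ρ := hb.r9.cast (e1 (j := 4) (k := 9) rfl).symm rfl
    have h2 : HR (fun z => D (ze ^ 2 * z)) (th * ze ^ 4) (-(2 * Complex.I)) :=
      hDp (k := 13) rfl eD.r13
    have t := (HR.mul_mul_zero (h0' 4) h1 h2 (hC 4)).mul_cont
      (hDc (i := 3) (j := 4) (k := 15) rfl (by norm_num)).continuousAt
    refine (t.congr (g := g2 b D) (fun z => by simp only [g2]; ring)).cast rfl ?_
    rw [e2 (i := 3) (j := 4) (k := 15) rfl, hD.at_th (k := 15) (m := 1) rfl, pow_one]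
    ring
  have k5 : HR (g2 b D) (th * ze ^ 5) 0 :=
    g2_0 (h0' 5) (hbc 5 11 rfl (by norm_num) (by norm_num)) (hCc 5)
      (hDc (k := 1) rfl (by norm_num)) (hDc (k := 15) rfl (by norm_num))
  have k6 : HR (g2 b D) (th * ze ^ 6) (8 * Complex.I * ρ * D th) := by
    have h1 : HR b (th * ze ^ 6) (-ρ) := hb.r13.cast (e1 (j := 6) (k := 13) rfl).symm rfl
    have h3 : HR (fun z => D (ze ^ 3 * z)) (th * ze ^ 6) (-(2 * Complex.I)) :=
      hDp (k := 3) rfl eD.r3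
    have t := (HR.mul_mul_zero (h0' 6) h1 h3 (hC 6)).mul_cont
      (hDc (i := 2) (j := 6) (k := 1) rfl (by norm_num)).continuousAt
    refine (t.congr (g := g2 b D) (fun z => by simp only [g2]; ring)).cast rfl ?_
    rw [e2 (i := 2) (j := 6) (k := 1) rfl, pow_one]
    ring
  have k7 : HR (g2 b D) (th * ze ^ 7) 0 :=
    one2 (hDp (k := 3) rfl eD.r3) (hbc 7 15 rfl (by norm_num) (by norm_num))
      (hDc (k := 5) rfl (by norm_num))
  obtain ⟨q, hq, hs⟩ := eight k0 k1 k2 k3 k4 k5 k6 k7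
  exact ⟨q, hq, by rw [hs]; ring⟩

theorem closeII {x : Fin N → ℝ} (hx : Nd x) {b : ℂ → ℂ} {B ρ : ℂ} (hb : BF x b B ρ)
    {D : ℂ → ℂ} {r : Fin N × Bool → ℂ} (hD : FF x {-1} D r) (aD : An D) (eD : Ex D) :
    b (th ^ 3) = Complex.I * ρ * D th := by
  have hblock : ∀ u : (Fin N × Bool) ⊕ Bool, ∃ q : Fin 8 → ℂ,
      (∀ j : Fin 8, HR (g2 b D) (bs x u * ze ^ (j : ℕ)) (q j)) ∧
      ∑ j, q j = (match u with
        | .inl _ => 0
        | .inr false => 0
        | .inr true => -16 * b (th ^ 3) + 16 * Complex.I * ρ * D th) := by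
    rintro (u | (_ | _))
    · exact block_yy hx hb hD u
    · exact block_one hx hb hD
    · exact block_th hx hb hD eD
  choose q hq hs using hblock
  have h := res_sum (nd x) (nd_inj hx) (nd_ne_zero x) (g2 b D)
    (fun z hz hn => g2_diff hb hD hz hn) (fun i => q i.1 i.2) (fun i => hq i.1 i.2) 0 0
    (g2_zero hb aD) (g2_inf hb aD)
  rw [Fintype.sum_prod_type, Fintype.sum_sum_type] at h
  simp only [hs] at h
  rw [Fintype.sum_bool] at h
  simp only [Finset.sum_const_zero, add_zero, zero_add, sub_zero] at h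
  linear_combination (-(1 / 16 : ℂ)) * h

end

end Pool.Agent.EXL.Cl
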