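import Pool.Agent.EXL.ClOne
import Pool.Agent.EXL.ClTwo
import Pool.Agent.EXL.ClThree

/-!
# Closing (block (C) of board/EXL): the closing theorem

`sin l * (residual of DD(., t) at p) = ± B_N * (residual of sin 2v at p)`, for all weights which
make the residuals vanish at the nodes.
-/

open Filter Topology

namespace Pool.Agent.EXL.Cl

noncomputable section

variable {N : ℕ}

theorem sin_ne : ((Real.sin (Real.pi / 8) : ℝ) : ℂ) ≠ 0 := by
  have : 0 < Real.sin (Real.pi / 8) :=
    Real.sin_pos_of_pos_of_lt_pi (by positivity) (by linarith [Real.pi_pos])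
  exact_mod_cast this.ne'

/-- growth one is growth two with leading coefficient zero -/
theorem As.one_two {F : ℂ → ℂ} (h : As 1 F) :
    Tendsto (fun z => F z / z ^ 2) (cocompact ℂ) (𝓝 ((0 : ℂ) / (2 * Complex.I))) ∧
    Tendsto (fun z => F z * z ^ 2) (𝓝[≠] 0) (𝓝 (-((0 : ℂ) / (2 * Complex.I)))) := by
  constructor
  · have h1 : Tendsto (fun z : ℂ => z⁻¹) (cocompact ℂ) (𝓝 0) := tendsto_inv₀_cobounded.comp (by
      rw [Metric.cobounded_eq_cocompact]; exact tendsto_id)
    have := h.inf.mul h1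
    simp only [mul_zero] at this
    rw [zero_div]
    refine this.congr (fun z => ?_)
    rcases eq_or_ne z 0 with rfl | hz
    · simp
    · field_simp
  · have h1 : Tendsto (fun z : ℂ => z) (𝓝[≠] 0) (𝓝 0) := tendsto_id.mono_left nhdsWithin_le_nhds
    have := h.zero.mul h1
    simp only [mul_zero] at this
    rw [zero_div, neg_zero]
    refine this.congr (fun z => ?_)
    ring

/-- the residual of `sin 2v` does not vanish at `p` (from any residual of `sin 4v`) -/
theorem res1_ne {x : Fin N → ℝ} (hx : Nd x) {b : ℂ → ℂ} {B ρ : ℂ} (hb : BF x b B ρ)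
    {a a' : Fin N → ℂ} {α : ℂ} (h1 : ∀ k, res1 x a (ep (x k)) = 0)
    (h2 : ∀ k, resE x α a' (ep (x k)) = 0) : res1 x a th ≠ 0 := by
  obtain ⟨⟨r1, f1⟩, a1⟩ := ff_res1 hx a h1
  obtain ⟨⟨r2, f2⟩, a2⟩ := ff_resE hx α a' h2
  intro h
  have hI := closeI hx hb f1 a1 f2 a2
  have hIII := closeIII hx f1 0 a1.one_two.1 a1.one_two.2 h
  have h3 : res1 x a (th ^ 3) = 0 := by
    rw [zero_pow two_ne_zero] at hIII
    exact pow_eq_zero_iff (two_ne_zero) |>.mp hIII
  rw [h, h3] at hI
  simp only [zero_mul, mul_zero, sub_zero] at hI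
  exact mul_ne_zero (by simp) sin_ne hI.symm

theorem closing {x : Fin N → ℝ} (hx : Nd x) {b : ℂ → ℂ} {B ρ : ℂ} (hb : BF x b B ρ)
    {a a' a'' : Fin N → ℂ} {α : ℂ} (h1 : ∀ k, res1 x a (ep (x k)) = 0)
    (h2 : ∀ k, resE x α a' (ep (x k)) = 0) (h3 : ∀ k, resD x a'' (ep (x k)) = 0) :
    res1 x a th ≠ 0 ∧ ∃ σ : ℂ, (σ = 1 ∨ σ = -1) ∧
      (Real.sin (Real.pi / 8) : ℝ) * resD x a'' th = σ * B * res1 x a th := by
  have hne := res1_ne hx hb h1 h2
  refine ⟨hne, ?_⟩
  -- correct `E` so that it vanishes at `th`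
  set β : ℂ := resE x α a' th / res1 x a th with hβ
  set c : Fin N → ℂ := fun k => a' k - β * a k with hc
  have key : ∀ z, resE x (α + β) c z = resE x α a' z - β * res1 x a z := by
    intro z
    simp only [resE, res1, hc, sub_mul, Finset.sum_sub_distrib, mul_assoc, ← Finset.mul_sum]
    ring
  have h2' : ∀ k, resE x (α + β) c (ep (x k)) = 0 := by
    intro k; rw [key, h2, h1]; ring
  have h2p : resE x (α + β) c th = 0 := by
    rw [key, hβ]; field_simp; ring
  obtain ⟨⟨r1, f1⟩, a1⟩ := ff_res1 hx a h1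
  obtain ⟨⟨r2, f2⟩, a2⟩ := ff_resE hx (α + β) c h2'
  obtain ⟨⟨r3, f3⟩, a3, e3⟩ := ff_resD hx a'' h3
  have hI := closeI hx hb f1 a1 f2 a2
  have hII := closeII hx hb f3 a3 e3
  have hIII := closeIII hx f2 1 a2.inf a2.zero h2p
  rw [hb.bt] at hII
  rw [h2p] at hI
  refine ⟨-resE x (α + β) c (th ^ 3), ?_, ?_⟩
  · have : (resE x (α + β) c (th ^ 3) - 1) * (resE x (α + β) c (th ^ 3) + 1) = 0 := by
      linear_combination hIII
    rcases mul_eq_zero.mp this with h | h
    · right; rw [sub_eq_zero.mp h]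
    · left; rw [eq_neg_of_add_eq_zero_left h]; ring
  · have h2i : (2 * Complex.I) ≠ 0 := by simp
    apply mul_left_cancel₀ h2i
    linear_combination (-(resD x a'' th)) * hI
      + (Complex.I * res1 x a th * resE x (α + β) c (th ^ 3)) * hII
      + (ρ * res1 x a th * resE x (α + β) c (th ^ 3) * resD x a'' th) * Complex.I_sq

end

end Pool.Agent.EXL.Cl
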