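import Pool.Agent.EXL.Par

/-!
# Crossings of the parallelogram from the right side to the left side decay exponentially (helper69)
-/

set_option autoImplicit false

namespace EXL

open HexObs Finset

lemma vx_shift (v0 s d0 : Pt) (t : List Bool) (i : ℕ) : vx (v0 + s) d0 t i = vx v0 d0 t i + s := by
  unfold vx
  induction i with
  | zero => rfl
  | succ i ih =>
    rw [vs_succ, vs_succ, ih]
    abel

lemma isArr_shift {Ω Ω' : Finset Pt} {v0 s d0 : Pt} (h : ∀ v, v + s ∈ Ω' ↔ v ∈ Ω) {t : List Bool} :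
    IsArr Ω' (v0 + s) d0 t ↔ IsArr Ω v0 d0 t := by
  constructor
  · intro ht
    refine ⟨fun i h1 h2 => ?_, fun i k h1 h2 h3 => ?_⟩
    · have h3 := ht.mem i h1 h2
      rw [vx_shift] at h3
      exact (h _).1 h3
    · refine ht.inj i k h1 h2 ?_
      rw [vx_shift, vx_shift, h3]
  · intro ht
    refine ⟨fun i h1 h2 => ?_, fun i k h1 h2 h3 => ?_⟩
    · rw [vx_shift]
      exact (h _).2 (ht.mem i h1 h2)
    · refine ht.inj i k h1 h2 ?_
      rw [vx_shift, vx_shift] at h3
      exact add_right_cancel h3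

lemma exits_shift {Ω Ω' : Finset Pt} {v0 s d0 : Pt} (h : ∀ v, v + s ∈ Ω' ↔ v ∈ Ω) :
    exits Ω' (v0 + s) d0 = exits Ω v0 d0 := by
  ext t
  rw [mem_exits, mem_exits, isArr_shift h]
  have e : tip (v0 + s) d0 t = tip v0 d0 t + s := vx_shift v0 s d0 t _
  rw [e, h]

/-- the columns `1, ..., M` -/
def parR (T M : ℕ) : Finset Pt := (par T (M + 1)).filter fun v => 1 ≤ v.1 - v.2

lemma mem_parR {T M : ℕ} {v : Pt} : v ∈ parR T M ↔ v ∈ par T (M + 1) ∧ 1 ≤ v.1 - v.2 := by
  unfold parR
  rw [mem_filter]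

lemma parR_shift (T M : ℕ) (v : Pt) : v + (2, -1) ∈ parR T M ↔ v ∈ par T M := by
  rw [mem_parR, mem_par', mem_par']
  simp only [Prod.fst_add, Prod.snd_add]
  push_cast
  constructor
  · rintro ⟨⟨h1, ⟨h2, h3⟩, h4, h5⟩, h6⟩
    refine ⟨?_, ⟨by omega, by omega⟩, by omega, by omega⟩
    rcases h1 with h1 | h1
    · exact Or.inl (by omega)
    · exact Or.inr (by omega)
  · rintro ⟨h1, ⟨h2, h3⟩, h4, h5⟩
    refine ⟨⟨?_, ⟨by omega, by omega⟩, by omega, by omega⟩, ?_⟩
    · rcases h1 with h1 | h1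
      · exact Or.inl (by omega)
      · exact Or.inr (by omega)
    · rcases h1 with h1 | h1 <;> omega

lemma A_shift (j k : ℤ) : A j k + (2, -1) = A (j + 1) k := by
  ext <;> simp only [A, Prod.fst_add, Prod.snd_add] <;> ring

/-- the way down along the left side -/
def zz : ℕ → List Bool
  | 0 => []
  | n + 1 => [false, true] ++ zz n

lemma zz_length (n : ℕ) : (zz n).length = 2 * n := by
  induction n with
  | zero => rfl
  | succ n ih =>
    show ([false, true] ++ zz n).length = _
    rw [List.length_append, ih]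
    simp
    ring

lemma zz_wind (n : ℕ) : wind (zz n) = 0 := by
  induction n with
  | zero => rfl
  | succ n ih =>
    show wind ([false, true] ++ zz n) = _
    rw [wind_append, ih]
    decide

lemma zz_out {T M : ℕ} {v0 d0 : Pt} (hM : 1 ≤ M) (n : ℕ) : ∀ t : List Bool, n ≤ T →
    IsArr (par T M) v0 d0 t → dx d0 t t.length = (0, -1) → tip v0 d0 t = B 0 (n - 1) →
    (∀ i, i ≤ t.length → ∀ m : ℤ, m < n → vx v0 d0 t i ≠ A 0 m ∧ vx v0 d0 t i ≠ B 0 m) →
    t ++ zz n ∈ exits (par T M) v0 d0 ∧ dx d0 (t ++ zz n) (t ++ zz n).length = (0, -1) := by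
  induction n with
  | zero =>
    intro t _ hs hd htip hv
    have e : t ++ zz 0 = t := List.append_nil t
    rw [e]
    refine ⟨mem_exits.2 ⟨hs, ?_⟩, hd⟩
    rw [htip, B_mem]
    intro h
    have := h.2.1
    norm_num at this
  | succ n ih =>
    intro t hn hs hd htip hv
    have hn0 : B 0 ((n + 1 : ℕ) - 1 : ℤ) = B 0 n := by
      congr 1
      push_cast
      ring
    rw [hn0] at htip
    have htin : tip v0 d0 t ∈ par T M := by
      rw [htip, B_mem]
      exact ⟨⟨le_rfl, by omega⟩, by omega, by omega⟩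
    have h1 : IsArr (par T M) v0 d0 (t ++ [false]) := by
      refine isArr_append_one.2 ⟨hs, htin, ?_⟩
      intro i hi heq
      rw [htip] at heq
      exact (hv i hi n (by push_cast; omega)).2 heq
    have hl : (t ++ [false]).length = t.length + 1 := by simp
    have ht1 : tip v0 d0 (t ++ [false]) = A 0 n := by
      rw [tip_append_one, hd, htip]
      exact B_left 0 n
    have hd1 : dx d0 (t ++ [false]) (t ++ [false]).length = (-1, 0) := by
      rw [dx_append_one, hd]
      rfl
    have h2 : IsArr (par T M) v0 d0 (t ++ [false] ++ [true]) := by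
      refine isArr_append_one.2 ⟨h1, ?_, ?_⟩
      · rw [ht1, A_mem]
        exact ⟨⟨le_rfl, by omega⟩, by omega, by omega⟩
      · intro i hi heq
        rw [hl] at hi
        rw [vx_append hi, ht1] at heq
        rcases Nat.lt_or_ge t.length i with h5 | h5
        · have h6 : i = t.length + 1 := by omega
          rw [h6] at heq
          have h7 : tip v0 d0 t = A 0 n := heq
          rw [htip] at h7
          have h8 := congrArg Prod.fst h7
          simp only [A, B] at h8
          omega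
        · exact (hv i h5 n (by push_cast; omega)).1 heq
    have hl2 : (t ++ [false] ++ [true]).length = t.length + 2 := by simp
    have ht2 : tip v0 d0 (t ++ [false] ++ [true]) = B 0 (n - 1) := by
      rw [tip_append_one, hd1, ht1]
      exact A_down 0 n
    have hd2 : dx d0 (t ++ [false] ++ [true]) (t ++ [false] ++ [true]).length = (0, -1) := by
      rw [dx_append_one, hd1]
      rfl
    have hv2 : ∀ i, i ≤ (t ++ [false] ++ [true]).length → ∀ m : ℤ, m < n →
        vx v0 d0 (t ++ [false] ++ [true]) i ≠ A 0 m ∧ vx v0 d0 (t ++ [false] ++ [true]) i ≠ B 0 m := by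
      intro i hi m hm
      rcases Nat.lt_or_ge (t ++ [false]).length i with h5 | h5
      · have h6 : i = (t ++ [false]).length + 1 := by omega
        rw [h6, vx_append le_rfl]
        have h7 : vx v0 d0 (t ++ [false]) ((t ++ [false]).length + 1) = A 0 n := ht1
        rw [h7]
        constructor
        · intro h8
          have h9 := congrArg Prod.fst h8
          simp only [A] at h9
          omega
        · intro h8
          have h9 := congrArg Prod.fst h8
          have h10 := congrArg Prod.snd h8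
          simp only [A, B] at h9 h10
          omega
      · rw [vx_append (by omega)]
        rcases Nat.lt_or_ge t.length i with h6 | h6
        · have h7 : i = t.length + 1 := by omega
          rw [h7, vx_append le_rfl]
          have h8 : vx v0 d0 t (t.length + 1) = B 0 n := htip
          rw [h8]
          constructor
          · intro h8
            have h9 := congrArg Prod.fst h8
            have h10 := congrArg Prod.snd h8
            simp only [A, B] at h9 h10
            omega
          · intro h8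
            have h9 := congrArg Prod.fst h8
            simp only [B] at h9
            omega
        · rw [vx_append (by omega)]
          exact hv i h6 m (by push_cast; omega)
    have h3 := ih (t ++ [false] ++ [true]) (by omega) h2 hd2 ht2 hv2
    have e : t ++ zz (n + 1) = t ++ [false] ++ [true] ++ zz n := by
      show t ++ ([false, true] ++ zz n) = _
      simp
    rw [e]
    exact h3

/-- an exit through the left side -/
lemma exit_left {T M : ℕ} (hM : 1 ≤ M) {k : ℤ} (h1 : 0 ≤ k) (h2 : k < T) {t : List Bool}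
    (ht : t ∈ exits (parR T M) (A (M + 1 : ℕ) k) (-1, 1)) (hd : dx (-1, 1) t t.length = (-1, 1)) :
    ∃ m : ℕ, m < T ∧ tip (A (M + 1 : ℕ) k) (-1, 1) t = B 0 m := by
  obtain ⟨harr, hout⟩ := mem_exits.1 ht
  have hlen : 1 ≤ t.length := by
    by_contra hcon
    have hz : t = [] := List.length_eq_zero_iff.1 (by omega)
    rw [hz] at hout
    apply hout
    show A (M + 1 : ℕ) k + (-1, 1) ∈ parR T M
    rw [A_left, mem_parR, B_mem]
    simp only [B]
    push_cast
    refine ⟨⟨⟨by omega, by omega⟩, h1, h2⟩, by omega⟩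
  have hlast := harr.mem _ hlen le_rfl
  have htip : tip (A (M + 1 : ℕ) k) (-1, 1) t = vx (A (M + 1 : ℕ) k) (-1, 1) t t.length + (-1, 1) := by
    rw [tip_eq, hd]
  have hhex := (hex_iff (Or.inr ⟨cl_A _ _, by decide⟩) _).1 (vx_hex (A (M + 1 : ℕ) k) (-1, 1) t (t.length + 1))
  have hhex' : ((tip (A (M + 1 : ℕ) k) (-1, 1) t).1 - (tip (A (M + 1 : ℕ) k) (-1, 1) t).2) % 3 = 0 ∨
      ((tip (A (M + 1 : ℕ) k) (-1, 1) t).1 - (tip (A (M + 1 : ℕ) k) (-1, 1) t).2) % 3 = 2 := hhex
  set w := vx (A (M + 1 : ℕ) k) (-1, 1) t t.length with hw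
  rw [htip] at hhex' hout ⊢
  rw [mem_parR, mem_par'] at hlast hout
  simp only [Prod.fst_add, Prod.snd_add] at hhex' hout
  obtain ⟨⟨a1, ⟨a2, a3⟩, a4, a5⟩, a6⟩ := hlast
  push_cast at a5
  have h3 : w.1 - w.2 ≤ 2 := by
    by_contra hcon
    apply hout
    push_cast
    exact ⟨⟨hhex', ⟨by omega, by omega⟩, by omega, by omega⟩, by omega⟩
  have h4 : w.1 - w.2 = 2 := by omega
  refine ⟨(w.1 - 2).toNat, by omega, ?_⟩
  ext
  · simp only [B, Prod.fst_add]
    omega
  · simp only [B, Prod.snd_add]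
    omega

lemma step_col : ∀ d ∈ dirs, -1 ≤ d.1 - d.2 ∨ d = (-1, 1) := by decide

/-- an exit through another side is an exit of the larger domain -/
lemma exit_other {T M : ℕ} {k : ℤ} {t : List Bool}
    (ht : t ∈ exits (parR T M) (A (M + 1 : ℕ) k) (-1, 1)) (hd : dx (-1, 1) t t.length ≠ (-1, 1)) :
    t ∈ exits (par T (M + 1)) (A (M + 1 : ℕ) k) (-1, 1) := by
  obtain ⟨harr, hout⟩ := mem_exits.1 ht
  refine mem_exits.2 ⟨⟨fun i h3 h4 => (mem_parR.1 (harr.mem i h3 h4)).1, harr.inj⟩, ?_⟩
  intro hin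
  have hlen : 1 ≤ t.length := by
    by_contra hcon
    have hz : t = [] := List.length_eq_zero_iff.1 (by omega)
    rw [hz] at hd
    exact hd rfl
  have hlast := harr.mem _ hlen le_rfl
  have htip : tip (A (M + 1 : ℕ) k) (-1, 1) t =
      vx (A (M + 1 : ℕ) k) (-1, 1) t t.length + dx (-1, 1) t t.length := tip_eq t
  have hdm : dx (-1, 1) t t.length ∈ dirs := ds_mem (by decide) _
  rcases step_col _ hdm with h3 | h3
  · apply hout
    rw [mem_parR]
    refine ⟨hin, ?_⟩
    rw [mem_parR, mem_par'] at hlast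
    rw [htip]
    simp only [Prod.fst_add, Prod.snd_add]
    obtain ⟨⟨a1, _⟩, a6⟩ := hlast
    rcases a1 with a1 | a1 <;> omega
  · exact hd h3

/-- the continuation of a crossing -/
noncomputable def extd (M : ℕ) (k : ℤ) (t : List Bool) : List Bool :=
  t ++ ([true, true] ++ zz ((tip (A (M + 1 : ℕ) k) (-1, 1) t).1 - 1).toNat)

lemma extd_spec {T M : ℕ} (hM : 1 ≤ M) {k : ℤ} (h1 : 0 ≤ k) (h2 : k < T) {t : List Bool}
    (ht : t ∈ exits (parR T M) (A (M + 1 : ℕ) k) (-1, 1)) (hd : dx (-1, 1) t t.length = (-1, 1)) :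
    extd M k t ∈ exits (par T (M + 1)) (A (M + 1 : ℕ) k) (-1, 1) ∧
      dx (-1, 1) (extd M k t) (extd M k t).length = (0, -1) ∧
      (extd M k t).length ≤ t.length + 2 * T ∧ wind (extd M k t) = wind t + 2 := by
  obtain ⟨m, hm, htip⟩ := exit_left hM h1 h2 ht hd
  obtain ⟨harr, hout⟩ := mem_exits.1 ht
  have e0 : ((tip (A (M + 1 : ℕ) k) (-1, 1) t).1 - 1).toNat = m := by
    rw [htip]
    simp only [B]
    omega
  have e1 : extd M k t = t ++ [true] ++ [true] ++ zz m := by
    unfold extd
    rw [e0]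
    simp
  have harr' : IsArr (par T (M + 1)) (A (M + 1 : ℕ) k) (-1, 1) t :=
    ⟨fun i h3 h4 => (mem_parR.1 (harr.mem i h3 h4)).1, harr.inj⟩
  -- the vertices of the walk are not in the column 0
  have hcol : ∀ i, i ≤ t.length → ∀ q : Pt, q.1 - q.2 ≤ 0 → vx (A (M + 1 : ℕ) k) (-1, 1) t i ≠ q := by
    intro i hi q hq heq
    rcases Nat.eq_zero_or_pos i with hz | hp
    · rw [hz] at heq
      have h3 : A (M + 1 : ℕ) k = q := heq
      rw [← h3] at hq
      simp only [A] at hq
      push_cast at hq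
      omega
    · have h3 := (mem_parR.1 (harr.mem i hp hi)).2
      rw [heq] at h3
      omega
  have hA0 : ∀ m : ℤ, (A 0 m).1 - (A 0 m).2 ≤ 0 := by
    intro m
    simp only [A]
    omega
  have hB0 : ∀ m : ℤ, (B 0 m).1 - (B 0 m).2 ≤ 0 := by
    intro m
    simp only [B]
    omega
  have h3 : IsArr (par T (M + 1)) (A (M + 1 : ℕ) k) (-1, 1) (t ++ [true]) := by
    refine isArr_append_one.2 ⟨harr', ?_, ?_⟩
    · rw [htip, B_mem]
      exact ⟨⟨le_rfl, by push_cast; omega⟩, by omega, by omega⟩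
    · intro i hi
      rw [htip]
      exact hcol i hi _ (hB0 _)
  have hl : (t ++ [true]).length = t.length + 1 := by simp
  have ht1 : tip (A (M + 1 : ℕ) k) (-1, 1) (t ++ [true]) = A 0 m := by
    rw [tip_append_one, hd, htip]
    exact B_left 0 m
  have hd1 : dx (-1, 1) (t ++ [true]) (t ++ [true]).length = (-1, 0) := by
    rw [dx_append_one, hd]
    rfl
  have h4 : IsArr (par T (M + 1)) (A (M + 1 : ℕ) k) (-1, 1) (t ++ [true] ++ [true]) := by
    refine isArr_append_one.2 ⟨h3, ?_, ?_⟩
    · rw [ht1, A_mem]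
      exact ⟨⟨le_rfl, by push_cast; omega⟩, by omega, by omega⟩
    · intro i hi
      rw [hl] at hi
      rw [vx_append hi, ht1]
      rcases Nat.lt_or_ge t.length i with h5 | h5
      · have h6 : i = t.length + 1 := by omega
        rw [h6]
        show tip (A (M + 1 : ℕ) k) (-1, 1) t ≠ _
        rw [htip]
        intro h8
        have h9 := congrArg Prod.fst h8
        simp only [A, B] at h9
        omega
      · exact hcol i h5 _ (hA0 _)
  have ht2 : tip (A (M + 1 : ℕ) k) (-1, 1) (t ++ [true] ++ [true]) = B 0 (m - 1) := by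
    rw [tip_append_one, hd1, ht1]
    exact A_down 0 m
  have hd2 : dx (-1, 1) (t ++ [true] ++ [true]) (t ++ [true] ++ [true]).length = (0, -1) := by
    rw [dx_append_one, hd1]
    rfl
  have hv2 : ∀ i, i ≤ (t ++ [true] ++ [true]).length → ∀ r : ℤ, r < m →
      vx (A (M + 1 : ℕ) k) (-1, 1) (t ++ [true] ++ [true]) i ≠ A 0 r ∧
        vx (A (M + 1 : ℕ) k) (-1, 1) (t ++ [true] ++ [true]) i ≠ B 0 r := by
    intro i hi r hr
    rcases Nat.lt_or_ge (t ++ [true]).length i with h5 | h5
    · have h6 : i = (t ++ [true]).length + 1 := by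
        rw [List.length_append (as := t ++ [true])] at hi
        simp only [List.length_singleton] at hi
        omega
      rw [h6, vx_append le_rfl]
      have h7 : vx (A (M + 1 : ℕ) k) (-1, 1) (t ++ [true]) ((t ++ [true]).length + 1) = A 0 m := ht1
      rw [h7]
      constructor
      · intro h8
        have h9 := congrArg Prod.fst h8
        simp only [A] at h9
        omega
      · intro h8
        have h9 := congrArg Prod.fst h8
        have h10 := congrArg Prod.snd h8
        simp only [A, B] at h9 h10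
        omega
    · rw [vx_append (by omega)]
      rcases Nat.lt_or_ge t.length i with h6 | h6
      · have h7 : i = t.length + 1 := by omega
        rw [h7, vx_append le_rfl]
        have h8 : vx (A (M + 1 : ℕ) k) (-1, 1) t (t.length + 1) = B 0 m := htip
        rw [h8]
        constructor
        · intro h8
          have h9 := congrArg Prod.fst h8
          have h10 := congrArg Prod.snd h8
          simp only [A, B] at h9 h10
          omega
        · intro h8
          have h9 := congrArg Prod.fst h8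
          simp only [B] at h9
          omega
      · rw [vx_append (by omega)]
        exact ⟨hcol i h6 _ (hA0 _), hcol i h6 _ (hB0 _)⟩
  have h5 := zz_out (T := T) (M := M + 1) (v0 := A (M + 1 : ℕ) k) (d0 := (-1, 1)) (by omega) m
    (t ++ [true] ++ [true]) (by omega) h4 hd2 ht2 hv2
  rw [e1]
  refine ⟨h5.1, h5.2, ?_, ?_⟩
  · rw [List.length_append, List.length_append, List.length_append, zz_length]
    simp only [List.length_singleton]
    omega
  · rw [wind_append, wind_append, wind_append, zz_wind, show wind [true] = 1 by decide]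
    ring

lemma extd_leave {T M : ℕ} {k : ℤ} {t : List Bool}
    (ht : t ∈ exits (parR T M) (A (M + 1 : ℕ) k) (-1, 1)) :
    t.length + 1 ≤ (extd M k t).length ∧
      vx (A (M + 1 : ℕ) k) (-1, 1) (extd M k t) (t.length + 1) ∉ parR T M := by
  obtain ⟨harr, hout⟩ := mem_exits.1 ht
  unfold extd
  constructor
  · rw [List.length_append, List.length_append]
    simp only [List.length_cons, List.length_nil]
    omega
  · rw [vx_append le_rfl]
    exact hout

lemma extd_inj {T M : ℕ} {k : ℤ} {t u : List Bool}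
    (ht : t ∈ exits (parR T M) (A (M + 1 : ℕ) k) (-1, 1)) (hu : u ∈ exits (parR T M) (A (M + 1 : ℕ) k) (-1, 1))
    (h : extd M k t = extd M k u) : t = u := by
  have key : ∀ {t u : List Bool}, t ∈ exits (parR T M) (A (M + 1 : ℕ) k) (-1, 1) →
      u ∈ exits (parR T M) (A (M + 1 : ℕ) k) (-1, 1) → extd M k t = extd M k u → ¬ t.length < u.length := by
    intro t u ht hu h hlt
    have h3 := (extd_leave ht).2
    rw [h] at h3
    apply h3
    unfold extd
    rw [vx_append (by omega)]
    exact (mem_exits.1 hu).1.mem _ (by omega) (by omega)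
  have hlen : t.length = u.length := by
    have h3 := key ht hu h
    have h4 := key hu ht h.symm
    omega
  unfold extd at h
  exact (List.append_inj h hlen).1

lemma extd_ne {T M : ℕ} {k : ℤ} {t u : List Bool}
    (ht : t ∈ exits (parR T M) (A (M + 1 : ℕ) k) (-1, 1)) (hu : u ∈ exits (parR T M) (A (M + 1 : ℕ) k) (-1, 1)) :
    extd M k t ≠ u := by
  intro h
  have h3 := extd_leave ht
  rw [h] at h3
  exact h3.2 ((mem_exits.1 hu).1.mem _ (by omega) h3.1)

lemma xc_le_one' : xc ≤ 1 := by
  have h : xc = 1 / (2 * Real.cos (Real.pi / 8)) := rfl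
  have h3 : (1 : ℝ) / 2 ≤ Real.cos (Real.pi / 8) := by
    rw [← Real.cos_pi_div_three]
    apply Real.cos_le_cos_of_nonneg_of_le_pi
    · positivity
    · linarith [Real.pi_pos]
    · linarith [Real.pi_pos]
  rw [h, div_le_one (by linarith)]
  linarith

/-- one more column -/
theorem cross_step {T M : ℕ} (hM : 1 ≤ M) {k : ℤ} (h1 : 0 ≤ k) (h2 : k < T) :
    Ex (par T (M + 1)) (A (M + 1 : ℕ) k) (-1, 1) (-1, 1) ≤
      (1 - Real.cos (Real.pi / 4) * xc ^ (2 * T)) * Ex (par T M) (A M k) (-1, 1) (-1, 1) := by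
  classical
  have hE : exits (parR T M) (A (M + 1 : ℕ) k) (-1, 1) = exits (par T M) (A M k) (-1, 1) := by
    have h3 := exits_shift (v0 := A M k) (d0 := (-1, 1)) (parR_shift T M)
    rw [A_shift] at h3
    rw [← h3]
    push_cast
    rfl
  have gΩ := good_right (T := T) (M := M + 1) (by omega) h1 h2
  have gR := good_right (T := T) (M := M) hM h1 h2
  set v0 : Pt := A (M + 1 : ℕ) k with hv0
  set E := exits (par T M) (A M k) (-1, 1) with hEdef
  set W : List Bool → ℝ := fun t => Real.cos (wind t * (Real.pi / 8)) * xc ^ t.length with hW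
  have i1 : ∑ t ∈ exits (par T (M + 1)) v0 (-1, 1), W t = 1 := identity_re _ gΩ.dir gΩ.half
  have i2 : ∑ t ∈ E, W t = 1 := identity_re _ gR.dir gR.half
  have w0Ω : ∀ t ∈ exits (par T (M + 1)) v0 (-1, 1), 0 ≤ W t := by
    intro t ht
    refine mul_nonneg (le_trans (by norm_num) (cos_wind_ge ?_)) (pow_nonneg xc_pos.le _)
    rcases gΩ.wind ht with ⟨_, hw⟩ | ⟨_, hw⟩ | ⟨_, hw⟩ | ⟨_, hw⟩ | ⟨_, hw⟩ | ⟨_, hw⟩
    · exact Or.inl hw
    · exact Or.inr (Or.inl hw)
    · exact Or.inr (Or.inr (Or.inl hw))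
    · exact Or.inr (Or.inr (Or.inr (Or.inl hw)))
    · exact Or.inr (Or.inr (Or.inr (Or.inr (Or.inl hw))))
    · rcases hw with hw | hw
      · exact Or.inr (Or.inr (Or.inr (Or.inr (Or.inr (Or.inl hw)))))
      · exact Or.inr (Or.inr (Or.inr (Or.inr (Or.inr (Or.inr hw)))))
  obtain ⟨⟨a1, a2, a3, a4, a5⟩, _⟩ := dirs_distinct (-1, 1) (by decide)
  have wstraight : ∀ {Ω : Finset Pt} {q : Pt}, GoodDom Ω q (-1, 1) → ∀ t ∈ exits Ω q (-1, 1),
      dx (-1, 1) t t.length = (-1, 1) → wind t = 0 := by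
    intro Ω q hg t ht hd
    rcases hg.wind ht with ⟨_, hw⟩ | ⟨hd', _⟩ | ⟨hd', _⟩ | ⟨hd', _⟩ | ⟨hd', _⟩ | ⟨hd', _⟩
    · exact hw
    · exact absurd (hd'.symm.trans hd) a1
    · exact absurd (hd'.symm.trans hd) a2
    · exact absurd (hd'.symm.trans hd) a3
    · exact absurd (hd'.symm.trans hd) a4
    · exact absurd (hd'.symm.trans hd) a5
  have cΩ : Ex (par T (M + 1)) v0 (-1, 1) (-1, 1) =
      ∑ t ∈ (exits (par T (M + 1)) v0 (-1, 1)).filter (fun t => dx (-1, 1) t t.length = (-1, 1)), W t := by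
    unfold Ex
    refine Finset.sum_congr rfl fun t ht => ?_
    rw [Finset.mem_filter] at ht
    show _ = Real.cos (wind t * (Real.pi / 8)) * xc ^ t.length
    rw [wstraight gΩ t ht.1 ht.2, Int.cast_zero, zero_mul, Real.cos_zero, one_mul]
  have cR : Ex (par T M) (A M k) (-1, 1) (-1, 1) =
      ∑ t ∈ E.filter (fun t => dx (-1, 1) t t.length = (-1, 1)), W t := by
    unfold Ex
    refine Finset.sum_congr rfl fun t ht => ?_
    rw [Finset.mem_filter] at ht
    show _ = Real.cos (wind t * (Real.pi / 8)) * xc ^ t.length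
    rw [wstraight gR t ht.1 ht.2, Int.cast_zero, zero_mul, Real.cos_zero, one_mul]
  have s1 := Finset.sum_filter_add_sum_filter_not (exits (par T (M + 1)) v0 (-1, 1))
    (fun t => dx (-1, 1) t t.length = (-1, 1)) W
  have s2 := Finset.sum_filter_add_sum_filter_not E (fun t => dx (-1, 1) t t.length = (-1, 1)) W
  rw [i1, ← cΩ] at s1
  rw [i2, ← cR] at s2
  have hER : ∀ t, t ∈ E ↔ t ∈ exits (parR T M) v0 (-1, 1) := by
    intro t
    rw [hE]
  -- the comparison
  set S1 := E.filter (fun t => ¬ dx (-1, 1) t t.length = (-1, 1)) with hS1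
  set S0 := E.filter (fun t => dx (-1, 1) t t.length = (-1, 1)) with hS0
  have hinj : Set.InjOn (extd M k) (S0 : Set (List Bool)) := by
    intro t ht u hu h
    rw [Finset.mem_coe, hS0, Finset.mem_filter, hER] at ht hu
    exact extd_inj ht.1 hu.1 h
  have hdisj : Disjoint S1 (S0.image (extd M k)) := by
    rw [Finset.disjoint_left]
    intro u hu hu'
    rw [Finset.mem_image] at hu'
    obtain ⟨t, ht, hteq⟩ := hu'
    rw [hS0, Finset.mem_filter, hER] at ht
    rw [hS1, Finset.mem_filter, hER] at hu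
    exact extd_ne ht.1 hu.1 hteq
  have hsub : S1 ∪ S0.image (extd M k) ⊆
      (exits (par T (M + 1)) v0 (-1, 1)).filter (fun t => ¬ dx (-1, 1) t t.length = (-1, 1)) := by
    intro u hu
    rw [Finset.mem_union, Finset.mem_image] at hu
    rw [Finset.mem_filter]
    rcases hu with hu | ⟨t, ht, rfl⟩
    · rw [hS1, Finset.mem_filter, hER] at hu
      exact ⟨exit_other hu.1 hu.2, hu.2⟩
    · rw [hS0, Finset.mem_filter, hER] at ht
      obtain ⟨b1, b2, _, _⟩ := extd_spec hM h1 h2 ht.1 ht.2
      refine ⟨b1, ?_⟩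
      rw [b2]
      decide
  have h3 : ∑ t ∈ S1, W t + ∑ t ∈ S0, W (extd M k t) ≤
      ∑ t ∈ (exits (par T (M + 1)) v0 (-1, 1)).filter (fun t => ¬ dx (-1, 1) t t.length = (-1, 1)), W t := by
    rw [← Finset.sum_image hinj, ← Finset.sum_union hdisj]
    refine Finset.sum_le_sum_of_subset_of_nonneg hsub ?_
    intro t ht _
    exact w0Ω t (Finset.mem_filter.1 ht).1
  have h4 : Real.cos (Real.pi / 4) * xc ^ (2 * T) * ∑ t ∈ S0, W t ≤ ∑ t ∈ S0, W (extd M k t) := by
    rw [Finset.mul_sum]
    refine Finset.sum_le_sum fun t ht => ?_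
    rw [hS0, Finset.mem_filter, hER] at ht
    obtain ⟨_, _, b3, b4⟩ := extd_spec hM h1 h2 ht.1 ht.2
    have hw : wind t = 0 := wstraight gR t ((hER t).2 ht.1) ht.2
    show Real.cos (Real.pi / 4) * xc ^ (2 * T) * (Real.cos (wind t * (Real.pi / 8)) * xc ^ t.length) ≤
      Real.cos (wind (extd M k t) * (Real.pi / 8)) * xc ^ (extd M k t).length
    rw [b4, hw, zero_add, Int.cast_zero, zero_mul, Real.cos_zero, one_mul,
      show ((2 : ℤ) : ℝ) * (Real.pi / 8) = Real.pi / 4 by push_cast; ring, mul_assoc, ← pow_add]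
    refine mul_le_mul_of_nonneg_left ?_ ?_
    · exact pow_le_pow_of_le_one xc_pos.le xc_le_one' (by omega)
    · rw [Real.cos_pi_div_four]
      positivity
  have h5 : Ex (par T M) (A M k) (-1, 1) (-1, 1) = ∑ t ∈ S0, W t := cR
  rw [← h5] at h4
  linarith

/-- the factor of one column -/
noncomputable def rho (T : ℕ) : ℝ := 1 - Real.cos (Real.pi / 4) * xc ^ (2 * T)

lemma rho_nonneg (T : ℕ) : 0 ≤ rho T := by
  unfold rho
  have h1 : Real.cos (Real.pi / 4) ≤ 1 := Real.cos_le_one _
  have h2 : xc ^ (2 * T) ≤ 1 := pow_le_one₀ xc_pos.le xc_le_one'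
  have h3 : 0 ≤ xc ^ (2 * T) := pow_nonneg xc_pos.le _
  nlinarith

lemma rho_lt_one (T : ℕ) : rho T < 1 := by
  unfold rho
  have h1 : 0 < Real.cos (Real.pi / 4) := by
    rw [Real.cos_pi_div_four]
    positivity
  have h3 : 0 < xc ^ (2 * T) := pow_pos xc_pos _
  nlinarith [mul_pos h1 h3]

lemma good_straight_le {Ω : Finset Pt} {v0 d0 : Pt} (h : GoodDom Ω v0 d0) : Ex Ω v0 d0 d0 ≤ 1 := by
  have h1 := h.identity
  have c1 : 0 ≤ Real.cos (Real.pi / 8) := by
    apply Real.cos_nonneg_of_neg_pi_div_two_le_of_le <;> linarith [Real.pi_pos]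
  have c2 : 0 ≤ Real.cos (Real.pi / 4) := by
    rw [Real.cos_pi_div_four]
    positivity
  have c3 : 0 ≤ Real.cos (3 * Real.pi / 8) := cos3_pos.le
  have p1 := mul_nonneg c1 (add_nonneg (Ex_nonneg Ω v0 d0 (rotL d0)) (Ex_nonneg Ω v0 d0 (rotR d0)))
  have p2 := mul_nonneg c2 (add_nonneg (Ex_nonneg Ω v0 d0 (rotL (rotL d0))) (Ex_nonneg Ω v0 d0 (rotR (rotR d0))))
  have p3 := mul_nonneg c3 (Ex_nonneg Ω v0 d0 (-d0))
  linarith

/-- M5b: crossings from the right side to the left side -/
theorem cross_decay {T M : ℕ} (hM : 1 ≤ M) {k : ℤ} (h1 : 0 ≤ k) (h2 : k < T) :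
    Ex (par T M) (A M k) (-1, 1) (-1, 1) ≤ rho T ^ (M - 1) := by
  induction M, hM using Nat.le_induction with
  | base =>
    rw [Nat.sub_self, pow_zero]
    exact good_straight_le (good_right le_rfl h1 h2)
  | succ M hM ih =>
    have h3 := cross_step hM h1 h2
    have h4 : rho T ^ (M + 1 - 1) = rho T * rho T ^ (M - 1) := by
      rw [← pow_succ']
      congr 1
      omega
    rw [h4]
    exact h3.trans (mul_le_mul_of_nonneg_left ih (rho_nonneg T))

end EXL
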