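import Pool.Agent.EXL.BFPoly

/-!
# Poles and limits of the rational function `P(w) / (w D(w))`
-/

open Filter Topology Polynomial Complex

namespace Pool.Agent.EXL.Fm

open Cl

variable {n : ℕ} {x : Fin n → ℝ}

theorem nd_ne (hx : Nd x) {p q} (h : p ≠ q) : nd x p ≠ nd x q := (nd_inj hx).ne h

theorem nd_yy (u : Fin n × Bool) (j : Fin 8) : nd x (.inl u, j) = yy x u * ze ^ (j : ℕ) := rfl

theorem nd_th9 : nd x (.inr true, 4) = th ^ 9 := by
  show th * ze ^ 4 = th ^ 9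
  rw [ze]; ring

theorem nd_th13 : nd x (.inr true, 6) = th ^ 13 := by
  show th * ze ^ 6 = th ^ 13
  rw [ze]; ring

theorem nd_yy5 (u : Fin n × Bool) : nd x (.inl u, 5) = yy x u * ze ^ 5 := rfl

theorem nd_yy6 (u : Fin n × Bool) : nd x (.inl u, 6) = yy x u * ze ^ 6 := rfl

/-- the function is differentiable at all other points of the node set -/
theorem fr_diff_nd (hx : Nd x) (P : ℂ[X]) {p} (h9 : p ≠ (.inr true, 4)) (h13 : p ≠ (.inr true, 6))
    (h5 : ∀ u, p ≠ (.inl u, 5)) (h6 : ∀ u, p ≠ (.inl u, 6)) :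
    DifferentiableAt ℂ (fr P x) (nd x p) := by
  refine fr_diff P (nd_ne_zero x p) ?_ ?_ (fun u => ?_) (fun u => ?_)
  · rw [← nd_th13 (x := x)]; exact nd_ne hx h13
  · rw [← nd_th9 (x := x)]; exact nd_ne hx h9
  · rw [← nd_yy5]; exact nd_ne hx (h5 u)
  · rw [← nd_yy6]; exact nd_ne hx (h6 u)

section poles

variable (hx : Nd x) (P : ℂ[X])
include hx

theorem prod_erase_ne (u₀ : Fin n × Bool) {s : ℂ} (h5 : ∀ u, u ≠ u₀ → s ≠ yy x u * ze ^ 5)
    (h6 : ∀ u, u ≠ u₀ → s ≠ yy x u * ze ^ 6) :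
    ∏ u ∈ Finset.univ.erase u₀, ((s - yy x u * ze ^ 5) * (s - yy x u * ze ^ 6)) ≠ 0 := by
  refine Finset.prod_ne_zero_iff.2 fun u hu => ?_
  have hu' := Finset.ne_of_mem_erase hu
  exact mul_ne_zero (sub_ne_zero.2 (h5 u hu')) (sub_ne_zero.2 (h6 u hu'))

theorem cont_prod (t : Finset (Fin n × Bool)) (s : ℂ) :
    ContinuousAt (fun w => ∏ u ∈ t, ((w - yy x u * ze ^ 5) * (w - yy x u * ze ^ 6))) s := by
  fun_prop

theorem fr_p5 (u₀ : Fin n × Bool) : ∃ r, HR (fr P x) (yy x u₀ * ze ^ 5) r := by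
  set s := yy x u₀ * ze ^ 5 with hs
  have e : s = nd x (.inl u₀, 5) := rfl
  refine ⟨_, fr_HR P (rest := fun w => (w - yy x u₀ * ze ^ 6) * ((w - th ^ 13) * (w - th ^ 9) *
    ∏ u ∈ Finset.univ.erase u₀, ((w - yy x u * ze ^ 5) * (w - yy x u * ze ^ 6)))) ?_ ?_ ?_ ?_⟩
  · exact nd_ne_zero x (.inl u₀, 5)
  · intro w; rw [dx_split u₀]; ring
  · fun_prop
  · refine mul_ne_zero (sub_ne_zero.2 ?_) (mul_ne_zero (mul_ne_zero (sub_ne_zero.2 ?_)
      (sub_ne_zero.2 ?_)) (prod_erase_ne hx u₀ (fun u hu => ?_) (fun u hu => ?_)))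
    · rw [e, ← nd_yy6]; exact nd_ne hx (by simp)
    · rw [e, ← nd_th13 (x := x)]; exact nd_ne hx (by simp)
    · rw [e, ← nd_th9 (x := x)]; exact nd_ne hx (by simp)
    · rw [e, ← nd_yy5]; exact nd_ne hx (by simpa using hu.symm)
    · rw [e, ← nd_yy6]; exact nd_ne hx (by simp)

theorem fr_p6 (u₀ : Fin n × Bool) : ∃ r, HR (fr P x) (yy x u₀ * ze ^ 6) r := by
  set s := yy x u₀ * ze ^ 6 with hs
  have e : s = nd x (.inl u₀, 6) := rfl
  refine ⟨_, fr_HR P (rest := fun w => (w - yy x u₀ * ze ^ 5) * ((w - th ^ 13) * (w - th ^ 9) *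
    ∏ u ∈ Finset.univ.erase u₀, ((w - yy x u * ze ^ 5) * (w - yy x u * ze ^ 6)))) ?_ ?_ ?_ ?_⟩
  · exact nd_ne_zero x (.inl u₀, 6)
  · intro w; rw [dx_split u₀]; ring
  · fun_prop
  · refine mul_ne_zero (sub_ne_zero.2 ?_) (mul_ne_zero (mul_ne_zero (sub_ne_zero.2 ?_)
      (sub_ne_zero.2 ?_)) (prod_erase_ne hx u₀ (fun u hu => ?_) (fun u hu => ?_)))
    · rw [e, ← nd_yy5]; exact nd_ne hx (by simp)
    · rw [e, ← nd_th13 (x := x)]; exact nd_ne hx (by simp)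
    · rw [e, ← nd_th9 (x := x)]; exact nd_ne hx (by simp)
    · rw [e, ← nd_yy5]; exact nd_ne hx (by simp)
    · rw [e, ← nd_yy6]; exact nd_ne hx (by simpa using hu.symm)

theorem prod_ne_th {k : Fin 8} : ∏ u : Fin n × Bool, ((nd x (.inr true, k) - yy x u * ze ^ 5) *
    (nd x (.inr true, k) - yy x u * ze ^ 6)) ≠ 0 := by
  refine Finset.prod_ne_zero_iff.2 fun u _ => mul_ne_zero (sub_ne_zero.2 ?_) (sub_ne_zero.2 ?_)
  · rw [← nd_yy5]; exact nd_ne hx (by simp)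
  · rw [← nd_yy6]; exact nd_ne hx (by simp)

theorem fr_r9 : ∃ r, HR (fr P x) (th ^ 9) r := by
  refine ⟨_, fr_HR P (rest := fun w => (w - th ^ 13) *
    ∏ u : Fin n × Bool, ((w - yy x u * ze ^ 5) * (w - yy x u * ze ^ 6))) ?_ ?_ ?_ ?_⟩
  · rw [← nd_th9 (x := x)]; exact nd_ne_zero x _
  · intro w; rw [dx]; ring
  · fun_prop
  · refine mul_ne_zero (sub_ne_zero.2 ?_) ?_
    · rw [← nd_th9 (x := x), ← nd_th13 (x := x)]; exact nd_ne hx (by simp)
    · rw [← nd_th9 (x := x)]; exact prod_ne_th hx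

end poles

/-! ### The limit at infinity -/

theorem poly_inv (P : ℂ[X]) {m : ℕ} (hm : P.natDegree ≤ m) {w : ℂ} (hw : w ≠ 0) :
    P.eval w = w ^ m * ∑ i ∈ Finset.range (m + 1), P.coeff i * (w⁻¹) ^ (m - i) := by
  rw [eval_eq_sum_range' (Nat.lt_succ_of_le hm), Finset.mul_sum]
  refine Finset.sum_congr rfl fun i hi => ?_
  have hi' : i ≤ m := Nat.lt_succ_iff.1 (Finset.mem_range.1 hi)
  have : w ^ m * (w⁻¹) ^ (m - i) = w ^ i := by
    rw [← Nat.sub_add_cancel hi', Nat.add_sub_cancel, pow_add, inv_pow]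
    field_simp
  rw [← this]; ring

theorem dx_inv {w : ℂ} (hw : w ≠ 0) : dx x w = w ^ (4 * n + 2) *
    ((1 - th ^ 13 * w⁻¹) * (1 - th ^ 9 * w⁻¹) * ∏ u : Fin n × Bool,
      ((1 - yy x u * ze ^ 5 * w⁻¹) * (1 - yy x u * ze ^ 6 * w⁻¹))) := by
  have e : ∀ c : ℂ, w - c = w * (1 - c * w⁻¹) := by
    intro c; field_simp
  have e2 : ∏ u : Fin n × Bool, ((w - yy x u * ze ^ 5) * (w - yy x u * ze ^ 6)) =
      w ^ (4 * n) * ∏ u : Fin n × Bool,
        ((1 - yy x u * ze ^ 5 * w⁻¹) * (1 - yy x u * ze ^ 6 * w⁻¹)) := by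
    have : ∀ u : Fin n × Bool, (w - yy x u * ze ^ 5) * (w - yy x u * ze ^ 6) =
        w ^ 2 * ((1 - yy x u * ze ^ 5 * w⁻¹) * (1 - yy x u * ze ^ 6 * w⁻¹)) := by
      intro u; rw [e (yy x u * ze ^ 5), e (yy x u * ze ^ 6)]; ring
    simp only [this]
    rw [Finset.prod_mul_distrib, Finset.prod_const, ← pow_mul]
    congr 2
    simp; ring
  rw [dx, e2, e (th ^ 13), e (th ^ 9)]; ring

theorem fr_inf (P : ℂ[X]) (hP : P.natDegree ≤ 4 * n + 4) :
    Tendsto (fun w => fr P x w / w) (cocompact ℂ) (𝓝 (P.coeff (4 * n + 4))) := by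
  set g : ℂ → ℂ := fun t => (∑ i ∈ Finset.range (4 * n + 4 + 1),
    P.coeff i * t ^ (4 * n + 4 - i)) / ((1 - th ^ 13 * t) * (1 - th ^ 9 * t) *
      ∏ u : Fin n × Bool, ((1 - yy x u * ze ^ 5 * t) * (1 - yy x u * ze ^ 6 * t))) with hg
  have hc : ContinuousAt g 0 := by
    refine ContinuousAt.div (by fun_prop) (by fun_prop) ?_
    simp
  have h0 : g 0 = P.coeff (4 * n + 4) := by
    rw [hg]
    simp only [mul_zero, sub_zero, mul_one, Finset.prod_const_one, div_one]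
    rw [Finset.sum_range_succ, Finset.sum_eq_zero]
    · simp
    · intro i hi
      have : 4 * n + 4 - i ≠ 0 := by simp at hi; omega
      rw [zero_pow this, mul_zero]
  have h1 : Tendsto (fun w : ℂ => g w⁻¹) (cocompact ℂ) (𝓝 (P.coeff (4 * n + 4))) := by
    rw [← h0]
    exact hc.tendsto.comp (tendsto_nhdsWithin_iff.mp tendsto_inv_cocompact).1
  refine h1.congr' ?_
  have h2 : ∀ᶠ w : ℂ in cocompact ℂ, w ≠ 0 := by
    have := (tendsto_nhdsWithin_iff.mp tendsto_inv_cocompact).2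
    filter_upwards [this] with w hw
    intro h; apply hw; simp [h]
  filter_upwards [h2] with w hw
  rw [fr, dx_inv hw, poly_inv P hP hw, hg]
  have hp : w ^ (4 * n + 4) = w ^ (4 * n + 2) * (w * w) := by ring
  rw [hp]
  beta_reduce
  have hw' : w ^ (4 * n + 2) ≠ 0 := pow_ne_zero _ hw
  generalize (∑ i ∈ Finset.range (4 * n + 4 + 1), P.coeff i * (w⁻¹) ^ (4 * n + 4 - i)) = A
  generalize ((1 - th ^ 13 * w⁻¹) * (1 - th ^ 9 * w⁻¹) * ∏ u : Fin n × Bool,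
      ((1 - yy x u * ze ^ 5 * w⁻¹) * (1 - yy x u * ze ^ 6 * w⁻¹))) = D
  rcases eq_or_ne D 0 with rfl | hD
  · simp
  · field_simp

theorem fr_zero (P : ℂ[X]) (h : dx x 0 ≠ 0) :
    Tendsto (fun w => w * fr P x w) (𝓝[≠] 0) (𝓝 (P.coeff 0 / dx x 0)) := by
  have hc : ContinuousAt (fun w => P.eval w / dx x w) 0 :=
    ContinuousAt.div P.continuousAt (dx_diff 0).continuousAt h
  have h1 := hc.tendsto.mono_left (nhdsWithin_le_nhds (s := {(0 : ℂ)}ᶜ))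
  simp only [← coeff_zero_eq_eval_zero] at h1
  refine h1.congr' ?_
  filter_upwards [self_mem_nhdsWithin] with w hw
  have hw' : w ≠ 0 := hw
  rw [fr]; field_simp

end Pool.Agent.EXL.Fm
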