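import Pool.Agent.EXL.FormInst
import Pool.Agent.EXL.ClFF

/-!
# The rational function `P(w) / (w D(w))`

`D` = the denominator of `b` in the variable `w = e^{2iv}`, in the notation of the closing.
-/

open Filter Topology Polynomial Complex

namespace Pool.Agent.EXL.Fm

open Cl

variable {ι α : Type*} [DecidableEq ι] [DecidableEq α] {n : ℕ}

theorem exp_lam (k : ℕ) : exp (I * (k * lam)) = th ^ k := by
  rw [th, ← exp_nat_mul, lam]
  congr 1; push_cast; ring

theorem th_16 : th ^ 16 = 1 := th_prim.pow_eq_one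

theorem exp_neg_3lam : exp (-(I * (3 * lam))) = th ^ 13 := by
  have h := exp_lam 13
  push_cast at h
  have h8 := exp_lam 16
  push_cast at h8
  rw [th_16] at h8
  rw [← h, show I * (13 * lam) = -(I * (3 * lam)) + I * (16 * lam) by ring, exp_add, h8, mul_one]

theorem exp_9lam : exp (I * (9 * lam)) = th ^ 9 := by
  have h := exp_lam 9
  push_cast at h
  exact h

theorem fz_ep (x : ℝ) (w : ℂ) : fz (x : ℂ) w =
    (w - ep x * ze ^ 5) * (w - ep x * ze ^ 6) *
      ((w - (ep x)⁻¹ * ze ^ 5) * (w - (ep x)⁻¹ * ze ^ 6)) := by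
  have h16 := exp_lam 16
  push_cast at h16
  rw [th_16] at h16
  have h10 := exp_lam 10
  have h12 := exp_lam 12
  push_cast at h10 h12
  have z5 : ze ^ 5 = exp (I * (10 * lam)) := by rw [h10, ze, ← pow_mul]
  have z6 : ze ^ 6 = exp (I * (12 * lam)) := by rw [h12, ze, ← pow_mul]
  have e1 : exp (2 * I * ((x : ℂ) - 2 * lam)) = ep x * ze ^ 6 := by
    rw [z6, ep, ← exp_add, show 2 * I * (x : ℂ) + I * (12 * lam) =
      2 * I * ((x : ℂ) - 2 * lam) + I * (16 * lam) by ring, exp_add, h16, mul_one]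
  have e2 : exp (2 * I * ((x : ℂ) - 3 * lam)) = ep x * ze ^ 5 := by
    rw [z5, ep, ← exp_add, show 2 * I * (x : ℂ) + I * (10 * lam) =
      2 * I * ((x : ℂ) - 3 * lam) + I * (16 * lam) by ring, exp_add, h16, mul_one]
  have e3 : exp (2 * I * (5 * lam - (x : ℂ))) = (ep x)⁻¹ * ze ^ 5 := by
    rw [z5, ep, ← exp_neg, ← exp_add]; congr 1; ring
  have e4 : exp (2 * I * (6 * lam - (x : ℂ))) = (ep x)⁻¹ * ze ^ 6 := by
    rw [z6, ep, ← exp_neg, ← exp_add]; congr 1; ring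
  rw [fz, e1, e2, e3, e4]; ring

/-- The denominator in the notation of the closing. -/
noncomputable def dx (x : Fin n → ℝ) (w : ℂ) : ℂ :=
  (w - th ^ 13) * (w - th ^ 9) *
    ∏ u : Fin n × Bool, ((w - yy x u * ze ^ 5) * (w - yy x u * ze ^ 6))

theorem dz_dx {x : Fin n → ℝ} {z : ι → ℂ} {rows : List ι} {row : Fin n → ι}
    (hrows : rows = (List.finRange n).map row) (hz : ∀ k, z (row k) = (x k : ℂ)) (w : ℂ) :
    dz z rows w = dx x w := by
  rw [dz, dx, exp_neg_3lam, exp_9lam, hrows, List.map_map, Fintype.prod_prod_type]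
  congr 1
  rw [← Fin.prod_univ_def]
  refine Finset.prod_congr rfl fun k _ => ?_
  rw [Function.comp_apply, hz, fz_ep, Fintype.prod_bool]
  simp only [yy, if_true]
  rw [if_neg (by simp)]

section dx

variable {x : Fin n → ℝ}

theorem dx_ne {w : ℂ} (h13 : w ≠ th ^ 13) (h9 : w ≠ th ^ 9) (h5 : ∀ u, w ≠ yy x u * ze ^ 5)
    (h6 : ∀ u, w ≠ yy x u * ze ^ 6) : dx x w ≠ 0 :=
  mul_ne_zero (mul_ne_zero (sub_ne_zero.2 h13) (sub_ne_zero.2 h9))
    (Finset.prod_ne_zero_iff.2 fun u _ => mul_ne_zero (sub_ne_zero.2 (h5 u)) (sub_ne_zero.2 (h6 u)))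

theorem dx_diff (w : ℂ) : DifferentiableAt ℂ (dx x) w := by
  unfold dx
  refine DifferentiableAt.mul (by fun_prop) ?_
  refine DifferentiableAt.fun_finset_prod fun u _ => ?_
  fun_prop

/-- the rational function -/
noncomputable def fr (P : ℂ[X]) (x : Fin n → ℝ) (w : ℂ) : ℂ := P.eval w / (w * dx x w)

theorem fr_diff (P : ℂ[X]) {w : ℂ} (h0 : w ≠ 0) (h13 : w ≠ th ^ 13) (h9 : w ≠ th ^ 9)
    (h5 : ∀ u, w ≠ yy x u * ze ^ 5) (h6 : ∀ u, w ≠ yy x u * ze ^ 6) :
    DifferentiableAt ℂ (fr P x) w := by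
  unfold fr
  refine DifferentiableAt.div P.differentiableAt ?_ (mul_ne_zero h0 (dx_ne h13 h9 h5 h6))
  exact (differentiableAt_id).mul (dx_diff w)

/-- simple poles -/
theorem fr_HR (P : ℂ[X]) {s : ℂ} {rest : ℂ → ℂ} (hs : s ≠ 0)
    (hD : ∀ w, dx x w = (w - s) * rest w) (hr : ContinuousAt rest s) (h0 : rest s ≠ 0) :
    HR (fr P x) s (P.eval s / (s * s * rest s)) := by
  have hc : ContinuousAt (fun w => P.eval w / (s * w * rest w)) s := by
    refine ContinuousAt.div P.continuousAt ?_ (mul_ne_zero (mul_ne_zero hs hs) h0)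
    exact (by fun_prop : ContinuousAt (fun w : ℂ => s * w) s).mul hr
  refine Tendsto.congr' ?_ (hc.tendsto.mono_left nhdsWithin_le_nhds)
  filter_upwards [self_mem_nhdsWithin, mem_nhdsWithin_of_mem_nhds (isOpen_ne.mem_nhds hs),
    mem_nhdsWithin_of_mem_nhds (hr.eventually_ne h0)] with w hw hw0 hr0
  have hws : w - s ≠ 0 := sub_ne_zero.2 hw
  have hw0' : w ≠ 0 := hw0
  rw [fr, hD]
  field_simp

theorem dx_split (u₀ : Fin n × Bool) (w : ℂ) : dx x w =
    (w - yy x u₀ * ze ^ 5) * (w - yy x u₀ * ze ^ 6) * ((w - th ^ 13) * (w - th ^ 9) *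
      ∏ u ∈ Finset.univ.erase u₀, ((w - yy x u * ze ^ 5) * (w - yy x u * ze ^ 6))) := by
  rw [dx, ← Finset.mul_prod_erase _ _ (Finset.mem_univ u₀)]; ring

end dx

end Pool.Agent.EXL.Fm
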