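import Pool.Agent.EXL.Global

/-!
# From the operator identities to the identities of `b`

`V` = functions of states, `N` = the functions that vanish on the relevant states (planar, the
auxiliary sites are empty), `F` = the weight of the completions, `e` = the indicator of the empty
state: `T v F = F + b v • e` and `C F = F + B • e` modulo `N`.
-/

namespace Pool.Agent.EXL.Glob

variable {ι V : Type*} [AddCommGroup V] [Module ℂ V]

/-- The admissible parameters of the double column. -/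
structure Adm (S : Ops (Module.End ℂ V) ι ℂ) (ok okK : ℂ → Prop) (z : ι → ℂ) (rows : List ι)
    (v : ℂ) : Prop where
  m : ok (v - S.h)
  m' : ok (S.h - v)
  k : okK v
  k' : okK (S.h + S.h - v)
  r : ∀ r ∈ rows, ok (v - z r)
  r' : ∀ r ∈ rows, ok (S.h + S.h - v - z r)

/-- The output of H1: `T v F = F + b v • e`, `C F = F + B • e` modulo `N`. `a` are the labels of
the auxiliary lines. -/
structure Half (S : Ops (Module.End ℂ V) ι ℂ) (ok okK : ℂ → Prop) (z : ι → ℂ) (rows : List ι)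
    (a : Set ι) (N : Submodule ℂ V) (F e : V) (b : ℂ → ℂ) (B : ℂ) : Prop where
  e_not : e ∉ N
  E_N : ∀ i ∈ a, ∀ G, S.E i G - G ∈ N
  T_N : ∀ i ∈ a, ∀ j ∈ a, i ≠ j → ∀ v, ∀ G ∈ N, S.T z i j v rows G ∈ N
  C_N : ∀ i ∈ a, ∀ G ∈ N, S.C z i rows G ∈ N
  T_e : ∀ i ∈ a, ∀ j ∈ a, i ≠ j → ∀ v, S.T z i j v rows e - e ∈ N
  C_e : ∀ i ∈ a, S.C z i rows e - e ∈ N
  T_F : ∀ i ∈ a, ∀ j ∈ a, i ≠ j → ∀ v, Adm S ok okK z rows v →
    S.T z i j v rows F - (F + b v • e) ∈ N
  C_F : ∀ i ∈ a, S.C z i rows F - (F + B • e) ∈ N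

namespace Half

variable {S : Ops (Module.End ℂ V) ι ℂ} {ok okK : ℂ → Prop} {z : ι → ℂ} {rows : List ι}
  {a : Set ι} {N : Submodule ℂ V} {F e : V} {b : ℂ → ℂ} {B : ℂ}
  (H : Half S ok okK z rows a N F e b B)
include H

theorem eq_of_mem {c d : ℂ} {G : V} (h1 : G - (F + c • e) ∈ N) (h2 : G - (F + d • e) ∈ N) :
    c = d := by
  by_contra hne
  apply H.e_not
  have h3 : (c - d) • e ∈ N := by
    have := N.sub_mem h2 h1
    have e1 : G - (F + d • e) - (G - (F + c • e)) = (c - d) • e := by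
      rw [sub_smul]; abel
    rwa [e1] at this
  have h4 := N.smul_mem (c - d)⁻¹ h3
  rwa [smul_smul, inv_mul_cancel₀ (sub_ne_zero.mpr hne), one_smul] at h4

theorem E_mem {i : ι} (hi : i ∈ a) {G G' : V} (h : G - G' ∈ N) : S.E i G - G' ∈ N := by
  have := N.add_mem (H.E_N i hi G) h
  rwa [sub_add_sub_cancel] at this

theorem E_mem' {i : ι} (hi : i ∈ a) {G G' : V} (h : S.E i G - G' ∈ N) : G - G' ∈ N := by
  have := N.sub_mem h (H.E_N i hi G)
  have e1 : S.E i G - G' - (S.E i G - G) = G - G' := by abel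
  rwa [e1] at this

theorem T_mem {i j : ι} (hi : i ∈ a) (hj : j ∈ a) (hij : i ≠ j) {v : ℂ}
    (hv : Adm S ok okK z rows v) {G : V} {c : ℂ} (h : G - (F + c • e) ∈ N) :
    S.T z i j v rows G - (F + (c + b v) • e) ∈ N := by
  have h1 := H.T_N i hi j hj hij v _ h
  have h2 := H.T_F i hi j hj hij v hv
  have h3 := N.smul_mem c (H.T_e i hi j hj hij v)
  have h4 := N.add_mem (N.add_mem h1 h2) h3
  have e1 : S.T z i j v rows (G - (F + c • e)) + (S.T z i j v rows F - (F + b v • e)) +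
      c • (S.T z i j v rows e - e) = S.T z i j v rows G - (F + (c + b v) • e) := by
    rw [map_sub, map_add, map_smul, smul_sub, add_smul]; abel
  rwa [e1] at h4

theorem C_mem {i : ι} (hi : i ∈ a) {G : V} {c : ℂ} (h : G - (F + c • e) ∈ N) :
    S.C z i rows G - (F + (c + B) • e) ∈ N := by
  have h1 := H.C_N i hi _ h
  have h2 := H.C_F i hi
  have h3 := N.smul_mem c (H.C_e i hi)
  have h4 := N.add_mem (N.add_mem h1 h2) h3
  have e1 : S.C z i rows (G - (F + c • e)) + (S.C z i rows F - (F + B • e)) +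
      c • (S.C z i rows e - e) = S.C z i rows G - (F + (c + B) • e) := by
    rw [map_sub, map_add, map_smul, smul_sub, add_smul]; abel
  rwa [e1] at h4

omit H in
theorem F_mem : F - (F + (0 : ℂ) • e) ∈ N := by
  rw [zero_smul, add_zero, sub_self]; exact N.zero_mem

variable (L : Laws S ok okK)
include L

/-- `b 0 = 0` -/
theorem b_zero (hn : rows.Nodup) {i j : ι} (hi : i ∈ a) (hj : j ∈ a) (hij : i ≠ j)
    (hir : i ∉ rows) (hjr : j ∉ rows) (h0 : Adm S ok okK z rows 0) : b 0 = 0 := by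
  have h1 := L.T_zero (z := z) hij hir hjr hn (fun r hr => by simpa using h0.r r hr)
    (fun r hr => by simpa using h0.r' r hr)
  have h2 := H.T_F i hi j hj hij 0 h0
  rw [h1] at h2
  exact H.eq_of_mem h2 (H.E_mem hi (H.E_mem hj F_mem))

/-- `b (π / 2) = 0` -/
theorem b_q (hn : rows.Nodup) {i j : ι} (hi : i ∈ a) (hj : j ∈ a) (hij : i ≠ j)
    (hir : i ∉ rows) (hjr : j ∉ rows) (h0 : Adm S ok okK z rows S.q)
    (h2 : ∀ r ∈ rows, ok (S.h + S.h + (S.q - z r))) : b S.q = 0 := by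
  have h1 := L.T_q (z := z) hij hir hjr hn h0.r h2
  have h2 := H.T_F i hi j hj hij _ h0
  rw [h1] at h2
  exact H.eq_of_mem h2 (H.E_mem hi (H.E_mem hj F_mem))

/-- `b (v + π) = b v` -/
theorem b_p {i j : ι} (hi : i ∈ a) (hj : j ∈ a) (hij : i ≠ j)
    (hir : i ∉ rows) (hjr : j ∉ rows) {v : ℂ} (h0 : Adm S ok okK z rows v)
    (h2 : Adm S ok okK z rows (v + S.p)) : b (v + S.p) = b v := by
  have h1 := H.T_F i hi j hj hij _ h0
  have h2 := H.T_F i hi j hj hij _ h2
  rw [L.T_add_p hij hir hjr] at h2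
  exact H.eq_of_mem h2 h1

/-- crossing -/
theorem b_cross (hn : rows.Nodup) {i j : ι} (hi : i ∈ a) (hj : j ∈ a) (hij : i ≠ j)
    (hir : i ∉ rows) (hjr : j ∉ rows) {v : ℂ} (h0 : Adm S ok okK z rows v)
    (h2 : Adm S ok okK z rows (S.h + S.h - v)) (h3 : ok (v + v - (S.h + S.h))) :
    b (S.h + S.h - v) = b v := by
  have e1 := H.T_F i hi j hj hij _ h0
  have e2 := H.T_F j hj i hi hij.symm _ h2
  rw [L.cross hij hir hjr hn h3 h0.k h0.k' h0.r h0.r'] at e2
  exact H.eq_of_mem e2 e1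

/-- `b (3 l / 2) = 2 B` -/
theorem b_h {i j : ι} (hi : i ∈ a) (hj : j ∈ a) (hij : i ≠ j)
    (hir : i ∉ rows) (hjr : j ∉ rows) (h0 : Adm S ok okK z rows S.h) : b S.h = B + B := by
  have e1 := H.T_F i hi j hj hij _ h0
  rw [L.T_h hij hir hjr] at e1
  have e2 := H.C_mem hj (H.C_mem hi F_mem)
  rw [zero_add] at e2
  exact H.eq_of_mem e1 e2

/-- inversion -/
theorem b_inv (hn : rows.Nodup) {i j i' j' k : ι} (hk : k ∈ rows) (hi : i ∈ a) (hj : j ∈ a)
    (hi' : i' ∈ a) (hj' : j' ∈ a) (hij : i ≠ j)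
    (hii : i ≠ i') (hij' : i ≠ j') (hji' : j ≠ i') (hjj' : j ≠ j') (hij2 : i' ≠ j')
    (hir : i ∉ rows) (hjr : j ∉ rows) (hir' : i' ∉ rows) (hjr' : j' ∉ rows)
    (h0 : Adm S ok okK z rows (z k)) (h2 : Adm S ok okK z rows (S.h + S.h + z k))
    (h3 : okK (-z k)) (h4 : ∀ r ∈ rows, ok (z r - z k)) :
    b (S.h + S.h + z k) + b (z k) = 0 := by
  have e1 := L.inversion (z := z) hk hij hii hij' hji' hjj' hij2 hir hjr hir' hjr' hn h0.k h3
    h0.k' h2.k h4 h0.r h0.r' (fun r hr => by rw [← add_sub_assoc]; exact h2.r r hr)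
    (fun r hr => by
      have := h2.r' r hr
      rwa [show S.h + S.h - (S.h + S.h + z k) - z r = -z k - z r by ring] at this)
  have e2 := H.T_mem hi hj hij h0 (H.T_mem hi' hj' hij2 h2 F_mem)
  have e3 : S.T z i j (z k) rows (S.T z i' j' (S.h + S.h + z k) rows F) =
      (S.E j * (S.E i * S.E i' * S.E j')) F := by
    rw [← e1]; rfl
  rw [e3] at e2
  have e4 : (S.E j * (S.E i * S.E i' * S.E j')) F - (F + (0 : ℂ) • e) ∈ N :=
    H.E_mem hj (H.E_mem hi (H.E_mem hi' (H.E_mem hj' F_mem)))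
  have := H.eq_of_mem e2 e4
  rwa [zero_add] at this

/-- fusion -/
theorem b_fus (hn : rows.Nodup) {i j i' j' k : ι} (hk : k ∈ rows) (hi : i ∈ a) (hj : j ∈ a)
    (hi' : i' ∈ a) (hj' : j' ∈ a) (hij : i ≠ j)
    (hii : i ≠ i') (hij' : i ≠ j') (hji' : j ≠ i') (hjj' : j ≠ j') (hij2 : i' ≠ j')
    (hir : i ∉ rows) (hjr : j ∉ rows) (hir' : i' ∉ rows) (hjr' : j' ∉ rows)
    (h0 : Adm S ok okK z rows (z k)) (h1 : Adm S ok okK z rows (z k + S.l))
    (h2 : Adm S ok okK z rows (z k + S.l + S.l)) (h4 : ∀ r ∈ rows, ok (z r - z k)) :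
    b (z k) + b (z k + S.l + S.l) = b (z k + S.l) := by
  have e1 := L.fusion (z := z) hk hij hii hij' hji' hjj' hij2 hir hjr hir' hjr' hn h0.k h1.k
    h2.k h0.k' (by
      have := h2.k'
      rwa [show S.h + S.h - (z k + S.l + S.l) = S.l - z k by rw [L.hh]; abel] at this)
    (by
      have := h1.k'
      rwa [show S.h + S.h - (z k + S.l) = S.l + S.l - z k by rw [L.hh]; abel] at this)
    h4 h0.r h0.r' h1.r h2.r
    (fun r hr => by
      have := h2.r' r hr
      rwa [show S.h + S.h - (z k + S.l + S.l) - z r = S.l - z k - z r by rw [L.hh]; abel] at this)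
    (fun r hr => by
      have := h1.r' r hr
      rwa [show S.h + S.h - (z k + S.l) - z r = S.l + S.l - z k - z r by rw [L.hh]; abel] at this)
  have e2 := H.T_mem hi' hj' hij2 h2 (H.T_mem hi hj hij h0 F_mem)
  have e3 : S.T z i' j' (z k + S.l + S.l) rows (S.T z i j (z k) rows F) =
      (S.E i' * S.E j * S.T z i j' (z k + S.l) rows) F := by
    rw [← e1]; rfl
  rw [e3] at e2
  have e4 : (S.E i' * S.E j * S.T z i j' (z k + S.l) rows) F - (F + b (z k + S.l) • e) ∈ N :=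
    H.E_mem hi' (H.E_mem hj (H.T_F i hi j' hj' hij' _ h1))
  have := H.eq_of_mem e2 e4
  rwa [zero_add] at this

end Half

end Pool.Agent.EXL.Glob
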