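import Pool.Agent.EXL.ClDefs

/-!
# Closing (block (C) of board/EXL): shared facts
-/

open Filter Topology

namespace Pool.Agent.EXL.Cl

noncomputable section

variable {N : ℕ}

/-! ## roots of unity -/

theorem th_ne_zero : th ≠ 0 := Complex.exp_ne_zero _

theorem th_pow_eight : th ^ 8 = -1 := by
  unfold th
  rw [← Complex.exp_nat_mul]
  have : ((8 : ℕ) : ℂ) * (Complex.I * ((Real.pi / 8 : ℝ) : ℂ)) = Real.pi * Complex.I := by
    push_cast; ring
  rw [this, Complex.exp_pi_mul_I]

theorem ze_ne_zero : ze ≠ 0 := pow_ne_zero _ th_ne_zero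

theorem ze_pow_four : ze ^ 4 = -1 := by
  rw [ze, ← pow_mul]; exact th_pow_eight

theorem ze_pow_eight : ze ^ 8 = 1 := by
  have : ze ^ 8 = (ze ^ 4) ^ 2 := by ring
  rw [this, ze_pow_four]; norm_num

theorem ze_sq : ze ^ 2 = Complex.I := by
  unfold ze th
  rw [← pow_mul, ← Complex.exp_nat_mul]
  have : ((2 * 2 : ℕ) : ℂ) * (Complex.I * ((Real.pi / 8 : ℝ) : ℂ)) = Real.pi / 2 * Complex.I := by
    push_cast; ring
  rw [this, Complex.exp_pi_div_two_mul_I]

theorem th_pow_four : th ^ 4 = Complex.I := by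
  have : th ^ 4 = ze ^ 2 := by unfold ze; ring
  rw [this, ze_sq]

theorem th_prim : IsPrimitiveRoot th 16 := by
  have h := Complex.isPrimitiveRoot_exp 16 (by norm_num)
  have : Complex.exp (2 * Real.pi * Complex.I / (16 : ℕ)) = th := by
    unfold th; congr 1; push_cast; ring
  rwa [this] at h

theorem ze_prim : IsPrimitiveRoot ze 8 := by
  exact th_prim.pow (by norm_num) (show 16 = 2 * 8 by norm_num)

theorem ze_add : ze + ze ^ 7 = (Real.sqrt 2 : ℂ) := by
  have h1 : ze = Complex.exp ((Real.pi / 4 : ℝ) * Complex.I) := by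
    unfold ze th
    rw [← Complex.exp_nat_mul]; congr 1; push_cast; ring
  have h7 : ze ^ 7 = Complex.exp (-((Real.pi / 4 : ℝ) * Complex.I)) := by
    rw [Complex.exp_neg, ← h1]
    have := ze_pow_eight
    field_simp [ze_ne_zero]
    linear_combination this
  have h2 : ze + ze ^ 7 = 2 * Complex.cos ((Real.pi / 4 : ℝ) : ℂ) := by
    rw [h7, Complex.cos, ← h1]
    have : Complex.exp (-((Real.pi / 4 : ℝ) : ℂ) * Complex.I)
        = Complex.exp (-(((Real.pi / 4 : ℝ) : ℂ) * Complex.I)) := by congr 1; ring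
    rw [this]; ring
  rw [h2, ← Complex.ofReal_cos, Real.cos_pi_div_four]
  push_cast; ring

theorem ze35 : ze ^ 3 + ze ^ 5 = -(Real.sqrt 2 : ℂ) := by
  have h := ze_add
  have h4 := ze_pow_four
  have : ze ^ 3 + ze ^ 5 = -(ze + ze ^ 7) := by
    linear_combination (ze + ze ^ 3) * h4
  rw [this, h]

theorem sqrt2_sq : ((Real.sqrt 2 : ℝ) : ℂ) ^ 2 = 2 := by
  have := Real.sq_sqrt (show (0:ℝ) ≤ 2 by norm_num)
  exact_mod_cast this

theorem quad_fac (z : ℂ) :
    z ^ 2 + (Real.sqrt 2 : ℂ) * z + 1 = (z - ze ^ 3) * (z - ze ^ 5) := by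
  have h1 := ze35
  have h2 := ze_pow_eight
  linear_combination z * h1 - h2

/-! ## the base points -/

/-- angle of the eighth power of a base point -/
def ang (x : Fin N → ℝ) : ((Fin N × Bool) ⊕ Bool) → ℝ
  | .inl (k, true) => 16 * x k
  | .inl (k, false) => -(16 * x k)
  | .inr false => 0
  | .inr true => Real.pi

theorem ep_ne_zero (x : ℝ) : ep x ≠ 0 := Complex.exp_ne_zero _

theorem yy_ne_zero (x : Fin N → ℝ) (u) : yy x u ≠ 0 := by
  unfold yy; split_ifs
  · exact ep_ne_zero _
  · exact inv_ne_zero (ep_ne_zero _)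

theorem bs_ne_zero (x : Fin N → ℝ) (u) : bs x u ≠ 0 := by
  rcases u with u | (_ | _)
  · exact yy_ne_zero x u
  · exact one_ne_zero
  · exact th_ne_zero

theorem nd_ne_zero (x : Fin N → ℝ) (u) : nd x u ≠ 0 :=
  mul_ne_zero (bs_ne_zero x _) (pow_ne_zero _ ze_ne_zero)

theorem bs_pow_eight (x : Fin N → ℝ) (u) : bs x u ^ 8 = Complex.exp ((ang x u : ℝ) * Complex.I) := by
  rcases u with ⟨k, (_ | _)⟩ | (_ | _)
  · simp only [bs, yy, ang, ep]
    rw [if_neg (by simp), inv_pow, ← Complex.exp_nat_mul, ← Complex.exp_neg]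
    congr 1; push_cast; ring
  · simp only [bs, yy, ang, ep]
    rw [if_pos (by simp), ← Complex.exp_nat_mul]
    congr 1; push_cast; ring
  · simp [bs, ang]
  · simp only [bs, ang]
    rw [th_pow_eight, Complex.exp_pi_mul_I]

theorem ang_mem {x : Fin N → ℝ} (hx : Nd x) (u) : -Real.pi < ang x u ∧ ang x u ≤ Real.pi := by
  have hp := Real.pi_pos
  rcases u with ⟨k, (_ | _)⟩ | (_ | _)
  · have h1 := hx.pos k; have h2 := hx.lt k
    simp only [ang]; constructor <;> linarith
  · have h1 := hx.pos k; have h2 := hx.lt k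
    simp only [ang]; constructor <;> linarith
  · simp only [ang]; constructor <;> linarith
  · simp only [ang]; constructor <;> linarith

theorem ang_inj {x : Fin N → ℝ} (hx : Nd x) : Function.Injective (ang x) := by
  have hp := Real.pi_pos
  intro u u' h
  rcases u with ⟨k, (_ | _)⟩ | (_ | _) <;> rcases u' with ⟨k', (_ | _)⟩ | (_ | _) <;>
    simp only [ang] at h
  · have : x k = x k' := by linarith
    rw [hx.inj this]
  · have h1 := hx.pos k; have h2 := hx.pos k'; linarith
  · have h1 := hx.pos k; linarith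
  · have h1 := hx.pos k; linarith
  · have h1 := hx.pos k; have h2 := hx.pos k'; linarith
  · have : x k = x k' := by linarith
    rw [hx.inj this]
  · have h1 := hx.pos k; linarith
  · have h1 := hx.lt k; linarith
  · have h1 := hx.pos k'; linarith
  · have h1 := hx.pos k'; linarith
  · rfl
  · linarith
  · have h1 := hx.pos k'; linarith
  · have h1 := hx.lt k'; linarith
  · linarith
  · rfl

theorem bs_eight_inj {x : Fin N → ℝ} (hx : Nd x) {u u'} (h : bs x u ^ 8 = bs x u' ^ 8) :
    u = u' := by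
  rw [bs_pow_eight, bs_pow_eight] at h
  have h1 := Complex.log_exp (x := (ang x u : ℝ) * Complex.I) (by simpa using (ang_mem hx u).1)
    (by simpa using (ang_mem hx u).2)
  have h2 := Complex.log_exp (x := (ang x u' : ℝ) * Complex.I) (by simpa using (ang_mem hx u').1)
    (by simpa using (ang_mem hx u').2)
  rw [h, h2] at h1
  have h3 : ((ang x u' : ℝ) : ℂ) = (ang x u : ℝ) := mul_right_cancel₀ Complex.I_ne_zero h1
  exact (ang_inj hx (by exact_mod_cast h3)).symm

theorem yy_eight_inj {x : Fin N → ℝ} (hx : Nd x) {u u'} (h : yy x u ^ 8 = yy x u' ^ 8) :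
    u = u' := by
  have := bs_eight_inj hx (u := .inl u) (u' := .inl u') h
  simpa using this

theorem yy_eight_ne_one {x : Fin N → ℝ} (hx : Nd x) (u) : yy x u ^ 8 ≠ 1 := by
  intro h
  have := bs_eight_inj hx (u := .inl u) (u' := .inr false) (by simpa [bs] using h)
  simp at this

theorem yy_eight_ne_neg {x : Fin N → ℝ} (hx : Nd x) (u) : yy x u ^ 8 ≠ -1 := by
  intro h
  have := bs_eight_inj hx (u := .inl u) (u' := .inr true) (by simpa [bs, th_pow_eight] using h)
  simp at this

theorem nd_inj {x : Fin N → ℝ} (hx : Nd x) : Function.Injective (nd x) := by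
  rintro ⟨u, j⟩ ⟨u', j'⟩ h
  unfold nd at h
  have h8 : bs x u ^ 8 = bs x u' ^ 8 := by
    have := congrArg (fun z : ℂ => z ^ 8) h
    simp only [mul_pow, ← pow_mul] at this
    rw [mul_comm (j : ℕ) 8, mul_comm (j' : ℕ) 8, pow_mul, pow_mul, ze_pow_eight, one_pow,
      one_pow, mul_one, mul_one] at this
    exact this
  have hu := bs_eight_inj hx h8
  subst hu
  have h2 := mul_left_cancel₀ (bs_ne_zero x u) h
  have h3 := ze_prim.pow_inj j.2 j'.2 h2
  rw [Fin.ext h3]

end

end Pool.Agent.EXL.Cl
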