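import Pool.Agent.EXL.ClTool
import Pool.Agent.EXL.ClRes

/-!
# Closing (block (C) of board/EXL), part (I)

`closeI`: the residue identity for `b(z) [F(ze^3 z)E(ze^2 z) - E(ze^3 z)F(ze^2 z)]/(z^4 - z^-4)`.
-/

open Filter Topology

namespace Pool.Agent.EXL.Cl

noncomputable section

namespace PartI

variable {N : ℕ}

/-! ### powers of `th`, `ze` -/

theorem th_pow_sixteen : th ^ 16 = 1 := by
  rw [show (16:ℕ) = 8 * 2 by norm_num, pow_mul, th_pow_eight]; norm_num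

theorem th_sub_inv : th - th⁻¹ = 2 * Complex.I * (Real.sin (Real.pi / 8) : ℝ) := by
  rw [th, ← Complex.exp_neg]
  rw [Complex.ofReal_sin, Complex.sin]
  have h1 : -(((Real.pi / 8 : ℝ) : ℂ)) * Complex.I = -(Complex.I * ((Real.pi / 8 : ℝ) : ℂ)) := by ring
  have h2 : (((Real.pi / 8 : ℝ) : ℂ)) * Complex.I = Complex.I * ((Real.pi / 8 : ℝ) : ℂ) := by ring
  rw [h1, h2]
  linear_combination (Complex.exp (Complex.I * ((Real.pi / 8 : ℝ) : ℂ)) -
    Complex.exp (-(Complex.I * ((Real.pi / 8 : ℝ) : ℂ)))) * Complex.I_sq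

/-! ### calculus of `HR` -/

theorem HR_of_continuousAt {f : ℂ → ℂ} {s : ℂ} (hf : ContinuousAt f s) (hs : s ≠ 0) :
    HR f s 0 := by
  have h1 : ContinuousAt (fun z => (z / s - 1) * f z) s :=
    (by fun_prop : ContinuousAt (fun z : ℂ => z / s - 1) s).mul hf
  have h2 := h1.tendsto.mono_left (nhdsWithin_le_nhds (s := {s}ᶜ))
  simp only [div_self hs, sub_self, zero_mul] at h2
  exact h2

theorem HR_cont_mul {f g : ℂ → ℂ} {s r : ℂ} (hg : ContinuousAt g s) (hf : HR f s r) :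
    HR (fun z => g z * f z) s (g s * r) := by
  have := Tendsto.mul (hg.tendsto.mono_left (nhdsWithin_le_nhds (s := {s}ᶜ))) hf
  exact this.congr fun z => by ring

theorem HR_cg {f g : ℂ → ℂ} {s r : ℂ} (hf : HR f s r) (h : ∀ z, g z = f z) : HR g s r :=
  Tendsto.congr (fun z => by rw [h z]) hf

theorem HR_dilate {f : ℂ → ℂ} {s r c : ℂ} (hc : c ≠ 0) (hf : HR f (c * s) r) :
    HR (fun z => f (c * z)) s r := by
  have h1 : Tendsto (fun z : ℂ => c * z) (𝓝[≠] s) (𝓝[≠] (c * s)) := by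
    refine tendsto_nhdsWithin_iff.2 ⟨?_, ?_⟩
    · exact ((by fun_prop : Continuous fun z : ℂ => c * z).tendsto s).mono_left nhdsWithin_le_nhds
    · filter_upwards [self_mem_nhdsWithin] with z hz h
      exact hz (mul_left_cancel₀ hc h)
  refine (Tendsto.comp hf h1).congr fun z => ?_
  simp only [Function.comp]
  rw [mul_div_mul_left _ _ hc]

/-! ### the node points -/

theorem ze_pow_mod (a : ℕ) : ze ^ a = ze ^ (a % 8) := by
  conv_lhs => rw [← Nat.mod_add_div a 8, pow_add, pow_mul, ze_pow_eight, one_pow, mul_one]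

theorem nd_shift (x : Fin N → ℝ) (B : (Fin N × Bool) ⊕ Bool) (j k : Fin 8) :
    ze ^ (k : ℕ) * nd x (B, j) = nd x (B, j + k) := by
  simp only [nd]
  rw [mul_left_comm, ← pow_add, ze_pow_mod ((k : ℕ) + (j : ℕ)), Fin.val_add, add_comm (k : ℕ)]

/-- `F` is regular at the node points except `y ze^3`, `y ze^5` -/
theorem _root_.Pool.Agent.EXL.Cl.FF.diffAtNd {x : Fin N → ℝ} (hx : Nd x) {F : ℂ → ℂ} {r : Fin N × Bool → ℂ}
    (hF : FF x ∅ F r) (B : (Fin N × Bool) ⊕ Bool) (m : Fin 8)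
    (h : (∀ u, B ≠ .inl u) ∨ (m ≠ 3 ∧ m ≠ 5)) : DifferentiableAt ℂ F (nd x (B, m)) := by
  refine hF.diff _ (nd_ne_zero x _) (fun u hu => ?_) (fun u hu => ?_) (by simp)
  · have h2 : nd x (B, m) = nd x (.inl u, 3) := hu
    have h3 := nd_inj hx h2
    simp only [Prod.mk.injEq] at h3
    rcases h with h | h
    · exact h u h3.1
    · exact h.1 h3.2
  · have h2 : nd x (B, m) = nd x (.inl u, 5) := hu
    have h3 := nd_inj hx h2
    simp only [Prod.mk.injEq] at h3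
    rcases h with h | h
    · exact h u h3.1
    · exact h.2 h3.2

theorem th_nine (x : Fin N → ℝ) : th ^ 9 = nd x (.inr true, 4) := by
  simp only [nd, bs, ze]
  change th ^ 9 = th * (th ^ 2) ^ 4
  ring

theorem th_thirteen (x : Fin N → ℝ) : th ^ 13 = nd x (.inr true, 6) := by
  simp only [nd, bs, ze]
  change th ^ 13 = th * (th ^ 2) ^ 6
  ring

/-- `b` is regular at the node points except the listed poles -/
theorem _root_.Pool.Agent.EXL.Cl.BF.diffAtNd {x : Fin N → ℝ} (hx : Nd x) {b : ℂ → ℂ} {B ρ : ℂ} (hb : BF x b B ρ)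
    (C : (Fin N × Bool) ⊕ Bool) (m : Fin 8)
    (h : (C = .inr false) ∨ (m ≠ 5 ∧ m ≠ 6 ∧ (∀ c, C ≠ .inr c)) ∨ (C = .inr true ∧ m ≠ 4 ∧ m ≠ 6)) :
    DifferentiableAt ℂ b (nd x (C, m)) := by
  have key : ∀ C' m', nd x (C, m) = nd x (C', m') → C = C' ∧ m = m' := by
    intro C' m' h2
    have h3 := nd_inj hx h2
    simpa only [Prod.mk.injEq] using h3
  refine hb.diff _ (nd_ne_zero x _) (fun u hu => ?_) (fun u hu => ?_) (fun hu => ?_) (fun hu => ?_)
  · obtain ⟨h1, h2⟩ := key (.inl u) 5 hu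
    rcases h with h | h | h
    · rw [h] at h1; exact absurd h1 (by simp)
    · exact h.1 h2
    · rw [h.1] at h1; exact absurd h1 (by simp)
  · obtain ⟨h1, h2⟩ := key (.inl u) 6 hu
    rcases h with h | h | h
    · rw [h] at h1; exact absurd h1 (by simp)
    · exact h.2.1 h2
    · rw [h.1] at h1; exact absurd h1 (by simp)
  · rw [th_nine x] at hu
    obtain ⟨h1, h2⟩ := key (.inr true) 4 hu
    rcases h with h | h | h
    · rw [h] at h1; exact absurd h1 (by simp)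
    · exact h.2.2 true h1
    · exact h.2.1 h2
  · rw [th_thirteen x] at hu
    obtain ⟨h1, h2⟩ := key (.inr true) 6 hu
    rcases h with h | h | h
    · rw [h] at h1; exact absurd h1 (by simp)
    · exact h.2.2 true h1
    · exact h.2.2 h2

/-! ### the denominator `z^4 - z^-4` -/

/-- `z^4 - z^-4` -/
def QQ (z : ℂ) : ℂ := z ^ 4 - (z⁻¹) ^ 4

theorem QQ_ze (z : ℂ) (j : ℕ) : QQ (z * ze ^ j) = (-1) ^ j * QQ z := by
  unfold QQ
  have h1 : (ze ^ j) ^ 4 = (-1) ^ j := by rw [← pow_mul, mul_comm, pow_mul, ze_pow_four]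
  have h2 : ((ze ^ j)⁻¹) ^ 4 = (-1) ^ j := by
    rw [inv_pow, h1, ← inv_pow]; norm_num
  rw [mul_pow, mul_inv, mul_pow, h1, h2]; ring

theorem QQ_th : QQ th = 2 * Complex.I := by
  unfold QQ
  rw [inv_pow, th_pow_four, Complex.inv_I]; ring

theorem QQ_eq_zero {z : ℂ} (hz : z ≠ 0) (h : QQ z = 0) : ∃ j : Fin 8, z = ze ^ (j : ℕ) := by
  have h1 : z ^ 8 = 1 := by
    unfold QQ at h
    have h2 : z ^ 4 * (z ^ 4 - (z⁻¹) ^ 4) = 0 := by rw [h, mul_zero]
    have h3 : z ^ 4 * (z⁻¹) ^ 4 = 1 := by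
      rw [← mul_pow, mul_inv_cancel₀ hz, one_pow]
    linear_combination h2 + h3
  obtain ⟨i, hi, h2⟩ := ze_prim.eq_pow_of_pow_eq_one h1
  exact ⟨⟨i, hi⟩, h2.symm⟩

theorem QQ_ne_of_nd {x : Fin N → ℝ} {z : ℂ} (hz : z ≠ 0) (h : ∀ u, z ≠ nd x u) : QQ z ≠ 0 := by
  intro h0
  obtain ⟨j, hj⟩ := QQ_eq_zero hz h0
  refine h (.inr false, j) ?_
  simp only [nd, bs]
  rw [one_mul, hj]

theorem QQ_nd_ne {x : Fin N → ℝ} (hx : Nd x) (B : (Fin N × Bool) ⊕ Bool) (m : Fin 8)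
    (h : B ≠ .inr false) : QQ (nd x (B, m)) ≠ 0 := by
  intro h0
  obtain ⟨j, hj⟩ := QQ_eq_zero (nd_ne_zero x _) h0
  have h2 : nd x (B, m) = nd x (.inr false, j) := by
    rw [hj]; simp only [nd, bs]; rw [one_mul]
  have h3 := nd_inj hx h2
  simp only [Prod.mk.injEq] at h3
  exact h h3.1

theorem QQ_cont {z : ℂ} (hz : z ≠ 0) : ContinuousAt QQ z := by
  unfold QQ
  exact (continuousAt_id.pow 4).sub ((continuousAt_id.inv₀ hz).pow 4)

theorem QQ_diff {z : ℂ} (hz : z ≠ 0) : DifferentiableAt ℂ QQ z := by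
  unfold QQ
  exact (differentiableAt_id.pow 4).sub ((differentiableAt_id.inv hz).pow 4)

/-- `1/(z^4-z^-4)` has at most a simple pole at the eighth roots of unity -/
theorem HR_inv_QQ (j : ℕ) : ∃ r, HR (fun z => (QQ z)⁻¹) (ze ^ j) r := by
  set s := ze ^ j with hs
  have hs0 : s ≠ 0 := pow_ne_zero _ ze_ne_zero
  have hs8 : s ^ 8 = 1 := by rw [hs, ← pow_mul, mul_comm, pow_mul, ze_pow_eight, one_pow]
  have hQs : QQ s = 0 := by
    unfold QQ
    rw [inv_pow]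
    have h4 : s ^ 4 ≠ 0 := pow_ne_zero _ hs0
    field_simp
    rw [← pow_mul]
    linear_combination hs8
  -- derivative of QQ at s is nonzero
  have hd : HasDerivAt QQ (8 * s ^ 3) s := by
    have h1 : HasDerivAt (fun z : ℂ => z ^ 4) (4 * s ^ 3) s := by
      simpa using hasDerivAt_pow 4 s
    have h2 : HasDerivAt (fun z : ℂ => (z⁻¹) ^ 4) (4 * (s⁻¹) ^ 3 * (-(s ^ 2)⁻¹)) s := by
      have := (hasDerivAt_inv hs0).fun_pow 4
      simpa using this
    have h3 := h1.sub h2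
    have h4 : 4 * s ^ 3 - 4 * (s⁻¹) ^ 3 * (-(s ^ 2)⁻¹) = 8 * s ^ 3 := by
      field_simp
      linear_combination (-4 : ℂ) * hs8
    rw [h4] at h3
    exact h3
  have hslope := hasDerivAt_iff_tendsto_slope.1 hd
  have h8 : (8 * s ^ 3 : ℂ) ≠ 0 := mul_ne_zero (by norm_num) (pow_ne_zero _ hs0)
  refine ⟨s⁻¹ * (8 * s ^ 3)⁻¹, ?_⟩
  have h5 := (hslope.inv₀ h8).const_mul s⁻¹
  refine h5.congr' ?_
  filter_upwards [self_mem_nhdsWithin] with z hz
  have hz' : z - s ≠ 0 := sub_ne_zero.2 hz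
  rw [slope_def_field, hQs, sub_zero]
  field_simp

/-! ### the bracket -/

/-- `F(ze^3 z)E(ze^2 z) - E(ze^3 z)F(ze^2 z)` -/
def Bk (F E : ℂ → ℂ) (z : ℂ) : ℂ :=
  F (ze ^ 3 * z) * E (ze ^ 2 * z) - E (ze ^ 3 * z) * F (ze ^ 2 * z)

theorem dil_cont {F : ℂ → ℂ} {c z w : ℂ} (h : ContinuousAt F w) (hw : c * z = w) :
    ContinuousAt (fun z => F (c * z)) z := by
  subst hw
  exact ContinuousAt.comp (f := fun z => c * z) h (by fun_prop)

theorem dil_diff {F : ℂ → ℂ} {c z w : ℂ} (h : DifferentiableAt ℂ F w) (hw : c * z = w) :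
    DifferentiableAt ℂ (fun z => F (c * z)) z := by
  subst hw
  exact DifferentiableAt.comp (f := fun z => c * z) z h (by fun_prop)

section closeI

variable {x : Fin N → ℝ} (hx : Nd x) {b : ℂ → ℂ} {B ρ : ℂ} (hb : BF x b B ρ)
    {F E : ℂ → ℂ} {rF rE : Fin N × Bool → ℂ} (hF : FF x ∅ F rF) (hE : FF x ∅ E rE)

include hx hF hE

theorem Bk_cont (C : (Fin N × Bool) ⊕ Bool) (m : Fin 8)
    (h : (∀ u, C ≠ .inl u) ∨ (m = 4 ∨ m = 5 ∨ m = 6 ∨ m = 7)) :
    ContinuousAt (Bk F E) (nd x (C, m)) := by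
  have key : ∀ m : Fin 8, (m = 4 ∨ m = 5 ∨ m = 6 ∨ m = 7) →
      (m + 3 ≠ 3 ∧ m + 3 ≠ 5) ∧ (m + 2 ≠ 3 ∧ m + 2 ≠ 5) := by decide
  have h3 : (∀ u, C ≠ .inl u) ∨ (m + 3 ≠ 3 ∧ m + 3 ≠ 5) :=
    h.imp id fun h => (key m h).1
  have h2 : (∀ u, C ≠ .inl u) ∨ (m + 2 ≠ 3 ∧ m + 2 ≠ 5) :=
    h.imp id fun h => (key m h).2
  have s3 : ze ^ 3 * nd x (C, m) = nd x (C, m + 3) := nd_shift x C m 3
  have s2 : ze ^ 2 * nd x (C, m) = nd x (C, m + 2) := nd_shift x C m 2
  have f3 := dil_cont (hF.diffAtNd hx C (m + 3) h3).continuousAt s3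
  have f2 := dil_cont (hF.diffAtNd hx C (m + 2) h2).continuousAt s2
  have e3 := dil_cont (hE.diffAtNd hx C (m + 3) h3).continuousAt s3
  have e2 := dil_cont (hE.diffAtNd hx C (m + 2) h2).continuousAt s2
  exact (f3.mul e2).sub (e3.mul f2)

omit hx hF hE in
theorem Bk_val (x : Fin N → ℝ) (F E : ℂ → ℂ) (C : (Fin N × Bool) ⊕ Bool) (m : Fin 8) :
    Bk F E (nd x (C, m)) = F (nd x (C, m + 3)) * E (nd x (C, m + 2))
      - E (nd x (C, m + 3)) * F (nd x (C, m + 2)) := by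
  have s3 : ze ^ 3 * nd x (C, m) = nd x (C, m + 3) := nd_shift x C m 3
  have s2 : ze ^ 2 * nd x (C, m) = nd x (C, m + 2) := nd_shift x C m 2
  unfold Bk
  rw [s3, s2]

theorem Bk_HR0 (u : Fin N × Bool) : HR (Bk F E) (nd x (.inl u, 0))
    (rF u * E (nd x (.inl u, 2)) - rE u * F (nd x (.inl u, 2))) := by
  have s3 : ze ^ 3 * nd x (.inl u, 0) = nd x (.inl u, 3) := nd_shift x (.inl u) 0 3
  have s2 : ze ^ 2 * nd x (.inl u, 0) = nd x (.inl u, 2) := nd_shift x (.inl u) 0 2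
  have f2 := dil_cont (hF.diffAtNd hx (.inl u) 2 (Or.inr (by decide))).continuousAt s2
  have e2 := dil_cont (hE.diffAtNd hx (.inl u) 2 (Or.inr (by decide))).continuousAt s2
  have f3 : HR (fun z => F (ze ^ 3 * z)) (nd x (.inl u, 0)) (rF u) :=
    HR_dilate (pow_ne_zero _ ze_ne_zero) (by rw [s3]; exact hF.r3 u)
  have e3 : HR (fun z => E (ze ^ 3 * z)) (nd x (.inl u, 0)) (rE u) :=
    HR_dilate (pow_ne_zero _ ze_ne_zero) (by rw [s3]; exact hE.r3 u)
  have := (f3.mul_cont e2).sub (e3.mul_cont f2)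
  rw [s2] at this
  exact this

theorem Bk_HR2 (u : Fin N × Bool) : HR (Bk F E) (nd x (.inl u, 2))
    (-(rF u * E (nd x (.inl u, 4)) - rE u * F (nd x (.inl u, 4)))) := by
  have s3 : ze ^ 3 * nd x (.inl u, 2) = nd x (.inl u, 5) := nd_shift x (.inl u) 2 3
  have s2 : ze ^ 2 * nd x (.inl u, 2) = nd x (.inl u, 4) := nd_shift x (.inl u) 2 2
  have f2 := dil_cont (hF.diffAtNd hx (.inl u) 4 (Or.inr (by decide))).continuousAt s2
  have e2 := dil_cont (hE.diffAtNd hx (.inl u) 4 (Or.inr (by decide))).continuousAt s2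
  have f3 : HR (fun z => F (ze ^ 3 * z)) (nd x (.inl u, 2)) (-rF u) :=
    HR_dilate (pow_ne_zero _ ze_ne_zero) (by rw [s3]; exact hF.r5 u)
  have e3 : HR (fun z => E (ze ^ 3 * z)) (nd x (.inl u, 2)) (-rE u) :=
    HR_dilate (pow_ne_zero _ ze_ne_zero) (by rw [s3]; exact hE.r5 u)
  have := (f3.mul_cont e2).sub (e3.mul_cont f2)
  rw [s2] at this
  have h2 : -rF u * E (nd x (.inl u, 4)) - -rE u * F (nd x (.inl u, 4))
      = -(rF u * E (nd x (.inl u, 4)) - rE u * F (nd x (.inl u, 4))) := by ring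
  rw [h2] at this
  exact this

theorem Bk_HR1 (u : Fin N × Bool) : HR (Bk F E) (nd x (.inl u, 1))
    (-(rF u * E (nd x (.inl u, 4)) - rE u * F (nd x (.inl u, 4)))) := by
  have s3 : ze ^ 3 * nd x (.inl u, 1) = nd x (.inl u, 4) := nd_shift x (.inl u) 1 3
  have s2 : ze ^ 2 * nd x (.inl u, 1) = nd x (.inl u, 3) := nd_shift x (.inl u) 1 2
  have f3 := dil_cont (hF.diffAtNd hx (.inl u) 4 (Or.inr (by decide))).continuousAt s3
  have e3 := dil_cont (hE.diffAtNd hx (.inl u) 4 (Or.inr (by decide))).continuousAt s3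
  have f2 : HR (fun z => F (ze ^ 2 * z)) (nd x (.inl u, 1)) (rF u) :=
    HR_dilate (pow_ne_zero _ ze_ne_zero) (by rw [s2]; exact hF.r3 u)
  have e2 : HR (fun z => E (ze ^ 2 * z)) (nd x (.inl u, 1)) (rE u) :=
    HR_dilate (pow_ne_zero _ ze_ne_zero) (by rw [s2]; exact hE.r3 u)
  have := (HR_cont_mul f3 e2).sub (HR_cont_mul e3 f2)
  rw [s3] at this
  have h2 : F (nd x (.inl u, 4)) * rE u - E (nd x (.inl u, 4)) * rF u
      = -(rF u * E (nd x (.inl u, 4)) - rE u * F (nd x (.inl u, 4))) := by ring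
  rw [h2] at this
  exact this

theorem Bk_HR3 (u : Fin N × Bool) : HR (Bk F E) (nd x (.inl u, 3))
    (rF u * E (nd x (.inl u, 6)) - rE u * F (nd x (.inl u, 6))) := by
  have s3 : ze ^ 3 * nd x (.inl u, 3) = nd x (.inl u, 6) := nd_shift x (.inl u) 3 3
  have s2 : ze ^ 2 * nd x (.inl u, 3) = nd x (.inl u, 5) := nd_shift x (.inl u) 3 2
  have f3 := dil_cont (hF.diffAtNd hx (.inl u) 6 (Or.inr (by decide))).continuousAt s3
  have e3 := dil_cont (hE.diffAtNd hx (.inl u) 6 (Or.inr (by decide))).continuousAt s3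
  have f2 : HR (fun z => F (ze ^ 2 * z)) (nd x (.inl u, 3)) (-rF u) :=
    HR_dilate (pow_ne_zero _ ze_ne_zero) (by rw [s2]; exact hF.r5 u)
  have e2 : HR (fun z => E (ze ^ 2 * z)) (nd x (.inl u, 3)) (-rE u) :=
    HR_dilate (pow_ne_zero _ ze_ne_zero) (by rw [s2]; exact hE.r5 u)
  have := (HR_cont_mul f3 e2).sub (HR_cont_mul e3 f2)
  rw [s3] at this
  have h2 : F (nd x (.inl u, 6)) * -rE u - E (nd x (.inl u, 6)) * -rF u
      = rF u * E (nd x (.inl u, 6)) - rE u * F (nd x (.inl u, 6)) := by ring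
  rw [h2] at this
  exact this

/-- the function whose residues are summed -/
def gI (b F E : ℂ → ℂ) (z : ℂ) : ℂ := b z * Bk F E z * (QQ z)⁻¹

include hb

theorem gI_HR_y4 (u : Fin N × Bool) (m : Fin 8) (hm : m = 4 ∨ m = 7) :
    HR (gI b F E) (nd x (.inl u, m)) 0 := by
  refine HR_of_continuousAt ?_ (nd_ne_zero x _)
  have h1 : ContinuousAt b (nd x (.inl u, m)) := by
    refine (hb.diffAtNd hx (.inl u) m (Or.inr (Or.inl ⟨?_, ?_, by simp⟩))).continuousAt
    · rcases hm with h | h <;> subst h <;> decide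
    · rcases hm with h | h <;> subst h <;> decide
  have h2 := Bk_cont hx hF hE (.inl u) m (Or.inr (by rcases hm with h | h <;> subst h <;> decide))
  exact (h1.mul h2).mul ((QQ_cont (nd_ne_zero x _)).inv₀ (QQ_nd_ne hx _ _ (by simp)))

theorem gI_HR_y5 (u : Fin N × Bool) : HR (gI b F E) (nd x (.inl u, 5)) 0 := by
  obtain ⟨r, hr⟩ := hb.p5 u
  have h2 := Bk_cont hx hF hE (.inl u) 5 (Or.inr (by decide))
  have h3 : ContinuousAt (fun z => Bk F E z * (QQ z)⁻¹) (nd x (.inl u, 5)) :=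
    h2.mul ((QQ_cont (nd_ne_zero x _)).inv₀ (QQ_nd_ne hx _ _ (by simp)))
  have h4 := HR.mul_cont (s := nd x (.inl u, 5)) hr h3
  have h5 : Bk F E (nd x (.inl u, 5)) = 0 := by
    rw [Bk_val]
    have e0 : nd x (.inl u, 5 + 3) = yy x u := by
      change yy x u * ze ^ 0 = yy x u; simp
    rw [e0, hF.zero, hE.zero]; ring
  rw [h5] at h4
  simp only [zero_mul, mul_zero] at h4
  exact HR_cg h4 fun z => by simp only [gI]; ring

theorem gI_HR_y6 (u : Fin N × Bool) : HR (gI b F E) (nd x (.inl u, 6)) 0 := by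
  obtain ⟨r, hr⟩ := hb.p6 u
  have h2 := Bk_cont hx hF hE (.inl u) 6 (Or.inr (by decide))
  have h3 : ContinuousAt (fun z => Bk F E z * (QQ z)⁻¹) (nd x (.inl u, 6)) :=
    h2.mul ((QQ_cont (nd_ne_zero x _)).inv₀ (QQ_nd_ne hx _ _ (by simp)))
  have h4 := HR.mul_cont (s := nd x (.inl u, 6)) hr h3
  have h5 : Bk F E (nd x (.inl u, 6)) = 0 := by
    rw [Bk_val]
    have e0 : nd x (.inl u, 6 + 2) = yy x u := by
      change yy x u * ze ^ 0 = yy x u; simp
    rw [e0, hF.zero, hE.zero]; ring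
  rw [h5] at h4
  simp only [zero_mul, mul_zero] at h4
  exact HR_cg h4 fun z => by simp only [gI]; ring

omit hF hE in
theorem gI_HR_y (u : Fin N × Bool) (m : Fin 8) (hm : m = 0 ∨ m = 1 ∨ m = 2 ∨ m = 3) {R : ℂ}
    (hR : HR (Bk F E) (nd x (.inl u, m)) R) :
    HR (gI b F E) (nd x (.inl u, m))
      (b (nd x (.inl u, m)) * R * ((-1) ^ (m : ℕ) * QQ (yy x u))⁻¹) := by
  have h1 : ContinuousAt b (nd x (.inl u, m)) := by
    have key : ∀ m : Fin 8, (m = 0 ∨ m = 1 ∨ m = 2 ∨ m = 3) → m ≠ 5 ∧ m ≠ 6 := by decide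
    exact (hb.diffAtNd hx (.inl u) m (Or.inr (Or.inl ⟨(key m hm).1, (key m hm).2, by simp⟩))).continuousAt
  have h3 : ContinuousAt (fun z => (QQ z)⁻¹) (nd x (.inl u, m)) :=
    (QQ_cont (nd_ne_zero x _)).inv₀ (QQ_nd_ne hx _ _ (by simp))
  have h4 := (HR_cont_mul h1 hR).mul_cont h3
  have h5 : QQ (nd x (.inl u, m)) = (-1) ^ (m : ℕ) * QQ (yy x u) := QQ_ze (yy x u) m
  rw [h5] at h4
  exact h4

theorem gI_HR_one (j : Fin 8) : HR (gI b F E) (nd x (.inr false, j)) 0 := by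
  have e : nd x (.inr false, j) = ze ^ (j : ℕ) := by simp only [nd, bs]; rw [one_mul]
  obtain ⟨r, hr⟩ := HR_inv_QQ (j : ℕ)
  have h1 : ContinuousAt b (nd x (.inr false, j)) :=
    (hb.diffAtNd hx (.inr false) j (Or.inl rfl)).continuousAt
  have h2 := Bk_cont hx hF hE (.inr false) j (Or.inl (by simp))
  have h3 := HR_cont_mul (h1.mul h2) (by rw [e]; exact hr)
  have h4 : b (nd x (.inr false, j)) * Bk F E (nd x (.inr false, j)) = 0 := by
    have F1 : ∀ {G : ℂ → ℂ} {r}, FF x ∅ G r → G (nd x (.inr false, 0)) = 0 := by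
      intro G r hG
      have := hG.odd 1 one_ne_zero
      rw [inv_one] at this
      have h0 : nd x (.inr false, (0 : Fin 8)) = 1 := by
        change (1:ℂ) * ze ^ 0 = 1; simp
      rw [h0]
      linear_combination (1 / 2 : ℂ) * this
    have F4 : ∀ {G : ℂ → ℂ} {r}, FF x ∅ G r → G (nd x (.inr false, 4)) = 0 := by
      intro G r hG
      have := hG.odd (-1) (by norm_num)
      have h0 : nd x (.inr false, (4 : Fin 8)) = -1 := by
        change (1:ℂ) * ze ^ 4 = -1; rw [ze_pow_four, one_mul]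
      rw [h0]
      have h1 : ((-1 : ℂ))⁻¹ = -1 := by norm_num
      rw [h1] at this
      linear_combination (1 / 2 : ℂ) * this
    have B0 : b (nd x (.inr false, 0)) = 0 := by
      have h0 : nd x (.inr false, (0 : Fin 8)) = 1 := by
        change (1:ℂ) * ze ^ 0 = 1; simp
      rw [h0]; exact hb.z0
    have B3 : b (nd x (.inr false, 3)) = 0 := by
      have h0 : nd x (.inr false, (3 : Fin 8)) = ze ^ 3 := by
        change (1:ℂ) * ze ^ 3 = ze ^ 3; rw [one_mul]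
      rw [h0]; exact hb.z3
    have B4 : b (nd x (.inr false, 4)) = 0 := by
      have h0 : nd x (.inr false, (4 : Fin 8)) = ze ^ 4 := by
        change (1:ℂ) * ze ^ 4 = ze ^ 4; rw [one_mul]
      rw [h0]; exact hb.z4
    have B7 : b (nd x (.inr false, 7)) = 0 := by
      have h0 : nd x (.inr false, (7 : Fin 8)) = ze ^ 7 := by
        change (1:ℂ) * ze ^ 7 = ze ^ 7; rw [one_mul]
      rw [h0]; exact hb.z7
    have key : ∀ j : Fin 8, (j = 0 ∨ j = 3 ∨ j = 4 ∨ j = 7) ∨ (j + 3 = 4 ∨ j + 3 = 0)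
        ∨ (j + 2 = 4 ∨ j + 2 = 0) := by decide
    rcases key j with (h | h | h | h) | (h | h) | (h | h)
    · rw [h, B0, zero_mul]
    · rw [h, B3, zero_mul]
    · rw [h, B4, zero_mul]
    · rw [h, B7, zero_mul]
    · rw [Bk_val, h, F4 hF, F4 hE]; ring
    · rw [Bk_val, h, F1 hF, F1 hE]; ring
    · rw [Bk_val, h, F4 hF, F4 hE]; ring
    · rw [Bk_val, h, F1 hF, F1 hE]; ring
  simp only [Pi.mul_apply] at h3
  rw [h4, zero_mul] at h3
  exact h3

theorem gI_HR_th0 (m : Fin 8) (hm : m ≠ 4 ∧ m ≠ 6) : HR (gI b F E) (nd x (.inr true, m)) 0 := by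
  refine HR_of_continuousAt ?_ (nd_ne_zero x _)
  have h1 : ContinuousAt b (nd x (.inr true, m)) :=
    (hb.diffAtNd hx (.inr true) m (Or.inr (Or.inr ⟨rfl, hm.1, hm.2⟩))).continuousAt
  have h2 := Bk_cont hx hF hE (.inr true) m (Or.inl (by simp))
  exact (h1.mul h2).mul ((QQ_cont (nd_ne_zero x _)).inv₀ (QQ_nd_ne hx _ _ (by simp)))

theorem gI_HR_th4 : HR (gI b F E) (nd x (.inr true, 4))
    (ρ * (F th * E (th ^ 3) - E th * F (th ^ 3)) / (2 * Complex.I)) := by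
  have h1 : HR b (nd x (.inr true, 4)) ρ := by rw [← th_nine]; exact hb.r9
  have h2 := Bk_cont hx hF hE (.inr true) 4 (Or.inl (by simp))
  have hQ : QQ (nd x (.inr true, 4)) = 2 * Complex.I := by
    have := QQ_ze th 4
    rw [QQ_th] at this
    change QQ (th * ze ^ 4) = _
    rw [this]; norm_num
  have h3 : ContinuousAt (fun z => Bk F E z * (QQ z)⁻¹) (nd x (.inr true, 4)) :=
    h2.mul ((QQ_cont (nd_ne_zero x _)).inv₀ (by rw [hQ]; simp))
  have h4 := HR.mul_cont h1 h3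
  have e7 : nd x (.inr true, (4 : Fin 8) + 3) = th⁻¹ := by
    change th * ze ^ 7 = th⁻¹
    refine eq_inv_of_mul_eq_one_left ?_
    rw [ze]
    linear_combination th_pow_sixteen
  have e6 : nd x (.inr true, (4 : Fin 8) + 2) = (th ^ 3)⁻¹ := by
    change th * ze ^ 6 = (th ^ 3)⁻¹
    refine eq_inv_of_mul_eq_one_left ?_
    rw [ze]
    linear_combination th_pow_sixteen
  have h5 : Bk F E (nd x (.inr true, 4)) = F th * E (th ^ 3) - E th * F (th ^ 3) := by
    rw [Bk_val, e7, e6, hF.odd _ th_ne_zero, hE.odd _ th_ne_zero,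
      hF.odd _ (pow_ne_zero _ th_ne_zero), hE.odd _ (pow_ne_zero _ th_ne_zero)]
    ring
  rw [h5, hQ] at h4
  have h6 : ρ * ((F th * E (th ^ 3) - E th * F (th ^ 3)) * (2 * Complex.I)⁻¹)
      = ρ * (F th * E (th ^ 3) - E th * F (th ^ 3)) / (2 * Complex.I) := by
    rw [div_eq_mul_inv]; ring
  rw [h6] at h4
  exact HR_cg h4 fun z => by simp only [gI]; ring

theorem gI_HR_th6 : HR (gI b F E) (nd x (.inr true, 6))
    (ρ * (F th * E (th ^ 3) - E th * F (th ^ 3)) / (2 * Complex.I)) := by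
  have h1 : HR b (nd x (.inr true, 6)) (-ρ) := by rw [← th_thirteen]; exact hb.r13
  have h2 := Bk_cont hx hF hE (.inr true) 6 (Or.inl (by simp))
  have hQ : QQ (nd x (.inr true, 6)) = 2 * Complex.I := by
    have := QQ_ze th 6
    rw [QQ_th] at this
    change QQ (th * ze ^ 6) = _
    rw [this]; norm_num
  have h3 : ContinuousAt (fun z => Bk F E z * (QQ z)⁻¹) (nd x (.inr true, 6)) :=
    h2.mul ((QQ_cont (nd_ne_zero x _)).inv₀ (by rw [hQ]; simp))
  have h4 := HR.mul_cont h1 h3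
  have e1 : nd x (.inr true, (6 : Fin 8) + 3) = th ^ 3 := by
    change th * ze ^ 1 = th ^ 3
    rw [ze]; ring
  have e0 : nd x (.inr true, (6 : Fin 8) + 2) = th := by
    change th * ze ^ 0 = th
    simp
  have h5 : Bk F E (nd x (.inr true, 6)) = -(F th * E (th ^ 3) - E th * F (th ^ 3)) := by
    rw [Bk_val, e1, e0]
    ring
  rw [h5, hQ] at h4
  have h6 : -ρ * (-(F th * E (th ^ 3) - E th * F (th ^ 3)) * (2 * Complex.I)⁻¹)
      = ρ * (F th * E (th ^ 3) - E th * F (th ^ 3)) / (2 * Complex.I) := by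
    rw [div_eq_mul_inv]; ring
  rw [h6] at h4
  exact HR_cg h4 fun z => by simp only [gI]; ring

/-- the residues of `gI` -/
def rI (x : Fin N → ℝ) (b F E : ℂ → ℂ) (rF rE : Fin N × Bool → ℂ) (ρ : ℂ) :
    ((Fin N × Bool) ⊕ Bool) × Fin 8 → ℂ
  | (.inl u, j) =>
    ![b (nd x (.inl u, 0)) * (rF u * E (nd x (.inl u, 2)) - rE u * F (nd x (.inl u, 2)))
        * ((-1) ^ 0 * QQ (yy x u))⁻¹,
      b (nd x (.inl u, 1)) * (-(rF u * E (nd x (.inl u, 4)) - rE u * F (nd x (.inl u, 4))))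
        * ((-1) ^ 1 * QQ (yy x u))⁻¹,
      b (nd x (.inl u, 2)) * (-(rF u * E (nd x (.inl u, 4)) - rE u * F (nd x (.inl u, 4))))
        * ((-1) ^ 2 * QQ (yy x u))⁻¹,
      b (nd x (.inl u, 3)) * (rF u * E (nd x (.inl u, 6)) - rE u * F (nd x (.inl u, 6)))
        * ((-1) ^ 3 * QQ (yy x u))⁻¹, 0, 0, 0, 0] j
  | (.inr false, _) => 0
  | (.inr true, j) =>
    ![0, 0, 0, 0, ρ * (F th * E (th ^ 3) - E th * F (th ^ 3)) / (2 * Complex.I), 0,
      ρ * (F th * E (th ^ 3) - E th * F (th ^ 3)) / (2 * Complex.I), 0] j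

theorem gI_HR (u : ((Fin N × Bool) ⊕ Bool) × Fin 8) :
    HR (gI b F E) (nd x u) (rI x b F E rF rE ρ u) := by
  obtain ⟨C, j⟩ := u
  rcases C with u | c
  · fin_cases j
    · exact gI_HR_y hx hb u 0 (by decide) (Bk_HR0 hx hF hE u)
    · exact gI_HR_y hx hb u 1 (by decide) (Bk_HR1 hx hF hE u)
    · exact gI_HR_y hx hb u 2 (by decide) (Bk_HR2 hx hF hE u)
    · exact gI_HR_y hx hb u 3 (by decide) (Bk_HR3 hx hF hE u)
    · exact gI_HR_y4 hx hb hF hE u 4 (by decide)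
    · exact gI_HR_y5 hx hb hF hE u
    · exact gI_HR_y6 hx hb hF hE u
    · exact gI_HR_y4 hx hb hF hE u 7 (by decide)
  · cases c
    · exact gI_HR_one hx hb hF hE j
    · fin_cases j
      · exact gI_HR_th0 hx hb hF hE 0 (by decide)
      · exact gI_HR_th0 hx hb hF hE 1 (by decide)
      · exact gI_HR_th0 hx hb hF hE 2 (by decide)
      · exact gI_HR_th0 hx hb hF hE 3 (by decide)
      · exact gI_HR_th4 hx hb hF hE
      · exact gI_HR_th0 hx hb hF hE 5 (by decide)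
      · exact gI_HR_th6 hx hb hF hE
      · exact gI_HR_th0 hx hb hF hE 7 (by decide)

omit hx hb hF hE in
theorem yy_eq (x : Fin N → ℝ) (u : Fin N × Bool) :
    yy x u = Complex.exp (2 * Complex.I * ((if u.2 then x u.1 else -x u.1 : ℝ) : ℂ)) := by
  unfold yy ep
  split_ifs
  · rfl
  · rw [← Complex.exp_neg]; congr 1; push_cast; ring

omit hb hF hE in
theorem yy_ratio (u u' : Fin N × Bool) : (yy x u / yy x u') ^ 4 ≠ -1 := by
  rw [yy_eq, yy_eq, ← Complex.exp_sub, ← Complex.exp_nat_mul]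
  have hb : ∀ u : Fin N × Bool, |(if u.2 then x u.1 else -x u.1 : ℝ)| < Real.pi / 16 := by
    intro u
    have h1 := hx.pos u.1
    have h2 := hx.lt u.1
    split_ifs
    · rw [abs_lt]; constructor <;> linarith
    · rw [abs_lt]; constructor <;> linarith
  obtain ⟨h1, h2⟩ := abs_lt.1 (hb u)
  obtain ⟨h3, h4⟩ := abs_lt.1 (hb u')
  set a : ℝ := (if u.2 then x u.1 else -x u.1 : ℝ)
  set c : ℝ := (if u'.2 then x u'.1 else -x u'.1 : ℝ)
  have h5 : ((4 : ℕ) : ℂ) * (2 * Complex.I * (a : ℂ) - 2 * Complex.I * (c : ℂ))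
      = ((8 * (a - c) : ℝ) : ℂ) * Complex.I := by push_cast; ring
  rw [h5]
  intro h
  have h6 := congrArg Complex.re h
  rw [Complex.exp_ofReal_mul_I_re] at h6
  have h7 : Real.cos (8 * (a - c)) = -1 := by simpa using h6
  have h8 : -1 < Real.cos (8 * (a - c)) := by
    have : Real.cos Real.pi < Real.cos |8 * (a - c)| := by
      refine Real.cos_lt_cos_of_nonneg_of_le_pi (abs_nonneg _) le_rfl ?_
      rw [abs_lt]; constructor <;> linarith
    rwa [Real.cos_abs, Real.cos_pi] at this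
  linarith

theorem rI_sum_y (u : Fin N × Bool) :
    ∑ j, rI x b F E rF rE ρ (.inl u, j) = 0 := by
  have hQ : QQ (yy x u) ≠ 0 := by
    have := QQ_nd_ne hx (.inl u) 0 (by simp)
    have h0 : nd x (.inl u, (0 : Fin 8)) = yy x u := by
      change yy x u * ze ^ 0 = _; simp
    rwa [h0] at this
  have e0 : nd x (.inl u, (0 : Fin 8)) = yy x u := by
    change yy x u * ze ^ 0 = _; simp
  have e1 : nd x (.inl u, (1 : Fin 8)) = yy x u * ze := by
    change yy x u * ze ^ 1 = _; simp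
  have e2 : nd x (.inl u, (2 : Fin 8)) = yy x u * ze ^ 2 := rfl
  have e3 : nd x (.inl u, (3 : Fin 8)) = yy x u * ze ^ 3 := rfl
  have e4 : nd x (.inl u, (4 : Fin 8)) = ze ^ 4 * yy x u := mul_comm _ _
  have e6 : nd x (.inl u, (6 : Fin 8)) = ze ^ 6 * yy x u := mul_comm _ _
  have fF := hF.fe (yy x u) (yy_ne_zero x u) (fun u' => yy_ratio hx u u') (by simp)
  have fE := hE.fe (yy x u) (yy_ne_zero x u) (fun u' => yy_ratio hx u u') (by simp)
  have zF := hF.zero u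
  have zE := hE.zero u
  have hfus := hb.fus u
  have hopp := hb.opp u
  simp only [rI, Fin.sum_univ_eight]
  simp only [Matrix.cons_val]
  rw [e0, e1, e2, e3, e4, e6, hopp, mul_comm (yy x u) (ze ^ 2), mul_comm (yy x u) ze]
  rw [mul_comm (yy x u) (ze ^ 2), mul_comm (yy x u) ze] at hfus
  field_simp
  generalize yy x u = y at *
  linear_combination (-(rF u * E (ze ^ 4 * y) - rE u * F (ze ^ 4 * y))) * hfus
    + (b y * rF u) * fE - (b y * rE u) * fF - (b y * rF u) * zE + (b y * rE u) * zF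

theorem rI_sum : ∑ u, rI x b F E rF rE ρ u
    = ρ * (F th * E (th ^ 3) - E th * F (th ^ 3)) / Complex.I := by
  rw [Fintype.sum_prod_type, Fintype.sum_sum_type]
  rw [Finset.sum_congr rfl fun u _ => rI_sum_y hx hb hF hE u]
  simp only [Finset.sum_const_zero, zero_add, Fintype.sum_bool]
  simp only [rI, Finset.sum_const_zero, add_zero, Fin.sum_univ_eight, Matrix.cons_val]
  have : Complex.I ≠ 0 := Complex.I_ne_zero
  field_simp
  ring

omit hx in
theorem gI_diff (z : ℂ) (hz : z ≠ 0) (h : ∀ u, z ≠ nd x u) :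
    DifferentiableAt ℂ (gI b F E) z := by
  have hc : ∀ (k m : ℕ) (u : Fin N × Bool), (∀ j : Fin 8, (j : ℕ) + k = m →
      ze ^ k * z ≠ yy x u * ze ^ m) := by
    intro k m u j hj h1
    refine h (.inl u, j) ?_
    change z = yy x u * ze ^ (j : ℕ)
    have h2 : ze ^ k ≠ 0 := pow_ne_zero _ ze_ne_zero
    apply mul_left_cancel₀ h2
    rw [h1, ← hj, pow_add]; ring
  have d1 : DifferentiableAt ℂ b z :=
    hb.diff z hz (fun u => h (.inl u, 5)) (fun u => h (.inl u, 6))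
      (by rw [th_nine x]; exact h _) (by rw [th_thirteen x]; exact h _)
  have F3 : ∀ {G : ℂ → ℂ} {r}, FF x ∅ G r → DifferentiableAt ℂ (fun z => G (ze ^ 3 * z)) z :=
    fun hG => dil_diff (hG.diff (ze ^ 3 * z) (mul_ne_zero (pow_ne_zero _ ze_ne_zero) hz)
      (fun u => hc 3 3 u 0 rfl) (fun u => hc 3 5 u 2 rfl) (by simp)) rfl
  have F2 : ∀ {G : ℂ → ℂ} {r}, FF x ∅ G r → DifferentiableAt ℂ (fun z => G (ze ^ 2 * z)) z :=
    fun hG => dil_diff (hG.diff (ze ^ 2 * z) (mul_ne_zero (pow_ne_zero _ ze_ne_zero) hz)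
      (fun u => hc 2 3 u 1 rfl) (fun u => hc 2 5 u 3 rfl) (by simp)) rfl
  have d2 : DifferentiableAt ℂ (Bk F E) z :=
    ((F3 hF).mul (F2 hE)).sub ((F3 hE).mul (F2 hF))
  exact (d1.mul d2).mul ((QQ_diff hz).inv (QQ_ne_of_nd hz h))

end closeI

/-! ### limits at `0` and `∞` -/

theorem cocompact_ne_zero : ∀ᶠ z : ℂ in cocompact ℂ, z ≠ 0 := by
  have := (isCompact_singleton (x := (0 : ℂ))).compl_mem_cocompact
  filter_upwards [this] with z hz
  exact hz

theorem tendsto_dil_cocompact {c : ℂ} (hc : c ≠ 0) :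
    Tendsto (fun z : ℂ => c * z) (cocompact ℂ) (cocompact ℂ) :=
  (Homeomorph.mulLeft₀ c hc).isClosedEmbedding.tendsto_cocompact

theorem tendsto_dil_zero {c : ℂ} (hc : c ≠ 0) :
    Tendsto (fun z : ℂ => c * z) (𝓝[≠] 0) (𝓝[≠] 0) := by
  refine tendsto_nhdsWithin_iff.2 ⟨?_, ?_⟩
  · have := ((by fun_prop : Continuous fun z : ℂ => c * z).tendsto 0).mono_left
      (nhdsWithin_le_nhds (s := {(0:ℂ)}ᶜ))
    rwa [mul_zero] at this
  · filter_upwards [self_mem_nhdsWithin] with z hz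
    exact mul_ne_zero hc hz

theorem _root_.Pool.Agent.EXL.Cl.As.dilInf {m : ℕ} {F : ℂ → ℂ} (h : As m F) {c : ℂ} (hc : c ≠ 0) :
    Tendsto (fun z => F (c * z) / z ^ m) (cocompact ℂ) (𝓝 (c ^ m * (1 / (2 * Complex.I)))) := by
  have h1 := (h.inf.comp (tendsto_dil_cocompact hc)).const_mul (c ^ m)
  refine h1.congr fun z => ?_
  simp only [Function.comp, mul_pow]
  have : c ^ m ≠ 0 := pow_ne_zero _ hc
  by_cases hz : z ^ m = 0
  · simp [hz]
  · field_simp

theorem _root_.Pool.Agent.EXL.Cl.As.dilZero {m : ℕ} {F : ℂ → ℂ} (h : As m F) {c : ℂ} (hc : c ≠ 0) :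
    Tendsto (fun z => F (c * z) * z ^ m) (𝓝[≠] 0)
      (𝓝 ((c ^ m)⁻¹ * (-(1 / (2 * Complex.I))))) := by
  have h1 := (h.zero.comp (tendsto_dil_zero hc)).const_mul (c ^ m)⁻¹
  refine h1.congr fun z => ?_
  simp only [Function.comp, mul_pow]
  have : c ^ m ≠ 0 := pow_ne_zero _ hc
  field_simp

theorem QQ_inf : Tendsto (fun z => QQ z / z ^ 4) (cocompact ℂ) (𝓝 1) := by
  have h1 : Tendsto (fun z : ℂ => z⁻¹) (cocompact ℂ) (𝓝 0) := tendsto_inv₀_cobounded.comp (by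
      rw [Metric.cobounded_eq_cocompact]; exact tendsto_id)
  have h2 : Tendsto (fun z : ℂ => 1 - (z⁻¹) ^ 8) (cocompact ℂ) (𝓝 (1 - 0 ^ 8)) :=
    tendsto_const_nhds.sub (h1.pow 8)
  rw [zero_pow (by norm_num), sub_zero] at h2
  refine h2.congr' ?_
  filter_upwards [cocompact_ne_zero] with z hz
  unfold QQ
  field_simp

theorem QQ_zero : Tendsto (fun z => QQ z * z ^ 4) (𝓝[≠] 0) (𝓝 (-1)) := by
  have h1 : Tendsto (fun z : ℂ => z ^ 8 - 1) (𝓝[≠] 0) (𝓝 (0 ^ 8 - 1)) :=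
    ((by fun_prop : Continuous fun z : ℂ => z ^ 8 - 1).tendsto 0).mono_left nhdsWithin_le_nhds
  rw [zero_pow (by norm_num), zero_sub] at h1
  refine h1.congr' ?_
  filter_upwards [self_mem_nhdsWithin] with z hz
  have hz' : z ≠ 0 := hz
  unfold QQ
  field_simp

theorem Bk_inf {F E : ℂ → ℂ} (aF : As 1 F) (aE : As 2 E) :
    Tendsto (fun z => Bk F E z / z ^ 3) (cocompact ℂ) (𝓝 (-(1 / 4) * (ze ^ 7 - ze ^ 8))) := by
  have h3 : (ze ^ 3 : ℂ) ≠ 0 := pow_ne_zero _ ze_ne_zero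
  have h2 : (ze ^ 2 : ℂ) ≠ 0 := pow_ne_zero _ ze_ne_zero
  have l := ((aF.dilInf h3).mul (aE.dilInf h2)).sub ((aE.dilInf h3).mul (aF.dilInf h2))
  have hI : (Complex.I : ℂ) ^ 2 = -1 := Complex.I_sq
  have hval : (ze ^ 3) ^ 1 * (1 / (2 * Complex.I)) * ((ze ^ 2) ^ 2 * (1 / (2 * Complex.I)))
      - (ze ^ 3) ^ 2 * (1 / (2 * Complex.I)) * ((ze ^ 2) ^ 1 * (1 / (2 * Complex.I)))
      = -(1 / 4) * (ze ^ 7 - ze ^ 8) := by
    have h4 : (1 / (2 * Complex.I)) * (1 / (2 * Complex.I)) = -(1 / 4) := by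
      have : Complex.I ≠ 0 := Complex.I_ne_zero
      field_simp
      linear_combination (4 : ℂ) * hI
    linear_combination (ze ^ 7 - ze ^ 8) * h4
  rw [hval] at l
  refine l.congr fun z => ?_
  unfold Bk
  rw [pow_one]
  ring

theorem Bk_zero {F E : ℂ → ℂ} (aF : As 1 F) (aE : As 2 E) :
    Tendsto (fun z => Bk F E z * z ^ 3) (𝓝[≠] 0) (𝓝 (-(1 / 4) * (ze - 1))) := by
  have h3 : (ze ^ 3 : ℂ) ≠ 0 := pow_ne_zero _ ze_ne_zero
  have h2 : (ze ^ 2 : ℂ) ≠ 0 := pow_ne_zero _ ze_ne_zero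
  have l := ((aF.dilZero h3).mul (aE.dilZero h2)).sub ((aE.dilZero h3).mul (aF.dilZero h2))
  have hI : (Complex.I : ℂ) ^ 2 = -1 := Complex.I_sq
  have e3 : ((ze ^ 3) ^ 1)⁻¹ = ze ^ 5 := by
    refine (eq_inv_of_mul_eq_one_left ?_).symm
    linear_combination ze_pow_eight
  have e4 : ((ze ^ 2) ^ 2)⁻¹ = ze ^ 4 := by
    refine (eq_inv_of_mul_eq_one_left ?_).symm
    linear_combination ze_pow_eight
  have e6 : ((ze ^ 3) ^ 2)⁻¹ = ze ^ 2 := by
    refine (eq_inv_of_mul_eq_one_left ?_).symm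
    linear_combination ze_pow_eight
  have e2 : ((ze ^ 2) ^ 1)⁻¹ = ze ^ 6 := by
    refine (eq_inv_of_mul_eq_one_left ?_).symm
    linear_combination ze_pow_eight
  rw [e3, e4, e6, e2] at l
  have hval : ze ^ 5 * -(1 / (2 * Complex.I)) * (ze ^ 4 * -(1 / (2 * Complex.I)))
      - ze ^ 2 * -(1 / (2 * Complex.I)) * (ze ^ 6 * -(1 / (2 * Complex.I)))
      = -(1 / 4) * (ze - 1) := by
    have h4 : (1 / (2 * Complex.I)) * (1 / (2 * Complex.I)) = -(1 / 4) := by
      have : Complex.I ≠ 0 := Complex.I_ne_zero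
      field_simp
      linear_combination (4 : ℂ) * hI
    linear_combination (ze ^ 9 - ze ^ 8) * h4 + (-(1 / 4) * (ze - 1)) * ze_pow_eight
  rw [hval] at l
  refine l.congr fun z => ?_
  unfold Bk
  rw [pow_one]
  ring

end PartI

open PartI in
/-- **(I)** -/
theorem closeI {N : ℕ} {x : Fin N → ℝ} (hx : Nd x) {b : ℂ → ℂ} {B ρ : ℂ} (hb : BF x b B ρ)
    {F E : ℂ → ℂ} {rF rE : Fin N × Bool → ℂ} (hF : FF x ∅ F rF) (aF : As 1 F)
    (hE : FF x ∅ E rE) (aE : As 2 E) :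
    ρ * (F th * E (th ^ 3) - E th * F (th ^ 3)) =
      2 * Complex.I * (Real.sin (Real.pi / 8) : ℝ) := by
  have hS := th_sub_inv
  set S : ℂ := ((Real.sin (Real.pi / 8) : ℝ) : ℂ) with hSdef
  have hth := th_ne_zero
  have hi : Tendsto (gI b F E) (cocompact ℂ) (𝓝 S) := by
    have l := (hb.inf.mul (Bk_inf aF aE)).mul (QQ_inf.inv₀ one_ne_zero)
    have hval : 2 * (th ^ 3)⁻¹ * (-(1 / 4) * (ze ^ 7 - ze ^ 8)) * 1⁻¹ = S := by
      have e3 : (th ^ 3)⁻¹ = th ^ 13 := by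
        refine (eq_inv_of_mul_eq_one_left ?_).symm
        linear_combination th_pow_sixteen
      have ei : th⁻¹ = th ^ 15 := by
        refine (eq_inv_of_mul_eq_one_left ?_).symm
        linear_combination th_pow_sixteen
      rw [ei] at hS
      rw [e3, ze, inv_one, mul_one]
      have h4 := th_pow_four
      have h16 := th_pow_sixteen
      have hI := Complex.I_sq
      -- ½ (th^29 - th^27) ... reduce modulo th^16 = 1, th^4 = I
      have : S = (th - th ^ 15) / (2 * Complex.I) := by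
        rw [hS]; have := Complex.I_ne_zero; field_simp
      rw [this, ← h4]
      have h4' : (th ^ 4 : ℂ) ≠ 0 := pow_ne_zero _ hth
      rw [eq_div_iff (mul_ne_zero two_ne_zero h4')]
      linear_combination (th * (th ^ 16 + 1) - th ^ 15) * h16
    rw [hval] at l
    refine l.congr' ?_
    filter_upwards [cocompact_ne_zero] with z hz
    simp only [gI]
    field_simp
  have h0 : Tendsto (gI b F E) (𝓝[≠] 0) (𝓝 (-S)) := by
    have l := (hb.zero.mul (Bk_zero aF aE)).mul (QQ_zero.inv₀ (by norm_num))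
    have hval : 2 * th ^ 3 * (-(1 / 4) * (ze - 1)) * (-1)⁻¹ = -S := by
      have ei : th⁻¹ = th ^ 15 := by
        refine (eq_inv_of_mul_eq_one_left ?_).symm
        linear_combination th_pow_sixteen
      rw [ei] at hS
      have h4 := th_pow_four
      have h16 := th_pow_sixteen
      have : S = (th - th ^ 15) / (2 * Complex.I) := by
        rw [hS]; have := Complex.I_ne_zero; field_simp
      rw [this, ← h4, ze]
      have h4' : (th ^ 4 : ℂ) ≠ 0 := pow_ne_zero _ hth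
      have h8 := th_pow_eight
      have e : 2 * th ^ 3 * (-(1 / 4) * (th ^ 2 - 1)) * (-1)⁻¹ = (1 / 2) * th ^ 3 * (th ^ 2 - 1) := by
        norm_num; ring
      rw [e, ← neg_div, eq_div_iff (mul_ne_zero two_ne_zero h4')]
      linear_combination (th - th ^ 7) * h8
    rw [hval] at l
    refine l.congr' ?_
    filter_upwards [self_mem_nhdsWithin] with z hz
    have hz' : z ≠ 0 := hz
    simp only [gI]
    field_simp
  have hsum := res_sum (nd x) (nd_inj hx) (nd_ne_zero x) (gI b F E)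
    (fun z hz h => gI_diff hb hF hE z hz h) (rI x b F E rF rE ρ)
    (fun u => gI_HR hx hb hF hE u) (-S) S h0 hi
  rw [rI_sum hx hb hF hE] at hsum
  have hI := Complex.I_ne_zero
  field_simp at hsum
  linear_combination hsum

end

end Pool.Agent.EXL.Cl
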