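import Pool.Agent.EXL.ClBase

/-!
# Closing (block (C) of board/EXL): calculus of `HR`, the class `FF`
-/

open Filter Topology

namespace Pool.Agent.EXL.Cl

noncomputable section

variable {N : ℕ}

/-! ## calculus of `HR` -/

theorem tendsto_sub_one {s : ℂ} (hs : s ≠ 0) :
    Tendsto (fun z : ℂ => z / s - 1) (𝓝[≠] s) (𝓝 0) := by
  have h : ContinuousAt (fun z : ℂ => z / s - 1) s := by fun_prop
  have := h.tendsto
  simp only [div_self hs, sub_self] at this
  exact this.mono_left nhdsWithin_le_nhds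

theorem HR.congr {f g : ℂ → ℂ} {s r : ℂ} (h : HR f s r) (hfg : ∀ z, f z = g z) : HR g s r := by
  have : f = g := funext hfg
  rwa [this] at h

theorem HR.congr' {f g : ℂ → ℂ} {s r : ℂ} (h : HR f s r) (hfg : ∀ᶠ z in 𝓝[≠] s, f z = g z) :
    HR g s r := by
  refine Tendsto.congr' ?_ h
  filter_upwards [hfg] with z hz
  rw [hz]

theorem HR.cast {f : ℂ → ℂ} {s s' r r' : ℂ} (h : HR f s r) (hs : s = s') (hr : r = r') :
    HR f s' r' := by
  rw [← hs, ← hr]; exact h

theorem HR.mul_tendsto {f g : ℂ → ℂ} {s r c : ℂ} (h : HR f s r)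
    (hg : Tendsto g (𝓝[≠] s) (𝓝 c)) : HR (fun z => f z * g z) s (r * c) := by
  have := Tendsto.mul h hg
  refine this.congr (fun z => ?_)
  ring

theorem HR.mul_cont {f g : ℂ → ℂ} {s r : ℂ} (h : HR f s r) (hg : ContinuousAt g s) :
    HR (fun z => f z * g z) s (r * g s) :=
  h.mul_tendsto (hg.tendsto.mono_left nhdsWithin_le_nhds)

theorem HR.add {f g : ℂ → ℂ} {s r r' : ℂ} (h : HR f s r) (h' : HR g s r') :
    HR (fun z => f z + g z) s (r + r') := by
  have := Tendsto.add h h'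
  refine this.congr (fun z => ?_)
  ring

theorem HR.neg {f : ℂ → ℂ} {s r : ℂ} (h : HR f s r) : HR (fun z => - f z) s (-r) := by
  have := Tendsto.neg h
  refine this.congr (fun z => ?_)
  ring

theorem HR.sub {f g : ℂ → ℂ} {s r r' : ℂ} (h : HR f s r) (h' : HR g s r') :
    HR (fun z => f z - g z) s (r - r') := by
  have := Tendsto.sub h h'
  refine this.congr (fun z => ?_)
  ring

theorem HR.const_mul {f : ℂ → ℂ} {s r : ℂ} (c : ℂ) (h : HR f s r) :
    HR (fun z => c * f z) s (c * r) := by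
  have := Tendsto.const_mul c h
  refine this.congr (fun z => ?_)
  ring

theorem HR.sum {κ : Type*} (t : Finset κ) {f : κ → ℂ → ℂ} {s : ℂ} {r : κ → ℂ}
    (h : ∀ i ∈ t, HR (f i) s (r i)) : HR (fun z => ∑ i ∈ t, f i z) s (∑ i ∈ t, r i) := by
  have := tendsto_finsetSum t (fun i hi => (h i hi : Tendsto _ _ _))
  refine this.congr (fun z => ?_)
  rw [Finset.mul_sum]

theorem HR.of_tendsto {f : ℂ → ℂ} {s c : ℂ} (hs : s ≠ 0) (h : Tendsto f (𝓝[≠] s) (𝓝 c)) :
    HR f s 0 := by
  have := (tendsto_sub_one hs).mul h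
  rw [zero_mul] at this
  exact this

theorem HR.of_cont {f : ℂ → ℂ} {s : ℂ} (hs : s ≠ 0) (h : ContinuousAt f s) : HR f s 0 :=
  HR.of_tendsto hs (h.tendsto.mono_left nhdsWithin_le_nhds)

/-- the map `z ↦ c z` is compatible with punctured neighbourhoods -/
theorem tendsto_mul_punct {c s : ℂ} (hc : c ≠ 0) :
    Tendsto (fun z => c * z) (𝓝[≠] s) (𝓝[≠] (c * s)) := by
  refine tendsto_nhdsWithin_iff.mpr ⟨?_, ?_⟩
  · have h : ContinuousAt (fun z : ℂ => c * z) s := by fun_prop
    exact h.tendsto.mono_left nhdsWithin_le_nhds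
  · filter_upwards [self_mem_nhdsWithin] with z hz
    simp only [Set.mem_compl_iff, Set.mem_singleton_iff] at hz ⊢
    exact fun h => hz (mul_left_cancel₀ hc h)

theorem HR.scale {f : ℂ → ℂ} {c s r : ℂ} (hc : c ≠ 0) (h : HR f (c * s) r) :
    HR (fun z => f (c * z)) s r := by
  have := Tendsto.comp h (tendsto_mul_punct (s := s) hc)
  refine this.congr (fun z => ?_)
  simp only [Function.comp]
  rw [mul_div_mul_left _ _ hc]

/-- two simple poles times a simple zero -/
theorem HR.mul_mul_zero {f g h : ℂ → ℂ} {s r r' c : ℂ} (hs : s ≠ 0) (hf : HR f s r)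
    (hg : HR g s r') (hh : Tendsto (fun z => h z / (z / s - 1)) (𝓝[≠] s) (𝓝 c)) :
    HR (fun z => f z * g z * h z) s (r * r' * c) := by
  have := (Tendsto.mul hf hg).mul hh
  refine this.congr' ?_
  filter_upwards [self_mem_nhdsWithin] with z hz
  have : z / s - 1 ≠ 0 := by
    intro h0
    apply hz
    simp only [Set.mem_singleton_iff]
    have : z / s = 1 := by linear_combination h0
    rwa [div_eq_one_iff_eq hs] at this
  field_simp

/-- a simple pole times a simple zero is regular -/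
theorem HR.mul_zero_tendsto {f h : ℂ → ℂ} {s r c : ℂ} (hs : s ≠ 0) (hf : HR f s r)
    (hh : Tendsto (fun z => h z / (z / s - 1)) (𝓝[≠] s) (𝓝 c)) :
    Tendsto (fun z => f z * h z) (𝓝[≠] s) (𝓝 (r * c)) := by
  have := Tendsto.mul hf hh
  refine this.congr' ?_
  filter_upwards [self_mem_nhdsWithin] with z hz
  have : z / s - 1 ≠ 0 := by
    intro h0
    apply hz
    simp only [Set.mem_singleton_iff]
    have : z / s = 1 := by linear_combination h0
    rwa [div_eq_one_iff_eq hs] at this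
  rw [mul_comm ((z / s - 1)) (f z), mul_assoc, mul_div_cancel₀ _ this]

/-- a differentiable function with a zero at `s` -/
theorem tendsto_div_of_zero {h : ℂ → ℂ} {s h' : ℂ} (hs : s ≠ 0) (hd : HasDerivAt h h' s)
    (h0 : h s = 0) : Tendsto (fun z => h z / (z / s - 1)) (𝓝[≠] s) (𝓝 (s * h')) := by
  have h1 := hasDerivAt_iff_tendsto_slope.mp hd
  have h2 := h1.const_mul s
  refine h2.congr' ?_
  filter_upwards [self_mem_nhdsWithin] with z hz
  have hz' : z - s ≠ 0 := sub_ne_zero.mpr hz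
  rw [slope_def_field, h0, sub_zero]
  have : z / s - 1 = (z - s) / s := by field_simp
  rw [this]
  field_simp

/-! ## consequences for the class `FF` -/

variable {x : Fin N → ℝ} {W : Set ℂ} {F : ℂ → ℂ} {r : Fin N × Bool → ℂ}

/-- a point `y ze^j` differs from the poles `y' ze^i`, `i ≠ j` -/
theorem yy_mul_ne (hx : Nd x) {u u'} {i j : ℕ} (hi : i < 8) (hj : j < 8) (hij : i ≠ j) :
    yy x u * ze ^ i ≠ yy x u' * ze ^ j := by
  intro h
  have h1 : nd x (.inl u, ⟨i, hi⟩) = nd x (.inl u', ⟨j, hj⟩) := by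
    simpa [nd, bs] using h
  have h2 := nd_inj hx h1
  simp only [Prod.mk.injEq, Sum.inl.injEq, Fin.mk.injEq] at h2
  exact hij h2.2

theorem ze_pow_pow_eight (j : ℕ) : (ze ^ j) ^ 8 = 1 := by
  rw [← pow_mul, mul_comm, pow_mul, ze_pow_eight, one_pow]

theorem yy_mul_eight (u) (j : ℕ) : (yy x u * ze ^ j) ^ 8 = yy x u ^ 8 := by
  rw [mul_pow, ze_pow_pow_eight, mul_one]

/-- `F` is differentiable at the points `y ze^j`, `j ≠ 3, 5` -/
theorem FF.diff_yy (hF : FF x W F r) (hx : Nd x) (hW : W ⊆ {-1}) (u) {j : ℕ} (hj : j < 8)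
    (h3 : j ≠ 3) (h5 : j ≠ 5) : DifferentiableAt ℂ F (yy x u * ze ^ j) := by
  refine hF.diff _ (mul_ne_zero (yy_ne_zero x u) (pow_ne_zero _ ze_ne_zero)) ?_ ?_ ?_
  · intro u'; exact yy_mul_ne hx hj (by norm_num) h3
  · intro u'; exact yy_mul_ne hx hj (by norm_num) h5
  · rw [yy_mul_eight]
    intro h
    exact yy_eight_ne_neg hx u (hW h)

/-- the functional equation at a node -/
theorem FF.fe_yy (hF : FF x W F r) (hx : Nd x) (hW : W ⊆ {-1}) (u) :
    F (yy x u * ze ^ 2) + F (yy x u * ze ^ 4) + F (yy x u * ze ^ 6) = 0 := by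
  have h := hF.fe (yy x u) (yy_ne_zero x u) ?_ ?_
  · rw [hF.zero] at h
    have e2 : ze ^ 2 * yy x u = yy x u * ze ^ 2 := mul_comm _ _
    have e4 : ze ^ 4 * yy x u = yy x u * ze ^ 4 := mul_comm _ _
    have e6 : ze ^ 6 * yy x u = yy x u * ze ^ 6 := mul_comm _ _
    rw [e2, e4, e6] at h
    linear_combination h
  · intro u' h
    have h8 : yy x u ^ 8 = yy x u' ^ 8 := by
      have h1 : (yy x u / yy x u') ^ 8 = 1 := by
        have : (yy x u / yy x u') ^ 8 = ((yy x u / yy x u') ^ 4) ^ 2 := by ring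
        rw [this, h]; norm_num
      rw [div_pow, div_eq_one_iff_eq (pow_ne_zero _ (yy_ne_zero x u'))] at h1
      exact h1
    have := yy_eight_inj hx h8
    subst this
    rw [div_self (yy_ne_zero x u)] at h
    norm_num at h
  · intro h
    exact yy_eight_ne_neg hx u (hW h)

/-- values at the fixed points of `z ↦ 1/z` -/
theorem FF.at_one (hF : FF x W F r) : F 1 = 0 := by
  have := hF.odd 1 one_ne_zero
  rw [inv_one] at this
  linear_combination (1 / 2) * this

theorem FF.at_neg_one (hF : FF x W F r) : F (-1) = 0 := by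
  have := hF.odd (-1) (by norm_num)
  rw [show ((-1 : ℂ))⁻¹ = -1 by norm_num] at this
  linear_combination (1 / 2) * this

theorem FF.at_ze4 (hF : FF x W F r) : F (ze ^ 4) = 0 := by
  rw [ze_pow_four]; exact hF.at_neg_one

theorem FF.at_ze8 (hF : FF x W F r) : F (ze ^ 8) = 0 := by
  rw [ze_pow_eight]; exact hF.at_one

/-- `F(th^(16-k)) = -F(th^k)` -/
theorem FF.at_th (hF : FF x W F r) {k m : ℕ} (hkm : k + m = 16) : F (th ^ k) = - F (th ^ m) := by
  have h16 : th ^ k * th ^ m = 1 := by rw [← pow_add, hkm]; exact th_prim.pow_eq_one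
  have : th ^ k = (th ^ m)⁻¹ := eq_inv_of_mul_eq_one_left h16
  rw [this]
  exact hF.odd _ (pow_ne_zero _ th_ne_zero)

end

end Pool.Agent.EXL.Cl
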