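import Pool.Agent.EXL.Col

/-!
# Renaming of sites

Conjugation of the local operators by the transposition `sw a b` of two sites.
-/

namespace Pool.Agent.EXL

open Pat

variable {α K : Type*} [DecidableEq α] [CommRing K]

/-- The embedding given by a transposition of sites. -/
def swE (a b : α) : Pat.Emb α α where
  φ := Equiv.swap a b
  inj := (Equiv.swap a b).injective
  p₀ := Pat.empty
  closed c := ⟨c, rfl⟩

theorem swE_st (a b : α) (q : Pat α) : (swE a b).st q = swap a b q := by
  ext x
  have h := (swE a b).st_apply q (Equiv.swap a b x)
  have h2 : (swE a b).φ (Equiv.swap a b x) = x := Equiv.swap_apply_self a b x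
  rw [h2] at h
  exact h

section
variable (a b : α) (F : Pat α → K)

theorem sw_sw : sw a b (sw a b F) = F := by
  funext q
  change F (swap a b (swap a b q)) = F q
  congr 1
  ext x
  simp [swap]

theorem sw_R (w : Wt K) (i j : α) :
    sw a b (R w (Equiv.swap a b i) (Equiv.swap a b j) F) = R w i j (sw a b F) := by
  funext q
  have h := R_st w (swE a b) i j F q
  simp only [swE_st] at h
  exact h

theorem sw_bot (κ k : K) (i j c : α) :
    sw a b (bot κ k (Equiv.swap a b i) (Equiv.swap a b j) (Equiv.swap a b c) F) =
      bot κ k i j c (sw a b F) := by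
  funext q
  have h := bot_st (swE a b) F q κ k i j c
  simp only [swE_st] at h
  exact h

theorem sw_top (κ k : K) (i j c : α) :
    sw a b (top κ k (Equiv.swap a b i) (Equiv.swap a b j) (Equiv.swap a b c) F) =
      top κ k i j c (sw a b F) := by
  funext q
  have h := top_st (swE a b) F q κ k i j c
  simp only [swE_st] at h
  exact h

theorem sw_glue (i j : α) :
    sw a b (glue (Equiv.swap a b i) (Equiv.swap a b j) F) = glue i j (sw a b F) := by
  funext q
  have h := glue_st (swE a b) F q i j
  simp only [swE_st] at h
  exact h

theorem sw_U (i j : α) :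
    sw a b (U (Equiv.swap a b i) (Equiv.swap a b j) F) = U i j (sw a b F) := by
  funext q
  have h := U_st (swE a b) F q i j
  simp only [swE_st] at h
  exact h

theorem sw_Y (x : K) (i j : α) :
    sw a b (Y x (Equiv.swap a b i) (Equiv.swap a b j) F) = Y x i j (sw a b F) := by
  funext q
  have h := Y_st (swE a b) F q x i j
  simp only [swE_st] at h
  exact h

theorem sw_Yt (x : K) (i j : α) :
    sw a b (Yt x (Equiv.swap a b i) (Equiv.swap a b j) F) = Yt x i j (sw a b F) := by
  funext q
  have h := Yt_st (swE a b) F q x i j
  simp only [swE_st] at h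
  exact h

theorem sw_ren (i j : α) :
    sw a b (ren (Equiv.swap a b i) (Equiv.swap a b j) F) = ren i j (sw a b F) := by
  funext q
  have h := ren_st (swE a b) F q i j
  simp only [swE_st] at h
  exact h

theorem sw_emp (i : α) :
    sw a b (emp (Equiv.swap a b i) F) = emp i (sw a b F) := by
  funext q
  have h := emp_st (swE a b) F q i
  simp only [swE_st] at h
  exact h

variable {a b}

theorem sw_M (w : α → Wt K) (c : α) {L : List α} (ha : a ∉ L) (hb : b ∉ L) :
    sw a b (M w (Equiv.swap a b c) L F) = M w c L (sw a b F) := by
  induction L with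
  | nil => rfl
  | cons j L ih =>
    have hja : j ≠ a := fun h => ha (by simp [h])
    have hjb : j ≠ b := fun h => hb (by simp [h])
    have h := sw_R a b (M w (Equiv.swap a b c) L F) (w j) c j
    rw [Equiv.swap_apply_of_ne_of_ne hja hjb] at h
    rw [M_cons, M_cons, h, ih (fun h => ha (by simp [h])) (fun h => hb (by simp [h]))]

theorem sw_TT (κb kb κt kt : K) (wr wl : α → Wt K) (l r c t : α) {L : List α}
    (ha : a ∉ L) (hb : b ∉ L) :
    sw a b (TT κb kb κt kt wr wl (Equiv.swap a b l) (Equiv.swap a b r) (Equiv.swap a b c)
      (Equiv.swap a b t) L F) = TT κb kb κt kt wr wl l r c t L (sw a b F) := by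
  unfold TT
  rw [sw_bot, sw_M _ _ _ ha hb, sw_M _ _ _ ha hb, sw_top]

/-- If `F` vanishes on the states where `a` or `b` is occupied, then it is not changed by the
exchange of `a` and `b`. -/
theorem sw_eq_self (h1 : emp a F = F) (h2 : emp b F = F) : sw a b F = F := by
  funext q
  change F (swap a b q) = F q
  by_cases ha : q a = a
  · by_cases hb : q b = b
    · congr 1
      ext x
      simp only [swap, Equiv.swap_apply_def]
      have hxa : x ≠ a → q x ≠ a := fun h h' => h (by rw [← q.inv x, h', ha])
      have hxb : x ≠ b → q x ≠ b := fun h h' => h (by rw [← q.inv x, h', hb])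
      split_ifs <;> simp_all
    · have e1 : F q = 0 := by rw [← h2]; simp [emp, hb]
      have e2 : F (swap a b q) = 0 := by
        rw [← h1]
        have : swap a b q a ≠ a := by
          intro h
          apply hb
          have h3 : Equiv.swap a b (q (Equiv.swap a b a)) = a := h
          rw [Equiv.swap_apply_left] at h3
          have h4 := congrArg (Equiv.swap a b) h3
          simpa using h4
        simp [emp, this]
      rw [e1, e2]
  · have e1 : F q = 0 := by rw [← h1]; simp [emp, ha]
    have e2 : F (swap a b q) = 0 := by
      rw [← h2]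
      have : swap a b q b ≠ b := by
        intro h
        apply ha
        have h3 : Equiv.swap a b (q (Equiv.swap a b b)) = b := h
        rw [Equiv.swap_apply_right] at h3
        have h4 := congrArg (Equiv.swap a b) h3
        simpa using h4
      simp [emp, this]
    rw [e1, e2]

end

end Pool.Agent.EXL
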