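import Pool.Agent.EXL.FormZ
import Pool.Agent.EXL.BFacts
import Pool.Agent.EXL.Inst

/-!
# The form of `b(v)` for the concrete operators
-/

namespace Pool.Agent.EXL.Fm

open Polynomial Complex Pat

variable {ι α : Type*} [DecidableEq ι] [DecidableEq α]

theorem om_eq : om = exp (Real.pi / 4 * I) := by
  rw [om, lam]; congr 1; ring

theorem ss_eq : ss = exp (3 * Real.pi / 8 * I) := by
  rw [ss, lam]; congr 1; ring

theorem rwt_eq (u : ℂ) : rwt u = Wc u := by
  rw [rwt, EXL.Dn, ← wt_eq, om_eq, ss_eq, mul_comm u I]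

theorem okR_iff (u : ℂ) : okR u ↔ Dn u ≠ 0 := by
  rw [okR, EXL.Dn, ← om_eq, mul_comm u I, PP_exp]
  constructor
  · intro h h0; apply h; rw [h0]; ring
  · intro h
    exact mul_ne_zero (mul_ne_zero (by norm_num) h) (exp_ne_zero _)

theorem Sn_eq (v : ℂ) : Sn v = Sc v := by
  rw [Sn, Sc, lam]; congr 1; ring

theorem okC_iff (v : ℂ) : okC v ↔ Sc v ≠ 0 := by rw [okC, Sn_eq]

theorem kK_eq (v : ℂ) : kK v = Kc v := by
  rw [kK, Sn_eq, Sn_eq, Kc]; rw [show Sc (-v) = sin (3 * lam / 2 - v) by rw [Sc, sub_eq_add_neg]]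

theorem kk_eq (v : ℂ) : kk v = kc v := by rw [kk, Sn_eq, kc]

theorem h_eq (L : LabMap ι α) : (ops L).h + (ops L).h = 3 * lam := by
  rw [ops_h, lam]; ring

/-- The rapidities as a function on the sites. -/
noncomputable def ext (L : LabMap ι α) (z : ι → ℂ) : α → ℂ := Function.extend L.lab z 0

theorem ext_lab (L : LabMap ι α) (z : ι → ℂ) (i : ι) : ext L z (L.lab i) = z i :=
  L.inj.extend_apply _ _ _

theorem M_apply {L : LabMap ι α} {z : ι → ℂ} {a : ι} {w : ℂ} {rows : List ι} (ha : a ∉ rows)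
    (F : Pat α → ℂ) : (ops L).M z a w rows F =
      M (fun s => Wc (w - ext L z s)) (L.lab a) (rows.map L.lab) F := by
  induction rows with
  | nil => rfl
  | cons r rows ih =>
    have har : a ≠ r := fun e => ha (by simp [e])
    rw [Glob.Ops.M_cons, Module.End.mul_apply, ih (fun e => ha (by simp [e])), ops_R har,
      mk_apply, List.map_cons, M_cons, rwt_eq, ext_lab]

theorem T_apply {L : LabMap ι α} {z : ι → ℂ} {i j : ι} {v : ℂ} {rows : List ι} (hij : i ≠ j)
    (hi : i ∉ rows) (hj : j ∉ rows) (F : Pat α → ℂ) : (ops L).T z i j v rows F =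
      Tv (ext L z) (L.lab i) (L.lab j) L.flo L.cei (rows.map L.lab) v F := by
  rw [Glob.Ops.T, Module.End.mul_apply, Module.End.mul_apply, Module.End.mul_apply, M_apply hi,
    M_apply hj, ops_b hij, ops_t hij, mk_apply, mk_apply, Tv, TT, h_eq, kK_eq, kk_eq, kK_eq, kk_eq,
    show (3 * (Real.pi : ℂ) / 8 - v) = 3 * lam - v by rw [lam]; ring]

theorem dz_map {L : LabMap ι α} {z : ι → ℂ} {rows : List ι} (w : ℂ) :
    dz (ext L z) (rows.map L.lab) w = dz z rows w := by
  rw [dz, dz, List.map_map]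
  congr 2
  refine List.map_congr_left fun i _ => ?_
  rw [Function.comp_apply, ext_lab]

/-- **The form of `b`** for the concrete operators, in the variable `w = e^{2iv}`. -/
theorem form_ops {L : LabMap ι α} {z : ι → ℂ} {i j : ι} {rows : List ι} (hij : i ≠ j)
    (hi : i ∉ rows) (hj : j ∉ rows) {F : Pat α → ℂ} (hF : F (cup L.flo L.cei Pat.empty) = 1) :
    ∃ P : ℂ[X], P.natDegree ≤ 4 * rows.length + 4 ∧
      P.coeff (4 * rows.length + 4) = 2 * exp (-(I * (3 * lam))) ∧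
      P.coeff 0 = 2 * exp (I * (9 * lam)) * exp (I * (12 * lam)) ^ rows.length ∧
      ∀ v : ℂ, dz z rows (exp (2 * I * v)) ≠ 0 →
        (ops L).T z i j v rows F Pat.empty * (exp (2 * I * v) * dz z rows (exp (2 * I * v))) =
          P.eval (exp (2 * I * v)) := by
  have hL : ∀ k, k ∉ rows → L.lab k ∉ rows.map L.lab := by
    intro k hk h
    obtain ⟨m, hm, e⟩ := List.mem_map.1 h
    exact hk (L.inj e ▸ hm)
  have hfl : L.flo ∉ rows.map L.lab := by
    intro h
    obtain ⟨m, hm, e⟩ := List.mem_map.1 h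
    exact L.ne_flo m e
  obtain ⟨P, h1, h2, h3, h4⟩ := b_form_z (z := ext L z) (l := L.lab i) (r := L.lab j)
    (b := L.flo) (t := L.cei) (L := rows.map L.lab) (F := F) (L.lab_ne hij) (L.ne_flo i)
    (L.ne_cei i) (L.ne_flo j) (L.ne_cei j) L.flo_ne (hL i hi) (hL j hj) hfl hF
  rw [List.length_map] at h1 h2 h3
  refine ⟨P, h1, h2, h3, fun v hv => ?_⟩
  have h5 := h4 v (by rw [dz_map]; exact hv)
  rw [dz_map] at h5
  rw [T_apply hij hi hj, h5]

/-- The regular parameters. -/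
theorem dz_ne_iff {L : LabMap ι α} {z : ι → ℂ} {rows : List ι} {v : ℂ} :
    dz z rows (exp (2 * I * v)) ≠ 0 ↔ okC v ∧ okC ((ops L).h + (ops L).h - v) ∧
      (∀ r ∈ rows, okR (v - z r)) ∧ (∀ r ∈ rows, okR ((ops L).h + (ops L).h - v - z r)) := by
  simp only [okR_iff, okC_iff, h_eq]
  constructor
  · intro h; exact ne_of_dz h
  · rintro ⟨h1, h2, h3, h4⟩; exact dz_ne h1 h2 h3 h4

theorem dz_ne_of_adm {L : LabMap ι α} {z : ι → ℂ} {rows : List ι} {v : ℂ}
    (h : Glob.Adm (ops L) okR okC z rows v) : dz z rows (exp (2 * I * v)) ≠ 0 :=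
  (dz_ne_iff (L := L)).2 ⟨h.k, h.k', h.r, h.r'⟩

end Pool.Agent.EXL.Fm
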