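import Pool.Agent.EXL.FormW

/-!
# Columns with polynomial weights: degree, extreme coefficients, parity
-/

namespace Pool.Agent.EXL.Fm

open Polynomial Complex Pat

variable {α : Type*} [DecidableEq α]

/-- The column with general weights of the empty rhombi. -/
def M6 {K : Type*} [CommRing K] (w₀ : α → K) (w : α → Wt K) (a : α) :
    List α → (Pat α → K) → (Pat α → K)
  | [], F => F
  | j :: L, F => R6 (w₀ j) (w j) a j (M6 w₀ w a L F)

theorem M6_eq {K : Type*} [CommRing K] (c : α → K) (w : α → Wt K) (a : α) (L : List α)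
    (F : Pat α → K) :
    M6 c (fun j => (w j).sc (c j)) a L F = fun p => (L.map c).prod * M w a L F p := by
  induction L with
  | nil => funext p; simp [M6]
  | cons j L ih =>
    funext p
    rw [M6, ih, R6_smul]
    simp only [R6_eq, M_cons, List.map_cons, List.prod_cons]
    ring

theorem M6_congr {K : Type*} [CommRing K] {c c' : α → K} {w w' : α → Wt K} {a : α} {L : List α}
    (F : Pat α → K) (h : ∀ j ∈ L, c j = c' j) (h' : ∀ j ∈ L, w j = w' j) :
    M6 c w a L F = M6 c' w' a L F := by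
  induction L with
  | nil => rfl
  | cons j L ih =>
    rw [M6, M6, h j (by simp), h' j (by simp), ih (fun i hi => h i (by simp [hi]))
      (fun i hi => h' i (by simp [hi]))]

theorem M6_smul {K : Type*} [CommRing K] (d : K) (c : α → K) (w : α → Wt K) (a : α) (L : List α)
    (F : Pat α → K) :
    M6 c w a L (fun p => d * F p) = fun p => d * M6 c w a L F p := by
  induction L with
  | nil => rfl
  | cons j L ih => rw [M6, ih, R6_smul]; rfl

theorem TPF.M6 {m n : ℕ} {a b : α → ℂ} {A B : α → Wt ℂ} {w₀ : ℂ → α → ℂ} {w : ℂ → α → Wt ℂ}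
    {X Y : Pat α → ℂ} {G : ℂ → Pat α → ℂ} (i : α) (L : List α)
    (h0 : ∀ j ∈ L, TP m (a j) (b j) (fun t => w₀ t j))
    (hw : ∀ j ∈ L, TPW m (A j) (B j) (fun t => w t j))
    (hG : TPF n X Y G) :
    TPF (m * L.length + n) (Fm.M6 a A i L X) (Fm.M6 b B i L Y)
      (fun t => Fm.M6 (w₀ t) (w t) i L (G t)) := by
  induction L with
  | nil => simpa [Fm.M6] using hG
  | cons j L ih =>
    have h1 := ih (fun k hk => h0 k (by simp [hk])) (fun k hk => hw k (by simp [hk]))
    have h2 := h1.R6 (h0 j (by simp)) (hw j (by simp)) i j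
    have e : m + (m * L.length + n) = m * (j :: L).length + n := by
      simp only [List.length_cons]; ring
    rw [e] at h2
    exact h2

/-- The leading column acts as a scalar on the states without strands on the rows. -/
theorem M6_lead {K : Type*} [CommRing K] {c : α → K} {w : α → Wt K} {i : α} {L : List α}
    (h1 : ∀ j ∈ L, (w j).v = c j) (h2 : ∀ j ∈ L, (w j).u1 = 0) (h3 : ∀ j ∈ L, (w j).u2 = 0)
    (F : Pat α → K) {p : Pat α} (hp : ∀ j ∈ L, p j = j) :
    M6 c w i L F p = (L.map c).prod * F p := by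
  induction L with
  | nil => simp [M6]
  | cons j L ih =>
    have e := ih (fun k hk => h1 k (by simp [hk])) (fun k hk => h2 k (by simp [hk]))
      (fun k hk => h3 k (by simp [hk])) (fun k hk => hp k (by simp [hk]))
    have hj := hp j (by simp)
    rw [M6, R6]
    simp only [hj, if_true, h1 j (by simp), h2 j (by simp), h3 j (by simp), zero_mul, add_zero,
      ite_self, e, List.map_cons, List.prod_cons]
    ring

/-! ### The weights are trigonometric polynomials -/

/-- `e^{ic}/(2i)` -/
noncomputable def ap (c : ℂ) : ℂ := exp (I * c) / (2 * I)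

/-- `-e^{-ic}/(2i)` -/
noncomputable def am (c : ℂ) : ℂ := -(exp (-(I * c))) / (2 * I)

theorem ap_mul_ap (c d : ℂ) : ap c * ap d = -exp (I * (c + d)) / 4 := by
  rw [ap, ap, div_mul_div_comm, ← exp_add, ← mul_add,
    show (2 * I) * (2 * I) = -4 by linear_combination 4 * I_sq]
  ring

theorem ap_mul_am (c d : ℂ) : ap c * am d = exp (I * (c - d)) / 4 := by
  rw [ap, am, div_mul_div_comm, mul_neg, ← exp_add,
    show (2 * I) * (2 * I) = -4 by linear_combination 4 * I_sq,
    show I * c + -(I * d) = I * (c - d) by ring]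
  ring

theorem am_mul_ap (c d : ℂ) : am c * ap d = exp (I * (d - c)) / 4 := by
  rw [mul_comm, ap_mul_am]

theorem am_mul_am (c d : ℂ) : am c * am d = -exp (-(I * (c + d))) / 4 := by
  rw [am, am, div_mul_div_comm, neg_mul_neg, ← exp_add,
    show (2 * I) * (2 * I) = -4 by linear_combination 4 * I_sq,
    show -(I * c) + -(I * d) = -(I * (c + d)) by ring]
  ring

theorem sinp {f : ℂ → ℂ} (c : ℂ) (h : ∀ v, f v = v + c) :
    TP 1 (ap c) (am c) (fun v => sin (f v)) :=
  (TP.sin_add c).congr fun v => by rw [h]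

theorem sinm {f : ℂ → ℂ} (c : ℂ) (h : ∀ v, f v = c - v) :
    TP 1 (am c) (ap c) (fun v => sin (f v)) :=
  (TP.sin_sub c).congr fun v => by rw [h]

theorem exp_sub_8lam (x : ℂ) : exp (I * (x - 8 * lam)) = - exp (I * x) := by
  have h : exp (I * (x - 8 * lam)) * exp (I * (8 * lam)) = exp (I * x) := by
    rw [← exp_add]; congr 1; ring
  rw [exp_8lam] at h
  linear_combination -h

theorem exp_add_8lam (x : ℂ) : exp (I * (x + 8 * lam)) = - exp (I * x) := by
  rw [mul_add, exp_add, exp_8lam]; ring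

/-- the leading coefficients of the denominator at rapidity `v - z` -/
noncomputable def dp (z : ℂ) : ℂ := -exp (I * (5 * lam - 2 * z)) / 4

noncomputable def dm (z : ℂ) : ℂ := -exp (-(I * (5 * lam - 2 * z))) / 4

theorem TP_Dn (z : ℂ) : TP 2 (dp z) (dm z) (fun v => Dn (v - z)) := by
  have h := (sinp (f := fun v => 2 * lam + (v - z)) (2 * lam - z) (fun v => by ring)).mul
    (sinp (f := fun v => 3 * lam + (v - z)) (3 * lam - z) (fun v => by ring))
  refine h.cast ?_ ?_
  · rw [ap_mul_ap, dp]; congr 3; ring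
  · rw [am_mul_am, dm]; congr 4; ring

theorem sin_8lam_sub (x : ℂ) : sin (8 * lam - x) = sin x := by
  rw [show 8 * lam = (Real.pi : ℂ) by rw [lam]; ring, sin_pi_sub]

theorem Dn_cross (u : ℂ) : Dn (3 * lam - u) = Dn u := by
  rw [Dn, Dn, ← sin_8lam_sub (2 * lam + (3 * lam - u)), ← sin_8lam_sub (3 * lam + (3 * lam - u)),
    mul_comm]
  congr 2 <;> ring

theorem TP_Dn' (z : ℂ) : TP 2 (dp (-z)) (dm (-z)) (fun v => Dn (3 * lam - v - z)) :=
  (TP_Dn (-z)).congr fun v => by
    rw [← Dn_cross]; congr 1; ring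

/-- The leading weights. -/
noncomputable def WA (z : ℂ) (x y : ℂ) : Wt ℂ := ⟨dp z, 0, 0, x, y⟩

noncomputable def WB (z : ℂ) (x y : ℂ) : Wt ℂ := ⟨dm z, 0, 0, x, y⟩

theorem TPW_Wn (z : ℂ) : ∃ x y x' y', TPW 2 (WA z x y) (WB z x' y') (fun v => Wn (v - z)) := by
  have s0 := sinp (f := fun v => v - z) (-z) (fun v => by ring)
  have s3 := sinm (f := fun v => 3 * lam - (v - z)) (3 * lam + z) (fun v => by ring)
  have s2 := sinm (f := fun v => 2 * lam - (v - z)) (2 * lam + z) (fun v => by ring)
  have s1 := sinp (f := fun v => v - z - lam) (-z - lam) (fun v => by ring)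
  refine ⟨_, _, _, _, ⟨?_, ?_, ?_, s2.mul s3, s0.mul s1⟩⟩
  · refine (s0.mul s3).cast ?_ ?_
    · show _ = dp z
      rw [ap_mul_am, dp, show -z - (3 * lam + z) = (5 * lam - 2 * z) - 8 * lam by ring,
        exp_sub_8lam]
    · show _ = dm z
      rw [am_mul_ap, dm, show 3 * lam + z - -z = -(5 * lam - 2 * z) + 8 * lam by ring,
        exp_add_8lam, mul_neg]
  · exact (s3.smul _).succ
  · exact (s0.smul _).succ

theorem TPW_Wn' (z : ℂ) :
    ∃ x y x' y', TPW 2 (WA (-z) x y) (WB (-z) x' y') (fun v => Wn (3 * lam - v - z)) := by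
  have s0 := sinm (f := fun v => 3 * lam - v - z) (3 * lam - z) (fun v => by ring)
  have s3 := sinp (f := fun v => 3 * lam - (3 * lam - v - z)) z (fun v => by ring)
  have s2 := sinp (f := fun v => 2 * lam - (3 * lam - v - z)) (z - lam) (fun v => by ring)
  have s1 := sinm (f := fun v => 3 * lam - v - z - lam) (2 * lam - z) (fun v => by ring)
  refine ⟨_, _, _, _, ⟨?_, ?_, ?_, s2.mul s3, s0.mul s1⟩⟩
  · refine (s0.mul s3).cast ?_ ?_
    · show _ = dp (-z)
      rw [am_mul_ap, dp, show z - (3 * lam - z) = (5 * lam - 2 * -z) - 8 * lam by ring,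
        exp_sub_8lam]
    · show _ = dm (-z)
      rw [ap_mul_am, dm, show 3 * lam - z - z = -(5 * lam - 2 * -z) + 8 * lam by ring,
        exp_add_8lam, mul_neg]
  · exact (s3.smul _).succ
  · exact (s0.smul _).succ

end Pool.Agent.EXL.Fm
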