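import Pool.Agent.EXL.FormTP

/-!
# Operators whose weights are trigonometric polynomials of the rapidity of the auxiliary line

Polynomial forms of the rhombus operator and of the two caps, with their effect on the degree and
on the two extreme coefficients.
-/

namespace Pool.Agent.EXL.Fm

open Polynomial Complex Pat

variable {α : Type*} [DecidableEq α]

/-- The rhombus operator with a general weight `w₀` of the empty rhombus. -/
def R6 {K : Type*} [CommRing K] (w₀ : K) (w : Wt K) (i j : α) (F : Pat α → K) : Pat α → K := fun p =>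
  if p i = i then
    if p j = j then w₀ * F p + w.u2 * F (cup i j p)
    else w.v * F p + w.u1 * F (swap i j p)
  else if p j = j then w.v * F p + w.u1 * F (swap i j p)
  else if p i = j then w.w1 * F p
  else w.w1 * F (swap i j p) + w.u2 * F (cut i j p) + w.w2 * F (cup i j (cut i j p))

/-- Multiplication of the weights by a scalar. -/
def _root_.Pool.Agent.EXL.Wt.sc {K : Type*} [CommRing K] (c : K) (w : Wt K) : Wt K :=
  ⟨c * w.v, c * w.u1, c * w.u2, c * w.w1, c * w.w2⟩

theorem R6_eq {K : Type*} [CommRing K] (c : K) (w : Wt K) (i j : α) (F : Pat α → K) (p : Pat α) :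
    R6 c (w.sc c) i j F p = c * R w i j F p := by
  simp only [R6, R, Wt.sc]; split_ifs <;> ring

theorem R6_smul {K : Type*} [CommRing K] (c w₀ : K) (w : Wt K) (i j : α) (F : Pat α → K) :
    R6 w₀ w i j (fun p => c * F p) = fun p => c * R6 w₀ w i j F p := by
  funext p; simp only [R6]; split_ifs <;> ring

/-- A family of functions of states whose values are trigonometric polynomials. -/
def TPF (m : ℕ) (A B : Pat α → ℂ) (G : ℂ → Pat α → ℂ) : Prop :=
  ∀ p, TP m (A p) (B p) (fun v => G v p)

/-- A family of weights that are trigonometric polynomials. -/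
structure TPW (m : ℕ) (A B : Wt ℂ) (w : ℂ → Wt ℂ) : Prop where
  v : TP m A.v B.v (fun t => (w t).v)
  u1 : TP m A.u1 B.u1 (fun t => (w t).u1)
  u2 : TP m A.u2 B.u2 (fun t => (w t).u2)
  w1 : TP m A.w1 B.w1 (fun t => (w t).w1)
  w2 : TP m A.w2 B.w2 (fun t => (w t).w2)

theorem TPF.R6 {m n : ℕ} {a b : ℂ} {A B : Wt ℂ} {w₀ : ℂ → ℂ} {w : ℂ → Wt ℂ}
    {X Y : Pat α → ℂ} {G : ℂ → Pat α → ℂ} (h0 : TP m a b w₀) (hw : TPW m A B w)
    (hG : TPF n X Y G) (i j : α) :
    TPF (m + n) (Fm.R6 a A i j X) (Fm.R6 b B i j Y) (fun t => Fm.R6 (w₀ t) (w t) i j (G t)) := by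
  intro p
  by_cases h1 : p i = i
  · by_cases h2 : p j = j
    · simp only [Fm.R6, h1, h2, if_true]
      exact (h0.mul (hG p)).add (hw.u2.mul (hG _))
    · simp only [Fm.R6, h1, h2, if_true, if_false]
      exact (hw.v.mul (hG p)).add (hw.u1.mul (hG _))
  · by_cases h2 : p j = j
    · simp only [Fm.R6, h1, h2, if_true, if_false]
      exact (hw.v.mul (hG p)).add (hw.u1.mul (hG _))
    · by_cases h3 : p i = j
      · simp only [Fm.R6, h1, h2, h3, if_true, if_false]
        have h4 : j ≠ i := by rw [← h3]; exact h1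
        simp only [h4, if_false]
        exact hw.w1.mul (hG p)
      · simp only [Fm.R6, h1, h2, h3, if_false]
        exact ((hw.w1.mul (hG _)).add (hw.u2.mul (hG _))).add (hw.w2.mul (hG _))

/-- Bottom cap with a general weight of the empty cap. -/
def bot3 {K : Type*} [CommRing K] (c κ k : K) (i j b : α) (F : Pat α → K) : Pat α → K := fun p =>
  if p i = i then
    if p j = j then
      if p b = b then c * F p + κ * F (cup i j p) + k * (F (cup i b p) + F (cup j b p))
      else c * F p + κ * F (cup i j p)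
    else 0
  else 0

/-- Top cap with a general weight of the empty cap. -/
def top3 {K : Type*} [CommRing K] (c κ k : K) (i j t : α) (F : Pat α → K) : Pat α → K := fun p =>
  if p i = i then
    if p j = j then c * F p
    else if p t = t then k * F (swap j t p) else 0
  else if p j = j then (if p t = t then k * F (swap i t p) else 0)
  else if p i = j then 0
  else κ * F (cut i j p)

theorem bot3_eq {K : Type*} [CommRing K] (c κ k : K) (i j b : α) (F : Pat α → K) (p : Pat α) :
    bot3 c (c * κ) (c * k) i j b F p = c * bot κ k i j b F p := by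
  simp only [bot3, bot]; split_ifs <;> ring

theorem top3_eq {K : Type*} [CommRing K] (c κ k : K) (i j t : α) (F : Pat α → K) (p : Pat α) :
    top3 c (c * κ) (c * k) i j t F p = c * top κ k i j t F p := by
  simp only [top3, top]; split_ifs <;> ring

theorem bot3_smul {K : Type*} [CommRing K] (d c κ k : K) (i j b : α) (F : Pat α → K) :
    bot3 c κ k i j b (fun p => d * F p) = fun p => d * bot3 c κ k i j b F p := by
  funext p; simp only [bot3]; split_ifs <;> ring

theorem TPF.top3 {m n : ℕ} {a b a' b' a'' b'' : ℂ} {c κ k : ℂ → ℂ}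
    {X Y : Pat α → ℂ} {G : ℂ → Pat α → ℂ} (hc : TP m a b c) (hκ : TP m a' b' κ)
    (hk : TP m a'' b'' k) (hG : TPF n X Y G) (i j t : α) :
    TPF (m + n) (Fm.top3 a a' a'' i j t X) (Fm.top3 b b' b'' i j t Y)
      (fun s => Fm.top3 (c s) (κ s) (k s) i j t (G s)) := by
  have hz : TP (m + n) 0 0 (fun _ : ℂ => (0 : ℂ)) := TP.zero
  intro p
  by_cases h1 : p i = i <;> by_cases h2 : p j = j <;> by_cases h3 : p t = t <;>
    by_cases h4 : p i = j <;> simp only [Fm.top3, h1, h2, h3, if_true, if_false]
  all_goals first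
    | exact hz
    | exact hc.mul (hG _)
    | exact hk.mul (hG _)
    | exact hκ.mul (hG _)
    | skip
  all_goals first
    | (simp only [h4, if_true, if_false]; exact hz)
    | (simp only [h4, if_true, if_false]; exact hκ.mul (hG _))
    | skip

theorem TPF.bot3 {m n : ℕ} {a b a' b' a'' b'' : ℂ} {c κ k : ℂ → ℂ}
    {X Y : Pat α → ℂ} {G : ℂ → Pat α → ℂ} (hc : TP m a b c) (hκ : TP m a' b' κ)
    (hk : TP m a'' b'' k) (hG : TPF n X Y G) (i j t : α) :
    TPF (m + n) (Fm.bot3 a a' a'' i j t X) (Fm.bot3 b b' b'' i j t Y)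
      (fun s => Fm.bot3 (c s) (κ s) (k s) i j t (G s)) := by
  have hz : TP (m + n) 0 0 (fun _ : ℂ => (0 : ℂ)) := TP.zero
  intro p
  by_cases h1 : p i = i <;> by_cases h2 : p j = j <;> by_cases h3 : p t = t <;>
    simp only [Fm.bot3, h1, h2, h3, if_true, if_false]
  all_goals first
    | exact hz
    | exact ((hc.mul (hG _)).add (hκ.mul (hG _))).add (hk.mul ((hG _).add (hG _)))
    | exact (hc.mul (hG _)).add (hκ.mul (hG _))

end Pool.Agent.EXL.Fm
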