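import Pool.Agent.EXL.FormM
import Pool.Agent.EXL.Comm

/-!
# Parity: the shift of the rapidity by `π`
-/

namespace Pool.Agent.EXL.Fm

open Polynomial Complex Pat

variable {α : Type*} [DecidableEq α]

/-- The sign `-1` if the site is occupied. -/
noncomputable def chi (a : α) (p : Pat α) : ℂ := if p a = a then 1 else -1

theorem chi_e {a : α} {p : Pat α} (h : p a = a) : chi a p = 1 := if_pos h

theorem chi_o {a : α} {p : Pat α} (h : p a ≠ a) : chi a p = -1 := if_neg h

section
variable {i j o : α} (p : Pat α)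

theorem chi_cup_out (h1 : o ≠ i) (h2 : o ≠ j) : chi o (cup i j p) = chi o p := by
  simp only [chi, cup_out p h1 h2]

theorem chi_cut_out (h1 : o ≠ i) (h2 : o ≠ j) : chi o (cut i j p) = chi o p := by
  simp only [chi, cut_fix_out p h1 h2]

theorem chi_swap_out (h1 : o ≠ i) (h2 : o ≠ j) : chi o (swap i j p) = chi o p := by
  simp only [chi, swap_eq_out p h1 h2 h1 h2]

theorem chi_cup_l (h0 : i ≠ j) (h1 : p i = i) (h2 : p j = j) : chi i (cup i j p) = -1 := by
  apply chi_o
  simp [cup, h1, h2, h0.symm]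

theorem chi_cup_r (h0 : i ≠ j) (h1 : p i = i) (h2 : p j = j) : chi j (cup i j p) = -1 := by
  apply chi_o
  simp [cup, h1, h2, h0, h0.symm]

theorem chi_cut_l (h0 : i ≠ j) (h1 : p i ≠ i) (h2 : p j ≠ j) (h3 : p i ≠ j) :
    chi i (cut i j p) = 1 := by
  apply chi_e
  simp [cut, h0, h1, h2, h3]

theorem chi_cut_r (h0 : i ≠ j) (h1 : p i ≠ i) (h2 : p j ≠ j) (h3 : p i ≠ j) :
    chi j (cut i j p) = 1 := by
  apply chi_e
  simp [cut, h0, h0.symm, h1, h2, h3]

theorem swap_l_eq : swap i j p i = i ↔ p j = j := by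
  simp only [swap, Equiv.swap_apply_left]
  constructor
  · intro h
    have := congrArg (Equiv.swap i j) h
    simpa using this
  · intro h; rw [h, Equiv.swap_apply_right]

theorem swap_r_eq : swap i j p j = j ↔ p i = i := by
  simp only [swap, Equiv.swap_apply_right]
  constructor
  · intro h
    have := congrArg (Equiv.swap i j) h
    simpa using this
  · intro h; rw [h, Equiv.swap_apply_left]

theorem chi_swap_l : chi i (swap i j p) = chi j p := by
  simp only [chi, swap_l_eq]

theorem chi_swap_r : chi j (swap i j p) = chi i p := by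
  simp only [chi, swap_r_eq]

end

/-- The weights at rapidity `u + π`. -/
def _root_.Pool.Agent.EXL.Wt.par {K : Type*} [CommRing K] (w : Wt K) : Wt K := ⟨w.v, -w.u1, -w.u2, w.w1, w.w2⟩

theorem Dn_add_pi (u : ℂ) : Dn (u + Real.pi) = Dn u := by
  rw [Dn, Dn, ← add_assoc, ← add_assoc, sin_add_pi, sin_add_pi]; ring

theorem Dn_sub_pi (u : ℂ) : Dn (u - Real.pi) = Dn u := by
  rw [← Dn_add_pi (u - Real.pi), sub_add_cancel]

theorem Wn_add_pi (u : ℂ) : Wn (u + Real.pi) = (Wn u).par := by
  have e1 : sin (3 * lam - (u + Real.pi)) = - sin (3 * lam - u) := by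
    rw [show 3 * lam - (u + Real.pi) = (3 * lam - u) - Real.pi by ring, sin_sub_pi]
  have e2 : sin (2 * lam - (u + Real.pi)) = - sin (2 * lam - u) := by
    rw [show 2 * lam - (u + Real.pi) = (2 * lam - u) - Real.pi by ring, sin_sub_pi]
  have e3 : sin (u + Real.pi - lam) = - sin (u - lam) := by
    rw [show u + Real.pi - lam = (u - lam) + Real.pi by ring, sin_add_pi]
  simp only [Wn, Wt.par, e1, e2, e3, sin_add_pi]
  congr 1 <;> ring

theorem Wn_sub_pi (u : ℂ) : Wn (u - Real.pi) = (Wn u).par := by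
  have h := Wn_add_pi (u - Real.pi)
  rw [sub_add_cancel] at h
  rw [h]
  simp [Wt.par]

/-- The column keeps the parity of the two auxiliary lines. -/
theorem R6_chi {w₀ : ℂ} {w : Wt ℂ} {l r j : α} (hlr : l ≠ r) (hlj : l ≠ j) (hrj : r ≠ j)
    {G G' : Pat α → ℂ} (h : ∀ p, G' p = chi l p * chi r p * G p) (p : Pat α) :
    R6 w₀ w.par l j G' p = chi l p * chi r p * R6 w₀ w l j G p := by
  have hrl := hlr.symm
  by_cases h1 : p l = l
  · by_cases h2 : p j = j
    · simp only [R6, h1, h2, if_true, h, Wt.par, chi_cup_l p hlj h1 h2, chi_cup_out p hrl hrj,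
        chi_e h1]
      ring
    · simp only [R6, h1, h2, if_true, if_false, h, Wt.par, chi_swap_l, chi_swap_out p hrl hrj,
        chi_e h1, chi_o h2]
      ring
  · by_cases h2 : p j = j
    · simp only [R6, h1, h2, if_true, if_false, h, Wt.par, chi_swap_l, chi_swap_out p hrl hrj,
        chi_o h1, chi_e h2]
      ring
    · by_cases h3 : p l = j
      · simp only [R6, h1, h2, h3, if_true, if_false, h, Wt.par, chi_o h1]
        simp only [hlj.symm, if_false]
        ring
      · have c1 := chi_cut_l p hlj h1 h2 h3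
        have c2 : chi l (cup l j (cut l j p)) = -1 := by
          apply chi_cup_l _ hlj
          · by_contra hh; rw [chi_o hh] at c1; norm_num at c1
          · have c3 := chi_cut_r p hlj h1 h2 h3
            by_contra hh; rw [chi_o hh] at c3; norm_num at c3
        simp only [R6, h1, h2, h3, if_false, h, Wt.par, chi_swap_l, chi_swap_out p hrl hrj,
          chi_o h1, chi_o h2, c1, c2, chi_cut_out p hrl hrj, chi_cup_out _ hrl hrj]
        ring

theorem M6_chi {w₀ w₀' : α → ℂ} {w w' : α → Wt ℂ} {l r : α} {L : List α} (hlr : l ≠ r)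
    (hl : l ∉ L) (hr : r ∉ L) (h0 : ∀ j ∈ L, w₀' j = w₀ j) (hw : ∀ j ∈ L, w' j = (w j).par)
    {G G' : Pat α → ℂ} (h : ∀ p, G' p = chi l p * chi r p * G p) (p : Pat α) :
    M6 w₀' w' l L G' p = chi l p * chi r p * M6 w₀ w l L G p := by
  induction L generalizing p with
  | nil => exact h p
  | cons j L ih =>
    have ih' := ih (fun e => hl (by simp [e])) (fun e => hr (by simp [e]))
      (fun k hk => h0 k (by simp [hk])) (fun k hk => hw k (by simp [hk]))
    rw [M6, M6, h0 j (by simp), hw j (by simp)]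
    exact R6_chi hlr (fun e => hl (by simp [e])) (fun e => hr (by simp [e])) ih' p

theorem top3_chi {c κ k : ℂ} {l r t : α} (hlr : l ≠ r) (hlt : l ≠ t) (hrt : r ≠ t)
    {F : Pat α → ℂ} (p : Pat α) :
    top3 (-c) (-κ) k l r t F p = -(chi l p * chi r p * top3 c κ k l r t F p) := by
  by_cases h1 : p l = l
  · by_cases h2 : p r = r
    · simp only [top3, h1, h2, if_true, chi_e h1, chi_e h2]; ring
    · by_cases h3 : p t = t
      · simp only [top3, h1, h2, h3, if_true, if_false, chi_e h1, chi_o h2]; ring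
      · simp only [top3, h1, h2, h3, if_true, if_false, chi_e h1, chi_o h2]; ring
  · by_cases h2 : p r = r
    · by_cases h3 : p t = t
      · simp only [top3, h1, h2, h3, if_true, if_false, chi_o h1, chi_e h2]; ring
      · simp only [top3, h1, h2, h3, if_true, if_false, chi_o h1, chi_e h2]; ring
    · by_cases h3 : p l = r
      · simp only [top3, h1, h2, h3, if_true, if_false, chi_o h1, chi_o h2]
        simp only [hlr.symm, if_false]; ring
      · simp only [top3, h1, h2, h3, if_false, chi_o h1, chi_o h2]; ring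

theorem bot3_chi {c κ k : ℂ} {l r b : α} (hlr : l ≠ r) (hlb : l ≠ b) (hrb : r ≠ b)
    {G G' : Pat α → ℂ} (h : ∀ p, G' p = -(chi l p * chi r p * G p)) (p : Pat α) :
    bot3 (-c) (-κ) k l r b G' p = bot3 c κ k l r b G p := by
  by_cases h1 : p l = l
  · by_cases h2 : p r = r
    · have e1 : chi l (cup r b p) = 1 := by
        rw [chi_cup_out p hlr hlb, chi_e h1]
      have e2 : chi r (cup l b p) = 1 := by
        rw [chi_cup_out p hlr.symm hrb, chi_e h2]
      by_cases h3 : p b = b
      · simp only [bot3, h1, h2, h3, if_true, h, chi_e h1, chi_e h2, chi_cup_l p hlr h1 h2,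
          chi_cup_r p hlr h1 h2, chi_cup_l p hlb h1 h3, chi_cup_l p hrb h2 h3, e1, e2]
        ring
      · simp only [bot3, h1, h2, h3, if_true, if_false, h, chi_e h1, chi_e h2,
          chi_cup_l p hlr h1 h2, chi_cup_r p hlr h1 h2]
        ring
    · simp [bot3, h1, h2]
  · simp [bot3, h1]

end Pool.Agent.EXL.Fm
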