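import Pool.Agent.EXL.Ops

/-!
# Trigonometric polynomials with their two extreme coefficients

`TP m a b g`: `g v * e^{imv}` is a polynomial in `e^{iv}` of degree at most `2m` with coefficient
`a` of degree `2m` and constant coefficient `b`.
-/

namespace Pool.Agent.EXL.Fm

open Polynomial Complex

/-- Trigonometric polynomials of degree at most `m` (in `e^{iv}`) with their two extreme
coefficients. -/
def TP (m : ℕ) (a b : ℂ) (g : ℂ → ℂ) : Prop :=
  ∃ P : ℂ[X], P.natDegree ≤ 2 * m ∧ P.coeff (2 * m) = a ∧ P.coeff 0 = b ∧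
    ∀ v, g v * exp (I * v) ^ m = P.eval (exp (I * v))

namespace TP

variable {m n : ℕ} {a b c d : ℂ} {f g : ℂ → ℂ}

theorem add (hf : TP m a b f) (hg : TP m c d g) : TP m (a + c) (b + d) (fun v => f v + g v) := by
  obtain ⟨P, h1, h2, h3, h4⟩ := hf
  obtain ⟨Q, k1, k2, k3, k4⟩ := hg
  refine ⟨P + Q, (natDegree_add_le_of_degree_le h1 k1), ?_, ?_, fun v => ?_⟩
  · simp [h2, k2]
  · simp [h3, k3]
  · rw [add_mul, h4, k4, eval_add]

theorem mul (hf : TP m a b f) (hg : TP n c d g) :
    TP (m + n) (a * c) (b * d) (fun v => f v * g v) := by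
  obtain ⟨P, h1, h2, h3, h4⟩ := hf
  obtain ⟨Q, k1, k2, k3, k4⟩ := hg
  refine ⟨P * Q, ?_, ?_, ?_, fun v => ?_⟩
  · exact (natDegree_mul_le).trans (by omega)
  · rw [mul_add, coeff_mul_add_eq_of_natDegree_le h1 k1, h2, k2]
  · rw [mul_coeff_zero, h3, k3]
  · rw [eval_mul, ← h4, ← k4, pow_add]; ring

theorem const (a : ℂ) : TP 0 a a (fun _ => a) :=
  ⟨C a, by simp, by simp, by simp, fun v => by simp⟩

theorem smul (c : ℂ) (hf : TP m a b f) : TP m (c * a) (c * b) (fun v => c * f v) := by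
  have := (const c).mul hf
  rwa [zero_add] at this

theorem zero : TP m 0 0 (fun _ => 0) :=
  ⟨0, by simp, by simp, by simp, fun v => by simp⟩

theorem neg (hf : TP m a b f) : TP m (-a) (-b) (fun v => - f v) := by
  have := hf.smul (-1)
  simpa using this

theorem sub (hf : TP m a b f) (hg : TP m c d g) : TP m (a - c) (b - d) (fun v => f v - g v) := by
  have := hf.add hg.neg
  simpa [sub_eq_add_neg] using this

theorem succ (hf : TP m a b f) : TP (m + 1) 0 0 f := by
  obtain ⟨P, h1, h2, h3, h4⟩ := hf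
  refine ⟨P * X, ?_, ?_, ?_, fun v => ?_⟩
  · exact (natDegree_mul_le).trans (by rw [natDegree_X]; omega)
  · rw [show 2 * (m + 1) = (2 * m + 1) + 1 by ring, coeff_mul_X]
    exact coeff_eq_zero_of_natDegree_lt (by omega)
  · simp
  · rw [eval_mul, ← h4, eval_X, pow_succ]; ring

theorem congr (hf : TP m a b f) (h : ∀ v, f v = g v) : TP m a b g := by
  have : f = g := funext h
  rwa [← this]

theorem cast {a' b' : ℂ} (hf : TP m a b f) (ha : a = a') (hb : b = b') : TP m a' b' f := by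
  rwa [← ha, ← hb]

/-- `sin (v + c)`. -/
theorem sin_add (c : ℂ) : TP 1 (exp (I * c) / (2 * I)) (-(exp (-(I * c))) / (2 * I))
    (fun v => sin (v + c)) := by
  refine ⟨C (exp (I * c) / (2 * I)) * X ^ 2 + C (-(exp (-(I * c))) / (2 * I)), ?_, ?_, ?_, ?_⟩
  · refine (natDegree_add_le _ _).trans (max_le ?_ ?_)
    · exact (natDegree_C_mul_X_pow_le _ _)
    · simp
  · simp [coeff_C]
  · simp
  · intro v
    simp only [eval_add, eval_mul, eval_C, eval_pow, eval_X]
    have h : exp (I * v) ≠ 0 := exp_ne_zero _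
    have e1 : exp ((v + c) * I) = exp (I * v) * exp (I * c) := by rw [← exp_add]; ring_nf
    have e2 : exp (-(v + c) * I) = (exp (I * v))⁻¹ * exp (-(I * c)) := by
      rw [← exp_neg, ← exp_add]; ring_nf
    rw [Complex.sin, e1, e2, pow_one]
    have hI : (I : ℂ) ≠ 0 := I_ne_zero
    field_simp
    ring_nf
    rw [I_sq]
    ring

/-- `sin (c - v)`. -/
theorem sin_sub (c : ℂ) : TP 1 (-(exp (-(I * c))) / (2 * I)) (exp (I * c) / (2 * I))
    (fun v => sin (c - v)) := by
  have h := (sin_add (-c)).neg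
  refine (h.congr fun v => ?_).cast ?_ ?_
  · rw [← Complex.sin_neg]; ring_nf
  · rw [mul_neg]; ring
  · rw [mul_neg, neg_neg]; ring

end TP

end Pool.Agent.EXL.Fm
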