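import Pool.Agent.EXL.Form

/-!
# The form of `b(v)` in the variable `e^{2iv}`
-/

namespace Pool.Agent.EXL.Fm

open Polynomial Complex Pat

variable {α : Type*} [DecidableEq α]

/-- The denominator of one row in the variable `w = e^{2iv}`. -/
noncomputable def fz (z w : ℂ) : ℂ :=
  (w - exp (2 * I * (z - 2 * lam))) * (w - exp (2 * I * (z - 3 * lam))) *
    (w - exp (2 * I * (5 * lam - z))) * (w - exp (2 * I * (6 * lam - z)))

theorem fac (a v : ℂ) : 2 * I * sin (v - a) * exp (I * v) =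
    exp (-(I * a)) * (exp (2 * I * v) - exp (2 * I * a)) := by
  have e1 : exp (I * (v - a)) * exp (I * v) = exp (-(I * a)) * exp (2 * I * v) := by
    rw [← exp_add, ← exp_add]; congr 1; ring
  have e2 : exp (-(I * (v - a))) * exp (I * v) = exp (-(I * a)) * exp (2 * I * a) := by
    rw [← exp_add, ← exp_add]; congr 1; ring
  rw [two_I_sin]
  linear_combination e1 - e2

theorem fac2 (a v : ℂ) : exp (2 * I * v) - exp (2 * I * a) =
    2 * I * sin (v - a) * exp (I * v) * exp (I * a) := by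
  have e : exp (-(I * a)) * exp (I * a) = 1 := by rw [← exp_add, neg_add_cancel, exp_zero]
  rw [fac]
  linear_combination (-(exp (2 * I * v) - exp (2 * I * a))) * e

theorem fz_eq (z v : ℂ) : fz z (exp (2 * I * v)) =
    (16 * exp (I * (6 * lam))) * (Dn (v - z) * Dn (3 * lam - v - z) * exp (2 * I * v) ^ 2) := by
  have e1 : Dn (3 * lam - v - z) = sin (v - (5 * lam - z)) * sin (v - (6 * lam - z)) := by
    rw [Dn, show 2 * lam + (3 * lam - v - z) = -(v - (5 * lam - z)) by ring,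
      show 3 * lam + (3 * lam - v - z) = -(v - (6 * lam - z)) by ring, sin_neg, sin_neg]
    ring
  have e2 : Dn (v - z) = sin (v - (z - 2 * lam)) * sin (v - (z - 3 * lam)) := by
    rw [Dn]; congr 2 <;> ring
  have e3 : exp (I * (z - 2 * lam)) * exp (I * (z - 3 * lam)) * exp (I * (5 * lam - z)) *
      exp (I * (6 * lam - z)) = exp (I * (6 * lam)) := by
    rw [← exp_add, ← exp_add, ← exp_add]; congr 1; ring
  have e4 : exp (2 * I * v) = exp (I * v) ^ 2 := by
    rw [← exp_nat_mul]; congr 1; push_cast; ring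
  have hI : I ^ 4 = 1 := by rw [show I ^ 4 = (I ^ 2) ^ 2 by ring, I_sq]; norm_num
  rw [fz, fac2, fac2, fac2, fac2, e1, e2, ← e3, e4]
  linear_combination (16 * sin (v - (z - 2 * lam)) * sin (v - (z - 3 * lam)) *
    sin (v - (5 * lam - z)) * sin (v - (6 * lam - z)) * exp (I * v) ^ 4 *
    (exp (I * (z - 2 * lam)) * exp (I * (z - 3 * lam)) * exp (I * (5 * lam - z)) *
      exp (I * (6 * lam - z)))) * hI

theorem caps_eq (v : ℂ) : (exp (2 * I * v) - exp (-(I * (3 * lam)))) *
    (exp (2 * I * v) - exp (I * (9 * lam))) =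
    (4 * exp (I * (3 * lam))) * (Sc (3 * lam - v) * Sc v * exp (2 * I * v)) := by
  have e1 : exp (-(I * (3 * lam))) = exp (2 * I * (-(3 * lam / 2))) := by congr 1; ring
  have e2 : exp (I * (9 * lam)) = exp (2 * I * (9 * lam / 2)) := by congr 1; ring
  have e3 : exp (I * (-(3 * lam / 2))) * exp (I * (9 * lam / 2)) = exp (I * (3 * lam)) := by
    rw [← exp_add]; congr 1; ring
  have e4 : exp (2 * I * v) = exp (I * v) ^ 2 := by
    rw [← exp_nat_mul]; congr 1; push_cast; ring
  have e5 : Sc (3 * lam - v) = - sin (v - 9 * lam / 2) := by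
    rw [Sc, ← sin_neg]; congr 1; ring
  have e6 : Sc v = sin (v - (-(3 * lam / 2))) := by
    rw [Sc]; congr 1; ring
  rw [e1, e2, fac2, fac2, e5, e6, ← e3, e4]
  linear_combination (4 * sin (v - (-(3 * lam / 2))) * sin (v - 9 * lam / 2) * exp (I * v) ^ 2 *
    (exp (I * (-(3 * lam / 2))) * exp (I * (9 * lam / 2)))) * I_sq

theorem prod_fz (z : α → ℂ) (L : List α) (v : ℂ) :
    (L.map fun j => fz (z j) (exp (2 * I * v))).prod =
      (16 * exp (I * (6 * lam))) ^ L.length * ((L.map fun j => Dn (v - z j)).prod *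
        (L.map fun j => Dn (3 * lam - v - z j)).prod * exp (2 * I * v) ^ (2 * L.length)) := by
  induction L with
  | nil => simp
  | cons j L ih =>
    rw [List.map_cons, List.prod_cons, ih, fz_eq, List.length_cons, List.map_cons,
      List.prod_cons, List.map_cons, List.prod_cons]
    ring

/-- The denominator of `b` as a polynomial in `w = e^{2iv}`. -/
noncomputable def dz (z : α → ℂ) (L : List α) (w : ℂ) : ℂ :=
  (w - exp (-(I * (3 * lam)))) * (w - exp (I * (9 * lam))) * (L.map fun j => fz (z j) w).prod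

theorem dz_eq (z : α → ℂ) (L : List α) (v : ℂ) : dz z L (exp (2 * I * v)) =
    (4 * exp (I * (3 * lam)) * (16 * exp (I * (6 * lam))) ^ L.length) *
      (den z L v * exp (2 * I * v) ^ (2 * L.length + 1)) := by
  rw [dz, caps_eq, prod_fz, den]; ring

/-- If `dz` does not vanish, no denominator of `T(v)` vanishes. -/
theorem ne_of_dz {z : α → ℂ} {L : List α} {v : ℂ} (h : dz z L (exp (2 * I * v)) ≠ 0) :
    Sc v ≠ 0 ∧ Sc (3 * lam - v) ≠ 0 ∧ (∀ j ∈ L, Dn (v - z j) ≠ 0) ∧
      (∀ j ∈ L, Dn (3 * lam - v - z j) ≠ 0) := by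
  rw [dz, caps_eq] at h
  have h1 := left_ne_zero_of_mul h
  have h2 := right_ne_zero_of_mul h
  have h3 := left_ne_zero_of_mul (right_ne_zero_of_mul h1)
  have h4 : ∀ j ∈ L, fz (z j) (exp (2 * I * v)) ≠ 0 := by
    intro j hj h0
    exact h2 (List.prod_eq_zero (List.mem_map.2 ⟨j, hj, h0⟩))
  refine ⟨right_ne_zero_of_mul h3, left_ne_zero_of_mul h3, fun j hj => ?_, fun j hj => ?_⟩
  · have := h4 j hj
    rw [fz_eq] at this
    exact left_ne_zero_of_mul (left_ne_zero_of_mul (right_ne_zero_of_mul this))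
  · have := h4 j hj
    rw [fz_eq] at this
    exact right_ne_zero_of_mul (left_ne_zero_of_mul (right_ne_zero_of_mul this))

theorem dz_ne {z : α → ℂ} {L : List α} {v : ℂ} (h1 : Sc v ≠ 0) (h2 : Sc (3 * lam - v) ≠ 0)
    (h3 : ∀ j ∈ L, Dn (v - z j) ≠ 0) (h4 : ∀ j ∈ L, Dn (3 * lam - v - z j) ≠ 0) :
    dz z L (exp (2 * I * v)) ≠ 0 := by
  rw [dz, caps_eq]
  refine mul_ne_zero (mul_ne_zero (mul_ne_zero (by norm_num) (exp_ne_zero _))
    (mul_ne_zero (mul_ne_zero h2 h1) (exp_ne_zero _))) ?_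
  intro h0
  rw [List.prod_eq_zero_iff, List.mem_map] at h0
  obtain ⟨j, hj, h5⟩ := h0
  rw [fz_eq] at h5
  exact (mul_ne_zero (mul_ne_zero (by norm_num) (exp_ne_zero _))
    (mul_ne_zero (mul_ne_zero (h3 j hj) (h4 j hj)) (pow_ne_zero _ (exp_ne_zero _)))) h5

/-- **(F1), (F2)**: the form of `b` in the variable `w = e^{2iv}`. -/
theorem b_form_z {z : α → ℂ} {l r b t : α} {L : List α} {F : Pat α → ℂ}
    (hlr : l ≠ r) (hlb : l ≠ b) (hlt : l ≠ t) (hrb : r ≠ b) (hrt : r ≠ t) (hbt : b ≠ t)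
    (hl : l ∉ L) (hr : r ∉ L) (hb : b ∉ L) (hF : F (full b t) = 1) :
    ∃ P : ℂ[X], P.natDegree ≤ 4 * L.length + 4 ∧
      P.coeff (4 * L.length + 4) = 2 * exp (-(I * (3 * lam))) ∧
      P.coeff 0 = 2 * exp (I * (9 * lam)) * exp (I * (12 * lam)) ^ L.length ∧
      ∀ v : ℂ, dz z L (exp (2 * I * v)) ≠ 0 →
        Tv z l r b t L v F Pat.empty * (exp (2 * I * v) * dz z L (exp (2 * I * v))) =
          P.eval (exp (2 * I * v)) := by
  obtain ⟨P, h1, h2, h3, h4⟩ := b_form (z := z) hlr hlb hlt hrb hrt hbt hl hr hb hF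
  set c : ℂ := 4 * exp (I * (3 * lam)) * (16 * exp (I * (6 * lam))) ^ L.length with hc
  refine ⟨C c * P, (natDegree_C_mul_le _ _).trans h1, ?_, ?_, ?_⟩
  · rw [coeff_C_mul, h2, hc]
    have e1 : (16 * exp (I * (6 * lam))) ^ L.length * (exp (I * (10 * lam)) / 16) ^ L.length = 1 := by
      rw [← mul_pow, show 16 * exp (I * (6 * lam)) * (exp (I * (10 * lam)) / 16) =
        exp (I * (6 * lam)) * exp (I * (10 * lam)) by ring, ← exp_add,
        show I * (6 * lam) + I * (10 * lam) = I * (8 * lam + 8 * lam) by ring, exp_add_8lam,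
        exp_8lam, neg_neg, one_pow]
    have e2 : exp (I * (3 * lam)) * exp (-(I * (6 * lam))) = exp (-(I * (3 * lam))) := by
      rw [← exp_add]; congr 1; ring
    rw [show 4 * exp (I * (3 * lam)) * (16 * exp (I * (6 * lam))) ^ L.length *
      (exp (-(I * (6 * lam))) / 2 * (exp (I * (10 * lam)) / 16) ^ L.length) =
      2 * (exp (I * (3 * lam)) * exp (-(I * (6 * lam)))) *
      ((16 * exp (I * (6 * lam))) ^ L.length * (exp (I * (10 * lam)) / 16) ^ L.length) by ring,
      e1, e2, mul_one]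
  · rw [coeff_C_mul, h3, hc]
    have e1 : (16 * exp (I * (6 * lam))) ^ L.length * (exp (-(I * (10 * lam))) / 16) ^ L.length =
        exp (I * (12 * lam)) ^ L.length := by
      rw [← mul_pow, show 16 * exp (I * (6 * lam)) * (exp (-(I * (10 * lam))) / 16) =
        exp (I * (6 * lam)) * exp (-(I * (10 * lam))) by ring, ← exp_add,
        show I * (6 * lam) + -(I * (10 * lam)) = I * ((12 * lam - 8 * lam) - 8 * lam) by ring,
        exp_sub_8lam, exp_sub_8lam, neg_neg]
    have e2 : exp (I * (3 * lam)) * exp (I * (6 * lam)) = exp (I * (9 * lam)) := by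
      rw [← exp_add]; congr 1; ring
    rw [show 4 * exp (I * (3 * lam)) * (16 * exp (I * (6 * lam))) ^ L.length *
      (exp (I * (6 * lam)) / 2 * (exp (-(I * (10 * lam))) / 16) ^ L.length) =
      2 * (exp (I * (3 * lam)) * exp (I * (6 * lam))) *
      ((16 * exp (I * (6 * lam))) ^ L.length * (exp (-(I * (10 * lam))) / 16) ^ L.length) by ring,
      e1, e2]
  · intro v hv
    obtain ⟨c1, c2, c3, c4⟩ := ne_of_dz hv
    rw [eval_mul, eval_C, ← h4 v c1 c2 c3 c4, dz_eq, hc]
    ring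

end Pool.Agent.EXL.Fm
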