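import Pool.Agent.EXL.Ops

/-!
# Relabelling of patterns (front maps) and formal evaluation of local operators
-/

namespace Pool.Agent.EXL

open Pat

variable {α β K : Type*} [DecidableEq α] [DecidableEq β] [CommRing K]

/-! ### Front maps -/

/-- The embedding of the sites of the column operators into the labels, everything else is empty. -/
def femb (κ : β → α) (h : Function.Injective κ) : Pat.Emb β α := ⟨κ, h, Pat.empty, fun b => ⟨b, rfl⟩⟩

/-- The pattern on the labels that corresponds to the pattern `q` on the sites. -/
noncomputable def lft (κ : β → α) (h : Function.Injective κ) (q : Pat β) : Pat α := (femb κ h).st q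

omit [DecidableEq α] [DecidableEq β] in
@[simp] theorem lft_apply (κ : β → α) (h : Function.Injective κ) (q : Pat β) (b : β) :
    lft κ h q (κ b) = κ (q b) := Emb.st_apply (femb κ h) q b

omit [DecidableEq α] [DecidableEq β] in
theorem lft_of_notMem (κ : β → α) (h : Function.Injective κ) (q : Pat β) {x : α}
    (hx : ¬ ∃ b, κ b = x) : lft κ h q x = x := Emb.st_apply' (femb κ h) q hx

omit [DecidableEq α] [DecidableEq β] in
theorem lft_congr {κ κ' : β → α} (h : Function.Injective κ) (h' : Function.Injective κ') {q : Pat β}
    (H : ∀ b, q b ≠ b → κ b = κ' b) : lft κ h q = lft κ' h' q := by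
  have key : ∀ {κ κ' : β → α} (h : Function.Injective κ) (h' : Function.Injective κ'),
      (∀ b, q b ≠ b → κ b = κ' b) → ∀ x, lft κ h q x = lft κ' h' q x := by
    intro κ κ' h h' H x
    by_cases hx : ∃ b, κ b = x
    · obtain ⟨b, rfl⟩ := hx
      rw [lft_apply]
      by_cases hb : q b = b
      · rw [hb]
        by_cases hx' : ∃ b', κ' b' = κ b
        · obtain ⟨b', hb'⟩ := hx'
          rw [← hb', lft_apply]
          by_cases hq : q b' = b'
          · rw [hq]
          · have := H b' hq
            rw [hb'] at this
            exact absurd (h this ▸ hb) hq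
        · rw [lft_of_notMem κ' h' q hx']
      · rw [H b hb, lft_apply]
        exact H _ (fun h2 => hb (by rw [q.inv] at h2; exact h2.symm))
    · rw [lft_of_notMem κ h q hx]
      by_cases hx' : ∃ b', κ' b' = x
      · obtain ⟨b', hb'⟩ := hx'
        rw [← hb', lft_apply]
        by_cases hq : q b' = b'
        · rw [hq]
        · exact absurd ⟨b', (H b' hq).trans hb'⟩ hx
      · rw [lft_of_notMem κ' h' q hx']
  exact Pat.ext (funext (key h h' H))

omit [DecidableEq β] in
theorem swap_lft (κ : β → α) (h : Function.Injective κ) (q : Pat β) (r n : α) :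
    swap r n (lft κ h q) = lft (fun b => Equiv.swap r n (κ b))
      ((Equiv.swap r n).injective.comp h) q := by
  ext x
  show Equiv.swap r n (lft κ h q (Equiv.swap r n x)) = _
  by_cases hx : ∃ b, κ b = Equiv.swap r n x
  · obtain ⟨b, hb⟩ := hx
    rw [← hb, lft_apply]
    have h1 : x = (fun b => Equiv.swap r n (κ b)) b := by
      show x = Equiv.swap r n (κ b)
      rw [hb, Equiv.swap_apply_self]
    rw [h1, lft_apply]
  · rw [lft_of_notMem κ h q hx, Equiv.swap_apply_self, lft_of_notMem]
    rintro ⟨b, hb⟩
    exact hx ⟨b, by rw [← hb, Equiv.swap_apply_self]⟩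

theorem R_lft (w : Wt K) (κ : β → α) (h : Function.Injective κ) (i j : β) (F : Pat α → K)
    (q : Pat β) : R w (κ i) (κ j) F (lft κ h q) = R w i j (fun q => F (lft κ h q)) q :=
  R_st w (femb κ h) i j F q

theorem cup_lft (κ : β → α) (h : Function.Injective κ) (q : Pat β) (i j : β) :
    cup (κ i) (κ j) (lft κ h q) = lft κ h (cup i j q) := Emb.st_cup (femb κ h) q i j

theorem bc_lft (κ : β → α) (h : Function.Injective κ) (c b : β) (F : Pat α → K)
    (q : Pat β) : bc (κ c) (κ b) F (lft κ h q) = bc c b (fun q => F (lft κ h q)) q :=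
  bc_st (femb κ h) F q c b

theorem tc_lft (κ : β → α) (h : Function.Injective κ) (c b : β) (F : Pat α → K)
    (q : Pat β) : tc (κ c) (κ b) F (lft κ h q) = tc c b (fun q => F (lft κ h q)) q :=
  tc_st (femb κ h) F q c b

/-! ### Formal evaluation: operators whose coefficients are powers of `x` -/

/-- Formal operators: lists of (exponent, new pattern). -/
abbrev FOp (β : Type*) := Pat β → List (ℕ × Pat β)

/-- Evaluation of a formal sum. -/
def ev (x : K) (F : Pat β → K) (l : List (ℕ × Pat β)) : K := (l.map (fun a => x ^ a.1 * F a.2)).sum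

/-- `a` describes the operator `A`. -/
def Rep (x : K) (a : FOp β) (A : (Pat β → K) → (Pat β → K)) : Prop := ∀ F p, A F p = ev x F (a p)

/-- Composition of formal operators. -/
def fcomp (a b : FOp β) : FOp β := fun p =>
  (a p).flatMap (fun u => (b u.2).map (fun v => (u.1 + v.1, v.2)))

omit [DecidableEq β] in
theorem ev_flatMap (x : K) (F : Pat β → K) (b : FOp β) (l : List (ℕ × Pat β)) :
    ev x F (l.flatMap (fun u => (b u.2).map (fun v => (u.1 + v.1, v.2)))) =
      ev x (fun p => ev x F (b p)) l := by
  induction l with
  | nil => rfl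
  | cons u l ih =>
    unfold ev at ih ⊢
    rw [List.flatMap_cons, List.map_append, List.sum_append, ih, List.map_cons, List.sum_cons]
    congr 1
    rw [← List.sum_map_mul_left, List.map_map]
    congr 1
    apply List.map_congr_left
    intro v _
    simp only [Function.comp]
    rw [pow_add]
    ring

omit [DecidableEq β] in
theorem Rep.comp {x : K} {a b : FOp β} {A B : (Pat β → K) → (Pat β → K)} (ha : Rep x a A)
    (hb : Rep x b B) : Rep x (fcomp a b) (fun F => A (B F)) := by
  intro F p
  show A (B F) p = _
  rw [ha, fcomp, ev_flatMap]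
  congr 1
  funext q
  exact hb F q

omit [DecidableEq β] in
theorem ev_perm (x : K) (F : Pat β → K) {l l' : List (ℕ × Pat β)} (h : l.Perm l') :
    ev x F l = ev x F l' := (h.map _).sum_eq

end Pool.Agent.EXL
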