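import Mathlib

/-!
# Global operator identities from the local ones

Words are read from the floor to the top: in a product `x * y` the factor `x` acts first on the
connectivity states (`x * y` is the composition of the operators on functions of states).
`Ops` is an abstract system of site labelled local operators, `Laws` the list of the local
identities; the theorems below are the commutation of the auxiliary double column with the
ordinary column, crossing, the trivial points, row exchange, inversion and fusion.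
-/

namespace Pool.Agent.EXL.Glob

/-- Abstract site labelled operators. `l` is `π / 8`, `h` is `3 l / 2`, `p = π`, `q = π / 2`,
`Z i` is the sign `-1` when the site `i` is occupied. -/
structure Ops (A ι G : Type*) where
  l : G
  h : G
  R : ι → ι → G → A
  P : ι → ι → A
  E : ι → A
  b : ι → ι → G → A
  t : ι → ι → G → A
  bc : ι → A
  tc : ι → A
  glue : ι → ι → A
  U : ι → ι → A
  Y : ι → ι → A
  Yt : ι → ι → A
  Z : ι → A
  p : G
  q : G

variable {A ι G : Type*} [Monoid A] [AddCommGroup G]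

/-- The local identities. `ok u`: the denominator of `R _ _ u` does not vanish; `okK v`: the
denominator of `K v` does not vanish. -/
structure Laws (S : Ops A ι G) (ok okK : G → Prop) : Prop where
  hh : S.h + S.h = S.l + S.l + S.l
  /- commutation of operators with disjoint supports -/
  cRR : ∀ {i j k m : ι} {u w : G}, i ≠ k → i ≠ m → j ≠ k → j ≠ m → Commute (S.R i j u) (S.R k m w)
  cRP : ∀ {i j k m : ι} {u : G}, i ≠ k → i ≠ m → j ≠ k → j ≠ m → Commute (S.R i j u) (S.P k m)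
  cRb : ∀ {i j k m : ι} {u v : G}, i ≠ k → i ≠ m → j ≠ k → j ≠ m → Commute (S.R i j u) (S.b k m v)
  cRt : ∀ {i j k m : ι} {u v : G}, i ≠ k → i ≠ m → j ≠ k → j ≠ m → Commute (S.R i j u) (S.t k m v)
  cRglue : ∀ {i j k m : ι} {u : G}, i ≠ k → i ≠ m → j ≠ k → j ≠ m → Commute (S.R i j u) (S.glue k m)
  cRU : ∀ {i j k m : ι} {u : G}, i ≠ k → i ≠ m → j ≠ k → j ≠ m → Commute (S.R i j u) (S.U k m)
  cRY : ∀ {i j k m : ι} {u : G}, i ≠ k → i ≠ m → j ≠ k → j ≠ m → Commute (S.R i j u) (S.Y k m)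
  cRYt : ∀ {i j k m : ι} {u : G}, i ≠ k → i ≠ m → j ≠ k → j ≠ m → Commute (S.R i j u) (S.Yt k m)
  cRbc : ∀ {i j k : ι} {u : G}, i ≠ k → j ≠ k → Commute (S.R i j u) (S.bc k)
  cRtc : ∀ {i j k : ι} {u : G}, i ≠ k → j ≠ k → Commute (S.R i j u) (S.tc k)
  cRE : ∀ {i j k : ι} {u : G}, i ≠ k → j ≠ k → Commute (S.R i j u) (S.E k)
  cbt : ∀ {i j k m : ι} {u v : G}, i ≠ k → i ≠ m → j ≠ k → j ≠ m → Commute (S.b i j u) (S.t k m v)
  cbtc : ∀ {i j k : ι} {u : G}, i ≠ k → j ≠ k → Commute (S.b i j u) (S.tc k)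
  cbbc : ∀ {i j k : ι} {u : G}, i ≠ k → j ≠ k → Commute (S.b i j u) (S.bc k)
  cbE : ∀ {i j k : ι} {u : G}, i ≠ k → j ≠ k → Commute (S.b i j u) (S.E k)
  cbY : ∀ {i j k m : ι} {u : G}, i ≠ k → i ≠ m → j ≠ k → j ≠ m → Commute (S.b i j u) (S.Y k m)
  cbYt : ∀ {i j k m : ι} {u : G}, i ≠ k → i ≠ m → j ≠ k → j ≠ m → Commute (S.b i j u) (S.Yt k m)
  ctbc : ∀ {i j k : ι} {u : G}, i ≠ k → j ≠ k → Commute (S.t i j u) (S.bc k)
  cttc : ∀ {i j k : ι} {u : G}, i ≠ k → j ≠ k → Commute (S.t i j u) (S.tc k)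
  ctE : ∀ {i j k : ι} {u : G}, i ≠ k → j ≠ k → Commute (S.t i j u) (S.E k)
  ctglue : ∀ {i j k m : ι} {u : G}, i ≠ k → i ≠ m → j ≠ k → j ≠ m →
    Commute (S.t i j u) (S.glue k m)
  cbctc : ∀ {i j : ι}, i ≠ j → Commute (S.bc i) (S.tc j)
  cglueE : ∀ {i j k : ι}, i ≠ k → j ≠ k → Commute (S.glue i j) (S.E k)
  cYtYt : ∀ {i j k m : ι}, i ≠ k → i ≠ m → j ≠ k → j ≠ m → Commute (S.Yt i j) (S.Yt k m)
  cEE : ∀ {i j : ι}, Commute (S.E i) (S.E j)
  cRZ : ∀ {i j k : ι} {u : G}, i ≠ k → j ≠ k → Commute (S.R i j u) (S.Z k)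
  cZZ : ∀ {i j : ι}, Commute (S.Z i) (S.Z j)
  /- symmetry and empty sites -/
  Rs : ∀ {i j : ι} {u : G}, S.R i j u = S.R j i u
  Ps : ∀ {i j : ι}, S.P i j = S.P j i
  bs : ∀ {i j : ι} {u : G}, S.b i j u = S.b j i u
  ts : ∀ {i j : ι} {u : G}, S.t i j u = S.t j i u
  gs : ∀ {i j : ι}, S.glue i j = S.glue j i
  EE : ∀ {i : ι}, S.E i * S.E i = S.E i
  Eb : ∀ {i j : ι} {v : G}, S.E i * S.b i j v = S.b i j v
  tE : ∀ {i j : ι} {v : G}, S.t i j v * S.E i = S.t i j v
  Ebc : ∀ {i : ι}, S.E i * S.bc i = S.bc i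
  tcE : ∀ {i : ι}, S.tc i * S.E i = S.tc i
  glueE : ∀ {i j : ι}, S.glue i j * S.E i = S.glue i j
  EU : ∀ {i j : ι}, S.E i * S.U i j = S.U i j
  YtE : ∀ {i j : ι}, S.Yt i j * S.E j = S.Yt i j
  /- relabelling -/
  PP : ∀ {i j : ι}, i ≠ j → S.P i j * S.P i j = 1
  PE : ∀ {i j : ι}, i ≠ j → S.E i * S.E j * S.P i j = S.E i * S.E j
  PR : ∀ {i j k : ι} {u : G}, i ≠ j → i ≠ k → j ≠ k → S.P i j * S.R i k u = S.R j k u * S.P i j
  PR' : ∀ {i j : ι} {u : G}, i ≠ j → S.P i j * S.R i j u = S.R i j u * S.P i j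
  Pb : ∀ {i j k : ι} {v : G}, i ≠ j → i ≠ k → j ≠ k → S.P i j * S.b i k v = S.b j k v * S.P i j
  Pt : ∀ {i j k : ι} {v : G}, i ≠ j → i ≠ k → j ≠ k → S.P i j * S.t i k v = S.t j k v * S.P i j
  Pbc : ∀ {i j : ι}, i ≠ j → S.P i j * S.bc i = S.bc j * S.P i j
  Ptc : ∀ {i j : ι}, i ≠ j → S.P i j * S.tc i = S.tc j * S.P i j
  Pglue : ∀ {i j k : ι}, i ≠ j → i ≠ k → j ≠ k → S.P i j * S.glue i k = S.glue j k * S.P i j
  cPb : ∀ {i j k m : ι} {v : G}, i ≠ k → i ≠ m → j ≠ k → j ≠ m → Commute (S.P i j) (S.b k m v)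
  cPt : ∀ {i j k m : ι} {v : G}, i ≠ k → i ≠ m → j ≠ k → j ≠ m → Commute (S.P i j) (S.t k m v)
  cPE : ∀ {i j k : ι}, i ≠ k → j ≠ k → Commute (S.P i j) (S.E k)
  /- crossing of lines -/
  L1 : ∀ {i j : ι} {u : G}, i ≠ j → ok u → ok (-u) → S.R i j u * S.R i j (-u) = 1
  L2 : ∀ {i j k : ι} {u w : G}, i ≠ j → i ≠ k → j ≠ k → ok u → ok w → ok (u + w) →
    S.R i j u * S.R i k (u + w) * S.R j k w = S.R j k w * S.R i k (u + w) * S.R i j u
  L3 : ∀ {i j : ι}, i ≠ j → S.R i j 0 = S.P i j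
  C1 : ∀ {i j : ι} {v : G}, i ≠ j → ok (S.h + S.h - v - v) → okK v → okK (S.h + S.h - v) →
    S.R i j (S.h + S.h - v - v) * S.t i j (S.h + S.h - v) = S.t i j v
  C2 : ∀ {i j : ι} {v : G}, i ≠ j → ok (v + v - (S.h + S.h)) → okK v → okK (S.h + S.h - v) →
    S.b i j (S.h + S.h - v) * S.R i j (v + v - (S.h + S.h)) = S.b i j v
  CF : ∀ {i j c : ι} {v : G}, i ≠ j → i ≠ c → j ≠ c → ok (v - S.h) → ok (S.h - v) →
    okK (S.h + S.h - v) →
    S.bc c * S.b i j v * S.R j c (v - S.h) * S.R i c (S.h - v) = S.bc c * S.b i j v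
  CT : ∀ {i j c : ι} {v : G}, i ≠ j → i ≠ c → j ≠ c → ok (v - S.h) → ok (S.h - v) →
    okK v →
    S.R j c (v - S.h) * S.R i c (S.h - v) * S.t i j v * S.tc c = S.t i j v * S.tc c
  bh : ∀ {i j : ι}, i ≠ j → S.b i j S.h = S.bc j * S.bc i
  th : ∀ {i j : ι}, i ≠ j → S.t i j S.h = S.tc j * S.tc i
  CU : ∀ {i j r : ι} {u : G}, i ≠ j → i ≠ r → j ≠ r → ok u → ok (S.h + S.h + u) →
    S.R j r u * S.R i r (S.h + S.h + u) * S.glue i j = S.glue i j
  CU2 : ∀ {i j r : ι} {u : G}, i ≠ j → i ≠ r → j ≠ r → ok u → ok (S.h + S.h + u) →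
    S.U i j * S.R j r (S.h + S.h + u) * S.R i r u = S.U i j
  t0 : ∀ {i j : ι}, i ≠ j → S.t i j 0 = S.glue i j
  b0 : ∀ {i j : ι}, i ≠ j → S.b i j 0 * S.glue i j = S.E i * S.E j
  R3 : ∀ {i j : ι}, i ≠ j → S.R i j (S.h + S.h) = S.glue i j * S.U i j
  /- `i j = l r`, `i' j' = l' r'` -/
  FI : ∀ {i j i' j' : ι} {v : G}, i ≠ j → i ≠ i' → i ≠ j' → j ≠ i' → j ≠ j' → i' ≠ j' →
    okK v → okK (-v) → okK (S.h + S.h - v) → okK (S.h + S.h + v) →
    S.b i j (S.h + S.h - v) * S.b i' j' (S.h + S.h + v) * S.glue j' j = S.E j * S.E j' * S.U i' i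
  TI : ∀ {i n i' j' : ι} {v : G}, i ≠ n → i ≠ i' → i ≠ j' → n ≠ i' → n ≠ j' → i' ≠ j' →
    okK v → okK (-v) → okK (S.h + S.h + v) → ok (-v - v) →
    S.E j' * S.U i' i * S.t i n v * S.U j' n * S.R i' n (-v - v) * S.t i' j' (S.h + S.h + v)
      = S.E i * S.E i' * S.E j'
  R2 : ∀ {i j : ι}, i ≠ j → S.R i j (S.l + S.l) = S.Yt i j * S.Y i j
  B1 : ∀ {i j r : ι} {w : G}, i ≠ j → i ≠ r → j ≠ r → ok w → ok (w + S.l) → ok (w + S.l + S.l) →
    S.Y i j * S.R i r (w + S.l + S.l) * S.R j r w = S.R i r (w + S.l) * S.Y i j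
  B2 : ∀ {i j r : ι} {w : G}, i ≠ j → i ≠ r → j ≠ r → ok w → ok (w + S.l) → ok (w + S.l + S.l) →
    S.R j r w * S.R i r (w + S.l + S.l) * S.Yt i j = S.Yt i j * S.R i r (w + S.l)
  Y3 : ∀ {i n i' j' : ι} {v : G}, i ≠ n → i ≠ i' → i ≠ j' → n ≠ i' → n ≠ j' → i' ≠ j' →
    okK v → okK (v + S.l + S.l) → okK (v + S.l) → ok (S.l - v - v) →
    S.Y j' n * S.R i' n (S.l - v - v) * S.t i' j' (v + S.l + S.l) * S.t i n v
      = S.E n * (S.Yt i i' * S.t i j' (v + S.l))
  Y4 : ∀ {i j i' j' : ι} {v : G}, i ≠ j → i ≠ i' → i ≠ j' → j ≠ i' → j ≠ j' → i' ≠ j' →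
    okK v → okK (S.l - v) → okK (S.l + S.l - v) → ok (S.l + S.l - v - v) →
    S.b i' j' (v + S.l + S.l) * S.b i j (S.h + S.h - v) * S.Yt i i'
      = S.E i' * S.b i j' (v + S.l) * S.Y j' j * S.R i j (S.l + S.l - v - v)
  Y5 : ∀ {i n r : ι}, i ≠ n → i ≠ r → n ≠ r →
    S.E r * S.R i n S.l = S.Y i r * S.Yt i n * S.P r n
  /- periodicity -/
  qq : S.q + S.q = S.p
  ZZ : ∀ {i : ι}, S.Z i * S.Z i = 1
  Rp : ∀ {i j : ι} {u : G}, i ≠ j → S.R i j (u + S.p) = S.Z i * S.R i j u * S.Z i
  bp : ∀ {i j : ι} {v : G}, i ≠ j → S.b i j (v + S.p) * (S.Z i * S.Z j) = S.b i j v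
  tp : ∀ {i j : ι} {v : G}, i ≠ j → S.Z i * S.Z j * S.t i j (v + S.p) = S.t i j v
  tq : ∀ {i j : ι}, i ≠ j → S.Z i * S.t i j S.q = S.glue i j
  bq : ∀ {i j : ι}, i ≠ j → S.b i j S.q * S.Z i * S.glue i j = S.E i * S.E j

namespace Ops

variable (S : Ops A ι G)

/-- The line `a` with parameter `w` crosses the rows of the list (from the floor to the top). -/
def M (z : ι → G) (a : ι) (w : G) (rows : List ι) : A :=
  (rows.map fun j => S.R a j (w - z j)).prod

/-- The auxiliary double column. -/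
def T (z : ι → G) (i j : ι) (v : G) (rows : List ι) : A :=
  S.b i j v * S.M z j v rows * S.M z i (S.h + S.h - v) rows * S.t i j v

/-- The ordinary column. -/
def C (z : ι → G) (c : ι) (rows : List ι) : A :=
  S.bc c * S.M z c S.h rows * S.tc c

@[simp] theorem M_nil (z : ι → G) (a : ι) (w : G) : S.M z a w [] = 1 := rfl

@[simp] theorem M_cons (z : ι → G) (a : ι) (w : G) (r : ι) (rows : List ι) :
    S.M z a w (r :: rows) = S.R a r (w - z r) * S.M z a w rows := rfl

theorem M_append (z : ι → G) (a : ι) (w : G) (rows rows' : List ι) :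
    S.M z a w (rows ++ rows') = S.M z a w rows * S.M z a w rows' := by
  induction rows with
  | nil => simp
  | cons r rows ih => simp [ih, mul_assoc]

theorem M_commute {z : ι → G} {a : ι} {w : G} {rows : List ι} {x : A}
    (H : ∀ r ∈ rows, Commute (S.R a r (w - z r)) x) : Commute (S.M z a w rows) x := by
  induction rows with
  | nil => exact Commute.one_left x
  | cons r rows ih =>
    rw [M_cons]
    exact (H r (by simp)).mul_left (ih fun q hq => H q (by simp [hq]))

end Ops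

namespace Laws

variable {S : Ops A ι G} {ok okK : G → Prop} (L : Laws S ok okK) {z : ι → G}
include L

/-! ### Commutation of a line with other operators -/

section comm
variable {a : ι} {w : G} {rows : List ι}

theorem cMR {k m : ι} {u : G} (h1 : a ≠ k) (h2 : a ≠ m) (h3 : k ∉ rows) (h4 : m ∉ rows) :
    Commute (S.M z a w rows) (S.R k m u) :=
  S.M_commute fun _ hr => L.cRR h1 h2 (fun e => h3 (e ▸ hr)) (fun e => h4 (e ▸ hr))

theorem cMP {k m : ι} (h1 : a ≠ k) (h2 : a ≠ m) (h3 : k ∉ rows) (h4 : m ∉ rows) :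
    Commute (S.M z a w rows) (S.P k m) :=
  S.M_commute fun _ hr => L.cRP h1 h2 (fun e => h3 (e ▸ hr)) (fun e => h4 (e ▸ hr))

theorem cMb {k m : ι} {v : G} (h1 : a ≠ k) (h2 : a ≠ m) (h3 : k ∉ rows) (h4 : m ∉ rows) :
    Commute (S.M z a w rows) (S.b k m v) :=
  S.M_commute fun _ hr => L.cRb h1 h2 (fun e => h3 (e ▸ hr)) (fun e => h4 (e ▸ hr))

theorem cMt {k m : ι} {v : G} (h1 : a ≠ k) (h2 : a ≠ m) (h3 : k ∉ rows) (h4 : m ∉ rows) :
    Commute (S.M z a w rows) (S.t k m v) :=
  S.M_commute fun _ hr => L.cRt h1 h2 (fun e => h3 (e ▸ hr)) (fun e => h4 (e ▸ hr))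

theorem cMglue {k m : ι} (h1 : a ≠ k) (h2 : a ≠ m) (h3 : k ∉ rows) (h4 : m ∉ rows) :
    Commute (S.M z a w rows) (S.glue k m) :=
  S.M_commute fun _ hr => L.cRglue h1 h2 (fun e => h3 (e ▸ hr)) (fun e => h4 (e ▸ hr))

theorem cMU {k m : ι} (h1 : a ≠ k) (h2 : a ≠ m) (h3 : k ∉ rows) (h4 : m ∉ rows) :
    Commute (S.M z a w rows) (S.U k m) :=
  S.M_commute fun _ hr => L.cRU h1 h2 (fun e => h3 (e ▸ hr)) (fun e => h4 (e ▸ hr))

theorem cMY {k m : ι} (h1 : a ≠ k) (h2 : a ≠ m) (h3 : k ∉ rows) (h4 : m ∉ rows) :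
    Commute (S.M z a w rows) (S.Y k m) :=
  S.M_commute fun _ hr => L.cRY h1 h2 (fun e => h3 (e ▸ hr)) (fun e => h4 (e ▸ hr))

theorem cMYt {k m : ι} (h1 : a ≠ k) (h2 : a ≠ m) (h3 : k ∉ rows) (h4 : m ∉ rows) :
    Commute (S.M z a w rows) (S.Yt k m) :=
  S.M_commute fun _ hr => L.cRYt h1 h2 (fun e => h3 (e ▸ hr)) (fun e => h4 (e ▸ hr))

theorem cMbc {k : ι} (h1 : a ≠ k) (h3 : k ∉ rows) : Commute (S.M z a w rows) (S.bc k) :=
  S.M_commute fun _ hr => L.cRbc h1 (fun e => h3 (e ▸ hr))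

theorem cMtc {k : ι} (h1 : a ≠ k) (h3 : k ∉ rows) : Commute (S.M z a w rows) (S.tc k) :=
  S.M_commute fun _ hr => L.cRtc h1 (fun e => h3 (e ▸ hr))

theorem cME {k : ι} (h1 : a ≠ k) (h3 : k ∉ rows) : Commute (S.M z a w rows) (S.E k) :=
  S.M_commute fun _ hr => L.cRE h1 (fun e => h3 (e ▸ hr))

end comm

/-! ### Two lines through the rows -/

/-- Two lines cross the rows one after the other: the rows one by one. -/
theorem M_M {a b : ι} {w w' : G} {r : ι} {rows : List ι} (hab : a ≠ b) (har : a ≠ r)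
    (hr : r ∉ rows) (hb : b ∉ rows) :
    S.M z a w (r :: rows) * S.M z b w' (r :: rows) =
      S.R a r (w - z r) * S.R b r (w' - z r) * (S.M z a w rows * S.M z b w' rows) := by
  have h := L.cMR (z := z) (w := w) (u := w' - z r) hab har hb hr
  rw [Ops.M_cons, Ops.M_cons, mul_assoc, ← mul_assoc (S.M z a w rows), h.eq]
  simp only [mul_assoc]

/-- The RTT relation. -/
theorem RTT {a b : ι} {w w' : G} {rows : List ι} (hab : a ≠ b) (ha : a ∉ rows) (hb : b ∉ rows)
    (hn : rows.Nodup) (h0 : ok (w - w')) (h1 : ∀ r ∈ rows, ok (w - z r))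
    (h2 : ∀ r ∈ rows, ok (w' - z r)) :
    S.M z b w' rows * S.M z a w rows * S.R a b (w - w') =
      S.R a b (w - w') * (S.M z a w rows * S.M z b w' rows) := by
  induction rows with
  | nil => simp
  | cons r rows ih =>
    rw [List.nodup_cons] at hn
    have har : a ≠ r := fun e => ha (by simp [e])
    have hbr : b ≠ r := fun e => hb (by simp [e])
    have ha' : a ∉ rows := fun e => ha (by simp [e])
    have hb' : b ∉ rows := fun e => hb (by simp [e])
    have ih := ih ha' hb' hn.2 (fun q hq => h1 q (by simp [hq])) (fun q hq => h2 q (by simp [hq]))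
    rw [L.M_M (a := b) (b := a) hab.symm hbr hn.1 ha', L.M_M (a := a) (b := b) hab har hn.1 hb']
    have e : w - z r = (w - w') + (w' - z r) := by abel
    have yb := L.L2 (i := a) (j := b) (k := r) (u := w - w') (w := w' - z r) hab har hbr h0
      (h2 r (by simp)) (by rw [← e]; exact h1 r (by simp))
    rw [← e] at yb
    calc S.R b r (w' - z r) * S.R a r (w - z r) * (S.M z b w' rows * S.M z a w rows) *
          S.R a b (w - w')
        = S.R b r (w' - z r) * S.R a r (w - z r) * (S.M z b w' rows * S.M z a w rows *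
          S.R a b (w - w')) := by simp only [mul_assoc]
      _ = S.R b r (w' - z r) * S.R a r (w - z r) * S.R a b (w - w') *
          (S.M z a w rows * S.M z b w' rows) := by rw [ih]; simp only [mul_assoc]
      _ = _ := by rw [← yb]; simp only [mul_assoc]

/-! ### G1: commutation of the double column with the ordinary column -/

theorem comm {i j c : ι} {v : G} {rows : List ι} (hij : i ≠ j) (hic : i ≠ c) (hjc : j ≠ c)
    (hi : i ∉ rows) (hj : j ∉ rows) (hc : c ∉ rows) (hn : rows.Nodup)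
    (k1 : ok (v - S.h)) (k2 : ok (S.h - v)) (k3 : okK v) (k4 : okK (S.h + S.h - v))
    (h1 : ∀ r ∈ rows, ok (v - z r)) (h2 : ∀ r ∈ rows, ok (S.h + S.h - v - z r))
    (h3 : ∀ r ∈ rows, ok (S.h - z r)) :
    S.C z c rows * S.T z i j v rows = S.T z i j v rows * S.C z c rows := by
  set Mj := S.M z j v rows with hMj
  set Mi := S.M z i (S.h + S.h - v) rows with hMi
  set Mc := S.M z c S.h rows with hMc
  set b := S.b i j v with hb
  set t := S.t i j v with ht
  set x := S.R j c (v - S.h) with hx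
  set y := S.R i c (S.h - v) with hy
  have e1 : Mc * Mj * x = x * (Mj * Mc) :=
    L.RTT hjc hj hc hn k1 h1 h3
  have e2 : Mc * Mi * y = y * (Mi * Mc) := by
    have e : S.h + S.h - v - S.h = S.h - v := by abel
    have := L.RTT (z := z) (a := i) (b := c) (w := S.h + S.h - v) (w' := S.h) (rows := rows)
      hic hi hc hn (by rw [e]; exact k2) h2 h3
    rw [e] at this
    exact this
  have e3 : S.bc c * b * x * y = S.bc c * b := L.CF hij hic hjc k1 k2 k4
  have e4 : x * y * t * S.tc c = t * S.tc c := L.CT hij hic hjc k1 k2 k3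
  have c1 : S.tc c * b = b * S.tc c := (L.cbtc hic hjc).eq.symm
  have c2 : Mc * b = b * Mc := (L.cMb hic.symm hjc.symm hi hj).eq
  have c3 : S.tc c * Mj = Mj * S.tc c := (L.cMtc hjc hc).eq.symm
  have c4 : S.tc c * Mi = Mi * S.tc c := (L.cMtc hic hc).eq.symm
  have c5 : S.tc c * t = t * S.tc c := (L.cttc hic hjc).eq.symm
  have c6 : t * S.bc c = S.bc c * t := (L.ctbc hic hjc).eq
  have c7 : t * Mc = Mc * t := (L.cMt hic.symm hjc.symm hi hj).eq.symm
  have c8 : Mj * S.bc c = S.bc c * Mj := (L.cMbc hjc hc).eq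
  have c9 : Mi * S.bc c = S.bc c * Mi := (L.cMbc hic hc).eq
  have c10 : b * S.bc c = S.bc c * b := (L.cbbc hic hjc).eq
  have c11 : y * Mj = Mj * y := (L.cMR hij.symm hjc hi hc).eq.symm
  have c12 : x * Mi = Mi * x := (L.cMR hij hic hj hc).eq.symm
  have lhs : S.C z c rows * S.T z i j v rows = S.bc c * b * (Mc * (Mj * (Mi * (t * S.tc c)))) := by
    calc S.bc c * Mc * S.tc c * (b * Mj * Mi * t)
        = S.bc c * (Mc * ((S.tc c * b) * Mj * Mi * t)) := by simp only [mul_assoc]
      _ = S.bc c * ((Mc * b) * ((S.tc c * Mj) * Mi * t)) := by rw [c1]; simp only [mul_assoc]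
      _ = S.bc c * (b * Mc * (Mj * (S.tc c * Mi) * t)) := by rw [c2, c3]; simp only [mul_assoc]
      _ = S.bc c * (b * Mc * (Mj * Mi * (S.tc c * t))) := by rw [c4]; simp only [mul_assoc]
      _ = _ := by rw [c5]; simp only [mul_assoc]
  have rhs : S.T z i j v rows * S.C z c rows = S.bc c * b * (Mj * (Mi * (Mc * (t * S.tc c)))) := by
    calc b * Mj * Mi * t * (S.bc c * Mc * S.tc c)
        = b * Mj * Mi * ((t * S.bc c) * Mc * S.tc c) := by simp only [mul_assoc]
      _ = b * Mj * (Mi * S.bc c) * ((t * Mc) * S.tc c) := by rw [c6]; simp only [mul_assoc]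
      _ = b * (Mj * S.bc c) * Mi * (Mc * t * S.tc c) := by rw [c9, c7]; simp only [mul_assoc]
      _ = (b * S.bc c) * Mj * Mi * (Mc * t * S.tc c) := by rw [c8]; simp only [mul_assoc]
      _ = _ := by rw [c10]; simp only [mul_assoc]
  rw [lhs, rhs]
  calc S.bc c * b * (Mc * (Mj * (Mi * (t * S.tc c))))
      = S.bc c * b * (Mc * Mj * Mi * (x * y * t * S.tc c)) := by rw [e4]; simp only [mul_assoc]
    _ = S.bc c * b * (Mc * Mj * (Mi * x) * y * (t * S.tc c)) := by simp only [mul_assoc]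
    _ = S.bc c * b * ((Mc * Mj * x) * Mi * y * (t * S.tc c)) := by
        rw [← c12]; simp only [mul_assoc]
    _ = S.bc c * b * (x * Mj * (Mc * Mi * y) * (t * S.tc c)) := by rw [e1]; simp only [mul_assoc]
    _ = S.bc c * b * (x * (Mj * y) * Mi * Mc * (t * S.tc c)) := by rw [e2]; simp only [mul_assoc]
    _ = (S.bc c * b * x * y) * (Mj * Mi * Mc * (t * S.tc c)) := by
        rw [← c11]; simp only [mul_assoc]
    _ = _ := by rw [e3]; simp only [mul_assoc]

/-! ### G2: crossing -/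

theorem cross {i j : ι} {v : G} {rows : List ι} (hij : i ≠ j)
    (hi : i ∉ rows) (hj : j ∉ rows) (hn : rows.Nodup)
    (k1 : ok (v + v - (S.h + S.h))) (k3 : okK v) (k4 : okK (S.h + S.h - v))
    (h1 : ∀ r ∈ rows, ok (v - z r)) (h2 : ∀ r ∈ rows, ok (S.h + S.h - v - z r)) :
    S.T z j i (S.h + S.h - v) rows = S.T z i j v rows := by
  have e0 : S.h + S.h - (S.h + S.h - v) = v := by abel
  have e2 : v - (S.h + S.h - v) = v + v - (S.h + S.h) := by abel
  have e5 : S.h + S.h - (S.h + S.h - v) - (S.h + S.h - v) = v + v - (S.h + S.h) := by abel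
  have rtt := L.RTT (z := z) (a := j) (b := i) (w := v) (w' := S.h + S.h - v) (rows := rows)
    hij.symm hj hi hn (by rw [e2]; exact k1) h1 h2
  rw [e2] at rtt
  have c1 := L.C1 (i := i) (j := j) (v := S.h + S.h - v) hij (by rw [e5]; exact k1) k4
    (by rw [e0]; exact k3)
  rw [e5, e0] at c1
  have c2 := L.C2 (i := i) (j := j) (v := v) hij k1 k3 k4
  unfold Ops.T
  rw [e0, L.bs (i := j) (j := i), L.ts (i := j) (j := i), ← c1, L.Rs (i := i) (j := j)]
  rw [L.Rs (i := i) (j := j)] at c2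
  rw [← c2]
  calc S.b i j (S.h + S.h - v) * S.M z i (S.h + S.h - v) rows * S.M z j v rows *
        (S.R j i (v + v - (S.h + S.h)) * S.t i j v)
      = S.b i j (S.h + S.h - v) * (S.M z i (S.h + S.h - v) rows * S.M z j v rows *
        S.R j i (v + v - (S.h + S.h))) * S.t i j v := by simp only [mul_assoc]
    _ = _ := by rw [rtt]; simp only [mul_assoc]

/-! ### G3: the double column at `v = h` is a pair of ordinary columns -/

theorem T_h {i j : ι} {rows : List ι} (hij : i ≠ j) (hi : i ∉ rows) (hj : j ∉ rows) :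
    S.T z i j S.h rows = S.C z j rows * S.C z i rows := by
  have e : S.h + S.h - S.h = S.h := by abel
  have c1 : S.M z j S.h rows * S.bc i = S.bc i * S.M z j S.h rows := (L.cMbc hij.symm hi).eq
  have c2 : S.M z i S.h rows * S.tc j = S.tc j * S.M z i S.h rows := (L.cMtc hij hj).eq
  have c3 : S.bc i * S.tc j = S.tc j * S.bc i := (L.cbctc hij).eq
  unfold Ops.T Ops.C
  rw [e, L.bh hij, L.th hij]
  calc S.bc j * S.bc i * S.M z j S.h rows * S.M z i S.h rows * (S.tc j * S.tc i)
      = S.bc j * (S.bc i * S.M z j S.h rows) * (S.M z i S.h rows * S.tc j) * S.tc i := by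
        simp only [mul_assoc]
    _ = S.bc j * S.M z j S.h rows * (S.bc i * S.tc j) * S.M z i S.h rows * S.tc i := by
        rw [← c1, c2]; simp only [mul_assoc]
    _ = _ := by rw [c3]; simp only [mul_assoc]

/-! ### G4: the trivial point -/

theorem M_M_glue {i j : ι} {w : G} {rows : List ι} (hij : i ≠ j) (hi : i ∉ rows) (hj : j ∉ rows)
    (hn : rows.Nodup) (h1 : ∀ r ∈ rows, ok (w - z r))
    (h2 : ∀ r ∈ rows, ok (S.h + S.h + (w - z r))) :
    S.M z j w rows * S.M z i (S.h + S.h + w) rows * S.glue i j = S.glue i j := by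
  induction rows with
  | nil => simp
  | cons r rows ih =>
    rw [List.nodup_cons] at hn
    have hir : i ≠ r := fun e => hi (by simp [e])
    have hjr : j ≠ r := fun e => hj (by simp [e])
    have hi' : i ∉ rows := fun e => hi (by simp [e])
    have hj' : j ∉ rows := fun e => hj (by simp [e])
    have e : S.h + S.h + w - z r = S.h + S.h + (w - z r) := by abel
    rw [L.M_M hij.symm hjr hn.1 hi', mul_assoc, ih hi' hj' hn.2
      (fun q hq => h1 q (by simp [hq])) (fun q hq => h2 q (by simp [hq])), e]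
    exact L.CU hij hir hjr (h1 r (by simp)) (h2 r (by simp))

theorem T_zero {i j : ι} {rows : List ι} (hij : i ≠ j) (hi : i ∉ rows) (hj : j ∉ rows)
    (hn : rows.Nodup) (h1 : ∀ r ∈ rows, ok (-z r))
    (h2 : ∀ r ∈ rows, ok (S.h + S.h - z r)) :
    S.T z i j 0 rows = S.E i * S.E j := by
  have key := L.M_M_glue (z := z) (w := 0) hij hi hj hn (fun r hr => by simpa using h1 r hr)
    (fun r hr => by
      have e : S.h + S.h + (0 - z r) = S.h + S.h - z r := by abel
      rw [e]; exact h2 r hr)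
  unfold Ops.T
  rw [L.t0 hij]
  have e : S.h + S.h - 0 = S.h + S.h + 0 := by abel
  rw [e]
  calc S.b i j 0 * S.M z j 0 rows * S.M z i (S.h + S.h + 0) rows * S.glue i j
      = S.b i j 0 * (S.M z j 0 rows * S.M z i (S.h + S.h + 0) rows * S.glue i j) := by
        simp only [mul_assoc]
    _ = _ := by rw [key]; exact L.b0 hij

/-! ### G5: periodicity -/

theorem M_p {a : ι} {w : G} {rows : List ι} (ha : a ∉ rows) :
    S.M z a (w + S.p) rows = S.Z a * S.M z a w rows * S.Z a := by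
  induction rows with
  | nil => simp [L.ZZ]
  | cons r rows ih =>
    have har : a ≠ r := fun e => ha (by simp [e])
    have e : w + S.p - z r = w - z r + S.p := by abel
    rw [Ops.M_cons, Ops.M_cons, e, L.Rp har, ih (fun e => ha (by simp [e]))]
    calc S.Z a * S.R a r (w - z r) * S.Z a * (S.Z a * S.M z a w rows * S.Z a)
        = S.Z a * S.R a r (w - z r) * (S.Z a * S.Z a) * (S.M z a w rows * S.Z a) := by
          simp only [mul_assoc]
      _ = _ := by rw [L.ZZ]; simp only [mul_assoc, one_mul]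

theorem cMZ {a k : ι} {w : G} {rows : List ι} (h1 : a ≠ k) (h3 : k ∉ rows) :
    Commute (S.M z a w rows) (S.Z k) :=
  S.M_commute fun _ hr => L.cRZ h1 (fun e => h3 (e ▸ hr))

theorem M_p' {a : ι} {w : G} {rows : List ι} (ha : a ∉ rows) :
    S.M z a (w - S.p) rows = S.Z a * S.M z a w rows * S.Z a := by
  have h := L.M_p (z := z) (a := a) (w := w - S.p) ha
  rw [sub_add_cancel] at h
  rw [h]
  calc S.M z a (w - S.p) rows
      = (S.Z a * S.Z a) * S.M z a (w - S.p) rows * (S.Z a * S.Z a) := by rw [L.ZZ]; simp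
    _ = _ := by simp only [mul_assoc]

theorem T_add_p {i j : ι} {v : G} {rows : List ι} (hij : i ≠ j) (hi : i ∉ rows) (hj : j ∉ rows) :
    S.T z i j (v + S.p) rows = S.T z i j v rows := by
  have e : S.h + S.h - (v + S.p) = S.h + S.h - v - S.p := by abel
  have c1 : S.M z j v rows * S.Z i = S.Z i * S.M z j v rows := (L.cMZ hij.symm hi).eq
  have c2 : S.M z i (S.h + S.h - v) rows * S.Z j = S.Z j * S.M z i (S.h + S.h - v) rows :=
    (L.cMZ hij hj).eq
  have c3 : S.Z j * S.Z i = S.Z i * S.Z j := L.cZZ.eq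
  unfold Ops.T
  rw [e, L.M_p hj, L.M_p' hi]
  calc S.b i j (v + S.p) * (S.Z j * S.M z j v rows * S.Z j) *
        (S.Z i * S.M z i (S.h + S.h - v) rows * S.Z i) * S.t i j (v + S.p)
      = S.b i j (v + S.p) * (S.Z j * (S.M z j v rows * ((S.Z j * S.Z i) *
        S.M z i (S.h + S.h - v) rows))) * S.Z i * S.t i j (v + S.p) := by simp only [mul_assoc]
    _ = S.b i j (v + S.p) * (S.Z j * ((S.M z j v rows * S.Z i) * (S.Z j *
        S.M z i (S.h + S.h - v) rows))) * S.Z i * S.t i j (v + S.p) := by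
        rw [c3]; simp only [mul_assoc]
    _ = S.b i j (v + S.p) * ((S.Z j * S.Z i) * S.M z j v rows *
        S.M z i (S.h + S.h - v) rows) * ((S.Z j * S.Z i) * S.t i j (v + S.p)) := by
        rw [c1, ← c2]; simp only [mul_assoc]
    _ = (S.b i j (v + S.p) * (S.Z i * S.Z j)) * S.M z j v rows *
        S.M z i (S.h + S.h - v) rows * (S.Z i * S.Z j * S.t i j (v + S.p)) := by
        rw [c3]; simp only [mul_assoc]
    _ = _ := by rw [L.bp hij, L.tp hij]

theorem T_q {i j : ι} {rows : List ι} (hij : i ≠ j) (hi : i ∉ rows) (hj : j ∉ rows)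
    (hn : rows.Nodup) (h1 : ∀ r ∈ rows, ok (S.q - z r))
    (h2 : ∀ r ∈ rows, ok (S.h + S.h + (S.q - z r))) :
    S.T z i j S.q rows = S.E i * S.E j := by
  have e : S.h + S.h - S.q = S.h + S.h + S.q - S.p := by rw [← L.qq]; abel
  have key := L.M_M_glue (z := z) (w := S.q) hij hi hj hn h1 h2
  have c1 : S.M z j S.q rows * S.Z i = S.Z i * S.M z j S.q rows := (L.cMZ hij.symm hi).eq
  unfold Ops.T
  rw [e, L.M_p' hi]
  calc S.b i j S.q * S.M z j S.q rows * (S.Z i * S.M z i (S.h + S.h + S.q) rows * S.Z i) *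
        S.t i j S.q
      = S.b i j S.q * (S.M z j S.q rows * S.Z i) * (S.M z i (S.h + S.h + S.q) rows *
        (S.Z i * S.t i j S.q)) := by simp only [mul_assoc]
    _ = S.b i j S.q * S.Z i * (S.M z j S.q rows * S.M z i (S.h + S.h + S.q) rows *
        S.glue i j) := by rw [c1, L.tq hij]; simp only [mul_assoc]
    _ = _ := by rw [key]; exact L.bq hij

/-! ### The labels of the auxiliary lines are irrelevant -/

theorem E_T {i j : ι} {v : G} {rows : List ι} : S.E i * S.T z i j v rows = S.T z i j v rows := by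
  unfold Ops.T
  rw [← mul_assoc, ← mul_assoc, ← mul_assoc, L.Eb]

theorem E_T' {i j : ι} {v : G} {rows : List ι} : S.E j * S.T z i j v rows = S.T z i j v rows := by
  unfold Ops.T
  rw [← mul_assoc, ← mul_assoc, ← mul_assoc, L.bs (i := i) (j := j), L.Eb]

theorem P_M {a k : ι} {w : G} {rows : List ι} (h : a ≠ k) (ha : a ∉ rows) (hk : k ∉ rows) :
    S.P a k * S.M z a w rows = S.M z k w rows * S.P a k := by
  induction rows with
  | nil => simp
  | cons r rows ih =>
    have har : a ≠ r := fun e => ha (by simp [e])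
    have hkr : k ≠ r := fun e => hk (by simp [e])
    rw [Ops.M_cons, Ops.M_cons, ← mul_assoc, L.PR h har hkr, mul_assoc,
      ih (fun e => ha (by simp [e])) (fun e => hk (by simp [e])), mul_assoc]

theorem P_T {i j k : ι} {v : G} {rows : List ι} (hij : i ≠ j) (hik : i ≠ k) (hjk : j ≠ k)
    (hi : i ∉ rows) (hk : k ∉ rows) :
    S.P i k * S.T z i j v rows = S.T z k j v rows * S.P i k := by
  have c1 : S.P i k * S.M z j v rows = S.M z j v rows * S.P i k :=
    (L.cMP hij.symm hjk hi hk).eq.symm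
  unfold Ops.T
  calc S.P i k * (S.b i j v * S.M z j v rows * S.M z i (S.h + S.h - v) rows * S.t i j v)
      = (S.P i k * S.b i j v) * S.M z j v rows * S.M z i (S.h + S.h - v) rows * S.t i j v := by
        simp only [mul_assoc]
    _ = S.b k j v * ((S.P i k * S.M z j v rows) * S.M z i (S.h + S.h - v) rows * S.t i j v) := by
        rw [L.Pb hik hij hjk.symm]; simp only [mul_assoc]
    _ = S.b k j v * S.M z j v rows * ((S.P i k * S.M z i (S.h + S.h - v) rows) * S.t i j v) := by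
        rw [c1]; simp only [mul_assoc]
    _ = S.b k j v * S.M z j v rows * S.M z k (S.h + S.h - v) rows * (S.P i k * S.t i j v) := by
        rw [L.P_M hik hi hk]; simp only [mul_assoc]
    _ = _ := by rw [L.Pt hik hij hjk.symm]; simp only [mul_assoc]

theorem E_T_comm {i j k : ι} {v : G} {rows : List ι} (hik : i ≠ k) (hjk : j ≠ k)
    (hk : k ∉ rows) : Commute (S.T z i j v rows) (S.E k) := by
  unfold Ops.T
  exact (((L.cbE hik hjk).mul_left (L.cME hjk hk)).mul_left (L.cME hik hk)).mul_left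
    (L.ctE hik hjk)

/-- Renaming the first auxiliary line. -/
theorem T_rename {i j k : ι} {v : G} {rows : List ι} (hij : i ≠ j) (hik : i ≠ k) (hjk : j ≠ k)
    (hi : i ∉ rows) (hk : k ∉ rows) :
    S.E k * S.T z i j v rows = S.E i * S.T z k j v rows := by
  have h1 : S.E i * S.T z i j v rows = S.T z i j v rows := L.E_T
  have h2 : S.E k * S.T z k j v rows = S.T z k j v rows := L.E_T
  have h3 : S.T z k j v rows * S.E i = S.E i * S.T z k j v rows :=
    (L.E_T_comm hik.symm hij.symm hi).eq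
  have h4 : S.T z i j v rows * S.E k = S.E k * S.T z i j v rows :=
    (L.E_T_comm hik hjk hk).eq
  have h5 : S.P i k * S.T z i j v rows = S.T z k j v rows * S.P i k :=
    L.P_T hij hik hjk hi hk
  have h6 : S.E i * S.E k * S.P i k = S.E i * S.E k := L.PE hik
  have h7 : S.P i k * S.P i k = 1 := L.PP hik
  have h8 : S.E k * S.E i = S.E i * S.E k := L.cEE.eq
  have h9 : S.E i * S.E k * S.T z k j v rows = S.E i * S.T z k j v rows := by
    rw [mul_assoc, h2]
  calc S.E k * S.T z i j v rows = (S.E k * S.E i) * S.T z i j v rows := by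
        rw [mul_assoc, h1]
    _ = S.E i * S.E k * S.P i k * S.T z i j v rows := by rw [h8, h6]
    _ = S.E i * S.E k * (S.P i k * S.T z i j v rows) := by simp only [mul_assoc]
    _ = (S.E i * S.E k * S.T z k j v rows) * S.P i k := by rw [h5]; simp only [mul_assoc]
    _ = S.E i * S.T z k j v rows * S.P i k := by rw [h9]
    _ = _ := by
      have h10 : S.E k * S.T z k j v rows * S.E i = S.E i * S.T z k j v rows := by rw [h2, h3]
      have h11 : S.T z k j v rows * S.E k = S.T z k j v rows := by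
        unfold Ops.T; rw [mul_assoc, L.tE]
      calc S.E i * S.T z k j v rows * S.P i k = S.T z k j v rows * S.E i * S.P i k := by rw [h3]
        _ = (S.T z k j v rows * S.E k) * S.E i * S.P i k := by rw [h11]
        _ = S.T z k j v rows * (S.E i * S.E k * S.P i k) := by
            rw [mul_assoc, mul_assoc, ← mul_assoc (S.E k), h8]
        _ = (S.T z k j v rows * S.E k) * S.E i := by rw [h6, ← h8]; simp only [mul_assoc]
        _ = _ := by rw [h11, h3]

/-! ### G7: the row on top, at its own parameter -/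

theorem T_top {i j n : ι} {rows : List ι} (hij : i ≠ j) (hin : i ≠ n) (hjn : j ≠ n)
    (hi : i ∉ rows) (hj : j ∉ rows) (hnr : n ∉ rows) (hn : rows.Nodup)
    (k1 : ok (S.h + S.h - z n - z n)) (k3 : okK (z n)) (k4 : okK (S.h + S.h - z n))
    (h1 : ∀ r ∈ rows, ok (z n - z r)) (h2 : ∀ r ∈ rows, ok (S.h + S.h - z n - z r)) :
    S.T z i j (z n) (rows ++ [n]) =
      S.b i j (S.h + S.h - z n) * S.M z i (S.h + S.h - z n) rows * S.M z j (z n) rows *
        S.t i n (z n) * S.P j n := by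
  set w := S.h + S.h - z n - z n with hw
  have a1 : S.M z j (z n) (rows ++ [n]) = S.M z j (z n) rows * S.P j n := by
    rw [Ops.M_append, Ops.M_cons, Ops.M_nil, sub_self, L.L3 hjn, mul_one]
  have a2 : S.M z i (S.h + S.h - z n) (rows ++ [n]) =
      S.M z i (S.h + S.h - z n) rows * S.R i n w := by
    rw [Ops.M_append, Ops.M_cons, Ops.M_nil, mul_one]
  have c1 : S.P j n * S.M z i (S.h + S.h - z n) rows =
      S.M z i (S.h + S.h - z n) rows * S.P j n := (L.cMP hij hin hj hnr).eq.symm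
  have c2 : S.P j n * S.R i n w = S.R i j w * S.P j n := by
    rw [L.Ps (i := j) (j := n), L.Rs (i := i) (j := n), L.PR hjn.symm hin.symm hij.symm,
      L.Rs (i := j) (j := i)]
  have c3 : S.P j n * S.t i j (z n) = S.t i n (z n) * S.P j n := by
    rw [L.ts (i := i) (j := j), L.Pt hjn hij.symm hin.symm, L.ts (i := n) (j := i)]
  have rtt := L.RTT (z := z) (a := i) (b := j) (w := S.h + S.h - z n) (w' := z n) (rows := rows)
    hij hi hj hn k1 h2 h1
  rw [← hw] at rtt
  have c4 := L.C2 (i := i) (j := j) (v := S.h + S.h - z n) hij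
    (by
      have e : S.h + S.h - z n + (S.h + S.h - z n) - (S.h + S.h) = w := by rw [hw]; abel
      rw [e]; exact k1) k4
    (by
      have e : S.h + S.h - (S.h + S.h - z n) = z n := by abel
      rw [e]; exact k3)
  have e1 : S.h + S.h - z n + (S.h + S.h - z n) - (S.h + S.h) = w := by rw [hw]; abel
  have e2 : S.h + S.h - (S.h + S.h - z n) = z n := by abel
  rw [e1, e2] at c4
  unfold Ops.T
  rw [a1, a2]
  calc S.b i j (z n) * (S.M z j (z n) rows * S.P j n) *
        (S.M z i (S.h + S.h - z n) rows * S.R i n w) * S.t i j (z n)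
      = S.b i j (z n) * (S.M z j (z n) rows * (S.P j n * S.M z i (S.h + S.h - z n) rows) *
        S.R i n w * S.t i j (z n)) := by simp only [mul_assoc]
    _ = S.b i j (z n) * (S.M z j (z n) rows * S.M z i (S.h + S.h - z n) rows *
        (S.P j n * S.R i n w) * S.t i j (z n)) := by rw [c1]; simp only [mul_assoc]
    _ = S.b i j (z n) * ((S.M z j (z n) rows * S.M z i (S.h + S.h - z n) rows * S.R i j w) *
        (S.P j n * S.t i j (z n))) := by rw [c2]; simp only [mul_assoc]
    _ = (S.b i j (z n) * S.R i j w) * (S.M z i (S.h + S.h - z n) rows * S.M z j (z n) rows *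
        (S.P j n * S.t i j (z n))) := by rw [rtt]; simp only [mul_assoc]
    _ = _ := by rw [c4, c3]; simp only [mul_assoc]

/-! ### G8: inversion -/

theorem U_M_M {i j : ι} {w : G} {rows : List ι} (hij : i ≠ j) (hi : i ∉ rows) (hj : j ∉ rows)
    (hn : rows.Nodup) (h1 : ∀ r ∈ rows, ok (w - z r))
    (h2 : ∀ r ∈ rows, ok (S.h + S.h + (w - z r))) :
    S.U i j * (S.M z j (S.h + S.h + w) rows * S.M z i w rows) = S.U i j := by
  induction rows with
  | nil => simp
  | cons r rows ih =>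
    rw [List.nodup_cons] at hn
    have hir : i ≠ r := fun e => hi (by simp [e])
    have hjr : j ≠ r := fun e => hj (by simp [e])
    have hi' : i ∉ rows := fun e => hi (by simp [e])
    have hj' : j ∉ rows := fun e => hj (by simp [e])
    have e : S.h + S.h + w - z r = S.h + S.h + (w - z r) := by abel
    have cu := L.CU2 (i := i) (j := j) (r := r) (u := w - z r) hij hir hjr (h1 r (by simp))
      (h2 r (by simp))
    rw [L.M_M hij.symm hjr hn.1 hi', e, ← mul_assoc, ← mul_assoc (S.U i j), cu]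
    exact ih hi' hj' hn.2 (fun q hq => h1 q (by simp [hq])) (fun q hq => h2 q (by simp [hq]))

theorem inversion_top {i j i' j' n : ι} {rows : List ι} (hij : i ≠ j) (hin : i ≠ n) (hjn : j ≠ n)
    (hii : i ≠ i') (hij' : i ≠ j') (hji' : j ≠ i') (hjj' : j ≠ j') (hni' : n ≠ i')
    (hnj' : n ≠ j') (hij2 : i' ≠ j')
    (hi : i ∉ rows) (hj : j ∉ rows) (hi' : i' ∉ rows) (hj' : j' ∉ rows) (hnr : n ∉ rows)
    (hn : rows.Nodup)
    (k1 : ok (S.h + S.h - z n - z n)) (k2 : ok (-z n - z n)) (k3 : okK (z n)) (k4 : okK (-z n))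
    (k5 : okK (S.h + S.h - z n)) (k6 : okK (S.h + S.h + z n))
    (h1 : ∀ r ∈ rows, ok (z n - z r)) (h2 : ∀ r ∈ rows, ok (S.h + S.h - z n - z r))
    (h3 : ∀ r ∈ rows, ok (S.h + S.h + (z n - z r))) (h4 : ∀ r ∈ rows, ok (-z n - z r)) :
    S.T z i j (z n) (rows ++ [n]) * S.T z i' j' (S.h + S.h + z n) (rows ++ [n]) =
      S.E j * (S.E i * S.E i' * S.E j') := by
  rw [L.T_top hij hin hjn hi hj hnr hn k1 k3 k5 h1 h2]
  set ζ := z n with hζ
  have a1 : S.M z j' (S.h + S.h + ζ) (rows ++ [n]) =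
      S.M z j' (S.h + S.h + ζ) rows * (S.glue j' n * S.U j' n) := by
    have e : S.h + S.h + ζ - z n = S.h + S.h := by rw [← hζ]; abel
    rw [Ops.M_append, Ops.M_cons, Ops.M_nil, e, L.R3 hnj'.symm, mul_one]
  have a2 : S.M z i' (S.h + S.h - (S.h + S.h + ζ)) (rows ++ [n]) =
      S.M z i' (-ζ) rows * S.R i' n (-ζ - ζ) := by
    have e : S.h + S.h - (S.h + S.h + ζ) = -ζ := by abel
    rw [Ops.M_append, Ops.M_cons, Ops.M_nil, e, mul_one]
  unfold Ops.T
  rw [a1, a2]
  set b := S.b i j (S.h + S.h - ζ) with hb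
  set b' := S.b i' j' (S.h + S.h + ζ) with hb'
  set t := S.t i n ζ with ht
  set t' := S.t i' j' (S.h + S.h + ζ) with ht'
  set Mi := S.M z i (S.h + S.h - ζ) rows with hMi
  set Mj := S.M z j ζ rows with hMj
  set Mi' := S.M z i' (-ζ) rows with hMi'
  set Mj' := S.M z j' (S.h + S.h + ζ) rows with hMj'
  have c1 : S.P j n * b' = b' * S.P j n := (L.cPb hji' hjj' hni' hnj').eq
  have c2 : S.P j n * Mj' = Mj' * S.P j n := (L.cMP hjj'.symm hnj'.symm hj hnr).eq.symm
  have c3 : S.P j n * S.glue j' n = S.glue j' j * S.P j n := by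
    rw [L.Ps (i := j) (j := n), L.gs (i := j') (j := n), L.Pglue hjn.symm hnj' hjj',
      L.gs (i := j) (j := j')]
  have c4 : t * S.E n = t := by
    rw [ht, L.ts (i := i) (j := n), L.tE]
  have c5 : b' * S.E n = S.E n * b' := (L.cbE hni'.symm hnj'.symm).eq
  have c6 : Mj' * S.E n = S.E n * Mj' := (L.cME hnj'.symm hnr).eq
  have c7 : S.glue j' j * S.E n = S.E n * S.glue j' j := (L.cglueE hnj'.symm hjn).eq
  have c8 : S.glue j' j * S.E j = S.glue j' j := by rw [L.gs (i := j') (j := j), L.glueE]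
  have c9 : S.E j * S.E n * S.P j n = S.E j * S.E n := L.PE hjn
  have c10 : t * b' = b' * t := (L.cbt hii.symm hni'.symm hij'.symm hnj'.symm).eq.symm
  have c11 : t * Mj' = Mj' * t := (L.cMt hij'.symm hnj'.symm hi hnr).eq.symm
  have c12 : t * S.glue j' j = S.glue j' j * t := (L.ctglue hij' hij hnj' hjn.symm).eq
  have c13 : Mj * b' = b' * Mj := (L.cMb hji' hjj' hi' hj').eq
  have c14 : Mi * b' = b' * Mi := (L.cMb hii hij' hi' hj').eq
  have c15 : Mi * S.glue j' j = S.glue j' j * Mi := (L.cMglue hij' hij hj' hj).eq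
  have c16 : S.U j' n * Mi' = Mi' * S.U j' n := (L.cMU hij2 hni'.symm hj' hnr).eq.symm
  have c17 : t * Mi' = Mi' * t := (L.cMt hii.symm hni'.symm hi hnr).eq.symm
  have g1 : Mj * (Mj' * S.glue j' j) = S.glue j' j := by
    have := L.M_M_glue (z := z) (i := j') (j := j) (w := ζ) (rows := rows) hjj'.symm hj' hj hn h1 h3
    rw [← mul_assoc]; exact this
  have g2 : S.U i' i * (Mi * Mi') = S.U i' i := by
    have := L.U_M_M (z := z) (i := i') (j := i) (w := -ζ) (rows := rows) hii.symm hi' hi hn h4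
      (fun r hr => by
        have e : S.h + S.h + (-ζ - z r) = S.h + S.h - ζ - z r := by abel
        rw [e]; exact h2 r hr)
    have e : S.h + S.h + -ζ = S.h + S.h - ζ := by abel
    rw [e] at this
    exact this
  have g3 : b * b' * S.glue j' j = S.E j * S.E j' * S.U i' i :=
    L.FI hij hii hij' hji' hjj' hij2 k3 k4 k5 k6
  have g4 : S.E j' * S.U i' i * t * S.U j' n * S.R i' n (-ζ - ζ) * t' =
      S.E i * S.E i' * S.E j' := L.TI hin hii hij' hni' hnj' hij2 k3 k4 k6 k2
  have hEE : S.E j * S.E n = S.E n * S.E j := L.cEE.eq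
  -- remove the exchange of labels
  have s1 : t * (S.P j n * b' * Mj' * S.glue j' n) = t * (b' * Mj' * S.glue j' j) := by
    calc t * (S.P j n * b' * Mj' * S.glue j' n)
        = t * (b' * (S.P j n * Mj') * S.glue j' n) := by rw [c1]; simp only [mul_assoc]
      _ = t * (b' * Mj' * (S.P j n * S.glue j' n)) := by rw [c2]; simp only [mul_assoc]
      _ = (t * S.E n) * (b' * Mj' * (S.glue j' j * S.E j) * S.P j n) := by
          rw [c3, c4, c8]; simp only [mul_assoc]
      _ = t * ((S.E n * b') * Mj' * S.glue j' j * S.E j * S.P j n) := by simp only [mul_assoc]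
      _ = t * (b' * (S.E n * Mj') * S.glue j' j * S.E j * S.P j n) := by
          rw [← c5]; simp only [mul_assoc]
      _ = t * (b' * Mj' * (S.E n * S.glue j' j) * S.E j * S.P j n) := by
          rw [← c6]; simp only [mul_assoc]
      _ = t * (b' * Mj' * S.glue j' j * (S.E j * S.E n * S.P j n)) := by
          rw [← c7, hEE]; simp only [mul_assoc]
      _ = t * (b' * Mj' * S.glue j' j * S.E n * S.E j) := by
          rw [c9, hEE]; simp only [mul_assoc]
      _ = t * (b' * Mj' * (S.E n * S.glue j' j) * S.E j) := by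
          rw [← c7]; simp only [mul_assoc]
      _ = t * (b' * (S.E n * Mj') * S.glue j' j * S.E j) := by
          rw [← c6]; simp only [mul_assoc]
      _ = (t * S.E n) * (b' * Mj' * (S.glue j' j * S.E j)) := by
          rw [← mul_assoc b' (S.E n), c5]; simp only [mul_assoc]
      _ = _ := by rw [c4, c8]
  calc b * Mi * Mj * t * S.P j n * (b' * (Mj' * (S.glue j' n * S.U j' n)) *
        (Mi' * S.R i' n (-ζ - ζ)) * t')
      = b * Mi * Mj * (t * (S.P j n * b' * Mj' * S.glue j' n)) * S.U j' n * Mi' *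
        S.R i' n (-ζ - ζ) * t' := by simp only [mul_assoc]
    _ = b * Mi * Mj * ((t * b') * Mj' * S.glue j' j) * (S.U j' n * Mi') *
        S.R i' n (-ζ - ζ) * t' := by rw [s1]; simp only [mul_assoc]
    _ = b * Mi * (Mj * b') * ((t * Mj') * S.glue j' j) * (Mi' * S.U j' n) *
        S.R i' n (-ζ - ζ) * t' := by rw [c10, c16]; simp only [mul_assoc]
    _ = b * (Mi * b') * Mj * (Mj' * (t * S.glue j' j)) * (Mi' * S.U j' n) *
        S.R i' n (-ζ - ζ) * t' := by rw [c13, c11]; simp only [mul_assoc]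
    _ = b * b' * Mi * (Mj * (Mj' * S.glue j' j)) * (t * Mi') * S.U j' n *
        S.R i' n (-ζ - ζ) * t' := by rw [c14, c12]; simp only [mul_assoc]
    _ = b * b' * (Mi * S.glue j' j) * (Mi' * t) * S.U j' n *
        S.R i' n (-ζ - ζ) * t' := by rw [g1, c17]; simp only [mul_assoc]
    _ = (b * b' * S.glue j' j) * (Mi * Mi') * (t * S.U j' n *
        S.R i' n (-ζ - ζ) * t') := by rw [c15]; simp only [mul_assoc]
    _ = S.E j * (S.E j' * (S.U i' i * (Mi * Mi')) * t * S.U j' n *
        S.R i' n (-ζ - ζ) * t') := by rw [g3]; simp only [mul_assoc]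
    _ = _ := by rw [g2, g4]

/-! ### G9: fusion -/

/-- Merging the lines `b` (first) and `a` (second) after the rows. -/
theorem M_M_Yt {a b : ι} {w : G} {rows : List ι} (hab : a ≠ b) (ha : a ∉ rows) (hb : b ∉ rows)
    (hn : rows.Nodup) (h1 : ∀ r ∈ rows, ok (w - z r)) (h2 : ∀ r ∈ rows, ok (w + S.l - z r))
    (h3 : ∀ r ∈ rows, ok (w + S.l + S.l - z r)) :
    S.M z b w rows * S.M z a (w + S.l + S.l) rows * S.Yt a b =
      S.Yt a b * S.M z a (w + S.l) rows := by
  induction rows with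
  | nil => simp
  | cons r rows ih =>
    rw [List.nodup_cons] at hn
    have har : a ≠ r := fun e => ha (by simp [e])
    have hbr : b ≠ r := fun e => hb (by simp [e])
    have ha' : a ∉ rows := fun e => ha (by simp [e])
    have hb' : b ∉ rows := fun e => hb (by simp [e])
    have e1 : w + S.l - z r = w - z r + S.l := by abel
    have e2 : w + S.l + S.l - z r = w - z r + S.l + S.l := by abel
    have key := L.B2 (i := a) (j := b) (r := r) (w := w - z r) hab har hbr (h1 r (by simp))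
      (by rw [← e1]; exact h2 r (by simp)) (by rw [← e2]; exact h3 r (by simp))
    rw [L.M_M hab.symm hbr hn.1 ha', mul_assoc (S.R b r _ * _),
      ih ha' hb' hn.2 (fun q hq => h1 q (by simp [hq])) (fun q hq => h2 q (by simp [hq]))
        (fun q hq => h3 q (by simp [hq])), ← mul_assoc, e2, key, Ops.M_cons, e1]
    simp only [mul_assoc]

/-- Splitting the line `a` into `a` (first) and `b` (second) before the rows. -/
theorem Y_M_M {a b : ι} {w : G} {rows : List ι} (hab : a ≠ b) (ha : a ∉ rows) (hb : b ∉ rows)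
    (hn : rows.Nodup) (h1 : ∀ r ∈ rows, ok (w - z r)) (h2 : ∀ r ∈ rows, ok (w + S.l - z r))
    (h3 : ∀ r ∈ rows, ok (w + S.l + S.l - z r)) :
    S.Y a b * (S.M z a (w + S.l + S.l) rows * S.M z b w rows) =
      S.M z a (w + S.l) rows * S.Y a b := by
  induction rows with
  | nil => simp
  | cons r rows ih =>
    rw [List.nodup_cons] at hn
    have har : a ≠ r := fun e => ha (by simp [e])
    have hbr : b ≠ r := fun e => hb (by simp [e])
    have ha' : a ∉ rows := fun e => ha (by simp [e])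
    have hb' : b ∉ rows := fun e => hb (by simp [e])
    have e1 : w + S.l - z r = w - z r + S.l := by abel
    have e2 : w + S.l + S.l - z r = w - z r + S.l + S.l := by abel
    have key := L.B1 (i := a) (j := b) (r := r) (w := w - z r) hab har hbr (h1 r (by simp))
      (by rw [← e1]; exact h2 r (by simp)) (by rw [← e2]; exact h3 r (by simp))
    have ih := ih ha' hb' hn.2 (fun q hq => h1 q (by simp [hq])) (fun q hq => h2 q (by simp [hq]))
        (fun q hq => h3 q (by simp [hq]))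
    rw [L.M_M hab har hn.1 hb', e2, Ops.M_cons, e1]
    calc S.Y a b * (S.R a r (w - z r + S.l + S.l) * S.R b r (w - z r) *
          (S.M z a (w + S.l + S.l) rows * S.M z b w rows))
        = (S.Y a b * S.R a r (w - z r + S.l + S.l) * S.R b r (w - z r)) *
          (S.M z a (w + S.l + S.l) rows * S.M z b w rows) := by simp only [mul_assoc]
      _ = S.R a r (w - z r + S.l) * (S.Y a b *
          (S.M z a (w + S.l + S.l) rows * S.M z b w rows)) := by rw [key]; simp only [mul_assoc]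
      _ = _ := by rw [ih]; simp only [mul_assoc]

theorem fusion_top {i j i' j' n : ι} {rows : List ι} (hij : i ≠ j) (hin : i ≠ n) (hjn : j ≠ n)
    (hii : i ≠ i') (hij' : i ≠ j') (hji' : j ≠ i') (hjj' : j ≠ j') (hni' : n ≠ i')
    (hnj' : n ≠ j') (hij2 : i' ≠ j')
    (hi : i ∉ rows) (hj : j ∉ rows) (hi' : i' ∉ rows) (hj' : j' ∉ rows) (hnr : n ∉ rows)
    (hn : rows.Nodup)
    (k1 : ok (S.h + S.h - z n - z n)) (k2 : ok (S.l - z n - z n))
    (k2' : ok (S.l + S.l - z n - z n))
    (k3 : okK (z n)) (k4 : okK (z n + S.l)) (k5 : okK (z n + S.l + S.l))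
    (k6 : okK (S.h + S.h - z n)) (k7 : okK (S.l - z n)) (k8 : okK (S.l + S.l - z n))
    (h1 : ∀ r ∈ rows, ok (z n - z r)) (h2 : ∀ r ∈ rows, ok (S.h + S.h - z n - z r))
    (h3 : ∀ r ∈ rows, ok (z n + S.l - z r)) (h4 : ∀ r ∈ rows, ok (z n + S.l + S.l - z r))
    (h5 : ∀ r ∈ rows, ok (S.l - z n - z r)) (h6 : ∀ r ∈ rows, ok (S.l + S.l - z n - z r)) :
    S.T z i' j' (z n + S.l + S.l) (rows ++ [n]) * S.T z i j (z n) (rows ++ [n]) =
      S.E i' * S.E j * S.T z i j' (z n + S.l) (rows ++ [n]) := by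
  rw [L.T_top hij hin hjn hi hj hnr hn k1 k3 k6 h1 h2]
  set ζ := z n with hζ
  have hh := L.hh
  have f1 : S.h + S.h - (ζ + S.l + S.l) = S.l - ζ := by rw [hh]; abel
  have f2 : S.h + S.h - (ζ + S.l) = S.l + S.l - ζ := by rw [hh]; abel
  have f3 : S.h + S.h - ζ = S.l - ζ + S.l + S.l := by rw [hh]; abel
  have f4 : S.l + S.l - ζ = S.l - ζ + S.l := by abel
  have a1 : S.M z j' (ζ + S.l + S.l) (rows ++ [n]) =
      S.M z j' (ζ + S.l + S.l) rows * (S.Yt j' n * S.Y j' n) := by
    have e : ζ + S.l + S.l - z n = S.l + S.l := by rw [← hζ]; abel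
    rw [Ops.M_append, Ops.M_cons, Ops.M_nil, e, L.R2 hnj'.symm, mul_one]
  have a2 : S.M z i' (S.l - ζ) (rows ++ [n]) =
      S.M z i' (S.l - ζ) rows * S.R i' n (S.l - ζ - ζ) := by
    rw [Ops.M_append, Ops.M_cons, Ops.M_nil, mul_one]
  have a3 : S.M z j' (ζ + S.l) (rows ++ [n]) = S.M z j' (ζ + S.l) rows * S.R j' n S.l := by
    have e : ζ + S.l - z n = S.l := by rw [← hζ]; abel
    rw [Ops.M_append, Ops.M_cons, Ops.M_nil, e, mul_one]
  have a4 : S.M z i (S.l + S.l - ζ) (rows ++ [n]) =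
      S.M z i (S.l + S.l - ζ) rows * S.R i n (S.l + S.l - ζ - ζ) := by
    rw [Ops.M_append, Ops.M_cons, Ops.M_nil, mul_one]
  unfold Ops.T
  rw [f1, f2, a1, a2, a3, a4]
  set b := S.b i j (S.h + S.h - ζ) with hb
  set b' := S.b i' j' (ζ + S.l + S.l) with hb'
  set b1 := S.b i j' (ζ + S.l) with hb1
  set t := S.t i n ζ with ht
  set t' := S.t i' j' (ζ + S.l + S.l) with ht'
  set t1 := S.t i j' (ζ + S.l) with ht1
  set Mi := S.M z i (S.h + S.h - ζ) rows with hMi
  set Mj := S.M z j ζ rows with hMj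
  set Mi' := S.M z i' (S.l - ζ) rows with hMi'
  set Mj' := S.M z j' (ζ + S.l + S.l) rows with hMj'
  set Ni := S.M z i (S.l + S.l - ζ) rows with hNi
  set Nj' := S.M z j' (ζ + S.l) rows with hNj'
  set x := S.R i' n (S.l - ζ - ζ) with hx
  set y := S.R i j (S.l + S.l - ζ - ζ) with hy
  -- commutations
  have c1 : t' * b = b * t' := (L.cbt hii hij' hji' hjj').eq.symm
  have c2 : x * b = b * x := (L.cRb hii.symm hji'.symm hin.symm hjn.symm).eq
  have c3 : Mi' * b = b * Mi' := (L.cMb hii.symm hji'.symm hi hj).eq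
  have c5 : Mj' * b = b * Mj' := (L.cMb hij'.symm hjj'.symm hi hj).eq
  have c6 : S.Y j' n * b = b * S.Y j' n := (L.cbY hij' hin hjj' hjn).eq.symm
  have c6' : S.Yt j' n * b = b * S.Yt j' n := (L.cbYt hij' hin hjj' hjn).eq.symm
  have c7 : t' * Mi = Mi * t' := (L.cMt hii hij' hi' hj').eq.symm
  have c8 : t' * Mj = Mj * t' := (L.cMt hji' hjj' hi' hj').eq.symm
  have c9 : x * Mi = Mi * x := (L.cMR hii hin hi' hnr).eq.symm
  have c10 : x * Mj = Mj * x := (L.cMR hji' hjn hi' hnr).eq.symm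
  have c11 : S.Y j' n * Mi' = Mi' * S.Y j' n := (L.cMY hij2 hni'.symm hj' hnr).eq.symm
  have c12 : S.Y j' n * Mi = Mi * S.Y j' n := (L.cMY hij' hin hj' hnr).eq.symm
  have c13 : S.Y j' n * Mj = Mj * S.Y j' n := (L.cMY hjj' hjn hj' hnr).eq.symm
  have c14 : S.Yt j' n * Mi' = Mi' * S.Yt j' n := (L.cMYt hij2 hni'.symm hj' hnr).eq.symm
  have c15 : S.Yt j' n * Mi = Mi * S.Yt j' n := (L.cMYt hij' hin hj' hnr).eq.symm
  have c16 : S.Yt j' n * Mj = Mj * S.Yt j' n := (L.cMYt hjj' hjn hj' hnr).eq.symm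
  have c17 : S.Yt j' n * S.Yt i i' = S.Yt i i' * S.Yt j' n :=
    (L.cYtYt hij'.symm hij2.symm hin.symm hni').eq
  have c18 : Mj * S.Yt i i' = S.Yt i i' * Mj := (L.cMYt hij.symm hji' hi hi').eq
  have c19 : Mj' * S.Yt i i' = S.Yt i i' * Mj' := (L.cMYt hij'.symm hij2.symm hi hi').eq
  have c20 : S.Yt j' n * Ni = Ni * S.Yt j' n := (L.cMYt hij' hin hj' hnr).eq.symm
  have c21 : S.P j n * Ni = Ni * S.P j n := (L.cMP hij hin hj hnr).eq.symm
  have c22 : S.P j n * S.R i n (S.l + S.l - ζ - ζ) = y * S.P j n := by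
    rw [L.Ps (i := j) (j := n), L.Rs (i := i) (j := n), L.PR hjn.symm hin.symm hij.symm,
      L.Rs (i := j) (j := i)]
  have c23 : S.P j n * t1 = t1 * S.P j n := (L.cPt hij.symm hjj' hin.symm hnj').eq
  have c24 : S.Yt j' n * y = y * S.Yt j' n := (L.cRYt hij' hin hjj' hjn).eq.symm
  have c25 : y * Mj' = Mj' * y := (L.cMR hij'.symm hjj'.symm hi hj).eq.symm
  have c26 : Nj' * S.E j = S.E j * Nj' := (L.cME hjj'.symm hj).eq
  have c27 : b1 * S.E j = S.E j * b1 := (L.cbE hij hjj'.symm).eq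
  -- the local identities
  have g1' : S.Y j' n * x * t' * t = S.E n * (S.Yt i i' * t1) :=
    L.Y3 hin hii hij' hni' hnj' hij2 k3 k5 k4 k2
  have g1 : S.Yt j' n * Mi' * Mi * Mj * (S.Y j' n * x * t' * t) =
      S.Yt j' n * Mi' * Mi * Mj * (S.Yt i i' * t1) := by
    have d1 : Mi' * S.E n = S.E n * Mi' := (L.cME hni'.symm hnr).eq
    have d2 : Mi * S.E n = S.E n * Mi := (L.cME hin hnr).eq
    have d3 : Mj * S.E n = S.E n * Mj := (L.cME hjn hnr).eq
    calc S.Yt j' n * Mi' * Mi * Mj * (S.Y j' n * x * t' * t)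
        = S.Yt j' n * Mi' * Mi * (Mj * S.E n) * (S.Yt i i' * t1) := by
          rw [g1']; simp only [mul_assoc]
      _ = S.Yt j' n * Mi' * (Mi * S.E n) * Mj * (S.Yt i i' * t1) := by
          rw [d3]; simp only [mul_assoc]
      _ = S.Yt j' n * (Mi' * S.E n) * Mi * Mj * (S.Yt i i' * t1) := by
          rw [d2]; simp only [mul_assoc]
      _ = (S.Yt j' n * S.E n) * Mi' * Mi * Mj * (S.Yt i i' * t1) := by
          rw [d1]; simp only [mul_assoc]
      _ = _ := by rw [L.YtE]
  have g2 : Mi' * Mi * S.Yt i i' = S.Yt i i' * Ni := by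
    have := L.M_M_Yt (z := z) (a := i) (b := i') (w := S.l - ζ) (rows := rows) hii hi hi' hn h5
      (fun r hr => by rw [← f4]; exact h6 r hr) (fun r hr => by rw [← f3]; exact h2 r hr)
    rw [hMi, hNi, f3, f4]
    exact this
  have g3 : b' * b * S.Yt i i' = S.E i' * b1 * S.Y j' j * y :=
    L.Y4 hij hii hij' hji' hjj' hij2 k3 k7 k8 k2'
  have g4 : Mj * Ni * y = y * (Ni * Mj) := by
    have := L.RTT (z := z) (a := i) (b := j) (w := S.l + S.l - ζ) (w' := ζ) (rows := rows)
      hij hi hj hn k2' h6 h1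
    exact this
  have g5 : S.Y j' j * (Mj' * Mj) = Nj' * S.Y j' j :=
    L.Y_M_M (z := z) (a := j') (b := j) (w := ζ) (rows := rows) hjj'.symm hj' hj hn h1 h3 h4
  have g6 : S.E j * S.R j' n S.l = S.Y j' j * S.Yt j' n * S.P j n :=
    L.Y5 hnj'.symm hjj'.symm hjn.symm
  -- the left hand side
  have lhs : b' * (Mj' * (S.Yt j' n * S.Y j' n)) * (Mi' * x) * t' *
        (b * Mi * Mj * t * S.P j n) =
      S.E i' * (b1 * (Nj' * (S.Y j' j * (Ni * (y * (S.Yt j' n * (t1 * S.P j n))))))) := by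
    calc b' * (Mj' * (S.Yt j' n * S.Y j' n)) * (Mi' * x) * t' * (b * Mi * Mj * t * S.P j n)
        = b' * Mj' * S.Yt j' n * S.Y j' n * Mi' * x * (t' * b) * Mi * Mj * t * S.P j n := by
          simp only [mul_assoc]
      _ = b' * Mj' * S.Yt j' n * S.Y j' n * Mi' * (x * b) * t' * Mi * Mj * t * S.P j n := by
          rw [c1]; simp only [mul_assoc]
      _ = b' * Mj' * S.Yt j' n * S.Y j' n * (Mi' * b) * x * t' * Mi * Mj * t * S.P j n := by
          rw [c2]; simp only [mul_assoc]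
      _ = b' * Mj' * S.Yt j' n * (S.Y j' n * b) * Mi' * x * t' * Mi * Mj * t * S.P j n := by
          rw [c3]; simp only [mul_assoc]
      _ = b' * Mj' * (S.Yt j' n * b) * S.Y j' n * Mi' * x * t' * Mi * Mj * t * S.P j n := by
          rw [c6]; simp only [mul_assoc]
      _ = b' * (Mj' * b) * S.Yt j' n * (S.Y j' n * Mi') * x * (t' * Mi) * Mj * t * S.P j n := by
          rw [c6']; simp only [mul_assoc]
      _ = b' * b * Mj' * S.Yt j' n * Mi' * S.Y j' n * (x * Mi) * (t' * Mj) * t * S.P j n := by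
          rw [c5, c11, c7]; simp only [mul_assoc]
      _ = b' * b * Mj' * S.Yt j' n * Mi' * (S.Y j' n * Mi) * (x * Mj) * t' * t * S.P j n := by
          rw [c9, c8]; simp only [mul_assoc]
      _ = b' * b * Mj' * S.Yt j' n * Mi' * Mi * (S.Y j' n * Mj) * x * t' * t * S.P j n := by
          rw [c12, c10]; simp only [mul_assoc]
      _ = b' * b * Mj' * (S.Yt j' n * Mi' * Mi * Mj * (S.Y j' n * x * t' * t)) * S.P j n := by
          rw [c13]; simp only [mul_assoc]
      _ = b' * b * Mj' * (S.Yt j' n * Mi') * Mi * Mj * S.Yt i i' * t1 * S.P j n := by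
          rw [g1]; simp only [mul_assoc]
      _ = b' * b * Mj' * Mi' * (S.Yt j' n * Mi) * Mj * S.Yt i i' * t1 * S.P j n := by
          rw [c14]; simp only [mul_assoc]
      _ = b' * b * Mj' * Mi' * Mi * (S.Yt j' n * Mj) * S.Yt i i' * t1 * S.P j n := by
          rw [c15]; simp only [mul_assoc]
      _ = b' * b * Mj' * Mi' * Mi * Mj * (S.Yt j' n * S.Yt i i') * t1 * S.P j n := by
          rw [c16]; simp only [mul_assoc]
      _ = b' * b * Mj' * Mi' * Mi * (Mj * S.Yt i i') * S.Yt j' n * t1 * S.P j n := by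
          rw [c17]; simp only [mul_assoc]
      _ = b' * b * Mj' * (Mi' * Mi * S.Yt i i') * Mj * S.Yt j' n * t1 * S.P j n := by
          rw [c18]; simp only [mul_assoc]
      _ = b' * b * (Mj' * S.Yt i i') * Ni * Mj * S.Yt j' n * t1 * S.P j n := by
          rw [g2]; simp only [mul_assoc]
      _ = (b' * b * S.Yt i i') * Mj' * Ni * Mj * S.Yt j' n * t1 * S.P j n := by
          rw [c19]; simp only [mul_assoc]
      _ = S.E i' * b1 * S.Y j' j * (y * Mj') * Ni * Mj * S.Yt j' n * t1 * S.P j n := by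
          rw [g3]; simp only [mul_assoc]
      _ = S.E i' * b1 * S.Y j' j * Mj' * (y * (Ni * Mj)) * S.Yt j' n * t1 * S.P j n := by
          rw [c25]; simp only [mul_assoc]
      _ = S.E i' * b1 * (S.Y j' j * (Mj' * Mj)) * Ni * y * S.Yt j' n * t1 * S.P j n := by
          rw [← g4]; simp only [mul_assoc]
      _ = _ := by rw [g5]; simp only [mul_assoc]
  have rhs : S.E i' * S.E j * (b1 * (Nj' * S.R j' n S.l) *
        (Ni * S.R i n (S.l + S.l - ζ - ζ)) * t1) =
      S.E i' * (b1 * (Nj' * (S.Y j' j * (Ni * (y * (S.Yt j' n * (t1 * S.P j n))))))) := by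
    calc S.E i' * S.E j * (b1 * (Nj' * S.R j' n S.l) *
          (Ni * S.R i n (S.l + S.l - ζ - ζ)) * t1)
        = S.E i' * (S.E j * b1) * Nj' * S.R j' n S.l * Ni *
          S.R i n (S.l + S.l - ζ - ζ) * t1 := by simp only [mul_assoc]
      _ = S.E i' * b1 * (S.E j * Nj') * S.R j' n S.l * Ni *
          S.R i n (S.l + S.l - ζ - ζ) * t1 := by rw [← c27]; simp only [mul_assoc]
      _ = S.E i' * b1 * Nj' * (S.E j * S.R j' n S.l) * Ni *
          S.R i n (S.l + S.l - ζ - ζ) * t1 := by rw [← c26]; simp only [mul_assoc]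
      _ = S.E i' * b1 * Nj' * S.Y j' j * S.Yt j' n * (S.P j n * Ni) *
          S.R i n (S.l + S.l - ζ - ζ) * t1 := by rw [g6]; simp only [mul_assoc]
      _ = S.E i' * b1 * Nj' * S.Y j' j * (S.Yt j' n * Ni) *
          (S.P j n * S.R i n (S.l + S.l - ζ - ζ)) * t1 := by rw [c21]; simp only [mul_assoc]
      _ = S.E i' * b1 * Nj' * S.Y j' j * Ni * (S.Yt j' n * y) * (S.P j n * t1) := by
          rw [c20, c22]; simp only [mul_assoc]
      _ = _ := by rw [c24, c23]; simp only [mul_assoc]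
  rw [lhs, rhs]

/-! ### G6: exchange of rows -/

/-- The product of crossings which moves the row `k` above the rows `up`. -/
def X (S : Ops A ι G) (z : ι → G) (k : ι) (up : List ι) : A :=
  (up.map fun r => S.R k r (z k - z r)).prod

theorem M_X {a k : ι} {w : G} {up : List ι} (hak : a ≠ k) (ha : a ∉ up) (hk : k ∉ up)
    (hn : up.Nodup) (h0 : ok (w - z k)) (h1 : ∀ r ∈ up, ok (w - z r))
    (h2 : ∀ r ∈ up, ok (z k - z r)) :
    S.M z a w (k :: up) * X S z k up = X S z k up * S.M z a w (up ++ [k]) := by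
  induction up with
  | nil => simp [X]
  | cons r up ih =>
    rw [List.nodup_cons] at hn
    have har : a ≠ r := fun e => ha (by simp [e])
    have hkr : k ≠ r := fun e => hk (by simp [e])
    have ha' : a ∉ up := fun e => ha (by simp [e])
    have hk' : k ∉ up := fun e => hk (by simp [e])
    have ih := ih ha' hk' hn.2 (fun q hq => h1 q (by simp [hq])) (fun q hq => h2 q (by simp [hq]))
    have e : w - z r = w - z k + (z k - z r) := by abel
    have yb := L.L2 (i := a) (j := k) (k := r) (u := w - z k) (w := z k - z r) hak har hkr h0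
      (h2 r (by simp)) (by rw [← e]; exact h1 r (by simp))
    rw [← e] at yb
    have c1 : S.M z a w up * S.R k r (z k - z r) = S.R k r (z k - z r) * S.M z a w up :=
      (L.cMR hak har hk' hn.1).eq
    have c2 : X S z k up * S.R a r (w - z r) = S.R a r (w - z r) * X S z k up := by
      have : Commute (X S z k up) (S.R a r (w - z r)) :=
        S.M_commute (z := fun q => z q - z k + z k) (a := k) (w := z k) (rows := up)
          (x := S.R a r (w - z r)) (fun q hq => L.cRR hak.symm hkr (fun e => ha' (e ▸ hq))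
            (fun e => hn.1 (e ▸ hq))) |> fun h => by simpa [X, Ops.M] using h
      exact this.eq
    have hX : X S z k (r :: up) = S.R k r (z k - z r) * X S z k up := rfl
    rw [Ops.M_cons] at ih
    rw [hX, Ops.M_cons, Ops.M_cons, List.cons_append, Ops.M_cons]
    calc S.R a k (w - z k) * (S.R a r (w - z r) * S.M z a w up) *
          (S.R k r (z k - z r) * X S z k up)
        = S.R a k (w - z k) * S.R a r (w - z r) * (S.M z a w up * S.R k r (z k - z r)) *
          X S z k up := by simp only [mul_assoc]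
      _ = (S.R a k (w - z k) * S.R a r (w - z r) * S.R k r (z k - z r)) * S.M z a w up *
          X S z k up := by rw [c1]; simp only [mul_assoc]
      _ = S.R k r (z k - z r) * S.R a r (w - z r) * (S.R a k (w - z k) * S.M z a w up *
          X S z k up) := by rw [yb]; simp only [mul_assoc]
      _ = S.R k r (z k - z r) * (S.R a r (w - z r) * X S z k up) *
          S.M z a w (up ++ [k]) := by rw [ih]; simp only [mul_assoc]
      _ = _ := by rw [← c2]; simp only [mul_assoc]

omit L in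
theorem X_commute {k : ι} {up : List ι} {x : A}
    (H : ∀ r ∈ up, Commute (S.R k r (z k - z r)) x) : Commute (X S z k up) x := by
  induction up with
  | nil => exact Commute.one_left x
  | cons r up ih =>
    have hX : X S z k (r :: up) = S.R k r (z k - z r) * X S z k up := rfl
    rw [hX]
    exact (H r (by simp)).mul_left (ih fun q hq => H q (by simp [hq]))

theorem X_unit {k : ι} {up : List ι} (hk : k ∉ up)
    (h2 : ∀ r ∈ up, ok (z k - z r)) (h3 : ∀ r ∈ up, ok (z r - z k)) : IsUnit (X S z k up) := by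
  induction up with
  | nil => exact isUnit_one
  | cons r up ih =>
    have hkr : k ≠ r := fun e => hk (by simp [e])
    have hX : X S z k (r :: up) = S.R k r (z k - z r) * X S z k up := rfl
    rw [hX]
    refine IsUnit.mul ?_ (ih (fun e => hk (by simp [e])) (fun q hq => h2 q (by simp [hq]))
      (fun q hq => h3 q (by simp [hq])))
    have o1 : ok (z k - z r) := h2 r (by simp)
    have o2 : ok (-(z k - z r)) := by rw [neg_sub]; exact h3 r (by simp)
    have e1 := L.L1 (i := k) (j := r) (u := z k - z r) hkr o1 o2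
    have e2 := L.L1 (i := k) (j := r) (u := -(z k - z r)) hkr o2 (by rw [neg_neg]; exact o1)
    rw [neg_neg] at e2
    exact ⟨⟨_, _, e1, e2⟩, rfl⟩

/-- Moving the row `k` to the top. -/
theorem M_exchange {a k : ι} {w : G} {low up : List ι} (hak : a ≠ k)
    (ha' : a ∉ up) (hk : k ∉ up) (hkl : k ∉ low) (hn : up.Nodup)
    (hd : ∀ r ∈ up, r ∉ low) (h0 : ok (w - z k)) (h1 : ∀ r ∈ up, ok (w - z r))
    (h2 : ∀ r ∈ up, ok (z k - z r)) :
    S.M z a w (low ++ k :: up) * X S z k up =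
      X S z k up * S.M z a w ((low ++ up) ++ [k]) := by
  have c : Commute (X S z k up) (S.M z a w low) := by
    refine X_commute fun r hr => ?_
    exact (L.cMR hak (fun e => ha' (e ▸ hr)) hkl (hd r hr)).symm
  rw [List.append_assoc, Ops.M_append, Ops.M_append, mul_assoc,
    L.M_X hak ha' hk hn h0 h1 h2, ← mul_assoc, ← mul_assoc, c.eq]

theorem T_exchange {i j k : ι} {v : G} {low up : List ι}
    (hi : i ∉ low ++ k :: up) (hj : j ∉ low ++ k :: up) (hn : (low ++ k :: up).Nodup)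
    (h1 : ∀ r ∈ k :: up, ok (v - z r)) (h2 : ∀ r ∈ k :: up, ok (S.h + S.h - v - z r))
    (h3 : ∀ r ∈ up, ok (z k - z r)) :
    S.T z i j v (low ++ k :: up) * X S z k up =
      X S z k up * S.T z i j v ((low ++ up) ++ [k]) := by
  have hik : i ≠ k := fun e => hi (by simp [e])
  have hjk : j ≠ k := fun e => hj (by simp [e])
  have hiu : i ∉ up := fun e => hi (by simp [e])
  have hju : j ∉ up := fun e => hj (by simp [e])
  have hn' := List.nodup_append.1 hn
  have hn2 := List.nodup_cons.1 hn'.2.1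
  have hkl : k ∉ low := fun e => hn'.2.2 k e k (by simp) rfl
  have hd : ∀ r ∈ up, r ∉ low := fun r hr e => hn'.2.2 r e r (by simp [hr]) rfl
  have e1 := L.M_exchange (z := z) (w := v) hjk hju hn2.1 hkl hn2.2 hd (h1 k (by simp))
    (fun r hr => h1 r (by simp [hr])) h3
  have e2 := L.M_exchange (z := z) (w := S.h + S.h - v) hik hiu hn2.1 hkl hn2.2 hd
    (h2 k (by simp)) (fun r hr => h2 r (by simp [hr])) h3
  have c1 : Commute (X S z k up) (S.b i j v) :=
    X_commute fun r hr => L.cRb hik.symm hjk.symm (fun e => hiu (e ▸ hr)) (fun e => hju (e ▸ hr))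
  have c2 : Commute (X S z k up) (S.t i j v) :=
    X_commute fun r hr => L.cRt hik.symm hjk.symm (fun e => hiu (e ▸ hr)) (fun e => hju (e ▸ hr))
  unfold Ops.T
  calc S.b i j v * S.M z j v (low ++ k :: up) * S.M z i (S.h + S.h - v) (low ++ k :: up) *
        S.t i j v * X S z k up
      = S.b i j v * S.M z j v (low ++ k :: up) * (S.M z i (S.h + S.h - v) (low ++ k :: up) *
        X S z k up) * S.t i j v := by rw [mul_assoc _ (S.t i j v), ← c2.eq]; simp only [mul_assoc]
    _ = S.b i j v * (S.M z j v (low ++ k :: up) * X S z k up) *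
        S.M z i (S.h + S.h - v) (low ++ up ++ [k]) * S.t i j v := by
        rw [e2]; simp only [mul_assoc]
    _ = (X S z k up * S.b i j v) * S.M z j v (low ++ up ++ [k]) *
        S.M z i (S.h + S.h - v) (low ++ up ++ [k]) * S.t i j v := by
        rw [e1, c1.eq]; simp only [mul_assoc]
    _ = _ := by simp only [mul_assoc]

/-- **Inversion.** -/
theorem inversion {i j i' j' k : ι} {rows : List ι} (hk : k ∈ rows) (hij : i ≠ j)
    (hii : i ≠ i') (hij' : i ≠ j') (hji' : j ≠ i') (hjj' : j ≠ j') (hij2 : i' ≠ j')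
    (hi : i ∉ rows) (hj : j ∉ rows) (hi' : i' ∉ rows) (hj' : j' ∉ rows) (hn : rows.Nodup)
    (k3 : okK (z k)) (k4 : okK (-z k))
    (k5 : okK (S.h + S.h - z k)) (k6 : okK (S.h + S.h + z k))
    (h0 : ∀ r ∈ rows, ok (z r - z k))
    (h1 : ∀ r ∈ rows, ok (z k - z r)) (h2 : ∀ r ∈ rows, ok (S.h + S.h - z k - z r))
    (h3 : ∀ r ∈ rows, ok (S.h + S.h + (z k - z r))) (h4 : ∀ r ∈ rows, ok (-z k - z r)) :
    S.T z i j (z k) rows * S.T z i' j' (S.h + S.h + z k) rows =
      S.E j * (S.E i * S.E i' * S.E j') := by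
  obtain ⟨low, up, rfl⟩ := List.append_of_mem hk
  have hn' := List.nodup_append.1 hn
  have hn2 := List.nodup_cons.1 hn'.2.1
  have hkl : k ∉ low := fun e => hn'.2.2 k e k (by simp) rfl
  have hlu : (low ++ up).Nodup := by
    rw [List.nodup_append]
    exact ⟨hn'.1, hn2.2, fun a ha b hb => hn'.2.2 a ha b (by simp [hb])⟩
  have hmem : ∀ r ∈ low ++ up, r ∈ low ++ k :: up := fun r hr => by
    rcases List.mem_append.1 hr with h | h <;> simp [h]
  have hkm : k ∈ low ++ k :: up := by simp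
  have hup : ∀ r ∈ up, r ∈ low ++ k :: up := fun r hr => by simp [hr]
  have hkup : ∀ r ∈ k :: up, r ∈ low ++ k :: up := fun r hr => by
    rcases List.mem_cons.1 hr with h | h <;> simp [h]
  have nk : ∀ {a : ι}, a ∉ low ++ k :: up → a ∉ low ++ up := fun ha e => ha (hmem _ e)
  have ne : ∀ {a : ι}, a ∉ low ++ k :: up → a ≠ k := fun ha e => ha (by simp [e])
  have hku : k ∉ low ++ up := by
    rw [List.mem_append]; rintro (h | h)
    · exact hkl h
    · exact hn2.1 h
  have top := L.inversion_top (z := z) (n := k) (rows := low ++ up) hij (ne hi) (ne hj) hii hij'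
    hji' hjj' (ne hi').symm (ne hj').symm hij2 (nk hi) (nk hj) (nk hi') (nk hj') hku hlu
    (h2 k hkm) (h4 k hkm) k3 k4 k5 k6 (fun r hr => h1 r (hmem r hr))
    (fun r hr => h2 r (hmem r hr)) (fun r hr => h3 r (hmem r hr)) (fun r hr => h4 r (hmem r hr))
  have x1 := L.T_exchange (z := z) (v := z k) hi hj hn (fun r hr => h1 r (hkup r hr))
    (fun r hr => h2 r (hkup r hr)) (fun r hr => h1 r (hup r hr))
  have x2 := L.T_exchange (z := z) (v := S.h + S.h + z k) hi' hj' hn
    (fun r hr => by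
      have e : S.h + S.h + z k - z r = S.h + S.h + (z k - z r) := by abel
      rw [e]; exact h3 r (hkup r hr))
    (fun r hr => by
      have e : S.h + S.h - (S.h + S.h + z k) - z r = -z k - z r := by abel
      rw [e]; exact h4 r (hkup r hr)) (fun r hr => h1 r (hup r hr))
  have hu : IsUnit (X S z k up) := L.X_unit hn2.1 (fun r hr => h1 r (hup r hr))
    (fun r hr => h0 r (hup r hr))
  have cE : ∀ {a : ι}, a ∉ low ++ k :: up → Commute (X S z k up) (S.E a) := fun {a} ha =>
    X_commute fun r hr => L.cRE (ne ha).symm (fun e => ha (e ▸ hup r hr))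
  have cE4 : Commute (X S z k up) (S.E j * (S.E i * S.E i' * S.E j')) :=
    (cE hj).mul_right (((cE hi).mul_right (cE hi')).mul_right (cE hj'))
  refine hu.mul_right_cancel ?_
  rw [mul_assoc, x2, ← mul_assoc, x1, mul_assoc, top, cE4.eq]

/-- **Fusion.** -/
theorem fusion {i j i' j' k : ι} {rows : List ι} (hk : k ∈ rows) (hij : i ≠ j)
    (hii : i ≠ i') (hij' : i ≠ j') (hji' : j ≠ i') (hjj' : j ≠ j') (hij2 : i' ≠ j')
    (hi : i ∉ rows) (hj : j ∉ rows) (hi' : i' ∉ rows) (hj' : j' ∉ rows) (hn : rows.Nodup)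
    (k3 : okK (z k)) (k4 : okK (z k + S.l)) (k5 : okK (z k + S.l + S.l))
    (k6 : okK (S.h + S.h - z k)) (k7 : okK (S.l - z k)) (k8 : okK (S.l + S.l - z k))
    (h0 : ∀ r ∈ rows, ok (z r - z k))
    (h1 : ∀ r ∈ rows, ok (z k - z r)) (h2 : ∀ r ∈ rows, ok (S.h + S.h - z k - z r))
    (h3 : ∀ r ∈ rows, ok (z k + S.l - z r)) (h4 : ∀ r ∈ rows, ok (z k + S.l + S.l - z r))
    (h5 : ∀ r ∈ rows, ok (S.l - z k - z r)) (h6 : ∀ r ∈ rows, ok (S.l + S.l - z k - z r)) :
    S.T z i' j' (z k + S.l + S.l) rows * S.T z i j (z k) rows =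
      S.E i' * S.E j * S.T z i j' (z k + S.l) rows := by
  obtain ⟨low, up, rfl⟩ := List.append_of_mem hk
  have hn' := List.nodup_append.1 hn
  have hn2 := List.nodup_cons.1 hn'.2.1
  have hkl : k ∉ low := fun e => hn'.2.2 k e k (by simp) rfl
  have hlu : (low ++ up).Nodup := by
    rw [List.nodup_append]
    exact ⟨hn'.1, hn2.2, fun a ha b hb => hn'.2.2 a ha b (by simp [hb])⟩
  have hmem : ∀ r ∈ low ++ up, r ∈ low ++ k :: up := fun r hr => by
    rcases List.mem_append.1 hr with h | h <;> simp [h]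
  have hkm : k ∈ low ++ k :: up := by simp
  have hup : ∀ r ∈ up, r ∈ low ++ k :: up := fun r hr => by simp [hr]
  have hkup : ∀ r ∈ k :: up, r ∈ low ++ k :: up := fun r hr => by
    rcases List.mem_cons.1 hr with h | h <;> simp [h]
  have nk : ∀ {a : ι}, a ∉ low ++ k :: up → a ∉ low ++ up := fun ha e => ha (hmem _ e)
  have ne : ∀ {a : ι}, a ∉ low ++ k :: up → a ≠ k := fun ha e => ha (by simp [e])
  have hku : k ∉ low ++ up := by
    rw [List.mem_append]; rintro (h | h)
    · exact hkl h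
    · exact hn2.1 h
  have hh := L.hh
  have top := L.fusion_top (z := z) (n := k) (rows := low ++ up) hij (ne hi) (ne hj) hii hij'
    hji' hjj' (ne hi').symm (ne hj').symm hij2 (nk hi) (nk hj) (nk hi') (nk hj') hku hlu
    (h2 k hkm) (h5 k hkm) (h6 k hkm) k3 k4 k5 k6 k7 k8 (fun r hr => h1 r (hmem r hr))
    (fun r hr => h2 r (hmem r hr)) (fun r hr => h3 r (hmem r hr)) (fun r hr => h4 r (hmem r hr))
    (fun r hr => h5 r (hmem r hr)) (fun r hr => h6 r (hmem r hr))
  have f1 : S.h + S.h - (z k + S.l + S.l) = S.l - z k := by rw [hh]; abel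
  have f2 : S.h + S.h - (z k + S.l) = S.l + S.l - z k := by rw [hh]; abel
  have x1 := L.T_exchange (z := z) (v := z k) hi hj hn (fun r hr => h1 r (hkup r hr))
    (fun r hr => h2 r (hkup r hr)) (fun r hr => h1 r (hup r hr))
  have x2 := L.T_exchange (z := z) (v := z k + S.l + S.l) hi' hj' hn
    (fun r hr => h4 r (hkup r hr)) (fun r hr => by rw [f1]; exact h5 r (hkup r hr))
    (fun r hr => h1 r (hup r hr))
  have x3 := L.T_exchange (z := z) (v := z k + S.l) hi hj' hn
    (fun r hr => h3 r (hkup r hr)) (fun r hr => by rw [f2]; exact h6 r (hkup r hr))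
    (fun r hr => h1 r (hup r hr))
  have hu : IsUnit (X S z k up) := L.X_unit hn2.1 (fun r hr => h1 r (hup r hr))
    (fun r hr => h0 r (hup r hr))
  have cE : ∀ {a : ι}, a ∉ low ++ k :: up → Commute (X S z k up) (S.E a) := fun {a} ha =>
    X_commute fun r hr => L.cRE (ne ha).symm (fun e => ha (e ▸ hup r hr))
  have cE2 : Commute (X S z k up) (S.E i' * S.E j) := (cE hi').mul_right (cE hj)
  refine hu.mul_right_cancel ?_
  rw [mul_assoc, x1, ← mul_assoc, x2, mul_assoc, top, ← mul_assoc, cE2.eq,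
    mul_assoc (S.E i' * S.E j), ← x3, ← mul_assoc]

end Laws

end Pool.Agent.EXL.Glob
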