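import Pool.Agent.EXL.Ops

/-!
# Good operators: they fix the indicator of the empty state, and preserve 'dead' and 'full'
-/

namespace Pool.Agent.EXL.HS

open Pat

variable {α K : Type*} [DecidableEq α] [CommRing K]

namespace Pat

omit [DecidableEq α] in
@[simp] theorem empty_apply (x : α) : (empty : Pat α) x = x := rfl

theorem swap_apply (i j : α) (p : Pat α) (x : α) :
    swap i j p x = Equiv.swap i j (p (Equiv.swap i j x)) := rfl

theorem cup_apply_pos {i j : α} {p : Pat α} (h : p i = i ∧ p j = j) (x : α) :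
    cup i j p x = if x = i then j else if x = j then i else p x := by
  show (if p i = i ∧ p j = j then (if x = i then j else if x = j then i else p x) else p x) = _
  rw [if_pos h]

theorem cup_neg {i j : α} {p : Pat α} (h : ¬ (p i = i ∧ p j = j)) : cup i j p = p := by
  ext x
  show (if p i = i ∧ p j = j then (if x = i then j else if x = j then i else p x) else p x) = _
  rw [if_neg h]

theorem cut_apply_pos {i j : α} {p : Pat α} (h : i ≠ j ∧ p i ≠ i ∧ p j ≠ j ∧ p i ≠ j) (x : α) :
    cut i j p x =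
      if x = i then i else if x = j then j else if x = p i then p j else if x = p j then p i
        else p x := by
  show (if i ≠ j ∧ p i ≠ i ∧ p j ≠ j ∧ p i ≠ j then _ else _) = _
  rw [if_pos h]

theorem cut_neg {i j : α} {p : Pat α} (h : ¬ (i ≠ j ∧ p i ≠ i ∧ p j ≠ j ∧ p i ≠ j)) :
    cut i j p = p := by
  ext x
  show (if i ≠ j ∧ p i ≠ i ∧ p j ≠ j ∧ p i ≠ j then _ else _) = _
  rw [if_neg h]

omit [DecidableEq α] in
theorem ne_empty_iff {p : Pat α} : p ≠ empty ↔ ∃ x, p x ≠ x := by
  constructor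
  · intro h
    by_contra hc
    push Not at hc
    exact h (Pat.ext (funext hc))
  · rintro ⟨x, hx⟩ rfl
    exact hx rfl

theorem swap_ne_empty {i j : α} {p : Pat α} (h : p ≠ empty) : swap i j p ≠ empty := by
  rw [ne_empty_iff] at h ⊢
  obtain ⟨x, hx⟩ := h
  refine ⟨Equiv.swap i j x, ?_⟩
  rw [swap_apply, Equiv.swap_apply_self]
  intro h
  exact hx ((Equiv.swap i j).injective h)

theorem cup_ne_empty {i j : α} {p : Pat α} (h : p ≠ empty) : cup i j p ≠ empty := by
  by_cases hc : p i = i ∧ p j = j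
  · rw [ne_empty_iff] at h ⊢
    obtain ⟨x, hx⟩ := h
    refine ⟨x, ?_⟩
    rw [cup_apply_pos hc]
    grind
  · rw [cup_neg hc]
    exact h

theorem cup_empty_ne {i j : α} (h : i ≠ j) : cup i j (empty : Pat α) ≠ empty := by
  rw [ne_empty_iff]
  refine ⟨i, ?_⟩
  rw [cup_apply_pos ⟨rfl, rfl⟩, if_pos rfl]
  exact h.symm

theorem cut_ne_empty {i j : α} {p : Pat α} (h : p ≠ empty) : cut i j p ≠ empty := by
  by_cases hc : i ≠ j ∧ p i ≠ i ∧ p j ≠ j ∧ p i ≠ j
  · rw [ne_empty_iff]
    refine ⟨p i, ?_⟩
    rw [cut_apply_pos hc]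
    have := p.inv
    grind
  · rw [cut_neg hc]
    exact h

end Pat

open Pat

/-- the state whose only pair is b, t. -/
def full (b t : α) : Pat α := cup b t Pat.empty

/-- dead states: the ends b, t are joined, and there is at least one more arc. -/
def Dead (b t : α) (p : Pat α) : Prop := p b = t ∧ ∃ x, x ≠ b ∧ x ≠ t ∧ p x ≠ x

theorem full_apply (b t x : α) : full b t x = if x = b then t else if x = t then b else x := by
  unfold full
  rw [cup_apply_pos ⟨rfl, rfl⟩]
  rfl

/-- a state with b, t joined is full or dead. -/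
theorem full_or_dead {b t : α} {p : Pat α} (h : p b = t) : p = full b t ∨ Dead b t p := by
  by_cases hc : ∃ x, x ≠ b ∧ x ≠ t ∧ p x ≠ x
  · exact Or.inr ⟨h, hc⟩
  · left
    push Not at hc
    ext x
    rw [full_apply]
    have := p.inv
    grind

theorem not_dead_full {b t : α} : ¬ Dead b t (full b t) := by
  rintro ⟨_, x, h1, h2, h3⟩
  apply h3
  rw [full_apply, if_neg h1, if_neg h2]

theorem full_ne_empty {b t : α} (h : b ≠ t) : full b t ≠ Pat.empty := cup_empty_ne h

omit [DecidableEq α] in
theorem dead_ne_empty {b t : α} {p : Pat α} (h : Dead b t p) : p ≠ Pat.empty := by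
  rw [ne_empty_iff]
  obtain ⟨_, x, _, _, h3⟩ := h
  exact ⟨x, h3⟩

theorem dead_swap {b t i j : α} {p : Pat α} (hib : i ≠ b) (hit : i ≠ t) (hjb : j ≠ b) (hjt : j ≠ t)
    (h : Dead b t p) : Dead b t (swap i j p) := by
  obtain ⟨h0, x, h1, h2, h3⟩ := h
  refine ⟨?_, Equiv.swap i j x, ?_, ?_, ?_⟩
  · rw [swap_apply, Equiv.swap_apply_of_ne_of_ne hib.symm hjb.symm, h0,
      Equiv.swap_apply_of_ne_of_ne hit.symm hjt.symm]
  · rw [Equiv.swap_apply_def]
    grind
  · rw [Equiv.swap_apply_def]
    grind
  · rw [swap_apply, Equiv.swap_apply_self]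
    intro h
    exact h3 ((Equiv.swap i j).injective h)

theorem dead_cup {b t i j : α} {p : Pat α} (hbt : b ≠ t) (h : Dead b t p) : Dead b t (cup i j p) := by
  by_cases hc : p i = i ∧ p j = j
  · obtain ⟨h0, x, h1, h2, h3⟩ := h
    have hp := p.inv
    refine ⟨?_, x, h1, h2, ?_⟩
    · rw [cup_apply_pos hc]
      grind
    · rw [cup_apply_pos hc]
      grind
  · rw [cup_neg hc]
    exact h

theorem dead_cup_full {b t i j : α} (hbt : b ≠ t) (hij : i ≠ j) (hi : full b t i = i)
    (hj : full b t j = j) : Dead b t (cup i j (full b t)) := by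
  have h1 : i ≠ b := by
    rintro rfl
    rw [full_apply, if_pos rfl] at hi
    exact hbt hi.symm
  have h2 : i ≠ t := by
    rintro rfl
    rw [full_apply, if_neg hbt.symm, if_pos rfl] at hi
    exact hbt hi
  have h3 : j ≠ b := by
    rintro rfl
    rw [full_apply, if_pos rfl] at hj
    exact hbt hj.symm
  refine ⟨?_, i, h1, h2, ?_⟩
  · rw [cup_apply_pos ⟨hi, hj⟩, if_neg h1.symm, if_neg h3.symm, full_apply, if_pos rfl]
  · rw [cup_apply_pos ⟨hi, hj⟩, if_pos rfl]
    exact hij.symm

theorem dead_cut {b t i j : α} {p : Pat α} (hib : i ≠ b) (hit : i ≠ t) (hjb : j ≠ b) (hjt : j ≠ t)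
    (hbt : b ≠ t) (h : Dead b t p) : Dead b t (cut i j p) := by
  by_cases hc : i ≠ j ∧ p i ≠ i ∧ p j ≠ j ∧ p i ≠ j
  · obtain ⟨h0, _⟩ := h
    have hp := p.inv
    refine ⟨?_, p i, ?_, ?_, ?_⟩
    · rw [cut_apply_pos hc]
      grind
    · grind
    · grind
    · rw [cut_apply_pos hc]
      grind
  · rw [cut_neg hc]
    exact h

/-- Good operators. -/
structure Good (b t : α) (X : (Pat α → K) → (Pat α → K)) : Prop where
  lin : Lin X
  emp : ∀ F, (∀ p, p ≠ Pat.empty → F p = 0) → X F = F
  dead : ∀ F, (∀ p, Dead b t p → F p = 0) → ∀ p, Dead b t p → X F p = 0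
  fullv : ∀ F, (∀ p, Dead b t p → F p = 0) → X F (full b t) = F (full b t)

theorem Good.comp {b t : α} {X Y : (Pat α → K) → (Pat α → K)} (hX : Good b t X)
    (hY : Good b t Y) : Good b t (fun F => X (Y F)) where
  lin := hX.lin.comp hY.lin
  emp F hF := by
    have h1 := hY.emp F hF
    show X (Y F) = F
    rw [h1]
    exact hX.emp F hF
  dead F hF := hX.dead _ (hY.dead F hF)
  fullv F hF := by
    show X (Y F) (full b t) = F (full b t)
    rw [hX.fullv _ (hY.dead F hF), hY.fullv F hF]

theorem Good.id (b t : α) : Good (K := K) b t (fun F => F) where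
  lin := fun _ _ _ _ => rfl
  emp _ _ := rfl
  dead _ hF := hF
  fullv _ _ := rfl

theorem good_R {b t i j : α} (w : Wt K) (hbt : b ≠ t) (hij : i ≠ j) (hib : i ≠ b) (hit : i ≠ t)
    (hjb : j ≠ b) (hjt : j ≠ t) : Good b t (R w i j) where
  lin := lin_R w i j
  emp F hF := by
    funext p
    by_cases hp : p = Pat.empty
    · subst hp
      rw [R_e rfl rfl rfl, hF _ (cup_empty_ne hij), mul_zero, add_zero]
    · simp only [R]
      rw [hF p hp, hF _ (cup_ne_empty hp), hF _ (swap_ne_empty hp), hF _ (cut_ne_empty hp),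
        hF _ (cup_ne_empty (cut_ne_empty hp))]
      simp
  dead F hF p hp := by
    simp only [R]
    rw [hF p hp, hF _ (dead_cup hbt hp), hF _ (dead_swap hib hit hjb hjt hp),
      hF _ (dead_cut hib hit hjb hjt hbt hp), hF _ (dead_cup hbt (dead_cut hib hit hjb hjt hbt hp))]
    simp
  fullv F hF := by
    have hi : full b t i = i := by rw [full_apply, if_neg hib, if_neg hit]
    have hj : full b t j = j := by rw [full_apply, if_neg hjb, if_neg hjt]
    rw [R_e hi hj rfl, hF _ (dead_cup_full hbt hij hi hj), mul_zero, add_zero]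

theorem good_bot {b t i j : α} (κ k : K) (hbt : b ≠ t) (hij : i ≠ j) (hib : i ≠ b) (hit : i ≠ t)
    (hjb : j ≠ b) (hjt : j ≠ t) : Good b t (bot κ k i j b) where
  lin := lin_bot κ k i j b
  emp F hF := by
    funext p
    by_cases hp : p = Pat.empty
    · subst hp
      rw [bot_0 rfl rfl rfl rfl rfl rfl, hF _ (cup_empty_ne hij), hF _ (cup_empty_ne hib),
        hF _ (cup_empty_ne hjb)]
      simp
    · simp only [bot]
      rw [hF p hp, hF _ (cup_ne_empty hp), hF _ (cup_ne_empty hp), hF _ (cup_ne_empty hp)]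
      simp
  dead F hF p hp := by
    simp only [bot]
    rw [hF p hp, hF _ (dead_cup hbt hp), hF _ (dead_cup hbt hp), hF _ (dead_cup hbt hp)]
    simp
  fullv F hF := by
    have hi : full b t i = i := by rw [full_apply, if_neg hib, if_neg hit]
    have hj : full b t j = j := by rw [full_apply, if_neg hjb, if_neg hjt]
    have hb : full b t b ≠ b := by
      rw [full_apply, if_pos rfl]
      exact hbt.symm
    rw [bot_1 hi hj hb rfl, hF _ (dead_cup_full hbt hij hi hj), mul_zero, add_zero]

theorem good_top {b t i j : α} (κ k : K) (hbt : b ≠ t) (hib : i ≠ b) (hit : i ≠ t)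
    (hjb : j ≠ b) (hjt : j ≠ t) : Good b t (top κ k i j t) where
  lin := lin_top κ k i j t
  emp F hF := by
    funext p
    by_cases hp : p = Pat.empty
    · subst hp
      rw [top_0 rfl rfl]
    · simp only [top]
      rw [hF p hp, hF _ (swap_ne_empty hp), hF _ (swap_ne_empty hp), hF _ (cut_ne_empty hp)]
      simp
  dead F hF p hp := by
    have ht : p t ≠ t := by
      obtain ⟨h0, _⟩ := hp
      rw [← h0, p.inv]
      rw [h0]
      exact hbt
    simp only [top]
    rw [hF p hp, if_neg ht, if_neg ht, hF _ (dead_cut hib hit hjb hjt hbt hp)]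
    simp
  fullv F hF := by
    have hi : full b t i = i := by rw [full_apply, if_neg hib, if_neg hit]
    have hj : full b t j = j := by rw [full_apply, if_neg hjb, if_neg hjt]
    rw [top_0 hi hj]

theorem good_bc {b t c : α} (hbt : b ≠ t) (hcb : c ≠ b) (hct : c ≠ t) :
    Good (K := K) b t (bc c b) where
  lin := lin_bc c b
  emp F hF := by
    funext p
    by_cases hp : p = Pat.empty
    · subst hp
      rw [bc_0 rfl rfl rfl, hF _ (cup_empty_ne hcb), add_zero]
    · simp only [bc]
      rw [hF p hp, hF _ (cup_ne_empty hp)]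
      simp
  dead F hF p hp := by
    simp only [bc]
    rw [hF p hp, hF _ (dead_cup hbt hp)]
    simp
  fullv F hF := by
    have hc : full b t c = c := by rw [full_apply, if_neg hcb, if_neg hct]
    have hb : full b t b ≠ b := by
      rw [full_apply, if_pos rfl]
      exact hbt.symm
    rw [bc_1 hc hb]

theorem good_tc {b t c : α} (hbt : b ≠ t) (hcb : c ≠ b) (hct : c ≠ t) :
    Good (K := K) b t (tc c t) where
  lin := lin_tc c t
  emp F hF := by
    funext p
    by_cases hp : p = Pat.empty
    · subst hp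
      rw [tc_0 rfl]
    · simp only [tc]
      rw [hF p hp, hF _ (swap_ne_empty hp)]
      simp
  dead F hF p hp := by
    have ht : p t ≠ t := by
      obtain ⟨h0, _⟩ := hp
      rw [← h0, p.inv]
      rw [h0]
      exact hbt
    simp only [tc]
    rw [hF p hp, if_neg ht]
    simp
  fullv F hF := by
    have hc : full b t c = c := by rw [full_apply, if_neg hcb, if_neg hct]
    rw [tc_0 hc]

end Pool.Agent.EXL.HS
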