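import Mathlib

/-!
# Stability of the linear system of the strip (board EXI, I3b, second half)

A family M(z) of finite matrices with entries continuous at z0 and 1 - M(z0) invertible: 1 - M(z) is
invertible for z near z0, the inverse is continuous at z0, and the solution of the linear system
depends continuously on z.  The same for operators on functions on a finite set of states.
-/

set_option autoImplicit false

namespace Pool.Agent.EXL.GreenCont

open Matrix Topology Filter

section mat

variable {Z s K : Type*} [TopologicalSpace Z] [Fintype s] [DecidableEq s] [NormedField K]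

/-- Continuity of the determinant at a point. -/
theorem continuousAt_det {A : Z → Matrix s s K} {z₀ : Z} (hA : ContinuousAt A z₀) :
    ContinuousAt (fun z => (A z).det) z₀ := by
  have h : Continuous (fun B : Matrix s s K => B.det) := Continuous.matrix_det continuous_id
  exact h.continuousAt.comp hA

/-- Continuity of the adjugate at a point. -/
theorem continuousAt_adjugate {A : Z → Matrix s s K} {z₀ : Z} (hA : ContinuousAt A z₀) :
    ContinuousAt (fun z => (A z).adjugate) z₀ := by
  have h : Continuous (fun B : Matrix s s K => B.adjugate) := Continuous.matrix_adjugate continuous_id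
  exact h.continuousAt.comp hA

/-- A family of matrices that is invertible at a point is invertible near the point. -/
theorem eventually_isUnit {A : Z → Matrix s s K} {z₀ : Z} (hA : ContinuousAt A z₀)
    (h0 : IsUnit (A z₀)) : ∀ᶠ z in 𝓝 z₀, IsUnit (A z) := by
  have h1 : (A z₀).det ≠ 0 := ((Matrix.isUnit_iff_isUnit_det _).1 h0).ne_zero
  have h2 := (continuousAt_det hA).eventually_ne h1
  filter_upwards [h2] with z hz
  exact (Matrix.isUnit_iff_isUnit_det _).2 (isUnit_iff_ne_zero.2 hz)

/-- The inverse is continuous at a point where the family is invertible. -/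
theorem continuousAt_inv {A : Z → Matrix s s K} {z₀ : Z} (hA : ContinuousAt A z₀)
    (h0 : IsUnit (A z₀)) : ContinuousAt (fun z => (A z)⁻¹) z₀ := by
  have h1 : (A z₀).det ≠ 0 := ((Matrix.isUnit_iff_isUnit_det _).1 h0).ne_zero
  have h2 : (fun z => (A z)⁻¹) = fun z => (A z).det⁻¹ • (A z).adjugate := by
    funext z
    rw [Matrix.inv_def, Ring.inverse_eq_inv']
  rw [h2]
  exact ((continuousAt_det hA).inv₀ h1).smul (continuousAt_adjugate hA)

omit [Fintype s] [DecidableEq s] in
/-- Entrywise continuity is continuity. -/
theorem continuousAt_of_entries {A : Z → Matrix s s K} {z₀ : Z}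
    (hA : ∀ i j, ContinuousAt (fun z => A z i j) z₀) : ContinuousAt A z₀ :=
  continuousAt_pi.2 fun i => continuousAt_pi.2 fun j => hA i j

/-- **Stability of the inverse of 1 - M(z).** -/
theorem isUnit_one_sub {M : Z → Matrix s s K} {z₀ : Z}
    (hM : ∀ i j, ContinuousAt (fun z => M z i j) z₀) (h0 : IsUnit (1 - M z₀)) :
    (∀ᶠ z in 𝓝 z₀, IsUnit (1 - M z)) ∧ ContinuousAt (fun z => (1 - M z)⁻¹) z₀ := by
  have h : ContinuousAt (fun z => 1 - M z) z₀ := continuousAt_const.sub (continuousAt_of_entries hM)
  exact ⟨eventually_isUnit h h0, continuousAt_inv h h0⟩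

/-- A homogeneous system with only the zero solution is invertible. -/
theorem isUnit_of_uniq {M : Matrix s s K} (h : ∀ G : s → K, M *ᵥ G = G → G = 0) :
    IsUnit (1 - M) := by
  by_contra hc
  have hd : (1 - M).det = 0 := by
    by_contra hd
    exact hc ((Matrix.isUnit_iff_isUnit_det _).2 (isUnit_iff_ne_zero.2 hd))
  obtain ⟨G, hG, hG'⟩ := Matrix.exists_mulVec_eq_zero_iff.2 hd
  apply hG
  apply h
  rw [Matrix.sub_mulVec, Matrix.one_mulVec, sub_eq_zero] at hG'
  exact hG'.symm

/-- Existence, uniqueness and continuity of the solution of a linear system. -/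
theorem exists_sol {M : Z → Matrix s s K} {b : Z → s → K} {z₀ : Z}
    (hM : ∀ i j, ContinuousAt (fun z => M z i j) z₀) (hb : ∀ i, ContinuousAt (fun z => b z i) z₀)
    (h0 : IsUnit (1 - M z₀)) :
    ∃ F : Z → s → K, (∀ i, ContinuousAt (fun z => F z i) z₀) ∧
      ∀ᶠ z in 𝓝 z₀, F z = b z + M z *ᵥ F z ∧ ∀ G : s → K, G = b z + M z *ᵥ G → G = F z := by
  obtain ⟨h1, h2⟩ := isUnit_one_sub hM h0
  refine ⟨fun z => (1 - M z)⁻¹ *ᵥ b z, ?_, ?_⟩
  · intro i
    have h3 : ∀ j, ContinuousAt (fun z => (1 - M z)⁻¹ i j) z₀ := fun j =>
      continuousAt_pi.1 (continuousAt_pi.1 h2 i) j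
    have h4 : (fun z => ((1 - M z)⁻¹ *ᵥ b z) i) = fun z => ∑ j, (1 - M z)⁻¹ i j * b z j := by
      funext z
      rfl
    rw [h4]
    exact tendsto_finsetSum _ fun j _ => (h3 j).mul (hb j)
  · filter_upwards [h1] with z hz
    have hz' : IsUnit (1 - M z).det := (Matrix.isUnit_iff_isUnit_det _).1 hz
    have key : ∀ G : s → K, G = b z + M z *ᵥ G ↔ (1 - M z) *ᵥ G = b z := by
      intro G
      rw [Matrix.sub_mulVec, Matrix.one_mulVec, sub_eq_iff_eq_add]
    constructor
    · rw [key, Matrix.mulVec_mulVec, Matrix.mul_nonsing_inv _ hz', Matrix.one_mulVec]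
    · intro G hG
      rw [key] at hG
      rw [← hG, Matrix.mulVec_mulVec, Matrix.nonsing_inv_mul _ hz', Matrix.one_mulVec]

/-- A real matrix that is invertible is invertible over the complex numbers. -/
theorem isUnit_map {M : Matrix s s ℝ} (h : IsUnit (1 - M)) :
    IsUnit (1 - M.map (fun r : ℝ => (r : ℂ))) := by
  have h1 := h.map (RingHom.mapMatrix Complex.ofRealHom)
  rw [map_sub, map_one] at h1
  exact h1

end mat

section op

variable {Z P K : Type*} [TopologicalSpace Z] [Finite P] [NormedField K]

/-- **Operators on functions on a finite set of states.**  `C z` is a family of linear operators,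
continuous at `z₀`, `S` is a set of states (the unknowns), `b z` the inhomogeneity.  If at `z₀` the
homogeneous problem on `S` has only the zero solution, then for all `z` near `z₀` there is exactly
one function `F z` that vanishes off `S` and satisfies `F = b + C F` on `S`, and `F` is continuous
at `z₀`. -/
theorem op_sol (S : Set P) (C : Z → (P → K) → (P → K)) (b : Z → P → K) {z₀ : Z}
    (hlin : ∀ z (r r' : K) (F G : P → K), C z (fun p => r * F p + r' * G p) =
      fun p => r * C z F p + r' * C z G p)
    (hC : ∀ (F : P → K) (p : P), ContinuousAt (fun z => C z F p) z₀)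
    (hb : ∀ p, ContinuousAt (fun z => b z p) z₀)
    (huniq : ∀ G : P → K, (∀ p, p ∉ S → G p = 0) → (∀ p ∈ S, G p = C z₀ G p) → G = 0) :
    ∃ F : Z → P → K, (∀ p, ContinuousAt (fun z => F z p) z₀) ∧ (∀ z p, p ∉ S → F z p = 0) ∧
      ∀ᶠ z in 𝓝 z₀, (∀ p ∈ S, F z p = b z p + C z (F z) p) ∧
        ∀ G : P → K, (∀ p, p ∉ S → G p = 0) → (∀ p ∈ S, G p = b z p + C z G p) → G = F z := by
  classical
  have : Fintype P := Fintype.ofFinite P
  let e : P → P → K := fun q p => if p = q then 1 else 0
  let ext : (S → K) → (P → K) := fun g p => if h : p ∈ S then g ⟨p, h⟩ else 0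
  let M : Z → Matrix S S K := fun z i j => C z (e j) i
  -- linearity
  have hsum : ∀ (z : Z) (t : Finset S) (g : S → K), C z (fun p => ∑ j ∈ t, g j * e j p) =
      fun p => ∑ j ∈ t, g j * C z (e j) p := by
    intro z t g
    induction t using Finset.induction_on with
    | empty =>
      have := hlin z 0 0 0 0
      simpa using this
    | insert a t ha ih =>
      have h1 : (fun p => ∑ j ∈ insert a t, g j * e j p) =
          fun p => g a * e a p + 1 * (∑ j ∈ t, g j * e j p) := by
        funext p
        rw [Finset.sum_insert ha, one_mul]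
      rw [h1, hlin z (g a) 1 (e a) (fun p => ∑ j ∈ t, g j * e j p), ih]
      funext p
      rw [Finset.sum_insert ha, one_mul]
  have hext : ∀ g : S → K, ext g = fun p => ∑ j : S, g j * e j p := by
    intro g
    funext p
    by_cases h : p ∈ S
    · have h1 : ext g p = g ⟨p, h⟩ := dif_pos h
      rw [h1, Finset.sum_eq_single (⟨p, h⟩ : S)]
      · simp [e]
      · intro j _ hj
        have : p ≠ (j : P) := fun hc => hj (Subtype.ext hc.symm)
        simp [e, this]
      · simp
    · have h1 : ext g p = 0 := dif_neg h
      rw [h1]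
      symm
      apply Finset.sum_eq_zero
      intro j _
      have : p ≠ (j : P) := fun hc => h (hc ▸ j.2)
      simp [e, this]
  have hM : ∀ (z : Z) (g : S → K) (i : S), C z (ext g) i = (M z *ᵥ g) i := by
    intro z g i
    rw [hext, hsum]
    simp only [Matrix.mulVec, dotProduct, M]
    exact Finset.sum_congr rfl fun j _ => mul_comm _ _
  have hext_in : ∀ (g : S → K) (i : S), ext g i = g i := by
    intro g i
    exact dif_pos i.2
  have hext_out : ∀ (g : S → K) (p : P), p ∉ S → ext g p = 0 := by
    intro g p hp
    exact dif_neg hp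
  have hres : ∀ G : P → K, (∀ p, p ∉ S → G p = 0) → ext (fun i : S => G i) = G := by
    intro G hG
    funext p
    by_cases h : p ∈ S
    · exact dif_pos h
    · rw [hG p h]
      exact dif_neg h
  have h0 : IsUnit (1 - M z₀) := by
    apply isUnit_of_uniq
    intro g hg
    have h1 : ext g = 0 := by
      apply huniq
      · intro p hp
        exact hext_out g p hp
      · intro p hp
        have h2 := hM z₀ g ⟨p, hp⟩
        rw [hg] at h2
        change C z₀ (ext g) p = _ at h2
        rw [h2]
        exact hext_in g ⟨p, hp⟩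
    funext i
    rw [← hext_in g i, h1]
    rfl
  obtain ⟨F, hF1, hF2⟩ := exists_sol (M := M) (b := fun z i => b z i) (z₀ := z₀)
    (fun i j => hC (e j) i) (fun i => hb i) h0
  refine ⟨fun z => ext (F z), ?_, fun z p hp => hext_out _ p hp, ?_⟩
  · intro p
    by_cases h : p ∈ S
    · have h1 : (fun z => ext (F z) p) = fun z => F z ⟨p, h⟩ := by
        funext z
        exact dif_pos h
      change ContinuousAt (fun z => ext (F z) p) z₀
      rw [h1]
      exact hF1 ⟨p, h⟩
    · have h1 : (fun z => ext (F z) p) = fun _ => 0 := by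
        funext z
        exact dif_neg h
      change ContinuousAt (fun z => ext (F z) p) z₀
      rw [h1]
      exact continuousAt_const
  · filter_upwards [hF2] with z hz
    obtain ⟨h1, h2⟩ := hz
    constructor
    · intro p hp
      have h3 := congrFun h1 ⟨p, hp⟩
      rw [Pi.add_apply, ← hM z (F z) ⟨p, hp⟩] at h3
      change ext (F z) p = _
      rw [show ext (F z) p = F z ⟨p, hp⟩ from dif_pos hp]
      exact h3
    · intro G hG hG'
      rw [← hres G hG]
      have h3 : (fun i : S => G i) = F z := by
        apply h2
        funext i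
        rw [Pi.add_apply, ← hM z (fun i : S => G i) i, hres G hG]
        exact hG' i i.2
      change ext (fun i : S => G i) = ext (F z)
      rw [h3]

end op

end Pool.Agent.EXL.GreenCont
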