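import Pool.Agent.EXL.Good

/-!
# The half strip function

`Half A X β F`: on the admissible states, `X F = F + β δ_empty`, `F = 0` on the dead states and
`F full = 1`.  If `C` has such an `F` and is injective enough, every good operator commuting with
`C` has the same `F`; the numbers `β` are additive under products, and `F`, `β` are continuous in
parameters.
-/

namespace Pool.Agent.EXL.HS

open Pat

variable {α K : Type*} [DecidableEq α] [CommRing K]

/-- The values of `X F` on `A` only depend on the values of `F` on `A'`. -/
def Pres (A A' : Pat α → Prop) (X : (Pat α → K) → (Pat α → K)) : Prop :=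
  ∀ F G, (∀ p, A' p → F p = G p) → ∀ p, A p → X F p = X G p

omit [DecidableEq α] [CommRing K] in
theorem Pres.comp {A A' A'' : Pat α → Prop} {X Y : (Pat α → K) → (Pat α → K)} (hX : Pres A A' X)
    (hY : Pres A' A'' Y) : Pres A A'' (fun F => X (Y F)) :=
  fun F G h p hp => hX _ _ (hY F G h) p hp

omit [DecidableEq α] [CommRing K] in
theorem Pres.id (A : Pat α → Prop) : Pres A A (fun F : Pat α → K => F) := fun _ _ h p hp => h p hp

omit [DecidableEq α] [CommRing K] in
theorem Pres.mono {A A' B B' : Pat α → Prop} {X : (Pat α → K) → (Pat α → K)} (hX : Pres A A' X)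
    (h1 : ∀ p, B p → A p) (h2 : ∀ p, A' p → B' p) : Pres B B' X :=
  fun F G h p hp => hX F G (fun q hq => h q (h2 q hq)) p (h1 p hp)

/-- `X F = F + β δ_empty` on the admissible states. -/
structure Half (b t : α) (A : Pat α → Prop) (X : (Pat α → K) → (Pat α → K)) (β : K)
    (F : Pat α → K) : Prop where
  dead : ∀ p, A p → Dead b t p → F p = 0
  fullv : F (full b t) = 1
  eq : ∀ p, A p → p ≠ Pat.empty → X F p = F p
  emp : X F Pat.empty = F Pat.empty + β

/-- The live states: not empty, and the two ends are not joined. -/
def Live (b t : α) (p : Pat α) : Prop := p b ≠ t ∧ p ≠ Pat.empty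

/-- `1 - X` is injective on the functions supported on the live admissible states. -/
def Inj (b t : α) (A : Pat α → Prop) (X : (Pat α → K) → (Pat α → K)) : Prop :=
  ∀ G : Pat α → K, (∀ p, ¬ (Live b t p ∧ A p) → G p = 0) →
    (∀ p, Live b t p → A p → X G p = G p) → ∀ p, G p = 0

section basic

variable {b t : α} {A : Pat α → Prop} {X Y C : (Pat α → K) → (Pat α → K)}

/-- restriction of a function to the admissible states. -/
noncomputable def restr (A : Pat α → Prop) (F : Pat α → K) : Pat α → K :=
  open scoped Classical in fun p => if A p then F p else 0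

omit [DecidableEq α] in
theorem restr_pos {F : Pat α → K} {p : Pat α} (h : A p) : restr A F p = F p := by
  classical
  unfold restr
  rw [if_pos h]

omit [DecidableEq α] in
theorem restr_neg {F : Pat α → K} {p : Pat α} (h : ¬ A p) : restr A F p = 0 := by
  classical
  unfold restr
  rw [if_neg h]

omit [DecidableEq α] in
theorem Pres.restr {A' : Pat α → Prop} (hX : Pres A A' X) (F : Pat α → K) {p : Pat α} (hp : A p) :
    X (restr A' F) p = X F p := hX _ _ (fun _ hq => restr_pos hq) p hp

/-- the indicator of the empty state. -/
noncomputable def dE : Pat α → K := open scoped Classical in fun p => if p = Pat.empty then 1 else 0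

omit [DecidableEq α] in
theorem dE_empty : (dE : Pat α → K) Pat.empty = 1 := by
  classical
  unfold dE
  rw [if_pos rfl]

omit [DecidableEq α] in
theorem dE_ne {p : Pat α} (h : p ≠ Pat.empty) : (dE : Pat α → K) p = 0 := by
  classical
  unfold dE
  rw [if_neg h]

theorem Good.dE (hX : Good b t X) : X HS.dE = HS.dE := hX.emp _ (fun _ h => dE_ne h)

/-- values of a good operator at the dead states. -/
theorem Good.dead_of (hX : Good b t X) (PX : Pres A A X) {F : Pat α → K}
    (h : ∀ p, A p → Dead b t p → F p = 0) (p : Pat α) (hp : A p) (hd : Dead b t p) : X F p = 0 := by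
  rw [← PX.restr F hp]
  apply hX.dead _ _ p hd
  intro q hq
  by_cases hA : A q
  · rw [restr_pos hA]
    exact h q hA hq
  · exact restr_neg hA

theorem Good.full_of (hX : Good b t X) (PX : Pres A A X) (hf : A (full b t)) {F : Pat α → K}
    (h : ∀ p, A p → Dead b t p → F p = 0) : X F (full b t) = F (full b t) := by
  rw [← PX.restr F hf, hX.fullv, restr_pos hf]
  intro q hq
  by_cases hA : A q
  · rw [restr_pos hA]
    exact h q hA hq
  · exact restr_neg hA

omit [DecidableEq α] in
theorem _root_.Pool.Agent.EXL.Lin.sub (hX : Lin X) (F G : Pat α → K) : X (fun p => F p - G p) = fun p => X F p - X G p := by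
  have := hX 1 (-1) F G
  have e1 : (fun p => (1 : K) * F p + (-1) * G p) = fun p => F p - G p := by
    funext p
    ring
  rw [e1] at this
  rw [this]
  funext p
  ring

omit [DecidableEq α] in
theorem _root_.Pool.Agent.EXL.Lin.addSmul (hX : Lin X) (F G : Pat α → K) (c : K) :
    X (fun p => F p + c * G p) = fun p => X F p + c * X G p := by
  have := hX 1 c F G
  simpa using this

/-- a function that vanishes on the closed admissible states and is fixed by `C` outside of the empty
state is supported at the empty state. -/
theorem Inj.zero (inj : Inj b t A C) (hbt : b ≠ t) (hC : Good b t C) (PC : Pres A A C)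
    {G : Pat α → K} (h0 : ∀ p, A p → p b = t → G p = 0)
    (h1 : ∀ p, A p → Live b t p → C G p = G p) (p : Pat α) (hp : A p) (hne : p ≠ Pat.empty) :
    G p = 0 := by
  classical
  by_cases hc : p b = t
  · exact h0 p hp hc
  -- the restricted function
  have key := inj (fun q => if Live b t q ∧ A q then G q else 0)
    (fun q hq => if_neg hq) ?_ p
  · rw [if_pos ⟨⟨hc, hne⟩, hp⟩] at key
    exact key
  · intro q hq hA
    rw [if_pos ⟨hq, hA⟩, ← h1 q hA hq]
    -- G = G' + c dE on A
    have e1 : ∀ r, A r → G r = (fun r => (if Live b t r ∧ A r then G r else 0) +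
        G Pat.empty * (dE : Pat α → K) r) r := by
      intro r hr
      by_cases hr0 : r = Pat.empty
      · subst hr0
        have : ¬ (Live b t (Pat.empty : Pat α) ∧ A Pat.empty) := fun h => h.1.2 rfl
        simp only
        rw [if_neg this, dE_empty, zero_add, mul_one]
      · simp only
        rw [dE_ne hr0, mul_zero, add_zero]
        by_cases hr1 : r b = t
        · rw [h0 r hr hr1, if_neg]
          exact fun h => h.1.1 hr1
        · rw [if_pos ⟨⟨hr1, hr0⟩, hr⟩]
    rw [PC G _ e1 q hA, hC.lin.addSmul, hC.dE]
    simp only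
    rw [dE_ne hq.2, mul_zero, add_zero]

/-- Every good operator commuting with `C` has the same half strip function. -/
theorem Half.of_commute {β : K} {F : Pat α → K} (hbt : b ≠ t) (hf : A (full b t))
    (he : A Pat.empty) (hC : Good b t C) (PC : Pres A A C) (hX : Good b t X) (PX : Pres A A X)
    (hXC : ∀ G p, A p → X (C G) p = C (X G) p) (inj : Inj b t A C) (h : Half b t A C β F) :
    Half b t A X (X F Pat.empty - F Pat.empty) F where
  dead := h.dead
  fullv := h.fullv
  emp := by ring
  eq := by
    intro p hp hne
    have key := inj.zero hbt hC PC (G := fun p => X F p - F p) ?_ ?_ p hp hne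
    · exact sub_eq_zero.1 key
    · intro q hq hqb
      rcases full_or_dead hqb with rfl | hd
      · rw [hX.full_of PX hf h.dead, sub_self]
      · rw [hX.dead_of PX h.dead q hq hd, h.dead q hq hd, sub_self]
    · intro q hq hlive
      rw [hC.lin.sub]
      simp only
      rw [h.eq q hq hlive.2, ← hXC F q hq]
      -- X (C F) = X (F + β dE) on A
      have e1 : ∀ r, A r → C F r = (fun r => F r + β * (dE : Pat α → K) r) r := by
        intro r hr
        by_cases hr0 : r = Pat.empty
        · subst hr0
          rw [h.emp]
          simp only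
          rw [dE_empty, mul_one]
        · simp only
          rw [h.eq r hr hr0, dE_ne hr0, mul_zero, add_zero]
      rw [PX _ _ e1 q hq, hX.lin.addSmul, hX.dE]
      simp only
      rw [dE_ne hlive.2, mul_zero, add_zero]

/-- The numbers add up under products. -/
theorem Half.comp {β γ : K} {F : Pat α → K} (he : A Pat.empty) (hX : Good b t X)
    (PX : Pres A A X) (h : Half b t A X β F) (h' : Half b t A Y γ F) :
    Half b t A (fun G => X (Y G)) (β + γ) F := by
  have e1 : ∀ r, A r → Y F r = (fun r => F r + γ * (dE : Pat α → K) r) r := by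
    intro r hr
    by_cases hr0 : r = Pat.empty
    · subst hr0
      rw [h'.emp]
      simp only
      rw [dE_empty, mul_one]
    · simp only
      rw [h'.eq r hr hr0, dE_ne hr0, mul_zero, add_zero]
  refine ⟨h.dead, h.fullv, ?_, ?_⟩
  · intro p hp hne
    show X (Y F) p = F p
    rw [PX _ _ e1 p hp, hX.lin.addSmul, hX.dE]
    simp only
    rw [dE_ne hne, mul_zero, add_zero, h.eq p hp hne]
  · show X (Y F) Pat.empty = _
    rw [PX _ _ e1 _ he, hX.lin.addSmul, hX.dE]
    simp only
    rw [dE_empty, mul_one, h.emp]
    ring

omit [DecidableEq α] in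
/-- Operators that agree on the admissible states. -/
theorem Half.congr [DecidableEq α] {β : K} {F : Pat α → K} (he : A Pat.empty) (h : Half b t A X β F)
    (hXY : ∀ p, A p → Y F p = X F p) : Half b t A Y β F :=
  ⟨h.dead, h.fullv, fun p hp hne => by rw [hXY p hp]; exact h.eq p hp hne,
    by rw [hXY _ he]; exact h.emp⟩

/-- The number is determined. -/
theorem Half.beta_eq {β γ : K} {F : Pat α → K} (h : Half b t A X β F) (h' : Half b t A X γ F) :
    β = γ := by
  have h1 := h.emp
  rw [h'.emp] at h1
  exact (add_left_cancel h1).symm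

/-- The identity. -/
theorem Half.one {β : K} {F : Pat α → K} (h : Half b t A X β F) : Half b t A (fun G => G) 0 F :=
  ⟨h.dead, h.fullv, fun _ _ _ => rfl, (add_zero _).symm⟩

/-- Uniqueness of the half strip function (up to its value at the empty state) and of the number. -/
theorem Half.unique {β γ : K} {F G : Pat α → K} (hbt : b ≠ t) (he : A Pat.empty)
    (hC : Good b t C) (PC : Pres A A C) (inj : Inj b t A C) (h : Half b t A C β F)
    (h' : Half b t A C γ G) : β = γ ∧ ∀ p, A p → p ≠ Pat.empty → F p = G p := by
  have key : ∀ p, A p → p ≠ Pat.empty → F p = G p := by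
    intro p hp hne
    have := inj.zero hbt hC PC (G := fun p => F p - G p) ?_ ?_ p hp hne
    · exact sub_eq_zero.1 this
    · intro q hq hqb
      rcases full_or_dead hqb with rfl | hd
      · rw [h.fullv, h'.fullv, sub_self]
      · rw [h.dead q hq hd, h'.dead q hq hd, sub_self]
    · intro q hq hlive
      rw [hC.lin.sub]
      simp only
      rw [h.eq q hq hlive.2, h'.eq q hq hlive.2]
  refine ⟨?_, key⟩
  have e1 : ∀ r, A r → F r = (fun r => G r + (F Pat.empty - G Pat.empty) * (dE : Pat α → K) r) r := by
    intro r hr
    by_cases hr0 : r = Pat.empty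
    · subst hr0
      simp only
      rw [dE_empty]
      ring
    · simp only
      rw [key r hr hr0, dE_ne hr0, mul_zero, add_zero]
  have h1 := h.emp
  rw [PC _ _ e1 _ he, hC.lin.addSmul, hC.dE] at h1
  simp only at h1
  rw [dE_empty, h'.emp] at h1
  linear_combination -h1

/-- The property only depends on the function outside of the empty state. -/
theorem Half.change {β : K} {F G : Pat α → K} (he : A Pat.empty) (hX : Good b t X)
    (PX : Pres A A X) (hf : A (full b t)) (hbt : b ≠ t) (h : Half b t A X β F)
    (hFG : ∀ p, A p → p ≠ Pat.empty → F p = G p) : Half b t A X β G := by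
  have e1 : ∀ r, A r → G r = (fun r => F r + (G Pat.empty - F Pat.empty) * (dE : Pat α → K) r) r := by
    intro r hr
    by_cases hr0 : r = Pat.empty
    · subst hr0
      simp only
      rw [dE_empty]
      ring
    · simp only
      rw [← hFG r hr hr0, dE_ne hr0, mul_zero, add_zero]
  refine ⟨?_, ?_, ?_, ?_⟩
  · intro p hp hd
    rw [← hFG p hp (dead_ne_empty hd)]
    exact h.dead p hp hd
  · rw [← hFG _ hf (full_ne_empty hbt)]
    exact h.fullv
  · intro p hp hne
    rw [PX _ _ e1 p hp, hX.lin.addSmul, hX.dE]
    simp only
    rw [dE_ne hne, mul_zero, add_zero, h.eq p hp hne, hFG p hp hne]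
  · rw [PX _ _ e1 _ he, hX.lin.addSmul, hX.dE]
    simp only
    rw [dE_empty, h.emp]
    ring

/-- Transport by an intertwiner: `X (S G) = S (X' G)`. -/
theorem Half.transport {X' S : (Pat α → K) → (Pat α → K)} {β : K} {F : Pat α → K}
    (he : A Pat.empty) (hf : A (full b t)) (hS : Good b t S) (PS : Pres A A S)
    (hXS : ∀ G p, A p → X (S G) p = S (X' G) p) (h : Half b t A X' β F) :
    Half b t A X β (S F) := by
  have e1 : ∀ r, A r → X' F r = (fun r => F r + β * (dE : Pat α → K) r) r := by
    intro r hr
    by_cases hr0 : r = Pat.empty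
    · subst hr0
      rw [h.emp]
      simp only
      rw [dE_empty, mul_one]
    · simp only
      rw [h.eq r hr hr0, dE_ne hr0, mul_zero, add_zero]
  refine ⟨fun p hp hd => hS.dead_of PS h.dead p hp hd, ?_, ?_, ?_⟩
  · rw [hS.full_of PS hf h.dead]
    exact h.fullv
  · intro p hp hne
    rw [hXS F p hp, PS _ _ e1 p hp, hS.lin.addSmul, hS.dE]
    simp only
    rw [dE_ne hne, mul_zero, add_zero]
  · rw [hXS F _ he, PS _ _ e1 _ he, hS.lin.addSmul, hS.dE]
    simp only
    rw [dE_empty, mul_one]

end basic

end Pool.Agent.EXL.HS
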