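import Pool.Agent.EXL.H1

/-!
# Existence and continuity of the half strip function near a point where `1 - C'` is injective
-/

namespace Pool.Agent.EXL.HS

open Pat Filter Topology

variable {α : Type*} [DecidableEq α]

instance [Finite α] : Finite (Pat α) :=
  Finite.of_injective (fun p : Pat α => p.f) (fun p q h => Pat.ext h)

section lin

variable {K : Type*} [CommRing K]

omit [DecidableEq α] in
theorem _root_.Pool.Agent.EXL.Lin.zero {X : (Pat α → K) → (Pat α → K)} (hX : Lin X) : X (fun _ => 0) = fun _ => 0 := by
  have := hX 0 0 (fun _ => 0) (fun _ => 0)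
  simpa using this

omit [DecidableEq α] in
theorem _root_.Pool.Agent.EXL.Lin.sum {X : (Pat α → K) → (Pat α → K)} (hX : Lin X) {ι : Type*} (s : Finset ι) (c : ι → K)
    (G : ι → Pat α → K) :
    X (fun p => ∑ i ∈ s, c i * G i p) = fun p => ∑ i ∈ s, c i * X (G i) p := by
  classical
  induction s using Finset.induction_on with
  | empty => simpa using hX.zero
  | insert i s hi ih =>
    have e : (fun p => ∑ j ∈ insert i s, c j * G j p) =
        fun p => c i * G i p + 1 * (fun p => ∑ j ∈ s, c j * G j p) p := by
      funext p
      rw [Finset.sum_insert hi, one_mul]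
    rw [e, hX, ih]
    funext p
    rw [Finset.sum_insert hi, one_mul]

/-- the indicator of a state. -/
noncomputable def ind (q : Pat α) : Pat α → K := open scoped Classical in fun p => if p = q then 1 else 0

omit [DecidableEq α] in
theorem ind_self (q : Pat α) : (ind q : Pat α → K) q = 1 := by
  classical
  unfold ind
  rw [if_pos rfl]

omit [DecidableEq α] in
theorem ind_ne {p q : Pat α} (h : p ≠ q) : (ind q : Pat α → K) p = 0 := by
  classical
  unfold ind
  rw [if_neg h]

omit [DecidableEq α] in
theorem eq_sum_ind [Fintype (Pat α)] (F : Pat α → K) : F = fun p => ∑ q, F q * ind q p := by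
  classical
  funext p
  rw [Finset.sum_eq_single p]
  · rw [ind_self, mul_one]
  · intro q _ hq
    rw [ind_ne hq.symm, mul_zero]
  · intro h
    exact absurd (Finset.mem_univ p) h

omit [DecidableEq α] in
theorem _root_.Pool.Agent.EXL.Lin.apply_eq_sum [Fintype (Pat α)] {X : (Pat α → K) → (Pat α → K)} (hX : Lin X)
    (F : Pat α → K) (p : Pat α) : X F p = ∑ q, F q * X (ind q) p := by
  conv_lhs => rw [eq_sum_ind F]
  rw [hX.sum]

end lin

section field

variable {K : Type*} [Field K] {b t : α} {A : Pat α → Prop}

/-- the live admissible states. -/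
abbrev LA (b t : α) (A : Pat α → Prop) := {p : Pat α // Live b t p ∧ A p}

/-- the matrix `1 - X` on the live admissible states. -/
noncomputable def mat (b t : α) (A : Pat α → Prop) (X : (Pat α → K) → (Pat α → K)) :
    Matrix (LA b t A) (LA b t A) K :=
  open scoped Classical in fun p q => (if p = q then 1 else 0) - X (ind q.1) p.1

/-- extension of a vector by zero. -/
noncomputable def ext0 (v : LA b t A → K) : Pat α → K :=
  open scoped Classical in fun p => if h : Live b t p ∧ A p then v ⟨p, h⟩ else 0

omit [DecidableEq α] in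
theorem ext0_val (v : LA b t A → K) (p : LA b t A) : ext0 v p.1 = v p := by
  classical
  unfold ext0
  rw [dif_pos p.2]

omit [DecidableEq α] in
theorem ext0_neg (v : LA b t A → K) {p : Pat α} (h : ¬ (Live b t p ∧ A p)) : ext0 v p = 0 := by
  classical
  unfold ext0
  rw [dif_neg h]

omit [DecidableEq α] in
theorem ext0_eq_sum [Fintype (LA b t A)] (v : LA b t A → K) :
    ext0 v = fun p => ∑ q : LA b t A, v q * ind q.1 p := by
  classical
  funext p
  by_cases h : Live b t p ∧ A p
  · rw [Finset.sum_eq_single ⟨p, h⟩]
    · rw [ind_self, mul_one]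
      exact ext0_val v ⟨p, h⟩
    · intro q _ hq
      rw [ind_ne, mul_zero]
      intro h1
      exact hq (Subtype.ext h1.symm)
    · intro h1
      exact absurd (Finset.mem_univ _) h1
  · rw [ext0_neg v h, Finset.sum_eq_zero]
    intro q _
    rw [ind_ne, mul_zero]
    intro h1
    exact h (h1 ▸ q.2)

omit [DecidableEq α] in
theorem mat_mulVec [Fintype (LA b t A)] {X : (Pat α → K) → (Pat α → K)} (hX : Lin X)
    (v : LA b t A → K) (p : LA b t A) :
    (mat b t A X).mulVec v p = v p - X (ext0 v) p.1 := by
  classical
  rw [ext0_eq_sum, hX.sum]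
  unfold Matrix.mulVec dotProduct mat
  simp only [sub_mul, Finset.sum_sub_distrib]
  congr 1
  · rw [Finset.sum_eq_single p]
    · rw [if_pos rfl, one_mul]
    · intro q _ hq
      rw [if_neg hq.symm, zero_mul]
    · intro h
      exact absurd (Finset.mem_univ _) h
  · apply Finset.sum_congr rfl
    intro q _
    ring

omit [DecidableEq α] in
theorem det_ne_zero_iff [Fintype (LA b t A)] [DecidableEq (LA b t A)]
    {X : (Pat α → K) → (Pat α → K)} (hX : Lin X) : (mat b t A X).det ≠ 0 ↔ Inj b t A X := by
  classical
  constructor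
  · intro h G h0 h1 p
    by_contra hp
    apply h
    rw [← Matrix.exists_mulVec_eq_zero_iff]
    refine ⟨fun q => G q.1, ?_, ?_⟩
    · intro h2
      by_cases hpA : Live b t p ∧ A p
      · exact hp (congrFun h2 ⟨p, hpA⟩)
      · exact hp (h0 p hpA)
    · funext q
      have e : ext0 (fun q : LA b t A => G q.1) = G := by
        funext r
        by_cases hr : Live b t r ∧ A r
        · exact ext0_val (fun q : LA b t A => G q.1) ⟨r, hr⟩
        · rw [ext0_neg _ hr, h0 r hr]
      rw [mat_mulVec hX, e, h1 q.1 q.2.1 q.2.2, sub_self]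
      rfl
  · intro inj hdet
    rw [← Matrix.exists_mulVec_eq_zero_iff] at hdet
    obtain ⟨v, hv, h0⟩ := hdet
    apply hv
    funext q
    have key := inj (ext0 v) (fun p hp => ext0_neg v hp) ?_ q.1
    · rw [ext0_val] at key
      exact key
    · intro p h1 h2
      have := congrFun h0 ⟨p, h1, h2⟩
      rw [mat_mulVec hX] at this
      rw [show ext0 v p = v ⟨p, h1, h2⟩ from ext0_val v ⟨p, h1, h2⟩]
      exact (sub_eq_zero.1 this).symm

end field

section top

variable {K : Type*} [Field K] [TopologicalSpace K] [IsTopologicalDivisionRing K] [T1Space K]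
  {b t : α} {A : Pat α → Prop} {Z : Type*} [TopologicalSpace Z] {z0 : Z}

/-- H1: existence and continuity near `z0`. -/
theorem exists_half [Finite α] (hbt : b ≠ t) (hf : A (full b t))
    {C : Z → (Pat α → K) → (Pat α → K)} (hC : ∀ z, Good b t (C z)) 
    (hcont : ∀ (F : Pat α → K) (p : Pat α), ContinuousAt (fun z => C z F p) z0)
    (inj : Inj b t A (C z0)) :
    ∃ (F : Z → Pat α → K) (B : Z → K),
      (∀ᶠ z in 𝓝 z0, Half b t A (C z) (B z) (F z) ∧ Inj b t A (C z)) ∧
      (∀ p, ContinuousAt (fun z => F z p) z0) ∧ ContinuousAt B z0 ∧ (∀ z, F z Pat.empty = 0) ∧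
      (∀ z p, ¬ A p → F z p = 0) := by
  classical
  haveI : Fintype (Pat α) := Fintype.ofFinite _
  set M : Z → Matrix (LA b t A) (LA b t A) K := fun z => mat b t A (C z) with hM
  set r : Z → (LA b t A → K) := fun z p => C z (ind (full b t)) p.1 with hr
  have hMe : ∀ p q, ContinuousAt (fun z => M z p q) z0 := fun p q =>
    continuousAt_const.sub (hcont _ _)
  have hMc : ContinuousAt M z0 := continuousAt_pi.2 fun p => continuousAt_pi.2 fun q => hMe p q
  have hrc : ContinuousAt r z0 := by
    rw [continuousAt_pi]
    intro p
    exact hcont _ _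
  have hdet0 : (M z0).det ≠ 0 := (det_ne_zero_iff (hC z0).lin).2 inj
  have hdetc : ContinuousAt (fun z => (M z).det) z0 :=
    (Continuous.matrix_det continuous_id).continuousAt.comp hMc
  have hev : ∀ᶠ z in 𝓝 z0, (M z).det ≠ 0 := hdetc.eventually_ne hdet0
  have hinv : ContinuousAt (fun z => (M z)⁻¹) z0 := by
    have e : (fun z => (M z)⁻¹) = fun z => ((M z).det)⁻¹ • (M z).adjugate := by
      funext z
      rw [Matrix.inv_def, Ring.inverse_eq_inv']
    rw [e]
    exact (hdetc.inv₀ hdet0).smul ((Continuous.matrix_adjugate continuous_id).continuousAt.comp hMc)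
  set sol : Z → (LA b t A → K) := fun z => (M z)⁻¹.mulVec (r z) with hsol
  have hsolc : ContinuousAt sol z0 := by
    rw [continuousAt_pi]
    intro p
    unfold sol Matrix.mulVec dotProduct
    apply tendsto_finsetSum
    intro q _
    have h1 : ContinuousAt (fun z => (M z)⁻¹ p) z0 := continuousAt_pi.1 hinv p
    have h2 : ContinuousAt (fun z => (M z)⁻¹ p q) z0 := continuousAt_pi.1 h1 q
    exact h2.mul ((continuousAt_pi.1 hrc) q)
  set F : Z → Pat α → K := fun z p => ext0 (sol z) p + (if A p then ind (full b t) p else 0) with hF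
  have hfull_nl : ∀ (A : Pat α → Prop), ¬ (Live b t (full b t) ∧ A (full b t)) := by
    intro A h
    apply h.1.1
    rw [full_apply, if_pos rfl]
  have hFfull : ∀ z, F z (full b t) = 1 := by
    intro z
    simp only [hF]
    rw [ext0_neg _ (hfull_nl A), if_pos hf, ind_self, zero_add]
  have hFdead : ∀ z p, Dead b t p → F z p = 0 := by
    intro z p hp
    simp only [hF]
    rw [ext0_neg, zero_add]
    · by_cases hA : A p
      · rw [if_pos hA, ind_ne]
        rintro rfl
        exact not_dead_full hp
      · rw [if_neg hA]
    · intro h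
      exact h.1.1 hp.1
  have hFe : ∀ z, F z Pat.empty = 0 := by
    intro z
    simp only [hF]
    rw [ext0_neg, zero_add]
    · by_cases hA : A Pat.empty
      · rw [if_pos hA, ind_ne (full_ne_empty hbt).symm]
      · rw [if_neg hA]
    · intro h
      exact h.1.2 rfl
  have hFoff : ∀ z p, ¬ A p → F z p = 0 := by
    intro z p hp
    simp only [hF]
    rw [ext0_neg _ (fun h => hp h.2), if_neg hp, add_zero]
  refine ⟨F, fun z => C z (F z) Pat.empty, ?_, ?_, ?_, hFe, hFoff⟩
  · filter_upwards [hev] with z hz
    refine ⟨⟨fun p _ hd => hFdead z p hd, hFfull z, ?_, ?_⟩, (det_ne_zero_iff (hC z).lin).1 hz⟩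
    · intro p hp hne
      by_cases hpb : p b = t
      · rcases full_or_dead hpb with rfl | hd
        · exact (hC z).fullv _ (hFdead z)
        · rw [(hC z).dead _ (hFdead z) p hd, hFdead z p hd]
      · -- live
        have hlive : Live b t p := ⟨hpb, hne⟩
        have e1 : F z = fun q => ext0 (sol z) q + 1 * ind (full b t) q := by
          funext q
          simp only [hF]
          rw [one_mul]
          by_cases hq : A q
          · rw [if_pos hq]
          · rw [if_neg hq, ind_ne]
            rintro rfl
            exact hq hf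
        have e2 : C z (F z) p = C z (ext0 (sol z)) p + r z ⟨p, hlive, hp⟩ := by
          rw [e1, (hC z).lin.addSmul]
          simp only [hr, one_mul]
        have e3 : (M z).mulVec (sol z) = r z := by
          rw [hsol]
          simp only
          rw [Matrix.mulVec_mulVec, Matrix.mul_nonsing_inv _ (Ne.isUnit hz), Matrix.one_mulVec]
        have e4 := congrFun e3 ⟨p, hlive, hp⟩
        rw [hM] at e4
        simp only at e4
        rw [mat_mulVec (hC z).lin] at e4
        have e5 : F z p = sol z ⟨p, hlive, hp⟩ := by
          simp only [hF]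
          rw [show ext0 (sol z) p = sol z ⟨p, hlive, hp⟩ from ext0_val _ ⟨p, hlive, hp⟩, if_pos hp,
            ind_ne, add_zero]
          rintro rfl
          exact hfull_nl A ⟨hlive, hp⟩
        rw [e2, e5, ← e4]
        ring
    · rw [hFe, zero_add]
  · intro p
    simp only [hF]
    apply ContinuousAt.add _ continuousAt_const
    by_cases h : Live b t p ∧ A p
    · have : (fun z => ext0 (sol z) p) = fun z => sol z ⟨p, h⟩ := by
        funext z
        exact ext0_val (sol z) ⟨p, h⟩
      rw [this]
      exact (continuousAt_pi.1 hsolc) ⟨p, h⟩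
    · have : (fun z => ext0 (sol z) p) = fun _ => 0 := by
        funext z
        exact ext0_neg _ h
      rw [this]
      exact continuousAt_const
  · have hFc : ∀ p, ContinuousAt (fun z => F z p) z0 := by
      intro p
      simp only [hF]
      apply ContinuousAt.add _ continuousAt_const
      by_cases h : Live b t p ∧ A p
      · have : (fun z => ext0 (sol z) p) = fun z => sol z ⟨p, h⟩ := by
          funext z
          exact ext0_val (sol z) ⟨p, h⟩
        rw [this]
        exact (continuousAt_pi.1 hsolc) ⟨p, h⟩
      · have : (fun z => ext0 (sol z) p) = fun _ => 0 := by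
          funext z
          exact ext0_neg _ h
        rw [this]
        exact continuousAt_const
    have e : (fun z => C z (F z) Pat.empty) = fun z => ∑ q, F z q * C z (ind q) Pat.empty := by
      funext z
      exact (hC z).lin.apply_eq_sum _ _
    rw [e]
    apply tendsto_finsetSum
    intro q _
    exact (hFc q).mul (hcont _ _)

end top

end Pool.Agent.EXL.HS
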