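import Pool.Agent.EXL.H1c
import Pool.Agent.EXL.Inst
import Pool.Agent.EXL.BFacts
import Pool.Agent.EXL.Conj

/-!
# The half strip function for the concrete operators
-/

namespace Pool.Agent.EXL.HS

open _root_.Pool.Agent.EXL.Pat Filter Topology

variable {ι α : Type*} [DecidableEq ι] [DecidableEq α] {L : LabMap ι α}

/-! ### The concrete words as functions -/

/-- the parameters of the rows as a function of the site -/
noncomputable def zs (L : LabMap ι α) (z : ι → ℂ) : α → ℂ := Function.extend L.lab z 0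

omit [DecidableEq ι] [DecidableEq α] in
theorem zs_lab (z : ι → ℂ) (i : ι) : zs L z (L.lab i) = z i := L.inj.extend_apply _ _ _

theorem ops_M_apply (z : ι → ℂ) {a : ι} (w : ℂ) {rows : List ι} (ha : a ∉ rows) (F : Pat α → ℂ) :
    (ops L).M z a w rows F = M (fun s => rwt (w - zs L z s)) (L.lab a) (rows.map L.lab) F := by
  induction rows with
  | nil => rfl
  | cons r rows ih =>
    have h1 : a ≠ r := fun e => ha (by simp [e])
    have h2 : a ∉ rows := fun e => ha (by simp [e])
    rw [Glob.Ops.M_cons, Module.End.mul_apply, ih h2, ops_R h1, mk_apply, List.map_cons,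
      EXL.M_cons, zs_lab]

theorem ops_T_apply (z : ι → ℂ) {i j : ι} (v : ℂ) {rows : List ι} (hij : i ≠ j) (hi : i ∉ rows)
    (hj : j ∉ rows) (F : Pat α → ℂ) :
    (ops L).T z i j v rows F = TT (kK (3 * Real.pi / 8 - v)) (kk (3 * Real.pi / 8 - v)) (kK v)
      (kk v) (fun s => rwt (v - zs L z s)) (fun s => rwt (3 * Real.pi / 16 + 3 * Real.pi / 16 - v
        - zs L z s)) (L.lab i) (L.lab j) L.flo L.cei (rows.map L.lab) F := by
  unfold Glob.Ops.T TT
  rw [Module.End.mul_apply, Module.End.mul_apply, Module.End.mul_apply, ops_b hij, ops_t hij,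
    mk_apply, mk_apply, ops_M_apply z _ hj, ops_M_apply z _ hi, ops_h]

theorem ops_C_apply (z : ι → ℂ) {c : ι} {rows : List ι} (hc : c ∉ rows) (F : Pat α → ℂ) :
    (ops L).C z c rows F = CC (fun s => rwt (3 * Real.pi / 16 - zs L z s)) (L.lab c) L.flo L.cei
      (rows.map L.lab) F := by
  unfold Glob.Ops.C CC
  rw [Module.End.mul_apply, Module.End.mul_apply, ops_bc, ops_tc, mk_apply, mk_apply,
    ops_M_apply z _ hc, ops_h]

theorem good_opsT (z : ι → ℂ) {i j : ι} (v : ℂ) {rows : List ι} (hij : i ≠ j) (hi : i ∉ rows)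
    (hj : j ∉ rows) : Good L.flo L.cei (fun F => (ops L).T z i j v rows F) := by
  have e : (fun F => (ops L).T z i j v rows F) = _ := funext (ops_T_apply z v hij hi hj)
  rw [e]
  apply good_TT _ _ _ _ _ _ L.flo_ne (L.lab_ne hij) (L.ne_flo i) (L.ne_cei i) (L.ne_flo j)
    (L.ne_cei j)
  intro s hs
  obtain ⟨r, hr, rfl⟩ := List.mem_map.1 hs
  refine ⟨L.lab_ne ?_, L.lab_ne ?_, L.ne_flo r, L.ne_cei r⟩
  · rintro rfl; exact hi hr
  · rintro rfl; exact hj hr

theorem good_opsC (z : ι → ℂ) {c : ι} {rows : List ι} (hc : c ∉ rows) :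
    Good L.flo L.cei (fun F => (ops L).C z c rows F) := by
  have e : (fun F => (ops L).C z c rows F) = _ := funext (ops_C_apply z hc)
  rw [e]
  apply good_CC _ L.flo_ne (L.ne_flo c) (L.ne_cei c)
  intro s hs
  obtain ⟨r, hr, rfl⟩ := List.mem_map.1 hs
  refine ⟨L.lab_ne ?_, L.ne_flo r, L.ne_cei r⟩
  rintro rfl; exact hc hr

/-! ### Continuity -/

theorem cont_Dn : Continuous Dn := by
  unfold Dn PP
  fun_prop

theorem cont_rwt {Z : Type*} [TopologicalSpace Z] {u : Z → ℂ} {x0 : Z} (hu : ContinuousAt u x0)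
    (h : okR (u x0)) : WtCont (fun x => rwt (u x)) x0 := by
  have h0 : ContinuousAt (fun x => (Dn (u x))⁻¹) x0 :=
    (cont_Dn.continuousAt.comp hu).inv₀ h
  have h1 : ContinuousAt (fun x => Complex.exp (u x * Complex.I)) x0 :=
    Complex.continuous_exp.continuousAt.comp (hu.mul continuousAt_const)
  constructor <;> simp only [rwt, wt] <;> fun_prop

/-! ### The setting -/

/-- The rows, the auxiliary lines `a`, and the admissible states `A` (the auxiliary sites are
empty; columns and double columns only see the admissible states). -/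
structure Setup (L : LabMap ι α) (rows : List ι) (a : Set ι) (A : Pat α → Prop) : Prop where
  nodup : rows.Nodup
  nmem : ∀ i ∈ a, i ∉ rows
  third : ∀ i j : ι, ∃ m ∈ a, m ≠ i ∧ m ≠ j
  full : A (full L.flo L.cei)
  empty : A Pat.empty
  aux : ∀ p, A p → ∀ i ∈ a, p (L.lab i) = L.lab i
  presC : ∀ z, ∀ i ∈ a, Pres A A (fun F => (ops L).C z i rows F)
  presT : ∀ z v, ∀ i ∈ a, ∀ j ∈ a, i ≠ j → Pres A A (fun F => (ops L).T z i j v rows F)

/-- The functions that vanish on the admissible states. -/
def Nsub (A : Pat α → Prop) : Submodule ℂ (Pat α → ℂ) where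
  carrier := {G | ∀ p, A p → G p = 0}
  add_mem' := by
    intro G H hG hH p hp
    rw [Pi.add_apply, hG p hp, hH p hp, add_zero]
  zero_mem' := fun _ _ => rfl
  smul_mem' := by
    intro c G hG p hp
    rw [Pi.smul_apply, hG p hp, smul_zero]

omit [DecidableEq ι] [DecidableEq α] in
theorem mem_Nsub {A : Pat α → Prop} {G : Pat α → ℂ} : G ∈ Nsub A ↔ ∀ p, A p → G p = 0 := Iff.rfl

theorem swap_fix {x y : α} {p : Pat α} (hx : p x = x) (hy : p y = y) : swap x y p = p := by
  ext k
  rw [swap_apply, Equiv.swap_apply_def, Equiv.swap_apply_def]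
  have hp := p.inv
  grind

section laws

variable {rows : List ι} {a : Set ι} {A : Pat α → Prop}
  (S : Setup L rows a A) (W : Glob.Laws (ops L) okR okC) {z : ι → ℂ} {F : Pat α → ℂ}

include S in
/-- exchange of the names of two auxiliary lines: no effect on the admissible states. -/
theorem P_adm {i k : ι} (hi : i ∈ a) (hk : k ∈ a) (G : Pat α → ℂ) {p : Pat α} (hp : A p) :
    (ops L).P i k G p = G p := by
  rw [ops_P, mk_apply]
  show G (swap _ _ p) = G p
  rw [swap_fix (S.aux p hp i hi) (S.aux p hp k hk)]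

include S in
theorem P_supp {i k : ι} (hi : i ∈ a) (hk : k ∈ a) (hF : ∀ p, ¬ A p → F p = 0) :
    (ops L).P i k F = F := by
  have key : ∀ i ∈ a, EXL.emp (L.lab i) F = F := by
    intro i hi
    funext p
    by_cases h : p (L.lab i) = L.lab i
    · rw [emp_1 h]
    · rw [emp_z h, hF p (fun hp => h (S.aux p hp i hi))]
  rw [ops_P, mk_apply]
  exact sw_eq_self _ (key i hi) (key k hk)

include W in
theorem P_C {i k : ι} (hik : i ≠ k) (hi : i ∉ rows) (hk : k ∉ rows) :
    (ops L).P i k * (ops L).C z i rows = (ops L).C z k rows * (ops L).P i k := by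
  have h1 := W.Pbc hik
  have h2 := W.P_M (z := z) (w := (ops L).h) hik hi hk
  have h3 := W.Ptc hik
  unfold Glob.Ops.C
  calc (ops L).P i k * ((ops L).bc i * (ops L).M z i (ops L).h rows * (ops L).tc i)
      = ((ops L).P i k * (ops L).bc i) * (ops L).M z i (ops L).h rows * (ops L).tc i := by
        simp only [mul_assoc]
    _ = (ops L).bc k * ((ops L).P i k * (ops L).M z i (ops L).h rows) * (ops L).tc i := by
        rw [h1]; simp only [mul_assoc]
    _ = (ops L).bc k * (ops L).M z k (ops L).h rows * ((ops L).P i k * (ops L).tc i) := by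
        rw [h2]; simp only [mul_assoc]
    _ = _ := by rw [h3]; simp only [mul_assoc]

include W in
theorem P_T2 {i j k : ι} {v : ℂ} (hij : i ≠ j) (hik : i ≠ k) (hjk : j ≠ k) (hj : j ∉ rows)
    (hk : k ∉ rows) :
    (ops L).P j k * (ops L).T z i j v rows = (ops L).T z i k v rows * (ops L).P j k := by
  have h1 : (ops L).P j k * (ops L).b i j v = (ops L).b i k v * (ops L).P j k := by
    have := W.Pb (i := j) (j := k) (k := i) (v := v) hjk hij.symm hik.symm
    rwa [W.bs (i := j) (j := i), W.bs (i := k) (j := i)] at this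
  have h2 := W.P_M (z := z) (w := v) hjk hj hk
  have h3 : (ops L).P j k * (ops L).M z i ((ops L).h + (ops L).h - v) rows =
      (ops L).M z i ((ops L).h + (ops L).h - v) rows * (ops L).P j k :=
    (W.cMP hij hik hj hk).eq.symm
  have h4 : (ops L).P j k * (ops L).t i j v = (ops L).t i k v * (ops L).P j k := by
    have := W.Pt (i := j) (j := k) (k := i) (v := v) hjk hij.symm hik.symm
    rwa [W.ts (i := j) (j := i), W.ts (i := k) (j := i)] at this
  unfold Glob.Ops.T
  calc (ops L).P j k * ((ops L).b i j v * (ops L).M z j v rows *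
        (ops L).M z i ((ops L).h + (ops L).h - v) rows * (ops L).t i j v)
      = ((ops L).P j k * (ops L).b i j v) * (ops L).M z j v rows *
        (ops L).M z i ((ops L).h + (ops L).h - v) rows * (ops L).t i j v := by
        simp only [mul_assoc]
    _ = (ops L).b i k v * ((ops L).P j k * (ops L).M z j v rows) *
        (ops L).M z i ((ops L).h + (ops L).h - v) rows * (ops L).t i j v := by
        rw [h1]; simp only [mul_assoc]
    _ = (ops L).b i k v * (ops L).M z k v rows * ((ops L).P j k *
        (ops L).M z i ((ops L).h + (ops L).h - v) rows) * (ops L).t i j v := by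
        rw [h2]; simp only [mul_assoc]
    _ = (ops L).b i k v * (ops L).M z k v rows *
        (ops L).M z i ((ops L).h + (ops L).h - v) rows * ((ops L).P j k * (ops L).t i j v) := by
        rw [h3]; simp only [mul_assoc]
    _ = _ := by rw [h4]; simp only [mul_assoc]

include S W in
theorem C_same {i k : ι} (hi : i ∈ a) (hk : k ∈ a) (hF : ∀ p, ¬ A p → F p = 0) {p : Pat α}
    (hp : A p) : (ops L).C z i rows F p = (ops L).C z k rows F p := by
  by_cases hik : i = k
  · rw [hik]
  rw [← P_adm S hi hk ((ops L).C z i rows F) hp, ← Module.End.mul_apply,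
    P_C W hik (S.nmem i hi) (S.nmem k hk), Module.End.mul_apply, P_supp S hi hk hF]

include S W in
theorem T_same1 {i j k : ι} (hi : i ∈ a) (hk : k ∈ a) (hij : i ≠ j) (hjk : j ≠ k) (v : ℂ)
    (hF : ∀ p, ¬ A p → F p = 0) {p : Pat α} (hp : A p) :
    (ops L).T z i j v rows F p = (ops L).T z k j v rows F p := by
  by_cases hik : i = k
  · rw [hik]
  rw [← P_adm S hi hk ((ops L).T z i j v rows F) hp, ← Module.End.mul_apply,
    W.P_T hij hik hjk (S.nmem i hi) (S.nmem k hk), Module.End.mul_apply, P_supp S hi hk hF]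

include S W in
theorem T_same2 {i j k : ι} (hj : j ∈ a) (hk : k ∈ a) (hij : i ≠ j) (hik : i ≠ k) (v : ℂ)
    (hF : ∀ p, ¬ A p → F p = 0) {p : Pat α} (hp : A p) :
    (ops L).T z i j v rows F p = (ops L).T z i k v rows F p := by
  by_cases hjk : j = k
  · rw [hjk]
  rw [← P_adm S hj hk ((ops L).T z i j v rows F) hp, ← Module.End.mul_apply,
    P_T2 W hij hik hjk (S.nmem j hj) (S.nmem k hk), Module.End.mul_apply, P_supp S hj hk hF]

include S W in
theorem T_same {i j k l : ι} (hi : i ∈ a) (hj : j ∈ a) (hk : k ∈ a) (hl : l ∈ a) (hij : i ≠ j)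
    (hkl : k ≠ l) (v : ℂ) (hF : ∀ p, ¬ A p → F p = 0) {p : Pat α} (hp : A p) :
    (ops L).T z i j v rows F p = (ops L).T z k l v rows F p := by
  by_cases hkj : k = j
  · subst hkj
    obtain ⟨m, hm, hmk, hml⟩ := S.third k l
    by_cases hmi : m = i
    · subst hmi
      -- (m, k) → (m, l) → (k, l)
      rw [T_same2 S W hj hl hij hml v hF hp, T_same1 S W hi hj hml hkl.symm v hF hp]
    · -- (i, k) → (m, k) → (m, l) → (k, l)
      rw [T_same1 S W hi hm hij hmk.symm v hF hp, T_same2 S W hj hl hmk hml v hF hp,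
        T_same1 S W hm hj hml hkl.symm v hF hp]
  · -- (i, j) → (k, j) → (k, l)
    rw [T_same1 S W hi hk hij (Ne.symm hkj) v hF hp, T_same2 S W hj hl hkj hkl v hF hp]

include S W in
/-- H1, the algebraic part: the half strip function of the column is the half strip function of all
double columns. -/
theorem half_ops {c : ι} (hc : c ∈ a) {B : ℂ} (hF : ∀ p, ¬ A p → F p = 0)
    (h : Half L.flo L.cei A (fun F => (ops L).C z c rows F) B F)
    (inj : Inj L.flo L.cei A (fun F => (ops L).C z c rows F))
    (hz : ∀ r ∈ rows, okR ((ops L).h - z r)) {i0 j0 : ι} (hi0 : i0 ∈ a) (hj0 : j0 ∈ a)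
    (hij0 : i0 ≠ j0) :
    Glob.Half (ops L) okR okC z rows a (Nsub A) F dE
      (fun v => (ops L).T z i0 j0 v rows F Pat.empty - F Pat.empty) B where
  e_not := by
    intro hmem
    have := hmem _ S.empty
    rw [dE_empty] at this
    exact one_ne_zero this
  E_N := by
    intro i hi G p hp
    rw [Pi.sub_apply, ops_E, mk_apply, emp_1 (S.aux p hp i hi), sub_self]
  T_N := by
    intro i hi j hj hij v G hG p hp
    have := S.presT z v i hi j hj hij G 0 hG p hp
    simp only [map_zero] at this
    exact this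
  C_N := by
    intro i hi G hG p hp
    have := S.presC z i hi G 0 hG p hp
    simp only [map_zero] at this
    exact this
  T_e := by
    intro i hi j hj hij v p _
    rw [Pi.sub_apply, (good_opsT z v hij (S.nmem i hi) (S.nmem j hj)).dE, sub_self]
  C_e := by
    intro i hi p _
    rw [Pi.sub_apply, (good_opsC z (S.nmem i hi)).dE, sub_self]
  T_F := by
    intro i hi j hj hij v hv p hp
    obtain ⟨m, hm, hmi, hmj⟩ := S.third i j
    have hm1 := S.nmem m hm
    have hi1 := S.nmem i hi
    have hj1 := S.nmem j hj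
    -- the column m
    have hCm : Half L.flo L.cei A (fun F => (ops L).C z m rows F) B F :=
      h.congr S.empty fun p hp => C_same S W hm hc hF hp
    have injm : Inj L.flo L.cei A (fun F => (ops L).C z m rows F) := by
      intro G h0 h1
      apply inj G h0
      intro q hq hA
      rw [← h1 q hq hA]
      exact C_same S W hc hm (fun p hp => h0 p fun h => hp h.2) hA
    have hcomm : (ops L).C z m rows * (ops L).T z i j v rows =
        (ops L).T z i j v rows * (ops L).C z m rows :=
      W.comm hij hmi.symm hmj.symm hi1 hj1 hm1 S.nodup hv.m hv.m' hv.k hv.k' hv.r hv.r' hz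
    have key := Half.of_commute (X := fun F => (ops L).T z i j v rows F) L.flo_ne S.full S.empty
      (good_opsC z hm1) (S.presC z m hm) (good_opsT z v hij hi1 hj1) (S.presT z v i hi j hj hij)
      (fun G p _ => by
        have := congrArg (fun X => X G p) hcomm
        exact this.symm) injm hCm
    rw [T_same S W hi hj hi0 hj0 hij hij0 v hF S.empty] at key
    rw [Pi.sub_apply, Pi.add_apply, Pi.smul_apply, smul_eq_mul]
    by_cases hne : p = Pat.empty
    · subst hne
      rw [key.emp, dE_empty]
      ring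
    · rw [key.eq p hp hne, dE_ne hne]
      ring
  C_F := by
    intro i hi p hp
    rw [Pi.sub_apply, Pi.add_apply, Pi.smul_apply, smul_eq_mul, C_same S W hi hc hF hp]
    by_cases hne : p = Pat.empty
    · subst hne
      rw [h.emp, dE_empty]
      ring
    · rw [h.eq p hp hne, dE_ne hne]
      ring

end laws

end Pool.Agent.EXL.HS
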