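import Pool.Agent.EXL.Inst

/-!
# The concrete operators: commutation of operators with disjoint supports
-/

namespace Pool.Agent.EXL

open Pat

section ends

variable {α K : Type*} [DecidableEq α] [CommRing K] {i j k b t : α} {κ c : K}

/-- The bottom cap commutes with the bottom end of a column although they share the floor end. -/
theorem bot_bc (h1 : k ≠ i) (h2 : k ≠ j) (h3 : k ≠ b) (h4 : i ≠ b) (h5 : j ≠ b)
    (F : Pat α → K) : bot κ c i j b (bc k b F) = bc k b (bot κ c i j b F) := by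
  have hbi := h4.symm
  have hbj := h5.symm
  funext p
  have e1 : (cup i j p) k = p k := cup_out p h1 h2
  have e2 : (cup i j p) b = p b := cup_out p hbi hbj
  have e3 : (cup i b p) k = p k := cup_out p h1 h3
  have e5 : (cup j b p) k = p k := cup_out p h2 h3
  have e7 : (cup k b p) i = p i := cup_out p h1.symm h4
  have e8 : (cup k b p) j = p j := cup_out p h2.symm h5
  by_cases hi : p i = i
  · by_cases hj : p j = j
    · by_cases hk : p k = k
      · by_cases hb : p b = b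
        · have c1 : CuOK i j p := ⟨hi, hj⟩
          have c2 : CuOK i b p := ⟨hi, hb⟩
          have c3 : CuOK j b p := ⟨hj, hb⟩
          have c4 : CuOK k b p := ⟨hk, hb⟩
          have e4 : (cup i b p) b ≠ b := by rw [cup_apply c2]; simp [hbi, h4]
          have e6 : (cup j b p) b ≠ b := by rw [cup_apply c3]; simp [hbj, h5]
          have e9 : (cup k b p) b ≠ b := by rw [cup_apply c4]; simp [h3, h3.symm]
          have e10 : cup k b (cup i j p) = cup i j (cup k b p) :=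
            (cup_cup_comm p h1 h2 hbi hbj c1 c4).symm
          rw [bot_0 hi hj hb rfl rfl rfl, bc_0 hk hb rfl, bc_0 (e1.trans hk) (e2.trans hb) rfl,
            bc_1 (e3.trans hk) e4, bc_1 (e5.trans hk) e6,
            bc_0 hk hb rfl, bot_0 hi hj hb rfl rfl rfl, bot_1 (e7.trans hi) (e8.trans hj) e9 rfl,
            e10]
          ring
        · rw [bot_1 hi hj hb rfl, bc_1 hk hb, bc_1 hk hb, bc_1 (e1.trans hk) (by rwa [e2]),
            bot_1 hi hj hb rfl]
      · rw [bc_z hk]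
        simp [bot, bc, e1, e3, e5, hk]
    · rw [bot_z (Or.inr hj)]
      simp [bot, bc, e8, hj]
  · rw [bot_z (Or.inl hi)]
    simp [bot, bc, e7, hi]

/-- The top cap commutes with the top end of a column although they share the top end. -/
theorem top_tc (h0 : i ≠ j) (h1 : k ≠ i) (h2 : k ≠ j) (h3 : k ≠ t) (h4 : i ≠ t) (h5 : j ≠ t)
    (F : Pat α → K) : top κ c i j t (tc k t F) = tc k t (top κ c i j t F) := by
  have hti := h4.symm
  have htj := h5.symm
  funext p
  have inv : ∀ x, p (p x) = x := p.inv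
  have s1 : ∀ x, swap j t p x = Equiv.swap j t (p (Equiv.swap j t x)) := swap_apply j t p
  have s2 : ∀ x, swap i t p x = Equiv.swap i t (p (Equiv.swap i t x)) := swap_apply i t p
  have s3 : ∀ x, swap k t p x = Equiv.swap k t (p (Equiv.swap k t x)) := swap_apply k t p
  simp only [Equiv.swap_apply_def] at s1 s2 s3
  by_cases hk : p k = k
  · -- `k` is empty
    rw [tc_0 hk]
    by_cases hi : p i = i
    · by_cases hj : p j = j
      · rw [top_0 hi hj, top_0 hi hj, tc_0 hk]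
      · by_cases ht : p t = t
        · rw [top_r hi hj ht rfl, top_r hi hj ht rfl, tc_0 (by rw [s1]; grind)]
        · rw [top_z1 hi hj ht, top_z1 hi hj ht]
    · by_cases hj : p j = j
      · by_cases ht : p t = t
        · rw [top_l hi hj ht rfl, top_l hi hj ht rfl, tc_0 (by rw [s2]; grind)]
        · rw [top_z2 hi hj ht, top_z2 hi hj ht]
      · by_cases hc : p i = j
        · rw [top_z3 h0 hc, top_z3 h0 hc]
        · rw [top_d hi hj hc rfl, top_d hi hj hc rfl, tc_0]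
          exact (cut_fix_out p h1 h2).2 hk
  · by_cases ht : p t = t
    · rw [tc_1 hk ht rfl]
      have st : swap k t p t ≠ t := by rw [s3]; grind
      by_cases hi : p i = i
      · have si : swap k t p i = i := by rw [s3]; grind
        by_cases hj : p j = j
        · have sj : swap k t p j = j := by rw [s3]; grind
          rw [top_0 hi hj, top_0 si sj, tc_1 hk ht rfl]
        · have sj : swap k t p j ≠ j := by rw [s3]; grind
          rw [top_r hi hj ht rfl, top_z1 si sj st, tc_z, mul_zero]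
          · rw [s1]; grind
          · rw [s1]; grind
      · have si : swap k t p i ≠ i := by rw [s3]; grind
        by_cases hj : p j = j
        · have sj : swap k t p j = j := by rw [s3]; grind
          rw [top_l hi hj ht rfl, top_z2 si sj st, tc_z, mul_zero]
          · rw [s2]; grind
          · rw [s2]; grind
        · have sj : swap k t p j ≠ j := by rw [s3]; grind
          by_cases hc : p i = j
          · rw [top_z3 h0 hc, top_z3 h0 (by rw [s3]; grind)]
          · have sc : swap k t p i ≠ j := by rw [s3]; grind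
            have ck : (cut i j p) k ≠ k := fun h => hk ((cut_fix_out p h1 h2).1 h)
            have ct : (cut i j p) t = t := (cut_fix_out p hti htj).2 ht
            have ok : CtOK i j p := ⟨h0, hi, hj, hc⟩
            rw [top_d hi hj hc rfl, top_d si sj sc rfl, tc_1 ck ct rfl,
              swap_cut_comm p h1.symm hti.symm h2.symm htj.symm ok]
    · rw [tc_z hk ht]
      by_cases hi : p i = i
      · by_cases hj : p j = j
        · rw [top_0 hi hj, tc_z hk ht]
        · rw [top_z1 hi hj ht]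
      · by_cases hj : p j = j
        · rw [top_z2 hi hj ht]
        · by_cases hc : p i = j
          · rw [top_z3 h0 hc]
          · have ck : (cut i j p) k ≠ k := fun h => hk ((cut_fix_out p h1 h2).1 h)
            have ct : (cut i j p) t ≠ t := fun h => ht ((cut_fix_out p hti htj).1 h)
            rw [top_d hi hj hc rfl, tc_z ck ct, mul_zero]

end ends

section mk

variable {α K : Type*} [DecidableEq α] [CommRing K] {S : Set α}
  {X : (Pat α → K) → Pat α → K} {hX : Lin X}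

theorem mk_loc (h : IsLoc S X) : mk X hX ∈ Loc K S := by
  obtain ⟨L, hL, hXL⟩ := h
  have : mk X hX = L := LinearMap.ext hXL
  rw [this]
  exact hL

end mk

namespace Ins

set_option linter.unusedSectionVars false

variable {ι α : Type*} [DecidableEq ι] [DecidableEq α] {L : LabMap ι α} {i j k m : ι} {u v w : ℂ}

theorem R_loc : (ops L).R i j u ∈ Loc ℂ ({L.lab i, L.lab j} : Set α) := by
  by_cases h : i = j
  · subst h; rw [ops_R0]; exact zero_mem _
  · rw [ops_R h]; exact mk_loc (R_isLoc _ (L.lab_ne h))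

theorem P_loc : (ops L).P i j ∈ Loc ℂ ({L.lab i, L.lab j} : Set α) := by
  rw [ops_P]; exact mk_loc (sw_isLoc _ _)

theorem b_loc : (ops L).b i j v ∈ Loc ℂ ({L.lab i, L.lab j, L.flo} : Set α) := by
  by_cases h : i = j
  · subst h; rw [ops_b0]; exact zero_mem _
  · rw [ops_b h]; exact mk_loc (bot_isLoc _ _ _ _ _)

theorem t_loc : (ops L).t i j v ∈ Loc ℂ ({L.lab i, L.lab j, L.cei} : Set α) := by
  by_cases h : i = j
  · subst h; rw [ops_t0]; exact zero_mem _
  · rw [ops_t h]; exact mk_loc (top_isLoc _ _ _ (L.lab_ne h))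

theorem bc_loc : (ops L).bc i ∈ Loc ℂ ({L.lab i, L.flo} : Set α) := by
  rw [ops_bc]; exact mk_loc (bc_isLoc _ _)

theorem tc_loc : (ops L).tc i ∈ Loc ℂ ({L.lab i, L.cei} : Set α) := by
  rw [ops_tc]; exact mk_loc (tc_isLoc _ _)

theorem glue_loc : (ops L).glue i j ∈ Loc ℂ ({L.lab i, L.lab j} : Set α) := by
  by_cases h : i = j
  · subst h; rw [ops_glue0]; exact zero_mem _
  · rw [ops_glue h]; exact mk_loc (glue_isLoc (L.lab_ne h))

theorem U_loc : (ops L).U i j ∈ Loc ℂ ({L.lab i, L.lab j} : Set α) := by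
  by_cases h : i = j
  · subst h; rw [ops_U0]; exact zero_mem _
  · rw [ops_U h]; exact mk_loc (U_isLoc _ _)

theorem Y_loc : (ops L).Y i j ∈ Loc ℂ ({L.lab i, L.lab j} : Set α) := by
  by_cases h : i = j
  · subst h; rw [ops_Y0]; exact zero_mem _
  · rw [ops_Y h]; exact mk_loc (Y_isLoc _ _ _)

theorem Yt_loc : (ops L).Yt i j ∈ Loc ℂ ({L.lab i, L.lab j} : Set α) := by
  by_cases h : i = j
  · subst h; rw [ops_Yt0]; exact zero_mem _
  · rw [ops_Yt h]; exact mk_loc (Yt_isLoc _ (L.lab_ne h))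

theorem E_loc : (ops L).E i ∈ Loc ℂ ({L.lab i} : Set α) := by
  rw [ops_E]; exact mk_loc (emp_isLoc _)

theorem Z_loc : (ops L).Z i ∈ Loc ℂ ({L.lab i} : Set α) := by
  rw [ops_Z]; exact mk_loc (sg_isLoc _)

theorem d22 (h1 : i ≠ k) (h2 : i ≠ m) (h3 : j ≠ k) (h4 : j ≠ m) :
    Disjoint ({L.lab i, L.lab j} : Set α) {L.lab k, L.lab m} := by
  simp [h1.symm, h2.symm, h3.symm, h4.symm]

theorem d23f (h1 : i ≠ k) (h2 : i ≠ m) (h3 : j ≠ k) (h4 : j ≠ m) :
    Disjoint ({L.lab i, L.lab j} : Set α) {L.lab k, L.lab m, L.flo} := by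
  simp [h1.symm, h2.symm, h3.symm, h4.symm]

theorem d23c (h1 : i ≠ k) (h2 : i ≠ m) (h3 : j ≠ k) (h4 : j ≠ m) :
    Disjoint ({L.lab i, L.lab j} : Set α) {L.lab k, L.lab m, L.cei} := by
  simp [h1.symm, h2.symm, h3.symm, h4.symm]

theorem d33 (h1 : i ≠ k) (h2 : i ≠ m) (h3 : j ≠ k) (h4 : j ≠ m) :
    Disjoint ({L.lab i, L.lab j, L.flo} : Set α) {L.lab k, L.lab m, L.cei} := by
  simp [h1.symm, h2.symm, h3.symm, h4.symm]

theorem d32 (h1 : i ≠ k) (h2 : i ≠ m) (h3 : j ≠ k) (h4 : j ≠ m) :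
    Disjoint ({L.lab i, L.lab j, L.flo} : Set α) {L.lab k, L.lab m} := by
  simp [h1.symm, h2.symm, h3.symm, h4.symm]

theorem d32c (h1 : i ≠ k) (h2 : i ≠ m) (h3 : j ≠ k) (h4 : j ≠ m) :
    Disjoint ({L.lab i, L.lab j, L.cei} : Set α) {L.lab k, L.lab m} := by
  simp [h1.symm, h2.symm, h3.symm, h4.symm]

theorem d21 (h1 : i ≠ k) (h3 : j ≠ k) : Disjoint ({L.lab i, L.lab j} : Set α) {L.lab k} := by
  simp [h1.symm, h3.symm]

theorem d21f (h1 : i ≠ k) (h3 : j ≠ k) :
    Disjoint ({L.lab i, L.lab j} : Set α) {L.lab k, L.flo} := by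
  simp [h1.symm, h3.symm]

theorem d21c (h1 : i ≠ k) (h3 : j ≠ k) :
    Disjoint ({L.lab i, L.lab j} : Set α) {L.lab k, L.cei} := by
  simp [h1.symm, h3.symm]

theorem d31f (h1 : i ≠ k) (h3 : j ≠ k) :
    Disjoint ({L.lab i, L.lab j, L.flo} : Set α) {L.lab k} := by
  simp [h1.symm, h3.symm]

theorem d31c (h1 : i ≠ k) (h3 : j ≠ k) :
    Disjoint ({L.lab i, L.lab j, L.cei} : Set α) {L.lab k} := by
  simp [h1.symm, h3.symm]

theorem d31fc (h1 : i ≠ k) (h3 : j ≠ k) :
    Disjoint ({L.lab i, L.lab j, L.flo} : Set α) {L.lab k, L.cei} := by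
  simp [h1.symm, h3.symm]

theorem d31cf (h1 : i ≠ k) (h3 : j ≠ k) :
    Disjoint ({L.lab i, L.lab j, L.cei} : Set α) {L.lab k, L.flo} := by
  simp [h1.symm, h3.symm]

theorem cRR (h1 : i ≠ k) (h2 : i ≠ m) (h3 : j ≠ k) (h4 : j ≠ m) :
    Commute ((ops L).R i j u) ((ops L).R k m w) :=
  Loc.commute (d22 h1 h2 h3 h4) R_loc R_loc

theorem cRP (h1 : i ≠ k) (h2 : i ≠ m) (h3 : j ≠ k) (h4 : j ≠ m) :
    Commute ((ops L).R i j u) ((ops L).P k m) :=
  Loc.commute (d22 h1 h2 h3 h4) R_loc P_loc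

theorem cRb (h1 : i ≠ k) (h2 : i ≠ m) (h3 : j ≠ k) (h4 : j ≠ m) :
    Commute ((ops L).R i j u) ((ops L).b k m v) :=
  Loc.commute (d23f h1 h2 h3 h4) R_loc b_loc

theorem cRt (h1 : i ≠ k) (h2 : i ≠ m) (h3 : j ≠ k) (h4 : j ≠ m) :
    Commute ((ops L).R i j u) ((ops L).t k m v) :=
  Loc.commute (d23c h1 h2 h3 h4) R_loc t_loc

theorem cRglue (h1 : i ≠ k) (h2 : i ≠ m) (h3 : j ≠ k) (h4 : j ≠ m) :
    Commute ((ops L).R i j u) ((ops L).glue k m) :=
  Loc.commute (d22 h1 h2 h3 h4) R_loc glue_loc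

theorem cRU (h1 : i ≠ k) (h2 : i ≠ m) (h3 : j ≠ k) (h4 : j ≠ m) :
    Commute ((ops L).R i j u) ((ops L).U k m) :=
  Loc.commute (d22 h1 h2 h3 h4) R_loc U_loc

theorem cRY (h1 : i ≠ k) (h2 : i ≠ m) (h3 : j ≠ k) (h4 : j ≠ m) :
    Commute ((ops L).R i j u) ((ops L).Y k m) :=
  Loc.commute (d22 h1 h2 h3 h4) R_loc Y_loc

theorem cRYt (h1 : i ≠ k) (h2 : i ≠ m) (h3 : j ≠ k) (h4 : j ≠ m) :
    Commute ((ops L).R i j u) ((ops L).Yt k m) :=
  Loc.commute (d22 h1 h2 h3 h4) R_loc Yt_loc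

theorem cRbc (h1 : i ≠ k) (h3 : j ≠ k) : Commute ((ops L).R i j u) ((ops L).bc k) :=
  Loc.commute (d21f h1 h3) R_loc bc_loc

theorem cRtc (h1 : i ≠ k) (h3 : j ≠ k) : Commute ((ops L).R i j u) ((ops L).tc k) :=
  Loc.commute (d21c h1 h3) R_loc tc_loc

theorem cRE (h1 : i ≠ k) (h3 : j ≠ k) : Commute ((ops L).R i j u) ((ops L).E k) :=
  Loc.commute (d21 h1 h3) R_loc E_loc

theorem cbt (h1 : i ≠ k) (h2 : i ≠ m) (h3 : j ≠ k) (h4 : j ≠ m) :
    Commute ((ops L).b i j u) ((ops L).t k m v) :=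
  Loc.commute (d33 h1 h2 h3 h4) b_loc t_loc

theorem cbtc (h1 : i ≠ k) (h3 : j ≠ k) : Commute ((ops L).b i j u) ((ops L).tc k) :=
  Loc.commute (d31fc h1 h3) b_loc tc_loc

theorem cbbc (h1 : i ≠ k) (h3 : j ≠ k) : Commute ((ops L).b i j u) ((ops L).bc k) := by
  by_cases h : i = j
  · subst h; rw [ops_b0]; exact Commute.zero_left _
  · rw [ops_b h, ops_bc]
    exact mk_commute' (bot_bc (L.lab_ne h1.symm) (L.lab_ne h3.symm) (by simp) (by simp) (by simp))

theorem cbE (h1 : i ≠ k) (h3 : j ≠ k) : Commute ((ops L).b i j u) ((ops L).E k) :=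
  Loc.commute (d31f h1 h3) b_loc E_loc

theorem cbY (h1 : i ≠ k) (h2 : i ≠ m) (h3 : j ≠ k) (h4 : j ≠ m) :
    Commute ((ops L).b i j u) ((ops L).Y k m) :=
  Loc.commute (d32 h1 h2 h3 h4) b_loc Y_loc

theorem cbYt (h1 : i ≠ k) (h2 : i ≠ m) (h3 : j ≠ k) (h4 : j ≠ m) :
    Commute ((ops L).b i j u) ((ops L).Yt k m) :=
  Loc.commute (d32 h1 h2 h3 h4) b_loc Yt_loc

theorem ctbc (h1 : i ≠ k) (h3 : j ≠ k) : Commute ((ops L).t i j u) ((ops L).bc k) :=
  Loc.commute (d31cf h1 h3) t_loc bc_loc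

theorem cttc (h1 : i ≠ k) (h3 : j ≠ k) : Commute ((ops L).t i j u) ((ops L).tc k) := by
  by_cases h : i = j
  · subst h; rw [ops_t0]; exact Commute.zero_left _
  · rw [ops_t h, ops_tc]
    exact mk_commute' (top_tc (L.lab_ne h) (L.lab_ne h1.symm) (L.lab_ne h3.symm) (by simp) (by simp)
      (by simp))

theorem ctE (h1 : i ≠ k) (h3 : j ≠ k) : Commute ((ops L).t i j u) ((ops L).E k) :=
  Loc.commute (d31c h1 h3) t_loc E_loc

theorem ctglue (h1 : i ≠ k) (h2 : i ≠ m) (h3 : j ≠ k) (h4 : j ≠ m) :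
    Commute ((ops L).t i j u) ((ops L).glue k m) :=
  Loc.commute (d32c h1 h2 h3 h4) t_loc glue_loc

theorem cbctc (h1 : i ≠ j) : Commute ((ops L).bc i) ((ops L).tc j) :=
  Loc.commute (by simp [h1.symm]) bc_loc tc_loc

theorem cglueE (h1 : i ≠ k) (h3 : j ≠ k) : Commute ((ops L).glue i j) ((ops L).E k) :=
  Loc.commute (d21 h1 h3) glue_loc E_loc

theorem cYtYt (h1 : i ≠ k) (h2 : i ≠ m) (h3 : j ≠ k) (h4 : j ≠ m) :
    Commute ((ops L).Yt i j) ((ops L).Yt k m) :=
  Loc.commute (d22 h1 h2 h3 h4) Yt_loc Yt_loc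

theorem cEE : Commute ((ops L).E i) ((ops L).E j) := by
  by_cases h : i = j
  · subst h; exact Commute.refl _
  · exact Loc.commute (by simp [h]) E_loc E_loc

theorem cRZ (h1 : i ≠ k) (h3 : j ≠ k) : Commute ((ops L).R i j u) ((ops L).Z k) :=
  Loc.commute (d21 h1 h3) R_loc Z_loc

theorem cZZ : Commute ((ops L).Z i) ((ops L).Z j) := by
  by_cases h : i = j
  · subst h; exact Commute.refl _
  · exact Loc.commute (by simp [h]) Z_loc Z_loc

theorem cPb (h1 : i ≠ k) (h2 : i ≠ m) (h3 : j ≠ k) (h4 : j ≠ m) :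
    Commute ((ops L).P i j) ((ops L).b k m v) :=
  Loc.commute (d23f h1 h2 h3 h4) P_loc b_loc

theorem cPt (h1 : i ≠ k) (h2 : i ≠ m) (h3 : j ≠ k) (h4 : j ≠ m) :
    Commute ((ops L).P i j) ((ops L).t k m v) :=
  Loc.commute (d23c h1 h2 h3 h4) P_loc t_loc

theorem cPE (h1 : i ≠ k) (h3 : j ≠ k) : Commute ((ops L).P i j) ((ops L).E k) :=
  Loc.commute (d21 h1 h3) P_loc E_loc

end Ins

end Pool.Agent.EXL
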