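import Pool.Agent.EXL.InstRen

/-!
# The concrete operators: special values and periodicity
-/

namespace Pool.Agent.EXL

open Pat

namespace Ins

section gen

set_option linter.unusedSectionVars false

variable {α K : Type*} [DecidableEq α] [CommRing K] {i j k a b t : α} {κ c x : K}

theorem bot_bcbc (h : i ≠ j) (hi : i ≠ b) (hj : j ≠ b) (F : Pat α → K) :
    bot 0 1 i j b F = bc j b (bc i b F) := by
  funext p
  by_cases h1 : p i = i
  · by_cases h2 : p j = j
    · by_cases h3 : p b = b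
      · have c1 : CuOK j b p := ⟨h2, h3⟩
        have e1 : (cup j b p) i = i := by rw [cup_out p h hi, h1]
        have e2 : (cup j b p) b ≠ b := by rw [cup_apply c1]; simp [hj.symm, hj]
        rw [bot_0 h1 h2 h3 rfl rfl rfl, bc_0 h2 h3 rfl, bc_0 h1 h3 rfl, bc_1 e1 e2]
        ring
      · rw [bot_1 h1 h2 h3 rfl, bc_1 h2 h3, bc_1 h1 h3]
        ring
    · rw [bot_z (Or.inr h2), bc_z h2]
  · rw [bot_z (Or.inl h1)]
    by_cases h2 : p j = j
    · by_cases h3 : p b = b
      · have e1 : (cup j b p) i ≠ i := by rw [cup_out p h hi]; exact h1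
        rw [bc_0 h2 h3 rfl, bc_z h1, bc_z e1, add_zero]
      · rw [bc_1 h2 h3, bc_z h1]
    · rw [bc_z h2]

theorem top_tctc (h : i ≠ j) (hi : i ≠ t) (hj : j ≠ t) (F : Pat α → K) :
    top 0 1 i j t F = tc j t (tc i t F) := by
  funext p
  have inv : ∀ x, p (p x) = x := p.inv
  have s1 : ∀ x, swap j t p x = Equiv.swap j t (p (Equiv.swap j t x)) := swap_apply j t p
  simp only [Equiv.swap_apply_def] at s1
  by_cases h1 : p i = i
  · by_cases h2 : p j = j
    · rw [top_0 h1 h2, tc_0 h2, tc_0 h1]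
    · by_cases h3 : p t = t
      · rw [top_r h1 h2 h3 rfl, tc_1 h2 h3 rfl, tc_0 (by rw [s1]; grind), one_mul]
      · rw [top_z1 h1 h2 h3, tc_z h2 h3]
  · by_cases h2 : p j = j
    · by_cases h3 : p t = t
      · rw [top_l h1 h2 h3 rfl, tc_0 h2, tc_1 h1 h3 rfl, one_mul]
      · rw [top_z2 h1 h2 h3, tc_0 h2, tc_z h1 h3]
    · have e0 : top 0 1 i j t F p = 0 := by
        by_cases h4 : p i = j
        · rw [top_z3 h h4]
        · rw [top_d h1 h2 h4 rfl, zero_mul]
      rw [e0]
      by_cases h3 : p t = t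
      · rw [tc_1 h2 h3 rfl, tc_z (by rw [s1]; grind) (by rw [s1]; grind)]
      · rw [tc_z h2 h3]

theorem top_glue (F : Pat α → K) : top 1 0 i j t F = glue i j F := by
  funext p
  simp only [top, glue]
  split_ifs <;> ring

theorem bot_glue (h : i ≠ j) (hi : i ≠ b) (hj : j ≠ b) (F : Pat α → K) :
    bot κ c i j b (glue i j F) = emp i (emp j F) := by
  funext p
  by_cases h1 : p i = i
  · by_cases h2 : p j = j
    · have c0 : CuOK i j p := ⟨h1, h2⟩
      have e0 : (cup i j p) i = j := by rw [cup_apply c0]; simp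
      rw [emp_1 h1, emp_1 h2]
      by_cases h3 : p b = b
      · have c1 : CuOK i b p := ⟨h1, h3⟩
        have c2 : CuOK j b p := ⟨h2, h3⟩
        have e1 : (cup i b p) i ≠ i := by rw [cup_apply c1]; simp [hi.symm]
        have e2 : (cup i b p) j = j := by rw [cup_out p h.symm hj, h2]
        have e3 : (cup j b p) j ≠ j := by rw [cup_apply c2]; simp [hj.symm]
        have e4 : (cup j b p) i = i := by rw [cup_out p h hi, h1]
        rw [bot_0 h1 h2 h3 rfl rfl rfl, glue_0 h1 h2, glue_z3 h e0, glue_z2 e1 e2, glue_z1 e4 e3]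
        ring
      · rw [bot_1 h1 h2 h3 rfl, glue_0 h1 h2, glue_z3 h e0]
        ring
    · rw [bot_z (Or.inr h2), emp_1 h1, emp_z h2]
  · rw [bot_z (Or.inl h1), emp_z h1]

theorem bot_sg_glue (h : i ≠ j) (hi : i ≠ b) (hj : j ≠ b) (F : Pat α → K) :
    bot κ c i j b (sg i (glue i j F)) = emp i (emp j F) := by
  funext p
  by_cases h1 : p i = i
  · by_cases h2 : p j = j
    · have c0 : CuOK i j p := ⟨h1, h2⟩
      have e0 : (cup i j p) i = j := by rw [cup_apply c0]; simp
      have e0' : (cup i j p) i ≠ i := by rw [e0]; exact h.symm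
      rw [emp_1 h1, emp_1 h2]
      by_cases h3 : p b = b
      · have c1 : CuOK i b p := ⟨h1, h3⟩
        have c2 : CuOK j b p := ⟨h2, h3⟩
        have e1 : (cup i b p) i ≠ i := by rw [cup_apply c1]; simp [hi.symm]
        have e2 : (cup i b p) j = j := by rw [cup_out p h.symm hj, h2]
        have e3 : (cup j b p) j ≠ j := by rw [cup_apply c2]; simp [hj.symm]
        have e4 : (cup j b p) i = i := by rw [cup_out p h hi, h1]
        rw [bot_0 h1 h2 h3 rfl rfl rfl, sg_0 h1, sg_1 e0', sg_1 e1, sg_0 e4, glue_0 h1 h2,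
          glue_z3 h e0, glue_z2 e1 e2, glue_z1 e4 e3]
        ring
      · rw [bot_1 h1 h2 h3 rfl, sg_0 h1, sg_1 e0', glue_0 h1 h2, glue_z3 h e0]
        ring
    · rw [bot_z (Or.inr h2), emp_1 h1, emp_z h2]
  · rw [bot_z (Or.inl h1), emp_z h1]

theorem sg_sg (F : Pat α → K) : sg i (sg i F) = F := by
  funext p
  simp only [sg]
  split_ifs <;> ring

theorem sg_top (F : Pat α → K) : sg i (top (-1) 0 i j t F) = glue i j F := by
  funext p
  simp only [sg, top, glue]
  split_ifs <;> ring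

/-- The sign changes the weights of the odd configurations of the top cap. -/
theorem sg_sg_top (F : Pat α → K) : sg i (sg j (top κ (-c) i j t F)) = top κ c i j t F := by
  funext p
  simp only [sg, top]
  split_ifs <;> ring

theorem bot_sg_sg (h : i ≠ j) (hi : i ≠ b) (hj : j ≠ b) (F : Pat α → K) :
    bot κ (-c) i j b (sg i (sg j F)) = bot κ c i j b F := by
  funext p
  by_cases h1 : p i = i
  · by_cases h2 : p j = j
    · have c0 : CuOK i j p := ⟨h1, h2⟩
      have e0 : (cup i j p) i ≠ i := by rw [cup_apply c0]; simp [h.symm]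
      have e0' : (cup i j p) j ≠ j := by rw [cup_apply c0]; simp [h, h.symm]
      by_cases h3 : p b = b
      · have c1 : CuOK i b p := ⟨h1, h3⟩
        have c2 : CuOK j b p := ⟨h2, h3⟩
        have e1 : (cup i b p) i ≠ i := by rw [cup_apply c1]; simp [hi.symm]
        have e2 : (cup i b p) j = j := by rw [cup_out p h.symm hj, h2]
        have e3 : (cup j b p) j ≠ j := by rw [cup_apply c2]; simp [hj.symm]
        have e4 : (cup j b p) i = i := by rw [cup_out p h hi, h1]
        rw [bot_0 h1 h2 h3 rfl rfl rfl, bot_0 h1 h2 h3 rfl rfl rfl, sg_0 h1, sg_0 h2, sg_1 e0,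
          sg_1 e0', sg_1 e1, sg_0 e2, sg_0 e4, sg_1 e3]
        ring
      · rw [bot_1 h1 h2 h3 rfl, bot_1 h1 h2 h3 rfl, sg_0 h1, sg_0 h2, sg_1 e0, sg_1 e0']
        ring
    · rw [bot_z (Or.inr h2), bot_z (Or.inr h2)]
  · rw [bot_z (Or.inl h1), bot_z (Or.inl h1)]

/-- The weights with the opposite sign of the odd ones. -/
def Wt.neg (w : Wt K) : Wt K where
  v := w.v
  u1 := -w.u1
  u2 := -w.u2
  w1 := w.w1
  w2 := w.w2

theorem sg_R_sg (h : i ≠ j) (w : Wt K) (F : Pat α → K) :
    sg i (R w i j (sg i F)) = R (Wt.neg w) i j F := by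
  funext p
  have inv : ∀ x, p (p x) = x := p.inv
  have s1 : ∀ x, swap i j p x = Equiv.swap i j (p (Equiv.swap i j x)) := swap_apply i j p
  simp only [Equiv.swap_apply_def] at s1
  by_cases h1 : p i = i
  · by_cases h2 : p j = j
    · have c0 : CuOK i j p := ⟨h1, h2⟩
      have e0 : (cup i j p) i ≠ i := by rw [cup_apply c0]; simp [h.symm]
      rw [R_e h1 h2 rfl, sg_0 h1, R_e h1 h2 rfl, sg_0 h1, sg_1 e0]
      simp only [Wt.neg]
      ring
    · rw [R_r h1 h2 rfl, sg_0 h1, R_r h1 h2 rfl, sg_0 h1, sg_1 (by rw [s1]; grind)]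
      simp only [Wt.neg]
      ring
  · by_cases h2 : p j = j
    · rw [R_l h1 h2 rfl, sg_1 h1, R_l h1 h2 rfl, sg_1 h1, sg_0 (by rw [s1]; grind)]
      simp only [Wt.neg]
      ring
    · by_cases h3 : p i = j
      · rw [R_p h h3, sg_1 h1, R_p h h3, sg_1 h1]
        simp only [Wt.neg]
        ring
      · have c1 : CtOK i j p := ⟨h, h1, h2, h3⟩
        have e1 : (cut i j p) i = i := by rw [cut_apply c1]; simp
        have e2 : (cut i j p) j = j := by rw [cut_apply c1]; simp [h.symm]
        have c2 : CuOK i j (cut i j p) := ⟨e1, e2⟩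
        have e3 : (cup i j (cut i j p)) i ≠ i := by rw [cup_apply c2]; simp [h.symm]
        rw [R_d h1 h2 h3 rfl rfl rfl, sg_1 h1, R_d h1 h2 h3 rfl rfl rfl, sg_0 e1, sg_1 e3,
          sg_1 (by rw [s1]; grind)]
        simp only [Wt.neg]
        ring

end gen

end Ins

end Pool.Agent.EXL
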