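import Pool.Agent.EXL.InstComm

/-!
# The concrete operators: symmetry, empty sites, relabelling
-/

namespace Pool.Agent.EXL

open Pat

namespace Ins

section gen

set_option linter.unusedSectionVars false

variable {α K : Type*} [DecidableEq α] [CommRing K] {i j k a b t : α} {κ c x : K}

theorem swap_symm (p : Pat α) : swap i j p = swap j i p := by
  ext y
  rw [swap_apply, swap_apply, Equiv.swap_comm]

theorem cup_symm (p : Pat α) : cup i j p = cup j i p := by
  ext y
  simp only [cup]
  grind

theorem cut_symm (p : Pat α) : cut i j p = cut j i p := by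
  have inv : ∀ x, p (p x) = x := p.inv
  ext y
  simp only [cut]
  grind

theorem partner_symm (p : Pat α) : p i = j ↔ p j = i := by
  rw [p.eq_comm']

theorem R_symm (w : Wt K) (F : Pat α → K) : R w i j F = R w j i F := by
  funext p
  simp only [R, swap_symm (i := i) (j := j), cup_symm (i := i) (j := j),
    cut_symm (i := i) (j := j), partner_symm (i := i) (j := j)]
  grind

theorem sw_symm (F : Pat α → K) : sw i j F = sw j i F := by
  funext p
  simp only [sw, swap_symm (i := i) (j := j)]

theorem bot_symm (F : Pat α → K) : bot κ c i j b F = bot κ c j i b F := by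
  funext p
  simp only [bot, cup_symm (i := i) (j := j), add_comm (F (cup i b p))]
  grind

theorem top_symm (F : Pat α → K) : top κ c i j t F = top κ c j i t F := by
  funext p
  simp only [top, cut_symm (i := i) (j := j), partner_symm (i := i) (j := j)]
  grind

theorem glue_symm (F : Pat α → K) : glue i j F = glue j i F := by
  funext p
  simp only [glue, cut_symm (i := i) (j := j), partner_symm (i := i) (j := j)]
  grind

theorem emp_emp (F : Pat α → K) : emp i (emp i F) = emp i F := by
  funext p
  simp only [emp]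
  split_ifs <;> rfl

theorem emp_bot (F : Pat α → K) : emp i (bot κ c i j b F) = bot κ c i j b F := by
  funext p
  simp only [emp, bot]
  split_ifs <;> rfl

theorem emp_bc (F : Pat α → K) : emp i (bc i b F) = bc i b F := by
  funext p
  simp only [emp, bc]
  split_ifs <;> rfl

theorem emp_U (F : Pat α → K) : emp i (U i j F) = U i j F := by
  funext p
  simp only [emp, U]
  split_ifs <;> rfl

theorem top_emp (h : i ≠ j) (ht : i ≠ t) (F : Pat α → K) :
    top κ c i j t (emp i F) = top κ c i j t F := by
  funext p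
  by_cases hi : p i = i
  · by_cases hj : p j = j
    · rw [top_0 hi hj, top_0 hi hj, emp_1 hi]
    · by_cases h3 : p t = t
      · rw [top_r hi hj h3 rfl, top_r hi hj h3 rfl, emp_1 ?_]
        rw [swap_apply]
        simp only [Equiv.swap_apply_def]
        grind
      · rw [top_z1 hi hj h3, top_z1 hi hj h3]
  · by_cases hj : p j = j
    · by_cases h3 : p t = t
      · rw [top_l hi hj h3 rfl, top_l hi hj h3 rfl, emp_1 ?_]
        rw [swap_apply]
        simp only [Equiv.swap_apply_def]
        grind
      · rw [top_z2 hi hj h3, top_z2 hi hj h3]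
    · by_cases h3 : p i = j
      · rw [top_z3 h h3, top_z3 h h3]
      · rw [top_d hi hj h3 rfl, top_d hi hj h3 rfl, emp_1 ?_]
        rw [cut_apply ⟨h, hi, hj, h3⟩]
        simp

theorem tc_emp (ht : i ≠ t) (F : Pat α → K) : tc i t (emp i F) = tc i t F := by
  funext p
  by_cases hi : p i = i
  · rw [tc_0 hi, tc_0 hi, emp_1 hi]
  · by_cases h3 : p t = t
    · rw [tc_1 hi h3 rfl, tc_1 hi h3 rfl, emp_1 ?_]
      rw [swap_apply]
      simp only [Equiv.swap_apply_def]
      grind
    · rw [tc_z hi h3, tc_z hi h3]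

theorem glue_emp (h : i ≠ j) (F : Pat α → K) : glue i j (emp i F) = glue i j F := by
  funext p
  by_cases hi : p i = i
  · by_cases hj : p j = j
    · rw [glue_0 hi hj, glue_0 hi hj, emp_1 hi]
    · rw [glue_z1 hi hj, glue_z1 hi hj]
  · by_cases hj : p j = j
    · rw [glue_z2 hi hj, glue_z2 hi hj]
    · by_cases h3 : p i = j
      · rw [glue_z3 h h3, glue_z3 h h3]
      · rw [glue_1 hi hj h3 rfl, glue_1 hi hj h3 rfl, emp_1 ?_]
        rw [cut_apply ⟨h, hi, hj, h3⟩]
        simp

/-- The relabelling by a transposition as an embedding. -/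
def swEmb (i j : α) : Emb α α where
  φ := Equiv.swap i j
  inj := (Equiv.swap i j).injective
  p₀ := empty
  closed b := ⟨b, rfl⟩

theorem swEmb_st (p : Pat α) : (swEmb i j).st p = swap i j p := by
  ext y
  have h1 : y = (swEmb i j).φ (Equiv.swap i j y) := by
    show y = Equiv.swap i j (Equiv.swap i j y)
    rw [Equiv.swap_apply_self]
  rw [swap_apply]
  conv_lhs => rw [h1]
  rw [Emb.st_apply]
  rfl

theorem swEmb_i : (swEmb i j).φ i = j := Equiv.swap_apply_left i j
theorem swEmb_j : (swEmb i j).φ j = i := Equiv.swap_apply_right i j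
theorem swEmb_o (h1 : k ≠ i) (h2 : k ≠ j) : (swEmb i j).φ k = k :=
  Equiv.swap_apply_of_ne_of_ne h1 h2

theorem sw_R (w : Wt K) (h1 : k ≠ i) (h2 : k ≠ j) (F : Pat α → K) :
    sw i j (R w i k F) = R w j k (sw i j F) := by
  funext p
  have := R_st w (swEmb i j) j k F p
  rw [swEmb_j, swEmb_o h1 h2, swEmb_st] at this
  simp only [swEmb_st] at this
  exact this

theorem sw_R' (w : Wt K) (F : Pat α → K) :
    sw i j (R w i j F) = R w i j (sw i j F) := by
  funext p
  have := R_st w (swEmb i j) j i F p
  rw [swEmb_j, swEmb_i, swEmb_st] at this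
  simp only [swEmb_st] at this
  rw [R_symm (i := i) (j := j) w (sw i j F)]
  exact this

theorem sw_bot (h1 : k ≠ i) (h2 : k ≠ j) (h3 : b ≠ i) (h4 : b ≠ j) (F : Pat α → K) :
    sw i j (bot κ c i k b F) = bot κ c j k b (sw i j F) := by
  funext p
  have := bot_st (swEmb i j) F p κ c j k b
  rw [swEmb_j, swEmb_o h1 h2, swEmb_o h3 h4, swEmb_st] at this
  simp only [swEmb_st] at this
  exact this

theorem sw_top (h1 : k ≠ i) (h2 : k ≠ j) (h3 : t ≠ i) (h4 : t ≠ j) (F : Pat α → K) :
    sw i j (top κ c i k t F) = top κ c j k t (sw i j F) := by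
  funext p
  have := top_st (swEmb i j) F p κ c j k t
  rw [swEmb_j, swEmb_o h1 h2, swEmb_o h3 h4, swEmb_st] at this
  simp only [swEmb_st] at this
  exact this

theorem sw_bc (h3 : b ≠ i) (h4 : b ≠ j) (F : Pat α → K) :
    sw i j (bc i b F) = bc j b (sw i j F) := by
  funext p
  have := bc_st (swEmb i j) F p j b
  rw [swEmb_j, swEmb_o h3 h4, swEmb_st] at this
  simp only [swEmb_st] at this
  exact this

theorem sw_tc (h3 : t ≠ i) (h4 : t ≠ j) (F : Pat α → K) :
    sw i j (tc i t F) = tc j t (sw i j F) := by
  funext p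
  have := tc_st (swEmb i j) F p j t
  rw [swEmb_j, swEmb_o h3 h4, swEmb_st] at this
  simp only [swEmb_st] at this
  exact this

theorem sw_glue (h1 : k ≠ i) (h2 : k ≠ j) (F : Pat α → K) :
    sw i j (glue i k F) = glue j k (sw i j F) := by
  funext p
  have := glue_st (swEmb i j) F p j k
  rw [swEmb_j, swEmb_o h1 h2, swEmb_st] at this
  simp only [swEmb_st] at this
  exact this

theorem sw_sw (F : Pat α → K) : sw i j (sw i j F) = F := by
  funext p
  simp only [sw]
  apply congrArg
  ext y
  rw [swap_apply, swap_apply]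
  simp

theorem emp_emp_sw (F : Pat α → K) : emp i (emp j (sw i j F)) = emp i (emp j F) := by
  funext p
  simp only [emp, sw]
  by_cases hi : p i = i
  · by_cases hj : p j = j
    · have : swap i j p = p := by
        have inv : ∀ x, p (p x) = x := p.inv
        ext x
        rw [swap_apply]
        simp only [Equiv.swap_apply_def]
        grind
      rw [this]
    · rw [if_pos hi, if_neg hj, if_pos hi, if_neg hj]
  · rw [if_neg hi, if_neg hi]

end gen

set_option linter.unusedSectionVars false

variable {ι α : Type*} [DecidableEq ι] [DecidableEq α] {L : LabMap ι α} {i j k m : ι} {u v w : ℂ}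

theorem Rs : (ops L).R i j u = (ops L).R j i u := by
  by_cases h : i = j
  · subst h; rfl
  · rw [ops_R h, ops_R (Ne.symm h)]; exact mk_congr (R_symm _)

theorem Ps : (ops L).P i j = (ops L).P j i := by
  rw [ops_P, ops_P]; exact mk_congr sw_symm

theorem bs : (ops L).b i j u = (ops L).b j i u := by
  by_cases h : i = j
  · subst h; rfl
  · rw [ops_b h, ops_b (Ne.symm h)]; exact mk_congr bot_symm

theorem ts : (ops L).t i j u = (ops L).t j i u := by
  by_cases h : i = j
  · subst h; rfl
  · rw [ops_t h, ops_t (Ne.symm h)]; exact mk_congr top_symm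

theorem gs : (ops L).glue i j = (ops L).glue j i := by
  by_cases h : i = j
  · subst h; rfl
  · rw [ops_glue h, ops_glue (Ne.symm h)]; exact mk_congr glue_symm

theorem EE : (ops L).E i * (ops L).E i = (ops L).E i := LinearMap.ext emp_emp

theorem Eb : (ops L).E i * (ops L).b i j v = (ops L).b i j v := by
  by_cases h : i = j
  · subst h; rw [ops_b0, mul_zero]
  · rw [ops_b h]; exact LinearMap.ext emp_bot

theorem tE : (ops L).t i j v * (ops L).E i = (ops L).t i j v := by
  by_cases h : i = j
  · subst h; rw [ops_t0, zero_mul]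
  · rw [ops_t h]; exact LinearMap.ext (top_emp (L.lab_ne h) (by simp))

theorem Ebc : (ops L).E i * (ops L).bc i = (ops L).bc i := LinearMap.ext emp_bc

theorem tcE : (ops L).tc i * (ops L).E i = (ops L).tc i := LinearMap.ext (tc_emp (by simp))

theorem glueE : (ops L).glue i j * (ops L).E i = (ops L).glue i j := by
  by_cases h : i = j
  · subst h; rw [ops_glue0, zero_mul]
  · rw [ops_glue h]; exact LinearMap.ext (glue_emp (L.lab_ne h))

theorem EU : (ops L).E i * (ops L).U i j = (ops L).U i j := by
  by_cases h : i = j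
  · subst h; rw [ops_U0, mul_zero]
  · rw [ops_U h]; exact LinearMap.ext emp_U

theorem PP : (ops L).P i j * (ops L).P i j = 1 := LinearMap.ext sw_sw

theorem PE : (ops L).E i * (ops L).E j * (ops L).P i j = (ops L).E i * (ops L).E j :=
  LinearMap.ext emp_emp_sw

theorem PR (_hij : i ≠ j) (hik : i ≠ k) (hjk : j ≠ k) :
    (ops L).P i j * (ops L).R i k u = (ops L).R j k u * (ops L).P i j := by
  rw [ops_R hik, ops_R hjk]
  exact LinearMap.ext (sw_R _ (L.lab_ne hik.symm) (L.lab_ne hjk.symm))

theorem PR' (hij : i ≠ j) :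
    (ops L).P i j * (ops L).R i j u = (ops L).R i j u * (ops L).P i j := by
  rw [ops_R hij]
  exact LinearMap.ext (sw_R' _)

theorem Pb (_hij : i ≠ j) (hik : i ≠ k) (hjk : j ≠ k) :
    (ops L).P i j * (ops L).b i k v = (ops L).b j k v * (ops L).P i j := by
  rw [ops_b hik, ops_b hjk]
  exact LinearMap.ext (sw_bot (L.lab_ne hik.symm) (L.lab_ne hjk.symm) (by simp) (by simp))

theorem Pt (_hij : i ≠ j) (hik : i ≠ k) (hjk : j ≠ k) :
    (ops L).P i j * (ops L).t i k v = (ops L).t j k v * (ops L).P i j := by
  rw [ops_t hik, ops_t hjk]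
  exact LinearMap.ext (sw_top (L.lab_ne hik.symm) (L.lab_ne hjk.symm) (by simp) (by simp))

theorem Pbc : (ops L).P i j * (ops L).bc i = (ops L).bc j * (ops L).P i j :=
  LinearMap.ext (sw_bc (by simp) (by simp))

theorem Ptc : (ops L).P i j * (ops L).tc i = (ops L).tc j * (ops L).P i j :=
  LinearMap.ext (sw_tc (by simp) (by simp))

theorem Pglue (_hij : i ≠ j) (hik : i ≠ k) (hjk : j ≠ k) :
    (ops L).P i j * (ops L).glue i k = (ops L).glue j k * (ops L).P i j := by
  rw [ops_glue hik, ops_glue hjk]
  exact LinearMap.ext (sw_glue (L.lab_ne hik.symm) (L.lab_ne hjk.symm))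

end Ins

end Pool.Agent.EXL
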