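import Pool.Agent.EXL.InstPer

/-!
# The weights: special values, periodicity
-/

namespace Pool.Agent.EXL

open Pat

namespace Ins

theorem Sn_add_pi (z : ℂ) : Sn (z + Real.pi) = - Sn z := by
  rw [Sn, Sn, ← add_assoc, Complex.sin_add_pi]

theorem Sn_sub_pi (z : ℂ) : Sn (z - Real.pi) = - Sn z := by
  rw [Sn, Sn, ← add_sub_assoc, Complex.sin_sub_pi]

theorem kK_add_pi (z : ℂ) : kK (z + Real.pi) = kK z := by
  rw [kK, kK, Sn_add_pi, neg_add', Sn_sub_pi, neg_div_neg_eq]

theorem kK_sub_pi (z : ℂ) : kK (z - Real.pi) = kK z := by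
  have := kK_add_pi (z - Real.pi)
  rw [sub_add_cancel] at this
  exact this.symm

theorem kk_add_pi (z : ℂ) : kk (z + Real.pi) = - kk z := by
  rw [kk, kk, Sn_add_pi, mul_add, Complex.sin_add_two_pi, div_neg]

theorem kk_sub_pi (z : ℂ) : kk (z - Real.pi) = - kk z := by
  have := kk_add_pi (z - Real.pi)
  rw [sub_add_cancel] at this
  rw [this, neg_neg]

theorem kK_zero (h : Sn 0 ≠ 0) : kK 0 = 1 := by
  rw [kK, neg_zero, div_self h]

theorem kk_zero : kk 0 = 0 := by
  rw [kk, mul_zero, Complex.sin_zero, zero_div]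

theorem sin_ne {x : ℝ} (h0 : 0 < x) (h1 : x < Real.pi) : Complex.sin (x : ℂ) ≠ 0 := by
  rw [← Complex.ofReal_sin]
  exact_mod_cast (Real.sin_pos_of_pos_of_lt_pi h0 h1).ne'

theorem Sn_zero_ne : Sn 0 ≠ 0 := by
  have := sin_ne (x := 3 * Real.pi / 16) (by positivity) (by nlinarith [Real.pi_pos])
  rw [Sn, add_zero]
  push_cast at this
  exact this

theorem sin38_ne : Complex.sin (3 * Real.pi / 8) ≠ 0 := by
  have := sin_ne (x := 3 * Real.pi / 8) (by positivity) (by nlinarith [Real.pi_pos])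
  push_cast at this
  exact this

theorem kK_h : kK (3 * Real.pi / 16) = 0 := by
  rw [kK, Sn, add_neg_cancel, Complex.sin_zero, zero_div]

theorem kk_h : kk (3 * Real.pi / 16) = 1 := by
  have e1 : (2 * (3 * Real.pi / 16) : ℂ) = 3 * Real.pi / 8 := by ring
  have e2 : (3 * Real.pi / 16 + 3 * Real.pi / 16 : ℂ) = 3 * Real.pi / 8 := by ring
  rw [kk, Sn, e1, e2, div_self sin38_ne]

theorem cos316_ne : Complex.cos (3 * Real.pi / 16) ≠ 0 := by
  have := Real.cos_pos_of_mem_Ioo (x := 3 * Real.pi / 16) ⟨by nlinarith [Real.pi_pos],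
    by nlinarith [Real.pi_pos]⟩
  have h2 : Complex.cos ((3 * Real.pi / 16 : ℝ) : ℂ) ≠ 0 := by
    rw [← Complex.ofReal_cos]
    exact_mod_cast this.ne'
  push_cast at h2
  exact h2

theorem kK_q : kK (Real.pi / 2) = -1 := by
  rw [kK, Sn, Sn, Complex.sin_add_pi_div_two, ← sub_eq_add_neg, Complex.sin_sub_pi_div_two,
    neg_div, div_self cos316_ne]

theorem kk_q : kk (Real.pi / 2) = 0 := by
  rw [kk, mul_div_cancel₀ _ (two_ne_zero), Complex.sin_pi, zero_div]

theorem rwt_add_pi (u : ℂ) : rwt (u + Real.pi) = Wt.neg (rwt u) := by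
  have e : Complex.exp ((u + Real.pi) * Complex.I) = - Complex.exp (u * Complex.I) := by
    rw [add_mul, Complex.exp_add, Complex.exp_pi_mul_I, mul_neg_one]
  have e2 : Dn (u + Real.pi) = Dn u := by
    rw [Dn, Dn, e]
    simp only [Pool.Agent.EXL.PP]
    ring
  rw [rwt, rwt, e2, e]
  simp only [wt, Wt.neg, Wt.mk.injEq]
  refine ⟨?_, ?_, ?_, ?_, ?_⟩ <;> ring

set_option linter.unusedSectionVars false

variable {ι α : Type*} [DecidableEq ι] [DecidableEq α] {L : LabMap ι α} {i j k m : ι} {u v w : ℂ}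

theorem hh : (ops L).h + (ops L).h = (ops L).l + (ops L).l + (ops L).l := by
  rw [ops_h, ops_l]; ring

theorem qq : (ops L).q + (ops L).q = (ops L).p := by
  rw [ops_q, ops_p]; ring

theorem ZZ : (ops L).Z i * (ops L).Z i = 1 := LinearMap.ext sg_sg

theorem bh (h : i ≠ j) : (ops L).b i j (ops L).h = (ops L).bc j * (ops L).bc i := by
  have e : (3 * Real.pi / 8 - (ops L).h : ℂ) = 3 * Real.pi / 16 := by rw [ops_h]; ring
  rw [ops_b h, e, kK_h, kk_h]
  exact LinearMap.ext (bot_bcbc (L.lab_ne h) (by simp) (by simp))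

theorem th (h : i ≠ j) : (ops L).t i j (ops L).h = (ops L).tc j * (ops L).tc i := by
  rw [ops_t h, ops_h, kK_h, kk_h]
  exact LinearMap.ext (top_tctc (L.lab_ne h) (by simp) (by simp))

theorem t0 (h : i ≠ j) : (ops L).t i j 0 = (ops L).glue i j := by
  rw [ops_t h, ops_glue h, kK_zero Sn_zero_ne, kk_zero]
  exact mk_congr top_glue

theorem b0 (h : i ≠ j) : (ops L).b i j 0 * (ops L).glue i j = (ops L).E i * (ops L).E j := by
  rw [ops_b h, ops_glue h]
  exact LinearMap.ext (bot_glue (L.lab_ne h) (by simp) (by simp))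

theorem bq (h : i ≠ j) : (ops L).b i j (ops L).q * (ops L).Z i * (ops L).glue i j =
    (ops L).E i * (ops L).E j := by
  rw [ops_b h, ops_glue h]
  exact LinearMap.ext (bot_sg_glue (L.lab_ne h) (by simp) (by simp))

theorem tq (h : i ≠ j) : (ops L).Z i * (ops L).t i j (ops L).q = (ops L).glue i j := by
  rw [ops_t h, ops_glue h, ops_q, kK_q, kk_q]
  exact LinearMap.ext sg_top

theorem Rp (h : i ≠ j) :
    (ops L).R i j (u + (ops L).p) = (ops L).Z i * (ops L).R i j u * (ops L).Z i := by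
  rw [ops_R h, ops_R h, ops_p, rwt_add_pi]
  exact LinearMap.ext fun F => (sg_R_sg (L.lab_ne h) (rwt u) F).symm

theorem tp (h : i ≠ j) :
    (ops L).Z i * (ops L).Z j * (ops L).t i j (v + (ops L).p) = (ops L).t i j v := by
  rw [ops_t h, ops_t h, ops_p, kK_add_pi, kk_add_pi]
  exact LinearMap.ext sg_sg_top

theorem bp (h : i ≠ j) :
    (ops L).b i j (v + (ops L).p) * ((ops L).Z i * (ops L).Z j) = (ops L).b i j v := by
  have e : (3 * Real.pi / 8 - (v + (ops L).p) : ℂ) = 3 * Real.pi / 8 - v - Real.pi := by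
    rw [ops_p]; ring
  rw [ops_b h, ops_b h, e, kK_sub_pi, kk_sub_pi]
  exact LinearMap.ext (bot_sg_sg (L.lab_ne h) (by simp) (by simp))

end Ins

end Pool.Agent.EXL
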