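import Pool.Agent.EXL.H1
import Pool.Agent.EXL.Col

/-!
# Planar states (board EXI, I3a)

`NC r p`: the state `p` is non-crossing for the order given by the rank `r`.
The local moves at neighbouring sites preserve planarity; the columns `C` and `TT` do.
-/

set_option autoImplicit false

namespace Pool.Agent.EXL

namespace Pat

variable {α : Type*} {r r' : α → ℤ} {p : Pat α} {i j : α}

/-- The state is non-crossing for the order given by the rank `r`. -/
def NC (r : α → ℤ) (p : Pat α) : Prop :=
  ∀ a b, r a < r b → r b < r (p a) → r a < r (p b) ∧ r (p b) < r (p a)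

/-- No occupied site strictly between `i` and `j`. -/
def Clr (r : α → ℤ) (p : Pat α) (i j : α) : Prop :=
  ∀ k, p k ≠ k → ¬ (r i < r k ∧ r k < r j) ∧ ¬ (r j < r k ∧ r k < r i)

theorem Clr.symm (h : Clr r p i j) : Clr r p j i := fun k hk => (h k hk).symm

/-- Planarity only depends on the order of the occupied sites. -/
theorem nc_congr (h : ∀ x y, p x ≠ x → p y ≠ y → (r x < r y ↔ r' x < r' y)) (hp : NC r p) :
    NC r' p := by
  intro a b hab hba
  by_cases ha : p a = a
  · rw [ha] at hba; omega
  by_cases hb : p b = b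
  · rw [hb]; exact ⟨hab, hba⟩
  have ha' : p (p a) ≠ p a := by rw [p.inv]; exact fun e => ha e.symm
  have hb' : p (p b) ≠ p b := by rw [p.inv]; exact fun e => hb e.symm
  have h1 := hp a b ((h a b ha hb).2 hab) ((h b (p a) hb ha').2 hba)
  exact ⟨(h a (p b) ha hb').1 h1.1, (h (p b) (p a) hb' ha').1 h1.2⟩

variable [DecidableEq α] {D : Set α}

theorem pcup_apply (hi : p i = i) (hj : p j = j) (x : α) :
    cup i j p x = if x = i then j else if x = j then i else p x := by
  simp [cup, hi, hj]

theorem pcut_apply (h0 : i ≠ j) (hi : p i ≠ i) (hj : p j ≠ j) (hij : p i ≠ j) (x : α) :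
    cut i j p x = if x = i then i else if x = j then j else if x = p i then p j
      else if x = p j then p i else p x := by
  simp [cut, h0, hi, hj, hij]

theorem pswap_apply (x : α) :
    swap i j p x = Equiv.swap i j (p (Equiv.swap i j x)) := rfl

theorem cup_comm (i j : α) (p : Pat α) : cup i j p = cup j i p := by
  by_cases h1 : p i = i
  · by_cases h2 : p j = j
    · ext x
      rw [pcup_apply h1 h2, pcup_apply h2 h1]
      by_cases hi : x = i
      · by_cases hj : x = j
        · rw [← hi, ← hj]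
        · simp [hi]
          intro h; rw [h]
      · by_cases hj : x = j
        · simp [hj]
        · simp [hi, hj]
    · simp [cup, h2]
  · simp [cup, h1]

theorem cut_comm (i j : α) (p : Pat α) : cut i j p = cut j i p := by
  by_cases h0 : i = j
  · rw [h0]
  by_cases h1 : p i = i
  · ext x; simp [cut, h1]
  by_cases h2 : p j = j
  · ext x; simp [cut, h2]
  by_cases h3 : p i = j
  · have h4 : p j = i := by rw [← h3, p.inv]
    ext x; simp [cut, h3, h4]
  have h4 : p j ≠ i := fun h => h3 (by rw [← h, p.inv])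
  have h5 : p i ≠ p j := fun h => h0 (p.inj h)
  ext x
  rw [pcut_apply h0 h1 h2 h3, pcut_apply (Ne.symm h0) h2 h1 h4]
  by_cases hi : x = i
  · subst hi; simp [h0]
  by_cases hj : x = j
  · subst hj; simp [hi]
  simp only [hi, hj, if_false]
  by_cases ha : x = p i
  · subst ha; simp [h5]
  · by_cases hb : x = p j
    · subst hb; simp [ha]
    · simp [ha, hb]

theorem swap_comm (i j : α) (p : Pat α) : swap i j p = swap j i p := by
  ext x; simp only [pswap_apply, Equiv.swap_comm i j]

theorem swap_swap (i j : α) (p : Pat α) : swap i j (swap i j p) = p := by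
  ext x; simp [pswap_apply]

theorem swap_empty2 (hi : p i = i) (hj : p j = j) : swap i j p = p := by
  ext x
  rw [pswap_apply]
  by_cases h1 : x = i
  · subst h1; simp [hj, hi]
  · by_cases h2 : x = j
    · subst h2; simp [hj, hi]
    · rw [Equiv.swap_apply_of_ne_of_ne h1 h2, Equiv.swap_apply_of_ne_of_ne]
      · exact fun e => h1 (by rw [← p.inv x, e, hi])
      · exact fun e => h2 (by rw [← p.inv x, e, hj])

theorem nc_cup (hr : Set.InjOn r D) (hD : ∀ x, x ∉ D → p x = x) (hiD : i ∈ D) (hjD : j ∈ D)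
    (h : NC r p) (hi : p i = i) (hj : p j = j)
    (hij : r i < r j) (hc : Clr r p i j) : NC r (cup i j p) := by
  intro a b hab hba
  have hocc : ∀ x, p x ≠ x → x ∈ D := fun x hx => by_contra fun h => hx (hD x h)
  have hne : i ≠ j := fun e => by rw [e] at hij; exact lt_irrefl _ hij
  rw [pcup_apply hi hj] at hba ⊢
  rw [pcup_apply hi hj]
  have h1 := h a b hab
  have hra : ∀ x, p x ≠ x → r x ≠ r i := fun x hx e => hx (by rw [hr (hocc x hx) hiD e, hi])
  have hrb : ∀ x, p x ≠ x → r x ≠ r j := fun x hx e => hx (by rw [hr (hocc x hx) hjD e, hj])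
  by_cases ha : a = i
  · subst ha
    simp only [if_true] at hba ⊢
    have hb : p b = b := by
      by_contra hb; exact (hc b hb).1 ⟨hab, hba⟩
    have hb1 : b ≠ a := fun e => by rw [e] at hab; exact lt_irrefl _ hab
    have hb2 : b ≠ j := fun e => by rw [e] at hba; exact lt_irrefl _ hba
    simp only [if_neg hb1, if_neg hb2, hb]
    exact ⟨hab, hba⟩
  · by_cases ha' : a = j
    · subst ha'
      simp only [if_neg ha, if_true] at hba
      omega
    · simp only [if_neg ha, if_neg ha'] at hba ⊢
      have h2 := h1 hba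
      have hpa : p a ≠ a := fun e => by rw [e] at hba; omega
      have hpa' : p (p a) ≠ p a := by rw [p.inv]; exact fun e => hpa e.symm
      have e1 := hra _ hpa
      have e2 := hrb _ hpa
      have e3 := hra _ hpa'
      have e4 := hrb _ hpa'
      have c1 := hc _ hpa
      have c2 := hc _ hpa'
      by_cases hb : b = i
      · subst hb
        simp only [if_true]
        omega
      · by_cases hb' : b = j
        · subst hb'
          simp only [if_neg hb, if_true]
          omega
        · simp only [if_neg hb, if_neg hb']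
          exact h2

theorem nc_cut (hr : Set.InjOn r D) (hD : ∀ x, x ∉ D → p x = x) (hiD : i ∈ D) (hjD : j ∈ D)
    (h : NC r p) (hi : p i ≠ i) (hj : p j ≠ j)
    (hp : p i ≠ j) (hij : r i < r j) (hc : Clr r p i j) : NC r (cut i j p) := by
  have hocc : ∀ x, p x ≠ x → x ∈ D := fun x hx => by_contra fun h => hx (hD x h)
  have hne : i ≠ j := fun e => by rw [e] at hij; exact lt_irrefl _ hij
  obtain ⟨A, hA⟩ : ∃ A, p i = A := ⟨_, rfl⟩
  obtain ⟨B, hB⟩ : ∃ B, p j = B := ⟨_, rfl⟩
  have hA' : p A = i := by rw [← hA, p.inv]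
  have hB' : p B = j := by rw [← hB, p.inv]
  have hf : ∀ x, cut i j p x = if x = i then i else if x = j then j else if x = A then B
      else if x = B then A else p x := by
    intro x; rw [pcut_apply hne hi hj hp, hA, hB]
  have hAi : A ≠ i := hA ▸ hi
  have hBj : B ≠ j := hB ▸ hj
  have hAj : A ≠ j := hA ▸ hp
  have hBi : B ≠ i := fun e => hAj (by rw [← hA, ← e, hB'])
  have hAB : A ≠ B := fun e => hne (by rw [← hA', e, hB'])
  have hrne : ∀ x y, x ∈ D → y ∈ D → x ≠ y → r x ≠ r y := fun x y h1 h2 hx e => hx (hr h1 h2 e)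
  have hAD : A ∈ D := hocc A (by rw [hA']; exact hAi.symm)
  have hBD : B ∈ D := hocc B (by rw [hB']; exact hBj.symm)
  -- occupied sites are not strictly between `i` and `j`
  have hcl : ∀ k, p k ≠ k → ¬ (r i < r k ∧ r k < r j) ∧ ¬ (r j < r k ∧ r k < r i) := hc
  have hpA := hcl A (by rw [hA']; exact hAi.symm)
  have hpB := hcl B (by rw [hB']; exact hBj.symm)
  intro a b hab hba
  rw [hf a] at hba ⊢
  rw [hf b]
  by_cases ha1 : a = i
  · subst ha1; simp only [if_true] at hba; omega
  by_cases ha2 : a = j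
  · subst ha2; simp only [if_neg ha1, if_true] at hba; omega
  by_cases hb1 : b = i
  · subst hb1; simp only [if_true]; exact ⟨hab, hba⟩
  by_cases hb2 : b = j
  · subst hb2; simp only [if_neg hb1, if_true]; exact ⟨hab, hba⟩
  simp only [if_neg ha1, if_neg ha2] at hba ⊢
  simp only [if_neg hb1, if_neg hb2]
  by_cases hbD : b ∈ D
  swap
  · have hbb := hD b hbD
    have n1 : b ≠ A := fun e => hbD (e ▸ hAD)
    have n2 : b ≠ B := fun e => hbD (e ▸ hBD)
    simp only [if_neg n1, if_neg n2, hbb]
    exact ⟨hab, hba⟩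
  have key : ∀ x y, r x < r y → r y < r (p x) → r x < r (p y) ∧ r (p y) < r (p x) := h
  have kiB := key i B
  have kjA := key j A
  have kij := key i j
  have kAj := key A j
  have kBi := key B i
  have kAB := key A B
  have kBA := key B A
  rw [hA] at kiB kij
  rw [hB'] at kiB kBi kBA kAB
  rw [hB] at kjA kij kAj
  rw [hA'] at kjA kAj kAB kBA
  rw [hA] at kBi
  have n1 := hrne A i hAD hiD hAi
  have n2 := hrne A j hAD hjD hAj
  have n3 := hrne B i hBD hiD hBi
  have n4 := hrne B j hBD hjD hBj
  have n5 := hrne A B hAD hBD hAB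
  have n6 := hrne b i hbD hiD hb1
  have n7 := hrne b j hbD hjD hb2
  by_cases ha3 : a = A
  · subst ha3
    simp only [if_true] at hba ⊢
    have hb3 : b ≠ a := fun e => by rw [e] at hab; exact lt_irrefl _ hab
    have hb4 : b ≠ B := fun e => by rw [e] at hba; exact lt_irrefl _ hba
    simp only [if_neg hb3, if_neg hb4]
    by_cases hbb : p b = b
    · rw [hbb]; exact ⟨hab, hba⟩
    have hpb : p (p b) ≠ p b := by rw [p.inv]; exact fun e => hbb e.symm
    have hpD := hocc _ hpb
    have c1 := hcl b hbb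
    have c2 := hcl (p b) hpb
    have m1 := hrne (p b) i hpD hiD (fun e => hb3 (by rw [← hA, ← e, p.inv]))
    have m2 := hrne (p b) j hpD hjD (fun e => hb4 (by rw [← hB, ← e, p.inv]))
    have m3 := hrne (p b) a hpD hAD (fun e => hb1 (by rw [← hA', ← e, p.inv]))
    have m4 := hrne (p b) B hpD hBD (fun e => hb2 (by rw [← hB', ← e, p.inv]))
    have k1 := key a b
    have k2 := key j b
    have k3 := key i b
    have k4 := key B b
    have k5 := key a (p b)
    have k6 := key j (p b)
    have k7 := key i (p b)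
    have k8 := key B (p b)
    rw [p.inv] at k5 k6 k7 k8
    rw [hA'] at k1 k5
    rw [hB] at k2 k6
    rw [hA] at k3 k7
    rw [hB'] at k4 k8
    omega
  by_cases ha4 : a = B
  · subst ha4
    simp only [if_neg ha3, if_true] at hba ⊢
    have hb4 : b ≠ a := fun e => by rw [e] at hab; exact lt_irrefl _ hab
    have hb3 : b ≠ A := fun e => by rw [e] at hba; exact lt_irrefl _ hba
    simp only [if_neg hb3, if_neg hb4]
    by_cases hbb : p b = b
    · rw [hbb]; exact ⟨hab, hba⟩
    have hpb : p (p b) ≠ p b := by rw [p.inv]; exact fun e => hbb e.symm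
    have hpD := hocc _ hpb
    have c1 := hcl b hbb
    have c2 := hcl (p b) hpb
    have m1 := hrne (p b) i hpD hiD (fun e => hb3 (by rw [← hA, ← e, p.inv]))
    have m2 := hrne (p b) j hpD hjD (fun e => hb4 (by rw [← hB, ← e, p.inv]))
    have m3 := hrne (p b) A hpD hAD (fun e => hb1 (by rw [← hA', ← e, p.inv]))
    have m4 := hrne (p b) a hpD hBD (fun e => hb2 (by rw [← hB', ← e, p.inv]))
    have k1 := key A b
    have k2 := key j b
    have k3 := key i b
    have k4 := key a b
    have k5 := key A (p b)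
    have k6 := key j (p b)
    have k7 := key i (p b)
    have k8 := key a (p b)
    rw [p.inv] at k5 k6 k7 k8
    rw [hA'] at k1 k5
    rw [hB] at k2 k6
    rw [hA] at k3 k7
    rw [hB'] at k4 k8
    omega
  simp only [if_neg ha3, if_neg ha4] at hba ⊢
  have hpa : p a ≠ a := fun e => by rw [e] at hba; omega
  have hpa' : p (p a) ≠ p a := by rw [p.inv]; exact fun e => hpa e.symm
  have n8 := hrne a i (hocc a hpa) hiD ha1
  have n9 := hrne a j (hocc a hpa) hjD ha2
  have c1 := hcl a hpa
  have c2 := hcl (p a) hpa'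
  have m1 := hrne (p a) i (hocc _ hpa') hiD (fun e => ha3 (by rw [← hA, ← e, p.inv]))
  have m2 := hrne (p a) j (hocc _ hpa') hjD (fun e => ha4 (by rw [← hB, ← e, p.inv]))
  have k1 := key a i
  have k2 := key a j
  have k3 := key a A
  have k4 := key a B
  rw [hA] at k1
  rw [hB] at k2
  rw [hA'] at k3
  rw [hB'] at k4
  by_cases hb3 : b = A
  · subst hb3
    simp only [if_true]
    omega
  by_cases hb4 : b = B
  · subst hb4
    simp only [if_neg hb3, if_true]
    omega
  simp only [if_neg hb3, if_neg hb4]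
  exact key a b hab hba

/-- a strand is moved from the site `i` to the empty site `j` -/
theorem nc_swap' (hr : Set.InjOn r D) (hD : ∀ x, x ∉ D → p x = x) (hiD : i ∈ D) (hjD : j ∈ D)
    (h : NC r p) (hj : p j = j) (hc : Clr r p i j) : NC r (swap i j p) := by
  by_cases hi : p i = i
  · rw [swap_empty2 hi hj]; exact h
  have hocc : ∀ x, p x ≠ x → x ∈ D := fun x hx => by_contra fun h => hx (hD x h)
  obtain ⟨A, hA⟩ : ∃ A, p i = A := ⟨_, rfl⟩
  have hA' : p A = i := by rw [← hA, p.inv]
  have hAi : A ≠ i := hA ▸ hi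
  have hij : i ≠ j := fun e => hi (by rw [e, hj])
  have hAj : A ≠ j := fun e => hij (by rw [← hA', e, hj])
  have hAD : A ∈ D := hocc A (by rw [hA']; exact hAi.symm)
  have hf : ∀ x, swap i j p x = if x = i then i else if x = j then A else if x = A then j
      else p x := by
    intro x
    rw [pswap_apply]
    by_cases h1 : x = i
    · subst h1; simp [hj]
    by_cases h2 : x = j
    · subst h2; simp [hA, h1, Equiv.swap_apply_of_ne_of_ne hAi hAj]
    by_cases h3 : x = A
    · subst h3; simp [hA', h1, h2, Equiv.swap_apply_of_ne_of_ne hAi hAj]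
    · rw [Equiv.swap_apply_of_ne_of_ne h1 h2, Equiv.swap_apply_of_ne_of_ne]
      · simp [h1, h2, h3]
      · exact fun e => h3 (by rw [← p.inv x, e, hA])
      · exact fun e => h2 (by rw [← p.inv x, e, hj])
  have hrne : ∀ x y, x ∈ D → y ∈ D → x ≠ y → r x ≠ r y := fun x y h1 h2 hx e => hx (hr h1 h2 e)
  have hcl : ∀ k, p k ≠ k → ¬ (r i < r k ∧ r k < r j) ∧ ¬ (r j < r k ∧ r k < r i) := hc
  have key : ∀ x y, r x < r y → r y < r (p x) → r x < r (p y) ∧ r (p y) < r (p x) := h
  have hpA := hcl A (by rw [hA']; exact hAi.symm)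
  have n1 := hrne A i hAD hiD hAi
  have n2 := hrne A j hAD hjD hAj
  have n3 := hrne i j hiD hjD hij
  intro a b hab hba
  rw [hf a] at hba ⊢
  rw [hf b]
  by_cases ha1 : a = i
  · subst ha1; simp only [if_true] at hba; omega
  by_cases hb1 : b = i
  · subst hb1; simp only [if_true]; exact ⟨hab, hba⟩
  simp only [if_neg ha1] at hba ⊢
  simp only [if_neg hb1]
  by_cases hbD : b ∈ D
  swap
  · have hbb := hD b hbD
    have n1 : b ≠ A := fun e => hbD (e ▸ hAD)
    have n2 : b ≠ j := fun e => hbD (e ▸ hjD)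
    simp only [if_neg n1, if_neg n2, hbb]
    exact ⟨hab, hba⟩
  have n5 := hrne b i hbD hiD hb1
  have k1 := key i b
  have k2 := key A b
  have k3 := key i (p b)
  have k4 := key A (p b)
  rw [hA] at k1 k3
  rw [hA'] at k2 k4
  rw [p.inv] at k3 k4
  by_cases ha2 : a = j
  · subst ha2
    simp only [if_true] at hba ⊢
    have hb2 : b ≠ a := fun e => by rw [e] at hab; exact lt_irrefl _ hab
    have hb3 : b ≠ A := fun e => by rw [e] at hba; exact lt_irrefl _ hba
    simp only [if_neg hb2, if_neg hb3]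
    by_cases hbb : p b = b
    · rw [hbb]; exact ⟨hab, hba⟩
    have hpb : p (p b) ≠ p b := by rw [p.inv]; exact fun e => hbb e.symm
    have hpD := hocc _ hpb
    have c1 := hcl b hbb
    have c2 := hcl (p b) hpb
    have m1 := hrne (p b) i hpD hiD (fun e => hb3 (by rw [← hA, ← e, p.inv]))
    have m2 := hrne (p b) A hpD hAD (fun e => hb1 (by rw [← hA', ← e, p.inv]))
    have m3 := hrne (p b) a hpD hjD (fun e => hb2 (by rw [← hj, ← e, p.inv]))
    omega
  by_cases ha3 : a = A
  · subst ha3
    simp only [if_neg ha2, if_true] at hba ⊢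
    have hb3 : b ≠ a := fun e => by rw [e] at hab; exact lt_irrefl _ hab
    have hb2 : b ≠ j := fun e => by rw [e] at hba; exact lt_irrefl _ hba
    simp only [if_neg hb2, if_neg hb3]
    by_cases hbb : p b = b
    · rw [hbb]; exact ⟨hab, hba⟩
    have hpb : p (p b) ≠ p b := by rw [p.inv]; exact fun e => hbb e.symm
    have hpD := hocc _ hpb
    have c1 := hcl b hbb
    have c2 := hcl (p b) hpb
    have m1 := hrne (p b) i hpD hiD (fun e => hb3 (by rw [← hA, ← e, p.inv]))
    have m2 := hrne (p b) a hpD hAD (fun e => hb1 (by rw [← hA', ← e, p.inv]))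
    have m3 := hrne (p b) j hpD hjD (fun e => hb2 (by rw [← p.inv b, e, hj]))
    omega
  simp only [if_neg ha2, if_neg ha3] at hba ⊢
  have hpa : p a ≠ a := fun e => by rw [e] at hba; omega
  have hpa' : p (p a) ≠ p a := by rw [p.inv]; exact fun e => hpa e.symm
  have c1 := hcl a hpa
  have c2 := hcl (p a) hpa'
  have n4 := hrne a i (hocc _ hpa) hiD ha1
  have m1 := hrne (p a) i (hocc _ hpa') hiD (fun e => ha3 (by rw [← hA, ← e, p.inv]))
  have m2 := hrne (p a) j (hocc _ hpa') hjD (fun e => ha2 (by rw [← p.inv a, e, hj]))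
  have n6 := hrne a j (hocc _ hpa) hjD ha2
  have l1 := key a i
  have l2 := key a A
  rw [hA] at l1
  rw [hA'] at l2
  by_cases hb2 : b = j
  · subst hb2
    simp only [if_true]
    omega
  by_cases hb3 : b = A
  · subst hb3
    simp only [if_neg hb2, if_true]
    omega
  simp only [if_neg hb2, if_neg hb3]
  exact key a b hab hba

/-- relabelling -/
theorem nc_relabel (h : NC r p) : NC (fun x => r (Equiv.swap i j x)) (swap i j p) := by
  intro a b hab hba
  have h1 := h (Equiv.swap i j a) (Equiv.swap i j b) hab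
    (by have := hba; simp only [pswap_apply, Equiv.swap_apply_self] at this; simpa using this)
  simpa [pswap_apply] using h1

/-- Planar states whose occupied sites are in `D`. -/
structure PD (D : Set α) (r : α → ℤ) (p : Pat α) : Prop where
  out : ∀ x, x ∉ D → p x = x
  nc : NC r p

omit [DecidableEq α] in
theorem PD.occ (h : PD D r p) {x : α} (hx : p x ≠ x) : x ∈ D :=
  by_contra fun h' => hx (h.out x h')

theorem PD.cup (hr : Set.InjOn r D) (hiD : i ∈ D) (hjD : j ∈ D) (h : PD D r p)
    (hc : Clr r p i j) : PD D r (cup i j p) := by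
  by_cases hi : p i = i ∧ p j = j
  swap
  · have : Pat.cup i j p = p := by ext x; simp [Pat.cup, hi]
    rw [this]; exact h
  obtain ⟨hi, hj⟩ := hi
  refine ⟨fun x hx => ?_, ?_⟩
  · have n1 : x ≠ i := fun e => hx (e ▸ hiD)
    have n2 : x ≠ j := fun e => hx (e ▸ hjD)
    rw [pcup_apply hi hj, if_neg n1, if_neg n2, h.out x hx]
  · by_cases hij : i = j
    · have : Pat.cup i j p = p := by
        subst hij
        ext x
        rw [pcup_apply hi hi]
        by_cases hx : x = i
        · subst hx; simp [hi]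
        · simp [hx]
      rw [this]; exact h.nc
    rcases lt_or_gt_of_ne (fun e => hij (hr hiD hjD e)) with hlt | hlt
    · exact nc_cup hr h.out hiD hjD h.nc hi hj hlt hc
    · rw [cup_comm]; exact nc_cup hr h.out hjD hiD h.nc hj hi hlt hc.symm

theorem PD.cut (hr : Set.InjOn r D) (hiD : i ∈ D) (hjD : j ∈ D) (h : PD D r p)
    (hc : Clr r p i j) : PD D r (cut i j p) := by
  by_cases h0 : i ≠ j ∧ p i ≠ i ∧ p j ≠ j ∧ p i ≠ j
  · obtain ⟨h0, h1, h2, h3⟩ := h0
    refine ⟨fun x hx => ?_, ?_⟩
    · have e1 : p i ∈ D := h.occ (by rw [p.inv]; exact fun e => h1 e.symm)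
      have e2 : p j ∈ D := h.occ (by rw [p.inv]; exact fun e => h2 e.symm)
      have n1 : x ≠ i := fun e => hx (e ▸ hiD)
      have n2 : x ≠ j := fun e => hx (e ▸ hjD)
      have n3 : x ≠ p i := fun e => hx (e ▸ e1)
      have n4 : x ≠ p j := fun e => hx (e ▸ e2)
      rw [pcut_apply h0 h1 h2 h3, if_neg n1, if_neg n2, if_neg n3, if_neg n4, h.out x hx]
    · rcases lt_or_gt_of_ne (fun e => h0 (hr hiD hjD e)) with hlt | hlt
      · exact nc_cut hr h.out hiD hjD h.nc h1 h2 h3 hlt hc
      · rw [cut_comm]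
        exact nc_cut hr h.out hjD hiD h.nc h2 h1 (fun e => h3 (by rw [← e, p.inv])) hlt hc.symm
  · have : Pat.cut i j p = p := by ext x; simp only [Pat.cut, if_neg h0]
    rw [this]; exact h

omit [DecidableEq α] in
theorem swap_mem_iff [DecidableEq α] (hiD : i ∈ D) (hjD : j ∈ D) (x : α) :
    Equiv.swap i j x ∈ D ↔ x ∈ D := by
  rw [Equiv.swap_apply_def]
  split_ifs with h1 h2
  · subst h1; exact ⟨fun _ => hiD, fun _ => hjD⟩
  · subst h2; exact ⟨fun _ => hjD, fun _ => hiD⟩
  · exact Iff.rfl

theorem PD.swap (hr : Set.InjOn r D) (hiD : i ∈ D) (hjD : j ∈ D) (h : PD D r p)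
    (he : p i = i ∨ p j = j) (hc : Clr r p i j) : PD D r (swap i j p) := by
  refine ⟨fun x hx => ?_, ?_⟩
  · rw [pswap_apply, h.out _ (fun h' => hx ((swap_mem_iff hiD hjD x).1 h')), Equiv.swap_apply_self]
  · rcases he with he | he
    · rw [swap_comm]; exact nc_swap' hr h.out hjD hiD h.nc he hc.symm
    · exact nc_swap' hr h.out hiD hjD h.nc he hc

theorem PD.relabel (hiD : i ∈ D) (hjD : j ∈ D) (h : PD D r p) :
    PD D (fun x => r (Equiv.swap i j x)) (Pat.swap i j p) := by
  refine ⟨fun x hx => ?_, nc_relabel h.nc⟩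
  rw [pswap_apply, h.out _ (fun h' => hx ((swap_mem_iff hiD hjD x).1 h')), Equiv.swap_apply_self]

omit [DecidableEq α] in
theorem PD.congr {r' : α → ℤ} (h : PD D r p) (hrr : ∀ x ∈ D, ∀ y ∈ D, (r x < r y ↔ r' x < r' y)) :
    PD D r' p :=
  ⟨h.out, nc_congr (fun x y hx hy => hrr x (h.occ hx) y (h.occ hy)) h.nc⟩

/-- `swap` fixes the states with an arc or with two empty sites. -/
theorem swap_cup (i j : α) (hi : p i = i) (hj : p j = j) : swap i j (cup i j p) = cup i j p := by
  ext x
  rw [pswap_apply, pcup_apply hi hj, pcup_apply hi hj]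
  by_cases h1 : x = i
  · subst h1
    by_cases h2 : j = x
    · subst h2; simp
    · simp [h2]
  · by_cases h2 : x = j
    · subst h2; simp [h1]
    · have e1 : p x ≠ i := fun e => h1 (by rw [← p.inv x, e, hi])
      have e2 : p x ≠ j := fun e => h2 (by rw [← p.inv x, e, hj])
      simp [h1, h2, Equiv.swap_apply_of_ne_of_ne h1 h2, Equiv.swap_apply_of_ne_of_ne e1 e2]

theorem swap_arc (hp : p i = j) : swap i j p = p := by
  have hp' : p j = i := by rw [← hp, p.inv]
  ext x
  rw [pswap_apply]
  by_cases h1 : x = i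
  · rw [h1, Equiv.swap_apply_left, hp', Equiv.swap_apply_left, hp]
  · by_cases h2 : x = j
    · rw [h2, Equiv.swap_apply_right, hp, Equiv.swap_apply_right, hp']
    · have e1 : p x ≠ i := fun e => h2 (by rw [← p.inv x, e, hp])
      have e2 : p x ≠ j := fun e => h1 (by rw [← p.inv x, e, hp'])
      rw [Equiv.swap_apply_of_ne_of_ne h1 h2, Equiv.swap_apply_of_ne_of_ne e1 e2]

theorem cut_left (h0 : i ≠ j) (hi : p i ≠ i) (hj : p j ≠ j) (hij : p i ≠ j) :
    cut i j p i = i := by
  rw [pcut_apply h0 hi hj hij, if_pos rfl]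

theorem cut_right (h0 : i ≠ j) (hi : p i ≠ i) (hj : p j ≠ j) (hij : p i ≠ j) :
    cut i j p j = j := by
  rw [pcut_apply h0 hi hj hij, if_neg h0.symm, if_pos rfl]

end Pat

open Pat HS

variable {α K : Type*} [DecidableEq α] [CommRing K] {D : Set α} {r r' : α → ℤ}

/-- No site of `D` strictly between `i` and `j`. -/
def Adj (D : Set α) (r : α → ℤ) (i j : α) : Prop :=
  ∀ k ∈ D, ¬ (r i < r k ∧ r k < r j) ∧ ¬ (r j < r k ∧ r k < r i)

omit [DecidableEq α] in
theorem Adj.clr {i j : α} (h : Adj D r i j) {p : Pat α} (hp : PD D r p) : Clr r p i j :=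
  fun k hk => h k (hp.occ hk)

/-- The rhombus exchanges two neighbouring lines. -/
theorem pres_R (w : Wt K) {i j : α} (hij : i ≠ j) (hr : Set.InjOn r D) (hi : i ∈ D) (hj : j ∈ D)
    (ha : Adj D r i j) :
    Pres (K := K) (PD D r) (PD D (fun x => r (Equiv.swap i j x))) (R w i j) := by
  intro F G h p hp
  have hc := ha.clr hp
  have key : ∀ q, PD D r (Pat.swap i j q) → F q = G q := by
    intro q hq
    apply h
    have := hq.relabel hi hj
    rwa [Pat.swap_swap] at this
  unfold R
  by_cases h1 : p i = i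
  · by_cases h2 : p j = j
    · simp only [if_pos h1, if_pos h2]
      rw [key p (by rw [swap_empty2 h1 h2]; exact hp),
        key _ (by rw [swap_cup i j h1 h2]; exact hp.cup hr hi hj hc)]
    · simp only [if_pos h1, if_neg h2]
      rw [key p (hp.swap hr hi hj (Or.inl h1) hc), key _ (by rw [Pat.swap_swap]; exact hp)]
  · by_cases h2 : p j = j
    · simp only [if_neg h1, if_pos h2]
      rw [key p (hp.swap hr hi hj (Or.inr h2) hc), key _ (by rw [Pat.swap_swap]; exact hp)]
    · by_cases h3 : p i = j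
      · simp only [if_neg h1, if_neg h2, if_pos h3]
        rw [key p (by rw [swap_arc h3]; exact hp)]
      · simp only [if_neg h1, if_neg h2, if_neg h3]
        have e1 := cut_left hij h1 h2 h3
        have e2 := cut_right hij h1 h2 h3
        have hcut := hp.cut hr hi hj hc
        have hc' : Clr r (cut i j p) i j := ha.clr hcut
        rw [key _ (by rw [Pat.swap_swap]; exact hp),
          key _ (by rw [swap_empty2 e1 e2]; exact hcut),
          key _ (by rw [swap_cup i j e1 e2]; exact hcut.cup hr hi hj hc')]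


/-- Order equivalence of two ranks on `D`. -/
def OrdEq (D : Set α) (r r' : α → ℤ) : Prop := ∀ x ∈ D, ∀ y ∈ D, (r x < r y ↔ r' x < r' y)

omit [DecidableEq α] in
omit [CommRing K] in
theorem pres_of_ordEq (h : OrdEq D r r') {X : (Pat α → K) → (Pat α → K)} {r₁ : α → ℤ}
    (hX : Pres (PD D r') (PD D r₁) X) : Pres (PD D r) (PD D r₁) X :=
  hX.mono (fun _ hp => hp.congr h) (fun _ hp => hp)

omit [DecidableEq α] in
omit [CommRing K] in
theorem pres_to_ordEq {r₁ r₂ : α → ℤ} (h : OrdEq D r₁ r₂) {X : (Pat α → K) → (Pat α → K)}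
    (hX : Pres (PD D r) (PD D r₁) X) : Pres (PD D r) (PD D r₂) X :=
  hX.mono (fun _ hp => hp) (fun _ hp => hp.congr h)

/-- The bottom cap. -/
theorem pres_bot (κ k : K) {i j b : α} (hr : Set.InjOn r D) (hi : i ∈ D) (hj : j ∈ D) (hb : b ∈ D)
    (h1 : Adj D r i j) (h2 : Adj D r b i) (h3 : r b < r i) (h4 : r i < r j) :
    Pres (K := K) (PD D r) (PD D r) (bot κ k i j b) := by
  intro F G h p hp
  unfold bot
  by_cases e1 : p i = i
  swap
  · simp only [if_neg e1]
  by_cases e2 : p j = j
  swap
  · simp only [if_pos e1, if_neg e2]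
  have hbj : Clr r p j b := by
    intro k hk
    have a1 := h1 k (hp.occ hk)
    have a2 := h2 k (hp.occ hk)
    have a3 : r k ≠ r i := fun e => hk (by rw [hr (hp.occ hk) hi e, e1])
    omega
  have c1 := h _ hp
  have c2 := h _ (hp.cup hr hi hj (h1.clr hp))
  by_cases e3 : p b = b
  · simp only [if_pos e1, if_pos e2, if_pos e3]
    have h2' : Adj D r i b := fun k hk => (h2 k hk).symm
    rw [c1, c2, h _ (hp.cup hr hi hb (h2'.clr hp)), h _ (hp.cup hr hj hb hbj)]
  · simp only [if_pos e1, if_pos e2, if_neg e3]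
    rw [c1, c2]

/-- The top cap. -/
theorem pres_top (κ k : K) {i j t : α} (hr : Set.InjOn r D) (hi : i ∈ D) (hj : j ∈ D) (ht : t ∈ D)
    (h1 : Adj D r i j) (h2 : Adj D r j t) (h3 : r j < r t) (h4 : r i < r j) :
    Pres (K := K) (PD D r) (fun p => PD D r p ∧ p i = i ∧ p j = j) (top κ k i j t) := by
  intro F G h p hp
  have hij : i ≠ j := fun e => by rw [e] at h4; exact lt_irrefl _ h4
  have hjt : j ≠ t := fun e => by rw [e] at h3; exact lt_irrefl _ h3
  have hit : i ≠ t := fun e => by rw [e] at h4; omega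
  unfold top
  by_cases e1 : p i = i
  · by_cases e2 : p j = j
    · simp only [if_pos e1, if_pos e2]
      exact h p ⟨hp, e1, e2⟩
    · by_cases e3 : p t = t
      · simp only [if_pos e1, if_neg e2, if_pos e3]
        rw [h _ ⟨hp.swap hr hj ht (Or.inr e3) (h2.clr hp), ?_, ?_⟩]
        · rw [pswap_apply, Equiv.swap_apply_of_ne_of_ne hij hit, e1,
            Equiv.swap_apply_of_ne_of_ne hij hit]
        · rw [pswap_apply, Equiv.swap_apply_left, e3, Equiv.swap_apply_right]
      · simp only [if_pos e1, if_neg e2, if_neg e3]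
  · by_cases e2 : p j = j
    · by_cases e3 : p t = t
      · simp only [if_neg e1, if_pos e2, if_pos e3]
        have hc : Clr r p i t := by
          intro k hk
          have a1 := h1 k (hp.occ hk)
          have a2 := h2 k (hp.occ hk)
          have a3 : r k ≠ r j := fun e => hk (by rw [hr (hp.occ hk) hj e, e2])
          omega
        rw [h _ ⟨hp.swap hr hi ht (Or.inr e3) hc, ?_, ?_⟩]
        · rw [pswap_apply, Equiv.swap_apply_left, e3, Equiv.swap_apply_right]
        · rw [pswap_apply, Equiv.swap_apply_of_ne_of_ne hij.symm hjt, e2,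
            Equiv.swap_apply_of_ne_of_ne hij.symm hjt]
      · simp only [if_neg e1, if_pos e2, if_neg e3]
    · by_cases e3 : p i = j
      · simp only [if_neg e1, if_neg e2, if_pos e3]
      · simp only [if_neg e1, if_neg e2, if_neg e3]
        rw [h _ ⟨hp.cut hr hi hj (h1.clr hp), cut_left hij e1 e2 e3, cut_right hij e1 e2 e3⟩]

/-- The bottom end of an ordinary column. -/
theorem pres_bc {c b : α} (hr : Set.InjOn r D) (hc : c ∈ D) (hb : b ∈ D)
    (h1 : Adj D r b c) :
    Pres (K := K) (PD D r) (PD D r) (bc c b) := by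
  intro F G h p hp
  unfold bc
  by_cases e1 : p c = c
  swap
  · simp only [if_neg e1]
  have h1' : Adj D r c b := fun k hk => (h1 k hk).symm
  by_cases e3 : p b = b
  · simp only [if_pos e1, if_pos e3]
    rw [h _ hp, h _ (hp.cup hr hc hb (h1'.clr hp))]
  · simp only [if_pos e1, if_neg e3]
    rw [h _ hp]

/-- The top end of an ordinary column. -/
theorem pres_tc {c t : α} (hr : Set.InjOn r D) (hc : c ∈ D) (ht : t ∈ D)
    (h1 : Adj D r c t) :
    Pres (K := K) (PD D r) (fun p => PD D r p ∧ p c = c) (tc c t) := by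
  intro F G h p hp
  unfold tc
  by_cases e1 : p c = c
  · simp only [if_pos e1]
    exact h p ⟨hp, e1⟩
  by_cases e3 : p t = t
  · simp only [if_neg e1, if_pos e3]
    rw [h _ ⟨hp.swap hr hc ht (Or.inr e3) (h1.clr hp), ?_⟩]
    rw [pswap_apply, Equiv.swap_apply_left, e3, Equiv.swap_apply_right]
  · simp only [if_neg e1, if_neg e3]

end Pool.Agent.EXL
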