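import Pool.Agent.EXL.Site
import Pool.Agent.EXL.Planar

/-!
# Single column moves of the honeycomb column (board EXI, I3a)
-/

set_option autoImplicit false

namespace Pool.Agent.EXL

open Pat

section general

variable {α : Type*} [DecidableEq α]

/-- The operator maps non-negative functions to non-negative functions. -/
def Pos (X : (Pat α → ℝ) → (Pat α → ℝ)) : Prop := ∀ F, (∀ s, 0 ≤ F s) → ∀ s, 0 ≤ X F s

/-- The transition from `p` to `q` has a positive weight. -/
def Leads (X : (Pat α → ℝ) → (Pat α → ℝ)) (p q : Pat α) : Prop :=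
  ∃ w > 0, ∀ F, (∀ s, 0 ≤ F s) → w * F q ≤ X F p

variable {X Y : (Pat α → ℝ) → (Pat α → ℝ)} {p q s : Pat α}

omit [DecidableEq α] in
theorem Pos.comp (hX : Pos X) (hY : Pos Y) : Pos (fun F => X (Y F)) :=
  fun F hF => hX _ (hY F hF)

omit [DecidableEq α] in
theorem Pos.id : Pos (fun F : Pat α → ℝ => F) := fun _ h => h

omit [DecidableEq α] in
theorem Pos.iterate (hX : Pos X) : ∀ n : ℕ, Pos (X^[n])
  | 0 => fun _ h => h
  | n + 1 => fun F h => by
      rw [Function.iterate_succ_apply]
      exact Pos.iterate hX n _ (hX F h)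

omit [DecidableEq α] in
theorem Leads.comp (hX : Leads X p q) (hY : Leads Y q s) (hp : Pos Y) :
    Leads (fun F => X (Y F)) p s := by
  obtain ⟨w, hw, h1⟩ := hX
  obtain ⟨w', hw', h2⟩ := hY
  refine ⟨w * w', mul_pos hw hw', fun F hF => ?_⟩
  calc w * w' * F s = w * (w' * F s) := by ring
    _ ≤ w * Y F q := mul_le_mul_of_nonneg_left (h2 F hF) hw.le
    _ ≤ X (Y F) p := h1 _ (hp F hF)

omit [DecidableEq α] in
theorem Leads.id (p : Pat α) : Leads (fun F : Pat α → ℝ => F) p p :=
  ⟨1, one_pos, fun F _ => by simp⟩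

omit [DecidableEq α] in
theorem Leads.iterate_add (hX : Pos X) {m n : ℕ} (h1 : Leads (X^[m]) p q)
    (h2 : Leads (X^[n]) q s) : Leads (X^[m + n]) p s := by
  have h := h1.comp h2 (hX.iterate n)
  obtain ⟨w, hw, h3⟩ := h
  refine ⟨w, hw, fun F hF => ?_⟩
  rw [Function.iterate_add_apply]
  exact h3 F hF

omit [DecidableEq α] in
theorem Leads.iterate_succ (hX : Pos X) {n : ℕ} (h1 : Leads X p q)
    (h2 : Leads (X^[n]) q s) : Leads (X^[n + 1]) p s := by
  have h := h1.comp h2 (hX.iterate n)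
  obtain ⟨w, hw, h3⟩ := h
  refine ⟨w, hw, fun F hF => ?_⟩
  rw [Function.iterate_succ_apply']
  exact h3 F hF

variable {x : ℝ} {c j b t : α}

theorem pos_R (hx : 0 ≤ x) : Pos (R (hexW x) c j) := by
  intro F hF s
  have h2 : 0 ≤ x ^ 2 := by positivity
  unfold R hexW
  simp only
  have := hF s
  have := hF (cup c j s)
  have := hF (swap c j s)
  have := hF (cut c j s)
  split_ifs <;> nlinarith [mul_nonneg h2 (hF s), mul_nonneg h2 (hF (cup c j s)),
    mul_nonneg h2 (hF (swap c j s)), mul_nonneg h2 (hF (cut c j s)), mul_nonneg hx (hF (swap c j s)),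
    mul_nonneg hx (hF s)]

theorem pos_bc : Pos (bc (K := ℝ) c b) := by
  intro F hF s
  unfold bc
  split_ifs
  · exact add_nonneg (hF _) (hF _)
  · exact hF _
  · exact le_rfl

theorem pos_tc : Pos (tc (K := ℝ) c t) := by
  intro F hF s
  unfold tc
  split_ifs
  · exact hF _
  · exact hF _
  · exact le_rfl

theorem leads_R_stay (hx : 0 < x) (h : p c = c ∨ p j = j) : Leads (R (hexW x) c j) p p := by
  have h2 : 0 < x ^ 2 := by positivity
  by_cases h1 : p c = c
  · by_cases h3 : p j = j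
    · refine ⟨1, one_pos, fun F hF => ?_⟩
      rw [R_e h1 h3 rfl]
      have := mul_nonneg h2.le (hF (cup c j p))
      simp only [hexW]
      linarith
    · refine ⟨x ^ 2, h2, fun F hF => ?_⟩
      rw [R_r h1 h3 rfl]
      have := mul_nonneg hx.le (hF (swap c j p))
      simp only [hexW]
      linarith
  · have h3 : p j = j := h.resolve_left h1
    refine ⟨x ^ 2, h2, fun F hF => ?_⟩
    rw [R_l h1 h3 rfl]
    have := mul_nonneg hx.le (hF (swap c j p))
    simp only [hexW]
    linarith

theorem leads_R_cup (hx : 0 < x) (h1 : p c = c) (h3 : p j = j) :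
    Leads (R (hexW x) c j) p (cup c j p) := by
  refine ⟨x ^ 2, by positivity, fun F hF => ?_⟩
  rw [R_e h1 h3 rfl]
  have := hF p
  simp only [hexW]
  linarith

theorem leads_R_swap (hx : 0 < x) (h : (p c = c ∧ p j ≠ j) ∨ (p c ≠ c ∧ p j = j)) :
    Leads (R (hexW x) c j) p (swap c j p) := by
  refine ⟨x, hx, fun F hF => ?_⟩
  have h2 : 0 ≤ x ^ 2 * F p := mul_nonneg (by positivity) (hF p)
  rcases h with ⟨h1, h3⟩ | ⟨h1, h3⟩
  · rw [R_r h1 h3 rfl]
    simp only [hexW]
    linarith
  · rw [R_l h1 h3 rfl]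
    simp only [hexW]
    linarith

theorem leads_R_cut (hx : 0 < x) (h1 : p c ≠ c) (h3 : p j ≠ j) (h4 : p c ≠ j) :
    Leads (R (hexW x) c j) p (cut c j p) := by
  refine ⟨x ^ 2, by positivity, fun F hF => ?_⟩
  rw [R_d h1 h3 h4 rfl rfl rfl]
  have := mul_nonneg (show 0 ≤ x ^ 2 by positivity) (hF (swap c j p))
  simp only [hexW]
  linarith

theorem leads_bc_stay (h1 : p c = c) : Leads (bc (K := ℝ) c b) p p := by
  refine ⟨1, one_pos, fun F hF => ?_⟩
  by_cases h2 : p b = b
  · rw [bc_0 h1 h2 rfl]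
    have := hF (cup c b p)
    linarith
  · rw [bc_1 h1 h2]
    linarith

theorem leads_bc_cup (h1 : p c = c) (h2 : p b = b) : Leads (bc (K := ℝ) c b) p (cup c b p) := by
  refine ⟨1, one_pos, fun F hF => ?_⟩
  rw [bc_0 h1 h2 rfl]
  have := hF p
  linarith

theorem leads_tc_stay (h1 : p c = c) : Leads (tc (K := ℝ) c t) p p := by
  refine ⟨1, one_pos, fun F hF => ?_⟩
  rw [tc_0 h1]
  linarith

theorem leads_tc_swap (h1 : p c ≠ c) (h2 : p t = t) : Leads (tc (K := ℝ) c t) p (swap c t p) := by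
  refine ⟨1, one_pos, fun F hF => ?_⟩
  rw [tc_1 h1 h2 rfl]
  linarith

/-! ### Composition of two moves -/

variable {i : α}

theorem swap_cup' (hc : p c = c) (hi : p i = i) (hj : p j = j) (h1 : c ≠ i) (h2 : c ≠ j)
    (h3 : i ≠ j) : swap c j (cup c i p) = cup i j p := by
  ext y
  have := p.inv y
  simp only [pswap_apply, pcup_apply hc hi, pcup_apply hi hj, Equiv.swap_apply_def]
  grind

theorem cut_swap' (hc : p c = c) (hi : p i ≠ i) (hj : p j ≠ j) (hij : p i ≠ j)
    (h1 : c ≠ i) (h2 : c ≠ j) (h3 : i ≠ j) : cut c j (swap c i p) = cut i j p := by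
  have e1 : swap c i p c = p i := by
    rw [pswap_apply, Equiv.swap_apply_left, Equiv.swap_apply_of_ne_of_ne _ hi]
    intro e; exact h1 (by rw [← p.inv i, e, hc])
  have e2 : swap c i p j = p j := by
    rw [pswap_apply, Equiv.swap_apply_of_ne_of_ne h2.symm h3.symm, Equiv.swap_apply_of_ne_of_ne]
    · intro e; exact h2 (by rw [← p.inv j, e, hc])
    · intro e; exact hij (by rw [← e, p.inv])
  have hpc : p i ≠ c := fun e => h1 (by rw [← p.inv i, e, hc])
  ext y
  have hy := p.inv y
  rw [pcut_apply h2 (by rw [e1]; exact hpc) (by rw [e2]; exact hj) (by rw [e1]; exact hij),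
    pcut_apply h3 hi hj hij, e1, e2]
  simp only [pswap_apply, Equiv.swap_apply_def]
  grind [Pat.inv]

theorem cut_cup' (hc : p c = c) (hb : p b = b) (hi : p i ≠ i)
    (h1 : c ≠ i) (h2 : c ≠ b) (h3 : i ≠ b) : cut c i (cup c b p) = swap i b p := by
  have e1 : cup c b p c = b := by rw [pcup_apply hc hb, if_pos rfl]
  have e2 : cup c b p i = p i := by
    rw [pcup_apply hc hb, if_neg h1.symm, if_neg h3]
  ext y
  have hy := p.inv y
  rw [pcut_apply h1 (by rw [e1]; exact h2.symm) (by rw [e2]; exact hi) (by rw [e1]; exact h3.symm),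
    e1, e2, pcup_apply hc hb]
  simp only [pswap_apply, Equiv.swap_apply_def]
  grind [Pat.inv]

theorem swap_swap' (hc : p c = c) (ht : p t = t) (h1 : c ≠ i) (h2 : c ≠ t) (h3 : i ≠ t) :
    swap c t (swap c i p) = swap i t p := by
  ext y
  have hy := p.inv y
  simp only [pswap_apply, Equiv.swap_apply_def]
  grind [Pat.inv]

end general

/-! ### The column -/

section column

variable {N : ℕ}

open Site

/-- A vertical line through the rows of a list. -/
def MF {K : Type*} [CommRing K] {N : ℕ} (w : Fin N → Wt K) (L : List (Fin N))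
    (G : Pat (Site N) → K) : Pat (Site N) → K :=
  L.foldr (fun i G => R (w i) (ax 0) (row i) G) G

theorem MF_append {K : Type*} [CommRing K] (w : Fin N → Wt K) (L L' : List (Fin N))
    (G : Pat (Site N) → K) : MF w (L ++ L') G = MF w L (MF w L' G) := by
  simp [MF, List.foldr_append]

theorem colH_eq_MF (F : Pat (Site N) → ℝ) :
    colH N F = bc (ax 0) fl (MF (fun _ => hexW HexObs.xc) (List.finRange N) (tc (ax 0) tp F)) := rfl

variable {p q s : Pat (Site N)} {L L' : List (Fin N)} {x : ℝ}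

theorem pos_MF (hx : 0 ≤ x) : ∀ L : List (Fin N), Pos (MF (fun _ => hexW x) L)
  | [] => fun _ h => h
  | i :: L => by
    have h := (pos_R (c := ax 0) (j := row i) hx).comp (pos_MF hx L)
    exact h

theorem leads_MF_stay (hx : 0 < x) : ∀ {L : List (Fin N)},
    (∀ i ∈ L, p (ax 0) = ax 0 ∨ p (row i) = row i) → Leads (MF (fun _ => hexW x) L) p p
  | [], _ => Leads.id p
  | i :: L, h => by
    have h1 := leads_R_stay (c := ax 0) (j := row i) hx (h i (by simp))
    exact h1.comp (leads_MF_stay hx (L := L) (fun j hj => h j (by simp [hj]))) (pos_MF hx.le L)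

theorem xc_pos' : (0 : ℝ) < HexObs.xc := HexObs.xc_pos

theorem pos_colH : Pos (colH N) := by
  have h : Pos (fun F : Pat (Site N) → ℝ =>
      bc (ax 0) fl (MF (fun _ => hexW HexObs.xc) (List.finRange N) (tc (ax 0) tp F))) :=
    Pos.comp (X := bc (ax 0) fl) pos_bc
      (Pos.comp (X := MF (fun _ => hexW HexObs.xc) (List.finRange N)) (pos_MF xc_pos'.le _) pos_tc)
  exact h

theorem split_finRange (i : Fin N) : ∃ L1 L2 : List (Fin N), List.finRange N = L1 ++ i :: L2 ∧
    (∀ k, k ∈ L1 ↔ k < i) ∧ (∀ k, k ∈ L2 ↔ i < k) ∧ L2.Pairwise (· < ·) := by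
  obtain ⟨L1, L2, h⟩ := List.append_of_mem (List.mem_finRange i)
  have hp : (List.finRange N).Pairwise (· < ·) := List.pairwise_lt_finRange N
  rw [h, List.pairwise_append] at hp
  obtain ⟨h1, h2, h3⟩ := hp
  rw [List.pairwise_cons] at h2
  have hmem : ∀ k, k ∈ L1 ∨ k = i ∨ k ∈ L2 := by
    intro k
    have := List.mem_finRange k
    rw [h] at this
    simpa using this
  refine ⟨L1, L2, h, fun k => ⟨fun hk => h3 k hk i (by simp), fun hk => ?_⟩,
    fun k => ⟨fun hk => h2.1 k hk, fun hk => ?_⟩, h2.2⟩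
  · rcases hmem k with h' | h' | h'
    · exact h'
    · exact absurd hk (by rw [h']; exact lt_irrefl _)
    · exact absurd hk (not_lt.2 (h2.1 k h').le)
  · rcases hmem k with h' | h' | h'
    · exact absurd hk (not_lt.2 (h3 k h' i (by simp)).le)
    · exact absurd hk (by rw [h']; exact lt_irrefl _)
    · exact h'

theorem split_finRange2 {i j : Fin N} (hij : i < j) : ∃ L1 L2 L3 : List (Fin N),
    List.finRange N = L1 ++ i :: (L2 ++ j :: L3) ∧
    (∀ k, k ∈ L1 ↔ k < i) ∧ (∀ k, k ∈ L2 ↔ i < k ∧ k < j) ∧ (∀ k, k ∈ L3 ↔ j < k) := by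
  obtain ⟨L1, L2, h, h1, h2, h3⟩ := split_finRange i
  obtain ⟨L3, L4, h4⟩ := List.append_of_mem ((h2 j).2 hij)
  rw [h4, List.pairwise_append, List.pairwise_cons] at h3
  obtain ⟨h5, h6, h7⟩ := h3
  have hmem : ∀ k, i < k → k ∈ L3 ∨ k = j ∨ k ∈ L4 := by
    intro k hk
    have := (h2 k).2 hk
    rw [h4] at this
    simpa using this
  have hL : ∀ k, k ∈ L3 ∨ k ∈ L4 → i < k := by
    intro k hk
    apply (h2 k).1
    rw [h4]
    rcases hk with hk | hk
    · exact List.mem_append_left _ hk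
    · exact List.mem_append_right _ (List.mem_cons_of_mem _ hk)
  refine ⟨L1, L3, L4, by rw [h, h4], h1,
    fun k => ⟨fun hk => ⟨hL k (Or.inl hk), h7 k hk j (by simp)⟩, fun hk => ?_⟩,
    fun k => ⟨fun hk => h6.1 k hk, fun hk => ?_⟩⟩
  · rcases hmem k hk.1 with h' | h' | h'
    · exact h'
    · exact absurd hk.2 (by rw [h']; exact lt_irrefl _)
    · exact absurd hk.2 (not_lt.2 (h6.1 k h').le)
  · rcases hmem k (hij.trans hk) with h' | h' | h'
    · exact absurd hk (not_lt.2 (h7 k h' j (by simp)).le)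
    · exact absurd hk (by rw [h']; exact lt_irrefl _)
    · exact h'

/-- General two event move between two rows. -/
theorem leads_rows {i j : Fin N} (hij : i < j) (hc : p (ax 0) = ax 0)
    (h1 : Leads (R (hexW HexObs.xc) (ax 0) (row i)) p q)
    (hq : ∀ k, i < k → k < j → q (row k) = row k)
    (h2 : Leads (R (hexW HexObs.xc) (ax 0) (row j)) q s)
    (hs : s (ax 0) = ax 0) : Leads (colH N) p s := by
  obtain ⟨L1, L2, L3, hL, m1, m2, m3⟩ := split_finRange2 hij
  have a1 : Leads (bc (K := ℝ) (ax 0) fl) p p := leads_bc_stay hc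
  have a2 : Leads (MF (fun _ => hexW HexObs.xc) L1) p p :=
    leads_MF_stay xc_pos' (fun _ _ => Or.inl hc)
  have a3 : Leads (MF (fun _ => hexW HexObs.xc) L2) q q :=
    leads_MF_stay xc_pos' (fun k hk => Or.inr (hq k ((m2 k).1 hk).1 ((m2 k).1 hk).2))
  have a4 : Leads (MF (fun _ => hexW HexObs.xc) L3) s s :=
    leads_MF_stay xc_pos' (fun _ _ => Or.inl hs)
  have a5 : Leads (tc (K := ℝ) (ax 0) tp) s s := leads_tc_stay hs
  have P5 : Pos (tc (K := ℝ) (ax 0 : Site N) tp) := pos_tc
  have P4 := (pos_MF xc_pos'.le L3).comp P5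
  have P3 := (pos_R (c := ax 0) (j := row j) xc_pos'.le).comp P4
  have P2 := (pos_MF xc_pos'.le L2).comp P3
  have P1 := (pos_R (c := ax 0) (j := row i) xc_pos'.le).comp P2
  have P0 := (pos_MF xc_pos'.le L1).comp P1
  have b := a1.comp (a2.comp (h1.comp (a3.comp (h2.comp (a4.comp a5 P5) P4) P3) P2) P1) P0
  have e : colH N = fun F => bc (ax 0) fl (MF (fun _ => hexW HexObs.xc) L1
      (R (hexW HexObs.xc) (ax 0) (row i) (MF (fun _ => hexW HexObs.xc) L2
      (R (hexW HexObs.xc) (ax 0) (row j) (MF (fun _ => hexW HexObs.xc) L3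
      (tc (ax 0) tp F)))))) := by
    funext F
    rw [colH_eq_MF, hL, MF_append]
    congr 2
    show R _ _ _ (MF _ (L2 ++ j :: L3) _) = _
    rw [MF_append]
    rfl
  rw [e]
  exact b

/-- General move from the floor to a row. -/
theorem leads_floor {i : Fin N}
    (h1 : Leads (bc (K := ℝ) (ax 0) fl) p q)
    (hq : ∀ k, k < i → q (row k) = row k)
    (h2 : Leads (R (hexW HexObs.xc) (ax 0) (row i)) q s)
    (hs : s (ax 0) = ax 0) : Leads (colH N) p s := by
  obtain ⟨L1, L2, hL, m1, m2, -⟩ := split_finRange i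
  have a2 : Leads (MF (fun _ => hexW HexObs.xc) L1) q q :=
    leads_MF_stay xc_pos' (fun k hk => Or.inr (hq k ((m1 k).1 hk)))
  have a4 : Leads (MF (fun _ => hexW HexObs.xc) L2) s s :=
    leads_MF_stay xc_pos' (fun _ _ => Or.inl hs)
  have a5 : Leads (tc (K := ℝ) (ax 0) tp) s s := leads_tc_stay hs
  have P5 : Pos (tc (K := ℝ) (ax 0 : Site N) tp) := pos_tc
  have P4 := (pos_MF xc_pos'.le L2).comp P5
  have P3 := (pos_R (c := ax 0) (j := row i) xc_pos'.le).comp P4
  have P2 := (pos_MF xc_pos'.le L1).comp P3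
  have b := h1.comp (a2.comp (h2.comp (a4.comp a5 P5) P4) P3) P2
  have e : colH N = fun F => bc (ax 0) fl (MF (fun _ => hexW HexObs.xc) L1
      (R (hexW HexObs.xc) (ax 0) (row i) (MF (fun _ => hexW HexObs.xc) L2
      (tc (ax 0) tp F)))) := by
    funext F
    rw [colH_eq_MF, hL, MF_append]
    rfl
  rw [e]
  exact b

/-- General move from a row to the top. -/
theorem leads_top {i : Fin N} (hc : p (ax 0) = ax 0)
    (h1 : Leads (R (hexW HexObs.xc) (ax 0) (row i)) p q)
    (hq : ∀ k, i < k → q (row k) = row k)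
    (h2 : Leads (tc (K := ℝ) (ax 0) tp) q s) : Leads (colH N) p s := by
  obtain ⟨L1, L2, hL, m1, m2, -⟩ := split_finRange i
  have a1 : Leads (bc (K := ℝ) (ax 0) fl) p p := leads_bc_stay hc
  have a2 : Leads (MF (fun _ => hexW HexObs.xc) L1) p p :=
    leads_MF_stay xc_pos' (fun k hk => Or.inl hc)
  have a4 : Leads (MF (fun _ => hexW HexObs.xc) L2) q q :=
    leads_MF_stay xc_pos' (fun k hk => Or.inr (hq k ((m2 k).1 hk)))
  have P5 : Pos (tc (K := ℝ) (ax 0 : Site N) tp) := pos_tc
  have P4 := (pos_MF xc_pos'.le L2).comp P5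
  have P3 := (pos_R (c := ax 0) (j := row i) xc_pos'.le).comp P4
  have P2 := (pos_MF xc_pos'.le L1).comp P3
  have b := a1.comp (a2.comp (h1.comp (a4.comp h2 P5) P4) P3) P2
  have e : colH N = fun F => bc (ax 0) fl (MF (fun _ => hexW HexObs.xc) L1
      (R (hexW HexObs.xc) (ax 0) (row i) (MF (fun _ => hexW HexObs.xc) L2
      (tc (ax 0) tp F)))) := by
    funext F
    rw [colH_eq_MF, hL, MF_append]
    rfl
  rw [e]
  exact b

/-- General move from the floor to the top. -/
theorem leads_floor_top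
    (h1 : Leads (bc (K := ℝ) (ax 0) fl) p q) (hq : ∀ k, q (row k) = row k)
    (h2 : Leads (tc (K := ℝ) (ax 0) tp) q s) : Leads (colH N) p s := by
  have a2 : Leads (MF (fun _ => hexW HexObs.xc) (List.finRange N)) q q :=
    leads_MF_stay xc_pos' (fun k _ => Or.inr (hq k))
  have P5 : Pos (tc (K := ℝ) (ax 0 : Site N) tp) := pos_tc
  have P4 := (pos_MF xc_pos'.le (List.finRange N)).comp P5
  exact h1.comp (a2.comp h2 P5) P4

end column

/-! ### The moves -/

section moves

variable {N : ℕ} {p : Pat (Site N)} {i j : Fin N}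

open Site

theorem ax_ne_row (k : Fin 6) (i : Fin N) : (ax k : Site N) ≠ row i := by
  intro h; cases h

theorem ax_ne_fl (k : Fin 6) : (ax k : Site N) ≠ fl := by
  intro h; cases h

theorem ax_ne_tp (k : Fin 6) : (ax k : Site N) ≠ tp := by
  intro h; cases h

theorem row_ne_fl (i : Fin N) : (row i : Site N) ≠ fl := by
  intro h; cases h

theorem row_ne_tp (i : Fin N) : (row i : Site N) ≠ tp := by
  intro h; cases h

theorem fl_ne_tp : (fl : Site N) ≠ tp := by
  intro h; cases h

theorem row_ne_row (h : i ≠ j) : (row i : Site N) ≠ row j := by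
  intro e
  injection e with e
  exact h e

/-- values of `swap` -/
theorem swap_out {α : Type*} [DecidableEq α] {p : Pat α} {i j k : α} (hi : k ≠ i) (hj : k ≠ j)
    (hi' : p k ≠ i) (hj' : p k ≠ j) : swap i j p k = p k := by
  rw [pswap_apply, Equiv.swap_apply_of_ne_of_ne hi hj, Equiv.swap_apply_of_ne_of_ne hi' hj']

/-- The strands at two consecutive occupied rows are joined. -/
theorem move_join (hij : i < j) (hc : p (ax 0) = ax 0) (hi : p (row i) ≠ row i)
    (hj : p (row j) ≠ row j) (h : p (row i) ≠ row j)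
    (hb : ∀ k, i < k → k < j → p (row k) = row k) :
    Leads (colH N) p (cut (row i) (row j) p) := by
  have n1 := ax_ne_row (N := N) 0 i
  have n2 := ax_ne_row (N := N) 0 j
  have n3 := row_ne_row hij.ne
  have e := cut_swap' hc hi hj h n1 n2 n3
  have hpc : p (row i) ≠ ax 0 := fun e => n1 (by rw [← p.inv (row i), e, hc])
  have hpcj : p (row j) ≠ ax 0 := fun e => n2 (by rw [← p.inv (row j), e, hc])
  have e1 : swap (ax 0) (row i) p (ax 0) = p (row i) := by
    rw [pswap_apply, Equiv.swap_apply_left, Equiv.swap_apply_of_ne_of_ne hpc hi]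
  have e2 : swap (ax 0) (row i) p (row j) = p (row j) :=
    swap_out n2.symm n3.symm hpcj (fun e => h (by rw [← e, p.inv]))
  rw [← e]
  refine leads_rows hij hc (leads_R_swap xc_pos' (Or.inl ⟨hc, hi⟩)) ?_
    (leads_R_cut xc_pos' (by rw [e1]; exact hpc) (by rw [e2]; exact hj) (by rw [e1]; exact h)) ?_
  · intro k hk1 hk2
    have hk := hb k hk1 hk2
    have m1 := ax_ne_row (N := N) 0 k
    have m2 := row_ne_row hk1.ne'
    rw [swap_out m1.symm m2 (by rw [hk]; exact m1.symm) (by rw [hk]; exact m2), hk]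
  · exact cut_left n2 (by rw [e1]; exact hpc) (by rw [e2]; exact hj) (by rw [e1]; exact h)

/-- An arc between two empty rows is created. -/
theorem move_create (hij : i < j) (hc : p (ax 0) = ax 0) (hi : p (row i) = row i)
    (hj : p (row j) = row j) (hb : ∀ k, i < k → k < j → p (row k) = row k) :
    Leads (colH N) p (cup (row i) (row j) p) := by
  have n1 := ax_ne_row (N := N) 0 i
  have n2 := ax_ne_row (N := N) 0 j
  have n3 := row_ne_row hij.ne
  have e := swap_cup' hc hi hj n1 n2 n3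
  have e1 : cup (ax 0) (row i) p (ax 0) = row i := by
    rw [pcup_apply hc hi, if_pos rfl]
  have e2 : cup (ax 0) (row i) p (row j) = row j := by
    rw [pcup_apply hc hi, if_neg n2.symm, if_neg n3.symm, hj]
  rw [← e]
  refine leads_rows hij hc (leads_R_cup xc_pos' hc hi) ?_
    (leads_R_swap xc_pos' (Or.inr ⟨by rw [e1]; exact n1.symm, e2⟩)) ?_
  · intro k hk1 hk2
    have m1 := ax_ne_row (N := N) 0 k
    have m2 := row_ne_row hk1.ne'
    rw [pcup_apply hc hi, if_neg m1.symm, if_neg m2, hb k hk1 hk2]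
  · rw [pswap_apply, Equiv.swap_apply_left, e2, Equiv.swap_apply_right]

/-- The lowest strand goes to the floor. -/
theorem move_floor (hc : p (ax 0) = ax 0) (hf : p fl = fl) (hi : p (row i) ≠ row i)
    (hb : ∀ k, k < i → p (row k) = row k) :
    Leads (colH N) p (swap (row i) fl p) := by
  have n1 := ax_ne_row (N := N) 0 i
  have n2 := ax_ne_fl (N := N) 0
  have n3 := row_ne_fl i
  have e := cut_cup' hc hf hi n1 n2 n3
  have e1 : cup (ax 0) fl p (ax 0) = fl := by rw [pcup_apply hc hf, if_pos rfl]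
  have e2 : cup (ax 0) fl p (row i) = p (row i) := by
    rw [pcup_apply hc hf, if_neg n1.symm, if_neg n3]
  rw [← e]
  refine leads_floor (leads_bc_cup hc hf) ?_
    (leads_R_cut xc_pos' (by rw [e1]; exact n2.symm) (by rw [e2]; exact hi)
      (by rw [e1]; exact n3.symm)) ?_
  · intro k hk
    have m1 := ax_ne_row (N := N) 0 k
    have m2 := row_ne_fl k
    rw [pcup_apply hc hf, if_neg m1.symm, if_neg m2, hb k hk]
  · exact cut_left n1 (by rw [e1]; exact n2.symm) (by rw [e2]; exact hi) (by rw [e1]; exact n3.symm)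

/-- A strand from the floor to an empty row is created. -/
theorem move_floor_create (hc : p (ax 0) = ax 0) (hf : p fl = fl) (hi : p (row i) = row i)
    (hb : ∀ k, k < i → p (row k) = row k) :
    Leads (colH N) p (cup fl (row i) p) := by
  have n1 := ax_ne_row (N := N) 0 i
  have n2 := ax_ne_fl (N := N) 0
  have n3 := row_ne_fl i
  have e := swap_cup' hc hf hi n2 n1 n3.symm
  have e1 : cup (ax 0) fl p (ax 0) = fl := by rw [pcup_apply hc hf, if_pos rfl]
  have e2 : cup (ax 0) fl p (row i) = row i := by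
    rw [pcup_apply hc hf, if_neg n1.symm, if_neg n3, hi]
  rw [← e]
  refine leads_floor (leads_bc_cup hc hf) ?_
    (leads_R_swap xc_pos' (Or.inr ⟨by rw [e1]; exact n2.symm, e2⟩)) ?_
  · intro k hk
    have m1 := ax_ne_row (N := N) 0 k
    have m2 := row_ne_fl k
    rw [pcup_apply hc hf, if_neg m1.symm, if_neg m2, hb k hk]
  · rw [pswap_apply, Equiv.swap_apply_left, e2, Equiv.swap_apply_right]

/-- The highest strand goes to the top. -/
theorem move_top (hc : p (ax 0) = ax 0) (ht : p tp = tp) (hi : p (row i) ≠ row i)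
    (hb : ∀ k, i < k → p (row k) = row k) :
    Leads (colH N) p (swap (row i) tp p) := by
  have n1 := ax_ne_row (N := N) 0 i
  have n2 := ax_ne_tp (N := N) 0
  have n3 := row_ne_tp i
  have e := swap_swap' hc ht n1 n2 n3
  have hpc : p (row i) ≠ ax 0 := fun e => n1 (by rw [← p.inv (row i), e, hc])
  have e1 : swap (ax 0) (row i) p (ax 0) = p (row i) := by
    rw [pswap_apply, Equiv.swap_apply_left, Equiv.swap_apply_of_ne_of_ne hpc hi]
  have e2 : swap (ax 0) (row i) p tp = tp := by
    rw [swap_out n2.symm n3.symm (by rw [ht]; exact n2.symm) (by rw [ht]; exact n3.symm), ht]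
  rw [← e]
  refine leads_top hc (leads_R_swap xc_pos' (Or.inl ⟨hc, hi⟩)) ?_
    (leads_tc_swap (by rw [e1]; exact hpc) e2)
  intro k hk
  have m1 := ax_ne_row (N := N) 0 k
  have m2 := row_ne_row hk.ne'
  have hk' := hb k hk
  rw [swap_out m1.symm m2 (by rw [hk']; exact m1.symm) (by rw [hk']; exact m2), hk']

/-- A strand from an empty row to the top is created. -/
theorem move_top_create (hc : p (ax 0) = ax 0) (ht : p tp = tp) (hi : p (row i) = row i)
    (hb : ∀ k, i < k → p (row k) = row k) :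
    Leads (colH N) p (cup (row i) tp p) := by
  have n1 := ax_ne_row (N := N) 0 i
  have n2 := ax_ne_tp (N := N) 0
  have n3 := row_ne_tp i
  have e := swap_cup' hc hi ht n1 n2 n3
  have e1 : cup (ax 0) (row i) p (ax 0) = row i := by rw [pcup_apply hc hi, if_pos rfl]
  have e2 : cup (ax 0) (row i) p tp = tp := by
    rw [pcup_apply hc hi, if_neg n2.symm, if_neg n3.symm, ht]
  rw [← e]
  refine leads_top hc (leads_R_cup xc_pos' hc hi) ?_
    (leads_tc_swap (by rw [e1]; exact n1.symm) e2)
  intro k hk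
  have m1 := ax_ne_row (N := N) 0 k
  have m2 := row_ne_row hk.ne'
  rw [pcup_apply hc hi, if_neg m1.symm, if_neg m2, hb k hk]

/-- A strand from the floor to the top. -/
theorem move_full (hc : p (ax 0) = ax 0) (hf : p fl = fl) (ht : p tp = tp)
    (hb : ∀ k, p (row k) = row k) : Leads (colH N) p (cup fl tp p) := by
  have n1 := ax_ne_fl (N := N) 0
  have n2 := ax_ne_tp (N := N) 0
  have n3 := fl_ne_tp (N := N)
  have e := swap_cup' hc hf ht n1 n2 n3
  have e1 : cup (ax 0) fl p (ax 0) = fl := by rw [pcup_apply hc hf, if_pos rfl]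
  have e2 : cup (ax 0) fl p tp = tp := by
    rw [pcup_apply hc hf, if_neg n2.symm, if_neg n3.symm, ht]
  rw [← e]
  refine leads_floor_top (leads_bc_cup hc hf) ?_
    (leads_tc_swap (by rw [e1]; exact n1.symm) e2)
  intro k
  have m1 := ax_ne_row (N := N) 0 k
  have m2 := row_ne_fl k
  rw [pcup_apply hc hf, if_neg m1.symm, if_neg m2, hb k]

/-- Nothing happens. -/
theorem move_stay (hc : p (ax 0) = ax 0) : Leads (colH N) p p := by
  have a2 : Leads (MF (fun _ => hexW HexObs.xc) (List.finRange N)) p p :=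
    leads_MF_stay xc_pos' (fun k _ => Or.inl hc)
  have P5 : Pos (tc (K := ℝ) (ax 0 : Site N) tp) := pos_tc
  have P4 := (pos_MF xc_pos'.le (List.finRange N)).comp P5
  exact (leads_bc_stay hc).comp (a2.comp (leads_tc_stay hc) P5) P4

end moves

end Pool.Agent.EXL
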