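import Pool.Agent.EXL.Net0
import Pool.Agent.EXL.Par

/-!
# N2: the column order of the network, definitions

Front maps: the sites of the column operators are identified with the outgoing half edges of the
part of the network that has been processed.
-/

set_option autoImplicit false

namespace Pool.Agent.EXL.Net

open Pool.Agent.EXL Pat HexObs HexObs.LP

variable {K : Type*} [CommRing K]

/-- half edges of the lower site of the cell (column k, row i): down, left, right. -/
def lS (k i : ℤ) : Lab := hf (_root_.EXL.A k i, (0, -1))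
def lW (k i : ℤ) : Lab := hf (_root_.EXL.A k i, (-1, 1))
def lM (k i : ℤ) : Lab := hf (_root_.EXL.A k i, (1, 0))
/-- half edges of the upper site: up, left, right. -/
def lN (k i : ℤ) : Lab := hf (_root_.EXL.B k i, (0, 1))
def rM (k i : ℤ) : Lab := hf (_root_.EXL.B k i, (-1, 0))
def lE (k i : ℤ) : Lab := hf (_root_.EXL.B k i, (1, -1))
/-- labels that are not half edges. -/
def lX (l : ℕ) : Lab := hf ((0, 0), ((l : ℤ) + 5, 0))

theorem cl_A (k i : ℤ) : cl (_root_.EXL.A k i) = 2 := by
  unfold cl _root_.EXL.A
  have : (2 * k + i - (-k + 1 + i) : ℤ) = 3 * (k - 1) + 2 := by ring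
  simp only [this]
  push_cast
  have h3 : (3 : ZMod 3) = 0 := by decide
  rw [h3, zero_mul, zero_add]

theorem cl_B (k i : ℤ) : cl (_root_.EXL.B k i) = 0 := by
  unfold cl _root_.EXL.B
  have : (2 * k + i + 1 - (-k + 1 + i) : ℤ) = 3 * k := by ring
  simp only [this]
  push_cast
  have h3 : (3 : ZMod 3) = 0 := by decide
  rw [h3, zero_mul]

theorem Crv_A (x : K) (k i : ℤ) :
    Crv x (_root_.EXL.A k i) = Cr x (lS k i) (lM k i) (lW k i) := by
  have h : dv (_root_.EXL.A k i) = (0, -1) := by
    unfold dv
    rw [cl_A, if_neg (by decide)]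
  unfold Crv
  rw [h]
  rfl

theorem Crv_B (x : K) (k i : ℤ) :
    Crv x (_root_.EXL.B k i) = Cr x (lE k i) (lN k i) (rM k i) := by
  have h : dv (_root_.EXL.B k i) = (0, 1) := by
    unfold dv
    rw [cl_B, if_pos rfl]
  unfold Crv
  rw [h, Cr_rot, Cr_rot]
  rfl

/-- the rhombus (column k, row i). -/
noncomputable def Rho (x : K) (k i : ℤ) : Op Lab K :=
  Crv x (_root_.EXL.A k i) * Crv x (_root_.EXL.B k i) *
    (Co (lN k (i - 1)) (lS k i) * Co (lW (k + 1) i) (lE k i) * Co (lM k i) (rM k i))

/-- column k: floor end, rhombi from the bottom to the top, top end. -/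
noncomputable def colOp (x : K) (N : ℕ) (k : ℤ) : Op Lab K :=
  En be (lN k (-1)) * ((List.finRange N).map (fun i : Fin N => Rho x k ((i : ℕ) : ℤ))).prod *
    (En ta (lS k N) * Co (lN k ((N : ℤ) - 1)) (lS k N))

/-- the edges at the left side. -/
noncomputable def leftOp (K : Type*) [CommRing K] (N : ℕ) : Op Lab K :=
  ((List.finRange N).map (fun i : Fin N => (Co (lW 0 ((i : ℕ) : ℤ)) (lE (-1) ((i : ℕ) : ℤ)) : Op Lab K))).prod

/-- the network of m columns in column order, the column m - 1 first. -/
noncomputable def tot (x : K) (N : ℕ) : ℕ → Op Lab K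
  | 0 => leftOp K N
  | m + 1 => colOp x N m * tot x N m

/-- the outside half edges at the floor. -/
def feet (m : ℕ) : Finset (Pt × Pt) :=
  (Finset.range m).image (fun j : ℕ => (_root_.EXL.B j (-1), ((0, 1) : Pt)))

/-- the outside half edges at the top. -/
def tops (N m : ℕ) : Finset (Pt × Pt) :=
  (Finset.range m).image (fun j : ℕ => (_root_.EXL.A j N, ((0, -1) : Pt)))

end Pool.Agent.EXL.Net
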