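import Pool.Agent.EXL.Rhomb2
import Pool.Agent.EXL.NetDefs

/-!
# N2: the column order of the network

Front maps: the sites of the column operators are identified with the outgoing half edges of the
part of the network that has been processed.
-/

set_option autoImplicit false

namespace Pool.Agent.EXL.Net

open Pool.Agent.EXL Pat HexObs HexObs.LP

variable {K : Type*} [CommRing K]

section local_ids

variable {α : Type*} [DecidableEq α]

theorem Spl_congr {x : K} {e n m : α} {F F' : Pat α → K} {p : Pat α} (s : Finset α)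
    (hs : ∀ a ∈ s, p a = a) (he : e ∉ s) (hn : n ∉ s) (hm : m ∉ s)
    (h : ∀ q : Pat α, (∀ a ∈ s, q a = a) → F q = F' q) : Spl x e n m F p = Spl x e n m F' p := by
  have k1 : ∀ i j : α, i ∉ s → j ∉ s → ∀ a ∈ s, swap i j p a = a := by
    intro i j hi hj a ha
    have h1 : a ≠ i := fun h => hi (h ▸ ha)
    have h2 : a ≠ j := fun h => hj (h ▸ ha)
    show Equiv.swap i j (p (Equiv.swap i j a)) = a
    rw [Equiv.swap_apply_of_ne_of_ne h1 h2, hs a ha, Equiv.swap_apply_of_ne_of_ne h1 h2]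
  have k2 : ∀ a ∈ s, cup n m p a = a := by
    intro a ha
    have h1 : a ≠ n := fun h => hn (h ▸ ha)
    have h2 : a ≠ m := fun h => hm (h ▸ ha)
    simp [cup, h1, h2, hs a ha]
  unfold Spl
  rw [h p hs, h _ k2, h _ (k1 e n he hn), h _ (k1 e m he hm)]

theorem rho_local (x : K) {e s aS aW am bm bE bN : α}
    (hd : [e, s, aS, aW, am, bm, bE, bN].Nodup) (G : Pat α → K) {p : Pat α} (p1 : p aS = aS)
    (p2 : p aW = aW) (p3 : p am = am) (p4 : p bm = bm) (p5 : p bE = bE) (p6 : p bN = bN) :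
    (Cr x aS am aW * Cr x bE bN bm * (Co s aS * Co e bE * Co am bm) : Op α K) G p =
      R (hexW x) s e (ren e aW (ren s bN G)) p := by
  simp only [List.nodup_cons, List.mem_cons, not_or, List.not_mem_nil, not_false_eq_true,
    and_true, List.nodup_nil] at hd
  obtain ⟨⟨a1, a2, a3, a4, a5, a6, a7⟩, ⟨b1, b2, b3, b4, b5, b6⟩, ⟨c1, c2, c3, c4, c5⟩,
    ⟨d1, d2, d3, d4⟩, ⟨e1, e2, e3⟩, ⟨f1, f2⟩, g1⟩ := hd
  have w1 : Commute (Cr x aS am aW : Op α K) (Cr x bE bN bm) :=
    Cr_comm (by tauto) (by tauto) (by tauto) (by tauto) (by tauto) (by tauto) (by tauto)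
      (by tauto) (by tauto)
  have w2 : Commute (Cr x aS am aW : Op α K) (Co e bE) :=
    Cr_Co_comm (Ne.symm a2) (by tauto) (Ne.symm a4) (by tauto) (Ne.symm a3) (by tauto)
  have w3 : Commute (Co s aS : Op α K) (Co e bE) :=
    Co_comm (Ne.symm a1) (by tauto) (Ne.symm a2) (by tauto)
  have e0 : (Cr x aS am aW * Cr x bE bN bm * (Co s aS * Co e bE * Co am bm) : Op α K) =
      Cr x bE bN bm * (Co e bE * (Cr x aS am aW * (Co s aS * Co bm am))) := by
    rw [w3.eq, Co_symm am bm, w1.eq]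
    simp only [mul_assoc]
    rw [← mul_assoc (Cr x aS am aW) (Co e bE), w2.eq]
    simp only [mul_assoc]
  rw [e0]
  simp only [Module.End.mul_apply]
  rw [Cr_eq, Co_eq, split_gen x a6 a7 a5 g1 (Ne.symm f1) (Ne.symm f2) _ p5 p6 p4]
  have step : ∀ q : Pat α, (∀ a ∈ ({aS, am, aW} : Finset α), q a = a) →
      (Cr x aS am aW) ((Co s aS) ((Co bm am) G)) q = Mer x s bm aW G q := by
    intro q hq
    rw [Cr_eq, Co_eq, Co_eq]
    exact merge_gen x b4 b1 b3 b2 (Ne.symm c3) (Ne.symm e1) (Ne.symm d2) c2 c1 (Ne.symm d1) _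
      (hq _ (by simp)) (hq _ (by simp)) (hq _ (by simp))
  rw [Spl_congr {aS, am, aW} (by
      intro a ha
      simp only [Finset.mem_insert, Finset.mem_singleton] at ha
      rcases ha with rfl | rfl | rfl
      · exact p1
      · exact p3
      · exact p2) (by simp; tauto) (by simp; tauto) (by simp; tauto) step]
  exact rhomb_gen x a1 a3 a7 a5 b2 b6 b4 d4 d2 (Ne.symm f2) G p2 p6 p4

end local_ids

end Pool.Agent.EXL.Net
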