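import Pool.Agent.EXL.NetEval

/-!
# N2: the top end and the floor end of a column
-/

set_option autoImplicit false

namespace Pool.Agent.EXL.Net

open Pool.Agent.EXL Pat

variable {α β K : Type*} [DecidableEq α] [DecidableEq β] [CommRing K]

/-- the optional end. -/
def EnF (t h : α) (F : Pat α → K) : Pat α → K := fun p => F p + cuF t h F p

theorem En_eq (t h : α) (F : Pat α → K) : En t h F = EnF t h F := by
  funext p
  simp only [En, EnF, cuF, LinearMap.add_apply, Module.End.one_apply, Pi.add_apply, cupO_apply]

theorem EnF_st (E : Pat.Emb β α) (F : Pat α → K) (q : Pat β) (t h : β) :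
    EnF (E.φ t) (E.φ h) F (E.st q) = EnF t h (fun q => F (E.st q)) q := by
  simp only [EnF, cuF_st]

def fEn (t h : β) : FOp β := fun p =>
  (0, p) :: (if p t = t ∧ p h = h then [(0, cup t h p)] else [])

def fTc (c t : β) : FOp β := fun p =>
  if p c = c then [(0, p)] else if p t = t then [(0, swap c t p)] else []

theorem rep_En (x : K) (t h : β) : Rep x (fEn t h) (EnF t h) := by
  intro F p
  simp only [EnF, cuF, fEn, ev]
  split_ifs <;> simp

theorem rep_Tc (x : K) (c t : β) : Rep x (fTc c t) (tc c t) := by
  intro F p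
  simp only [tc, fTc, ev]
  split_ifs <;> simp

/-! sites s, t, h (+ partners) -/

def t3 : Pat (Fin 3) := Pat.empty
def t3j : Pat (Fin 3) := ⟨![1, 0, 2], by decide⟩
def t4s : Pat (Fin 4) := ⟨![3, 1, 2, 0], by decide⟩
def t4t : Pat (Fin 4) := ⟨![0, 3, 2, 1], by decide⟩
def t5 : Pat (Fin 5) := ⟨![3, 4, 2, 0, 1], by decide⟩

theorem toe_t3 (x : K) (F : Pat (Fin 3) → K) : EnF 1 2 (glue 0 2 F) t3 = tc 0 1 F t3 :=
  rep_eq (x := x) ((rep_En x 1 2).comp (rep_Gl x 0 2)) (rep_Tc x 0 1) (by decide +kernel) F

theorem toe_t3j (x : K) (F : Pat (Fin 3) → K) : EnF 1 2 (glue 0 2 F) t3j = tc 0 1 F t3j :=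
  rep_eq (x := x) ((rep_En x 1 2).comp (rep_Gl x 0 2)) (rep_Tc x 0 1) (by decide +kernel) F

theorem toe_t4s (x : K) (F : Pat (Fin 4) → K) : EnF 1 2 (glue 0 2 F) t4s = tc 0 1 F t4s :=
  rep_eq (x := x) ((rep_En x 1 2).comp (rep_Gl x 0 2)) (rep_Tc x 0 1) (by decide +kernel) F

theorem toe_t4t (x : K) (F : Pat (Fin 4) → K) : EnF 1 2 (glue 0 2 F) t4t = tc 0 1 F t4t :=
  rep_eq (x := x) ((rep_En x 1 2).comp (rep_Gl x 0 2)) (rep_Tc x 0 1) (by decide +kernel) F

theorem toe_t5 (x : K) (F : Pat (Fin 5) → K) : EnF 1 2 (glue 0 2 F) t5 = tc 0 1 F t5 :=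
  rep_eq (x := x) ((rep_En x 1 2).comp (rep_Gl x 0 2)) (rep_Tc x 0 1) (by decide +kernel) F

theorem toe_gen {s t h : α} (h01 : s ≠ t) (h02 : s ≠ h) (h12 : t ≠ h) (F : Pat α → K) {p : Pat α}
    (pa : p h = h) : (En t h * Co s h : Op α K) F p = tc s t F p := by
  rw [Module.End.mul_apply, En_eq, Co_eq]
  have x : K := 0
  have i0 : p (p s) = s := p.inv s
  have i1 : p (p t) = t := p.inv t
  by_cases c0 : p s = s
  · by_cases c1 : p t = t
    · have hφ : Function.Injective ![s, t, h] := by
        intro i j; fin_cases i <;> fin_cases j <;> simp <;> grind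
      have hc : ∀ b, p (![s, t, h] b) = ![s, t, h] (t3 b) := by
        intro b; fin_cases b
        · exact c0
        · exact c1
        · exact pa
      have key := toe_t3 x (fun q => F ((temb _ hφ p t3 hc).st q))
      have hst := temb_st _ hφ p t3 hc
      set E := temb _ hφ p t3 hc
      have k1 : EnF (E.φ 1) (E.φ 2) (glue (E.φ 0) (E.φ 2) F) (E.st t3) =
          tc (E.φ 0) (E.φ 1) F (E.st t3) := by
        rw [EnF_st, tc_st]; simp only [glue_st]
        exact key
      rw [hst] at k1
      exact k1
    · have hφ : Function.Injective ![s, t, h, p t] := by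
        intro i j; fin_cases i <;> fin_cases j <;> simp <;> grind
      have hc : ∀ b, p (![s, t, h, p t] b) = ![s, t, h, p t] (t4t b) := by
        intro b; fin_cases b
        · exact c0
        · exact rfl
        · exact pa
        · exact i1
      have key := toe_t4t x (fun q => F ((temb _ hφ p t4t hc).st q))
      have hst := temb_st _ hφ p t4t hc
      set E := temb _ hφ p t4t hc
      have k1 : EnF (E.φ 1) (E.φ 2) (glue (E.φ 0) (E.φ 2) F) (E.st t4t) =
          tc (E.φ 0) (E.φ 1) F (E.st t4t) := by
        rw [EnF_st, tc_st]; simp only [glue_st]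
        exact key
      rw [hst] at k1
      exact k1
  · by_cases c1 : p t = t
    · have hφ : Function.Injective ![s, t, h, p s] := by
        intro i j; fin_cases i <;> fin_cases j <;> simp <;> grind
      have hc : ∀ b, p (![s, t, h, p s] b) = ![s, t, h, p s] (t4s b) := by
        intro b; fin_cases b
        · exact rfl
        · exact c1
        · exact pa
        · exact i0
      have key := toe_t4s x (fun q => F ((temb _ hφ p t4s hc).st q))
      have hst := temb_st _ hφ p t4s hc
      set E := temb _ hφ p t4s hc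
      have k1 : EnF (E.φ 1) (E.φ 2) (glue (E.φ 0) (E.φ 2) F) (E.st t4s) =
          tc (E.φ 0) (E.φ 1) F (E.st t4s) := by
        rw [EnF_st, tc_st]; simp only [glue_st]
        exact key
      rw [hst] at k1
      exact k1
    · by_cases c2 : p s = t
      · have hφ : Function.Injective ![s, t, h] := by
          intro i j; fin_cases i <;> fin_cases j <;> simp <;> grind
        have hc : ∀ b, p (![s, t, h] b) = ![s, t, h] (t3j b) := by
          intro b; fin_cases b
          · exact c2
          · exact (by rw [← c2]; exact i0)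
          · exact pa
        have key := toe_t3j x (fun q => F ((temb _ hφ p t3j hc).st q))
        have hst := temb_st _ hφ p t3j hc
        set E := temb _ hφ p t3j hc
        have k1 : EnF (E.φ 1) (E.φ 2) (glue (E.φ 0) (E.φ 2) F) (E.st t3j) =
            tc (E.φ 0) (E.φ 1) F (E.st t3j) := by
          rw [EnF_st, tc_st]; simp only [glue_st]
          exact key
        rw [hst] at k1
        exact k1
      · have hφ : Function.Injective ![s, t, h, p s, p t] := by
          intro i j; fin_cases i <;> fin_cases j <;> simp <;> grind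
        have hc : ∀ b, p (![s, t, h, p s, p t] b) = ![s, t, h, p s, p t] (t5 b) := by
          intro b; fin_cases b
          · exact rfl
          · exact rfl
          · exact pa
          · exact i0
          · exact i1
        have key := toe_t5 x (fun q => F ((temb _ hφ p t5 hc).st q))
        have hst := temb_st _ hφ p t5 hc
        set E := temb _ hφ p t5 hc
        have k1 : EnF (E.φ 1) (E.φ 2) (glue (E.φ 0) (E.φ 2) F) (E.st t5) =
            tc (E.φ 0) (E.φ 1) F (E.st t5) := by
          rw [EnF_st, tc_st]; simp only [glue_st]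
          exact key
        rw [hst] at k1
        exact k1

theorem floor_gen {b h : α} (F : Pat α → K) {p : Pat α} (ph : p h = h) :
    (En b h : Op α K) F p = bc h b F p := by
  rw [En_eq]
  unfold EnF cuF bc
  by_cases c : p b = b
  · rw [if_pos ⟨c, ph⟩, if_pos ph, if_pos c, cup_symm]
  · rw [if_neg (fun h => c h.1), if_pos ph, if_neg c, add_zero]

end Pool.Agent.EXL.Net
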