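import Pool.Agent.EXL.NetFront

/-!
# N2: evaluation of a rhombus and of a column on the front
-/

set_option autoImplicit false

namespace Pool.Agent.EXL.Net

open Pool.Agent.EXL Pat HexObs HexObs.LP

variable {K : Type*} [CommRing K]

@[simp] theorem lS_inj {k i k' i' : ℤ} : lS k i = lS k' i' ↔ k = k' ∧ i = i' := by
  simp only [lS, _root_.EXL.A, Sum.inl.injEq, Prod.mk.injEq, and_true]
  omega

@[simp] theorem lW_inj {k i k' i' : ℤ} : lW k i = lW k' i' ↔ k = k' ∧ i = i' := by
  simp only [lW, _root_.EXL.A, Sum.inl.injEq, Prod.mk.injEq, and_true]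
  omega

@[simp] theorem lM_inj {k i k' i' : ℤ} : lM k i = lM k' i' ↔ k = k' ∧ i = i' := by
  simp only [lM, _root_.EXL.A, Sum.inl.injEq, Prod.mk.injEq, and_true]
  omega

@[simp] theorem lN_inj {k i k' i' : ℤ} : lN k i = lN k' i' ↔ k = k' ∧ i = i' := by
  simp only [lN, _root_.EXL.B, Sum.inl.injEq, Prod.mk.injEq, and_true]
  omega

@[simp] theorem rM_inj {k i k' i' : ℤ} : rM k i = rM k' i' ↔ k = k' ∧ i = i' := by
  simp only [rM, _root_.EXL.B, Sum.inl.injEq, Prod.mk.injEq, and_true]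
  omega

@[simp] theorem lE_inj {k i k' i' : ℤ} : lE k i = lE k' i' ↔ k = k' ∧ i = i' := by
  simp only [lE, _root_.EXL.B, Sum.inl.injEq, Prod.mk.injEq, and_true]
  omega

@[simp] theorem lS_ne_lW {k i k' i' : ℤ} : (lS k i = lW k' i') = False := by
  simp only [lS, lW, Sum.inl.injEq, Prod.mk.injEq, eq_iff_iff, iff_false]
  omega

@[simp] theorem lS_ne_lM {k i k' i' : ℤ} : (lS k i = lM k' i') = False := by
  simp only [lS, lM, Sum.inl.injEq, Prod.mk.injEq, eq_iff_iff, iff_false]
  omega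

@[simp] theorem lS_ne_lN {k i k' i' : ℤ} : (lS k i = lN k' i') = False := by
  simp only [lS, lN, Sum.inl.injEq, Prod.mk.injEq, eq_iff_iff, iff_false]
  omega

@[simp] theorem lS_ne_rM {k i k' i' : ℤ} : (lS k i = rM k' i') = False := by
  simp only [lS, rM, Sum.inl.injEq, Prod.mk.injEq, eq_iff_iff, iff_false]
  omega

@[simp] theorem lS_ne_lE {k i k' i' : ℤ} : (lS k i = lE k' i') = False := by
  simp only [lS, lE, Sum.inl.injEq, Prod.mk.injEq, eq_iff_iff, iff_false]
  omega

@[simp] theorem lS_ne_lX {k i : ℤ} {l : ℕ} : (lS k i = lX l) = False := by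
  simp only [lS, lX, Sum.inl.injEq, Prod.mk.injEq, eq_iff_iff, iff_false]
  omega

@[simp] theorem lX_ne_lS {k i : ℤ} {l : ℕ} : (lX l = lS k i) = False := by
  simp only [lS, lX, Sum.inl.injEq, Prod.mk.injEq, eq_iff_iff, iff_false]
  omega

@[simp] theorem lS_ne_be {k i : ℤ} : (lS k i = be) = False := by simp [lS]

@[simp] theorem be_ne_lS {k i : ℤ} : (be = lS k i) = False := by simp [lS]

@[simp] theorem lS_ne_ta {k i : ℤ} : (lS k i = ta) = False := by simp [lS]

@[simp] theorem ta_ne_lS {k i : ℤ} : (ta = lS k i) = False := by simp [lS]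

@[simp] theorem lW_ne_lS {k i k' i' : ℤ} : (lW k i = lS k' i') = False := by
  simp only [lW, lS, Sum.inl.injEq, Prod.mk.injEq, eq_iff_iff, iff_false]
  omega

@[simp] theorem lW_ne_lM {k i k' i' : ℤ} : (lW k i = lM k' i') = False := by
  simp only [lW, lM, Sum.inl.injEq, Prod.mk.injEq, eq_iff_iff, iff_false]
  omega

@[simp] theorem lW_ne_lN {k i k' i' : ℤ} : (lW k i = lN k' i') = False := by
  simp only [lW, lN, Sum.inl.injEq, Prod.mk.injEq, eq_iff_iff, iff_false]
  omega

@[simp] theorem lW_ne_rM {k i k' i' : ℤ} : (lW k i = rM k' i') = False := by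
  simp only [lW, rM, Sum.inl.injEq, Prod.mk.injEq, eq_iff_iff, iff_false]
  omega

@[simp] theorem lW_ne_lE {k i k' i' : ℤ} : (lW k i = lE k' i') = False := by
  simp only [lW, lE, Sum.inl.injEq, Prod.mk.injEq, eq_iff_iff, iff_false]
  omega

@[simp] theorem lW_ne_lX {k i : ℤ} {l : ℕ} : (lW k i = lX l) = False := by
  simp only [lW, lX, Sum.inl.injEq, Prod.mk.injEq, eq_iff_iff, iff_false]
  omega

@[simp] theorem lX_ne_lW {k i : ℤ} {l : ℕ} : (lX l = lW k i) = False := by
  simp only [lW, lX, Sum.inl.injEq, Prod.mk.injEq, eq_iff_iff, iff_false]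
  omega

@[simp] theorem lW_ne_be {k i : ℤ} : (lW k i = be) = False := by simp [lW]

@[simp] theorem be_ne_lW {k i : ℤ} : (be = lW k i) = False := by simp [lW]

@[simp] theorem lW_ne_ta {k i : ℤ} : (lW k i = ta) = False := by simp [lW]

@[simp] theorem ta_ne_lW {k i : ℤ} : (ta = lW k i) = False := by simp [lW]

@[simp] theorem lM_ne_lS {k i k' i' : ℤ} : (lM k i = lS k' i') = False := by
  simp only [lM, lS, Sum.inl.injEq, Prod.mk.injEq, eq_iff_iff, iff_false]
  omega

@[simp] theorem lM_ne_lW {k i k' i' : ℤ} : (lM k i = lW k' i') = False := by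
  simp only [lM, lW, Sum.inl.injEq, Prod.mk.injEq, eq_iff_iff, iff_false]
  omega

@[simp] theorem lM_ne_lN {k i k' i' : ℤ} : (lM k i = lN k' i') = False := by
  simp only [lM, lN, Sum.inl.injEq, Prod.mk.injEq, eq_iff_iff, iff_false]
  omega

@[simp] theorem lM_ne_rM {k i k' i' : ℤ} : (lM k i = rM k' i') = False := by
  simp only [lM, rM, Sum.inl.injEq, Prod.mk.injEq, eq_iff_iff, iff_false]
  omega

@[simp] theorem lM_ne_lE {k i k' i' : ℤ} : (lM k i = lE k' i') = False := by
  simp only [lM, lE, Sum.inl.injEq, Prod.mk.injEq, eq_iff_iff, iff_false]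
  omega

@[simp] theorem lM_ne_lX {k i : ℤ} {l : ℕ} : (lM k i = lX l) = False := by
  simp only [lM, lX, Sum.inl.injEq, Prod.mk.injEq, eq_iff_iff, iff_false]
  omega

@[simp] theorem lX_ne_lM {k i : ℤ} {l : ℕ} : (lX l = lM k i) = False := by
  simp only [lM, lX, Sum.inl.injEq, Prod.mk.injEq, eq_iff_iff, iff_false]
  omega

@[simp] theorem lM_ne_be {k i : ℤ} : (lM k i = be) = False := by simp [lM]

@[simp] theorem be_ne_lM {k i : ℤ} : (be = lM k i) = False := by simp [lM]

@[simp] theorem lM_ne_ta {k i : ℤ} : (lM k i = ta) = False := by simp [lM]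

@[simp] theorem ta_ne_lM {k i : ℤ} : (ta = lM k i) = False := by simp [lM]

@[simp] theorem lN_ne_lS {k i k' i' : ℤ} : (lN k i = lS k' i') = False := by
  simp only [lN, lS, Sum.inl.injEq, Prod.mk.injEq, eq_iff_iff, iff_false]
  omega

@[simp] theorem lN_ne_lW {k i k' i' : ℤ} : (lN k i = lW k' i') = False := by
  simp only [lN, lW, Sum.inl.injEq, Prod.mk.injEq, eq_iff_iff, iff_false]
  omega

@[simp] theorem lN_ne_lM {k i k' i' : ℤ} : (lN k i = lM k' i') = False := by
  simp only [lN, lM, Sum.inl.injEq, Prod.mk.injEq, eq_iff_iff, iff_false]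
  omega

@[simp] theorem lN_ne_rM {k i k' i' : ℤ} : (lN k i = rM k' i') = False := by
  simp only [lN, rM, Sum.inl.injEq, Prod.mk.injEq, eq_iff_iff, iff_false]
  omega

@[simp] theorem lN_ne_lE {k i k' i' : ℤ} : (lN k i = lE k' i') = False := by
  simp only [lN, lE, Sum.inl.injEq, Prod.mk.injEq, eq_iff_iff, iff_false]
  omega

@[simp] theorem lN_ne_lX {k i : ℤ} {l : ℕ} : (lN k i = lX l) = False := by
  simp only [lN, lX, Sum.inl.injEq, Prod.mk.injEq, eq_iff_iff, iff_false]
  omega

@[simp] theorem lX_ne_lN {k i : ℤ} {l : ℕ} : (lX l = lN k i) = False := by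
  simp only [lN, lX, Sum.inl.injEq, Prod.mk.injEq, eq_iff_iff, iff_false]
  omega

@[simp] theorem lN_ne_be {k i : ℤ} : (lN k i = be) = False := by simp [lN]

@[simp] theorem be_ne_lN {k i : ℤ} : (be = lN k i) = False := by simp [lN]

@[simp] theorem lN_ne_ta {k i : ℤ} : (lN k i = ta) = False := by simp [lN]

@[simp] theorem ta_ne_lN {k i : ℤ} : (ta = lN k i) = False := by simp [lN]

@[simp] theorem rM_ne_lS {k i k' i' : ℤ} : (rM k i = lS k' i') = False := by
  simp only [rM, lS, Sum.inl.injEq, Prod.mk.injEq, eq_iff_iff, iff_false]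
  omega

@[simp] theorem rM_ne_lW {k i k' i' : ℤ} : (rM k i = lW k' i') = False := by
  simp only [rM, lW, Sum.inl.injEq, Prod.mk.injEq, eq_iff_iff, iff_false]
  omega

@[simp] theorem rM_ne_lM {k i k' i' : ℤ} : (rM k i = lM k' i') = False := by
  simp only [rM, lM, Sum.inl.injEq, Prod.mk.injEq, eq_iff_iff, iff_false]
  omega

@[simp] theorem rM_ne_lN {k i k' i' : ℤ} : (rM k i = lN k' i') = False := by
  simp only [rM, lN, Sum.inl.injEq, Prod.mk.injEq, eq_iff_iff, iff_false]
  omega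

@[simp] theorem rM_ne_lE {k i k' i' : ℤ} : (rM k i = lE k' i') = False := by
  simp only [rM, lE, Sum.inl.injEq, Prod.mk.injEq, eq_iff_iff, iff_false]
  omega

@[simp] theorem rM_ne_lX {k i : ℤ} {l : ℕ} : (rM k i = lX l) = False := by
  simp only [rM, lX, Sum.inl.injEq, Prod.mk.injEq, eq_iff_iff, iff_false]
  omega

@[simp] theorem lX_ne_rM {k i : ℤ} {l : ℕ} : (lX l = rM k i) = False := by
  simp only [rM, lX, Sum.inl.injEq, Prod.mk.injEq, eq_iff_iff, iff_false]
  omega

@[simp] theorem rM_ne_be {k i : ℤ} : (rM k i = be) = False := by simp [rM]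

@[simp] theorem be_ne_rM {k i : ℤ} : (be = rM k i) = False := by simp [rM]

@[simp] theorem rM_ne_ta {k i : ℤ} : (rM k i = ta) = False := by simp [rM]

@[simp] theorem ta_ne_rM {k i : ℤ} : (ta = rM k i) = False := by simp [rM]

@[simp] theorem lE_ne_lS {k i k' i' : ℤ} : (lE k i = lS k' i') = False := by
  simp only [lE, lS, Sum.inl.injEq, Prod.mk.injEq, eq_iff_iff, iff_false]
  omega

@[simp] theorem lE_ne_lW {k i k' i' : ℤ} : (lE k i = lW k' i') = False := by
  simp only [lE, lW, Sum.inl.injEq, Prod.mk.injEq, eq_iff_iff, iff_false]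
  omega

@[simp] theorem lE_ne_lM {k i k' i' : ℤ} : (lE k i = lM k' i') = False := by
  simp only [lE, lM, Sum.inl.injEq, Prod.mk.injEq, eq_iff_iff, iff_false]
  omega

@[simp] theorem lE_ne_lN {k i k' i' : ℤ} : (lE k i = lN k' i') = False := by
  simp only [lE, lN, Sum.inl.injEq, Prod.mk.injEq, eq_iff_iff, iff_false]
  omega

@[simp] theorem lE_ne_rM {k i k' i' : ℤ} : (lE k i = rM k' i') = False := by
  simp only [lE, rM, Sum.inl.injEq, Prod.mk.injEq, eq_iff_iff, iff_false]
  omega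

@[simp] theorem lE_ne_lX {k i : ℤ} {l : ℕ} : (lE k i = lX l) = False := by
  simp only [lE, lX, Sum.inl.injEq, Prod.mk.injEq, eq_iff_iff, iff_false]
  omega

@[simp] theorem lX_ne_lE {k i : ℤ} {l : ℕ} : (lX l = lE k i) = False := by
  simp only [lE, lX, Sum.inl.injEq, Prod.mk.injEq, eq_iff_iff, iff_false]
  omega

@[simp] theorem lE_ne_be {k i : ℤ} : (lE k i = be) = False := by simp [lE]

@[simp] theorem be_ne_lE {k i : ℤ} : (be = lE k i) = False := by simp [lE]

@[simp] theorem lE_ne_ta {k i : ℤ} : (lE k i = ta) = False := by simp [lE]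

@[simp] theorem ta_ne_lE {k i : ℤ} : (ta = lE k i) = False := by simp [lE]

theorem kap_ax0 (N : ℕ) (k : ℤ) (j : ℕ) : kap N k j (Site.ax 0) = lN k ((j : ℤ) - 1) := rfl

theorem kap_row_lt {N : ℕ} {k : ℤ} {j : ℕ} {i : Fin N} (h : (i : ℕ) < j) :
    kap N k j (Site.row i) = lW k ((i : ℕ) : ℤ) := by
  simp only [kap, if_pos h]

theorem kap_row_ge {N : ℕ} {k : ℤ} {j : ℕ} {i : Fin N} (h : ¬ (i : ℕ) < j) :
    kap N k j (Site.row i) = lW (k + 1) ((i : ℕ) : ℤ) := by
  simp only [kap, if_neg h]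

theorem rho_lft (x : K) {N : ℕ} (k : ℤ) (i : Fin N) (G : Pat Lab → K) (q : Pat (Site N)) :
    Rho x k ((i : ℕ) : ℤ) G (L N k i q) =
      R (hexW x) (Site.ax 0) (Site.row i) (fun q => G (L N k ((i : ℕ) + 1) q)) q := by
  set j : ℕ := (i : ℕ) with hj
  have f1 : ∀ q : Pat (Site N), L N k j q (lS k j) = lS k j := fun q => L_empty q (by
    intro b; cases b <;> simp only [kap] <;> (try split_ifs) <;> simp <;> omega)
  have f2 : ∀ q : Pat (Site N), L N k j q (lW k j) = lW k j := fun q => L_empty q (by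
    intro b; cases b <;> simp only [kap] <;> (try split_ifs) <;> simp <;> omega)
  have f3 : ∀ q : Pat (Site N), L N k j q (lM k j) = lM k j := fun q => L_empty q (by
    intro b; cases b <;> simp only [kap] <;> (try split_ifs) <;> simp <;> omega)
  have f4 : ∀ q : Pat (Site N), L N k j q (rM k j) = rM k j := fun q => L_empty q (by
    intro b; cases b <;> simp only [kap] <;> (try split_ifs) <;> simp <;> omega)
  have f5 : ∀ q : Pat (Site N), L N k j q (lE k j) = lE k j := fun q => L_empty q (by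
    intro b; cases b <;> simp only [kap] <;> (try split_ifs) <;> simp <;> omega)
  have f6 : ∀ q : Pat (Site N), L N k j q (lN k j) = lN k j := fun q => L_empty q (by
    intro b; cases b <;> simp only [kap] <;> (try split_ifs) <;> simp <;> omega)
  have hd : [lW (k + 1) j, lN k ((j : ℤ) - 1), lS k j, lW k j, lM k j, rM k j, lE k j, lN k j].Nodup := by
    simp only [List.nodup_cons, List.mem_cons, not_or, List.not_mem_nil, not_false_eq_true,
      and_true, List.nodup_nil]
    refine ⟨⟨?_, ?_, ?_, ?_, ?_, ?_, ?_⟩, ⟨?_, ?_, ?_, ?_, ?_, ?_⟩, ⟨?_, ?_, ?_, ?_, ?_⟩,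
      ⟨?_, ?_, ?_, ?_⟩, ⟨?_, ?_, ?_⟩, ⟨?_, ?_⟩, ?_⟩ <;> simp
  have h1 := rho_local x hd G (f1 q) (f2 q) (f3 q) (f4 q) (f5 q) (f6 q)
  have h2 : Rho x k (j : ℤ) G (L N k j q) = (Cr x (lS k j) (lM k j) (lW k j) *
      Cr x (lE k j) (lN k j) (rM k j) * (Co (lN k ((j : ℤ) - 1)) (lS k j) *
        Co (lW (k + 1) j) (lE k j) * Co (lM k j) (rM k j)) : Op Lab K) G (L N k j q) := by
    unfold Rho
    rw [Crv_A, Crv_B]
  rw [h2, h1]
  have e1 : lN k ((j : ℤ) - 1) = kap N k j (Site.ax 0) := rfl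
  have e2 : lW (k + 1) (j : ℤ) = kap N k j (Site.row i) := (kap_row_ge (lt_irrefl _)).symm
  have h3 : R (hexW x) (lN k ((j : ℤ) - 1)) (lW (k + 1) j)
      (ren (lW (k + 1) j) (lW k j) (ren (lN k ((j : ℤ) - 1)) (lN k j) G)) (L N k j q) =
      R (hexW x) (Site.ax 0) (Site.row i) (fun q =>
        ren (lW (k + 1) j) (lW k j) (ren (lN k ((j : ℤ) - 1)) (lN k j) G) (L N k j q)) q := by
    have := R_lft (hexW x) (kap N k j) (kap_inj N k j) (Site.ax 0) (Site.row i)
      (ren (lW (k + 1) j) (lW k j) (ren (lN k ((j : ℤ) - 1)) (lN k j) G)) q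
    rw [← e1, ← e2] at this
    exact this
  rw [h3]
  congr 1
  funext q
  unfold ren
  rw [if_pos (f2 q)]
  unfold L
  rw [swap_lft, swap_lft]
  have hκ : (fun b => Equiv.swap (lN k ((j : ℤ) - 1)) (lN k j)
      (Equiv.swap (lW (k + 1) j) (lW k j) (kap N k j b))) = kap N k (j + 1) := by
    funext b
    simp only [Equiv.swap_apply_def]
    cases b with
    | fl => simp [kap]
    | tp => simp [kap]
    | row i' =>
      by_cases c1 : (i' : ℕ) < j
      · rw [kap_row_lt c1, kap_row_lt (by omega)]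
        have c3 : ¬ (((i' : ℕ) : ℤ) = (j : ℤ)) := by omega
        simp [c3]
      · by_cases c2 : (i' : ℕ) = j
        · rw [kap_row_ge c1, kap_row_lt (by omega), c2]
          simp
        · rw [kap_row_ge c1, kap_row_ge (by omega)]
          have c3 : ¬ (((i' : ℕ) : ℤ) = (j : ℤ)) := by omega
          simp [c3]
    | ax l =>
      by_cases c : l = 0
      · subst c
        simp [kap]
      · simp [kap, c]
  have n1 : lft (kap N k j) (kap_inj N k j) q (lN k j) = lN k j := f6 q
  rw [if_pos]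
  · congr 1
    exact lft_congr _ _ (fun b _ => congrFun hκ b)
  · rw [lft_of_notMem]
    rintro ⟨b, hb⟩
    have : kap N k j b = lN k j := by
      simp only [Equiv.swap_apply_def] at hb
      split_ifs at hb with c1 c2
      · simp at hb
      · simp at hb
      · exact hb
    revert this
    revert b
    intro b; cases b <;> simp only [kap] <;> (try split_ifs) <;> simp <;> omega

end Pool.Agent.EXL.Net
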