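import Pool.Agent.EXL.NetCol

/-!
# N2: front maps and the evaluation of the network in column order
-/

set_option autoImplicit false

namespace Pool.Agent.EXL.Net

open Pool.Agent.EXL Pat HexObs HexObs.LP

variable {K : Type*} [CommRing K]

/-- The front map: the rows below j have been processed in the column k. -/
def kap (N : ℕ) (k : ℤ) (j : ℕ) : Site N → Lab
  | Site.fl => be
  | Site.tp => ta
  | Site.row i => if (i : ℕ) < j then lW k ((i : ℕ) : ℤ) else lW (k + 1) ((i : ℕ) : ℤ)
  | Site.ax l => if l = 0 then lN k ((j : ℤ) - 1) else lX l

theorem kap_inj (N : ℕ) (k : ℤ) (j : ℕ) : Function.Injective (kap N k j) := by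
  intro a b h
  cases a with
  | fl =>
    cases b with
    | fl => rfl
    | tp => simp [kap] at h
    | row i => simp only [kap] at h; split_ifs at h <;> simp [lW] at h
    | ax l => simp only [kap] at h; split_ifs at h <;> simp [lN, lX] at h
  | tp =>
    cases b with
    | fl => simp [kap] at h
    | tp => rfl
    | row i => simp only [kap] at h; split_ifs at h <;> simp [lW] at h
    | ax l => simp only [kap] at h; split_ifs at h <;> simp [lN, lX] at h
  | row i =>
    cases b with
    | fl => simp only [kap] at h; split_ifs at h <;> simp [lW] at h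
    | tp => simp only [kap] at h; split_ifs at h <;> simp [lW] at h
    | row i' =>
      have : (i : ℕ) = (i' : ℕ) := by
        simp only [kap] at h
        split_ifs at h <;> simp only [lW, _root_.EXL.A, Sum.inl.injEq, Prod.mk.injEq, and_true] at h <;> omega
      rw [Fin.ext this]
    | ax l =>
      simp only [kap] at h
      split_ifs at h <;> simp only [lW, lN, lX, _root_.EXL.A, _root_.EXL.B, Sum.inl.injEq, Prod.mk.injEq] at h <;> omega
  | ax l =>
    cases b with
    | fl => simp only [kap] at h; split_ifs at h <;> simp [lN, lX] at h
    | tp => simp only [kap] at h; split_ifs at h <;> simp [lN, lX] at h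
    | row i' =>
      simp only [kap] at h
      split_ifs at h <;> simp only [lW, lN, lX, _root_.EXL.A, _root_.EXL.B, Sum.inl.injEq, Prod.mk.injEq] at h <;> omega
    | ax l' =>
      have : l = l' := by
        simp only [kap] at h
        split_ifs at h with h1 h2 h2
        · rw [h1, h2]
        · simp only [lN, lX, _root_.EXL.B, Sum.inl.injEq, Prod.mk.injEq] at h
          omega
        · simp only [lN, lX, _root_.EXL.B, Sum.inl.injEq, Prod.mk.injEq] at h
          omega
        · simp only [lX, Sum.inl.injEq, Prod.mk.injEq] at h
          apply Fin.ext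
          omega
      rw [this]

/-- The lift of a pattern. -/
noncomputable def L (N : ℕ) (k : ℤ) (j : ℕ) (q : Pat (Site N)) : Pat Lab := lft (kap N k j) (kap_inj N k j) q

theorem L_congr {N : ℕ} {k k' : ℤ} {j j' : ℕ} {q : Pat (Site N)}
    (H : ∀ b, q b ≠ b → kap N k j b = kap N k' j' b) : L N k j q = L N k' j' q := lft_congr _ _ H

/-- the labels that are not in the range of the front map are empty. -/
theorem L_empty {N : ℕ} {k : ℤ} {j : ℕ} (q : Pat (Site N)) {x : Lab} (h : ∀ b, kap N k j b ≠ x) :
    L N k j q x = x := lft_of_notMem _ _ _ (fun ⟨b, hb⟩ => h b hb)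

end Pool.Agent.EXL.Net
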