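import Pool.Agent.EXL.NetEnds

/-!
# N2: evaluation of the network in column order = power of the column operator
-/

set_option autoImplicit false

namespace Pool.Agent.EXL.Net

open Pool.Agent.EXL Pat HexObs HexObs.LP

variable {K : Type*} [CommRing K]

theorem foldr_congr_fun {α β : Type*} (f : α → β → β) {b b' : β} (h : b = b') (l : List α) :
    l.foldr f b = l.foldr f b' := by rw [h]

theorem rows_lft (x : K) {N : ℕ} (k : ℤ) (G : Pat Lab → K) : ∀ (n j : ℕ), j + n = N →
    ∀ q : Pat (Site N),
    (((List.finRange N).drop j).map (fun i : Fin N => Rho x k ((i : ℕ) : ℤ))).prod G (L N k j q) =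
      ((List.finRange N).drop j).foldr
        (fun i F => R (hexW x) (Site.ax 0) (Site.row i) F) (fun q => G (L N k N q)) q
  | 0, j, h, q => by
    have : (List.finRange N).drop j = [] := by
      apply List.drop_eq_nil_of_le
      rw [List.length_finRange]
      omega
    rw [this]
    have : j = N := by omega
    subst this
    rfl
  | n + 1, j, h, q => by
    have hj : j < N := by omega
    have h1 : (List.finRange N).drop j = ⟨j, hj⟩ :: (List.finRange N).drop (j + 1) := by
      rw [List.drop_eq_getElem_cons (by rw [List.length_finRange]; exact hj)]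
      simp
    rw [h1, List.map_cons, List.prod_cons, List.foldr_cons, Module.End.mul_apply]
    have h2 := rho_lft x k ⟨j, hj⟩
      ((((List.finRange N).drop (j + 1)).map (fun i : Fin N => Rho x k ((i : ℕ) : ℤ))).prod G) q
    rw [h2]
    congr 1
    funext q'
    exact rows_lft x k G n (j + 1) (by omega) q'

theorem tc_congr {α : Type*} [DecidableEq α] {c t : α} {F F' : Pat α → K}
    (h : ∀ q : Pat α, q c = c → F q = F' q) : tc c t F = tc c t F' := by
  funext p
  unfold tc
  split_ifs with h1 h2
  · exact h p h1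
  · apply h
    show Equiv.swap c t (p (Equiv.swap c t c)) = c
    rw [Equiv.swap_apply_left, h2, Equiv.swap_apply_right]
  · rfl

theorem col_lft (x : K) {N : ℕ} (k : ℤ) (G : Pat Lab → K) (q : Pat (Site N))
    (hq : q (Site.ax 0) = Site.ax 0) :
    colOp x N k G (L N k 0 q) = colW (fun _ => hexW x) (fun q => G (L N (k - 1) 0 q)) q := by
  unfold colOp
  simp only [Module.End.mul_apply]
  have h0 : L N k 0 q (lN k (-1)) = lN k (-1) := by
    have e : lN k (-1) = kap N k 0 (Site.ax 0) := by rw [kap_ax0]; rfl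
    rw [e]
    unfold L
    rw [lft_apply, hq]
  rw [floor_gen _ h0]
  have e1 : lN k (-1) = kap N k 0 (Site.ax 0) := by rw [kap_ax0]; rfl
  have e2 : be = kap N k 0 Site.fl := rfl
  rw [e1, e2]
  unfold L
  rw [bc_lft]
  unfold colW
  congr 1
  funext q1
  have h1 := rows_lft x k ((En ta (lS k N)) ((Co (lN k ((N : ℤ) - 1)) (lS k N)) G)) N 0 (by omega) q1
  rw [List.drop_zero] at h1
  unfold L at h1
  rw [h1]
  apply congrFun
  apply foldr_congr_fun
  funext q2
  have h2 : L N k N q2 (lS k N) = lS k N := L_empty q2 (by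
    intro b; cases b <;> simp only [kap] <;> (try split_ifs) <;> simp <;> omega)
  have h3 := toe_gen (s := lN k ((N : ℤ) - 1)) (t := ta) (h := lS k N) (by simp) (by simp) (by simp) G h2
  rw [Module.End.mul_apply] at h3
  unfold L at h3
  rw [h3]
  have e3 : lN k ((N : ℤ) - 1) = kap N k N (Site.ax 0) := rfl
  have e4 : ta = kap N k N Site.tp := rfl
  rw [e3, e4, tc_lft]
  apply congrFun
  apply tc_congr
  intro q3 hq3
  congr 1
  apply lft_congr
  intro b hb
  cases b with
  | fl => rfl
  | tp => rfl
  | row i =>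
    rw [kap_row_lt i.2, kap_row_ge (by omega), sub_add_cancel]
  | ax l =>
    by_cases c : l = 0
    · subst c
      exact absurd hq3 hb
    · simp [kap, c]

theorem lft_injective {α β : Type*} (κ : β → α) (h : Function.Injective κ) :
    Function.Injective (lft κ h) := by
  intro q q' hqq
  apply Pat.ext
  funext b
  have := congrArg (fun p => p.f (κ b)) hqq
  simp only [lft_apply] at this
  exact h this

theorem left_dlt {N : ℕ} (l : List (Fin N)) (p : Pat Lab)
    (hp : ∀ i : Fin N, p (lE (-1) ((i : ℕ) : ℤ)) = lE (-1) ((i : ℕ) : ℤ)) :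
    (l.map (fun i : Fin N => (Co (lW 0 ((i : ℕ) : ℤ)) (lE (-1) ((i : ℕ) : ℤ)) : Op Lab K))).prod (dlt K) p =
      dlt K p := by
  induction l with
  | nil => rfl
  | cons i l ih =>
    rw [List.map_cons, List.prod_cons, Module.End.mul_apply, Co_apply]
    by_cases c : p (lW 0 ((i : ℕ) : ℤ)) = lW 0 ((i : ℕ) : ℤ)
    · rw [if_pos ⟨c, hp i⟩, ih]
    · rw [if_neg (fun h => c h.1), if_pos (Or.inr (Or.inl (hp i)))]
      unfold dlt
      rw [if_neg]
      intro h
      apply c
      rw [h]
      unfold full cup
      simp [Pat.empty]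

theorem full_lft {N : ℕ} (k : ℤ) (j : ℕ) : full = L N k j (fullS N) := by
  unfold fullS L
  have e1 : be = kap N k j Site.fl := rfl
  have e2 : ta = kap N k j Site.tp := rfl
  rw [← cup_lft, ← e1, ← e2]
  unfold full
  congr 1
  ext x : 2
  by_cases hx : ∃ b, kap N k j b = x
  · obtain ⟨b, rfl⟩ := hx
    rw [lft_apply]
    rfl
  · rw [lft_of_notMem _ _ _ hx]
    rfl

theorem dlt_lft {N : ℕ} (k : ℤ) (j : ℕ) (q : Pat (Site N)) :
    dlt K (L N k j q) = ind (fullS N) q := by
  unfold dlt ind
  rw [full_lft k j]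
  have : L N k j q = L N k j (fullS N) ↔ q = fullS N := (lft_injective _ _).eq_iff
  by_cases c : q = fullS N
  · rw [if_pos (this.2 c), if_pos c]
  · rw [if_neg (fun h => c (this.1 h)), if_neg c]

theorem colW_congr {N : ℕ} (w : Fin N → Wt K) {F F' : Pat (Site N) → K}
    (h : ∀ q : Pat (Site N), q (Site.ax 0) = Site.ax 0 → F q = F' q) : colW w F = colW w F' := by
  unfold colW
  rw [tc_congr h]

theorem tot_lft (x : K) {N : ℕ} (m : ℕ) : ∀ q : Pat (Site N), q (Site.ax 0) = Site.ax 0 →
    tot x N m (dlt K) (L N ((m : ℤ) - 1) 0 q) = ((colW (fun _ => hexW x))^[m] (ind (fullS N))) q := by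
  induction m with
  | zero =>
    intro q hq
    show leftOp K N (dlt K) _ = ind (fullS N) q
    unfold leftOp
    rw [left_dlt, dlt_lft]
    intro i
    exact L_empty q (by
      intro b; cases b <;> simp only [kap] <;> (try split_ifs) <;> simp <;> omega)
  | succ m ih =>
    intro q hq
    rw [Function.iterate_succ_apply']
    have e : ((m + 1 : ℕ) : ℤ) - 1 = m := by push_cast; ring
    rw [e]
    show (colOp x N m * tot x N m) (dlt K) _ = _
    rw [Module.End.mul_apply, col_lft x m _ q hq]
    apply congrFun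
    apply colW_congr
    intro q' hq'
    exact ih q' hq'

/-- N2, column part. -/
theorem tot_empty (x : K) (N m : ℕ) :
    tot x N m (dlt K) Pat.empty = ((colW (fun _ => hexW x))^[m] (ind (fullS N))) Pat.empty := by
  rw [← tot_lft x m Pat.empty rfl]
  apply congrArg
  ext y : 2
  unfold L
  by_cases hx : ∃ b, kap N ((m : ℤ) - 1) 0 b = y
  · obtain ⟨b, rfl⟩ := hx
    rw [lft_apply]
    rfl
  · rw [lft_of_notMem _ _ _ hx]
    rfl

end Pool.Agent.EXL.Net
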