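import Pool.Agent.EXL.Weights

/-!
# The other local operators

All operators act on functions of states.  Sites never disappear: auxiliary sites are empty before
and after their use; an operator that needs an empty site gives 0 if the site is occupied.
`A (B F)` means: `A` acts first on the state, then `B`.
-/

namespace Pool.Agent.EXL

open Pat

variable {α β K : Type*} [DecidableEq α] [DecidableEq β] [CommRing K]

/-- Bottom cap joining the empty sites `i`, `j`; `b` is the floor end. -/
def bot (κ k : K) (i j b : α) (F : Pat α → K) : Pat α → K := fun p =>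
  if p i = i then
    if p j = j then
      if p b = b then F p + κ * F (cup i j p) + k * (F (cup i b p) + F (cup j b p))
      else F p + κ * F (cup i j p)
    else 0
  else 0

/-- Top cap: the strands at `i`, `j` are joined, or one of them ends at the top end `t`. -/
def top (κ k : K) (i j t : α) (F : Pat α → K) : Pat α → K := fun p =>
  if p i = i then
    if p j = j then F p
    else if p t = t then k * F (swap j t p) else 0
  else if p j = j then (if p t = t then k * F (swap i t p) else 0)
  else if p i = j then 0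
  else κ * F (cut i j p)

/-- Bottom end of an ordinary column. -/
def bc (c b : α) (F : Pat α → K) : Pat α → K := fun p =>
  if p c = c then (if p b = b then F p + F (cup c b p) else F p) else 0

/-- Top end of an ordinary column. -/
def tc (c t : α) (F : Pat α → K) : Pat α → K := fun p =>
  if p c = c then F p else if p t = t then F (swap c t p) else 0

/-- Join the two lines `i` and `j`. -/
def glue (i j : α) (F : Pat α → K) : Pat α → K := fun p =>
  if p i = i then (if p j = j then F p else 0)
  else if p j = j then 0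
  else if p i = j then 0
  else F (cut i j p)

/-- A U-turn: creation of the pair of lines `i`, `j`. -/
def U (i j : α) (F : Pat α → K) : Pat α → K := fun p =>
  if p i = i then (if p j = j then F p + F (cup i j p) else 0) else 0

/-- The honeycomb vertex that splits the line `a` into `a` and `b` (`b` is empty before). -/
def Y (x : K) (a b : α) (F : Pat α → K) : Pat α → K := fun p =>
  if p b = b then
    if p a = a then F p + x * F (cup a b p) else x * F p + x * F (swap a b p)
  else 0

/-- The honeycomb vertex that merges the lines `a` and `b` into `a` (`b` is empty afterwards). -/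
def Yt (x : K) (a b : α) (F : Pat α → K) : Pat α → K := fun p =>
  if p b = b then (if p a = a then F p else x * F p)
  else if p a = a then x * F (swap a b p)
  else if p a = b then 0
  else x * F (cut a b p)

/-- The line `r` gets the new name `n` (`n` is empty before, `r` is empty afterwards). -/
def ren (r n : α) (F : Pat α → K) : Pat α → K := fun p =>
  if p n = n then F (swap r n p) else 0


/-- Projection to the states with `i` empty. -/
def emp (i : α) (F : Pat α → K) : Pat α → K := fun p => if p i = i then F p else 0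

/-- Exchange of the names of two lines. -/
def sw (i j : α) (F : Pat α → K) : Pat α → K := fun p => F (swap i j p)

/-- The sign of the occupation number of `i`. -/
def sg (i : α) (F : Pat α → K) : Pat α → K := fun p => if p i = i then F p else - F p

/-! ### Linearity -/

/-- Linear operators on functions of states. -/
def Lin (X : (Pat α → K) → (Pat α → K)) : Prop :=
  ∀ (a b : K) (F G : Pat α → K), X (fun p => a * F p + b * G p) = fun p => a * X F p + b * X G p

omit [DecidableEq α] in
theorem Lin.comp {X Y : (Pat α → K) → (Pat α → K)} (hX : Lin X) (hY : Lin Y) :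
    Lin (fun F => X (Y F)) := by
  intro a b F G
  show X (Y _) = _
  rw [hY, hX]

theorem lin_R (w : Wt K) (i j : α) : Lin (R w i j) := by
  intro a b F G; funext p; simp only [R]; split_ifs <;> ring

theorem lin_bot (κ k : K) (i j b : α) : Lin (bot κ k i j b) := by
  intro a b F G; funext p; simp only [bot]; split_ifs <;> ring

theorem lin_top (κ k : K) (i j t : α) : Lin (top κ k i j t) := by
  intro a b F G; funext p; simp only [top]; split_ifs <;> ring

theorem lin_bc (c b : α) : Lin (K := K) (bc c b) := by
  intro a b F G; funext p; simp only [bc]; split_ifs <;> ring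

theorem lin_tc (c t : α) : Lin (K := K) (tc c t) := by
  intro a b F G; funext p; simp only [tc]; split_ifs <;> ring

theorem lin_glue (i j : α) : Lin (K := K) (glue i j) := by
  intro a b F G; funext p; simp only [glue]; split_ifs <;> ring

theorem lin_U (i j : α) : Lin (K := K) (U i j) := by
  intro a b F G; funext p; simp only [U]; split_ifs <;> ring

theorem lin_Y (x : K) (i j : α) : Lin (Y x i j) := by
  intro a b F G; funext p; simp only [Y]; split_ifs <;> ring

theorem lin_Yt (x : K) (i j : α) : Lin (Yt x i j) := by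
  intro a b F G; funext p; simp only [Yt]; split_ifs <;> ring

theorem lin_ren (i j : α) : Lin (K := K) (ren i j) := by
  intro a b F G; funext p; simp only [ren]; split_ifs <;> ring

theorem lin_emp (i : α) : Lin (K := K) (emp i) := by
  intro a b F G; funext p; simp only [emp]; split_ifs <;> ring

theorem lin_sw (i j : α) : Lin (K := K) (sw i j) := by
  intro a b F G; funext p; simp only [sw]

theorem lin_sg (i : α) : Lin (K := K) (sg i) := by
  intro a b F G; funext p; simp only [sg]; split_ifs <;> ring

section nat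

variable (E : Pat.Emb β α) (F : Pat α → K) (q : Pat β)

theorem bot_st (κ k : K) (i j b : β) :
    bot κ k (E.φ i) (E.φ j) (E.φ b) F (E.st q) = bot κ k i j b (fun q => F (E.st q)) q := by
  simp only [bot, Pat.Emb.st_apply, E.inj.eq_iff, Pat.Emb.st_cup]

theorem top_st (κ k : K) (i j t : β) :
    top κ k (E.φ i) (E.φ j) (E.φ t) F (E.st q) = top κ k i j t (fun q => F (E.st q)) q := by
  simp only [top, Pat.Emb.st_apply, E.inj.eq_iff, Pat.Emb.st_swap, Pat.Emb.st_cut]

theorem bc_st (c b : β) :
    bc (E.φ c) (E.φ b) F (E.st q) = bc c b (fun q => F (E.st q)) q := by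
  simp only [bc, Pat.Emb.st_apply, E.inj.eq_iff, Pat.Emb.st_cup]

theorem tc_st (c t : β) :
    tc (E.φ c) (E.φ t) F (E.st q) = tc c t (fun q => F (E.st q)) q := by
  simp only [tc, Pat.Emb.st_apply, E.inj.eq_iff, Pat.Emb.st_swap]

theorem glue_st (i j : β) :
    glue (E.φ i) (E.φ j) F (E.st q) = glue i j (fun q => F (E.st q)) q := by
  simp only [glue, Pat.Emb.st_apply, E.inj.eq_iff, Pat.Emb.st_cut]

theorem U_st (i j : β) :
    U (E.φ i) (E.φ j) F (E.st q) = U i j (fun q => F (E.st q)) q := by
  simp only [U, Pat.Emb.st_apply, E.inj.eq_iff, Pat.Emb.st_cup]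

theorem Y_st (x : K) (a b : β) :
    Y x (E.φ a) (E.φ b) F (E.st q) = Y x a b (fun q => F (E.st q)) q := by
  simp only [Y, Pat.Emb.st_apply, E.inj.eq_iff, Pat.Emb.st_cup, Pat.Emb.st_swap]

theorem Yt_st (x : K) (a b : β) :
    Yt x (E.φ a) (E.φ b) F (E.st q) = Yt x a b (fun q => F (E.st q)) q := by
  simp only [Yt, Pat.Emb.st_apply, E.inj.eq_iff, Pat.Emb.st_cut, Pat.Emb.st_swap]

theorem ren_st (r n : β) :
    ren (E.φ r) (E.φ n) F (E.st q) = ren r n (fun q => F (E.st q)) q := by
  simp only [ren, Pat.Emb.st_apply, E.inj.eq_iff, Pat.Emb.st_swap]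

theorem emp_st (i : β) :
    emp (E.φ i) F (E.st q) = emp i (fun q => F (E.st q)) q := by
  simp only [emp, Pat.Emb.st_apply, E.inj.eq_iff]

theorem sw_st (i j : β) :
    sw (E.φ i) (E.φ j) F (E.st q) = sw i j (fun q => F (E.st q)) q := by
  simp only [sw, Pat.Emb.st_swap]

theorem sg_st (i : β) :
    sg (E.φ i) F (E.st q) = sg i (fun q => F (E.st q)) q := by
  simp only [sg, Pat.Emb.st_apply, E.inj.eq_iff]

end nat

section eval

variable {κ k x : K} {i j a b c t r n : α} {F : Pat α → K} {p q q' q'' : Pat α}

theorem bot_0 (h1 : p i = i) (h2 : p j = j) (h3 : p b = b) (h4 : cup i j p = q)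
    (h5 : cup i b p = q') (h6 : cup j b p = q'') :
    bot κ k i j b F p = F p + κ * F q + k * (F q' + F q'') := by
  simp [bot, h1, h2, h3, h4, h5, h6]

theorem bot_1 (h1 : p i = i) (h2 : p j = j) (h3 : p b ≠ b) (h4 : cup i j p = q) :
    bot κ k i j b F p = F p + κ * F q := by
  simp [bot, h1, h2, h3, h4]

theorem bot_z (h : p i ≠ i ∨ p j ≠ j) : bot κ k i j b F p = 0 := by
  simp only [bot]; rcases h with h | h <;> simp [h]

theorem top_0 (h1 : p i = i) (h2 : p j = j) : top κ k i j t F p = F p := by
  simp [top, h1, h2]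

theorem top_r (h1 : p i = i) (h2 : p j ≠ j) (h3 : p t = t) (h4 : swap j t p = q) :
    top κ k i j t F p = k * F q := by
  simp [top, h1, h2, h3, h4]

theorem top_l (h1 : p i ≠ i) (h2 : p j = j) (h3 : p t = t) (h4 : swap i t p = q) :
    top κ k i j t F p = k * F q := by
  simp [top, h1, h2, h3, h4]

theorem top_d (h1 : p i ≠ i) (h2 : p j ≠ j) (h3 : p i ≠ j) (h4 : cut i j p = q) :
    top κ k i j t F p = κ * F q := by
  simp [top, h1, h2, h3, h4]

theorem top_z1 (h1 : p i = i) (h2 : p j ≠ j) (h3 : p t ≠ t) : top κ k i j t F p = 0 := by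
  simp [top, h1, h2, h3]

theorem top_z2 (h1 : p i ≠ i) (h2 : p j = j) (h3 : p t ≠ t) : top κ k i j t F p = 0 := by
  simp [top, h1, h2, h3]

theorem top_z3 (h0 : i ≠ j) (h1 : p i = j) : top κ k i j t F p = 0 := by
  have h2 : p i ≠ i := by rw [h1]; exact h0.symm
  have h3 : p j = i := by rw [← h1, p.inv]
  have h4 : p j ≠ j := by rw [h3]; exact h0
  rw [top, if_neg h2, if_neg h4, if_pos h1]

theorem bc_0 (h1 : p c = c) (h2 : p b = b) (h3 : cup c b p = q) : bc c b F p = F p + F q := by
  simp [bc, h1, h2, h3]

theorem bc_1 (h1 : p c = c) (h2 : p b ≠ b) : bc c b F p = F p := by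
  simp [bc, h1, h2]

theorem bc_z (h1 : p c ≠ c) : bc c b F p = 0 := by
  simp [bc, h1]

theorem tc_0 (h1 : p c = c) : tc c t F p = F p := by
  simp [tc, h1]

theorem tc_1 (h1 : p c ≠ c) (h2 : p t = t) (h3 : swap c t p = q) : tc c t F p = F q := by
  simp [tc, h1, h2, h3]

theorem tc_z (h1 : p c ≠ c) (h2 : p t ≠ t) : tc c t F p = 0 := by
  simp [tc, h1, h2]

theorem glue_0 (h1 : p i = i) (h2 : p j = j) : glue i j F p = F p := by
  simp [glue, h1, h2]

theorem glue_z1 (h1 : p i = i) (h2 : p j ≠ j) : glue i j F p = 0 := by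
  simp [glue, h1, h2]

theorem glue_z2 (h1 : p i ≠ i) (h2 : p j = j) : glue i j F p = 0 := by
  simp [glue, h1, h2]

theorem glue_z3 (h0 : i ≠ j) (h1 : p i = j) : glue i j F p = 0 := by
  have h2 : p i ≠ i := by rw [h1]; exact h0.symm
  have h3 : p j = i := by rw [← h1, p.inv]
  have h4 : p j ≠ j := by rw [h3]; exact h0
  rw [glue, if_neg h2, if_neg h4, if_pos h1]

theorem glue_1 (h1 : p i ≠ i) (h2 : p j ≠ j) (h3 : p i ≠ j) (h4 : cut i j p = q) :
    glue i j F p = F q := by
  simp [glue, h1, h2, h3, h4]

theorem U_0 (h1 : p i = i) (h2 : p j = j) (h3 : cup i j p = q) : U i j F p = F p + F q := by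
  simp [U, h1, h2, h3]

theorem U_z (h : p i ≠ i ∨ p j ≠ j) : U i j F p = 0 := by
  simp only [U]; rcases h with h | h <;> simp [h]

theorem Y_0 (h1 : p b = b) (h2 : p a = a) (h3 : cup a b p = q) :
    Y x a b F p = F p + x * F q := by
  simp [Y, h1, h2, h3]

theorem Y_1 (h1 : p b = b) (h2 : p a ≠ a) (h3 : swap a b p = q) :
    Y x a b F p = x * F p + x * F q := by
  simp [Y, h1, h2, h3]

theorem Y_z (h1 : p b ≠ b) : Y x a b F p = 0 := by
  simp [Y, h1]

theorem Yt_0 (h1 : p b = b) (h2 : p a = a) : Yt x a b F p = F p := by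
  simp [Yt, h1, h2]

theorem Yt_1 (h1 : p b = b) (h2 : p a ≠ a) : Yt x a b F p = x * F p := by
  simp [Yt, h1, h2]

theorem Yt_2 (h1 : p b ≠ b) (h2 : p a = a) (h3 : swap a b p = q) :
    Yt x a b F p = x * F q := by
  simp [Yt, h1, h2, h3]

theorem Yt_z (h0 : a ≠ b) (h1 : p a = b) : Yt x a b F p = 0 := by
  have h2 : p a ≠ a := by rw [h1]; exact h0.symm
  have h3 : p b = a := by rw [← h1, p.inv]
  have h4 : p b ≠ b := by rw [h3]; exact h0
  rw [Yt, if_neg h4, if_neg h2, if_pos h1]

theorem Yt_3 (h1 : p a ≠ a) (h2 : p b ≠ b) (h3 : p a ≠ b) (h4 : cut a b p = q) :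
    Yt x a b F p = x * F q := by
  simp [Yt, h1, h2, h3, h4]

theorem ren_1 (h1 : p n = n) (h2 : swap r n p = q) : ren r n F p = F q := by
  simp [ren, h1, h2]

theorem ren_z (h1 : p n ≠ n) : ren r n F p = 0 := by
  simp [ren, h1]

theorem emp_1 (h1 : p i = i) : emp i F p = F p := by
  simp [emp, h1]

theorem emp_z (h1 : p i ≠ i) : emp i F p = 0 := by
  simp [emp, h1]

theorem sw_1 (h1 : swap i j p = q) : sw i j F p = F q := by
  simp [sw, h1]

theorem sg_0 (h1 : p i = i) : sg i F p = F p := by
  simp [sg, h1]

theorem sg_1 (h1 : p i ≠ i) : sg i F p = - F p := by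
  simp [sg, h1]

end eval

end Pool.Agent.EXL
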