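import Mathlib

/-!
# Connectivity states and local operators (exact solution of the O(0) strip)

A connectivity state on a set `α` of sites is an involution of `α`; its fixed points are the empty
sites.  Local operators act on functions of states (the dual picture): the value `F p` should be
thought of as the total weight of the completions of the state `p`.
-/

namespace Pool.Agent.EXL

/-- Connectivity states: involutions of the set of sites. Fixed points are the empty sites. -/
@[ext] structure Pat (α : Type*) where
  /-- the partner of a site -/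
  f : α → α
  inv : ∀ x, f (f x) = x

namespace Pat

variable {α β : Type*}

instance : CoeFun (Pat α) (fun _ => α → α) := ⟨Pat.f⟩

@[simp] theorem inv_apply (p : Pat α) (x : α) : p (p x) = x := p.inv x

theorem inj (p : Pat α) : Function.Injective p.f :=
  fun x y h => by rw [← p.inv x, ← p.inv y, h]

@[simp] theorem apply_eq_iff (p : Pat α) {x y : α} : p x = p y ↔ x = y := p.inj.eq_iff

theorem eq_comm' (p : Pat α) {x y : α} : p x = y ↔ p y = x := by
  constructor <;> (intro h; rw [← h]; exact p.inv _)

instance [Fintype α] [DecidableEq α] : DecidableEq (Pat α) := fun p q =>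
  decidable_of_iff (p.f = q.f) ⟨fun h => Pat.ext h, fun h => by rw [h]⟩

/-- The empty state. -/
def empty : Pat α := ⟨id, fun _ => rfl⟩

variable [DecidableEq α] [DecidableEq β]

/-- Exchange of the roles of two sites. -/
def swap (i j : α) (p : Pat α) : Pat α where
  f x := Equiv.swap i j (p (Equiv.swap i j x))
  inv x := by simp

/-- Create an arc between two empty sites (no change if they are not both empty). -/
def cup (i j : α) (p : Pat α) : Pat α where
  f x := if p i = i ∧ p j = j then (if x = i then j else if x = j then i else p x) else p x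
  inv x := by
    by_cases h : p i = i ∧ p j = j
    · simp only [h, and_self, if_true]
      obtain ⟨h1, h2⟩ := h
      by_cases hi : x = i
      · subst hi; by_cases hj : j = x
        · simp [hj]
        · simp [hj]
      · by_cases hj : x = j
        · subst hj; simp [hi]
        · have h3 : p x ≠ i := fun h => hi (by rw [← p.inv x, h, h1])
          have h4 : p x ≠ j := fun h => hj (by rw [← p.inv x, h, h2])
          simp [hi, hj, h3, h4]
    · simp [h]

/-- Join the partners of two occupied sites that are not partners of each other, and empty the two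
sites (no change if the condition does not hold). -/
def cut (i j : α) (p : Pat α) : Pat α where
  f x := if i ≠ j ∧ p i ≠ i ∧ p j ≠ j ∧ p i ≠ j then
      (if x = i then i else if x = j then j else if x = p i then p j else if x = p j then p i
        else p x) else p x
  inv x := by
    by_cases h : i ≠ j ∧ p i ≠ i ∧ p j ≠ j ∧ p i ≠ j
    · simp only [h, if_true, ne_eq, not_false_eq_true, and_self]
      obtain ⟨h1, h2, h3, h4⟩ := h
      have h5 : p j ≠ i := fun h => h4 (by rw [← h, p.inv])
      have h6 : p i ≠ p j := fun h => h1 (p.inj h)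
      by_cases hi : x = i
      · subst hi; simp
      · by_cases hj : x = j
        · subst hj; simp [hi]
        · by_cases ha : x = p i
          · subst ha; simp [hi, hj, h3, h5, h6.symm]
          · by_cases hb : x = p j
            · subst hb; simp [hi, hj, h2, h4, ha]
            · have h7 : p x ≠ i := fun h => ha (by rw [← h, p.inv])
              have h8 : p x ≠ j := fun h => hb (by rw [← h, p.inv])
              simp [hi, hj, ha, hb, h7, h8]
    · simp [h]

/-! ### Naturality -/

/-- Data of an embedded set of sites, closed under `p₀`. -/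
structure Emb (β α : Type*) where
  φ : β → α
  inj : Function.Injective φ
  p₀ : Pat α
  closed : ∀ b, ∃ c, p₀ (φ b) = φ c

namespace Emb

variable (E : Emb β α)

omit [DecidableEq α] [DecidableEq β] in
theorem not_mem {x : α} (hx : ¬ ∃ b, E.φ b = x) : ¬ ∃ b, E.φ b = E.p₀ x := by
  rintro ⟨b, hb⟩
  obtain ⟨c, hc⟩ := E.closed b
  exact hx ⟨c, by rw [← hc, hb, E.p₀.inv]⟩

/-- The state that is `q` on the embedded sites and `p₀` elsewhere. -/
noncomputable def st (q : Pat β) : Pat α where
  f := Function.extend E.φ (fun b => E.φ (q b)) E.p₀.f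
  inv x := by
    by_cases hx : ∃ b, E.φ b = x
    · obtain ⟨b, rfl⟩ := hx
      rw [E.inj.extend_apply, E.inj.extend_apply, q.inv]
    · rw [Function.extend_apply' _ _ _ hx, Function.extend_apply' _ _ _ (E.not_mem hx),
        E.p₀.inv]

omit [DecidableEq α] [DecidableEq β] in
@[simp] theorem st_apply (q : Pat β) (b : β) : E.st q (E.φ b) = E.φ (q b) := by
  change Function.extend E.φ (fun b => E.φ (q b)) E.p₀.f (E.φ b) = _
  rw [E.inj.extend_apply]

omit [DecidableEq α] [DecidableEq β] in
theorem st_apply' (q : Pat β) {x : α} (hx : ¬ ∃ b, E.φ b = x) : E.st q x = E.p₀ x := by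
  change Function.extend E.φ (fun b => E.φ (q b)) E.p₀.f x = _
  rw [Function.extend_apply' _ _ _ hx]

omit [DecidableEq α] [DecidableEq β] in
theorem st_eq {q : Pat β} (h : ∀ b, E.p₀ (E.φ b) = E.φ (q b)) : E.st q = E.p₀ := by
  ext x
  by_cases hx : ∃ b, E.φ b = x
  · obtain ⟨b, rfl⟩ := hx
    rw [st_apply, h]
  · rw [st_apply' _ _ hx]

theorem st_swap (q : Pat β) (i j : β) :
    swap (E.φ i) (E.φ j) (E.st q) = E.st (swap i j q) := by
  have hsw : ∀ b, Equiv.swap (E.φ i) (E.φ j) (E.φ b) = E.φ (Equiv.swap i j b) := by
    intro b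
    simp only [Equiv.swap_apply_def, E.inj.eq_iff]
    split_ifs <;> rfl
  have hout : ∀ x, (¬ ∃ b, E.φ b = x) → Equiv.swap (E.φ i) (E.φ j) x = x := by
    intro x hx
    exact Equiv.swap_apply_of_ne_of_ne (fun h => hx ⟨i, h.symm⟩) (fun h => hx ⟨j, h.symm⟩)
  ext x
  by_cases hx : ∃ b, E.φ b = x
  · obtain ⟨b, rfl⟩ := hx
    simp only [swap, hsw, st_apply]
  · rw [st_apply' _ _ hx]
    change Equiv.swap (E.φ i) (E.φ j) (E.st q (Equiv.swap (E.φ i) (E.φ j) x)) = _
    rw [hout x hx, st_apply' _ _ hx, hout _ (E.not_mem hx)]

theorem st_cup (q : Pat β) (i j : β) :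
    cup (E.φ i) (E.φ j) (E.st q) = E.st (cup i j q) := by
  ext x
  by_cases hx : ∃ b, E.φ b = x
  · obtain ⟨b, rfl⟩ := hx
    simp only [cup, st_apply, E.inj.eq_iff]
    split_ifs <;> rfl
  · rw [st_apply' _ _ hx]
    have h1 : x ≠ E.φ i := fun h => hx ⟨i, h.symm⟩
    have h2 : x ≠ E.φ j := fun h => hx ⟨j, h.symm⟩
    simp only [cup, if_neg h1, if_neg h2, ite_self, st_apply' _ _ hx]

theorem st_cut (q : Pat β) (i j : β) :
    cut (E.φ i) (E.φ j) (E.st q) = E.st (cut i j q) := by
  ext x
  by_cases hx : ∃ b, E.φ b = x
  · obtain ⟨b, rfl⟩ := hx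
    simp only [cut, st_apply, E.inj.eq_iff, ne_eq]
    split_ifs <;> rfl
  · rw [st_apply' _ _ hx]
    have h1 : x ≠ E.φ i := fun h => hx ⟨i, h.symm⟩
    have h2 : x ≠ E.φ j := fun h => hx ⟨j, h.symm⟩
    have h3 : x ≠ E.φ (q i) := fun h => hx ⟨q i, h.symm⟩
    have h4 : x ≠ E.φ (q j) := fun h => hx ⟨q j, h.symm⟩
    simp only [cut, st_apply, if_neg h1, if_neg h2, if_neg h3, if_neg h4, ite_self,
      st_apply' _ _ hx]

end Emb

end Pat

/-! ### The rhombus operator -/

/-- Weights of a rhombus (the empty rhombus has weight 1): `v` a strand stays on its line, `u1` a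
strand changes its line, `u2` an arc is created or two strands are joined, `w1` two strands
exchange their lines, `w2` two strands are joined and a new arc is created. -/
structure Wt (K : Type*) where
  v : K
  u1 : K
  u2 : K
  w1 : K
  w2 : K

variable {α β K : Type*} [DecidableEq α] [DecidableEq β] [CommRing K]

open Pat

/-- The rhombus operator at the crossing of the lines `i` and `j`, acting on functions of states.
Closed loops have weight 0. -/
def R (w : Wt K) (i j : α) (F : Pat α → K) : Pat α → K := fun p =>
  if p i = i then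
    if p j = j then F p + w.u2 * F (cup i j p)
    else w.v * F p + w.u1 * F (swap i j p)
  else if p j = j then w.v * F p + w.u1 * F (swap i j p)
  else if p i = j then w.w1 * F p
  else w.w1 * F (swap i j p) + w.u2 * F (cut i j p) + w.w2 * F (cup i j (cut i j p))

theorem R_st (w : Wt K) (E : Pat.Emb β α) (i j : β) (F : Pat α → K) (q : Pat β) :
    R w (E.φ i) (E.φ j) F (E.st q) = R w i j (fun q => F (E.st q)) q := by
  simp only [R, Pat.Emb.st_apply, E.inj.eq_iff, Pat.Emb.st_swap, Pat.Emb.st_cup, Pat.Emb.st_cut]

section eval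
variable {w : Wt K} {i j : α} {F : Pat α → K} {p q r s : Pat α}

theorem R_e (h1 : p i = i) (h2 : p j = j) (h3 : cup i j p = q) :
    R w i j F p = F p + w.u2 * F q := by
  simp [R, h1, h2, h3]

theorem R_l (h1 : p i ≠ i) (h2 : p j = j) (h3 : swap i j p = q) :
    R w i j F p = w.v * F p + w.u1 * F q := by
  simp [R, h1, h2, h3]

theorem R_r (h1 : p i = i) (h2 : p j ≠ j) (h3 : swap i j p = q) :
    R w i j F p = w.v * F p + w.u1 * F q := by
  simp [R, h1, h2, h3]

theorem R_p (h0 : i ≠ j) (h1 : p i = j) : R w i j F p = w.w1 * F p := by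
  have h2 : p i ≠ i := by rw [h1]; exact h0.symm
  have h3 : p j = i := by rw [← h1, p.inv]
  have h4 : p j ≠ j := by rw [h3]; exact h0
  rw [R, if_neg h2, if_neg h4, if_pos h1]

theorem R_d (h1 : p i ≠ i) (h2 : p j ≠ j) (h3 : p i ≠ j) (h4 : swap i j p = q)
    (h5 : cut i j p = r) (h6 : cup i j r = s) :
    R w i j F p = w.w1 * F q + w.u2 * F r + w.w2 * F s := by
  simp [R, h1, h2, h3, h4, h5, h6]

end eval

end Pool.Agent.EXL
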