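/-
Two-sided bounds for the explicit product of exact/SPECIAL_h35 (helper51):
`specProd N = (cos 2h / sin h) * ∏_{j=1..N} [sin((4N+1+4j)h) sin((4N+1-4j)h)] / [sin((4N+2+4j)h) sin((4N+2-4j)h)]`,
`h = π / (8 (2N+1))`, grows exactly like `N^(3/4)`.
-/
import Mathlib

open Real Finset

namespace EXL

/-- log-concavity of the sine in product form. -/
theorem sin_mul_sin_le {a b c d : ℝ} (hab : a ≤ b) (hbc : b ≤ c) (hsum : a + d = b + c)
    (hd : d - a ≤ π) : sin a * sin d ≤ sin b * sin c := by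
  have h1 : 2 * (sin a * sin d) = cos (d - a) - cos (a + d) := by
    rw [cos_sub, cos_add]; ring
  have h2 : 2 * (sin b * sin c) = cos (c - b) - cos (a + d) := by
    rw [hsum, cos_sub, cos_add]; ring
  have h3 : cos (d - a) ≤ cos (c - b) := by
    apply cos_le_cos_of_nonneg_of_le_pi (by linarith) hd (by linarith)
  linarith

/-- upper form: `(sin y / sin (y+h))^4 ≤ sin y / sin (y+4h)`. -/
theorem sin_pow4_upper {y h : ℝ} (hy : 0 < y) (hh : 0 < h) (hπ : y + 4 * h < π) :
    (sin y / sin (y + h)) ^ 4 ≤ sin y / sin (y + 4 * h) := by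
  have p0 : 0 < sin y := sin_pos_of_pos_of_lt_pi hy (by linarith)
  have p1 : 0 < sin (y + h) := sin_pos_of_pos_of_lt_pi (by linarith) (by linarith)
  have p2 : 0 < sin (y + 2 * h) := sin_pos_of_pos_of_lt_pi (by linarith) (by linarith)
  have p3 : 0 < sin (y + 3 * h) := sin_pos_of_pos_of_lt_pi (by linarith) (by linarith)
  have p4 : 0 < sin (y + 4 * h) := sin_pos_of_pos_of_lt_pi (by linarith) hπ
  have e1 : sin y * sin (y + 2 * h) ≤ sin (y + h) * sin (y + h) :=
    sin_mul_sin_le (by linarith) le_rfl (by ring) (by linarith)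
  have e2 : sin y * sin (y + 3 * h) ≤ sin (y + h) * sin (y + 2 * h) :=
    sin_mul_sin_le (by linarith) (by linarith) (by ring) (by linarith)
  have e3 : sin y * sin (y + 4 * h) ≤ sin (y + h) * sin (y + 3 * h) :=
    sin_mul_sin_le (by linarith) (by linarith) (by ring) (by linarith)
  rw [div_pow, div_le_div_iff₀ (by positivity) p4]
  have key : sin y ^ 3 * sin (y + 4 * h) * (sin (y + 2 * h) * sin (y + 3 * h)) ≤
      sin (y + h) ^ 4 * (sin (y + 2 * h) * sin (y + 3 * h)) := by
    have m1 : (sin y * sin (y + 2 * h)) * (sin y * sin (y + 3 * h)) ≤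
        (sin (y + h) * sin (y + h)) * (sin (y + h) * sin (y + 2 * h)) :=
      mul_le_mul e1 e2 (by positivity) (by positivity)
    have m2 := mul_le_mul m1 e3 (by positivity) (by positivity)
    nlinarith [m2]
  have key2 : sin y ^ 3 * sin (y + 4 * h) ≤ sin (y + h) ^ 4 :=
    le_of_mul_le_mul_right key (by positivity)
  nlinarith [key2, p0]

/-- lower form: `sin (y-3h) / sin (y+h) ≤ (sin y / sin (y+h))^4`. -/
theorem sin_pow4_lower {y h : ℝ} (hy : 0 < y - 3 * h) (hh : 0 < h) (hπ : y + h < π) :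
    sin (y - 3 * h) / sin (y + h) ≤ (sin y / sin (y + h)) ^ 4 := by
  have p0 : 0 < sin y := sin_pos_of_pos_of_lt_pi (by linarith) (by linarith)
  have p1 : 0 < sin (y + h) := sin_pos_of_pos_of_lt_pi (by linarith) (by linarith)
  have q1 : 0 < sin (y - h) := sin_pos_of_pos_of_lt_pi (by linarith) (by linarith)
  have q2 : 0 < sin (y - 2 * h) := sin_pos_of_pos_of_lt_pi (by linarith) (by linarith)
  have q3 : 0 < sin (y - 3 * h) := sin_pos_of_pos_of_lt_pi hy (by linarith)
  have e1 : sin (y - 3 * h) * sin (y + h) ≤ sin (y - 2 * h) * sin y :=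
    sin_mul_sin_le (by linarith) (by linarith) (by ring) (by linarith)
  have e2 : sin (y - 2 * h) * sin (y + h) ≤ sin (y - h) * sin y :=
    sin_mul_sin_le (by linarith) (by linarith) (by ring) (by linarith)
  have e3 : sin (y - h) * sin (y + h) ≤ sin y * sin y :=
    sin_mul_sin_le (by linarith) le_rfl (by ring) (by linarith)
  rw [div_pow, div_le_div_iff₀ p1 (by positivity)]
  have key : sin (y - 3 * h) * sin (y + h) ^ 3 * (sin (y - 2 * h) * sin (y - h)) ≤
      sin y ^ 4 * (sin (y - 2 * h) * sin (y - h)) := by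
    have m1 : (sin (y - 3 * h) * sin (y + h)) * (sin (y - 2 * h) * sin (y + h)) ≤
        (sin (y - 2 * h) * sin y) * (sin (y - h) * sin y) :=
      mul_le_mul e1 e2 (by positivity) (by positivity)
    have m2 := mul_le_mul m1 e3 (by positivity) (by positivity)
    nlinarith [m2]
  have key2 : sin (y - 3 * h) * sin (y + h) ^ 3 ≤ sin y ^ 4 :=
    le_of_mul_le_mul_right key (by positivity)
  nlinarith [key2, p1]

theorem chain_le {a b c P r K : ℝ} (hK : 0 ≤ K) (ha : 0 ≤ a) (hb : 0 < b) (hc : 0 < c)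
    (h1 : K * (a / b) ≤ P) (h2 : b / c ≤ r) : K * (a / c) ≤ P * r := by
  have e : K * (a / c) = (K * (a / b)) * (b / c) := by
    field_simp
  rw [e]
  exact mul_le_mul h1 h2 (by positivity) (le_trans (by positivity) h1)

theorem chain_ge {a b c P r : ℝ} (ha : 0 ≤ a) (hb : 0 < b) (hc : 0 < c) (hr : 0 ≤ r)
    (h1 : P ≤ a / b) (h2 : r ≤ b / c) : P * r ≤ a / c := by
  have e : a / c = (a / b) * (b / c) := by
    field_simp
  rw [e]
  exact mul_le_mul h1 h2 hr (by positivity)

/-- the mesh. -/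
noncomputable def mesh (N : ℕ) : ℝ := π / (8 * (2 * N + 1))

theorem mesh_pos (N : ℕ) : 0 < mesh N := by
  unfold mesh; positivity

theorem mesh_mul (N : ℕ) : (16 * (N : ℝ) + 8) * mesh N = π := by
  unfold mesh
  have : (2 * (N : ℝ) + 1) ≠ 0 := by positivity
  field_simp
  ring

/-- first product, `∏_{k<N} sin((4k+1)h)/sin((4k+2)h)`. -/
noncomputable def prodA (N : ℕ) : ℝ :=
  ∏ k ∈ range N, sin ((4 * k + 1) * mesh N) / sin ((4 * k + 2) * mesh N)

/-- second product, `∏_{j=1..N} sin((4N+1+4j)h)/sin((4N+2+4j)h)`. -/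
noncomputable def prodB (N : ℕ) : ℝ :=
  ∏ j ∈ range N, sin ((4 * N + 1 + 4 * (j + 1)) * mesh N) / sin ((4 * N + 2 + 4 * (j + 1)) * mesh N)

/-- helper35's product. -/
noncomputable def specProd (N : ℕ) : ℝ :=
  cos (2 * mesh N) / sin (mesh N) *
    ∏ j ∈ range N,
      (sin ((4 * N + 1 + 4 * (j + 1)) * mesh N) * sin ((4 * N + 1 - 4 * (j + 1)) * mesh N)) /
      (sin ((4 * N + 2 + 4 * (j + 1)) * mesh N) * sin ((4 * N + 2 - 4 * (j + 1)) * mesh N))

theorem specProd_eq (N : ℕ) :
    specProd N = cos (2 * mesh N) / sin (mesh N) * prodA N * prodB N := by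
  unfold specProd prodA prodB
  rw [mul_assoc]
  congr 1
  rw [← Finset.prod_range_reflect (fun k : ℕ => sin ((4 * (k : ℝ) + 1) * mesh N) /
    sin ((4 * (k : ℝ) + 2) * mesh N)) N, ← Finset.prod_mul_distrib]
  refine Finset.prod_congr rfl (fun j hj => ?_)
  have hj' : j < N := Finset.mem_range.mp hj
  have hc : ((N - 1 - j : ℕ) : ℝ) = (N : ℝ) - 1 - j := by
    rw [Nat.cast_sub (by omega), Nat.cast_sub (by omega)]; push_cast; ring
  rw [hc]
  have e1 : (4 * ((N : ℝ) - 1 - j) + 1) = (4 * N + 1 - 4 * (j + 1)) := by ring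
  have e2 : (4 * ((N : ℝ) - 1 - j) + 2) = (4 * N + 2 - 4 * (j + 1)) := by ring
  rw [e1, e2, mul_div_mul_comm]
  ring

section bounds
variable {N : ℕ}

theorem sinA_pos {a : ℝ} (ha : 0 < a) (ha' : a < 16 * N + 8) : 0 < sin (a * mesh N) := by
  apply sin_pos_of_pos_of_lt_pi (mul_pos ha (mesh_pos N))
  calc a * mesh N < (16 * (N : ℝ) + 8) * mesh N := by
        apply mul_lt_mul_of_pos_right ha' (mesh_pos N)
    _ = π := mesh_mul N

theorem prodA_pos (N : ℕ) : 0 < prodA N := by
  unfold prodA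
  apply Finset.prod_pos
  intro k hk
  have hk' : (k : ℝ) + 1 ≤ N := by exact_mod_cast Finset.mem_range.mp hk
  apply div_pos
  · exact sinA_pos (by positivity) (by linarith)
  · exact sinA_pos (by positivity) (by linarith)

theorem prodB_pos (N : ℕ) : 0 < prodB N := by
  unfold prodB
  apply Finset.prod_pos
  intro k hk
  have hk' : (k : ℝ) + 1 ≤ N := by exact_mod_cast Finset.mem_range.mp hk
  have hk0 : (0 : ℝ) ≤ k := Nat.cast_nonneg k
  apply div_pos
  · exact sinA_pos (by positivity) (by linarith)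
  · exact sinA_pos (by positivity) (by linarith)

theorem prodA_upper (N : ℕ) (hN : 1 ≤ N) :
    prodA N ^ 4 ≤ sin (mesh N) / sin ((4 * N + 1) * mesh N) := by
  have hN' : (1 : ℝ) ≤ N := by exact_mod_cast hN
  have key : ∀ n : ℕ, n ≤ N →
      (∏ k ∈ range n, sin ((4 * (k : ℝ) + 1) * mesh N) / sin ((4 * (k : ℝ) + 2) * mesh N)) ^ 4 ≤
        sin (mesh N) / sin ((4 * (n : ℝ) + 1) * mesh N) := by
    intro n
    induction n with
    | zero =>
      intro _
      have : sin (mesh N) ≠ 0 := by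
        have := sinA_pos (N := N) (a := 1) one_pos (by linarith)
        rw [one_mul] at this; exact this.ne'
      simp [div_self this]
    | succ n ih =>
      intro hn
      have hn' : (n : ℝ) + 1 ≤ N := by exact_mod_cast hn
      have hn0 : (0 : ℝ) ≤ n := Nat.cast_nonneg n
      rw [Finset.prod_range_succ, mul_pow]
      have ih' := ih (by omega)
      have hp := mesh_pos N
      have hst := sin_pow4_upper (y := (4 * (n : ℝ) + 1) * mesh N) (h := mesh N)
        (by positivity) hp (by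
          calc (4 * (n : ℝ) + 1) * mesh N + 4 * mesh N = (4 * n + 5) * mesh N := by ring
            _ < (16 * (N : ℝ) + 8) * mesh N := by
              apply mul_lt_mul_of_pos_right _ hp; linarith
            _ = π := mesh_mul N)
      have e1 : (4 * (n : ℝ) + 1) * mesh N + mesh N = (4 * n + 2) * mesh N := by ring
      have e2 : (4 * (n : ℝ) + 1) * mesh N + 4 * mesh N = (4 * ((n + 1 : ℕ) : ℝ) + 1) * mesh N := by
        push_cast; ring
      rw [e1, e2] at hst
      have q0 : 0 < sin ((4 * (n : ℝ) + 1) * mesh N) := sinA_pos (by positivity) (by linarith)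
      have q1 : 0 < sin ((4 * (n : ℝ) + 2) * mesh N) := sinA_pos (by positivity) (by linarith)
      have q2 : 0 < sin ((4 * ((n + 1 : ℕ) : ℝ) + 1) * mesh N) :=
        sinA_pos (by positivity) (by push_cast; linarith)
      have s1 : 0 < sin (mesh N) := by
        have := sinA_pos (N := N) (a := 1) one_pos (by linarith)
        rwa [one_mul] at this
      exact chain_ge s1.le q0 q2 (by positivity) ih' hst
  exact key N le_rfl

theorem prodA_lower (N : ℕ) (hN : 1 ≤ N) :
    sin (mesh N) / 16 ≤ prodA N ^ 4 := by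
  have hN' : (1 : ℝ) ≤ N := by exact_mod_cast hN
  have hp := mesh_pos N
  have s1 : 0 < sin (mesh N) := by
    have := sinA_pos (N := N) (a := 1) one_pos (by linarith)
    rwa [one_mul] at this
  have s2 : 0 < sin (2 * mesh N) := sinA_pos (N := N) (a := 2) two_pos (by linarith)
  have key : ∀ n : ℕ, n + 1 ≤ N →
      (sin (mesh N) / sin (2 * mesh N)) ^ 4 * (sin (2 * mesh N) / sin ((4 * (n : ℝ) + 2) * mesh N)) ≤
      (∏ k ∈ range (n + 1), sin ((4 * (k : ℝ) + 1) * mesh N) / sin ((4 * (k : ℝ) + 2) * mesh N)) ^ 4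
        := by
    intro n
    induction n with
    | zero =>
      intro _
      simp [div_self s2.ne']
    | succ n ih =>
      intro hn
      have hn' : (n : ℝ) + 2 ≤ N := by exact_mod_cast hn
      have hn0 : (0 : ℝ) ≤ n := Nat.cast_nonneg n
      rw [Finset.prod_range_succ, mul_pow]
      have ih' := ih (by omega)
      have hst := sin_pow4_lower (y := (4 * ((n + 1 : ℕ) : ℝ) + 1) * mesh N) (h := mesh N)
        (by
          have : (4 * ((n + 1 : ℕ) : ℝ) + 1) * mesh N - 3 * mesh N = (4 * n + 2) * mesh N := by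
            push_cast; ring
          rw [this]; positivity) hp (by
          calc (4 * ((n + 1 : ℕ) : ℝ) + 1) * mesh N + mesh N = (4 * n + 6) * mesh N := by
                push_cast; ring
            _ < (16 * (N : ℝ) + 8) * mesh N := by
              apply mul_lt_mul_of_pos_right _ hp; linarith
            _ = π := mesh_mul N)
      have e1 : (4 * ((n + 1 : ℕ) : ℝ) + 1) * mesh N + mesh N =
          (4 * ((n + 1 : ℕ) : ℝ) + 2) * mesh N := by ring
      have e2 : (4 * ((n + 1 : ℕ) : ℝ) + 1) * mesh N - 3 * mesh N = (4 * (n : ℝ) + 2) * mesh N := by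
        push_cast; ring
      rw [e1, e2] at hst
      have q0 : 0 < sin ((4 * (n : ℝ) + 2) * mesh N) := sinA_pos (by positivity) (by linarith)
      have q1 : 0 < sin ((4 * ((n + 1 : ℕ) : ℝ) + 2) * mesh N) :=
        sinA_pos (by positivity) (by push_cast; linarith)
      exact chain_le (by positivity) s2.le q0 q1 ih' hst
  obtain ⟨n, rfl⟩ : ∃ n, N = n + 1 := ⟨N - 1, by omega⟩
  refine le_trans ?_ (key n le_rfl)
  have hs : sin (2 * mesh (n + 1)) = 2 * sin (mesh (n + 1)) * cos (mesh (n + 1)) := sin_two_mul _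
  have q0 : 0 < sin ((4 * (n : ℝ) + 2) * mesh (n + 1)) :=
    sinA_pos (by positivity) (by push_cast; linarith)
  have q1 : sin ((4 * (n : ℝ) + 2) * mesh (n + 1)) ≤ 1 := sin_le_one _
  have c1 : cos (mesh (n + 1)) ≤ 1 := cos_le_one _
  have c0 : 0 < cos (mesh (n + 1)) := by
    by_contra hc
    push Not at hc
    have : sin (2 * mesh (n + 1)) ≤ 0 := by
      rw [hs]; nlinarith
    linarith
  have a1 : (sin (mesh (n + 1)) / sin (2 * mesh (n + 1))) ^ 4 * sin (2 * mesh (n + 1)) =
      sin (mesh (n + 1)) / (8 * cos (mesh (n + 1)) ^ 3) := by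
    rw [hs]; field_simp; ring
  calc sin (mesh (n + 1)) / 16 ≤ sin (mesh (n + 1)) / (8 * cos (mesh (n + 1)) ^ 3) := by
        apply div_le_div_of_nonneg_left s1.le (by positivity)
        have : cos (mesh (n + 1)) ^ 3 ≤ 1 := pow_le_one₀ c0.le c1
        linarith
    _ = (sin (mesh (n + 1)) / sin (2 * mesh (n + 1))) ^ 4 * sin (2 * mesh (n + 1)) := a1.symm
    _ ≤ (sin (mesh (n + 1)) / sin (2 * mesh (n + 1))) ^ 4 * (sin (2 * mesh (n + 1)) /
        sin ((4 * (n : ℝ) + 2) * mesh (n + 1))) := by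
        apply mul_le_mul_of_nonneg_left _ (by positivity)
        rw [le_div_iff₀ q0]
        nlinarith

theorem prodB_upper (N : ℕ) : prodB N ≤ 1 := by
  unfold prodB
  apply Finset.prod_le_one
  · intro k hk
    have hk' : (k : ℝ) + 1 ≤ N := by exact_mod_cast Finset.mem_range.mp hk
    have hk0 : (0 : ℝ) ≤ k := Nat.cast_nonneg k
    apply div_nonneg
    · exact (sinA_pos (by positivity) (by linarith)).le
    · exact (sinA_pos (by positivity) (by linarith)).le
  · intro k hk
    have hk' : (k : ℝ) + 1 ≤ N := by exact_mod_cast Finset.mem_range.mp hk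
    have hk0 : (0 : ℝ) ≤ k := Nat.cast_nonneg k
    have hp := mesh_pos N
    rw [div_le_one (sinA_pos (by positivity) (by linarith))]
    apply sin_le_sin_of_le_of_le_pi_div_two
    · have : 0 ≤ (4 * (N : ℝ) + 1 + 4 * (k + 1)) * mesh N := by positivity
      linarith [pi_pos]
    · calc (4 * (N : ℝ) + 2 + 4 * (k + 1)) * mesh N ≤ (8 * (N : ℝ) + 4) * mesh N := by
            apply mul_le_mul_of_nonneg_right _ hp.le; linarith
        _ = π / 2 := by rw [← mesh_mul N]; ring
    · apply mul_le_mul_of_nonneg_right _ hp.le; linarith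

theorem prodB_lower (N : ℕ) : 1 / 2 ≤ prodB N ^ 4 := by
  have hp := mesh_pos N
  have key : ∀ n : ℕ, n ≤ N →
      sin ((4 * (N : ℝ) + 2) * mesh N) / sin ((4 * (N : ℝ) + 2 + 4 * n) * mesh N) ≤
      (∏ j ∈ range n, sin ((4 * (N : ℝ) + 1 + 4 * ((j : ℝ) + 1)) * mesh N) /
        sin ((4 * (N : ℝ) + 2 + 4 * ((j : ℝ) + 1)) * mesh N)) ^ 4 := by
    intro n
    induction n with
    | zero =>
      intro _
      have : 0 < sin ((4 * (N : ℝ) + 2) * mesh N) := sinA_pos (by positivity) (by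
        have : (0 : ℝ) ≤ N := Nat.cast_nonneg N
        linarith)
      simp [div_self this.ne']
    | succ n ih =>
      intro hn
      have hn' : (n : ℝ) + 1 ≤ N := by exact_mod_cast hn
      have hn0 : (0 : ℝ) ≤ n := Nat.cast_nonneg n
      rw [Finset.prod_range_succ, mul_pow]
      have ih' := ih (by omega)
      have hst := sin_pow4_lower (y := (4 * (N : ℝ) + 1 + 4 * ((n : ℝ) + 1)) * mesh N)
        (h := mesh N)
        (by
          have : (4 * (N : ℝ) + 1 + 4 * ((n : ℝ) + 1)) * mesh N - 3 * mesh N =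
            (4 * N + 2 + 4 * n) * mesh N := by ring
          rw [this]; positivity) hp (by
          calc (4 * (N : ℝ) + 1 + 4 * ((n : ℝ) + 1)) * mesh N + mesh N =
              (4 * N + 6 + 4 * n) * mesh N := by ring
            _ < (16 * (N : ℝ) + 8) * mesh N := by
              apply mul_lt_mul_of_pos_right _ hp; linarith
            _ = π := mesh_mul N)
      have e1 : (4 * (N : ℝ) + 1 + 4 * ((n : ℝ) + 1)) * mesh N + mesh N =
          (4 * N + 2 + 4 * ((n : ℝ) + 1)) * mesh N := by ring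
      have e2 : (4 * (N : ℝ) + 1 + 4 * ((n : ℝ) + 1)) * mesh N - 3 * mesh N =
          (4 * N + 2 + 4 * n) * mesh N := by ring
      rw [e1, e2] at hst
      have q0 : 0 < sin ((4 * (N : ℝ) + 2 + 4 * n) * mesh N) := sinA_pos (by positivity) (by linarith)
      have q1 : 0 < sin ((4 * (N : ℝ) + 2 + 4 * ((n : ℝ) + 1)) * mesh N) :=
        sinA_pos (by positivity) (by linarith)
      have q2 : 0 < sin ((4 * (N : ℝ) + 2) * mesh N) := sinA_pos (by positivity) (by linarith)
      have ih'' := ih'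
      rw [← one_mul (sin ((4 * (N : ℝ) + 2) * mesh N) /
        sin ((4 * (N : ℝ) + 2 + 4 * n) * mesh N))] at ih''
      have fin := chain_le zero_le_one q2.le q0 q1 ih'' hst
      rw [one_mul] at fin
      push_cast
      exact fin
  refine le_trans ?_ (key N le_rfl)
  have e : (4 * (N : ℝ) + 2) * mesh N = π / 4 := by rw [← mesh_mul N]; ring
  have q1 : 0 < sin ((4 * (N : ℝ) + 2 + 4 * N) * mesh N) := sinA_pos (by positivity) (by
    have : (0 : ℝ) ≤ N := Nat.cast_nonneg N
    linarith)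
  rw [e, sin_pi_div_four, le_div_iff₀ q1]
  have h2 : (1 : ℝ) ≤ √2 := by
    rw [show (1 : ℝ) = √1 from (sqrt_one).symm]
    exact sqrt_le_sqrt (by norm_num)
  nlinarith [sin_le_one ((4 * (N : ℝ) + 2 + 4 * N) * mesh N)]

theorem sin_mesh_lower (N : ℕ) (hN : 1 ≤ N) : 1 / (12 * (N : ℝ)) ≤ sin (mesh N) := by
  have hN' : (1 : ℝ) ≤ N := by exact_mod_cast hN
  have hp := mesh_pos N
  have h1 : 2 / π * mesh N ≤ sin (mesh N) := by
    apply mul_le_sin hp.le
    calc mesh N = 1 * mesh N := (one_mul _).symm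
      _ ≤ (8 * (N : ℝ) + 4) * mesh N := by
        apply mul_le_mul_of_nonneg_right _ hp.le; linarith
      _ = π / 2 := by rw [← mesh_mul N]; ring
  refine le_trans ?_ h1
  unfold mesh
  have hπ := pi_pos
  have e : 2 / π * (π / (8 * (2 * (N : ℝ) + 1))) = 1 / (4 * (2 * (N : ℝ) + 1)) := by
    field_simp; norm_num
  rw [e]
  apply div_le_div_of_nonneg_left zero_le_one (by positivity)
  linarith

theorem sin_mesh_upper (N : ℕ) (hN : 1 ≤ N) : sin (mesh N) ≤ 1 / (5 * (N : ℝ)) := by
  have hN' : (1 : ℝ) ≤ N := by exact_mod_cast hN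
  refine le_trans (sin_le (mesh_pos N).le) ?_
  unfold mesh
  rw [div_le_div_iff₀ (by positivity) (by positivity)]
  nlinarith [pi_lt_d2]

theorem sin_top_lower (N : ℕ) (hN : 1 ≤ N) : 1 / 3 ≤ sin ((4 * (N : ℝ) + 1) * mesh N) := by
  have hN' : (1 : ℝ) ≤ N := by exact_mod_cast hN
  have hp := mesh_pos N
  have h1 : 2 / π * ((4 * (N : ℝ) + 1) * mesh N) ≤ sin ((4 * (N : ℝ) + 1) * mesh N) := by
    apply mul_le_sin (by positivity)
    calc (4 * (N : ℝ) + 1) * mesh N ≤ (8 * (N : ℝ) + 4) * mesh N := by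
          apply mul_le_mul_of_nonneg_right _ hp.le; linarith
      _ = π / 2 := by rw [← mesh_mul N]; ring
  refine le_trans ?_ h1
  unfold mesh
  have hπ := pi_pos
  have e : 2 / π * ((4 * (N : ℝ) + 1) * (π / (8 * (2 * (N : ℝ) + 1)))) =
      (4 * (N : ℝ) + 1) / (4 * (2 * (N : ℝ) + 1)) := by
    field_simp; norm_num
  rw [e, div_le_div_iff₀ (by norm_num) (by positivity)]
  linarith

theorem cos_mesh_lower (N : ℕ) (hN : 1 ≤ N) : 1 / 2 ≤ cos (2 * mesh N) := by
  have hN' : (1 : ℝ) ≤ N := by exact_mod_cast hN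
  have hp := mesh_pos N
  rw [← cos_pi_div_three]
  apply cos_le_cos_of_nonneg_of_le_pi (by positivity) (by linarith [pi_pos])
  rw [← mesh_mul N]
  nlinarith

/-- upper bound, fourth powers. -/
theorem specProd_upper (N : ℕ) (hN : 1 ≤ N) : specProd N ^ 4 ≤ 5184 * (N : ℝ) ^ 3 := by
  have hN' : (1 : ℝ) ≤ N := by exact_mod_cast hN
  have s1 : 1 / (12 * (N : ℝ)) ≤ sin (mesh N) := sin_mesh_lower N hN
  have s0 : 0 < sin (mesh N) := lt_of_lt_of_le (by positivity) s1
  have s2 := sin_top_lower N hN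
  have s3 : 0 < sin ((4 * (N : ℝ) + 1) * mesh N) := by linarith
  have hA := prodA_upper N hN
  have hB := prodB_upper N
  have hA0 := prodA_pos N
  have hB0 := prodB_pos N
  have hc1 : cos (2 * mesh N) ≤ 1 := cos_le_one _
  have hc0 : 0 ≤ cos (2 * mesh N) := by linarith [cos_mesh_lower N hN]
  have hB4 : prodB N ^ 4 ≤ 1 := pow_le_one₀ hB0.le hB
  have hc4 : cos (2 * mesh N) ^ 4 ≤ 1 := pow_le_one₀ hc0 hc1
  rw [specProd_eq, mul_pow, mul_pow, div_pow]
  calc cos (2 * mesh N) ^ 4 / sin (mesh N) ^ 4 * prodA N ^ 4 * prodB N ^ 4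
      ≤ 1 / sin (mesh N) ^ 4 * (sin (mesh N) / sin ((4 * N + 1) * mesh N)) * 1 := by
        gcongr
    _ = 1 / (sin (mesh N) ^ 3 * sin ((4 * N + 1) * mesh N)) := by
        field_simp
    _ ≤ 1 / ((1 / (12 * (N : ℝ))) ^ 3 * (1 / 3)) := by
        apply one_div_le_one_div_of_le (by positivity)
        gcongr
    _ = 5184 * (N : ℝ) ^ 3 := by
        field_simp; norm_num

/-- lower bound, fourth powers. -/
theorem specProd_lower (N : ℕ) (hN : 1 ≤ N) : (N : ℝ) ^ 3 / 16 ≤ specProd N ^ 4 := by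
  have hN' : (1 : ℝ) ≤ N := by exact_mod_cast hN
  have s1 : 1 / (12 * (N : ℝ)) ≤ sin (mesh N) := sin_mesh_lower N hN
  have s0 : 0 < sin (mesh N) := lt_of_lt_of_le (by positivity) s1
  have s2 := sin_mesh_upper N hN
  have hA := prodA_lower N hN
  have hB := prodB_lower N
  have hA0 := prodA_pos N
  have hB0 := prodB_pos N
  have hc := cos_mesh_lower N hN
  rw [specProd_eq, mul_pow, mul_pow, div_pow]
  calc (N : ℝ) ^ 3 / 16 ≤ 125 * (N : ℝ) ^ 3 / 512 := by
        have : 0 ≤ (N : ℝ) ^ 3 := by positivity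
        linarith
    _ = (1 / (1 / (5 * (N : ℝ))) ^ 3) / 512 := by field_simp; norm_num
    _ ≤ (1 / (sin (mesh N)) ^ 3) / 512 := by
        gcongr
    _ = (1 / 2) ^ 4 / sin (mesh N) ^ 4 * (sin (mesh N) / 16) * (1 / 2) := by
        field_simp; norm_num
    _ ≤ cos (2 * mesh N) ^ 4 / sin (mesh N) ^ 4 * prodA N ^ 4 * prodB N ^ 4 := by
        gcongr

theorem specProd_pos (N : ℕ) (hN : 1 ≤ N) : 0 < specProd N := by
  have s1 : 1 / (12 * (N : ℝ)) ≤ sin (mesh N) := sin_mesh_lower N hN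
  have hN' : (1 : ℝ) ≤ N := by exact_mod_cast hN
  have s0 : 0 < sin (mesh N) := lt_of_lt_of_le (by positivity) s1
  have hc := cos_mesh_lower N hN
  rw [specProd_eq]
  have hA0 := prodA_pos N
  have hB0 := prodB_pos N
  have hc0 : 0 < cos (2 * mesh N) := by linarith
  positivity

/-- **two-sided bound**: `(1/2) N^(3/4) ≤ specProd N ≤ 9 N^(3/4)`. -/
theorem specProd_bounds (N : ℕ) (hN : 1 ≤ N) :
    (1 / 2) * (N : ℝ) ^ (3 / 4 : ℝ) ≤ specProd N ∧ specProd N ≤ 9 * (N : ℝ) ^ (3 / 4 : ℝ) := by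
  have hN' : (1 : ℝ) ≤ N := by exact_mod_cast hN
  have hpos := specProd_pos N hN
  have hx : ((N : ℝ) ^ (3 / 4 : ℝ)) ^ 4 = (N : ℝ) ^ 3 := by
    rw [← rpow_natCast, ← rpow_mul (by positivity)]
    norm_num
  have hx0 : 0 ≤ (N : ℝ) ^ (3 / 4 : ℝ) := by positivity
  constructor
  · refine le_of_pow_le_pow_left₀ (n := 4) (by norm_num) hpos.le ?_
    rw [mul_pow, hx]
    refine le_trans (le_of_eq ?_) (specProd_lower N hN)
    ring
  · refine le_of_pow_le_pow_left₀ (n := 4) (by norm_num) (by positivity) ?_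
    rw [mul_pow, hx]
    refine le_trans (specProd_upper N hN) ?_
    have : 0 ≤ (N : ℝ) ^ 3 := by positivity
    linarith

end bounds

end EXL
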