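import Mathlib

/-!
# EXACT: the explicit product is of order `N ^ (3 / 4)` (helper88)

`prodPi N = sin ((4 N + 2) h) / sin ((4 N + 1) h) * ∏ j = 1, ..., 2 N, sin ((4 j + 1) h) / sin ((4 j - 2) h)`,
`h = π / (8 (2 N + 1))` (all angles are in `(0, π / 2)`). The quotients are compared with the quotients of the angles,
the corrections telescope, and `∏ (4 j + 1) / (4 j - 2)` is compared with the fourth root of a cube.
-/

namespace Pool.Agent.EXL.ProdBound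

open Finset Real

/-- the step -/
noncomputable def hh (N : ℕ) : ℝ := π / (8 * (2 * (N : ℝ) + 1))

/-- the product -/
noncomputable def prodPi (N : ℕ) : ℝ :=
  sin ((4 * (N : ℝ) + 2) * hh N) / sin ((4 * (N : ℝ) + 1) * hh N) *
    ∏ j ∈ range (2 * N), sin ((4 * ((j : ℝ) + 1) + 1) * hh N) / sin ((4 * ((j : ℝ) + 1) - 2) * hh N)

lemma hh_pos (N : ℕ) : 0 < hh N := by
  unfold hh
  positivity

lemma hh_mul (N : ℕ) : (8 * (N : ℝ) + 4) * hh N = π / 2 := by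
  unfold hh
  have : (2 * (N : ℝ) + 1) ≠ 0 := by positivity
  field_simp
  ring

/-- `sin x / x` is nonincreasing -/
lemma sin_mul_le {u v : ℝ} (hv : 0 < v) (hvu : v ≤ u) (hu : u ≤ π) : sin u * v ≤ sin v * u := by
  have hu0 : 0 < u := hv.trans_le hvu
  have ha : (0 : ℝ) ≤ 1 - v / u := by rw [sub_nonneg, div_le_one hu0]; exact hvu
  have hb : (0 : ℝ) ≤ v / u := by positivity
  have hm0 : (0 : ℝ) ∈ Set.Icc 0 π := ⟨le_refl _, pi_pos.le⟩
  have hmu : u ∈ Set.Icc 0 π := ⟨hu0.le, hu⟩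
  have h1 := strictConcaveOn_sin_Icc.concaveOn.2 hm0 hmu ha hb (by ring)
  simp only [smul_eq_mul, mul_zero, sin_zero, zero_add] at h1
  rw [div_mul_cancel₀ _ hu0.ne', div_mul_eq_mul_div, div_le_iff₀ hu0] at h1
  linarith

/-- the rational product -/
noncomputable def ff (n : ℕ) : ℝ := ∏ j ∈ range n, (4 * ((j : ℝ) + 1) + 1) / (4 * ((j : ℝ) + 1) - 2)

lemma ff_pos (n : ℕ) : 0 < ff n := by
  unfold ff
  refine prod_pos fun j _ => ?_
  have : (0 : ℝ) ≤ j := Nat.cast_nonneg j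
  apply div_pos <;> linarith

lemma ff_succ (n : ℕ) : ff (n + 1) = ff n * ((4 * ((n : ℝ) + 1) + 1) / (4 * ((n : ℝ) + 1) - 2)) := by
  unfold ff
  rw [prod_range_succ]

lemma ff_upper (n : ℕ) : ff n ^ 4 ≤ 64 * ((n : ℝ) + 1 / 4) ^ 3 := by
  induction n with
  | zero => norm_num [ff]
  | succ n ih =>
    have hn : (0 : ℝ) ≤ n := Nat.cast_nonneg n
    rw [ff_succ, mul_pow, div_pow]
    have hd : (0 : ℝ) < (4 * ((n : ℝ) + 1) - 2) ^ 4 := by
      have : (0 : ℝ) < 4 * ((n : ℝ) + 1) - 2 := by linarith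
      positivity
    rw [mul_div_assoc', div_le_iff₀ hd]
    have h1 : ff n ^ 4 * (4 * ((n : ℝ) + 1) + 1) ^ 4 ≤ 64 * ((n : ℝ) + 1 / 4) ^ 3 * (4 * ((n : ℝ) + 1) + 1) ^ 4 :=
      mul_le_mul_of_nonneg_right ih (by positivity)
    refine h1.trans ?_
    push_cast
    have h2 : ((n : ℝ) + 1 / 4) ^ 3 * (4 * ((n : ℝ) + 1) + 1) ≤ 1 / 4 * (4 * ((n : ℝ) + 1) - 2) ^ 4 / 16 := by
      nlinarith [sq_nonneg (n : ℝ), pow_nonneg hn 3]
    have h3 : 64 * ((n : ℝ) + 1 / 4) ^ 3 * (4 * ((n : ℝ) + 1) + 1) ^ 4 =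
        64 * (4 * ((n : ℝ) + 1) + 1) ^ 3 * (((n : ℝ) + 1 / 4) ^ 3 * (4 * ((n : ℝ) + 1) + 1)) := by ring
    have h4 : 64 * ((n : ℝ) + 1 + 1 / 4) ^ 3 * (4 * ((n : ℝ) + 1) - 2) ^ 4 =
        64 * (4 * ((n : ℝ) + 1) + 1) ^ 3 * (1 / 4 * (4 * ((n : ℝ) + 1) - 2) ^ 4 / 16) := by ring
    rw [h3, h4]
    exact mul_le_mul_of_nonneg_left h2 (by positivity)

lemma ff_lower (n : ℕ) : 8 * ((n : ℝ) + 1 / 2) ^ 3 ≤ ff n ^ 4 := by
  induction n with
  | zero => norm_num [ff]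
  | succ n ih =>
    have hn : (0 : ℝ) ≤ n := Nat.cast_nonneg n
    rw [ff_succ, mul_pow, div_pow]
    have hd : (0 : ℝ) < (4 * ((n : ℝ) + 1) - 2) ^ 4 := by
      have : (0 : ℝ) < 4 * ((n : ℝ) + 1) - 2 := by linarith
      positivity
    rw [mul_div_assoc', le_div_iff₀ hd]
    have h1 : 8 * ((n : ℝ) + 1 / 2) ^ 3 * (4 * ((n : ℝ) + 1) + 1) ^ 4 ≤ ff n ^ 4 * (4 * ((n : ℝ) + 1) + 1) ^ 4 :=
      mul_le_mul_of_nonneg_right ih (by positivity)
    refine le_trans ?_ h1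
    push_cast
    have h2 : ((n : ℝ) + 1 + 1 / 2) ^ 3 * (4 * ((n : ℝ) + 1) - 2) ≤ (4 * ((n : ℝ) + 1) + 1) ^ 4 / 64 := by
      nlinarith [sq_nonneg (n : ℝ), pow_nonneg hn 3]
    have h3 : 8 * ((n : ℝ) + 1 + 1 / 2) ^ 3 * (4 * ((n : ℝ) + 1) - 2) ^ 4 =
        8 * (4 * ((n : ℝ) + 1) - 2) ^ 3 * (((n : ℝ) + 1 + 1 / 2) ^ 3 * (4 * ((n : ℝ) + 1) - 2)) := by ring
    have h4 : 8 * ((n : ℝ) + 1 / 2) ^ 3 * (4 * ((n : ℝ) + 1) + 1) ^ 4 =
        8 * (4 * ((n : ℝ) + 1) - 2) ^ 3 * ((4 * ((n : ℝ) + 1) + 1) ^ 4 / 64) := by ring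
    have h5 : (0 : ℝ) ≤ 8 * (4 * ((n : ℝ) + 1) - 2) ^ 3 := by
      have : (0 : ℝ) < 4 * ((n : ℝ) + 1) - 2 := by linarith
      positivity
    rw [h3, h4]
    exact mul_le_mul_of_nonneg_left h2 h5

/-- bounds of one angle -/
lemma angle {N j : ℕ} (hj : j < 2 * N) : 0 < (4 * ((j : ℝ) + 1) - 2) * hh N ∧ 0 < (4 * ((j : ℝ) + 1) + 1) * hh N ∧
    (4 * ((j : ℝ) + 1) + 2) * hh N ≤ π / 2 := by
  have hh0 := hh_pos N
  have hj0 : (0 : ℝ) ≤ j := Nat.cast_nonneg j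
  have hj1 : (j : ℝ) + 1 ≤ 2 * N := by exact_mod_cast hj
  refine ⟨mul_pos (by linarith) hh0, mul_pos (by linarith) hh0, ?_⟩
  rw [← hh_mul N]
  exact mul_le_mul_of_nonneg_right (by linarith) hh0.le

/-- upper bound by the rational product -/
lemma prod_le_ff (N : ℕ) : ∏ j ∈ range (2 * N), sin ((4 * ((j : ℝ) + 1) + 1) * hh N) /
    sin ((4 * ((j : ℝ) + 1) - 2) * hh N) ≤ ff (2 * N) := by
  unfold ff
  refine prod_le_prod (fun j hj => ?_) fun j hj => ?_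
  · rw [mem_range] at hj
    obtain ⟨h1, h2, h3⟩ := angle hj
    have hh0 := hh_pos N
    have : (4 * ((j : ℝ) + 1) + 1) * hh N ≤ (4 * ((j : ℝ) + 1) + 2) * hh N :=
      mul_le_mul_of_nonneg_right (by linarith) hh0.le
    have h4 : (4 * ((j : ℝ) + 1) - 2) * hh N ≤ (4 * ((j : ℝ) + 1) + 2) * hh N :=
      mul_le_mul_of_nonneg_right (by linarith) hh0.le
    exact div_nonneg (sin_nonneg_of_nonneg_of_le_pi h2.le (by linarith [pi_pos]))
      (sin_nonneg_of_nonneg_of_le_pi h1.le (by linarith [pi_pos]))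
  · rw [mem_range] at hj
    obtain ⟨h1, h2, h3⟩ := angle hj
    have hh0 := hh_pos N
    have hj0 : (0 : ℝ) ≤ j := Nat.cast_nonneg j
    have h5 : (4 * ((j : ℝ) + 1) + 1) * hh N ≤ (4 * ((j : ℝ) + 1) + 2) * hh N :=
      mul_le_mul_of_nonneg_right (by linarith) hh0.le
    have h6 : (4 * ((j : ℝ) + 1) - 2) * hh N ≤ (4 * ((j : ℝ) + 1) + 1) * hh N :=
      mul_le_mul_of_nonneg_right (by linarith) hh0.le
    have h7 := sin_mul_le h1 h6 (by linarith [pi_pos])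
    have h8 : 0 < sin ((4 * ((j : ℝ) + 1) - 2) * hh N) := sin_pos_of_pos_of_lt_pi h1 (by linarith [pi_pos])
    rw [div_le_div_iff₀ h8 (by linarith)]
    have h9 : sin ((4 * ((j : ℝ) + 1) + 1) * hh N) * (4 * ((j : ℝ) + 1) - 2) * hh N ≤
        (4 * ((j : ℝ) + 1) + 1) * sin ((4 * ((j : ℝ) + 1) - 2) * hh N) * hh N := by
      linarith
    exact le_of_mul_le_mul_right h9 hh0

/-- `sin x / x` -/
noncomputable def snc (x : ℝ) : ℝ := sin x / x

lemma snc_pos {x : ℝ} (h0 : 0 < x) (h1 : x < π) : 0 < snc x := div_pos (sin_pos_of_pos_of_lt_pi h0 h1) h0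

lemma snc_anti {u v : ℝ} (hv : 0 < v) (hvu : v ≤ u) (hu : u ≤ π) : snc u ≤ snc v := by
  unfold snc
  rw [div_le_div_iff₀ (hv.trans_le hvu) hv]
  exact sin_mul_le hv hvu hu

/-- lower bound by the rational product -/
lemma ff_le_prod (N : ℕ) : 2 / π * ff (2 * N) ≤ ∏ j ∈ range (2 * N), sin ((4 * ((j : ℝ) + 1) + 1) * hh N) /
    sin ((4 * ((j : ℝ) + 1) - 2) * hh N) := by
  have hh0 := hh_pos N
  have hpi := pi_pos
  -- the telescoping corrections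
  have tel : ∀ n, n ≤ 2 * N → ∏ j ∈ range n, snc ((4 * ((j : ℝ) + 1) + 2) * hh N) /
      snc ((4 * ((j : ℝ) + 1) - 2) * hh N) = snc ((4 * (n : ℝ) + 2) * hh N) / snc (2 * hh N) := by
    intro n
    induction n with
    | zero =>
      intro _
      have h2 : 0 < snc (2 * hh N) := by
        refine snc_pos (by linarith) ?_
        have := hh_mul N
        have hN : (0 : ℝ) ≤ N := Nat.cast_nonneg N
        nlinarith
      have : (4 * ((0 : ℕ) : ℝ) + 2) * hh N = 2 * hh N := by push_cast; ring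
      rw [this, div_self h2.ne']
      simp
    | succ n ih =>
      intro hn
      rw [prod_range_succ, ih (by omega)]
      obtain ⟨h1, h2, h3⟩ := angle (N := N) (j := n) (by omega)
      have h4 : 0 < snc ((4 * ((n : ℝ) + 1) - 2) * hh N) := by
        refine snc_pos h1 ?_
        have : (4 * ((n : ℝ) + 1) - 2) * hh N ≤ (4 * ((n : ℝ) + 1) + 2) * hh N :=
          mul_le_mul_of_nonneg_right (by linarith) hh0.le
        linarith
      have e1 : (4 * (n : ℝ) + 2) * hh N = (4 * ((n : ℝ) + 1) - 2) * hh N := by ring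
      have e2 : (4 * ((n + 1 : ℕ) : ℝ) + 2) * hh N = (4 * ((n : ℝ) + 1) + 2) * hh N := by push_cast; ring
      rw [e1, e2]
      field_simp
  have h0 : ff (2 * N) * (snc ((8 * (N : ℝ) + 2) * hh N) / snc (2 * hh N)) ≤
      ∏ j ∈ range (2 * N), sin ((4 * ((j : ℝ) + 1) + 1) * hh N) / sin ((4 * ((j : ℝ) + 1) - 2) * hh N) := by
    have e0 : (8 * (N : ℝ) + 2) * hh N = (4 * ((2 * N : ℕ) : ℝ) + 2) * hh N := by push_cast; ring
    rw [e0, ← tel (2 * N) le_rfl]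
    unfold ff
    rw [← prod_mul_distrib]
    refine prod_le_prod (fun j hj => ?_) fun j hj => ?_
    · rw [mem_range] at hj
      obtain ⟨h1, h2, h3⟩ := angle hj
      have hj0 : (0 : ℝ) ≤ j := Nat.cast_nonneg j
      have h4 : (4 * ((j : ℝ) + 1) - 2) * hh N ≤ (4 * ((j : ℝ) + 1) + 2) * hh N :=
        mul_le_mul_of_nonneg_right (by linarith) hh0.le
      have h5 := snc_pos h1 (by linarith)
      have h6 := snc_pos (h1.trans_le h4) (by linarith)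
      have h7 : (0 : ℝ) < 4 * ((j : ℝ) + 1) - 2 := by linarith
      positivity
    · rw [mem_range] at hj
      obtain ⟨h1, h2, h3⟩ := angle hj
      have hj0 : (0 : ℝ) ≤ j := Nat.cast_nonneg j
      have h5 : (4 * ((j : ℝ) + 1) + 1) * hh N ≤ (4 * ((j : ℝ) + 1) + 2) * hh N :=
        mul_le_mul_of_nonneg_right (by linarith) hh0.le
      have h6 : (4 * ((j : ℝ) + 1) - 2) * hh N ≤ (4 * ((j : ℝ) + 1) + 1) * hh N :=
        mul_le_mul_of_nonneg_right (by linarith) hh0.le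
      have h7 := snc_anti h2 h5 (by linarith)
      have h8 := snc_pos h1 (by linarith)
      have h9 : (0 : ℝ) < 4 * ((j : ℝ) + 1) - 2 := by linarith
      have h10 : sin ((4 * ((j : ℝ) + 1) + 1) * hh N) / sin ((4 * ((j : ℝ) + 1) - 2) * hh N) =
          (4 * ((j : ℝ) + 1) + 1) / (4 * ((j : ℝ) + 1) - 2) *
            (snc ((4 * ((j : ℝ) + 1) + 1) * hh N) / snc ((4 * ((j : ℝ) + 1) - 2) * hh N)) := by
        unfold snc
        have h11 : 0 < sin ((4 * ((j : ℝ) + 1) - 2) * hh N) := sin_pos_of_pos_of_lt_pi h1 (by linarith)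
        have h12 : (0 : ℝ) < 4 * ((j : ℝ) + 1) + 1 := by linarith
        field_simp
      rw [h10]
      have h13 : (0 : ℝ) ≤ (4 * ((j : ℝ) + 1) + 1) / (4 * ((j : ℝ) + 1) - 2) := by positivity
      exact mul_le_mul_of_nonneg_left (div_le_div_of_nonneg_right h7 h8.le) h13
  refine le_trans ?_ h0
  rw [mul_comm]
  refine mul_le_mul_of_nonneg_left ?_ (ff_pos _).le
  have hN : (0 : ℝ) ≤ N := Nat.cast_nonneg N
  have h1 : (8 * (N : ℝ) + 2) * hh N ≤ π / 2 := by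
    rw [← hh_mul N]
    exact mul_le_mul_of_nonneg_right (by linarith) hh0.le
  have h2 : 0 < (8 * (N : ℝ) + 2) * hh N := mul_pos (by linarith) hh0
  have h3 := snc_anti h2 h1 (by linarith)
  have h4 : snc (π / 2) = 2 / π := by
    unfold snc
    rw [sin_pi_div_two]
    field_simp
  rw [h4] at h3
  have h5 : 0 < 2 * hh N := by linarith
  have h6 : 2 * hh N ≤ (8 * (N : ℝ) + 2) * hh N := mul_le_mul_of_nonneg_right (by linarith) hh0.le
  have h7 : snc (2 * hh N) ≤ 1 := by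
    unfold snc
    rw [div_le_one h5]
    exact sin_le h5.le
  have h8 := snc_pos h5 (by linarith)
  rw [le_div_iff₀ h8]
  calc 2 / π * snc (2 * hh N) ≤ 2 / π * 1 := mul_le_mul_of_nonneg_left h7 (by positivity)
    _ ≤ _ := by rw [mul_one]; exact h3

/-- the first factor -/
lemma first_bd {N : ℕ} (hN : 1 ≤ N) : 1 ≤ sin ((4 * (N : ℝ) + 2) * hh N) / sin ((4 * (N : ℝ) + 1) * hh N) ∧
    sin ((4 * (N : ℝ) + 2) * hh N) / sin ((4 * (N : ℝ) + 1) * hh N) ≤ 6 / 5 := by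
  have hh0 := hh_pos N
  have hpi := pi_pos
  have hN1 : (1 : ℝ) ≤ N := by exact_mod_cast hN
  have h0 : 0 < (4 * (N : ℝ) + 1) * hh N := mul_pos (by linarith) hh0
  have h1 : (4 * (N : ℝ) + 1) * hh N ≤ (4 * (N : ℝ) + 2) * hh N := mul_le_mul_of_nonneg_right (by linarith) hh0.le
  have h2 : (4 * (N : ℝ) + 2) * hh N ≤ π / 2 := by
    rw [← hh_mul N]
    exact mul_le_mul_of_nonneg_right (by linarith) hh0.le
  have h3 : 0 < sin ((4 * (N : ℝ) + 1) * hh N) := sin_pos_of_pos_of_lt_pi h0 (by linarith)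
  constructor
  · rw [one_le_div h3]
    exact sin_le_sin_of_le_of_le_pi_div_two (by linarith) h2 h1
  · have h4 := sin_mul_le h0 h1 (by linarith)
    rw [div_le_div_iff₀ h3 (by norm_num)]
    have h5 : sin ((4 * (N : ℝ) + 2) * hh N) * (4 * (N : ℝ) + 1) * hh N ≤
        sin ((4 * (N : ℝ) + 1) * hh N) * (4 * (N : ℝ) + 2) * hh N := by linarith
    have h6 := le_of_mul_le_mul_right h5 hh0
    have h7 : 0 ≤ sin ((4 * (N : ℝ) + 2) * hh N) := sin_nonneg_of_nonneg_of_le_pi (by linarith) (by linarith)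
    nlinarith

lemma rpow34 (N : ℕ) : ((N : ℝ) ^ (3 / 4 : ℝ)) ^ 4 = (N : ℝ) ^ 3 := by
  rw [← Real.rpow_natCast, ← Real.rpow_mul (Nat.cast_nonneg N)]
  norm_num

theorem prodPi_upper {N : ℕ} (hN : 1 ≤ N) : prodPi N ≤ 7 * (N : ℝ) ^ (3 / 4 : ℝ) := by
  have hN1 : (1 : ℝ) ≤ N := by exact_mod_cast hN
  have h1 := ff_upper (2 * N)
  have h2 : ff (2 * N) ≤ 16 / 3 * (N : ℝ) ^ (3 / 4 : ℝ) := by
    refine le_of_pow_le_pow_left₀ (n := 4) (by norm_num) (by positivity) (h1.trans ?_)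
    rw [mul_pow, rpow34]
    push_cast
    have h3 : 2 * (N : ℝ) + 1 / 4 ≤ 9 / 4 * N := by linarith
    calc 64 * (2 * (N : ℝ) + 1 / 4) ^ 3 ≤ 64 * (9 / 4 * (N : ℝ)) ^ 3 := by gcongr
      _ ≤ (16 / 3) ^ 4 * (N : ℝ) ^ 3 := by
        rw [mul_pow]
        have : (0 : ℝ) ≤ (N : ℝ) ^ 3 := by positivity
        nlinarith
  have h4 := (prod_le_ff N).trans h2
  obtain ⟨h5, h6⟩ := first_bd hN
  have h7 : (0 : ℝ) ≤ (N : ℝ) ^ (3 / 4 : ℝ) := by positivity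
  unfold prodPi
  calc _ ≤ 6 / 5 * (16 / 3 * (N : ℝ) ^ (3 / 4 : ℝ)) := by
        refine mul_le_mul h6 h4 ?_ (by norm_num)
        exact le_trans (mul_nonneg (by positivity) (ff_pos _).le) (ff_le_prod N)
    _ ≤ _ := by linarith

theorem prodPi_lower {N : ℕ} (hN : 1 ≤ N) : 3 / 2 * (N : ℝ) ^ (3 / 4 : ℝ) ≤ prodPi N := by
  have h1 := ff_lower (2 * N)
  have h2 : 14 / 5 * (N : ℝ) ^ (3 / 4 : ℝ) ≤ ff (2 * N) := by
    refine le_of_pow_le_pow_left₀ (n := 4) (by norm_num) (ff_pos _).le (le_trans ?_ h1)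
    rw [mul_pow, rpow34]
    push_cast
    have hN0 : (0 : ℝ) ≤ N := Nat.cast_nonneg N
    have h3 : 2 * (N : ℝ) ≤ 2 * N + 1 / 2 := by linarith
    calc (14 / 5 : ℝ) ^ 4 * (N : ℝ) ^ 3 ≤ 8 * (2 * (N : ℝ)) ^ 3 := by
          rw [mul_pow]
          have : (0 : ℝ) ≤ (N : ℝ) ^ 3 := by positivity
          nlinarith
      _ ≤ _ := by gcongr
  have h4 := ff_le_prod N
  obtain ⟨h5, h6⟩ := first_bd hN
  have h7 : (0 : ℝ) ≤ (N : ℝ) ^ (3 / 4 : ℝ) := by positivity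
  have h8 : 3 / 2 * (N : ℝ) ^ (3 / 4 : ℝ) ≤ 2 / π * ff (2 * N) := by
    have h9 : (15 / 28 : ℝ) ≤ 2 / π := by
      rw [le_div_iff₀ pi_pos]
      linarith [pi_lt_d2]
    calc 3 / 2 * (N : ℝ) ^ (3 / 4 : ℝ) = 15 / 28 * (14 / 5 * (N : ℝ) ^ (3 / 4 : ℝ)) := by ring
      _ ≤ 2 / π * ff (2 * N) := mul_le_mul h9 h2 (by positivity) (by positivity)
  unfold prodPi
  calc 3 / 2 * (N : ℝ) ^ (3 / 4 : ℝ) ≤ 2 / π * ff (2 * N) := h8
    _ ≤ _ := h4
    _ ≤ _ := le_mul_of_one_le_left (le_trans (mul_nonneg (by positivity) (ff_pos _).le) h4) h5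

end Pool.Agent.EXL.ProdBound
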