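import Pool.Agent.EXL.Front
import Pool.Agent.EXL.Net0
import Pool.Agent.EXL.Site

/-!
# One rhombus of the honeycomb lattice = two vertices with fresh labels (local identities)
-/

set_option autoImplicit false

namespace Pool.Agent.EXL.Net

open Pool.Agent.EXL Pat

variable {α β K : Type*} [DecidableEq α] [DecidableEq β] [CommRing K]

/-- creation of an arc, 0 unless both sites are empty -/
def cuF (i j : α) (F : Pat α → K) : Pat α → K := fun p => if p i = i ∧ p j = j then F (cup i j p) else 0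

/-- A vertex with three fresh half edges. -/
def CrF (x : K) (a b c : α) (F : Pat α → K) : Pat α → K := fun p =>
  F p + x * (cuF a b F p + cuF a c F p + cuF b c F p)

theorem Cr_eq (x : K) (a b c : α) (F : Pat α → K) : Cr x a b c F = CrF x a b c F := by
  funext p
  simp only [Cr, CrF, cuF, LinearMap.add_apply, Module.End.one_apply, LinearMap.smul_apply,
    Pi.add_apply, Pi.smul_apply, cupO_apply, smul_eq_mul]

theorem Co_eq (a b : α) (F : Pat α → K) : Co a b F = glue a b F := by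
  funext p
  rw [Co_apply]
  simp only [glue]
  split_ifs <;> first | rfl | (exfalso; tauto)

/-- A strand at `e` goes on to `n` or to `m` (fresh sites). -/
def Spl (x : K) (e n m : α) (F : Pat α → K) : Pat α → K := fun p =>
  if p e = e then F p + x * F (cup n m p) else x * F (swap e n p) + x * F (swap e m p)

/-- The strands at `s`, `m` are merged to the fresh site `w`. -/
def Mer (x : K) (s m w : α) (F : Pat α → K) : Pat α → K := fun p =>
  if p s = s then (if p m = m then F p else x * F (swap m w p))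
  else if p m = m then x * F (swap s w p)
  else if p s = m then 0 else x * F (cut s m p)

section nat
variable (E : Pat.Emb β α) (F : Pat α → K) (q : Pat β)

theorem cuF_st (i j : β) :
    cuF (E.φ i) (E.φ j) F (E.st q) = cuF i j (fun q => F (E.st q)) q := by
  simp only [cuF, Pat.Emb.st_apply, E.inj.eq_iff, Pat.Emb.st_cup]

theorem CrF_st (x : K) (a b c : β) :
    CrF x (E.φ a) (E.φ b) (E.φ c) F (E.st q) = CrF x a b c (fun q => F (E.st q)) q := by
  simp only [CrF, cuF_st]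

theorem Spl_st (x : K) (e n m : β) :
    Spl x (E.φ e) (E.φ n) (E.φ m) F (E.st q) = Spl x e n m (fun q => F (E.st q)) q := by
  simp only [Spl, Pat.Emb.st_apply, E.inj.eq_iff, Pat.Emb.st_cup, Pat.Emb.st_swap]

theorem Mer_st (x : K) (s m w : β) :
    Mer x (E.φ s) (E.φ m) (E.φ w) F (E.st q) = Mer x s m w (fun q => F (E.st q)) q := by
  simp only [Mer, Pat.Emb.st_apply, E.inj.eq_iff, Pat.Emb.st_cut, Pat.Emb.st_swap]

end nat

/-! ### Formal versions -/

def fCr (a b c : β) : FOp β := fun p =>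
  (0, p) :: ((if p a = a ∧ p b = b then [(1, cup a b p)] else []) ++
    ((if p a = a ∧ p c = c then [(1, cup a c p)] else []) ++
     (if p b = b ∧ p c = c then [(1, cup b c p)] else [])))

def fSpl (e n m : β) : FOp β := fun p =>
  if p e = e then [(0, p), (1, cup n m p)] else [(1, swap e n p), (1, swap e m p)]

def fMer (s m w : β) : FOp β := fun p =>
  if p s = s then (if p m = m then [(0, p)] else [(1, swap m w p)])
  else if p m = m then [(1, swap s w p)]
  else if p s = m then [] else [(1, cut s m p)]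

def fGl (i j : β) : FOp β := fun p =>
  if p i = i then (if p j = j then [(0, p)] else [])
  else if p j = j then []
  else if p i = j then []
  else [(0, cut i j p)]

def fRh (i j : β) : FOp β := fun p =>
  if p i = i then
    if p j = j then [(0, p), (2, cup i j p)] else [(2, p), (1, swap i j p)]
  else if p j = j then [(2, p), (1, swap i j p)]
  else if p i = j then [(2, p)]
  else [(2, swap i j p), (2, cut i j p)]

def fRen (r n : β) : FOp β := fun p => if p n = n then [(0, swap r n p)] else []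

theorem rep_Cr (x : K) (a b c : β) : Rep x (fCr a b c) (CrF x a b c) := by
  intro F p
  simp only [CrF, cuF, fCr, ev]
  split_ifs <;> simp <;> ring

theorem rep_Spl (x : K) (e n m : β) : Rep x (fSpl e n m) (Spl x e n m) := by
  intro F p
  simp only [Spl, fSpl, ev]
  split_ifs <;> simp

theorem rep_Mer (x : K) (s m w : β) : Rep x (fMer s m w) (Mer x s m w) := by
  intro F p
  simp only [Mer, fMer, ev]
  split_ifs <;> simp

theorem rep_Gl (x : K) (i j : β) : Rep x (fGl i j) (glue i j) := by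
  intro F p
  simp only [glue, fGl, ev]
  split_ifs <;> simp

theorem rep_Rh (x : K) (i j : β) : Rep x (fRh i j) (R (hexW x) i j) := by
  intro F p
  simp only [R, fRh, ev, hexW]
  split_ifs <;> simp

theorem rep_Ren (x : K) (r n : β) : Rep x (fRen r n) (ren r n) := by
  intro F p
  simp only [ren, fRen, ev]
  split_ifs <;> simp

omit [DecidableEq β] in
/-- two represented operators agree at a state if the formal sums are permutations of each other -/
theorem rep_eq {x : K} {a b : FOp β} {A B : (Pat β → K) → (Pat β → K)} (ha : Rep x a A)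
    (hb : Rep x b B) {q : Pat β} (h : (a q).Perm (b q)) (F : Pat β → K) : A F q = B F q := by
  rw [ha, hb, ev_perm x F h]

/-! ### Test states -/

/-- The embedding given by a list of sites that is closed under `p`. -/
def temb {n : ℕ} (φ : Fin n → α) (hφ : Function.Injective φ) (p : Pat α) (q : Pat (Fin n))
    (h : ∀ b, p (φ b) = φ (q b)) : Pat.Emb (Fin n) α := ⟨φ, hφ, p, fun b => ⟨q b, h b⟩⟩

omit [DecidableEq α] in
theorem temb_st {n : ℕ} (φ : Fin n → α) (hφ : Function.Injective φ) (p : Pat α) (q : Pat (Fin n))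
    (h : ∀ b, p (φ b) = φ (q b)) : (temb φ hφ p q h).st q = p := Pat.Emb.st_eq _ h

def q4 : Pat (Fin 4) := Pat.empty
def q5 : Pat (Fin 5) := ⟨![4, 1, 2, 3, 0], by decide⟩
/-- sites s, m, aS, am, aW (+ partners) -/
def m5 : Pat (Fin 5) := Pat.empty
def m5j : Pat (Fin 5) := ⟨![1, 0, 2, 3, 4], by decide⟩
def m6s : Pat (Fin 6) := ⟨![5, 1, 2, 3, 4, 0], by decide⟩
def m6m : Pat (Fin 6) := ⟨![0, 5, 2, 3, 4, 1], by decide⟩
def m7 : Pat (Fin 7) := ⟨![5, 6, 2, 3, 4, 0, 1], by decide⟩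

theorem split_0 (x : K) (F : Pat (Fin 4) → K) :
    CrF x 1 2 3 (glue 0 1 F) q4 = Spl x 0 2 3 F q4 :=
  rep_eq ((rep_Cr x 1 2 3).comp (rep_Gl x 0 1)) (rep_Spl x 0 2 3) (by decide +kernel) F

theorem split_1 (x : K) (F : Pat (Fin 5) → K) :
    CrF x 1 2 3 (glue 0 1 F) q5 = Spl x 0 2 3 F q5 :=
  rep_eq ((rep_Cr x 1 2 3).comp (rep_Gl x 0 1)) (rep_Spl x 0 2 3) (by decide +kernel) F

theorem merge_5 (x : K) (F : Pat (Fin 5) → K) :
    CrF x 2 3 4 (glue 0 2 (glue 1 3 F)) m5 = Mer x 0 1 4 F m5 :=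
  rep_eq ((rep_Cr x 2 3 4).comp ((rep_Gl x 0 2).comp (rep_Gl x 1 3))) (rep_Mer x 0 1 4)
    (by decide +kernel) F

theorem merge_5j (x : K) (F : Pat (Fin 5) → K) :
    CrF x 2 3 4 (glue 0 2 (glue 1 3 F)) m5j = Mer x 0 1 4 F m5j :=
  rep_eq ((rep_Cr x 2 3 4).comp ((rep_Gl x 0 2).comp (rep_Gl x 1 3))) (rep_Mer x 0 1 4)
    (by decide +kernel) F

theorem merge_6s (x : K) (F : Pat (Fin 6) → K) :
    CrF x 2 3 4 (glue 0 2 (glue 1 3 F)) m6s = Mer x 0 1 4 F m6s :=
  rep_eq ((rep_Cr x 2 3 4).comp ((rep_Gl x 0 2).comp (rep_Gl x 1 3))) (rep_Mer x 0 1 4)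
    (by decide +kernel) F

theorem merge_6m (x : K) (F : Pat (Fin 6) → K) :
    CrF x 2 3 4 (glue 0 2 (glue 1 3 F)) m6m = Mer x 0 1 4 F m6m :=
  rep_eq ((rep_Cr x 2 3 4).comp ((rep_Gl x 0 2).comp (rep_Gl x 1 3))) (rep_Mer x 0 1 4)
    (by decide +kernel) F

theorem merge_7 (x : K) (F : Pat (Fin 7) → K) :
    CrF x 2 3 4 (glue 0 2 (glue 1 3 F)) m7 = Mer x 0 1 4 F m7 :=
  rep_eq ((rep_Cr x 2 3 4).comp ((rep_Gl x 0 2).comp (rep_Gl x 1 3))) (rep_Mer x 0 1 4)
    (by decide +kernel) F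

/-! sites e, s, aW, bN, bm (+ partners): split e to bN, bm, merge s, bm to aW = rhombus, renamed -/

theorem rhomb_5 (x : K) (F : Pat (Fin 5) → K) :
    Spl x 0 3 4 (Mer x 1 4 2 F) m5 = R (hexW x) 1 0 (ren 0 2 (ren 1 3 F)) m5 :=
  rep_eq ((rep_Spl x 0 3 4).comp (rep_Mer x 1 4 2))
    ((rep_Rh x 1 0).comp ((rep_Ren x 0 2).comp (rep_Ren x 1 3))) (by decide +kernel) F

theorem rhomb_5j (x : K) (F : Pat (Fin 5) → K) :
    Spl x 0 3 4 (Mer x 1 4 2 F) m5j = R (hexW x) 1 0 (ren 0 2 (ren 1 3 F)) m5j :=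
  rep_eq ((rep_Spl x 0 3 4).comp (rep_Mer x 1 4 2))
    ((rep_Rh x 1 0).comp ((rep_Ren x 0 2).comp (rep_Ren x 1 3))) (by decide +kernel) F

theorem rhomb_6s (x : K) (F : Pat (Fin 6) → K) :
    Spl x 0 3 4 (Mer x 1 4 2 F) m6s = R (hexW x) 1 0 (ren 0 2 (ren 1 3 F)) m6s :=
  rep_eq ((rep_Spl x 0 3 4).comp (rep_Mer x 1 4 2))
    ((rep_Rh x 1 0).comp ((rep_Ren x 0 2).comp (rep_Ren x 1 3))) (by decide +kernel) F

theorem rhomb_6m (x : K) (F : Pat (Fin 6) → K) :
    Spl x 0 3 4 (Mer x 1 4 2 F) m6m = R (hexW x) 1 0 (ren 0 2 (ren 1 3 F)) m6m :=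
  rep_eq ((rep_Spl x 0 3 4).comp (rep_Mer x 1 4 2))
    ((rep_Rh x 1 0).comp ((rep_Ren x 0 2).comp (rep_Ren x 1 3))) (by decide +kernel) F

theorem rhomb_7 (x : K) (F : Pat (Fin 7) → K) :
    Spl x 0 3 4 (Mer x 1 4 2 F) m7 = R (hexW x) 1 0 (ren 0 2 (ren 1 3 F)) m7 :=
  rep_eq ((rep_Spl x 0 3 4).comp (rep_Mer x 1 4 2))
    ((rep_Rh x 1 0).comp ((rep_Ren x 0 2).comp (rep_Ren x 1 3))) (by decide +kernel) F

end Pool.Agent.EXL.Net
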