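import Pool.Agent.EXL.Rhomb

/-!
# One rhombus of the honeycomb lattice: general labels
-/

set_option autoImplicit false

namespace Pool.Agent.EXL.Net

open Pool.Agent.EXL Pat

variable {α K : Type*} [DecidableEq α] [CommRing K]

theorem split_gen (x : K) {e n m a : α} (h1 : e ≠ a) (h2 : e ≠ n) (h3 : e ≠ m) (h4 : a ≠ n)
    (h5 : a ≠ m) (h6 : n ≠ m) (F : Pat α → K) {p : Pat α} (pa : p a = a) (pn : p n = n)
    (pm : p m = m) : CrF x a n m (glue e a F) p = Spl x e n m F p := by
  by_cases c : p e = e
  · have hφ : Function.Injective ![e, a, n, m] := by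
      intro i j; fin_cases i <;> fin_cases j <;> simp <;> grind
    have hc : ∀ b, p (![e, a, n, m] b) = ![e, a, n, m] (q4 b) := by
      intro b; fin_cases b
      · exact c
      · exact pa
      · exact pn
      · exact pm
    have key := split_0 x (fun q => F ((temb _ hφ p q4 hc).st q))
    have hst := temb_st _ hφ p q4 hc
    set E := temb _ hφ p q4 hc
    have k1 : CrF x (E.φ 1) (E.φ 2) (E.φ 3) (glue (E.φ 0) (E.φ 1) F) (E.st q4) =
        Spl x (E.φ 0) (E.φ 2) (E.φ 3) F (E.st q4) := by
      rw [CrF_st, Spl_st]; simp only [glue_st]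
      exact key
    rw [hst] at k1
    exact k1
  · have e1 : p (p e) = e := p.inv e
    have hφ : Function.Injective ![e, a, n, m, p e] := by
      intro i j; fin_cases i <;> fin_cases j <;> simp <;> grind
    have hc : ∀ b, p (![e, a, n, m, p e] b) = ![e, a, n, m, p e] (q5 b) := by
      intro b; fin_cases b
      · exact rfl
      · exact pa
      · exact pn
      · exact pm
      · exact p.inv e
    have key := split_1 x (fun q => F ((temb _ hφ p q5 hc).st q))
    have hst := temb_st _ hφ p q5 hc
    set E := temb _ hφ p q5 hc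
    have k1 : CrF x (E.φ 1) (E.φ 2) (E.φ 3) (glue (E.φ 0) (E.φ 1) F) (E.st q5) =
        Spl x (E.φ 0) (E.φ 2) (E.φ 3) F (E.st q5) := by
      rw [CrF_st, Spl_st]; simp only [glue_st]
      exact key
    rw [hst] at k1
    exact k1

theorem merge_gen (x : K) {s m aS am aW : α} (h01 : s ≠ m) (h02 : s ≠ aS) (h03 : s ≠ am)
    (h04 : s ≠ aW) (h12 : m ≠ aS) (h13 : m ≠ am) (h14 : m ≠ aW) (h23 : aS ≠ am) (h24 : aS ≠ aW)
    (h34 : am ≠ aW) (F : Pat α → K) {p : Pat α} (pa : p aS = aS) (pb : p am = am)
    (pc : p aW = aW) : CrF x aS am aW (glue s aS (glue m am F)) p = Mer x s m aW F p := by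
  have i0 : p (p s) = s := p.inv s
  have i1 : p (p m) = m := p.inv m
  by_cases c0 : p s = s
  · by_cases c1 : p m = m
    · have hφ : Function.Injective ![s, m, aS, am, aW] := by
        intro i j; fin_cases i <;> fin_cases j <;> simp <;> grind
      have hc : ∀ b, p (![s, m, aS, am, aW] b) = ![s, m, aS, am, aW] (m5 b) := by
        intro b; fin_cases b
        · exact c0
        · exact c1
        · exact pa
        · exact pb
        · exact pc
      have key := merge_5 x (fun q => F ((temb _ hφ p m5 hc).st q))
      have hst := temb_st _ hφ p m5 hc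
      set E := temb _ hφ p m5 hc
      have k1 : CrF x (E.φ 2) (E.φ 3) (E.φ 4) (glue (E.φ 0) (E.φ 2) (glue (E.φ 1) (E.φ 3) F)) (E.st m5) =
          Mer x (E.φ 0) (E.φ 1) (E.φ 4) F (E.st m5) := by
        rw [CrF_st, Mer_st]; simp only [glue_st]
        exact key
      rw [hst] at k1
      exact k1
    · have hφ : Function.Injective ![s, m, aS, am, aW, p m] := by
        intro i j; fin_cases i <;> fin_cases j <;> simp <;> grind
      have hc : ∀ b, p (![s, m, aS, am, aW, p m] b) = ![s, m, aS, am, aW, p m] (m6m b) := by
        intro b; fin_cases b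
        · exact c0
        · exact rfl
        · exact pa
        · exact pb
        · exact pc
        · exact i1
      have key := merge_6m x (fun q => F ((temb _ hφ p m6m hc).st q))
      have hst := temb_st _ hφ p m6m hc
      set E := temb _ hφ p m6m hc
      have k1 : CrF x (E.φ 2) (E.φ 3) (E.φ 4) (glue (E.φ 0) (E.φ 2) (glue (E.φ 1) (E.φ 3) F)) (E.st m6m) =
          Mer x (E.φ 0) (E.φ 1) (E.φ 4) F (E.st m6m) := by
        rw [CrF_st, Mer_st]; simp only [glue_st]
        exact key
      rw [hst] at k1
      exact k1
  · by_cases c1 : p m = m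
    · have hφ : Function.Injective ![s, m, aS, am, aW, p s] := by
        intro i j; fin_cases i <;> fin_cases j <;> simp <;> grind
      have hc : ∀ b, p (![s, m, aS, am, aW, p s] b) = ![s, m, aS, am, aW, p s] (m6s b) := by
        intro b; fin_cases b
        · exact rfl
        · exact c1
        · exact pa
        · exact pb
        · exact pc
        · exact i0
      have key := merge_6s x (fun q => F ((temb _ hφ p m6s hc).st q))
      have hst := temb_st _ hφ p m6s hc
      set E := temb _ hφ p m6s hc
      have k1 : CrF x (E.φ 2) (E.φ 3) (E.φ 4) (glue (E.φ 0) (E.φ 2) (glue (E.φ 1) (E.φ 3) F)) (E.st m6s) =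
          Mer x (E.φ 0) (E.φ 1) (E.φ 4) F (E.st m6s) := by
        rw [CrF_st, Mer_st]; simp only [glue_st]
        exact key
      rw [hst] at k1
      exact k1
    · by_cases c2 : p s = m
      · have hφ : Function.Injective ![s, m, aS, am, aW] := by
          intro i j; fin_cases i <;> fin_cases j <;> simp <;> grind
        have hc : ∀ b, p (![s, m, aS, am, aW] b) = ![s, m, aS, am, aW] (m5j b) := by
          intro b; fin_cases b
          · exact c2
          · exact (by rw [← c2]; exact i0)
          · exact pa
          · exact pb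
          · exact pc
        have key := merge_5j x (fun q => F ((temb _ hφ p m5j hc).st q))
        have hst := temb_st _ hφ p m5j hc
        set E := temb _ hφ p m5j hc
        have k1 : CrF x (E.φ 2) (E.φ 3) (E.φ 4) (glue (E.φ 0) (E.φ 2) (glue (E.φ 1) (E.φ 3) F)) (E.st m5j) =
            Mer x (E.φ 0) (E.φ 1) (E.φ 4) F (E.st m5j) := by
          rw [CrF_st, Mer_st]; simp only [glue_st]
          exact key
        rw [hst] at k1
        exact k1
      · have hφ : Function.Injective ![s, m, aS, am, aW, p s, p m] := by
          intro i j; fin_cases i <;> fin_cases j <;> simp <;> grind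
        have hc : ∀ b, p (![s, m, aS, am, aW, p s, p m] b) = ![s, m, aS, am, aW, p s, p m] (m7 b) := by
          intro b; fin_cases b
          · exact rfl
          · exact rfl
          · exact pa
          · exact pb
          · exact pc
          · exact i0
          · exact i1
        have key := merge_7 x (fun q => F ((temb _ hφ p m7 hc).st q))
        have hst := temb_st _ hφ p m7 hc
        set E := temb _ hφ p m7 hc
        have k1 : CrF x (E.φ 2) (E.φ 3) (E.φ 4) (glue (E.φ 0) (E.φ 2) (glue (E.φ 1) (E.φ 3) F)) (E.st m7) =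
            Mer x (E.φ 0) (E.φ 1) (E.φ 4) F (E.st m7) := by
          rw [CrF_st, Mer_st]; simp only [glue_st]
          exact key
        rw [hst] at k1
        exact k1

theorem rhomb_gen (x : K) {e s aW bN bm : α} (h01 : e ≠ s) (h02 : e ≠ aW) (h03 : e ≠ bN)
    (h04 : e ≠ bm) (h12 : s ≠ aW) (h13 : s ≠ bN) (h14 : s ≠ bm) (h23 : aW ≠ bN) (h24 : aW ≠ bm)
    (h34 : bN ≠ bm) (F : Pat α → K) {p : Pat α} (pa : p aW = aW) (pb : p bN = bN)
    (pc : p bm = bm) : Spl x e bN bm (Mer x s bm aW F) p =
      R (hexW x) s e (ren e aW (ren s bN F)) p := by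
  have i0 : p (p e) = e := p.inv e
  have i1 : p (p s) = s := p.inv s
  by_cases c0 : p e = e
  · by_cases c1 : p s = s
    · have hφ : Function.Injective ![e, s, aW, bN, bm] := by
        intro i j; fin_cases i <;> fin_cases j <;> simp <;> grind
      have hc : ∀ b, p (![e, s, aW, bN, bm] b) = ![e, s, aW, bN, bm] (m5 b) := by
        intro b; fin_cases b
        · exact c0
        · exact c1
        · exact pa
        · exact pb
        · exact pc
      have key := rhomb_5 x (fun q => F ((temb _ hφ p m5 hc).st q))
      have hst := temb_st _ hφ p m5 hc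
      set E := temb _ hφ p m5 hc
      have k1 : Spl x (E.φ 0) (E.φ 3) (E.φ 4) (Mer x (E.φ 1) (E.φ 4) (E.φ 2) F) (E.st m5) =
          R (hexW x) (E.φ 1) (E.φ 0) (ren (E.φ 0) (E.φ 2) (ren (E.φ 1) (E.φ 3) F)) (E.st m5) := by
        rw [Spl_st, R_st]; simp only [Mer_st, ren_st]
        exact key
      rw [hst] at k1
      exact k1
    · have hφ : Function.Injective ![e, s, aW, bN, bm, p s] := by
        intro i j; fin_cases i <;> fin_cases j <;> simp <;> grind
      have hc : ∀ b, p (![e, s, aW, bN, bm, p s] b) = ![e, s, aW, bN, bm, p s] (m6m b) := by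
        intro b; fin_cases b
        · exact c0
        · exact rfl
        · exact pa
        · exact pb
        · exact pc
        · exact i1
      have key := rhomb_6m x (fun q => F ((temb _ hφ p m6m hc).st q))
      have hst := temb_st _ hφ p m6m hc
      set E := temb _ hφ p m6m hc
      have k1 : Spl x (E.φ 0) (E.φ 3) (E.φ 4) (Mer x (E.φ 1) (E.φ 4) (E.φ 2) F) (E.st m6m) =
          R (hexW x) (E.φ 1) (E.φ 0) (ren (E.φ 0) (E.φ 2) (ren (E.φ 1) (E.φ 3) F)) (E.st m6m) := by
        rw [Spl_st, R_st]; simp only [Mer_st, ren_st]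
        exact key
      rw [hst] at k1
      exact k1
  · by_cases c1 : p s = s
    · have hφ : Function.Injective ![e, s, aW, bN, bm, p e] := by
        intro i j; fin_cases i <;> fin_cases j <;> simp <;> grind
      have hc : ∀ b, p (![e, s, aW, bN, bm, p e] b) = ![e, s, aW, bN, bm, p e] (m6s b) := by
        intro b; fin_cases b
        · exact rfl
        · exact c1
        · exact pa
        · exact pb
        · exact pc
        · exact i0
      have key := rhomb_6s x (fun q => F ((temb _ hφ p m6s hc).st q))
      have hst := temb_st _ hφ p m6s hc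
      set E := temb _ hφ p m6s hc
      have k1 : Spl x (E.φ 0) (E.φ 3) (E.φ 4) (Mer x (E.φ 1) (E.φ 4) (E.φ 2) F) (E.st m6s) =
          R (hexW x) (E.φ 1) (E.φ 0) (ren (E.φ 0) (E.φ 2) (ren (E.φ 1) (E.φ 3) F)) (E.st m6s) := by
        rw [Spl_st, R_st]; simp only [Mer_st, ren_st]
        exact key
      rw [hst] at k1
      exact k1
    · by_cases c2 : p e = s
      · have hφ : Function.Injective ![e, s, aW, bN, bm] := by
          intro i j; fin_cases i <;> fin_cases j <;> simp <;> grind
        have hc : ∀ b, p (![e, s, aW, bN, bm] b) = ![e, s, aW, bN, bm] (m5j b) := by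
          intro b; fin_cases b
          · exact c2
          · exact (by rw [← c2]; exact i0)
          · exact pa
          · exact pb
          · exact pc
        have key := rhomb_5j x (fun q => F ((temb _ hφ p m5j hc).st q))
        have hst := temb_st _ hφ p m5j hc
        set E := temb _ hφ p m5j hc
        have k1 : Spl x (E.φ 0) (E.φ 3) (E.φ 4) (Mer x (E.φ 1) (E.φ 4) (E.φ 2) F) (E.st m5j) =
            R (hexW x) (E.φ 1) (E.φ 0) (ren (E.φ 0) (E.φ 2) (ren (E.φ 1) (E.φ 3) F)) (E.st m5j) := by
          rw [Spl_st, R_st]; simp only [Mer_st, ren_st]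
          exact key
        rw [hst] at k1
        exact k1
      · have hφ : Function.Injective ![e, s, aW, bN, bm, p e, p s] := by
          intro i j; fin_cases i <;> fin_cases j <;> simp <;> grind
        have hc : ∀ b, p (![e, s, aW, bN, bm, p e, p s] b) = ![e, s, aW, bN, bm, p e, p s] (m7 b) := by
          intro b; fin_cases b
          · exact rfl
          · exact rfl
          · exact pa
          · exact pb
          · exact pc
          · exact i0
          · exact i1
        have key := rhomb_7 x (fun q => F ((temb _ hφ p m7 hc).st q))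
        have hst := temb_st _ hφ p m7 hc
        set E := temb _ hφ p m7 hc
        have k1 : Spl x (E.φ 0) (E.φ 3) (E.φ 4) (Mer x (E.φ 1) (E.φ 4) (E.φ 2) F) (E.st m7) =
            R (hexW x) (E.φ 1) (E.φ 0) (ren (E.φ 0) (E.φ 2) (ren (E.φ 1) (E.φ 3) F)) (E.st m7) := by
          rw [Spl_st, R_st]; simp only [Mer_st, ren_st]
          exact key
        rw [hst] at k1
        exact k1

end Pool.Agent.EXL.Net
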