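import Pool.Agent.EXL.InstVal

/-!
# The weights as rational functions of `r = e^{iπ/16}` and `p / q = e^{iu}`
-/

namespace Pool.Agent.EXL

namespace Sc

/-- denominator of the rhombus weights -/
def Df (r p q : ℂ) : ℂ := (r ^ 8 * p ^ 2 - q ^ 2) * (r ^ 12 * p ^ 2 - q ^ 2)

/-- denominator of the cap weights -/
def Sf (r p q : ℂ) : ℂ := r ^ 6 * p ^ 2 - q ^ 2

/-- The rhombus weights. -/
noncomputable def Wf (r p q : ℂ) : Wt ℂ where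
  v := r ^ 4 * (p ^ 2 - q ^ 2) * (r ^ 12 * q ^ 2 - p ^ 2) / Df r p q
  u1 := (r ^ 8 - 1) * p * q * (r ^ 12 * q ^ 2 - p ^ 2) / Df r p q
  u2 := r ^ 6 * p * q * (r ^ 8 - 1) * (p ^ 2 - q ^ 2) / Df r p q
  w1 := (r ^ 8 * q ^ 2 - p ^ 2) * (r ^ 12 * q ^ 2 - p ^ 2) / Df r p q
  w2 := -(r ^ 8 * (p ^ 2 - q ^ 2) * (r ^ 4 * q ^ 2 - p ^ 2)) / Df r p q

/-- The cap weights. -/
noncomputable def Kf (r p q : ℂ) : ℂ := (r ^ 6 * q ^ 2 - p ^ 2) / Sf r p q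

/-- The cap weights. -/
noncomputable def kf (r p q : ℂ) : ℂ := r ^ 3 * (p ^ 4 - q ^ 4) / (p * q * Sf r p q)

/-- The weight of the honeycomb vertex. -/
noncomputable def xf (r : ℂ) : ℂ := r ^ 2 / (r ^ 4 + 1)

end Sc

end Pool.Agent.EXL
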