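import Pool.Agent.EXL.ScalDefs

/-!
# The weights of the concrete operators as rational functions
-/

namespace Pool.Agent.EXL

namespace Sc

open Complex

/-- `e^{iπ/16}` -/
noncomputable def rr : ℂ := exp (Real.pi / 16 * I)

theorem rr_ne : rr ≠ 0 := exp_ne_zero _

theorem rr_pow (n : ℕ) : rr ^ n = exp (n * (Real.pi / 16 * I)) := by
  rw [rr, ← exp_nat_mul]

theorem rr4 : exp (Real.pi / 4 * I) = rr ^ 4 := by
  rw [rr_pow]; congr 1; push_cast; ring

theorem rr6 : exp (3 * Real.pi / 8 * I) = rr ^ 6 := by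
  rw [rr_pow]; congr 1; push_cast; ring

theorem rr16 : rr ^ 16 + 1 = 0 := by
  have : exp (((16 : ℕ) : ℂ) * (Real.pi / 16 * I)) = exp (Real.pi * I) := by
    congr 1; push_cast; ring
  rw [rr_pow, this, exp_pi_mul_I]
  ring

theorem rr4_ne : rr ^ 4 + 1 ≠ 0 := by
  intro h
  have h4 : rr ^ 4 = -1 := by linear_combination h
  have : rr ^ 16 + 1 = 2 := by
    have : rr ^ 16 = (rr ^ 4) ^ 4 := by ring
    rw [this, h4]; norm_num
  rw [rr16] at this
  norm_num at this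

theorem rr8_ne : rr ^ 8 - 1 ≠ 0 := by
  intro h
  have h4 : rr ^ 8 = 1 := by linear_combination h
  have : rr ^ 16 + 1 = 2 := by
    have : rr ^ 16 = (rr ^ 8) ^ 2 := by ring
    rw [this, h4]; norm_num
  rw [rr16] at this
  norm_num at this

variable {u v w p q : ℂ}

theorem Dn_eq (hq : q ≠ 0) (h : exp (u * I) = p / q) : Dn u * q ^ 4 = Df rr p q := by
  rw [Dn, h, rr4, Df]
  simp only [Pool.Agent.EXL.PP]
  field_simp

theorem Df_ne (hq : q ≠ 0) (h : exp (u * I) = p / q) (hD : okR u) : Df rr p q ≠ 0 := by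
  rw [← Dn_eq hq h]
  exact mul_ne_zero hD (pow_ne_zero _ hq)

theorem rwt_eq (hq : q ≠ 0) (h : exp (u * I) = p / q) (hD : okR u) :
    rwt u = Wf rr p q := by
  have h1 := Dn_eq hq h
  have h2 := Df_ne hq h hD
  have h3 : (Dn u)⁻¹ = q ^ 4 / Df rr p q := by
    rw [← h1]
    have : Dn u ≠ 0 := hD
    field_simp
  rw [rwt, h3, h, rr4, rr6]
  simp only [wt, Wf, Wt.mk.injEq]
  refine ⟨?_, ?_, ?_, ?_, ?_⟩
  · field_simp
  · field_simp
  · field_simp
  · field_simp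
  · field_simp

theorem Sn_eq (hp : p ≠ 0) (hq : q ≠ 0) (h : exp (v * I) = p / q) :
    Sn v * (2 * I * rr ^ 3 * p * q) = Sf rr p q := by
  have e1 : exp ((3 * Real.pi / 16 + v) * I) = rr ^ 3 * (p / q) := by
    rw [add_mul, exp_add, h, rr_pow]
    congr 2
    push_cast; ring
  have e2 : exp (-(3 * Real.pi / 16 + v) * I) = (rr ^ 3 * (p / q))⁻¹ := by
    rw [← e1, ← exp_neg]; congr 1; ring
  have hr := rr_ne
  have hI := I_ne_zero
  rw [Sn, sin, e1, e2, Sf]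
  field_simp
  rw [I_sq]
  ring

theorem Sn_eq' (hp : p ≠ 0) (hq : q ≠ 0) (h : exp (v * I) = p / q) :
    Sn (-v) * (2 * I * rr ^ 3 * p * q) = rr ^ 6 * q ^ 2 - p ^ 2 := by
  have h' : exp (-v * I) = q / p := by
    rw [neg_mul, exp_neg, h, inv_div]
  have := Sn_eq (v := -v) hq hp h'
  rw [Sf] at this
  rw [← this]
  ring

theorem Sf_ne (hp : p ≠ 0) (hq : q ≠ 0) (h : exp (v * I) = p / q) (hS : okC v) :
    Sf rr p q ≠ 0 := by
  rw [← Sn_eq hp hq h]
  have hr := rr_ne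
  have hI := I_ne_zero
  exact mul_ne_zero hS (mul_ne_zero (mul_ne_zero (mul_ne_zero (mul_ne_zero two_ne_zero hI)
    (pow_ne_zero _ hr)) hp) hq)

theorem kK_eq (hp : p ≠ 0) (hq : q ≠ 0) (h : exp (v * I) = p / q) (hS : okC v) :
    kK v = Kf rr p q := by
  have hr := rr_ne
  have hI := I_ne_zero
  have hS' : Sn v ≠ 0 := hS
  rw [kK, Kf, ← Sn_eq hp hq h, ← Sn_eq' hp hq h]
  field_simp

theorem kk_eq (hp : p ≠ 0) (hq : q ≠ 0) (h : exp (v * I) = p / q) (hS : okC v) :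
    kk v = kf rr p q := by
  have hr := rr_ne
  have hI := I_ne_zero
  have hS' : Sn v ≠ 0 := hS
  have e1 : exp (2 * v * I) = (p / q) ^ 2 := by
    rw [← h, ← exp_nat_mul]; congr 1; push_cast; ring
  have e2 : exp (-(2 * v) * I) = ((p / q) ^ 2)⁻¹ := by
    rw [← e1, ← exp_neg]; congr 1; ring
  rw [kk, kf, ← Sn_eq hp hq h, sin, e1, e2]
  field_simp
  rw [I_sq]
  ring

theorem xh_eq : xh = xf rr := by
  have hr := rr_ne
  have h4 := rr4_ne
  have e1 : exp (Real.pi / 8 * I) = rr ^ 2 := by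
    rw [rr_pow]; congr 1; push_cast; ring
  have e2 : exp (-(Real.pi / 8) * I) = (rr ^ 2)⁻¹ := by
    rw [← e1, ← exp_neg]; congr 1; ring
  rw [xh, xf, cos, e1, e2]
  field_simp

end Sc

end Pool.Agent.EXL
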