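import Pool.Agent.EXL.YBgen

/-!
# The weights of the O(0) model on the rhombic lattice satisfy the Yang-Baxter equation

`ω = e^{iπ/4}`, `s = e^{3iπ/8}`, `z = e^{iu}`.
-/

namespace Pool.Agent.EXL

variable {K : Type*} [CommRing K]

/-- The denominator. -/
def PP (ω z : K) : K := (ω^2*z^2-1)*(ω^3*z^2-1)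

/-- The weights; `i` is the inverse of `PP ω z`. -/
def wt (ω s z i : K) : Wt K where
  v := ω*(z^2-1)*(ω^3-z^2)*i
  u1 := (ω^2-1)*z*(ω^3-z^2)*i
  u2 := s*z*(ω^2-1)*(z^2-1)*i
  w1 := (ω^2-z^2)*(ω^3-z^2)*i
  w2 := -(ω^2*(z^2-1)*(ω-z^2))*i

theorem yb_wt {ω s x y i j k : K} (hω : ω^4 = -1) (hs : s^2 = ω^3)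
    (hx : PP ω x * i = 1) (hy : PP ω y * j = 1) (hxy : PP ω (x*y) * k = 1) :
    YB (wt ω s x i) (wt ω s (x*y) k) (wt ω s y j) := by
  unfold PP at hx hy hxy
  constructor <;> simp only [wt]
  · linear_combination 0
  · linear_combination 0
  · linear_combination 0
  · linear_combination 0
  · linear_combination i*k*j*(ω*x^3*y^2 -ω*x^3*y^4 -ω*x^5*y^2 +ω*x^5*y^6 +ω*x^7*y^4 -ω*x^7*y^6 -2*ω^3*x^3*y^2 +2*ω^3*x^3*y^4 +2*ω^3*x^5*y^2 -2*ω^3*x^5*y^6 -2*ω^3*x^7*y^4 +2*ω^3*x^7*y^6 -ω^4*x*y^2 +ω^4*x*y^4 +ω^4*x^3*y^2 -ω^4*x^3*y^6 -ω^4*x^5*y^4 +ω^4*x^5*y^6 +ω^5*x^3*y^2 -ω^5*x^3*y^4 -ω^5*x^5*y^2 +ω^5*x^5*y^6 +ω^5*x^7*y^4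 -ω^5*x^7*y^6 +2*ω^6*x*y^2 -2*ω^6*x*y^4 -2*ω^6*x^3*y^2 +2*ω^6*x^3*y^6 +2*ω^6*x^5*y^4 -2*ω^6*x^5*y^6 -ω^8*x*y^2 +ω^8*x*y^4 +ω^8*x^3*y^2 -ω^8*x^3*y^6 -ω^8*x^5*y^4 +ω^8*x^5*y^6)*hs
  · linear_combination 0
  · linear_combination i*k*j*(ω*x^2*y^3 -ω*x^2*y^5 -ω*x^4*y^3 +ω*x^4*y^7 +ω*x^6*y^5 -ω*x^6*y^7 -2*ω^3*x^2*y^3 +2*ω^3*x^2*y^5 +2*ω^3*x^4*y^3 -2*ω^3*x^4*y^7 -2*ω^3*x^6*y^5 +2*ω^3*x^6*y^7 -ω^4*x^2*y +ω^4*x^2*y^3 +ω^4*x^4*y -ω^4*x^4*y^5 -ω^4*x^6*y^3 +ω^4*x^6*y^5 +ω^5*x^2*y^3 -ω^5*x^2*y^5 -ω^5*x^4*y^3 +ω^5*x^4*y^7 +ω^5*x^6*y^5 -ω^5*x^6*y^7 +2*ω^6*x^2*y -2*ω^6*x^2*y^3 -2*ω^6*x^4*y +2*ω^6*x^4*y^5 +2*ω^6*x^6*y^3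 -2*ω^6*x^6*y^5 -ω^8*x^2*y +ω^8*x^2*y^3 +ω^8*x^4*y -ω^8*x^4*y^5 -ω^8*x^6*y^3 +ω^8*x^6*y^5)*hs
  · linear_combination 0
  · linear_combination 0
  · linear_combination i*k*j*(-s*y +s*y^3 +s*x^4*y -s*x^4*y^7 -s*x^6*y^3 +s*x^6*y^7 +s*ω^2*y -s*ω^2*y^3 +s*ω^2*x^2*y -s*ω^2*x^2*y^5 -2*s*ω^2*x^4*y +2*s*ω^2*x^4*y^7 +s*ω^2*x^6*y^3 -s*ω^2*x^6*y^7 +s*ω^2*x^8*y^5 -s*ω^2*x^8*y^7 +s*ω^4*y -s*ω^4*y^3 -s*ω^4*x^2*y +s*ω^4*x^2*y^5 +s*ω^4*x^6*y^3 -s*ω^4*x^6*y^7 -s*ω^4*x^8*y^5 +s*ω^4*x^8*y^7 -s*ω^6*y +s*ω^6*y^3 -s*ω^6*x^2*y +s*ω^6*x^2*y^5 +2*s*ω^6*x^4*y -2*s*ω^6*x^4*y^7 -s*ω^6*x^6*y^3 +s*ω^6*x^6*y^7 -s*ω^6*x^8*y^5 +s*ω^6*x^8*y^7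 +s*ω^8*x^2*y -s*ω^8*x^2*y^5 -s*ω^8*x^4*y +s*ω^8*x^4*y^7 +s*ω^8*x^8*y^5 -s*ω^8*x^8*y^7)*hω + (1)*((s*y*(ω^2-1)*(y^2-1))*j)*1*hx + (1)*((s*y*(ω^2-1)*(y^2-1))*j)*1*(((ω^2*x^2-1)*(ω^3*x^2-1))*i)*hxy + (-1)*(((ω^2-1)*x*(ω^3-x^2))*i)*((s*(x*y)*(ω^2-1)*((x*y)^2-1))*k)*1*hy
  · linear_combination i*k*j*(ω^2*x^3*y^3 -ω^2*x^3*y^5 -ω^2*x^5*y^3 +ω^2*x^5*y^7 +ω^2*x^7*y^5 -ω^2*x^7*y^7 -ω^3*x*y +ω^3*x*y^3 +ω^3*x^3*y -ω^3*x^3*y^5 -ω^3*x^5*y^3 +ω^3*x^5*y^5 -2*ω^4*x^3*y^3 +2*ω^4*x^3*y^5 +2*ω^4*x^5*y^3 -2*ω^4*x^5*y^7 -2*ω^4*x^7*y^5 +2*ω^4*x^7*y^7 +2*ω^5*x*y -2*ω^5*x*y^3 -2*ω^5*x^3*y +2*ω^5*x^3*y^5 +2*ω^5*x^5*y^3 -2*ω^5*x^5*y^5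 +ω^6*x^3*y^3 -ω^6*x^3*y^5 -ω^6*x^5*y^3 +ω^6*x^5*y^7 +ω^6*x^7*y^5 -ω^6*x^7*y^7 -ω^7*x*y +ω^7*x*y^3 +ω^7*x^3*y -ω^7*x^3*y^5 -ω^7*x^5*y^3 +ω^7*x^5*y^5)*hs + i*k*j*(-ω^2*x^3*y^3 +ω^2*x^3*y^5 +ω^2*x^5*y^3 -ω^2*x^5*y^7 -ω^2*x^7*y^5 +ω^2*x^7*y^7 +ω^3*x*y -ω^3*x*y^3 -ω^3*x^3*y +ω^3*x^3*y^5 +ω^3*x^5*y^3 -ω^3*x^5*y^5 +ω^4*x^3*y^3 -ω^4*x^3*y^5 -ω^4*x^5*y^3 +ω^4*x^5*y^7 +ω^4*x^7*y^5 -ω^4*x^7*y^7 -ω^5*x*y +ω^5*x*y^3 +ω^5*x^3*y -ω^5*x^3*y^5 -ω^5*x^5*y^3 +ω^5*x^5*y^5 +ω^6*x^3*y^3 -ω^6*x^3*y^5 -ω^6*x^5*y^3 +ω^6*x^5*y^7 +ω^6*x^7*y^5 -ω^6*x^7*y^7 -ω^7*x*y +ω^7*x*y^3 +ω^7*x^3*y -ω^7*x^3*y^5 -ω^7*x^5*y^3 +ω^7*x^5*y^5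 -ω^8*x^3*y^3 +ω^8*x^3*y^5 +ω^8*x^5*y^3 -ω^8*x^5*y^7 -ω^8*x^7*y^5 +ω^8*x^7*y^7 +ω^9*x*y -ω^9*x*y^3 -ω^9*x^3*y +ω^9*x^3*y^5 +ω^9*x^5*y^3 -ω^9*x^5*y^5)*hω + (1)*(((ω^2-1)*(x*y)*(ω^3-(x*y)^2))*k)*1*hx + (1)*(((ω^2-1)*(x*y)*(ω^3-(x*y)^2))*k)*1*(((ω^2*x^2-1)*(ω^3*x^2-1))*i)*hy + (-1)*(((ω^2-1)*x*(ω^3-x^2))*i)*(((ω^2-1)*y*(ω^3-y^2))*j)*1*hxy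
  · linear_combination i*k*j*(-s*x^3*y^4 +s*x^3*y^6 +s*x^5*y^4 -s*x^5*y^8 -s*x^7*y^6 +s*x^7*y^8 +s*ω^2*x^3*y^4 -s*ω^2*x^3*y^6 -s*ω^2*x^5*y^4 +s*ω^2*x^5*y^8 +s*ω^2*x^7*y^6 -s*ω^2*x^7*y^8 +s*ω^3*x*y^2 -s*ω^3*x*y^4 -s*ω^3*x^3*y^4 +s*ω^3*x^3*y^6 -s*ω^3*x^5*y^2 +s*ω^3*x^5*y^4 +s*ω^3*x^7*y^4 -s*ω^3*x^7*y^6 -s*ω^5*x*y^2 +s*ω^5*x*y^4 +s*ω^5*x^3*y^4 -s*ω^5*x^3*y^6 +s*ω^5*x^5*y^2 -s*ω^5*x^5*y^4 -s*ω^5*x^7*y^4 +s*ω^5*x^7*y^6 -s*ω^6*x +s*ω^6*x*y^2 +s*ω^6*x^3 -s*ω^6*x^3*y^4 -s*ω^6*x^5*y^2 +s*ω^6*x^5*y^4 +s*ω^8*x -s*ω^8*x*y^2 -s*ω^8*x^3 +s*ω^8*x^3*y^4 +s*ω^8*x^5*y^2 -s*ω^8*x^5*y^4)*hω + (1)*(((ω^2-1)*(x*y)*(ω^3-(x*y)^2))*k)*((s*y*(ω^2-1)*(y^2-1))*j)*1*hx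
  · linear_combination i*k*j*(s*x -s*x*y^4 -s*x^3 +s*x^3*y^6 +s*x^7*y^4 -s*x^7*y^6 -s*ω^2*x -s*ω^2*x*y^2 +2*s*ω^2*x*y^4 +s*ω^2*x^3 -s*ω^2*x^3*y^6 +s*ω^2*x^5*y^2 -s*ω^2*x^5*y^8 -2*s*ω^2*x^7*y^4 +s*ω^2*x^7*y^6 +s*ω^2*x^7*y^8 -s*ω^4*x +s*ω^4*x*y^2 +s*ω^4*x^3 -s*ω^4*x^3*y^6 -s*ω^4*x^5*y^2 +s*ω^4*x^5*y^8 +s*ω^4*x^7*y^6 -s*ω^4*x^7*y^8 +s*ω^6*x +s*ω^6*x*y^2 -2*s*ω^6*x*y^4 -s*ω^6*x^3 +s*ω^6*x^3*y^6 -s*ω^6*x^5*y^2 +s*ω^6*x^5*y^8 +2*s*ω^6*x^7*y^4 -s*ω^6*x^7*y^6 -s*ω^6*x^7*y^8 -s*ω^8*x*y^2 +s*ω^8*x*y^4 +s*ω^8*x^5*y^2 -s*ω^8*x^5*y^8 -s*ω^8*x^7*y^4 +s*ω^8*x^7*y^8)*hω + (1)*((s*(x*y)*(ω^2-1)*((x*y)^2-1))*k)*(((ω^2-1)*y*(ω^3-y^2))*j)*1*hx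 + (-1)*((s*x*(ω^2-1)*(x^2-1))*i)*1*hxy + (-1)*((s*x*(ω^2-1)*(x^2-1))*i)*1*(((ω^2*(x*y)^2-1)*(ω^3*(x*y)^2-1))*k)*hy
  · linear_combination i*k*j*(-s*ω*x*y^3 +s*ω*x*y^5 +s*ω*x^3*y -s*ω*x^3*y^7 -s*ω*x^5*y +s*ω*x^5*y^7 +s*ω*x^7*y^3 -s*ω*x^7*y^5 +s*ω^3*x*y^3 -s*ω^3*x*y^5 -s*ω^3*x^3*y +s*ω^3*x^3*y^7 +s*ω^3*x^5*y -s*ω^3*x^5*y^7 -s*ω^3*x^7*y^3 +s*ω^3*x^7*y^5 +s*ω^5*x*y^3 -s*ω^5*x*y^5 -s*ω^5*x^3*y +s*ω^5*x^3*y^7 +s*ω^5*x^5*y -s*ω^5*x^5*y^7 -s*ω^5*x^7*y^3 +s*ω^5*x^7*y^5 -s*ω^7*x*y^3 +s*ω^7*x*y^5 +s*ω^7*x^3*y -s*ω^7*x^3*y^7 -s*ω^7*x^5*y +s*ω^7*x^5*y^7 +s*ω^7*x^7*y^3 -s*ω^7*x^7*y^5)*hω + (1)*((s*(x*y)*(ω^2-1)*((x*y)^2-1))*k)*((ω*(y^2-1)*(ω^3-y^2))*j)*1*hx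 + (-1)*((ω*(x^2-1)*(ω^3-x^2))*i)*((s*(x*y)*(ω^2-1)*((x*y)^2-1))*k)*1*hy
  · linear_combination i*k*j*(-ω*x^2*y^3 +ω*x^2*y^5 +ω*x^4*y^3 -ω*x^4*y^7 -ω*x^6*y^5 +ω*x^6*y^7 +2*ω^3*x^2*y^3 -2*ω^3*x^2*y^5 -2*ω^3*x^4*y^3 +2*ω^3*x^4*y^7 +2*ω^3*x^6*y^5 -2*ω^3*x^6*y^7 +ω^4*x^2*y -ω^4*x^2*y^3 -ω^4*x^4*y +ω^4*x^4*y^5 +ω^4*x^6*y^3 -ω^4*x^6*y^5 -ω^5*x^2*y^3 +ω^5*x^2*y^5 +ω^5*x^4*y^3 -ω^5*x^4*y^7 -ω^5*x^6*y^5 +ω^5*x^6*y^7 -2*ω^6*x^2*y +2*ω^6*x^2*y^3 +2*ω^6*x^4*y -2*ω^6*x^4*y^5 -2*ω^6*x^6*y^3 +2*ω^6*x^6*y^5 +ω^8*x^2*y -ω^8*x^2*y^3 -ω^8*x^4*y +ω^8*x^4*y^5 +ω^8*x^6*y^3 -ω^8*x^6*y^5)*hs + i*k*j*(ω*x^2*y^3 -ω*x^2*y^5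 -ω*x^4*y^3 +ω*x^4*y^7 +ω*x^6*y^5 -ω*x^6*y^7 -ω^3*x^2*y^3 +ω^3*x^2*y^5 +ω^3*x^4*y^3 -ω^3*x^4*y^7 -ω^3*x^6*y^5 +ω^3*x^6*y^7 -ω^4*x^2*y +ω^4*x^2*y^3 +ω^4*x^4*y -ω^4*x^4*y^5 -ω^4*x^6*y^3 +ω^4*x^6*y^5 -ω^5*x^2*y^3 +ω^5*x^2*y^5 +ω^5*x^4*y^3 -ω^5*x^4*y^7 -ω^5*x^6*y^5 +ω^5*x^6*y^7 +ω^6*x^2*y -ω^6*x^2*y^3 -ω^6*x^4*y +ω^6*x^4*y^5 +ω^6*x^6*y^3 -ω^6*x^6*y^5 +ω^7*x^2*y^3 -ω^7*x^2*y^5 -ω^7*x^4*y^3 +ω^7*x^4*y^7 +ω^7*x^6*y^5 -ω^7*x^6*y^7 +ω^8*x^2*y -ω^8*x^2*y^3 -ω^8*x^4*y +ω^8*x^4*y^5 +ω^8*x^6*y^3 -ω^8*x^6*y^5 -ω^10*x^2*y +ω^10*x^2*y^3 +ω^10*x^4*y -ω^10*x^4*y^5 -ω^10*x^6*y^3 +ω^10*x^6*y^5)*hω + (1)*((ω*((x*y)^2-1)*(ω^3-(x*y)^2))*k)*(((ω^2-1)*y*(ω^3-y^2))*j)*1*hx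 + (-1)*((ω*(x^2-1)*(ω^3-x^2))*i)*(((ω^2-1)*y*(ω^3-y^2))*j)*1*hxy
  · linear_combination i*k*j*(-ω*x^3*y^2 +ω*x^3*y^4 +ω*x^5*y^2 -ω*x^5*y^6 -ω*x^7*y^4 +ω*x^7*y^6 +2*ω^3*x^3*y^2 -2*ω^3*x^3*y^4 -2*ω^3*x^5*y^2 +2*ω^3*x^5*y^6 +2*ω^3*x^7*y^4 -2*ω^3*x^7*y^6 +ω^4*x*y^2 -ω^4*x*y^4 -ω^4*x^3*y^2 +ω^4*x^3*y^6 +ω^4*x^5*y^4 -ω^4*x^5*y^6 -ω^5*x^3*y^2 +ω^5*x^3*y^4 +ω^5*x^5*y^2 -ω^5*x^5*y^6 -ω^5*x^7*y^4 +ω^5*x^7*y^6 -2*ω^6*x*y^2 +2*ω^6*x*y^4 +2*ω^6*x^3*y^2 -2*ω^6*x^3*y^6 -2*ω^6*x^5*y^4 +2*ω^6*x^5*y^6 +ω^8*x*y^2 -ω^8*x*y^4 -ω^8*x^3*y^2 +ω^8*x^3*y^6 +ω^8*x^5*y^4 -ω^8*x^5*y^6)*hs + i*k*j*(ω*x^3*y^2 -ω*x^3*y^4 -ω*x^5*y^2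 +ω*x^5*y^6 +ω*x^7*y^4 -ω*x^7*y^6 -ω^3*x^3*y^2 +ω^3*x^3*y^4 +ω^3*x^5*y^2 -ω^3*x^5*y^6 -ω^3*x^7*y^4 +ω^3*x^7*y^6 -ω^4*x*y^2 +ω^4*x*y^4 +ω^4*x^3*y^2 -ω^4*x^3*y^6 -ω^4*x^5*y^4 +ω^4*x^5*y^6 -ω^5*x^3*y^2 +ω^5*x^3*y^4 +ω^5*x^5*y^2 -ω^5*x^5*y^6 -ω^5*x^7*y^4 +ω^5*x^7*y^6 +ω^6*x*y^2 -ω^6*x*y^4 -ω^6*x^3*y^2 +ω^6*x^3*y^6 +ω^6*x^5*y^4 -ω^6*x^5*y^6 +ω^7*x^3*y^2 -ω^7*x^3*y^4 -ω^7*x^5*y^2 +ω^7*x^5*y^6 +ω^7*x^7*y^4 -ω^7*x^7*y^6 +ω^8*x*y^2 -ω^8*x*y^4 -ω^8*x^3*y^2 +ω^8*x^3*y^6 +ω^8*x^5*y^4 -ω^8*x^5*y^6 -ω^10*x*y^2 +ω^10*x*y^4 +ω^10*x^3*y^2 -ω^10*x^3*y^6 -ω^10*x^5*y^4 +ω^10*x^5*y^6)*hω + (-1)*(((ω^2-1)*x*(ω^3-x^2))*i)*((ω*(y^2-1)*(ω^3-y^2))*j)*1*hxy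 + (1)*(((ω^2-1)*x*(ω^3-x^2))*i)*((ω*((x*y)^2-1)*(ω^3-(x*y)^2))*k)*1*hy
  · linear_combination i*k*j*(s*x^4*y^3 -s*x^4*y^5 -s*x^6*y^3 +s*x^6*y^7 +s*x^8*y^5 -s*x^8*y^7 -s*ω^2*x^4*y^3 +s*ω^2*x^4*y^5 +s*ω^2*x^6*y^3 -s*ω^2*x^6*y^7 -s*ω^2*x^8*y^5 +s*ω^2*x^8*y^7 -s*ω^3*x^2*y +s*ω^3*x^2*y^5 +s*ω^3*x^4*y +s*ω^3*x^4*y^3 -s*ω^3*x^4*y^5 -s*ω^3*x^4*y^7 -s*ω^3*x^6*y^3 +s*ω^3*x^6*y^7 +s*ω^5*x^2*y -s*ω^5*x^2*y^5 -s*ω^5*x^4*y -s*ω^5*x^4*y^3 +s*ω^5*x^4*y^5 +s*ω^5*x^4*y^7 +s*ω^5*x^6*y^3 -s*ω^5*x^6*y^7 +s*ω^6*y -s*ω^6*y^3 -s*ω^6*x^2*y +s*ω^6*x^2*y^5 +s*ω^6*x^4*y^3 -s*ω^6*x^4*y^5 -s*ω^8*y +s*ω^8*y^3 +s*ω^8*x^2*y -s*ω^8*x^2*y^5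 -s*ω^8*x^4*y^3 +s*ω^8*x^4*y^5)*hω + (-1)*((s*x*(ω^2-1)*(x^2-1))*i)*(((ω^2-1)*(x*y)*(ω^3-(x*y)^2))*k)*1*hy
  · linear_combination i*k*j*(x*y -x*y^3 -x^3*y +x^3*y^3 -2*ω^2*x*y +2*ω^2*x*y^3 +2*ω^2*x^3*y -3*ω^2*x^3*y^3 +ω^2*x^3*y^5 +ω^2*x^5*y^3 -ω^2*x^5*y^5 -ω^3*x^3*y^3 +ω^3*x^3*y^5 +ω^3*x^5*y^3 -ω^3*x^5*y^5 +ω^4*x*y -ω^4*x*y^3 -ω^4*x^3*y +3*ω^4*x^3*y^3 -2*ω^4*x^3*y^5 -2*ω^4*x^5*y^3 +2*ω^4*x^5*y^5 +2*ω^5*x^3*y^3 -2*ω^5*x^3*y^5 -2*ω^5*x^5*y^3 +3*ω^5*x^5*y^5 -ω^5*x^5*y^7 -ω^5*x^7*y^5 +ω^5*x^7*y^7 -ω^6*x^3*y^3 +ω^6*x^3*y^5 +ω^6*x^5*y^3 -ω^6*x^5*y^5 -ω^7*x^3*y^3 +ω^7*x^3*y^5 +ω^7*x^5*y^3 -3*ω^7*x^5*y^5 +2*ω^7*x^5*y^7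 +2*ω^7*x^7*y^5 -2*ω^7*x^7*y^7 +ω^9*x^5*y^5 -ω^9*x^5*y^7 -ω^9*x^7*y^5 +ω^9*x^7*y^7)*hs + i*k*j*(ω^2*x^5*y^5 -ω^2*x^5*y^7 -ω^2*x^7*y^5 +ω^2*x^7*y^7 +ω^3*x*y -ω^3*x*y^3 -ω^3*x^3*y +ω^3*x^3*y^7 +ω^3*x^5*y^5 -ω^3*x^5*y^7 +ω^3*x^7*y^3 -ω^3*x^7*y^5 -2*ω^5*x*y +2*ω^5*x*y^3 +2*ω^5*x^3*y -ω^5*x^3*y^3 -ω^5*x^3*y^7 -ω^5*x^5*y^5 +ω^5*x^5*y^7 -ω^5*x^7*y^3 +ω^5*x^7*y^5 +ω^6*x*y^3 -ω^6*x*y^5 +ω^6*x^3*y -ω^6*x^3*y^3 -ω^6*x^5*y -ω^6*x^5*y^5 +2*ω^6*x^5*y^7 +2*ω^6*x^7*y^5 -2*ω^6*x^7*y^7 -ω^8*x*y^3 +ω^8*x*y^5 -ω^8*x^3*y +ω^8*x^3*y^3 +ω^8*x^5*y -ω^8*x^5*y^7 -ω^8*x^7*y^5 +ω^8*x^7*y^7 +ω^9*x*y -ω^9*x*y^3 -ω^9*x^3*y +ω^9*x^3*y^3)*hω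 + (-1)*((s*x*(ω^2-1)*(x^2-1))*i)*((s*y*(ω^2-1)*(y^2-1))*j)*1*hxy
  · linear_combination i*k*j*(x^4*y^4 -x^4*y^6 -x^6*y^4 +x^6*y^6 -3*ω^2*x^4*y^4 +3*ω^2*x^4*y^6 +3*ω^2*x^6*y^4 -3*ω^2*x^6*y^6 -ω^3*x^2*y^2 +ω^3*x^2*y^4 +ω^3*x^4*y^2 -ω^3*x^4*y^4 +3*ω^4*x^4*y^4 -3*ω^4*x^4*y^6 -3*ω^4*x^6*y^4 +3*ω^4*x^6*y^6 +3*ω^5*x^2*y^2 -3*ω^5*x^2*y^4 -3*ω^5*x^4*y^2 +3*ω^5*x^4*y^4 -ω^6*x^4*y^4 +ω^6*x^4*y^6 +ω^6*x^6*y^4 -ω^6*x^6*y^6 -3*ω^7*x^2*y^2 +3*ω^7*x^2*y^4 +3*ω^7*x^4*y^2 -3*ω^7*x^4*y^4 +ω^9*x^2*y^2 -ω^9*x^2*y^4 -ω^9*x^4*y^2 +ω^9*x^4*y^4)*hs + i*k*j*(ω^2*x^6*y^6 -ω^2*x^6*y^8 -ω^2*x^8*y^6 +ω^2*x^8*y^8 -ω^3*x^4*y^6 +ω^3*x^4*y^8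 -ω^3*x^6*y^4 +2*ω^3*x^6*y^6 -ω^3*x^6*y^8 +ω^3*x^8*y^4 -ω^3*x^8*y^6 +ω^5*x^2*y^4 -ω^5*x^2*y^6 +ω^5*x^4*y^2 -3*ω^5*x^4*y^4 +2*ω^5*x^4*y^6 -ω^5*x^6*y^2 +2*ω^5*x^6*y^4 -ω^5*x^6*y^6 -ω^6*x^2*y^2 +2*ω^6*x^2*y^4 -ω^6*x^2*y^6 +2*ω^6*x^4*y^2 -3*ω^6*x^4*y^4 +ω^6*x^4*y^6 -ω^6*x^6*y^2 +ω^6*x^6*y^4 -ω^8*y^2 +ω^8*y^4 -ω^8*x^2 +2*ω^8*x^2*y^2 -ω^8*x^2*y^4 +ω^8*x^4 -ω^8*x^4*y^2 +ω^9 -ω^9*y^2 -ω^9*x^2 +ω^9*x^2*y^2)*hω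
  · linear_combination 0
  · linear_combination i*k*j*(s*x^3*y^4 -s*x^3*y^6 -s*x^5*y^4 +s*x^5*y^8 +s*x^7*y^6 -s*x^7*y^8 -s*ω^2*x^3*y^4 +s*ω^2*x^3*y^6 +s*ω^2*x^5*y^4 -s*ω^2*x^5*y^8 -s*ω^2*x^7*y^6 +s*ω^2*x^7*y^8 -s*ω^3*x*y^2 +s*ω^3*x*y^4 +s*ω^3*x^3*y^4 -s*ω^3*x^3*y^6 +s*ω^3*x^5*y^2 -s*ω^3*x^5*y^4 -s*ω^3*x^7*y^4 +s*ω^3*x^7*y^6 +s*ω^5*x*y^2 -s*ω^5*x*y^4 -s*ω^5*x^3*y^4 +s*ω^5*x^3*y^6 -s*ω^5*x^5*y^2 +s*ω^5*x^5*y^4 +s*ω^5*x^7*y^4 -s*ω^5*x^7*y^6 +s*ω^6*x -s*ω^6*x*y^2 -s*ω^6*x^3 +s*ω^6*x^3*y^4 +s*ω^6*x^5*y^2 -s*ω^6*x^5*y^4 -s*ω^8*x +s*ω^8*x*y^2 +s*ω^8*x^3 -s*ω^8*x^3*y^4 -s*ω^8*x^5*y^2 +s*ω^8*x^5*y^4)*hω +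 (-1)*(((ω^2-1)*(x*y)*(ω^3-(x*y)^2))*k)*((s*y*(ω^2-1)*(y^2-1))*j)*1*hx
  · linear_combination i*k*j*(-s*x^4*y^3 +s*x^4*y^5 +s*x^6*y^3 -s*x^6*y^7 -s*x^8*y^5 +s*x^8*y^7 +s*ω^2*x^4*y^3 -s*ω^2*x^4*y^5 -s*ω^2*x^6*y^3 +s*ω^2*x^6*y^7 +s*ω^2*x^8*y^5 -s*ω^2*x^8*y^7 +s*ω^3*x^2*y -s*ω^3*x^2*y^5 -s*ω^3*x^4*y -s*ω^3*x^4*y^3 +s*ω^3*x^4*y^5 +s*ω^3*x^4*y^7 +s*ω^3*x^6*y^3 -s*ω^3*x^6*y^7 -s*ω^5*x^2*y +s*ω^5*x^2*y^5 +s*ω^5*x^4*y +s*ω^5*x^4*y^3 -s*ω^5*x^4*y^5 -s*ω^5*x^4*y^7 -s*ω^5*x^6*y^3 +s*ω^5*x^6*y^7 -s*ω^6*y +s*ω^6*y^3 +s*ω^6*x^2*y -s*ω^6*x^2*y^5 -s*ω^6*x^4*y^3 +s*ω^6*x^4*y^5 +s*ω^8*y -s*ω^8*y^3 -s*ω^8*x^2*y +s*ω^8*x^2*y^5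 +s*ω^8*x^4*y^3 -s*ω^8*x^4*y^5)*hω + (1)*((s*x*(ω^2-1)*(x^2-1))*i)*(((ω^2-1)*(x*y)*(ω^3-(x*y)^2))*k)*1*hy

end Pool.Agent.EXL
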