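import Pool.Agent.EXL.Pat

/-!
# Yang-Baxter equation for the rhombus operators

Generated file: 22 scalar equations (`YB`), 14 test states, reduction of the general case.
-/

namespace Pool.Agent.EXL

open Pat

variable {α K : Type*} [DecidableEq α] [CommRing K]

/-- The 22 scalar equations that are equivalent to the Yang-Baxter equation. -/
structure YB (a c b : Wt K) : Prop where
  e1 : a.u1 * c.u1 * b.v + a.v * c.w1 * b.u1 - a.w1 * c.v * b.u1 = 0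
  e2 : a.u1 * c.u2 * b.w2 + a.v * c.v * b.u2 - a.w1 * c.w2 * b.u2 = 0
  e3 : -(a.u1 * c.v * b.u2) - a.v * c.u2 * b.w2 + a.w1 * c.u2 * b.v = 0
  e4 : a.u1 * c.v * b.w1 - a.u1 * c.w1 * b.v - a.v * c.u1 * b.u1 = 0
  e5 : a.u1 * c.v * b.w2 - a.u1 * c.w2 * b.v + a.v * c.u2 * b.u2 = 0
  e6 : -(a.u1 * c.w1 * b.u1) - a.v * c.u1 * b.v + a.w1 * c.u1 * b.w1 = 0
  e7 : a.u2 * c.u2 * b.v - a.v * c.w2 * b.u1 + a.w2 * c.v * b.u1 = 0
  e8 : a.u2 * c.v * b.u1 - a.v * c.u2 * b.w1 + a.w2 * c.u2 * b.v = 0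
  e9 : a.u2 * c.v * b.v - a.u2 * c.w2 * b.w1 + a.w2 * c.u2 * b.u1 = 0
  e10 : -(b.u2) + a.u1 * c.u2 - a.u2 * c.u1 * b.w1 + a.v * c.v * b.u2 = 0
  e11 : -(c.u1) + a.u1 * b.u1 - a.u2 * c.w2 * b.u2 + a.v * c.u1 * b.v = 0
  e12 : -(c.u1 * b.u2) - a.u2 * c.w1 * b.w1 - a.u2 * c.w2 * b.w2 + a.w1 * c.u2 * b.u1 = 0
  e13 : -(c.u2 * b.u1) + a.u2 - a.u2 * c.v * b.v + a.w1 * c.u1 * b.u2 = 0
  e14 : -(c.u2 * b.v) + a.u1 * c.v * b.u2 - a.u2 * c.v * b.u1 + a.v * c.u2 = 0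
  e15 : -(c.v * b.u1) + a.u1 * c.u1 * b.v - a.u2 * c.u2 * b.v + a.v * b.u1 = 0
  e16 : a.u1 * b.v - a.u1 * c.v + a.v * c.u1 * b.u1 - a.v * c.u2 * b.u2 = 0
  e17 : -(a.u1 * c.u2 * b.w1) + a.u2 * c.u1 + a.w1 * c.w1 * b.u2 + a.w2 * c.w2 * b.u2 = 0
  e18 : -(a.u1 * c.w2 * b.u1) + a.u2 * b.u2 + a.w1 * c.u1 * b.w2 + a.w2 * c.u1 * b.w1 = 0
  e19 : a.u2 * c.u1 * b.u2 + a.w1 * c.w1 * b.w2 - a.w1 * c.w2 * b.w1 + a.w2 * c.w1 * b.w1 + a.w2 * c.w2 * b.w2 = 0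
  e20 : a.u1 * c.v * b.u2 - a.u2 * c.v * b.u1 + a.v * c.u2 * b.w1 + a.v * c.u2 * b.w2 - a.w1 * c.u2 * b.v - a.w2 * c.u2 * b.v = 0
  e21 : c.u1 * b.u2 - a.u2 * c.v * b.v + a.u2 * c.w1 * b.w1 + a.u2 * c.w2 * b.w1 + a.u2 * c.w2 * b.w2 - a.w1 * c.u2 * b.u1 - a.w2 * c.u2 * b.u1 = 0
  e22 : a.u1 * c.u2 * b.w1 + a.u1 * c.u2 * b.w2 - a.u2 * c.u1 + a.v * c.v * b.u2 - a.w1 * c.w1 * b.u2 - a.w1 * c.w2 * b.u2 - a.w2 * c.w2 * b.u2 = 0

def P3_0 : Pat (Fin 3) := ⟨![0, 1, 2], by decide⟩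

def P3_1 : Pat (Fin 3) := ⟨![0, 2, 1], by decide⟩

def P3_2 : Pat (Fin 3) := ⟨![2, 1, 0], by decide⟩

def P3_3 : Pat (Fin 3) := ⟨![1, 0, 2], by decide⟩

def P4_0 : Pat (Fin 4) := ⟨![3, 1, 2, 0], by decide⟩

def P4_1 : Pat (Fin 4) := ⟨![3, 2, 1, 0], by decide⟩

def P4_2 : Pat (Fin 4) := ⟨![1, 0, 3, 2], by decide⟩

def P4_3 : Pat (Fin 4) := ⟨![0, 3, 2, 1], by decide⟩

def P4_4 : Pat (Fin 4) := ⟨![2, 3, 0, 1], by decide⟩

def P4_5 : Pat (Fin 4) := ⟨![0, 1, 3, 2], by decide⟩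

def P5_0 : Pat (Fin 5) := ⟨![0, 3, 4, 1, 2], by decide⟩

def P5_1 : Pat (Fin 5) := ⟨![0, 4, 3, 2, 1], by decide⟩

def P5_2 : Pat (Fin 5) := ⟨![0, 1, 2, 4, 3], by decide⟩

def P5_3 : Pat (Fin 5) := ⟨![0, 2, 1, 4, 3], by decide⟩

def P5_4 : Pat (Fin 5) := ⟨![2, 1, 0, 4, 3], by decide⟩

def P5_5 : Pat (Fin 5) := ⟨![1, 0, 2, 4, 3], by decide⟩

def P5_6 : Pat (Fin 5) := ⟨![3, 4, 2, 0, 1], by decide⟩

def P5_7 : Pat (Fin 5) := ⟨![4, 3, 2, 1, 0], by decide⟩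

def P5_8 : Pat (Fin 5) := ⟨![4, 1, 3, 2, 0], by decide⟩

def P5_9 : Pat (Fin 5) := ⟨![3, 1, 4, 0, 2], by decide⟩

def P6_0 : Pat (Fin 6) := ⟨![3, 4, 5, 0, 1, 2], by decide⟩

def P6_1 : Pat (Fin 6) := ⟨![3, 5, 4, 0, 2, 1], by decide⟩

def P6_2 : Pat (Fin 6) := ⟨![3, 1, 2, 0, 5, 4], by decide⟩

def P6_3 : Pat (Fin 6) := ⟨![3, 2, 1, 0, 5, 4], by decide⟩

def P6_4 : Pat (Fin 6) := ⟨![0, 1, 3, 2, 5, 4], by decide⟩

def P6_5 : Pat (Fin 6) := ⟨![4, 5, 3, 2, 0, 1], by decide⟩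

def P6_6 : Pat (Fin 6) := ⟨![0, 5, 2, 4, 3, 1], by decide⟩

def P6_7 : Pat (Fin 6) := ⟨![2, 5, 0, 4, 3, 1], by decide⟩

def P6_8 : Pat (Fin 6) := ⟨![1, 0, 3, 2, 5, 4], by decide⟩

def P6_9 : Pat (Fin 6) := ⟨![0, 3, 2, 1, 5, 4], by decide⟩

def P6_10 : Pat (Fin 6) := ⟨![2, 3, 0, 1, 5, 4], by decide⟩

def P6_11 : Pat (Fin 6) := ⟨![5, 2, 1, 4, 3, 0], by decide⟩

def P6_12 : Pat (Fin 6) := ⟨![0, 1, 5, 4, 3, 2], by decide⟩

def P6_13 : Pat (Fin 6) := ⟨![1, 0, 5, 4, 3, 2], by decide⟩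

def P6_14 : Pat (Fin 6) := ⟨![5, 1, 2, 4, 3, 0], by decide⟩

def P6_15 : Pat (Fin 6) := ⟨![5, 4, 3, 2, 1, 0], by decide⟩

def P6_16 : Pat (Fin 6) := ⟨![4, 3, 5, 1, 0, 2], by decide⟩

def P6_17 : Pat (Fin 6) := ⟨![5, 3, 4, 1, 2, 0], by decide⟩

theorem ev_P3_0_12 (w : Wt K) (F : Pat (Fin 3) → K) :
    R w 1 2 F P3_0 = F P3_0 + w.u2 * F P3_1 :=
  R_e (by decide) (by decide) (by decide)

theorem ev_P3_0_02 (w : Wt K) (F : Pat (Fin 3) → K) :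
    R w 0 2 F P3_0 = F P3_0 + w.u2 * F P3_2 :=
  R_e (by decide) (by decide) (by decide)

theorem ev_P3_1_02 (w : Wt K) (F : Pat (Fin 3) → K) :
    R w 0 2 F P3_1 = w.v * F P3_1 + w.u1 * F P3_3 :=
  R_r (by decide) (by decide) (by decide)

theorem ev_P3_0_01 (w : Wt K) (F : Pat (Fin 3) → K) :
    R w 0 1 F P3_0 = F P3_0 + w.u2 * F P3_3 :=
  R_e (by decide) (by decide) (by decide)

theorem ev_P3_1_01 (w : Wt K) (F : Pat (Fin 3) → K) :
    R w 0 1 F P3_1 = w.v * F P3_1 + w.u1 * F P3_2 :=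
  R_r (by decide) (by decide) (by decide)

theorem ev_P3_3_01 (w : Wt K) (F : Pat (Fin 3) → K) :
    R w 0 1 F P3_3 = w.w1 * F P3_3 :=
  R_p (by decide) (by decide)

theorem ev_P3_2_01 (w : Wt K) (F : Pat (Fin 3) → K) :
    R w 0 1 F P3_2 = w.v * F P3_2 + w.u1 * F P3_1 :=
  R_l (by decide) (by decide) (by decide)

theorem ev_P3_3_02 (w : Wt K) (F : Pat (Fin 3) → K) :
    R w 0 2 F P3_3 = w.v * F P3_3 + w.u1 * F P3_1 :=
  R_l (by decide) (by decide) (by decide)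

theorem ev_P3_1_12 (w : Wt K) (F : Pat (Fin 3) → K) :
    R w 1 2 F P3_1 = w.w1 * F P3_1 :=
  R_p (by decide) (by decide)

theorem ev_P3_3_12 (w : Wt K) (F : Pat (Fin 3) → K) :
    R w 1 2 F P3_3 = w.v * F P3_3 + w.u1 * F P3_2 :=
  R_l (by decide) (by decide) (by decide)

theorem ev_P3_2_12 (w : Wt K) (F : Pat (Fin 3) → K) :
    R w 1 2 F P3_2 = w.v * F P3_2 + w.u1 * F P3_3 :=
  R_r (by decide) (by decide) (by decide)

theorem ev_P3_2_02 (w : Wt K) (F : Pat (Fin 3) → K) :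
    R w 0 2 F P3_2 = w.w1 * F P3_2 :=
  R_p (by decide) (by decide)

theorem ev_P4_0_12 (w : Wt K) (F : Pat (Fin 4) → K) :
    R w 1 2 F P4_0 = F P4_0 + w.u2 * F P4_1 :=
  R_e (by decide) (by decide) (by decide)

theorem ev_P4_1_02 (w : Wt K) (F : Pat (Fin 4) → K) :
    R w 0 2 F P4_1 = w.w1 * F P4_2 + w.u2 * F P4_3 + w.w2 * F P4_4 :=
  R_d (by decide) (by decide) (by decide) (by decide) (by decide) (by decide)

theorem ev_P4_0_02 (w : Wt K) (F : Pat (Fin 4) → K) :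
    R w 0 2 F P4_0 = w.v * F P4_0 + w.u1 * F P4_5 :=
  R_l (by decide) (by decide) (by decide)

theorem ev_P4_4_01 (w : Wt K) (F : Pat (Fin 4) → K) :
    R w 0 1 F P4_4 = w.w1 * F P4_1 + w.u2 * F P4_5 + w.w2 * F P4_2 :=
  R_d (by decide) (by decide) (by decide) (by decide) (by decide) (by decide)

theorem ev_P4_2_01 (w : Wt K) (F : Pat (Fin 4) → K) :
    R w 0 1 F P4_2 = w.w1 * F P4_2 :=
  R_p (by decide) (by decide)

theorem ev_P4_0_01 (w : Wt K) (F : Pat (Fin 4) → K) :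
    R w 0 1 F P4_0 = w.v * F P4_0 + w.u1 * F P4_3 :=
  R_l (by decide) (by decide) (by decide)

theorem ev_P4_5_01 (w : Wt K) (F : Pat (Fin 4) → K) :
    R w 0 1 F P4_5 = F P4_5 + w.u2 * F P4_2 :=
  R_e (by decide) (by decide) (by decide)

theorem ev_P4_3_01 (w : Wt K) (F : Pat (Fin 4) → K) :
    R w 0 1 F P4_3 = w.v * F P4_3 + w.u1 * F P4_0 :=
  R_r (by decide) (by decide) (by decide)

theorem ev_P4_3_02 (w : Wt K) (F : Pat (Fin 4) → K) :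
    R w 0 2 F P4_3 = F P4_3 + w.u2 * F P4_4 :=
  R_e (by decide) (by decide) (by decide)

theorem ev_P4_4_12 (w : Wt K) (F : Pat (Fin 4) → K) :
    R w 1 2 F P4_4 = w.w1 * F P4_2 + w.u2 * F P4_0 + w.w2 * F P4_1 :=
  R_d (by decide) (by decide) (by decide) (by decide) (by decide) (by decide)

theorem ev_P4_5_12 (w : Wt K) (F : Pat (Fin 4) → K) :
    R w 1 2 F P4_5 = w.v * F P4_5 + w.u1 * F P4_3 :=
  R_r (by decide) (by decide) (by decide)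

theorem ev_P4_3_12 (w : Wt K) (F : Pat (Fin 4) → K) :
    R w 1 2 F P4_3 = w.v * F P4_3 + w.u1 * F P4_5 :=
  R_l (by decide) (by decide) (by decide)

theorem ev_P4_5_02 (w : Wt K) (F : Pat (Fin 4) → K) :
    R w 0 2 F P4_5 = w.v * F P4_5 + w.u1 * F P4_0 :=
  R_r (by decide) (by decide) (by decide)

theorem ev_P4_2_02 (w : Wt K) (F : Pat (Fin 4) → K) :
    R w 0 2 F P4_2 = w.w1 * F P4_1 + w.u2 * F P4_3 + w.w2 * F P4_4 :=
  R_d (by decide) (by decide) (by decide) (by decide) (by decide) (by decide)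

theorem ev_P4_1_12 (w : Wt K) (F : Pat (Fin 4) → K) :
    R w 1 2 F P4_1 = w.w1 * F P4_1 :=
  R_p (by decide) (by decide)

theorem ev_P4_1_01 (w : Wt K) (F : Pat (Fin 4) → K) :
    R w 0 1 F P4_1 = w.w1 * F P4_4 + w.u2 * F P4_5 + w.w2 * F P4_2 :=
  R_d (by decide) (by decide) (by decide) (by decide) (by decide) (by decide)

theorem ev_P4_4_02 (w : Wt K) (F : Pat (Fin 4) → K) :
    R w 0 2 F P4_4 = w.w1 * F P4_4 :=
  R_p (by decide) (by decide)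

theorem ev_P4_2_12 (w : Wt K) (F : Pat (Fin 4) → K) :
    R w 1 2 F P4_2 = w.w1 * F P4_4 + w.u2 * F P4_0 + w.w2 * F P4_1 :=
  R_d (by decide) (by decide) (by decide) (by decide) (by decide) (by decide)

theorem ev_P5_0_12 (w : Wt K) (F : Pat (Fin 5) → K) :
    R w 1 2 F P5_0 = w.w1 * F P5_1 + w.u2 * F P5_2 + w.w2 * F P5_3 :=
  R_d (by decide) (by decide) (by decide) (by decide) (by decide) (by decide)

theorem ev_P5_2_02 (w : Wt K) (F : Pat (Fin 5) → K) :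
    R w 0 2 F P5_2 = F P5_2 + w.u2 * F P5_4 :=
  R_e (by decide) (by decide) (by decide)

theorem ev_P5_3_02 (w : Wt K) (F : Pat (Fin 5) → K) :
    R w 0 2 F P5_3 = w.v * F P5_3 + w.u1 * F P5_5 :=
  R_r (by decide) (by decide) (by decide)

theorem ev_P5_1_02 (w : Wt K) (F : Pat (Fin 5) → K) :
    R w 0 2 F P5_1 = w.v * F P5_1 + w.u1 * F P5_6 :=
  R_r (by decide) (by decide) (by decide)

theorem ev_P5_2_01 (w : Wt K) (F : Pat (Fin 5) → K) :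
    R w 0 1 F P5_2 = F P5_2 + w.u2 * F P5_5 :=
  R_e (by decide) (by decide) (by decide)

theorem ev_P5_6_01 (w : Wt K) (F : Pat (Fin 5) → K) :
    R w 0 1 F P5_6 = w.w1 * F P5_7 + w.u2 * F P5_2 + w.w2 * F P5_5 :=
  R_d (by decide) (by decide) (by decide) (by decide) (by decide) (by decide)

theorem ev_P5_3_01 (w : Wt K) (F : Pat (Fin 5) → K) :
    R w 0 1 F P5_3 = w.v * F P5_3 + w.u1 * F P5_4 :=
  R_r (by decide) (by decide) (by decide)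

theorem ev_P5_1_01 (w : Wt K) (F : Pat (Fin 5) → K) :
    R w 0 1 F P5_1 = w.v * F P5_1 + w.u1 * F P5_8 :=
  R_r (by decide) (by decide) (by decide)

theorem ev_P5_5_01 (w : Wt K) (F : Pat (Fin 5) → K) :
    R w 0 1 F P5_5 = w.w1 * F P5_5 :=
  R_p (by decide) (by decide)

theorem ev_P5_4_01 (w : Wt K) (F : Pat (Fin 5) → K) :
    R w 0 1 F P5_4 = w.v * F P5_4 + w.u1 * F P5_3 :=
  R_l (by decide) (by decide) (by decide)

theorem ev_P5_0_01 (w : Wt K) (F : Pat (Fin 5) → K) :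
    R w 0 1 F P5_0 = w.v * F P5_0 + w.u1 * F P5_9 :=
  R_r (by decide) (by decide) (by decide)

theorem ev_P5_0_02 (w : Wt K) (F : Pat (Fin 5) → K) :
    R w 0 2 F P5_0 = w.v * F P5_0 + w.u1 * F P5_7 :=
  R_r (by decide) (by decide) (by decide)

theorem ev_P5_9_02 (w : Wt K) (F : Pat (Fin 5) → K) :
    R w 0 2 F P5_9 = w.w1 * F P5_8 + w.u2 * F P5_2 + w.w2 * F P5_4 :=
  R_d (by decide) (by decide) (by decide) (by decide) (by decide) (by decide)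

theorem ev_P5_7_12 (w : Wt K) (F : Pat (Fin 5) → K) :
    R w 1 2 F P5_7 = w.v * F P5_7 + w.u1 * F P5_8 :=
  R_l (by decide) (by decide) (by decide)

theorem ev_P5_2_12 (w : Wt K) (F : Pat (Fin 5) → K) :
    R w 1 2 F P5_2 = F P5_2 + w.u2 * F P5_3 :=
  R_e (by decide) (by decide) (by decide)

theorem ev_P5_8_12 (w : Wt K) (F : Pat (Fin 5) → K) :
    R w 1 2 F P5_8 = w.v * F P5_8 + w.u1 * F P5_7 :=
  R_r (by decide) (by decide) (by decide)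

theorem ev_P5_4_12 (w : Wt K) (F : Pat (Fin 5) → K) :
    R w 1 2 F P5_4 = w.v * F P5_4 + w.u1 * F P5_5 :=
  R_r (by decide) (by decide) (by decide)

theorem ev_P5_9_12 (w : Wt K) (F : Pat (Fin 5) → K) :
    R w 1 2 F P5_9 = w.v * F P5_9 + w.u1 * F P5_6 :=
  R_r (by decide) (by decide) (by decide)

theorem ev_P5_6_02 (w : Wt K) (F : Pat (Fin 5) → K) :
    R w 0 2 F P5_6 = w.v * F P5_6 + w.u1 * F P5_1 :=
  R_l (by decide) (by decide) (by decide)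

theorem ev_P5_8_01 (w : Wt K) (F : Pat (Fin 5) → K) :
    R w 0 1 F P5_8 = w.v * F P5_8 + w.u1 * F P5_1 :=
  R_l (by decide) (by decide) (by decide)

theorem ev_P5_9_01 (w : Wt K) (F : Pat (Fin 5) → K) :
    R w 0 1 F P5_9 = w.v * F P5_9 + w.u1 * F P5_0 :=
  R_l (by decide) (by decide) (by decide)

theorem ev_P5_6_12 (w : Wt K) (F : Pat (Fin 5) → K) :
    R w 1 2 F P5_6 = w.v * F P5_6 + w.u1 * F P5_9 :=
  R_l (by decide) (by decide) (by decide)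

theorem ev_P5_5_02 (w : Wt K) (F : Pat (Fin 5) → K) :
    R w 0 2 F P5_5 = w.v * F P5_5 + w.u1 * F P5_3 :=
  R_l (by decide) (by decide) (by decide)

theorem ev_P5_7_02 (w : Wt K) (F : Pat (Fin 5) → K) :
    R w 0 2 F P5_7 = w.v * F P5_7 + w.u1 * F P5_0 :=
  R_l (by decide) (by decide) (by decide)

theorem ev_P5_3_12 (w : Wt K) (F : Pat (Fin 5) → K) :
    R w 1 2 F P5_3 = w.w1 * F P5_3 :=
  R_p (by decide) (by decide)

theorem ev_P5_5_12 (w : Wt K) (F : Pat (Fin 5) → K) :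
    R w 1 2 F P5_5 = w.v * F P5_5 + w.u1 * F P5_4 :=
  R_l (by decide) (by decide) (by decide)

theorem ev_P6_0_12 (w : Wt K) (F : Pat (Fin 6) → K) :
    R w 1 2 F P6_0 = w.w1 * F P6_1 + w.u2 * F P6_2 + w.w2 * F P6_3 :=
  R_d (by decide) (by decide) (by decide) (by decide) (by decide) (by decide)

theorem ev_P6_2_02 (w : Wt K) (F : Pat (Fin 6) → K) :
    R w 0 2 F P6_2 = w.v * F P6_2 + w.u1 * F P6_4 :=
  R_l (by decide) (by decide) (by decide)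

theorem ev_P6_1_02 (w : Wt K) (F : Pat (Fin 6) → K) :
    R w 0 2 F P6_1 = w.w1 * F P6_5 + w.u2 * F P6_6 + w.w2 * F P6_7 :=
  R_d (by decide) (by decide) (by decide) (by decide) (by decide) (by decide)

theorem ev_P6_3_02 (w : Wt K) (F : Pat (Fin 6) → K) :
    R w 0 2 F P6_3 = w.w1 * F P6_8 + w.u2 * F P6_9 + w.w2 * F P6_10 :=
  R_d (by decide) (by decide) (by decide) (by decide) (by decide) (by decide)

theorem ev_P6_9_01 (w : Wt K) (F : Pat (Fin 6) → K) :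
    R w 0 1 F P6_9 = w.v * F P6_9 + w.u1 * F P6_2 :=
  R_r (by decide) (by decide) (by decide)

theorem ev_P6_2_01 (w : Wt K) (F : Pat (Fin 6) → K) :
    R w 0 1 F P6_2 = w.v * F P6_2 + w.u1 * F P6_9 :=
  R_l (by decide) (by decide) (by decide)

theorem ev_P6_10_01 (w : Wt K) (F : Pat (Fin 6) → K) :
    R w 0 1 F P6_10 = w.w1 * F P6_3 + w.u2 * F P6_4 + w.w2 * F P6_8 :=
  R_d (by decide) (by decide) (by decide) (by decide) (by decide) (by decide)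

theorem ev_P6_8_01 (w : Wt K) (F : Pat (Fin 6) → K) :
    R w 0 1 F P6_8 = w.w1 * F P6_8 :=
  R_p (by decide) (by decide)

theorem ev_P6_7_01 (w : Wt K) (F : Pat (Fin 6) → K) :
    R w 0 1 F P6_7 = w.w1 * F P6_11 + w.u2 * F P6_12 + w.w2 * F P6_13 :=
  R_d (by decide) (by decide) (by decide) (by decide) (by decide) (by decide)

theorem ev_P6_4_01 (w : Wt K) (F : Pat (Fin 6) → K) :
    R w 0 1 F P6_4 = F P6_4 + w.u2 * F P6_8 :=
  R_e (by decide) (by decide) (by decide)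

theorem ev_P6_6_01 (w : Wt K) (F : Pat (Fin 6) → K) :
    R w 0 1 F P6_6 = w.v * F P6_6 + w.u1 * F P6_14 :=
  R_r (by decide) (by decide) (by decide)

theorem ev_P6_5_01 (w : Wt K) (F : Pat (Fin 6) → K) :
    R w 0 1 F P6_5 = w.w1 * F P6_15 + w.u2 * F P6_4 + w.w2 * F P6_8 :=
  R_d (by decide) (by decide) (by decide) (by decide) (by decide) (by decide)

theorem ev_P6_0_01 (w : Wt K) (F : Pat (Fin 6) → K) :
    R w 0 1 F P6_0 = w.w1 * F P6_16 + w.u2 * F P6_12 + w.w2 * F P6_13 :=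
  R_d (by decide) (by decide) (by decide) (by decide) (by decide) (by decide)

theorem ev_P6_12_02 (w : Wt K) (F : Pat (Fin 6) → K) :
    R w 0 2 F P6_12 = w.v * F P6_12 + w.u1 * F P6_14 :=
  R_r (by decide) (by decide) (by decide)

theorem ev_P6_13_02 (w : Wt K) (F : Pat (Fin 6) → K) :
    R w 0 2 F P6_13 = w.w1 * F P6_11 + w.u2 * F P6_6 + w.w2 * F P6_7 :=
  R_d (by decide) (by decide) (by decide) (by decide) (by decide) (by decide)

theorem ev_P6_16_02 (w : Wt K) (F : Pat (Fin 6) → K) :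
    R w 0 2 F P6_16 = w.w1 * F P6_17 + w.u2 * F P6_9 + w.w2 * F P6_10 :=
  R_d (by decide) (by decide) (by decide) (by decide) (by decide) (by decide)

theorem ev_P6_11_12 (w : Wt K) (F : Pat (Fin 6) → K) :
    R w 1 2 F P6_11 = w.w1 * F P6_11 :=
  R_p (by decide) (by decide)

theorem ev_P6_17_12 (w : Wt K) (F : Pat (Fin 6) → K) :
    R w 1 2 F P6_17 = w.w1 * F P6_15 + w.u2 * F P6_14 + w.w2 * F P6_11 :=
  R_d (by decide) (by decide) (by decide) (by decide) (by decide) (by decide)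

theorem ev_P6_9_12 (w : Wt K) (F : Pat (Fin 6) → K) :
    R w 1 2 F P6_9 = w.v * F P6_9 + w.u1 * F P6_4 :=
  R_l (by decide) (by decide) (by decide)

theorem ev_P6_14_12 (w : Wt K) (F : Pat (Fin 6) → K) :
    R w 1 2 F P6_14 = F P6_14 + w.u2 * F P6_11 :=
  R_e (by decide) (by decide) (by decide)

theorem ev_P6_10_12 (w : Wt K) (F : Pat (Fin 6) → K) :
    R w 1 2 F P6_10 = w.w1 * F P6_8 + w.u2 * F P6_2 + w.w2 * F P6_3 :=
  R_d (by decide) (by decide) (by decide) (by decide) (by decide) (by decide)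

theorem ev_P6_12_12 (w : Wt K) (F : Pat (Fin 6) → K) :
    R w 1 2 F P6_12 = w.v * F P6_12 + w.u1 * F P6_6 :=
  R_r (by decide) (by decide) (by decide)

theorem ev_P6_7_12 (w : Wt K) (F : Pat (Fin 6) → K) :
    R w 1 2 F P6_7 = w.w1 * F P6_13 + w.u2 * F P6_14 + w.w2 * F P6_11 :=
  R_d (by decide) (by decide) (by decide) (by decide) (by decide) (by decide)

theorem ev_P6_6_12 (w : Wt K) (F : Pat (Fin 6) → K) :
    R w 1 2 F P6_6 = w.v * F P6_6 + w.u1 * F P6_12 :=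
  R_l (by decide) (by decide) (by decide)

theorem yb_none {a c b : Wt K} (h : YB a c b) (F : Pat (Fin 3) → K) :
    R b 1 2 (R c 0 2 (R a 0 1 F)) P3_0 = R a 0 1 (R c 0 2 (R b 1 2 F)) P3_0 := by
  simp only [ev_P3_0_12, ev_P3_0_02, ev_P3_1_02, ev_P3_0_01, ev_P3_1_01, ev_P3_3_01, ev_P3_2_01, ev_P3_3_02, ev_P3_1_12, ev_P3_3_12, ev_P3_2_12]
  linear_combination F P3_1 * h.e10 + F P3_3 * h.e13 + F P3_2 * h.e14

theorem yb_p01 {a c b : Wt K} (h : YB a c b) (F : Pat (Fin 3) → K) :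
    R b 1 2 (R c 0 2 (R a 0 1 F)) P3_3 = R a 0 1 (R c 0 2 (R b 1 2 F)) P3_3 := by
  simp only [ev_P3_3_12, ev_P3_2_02, ev_P3_3_02, ev_P3_2_01, ev_P3_1_01, ev_P3_3_01, ev_P3_1_12]
  linear_combination (-F P3_1) * h.e6 + F P3_2 * h.e1

theorem yb_p02 {a c b : Wt K} (h : YB a c b) (F : Pat (Fin 3) → K) :
    R b 1 2 (R c 0 2 (R a 0 1 F)) P3_2 = R a 0 1 (R c 0 2 (R b 1 2 F)) P3_2 := by
  simp only [ev_P3_2_12, ev_P3_2_02, ev_P3_3_02, ev_P3_2_01, ev_P3_1_01, ev_P3_3_01, ev_P3_1_02, ev_P3_1_12, ev_P3_3_12]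
  linear_combination (-F P3_1) * h.e4 + (-F P3_3) * h.e1

theorem yb_p12 {a c b : Wt K} (h : YB a c b) (F : Pat (Fin 3) → K) :
    R b 1 2 (R c 0 2 (R a 0 1 F)) P3_1 = R a 0 1 (R c 0 2 (R b 1 2 F)) P3_1 := by
  simp only [ev_P3_1_12, ev_P3_1_02, ev_P3_1_01, ev_P3_3_01, ev_P3_2_02, ev_P3_2_12, ev_P3_3_12]
  linear_combination F P3_3 * h.e6 + F P3_2 * h.e4

theorem yb_s0 {a c b : Wt K} (h : YB a c b) (F : Pat (Fin 4) → K) :
    R b 1 2 (R c 0 2 (R a 0 1 F)) P4_0 = R a 0 1 (R c 0 2 (R b 1 2 F)) P4_0 := by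
  simp only [ev_P4_0_12, ev_P4_1_02, ev_P4_0_02, ev_P4_4_01, ev_P4_2_01, ev_P4_0_01, ev_P4_5_01, ev_P4_3_01, ev_P4_3_02, ev_P4_4_12, ev_P4_5_12, ev_P4_3_12]
  linear_combination (-F P4_5) * h.e11 + (-F P4_3) * h.e16 + F P4_2 * h.e17 + (-F P4_1) * h.e2

theorem yb_s1 {a c b : Wt K} (h : YB a c b) (F : Pat (Fin 4) → K) :
    R b 1 2 (R c 0 2 (R a 0 1 F)) P4_3 = R a 0 1 (R c 0 2 (R b 1 2 F)) P4_3 := by
  simp only [ev_P4_3_12, ev_P4_3_02, ev_P4_5_02, ev_P4_5_01, ev_P4_3_01, ev_P4_4_01, ev_P4_0_01, ev_P4_0_02, ev_P4_5_12, ev_P4_4_12, ev_P4_0_12]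
  linear_combination (-F P4_5) * h.e15 + F P4_2 * h.e8 + F P4_0 * h.e16 + F P4_1 * h.e3

theorem yb_s2 {a c b : Wt K} (h : YB a c b) (F : Pat (Fin 4) → K) :
    R b 1 2 (R c 0 2 (R a 0 1 F)) P4_5 = R a 0 1 (R c 0 2 (R b 1 2 F)) P4_5 := by
  simp only [ev_P4_5_12, ev_P4_3_02, ev_P4_5_02, ev_P4_5_01, ev_P4_3_01, ev_P4_4_01, ev_P4_0_01, ev_P4_2_02, ev_P4_1_12, ev_P4_4_12, ev_P4_3_12, ev_P4_0_12]
  linear_combination F P4_3 * h.e15 + F P4_2 * h.e9 + F P4_0 * h.e11 + F P4_1 * h.e12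

theorem yb_ps0 {a c b : Wt K} (h : YB a c b) (F : Pat (Fin 4) → K) :
    R b 1 2 (R c 0 2 (R a 0 1 F)) P4_1 = R a 0 1 (R c 0 2 (R b 1 2 F)) P4_1 := by
  simp only [ev_P4_1_12, ev_P4_1_02, ev_P4_4_01, ev_P4_3_01, ev_P4_2_01, ev_P4_1_01, ev_P4_5_02, ev_P4_4_02, ev_P4_2_02, ev_P4_4_12, ev_P4_5_12, ev_P4_3_12, ev_P4_0_12]
  linear_combination (-F P4_5) * h.e9 + (-F P4_3) * h.e8 + (-F P4_0) * h.e17 + (-F P4_1) * h.e19

theorem yb_ps1 {a c b : Wt K} (h : YB a c b) (F : Pat (Fin 4) → K) :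
    R b 1 2 (R c 0 2 (R a 0 1 F)) P4_4 = R a 0 1 (R c 0 2 (R b 1 2 F)) P4_4 := by
  simp only [ev_P4_4_12, ev_P4_1_02, ev_P4_0_02, ev_P4_2_02, ev_P4_1_01, ev_P4_4_01, ev_P4_2_01, ev_P4_0_01, ev_P4_5_01, ev_P4_3_01, ev_P4_5_02, ev_P4_1_12, ev_P4_2_12, ev_P4_0_12, ev_P4_5_12, ev_P4_3_12]
  linear_combination F P4_5 * h.e21 + F P4_3 * h.e20 + F P4_2 * h.e19 + F P4_0 * h.e22 + (-F P4_1) * h.e19

theorem yb_ps2 {a c b : Wt K} (h : YB a c b) (F : Pat (Fin 4) → K) :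
    R b 1 2 (R c 0 2 (R a 0 1 F)) P4_2 = R a 0 1 (R c 0 2 (R b 1 2 F)) P4_2 := by
  simp only [ev_P4_2_12, ev_P4_1_02, ev_P4_0_02, ev_P4_4_02, ev_P4_4_01, ev_P4_2_01, ev_P4_0_01, ev_P4_5_01, ev_P4_3_01, ev_P4_2_02, ev_P4_1_12, ev_P4_3_12, ev_P4_4_12]
  linear_combination (-F P4_5) * h.e12 + (-F P4_3) * h.e3 + F P4_2 * h.e19 + F P4_0 * h.e2

theorem yb_d0 {a c b : Wt K} (h : YB a c b) (F : Pat (Fin 5) → K) :
    R b 1 2 (R c 0 2 (R a 0 1 F)) P5_0 = R a 0 1 (R c 0 2 (R b 1 2 F)) P5_0 := by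
  simp only [ev_P5_0_12, ev_P5_2_02, ev_P5_3_02, ev_P5_1_02, ev_P5_2_01, ev_P5_6_01, ev_P5_3_01, ev_P5_1_01, ev_P5_5_01, ev_P5_4_01, ev_P5_0_01, ev_P5_0_02, ev_P5_9_02, ev_P5_7_12, ev_P5_2_12, ev_P5_8_12, ev_P5_4_12]
  linear_combination (-F P5_2) * h.e10 + F P5_5 * h.e18 + F P5_4 * h.e5 + F P5_8 * h.e4 + F P5_7 * h.e6

theorem yb_d1 {a c b : Wt K} (h : YB a c b) (F : Pat (Fin 5) → K) :
    R b 1 2 (R c 0 2 (R a 0 1 F)) P5_9 = R a 0 1 (R c 0 2 (R b 1 2 F)) P5_9 := by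
  simp only [ev_P5_9_12, ev_P5_6_02, ev_P5_9_02, ev_P5_2_01, ev_P5_6_01, ev_P5_1_01, ev_P5_8_01, ev_P5_4_01, ev_P5_9_01, ev_P5_0_02, ev_P5_7_12, ev_P5_2_12, ev_P5_0_12, ev_P5_8_12, ev_P5_4_12]
  linear_combination (-F P5_2) * h.e14 + (-F P5_3) * h.e5 + (-F P5_1) * h.e4 + F P5_5 * h.e7 + (-F P5_7) * h.e1

theorem yb_d2 {a c b : Wt K} (h : YB a c b) (F : Pat (Fin 5) → K) :
    R b 1 2 (R c 0 2 (R a 0 1 F)) P5_6 = R a 0 1 (R c 0 2 (R b 1 2 F)) P5_6 := by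
  simp only [ev_P5_6_12, ev_P5_6_02, ev_P5_9_02, ev_P5_2_01, ev_P5_6_01, ev_P5_1_01, ev_P5_8_01, ev_P5_4_01, ev_P5_5_02, ev_P5_2_02, ev_P5_7_02, ev_P5_7_12, ev_P5_2_12, ev_P5_3_12, ev_P5_5_12, ev_P5_0_12, ev_P5_4_12]
  linear_combination (-F P5_2) * h.e13 + (-F P5_3) * h.e18 + (-F P5_1) * h.e6 + (-F P5_4) * h.e7 + F P5_8 * h.e1

theorem yb_t {a c b : Wt K} (h : YB a c b) (F : Pat (Fin 6) → K) :
    R b 1 2 (R c 0 2 (R a 0 1 F)) P6_0 = R a 0 1 (R c 0 2 (R b 1 2 F)) P6_0 := by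
  simp only [ev_P6_0_12, ev_P6_2_02, ev_P6_1_02, ev_P6_3_02, ev_P6_9_01, ev_P6_2_01, ev_P6_10_01, ev_P6_8_01, ev_P6_7_01, ev_P6_4_01, ev_P6_6_01, ev_P6_5_01, ev_P6_0_01, ev_P6_12_02, ev_P6_13_02, ev_P6_16_02, ev_P6_11_12, ev_P6_17_12, ev_P6_9_12, ev_P6_14_12, ev_P6_10_12, ev_P6_12_12, ev_P6_7_12, ev_P6_6_12]
  linear_combination (-F P6_4) * h.e12 + (-F P6_12) * h.e9 + (-F P6_9) * h.e3 + (-F P6_6) * h.e8 + F P6_8 * h.e19 + F P6_2 * h.e2 + (-F P6_14) * h.e17 + (-F P6_11) * h.e19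

/-! ### Reduction of the general case to the 14 test states -/

section reduction

variable {a c b : Wt K} {p : Pat α}

omit [DecidableEq α] in
theorem inj3 {a0 a1 a2 : α} (h01 : a0 ≠ a1) (h02 : a0 ≠ a2) (h12 : a1 ≠ a2) :
    Function.Injective ![a0, a1, a2] := by
  intro x y hxy
  fin_cases x <;> fin_cases y <;> simp_all

omit [DecidableEq α] in
theorem inj4 {a0 a1 a2 a3 : α} (h01 : a0 ≠ a1) (h02 : a0 ≠ a2) (h03 : a0 ≠ a3) (h12 : a1 ≠ a2) (h13 : a1 ≠ a3) (h23 : a2 ≠ a3) :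
    Function.Injective ![a0, a1, a2, a3] := by
  intro x y hxy
  fin_cases x <;> fin_cases y <;> simp_all

omit [DecidableEq α] in
theorem inj5 {a0 a1 a2 a3 a4 : α} (h01 : a0 ≠ a1) (h02 : a0 ≠ a2) (h03 : a0 ≠ a3) (h04 : a0 ≠ a4) (h12 : a1 ≠ a2) (h13 : a1 ≠ a3) (h14 : a1 ≠ a4) (h23 : a2 ≠ a3) (h24 : a2 ≠ a4) (h34 : a3 ≠ a4) :
    Function.Injective ![a0, a1, a2, a3, a4] := by
  intro x y hxy
  fin_cases x <;> fin_cases y <;> simp_all

omit [DecidableEq α] in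
theorem inj6 {a0 a1 a2 a3 a4 a5 : α} (h01 : a0 ≠ a1) (h02 : a0 ≠ a2) (h03 : a0 ≠ a3) (h04 : a0 ≠ a4) (h05 : a0 ≠ a5) (h12 : a1 ≠ a2) (h13 : a1 ≠ a3) (h14 : a1 ≠ a4) (h15 : a1 ≠ a5) (h23 : a2 ≠ a3) (h24 : a2 ≠ a4) (h25 : a2 ≠ a5) (h34 : a3 ≠ a4) (h35 : a3 ≠ a5) (h45 : a4 ≠ a5) :
    Function.Injective ![a0, a1, a2, a3, a4, a5] := by
  intro x y hxy
  fin_cases x <;> fin_cases y <;> simp_all

theorem ybe_case {m : ℕ} (φ : Fin m → α) (inj : Function.Injective φ) (q : Pat (Fin m))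
    (hq : ∀ x, p (φ x) = φ (q x)) (x y z : Fin m)
    (H : ∀ F : Pat (Fin m) → K,
      R b y z (R c x z (R a x y F)) q = R a x y (R c x z (R b y z F)) q)
    (F : Pat α → K) :
    R b (φ y) (φ z) (R c (φ x) (φ z) (R a (φ x) (φ y) F)) p
      = R a (φ x) (φ y) (R c (φ x) (φ z) (R b (φ y) (φ z) F)) p := by
  let E : Pat.Emb (Fin m) α := ⟨φ, inj, p, fun x => ⟨q x, hq x⟩⟩
  have hst : E.st q = p := E.st_eq hq
  have key := H (fun r => F (E.st r))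
  have e1 : R b (E.φ y) (E.φ z) (R c (E.φ x) (E.φ z) (R a (E.φ x) (E.φ y) F)) (E.st q)
      = R b y z (R c x z (R a x y (fun r => F (E.st r)))) q := by
    simp only [R_st]
  have e2 : R a (E.φ x) (E.φ y) (R c (E.φ x) (E.φ z) (R b (E.φ y) (E.φ z) F)) (E.st q)
      = R a x y (R c x z (R b y z (fun r => F (E.st r)))) q := by
    simp only [R_st]
  rw [hst] at e1 e2
  rw [← e1, ← e2] at key
  exact key

/-- **Yang-Baxter equation** for arbitrary distinct sites. -/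
theorem ybe (h : YB a c b) {i j k : α} (hij : i ≠ j) (hik : i ≠ k) (hjk : j ≠ k)
    (F : Pat α → K) :
    R b j k (R c i k (R a i j F)) = R a i j (R c i k (R b j k F)) := by
  funext p
  have hji := hij.symm
  have hki := hik.symm
  have hkj := hjk.symm
  by_cases i1 : p i = i
  · by_cases j1 : p j = j
    · by_cases k1 : p k = k
      · exact ybe_case ![i, j, k] (inj3 hij hik hjk) P3_0 (by
          intro x; fin_cases x <;> simp_all [P3_0]) 0 1 2 (fun F => yb_none h F) F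
      · have nki : p k ≠ i := fun e => hik (i1.symm.trans (p.eq_comm'.1 e))
        have nkj : p k ≠ j := fun e => hjk (j1.symm.trans (p.eq_comm'.1 e))
        exact ybe_case ![i, j, k, p k] (inj4 hij hik (Ne.symm nki) hjk (Ne.symm nkj) (Ne.symm k1)) P4_5 (by
          intro x; fin_cases x <;> simp_all [P4_5]) 0 1 2 (fun F => yb_s2 h F) F
    · by_cases j2 : p j = k
      · have k2 : p k = j := p.eq_comm'.1 j2
        exact ybe_case ![i, j, k] (inj3 hij hik hjk) P3_1 (by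
          intro x; fin_cases x <;> simp_all [P3_1]) 0 1 2 (fun F => yb_p12 h F) F
      · by_cases k1 : p k = k
        · have nji : p j ≠ i := fun e => hij (i1.symm.trans (p.eq_comm'.1 e))
          exact ybe_case ![i, j, k, p j] (inj4 hij hik (Ne.symm nji) hjk (Ne.symm j1) (Ne.symm j2)) P4_3 (by
            intro x; fin_cases x <;> simp_all [P4_3]) 0 1 2 (fun F => yb_s1 h F) F
        · have nji : p j ≠ i := fun e => hij (i1.symm.trans (p.eq_comm'.1 e))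
          have nki : p k ≠ i := fun e => hik (i1.symm.trans (p.eq_comm'.1 e))
          have nkj : p k ≠ j := fun e => j2 (p.eq_comm'.1 e)
          exact ybe_case ![i, j, k, p j, p k] (inj5 hij hik (Ne.symm nji) (Ne.symm nki) hjk (Ne.symm j1) (Ne.symm nkj) (Ne.symm j2) (Ne.symm k1) (fun e => hjk (p.inj e))) P5_0 (by
            intro x; fin_cases x <;> simp_all [P5_0]) 0 1 2 (fun F => yb_d0 h F) F
  · by_cases i2 : p i = j
    · have j2 : p j = i := p.eq_comm'.1 i2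
      by_cases k1 : p k = k
      · exact ybe_case ![i, j, k] (inj3 hij hik hjk) P3_3 (by
          intro x; fin_cases x <;> simp_all [P3_3]) 0 1 2 (fun F => yb_p01 h F) F
      · have nki : p k ≠ i := fun e => hjk (i2.symm.trans (p.eq_comm'.1 e))
        have nkj : p k ≠ j := fun e => hik (j2.symm.trans (p.eq_comm'.1 e))
        exact ybe_case ![i, j, k, p k] (inj4 hij hik (Ne.symm nki) hjk (Ne.symm nkj) (Ne.symm k1)) P4_2 (by
          intro x; fin_cases x <;> simp_all [P4_2]) 0 1 2 (fun F => yb_ps2 h F) F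
    · by_cases i3 : p i = k
      · have k3 : p k = i := p.eq_comm'.1 i3
        by_cases j1 : p j = j
        · exact ybe_case ![i, j, k] (inj3 hij hik hjk) P3_2 (by
            intro x; fin_cases x <;> simp_all [P3_2]) 0 1 2 (fun F => yb_p02 h F) F
        · have nji : p j ≠ i := fun e => hkj (i3.symm.trans (p.eq_comm'.1 e))
          have njk : p j ≠ k := fun e => hij (k3.symm.trans (p.eq_comm'.1 e))
          exact ybe_case ![i, j, k, p j] (inj4 hij hik (Ne.symm nji) hjk (Ne.symm j1) (Ne.symm njk)) P4_4 (by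
            intro x; fin_cases x <;> simp_all [P4_4]) 0 1 2 (fun F => yb_ps1 h F) F
      · have ji : p j ≠ i := fun e => i2 (p.eq_comm'.1 e)
        have ki : p k ≠ i := fun e => i3 (p.eq_comm'.1 e)
        by_cases j1 : p j = j
        · by_cases k1 : p k = k
          · exact ybe_case ![i, j, k, p i] (inj4 hij hik (Ne.symm i1) hjk (Ne.symm i2) (Ne.symm i3)) P4_0 (by
              intro x; fin_cases x <;> simp_all [P4_0]) 0 1 2 (fun F => yb_s0 h F) F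
          · have nkj : p k ≠ j := fun e => hjk (j1.symm.trans (p.eq_comm'.1 e))
            exact ybe_case ![i, j, k, p i, p k] (inj5 hij hik (Ne.symm i1) (Ne.symm ki) hjk (Ne.symm i2) (Ne.symm nkj) (Ne.symm i3) (Ne.symm k1) (fun e => hik (p.inj e))) P5_9 (by
              intro x; fin_cases x <;> simp_all [P5_9]) 0 1 2 (fun F => yb_d1 h F) F
        · by_cases j2 : p j = k
          · have k2 : p k = j := p.eq_comm'.1 j2
            exact ybe_case ![i, j, k, p i] (inj4 hij hik (Ne.symm i1) hjk (Ne.symm i2) (Ne.symm i3)) P4_1 (by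
              intro x; fin_cases x <;> simp_all [P4_1]) 0 1 2 (fun F => yb_ps0 h F) F
          · by_cases k1 : p k = k
            · exact ybe_case ![i, j, k, p i, p j] (inj5 hij hik (Ne.symm i1) (Ne.symm ji) hjk (Ne.symm i2) (Ne.symm j1) (Ne.symm i3) (Ne.symm j2) (fun e => hij (p.inj e))) P5_6 (by
                intro x; fin_cases x <;> simp_all [P5_6]) 0 1 2 (fun F => yb_d2 h F) F
            · have nkj : p k ≠ j := fun e => j2 (p.eq_comm'.1 e)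
              exact ybe_case ![i, j, k, p i, p j, p k] (inj6 hij hik (Ne.symm i1) (Ne.symm ji) (Ne.symm ki) hjk (Ne.symm i2) (Ne.symm j1) (Ne.symm nkj) (Ne.symm i3) (Ne.symm j2) (Ne.symm k1) (fun e => hij (p.inj e)) (fun e => hik (p.inj e)) (fun e => hjk (p.inj e))) P6_0 (by
                intro x; fin_cases x <;> simp_all [P6_0]) 0 1 2 (fun F => yb_t h F) F

end reduction

end Pool.Agent.EXL
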